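import Mathlib

-- merged part: Pool.Agent.Work.MP_72250f_ag.Defs
section
/-!
Ball quotients (MP_72250f_ag): internal definitions.
`V n = C^(n+1)` with the hermitian form of signature `(n,1)`, linear in the first slot.
Points of the ball are negative vectors; all sets are cones, all densities scale invariant.
-/

open scoped ComplexConjugate ENNReal Topology
open MeasureTheory Filter

noncomputable section

namespace BallQ

/-- `C^(n+1)`, kept opaque so that only the Hilbert space instances are seen. -/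
def V (n : ℕ) := EuclideanSpace ℂ (Option (Fin n))

variable {n : ℕ}

instance : NormedAddCommGroup (V n) :=
  inferInstanceAs (NormedAddCommGroup (EuclideanSpace ℂ (Option (Fin n))))
instance : InnerProductSpace ℂ (V n) :=
  inferInstanceAs (InnerProductSpace ℂ (EuclideanSpace ℂ (Option (Fin n))))
instance : FiniteDimensional ℂ (V n) :=
  inferInstanceAs (FiniteDimensional ℂ (EuclideanSpace ℂ (Option (Fin n))))
instance : CompleteSpace (V n) := FiniteDimensional.complete ℂ _
instance : ProperSpace (V n) := FiniteDimensional.proper ℂ _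
instance : MeasurableSpace (V n) := borel _
instance : BorelSpace (V n) := ⟨rfl⟩

abbrev E (n : ℕ) := EuclideanSpace ℂ (Fin n)
abbrev Op (n : ℕ) := V n →L[ℂ] V n
abbrev GG (n : ℕ) := (Op n)ˣ

instance : NormedAlgebra ℚ (Op n) := NormedAlgebra.restrictScalars ℚ ℂ (Op n)

def bas (n : ℕ) : OrthonormalBasis (Option (Fin n)) ℂ (V n) := EuclideanSpace.basisFun _ _

/-- Coordinates. -/
def co (v : V n) (i : Option (Fin n)) : ℂ := (bas n).repr v i

def mkV (f : Option (Fin n) → ℂ) : V n := (bas n).repr.symm (WithLp.toLp 2 f)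

@[simp] theorem co_mkV (f : Option (Fin n) → ℂ) (i : Option (Fin n)) : co (mkV f) i = f i := by
  simp [co, mkV]

@[simp] theorem co_add (v w : V n) (i : Option (Fin n)) : co (v + w) i = co v i + co w i := by
  simp [co]

@[simp] theorem co_smul (c : ℂ) (v : V n) (i : Option (Fin n)) : co (c • v) i = c * co v i := by
  simp [co]

/-- The hermitian form of signature `(n,1)`. -/
def form (v w : V n) : ℂ :=
  ∑ i : Fin n, co v (some i) * conj (co w (some i)) - co v none * conj (co w none)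

def NN (v : V n) : ℝ := -(form v v).re

def Neg (n : ℕ) : Set (V n) := {v | 0 < NN v}

/-- `cosh^2` of the distance. -/
def CC (x y : V n) : ℝ := ‖form x y‖ ^ 2 / (NN x * NN y)

def oo (n : ℕ) : V n := bas n none

def lift (z : E n) : V n := mkV (fun i => Option.elim i 1 (fun j => z j))

def proj (v : V n) : E n := WithLp.toLp 2 (fun i => co v (some i) / co v none)

def act (g : Op n) (z : E n) : E n := proj (g (lift z))

def IsIsom (g : Op n) : Prop := ∀ v w, form (g v) (g w) = form v w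

def IsScalar (g : Op n) : Prop := ∃ c : ℂ, g = c • (1 : Op n)

/-- `g` has a negative eigenvector. -/
def Ell (g : Op n) : Prop := ∃ y ∈ Neg n, ∃ c : ℂ, g y = c • y

def tr (g : Op n) : ℂ := LinearMap.trace ℂ (V n) (g : V n →ₗ[ℂ] V n)

def kappa (g : Op n) : ℝ := 2 * ((n : ℝ) + 1) - 2 * ‖tr g‖

/-- The squared Hilbert-Schmidt distance at `x` from `g` to the unit scalars. -/
def uu (g : Op n) (x : V n) : ℝ := kappa g + 4 * (CC x (g x) - 1)

/-- The positive definite form attached to a negative vector `x`. -/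
def qq (x v : V n) : ℝ := -NN v + 2 * ‖form v x‖ ^ 2 / NN x

/-- The squared Hilbert-Schmidt norm at the base point `oo n`. -/
def hs (T : Op n) : ℝ := ∑ i : Option (Fin n), ‖T (bas n i)‖ ^ 2

def formL (b : V n) : V n →L[ℂ] ℂ :=
  LinearMap.toContinuousLinearMap
    { toFun := fun v => form v b
      map_add' := by
        intro v w
        simp only [form, co_add, add_mul, Finset.sum_add_distrib]
        ring
      map_smul' := by
        intro c v
        simp only [form, co_smul, smul_eq_mul, RingHom.id_apply, mul_sub,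
          Finset.mul_sum, mul_assoc] }

/-- `v ↦ ⟨v,b⟩ a`. -/
def rk1 (a b : V n) : Op n := (formL b).smulRight a

/-- Eichler transformation. -/
def eich (p η : V n) (τ : ℝ) : Op n :=
  1 + rk1 η p - rk1 p η - (form η η / 2 - Complex.I * τ) • rk1 p p

/-- Vertical translation. -/
def vert (p : V n) (τ : ℝ) : Op n := 1 + (Complex.I * τ) • rk1 p p

/-- Reflection of order two in a unit positive vector. -/
def refl (e : V n) : Op n := 1 - (2 : ℂ) • rk1 e e

structure Proper (Γ : Subgroup (GG n)) : Prop where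
  isom : ∀ g ∈ Γ, IsIsom (g : Op n)
  det : ∀ g ∈ Γ, (g : Op n).det = 1
  fin : ∀ R : ℝ, {g : GG n | g ∈ Γ ∧ CC (oo n) ((g : Op n) (oo n)) ≤ R}.Finite

/-- `g` is a unit scalar multiple of an element of `Γ`. -/
def InP (Γ : Subgroup (GG n)) (g : Op n) : Prop :=
  ∃ c : ℂ, ‖c‖ = 1 ∧ ∃ γ ∈ Γ, g = c • (γ : Op n)

def plus (Γ : Subgroup (GG n)) : Subgroup (GG n) where
  carrier := {g | InP Γ (g : Op n)}
  one_mem' := ⟨1, by simp, 1, Γ.one_mem, by simp⟩
  mul_mem' := by
    rintro a b ⟨c, hc, γ, hγ, ha⟩ ⟨d, hd, δ, hδ, hb⟩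
    refine ⟨c * d, by simp [hc, hd], γ * δ, Γ.mul_mem hγ hδ, ?_⟩
    simp only [Units.val_mul, ha, hb, smul_mul_smul_comm]
  inv_mem' := by
    rintro a ⟨c, hc, γ, hγ, ha⟩
    have hc0 : c ≠ 0 := by
      rintro rfl
      simp at hc
    refine ⟨c⁻¹, by simp [hc], γ⁻¹, Γ.inv_mem hγ, ?_⟩
    have h1 : (c⁻¹ • ((γ⁻¹ : GG n) : Op n)) * (a : Op n) = 1 := by
      rw [ha, smul_mul_smul_comm, inv_mul_cancel₀ hc0, one_smul, Units.inv_mul]
    exact (Units.eq_inv_of_mul_eq_one_right h1).symm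

def cnj (g : GG n) (M : Op n) : Op n := (g : Op n) * M * ((g⁻¹ : GG n) : Op n)

def cnjS (g : GG n) (F : Set (Op n)) : Set (Op n) := cnj g '' F

def stab (Λ : Subgroup (GG n)) (F : Set (Op n)) : Subgroup (GG n) where
  carrier := {g | g ∈ Λ ∧ cnjS g F = F}
  one_mem' := ⟨Λ.one_mem, by simp [cnjS, cnj]⟩
  mul_mem' := by
    rintro a b ⟨ha, ha'⟩ ⟨hb, hb'⟩
    refine ⟨Λ.mul_mem ha hb, ?_⟩
    have : cnjS (a * b) F = cnjS a (cnjS b F) := by
      simp only [cnjS, Set.image_image, cnj, Units.val_mul, mul_inv_rev, mul_assoc]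
    rw [this, hb', ha']
  inv_mem' := by
    rintro a ⟨ha, ha'⟩
    refine ⟨Λ.inv_mem ha, ?_⟩
    have : cnjS a⁻¹ (cnjS a F) = F := by
      simp only [cnjS, Set.image_image, cnj, inv_inv, ← mul_assoc, Units.inv_mul, one_mul,
        Units.inv_mul_cancel_right, Set.image_id']
    rw [ha'] at this
    exact this

/-! ### Generators -/

structure Frame (n : ℕ) where
  m : ℕ
  e : Fin m → V n
  w : Fin m → ℝ
  p : V n
  on : ∀ i j, form (e i) (e j) = if i = j then 1 else 0
  pp : form p p = 0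
  pe : ∀ i, form p (e i) = 0
  w0 : ∀ i, 0 ≤ w i
  w1 : ∀ i, w i ≤ 1

def Frame.op (F : Frame n) : Op n :=
  ∑ i, (F.w i : ℂ) • rk1 (F.e i) (F.e i) + rk1 F.p F.p

open Classical in
/-- Projection onto the span of the frame vectors with positive weight in `S`. -/
def Frame.spec (F : Frame n) (S : Set ℝ) : Op n :=
  ∑ i, if 0 < F.w i ∧ F.w i ∈ S then rk1 (F.e i) (F.e i) else 0

def IsGen (M : Op n) : Prop := ∃ F : Frame n, M = F.op

def IsGenLt (b : ℝ) (M : Op n) : Prop := ∃ F : Frame n, (∀ i, F.w i < b) ∧ M = F.op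

def IsRound (M : Op n) : Prop := ∃ F : Frame n, (∀ i, F.w i = 1) ∧ F.p = 0 ∧ M = F.op

def IsNull (M : Op n) : Prop := ∃ p : V n, p ≠ 0 ∧ form p p = 0 ∧ M = rk1 p p

open Classical in
def specP (M : Op n) (S : Set ℝ) : Op n := if h : IsGen M then h.choose.spec S else 0

open Classical in
def nilp (M : Op n) : Op n := if h : IsGen M then rk1 h.choose.p h.choose.p else 0

def age (M : Op n) : ℝ := (tr M).re

def flow (M : Op n) (s : ℂ) : Op n := NormedSpace.exp ((2 * Real.pi * Complex.I * s) • M)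

theorem flow_add (M : Op n) (s t : ℂ) : flow M (s + t) = flow M s * flow M t := by
  unfold flow
  rw [mul_add, add_smul]
  exact NormedSpace.exp_add_of_commute ((Commute.refl M).smul_left _ |>.smul_right _)

theorem flow_zero (M : Op n) : flow M 0 = 1 := by
  simp [flow]

def flowU (M : Op n) (s : ℂ) : GG n :=
  ⟨flow M s, flow M (-s), by rw [← flow_add, add_neg_cancel, flow_zero],
    by rw [← flow_add, neg_add_cancel, flow_zero]⟩

def mu (M : Op n) (v : V n) : ℝ := (form (M v) v).re / NN v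

def Tube (M : Op n) (s : ℝ) : Set (V n) := {v | v ∈ Neg n ∧ mu M v < s}

def TubeS (F : Set (Op n)) (s : ℝ) : Set (V n) := ⋃ M ∈ F, Tube M s

def Vert (Γ : Subgroup (GG n)) (M : Op n) : Prop := IsNull M ∧ InP Γ (flow M 1)

/-- Minimal vertical translation at a cusp. -/
def Cusp (Γ : Subgroup (GG n)) (M : Op n) : Prop :=
  Vert Γ M ∧ ∀ a : ℝ, Vert Γ ((a : ℂ) • M) → 1 ≤ a

def HB (Γ : Subgroup (GG n)) (t : ℝ) : Set (V n) := TubeS {M | Cusp Γ M} t

/-- A direction in which tubes are expanded. -/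
def IsDir (D : Op n) : Prop := (IsRound D ∧ D ≠ 0) ∨ IsNull D

def DirFor (D : Op n) (η : ℝ) (M : Op n) : Prop :=
  ∀ y : ℝ, 0 ≤ y → ∀ x : V n,
    (form (M x) x).re ≤ (form (M (flow D (y * Complex.I) x)) (flow D (y * Complex.I) x)).re +
      η * (NN (flow D (y * Complex.I) x) - NN x)

/-! ### Absolute constants -/

def eps : ℝ := 1 / 100
def t1 : ℝ := 1 / 2000
def t2 : ℝ := 1 / 32000
def t3 : ℝ := 1 / 128000
def eps1 : ℝ := 1 / 2048000
def s0 : ℝ := 1 / 100
def tR : ℝ := 1 / 10000000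

def Jc (n k : ℕ) : ℕ := ⌈t2 * ((k : ℝ) * ((n : ℝ) + 1))⌉₊

/-! ### Measure -/

def dens (z : E n) : ℝ≥0∞ := ENNReal.ofReal (((1 - ‖z‖ ^ 2)⁻¹) ^ (n + 1))

def nu (n : ℕ) : Measure (V n) :=
  Measure.map lift ((volume.restrict (Metric.ball (0 : E n) 1)).withDensity dens)

def IsCone (S : Set (V n)) : Prop := ∀ c : ℂ, c ≠ 0 → ∀ v ∈ S, c • v ∈ S

def SInv (f : V n → ℝ≥0∞) : Prop := ∀ c : ℂ, c ≠ 0 → ∀ v, f (c • v) = f v

def InvS (Λ : Subgroup (GG n)) (S : Set (V n)) : Prop := ∀ g ∈ Λ, ∀ v ∈ S, (g : Op n) v ∈ S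

/-- Measurable invariant cone of negative vectors. -/
structure Region (Λ : Subgroup (GG n)) (S : Set (V n)) : Prop where
  meas : MeasurableSet S
  neg : S ⊆ Neg n
  cone : IsCone S
  inv : InvS Λ S

structure IsWeight (Λ : Subgroup (GG n)) (ψ : V n → ℝ≥0∞) : Prop where
  meas : Measurable ψ
  sinv : SInv ψ
  sum : ∀ v ∈ Neg n, ∑' g : Λ, ψ (((g : GG n) : Op n) v) = 1

open Classical in
def cnt (Λ : Subgroup (GG n)) (x : V n) (r : ℝ) : ℝ≥0∞ :=
  ∑' g : Λ, if CC x (((g : GG n) : Op n) x) ≤ r then 1 else 0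

open Classical in
def zc (Λ : Subgroup (GG n)) : ℝ≥0∞ :=
  ∑' g : Λ, if IsScalar ((g : GG n) : Op n) then 1 else 0

def Cocpt (Γ : Subgroup (GG n)) (S : Set (V n)) : Prop :=
  ∃ R : ℝ, ∀ x ∈ S, ∃ g ∈ Γ, CC (oo n) ((g : Op n) x) ≤ R

def FinCov (Γ : Subgroup (GG n)) : Prop :=
  ∃ D : Set (E n), MeasurableSet D ∧ D ⊆ Metric.ball 0 1 ∧ ∫⁻ z in D, dens z < ⊤ ∧
    ∀ z ∈ Metric.ball (0 : E n) 1, ∃ g ∈ Γ, act (g : Op n) z ∈ D

def Jac (M : Op n) (v : V n) : ℝ≥0∞ :=
  ENNReal.ofReal (‖M.det‖ ^ 2 * (NN v / NN (M v)) ^ (n + 1))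

def volW (S : Set (V n)) (ψ : V n → ℝ≥0∞) : ℝ≥0∞ := ∫⁻ v in S, ψ v ∂(nu n)

def petE (w : ℕ) (G : V n → ℂ) (v : V n) : ℝ≥0∞ := ENNReal.ofReal (‖G v‖ ^ 2 * NN v ^ w)

def mass (w : ℕ) (G : V n → ℂ) (S : Set (V n)) (ψ : V n → ℝ≥0∞) : ℝ≥0∞ :=
  ∫⁻ v in S, petE w G v * ψ v ∂(nu n)

def massF (n w : ℕ) : ℝ≥0∞ := ∫⁻ v, ENNReal.ofReal ((CC (oo n) v)⁻¹ ^ w) ∂(nu n)

def mass0 (n w : ℕ) (δ : ℝ) : ℝ≥0∞ :=
  ∫⁻ v in {v | CC (oo n) v ≤ 1 + δ}, ENNReal.ofReal ((CC (oo n) v)⁻¹ ^ w) ∂(nu n)

/-- Number of members `F` of the system `I` with `v ∈ S F`. -/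
def mult (I : Set (Set (Op n))) (S : Set (Op n) → Set (V n)) (v : V n) : ℝ≥0∞ :=
  ∑' F : I, (S F).indicator 1 v

/-- Determinant of the columns `v, A e_1, ..., A e_n`. -/
def cdet (v : V n) (A : E n →L[ℂ] V n) : ℂ :=
  Matrix.det (Matrix.of fun i j : Option (Fin n) =>
    Option.elim j (co v i) (fun l => co (A (EuclideanSpace.single l 1)) i))

/-- The linear part of `lift`. -/
def incl (n : ℕ) : E n →L[ℂ] V n :=
  LinearMap.toContinuousLinearMap
    { toFun := fun z => mkV (fun i => Option.elim i 0 (fun j => z j))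
      map_add' := by
        intro z z'
        apply (bas n).repr.injective
        ext i
        cases i <;> simp [mkV]
      map_smul' := by
        intro c z
        apply (bas n).repr.injective
        ext i
        cases i <;> simp [mkV] }

/-- The action on the slice. -/
def actV (g : Op n) (v : V n) : V n := lift (proj (g v))

/-- Measurable, scale invariant and `Λ`-invariant density. -/
structure InvF (Λ : Subgroup (GG n)) (f : V n → ℝ≥0∞) : Prop where
  meas : Measurable f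
  sinv : SInv f
  inv : ∀ g ∈ Λ, ∀ v, f ((g : Op n) v) = f v

/-- Equivariant family of densities. -/
structure EqvF (Γ : Subgroup (GG n)) (I : Set (Set (Op n))) (f : Set (Op n) → V n → ℝ≥0∞) :
    Prop where
  meas : ∀ F ∈ I, Measurable (f F)
  sinv : ∀ F ∈ I, SInv (f F)
  eqv : ∀ g ∈ Γ, ∀ F ∈ I, ∀ v, f (cnjS g F) ((g : Op n) v) = f F v

/-- Equivariant family of regions. -/
structure EqvS (Γ : Subgroup (GG n)) (I : Set (Set (Op n))) (S : Set (Op n) → Set (V n)) :
    Prop where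
  meas : ∀ F ∈ I, MeasurableSet (S F)
  neg : ∀ F ∈ I, S F ⊆ Neg n
  cone : ∀ F ∈ I, IsCone (S F)
  eqv : ∀ g ∈ Γ, ∀ F ∈ I, ∀ v, (g : Op n) v ∈ S (cnjS g F) ↔ v ∈ S F

/-! ### Forms -/

structure IsHol (w : ℕ) (G : V n → ℂ) : Prop where
  diff : DifferentiableOn ℂ G (Neg n)
  hom : ∀ c : ℂ, c ≠ 0 → ∀ v, G (c • v) = c⁻¹ ^ w * G v
  zero : ∀ v, v ∉ Neg n → G v = 0
  bdd : ∃ B : ℝ, ∀ v ∈ Neg n, ‖G v‖ ^ 2 * NN v ^ w ≤ B

def Inv (Λ : Subgroup (GG n)) (G : V n → ℂ) : Prop := ∀ g ∈ Λ, ∀ v, G ((g : Op n) v) = G v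

structure IsGood (Γ : Subgroup (GG n)) (k : ℕ) (G : V n → ℂ) : Prop where
  hol : IsHol (k * (n + 1)) G
  inv : Inv Γ G
  dec : ∃ B : ℝ≥0∞, B ≠ ⊤ ∧ ∀ x ∈ Neg n, cnt Γ x 4 ^ 2 * petE (k * (n + 1)) G x ≤ B

def Per (k : ℕ) (M : Op n) (G : V n → ℂ) : Prop :=
  ∀ v, G (flow M 1 v) * Complex.exp (2 * Real.pi * Complex.I * (k * tr M)) = G v

def coef (k : ℕ) (M : Op n) (j : ℕ) (G : V n → ℂ) (v : V n) : ℂ :=
  ∫ x in (0 : ℝ)..1, G (flow M x v) * Complex.exp (2 * Real.pi * Complex.I * x * (k * tr M - j))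

def low (k : ℕ) (M : Op n) (J : ℕ) (G : V n → ℂ) : V n → ℂ :=
  ∑ j ∈ Finset.range J, coef k M j G

/-- Remove the low parts for all generators of a list. -/
def rest (k J : ℕ) : List (Op n) → (V n → ℂ) → V n → ℂ
  | [], G => G
  | M :: L, G => rest k J L (G - low k M J G)

def Cond (k : ℕ) (M : Op n) (J : ℕ) (G : V n → ℂ) : Prop := ∀ j < J, coef k M j G = 0

def Decay (M : Op n) (β : ℝ) (G : V n → ℂ) : Prop :=
  ∀ R δ : ℝ, 0 < δ → ∃ C : ℝ, ∀ u : V n, ‖u‖ ≤ R → δ ≤ NN u → ∀ s : ℂ, 0 ≤ s.im →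
    ‖G (flow M s u)‖ ≤ C * Real.exp (-(2 * Real.pi * β * s.im))

def AllDecay (Γ : Subgroup (GG n)) (k : ℕ) (G : V n → ℂ) : Prop :=
  ∀ M : Op n, IsGenLt 1 M → InP Γ (flow M 1) → M ≠ 0 → Decay M (k * (1 - age M)) G

def kern (w : ℕ) (y v : V n) : ℂ := (Neg n).indicator (fun v => (-form v y)⁻¹ ^ w) v

def poin (Γ : Subgroup (GG n)) (w : ℕ) (y v : V n) : ℂ :=
  ∑' g : Γ, kern w y (((g : GG n) : Op n) v)

/-! ### Families -/

structure FamOK (Γ : Subgroup (GG n)) (F : Set (Op n)) : Prop where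
  fin : F.Finite
  ne : F.Nonempty
  gen : ∀ M ∈ F, IsGen M ∧ InP Γ (flow M 1)
  comm : ∀ M ∈ F, ∀ M' ∈ F, Commute M M'
  cusp : ∀ Mc, Cusp Γ Mc → (Tube Mc t1 ∩ TubeS F s0).Nonempty →
    ∀ M ∈ F, M * Mc = 0 ∧ Mc * M = 0

def InvI (Γ : Subgroup (GG n)) (I : Set (Set (Op n))) : Prop :=
  I.Countable ∧ ∀ g ∈ Γ, ∀ F ∈ I, cnjS g F ∈ I

structure SysOK (Γ : Subgroup (GG n)) (I : Set (Set (Op n))) : Prop where
  inv : InvI Γ I
  fam : ∀ F ∈ I, FamOK Γ F
  few : ∀ x ∈ Neg n, mult I (fun F => TubeS F s0) x ≤ cnt Γ x 4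

def HasVC (Γ : Subgroup (GG n)) : Prop :=
  ∀ g : GG n, g ∈ plus Γ → ¬ Ell (g : Op n) → ∀ p : V n, p ≠ 0 → form p p = 0 →
    (∃ a : ℂ, ‖a‖ = 1 ∧ (g : Op n) p = a • p) →
    ∃ c : ℝ, 0 < c ∧ Cusp Γ ((c : ℂ) • rk1 p p)

def GP (Γ : Subgroup (GG n)) (M : Op n) : Prop :=
  IsGenLt (1 / 2) M ∧ age M < 1 ∧ M ≠ 0 ∧ InP Γ (flow M 1)

def TypeA (Γ : Subgroup (GG n)) (η : ℝ) (M : Op n) : Prop :=
  GP Γ M ∧ ((nilp M ≠ 0 ∧ ∀ (Mc : Op n) (a : ℝ), Cusp Γ Mc → nilp M = (a : ℂ) • Mc → a < 1) ∨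
    (nilp M = 0 ∧ specP M (Set.Iic η) ≠ 0))

def AbK (Γ : Subgroup (GG n)) (M : Op n) : Subgroup (GG n) :=
  Subgroup.closure {b : GG n | b ∈ plus Γ ∧ Commute (b : Op n) (specP M Set.univ) ∧
    (∀ v, M v = 0 → (b : Op n) v = v) ∧ kappa (b : Op n) < eps}

def RelA (Γ : Subgroup (GG n)) (η : ℝ) (M M' : Op n) : Prop :=
  specP M Set.univ = specP M' Set.univ ∧ (∀ v, M v = 0 ↔ M' v = 0) ∧
    specP M (Set.Iic η) = specP M' (Set.Iic η) ∧ (flowU M 1)⁻¹ * flowU M' 1 ∈ AbK Γ M

def famA (Γ : Subgroup (GG n)) (η : ℝ) (M : Op n) : Set (Op n) :=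
  {M' | TypeA Γ η M' ∧ RelA Γ η M M'}

def sysA (Γ : Subgroup (GG n)) (η : ℝ) : Set (Set (Op n)) :=
  {F | ∃ M, TypeA Γ η M ∧ F = famA Γ η M}

def TypeB (Γ : Subgroup (GG n)) (η : ℝ) (M : Op n) : Prop :=
  GP Γ M ∧ nilp M = 0 ∧ specP M (Set.Iic η) = 0

def sysB (Γ : Subgroup (GG n)) (η : ℝ) : Set (Set (Op n)) :=
  {F | ∃ M, TypeB Γ η M ∧ F = {specP M Set.univ}}

def Refl (Γ : Subgroup (GG n)) (e : V n) : Prop := form e e = 1 ∧ InP Γ (refl e)

def sysR (Γ : Subgroup (GG n)) : Set (Set (Op n)) :=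
  {F | ∃ e, Refl Γ e ∧ F = {(1 / 2 : ℂ) • rk1 e e}}

def sysC (Γ : Subgroup (GG n)) : Set (Set (Op n)) := {F | ∃ M, Cusp Γ M ∧ F = {M}}

/-- Component of `e'` orthogonal to `e`. -/
def perp (e e' : V n) : V n := e' - form e' e • e

/-- `e'` is the normal of another mirror, nearly parallel to the mirror of `e`. -/
def Near (Γ : Subgroup (GG n)) (e e' : V n) : Prop :=
  Refl Γ e' ∧ rk1 e' e' ≠ rk1 e e ∧ ‖form (perp e e') (perp e e')‖ < tR

def Thin (Γ : Subgroup (GG n)) (e : V n) (t : ℝ) : Set (V n) :=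
  {x | x ∈ Neg n ∧ ∃ e', Near Γ e e' ∧ ‖form x (perp e e')‖ ^ 2 < t * NN x}

def ThinS (Γ : Subgroup (GG n)) (F : Set (Op n)) : Set (V n) :=
  {x | ∃ e, Refl Γ e ∧ F = {(1 / 2 : ℂ) • rk1 e e} ∧ x ∈ Thin Γ e tR}

/-- Tube around a mirror with cylindrical horoballs removed. -/
def Flat (Γ : Subgroup (GG n)) (e : V n) (s : ℝ) : Set (V n) :=
  {x | x ∈ Tube ((1 / 2 : ℂ) • rk1 e e) s ∧ ∀ Mc, Cusp Γ Mc → Mc e = 0 →
    t3 / 2 * (NN x + ‖form x e‖ ^ 2) ≤ (form (Mc x) x).re}

def SW (Γ : Subgroup (GG n)) (W : Submodule ℂ (V n)) (ε : ℝ) (x : V n) : Set (GG n) :=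
  {g | g ∈ Γ ∧ uu (g : Op n) x < ε ∧ ¬ ∃ c : ℂ, ∀ v ∈ W, (g : Op n) v = c • v}

def Thick (Γ : Subgroup (GG n)) (ε : ℝ) : Set (V n) :=
  {x | x ∈ Neg n ∧ ∀ g ∈ Γ, ¬ IsScalar (g : Op n) → ε ≤ uu (g : Op n) x}

/-- The domain `H × D` on which lifts are defined. -/
def DH (e : E n) (l : E n →L[ℂ] ℂ) (y r : ℝ) : Set (E n) :=
  {z | y < (l z).im ∧ ‖z - l z • e‖ < r}

end BallQ
end
end

-- merged part: Pool.Agent.Work.MP_72250f_ag.B0
section
/-! Basic algebra of the form. -/

open scoped ComplexConjugate ENNReal Topology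
open MeasureTheory Filter

noncomputable section

namespace BallQ

variable {n : ℕ}

@[simp] theorem co_zero (i : Option (Fin n)) : co (0 : V n) i = 0 := by simp [co]

@[simp] theorem co_neg (v : V n) (i : Option (Fin n)) : co (-v) i = -co v i := by simp [co]

@[simp] theorem co_sub (v w : V n) (i : Option (Fin n)) : co (v - w) i = co v i - co w i := by
  simp [co]

theorem co_bas (i j : Option (Fin n)) : co (bas n i) j = if j = i then 1 else 0 := by
  simp [co]

theorem V_ext {v w : V n} (h : ∀ i, co v i = co w i) : v = w := by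
  apply (bas n).repr.injective
  ext i
  exact h i

theorem mkV_co (v : V n) : mkV (co v) = v := V_ext (by simp)

theorem co_eq_inner (v : V n) (i : Option (Fin n)) : co v i = inner ℂ (bas n i) v := by
  simp [co, OrthonormalBasis.repr_apply_apply]

@[fun_prop]
theorem continuous_co (i : Option (Fin n)) : Continuous fun v : V n => co v i := by
  simp only [co_eq_inner]
  fun_prop

theorem norm_sq_eq (v : V n) :
    ‖v‖ ^ 2 = ∑ i : Fin n, ‖co v (some i)‖ ^ 2 + ‖co v none‖ ^ 2 := by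
  rw [← (bas n).repr.norm_map, EuclideanSpace.norm_sq_eq, Fintype.sum_option, add_comm]
  rfl

theorem inner_eq (v w : V n) :
    inner ℂ w v = ∑ i : Fin n, co v (some i) * conj (co w (some i)) + co v none * conj (co w none) := by
  rw [← (bas n).repr.inner_map_map, PiLp.inner_apply, Fintype.sum_option, add_comm]
  simp only [co, RCLike.inner_apply]

theorem finrank_V : Module.finrank ℂ (V n) = n + 1 := by
  rw [Module.finrank_eq_card_basis (bas n).toBasis]
  simp

@[simp] theorem formL_apply (b v : V n) : formL b v = form v b := rfl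

@[simp] theorem rk1_apply (a b v : V n) : rk1 a b v = form v b • a := rfl

theorem form_add_left (u v w : V n) : form (u + v) w = form u w + form v w :=
  (formL w).map_add u v

theorem form_smul_left (c : ℂ) (v w : V n) : form (c • v) w = c * form v w :=
  (formL w).map_smul c v

theorem form_sub_left (u v w : V n) : form (u - v) w = form u w - form v w :=
  (formL w).map_sub u v

theorem form_neg_left (v w : V n) : form (-v) w = -form v w := (formL w).map_neg v

@[simp] theorem form_zero_left (w : V n) : form 0 w = 0 := (formL w).map_zero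

theorem form_sum_left {ι : Type*} (s : Finset ι) (f : ι → V n) (w : V n) :
    form (∑ i ∈ s, f i) w = ∑ i ∈ s, form (f i) w := map_sum (formL w) f s

theorem form_conj (v w : V n) : conj (form v w) = form w v := by
  simp only [form, map_sub, map_sum, map_mul, Complex.conj_conj]
  congr 1
  · exact Finset.sum_congr rfl fun i _ => mul_comm _ _
  · exact mul_comm _ _

theorem form_add_right (u v w : V n) : form u (v + w) = form u v + form u w := by
  rw [← form_conj, form_add_left, map_add, form_conj, form_conj]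

theorem form_smul_right (c : ℂ) (v w : V n) : form v (c • w) = conj c * form v w := by
  rw [← form_conj, form_smul_left, map_mul, form_conj]

theorem form_sub_right (u v w : V n) : form u (v - w) = form u v - form u w := by
  rw [← form_conj, form_sub_left, map_sub, form_conj, form_conj]

theorem form_neg_right (v w : V n) : form v (-w) = -form v w := by
  rw [← form_conj, form_neg_left, map_neg, form_conj]

@[simp] theorem form_zero_right (v : V n) : form v 0 = 0 := by
  rw [← form_conj, form_zero_left, map_zero]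

theorem form_sum_right {ι : Type*} (s : Finset ι) (v : V n) (f : ι → V n) :
    form v (∑ i ∈ s, f i) = ∑ i ∈ s, form v (f i) := by
  rw [← form_conj, form_sum_left, map_sum]
  exact Finset.sum_congr rfl fun i _ => form_conj _ _

theorem form_eq_zero_comm {v w : V n} : form v w = 0 ↔ form w v = 0 := by
  rw [← form_conj, map_eq_zero]

theorem norm_form_comm (v w : V n) : ‖form v w‖ = ‖form w v‖ := by
  rw [← form_conj, Complex.norm_conj]

theorem form_self_im (v : V n) : (form v v).im = 0 := by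
  have := form_conj v v
  exact Complex.conj_eq_iff_im.mp this

theorem form_self (v : V n) : form v v = -(NN v : ℂ) := by
  apply Complex.ext <;> simp [NN, form_self_im]

theorem form_eq_inner (v w : V n) :
    form v w = inner ℂ w v - 2 * (co v none * conj (co w none)) := by
  rw [inner_eq, form]
  ring

theorem continuous_form : Continuous fun p : V n × V n => form p.1 p.2 := by
  unfold form
  have h1 := fun i : Option (Fin n) => (continuous_co i).comp (continuous_fst (X := V n) (Y := V n))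
  have h2 := fun i : Option (Fin n) => (continuous_co i).comp (continuous_snd (X := V n) (Y := V n))
  refine (continuous_finsetSum _ fun i _ => (h1 _).mul ?_).sub ((h1 _).mul ?_) <;>
    exact Complex.continuous_conj.comp (h2 _)

@[fun_prop]
theorem continuous_form' {X : Type*} [TopologicalSpace X] {f g : X → V n} (hf : Continuous f)
    (hg : Continuous g) : Continuous fun x => form (f x) (g x) :=
  Continuous.comp (g := fun p : V n × V n => form p.1 p.2) (f := fun x => (f x, g x))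
    continuous_form (hf.prodMk hg)

@[fun_prop]
theorem continuous_NN : Continuous (NN : V n → ℝ) :=
  (Complex.continuous_re.comp (continuous_form' continuous_id continuous_id)).neg

theorem isOpen_Neg : IsOpen (Neg n) := isOpen_lt continuous_const continuous_NN

theorem mem_Neg {v : V n} : v ∈ Neg n ↔ 0 < NN v := Iff.rfl

theorem NN_eq (v : V n) : NN v = ‖co v none‖ ^ 2 - ∑ i : Fin n, ‖co v (some i)‖ ^ 2 := by
  simp only [NN, form, Complex.mul_conj, Complex.sub_re, Complex.re_sum, Complex.ofReal_re,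
    Complex.normSq_eq_norm_sq]
  ring

theorem norm_sq_eq_NN (v : V n) : ‖v‖ ^ 2 = 2 * ‖co v none‖ ^ 2 - NN v := by
  rw [norm_sq_eq, NN_eq]
  ring

theorem NN_smul (c : ℂ) (v : V n) : NN (c • v) = ‖c‖ ^ 2 * NN v := by
  have : form (c • v) (c • v) = ((‖c‖ ^ 2 : ℝ) : ℂ) * form v v := by
    rw [form_smul_left, form_smul_right, ← mul_assoc, Complex.mul_conj, Complex.normSq_eq_norm_sq]
  simp only [NN, this, Complex.re_ofReal_mul]
  ring

theorem NN_add (v w : V n) : NN (v + w) = NN v + NN w - 2 * (form v w).re := by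
  have : (form w v).re = (form v w).re := by rw [← form_conj v w, Complex.conj_re]
  simp only [NN, form_add_left, form_add_right, Complex.add_re, this]
  ring

theorem smul_mem_Neg {c : ℂ} (hc : c ≠ 0) {v : V n} (hv : v ∈ Neg n) : c • v ∈ Neg n := by
  rw [mem_Neg, NN_smul]
  exact mul_pos (pow_pos (norm_pos_iff.mpr hc) 2) hv

theorem ne_zero_of_mem_Neg {v : V n} (hv : v ∈ Neg n) : v ≠ 0 := by
  rintro rfl
  simp [mem_Neg, NN] at hv

theorem co_none_ne_zero {v : V n} (hv : v ∈ Neg n) : co v none ≠ 0 := by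
  intro h
  rw [mem_Neg, NN_eq, h] at hv
  have : 0 ≤ ∑ i : Fin n, ‖co v (some i)‖ ^ 2 := by positivity
  simp at hv
  linarith

theorem form_oo (v : V n) : form v (oo n) = -co v none := by
  simp [form, oo, co_bas]

theorem NN_oo : NN (oo n) = 1 := by
  simp [NN, oo, form, co_bas]

theorem oo_mem_Neg : oo n ∈ Neg n := by
  rw [mem_Neg, NN_oo]
  exact one_pos

theorem norm_form_le (v w : V n) : ‖form v w‖ ≤ ‖v‖ * ‖w‖ := by
  let w' : V n := mkV fun i => Option.elim i (-co w none) fun j => co w (some j)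
  have h1 : form v w = inner ℂ w' v := by
    rw [inner_eq, form]
    simp [w', sub_eq_add_neg]
  have h2 : ‖w'‖ = ‖w‖ := by
    have : ‖w'‖ ^ 2 = ‖w‖ ^ 2 := by
      rw [norm_sq_eq, norm_sq_eq]
      simp [w']
    exact (sq_eq_sq₀ (norm_nonneg _) (norm_nonneg _)).mp this
  rw [h1, mul_comm, ← h2]
  exact norm_inner_le_norm _ _

theorem eq_zero_of_form {v : V n} (h : ∀ w, form v w = 0) : v = 0 := by
  apply V_ext
  intro i
  have := h (bas n i)
  cases i with
  | none => simpa [form, co_bas] using this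
  | some j => simpa [form, co_bas] using this

theorem eq_of_form {v v' : V n} (h : ∀ w, form v w = form v' w) : v = v' := by
  rw [← sub_eq_zero]
  exact eq_zero_of_form fun w => by rw [form_sub_left, h, sub_self]

theorem CC_comm (x y : V n) : CC x y = CC y x := by
  rw [CC, CC, norm_form_comm, mul_comm]

theorem CC_smul_left {c : ℂ} (hc : c ≠ 0) (x y : V n) : CC (c • x) y = CC x y := by
  have : ‖c‖ ^ 2 ≠ 0 := pow_ne_zero 2 (norm_ne_zero_iff.mpr hc)
  rw [CC, CC, form_smul_left, NN_smul, norm_mul, mul_pow, mul_assoc, mul_div_mul_left _ _ this]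

theorem CC_smul_right {c : ℂ} (hc : c ≠ 0) (x y : V n) : CC x (c • y) = CC x y := by
  rw [CC_comm, CC_smul_left hc, CC_comm]

theorem CC_self {x : V n} (hx : x ∈ Neg n) : CC x x = 1 := by
  have : 0 < NN x := hx
  rw [CC, form_self, norm_neg, Complex.norm_real, Real.norm_eq_abs, sq_abs]
  field_simp

@[simp] theorem co_lift_none (z : E n) : co (lift z) none = 1 := by simp [lift]

@[simp] theorem co_lift_some (z : E n) (i : Fin n) : co (lift z) (some i) = z i := by simp [lift]

theorem NN_lift (z : E n) : NN (lift z) = 1 - ‖z‖ ^ 2 := by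
  rw [NN_eq, EuclideanSpace.norm_sq_eq]
  simp

theorem lift_mem_Neg {z : E n} : lift z ∈ Neg n ↔ z ∈ Metric.ball (0 : E n) 1 := by
  rw [mem_Neg, NN_lift, mem_ball_zero_iff, sub_pos, sq_lt_one_iff₀ (norm_nonneg _)]

@[simp] theorem proj_lift (z : E n) : proj (lift z) = z := by
  ext i
  simp [proj]

theorem lift_proj {v : V n} (hv : co v none ≠ 0) : co v none • lift (proj v) = v := by
  apply V_ext
  intro i
  cases i with
  | none => simp
  | some j =>
    simp only [co_smul, co_lift_some, proj]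
    field_simp

theorem proj_smul {c : ℂ} (hc : c ≠ 0) (v : V n) : proj (c • v) = proj v := by
  ext i
  simp [proj, mul_div_mul_left _ _ hc]

theorem proj_mem_ball {v : V n} (hv : v ∈ Neg n) : proj v ∈ Metric.ball (0 : E n) 1 := by
  rw [← lift_mem_Neg]
  have h := co_none_ne_zero hv
  have : lift (proj v) = (co v none)⁻¹ • v := by
    conv_rhs => rw [← lift_proj h]
    rw [smul_smul, co_smul, co_lift_none, mul_one, inv_mul_cancel₀ h, one_smul]
  rw [this]
  exact smul_mem_Neg (inv_ne_zero h) hv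

theorem CC_oo_lift {z : E n} : CC (oo n) (lift z) = (1 - ‖z‖ ^ 2)⁻¹ := by
  rw [CC_comm, CC, form_oo, NN_oo, NN_lift]
  simp

theorem continuous_lift : Continuous (lift : E n → V n) := by
  unfold lift mkV
  refine (bas n).repr.symm.continuous.comp ((PiLp.continuous_toLp 2 _).comp ?_)
  refine continuous_pi fun i => ?_
  cases i with
  | none => exact continuous_const
  | some j => simp only [Option.elim]; fun_prop

theorem isIsom_one : IsIsom (1 : Op n) := fun _ _ => rfl

theorem IsIsom.mul {g h : Op n} (hg : IsIsom g) (hh : IsIsom h) : IsIsom (g * h) :=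
  fun v w => by rw [mul_apply_eq_comp, mul_apply_eq_comp, hg, hh]

theorem inv_apply_apply (g : GG n) (v : V n) : ((g⁻¹ : GG n) : Op n) ((g : Op n) v) = v := by
  rw [← mul_apply_eq_comp, Units.inv_mul, one_apply_eq_self]

theorem apply_inv_apply (g : GG n) (v : V n) : (g : Op n) (((g⁻¹ : GG n) : Op n) v) = v := by
  rw [← mul_apply_eq_comp, Units.mul_inv, one_apply_eq_self]

theorem IsIsom.inv {g : GG n} (hg : IsIsom (g : Op n)) : IsIsom ((g⁻¹ : GG n) : Op n) :=
  fun v w => by rw [← hg, apply_inv_apply, apply_inv_apply]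

theorem IsIsom.form_left {g : GG n} (hg : IsIsom (g : Op n)) (v w : V n) :
    form ((g : Op n) v) w = form v (((g⁻¹ : GG n) : Op n) w) := by
  conv_lhs => rw [← apply_inv_apply g w, hg]

theorem IsIsom.smul {g : Op n} (hg : IsIsom g) {c : ℂ} (hc : ‖c‖ = 1) : IsIsom (c • g) := by
  intro v w
  rw [smul_apply, smul_apply, form_smul_left,
    form_smul_right, ← mul_assoc, Complex.mul_conj, Complex.normSq_eq_norm_sq, hc, hg]
  simp

theorem IsIsom.NN_apply {g : Op n} (hg : IsIsom g) (v : V n) : NN (g v) = NN v := by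
  rw [NN, NN, hg]

theorem IsIsom.CC_apply {g : Op n} (hg : IsIsom g) (v w : V n) : CC (g v) (g w) = CC v w := by
  rw [CC, CC, hg, hg.NN_apply, hg.NN_apply]

theorem IsIsom.mem_Neg {g : Op n} (hg : IsIsom g) {v : V n} : g v ∈ Neg n ↔ v ∈ Neg n := by
  rw [BallQ.mem_Neg, BallQ.mem_Neg, hg.NN_apply]

theorem IsIsom.injective {g : Op n} (hg : IsIsom g) : Function.Injective g := by
  refine (injective_iff_map_eq_zero g).mpr fun v hv => eq_zero_of_form fun w => ?_
  rw [← hg, hv, form_zero_left]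

theorem mem_plus {Γ : Subgroup (GG n)} {g : GG n} : g ∈ plus Γ ↔ InP Γ (g : Op n) := Iff.rfl

theorem le_plus (Γ : Subgroup (GG n)) : Γ ≤ plus Γ :=
  fun g hg => ⟨1, by simp, g, hg, by simp⟩

theorem InP.isIsom {Γ : Subgroup (GG n)} (hΓ : Proper Γ) {g : Op n} (hg : InP Γ g) :
    IsIsom g := by
  obtain ⟨c, hc, γ, hγ, rfl⟩ := hg
  exact (hΓ.isom γ hγ).smul hc

theorem Proper.mono {Γ Λ : Subgroup (GG n)} (hΓ : Proper Γ) (h : Λ ≤ Γ) : Proper Λ :=
  ⟨fun g hg => hΓ.isom g (h hg), fun g hg => hΓ.det g (h hg),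
    fun R => (hΓ.fin R).subset fun _ hg => ⟨h hg.1, hg.2⟩⟩

theorem mem_stab {Λ : Subgroup (GG n)} {F : Set (Op n)} {g : GG n} :
    g ∈ stab Λ F ↔ g ∈ Λ ∧ cnjS g F = F := Iff.rfl

theorem stab_le (Λ : Subgroup (GG n)) (F : Set (Op n)) : stab Λ F ≤ Λ := fun _ h => h.1

theorem cnj_apply (g : GG n) (M : Op n) (v : V n) :
    cnj g M v = (g : Op n) (M (((g⁻¹ : GG n) : Op n) v)) := rfl

theorem cnj_mul (a b : GG n) (M : Op n) : cnj (a * b) M = cnj a (cnj b M) := by
  simp only [cnj, Units.val_mul, mul_inv_rev, mul_assoc]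

@[simp] theorem cnj_one (M : Op n) : cnj 1 M = M := by simp [cnj]

theorem cnj_eq_iff {g : GG n} {M : Op n} : cnj g M = M ↔ Commute (g : Op n) M := by
  rw [cnj, Units.mul_inv_eq_iff_eq_mul]
  rfl

@[simp] theorem coe_flowU (M : Op n) (s : ℂ) : (flowU M s : Op n) = flow M s := rfl

theorem flowU_inv (M : Op n) (s : ℂ) : (flowU M s)⁻¹ = flowU M (-s) := by
  ext1
  rfl

theorem flowU_add (M : Op n) (s t : ℂ) : flowU M (s + t) = flowU M s * flowU M t := by
  ext1
  exact flow_add M s t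

end BallQ
end
end

-- merged part: Pool.Agent.Work.MP_72250f_ag.B1a
section
/-!
Geometry of a form of signature (n,1). NN v = -<v,v>, so NN v > 0 means negative vector.
Hints. one_le_CC: by NN_eq and Cauchy-Schwarz in coordinates, or decompose y = a x + z with z perp x
once pos_of_perp_neg is known (pos_of_perp_neg: coordinates, |v0||x0| = |sum vi conj xi| <= |v'||x'| < |v'||x0|).
cs_perp: the form is positive semidefinite on the orthogonal of y, usual discriminant argument.
sqrt_CC_tri: x = a y + x', z = b y + z' with x', z' perp y; -NN x' = |a|^2 NN y - NN x.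
exists_isom: scale x so that NN x = 1 and form x oo is real negative; if x is not oo use the involution
v - 2 <v,d> d / <d,d>, d = x - oo (a positive vector). Perp decompositions: the form restricted to W is
nondegenerate, W -> dual W is injective hence onto (or LinearMap.BilinForm-free: map a |-> (formL a) restricted,
conjugate linear; alternatively induct with an orthogonal basis: W = C x + (W meet x perp), positive definite part by
induction on finrank).
-/

open scoped ComplexConjugate ENNReal Topology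
open MeasureTheory Filter

noncomputable section

namespace BallQ

variable {n : ℕ}

theorem b1a_key {y v : V n} (hy0 : y ≠ 0) (hy : 0 ≤ NN y) (h : form v y = 0) :
    ∃ c : ℂ, NN v + ‖v - c • y‖ ^ 2 ≤ 0 := by
  have h0 : co y none ≠ 0 := fun h1 => hy0 (by
    have h2 := norm_sq_eq_NN y
    rw [h1, norm_zero] at h2
    exact norm_eq_zero.1 (pow_eq_zero_iff two_ne_zero |>.1 (le_antisymm (by linarith) (sq_nonneg _))))
  refine ⟨co v none / co y none, ?_⟩
  have h1 := norm_sq_eq_NN (v - (co v none / co y none) • y)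
  rw [co_sub, co_smul, div_mul_cancel₀ _ h0, sub_self, norm_zero] at h1
  have h2 := NN_add v ((-(co v none / co y none)) • y)
  rw [form_smul_right, h, mul_zero, Complex.zero_re, NN_smul, neg_smul, ← sub_eq_add_neg] at h2
  nlinarith [mul_nonneg (sq_nonneg ‖-(co v none / co y none)‖) hy]

theorem b1a_smul {y v : V n} (hy0 : y ≠ 0) (hy : 0 ≤ NN y) (h : form v y = 0)
    (hv : 0 ≤ NN v) : ∃ c : ℂ, v = c • y := by
  obtain ⟨c, hc⟩ := b1a_key hy0 hy h
  exact ⟨c, sub_eq_zero.1 (norm_eq_zero.1 (pow_eq_zero_iff two_ne_zero |>.1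
    (le_antisymm (by linarith) (sq_nonneg _))))⟩

theorem b1a_dec {x y : V n} (hx : x ∈ Neg n) (hy : y ∈ Neg n) : ∃ (a : ℂ) (z : V n),
    y = a • x + z ∧ form z x = 0 ∧ ‖a‖ ^ 2 * NN x = CC x y * NN y ∧
      NN z = -((CC x y - 1) * NN y) := by
  have h1 : 0 < NN x := hx
  have h2 : 0 < NN y := hy
  have h3 : (NN x : ℂ) ≠ 0 := Complex.ofReal_ne_zero.2 h1.ne'
  have h4 : form (y - (-form y x / NN x) • x) x = 0 := by
    rw [form_sub_left, form_smul_left, form_self]
    field_simp
    ring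
  have h5 : ‖-form y x / NN x‖ ^ 2 * NN x = CC x y * NN y := by
    rw [norm_div, norm_neg, Complex.norm_real, Real.norm_of_nonneg h1.le, CC, norm_form_comm]
    field_simp
  refine ⟨_, _, (add_sub_cancel _ _).symm, h4, h5, ?_⟩
  have h6 := NN_add ((-form y x / NN x) • x) (y - (-form y x / NN x) • x)
  rw [add_sub_cancel, NN_smul, h5, form_smul_left, form_eq_zero_comm.1 h4, mul_zero,
    Complex.zero_re] at h6
  linarith

theorem b1a_refl (d : V n) {t : ℝ} (ht : t * form d d = -2) :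
    ∃ h : GG n, IsIsom (h : Op n) ∧ ∀ v, (h : Op n) v = v + (t * form v d) • d := by
  have h1 : ∀ v, (1 + (t : ℂ) • rk1 d d : Op n) v = v + (t * form v d) • d := fun v => by
    rw [add_apply, one_apply_eq_self, smul_apply, rk1_apply, smul_smul]
  have h2 : (1 + (t : ℂ) • rk1 d d : Op n) * (1 + (t : ℂ) • rk1 d d) = 1 := by
    ext1 v
    rw [mul_apply_eq_comp, h1, h1, form_add_left, form_smul_left, add_assoc, ← add_smul,
      one_apply_eq_self, add_eq_left]
    refine smul_eq_zero_of_left ?_ _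
    linear_combination (t * form v d) * ht
  refine ⟨⟨_, _, h2, h2⟩, fun v w => ?_, h1⟩
  simp only [h1, form_add_left, form_add_right, form_smul_left, form_smul_right, map_mul,
    Complex.conj_ofReal, form_conj]
  linear_combination (t * form v d * form d w) * ht

theorem pos_of_perp_neg {x v : V n} (hx : x ∈ Neg n) (h : form v x = 0) (hv : v ≠ 0) :
    NN v < 0 := by
  have h1 : 0 < NN x := hx
  refine lt_of_not_ge fun h2 => hv ?_
  obtain ⟨c, rfl⟩ := b1a_smul (ne_zero_of_mem_Neg hx) h1.le h h2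
  rw [form_smul_left, form_self, mul_eq_zero, neg_eq_zero, Complex.ofReal_eq_zero] at h
  rw [h.resolve_right h1.ne', zero_smul]

theorem nonpos_of_perp {y v : V n} (hy0 : y ≠ 0) (hy : 0 ≤ NN y) (h : form v y = 0) :
    NN v ≤ 0 := by
  obtain ⟨c, hc⟩ := b1a_key hy0 hy h
  linarith [sq_nonneg ‖v - c • y‖]

theorem eq_smul_of_perp {y v : V n} (hy0 : y ≠ 0) (hy : 0 ≤ NN y) (h : form v y = 0)
    (hv : 0 ≤ NN v) : ∃ c : ℂ, v = c • y := by
  exact b1a_smul hy0 hy h hv

theorem form_ne_zero_of_neg {x y : V n} (hx : x ∈ Neg n) (hy0 : y ≠ 0) (hy : 0 ≤ NN y) :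
    form y x ≠ 0 := by
  exact fun h => (pos_of_perp_neg hx h hy0).not_ge hy

theorem cs_perp {y v w : V n} (hy0 : y ≠ 0) (hy : 0 ≤ NN y) (hv : form v y = 0)
    (hw : form w y = 0) : ‖form v w‖ ^ 2 ≤ NN v * NN w := by
  have h1 := discrim_le_zero (a := -(‖form v w‖ ^ 2 * NN w)) (b := 2 * ‖form v w‖ ^ 2)
    (c := -NN v) fun s => by
    have h2 := nonpos_of_perp hy0 hy (v := v + (s * form v w) • w)
      (by rw [form_add_left, form_smul_left, hv, hw, mul_zero, add_zero])
    rw [NN_add, NN_smul, form_smul_right, map_mul, Complex.conj_ofReal, mul_assoc,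
      Complex.conj_mul', norm_mul, mul_pow, Complex.norm_real, Real.norm_eq_abs, sq_abs,
      ← Complex.ofReal_pow, ← Complex.ofReal_mul, Complex.ofReal_re] at h2
    linarith
  rw [discrim] at h1
  rcases (sq_nonneg ‖form v w‖).eq_or_lt with h2 | h2
  · rw [← h2]
    exact mul_nonneg_of_nonpos_of_nonpos (nonpos_of_perp hy0 hy hv) (nonpos_of_perp hy0 hy hw)
  · exact le_of_mul_le_mul_left (by linarith) h2

theorem one_le_CC {x y : V n} (hx : x ∈ Neg n) (hy : y ∈ Neg n) : 1 ≤ CC x y := by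
  obtain ⟨a, z, -, h1, -, h2⟩ := b1a_dec hx hy
  have h3 := nonpos_of_perp (ne_zero_of_mem_Neg hx) (le_of_lt hx) h1
  rw [h2, neg_nonpos] at h3
  exact sub_nonneg.1 (nonneg_of_mul_nonneg_left h3 hy)

theorem eq_smul_of_CC {x y : V n} (hx : x ∈ Neg n) (hy : y ∈ Neg n) (h : CC x y ≤ 1) :
    ∃ c : ℂ, y = c • x := by
  obtain ⟨a, z, h0, h1, -, h2⟩ := b1a_dec hx hy
  obtain ⟨c, rfl⟩ := eq_smul_of_perp (ne_zero_of_mem_Neg hx) (le_of_lt hx) h1
    (h2 ▸ neg_nonneg.2 (mul_nonpos_of_nonpos_of_nonneg (sub_nonpos.2 h) (le_of_lt hy)))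
  exact ⟨a + c, by rw [add_smul, ← h0]⟩

theorem sqrt_CC_tri {x y z : V n} (hx : x ∈ Neg n) (hy : y ∈ Neg n) (hz : z ∈ Neg n) :
    √(CC x z) ≤ √(CC x y) * √(CC y z) + √(CC x y - 1) * √(CC y z - 1) := by
  obtain ⟨a, u, a0, a1, a2, a3⟩ := b1a_dec hy hx
  obtain ⟨b, w, b0, b1, b2, b3⟩ := b1a_dec hy hz
  rw [CC_comm] at a2 a3
  have px : 0 < NN x := hx
  have py : 0 < NN y := hy
  have pz : 0 < NN z := hz
  have c1 := one_le_CC hx hy
  have c2 := one_le_CC hy hz
  have h1 := cs_perp (ne_zero_of_mem_Neg hy) py.le a1 b1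
  have h2 : form x z = -(a * conj b * NN y) + form u w := by
    conv_lhs => rw [a0, b0]
    simp only [form_add_left, form_add_right, form_smul_left, form_smul_right, a1,
      form_eq_zero_comm.1 b1, form_self]
    ring
  have h3 : ‖form x z‖ ≤ ‖a‖ * ‖b‖ * NN y + ‖form u w‖ := by
    rw [h2]
    refine (norm_add_le _ _).trans_eq ?_
    rw [norm_neg, norm_mul, norm_mul, Complex.norm_conj, Complex.norm_real,
      Real.norm_of_nonneg py.le]
  have h4 : ‖a‖ * ‖b‖ * NN y = √(CC x y) * √(CC y z) * √(NN x * NN z) := by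
    rw [← Real.sqrt_mul (by linarith), ← Real.sqrt_mul (by positivity), eq_comm,
      Real.sqrt_eq_iff_mul_self_eq (by positivity) (by positivity)]
    linear_combination -(‖b‖ ^ 2 * NN y) * a2 - CC x y * NN x * b2
  have h5 : ‖form u w‖ ≤ √(CC x y - 1) * √(CC y z - 1) * √(NN x * NN z) := by
    rw [← Real.sqrt_mul (by linarith), ← Real.sqrt_mul
      (mul_nonneg (by linarith) (by linarith))]
    refine Real.le_sqrt_of_sq_le (h1.trans_eq ?_)
    rw [a3, b3]
    ring
  rw [CC, Real.sqrt_div (sq_nonneg _), Real.sqrt_sq (norm_nonneg _), div_le_iff₀ (by positivity)]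
  linarith

theorem CC_tri {x y z : V n} (hx : x ∈ Neg n) (hy : y ∈ Neg n) (hz : z ∈ Neg n) :
    CC x z ≤ 4 * CC x y * CC y z := by
  have c1 := one_le_CC hx hy
  have c2 := one_le_CC hy hz
  have h1 : √(CC x y - 1) * √(CC y z - 1) ≤ √(CC x y) * √(CC y z) := by
    gcongr <;> linarith
  have h2 := (Real.sqrt_le_left (by positivity)).1
    ((sqrt_CC_tri hx hy hz).trans (add_le_add le_rfl h1))
  rw [← two_mul, mul_pow, mul_pow, Real.sq_sqrt (by linarith), Real.sq_sqrt (by linarith)] at h2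
  linarith

theorem CC_tri_small {x y z : V n} (hx : x ∈ Neg n) (hy : y ∈ Neg n) (hz : z ∈ Neg n) {δ : ℝ}
    (h0 : 0 ≤ δ) (h1 : δ ≤ 1) (hxy : CC x y ≤ 1 + δ) (hyz : CC y z ≤ 1 + δ) :
    CC x z ≤ 1 + 8 * δ := by
  have h2 : √(CC x y) * √(CC y z) ≤ √(1 + δ) * √(1 + δ) := by gcongr
  have h3 : √(CC x y - 1) * √(CC y z - 1) ≤ √δ * √δ := by
    gcongr <;> linarith
  rw [Real.mul_self_sqrt (by linarith)] at h2 h3
  have h4 := (Real.sqrt_le_left (by positivity)).1
    ((sqrt_CC_tri hx hy hz).trans (add_le_add h2 h3))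
  nlinarith

theorem norm_sq_CC {x : V n} (hx : x ∈ Neg n) : ‖x‖ ^ 2 = (2 * CC (oo n) x - 1) * NN x := by
  have h1 : 0 < NN x := hx
  rw [norm_sq_eq_NN, CC_comm, CC, form_oo, norm_neg, NN_oo]
  field_simp

theorem exists_isom {x : V n} (hx : x ∈ Neg n) :
    ∃ h : GG n, IsIsom (h : Op n) ∧ ∃ c : ℂ, c ≠ 0 ∧ x = c • (h : Op n) (oo n) := by
  have h1 : 0 < NN x := hx
  have h2 := co_none_ne_zero hx
  have h3 : 0 < ‖co x none‖ := norm_pos_iff.2 h2
  have h4 : 0 < √(NN x) := Real.sqrt_pos.2 h1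
  obtain ⟨r, hr, e, he, h5, h6⟩ : ∃ r : ℝ, 0 < r ∧ ∃ e : ℂ, e ≠ 0 ∧ co (e • x) none = r ∧
      NN (e • x) = 1 := by
    refine ⟨‖co x none‖ / √(NN x), by positivity, (‖co x none‖ / √(NN x) : ℝ) / co x none,
      div_ne_zero (Complex.ofReal_ne_zero.2 (by positivity)) h2,
      by rw [co_smul, div_mul_cancel₀ _ h2], ?_⟩
    rw [NN_smul, norm_div, Complex.norm_real, Real.norm_of_nonneg (by positivity), div_pow,
      div_pow, Real.sq_sqrt h1.le]
    field_simp
  have h7 : form (e • x) (oo n) = -r := by rw [form_oo, h5]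
  have h8 : form (oo n) (e • x) = -r := by rw [← form_conj, h7, map_neg, Complex.conj_ofReal]
  have h9 : (1 + r : ℂ) ≠ 0 := by exact_mod_cast (by positivity : 1 + r ≠ 0)
  obtain ⟨h, hi, hh⟩ := b1a_refl (e • x + oo n) (t := (1 + r)⁻¹) (by
    rw [form_add_left, form_add_right, form_add_right, h7, h8, form_self, form_self, h6, NN_oo]
    push_cast
    field_simp
    ring)
  have h10 : (((1 + r)⁻¹ : ℝ) : ℂ) * form (oo n) (e • x + oo n) = -1 := by
    rw [form_add_right, h8, form_self, NN_oo]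
    push_cast
    field_simp
    ring
  refine ⟨h, hi, -e⁻¹, neg_ne_zero.2 (inv_ne_zero he), ?_⟩
  rw [hh, h10, neg_one_smul, neg_add, add_comm, neg_add_cancel_right, neg_smul_neg,
    inv_smul_smul₀ he]

end BallQ
end
end

-- merged part: Pool.Agent.Work.MP_72250f_ag.B1
section
/-!
Geometry of a form of signature (n,1). NN v = -<v,v>, so NN v > 0 means negative vector.
Hints. one_le_CC: by NN_eq and Cauchy-Schwarz in coordinates, or decompose y = a x + z with z perp x
once pos_of_perp_neg is known (pos_of_perp_neg: coordinates, |v0||x0| = |sum vi conj xi| <= |v'||x'| < |v'||x0|).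
cs_perp: the form is positive semidefinite on the orthogonal of y, usual discriminant argument.
sqrt_CC_tri: x = a y + x', z = b y + z' with x', z' perp y; -NN x' = |a|^2 NN y - NN x.
exists_isom: scale x so that NN x = 1 and form x oo is real negative; if x is not oo use the involution
v - 2 <v,d> d / <d,d>, d = x - oo (a positive vector). Perp decompositions: the form restricted to W is
nondegenerate, W -> dual W is injective hence onto (or LinearMap.BilinForm-free: map a |-> (formL a) restricted,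
conjugate linear; alternatively induct with an orthogonal basis: W = C x + (W meet x perp), positive definite part by
induction on finrank).
-/

open scoped ComplexConjugate ENNReal Topology
open MeasureTheory Filter

noncomputable section

namespace BallQ

variable {n : ℕ}

/-- The form is represented by a linear operator with respect to the inner product. -/
def b1_J (n : ℕ) : V n →ₗ[ℂ] V n where
  toFun v := v - (2 * co v none) • oo n
  map_add' v w := by simp only [co_add, mul_add, add_smul]; abel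
  map_smul' c v := by simp only [co_smul, RingHom.id_apply, smul_sub, smul_smul, mul_left_comm]

theorem b1_form_J (v u : V n) : form v u = inner ℂ u (b1_J n v) := by
  have h : inner ℂ u (oo n) = conj (co u none) := by
    rw [co_eq_inner, inner_conj_symm]; rfl
  simp only [b1_J, LinearMap.coe_mk, AddHom.coe_mk, inner_sub_right, inner_smul_right, h,
    form_eq_inner, mul_assoc]

theorem b1_perp (W : Submodule ℂ (V n)) (hW : ∀ a ∈ W, (∀ u ∈ W, form a u = 0) → a = 0)
    (v : V n) : ∃ a ∈ W, ∀ u ∈ W, form (v - a) u = 0 := by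
  let P : V n →ₗ[ℂ] W := (W.orthogonalProjectionOnto : V n →ₗ[ℂ] W) ∘ₗ b1_J n
  have hP : ∀ a, P a = 0 ↔ ∀ u ∈ W, form a u = 0 := fun a => by
    simp only [P, LinearMap.comp_apply, ContinuousLinearMap.coe_coe,
      Submodule.orthogonalProjectionOnto_eq_zero_iff, Submodule.mem_orthogonal, b1_form_J]
  have hinj : Function.Injective (P ∘ₗ W.subtype) := by
    rw [← LinearMap.ker_eq_bot, LinearMap.ker_eq_bot']
    exact fun a ha => Subtype.ext (hW a a.2 ((hP a).1 ha))
  obtain ⟨a, ha⟩ := LinearMap.injective_iff_surjective.1 hinj (P v)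
  exact ⟨a, a.2, (hP _).1 (by rw [map_sub, ← ha]; simp)⟩

theorem b1_NN_zero {a : V n} (h : form a a = 0) : NN a = 0 := by simp [NN, h]

theorem exists_perp_pos (W : Submodule ℂ (V n)) (hW : ∀ v ∈ W, v ≠ 0 → NN v < 0) (v : V n) :
    ∃ a ∈ W, ∀ u ∈ W, form (v - a) u = 0 :=
  b1_perp W (fun a ha h => by_contra fun h0 => (hW a ha h0).ne (b1_NN_zero (h a ha))) v

theorem exists_perp_neg (W : Submodule ℂ (V n)) (hW : ∃ x ∈ W, x ∈ Neg n) (v : V n) :
    ∃ a ∈ W, ∀ u ∈ W, form (v - a) u = 0 := by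
  obtain ⟨x, hx, hx'⟩ := hW
  exact b1_perp W (fun a ha h => by_contra fun h0 =>
    (pos_of_perp_neg hx' (h x hx) h0).ne (b1_NN_zero (h a ha))) v

/-- A unit preserving a subspace preserves it under the inverse too. -/
theorem inv_mem_of_maps (g : GG n) (W : Submodule ℂ (V n)) (hW : ∀ v ∈ W, (g : Op n) v ∈ W) :
    ∀ v ∈ W, ((g⁻¹ : GG n) : Op n) v ∈ W := by
  intro v hv
  have hinj : Function.Injective (LinearMap.restrict ((g : Op n) : V n →ₗ[ℂ] V n) hW) := by
    intro a b h
    have h1 : (g : Op n) a = (g : Op n) b := congrArg Subtype.val h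
    exact Subtype.ext (by rw [← inv_apply_apply g a, h1, inv_apply_apply])
  obtain ⟨a, ha⟩ := LinearMap.injective_iff_surjective.1 hinj ⟨v, hv⟩
  have h1 : (g : Op n) a = v := congrArg Subtype.val ha
  rw [← h1, inv_apply_apply]
  exact a.2

theorem IsIsom.perp_maps {g : GG n} (hg : IsIsom (g : Op n)) (W : Submodule ℂ (V n))
    (hW : ∀ v ∈ W, (g : Op n) v ∈ W) {b : V n} (hb : ∀ u ∈ W, form b u = 0) :
    ∀ u ∈ W, form ((g : Op n) b) u = 0 := fun u hu => by
  rw [hg.form_left]
  exact hb _ (inv_mem_of_maps g W hW u hu)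

theorem exists_null_dual {p x : V n} (hp0 : p ≠ 0) (hp : form p p = 0) (hx : x ∈ Neg n) :
    ∃ a b : ℂ, form (a • x + b • p) (a • x + b • p) = 0 ∧ form (a • x + b • p) p = -1 := by
  have h1 : form p x ≠ 0 := form_ne_zero_of_neg hx hp0 (b1_NN_zero hp).ge
  have h2 : form x p ≠ 0 := fun h => h1 (form_eq_zero_comm.1 h)
  have h3 : form ((-(form x p)⁻¹) • x) p = -1 := by
    rw [form_smul_left, neg_mul, inv_mul_cancel₀ h2]
  have h4 : form p ((-(form x p)⁻¹) • x) = -1 := by
    rw [← form_conj, h3]; simp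
  refine ⟨-(form x p)⁻¹, ((-NN ((-(form x p)⁻¹) • x) / 2 : ℝ) : ℂ), ?_, ?_⟩
  · generalize (-(form x p)⁻¹) • x = y at h3 h4
    rw [form_add_left, form_add_right, form_add_right, form_smul_left, form_smul_right,
      form_smul_left, form_smul_right, h3, h4, hp, form_self, Complex.conj_ofReal]
    push_cast
    ring
  · rw [form_add_left, h3, form_smul_left, hp, mul_zero, add_zero]

theorem continuousOn_CC : ContinuousOn (fun q : V n × V n => CC q.1 q.2) (Neg n ×ˢ Neg n) := by
  unfold CC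
  exact ContinuousOn.div (by fun_prop) (by fun_prop) fun q hq =>
    (mul_pos (mem_Neg.1 hq.1) (mem_Neg.1 hq.2)).ne'

theorem measurable_CC : Measurable (fun q : V n × V n => CC q.1 q.2) := by
  unfold CC
  exact Measurable.div (Continuous.measurable (by fun_prop)) (Continuous.measurable (by fun_prop))

theorem isCompact_slice (R : ℝ) : IsCompact {x : V n | NN x = 1 ∧ CC (oo n) x ≤ R} := by
  have h : {x : V n | NN x = 1 ∧ CC (oo n) x ≤ R} =
      {x : V n | NN x = 1} ∩ {x | ‖form (oo n) x‖ ^ 2 ≤ R} := by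
    ext x
    simp only [Set.mem_ofPred_eq, Set.mem_inter_iff, CC, NN_oo]
    exact and_congr_right fun hx => by rw [hx, one_mul, div_one]
  refine Metric.isCompact_of_isClosed_isBounded ?_ ?_
  · rw [h]
    exact (isClosed_eq (by fun_prop) continuous_const).inter
      (isClosed_le (by fun_prop) continuous_const)
  · refine isBounded_iff_forall_norm_le.2 ⟨√(2 * R), fun x hx => Real.le_sqrt_of_sq_le ?_⟩
    rw [norm_sq_CC (mem_Neg.2 (by rw [hx.1]; exact one_pos)), hx.1]
    linarith [hx.2]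

theorem exists_NN_one {x : V n} (hx : x ∈ Neg n) :
    ∃ c : ℝ, 0 < c ∧ NN ((c : ℂ) • x) = 1 := by
  have h := mem_Neg.1 hx
  refine ⟨(√(NN x))⁻¹, by positivity, ?_⟩
  rw [NN_smul, Complex.norm_real, Real.norm_eq_abs, sq_abs, inv_pow, Real.sq_sqrt h.le,
    inv_mul_cancel₀ h.ne']

theorem qq_oo (v : V n) : qq (oo n) v = ‖v‖ ^ 2 := by
  rw [qq, form_oo, NN_oo, norm_neg, div_one, norm_sq_eq_NN]
  ring

theorem qq_smul {c : ℂ} (hc : c ≠ 0) (x v : V n) : qq (c • x) v = qq x v := by
  have h : ‖c‖ ^ 2 ≠ 0 := pow_ne_zero _ (norm_ne_zero_iff.2 hc)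
  rw [qq, qq, form_smul_right, NN_smul, norm_mul, Complex.norm_conj, mul_pow, mul_left_comm,
    mul_div_mul_left _ _ h]

theorem IsIsom.qq_apply {g : Op n} (hg : IsIsom g) (x v : V n) : qq (g x) (g v) = qq x v := by
  rw [qq, qq, hg, hg.NN_apply, hg.NN_apply]

theorem b1_qq {x : V n} (hx : x ∈ Neg n) :
    ∃ h : Op n, IsIsom h ∧ ∀ v, qq x v = ‖h v‖ ^ 2 := by
  obtain ⟨h, hh, c, hc, rfl⟩ := exists_isom hx
  refine ⟨_, hh.inv, fun v => ?_⟩
  rw [qq_smul hc, ← qq_oo, ← hh.qq_apply (oo n), apply_inv_apply]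

theorem qq_nonneg {x : V n} (hx : x ∈ Neg n) (v : V n) : 0 ≤ qq x v := by
  obtain ⟨h, -, hh⟩ := b1_qq hx
  rw [hh]
  positivity

theorem norm_form_sq_le_qq {x : V n} (hx : x ∈ Neg n) (v w : V n) :
    ‖form v w‖ ^ 2 ≤ qq x v * qq x w := by
  obtain ⟨h, h1, hh⟩ := b1_qq hx
  rw [hh, hh, ← h1, ← mul_pow]
  exact pow_le_pow_left₀ (norm_nonneg _) (norm_form_le _ _) 2

theorem qq_self {x : V n} (hx : x ∈ Neg n) : qq x x = NN x := by
  have h := (mem_Neg.1 hx).ne'
  rw [qq, form_self, norm_neg, Complex.norm_real, Real.norm_eq_abs, sq_abs]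
  field_simp
  ring

end BallQ
end
end

-- merged part: Pool.Agent.Work.MP_72250f_ag.B2a
section
/-!
Rank one operators, traces, determinants, reflections, Eichler transformations.
All identities are checked by ext + the form_* lemmas of B0 (module / ring / linear_combination).
tr_rk1: LinearMap.trace_smulRight or trace in the basis (bas n).toBasis. det_one_add_rk1: pass to matrices
(LinearMap.det_toMatrix, Matrix.det_one_add_replicateCol_mul_replicateRow). norm_det: A^H J A = J for the matrix A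
of g in the basis bas, take determinants. eq_eich: eta = q - g q, pair with g q; tau from <g q, g q> = <q,q>.
-/

open scoped ComplexConjugate ENNReal Topology
open MeasureTheory Filter

noncomputable section

namespace BallQ

variable {n : ℕ}

/-- The signs of the form in the standard basis. -/
def b2a_sg (i : Option (Fin n)) : ℂ := Option.elim i (-1) fun _ => 1

theorem b2a_form_eq (v w : V n) : form v w = ∑ i, b2a_sg i * (co v i * conj (co w i)) := by
  rw [Fintype.sum_option, form]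
  simp only [b2a_sg, Option.elim, one_mul]
  ring

theorem b2a_form_bas (v : V n) (i : Option (Fin n)) : form v (bas n i) = b2a_sg i * co v i := by
  rw [b2a_form_eq, Finset.sum_eq_single i]
  · simp [co_bas]
  · intro j _ hj
    simp [co_bas, hj]
  · simp

theorem b2a_co_eq (v : V n) (i : Option (Fin n)) : co v i = b2a_sg i * form v (bas n i) := by
  rw [b2a_form_bas]
  cases i <;> simp [b2a_sg]

/-- The matrix of an operator. -/
def b2a_mat (T : Op n) : Matrix (Option (Fin n)) (Option (Fin n)) ℂ :=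
  Matrix.of fun i j => co (T (bas n j)) i

theorem b2a_toMatrix (T : Op n) :
    LinearMap.toMatrix (bas n).toBasis (bas n).toBasis (T : V n →ₗ[ℂ] V n) = b2a_mat T := by
  ext i j
  rw [LinearMap.toMatrix_apply]
  rfl

theorem b2a_det (T : Op n) : T.det = (b2a_mat T).det := by
  rw [ContinuousLinearMap.det, ← LinearMap.det_toMatrix (bas n).toBasis, b2a_toMatrix]

theorem rk1_mul_rk1 (a b c d : V n) : rk1 a b * rk1 c d = form c b • rk1 a d := by
  ext1 v
  simp only [mul_apply_eq_comp, rk1_apply, form_smul_left, smul_apply, smul_smul, mul_comm]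

theorem rk1_smul_left (c : ℂ) (a b : V n) : rk1 (c • a) b = c • rk1 a b := by
  ext1 v
  simp only [rk1_apply, smul_apply, smul_smul, mul_comm]

theorem rk1_smul_right (c : ℂ) (a b : V n) : rk1 a (c • b) = conj c • rk1 a b := by
  ext1 v
  simp only [rk1_apply, smul_apply, smul_smul, form_smul_right]

theorem rk1_smul_self (c : ℂ) (a : V n) :
    rk1 (c • a) (c • a) = ((‖c‖ ^ 2 : ℝ) : ℂ) • rk1 a a := by
  rw [rk1_smul_left, rk1_smul_right, smul_smul, Complex.mul_conj, Complex.normSq_eq_norm_sq]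

theorem mul_rk1 (T : Op n) (a b : V n) : T * rk1 a b = rk1 (T a) b := by
  ext1 v
  simp only [mul_apply_eq_comp, rk1_apply, map_smul]

theorem form_rk1 (a b v w : V n) : form (rk1 a b v) w = form v (rk1 b a w) := by
  rw [rk1_apply, rk1_apply, form_smul_left, form_smul_right, form_conj, mul_comm]

theorem form_rk1_self (a v : V n) : form (rk1 a a v) v = ((‖form v a‖ ^ 2 : ℝ) : ℂ) := by
  rw [rk1_apply, form_smul_left, ← form_conj v a, Complex.mul_conj, Complex.normSq_eq_norm_sq]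

theorem rk1_eq_zero {a : V n} : rk1 a a = 0 ↔ a = 0 := by
  constructor
  · intro h
    refine eq_zero_of_form fun w => form_eq_zero_comm.mp ?_
    have := form_rk1_self a w
    rw [h] at this
    have h2 : ((‖form w a‖ ^ 2 : ℝ) : ℂ) = 0 := by
      rw [← this]
      exact form_zero_left w
    simpa using h2
  · rintro rfl
    ext1 v
    simp

theorem cnj_rk1 {g : GG n} (hg : IsIsom (g : Op n)) (a b : V n) :
    cnj g (rk1 a b) = rk1 ((g : Op n) a) ((g : Op n) b) := by
  ext1 v
  rw [cnj_apply, rk1_apply, rk1_apply, map_smul, ← hg, apply_inv_apply]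

theorem eq_smul_of_rk1 {a b : V n} {c : ℂ} (hb : b ≠ 0) (h : rk1 a a = c • rk1 b b) :
    ∃ d : ℂ, a = d • b ∧ c = ((‖d‖ ^ 2 : ℝ) : ℂ) := by
  have hb' : rk1 b b ≠ 0 := fun h => hb (rk1_eq_zero.mp h)
  have key : ∃ d : ℂ, a = d • b := by
    by_cases ha : a = 0
    · exact ⟨0, by simp [ha]⟩
    obtain ⟨w, hw⟩ : ∃ w, form a w ≠ 0 := by
      by_contra hcon
      push Not at hcon
      exact ha (eq_zero_of_form hcon)
    have hw' : form w a ≠ 0 := fun h => hw (form_eq_zero_comm.mp h)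
    have h1 : form w a • a = c • form w b • b := congrArg (fun T : Op n => T w) h
    refine ⟨(form w a)⁻¹ * (c * form w b), ?_⟩
    rw [mul_smul, mul_smul, ← h1, smul_smul, inv_mul_cancel₀ hw', one_smul]
  obtain ⟨d, rfl⟩ := key
  refine ⟨d, rfl, ?_⟩
  rw [rk1_smul_self] at h
  exact (smul_left_injective ℂ hb' h).symm

theorem tr_add (S T : Op n) : tr (S + T) = tr S + tr T := by
  simp [tr]

theorem tr_sub (S T : Op n) : tr (S - T) = tr S - tr T := by
  simp [tr]

theorem tr_smul (c : ℂ) (T : Op n) : tr (c • T) = c * tr T := by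
  simp [tr]

theorem tr_sum {ι : Type*} (s : Finset ι) (T : ι → Op n) :
    tr (∑ i ∈ s, T i) = ∑ i ∈ s, tr (T i) := by
  simp [tr]

theorem tr_one : tr (1 : Op n) = n + 1 := by
  have : ((1 : Op n) : V n →ₗ[ℂ] V n) = 1 := rfl
  rw [tr, this, LinearMap.trace_one, finrank_V]
  simp

theorem tr_mul_comm (S T : Op n) : tr (S * T) = tr (T * S) := by
  exact LinearMap.trace_mul_comm ℂ (S : V n →ₗ[ℂ] V n) (T : V n →ₗ[ℂ] V n)

theorem tr_cnj (g : GG n) (T : Op n) : tr (cnj g T) = tr T := by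
  rw [cnj, tr_mul_comm, ← mul_assoc, Units.inv_mul, one_mul]

theorem tr_eq_sum (T : Op n) : tr T = ∑ i, co (T (bas n i)) i := by
  rw [tr, LinearMap.trace_eq_matrix_trace ℂ (bas n).toBasis, b2a_toMatrix]
  rfl

theorem tr_rk1 (a b : V n) : tr (rk1 a b) = form a b := by
  exact LinearMap.trace_smulRight (formL b : V n →ₗ[ℂ] ℂ) a

theorem IsIsom.tr_inv {g : GG n} (hg : IsIsom (g : Op n)) :
    tr ((g⁻¹ : GG n) : Op n) = conj (tr (g : Op n)) := by
  rw [tr_eq_sum, tr_eq_sum, map_sum]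
  refine Finset.sum_congr rfl fun i _ => ?_
  rw [b2a_co_eq, b2a_co_eq, map_mul, form_conj, ← hg, apply_inv_apply]
  cases i <;> simp [b2a_sg]

theorem det_mul' (S T : Op n) : (S * T).det = S.det * T.det := by
  exact LinearMap.det_comp (S : V n →ₗ[ℂ] V n) (T : V n →ₗ[ℂ] V n)

theorem det_smul' (c : ℂ) (T : Op n) : (c • T).det = c ^ (n + 1) * T.det := by
  have := LinearMap.det_smul c (T : V n →ₗ[ℂ] V n)
  rw [finrank_V] at this
  exact this

theorem det_one_add_rk1 (c : ℂ) (a b : V n) : (1 + c • rk1 a b).det = 1 + c * form a b := by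
  have : b2a_mat (1 + c • rk1 a b) = 1 + Matrix.replicateCol Unit (fun i => co a i) *
      Matrix.replicateRow Unit (fun j => c * form (bas n j) b) := by
    ext i j
    simp [b2a_mat, Matrix.mul_apply, Matrix.one_apply, co_bas]
    ring
  rw [b2a_det, this, Matrix.det_one_add_replicateCol_mul_replicateRow]
  congr 1
  conv_rhs => rw [← (bas n).sum_repr a, form_sum_left, Finset.mul_sum]
  refine Finset.sum_congr rfl fun i _ => ?_
  rw [form_smul_left]
  simp only [co]
  ring

theorem IsIsom.norm_det {g : Op n} (hg : IsIsom g) : ‖g.det‖ = 1 := by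
  have h1 : (b2a_mat g).conjTranspose * Matrix.diagonal b2a_sg * b2a_mat g =
      Matrix.diagonal b2a_sg := by
    ext k j
    have h := hg (bas n j) (bas n k)
    rw [b2a_form_bas, b2a_form_eq, co_bas] at h
    rw [Matrix.mul_apply, Matrix.diagonal_apply]
    simp only [Matrix.mul_diagonal, Matrix.conjTranspose_apply, b2a_mat, Matrix.of_apply]
    rw [show (if k = j then b2a_sg k else 0) = b2a_sg k * (if k = j then 1 else 0) by simp, ← h]
    refine Finset.sum_congr rfl fun i _ => ?_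
    rw [Complex.star_def]
    ring
  have h2 : (Matrix.diagonal (b2a_sg (n := n))).det ≠ 0 := by
    rw [Matrix.det_diagonal]
    refine Finset.prod_ne_zero_iff.mpr fun i _ => ?_
    cases i <;> simp [b2a_sg]
  have h3 := congrArg Matrix.det h1
  rw [Matrix.det_mul, Matrix.det_mul, Matrix.det_conjTranspose, ← b2a_det] at h3
  have h4 : g.det * conj g.det = 1 := by
    apply mul_left_cancel₀ h2
    rw [mul_one]
    conv_rhs => rw [← h3, Complex.star_def]
    ring
  rw [Complex.mul_conj, Complex.normSq_eq_norm_sq] at h4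
  have h5 : ‖g.det‖ ^ 2 = 1 := by exact_mod_cast h4
  exact (sq_eq_sq₀ (norm_nonneg _) zero_le_one).mp (by rw [h5, one_pow])

theorem IsIsom.isUnit {g : Op n} (hg : IsIsom g) : IsUnit g := by
  have hd : g.det ≠ 0 := by
    intro h
    have := hg.norm_det
    rw [h, norm_zero] at this
    exact zero_ne_one this
  exact ⟨(g.toContinuousLinearEquivOfDetNeZero hd).toUnit,
    g.coe_toContinuousLinearEquivOfDetNeZero hd⟩

end BallQ
end
end
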