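import Pool.Agent.Work.MP_72250f_ag.B4a
import Pool.Agent.Work.MP_72250f_ag.B2a

-- merged part: Pool.Agent.Work.MP_72250f_ag.M1a
section
/-!
Jacobians and the change of variables formula. cdet is Matrix.det of the columns v, A e_l; cdet_mul via
LinearMap.toMatrix in the basis bas and Matrix.det_mul; cdet_scale by column operations; cdet_comp by a block matrix.
det_fderiv_act: differentiate g (lift z) = j(z) lift (act g z), j z = co (g (lift z)) none, and take cdet on both sides.
lintegral_J: lintegral_image_eq_lintegral_abs_det_fderiv_mul for act M on the unit ball (injective, image = proj of M '' Neg);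
the real determinant is |det|^2 (LinearMap.det_restrictScalars, Algebra.norm_complex_eq), and
dens (act M z) |det|^2 = dens z * Jac M (lift z) since NN (M (lift z)) = |j|^2 (1 - |act M z|^2).
-/

open scoped ComplexConjugate ENNReal Topology
open MeasureTheory Filter

noncomputable section

namespace BallQ

variable {n : ℕ}

theorem m1a_co_incl_none (z : E n) : co (incl n z) none = 0 := by
  simp [incl]

theorem m1a_co_incl_some (z : E n) (i : Fin n) : co (incl n z) (some i) = z i := by
  simp [incl]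

theorem m1a_sum_single (z : E n) : z = ∑ k, z k • EuclideanSpace.single k (1 : ℂ) := by
  ext i
  simp [Pi.single_apply]

theorem m1a_map_eq {F : Type*} [NormedAddCommGroup F] [NormedSpace ℂ F] (A : E n →L[ℂ] F)
    (z : E n) : A z = ∑ k, z k • A (EuclideanSpace.single k (1 : ℂ)) := by
  conv_lhs => rw [m1a_sum_single z]
  simp only [map_sum, map_smul]

theorem m1a_co_sum {ι : Type*} (s : Finset ι) (f : ι → V n) (i : Option (Fin n)) :
    co (∑ k ∈ s, f k) i = ∑ k ∈ s, co (f k) i := by
  simp [co_eq_inner, inner_sum]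

theorem m1a_co_apply (T : Op n) (v : V n) (i : Option (Fin n)) :
    co (T v) i = ∑ k, co (T (bas n k)) i * co v k := by
  conv_lhs => rw [← (bas n).sum_repr v]
  rw [map_sum, m1a_co_sum]
  refine Finset.sum_congr rfl fun k _ => ?_
  rw [map_smul, co_smul, mul_comm]
  rfl

theorem m1a_det_op (T : Op n) :
    T.det = Matrix.det (Matrix.of fun i j : Option (Fin n) => co (T (bas n j)) i) := by
  rw [ContinuousLinearMap.det, ← LinearMap.det_toMatrix (bas n).toBasis]
  congr 1
  ext i j
  rw [LinearMap.toMatrix_apply]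
  rfl

theorem m1a_det_E (B : E n →L[ℂ] E n) :
    B.det = Matrix.det (Matrix.of fun i j : Fin n => B (EuclideanSpace.single j 1) i) := by
  rw [ContinuousLinearMap.det, ← LinearMap.det_toMatrix (EuclideanSpace.basisFun (Fin n) ℂ).toBasis]
  congr 1

theorem m1a_det_block (N : Matrix (Option (Fin n)) (Option (Fin n)) ℂ)
    (h : ∀ i, N (some i) none = 0) : N.det = N none none * (N.submatrix some some).det := by
  rw [← Matrix.det_submatrix_equiv_self (finSuccEquiv n), Matrix.det_succ_column_zero,
    Fin.sum_univ_succ]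
  simp [h, Matrix.submatrix_submatrix, Function.comp_def]

/-- The matrix of columns. -/
def m1a_mat (v : V n) (A : E n →L[ℂ] V n) : Matrix (Option (Fin n)) (Option (Fin n)) ℂ :=
  Matrix.of fun i j : Option (Fin n) =>
    Option.elim j (co v i) (fun l => co (A (EuclideanSpace.single l 1)) i)

theorem m1a_cdet (v : V n) (A : E n →L[ℂ] V n) : cdet v A = (m1a_mat v A).det := rfl

/-- Coordinates as continuous linear maps. -/
def m1a_coL (i : Option (Fin n)) : V n →L[ℂ] ℂ := innerSL ℂ (bas n i)

theorem m1a_coL_apply (i : Option (Fin n)) (v : V n) : m1a_coL i v = co v i := by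
  simp [m1a_coL, co_eq_inner]

theorem lift_eq (z : E n) : lift z = oo n + incl n z := by
  apply V_ext
  intro i
  cases i <;> simp [oo, co_bas, m1a_co_incl_none, m1a_co_incl_some]

theorem hasFDerivAt_lift (z : E n) : HasFDerivAt lift (incl n) z := by
  have : (lift : E n → V n) = fun z => oo n + incl n z := funext lift_eq
  rw [this]
  exact (incl n).hasFDerivAt.const_add _

theorem cdet_mul (T : Op n) (v : V n) (A : E n →L[ℂ] V n) :
    cdet (T v) (T.comp A) = T.det * cdet v A := by
  rw [m1a_cdet, m1a_cdet, m1a_det_op, ← Matrix.det_mul]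
  congr 1
  ext i j
  rw [Matrix.mul_apply]
  cases j with
  | none => exact m1a_co_apply T v i
  | some l => exact m1a_co_apply T _ i

theorem cdet_scale (a : ℂ) (v : V n) (A : E n →L[ℂ] V n) (φ : E n →L[ℂ] ℂ) :
    cdet (a • v) (a • A + φ.smulRight v) = a ^ (n + 1) * cdet v A := by
  let U : Matrix (Option (Fin n)) (Option (Fin n)) ℂ := Matrix.of fun i j =>
    Option.elim i (Option.elim j a fun l => φ (EuclideanSpace.single l 1))
      fun k => Option.elim j 0 fun l => if k = l then a else 0
  have hU : U.det = a ^ (n + 1) := by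
    rw [m1a_det_block U (fun i => rfl)]
    have : U.submatrix some some = Matrix.diagonal fun _ => a := by
      ext k l
      simp [U, Matrix.diagonal_apply]
    rw [this, Matrix.det_diagonal, pow_succ']
    simp [U]
  rw [m1a_cdet, m1a_cdet, ← hU, mul_comm, ← Matrix.det_mul]
  congr 1
  ext i j
  rw [Matrix.mul_apply, Fintype.sum_option]
  cases j with
  | none => simp [m1a_mat, U, mul_comm]
  | some l => simp [m1a_mat, U, mul_comm, add_comm]

theorem cdet_comp (v : V n) (A : E n →L[ℂ] V n) (B : E n →L[ℂ] E n) :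
    cdet v (A.comp B) = cdet v A * B.det := by
  let U : Matrix (Option (Fin n)) (Option (Fin n)) ℂ := Matrix.of fun i j =>
    Option.elim i (Option.elim j 1 fun _ => 0)
      fun k => Option.elim j 0 fun l => B (EuclideanSpace.single l 1) k
  have hU : U.det = B.det := by
    rw [m1a_det_block U (fun i => rfl), m1a_det_E]
    have : U none none = 1 := rfl
    rw [this, one_mul]
    rfl
  rw [m1a_cdet, m1a_cdet, ← hU, ← Matrix.det_mul]
  congr 1
  ext i j
  rw [Matrix.mul_apply, Fintype.sum_option]
  cases j with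
  | none => simp [m1a_mat, U]
  | some l =>
    simp only [m1a_mat, U, Matrix.of_apply, Option.elim, ContinuousLinearMap.comp_apply, mul_zero,
      zero_add]
    rw [m1a_map_eq A, m1a_co_sum]
    simp [mul_comm]

theorem cdet_lift (z : E n) : cdet (lift z) (incl n) = 1 := by
  rw [m1a_cdet, ← Matrix.det_transpose, m1a_det_block _ (fun i => by
    simp [m1a_mat, m1a_co_incl_none])]
  have : (m1a_mat (lift z) (incl n)).transpose.submatrix some some = 1 := by
    ext k l
    simp [m1a_mat, m1a_co_incl_some, Matrix.one_apply, eq_comm]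
  rw [this]
  simp [m1a_mat]

theorem cdet_bdd (n : ℕ) (R : ℝ) : ∃ B : ℝ, ∀ (v : V n) (A : E n →L[ℂ] V n), ‖v‖ ≤ R → ‖A‖ ≤ R →
    ‖cdet v A‖ ≤ B := by
  have : ProperSpace (E n →L[ℂ] V n) := FiniteDimensional.proper ℂ _
  have hc : Continuous fun q : V n × (E n →L[ℂ] V n) => cdet q.1 q.2 := by
    refine Continuous.matrix_det (continuous_matrix fun i j => ?_)
    cases j with
    | none => exact (continuous_co i).comp continuous_fst
    | some l => exact (continuous_co i).comp (continuous_snd.clm_apply continuous_const)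
  obtain ⟨B, hB⟩ := ((isCompact_closedBall (0 : V n) R).prod
    (isCompact_closedBall (0 : E n →L[ℂ] V n) R)).exists_bound_of_continuousOn hc.continuousOn
  exact ⟨B, fun v A hv hA => hB (v, A) ⟨by simpa using hv, by simpa using hA⟩⟩

theorem det_one_add_smulRight (l : E n →L[ℂ] ℂ) (e : E n) :
    (ContinuousLinearMap.id ℂ (E n) + l.smulRight e).det = 1 + l e := by
  have : ContinuousSMul ℂ (E n) := IsBoundedSMul.continuousSMul
  rw [m1a_det_E]
  have : (Matrix.of fun i j : Fin n =>
      (ContinuousLinearMap.id ℂ (E n) + l.smulRight e) (EuclideanSpace.single j 1) i) =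
      1 + Matrix.replicateCol Unit (fun i => e i) *
        Matrix.replicateRow Unit (fun j => l (EuclideanSpace.single j 1)) := by
    ext i j
    simp [Matrix.mul_apply, Matrix.one_apply, mul_comm]
  rw [this, Matrix.det_one_add_replicateCol_mul_replicateRow, m1a_map_eq l e]
  simp [dotProduct, mul_comm]

theorem smul_lift_act {g : Op n} {z : E n} (h : co (g (lift z)) none ≠ 0) :
    g (lift z) = co (g (lift z)) none • lift (act g z) := by
  exact (lift_proj h).symm

theorem differentiableAt_act {g : Op n} {z : E n} (h : co (g (lift z)) none ≠ 0) :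
    DifferentiableAt ℂ (act g) z := by
  have hd : ∀ i, DifferentiableAt ℂ (fun z => co (g (lift z)) i) z := fun i => by
    simp only [← m1a_coL_apply]
    exact (m1a_coL i).differentiableAt.comp z
      (g.differentiableAt.comp z (hasFDerivAt_lift z).differentiableAt)
  refine differentiableAt_euclidean.mpr fun i => ?_
  have : (fun x => act g x i) = fun x => co (g (lift x)) (some i) * (co (g (lift x)) none)⁻¹ :=
    funext fun x => div_eq_mul_inv _ _
  rw [this]
  exact (hd (some i)).fun_mul ((hd none).fun_inv h)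

theorem det_fderiv_act {g : Op n} {z : E n} (h : co (g (lift z)) none ≠ 0) :
    (fderiv ℂ (act g) z).det = g.det / co (g (lift z)) none ^ (n + 1) := by
  have : ContinuousSMul ℂ (E n) := IsBoundedSMul.continuousSMul
  have h1 : HasFDerivAt (fun z => g (lift z)) (g.comp (incl n)) z :=
    g.hasFDerivAt.comp z (hasFDerivAt_lift z)
  have h2 : HasFDerivAt (fun z => co (g (lift z)) none) ((m1a_coL none).comp (g.comp (incl n))) z := by
    simp only [← m1a_coL_apply]
    exact (m1a_coL none).hasFDerivAt.comp z h1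
  have h3 : HasFDerivAt (fun z => lift (act g z)) ((incl n).comp (fderiv ℂ (act g) z)) z :=
    (hasFDerivAt_lift _).comp z (differentiableAt_act h).hasFDerivAt
  have h4 := h2.fun_smul h3
  have h5 : (fun z => g (lift z)) =ᶠ[𝓝 z] fun z => co (g (lift z)) none • lift (act g z) := by
    filter_upwards [h2.continuousAt.eventually_ne h] with w hw using smul_lift_act hw
  have h6 := h1.unique (h4.congr_of_eventuallyEq h5)
  have h7 := cdet_mul g (lift z) (incl n)
  rw [cdet_lift, mul_one, h6] at h7
  conv_lhs at h7 => enter [1]; rw [smul_lift_act h]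
  rw [cdet_scale, cdet_comp, cdet_lift, one_mul] at h7
  rw [← h7, mul_div_cancel_left₀ _ (pow_ne_zero _ h)]

theorem IsIsom.act_mem {g : Op n} (hg : IsIsom g) {z : E n} (hz : z ∈ Metric.ball (0 : E n) 1) :
    act g z ∈ Metric.ball (0 : E n) 1 := by
  exact proj_mem_ball (hg.mem_Neg.mpr (lift_mem_Neg.mpr hz))

theorem act_mul {g h : Op n} {z : E n} (hz : co (h (lift z)) none ≠ 0) :
    act (g * h) z = act g (act h z) := by
  rw [act, mul_apply_eq_comp, smul_lift_act hz, map_smul, proj_smul hz]
  rfl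

theorem act_one (z : E n) : act (1 : Op n) z = z := by
  simp [act]

theorem act_smul {c : ℂ} (hc : c ≠ 0) (g : Op n) (z : E n) : act (c • g) z = act g z := by
  rw [act, smul_apply, proj_smul hc, act]

instance : SFinite (nu n) := by
  unfold nu
  infer_instance

end BallQ
end
end

-- merged part: Pool.Agent.Work.MP_72250f_ag.M1b
section
/-!
Jacobians and the change of variables formula. cdet is Matrix.det of the columns v, A e_l; cdet_mul via
LinearMap.toMatrix in the basis bas and Matrix.det_mul; cdet_scale by column operations; cdet_comp by a block matrix.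
det_fderiv_act: differentiate g (lift z) = j(z) lift (act g z), j z = co (g (lift z)) none, and take cdet on both sides.
lintegral_J: lintegral_image_eq_lintegral_abs_det_fderiv_mul for act M on the unit ball (injective, image = proj of M '' Neg);
the real determinant is |det|^2 (LinearMap.det_restrictScalars, Algebra.norm_complex_eq), and
dens (act M z) |det|^2 = dens z * Jac M (lift z) since NN (M (lift z)) = |j|^2 (1 - |act M z|^2).
-/

open scoped ComplexConjugate ENNReal Topology
open MeasureTheory Filter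

noncomputable section

namespace BallQ

variable {n : ℕ}

theorem m1b_nu_apply {s : Set (V n)} (hs : MeasurableSet s) :
    nu n s = ((volume.restrict (Metric.ball (0 : E n) 1)).withDensity dens) (lift ⁻¹' s) :=
  Measure.map_apply continuous_lift.measurable hs

theorem measurable_dens : Measurable (dens : E n → ℝ≥0∞) := by
  unfold dens
  exact ENNReal.measurable_ofReal.comp (by fun_prop)

theorem lintegral_nu {f : V n → ℝ≥0∞} (hf : Measurable f) :
    ∫⁻ v, f v ∂(nu n) = ∫⁻ z in Metric.ball (0 : E n) 1, dens z * f (lift z) := by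
  rw [nu, lintegral_map hf continuous_lift.measurable]
  exact lintegral_withDensity_eq_lintegral_mul _ measurable_dens
    (hf.comp continuous_lift.measurable)

theorem ae_nu : ∀ᵐ v ∂(nu n), v ∈ Neg n ∧ co v none = 1 := by
  have hm : MeasurableSet {v : V n | v ∈ Neg n ∧ co v none = 1} :=
    isOpen_Neg.measurableSet.inter (isClosed_eq (continuous_co none) continuous_const).measurableSet
  rw [nu, ae_map_iff continuous_lift.measurable.aemeasurable hm]
  refine (withDensity_absolutelyContinuous _ _).ae_le ?_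
  filter_upwards [ae_restrict_mem Metric.isOpen_ball.measurableSet] with z hz
  exact ⟨lift_mem_Neg.mpr hz, co_lift_none z⟩

theorem nu_submodule (W : Submodule ℂ (V n)) (hW : W ≠ ⊤) : nu n (W : Set (V n)) = 0 := by
  rw [m1b_nu_apply W.closed_of_finiteDimensional.measurableSet]
  refine withDensity_absolutelyContinuous _ _ (Measure.absolutelyContinuous_of_le
    Measure.restrict_le_self ?_)
  rcases Set.eq_empty_or_nonempty (lift ⁻¹' (W : Set (V n))) with h | ⟨z0, hz0⟩
  · rw [h, measure_empty]
  let W' : Submodule ℝ (E n) := (W.comap (incl n : E n →ₗ[ℂ] V n)).restrictScalars ℝ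
  have hmem : ∀ z, z ∈ W' ↔ incl n z ∈ W := fun z => Iff.rfl
  have hz0' : oo n + incl n z0 ∈ W := by
    rw [← lift_eq]
    exact hz0
  have hW' : W' ≠ ⊤ := by
    intro h
    apply hW
    have h1 : ∀ z, incl n z ∈ W := fun z => (hmem z).mp (h ▸ Submodule.mem_top)
    have h2 : oo n ∈ W := (W.add_mem_iff_left (h1 z0)).mp hz0'
    rw [eq_top_iff]
    intro v _
    have : v = co v none • oo n + incl n (WithLp.toLp 2 fun j => co v (some j)) := by
      apply V_ext
      intro i
      cases i <;> simp [oo, co_bas, m1a_co_incl_none, m1a_co_incl_some]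
    rw [this]
    exact W.add_mem (W.smul_mem _ h2) (h1 _)
  have : lift ⁻¹' (W : Set (V n)) = (fun z => z + -z0) ⁻¹' (W' : Set (E n)) := by
    ext z
    simp only [Set.mem_preimage, SetLike.mem_coe, hmem, lift_eq]
    have e : oo n + incl n z = incl n (z + -z0) + (oo n + incl n z0) := by
      simp only [map_add, map_neg]
      abel
    rw [e, W.add_mem_iff_left hz0']
  rw [this, measure_preimage_add_right]
  exact Measure.addHaar_submodule _ W' hW'

theorem nu_open_ne_zero {O : Set (V n)} (hO : IsOpen O) (hc : IsCone O)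
    (hne : (O ∩ Neg n).Nonempty) : nu n O ≠ 0 := by
  obtain ⟨x, hxO, hx⟩ := hne
  have h0 := co_none_ne_zero hx
  have h1 : lift (proj x) ∈ O := by
    have := hc _ (inv_ne_zero h0) x hxO
    rw [← lift_proj h0, smul_smul, co_smul, co_lift_none, mul_one, inv_mul_cancel₀ h0,
      one_smul] at this
    exact this
  rw [m1b_nu_apply hO.measurableSet]
  intro h
  have hd : ∀ᵐ z ∂(volume.restrict (Metric.ball (0 : E n) 1)), dens z ≠ 0 := by
    filter_upwards [ae_restrict_mem Metric.isOpen_ball.measurableSet] with z hz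
    have : 0 < 1 - ‖z‖ ^ 2 := by
      rw [← NN_lift]
      exact lift_mem_Neg.mpr hz
    exact (ENNReal.ofReal_pos.mpr (by positivity)).ne'
  have h2 := withDensity_absolutelyContinuous' measurable_dens.aemeasurable hd h
  have hU : IsOpen (lift ⁻¹' O : Set (E n)) := hO.preimage continuous_lift
  rw [Measure.restrict_apply hU.measurableSet] at h2
  exact (hU.inter Metric.isOpen_ball).measure_ne_zero volume ⟨proj x, h1, proj_mem_ball hx⟩ h2

theorem measurable_Jac (M : Op n) : Measurable (Jac M) := by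
  unfold Jac
  refine ENNReal.measurable_ofReal.comp (Measurable.const_mul (Measurable.pow_const ?_ _) _)
  exact continuous_NN.measurable.div (continuous_NN.comp M.continuous).measurable

end BallQ
end
end

-- merged part: Pool.Agent.Work.MP_72250f_ag.M1
section
/-!
Jacobians and the change of variables formula. cdet is Matrix.det of the columns v, A e_l; cdet_mul via
LinearMap.toMatrix in the basis bas and Matrix.det_mul; cdet_scale by column operations; cdet_comp by a block matrix.
det_fderiv_act: differentiate g (lift z) = j(z) lift (act g z), j z = co (g (lift z)) none, and take cdet on both sides.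
lintegral_J: lintegral_image_eq_lintegral_abs_det_fderiv_mul for act M on the unit ball (injective, image = proj of M '' Neg);
the real determinant is |det|^2 (LinearMap.det_restrictScalars, Algebra.norm_complex_eq), and
dens (act M z) |det|^2 = dens z * Jac M (lift z) since NN (M (lift z)) = |j|^2 (1 - |act M z|^2).
-/

open scoped ComplexConjugate ENNReal Topology
open MeasureTheory Filter

noncomputable section

namespace BallQ

variable {n : ℕ}

theorem m1_measurable_proj : Measurable (proj : V n → E n) := by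
  unfold proj
  refine (PiLp.continuous_toLp 2 _).measurable.comp (measurable_pi_lambda _ fun i => ?_)
  exact (continuous_co _).measurable.div (continuous_co _).measurable

theorem m1_lift_act {g : Op n} {z : E n} (h : co (g (lift z)) none ≠ 0) :
    lift (act g z) = (co (g (lift z)) none)⁻¹ • g (lift z) := by
  conv_rhs => enter [2]; rw [smul_lift_act h]
  rw [smul_smul, inv_mul_cancel₀ h, one_smul]

theorem m1_abs_det (B : E n →L[ℂ] E n) : |(B.restrictScalars ℝ).det| = ‖B.det‖ ^ 2 := by
  have : (B.restrictScalars ℝ).det = Algebra.norm ℝ B.det :=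
    LinearMap.det_restrictScalars (R := ℝ) (S := ℂ) (f := (B : E n →ₗ[ℂ] E n))
  rw [this, Algebra.norm_complex_apply, Complex.normSq_eq_norm_sq, abs_of_nonneg (by positivity)]

theorem lintegral_J (M : GG n) (hM : ∀ v ∈ Neg n, (M : Op n) v ∈ Neg n) {f : V n → ℝ≥0∞}
    (hf : Measurable f) (hs : SInv f) :
    ∫⁻ v, f ((M : Op n) v) * Jac (M : Op n) v ∂(nu n) =
      ∫⁻ v in {v | ((M⁻¹ : GG n) : Op n) v ∈ Neg n}, f v ∂(nu n) := by
  have hT : MeasurableSet {v | ((M⁻¹ : GG n) : Op n) v ∈ Neg n} :=
    (isOpen_Neg.preimage ((M⁻¹ : GG n) : Op n).continuous).measurableSet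
  have hj : ∀ z ∈ Metric.ball (0 : E n) 1, co ((M : Op n) (lift z)) none ≠ 0 := fun z hz =>
    co_none_ne_zero (hM _ (lift_mem_Neg.mpr hz))
  have himg : act (M : Op n) '' Metric.ball (0 : E n) 1 =
      lift ⁻¹' {v | ((M⁻¹ : GG n) : Op n) v ∈ Neg n} ∩ Metric.ball (0 : E n) 1 := by
    ext w
    constructor
    · rintro ⟨z, hz, rfl⟩
      refine ⟨?_, proj_mem_ball (hM _ (lift_mem_Neg.mpr hz))⟩
      show ((M⁻¹ : GG n) : Op n) (lift (act (M : Op n) z)) ∈ Neg n
      rw [m1_lift_act (hj z hz), map_smul, inv_apply_apply]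
      exact smul_mem_Neg (inv_ne_zero (hj z hz)) (lift_mem_Neg.mpr hz)
    · rintro ⟨hw, -⟩
      have hw' : ((M⁻¹ : GG n) : Op n) (lift w) ∈ Neg n := hw
      refine ⟨act ((M⁻¹ : GG n) : Op n) w, proj_mem_ball hw', ?_⟩
      rw [← act_mul (co_none_ne_zero hw'), Units.mul_inv, act_one]
  have hinj : Set.InjOn (act (M : Op n)) (Metric.ball (0 : E n) 1) := by
    have key : ∀ z ∈ Metric.ball (0 : E n) 1,
        act ((M⁻¹ : GG n) : Op n) (act (M : Op n) z) = z := fun z hz => by
      rw [← act_mul (hj z hz), Units.inv_mul, act_one]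
    intro z hz z' hz' h
    rw [← key z hz, h, key z' hz']
  have hcv := lintegral_image_eq_lintegral_abs_det_fderiv_mul (volume : Measure (E n))
    (f' := fun z => (fderiv ℂ (act (M : Op n)) z).restrictScalars ℝ)
    Metric.isOpen_ball.measurableSet
    (fun z hz => ((differentiableAt_act (hj z hz)).hasFDerivAt.restrictScalars ℝ).hasFDerivWithinAt)
    hinj (fun w => dens w * f (lift w))
  have hm1 : Measurable fun v => f ((M : Op n) v) * Jac (M : Op n) v :=
    (hf.comp (M : Op n).continuous.measurable).mul (measurable_Jac _)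
  rw [← lintegral_indicator hT, lintegral_nu hm1, lintegral_nu (hf.indicator hT)]
  have e1 : ∫⁻ z in Metric.ball (0 : E n) 1,
      dens z * {v | ((M⁻¹ : GG n) : Op n) v ∈ Neg n}.indicator f (lift z) =
      ∫⁻ z in act (M : Op n) '' Metric.ball (0 : E n) 1, dens z * f (lift z) := by
    rw [himg, ← Measure.restrict_restrict (continuous_lift.measurable hT),
      ← lintegral_indicator (continuous_lift.measurable hT)]
    refine lintegral_congr fun z => ?_
    by_cases hz : lift z ∈ {v | ((M⁻¹ : GG n) : Op n) v ∈ Neg n}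
    · rw [Set.indicator_of_mem hz, Set.indicator_of_mem (by exact hz)]
    · rw [Set.indicator_of_notMem hz, Set.indicator_of_notMem (by exact hz), mul_zero]
  rw [e1, hcv]
  refine setLIntegral_congr_fun Metric.isOpen_ball.measurableSet fun z hz => ?_
  have h0 := hj z hz
  have h1 : 0 < 1 - ‖z‖ ^ 2 := by
    rw [← NN_lift]
    exact lift_mem_Neg.mpr hz
  have h2 : 0 < 1 - ‖act (M : Op n) z‖ ^ 2 := by
    rw [← NN_lift]
    exact lift_mem_Neg.mpr (proj_mem_ball (hM _ (lift_mem_Neg.mpr hz)))
  have h3 : NN ((M : Op n) (lift z)) =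
      ‖co ((M : Op n) (lift z)) none‖ ^ 2 * (1 - ‖act (M : Op n) z‖ ^ 2) := by
    conv_lhs => rw [smul_lift_act h0, NN_smul, NN_lift]
  have h4 : f (lift (act (M : Op n) z)) = f ((M : Op n) (lift z)) := by
    rw [m1_lift_act h0, hs _ (inv_ne_zero h0)]
  simp only []
  rw [h4, m1_abs_det, det_fderiv_act h0, mul_comm (f _), ← mul_assoc, ← mul_assoc]
  congr 1
  rw [dens, dens, Jac, ← ENNReal.ofReal_mul (by positivity), ← ENNReal.ofReal_mul (by positivity),
    h3, NN_lift, norm_div, norm_pow]
  congr 1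
  have h5 : ‖co ((M : Op n) (lift z)) none‖ ≠ 0 := norm_ne_zero_iff.mpr h0
  generalize ‖co ((M : Op n) (lift z)) none‖ = j at h5
  generalize 1 - ‖z‖ ^ 2 = a at h1
  generalize 1 - ‖act (M : Op n) z‖ ^ 2 = b at h2
  rw [div_pow, div_pow, mul_pow, ← pow_mul, ← pow_mul, mul_comm 2 (n + 1), inv_pow, inv_pow]
  field_simp

theorem lintegral_isom {g : GG n} (hg : IsIsom (g : Op n)) {f : V n → ℝ≥0∞} (hf : Measurable f)
    (hs : SInv f) : ∫⁻ v, f ((g : Op n) v) ∂(nu n) = ∫⁻ v, f v ∂(nu n) := by
  have h := lintegral_J g (fun v hv => hg.mem_Neg.mpr hv) hf hs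
  have e1 : ∫⁻ v, f ((g : Op n) v) * Jac (g : Op n) v ∂(nu n) = ∫⁻ v, f ((g : Op n) v) ∂(nu n) := by
    refine lintegral_congr_ae ?_
    filter_upwards [ae_nu] with v hv
    have : NN v ≠ 0 := ne_of_gt hv.1
    rw [Jac, hg.norm_det, hg.NN_apply, div_self this]
    simp
  have e2 : (nu n).restrict {v | ((g⁻¹ : GG n) : Op n) v ∈ Neg n} = nu n := by
    refine Measure.restrict_eq_self_of_ae_mem ?_
    filter_upwards [ae_nu] with v hv using hg.inv.mem_Neg.mpr hv.1
  rw [← e1, h, e2]

theorem measurePreserving_actV {g : GG n} (hg : IsIsom (g : Op n)) :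
    MeasurePreserving (actV (g : Op n)) (nu n) (nu n) := by
  have hm0 : Measurable fun v : V n => lift (proj v) :=
    continuous_lift.measurable.comp m1_measurable_proj
  have hm : Measurable (actV (g : Op n)) := hm0.comp (g : Op n).continuous.measurable
  refine ⟨hm, Measure.ext fun s hs => ?_⟩
  have h := lintegral_isom hg (f := fun v => s.indicator 1 (lift (proj v)))
    ((measurable_one.indicator hs).comp hm0) (fun c hc v => by simp only [proj_smul hc])
  rw [Measure.map_apply hm hs, ← lintegral_indicator_one (hm hs), ← lintegral_indicator_one hs]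
  refine Eq.trans ?_ (h.trans ?_)
  · rfl
  · refine lintegral_congr_ae ?_
    filter_upwards [ae_nu] with v hv
    have := lift_proj (co_none_ne_zero hv.1)
    rw [hv.2, one_smul] at this
    rw [this]

theorem actV_eq {g : Op n} (hg : IsIsom g) {v : V n} (hv : v ∈ Neg n) :
    ∃ c : ℂ, c ≠ 0 ∧ actV g v = c • g v := by
  have h0 := co_none_ne_zero (hg.mem_Neg.mpr hv)
  refine ⟨(co (g v) none)⁻¹, inv_ne_zero h0, ?_⟩
  conv_rhs => enter [2]; rw [← lift_proj h0]
  rw [smul_smul, inv_mul_cancel₀ h0, one_smul, actV]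

end BallQ
end
end

-- merged part: Pool.Agent.Work.MP_72250f_ag.H1a
section
/-!
Several complex variables: basic facts. X is a finite dimensional complex normed space, Y a complex Banach space.
norm_fderiv_le: Cauchy estimate (Complex.norm_deriv_le_of_forall_mem_sphere_norm_le) on the line l |-> f (x + l v).
continuousOn_fderiv: apply the estimate to y |-> f (y + x') - f (y + x) and use uniform continuity on a compact ball.
differentiableOn_param: hasFDerivAt_integral_of_dominated_of_fderiv_le, derivative bounded by the Cauchy estimate,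
measurability of t |-> fderiv (f t) x as a limit of difference quotients along basis vectors or by continuity
(same Cauchy estimate). differentiableOn_fderiv_apply: fderiv f x v is a circle integral of f (x + l v) / l^2.
contDiffOn: induction with contDiffOn_succ_of_fderiv_apply style lemmas. eqOn_zero: restrict to complex lines; the set
of points near which f vanishes is open and closed in U.
-/

open scoped ComplexConjugate ENNReal Topology
open MeasureTheory Filter

noncomputable section

namespace BallQ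

variable {n : ℕ}

section

variable {X Y : Type*} [NormedAddCommGroup X] [NormedSpace ℂ X] [FiniteDimensional ℂ X]
  [NormedAddCommGroup Y] [NormedSpace ℂ Y] [CompleteSpace Y]

omit [FiniteDimensional ℂ X] [CompleteSpace Y] in
theorem h1a_hasDerivAt_line {f : X → Y} {x : X} (v : X) (hf : DifferentiableAt ℂ f x) :
    HasDerivAt (fun l : ℂ => f (x + l • v)) (fderiv ℂ f x v) 0 := by
  have h1 : HasDerivAt (fun l : ℂ => x + l • v) v 0 := by
    simpa using ((hasDerivAt_id (0 : ℂ)).smul_const v).const_add x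
  have h2 : HasFDerivAt f (fderiv ℂ f x) (x + (0 : ℂ) • v) := by
    simpa using hf.hasFDerivAt
  exact h2.comp_hasDerivAt (0 : ℂ) h1

theorem norm_fderiv_le {f : X → Y} {x : X} {r B : ℝ} (hr : 0 < r)
    (hf : DifferentiableOn ℂ f (Metric.ball x r)) (hB : ∀ y ∈ Metric.ball x r, ‖f y‖ ≤ B) :
    ‖fderiv ℂ f x‖ ≤ B / r := by
  have hB0 : 0 ≤ B := (norm_nonneg _).trans (hB x (Metric.mem_ball_self hr))
  refine ContinuousLinearMap.opNorm_le_bound _ (by positivity) fun v => ?_
  rcases eq_or_ne v 0 with rfl | hv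
  · simp
  have hv0 : 0 < ‖v‖ := norm_pos_iff.mpr hv
  have hR : 0 < r / ‖v‖ := by positivity
  have hmap : ∀ l ∈ Metric.ball (0 : ℂ) (r / ‖v‖), x + l • v ∈ Metric.ball x r := by
    intro l hl
    rw [mem_ball_zero_iff, lt_div_iff₀ hv0] at hl
    rw [mem_ball_iff_norm, add_sub_cancel_left, norm_smul]
    exact hl
  have hd : DifferentiableOn ℂ (fun l : ℂ => f (x + l • v)) (Metric.ball 0 (r / ‖v‖)) :=
    hf.comp (by fun_prop) hmap
  have hder := (h1a_hasDerivAt_line v (hf.differentiableAt (Metric.ball_mem_nhds x hr))).deriv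
  have key : ∀ᶠ ρ in 𝓝[<] (r / ‖v‖), ‖fderiv ℂ f x v‖ ≤ B / ρ := by
    filter_upwards [Ioo_mem_nhdsLT hR] with ρ hρ
    rw [← hder]
    refine Complex.norm_deriv_le_of_forall_mem_sphere_norm_le hρ.1
      (hd.diffContOnCl_ball (Metric.closedBall_subset_ball hρ.2)) fun z hz => hB _ (hmap z ?_)
    exact Metric.closedBall_subset_ball hρ.2 (Metric.sphere_subset_closedBall hz)
  have hlim : Tendsto (fun ρ : ℝ => B / ρ) (𝓝[<] (r / ‖v‖)) (𝓝 (B / (r / ‖v‖))) :=
    ((continuousAt_const.div continuousAt_id hR.ne').tendsto).mono_left nhdsWithin_le_nhds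
  refine (ge_of_tendsto hlim key).trans_eq ?_
  field_simp

theorem h1a_cont {T : Type*} [TopologicalSpace T] {S : Set T} {f : T → X → Y} {U : Set X}
    (hU : IsOpen U) (hc : ContinuousOn (fun q : T × X => f q.1 q.2) (S ×ˢ U))
    (hf : ∀ t ∈ S, DifferentiableOn ℂ (f t) U) :
    ContinuousOn (fun q : T × X => fderiv ℂ (f q.1) q.2) (S ×ˢ U) := by
  have : ProperSpace X := FiniteDimensional.proper ℂ X
  rintro ⟨t0, x0⟩ ⟨ht0, hx0⟩
  obtain ⟨r2, hr2, hsub⟩ := Metric.isOpen_iff.mp hU x0 hx0
  set r := r2 / 3 with hr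
  have hr0 : 0 < r := by positivity
  have hin : ∀ x' ∈ Metric.ball x0 r, ∀ y ∈ Metric.closedBall (0 : X) r, x' + y ∈ U := by
    intro x' hx' y hy
    apply hsub
    rw [mem_ball_iff_norm] at hx' ⊢
    rw [mem_closedBall_zero_iff] at hy
    calc ‖x' + y - x0‖ = ‖(x' - x0) + y‖ := by congr 1; abel
      _ ≤ ‖x' - x0‖ + ‖y‖ := norm_add_le _ _
      _ < r2 := by linarith only [hr, hr0, hx', hy]
  rw [ContinuousWithinAt, Metric.tendsto_nhds]
  intro ε hε
  have hP : ∀ y ∈ Metric.closedBall (0 : X) r, ∀ᶠ z : (T × X) × X in 𝓝 ((t0, x0), y),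
      (z.1.1 ∈ S ∧ z.1.2 + z.2 ∈ U ∧ x0 + z.2 ∈ U →
        ‖f z.1.1 (z.1.2 + z.2) - f t0 (x0 + z.2)‖ < ε / 2 * r) := by
    intro y hy
    have hy0 : x0 + y ∈ U := hin x0 (Metric.mem_ball_self hr0) y hy
    have h1 : ContinuousWithinAt (fun z : (T × X) × X => f z.1.1 (z.1.2 + z.2))
        {z | z.1.1 ∈ S ∧ z.1.2 + z.2 ∈ U ∧ x0 + z.2 ∈ U} ((t0, x0), y) := by
      refine ContinuousWithinAt.comp (g := fun q : T × X => f q.1 q.2)
        (f := fun z : (T × X) × X => (z.1.1, z.1.2 + z.2)) (t := S ×ˢ U) (hc _ ⟨ht0, hy0⟩) ?_ ?_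
      · exact Continuous.continuousWithinAt (by fun_prop)
      · exact fun z hz => ⟨hz.1, hz.2.1⟩
    have h2 : ContinuousWithinAt (fun z : (T × X) × X => f t0 (x0 + z.2))
        {z | z.1.1 ∈ S ∧ z.1.2 + z.2 ∈ U ∧ x0 + z.2 ∈ U} ((t0, x0), y) := by
      refine ContinuousWithinAt.comp (g := fun q : T × X => f q.1 q.2)
        (f := fun z : (T × X) × X => (t0, x0 + z.2)) (t := S ×ˢ U) (hc _ ⟨ht0, hy0⟩) ?_ ?_
      · exact Continuous.continuousWithinAt (by fun_prop)
      · exact fun z hz => ⟨ht0, hz.2.2⟩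
    have h3 := (h1.sub h2).norm
    have h4 : ‖f t0 (x0 + y) - f t0 (x0 + y)‖ < ε / 2 * r := by
      rw [sub_self, norm_zero]
      positivity
    exact eventually_nhdsWithin_iff.mp (h3.eventually (gt_mem_nhds h4))
  have hQ := (isCompact_closedBall (0 : X) r).eventually_forall_of_forall_eventually
    (P := fun (q : T × X) (y : X) => (q.1 ∈ S ∧ q.2 + y ∈ U ∧ x0 + y ∈ U →
        ‖f q.1 (q.2 + y) - f t0 (x0 + y)‖ < ε / 2 * r)) hP
  have hb : ∀ᶠ q : T × X in 𝓝 (t0, x0), q.2 ∈ Metric.ball x0 r :=
    continuous_snd.continuousAt.eventually (Metric.ball_mem_nhds x0 hr0)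
  filter_upwards [self_mem_nhdsWithin, nhdsWithin_le_nhds hQ, nhdsWithin_le_nhds hb]
    with q hq hq1 hq2
  have hx0b := Metric.mem_ball_self (x := x0) hr0
  have hd1 : DifferentiableOn ℂ (fun y => f q.1 (q.2 + y)) (Metric.ball 0 r) :=
    (hf q.1 hq.1).comp (by fun_prop) fun y hy => hin _ hq2 y (Metric.ball_subset_closedBall hy)
  have hd2 : DifferentiableOn ℂ (fun y => f t0 (x0 + y)) (Metric.ball 0 r) :=
    (hf t0 ht0).comp (by fun_prop) fun y hy => hin _ hx0b y (Metric.ball_subset_closedBall hy)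
  have hle := norm_fderiv_le hr0 (hd1.sub hd2) (B := ε / 2 * r) fun y hy => by
    have hy' := Metric.ball_subset_closedBall hy
    exact (hq1 y hy' ⟨hq.1, hin _ hq2 y hy', hin _ hx0b y hy'⟩).le
  have hnb := Metric.ball_mem_nhds (0 : X) hr0
  rw [fderiv_sub (hd1.differentiableAt hnb) (hd2.differentiableAt hnb), fderiv_comp_add_left,
    fderiv_comp_add_left, add_zero, add_zero, mul_div_cancel_right₀ _ hr0.ne'] at hle
  rw [dist_eq_norm]
  linarith only [hε, hle]

theorem continuousOn_fderiv {f : X → Y} {U : Set X} (hU : IsOpen U)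
    (hf : DifferentiableOn ℂ f U) : ContinuousOn (fderiv ℂ f) U := by
  have h := h1a_cont (T := Unit) (S := Set.univ) (f := fun _ => f) hU
    (hf.continuousOn.comp continuous_snd.continuousOn fun q hq => hq.2) fun _ _ => hf
  exact h.comp (f := fun x : X => (((), x) : Unit × X)) (by fun_prop) fun x hx => ⟨trivial, hx⟩

theorem differentiableOn_param {f : ℝ → X → Y} {U : Set X} (hU : IsOpen U) (a b : ℝ)
    (hc : ContinuousOn (fun q : ℝ × X => f q.1 q.2) (Set.uIcc a b ×ˢ U))
    (hf : ∀ t ∈ Set.uIcc a b, DifferentiableOn ℂ (f t) U) :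
    DifferentiableOn ℂ (fun x => ∫ t in a..b, f t x) U := by
  have : ProperSpace X := FiniteDimensional.proper ℂ X
  intro x0 hx0
  have hc' := h1a_cont hU hc hf
  obtain ⟨r, hr, hsub⟩ := Metric.nhds_basis_closedBall.mem_iff.mp (hU.mem_nhds hx0)
  have hK : IsCompact (Set.uIcc a b ×ˢ Metric.closedBall x0 r) :=
    isCompact_uIcc.prod (isCompact_closedBall _ _)
  obtain ⟨C, hC⟩ := hK.exists_bound_of_continuousOn (hc'.mono (Set.prod_mono le_rfl hsub))
  have hline : ∀ x ∈ U, ContinuousOn (fun t => f t x) (Set.uIcc a b) := fun x hx =>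
    hc.comp (f := fun t : ℝ => (t, x)) (by fun_prop) fun t ht => ⟨ht, hx⟩
  have hline' : ContinuousOn (fun t => fderiv ℂ (f t) x0) (Set.uIcc a b) :=
    hc'.comp (f := fun t : ℝ => (t, x0)) (by fun_prop) fun t ht => ⟨ht, hx0⟩
  have key := intervalIntegral.hasFDerivAt_integral_of_dominated_of_fderiv_le (𝕜 := ℂ)
    (μ := volume) (a := a) (b := b) (F := fun x t => f t x) (F' := fun x t => fderiv ℂ (f t) x)
    (x₀ := x0) (s := Metric.closedBall x0 r) (bound := fun _ => C)
    (Metric.closedBall_mem_nhds x0 hr) ?_ (hline x0 hx0).intervalIntegrable ?_ ?_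
    intervalIntegrable_const ?_
  · exact key.differentiableAt.differentiableWithinAt
  · filter_upwards [hU.mem_nhds hx0] with x hx
    exact ((hline x hx).mono Set.uIoc_subset_uIcc).aestronglyMeasurable measurableSet_uIoc
  · exact (hline'.mono Set.uIoc_subset_uIcc).aestronglyMeasurable measurableSet_uIoc
  · exact Eventually.of_forall fun t ht x hx => hC (t, x) ⟨Set.uIoc_subset_uIcc ht, hx⟩
  · exact Eventually.of_forall fun t ht x hx =>
      ((hf t (Set.uIoc_subset_uIcc ht)).differentiableAt (hU.mem_nhds (hsub hx))).hasFDerivAt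

end

end BallQ
end
end

-- merged part: Pool.Agent.Work.MP_72250f_ag.H1b
section
/-!
Several complex variables: basic facts. X is a finite dimensional complex normed space, Y a complex Banach space.
norm_fderiv_le: Cauchy estimate (Complex.norm_deriv_le_of_forall_mem_sphere_norm_le) on the line l |-> f (x + l v).
continuousOn_fderiv: apply the estimate to y |-> f (y + x') - f (y + x) and use uniform continuity on a compact ball.
differentiableOn_param: hasFDerivAt_integral_of_dominated_of_fderiv_le, derivative bounded by the Cauchy estimate,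
measurability of t |-> fderiv (f t) x as a limit of difference quotients along basis vectors or by continuity
(same Cauchy estimate). differentiableOn_fderiv_apply: fderiv f x v is a circle integral of f (x + l v) / l^2.
contDiffOn: induction with contDiffOn_succ_of_fderiv_apply style lemmas. eqOn_zero: restrict to complex lines; the set
of points near which f vanishes is open and closed in U.
-/

open scoped ComplexConjugate ENNReal Topology
open MeasureTheory Filter

noncomputable section

namespace BallQ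

variable {n : ℕ}

section

variable {X Y : Type*} [NormedAddCommGroup X] [NormedSpace ℂ X] [FiniteDimensional ℂ X]
  [NormedAddCommGroup Y] [NormedSpace ℂ Y] [CompleteSpace Y]

theorem differentiableOn_fderiv_apply {f : X → Y} {U : Set X} (hU : IsOpen U)
    (hf : DifferentiableOn ℂ f U) (v : X) : DifferentiableOn ℂ (fun x => fderiv ℂ f x v) U := by
  intro x0 hx0
  obtain ⟨r2, hr2, hsub⟩ := Metric.isOpen_iff.mp hU x0 hx0
  set ρ := r2 / 2 with hρ
  have hρ0 : 0 < ρ := by positivity
  set δ := ρ / (2 * (‖v‖ + 1)) with hδ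
  have hδ0 : 0 < δ := by positivity
  have hin : ∀ x ∈ Metric.ball x0 ρ, ∀ l ∈ Metric.ball (0 : ℂ) (2 * δ), x + l • v ∈ U := by
    intro x hx l hl
    apply hsub
    rw [mem_ball_iff_norm] at hx ⊢
    rw [mem_ball_zero_iff] at hl
    have h1 : ‖l • v‖ ≤ ρ := by
      rw [norm_smul]
      have h2 : 2 * δ * (‖v‖ + 1) = ρ := by
        rw [hδ]
        field_simp
      calc ‖l‖ * ‖v‖ ≤ 2 * δ * (‖v‖ + 1) := by
            gcongr
            linarith only []
        _ = ρ := h2
    calc ‖x + l • v - x0‖ = ‖(x - x0) + l • v‖ := by congr 1; abel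
      _ ≤ ‖x - x0‖ + ‖l • v‖ := norm_add_le _ _
      _ < r2 := by linarith only [hρ, hx, h1]
  have hcm : ∀ θ : ℝ, circleMap 0 δ θ ∈ Metric.ball (0 : ℂ) (2 * δ) := by
    intro θ
    rw [mem_ball_zero_iff, norm_circleMap_zero, abs_of_pos hδ0]
    linarith only [hδ0]
  have hne : ∀ θ : ℝ, circleMap 0 δ θ ≠ 0 := fun θ => circleMap_ne_center hδ0.ne'
  have hbU : Metric.ball x0 ρ ⊆ U := fun x hx => by
    simpa using hin x hx 0 (Metric.mem_ball_self (by positivity))
  have hI : DifferentiableOn ℂ (fun x => ∫ θ in (0 : ℝ)..2 * Real.pi,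
      (circleMap 0 δ θ * Complex.I) • ((circleMap 0 δ θ - 0) ^ 2)⁻¹ • f (x + circleMap 0 δ θ • v))
      (Metric.ball x0 ρ) := by
    refine differentiableOn_param (f := fun θ x => (circleMap 0 δ θ * Complex.I) •
      ((circleMap 0 δ θ - 0) ^ 2)⁻¹ • f (x + circleMap 0 δ θ • v)) Metric.isOpen_ball _ _ ?_ ?_
    · have hcc : Continuous fun q : ℝ × X => circleMap 0 δ q.1 :=
        (continuous_circleMap 0 δ).comp continuous_fst
      refine (hcc.mul continuous_const).continuousOn.smul (ContinuousOn.smul ?_ ?_)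
      · refine (Continuous.inv₀ ((hcc.sub continuous_const).pow 2) fun q => ?_).continuousOn
        simpa using hne q.1
      · exact hf.continuousOn.comp (continuous_snd.add (hcc.smul continuous_const)).continuousOn
          fun q hq => hin _ hq.2 _ (hcm _)
    · intro θ _
      refine DifferentiableOn.const_smul (DifferentiableOn.const_smul ?_ _) _
      exact hf.comp (by fun_prop) fun x hx => hin _ hx _ (hcm _)
  have heq : ∀ x ∈ Metric.ball x0 ρ, fderiv ℂ f x v = (2 * Real.pi * Complex.I : ℂ)⁻¹ •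
      ∫ θ in (0 : ℝ)..2 * Real.pi, (circleMap 0 δ θ * Complex.I) •
        ((circleMap 0 δ θ - 0) ^ 2)⁻¹ • f (x + circleMap 0 δ θ • v) := by
    intro x hx
    have hd : DifferentiableOn ℂ (fun l : ℂ => f (x + l • v)) (Metric.ball 0 (2 * δ)) :=
      hf.comp (by fun_prop) fun l hl => hin _ hx _ hl
    have h1 := Complex.two_pi_I_inv_smul_circleIntegral_sub_sq_inv_smul_of_differentiable
      Metric.isOpen_ball (c := 0) (w₀ := 0) (R := δ)
      (Metric.closedBall_subset_ball (by linarith only [hδ0])) hd (Metric.mem_ball_self hδ0)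
    rw [(h1a_hasDerivAt_line v (hf.differentiableAt (hU.mem_nhds (hbU hx)))).deriv] at h1
    rw [← h1, circleIntegral]
    simp only [deriv_circleMap]
  have hfin : DifferentiableOn ℂ (fun x => fderiv ℂ f x v) (Metric.ball x0 ρ) :=
    (hI.const_smul (2 * Real.pi * Complex.I : ℂ)⁻¹).congr heq
  exact (hfin.differentiableAt (Metric.ball_mem_nhds x0 hρ0)).differentiableWithinAt

theorem contDiffOn_of_differentiableOn {f : X → Y} {U : Set X} (hU : IsOpen U)
    (hf : DifferentiableOn ℂ f U) (m : ℕ) : ContDiffOn ℂ m f U := by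
  induction m generalizing f with
  | zero => simpa using hf.continuousOn
  | succ m ih =>
    rw [Nat.cast_succ]
    refine contDiffOn_succ_of_fderiv_apply hf (fun h => absurd h (by simp)) fun y => ?_
    refine (ih (differentiableOn_fderiv_apply hU hf y)).congr fun x hx => ?_
    rw [fderivWithin_of_isOpen hU hx]

theorem eqOn_zero_of_open {f : X → Y} {U : Set X} (hU : IsOpen U) (hc : IsPreconnected U)
    (hf : DifferentiableOn ℂ f U) {a : X} (ha : a ∈ U) (h0 : ∀ᶠ x in 𝓝 a, f x = 0) :
    ∀ x ∈ U, f x = 0 := by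
  have hW : IsOpen {x : X | ∀ᶠ y in 𝓝 x, f y = 0} := isOpen_setOfPred_eventually_nhds
  have hsub : U ⊆ {x : X | ∀ᶠ y in 𝓝 x, f y = 0} := by
    refine hc.subset_of_closure_inter_subset hW ⟨a, ha, h0⟩ ?_
    rintro x ⟨hx1, hx2⟩
    obtain ⟨r, hr, hb⟩ := Metric.isOpen_iff.mp hU x hx2
    obtain ⟨w, hw1, hw2⟩ := mem_closure_iff.mp hx1 _ Metric.isOpen_ball (Metric.mem_ball_self hr)
    filter_upwards [Metric.ball_mem_nhds x hr] with y hy
    set D : Set ℂ := (AffineMap.lineMap w y : ℂ → X) ⁻¹' Metric.ball x r with hD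
    have hcont : Continuous (AffineMap.lineMap w y : ℂ → X) := AffineMap.lineMap_continuous
    have hDo : IsOpen D := Metric.isOpen_ball.preimage hcont
    have hDc : Convex ℝ D := by
      intro s hs t ht α β hα hβ hαβ
      have h1 := convex_ball x r hs ht hα hβ hαβ
      have h2 : (AffineMap.lineMap w y : ℂ → X) (α • s + β • t) =
          α • (AffineMap.lineMap w y : ℂ → X) s + β • (AffineMap.lineMap w y : ℂ → X) t := by
        simp only [AffineMap.lineMap_apply, vsub_eq_sub, vadd_eq_add, smul_add, add_smul,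
          smul_assoc]
        have h3 : w = α • w + β • w := by rw [← add_smul, hαβ, one_smul]
        conv_lhs => rw [show α • s • (y - w) + β • t • (y - w) + w =
          α • s • (y - w) + β • t • (y - w) + (α • w + β • w) by rw [← h3]]
        abel
      show (AffineMap.lineMap w y : ℂ → X) (α • s + β • t) ∈ Metric.ball x r
      rw [h2]
      exact h1
    have hg : DifferentiableOn ℂ (f ∘ (AffineMap.lineMap w y : ℂ → X)) D :=
      hf.comp (AffineMap.lineMap w y).differentiableOn fun l hl => hb hl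
    have h0D : (0 : ℂ) ∈ D := by simpa [hD] using hw1
    have h1D : (1 : ℂ) ∈ D := by simpa [hD] using hy
    have hz : f ∘ (AffineMap.lineMap w y : ℂ → X) =ᶠ[𝓝 0] 0 := by
      have ht : Tendsto (AffineMap.lineMap w y : ℂ → X) (𝓝 0) (𝓝 w) := by
        simpa using hcont.tendsto 0
      exact ht.eventually hw2
    have := (hg.analyticOnNhd hDo).eqOn_zero_of_preconnected_of_eventuallyEq_zero
      hDc.isPreconnected h0D hz h1D
    simpa using this
  exact fun x hx => (hsub hx).self_of_nhds

theorem dense_ne_zero {h : X → ℂ} {U : Set X} (hU : IsOpen U)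
    (h0 : ∀ a ∈ U, ¬ ∀ᶠ x in 𝓝 a, h x = 0) : U ⊆ closure {x | x ∈ U ∧ h x ≠ 0} := by
  intro a ha
  rw [mem_closure_iff_frequently]
  exact ((not_eventually.mp (h0 a ha)).and_eventually (hU.mem_nhds ha)).mono
    fun x hx => ⟨hx.2, hx.1⟩

/-- A uniformly summable series of holomorphic maps is holomorphic. -/
theorem differentiableOn_tsum_of_bdd {ι : Type*} {f : ι → X → Y} {U : Set X} (hU : IsOpen U)
    (hf : ∀ i, DifferentiableOn ℂ (f i) U)
    (hb : ∀ a ∈ U, ∃ r : ℝ, 0 < r ∧ ∃ u : ι → ℝ, Summable u ∧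
      ∀ i, ∀ x ∈ Metric.ball a r, ‖f i x‖ ≤ u i) :
    DifferentiableOn ℂ (fun x => ∑' i, f i x) U := by
  intro a ha
  obtain ⟨r, hr, u, hu, hbd⟩ := hb a ha
  obtain ⟨r', hr', hsub⟩ := Metric.isOpen_iff.mp hU a ha
  set ρ := min r r' / 2 with hρ
  have hρ0 : 0 < ρ := by positivity
  have hball : ∀ x ∈ Metric.ball a ρ, Metric.ball x ρ ⊆ Metric.ball a (min r r') := by
    intro x hx
    refine Metric.ball_subset_ball' ?_
    rw [Metric.mem_ball] at hx
    linarith only [hρ, hx]
  have h1 : ∀ x ∈ Metric.ball a ρ, Metric.ball x ρ ⊆ U := fun x hx =>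
    ((hball x hx).trans (Metric.ball_subset_ball (min_le_right _ _))).trans hsub
  have h2 : ∀ x ∈ Metric.ball a ρ, Metric.ball x ρ ⊆ Metric.ball a r := fun x hx =>
    (hball x hx).trans (Metric.ball_subset_ball (min_le_left _ _))
  have ha' := Metric.mem_ball_self (x := a) hρ0
  have key := hasFDerivAt_tsum_of_isPreconnected (𝕜 := ℂ) (f := f)
    (f' := fun i x => fderiv ℂ (f i) x) (u := fun i => u i / ρ) (s := Metric.ball a ρ)
    (hu.div_const ρ) Metric.isOpen_ball (convex_ball a ρ).isPreconnected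
    (fun i x hx => ((hf i).differentiableAt
      (hU.mem_nhds (h1 x hx (Metric.mem_ball_self hρ0)))).hasFDerivAt)
    (fun i x hx => norm_fderiv_le hρ0 ((hf i).mono (h1 x hx)) fun y hy => hbd i y (h2 x hx hy))
    ha' (Summable.of_norm_bounded hu fun i => hbd i a (Metric.mem_ball_self hr)) ha'
  exact key.differentiableAt.differentiableWithinAt

end

theorem h1b_lift_eq (z : E n) : lift z = oo n + incl n z := by
  apply V_ext
  intro i
  have h : incl n z = mkV (fun i => Option.elim i 0 (fun j => z j)) := rfl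
  cases i with
  | none => simp [h, oo, co_bas]
  | some j => simp [h, oo, co_bas]

theorem h1b_differentiable_lift : Differentiable ℂ (lift : E n → V n) := by
  have h : (lift : E n → V n) = fun z => oo n + incl n z := funext h1b_lift_eq
  rw [h]
  exact (incl n).differentiable.const_add _

/-- A holomorphic function on negative vectors, homogeneous, vanishing near a point of the slice, vanishes. -/
theorem IsHol.eq_zero {w : ℕ} {G : V n → ℂ} (hG : IsHol w G) {O : Set (E n)} (hO : IsOpen O)
    (hne : O.Nonempty) (hb : O ⊆ Metric.ball 0 1) (h : ∀ z ∈ O, G (lift z) = 0) : G = 0 := by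
  obtain ⟨a, ha⟩ := hne
  have hd : DifferentiableOn ℂ (fun z : E n => G (lift z)) (Metric.ball 0 1) :=
    hG.diff.comp h1b_differentiable_lift.differentiableOn fun z hz => lift_mem_Neg.mpr hz
  have h0 := eqOn_zero_of_open Metric.isOpen_ball (convex_ball (0 : E n) 1).isPreconnected hd
    (hb ha) (Filter.mem_of_superset (hO.mem_nhds ha) h)
  funext v
  by_cases hv : v ∈ Neg n
  · have hc := co_none_ne_zero hv
    rw [← lift_proj hc, hG.hom _ hc, h0 _ (proj_mem_ball hv), mul_zero]
    rfl
  · exact hG.zero v hv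

end BallQ
end
end

-- merged part: Pool.Agent.Work.MP_72250f_ag.H1
section
/-!
One variable facts on half planes. periodic_bound: Function.Periodic.cuspFunction needs a function periodic on all of C: replace f by
s |-> if y0 < Im s then f s else 0 (or define F q = f (log q / (2 pi i)) on the punctured disc of radius exp(-2 pi y0), holomorphic by
periodicity). Then q F q tends to 0, so the singularity is removable (Complex.differentiableOn_update_limUnder_of_isLittleO or
.._of_bddAbove applied to q F q) and the maximum principle on the disc of radius exp(-2 pi y1) gives the bound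
(Complex.norm_le_of_forall_mem_frontier_norm_le). periodic_deriv_bound: f s = F (exp (2 pi i s)) with F bounded holomorphic on a disc, Cauchy
estimate for F'. herglotz_growth: for s = x + i y, Complex.borelCaratheodory or the Schwarz lemma for (f - f a)/(f + conj (f a)) composed with the
Cayley map of the half plane at the base point a = i (y0 + 1): |f s| <= |f a| (1 + r)/(1 - r) with r = |s - a| / |s - conj' a|,
(1+r)/(1-r) <= 4 |s - a'|^2 / (4 (y - y0)) where a' is the mirror image of a.
-/

open scoped ComplexConjugate ENNReal Topology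
open MeasureTheory Filter

noncomputable section

namespace BallQ

variable {n : ℕ}

open Function.Periodic in
theorem h1_cusp {Y : Type*} [NormedAddCommGroup Y] [NormedSpace ℂ Y] [CompleteSpace Y]
    {f : ℂ → Y} {y0 : ℝ} (hf : DifferentiableOn ℂ f {s | y0 < s.im})
    (hp : ∀ s : ℂ, y0 < s.im → f (s + 1) = f s)
    (ho : ∀ ε : ℝ, 0 < ε → ∃ y2 : ℝ, ∀ s : ℂ, y2 ≤ s.im → 0 ≤ s.re → s.re ≤ 1 →
      ‖f s‖ ≤ ε * Real.exp (2 * Real.pi * s.im)) :
    ∃ G : ℂ → Y, DifferentiableOn ℂ G (Metric.ball 0 (Real.exp (-2 * Real.pi * y0 / 1))) ∧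
      ∀ s : ℂ, y0 < s.im → G (qParam 1 s) = f s := by
  classical
  have hopen : IsOpen {s : ℂ | y0 < s.im} := isOpen_lt continuous_const Complex.continuous_im
  set g : ℂ → Y := fun s => if y0 < s.im then f s else 0 with hg
  have hgf : ∀ s : ℂ, y0 < s.im → g s = f s := fun s hs => if_pos hs
  have hper : Function.Periodic g ((1 : ℝ) : ℂ) := by
    intro s
    have him : (s + ((1 : ℝ) : ℂ)).im = s.im := by simp
    by_cases hs : y0 < s.im
    · rw [hgf s hs, hgf _ (him ▸ hs), Complex.ofReal_one, hp s hs]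
    · simp only [hg, him, if_neg hs]
  set F : ℂ → Y := fun q => g (invQParam 1 q) with hF
  have hFq : ∀ s : ℂ, F (qParam 1 s) = g s := by
    intro s
    obtain ⟨m, hm⟩ := qParam_left_inv_mod_period (h := 1) one_ne_zero s
    simp only [hF, hm]
    exact hper.int_mul m s
  have hgd : ∀ z : ℂ, y0 < z.im → DifferentiableAt ℂ g z := by
    intro z hz
    refine (hf.differentiableAt (hopen.mem_nhds hz)).congr_of_eventuallyEq ?_
    filter_upwards [hopen.mem_nhds hz] with s hs using hgf s hs
  have hFd : ∀ z : ℂ, y0 < z.im → DifferentiableAt ℂ F (qParam 1 z) := by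
    intro z hz
    have hol_z := hgd z hz
    let q := qParam 1 z
    have qdiff : HasStrictDerivAt (qParam 1) (q * (2 * Real.pi * Complex.I / ((1 : ℝ) : ℂ))) z := by
      simpa only [id_eq, mul_one] using! (((hasStrictDerivAt_id z).const_mul _).div_const _).cexp
    have diff_ne : q * (2 * Real.pi * Complex.I / ((1 : ℝ) : ℂ)) ≠ 0 :=
      mul_ne_zero (Complex.exp_ne_zero _) (div_ne_zero Complex.two_pi_I_ne_zero (by simp))
    let L := (qdiff.localInverse (qParam 1) _ z) diff_ne
    have diff_L : DifferentiableAt ℂ L q :=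
      (qdiff.to_localInverse diff_ne).hasStrictFDerivAt.differentiableAt
    have hL : qParam 1 ∘ L =ᶠ[𝓝 q] (id : ℂ → ℂ) :=
      (qdiff.hasStrictFDerivAt_equiv diff_ne).eventually_right_inverse
    have hF' := hL.fun_comp F
    have : F ∘ qParam 1 ∘ L = g ∘ L := funext fun z => hFq (L z)
    rw [this] at hF'
    rw [← EventuallyEq.eq_of_nhds (qdiff.hasStrictFDerivAt_equiv diff_ne).eventually_left_inverse]
      at hol_z
    exact (hol_z.comp q diff_L).congr_of_eventuallyEq hF'.symm
  have hd : DifferentiableOn ℂ F (Metric.ball 0 (Real.exp (-2 * Real.pi * y0 / 1)) \ {0}) := by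
    rintro q ⟨hq1, hq2⟩
    have hq : qParam 1 (invQParam 1 q) = q := qParam_right_inv one_ne_zero hq2
    rw [mem_ball_zero_iff, ← hq, norm_qParam_lt_iff one_pos] at hq1
    have := hFd _ hq1
    rw [hq] at this
    exact this.differentiableWithinAt
  have ho1 : F =o[𝓝[≠] 0] fun z : ℂ => (z - 0)⁻¹ := by
    rw [Asymptotics.isLittleO_iff]
    intro ε hε
    obtain ⟨y2, hy2⟩ := ho ε hε
    have hev : ∀ᶠ s : ℂ in comap Complex.im atTop, max y2 (y0 + 1) ≤ s.im :=
      tendsto_comap.eventually (eventually_ge_atTop _)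
    filter_upwards [(invQParam_tendsto (h := 1) one_pos).eventually hev, self_mem_nhdsWithin]
      with q hq hq0
    set s := invQParam 1 q with hs
    have hqs : qParam 1 s = q := qParam_right_inv one_ne_zero hq0
    set s' : ℂ := s - (⌊s.re⌋ : ℤ) * ((1 : ℝ) : ℂ) with hs'
    have him : s'.im = s.im := by simp [hs']
    have hre : s'.re = Int.fract s.re := by
      rw [← Int.self_sub_floor]
      simp only [hs', Complex.ofReal_one, mul_one, Complex.sub_re, Complex.intCast_re]
    have h1 : F q = f s' := by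
      rw [← hgf s' (by rw [him]; linarith only [hq, le_max_right y2 (y0 + 1)]), hs', hper.sub_int_mul_eq]
    have h2 := hy2 s' (by rw [him]; exact (le_max_left _ _).trans hq)
      (by rw [hre]; exact Int.fract_nonneg _) (by rw [hre]; exact (Int.fract_lt_one _).le)
    rw [h1, sub_zero, norm_inv, ← hqs, norm_qParam, ← Real.exp_neg]
    rw [him] at h2
    convert h2 using 3
    ring
  have ho2 : (fun _ : ℂ => F 0) =o[𝓝[≠] 0] fun z : ℂ => (z - 0)⁻¹ := by
    rw [Asymptotics.isLittleO_const_left]
    right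
    simp only [sub_zero]
    exact (tendsto_norm_cobounded_atTop (E := ℂ)).comp (tendsto_inv₀_nhdsNE_zero (α := ℂ))
  refine ⟨_, Complex.differentiableOn_update_limUnder_of_isLittleO
    (Metric.ball_mem_nhds _ (Real.exp_pos _)) hd (ho1.sub ho2), fun s hs => ?_⟩
  rw [Function.update_of_ne (qParam_ne_zero s), hFq, hgf s hs]

open Function.Periodic in
/-- Periodic holomorphic maps that are `o(exp (2 π Im s))` are bounded by their values on a horizontal line. -/
theorem periodic_bound {Y : Type*} [NormedAddCommGroup Y] [NormedSpace ℂ Y] [CompleteSpace Y]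
    {f : ℂ → Y} {y0 y1 B : ℝ} (hy : y0 < y1) (hf : DifferentiableOn ℂ f {s | y0 < s.im})
    (hp : ∀ s : ℂ, y0 < s.im → f (s + 1) = f s)
    (ho : ∀ ε : ℝ, 0 < ε → ∃ y2 : ℝ, ∀ s : ℂ, y2 ≤ s.im → 0 ≤ s.re → s.re ≤ 1 →
      ‖f s‖ ≤ ε * Real.exp (2 * Real.pi * s.im))
    (hB : ∀ s : ℂ, s.im = y1 → ‖f s‖ ≤ B) : ∀ s : ℂ, y1 ≤ s.im → ‖f s‖ ≤ B := by
  obtain ⟨G, hG, hGf⟩ := h1_cusp hf hp ho
  intro s hs
  have hR : 0 < Real.exp (-2 * Real.pi * y1 / 1) := Real.exp_pos _
  have hlt : Real.exp (-2 * Real.pi * y1 / 1) < Real.exp (-2 * Real.pi * y0 / 1) := by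
    rw [Real.exp_lt_exp]
    linarith only [hy, Real.pi_pos, mul_pos_of_neg_of_neg (Mathlib.Tactic.Linarith.sub_neg_of_lt hy) (Mathlib.Tactic.Linarith.sub_neg_of_lt Real.pi_pos)]
  rw [← hGf s (hy.trans_le hs)]
  refine Complex.norm_le_of_forall_mem_frontier_norm_le (U := Metric.ball 0 _) Metric.isBounded_ball
    (hG.diffContOnCl_ball (Metric.closedBall_subset_ball hlt)) (fun q hq => ?_) ?_
  · have hq1 : ‖q‖ = Real.exp (-2 * Real.pi * y1 / 1) := by
      simpa using Metric.frontier_ball_subset_sphere hq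
    have hq0 : q ≠ 0 := by
      rw [← norm_pos_iff, hq1]
      exact hR
    have him : (invQParam 1 q).im = y1 := by
      rw [im_invQParam, hq1, Real.log_exp]
      field_simp
    rw [← qParam_right_inv (h := 1) one_ne_zero hq0, hGf _ (by rw [him]; exact hy)]
    exact hB _ him
  · rw [closure_ball _ hR.ne', mem_closedBall_zero_iff, norm_qParam, Real.exp_le_exp]
    linarith only [hs, Real.pi_pos, mul_nonneg_of_nonpos_of_nonpos (Mathlib.Tactic.Linarith.sub_nonpos_of_le hs) (le_of_lt (Mathlib.Tactic.Linarith.sub_neg_of_lt Real.pi_pos))]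

open Function.Periodic in
/-- The derivative of a bounded periodic holomorphic map decays exponentially. -/
theorem periodic_deriv_bound {Y : Type*} [NormedAddCommGroup Y] [NormedSpace ℂ Y]
    [CompleteSpace Y] {f : ℂ → Y} {y0 B : ℝ} (hf : DifferentiableOn ℂ f {s | y0 < s.im})
    (hp : ∀ s : ℂ, y0 < s.im → f (s + 1) = f s) (hB : ∀ s : ℂ, y0 < s.im → ‖f s‖ ≤ B) :
    ∃ C : ℝ, ∀ s : ℂ, y0 + 1 ≤ s.im → ‖deriv f s‖ ≤ C * Real.exp (-(2 * Real.pi * s.im)) := by
  have hopen : IsOpen {s : ℂ | y0 < s.im} := isOpen_lt continuous_const Complex.continuous_im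
  obtain ⟨G, hG, hGf⟩ := h1_cusp hf hp (by
    intro ε hε
    refine ⟨max (y0 + 1) (|B| / ε), fun s hs _ _ => ?_⟩
    have h1 : y0 < s.im := by linarith only [hs, le_max_left (y0 + 1) (|B| / ε)]
    have h2 : |B| / ε ≤ s.im := (le_max_right _ _).trans hs
    have h3 : 0 ≤ s.im := le_trans (by positivity) h2
    rw [div_le_iff₀ hε] at h2
    have h4 : s.im ≤ Real.exp (2 * Real.pi * s.im) := by
      have := Real.add_one_le_exp (2 * Real.pi * s.im)
      linarith only [h3, this, Real.pi_gt_three, mul_nonneg_of_nonpos_of_nonpos (Mathlib.Tactic.Linarith.sub_nonpos_of_le h3) (le_of_lt (Mathlib.Tactic.Linarith.sub_neg_of_lt Real.pi_gt_three))]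
    calc ‖f s‖ ≤ |B| := (hB s h1).trans (le_abs_self B)
      _ ≤ s.im * ε := h2
      _ ≤ Real.exp (2 * Real.pi * s.im) * ε := by gcongr
      _ = _ := mul_comm _ _)
  have hlt : Real.exp (-2 * Real.pi * (y0 + 1) / 1) < Real.exp (-2 * Real.pi * y0 / 1) := by
    rw [Real.exp_lt_exp]
    linarith only [Real.pi_pos]
  obtain ⟨C, hC⟩ := (isCompact_closedBall (0 : ℂ) _).exists_bound_of_continuousOn
    ((hG.deriv Metric.isOpen_ball).continuousOn.mono (Metric.closedBall_subset_ball hlt))
  refine ⟨2 * Real.pi * C, fun s hs => ?_⟩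
  have hs0 : y0 < s.im := by linarith only [hs]
  have hq : qParam 1 s ∈ Metric.closedBall (0 : ℂ) (Real.exp (-2 * Real.pi * (y0 + 1) / 1)) := by
    rw [mem_closedBall_zero_iff, norm_qParam, Real.exp_le_exp]
    linarith only [hs, Real.pi_pos, mul_nonneg_of_nonpos_of_nonpos (Mathlib.Tactic.Linarith.sub_nonpos_of_le hs) (le_of_lt (Mathlib.Tactic.Linarith.sub_neg_of_lt Real.pi_pos))]
  have qdiff : HasDerivAt (qParam 1)
      (qParam 1 s * (2 * Real.pi * Complex.I / ((1 : ℝ) : ℂ))) s := by
    simpa only [id_eq, mul_one] using! (((hasDerivAt_id s).const_mul _).div_const _).cexp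
  have hGd : HasDerivAt G (deriv G (qParam 1 s)) (qParam 1 s) :=
    (hG.differentiableAt (Metric.isOpen_ball.mem_nhds
      (Metric.closedBall_subset_ball hlt hq))).hasDerivAt
  have h1 : HasDerivAt f ((qParam 1 s * (2 * Real.pi * Complex.I / ((1 : ℝ) : ℂ))) •
      deriv G (qParam 1 s)) s := by
    refine (hGd.scomp s qdiff).congr_of_eventuallyEq ?_
    filter_upwards [hopen.mem_nhds hs0] with z hz using (hGf z hz).symm
  have h2 : ‖(2 * Real.pi * Complex.I / ((1 : ℝ) : ℂ) : ℂ)‖ = 2 * Real.pi := by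
    simp [abs_of_pos Real.pi_pos]
  rw [h1.deriv, norm_smul, norm_mul, h2, norm_qParam,
    show -2 * Real.pi * s.im / 1 = -(2 * Real.pi * s.im) by ring]
  calc _ ≤ Real.exp (-(2 * Real.pi * s.im)) * (2 * Real.pi) * C := by
        gcongr
        exact hC _ hq
    _ = _ := by ring

/-- Growth of a function with positive real part on a half plane (Borel-Caratheodory after a Cayley transform). -/
theorem herglotz_growth {f : ℂ → ℂ} {y0 : ℝ} (hf : DifferentiableOn ℂ f {s | y0 < s.im})
    (hre : ∀ s : ℂ, y0 < s.im → 0 < (f s).re) :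
    ∃ C : ℝ, ∀ s : ℂ, y0 + 1 ≤ s.im → 0 ≤ s.re → s.re ≤ 1 → ‖f s‖ ≤ C * (s.im - y0) := by
  set φ : ℂ → ℂ := fun w => Complex.I * y0 + Complex.I * ((1 + w) / (1 - w)) with hφ
  have hne : ∀ w ∈ Metric.ball (0 : ℂ) 1, 1 - w ≠ 0 := by
    intro w hw h
    rw [sub_eq_zero] at h
    rw [← h] at hw
    simp at hw
  have hmap : ∀ w ∈ Metric.ball (0 : ℂ) 1, y0 < (φ w).im := by
    intro w hw
    have h1 : 0 < Complex.normSq (1 - w) := Complex.normSq_pos.mpr (hne w hw)
    have h2 : w.re * w.re + w.im * w.im < 1 := by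
      rw [← Complex.normSq_apply, Complex.normSq_eq_norm_sq,
        sq_lt_one_iff₀ (norm_nonneg _), ← mem_ball_zero_iff]
      exact hw
    have h3 : (φ w).im = y0 + (1 - (w.re * w.re + w.im * w.im)) / Complex.normSq (1 - w) := by
      simp only [hφ, Complex.add_im, Complex.I_mul_im, Complex.ofReal_re, Complex.div_re,
        Complex.add_re, Complex.one_re, Complex.sub_re, Complex.one_im, Complex.sub_im]
      ring
    rw [h3]
    have : 0 < (1 - (w.re * w.re + w.im * w.im)) / Complex.normSq (1 - w) :=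
      div_pos (by linarith only [h2]) h1
    linarith only [this]
  have hφd : DifferentiableOn ℂ φ (Metric.ball 0 1) := by
    refine (DifferentiableOn.const_mul (DifferentiableOn.div ?_ ?_ hne) _).const_add _ <;> fun_prop
  have hgd : DifferentiableOn ℂ (fun w => -f (φ w)) (Metric.ball 0 1) := (hf.comp hφd hmap).neg
  refine ⟨(2 + 2 * ‖f (φ 0)‖) * (5 / 2), fun s hs h0 h1 => ?_⟩
  set y := s.im - y0 with hy
  have hy1 : 1 ≤ y := by linarith only [hs]
  set t : ℂ := s - Complex.I * y0 with ht
  have htre : t.re = s.re := by simp [ht]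
  have htim : t.im = y := by simp [ht, hy]
  have hD : Complex.normSq (t + Complex.I) = s.re * s.re + (y + 1) * (y + 1) := by
    simp [Complex.normSq_apply, htre, htim]
  have hN : Complex.normSq (t - Complex.I) = s.re * s.re + (y - 1) * (y - 1) := by
    simp [Complex.normSq_apply, htre, htim]
  have hDpos : 0 < Complex.normSq (t + Complex.I) := by
    rw [hD]
    linarith only [hs, mul_self_nonneg s.re, mul_self_nonneg (y - (1 : ℝ))]
  have hD0 : t + Complex.I ≠ 0 := Complex.normSq_pos.mp hDpos
  set w : ℂ := (t - Complex.I) / (t + Complex.I) with hw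
  have hw2 : 1 - ‖w‖ ^ 2 = 4 * y / Complex.normSq (t + Complex.I) := by
    rw [← Complex.normSq_eq_norm_sq, hw, Complex.normSq_div, hN, eq_div_iff hDpos.ne', sub_mul,
      div_mul_cancel₀ _ hDpos.ne', hD]
    ring
  have hw3 : 4 / (5 * y) ≤ 1 - ‖w‖ ^ 2 := by
    rw [hw2, div_le_div_iff₀ (by positivity) hDpos, hD]
    linarith only [hs, h1, h0, mul_self_nonneg (y - (1 : ℝ)), mul_nonneg_of_nonpos_of_nonpos (Mathlib.Tactic.Linarith.sub_nonpos_of_le h0) (Mathlib.Tactic.Linarith.sub_nonpos_of_le h1)]
  have hpos : 0 < 4 / (5 * y) := by positivity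
  have hw1 : ‖w‖ < 1 := by
    rw [← sq_lt_one_iff₀ (norm_nonneg _)]
    linarith only [hw3, hpos]
  have hw4 : 2 / (5 * y) ≤ 1 - ‖w‖ := by
    have e1 : 4 / (5 * y) = 2 * (2 / (5 * y)) := by ring
    linarith only [hw3, e1, hw1, norm_nonneg w, mul_pos_of_neg_of_neg (Mathlib.Tactic.Linarith.sub_neg_of_lt hw1) (Mathlib.Tactic.Linarith.sub_neg_of_lt hw1)]
  have hφw : φ w = s := by
    have e1 : 1 + w = 2 * t / (t + Complex.I) := by
      rw [hw]
      field_simp
      ring
    have e2 : 1 - w = 2 * Complex.I / (t + Complex.I) := by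
      rw [hw]
      field_simp
      ring
    simp only [hφ, e1, e2]
    have hI := Complex.I_ne_zero
    field_simp
    rw [ht]
    ring
  have hb := Complex.borelCaratheodory (M := 1) one_pos hgd
    (fun z hz => by
      have := hre _ (hmap z hz)
      simp only [Set.mem_ofPred_eq, Complex.neg_re]
      linarith only [this]) one_pos (mem_ball_zero_iff.mpr hw1)
  simp only [norm_neg, hφw] at hb
  have h1w : 0 < 1 - ‖w‖ := by linarith only [hw1]
  have hinv : (1 - ‖w‖)⁻¹ ≤ 5 / 2 * y := by
    rw [inv_le_comm₀ h1w (by positivity)]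
    refine le_trans (le_of_eq ?_) hw4
    field_simp
  calc ‖f s‖ ≤ (2 * 1 * ‖w‖ + ‖f (φ 0)‖ * (1 + ‖w‖)) * (1 - ‖w‖)⁻¹ := by
        rw [add_mul]
        simpa only [div_eq_mul_inv] using hb
    _ ≤ (2 + 2 * ‖f (φ 0)‖) * (5 / 2 * y) := by
        refine mul_le_mul ?_ hinv (inv_nonneg.mpr h1w.le) (by positivity)
        linarith only [hw1, norm_nonneg (f (φ 0)), norm_nonneg w, mul_nonneg_of_nonpos_of_nonpos (le_of_lt (Mathlib.Tactic.Linarith.sub_neg_of_lt hw1)) (Mathlib.Tactic.Linarith.sub_nonpos_of_le (norm_nonneg (f (φ (0 : ℂ)))))]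
    _ = _ := by ring

end BallQ
end
end

-- merged part: Pool.Agent.Work.MP_72250f_ag.E1a
section
/-!
One variable lemmas on roots. root_count: induction on the finite set S for all f and B; f t = (t - t1) g t with g = dslope f t1
(Complex.differentiableOn_dslope), g vanishes on S minus t1 and is bounded by B / (4 R) on the disc of radius 5 R
(maximum principle Complex.norm_le_of_forall_mem_frontier_norm_le on circles of radius rho < 5 R, rho tending to 5 R).
root_persist: otherwise 1 / f is holomorphic on the disc and the maximum principle gives |1 / f c| <= 1 / m.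
root_formula: f is not zero near a (identity theorem, f is nonzero on the circle); f t = (t - a)^m g t with m >= 1 and g holomorphic on U,
g a nonzero (HasFPowerSeriesAt.eq_pow_order_mul_iterate_dslope, or induction on the analytic order with dslope), so g has no zero
in the closed disc and f'/f = m / (t - a) + g'/g on the circle; Complex.circleIntegral_eq_zero_of_differentiable_on_off_countable (or
DiffContOnCl.circleIntegral_eq_zero), circleIntegral.integral_sub_inv_of_mem_ball.
removable_cauchy: replace f by its update at the finitely many points (limUnder), which is holomorphic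
(Complex.differentiableOn_update_limUnder_of_bddAbove, or continuity at these points and
Complex.circleIntegral_sub_inv_smul_of_differentiable_on_off_countable).
-/

open scoped ComplexConjugate ENNReal Topology
open MeasureTheory Filter

noncomputable section

namespace BallQ

variable {n : ℕ}

theorem e1a_dslope {R : ℝ} (hR : 0 < R) {f : ℂ → ℂ} {B : ℝ}
    (hf : DifferentiableOn ℂ f (Metric.ball 0 (5 * R)))
    (hB : ∀ t ∈ Metric.ball (0 : ℂ) (5 * R), ‖f t‖ ≤ B) {a : ℂ} (ha : ‖a‖ ≤ R) (h0 : f a = 0) :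
    ∀ z ∈ Metric.ball (0 : ℂ) (5 * R), ‖dslope f a z‖ ≤ B / (4 * R) := by
  intro z hz
  have hB0 : 0 ≤ B := (norm_nonneg _).trans (hB z hz)
  rw [mem_ball_zero_iff] at hz
  have hg : DifferentiableOn ℂ (dslope f a) (Metric.ball 0 (5 * R)) :=
    (Complex.differentiableOn_dslope (Metric.isOpen_ball.mem_nhds
      (mem_ball_zero_iff.mpr (by linarith only [hR, ha])))).mpr hf
  have key : ∀ ρ : ℝ, ‖z‖ < ρ → R < ρ → ρ < 5 * R → ‖dslope f a z‖ ≤ B / (ρ - R) := by
    intro ρ h1 h2 h3
    have hρ : ρ ≠ 0 := by linarith only [hR, h2]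
    refine Complex.norm_le_of_forall_mem_frontier_norm_le (U := Metric.ball 0 ρ)
      Metric.isBounded_ball ?_ ?_ (subset_closure (mem_ball_zero_iff.mpr h1))
    · exact (hg.mono (Metric.closure_ball_subset_closedBall.trans
        (Metric.closedBall_subset_ball h3))).diffContOnCl
    · intro w hw
      rw [frontier_ball _ hρ, mem_sphere_zero_iff_norm] at hw
      have h4 : ρ - R ≤ ‖w - a‖ := by linarith only [ha, hw, norm_sub_norm_le w a]
      have h5 : w ≠ a := by
        rintro rfl
        linarith only [h2, hw, ha]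
      rw [dslope_of_ne _ h5, slope_def_field, h0, sub_zero, norm_div]
      have h6 := hB w (mem_ball_zero_iff.mpr (by linarith only [h3, hw]))
      have h7 : 0 < ρ - R := by linarith only [h2]
      gcongr
  have hlim : Tendsto (fun ρ : ℝ => B / (ρ - R)) (𝓝[<] (5 * R)) (𝓝 (B / (5 * R - R))) := by
    refine tendsto_nhdsWithin_of_tendsto_nhds ?_
    exact tendsto_const_nhds.div (tendsto_id.sub tendsto_const_nhds) (by linarith only [hR])
  rw [show 5 * R - R = 4 * R by ring] at hlim
  refine ge_of_tendsto hlim ?_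
  have e1 : ∀ᶠ ρ in 𝓝[<] (5 * R), ‖z‖ < ρ := nhdsWithin_le_nhds (lt_mem_nhds hz)
  have e2 : ∀ᶠ ρ in 𝓝[<] (5 * R), R < ρ := nhdsWithin_le_nhds (lt_mem_nhds (by linarith only [hR]))
  filter_upwards [e1, e2, self_mem_nhdsWithin] with ρ h1 h2 h3 using key ρ h1 h2 h3

theorem root_count {R : ℝ} (hR : 0 < R) (S : Finset ℂ) (hS : ∀ t ∈ S, ‖t‖ ≤ R) {f : ℂ → ℂ} {B : ℝ}
    (hf : DifferentiableOn ℂ f (Metric.ball 0 (5 * R)))
    (hB : ∀ t ∈ Metric.ball (0 : ℂ) (5 * R), ‖f t‖ ≤ B) (h0 : ∀ t ∈ S, f t = 0) {t : ℂ}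
    (ht : ‖t‖ ≤ R) : ‖f t‖ ≤ B / 2 ^ S.card := by
  classical
  induction S using Finset.induction_on generalizing f B with
  | empty => simpa using hB t (mem_ball_zero_iff.mpr (by linarith only [hR, ht]))
  | insert a S haS ih =>
    have ha : ‖a‖ ≤ R := hS a (Finset.mem_insert_self _ _)
    have hfa : f a = 0 := h0 a (Finset.mem_insert_self _ _)
    have hg : DifferentiableOn ℂ (dslope f a) (Metric.ball 0 (5 * R)) :=
      (Complex.differentiableOn_dslope (Metric.isOpen_ball.mem_nhds
        (mem_ball_zero_iff.mpr (by linarith only [hR, ha])))).mpr hf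
    have h1 := ih (fun s hs => hS s (Finset.mem_insert_of_mem hs)) hg
      (e1a_dslope hR hf hB ha hfa) (fun s hs => by
        have h5 : s ≠ a := by
          rintro rfl
          exact haS hs
        rw [dslope_of_ne _ h5, slope_def_field, hfa, h0 s (Finset.mem_insert_of_mem hs)]
        simp)
    have h2 : f t = (t - a) * dslope f a t := by
      have := sub_smul_dslope f a t
      rw [hfa, sub_zero, smul_eq_mul] at this
      exact this.symm
    have h3 : ‖t - a‖ ≤ 2 * R := by linarith only [ht, ha, norm_sub_le t a]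
    rw [h2, norm_mul, Finset.card_insert_of_notMem haS]
    calc ‖t - a‖ * ‖dslope f a t‖ ≤ 2 * R * (B / (4 * R) / 2 ^ S.card) := by gcongr
      _ = B / 2 ^ (S.card + 1) := by
        field_simp
        ring

theorem root_persist {f : ℂ → ℂ} {c : ℂ} {ε m : ℝ} (hε : 0 < ε) {U : Set ℂ} (hU : IsOpen U)
    (hsub : Metric.closedBall c ε ⊆ U) (hf : DifferentiableOn ℂ f U)
    (hm : ∀ t ∈ Metric.sphere c ε, m ≤ ‖f t‖) (hc : ‖f c‖ < m) :
    ∃ a ∈ Metric.ball c ε, f a = 0 := by
  by_contra hcon
  push Not at hcon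
  have hm0 : 0 < m := (norm_nonneg _).trans_lt hc
  have hne : ∀ t ∈ Metric.closedBall c ε, f t ≠ 0 := by
    intro t ht
    rcases (Metric.mem_closedBall.mp ht).eq_or_lt with h | h
    · intro h0
      have := hm t h
      rw [h0, norm_zero] at this
      linarith only [hm0, this]
    · exact hcon t h
  have hd : DiffContOnCl ℂ (fun t => (f t)⁻¹) (Metric.ball c ε) :=
    (((hf.mono hsub).inv hne).mono Metric.closure_ball_subset_closedBall).diffContOnCl
  have h1 := Complex.norm_le_of_forall_mem_frontier_norm_le Metric.isBounded_ball hd (C := m⁻¹)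
    (fun t ht => by
      rw [frontier_ball _ hε.ne'] at ht
      rw [norm_inv]
      exact inv_anti₀ hm0 (hm t ht)) (subset_closure (Metric.mem_ball_self hε))
  rw [norm_inv, inv_le_inv₀ (norm_pos_iff.mpr (hcon c (Metric.mem_ball_self hε))) hm0] at h1
  linarith

theorem e1a_factor {f : ℂ → ℂ} {a : ℂ} {U : Set ℂ} (hU : IsOpen U) (hf : DifferentiableOn ℂ f U)
    (ha : a ∈ U) (h0 : f a = 0) (h1 : ¬ ∀ᶠ z in 𝓝 a, f z = 0) :
    ∃ (m : ℕ) (G : ℂ → ℂ), m ≠ 0 ∧ DifferentiableOn ℂ G U ∧ G a ≠ 0 ∧
      f = fun z => (z - a) ^ m * G z := by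
  classical
  obtain ⟨m, g, hg, hga, hfg⟩ :=
    (hf.analyticAt (hU.mem_nhds ha)).exists_eventuallyEq_pow_smul_nonzero_iff.mpr h1
  have hm : m ≠ 0 := by
    rintro rfl
    have := hfg.self_of_nhds
    rw [h0] at this
    exact hga (by simpa using this.symm)
  refine ⟨m, fun z => if z = a then g a else f z / (z - a) ^ m, hm, fun z hz => ?_,
    by simpa using hga, ?_⟩
  · refine DifferentiableAt.differentiableWithinAt ?_
    by_cases hza : z = a
    · subst hza
      refine hg.differentiableAt.congr_of_eventuallyEq ?_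
      filter_upwards [hfg] with w hw
      split_ifs with h
      · rw [h]
      · rw [hw, smul_eq_mul, mul_div_cancel_left₀ _ (pow_ne_zero _ (sub_ne_zero.mpr h))]
    · have h2 : DifferentiableAt ℂ (fun w => f w / (w - a) ^ m) z :=
        (hf.differentiableAt (hU.mem_nhds hz)).div (by fun_prop)
          (pow_ne_zero _ (sub_ne_zero.mpr hza))
      refine h2.congr_of_eventuallyEq ?_
      filter_upwards [isOpen_ne.mem_nhds hza] with w hw
      rw [if_neg hw]
  · funext z
    beta_reduce
    split_ifs with h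
    · rw [h, h0, sub_self, zero_pow hm, zero_mul]
    · rw [mul_div_cancel₀ _ (pow_ne_zero _ (sub_ne_zero.mpr h))]

theorem root_formula {f : ℂ → ℂ} {c a : ℂ} {ε : ℝ} {U : Set ℂ} (hU : IsOpen U)
    (hsub : Metric.closedBall c ε ⊆ U) (hf : DifferentiableOn ℂ f U) (ha : a ∈ Metric.ball c ε)
    (h0 : f a = 0) (h1 : ∀ t ∈ Metric.closedBall c ε, f t = 0 → t = a) :
    (∮ t in C(c, ε), deriv f t / f t) ≠ 0 ∧
      (∮ t in C(c, ε), t * (deriv f t / f t)) = a * ∮ t in C(c, ε), deriv f t / f t := by
  have hε : 0 < ε := Metric.pos_of_mem_ball ha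
  have haU : a ∈ U := hsub (Metric.ball_subset_closedBall ha)
  obtain ⟨m, G, hm, hG, hGa, hfG⟩ := e1a_factor hU hf haU h0 (by
    intro h
    have h2 : ∀ᶠ z in 𝓝[≠] a, f z = 0 ∧ z ∈ Metric.ball c ε :=
      nhdsWithin_le_nhds (h.and (Metric.isOpen_ball.mem_nhds ha))
    obtain ⟨z, hz, hza⟩ := (h2.and self_mem_nhdsWithin).exists
    exact hza (h1 z (Metric.ball_subset_closedBall hz.2) hz.1))
  have hG0 : ∀ t ∈ Metric.closedBall c ε, G t ≠ 0 := by
    intro t ht h
    have h2 : t = a := h1 t ht (by rw [hfG]; simp [h])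
    exact hGa (h2 ▸ h)
  have hK : DifferentiableOn ℂ (fun t => (m : ℂ) + (t - a) * (deriv G t / G t))
      (Metric.closedBall c ε) := by
    have h2 : DifferentiableOn ℂ (fun t => deriv G t / G t) (Metric.closedBall c ε) :=
      ((hG.deriv hU).mono hsub).div (hG.mono hsub) hG0
    fun_prop
  have hlog : ∀ t ∈ Metric.sphere c ε,
      deriv f t / f t = (t - a)⁻¹ * ((m : ℂ) + (t - a) * (deriv G t / G t)) := by
    intro t ht
    have hta : t - a ≠ 0 := by
      rw [sub_ne_zero]
      rintro rfl
      exact absurd (Metric.mem_ball.mp ha) (not_lt.mpr (Metric.mem_sphere.mp ht).ge)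
    have ht' := Metric.sphere_subset_closedBall ht
    have hGt := hG0 t ht'
    have h2 : HasDerivAt f (((m : ℂ) * (t - a) ^ (m - 1) * 1) * G t + (t - a) ^ m * deriv G t) t := by
      rw [hfG]
      exact (((hasDerivAt_id t).sub_const a).pow m).mul
        (hG.differentiableAt (hU.mem_nhds (hsub ht'))).hasDerivAt
    rw [h2.deriv, hfG]
    obtain ⟨k, rfl⟩ := Nat.exists_eq_succ_of_ne_zero hm
    simp only [Nat.succ_eq_add_one, Nat.add_sub_cancel]
    field_simp
    ring
  have e1 : (∮ t in C(c, ε), deriv f t / f t) = 2 * Real.pi * Complex.I * m := by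
    rw [circleIntegral.integral_congr hε.le hlog]
    have := hK.circleIntegral_sub_inv_smul ha
    simpa using this
  have e2 : (∮ t in C(c, ε), t * (deriv f t / f t)) = 2 * Real.pi * Complex.I * (a * m) := by
    rw [circleIntegral.integral_congr hε.le
      (g := fun t => (t - a)⁻¹ • (t * ((m : ℂ) + (t - a) * (deriv G t / G t))))
      (fun t ht => by simp only [hlog t ht, smul_eq_mul]; ring)]
    have := (differentiableOn_id.mul hK).circleIntegral_sub_inv_smul ha
    simpa using this
  rw [e1, e2]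
  refine ⟨?_, by ring⟩
  simp [Real.pi_ne_zero, hm]

theorem removable_cauchy {f : ℂ → ℂ} {R : ℝ} (S : Finset ℂ) (hS : ∀ t ∈ S, ‖t‖ < R) {U : Set ℂ}
    (hU : IsOpen U) (hsub : Metric.closedBall 0 R ⊆ U) (hf : DifferentiableOn ℂ f (U \ S))
    (hb : ∀ a ∈ S, ∃ B ρ : ℝ, 0 < ρ ∧ ∀ t : ℂ, t ≠ 0 → ‖t‖ < ρ → ‖f (a + t)‖ ≤ B) {t : ℂ}
    (ht : ‖t‖ < R) (htS : t ∉ S) :
    (∮ ζ in C(0, R), (ζ - t)⁻¹ * f ζ) = 2 * Real.pi * Complex.I * f t := by
  classical
  have hR : 0 < R := (norm_nonneg _).trans_lt ht
  let F : ℂ → ℂ := fun z => if z ∈ S then limUnder (𝓝[≠] z) f else f z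
  have hF : DifferentiableOn ℂ F U := by
    intro z hz
    refine DifferentiableAt.differentiableWithinAt ?_
    by_cases hzS : z ∈ S
    · obtain ⟨B, ρ, hρ, hB⟩ := hb z hzS
      have h1 : U ∩ Metric.ball z ρ ∩ ((S.erase z : Finset ℂ) : Set ℂ)ᶜ ∈ 𝓝 z :=
        inter_mem (inter_mem (hU.mem_nhds hz) (Metric.ball_mem_nhds z hρ))
          ((S.erase z).finite_toSet.isClosed.isOpen_compl.mem_nhds (by simp))
      have h2 := Complex.differentiableOn_update_limUnder_of_bddAbove (f := f) h1
        (hf.mono (by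
          rintro w ⟨⟨⟨h3, -⟩, h4⟩, h5⟩
          refine ⟨h3, fun h6 => h4 ?_⟩
          exact Finset.mem_coe.mpr (Finset.mem_erase.mpr ⟨h5, h6⟩)))
        ⟨B, by
          rintro _ ⟨w, ⟨⟨⟨-, h3⟩, -⟩, h5⟩, rfl⟩
          have := hB (w - z) (sub_ne_zero.mpr h5) (mem_ball_iff_norm.mp h3)
          simpa using this⟩
      refine (h2.differentiableAt h1).congr_of_eventuallyEq ?_
      filter_upwards [h1] with w hw
      by_cases hwz : w = z
      · subst hwz
        simp [F, hzS]
      · have : w ∉ S := fun h6 => hw.2 (Finset.mem_coe.mpr (Finset.mem_erase.mpr ⟨hwz, h6⟩))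
        simp [F, this, Function.update_of_ne hwz]
    · have h1 : U \ S ∈ 𝓝 z := (hU.sdiff S.finite_toSet.isClosed).mem_nhds ⟨hz, hzS⟩
      refine (hf.differentiableAt h1).congr_of_eventuallyEq ?_
      filter_upwards [h1] with w hw
      exact if_neg hw.2
  have h1 := (hF.mono hsub).circleIntegral_sub_inv_smul (mem_ball_zero_iff.mpr ht)
  rw [circleIntegral.integral_congr hR.le (g := fun ζ => (ζ - t)⁻¹ • F ζ) (fun ζ hζ => by
    have : ζ ∉ S := fun h => absurd (hS ζ h) (not_lt.mpr (mem_sphere_zero_iff_norm.mp hζ).ge)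
    simp [F, this]), h1]
  simp [F, htS]

end BallQ
end
end
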