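import Pool.Agent.Work.MP_72250f_ag.S1a
import Pool.Agent.Work.MP_72250f_ag.E1a
import Pool.Agent.Work.MP_72250f_ag.B2a

-- merged part: Pool.Agent.Work.MP_72250f_ag.B5a
section
/-!
Packing. card_le_of_sep: volume argument as in Besicovitch.card_le_of_separated (balls of radius e/2 are disjoint
inside the ball of radius R + e/2). pack_dim: conjugate to oo; the operators g i have norm at most 2 sqrt R in the
finite dimensional real normed space Op n, two of them are close, and hs T <= (n+1) |T|^2, uu_le_hs, hs_mul_left.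
pack_rank: T = sum over i < r of a_i (x) b_i (innerSL), b_i orthonormal basis of (ker T)-orthogonal (inside U) padded
by zeros, a_i = T b_i in U with |a_i|^2 <= R; the map (a,b) in (U x U)^r -> T is Lipschitz for sqrt hs on bounded
sets; apply card_le_of_sep in the real space Fin r -> U x U of dimension 4 r finrank U.
-/

open scoped ComplexConjugate ENNReal Topology
open MeasureTheory Filter

noncomputable section

namespace BallQ

variable {n : ℕ}

theorem card_le_of_sep {X : Type*} [NormedAddCommGroup X] [NormedSpace ℝ X]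
    [FiniteDimensional ℝ X] {R e : ℝ} (hR : 0 ≤ R) (he : 0 < e) (S : Finset X)
    (h1 : ∀ x ∈ S, ‖x‖ ≤ R) (h2 : ∀ x ∈ S, ∀ y ∈ S, x ≠ y → e ≤ ‖x - y‖) :
    (S.card : ℝ) ≤ (2 * R / e + 1) ^ Module.finrank ℝ X := by
  borelize X
  let μ : Measure X := Measure.addHaar
  have hδ : 0 < e / 2 := half_pos he
  have hρ : 0 < R + e / 2 := by linarith
  have D : Set.Pairwise (S : Set X)
      (Function.onFun Disjoint fun c => Metric.ball (c : X) (e / 2)) := by
    rintro c hc d hd hcd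
    apply Metric.ball_disjoint_ball
    rw [dist_eq_norm, add_halves]
    exact h2 c hc d hd hcd
  have hA : (⋃ c ∈ S, Metric.ball (c : X) (e / 2)) ⊆ Metric.ball (0 : X) (R + e / 2) := by
    refine Set.iUnion₂_subset fun x hx => ?_
    apply Metric.ball_subset_ball'
    rw [dist_zero_right]
    linarith [h1 x hx]
  have I : (S.card : ℝ≥0∞) * ENNReal.ofReal ((e / 2) ^ Module.finrank ℝ X) * μ (Metric.ball 0 1) ≤
      ENNReal.ofReal ((R + e / 2) ^ Module.finrank ℝ X) * μ (Metric.ball 0 1) := by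
    have h3 := measure_mono (μ := μ) hA
    rw [measure_biUnion_finset D fun c _ => measurableSet_ball] at h3
    simp only [μ.addHaar_ball_of_pos _ hδ, μ.addHaar_ball_of_pos _ hρ, Finset.sum_const,
      nsmul_eq_mul] at h3
    rwa [mul_assoc]
  have J := (ENNReal.mul_le_mul_iff_left (Metric.measure_ball_pos μ _ zero_lt_one).ne'
    measure_ball_lt_top.ne).1 I
  have K := ENNReal.toReal_le_of_le_ofReal (pow_nonneg hρ.le _) J
  rw [ENNReal.toReal_mul, ENNReal.toReal_natCast, ENNReal.toReal_ofReal (pow_nonneg hδ.le _),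
    ← le_div_iff₀ (pow_pos hδ _), ← div_pow] at K
  have h4 : (R + e / 2) / (e / 2) = 2 * R / e + 1 := by field_simp
  rwa [h4] at K

theorem b5a_card {ι X : Type*} [NormedAddCommGroup X] [NormedSpace ℝ X]
    [FiniteDimensional ℝ X] {R e : ℝ} (hR : 0 ≤ R) (he : 0 < e) (S : Finset ι) (f : ι → X)
    (h1 : ∀ x ∈ S, ‖f x‖ ≤ R) (h2 : ∀ x ∈ S, ∀ y ∈ S, x ≠ y → e ≤ ‖f x - f y‖) :
    (S.card : ℝ) ≤ (2 * R / e + 1) ^ Module.finrank ℝ X := by
  classical
  have hi : Set.InjOn f S := fun x hx y hy h => by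
    by_contra hne
    have h3 := h2 x hx y hy hne
    rw [h, sub_self, norm_zero] at h3
    linarith
  rw [← Finset.card_image_of_injOn hi]
  refine card_le_of_sep hR he _ (fun x hx => ?_) fun x hx y hy hxy => ?_
  · obtain ⟨a, ha, rfl⟩ := Finset.mem_image.1 hx
    exact h1 a ha
  · obtain ⟨a, ha, rfl⟩ := Finset.mem_image.1 hx
    obtain ⟨b, hb, rfl⟩ := Finset.mem_image.1 hy
    exact h2 a ha b hb fun h => hxy (by rw [h])

theorem b5a_hs_le (T : Op n) : hs T ≤ ((n : ℝ) + 1) * ‖T‖ ^ 2 := by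
  have h : ∀ i, ‖T (bas n i)‖ ^ 2 ≤ ‖T‖ ^ 2 := fun i => by
    have h1 := T.le_opNorm (bas n i)
    rw [(bas n).orthonormal.1 i, mul_one] at h1
    exact pow_le_pow_left₀ (norm_nonneg _) h1 2
  refine (Finset.sum_le_sum fun i _ => h i).trans (le_of_eq ?_)
  simp

theorem b5a_norm {g : Op n} (hg : IsIsom g) {R : ℝ} (h : CC (oo n) (g (oo n)) ≤ R) :
    ‖g‖ ≤ 2 * √R := by
  have h1 := Real.sqrt_le_sqrt h
  have h2 : √(CC (oo n) (g (oo n)) - 1) ≤ √R := Real.sqrt_le_sqrt (by linarith)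
  linarith [norm_isom_le hg]

theorem b5a_oo (n : ℕ) (R : ℝ) {ε : ℝ} (hε : 0 < ε) :
    ∃ m : ℕ, ∀ g : Fin (m + 1) → GG n, (∀ i, IsIsom (g i : Op n)) →
      (∀ i, CC (oo n) ((g i : Op n) (oo n)) ≤ R) →
      ∃ i j, i ≠ j ∧ uu (((g i)⁻¹ * g j : GG n) : Op n) (oo n) < ε := by
  obtain ⟨a, ha⟩ : ∃ a : ℝ, a = (2 * √R) ^ 2 * ((n : ℝ) + 1) := ⟨_, rfl⟩
  have ha0 : 0 ≤ a := by rw [ha]; positivity
  have he : 0 < √(ε / (a + 1)) := Real.sqrt_pos.2 (by positivity)
  refine ⟨⌊(2 * (2 * √R) / √(ε / (a + 1)) + 1) ^ Module.finrank ℝ (Op n)⌋₊, fun g hg hR => ?_⟩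
  by_contra hcon
  have h1 := b5a_card (R := 2 * √R) (by positivity) he Finset.univ (fun i => (g i : Op n))
    (fun i _ => b5a_norm (hg i) (hR i)) fun j _ i _ hji => by
      by_contra hlt
      refine hcon ⟨i, j, hji.symm, ?_⟩
      have h2 : (((g i)⁻¹ * g j : GG n) : Op n) - 1 =
          (((g i)⁻¹ : GG n) : Op n) * ((g j : Op n) - (g i : Op n)) := by
        rw [mul_sub, Units.inv_mul, Units.val_mul]
      have h3 : ‖(((g i)⁻¹ : GG n) : Op n)‖ ≤ 2 * √R := by
        refine b5a_norm (hg i).inv ?_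
        rw [← (hg i).CC_apply, apply_inv_apply, CC_comm]
        exact hR i
      have h4 : ‖(g j : Op n) - (g i : Op n)‖ ^ 2 ≤ ε / (a + 1) := by
        rw [← Real.sq_sqrt (show 0 ≤ ε / (a + 1) by positivity)]
        exact pow_le_pow_left₀ (norm_nonneg _) (not_le.1 hlt).le 2
      have h5 := uu_le_hs (g := (((g i)⁻¹ * g j : GG n) : Op n)) ((hg i).inv.mul (hg j))
      rw [h2] at h5
      have h6 : hs ((g j : Op n) - (g i : Op n)) ≤ ((n : ℝ) + 1) * (ε / (a + 1)) :=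
        (b5a_hs_le _).trans (mul_le_mul_of_nonneg_left h4 (by positivity))
      have h7 := mul_le_mul (pow_le_pow_left₀ (norm_nonneg _) h3 2) h6 (hs_nonneg _)
        (by positivity)
      rw [← mul_assoc, ← ha] at h7
      refine (h5.trans ((hs_mul_left _ _).trans h7)).trans_lt ?_
      rw [← mul_div_assoc, div_lt_iff₀ (by positivity)]
      linarith
  rw [Finset.card_univ, Fintype.card_fin, Nat.cast_add, Nat.cast_one] at h1
  exact absurd (Nat.lt_floor_add_one _) (not_lt.2 h1)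

theorem pack_dim (n : ℕ) (R : ℝ) {ε : ℝ} (hε : 0 < ε) :
    ∃ m : ℕ, ∀ x ∈ Neg n, ∀ g : Fin (m + 1) → GG n, (∀ i, IsIsom (g i : Op n)) →
      (∀ i, CC x ((g i : Op n) x) ≤ R) →
      ∃ i j, i ≠ j ∧ uu (((g i)⁻¹ * g j : GG n) : Op n) x < ε := by
  obtain ⟨m, hm⟩ := b5a_oo n R hε
  refine ⟨m, fun x hx g hg hR => ?_⟩
  obtain ⟨h, hh, c, hc, rfl⟩ := exists_isom hx
  obtain ⟨i, j, hij, h1⟩ := hm (fun i => h⁻¹ * g i * h) (fun i => (hh.inv.mul (hg i)).mul hh)
    fun i => by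
      have h2 := hR i
      rw [map_smul, CC_smul_left hc, CC_smul_right hc] at h2
      rw [← hh.CC_apply]
      change CC _ ((h : Op n) (((h⁻¹ : GG n) : Op n) ((g i : Op n) ((h : Op n) (oo n))))) ≤ R
      rwa [apply_inv_apply]
  refine ⟨i, j, hij, ?_⟩
  have h3 : cnj h (((h⁻¹ * g i * h)⁻¹ * (h⁻¹ * g j * h) : GG n) : Op n) =
      (((g i)⁻¹ * g j : GG n) : Op n) := by
    rw [cnj, ← Units.val_mul, ← Units.val_mul]
    congr 1
    group
  rwa [← uu_cnj hh, h3, ← uu_smul_right hc] at h1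

theorem b5a_hs_rk (a b : V n) : √(hs ((innerSL ℂ b).smulRight a)) = ‖b‖ * ‖a‖ := by
  have h : hs ((innerSL ℂ b).smulRight a) = (‖b‖ * ‖a‖) ^ 2 := by
    rw [mul_pow, ← (bas n).sum_sq_norm_inner_left b, Finset.sum_mul, hs]
    refine Finset.sum_congr rfl fun i _ => ?_
    rw [ContinuousLinearMap.smulRight_apply, innerSL_apply_apply, norm_smul, mul_pow]
  rw [h, Real.sqrt_sq (by positivity)]

theorem b5a_hs_sum {ι : Type*} (s : Finset ι) (T : ι → Op n) :
    √(hs (∑ i ∈ s, T i)) ≤ ∑ i ∈ s, √(hs (T i)) := by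
  classical
  induction s using Finset.induction_on with
  | empty => simp [hs]
  | insert i s hi ih =>
    rw [Finset.sum_insert hi, Finset.sum_insert hi]
    exact (sqrt_hs_add _ _).trans (add_le_add le_rfl ih)

theorem b5a_frame (W : Submodule ℂ (V n)) {r : ℕ} (hr : Module.finrank ℂ W ≤ r) :
    ∃ a : Fin r → V n, (∀ i, a i ∈ W ∧ ‖a i‖ ≤ 1) ∧
      ∀ w ∈ W, ∑ i, inner ℂ (a i) w • a i = w := by
  let b := stdOrthonormalBasis ℂ W
  refine ⟨fun i => if h : (i : ℕ) < Module.finrank ℂ W then (b ⟨i, h⟩ : V n) else 0,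
    fun i => ?_, fun w hw => ?_⟩
  · by_cases h : (i : ℕ) < Module.finrank ℂ W
    · simp only [dif_pos h]
      exact ⟨(b ⟨i, h⟩).2, (b.orthonormal.1 _).le⟩
    · simp only [dif_neg h]
      exact ⟨W.zero_mem, by simp⟩
  · have h1 := congrArg Subtype.val (b.sum_repr' ⟨w, hw⟩)
    rw [Submodule.coe_sum] at h1
    refine Eq.trans (Eq.symm ?_) h1
    refine Fintype.sum_of_injective (Fin.castLE hr) (Fin.castLE_injective hr) _ _
      (fun i hi => ?_) fun i => ?_
    · have h : ¬ (i : ℕ) < Module.finrank ℂ W := fun h => hi ⟨⟨i, h⟩, rfl⟩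
      simp only [dif_neg h, smul_zero]
    · have h : ((Fin.castLE hr i : Fin r) : ℕ) < Module.finrank ℂ W := i.2
      simp only [dif_pos h]
      rfl

theorem b5a_rep {r : ℕ} {R : ℝ} (U : Submodule ℂ (V n)) {T : Op n}
    (h1 : Module.finrank ℂ (LinearMap.range (T : V n →ₗ[ℂ] V n)) ≤ r) (h2 : hs T ≤ R)
    (h3 : ∀ v, T v ∈ U) (h4 : ∀ v ∈ Uᗮ, T v = 0) :
    ∃ p : Fin r → U × U, ‖p‖ ≤ 1 + √R ∧
      T = ∑ i, (innerSL ℂ ((p i).2 : V n)).smulRight ((p i).1 : V n) := by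
  obtain ⟨a, ha, hs⟩ := b5a_frame _ h1
  have hT : ‖T‖ ≤ √R := Real.le_sqrt_of_sq_le ((norm_sq_le_hs T).trans h2)
  have hb : ∀ i, ContinuousLinearMap.adjoint T (a i) ∈ U := fun i => by
    rw [← U.orthogonal_orthogonal, Submodule.mem_orthogonal']
    intro u hu
    rw [ContinuousLinearMap.adjoint_inner_left, h4 u hu, inner_zero_right]
  have haU : ∀ i, a i ∈ U := fun i => by
    obtain ⟨v, hv⟩ := (ha i).1
    exact hv ▸ h3 v
  have h0 := Real.sqrt_nonneg R
  refine ⟨fun i => (⟨a i, haU i⟩, ⟨_, hb i⟩), ?_, ?_⟩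
  · refine (pi_norm_le_iff_of_nonneg (by linarith)).2 fun i => ?_
    rw [Prod.norm_def]
    refine max_le ?_ ?_
    · change ‖a i‖ ≤ _
      linarith [(ha i).2]
    · change ‖ContinuousLinearMap.adjoint T (a i)‖ ≤ _
      have h5 := (ContinuousLinearMap.adjoint T).le_opNorm (a i)
      rw [LinearIsometryEquiv.norm_map] at h5
      have h6 := mul_le_mul hT (ha i).2 (norm_nonneg _) h0
      linarith
  · ext v
    rw [← hs (T v) ⟨v, rfl⟩, sum_apply]
    refine Finset.sum_congr rfl fun i _ => ?_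
    rw [ContinuousLinearMap.smulRight_apply, innerSL_apply_apply,
      ContinuousLinearMap.adjoint_inner_left]

theorem b5a_lip {r : ℕ} {ρ : ℝ} (U : Submodule ℂ (V n)) {p q : Fin r → U × U} (hp : ‖p‖ ≤ ρ)
    (hq : ‖q‖ ≤ ρ) :
    √(hs (∑ i, (innerSL ℂ ((p i).2 : V n)).smulRight ((p i).1 : V n) -
      ∑ i, (innerSL ℂ ((q i).2 : V n)).smulRight ((q i).1 : V n))) ≤ r * (2 * ρ) * ‖p - q‖ := by
  rw [← Finset.sum_sub_distrib]
  refine (b5a_hs_sum _ _).trans ((Finset.sum_le_card_nsmul _ _ (2 * ρ * ‖p - q‖)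
    fun i _ => ?_).trans (le_of_eq (by simp [mul_assoc])))
  have h1 : (innerSL ℂ ((p i).2 : V n)).smulRight ((p i).1 : V n) -
      (innerSL ℂ ((q i).2 : V n)).smulRight ((q i).1 : V n) =
      (innerSL ℂ ((p i).2 : V n)).smulRight (((p i).1 : V n) - (q i).1) +
        (innerSL ℂ (((p i).2 : V n) - (q i).2)).smulRight ((q i).1 : V n) := by
    ext v
    simp only [sub_apply, add_apply,
      ContinuousLinearMap.smulRight_apply, innerSL_apply_apply, inner_sub_left, smul_sub, sub_smul]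
    abel
  have h2 : ‖((p i).2 : V n)‖ ≤ ρ := (norm_snd_le (p i)).trans ((norm_le_pi_norm p i).trans hp)
  have h3 : ‖((q i).1 : V n)‖ ≤ ρ := (norm_fst_le (q i)).trans ((norm_le_pi_norm q i).trans hq)
  have h4 : ‖((p i).1 : V n) - (q i).1‖ ≤ ‖p - q‖ :=
    (norm_fst_le ((p - q) i)).trans (norm_le_pi_norm (p - q) i)
  have h5 : ‖((p i).2 : V n) - (q i).2‖ ≤ ‖p - q‖ :=
    (norm_snd_le ((p - q) i)).trans (norm_le_pi_norm (p - q) i)
  have hρ : 0 ≤ ρ := (norm_nonneg _).trans hp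
  rw [h1]
  refine (sqrt_hs_add _ _).trans ?_
  rw [b5a_hs_rk, b5a_hs_rk]
  have h6 := mul_le_mul h2 h4 (norm_nonneg _) hρ
  have h7 := mul_le_mul h5 h3 (norm_nonneg _) (norm_nonneg _)
  linarith

theorem pack_rank (r : ℕ) (R : ℝ) {ε : ℝ} (hε : 0 < ε) :
    ∃ c : ℕ, 1 ≤ c ∧ ∀ (n : ℕ) (U : Submodule ℂ (V n)) (S : Finset (Op n)),
      (∀ T ∈ S, Module.finrank ℂ (LinearMap.range (T : V n →ₗ[ℂ] V n)) ≤ r ∧ hs T ≤ R ∧
        (∀ v, T v ∈ U) ∧ ∀ v ∈ Uᗮ, T v = 0) →
      (∀ T ∈ S, ∀ T' ∈ S, T ≠ T' → ε ≤ hs (T - T')) → S.card ≤ c ^ Module.finrank ℂ U := by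
  classical
  have hρ : 0 ≤ 1 + √R := by positivity
  obtain ⟨a, ha⟩ : ∃ a : ℝ, a = r * (2 * (1 + √R)) := ⟨_, rfl⟩
  have ha0 : 0 ≤ a := by rw [ha]; positivity
  have he : 0 < √ε / (a + 1) := div_pos (Real.sqrt_pos.2 hε) (by positivity)
  obtain ⟨b, hb⟩ : ∃ b : ℝ, b = 2 * (1 + √R) / (√ε / (a + 1)) + 1 := ⟨_, rfl⟩
  have hb0 : 0 < b := by rw [hb]; positivity
  refine ⟨⌈b ^ (r * 4)⌉₊, Nat.ceil_pos.2 (by positivity), fun n U S h1 h2 => ?_⟩
  have hch : ∀ T : Op n, ∃ p : Fin r → U × U, T ∈ S → ‖p‖ ≤ 1 + √R ∧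
      T = ∑ i, (innerSL ℂ ((p i).2 : V n)).smulRight ((p i).1 : V n) := fun T => by
    by_cases hT : T ∈ S
    · obtain ⟨h3, h4, h5, h6⟩ := h1 T hT
      obtain ⟨p, hp⟩ := b5a_rep U h3 h4 h5 h6
      exact ⟨p, fun _ => hp⟩
    · exact ⟨0, fun h => absurd h hT⟩
  choose f hf using hch
  have h3 := b5a_card hρ he S f (fun T hT => (hf T hT).1) fun T hT T' hT' hne => by
    have h4 := b5a_lip U (hf T hT).1 (hf T' hT').1
    rw [← (hf T hT).2, ← (hf T' hT').2, ← ha] at h4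
    have h5 := (Real.sqrt_le_sqrt (h2 T hT T' hT' hne)).trans h4
    rw [div_le_iff₀ (by positivity)]
    nlinarith [norm_nonneg (f T - f T')]
  have h4 : Module.finrank ℝ (Fin r → U × U) = r * 4 * Module.finrank ℂ U := by
    rw [Module.finrank_pi_fintype, Finset.sum_const, Finset.card_univ, Fintype.card_fin,
      Module.finrank_prod, finrank_real_of_complex, smul_eq_mul]
    ring
  rw [← hb, h4, pow_mul] at h3
  have h5 := h3.trans (pow_le_pow_left₀ (by positivity) (Nat.le_ceil _) _)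
  exact_mod_cast h5

end BallQ
end
end

-- merged part: Pool.Agent.Work.MP_72250f_ag.B5
section
/-!
Packing. card_le_of_sep: volume argument as in Besicovitch.card_le_of_separated (balls of radius e/2 are disjoint
inside the ball of radius R + e/2). pack_dim: conjugate to oo; the operators g i have norm at most 2 sqrt R in the
finite dimensional real normed space Op n, two of them are close, and hs T <= (n+1) |T|^2, uu_le_hs, hs_mul_left.
pack_rank: T = sum over i < r of a_i (x) b_i (innerSL), b_i orthonormal basis of (ker T)-orthogonal (inside U) padded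
by zeros, a_i = T b_i in U with |a_i|^2 <= R; the map (a,b) in (U x U)^r -> T is Lipschitz for sqrt hs on bounded
sets; apply card_le_of_sep in the real space Fin r -> U x U of dimension 4 r finrank U.
-/

open scoped ComplexConjugate ENNReal Topology
open MeasureTheory Filter

noncomputable section

namespace BallQ

variable {n : ℕ}

universe u

theorem b5_idem (m : ℕ) : ∀ (X : Type u) [AddCommGroup X] [Module ℂ X] [FiniteDimensional ℂ X]
    (S : Finset (Module.End ℂ X)), (∀ P ∈ S, P * P = P) → (∀ P ∈ S, ∀ Q ∈ S, Commute P Q) →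
    Module.finrank ℂ X = m → S.card ≤ 2 ^ m := by
  classical
  induction m using Nat.strong_induction_on with
  | _ m ih =>
    intro X _ _ _ S h1 h2 hm
    by_cases h : ∀ P ∈ S, P = 0 ∨ P = 1
    · rcases Nat.eq_zero_or_pos m with rfl | hpos
      · have : Subsingleton X := Module.finrank_zero_iff.1 hm
        exact Finset.card_le_one.2 fun P _ Q _ => LinearMap.ext fun _ => Subsingleton.elim _ _
      · have hs : S ⊆ {0, 1} := fun P hP => by simpa using h P hP
        exact (Finset.card_le_card hs).trans (Finset.card_le_two.trans (Nat.le_self_pow hpos.ne' 2))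
    · push Not at h
      obtain ⟨P, hP, hP0, hP1⟩ := h
      have hPP : ∀ v, P (P v) = P v := fun v => LinearMap.congr_fun (h1 P hP) v
      have hc : ∀ Q ∈ S, ∀ v, P (Q v) = Q (P v) := fun Q hQ v =>
        LinearMap.congr_fun (h2 P hP Q hQ).eq v
      have hr : ∀ Q : S, ∀ v ∈ LinearMap.range P, Q.1 v ∈ LinearMap.range P := by
        rintro Q _ ⟨v, rfl⟩
        exact ⟨Q.1 v, hc Q.1 Q.2 v⟩
      have hk : ∀ Q : S, ∀ v ∈ LinearMap.ker P, Q.1 v ∈ LinearMap.ker P := fun Q v hv => by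
        rw [LinearMap.mem_ker] at hv ⊢
        rw [hc Q.1 Q.2, hv, map_zero]
      have hsum := LinearMap.finrank_range_add_finrank_ker P
      have hr0 : Module.finrank ℂ (LinearMap.range P) ≠ 0 := fun h0 =>
        hP0 (LinearMap.range_eq_bot.1 (Submodule.finrank_eq_zero.1 h0))
      have hk0 : Module.finrank ℂ (LinearMap.ker P) ≠ 0 := fun h0 => hP1 (LinearMap.ext fun v =>
        LinearMap.ker_eq_bot.1 (Submodule.finrank_eq_zero.1 h0) (hPP v))
      have key : ∀ (W : Submodule ℂ X) (hW : ∀ Q : S, ∀ v ∈ W, Q.1 v ∈ W),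
          Module.finrank ℂ W < m →
          (Finset.univ.image fun Q : S => Q.1.restrict (hW Q)).card ≤ 2 ^ Module.finrank ℂ W := by
        intro W hW hlt
        refine ih _ hlt W _ ?_ ?_ rfl
        · intro R hR
          obtain ⟨Q, -, rfl⟩ := Finset.mem_image.1 hR
          exact LinearMap.ext fun v => Subtype.ext (LinearMap.congr_fun (h1 Q.1 Q.2) v.1)
        · intro R hR R' hR'
          obtain ⟨Q, -, rfl⟩ := Finset.mem_image.1 hR
          obtain ⟨Q', -, rfl⟩ := Finset.mem_image.1 hR'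
          exact LinearMap.ext fun v => Subtype.ext (LinearMap.congr_fun (h2 Q.1 Q.2 Q'.1 Q'.2).eq v.1)
      have hcard : (Finset.univ : Finset S).card ≤
          ((Finset.univ.image fun Q : S => Q.1.restrict (hr Q)) ×ˢ
            (Finset.univ.image fun Q : S => Q.1.restrict (hk Q))).card := by
        refine Finset.card_le_card_of_injOn (fun Q => (Q.1.restrict (hr Q), Q.1.restrict (hk Q)))
          (fun Q _ => Finset.mem_coe.2 (Finset.mem_product.2
            ⟨Finset.mem_image_of_mem _ (Finset.mem_univ Q),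
              Finset.mem_image_of_mem _ (Finset.mem_univ Q)⟩)) fun Q _ Q' _ hQ => ?_
        obtain ⟨e1, e2⟩ := Prod.mk.inj hQ
        refine Subtype.ext (LinearMap.ext fun v => ?_)
        have f1 : Q.1 (P v) = Q'.1 (P v) :=
          congrArg Subtype.val (LinearMap.congr_fun e1 ⟨P v, v, rfl⟩)
        have f2 : Q.1 (v - P v) = Q'.1 (v - P v) :=
          congrArg Subtype.val (LinearMap.congr_fun e2
            ⟨v - P v, by rw [LinearMap.mem_ker, map_sub, hPP, sub_self]⟩)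
        rw [map_sub, map_sub, f1] at f2
        exact sub_left_injective f2
      rw [Finset.card_univ, Fintype.card_coe, Finset.card_product] at hcard
      refine hcard.trans ?_
      rw [← hm, ← hsum, pow_add]
      exact Nat.mul_le_mul (key _ hr (by omega)) (key _ hk (by omega))

/-- The matrix of an operator. -/
def b5_mat (P : Op n) : Matrix (Option (Fin n)) (Option (Fin n)) ℂ :=
  LinearMap.toMatrix (bas n).toBasis (bas n).toBasis (P : V n →ₗ[ℂ] V n)

theorem b5_tr (P Y : Op n) : tr (P * Y) =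
    ∑ x : Option (Fin n) × Option (Fin n), b5_mat P x.1 x.2 * b5_mat Y x.2 x.1 := by
  have h : ((P * Y : Op n) : V n →ₗ[ℂ] V n) = (P : V n →ₗ[ℂ] V n) * (Y : V n →ₗ[ℂ] V n) := rfl
  rw [tr, LinearMap.trace_eq_matrix_trace ℂ (bas n).toBasis, h, LinearMap.toMatrix_mul,
    Fintype.sum_prod_type]
  rfl

/-- A set of pairwise commuting idempotents has at most `2 ^ dim` elements.
Induction on the dimension: split along an idempotent different from 0 and 1. -/
theorem card_idem_le {X : Type*} [AddCommGroup X] [Module ℂ X] [FiniteDimensional ℂ X]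
    (S : Finset (Module.End ℂ X)) (h1 : ∀ P ∈ S, P * P = P)
    (h2 : ∀ P ∈ S, ∀ Q ∈ S, Commute P Q) : S.card ≤ 2 ^ Module.finrank ℂ X :=
  b5_idem _ X S h1 h2 rfl

/-- Polynomial method: the functions `Y ↦ ∏ a ∈ A, (tr (P Y) - a)` are independent and lie in the span
of the products of at most `A.card` coordinate functions. -/
theorem card_le_of_angles (A : Finset ℂ) (S : Finset (Op n))
    (h1 : ∀ P ∈ S, tr (P * P) ∉ A) (h2 : ∀ P ∈ S, ∀ Q ∈ S, P ≠ Q → tr (P * Q) ∈ A) :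
    S.card ≤ (n + 2) ^ (2 * A.card) := by
  classical
  let cf : Op n → ℂ → Option (Option (Fin n) × Option (Fin n)) → ℂ := fun P a o =>
    o.elim (-a) fun x => b5_mat P x.1 x.2
  let cc : Op n → Option (Option (Fin n) × Option (Fin n)) → ℂ := fun Y o =>
    o.elim 1 fun x => b5_mat Y x.2 x.1
  have hf : ∀ P Y a, tr (P * Y) - a = ∑ o, cf P a o * cc Y o := fun P Y a => by
    rw [Fintype.sum_option, b5_tr]
    simp only [cf, cc, Option.elim]
    ring
  let u : S → (A → Option (Option (Fin n) × Option (Fin n))) → ℂ := fun P φ =>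
    ∏ a : A, cf P a (φ a)
  have hp : ∀ (P : S) (Y : Op n), ∑ φ, u P φ * ∏ a : A, cc Y (φ a) =
      ∏ a ∈ A, (tr (P.1 * Y) - a) := fun P Y => by
    rw [← Finset.prod_coe_sort A]
    simp only [hf, u, ← Finset.prod_mul_distrib]
    rw [Finset.prod_univ_sum, Fintype.piFinset_univ]
  have hli : LinearIndependent ℂ u := by
    rw [Fintype.linearIndependent_iff]
    intro t ht Q
    have h3 : ∑ P : S, t P * ∏ a ∈ A, (tr (P.1 * Q.1) - a) = 0 := by
      simp only [← hp, Finset.mul_sum, ← mul_assoc]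
      rw [Finset.sum_comm]
      refine Finset.sum_eq_zero fun φ _ => ?_
      have := congrFun ht φ
      simp only [Finset.sum_apply, Pi.smul_apply, smul_eq_mul, Pi.zero_apply] at this
      rw [← Finset.sum_mul, this, zero_mul]
    rw [Finset.sum_eq_single Q (fun P _ hPQ => ?_) (by simp)] at h3
    · refine (mul_eq_zero.1 h3).resolve_right (Finset.prod_ne_zero_iff.2 fun a ha h => ?_)
      exact h1 Q Q.2 (sub_eq_zero.1 h ▸ ha)
    · rw [Finset.prod_eq_zero (h2 P P.2 Q Q.2 fun h => hPQ (Subtype.ext h)) (sub_self _), mul_zero]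
  have h4 := hli.fintype_card_le_finrank
  rw [Module.finrank_fintype_fun_eq_card, Fintype.card_coe, Fintype.card_fun, Fintype.card_coe,
    Fintype.card_option, Fintype.card_prod, Fintype.card_option, Fintype.card_fin] at h4
  rw [pow_mul]
  exact h4.trans (Nat.pow_le_pow_left (by nlinarith) _)

end BallQ
end
end

-- merged part: Pool.Agent.Work.MP_72250f_ag.B6a
section
/-!
Proper groups. Finiteness at other points: CC_tri twice. countable: union over R : Nat (one needs no negativity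
beyond oo). fin_plus_fix: g = c gamma with gamma in a finite set, and c is determined by gamma (eig_eq_of_neg).
engel: uu of the iterates decays like 0.06^i (uu_comm), iterates from index 1 on lie in Gamma and have bounded
displacement (CC_le_of_uu), so they lie in a finite set; uu = 0 means scalar, and comm_scalar_on with W = top gives 1.
cnt_thick: if more than m * zc elements had displacement at most R, pick m+1 of them in different classes
modulo scalars and use pack_dim.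
-/

open scoped ComplexConjugate ENNReal Topology
open MeasureTheory Filter

noncomputable section

namespace BallQ

variable {n : ℕ}

theorem b6a_bound {g : Op n} (hg : IsIsom g) {x y : V n} (hx : x ∈ Neg n) (hy : y ∈ Neg n)
    {A B C : ℝ} (h1 : CC (oo n) x ≤ A) (h2 : CC x (g y) ≤ B) (h3 : CC (oo n) y ≤ C) :
    CC (oo n) (g (oo n)) ≤ 4 * A * (4 * B * C) := by
  have o1 : g (oo n) ∈ Neg n := hg.mem_Neg.mpr oo_mem_Neg
  have o2 : g y ∈ Neg n := hg.mem_Neg.mpr hy
  have a1 := one_le_CC oo_mem_Neg hx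
  have a2 := one_le_CC hx o2
  have a3 := one_le_CC oo_mem_Neg hy
  have a4 := one_le_CC hx o1
  have t1 := CC_tri oo_mem_Neg hx o1
  have t2 := CC_tri hx o2 o1
  rw [hg.CC_apply, CC_comm y] at t2
  refine t1.trans (mul_le_mul (by linarith) (t2.trans ?_) (by linarith) (by linarith))
  exact mul_le_mul (by linarith) h3 (by linarith) (by linarith)

theorem Proper.countable {Γ : Subgroup (GG n)} (hΓ : Proper Γ) : Countable Γ := by
  have : (Γ : Set (GG n)).Countable := by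
    refine (Set.countable_iUnion fun R : ℕ => (hΓ.fin R).countable).mono fun g hg => ?_
    obtain ⟨R, hR⟩ := exists_nat_ge (CC (oo n) ((g : Op n) (oo n)))
    exact Set.mem_iUnion.mpr ⟨R, hg, hR⟩
  exact this.to_subtype

theorem Proper.fin_two {Γ : Subgroup (GG n)} (hΓ : Proper Γ) {x y : V n} (hx : x ∈ Neg n)
    (hy : y ∈ Neg n) (R : ℝ) : {g : GG n | g ∈ Γ ∧ CC x ((g : Op n) y) ≤ R}.Finite :=
  (hΓ.fin _).subset fun g hg => ⟨hg.1, b6a_bound (hΓ.isom g hg.1) hx hy le_rfl hg.2 le_rfl⟩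

theorem Proper.fin_cpt {Γ : Subgroup (GG n)} (hΓ : Proper Γ) (R R' : ℝ) :
    {g : GG n | g ∈ Γ ∧ ∃ x ∈ Neg n, CC (oo n) x ≤ R ∧ CC x ((g : Op n) x) ≤ R'}.Finite := by
  refine (hΓ.fin (4 * R * (4 * R' * R))).subset ?_
  rintro g ⟨hg, x, hx, h1, h2⟩
  exact ⟨hg, b6a_bound (hΓ.isom g hg) hx hx h1 h2 h1⟩

theorem Proper.fin_uu {Γ : Subgroup (GG n)} (hΓ : Proper Γ) (R ε : ℝ) :
    {g : GG n | g ∈ Γ ∧ ∃ x ∈ Neg n, CC (oo n) x ≤ R ∧ uu (g : Op n) x ≤ ε}.Finite := by
  refine (hΓ.fin_cpt R ((1 + √ε) ^ 2)).subset ?_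
  rintro g ⟨hg, x, hx, h1, h2⟩
  refine ⟨hg, x, hx, h1, (CC_le_of_uu (hΓ.isom g hg) hx).trans ?_⟩
  gcongr

theorem Proper.fin_plus_fix {Γ : Subgroup (GG n)} (hΓ : Proper Γ) (R : ℝ) :
    {g : GG n | g ∈ plus Γ ∧ ∃ y ∈ Neg n, CC (oo n) y ≤ R ∧ (g : Op n) y = y}.Finite := by
  have key : ∀ {c : ℂ} {γ : Op n} {y : V n}, ‖c‖ = 1 → (c • γ) y = y → c⁻¹ ≠ 0 ∧ γ y = c⁻¹ • y := by
    intro c γ y hc h
    have h0 : c ≠ 0 := by
      rintro rfl
      simp at hc
    refine ⟨inv_ne_zero h0, ?_⟩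
    conv_rhs => rw [← h]
    rw [smul_apply, smul_smul, inv_mul_cancel₀ h0, one_smul]
  refine ((hΓ.fin_cpt R 1).biUnion (t := fun γ => {g : GG n | ∃ c : ℂ,
    (g : Op n) = c • (γ : Op n) ∧ ∃ y ∈ Neg n, (γ : Op n) y = c⁻¹ • y}) ?_).subset ?_
  · intro γ hγ
    refine Set.Subsingleton.finite ?_
    rintro g ⟨c, h1, y, hy, h2⟩ g' ⟨c', h1', y', hy', h2'⟩
    have := eig_eq_of_neg (hΓ.isom γ hγ.1) hy (ne_zero_of_mem_Neg hy') (le_of_lt hy') h2 h2'
    ext1
    rw [h1, h1', inv_injective this]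
  · rintro g ⟨⟨c, hc, γ, hγ, h1⟩, y, hy, h2, h3⟩
    rw [h1] at h3
    obtain ⟨k1, k2⟩ := key hc h3
    refine Set.mem_biUnion (x := γ) ⟨hγ, y, hy, h2, ?_⟩ ⟨c, h1, y, hy, k2⟩
    rw [k2, CC_smul_right k1, CC_self hy]

theorem comm_mem {Γ : Subgroup (GG n)} {g d : GG n} (hg : g ∈ plus Γ) (hd : d ∈ plus Γ) :
    g * d * g⁻¹ * d⁻¹ ∈ Γ := by
  obtain ⟨c, -, γ, hγ, h1⟩ := hg
  obtain ⟨e, -, δ, hδ, h2⟩ := hd
  have h3 : g * d = γ * δ * γ⁻¹ * δ⁻¹ * (d * g) := by
    have h4 : γ * δ * γ⁻¹ * δ⁻¹ * (δ * γ) = γ * δ := by group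
    ext1
    rw [Units.val_mul, Units.val_mul _ (d * g), Units.val_mul d, h1, h2, smul_mul_smul_comm,
      smul_mul_smul_comm, mul_smul_comm, ← Units.val_mul δ, ← Units.val_mul _ (δ * γ), h4,
      mul_comm c, Units.val_mul]
  have h5 : g * d * g⁻¹ * d⁻¹ = γ * δ * γ⁻¹ * δ⁻¹ := by
    rw [h3]
    group
  rw [h5]
  exact Γ.mul_mem (Γ.mul_mem (Γ.mul_mem hγ hδ) (Γ.inv_mem hγ)) (Γ.inv_mem hδ)

theorem InP.exists_unit {Γ : Subgroup (GG n)} {g : Op n} (hg : InP Γ g) :
    ∃ u : GG n, u ∈ plus Γ ∧ (u : Op n) = g := by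
  obtain ⟨c, hc, γ, hγ, rfl⟩ := hg
  have h0 : c ≠ 0 := by
    rintro rfl
    simp at hc
  refine ⟨⟨c • (γ : Op n), c⁻¹ • ((γ⁻¹ : GG n) : Op n), ?_, ?_⟩, ⟨c, hc, γ, hγ, rfl⟩, rfl⟩
  · rw [smul_mul_smul_comm, mul_inv_cancel₀ h0, one_smul, Units.mul_inv]
  · rw [smul_mul_smul_comm, inv_mul_cancel₀ h0, one_smul, Units.inv_mul]

theorem InP.smul {Γ : Subgroup (GG n)} {g : Op n} (hg : InP Γ g) {c : ℂ} (hc : ‖c‖ = 1) :
    InP Γ (c • g) := by
  obtain ⟨e, he, γ, hγ, rfl⟩ := hg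
  exact ⟨c * e, by rw [norm_mul, hc, he, mul_one], γ, hγ, smul_smul _ _ _⟩

theorem InP.cnj {Γ : Subgroup (GG n)} {g : Op n} (hg : InP Γ g) {h : GG n} (hh : h ∈ plus Γ) :
    InP Γ (cnj h g) := by
  obtain ⟨u, hu, rfl⟩ := hg.exists_unit
  exact (plus Γ).mul_mem ((plus Γ).mul_mem hh hu) ((plus Γ).inv_mem hh)

theorem engel {Γ : Subgroup (GG n)} (hΓ : Proper Γ) {x : V n} (hx : x ∈ Neg n) {g d : GG n}
    (hg : g ∈ plus Γ) (hd : d ∈ plus Γ) (h1 : uu (g : Op n) x ≤ eps)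
    (h2 : uu (d : Op n) x ≤ eps) :
    (∀ i : ℕ, (fun c : GG n => g * c * g⁻¹ * c⁻¹)^[i] d ∈ plus Γ ∧
      uu (((fun c : GG n => g * c * g⁻¹ * c⁻¹)^[i] d : GG n) : Op n) x ≤ eps) ∧
    ∃ i : ℕ, (fun c : GG n => g * c * g⁻¹ * c⁻¹)^[i] d = 1 := by
  set f : ℕ → GG n := fun i => (fun c : GG n => g * c * g⁻¹ * c⁻¹)^[i] d with hf
  have hs : ∀ i, f (i + 1) = g * f i * g⁻¹ * (f i)⁻¹ := fun i => Function.iterate_succ_apply' _ _ _
  have ig : IsIsom (g : Op n) := InP.isIsom hΓ hg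
  have he : eps = 1 / 100 := rfl
  have st : ∀ i, f i ∈ plus Γ → uu (f i : Op n) x ≤ eps →
      uu (f (i + 1) : Op n) x ≤ 6 / 100 * uu (f i : Op n) x := by
    intro i k1 k2
    rw [hs]
    refine (uu_comm ig (InP.isIsom hΓ k1) hx h1 k2).trans ?_
    exact mul_le_mul_of_nonneg_right (by linarith) (uu_nonneg (InP.isIsom hΓ k1) hx)
  have k : ∀ i, f i ∈ plus Γ ∧ uu (f i : Op n) x ≤ eps := by
    intro i
    induction i with
    | zero => exact ⟨hd, h2⟩
    | succ i ih =>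
      refine ⟨hs i ▸ le_plus Γ (comm_mem hg ih.1), (st i ih.1 ih.2).trans ?_⟩
      linarith [ih.2]
  refine ⟨k, ?_⟩
  have nn : ∀ i, 0 ≤ uu (f i : Op n) x := fun i => uu_nonneg (InP.isIsom hΓ (k i).1) hx
  have an : Antitone fun i => uu (f i : Op n) x :=
    antitone_nat_of_succ_le fun i => by linarith [st i (k i).1 (k i).2, nn i]
  obtain ⟨i, j, hij, h3⟩ := Set.Finite.exists_lt_map_eq_of_forall_mem (f := fun i => f (i + 1))
    (fun i => by exact ⟨hs i ▸ comm_mem hg (k i).1, x, hx, le_rfl, (k (i + 1)).2⟩)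
    (hΓ.fin_uu (CC (oo n) x) eps)
  have h4 : uu (f (j + 1) : Op n) x ≤ uu (f (i + 1 + 1) : Op n) x := an (by omega)
  have h5 := st (i + 1) (k _).1 (k _).2
  have h6 : f (i + 1) = f (j + 1) := h3
  rw [← h6] at h4
  obtain ⟨c, hc⟩ := (isScalar_iff_uu (InP.isIsom hΓ (k (i + 1)).1) hx).mpr
    (by linarith [nn (i + 1)])
  have h7 : g * f (i + 1) = f (i + 1) * g := by
    ext1
    rw [Units.val_mul, Units.val_mul, hc, mul_smul_comm, smul_mul_assoc, mul_one, one_mul]
  refine ⟨i + 1 + 1, (hs _).trans ?_⟩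
  rw [h7]
  group

end BallQ
end
end

-- merged part: Pool.Agent.Work.MP_72250f_ag.B6
section
/-!
Proper groups. Finiteness at other points: CC_tri twice. countable: union over R : Nat (one needs no negativity
beyond oo). fin_plus_fix: g = c gamma with gamma in a finite set, and c is determined by gamma (eig_eq_of_neg).
engel: uu of the iterates decays like 0.06^i (uu_comm), iterates from index 1 on lie in Gamma and have bounded
displacement (CC_le_of_uu), so they lie in a finite set; uu = 0 means scalar, and comm_scalar_on with W = top gives 1.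
cnt_thick: if more than m * zc elements had displacement at most R, pick m+1 of them in different classes
modulo scalars and use pack_dim.
-/

open scoped ComplexConjugate ENNReal Topology
open MeasureTheory Filter

noncomputable section

namespace BallQ

variable {n : ℕ}

open Classical in
theorem b6_encard (Γ : Subgroup (GG n)) (p : GG n → Prop) :
    ∑' g : Γ, (if p g then (1 : ℝ≥0∞) else 0) = ({g : GG n | g ∈ Γ ∧ p g}.encard : ℝ≥0∞) := by
  rw [← ENNReal.tsum_set_one, tsum_subtype _ fun _ => (1 : ℝ≥0∞)]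
  refine (tsum_subtype (Γ : Set (GG n)) fun g => if p g then (1 : ℝ≥0∞) else 0).trans ?_
  refine tsum_congr fun g => ?_
  by_cases h1 : g ∈ Γ <;> by_cases h2 : p g <;> simp [Set.indicator, h1, h2]

theorem b6_cnt (Γ : Subgroup (GG n)) (x : V n) (r : ℝ) :
    cnt Γ x r = ({g : GG n | g ∈ Γ ∧ CC x ((g : Op n) x) ≤ r}.encard : ℝ≥0∞) := by
  rw [← b6_encard Γ fun g => CC x ((g : Op n) x) ≤ r, cnt]

theorem b6_zc (Γ : Subgroup (GG n)) :
    zc Γ = ({g : GG n | g ∈ Γ ∧ IsScalar (g : Op n)}.encard : ℝ≥0∞) :=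
  b6_encard Γ fun g => IsScalar (g : Op n)

theorem b6_ne_top {s : Set (GG n)} (hs : s.Finite) : (s.encard : ℝ≥0∞) ≠ ⊤ := by
  rw [← hs.cast_ncard_eq]
  simp

theorem b6_mono {s t : Set (GG n)} (h : s ⊆ t) : (s.encard : ℝ≥0∞) ≤ (t.encard : ℝ≥0∞) :=
  ENat.toENNReal_le.2 (Set.encard_le_encard h)

theorem b6_ne_zero {g : GG n} {c : ℂ} (h : (g : Op n) = c • (1 : Op n)) : c ≠ 0 := by
  rintro rfl
  have := inv_apply_apply g (oo n)
  rw [h, zero_smul, zero_apply, map_zero] at this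
  exact ne_zero_of_mem_Neg oo_mem_Neg this.symm

theorem b6_CC_scalar {g : GG n} (h : IsScalar (g : Op n)) {x : V n} (hx : x ∈ Neg n) :
    CC x ((g : Op n) x) = 1 := by
  obtain ⟨c, hc⟩ := h
  rw [hc, smul_apply, one_apply_eq_self,
    CC_smul_right (b6_ne_zero hc), CC_self hx]

/-- The scalars in `Γ`. -/
def b6_H (Γ : Subgroup (GG n)) : Subgroup (GG n) where
  carrier := {g | g ∈ Γ ∧ IsScalar (g : Op n)}
  one_mem' := ⟨Γ.one_mem, 1, by simp⟩
  mul_mem' := by
    rintro a b ⟨ha, c, hc⟩ ⟨hb, d, hd⟩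
    exact ⟨Γ.mul_mem ha hb, c * d, by rw [Units.val_mul, hc, hd, smul_mul_smul_comm, mul_one]⟩
  inv_mem' := by
    rintro a ⟨ha, c, hc⟩
    refine ⟨Γ.inv_mem ha, c⁻¹, ?_⟩
    have h1 : (c⁻¹ • (1 : Op n)) * (a : Op n) = 1 := by
      rw [hc, smul_mul_smul_comm, inv_mul_cancel₀ (b6_ne_zero hc), one_smul, mul_one]
    exact (Units.eq_inv_of_mul_eq_one_right h1).symm

theorem cnt_ne_top {Γ : Subgroup (GG n)} (hΓ : Proper Γ) {x : V n} (hx : x ∈ Neg n) (r : ℝ) :
    cnt Γ x r ≠ ⊤ := by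
  rw [b6_cnt]
  exact b6_ne_top (hΓ.fin_two hx hx r)

theorem cnt_eq_encard (Γ : Subgroup (GG n)) (x : V n) (r : ℝ) :
    cnt Γ x r = ({g : GG n | g ∈ Γ ∧ CC x ((g : Op n) x) ≤ r}.encard : ℝ≥0∞) :=
  b6_cnt Γ x r

theorem cnt_apply {Γ : Subgroup (GG n)} (hΓ : Proper Γ) {g : GG n} (hg : g ∈ Γ) (x : V n)
    (r : ℝ) : cnt Γ ((g : Op n) x) r = cnt Γ x r := by
  unfold cnt
  rw [← (MulAut.conj (⟨g, hg⟩ : Γ)).toEquiv.tsum_eq]
  refine tsum_congr fun h => ?_
  have : (((((MulAut.conj (⟨g, hg⟩ : Γ)).toEquiv h : Γ) : GG n) : Op n)) ((g : Op n) x)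
      = (g : Op n) (((h : GG n) : Op n) x) := by
    change ((g * (h : GG n) * g⁻¹ : GG n) : Op n) ((g : Op n) x) = _
    rw [Units.val_mul, Units.val_mul, mul_apply_eq_comp,
      mul_apply_eq_comp, inv_apply_apply]
  rw [this, (hΓ.isom g hg).CC_apply]

theorem cnt_smul (Γ : Subgroup (GG n)) {c : ℂ} (hc : c ≠ 0) (x : V n) (r : ℝ) :
    cnt Γ (c • x) r = cnt Γ x r := by
  unfold cnt
  simp only [map_smul, CC_smul_left hc, CC_smul_right hc]

theorem cnt_mono {Λ Γ : Subgroup (GG n)} (h : Λ ≤ Γ) (x : V n) {r r' : ℝ} (hr : r ≤ r') :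
    cnt Λ x r ≤ cnt Γ x r' := by
  rw [b6_cnt, b6_cnt]
  exact b6_mono fun g hg => ⟨h hg.1, hg.2.trans hr⟩

theorem measurable_cnt {Γ : Subgroup (GG n)} (hΓ : Proper Γ) (r : ℝ) :
    Measurable fun x : V n => cnt Γ x r := by
  have := hΓ.countable
  unfold cnt
  refine Measurable.tsum fun g => Measurable.ite ?_ measurable_const measurable_const
  have h1 : Measurable fun x : V n => (x, ((g : GG n) : Op n) x) :=
    measurable_id.prodMk ((g : GG n) : Op n).continuous.measurable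
  have h2 := measurable_CC.comp h1
  exact measurableSet_le h2 measurable_const

theorem cnt_bdd {Γ : Subgroup (GG n)} (hΓ : Proper Γ) {S : Set (V n)} (hS : S ⊆ Neg n)
    (hc : Cocpt Γ S) (r : ℝ) : ∃ B : ℝ≥0∞, B ≠ ⊤ ∧ ∀ x ∈ S, cnt Γ x r ≤ B := by
  obtain ⟨R, hR⟩ := hc
  refine ⟨_, b6_ne_top (hΓ.fin_cpt R r), fun x hx => ?_⟩
  obtain ⟨g, hg, h⟩ := hR x hx
  rw [← cnt_apply hΓ hg, b6_cnt]
  exact b6_mono fun a ha => ⟨ha.1, _, (hΓ.isom g hg).mem_Neg.2 (hS hx), h, ha.2⟩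

theorem one_le_zc (Γ : Subgroup (GG n)) : 1 ≤ zc Γ := by
  unfold zc
  refine le_trans ?_ (ENNReal.le_tsum (1 : Γ))
  rw [if_pos ⟨1, by simp⟩]

theorem zc_le_cnt {Γ : Subgroup (GG n)} {x : V n} (hx : x ∈ Neg n) {r : ℝ} (hr : 1 ≤ r) :
    zc Γ ≤ cnt Γ x r := by
  rw [b6_cnt, b6_zc]
  exact b6_mono fun g hg => ⟨hg.1, (b6_CC_scalar hg.2 hx).trans_le hr⟩

theorem zc_ne_top {Γ : Subgroup (GG n)} (hΓ : Proper Γ) : zc Γ ≠ ⊤ :=
  ne_top_of_le_ne_top (cnt_ne_top hΓ oo_mem_Neg 1) (zc_le_cnt oo_mem_Neg le_rfl)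

theorem cnt_eventually {Γ : Subgroup (GG n)} (hΓ : Proper Γ) {x : V n} (hx : x ∈ Neg n)
    (hfree : ∀ g ∈ Γ, (∃ c : ℂ, (g : Op n) x = c • x) → IsScalar (g : Op n)) :
    ∃ δ : ℝ, 0 < δ ∧ cnt Γ x (1 + δ) = zc Γ := by
  have h1 : ∀ᶠ δ in 𝓝[>] (0 : ℝ), ∀ g ∈ {g : GG n | g ∈ Γ ∧ CC x ((g : Op n) x) ≤ 2},
      CC x ((g : Op n) x) ≤ 1 + δ → IsScalar (g : Op n) := by
    refine (eventually_all_finite (hΓ.fin_two hx hx 2)).2 fun g hg => ?_
    by_cases hs : IsScalar (g : Op n)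
    · exact Eventually.of_forall fun _ _ => hs
    · have : 1 < CC x ((g : Op n) x) := not_le.1 fun h => hs (hfree g hg.1
        (eq_smul_of_CC hx ((hΓ.isom g hg.1).mem_Neg.2 hx) h))
      filter_upwards [Ioo_mem_nhdsGT (sub_pos.2 this)] with δ hδ h
      exact absurd hδ.2 (by linarith)
  obtain ⟨δ, h2, h3⟩ := (h1.and (Ioo_mem_nhdsGT zero_lt_one)).exists
  refine ⟨δ, h3.1, le_antisymm ?_ (zc_le_cnt hx (by linarith [h3.1]))⟩
  rw [b6_cnt, b6_zc]
  exact b6_mono fun g hg => ⟨hg.1, h2 g ⟨hg.1, hg.2.trans (by linarith [h3.2])⟩ hg.2⟩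

theorem cnt_thick (n : ℕ) (R : ℝ) {ε : ℝ} (hε : 0 < ε) :
    ∃ m : ℕ, ∀ Γ : Subgroup (GG n), Proper Γ → ∀ x ∈ Thick Γ ε, cnt Γ x R ≤ m * zc Γ := by
  classical
  obtain ⟨m, hm⟩ := pack_dim n R hε
  refine ⟨m, fun Γ hΓ x hx => ?_⟩
  have hA := hΓ.fin_two hx.1 hx.1 R
  have hZ : {g : GG n | g ∈ Γ ∧ IsScalar (g : Op n)}.Finite :=
    (hΓ.fin_two hx.1 hx.1 1).subset fun g hg => ⟨hg.1, (b6_CC_scalar hg.2 hx.1).le⟩
  have h1 : (hA.toFinset.image (QuotientGroup.mk : GG n → GG n ⧸ b6_H Γ)).card ≤ m := by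
    by_contra hlt
    obtain ⟨f, hf⟩ := Function.Embedding.exists_of_card_le_finset (α := Fin (m + 1))
      (s := hA.toFinset.image (QuotientGroup.mk : GG n → GG n ⧸ b6_H Γ))
      (by rw [Fintype.card_fin]; omega)
    choose g hg hg' using fun i => Finset.mem_image.1 (Finset.mem_coe.1 (hf ⟨i, rfl⟩))
    simp only [Set.Finite.mem_toFinset, Set.mem_ofPred_eq] at hg
    obtain ⟨i, j, hij, h⟩ := hm x hx.1 g (fun i => hΓ.isom _ (hg i).1) fun i => (hg i).2
    have hmem : (g i)⁻¹ * g j ∈ Γ := Γ.mul_mem (Γ.inv_mem (hg i).1) (hg j).1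
    refine hij (f.injective ?_)
    rw [← hg' i, ← hg' j]
    refine QuotientGroup.eq.2 ⟨hmem, ?_⟩
    by_contra hs
    exact absurd (hx.2 _ hmem hs) (not_le.2 h)
  have h2 := Finset.card_le_mul_card_image (f := (QuotientGroup.mk : GG n → GG n ⧸ b6_H Γ))
    hA.toFinset hZ.toFinset.card fun a ha => by
      obtain ⟨a, -, rfl⟩ := Finset.mem_image.1 ha
      refine Finset.card_le_card_of_injOn (fun g => a⁻¹ * g) (fun g hg => ?_)
        fun g _ g' _ h => mul_left_cancel h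
      rw [Finset.mem_coe, Set.Finite.mem_toFinset]
      exact QuotientGroup.eq.1 (Finset.mem_filter.1 (Finset.mem_coe.1 hg)).2.symm
  rw [b6_cnt, b6_zc, hA.encard_eq_coe_toFinset_card, hZ.encard_eq_coe_toFinset_card]
  have h3 : hA.toFinset.card ≤ m * hZ.toFinset.card :=
    h2.trans (by rw [mul_comm]; exact Nat.mul_le_mul_right _ h1)
  simp only [ENat.toENNReal_coe]
  exact_mod_cast h3

theorem Cocpt.mono {Γ : Subgroup (GG n)} {S T : Set (V n)} (h : Cocpt Γ T) (hST : S ⊆ T) :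
    Cocpt Γ S := by
  obtain ⟨R, hR⟩ := h
  exact ⟨R, fun x hx => hR x (hST hx)⟩

theorem Cocpt.biUnion {Γ : Subgroup (GG n)} {ι : Type*} {s : Set ι} (hs : s.Finite)
    {S : ι → Set (V n)} (h : ∀ i ∈ s, Cocpt Γ (S i)) : Cocpt Γ (⋃ i ∈ s, S i) := by
  choose! R hR using h
  obtain ⟨B, hB⟩ := (hs.image R).bddAbove
  refine ⟨B, fun x hx => ?_⟩
  obtain ⟨i, hi, hx⟩ := Set.mem_iUnion₂.1 hx
  obtain ⟨g, hg, h⟩ := hR i hi x hx
  exact ⟨g, hg, h.trans (hB ⟨i, hi, rfl⟩)⟩

end BallQ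
end
end

-- merged part: Pool.Agent.Work.MP_72250f_ag.M2a
section
/-!
Weights and unfolding. unfold_weight: insert 1 = sum psi (g v), lintegral_tsum (Proper.countable), lintegral_isom, reindex by
inversion. lintegral_JQ: psi' v = indicator * psi (M^-1 v) has orbit sum the indicator; combine lintegral_J and unfold_weight.
exists_weight_sub: psi' v = sum over left cosets q of Lambda in Gamma of psi (q.out v). For unfold_le, single_le, rank_unfold
decompose I into Gamma orbits (a MulAction of Gamma on the subtype I, or a setoid), for an orbit with representative F0 the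
members are cnjS q.out F0 with q in Gamma / stab Gamma F0, and sum over q of the integral of f (cnjS q F0) psi is the integral
of f F0 psi' with psi' as above. rank_unfold: the infimum of the K F is reached by finitely many orbits (finite dimension),
codimension is subadditive. ball_le: sum over g of the indicator of the ball at g v is at most cnt (CC_tri_small).
-/

open scoped ComplexConjugate ENNReal Topology
open MeasureTheory Filter

noncomputable section

namespace BallQ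

variable {n : ℕ}

theorem m2a_meas (g : Op n) : Measurable fun v : V n => g v := g.continuous.measurable

theorem m2a_comm {g M : GG n} (hc : Commute g M) (v : V n) :
    ((M⁻¹ : GG n) : Op n) ((g : Op n) v) = (g : Op n) (((M⁻¹ : GG n) : Op n) v) := by
  rw [← mul_apply_eq_comp, ← mul_apply_eq_comp, ← Units.val_mul, ← Units.val_mul,
    hc.inv_right.eq]

theorem m2a_smul_iff {c : ℂ} (hc : c ≠ 0) {v : V n} : c • v ∈ Neg n ↔ v ∈ Neg n := by
  refine ⟨fun h => ?_, smul_mem_Neg hc⟩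
  have := smul_mem_Neg (inv_ne_zero hc) h
  rwa [smul_smul, inv_mul_cancel₀ hc, one_smul] at this

theorem unfold_weight {Λ : Subgroup (GG n)} (hΛ : Proper Λ) {ψ ψ' χ f : V n → ℝ≥0∞}
    (hψ : IsWeight Λ ψ) (h1 : Measurable ψ') (h2 : SInv ψ')
    (h3 : ∀ v ∈ Neg n, ∑' g : Λ, ψ' (((g : GG n) : Op n) v) = χ v) (hf : InvF Λ f) :
    ∫⁻ v, f v * ψ' v ∂(nu n) = ∫⁻ v, f v * χ v * ψ v ∂(nu n) := by
  have := hΛ.countable
  have e1 : ∫⁻ v, f v * ψ' v ∂(nu n) =
      ∫⁻ v, ∑' g : Λ, f v * ψ' v * ψ (((g : GG n) : Op n) v) ∂(nu n) := by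
    refine lintegral_congr_ae (ae_nu.mono fun v hv => ?_)
    simp only [ENNReal.tsum_mul_left, hψ.sum v hv.1, mul_one]
  have e2 : ∀ g : Λ, ∫⁻ v, f v * ψ' v * ψ (((g : GG n) : Op n) v) ∂(nu n) =
      ∫⁻ v, f v * ψ' ((((g⁻¹ : Λ) : GG n) : Op n) v) * ψ v ∂(nu n) := by
    intro g
    have := lintegral_isom (hΛ.isom g g.2)
      (f := fun v => f v * ψ' ((((g⁻¹ : Λ) : GG n) : Op n) v) * ψ v)
      ((hf.meas.mul (h1.comp (m2a_meas _))).mul hψ.meas)
      (fun c hc v => by simp only [map_smul, hf.sinv c hc, h2 c hc, hψ.sinv c hc])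
    rw [← this]
    refine lintegral_congr fun v => ?_
    rw [hf.inv g g.2, Subgroup.coe_inv, inv_apply_apply]
  rw [e1, lintegral_tsum (f := fun (g : Λ) v => f v * ψ' v * ψ (((g : GG n) : Op n) v)) fun g =>
    ((hf.meas.mul h1).mul (hψ.meas.comp (m2a_meas _))).aemeasurable]
  simp only [e2]
  rw [← lintegral_tsum
    (f := fun (g : Λ) v => f v * ψ' ((((g⁻¹ : Λ) : GG n) : Op n) v) * ψ v) fun g =>
    ((hf.meas.mul (h1.comp (m2a_meas _))).mul hψ.meas).aemeasurable]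
  refine lintegral_congr_ae (ae_nu.mono fun v hv => ?_)
  simp only [ENNReal.tsum_mul_left, ENNReal.tsum_mul_right]
  rw [← h3 v hv.1, ← (Equiv.inv Λ).tsum_eq]
  simp

theorem lintegral_JQ {Λ : Subgroup (GG n)} (hΛ : Proper Λ) {ψ f : V n → ℝ≥0∞}
    (hψ : IsWeight Λ ψ) (M : GG n) (hM : ∀ v ∈ Neg n, (M : Op n) v ∈ Neg n)
    (hc : ∀ g ∈ Λ, Commute g M) (hf : InvF Λ f) :
    ∫⁻ v, f ((M : Op n) v) * Jac (M : Op n) v * ψ v ∂(nu n) =
      ∫⁻ v in {v | ((M⁻¹ : GG n) : Op n) v ∈ Neg n}, f v * ψ v ∂(nu n) := by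
  have hS : MeasurableSet {v : V n | ((M⁻¹ : GG n) : Op n) v ∈ Neg n} :=
    m2a_meas _ isOpen_Neg.measurableSet
  have hm : Measurable fun v => ψ (((M⁻¹ : GG n) : Op n) v) := hψ.meas.comp (m2a_meas _)
  have e1 := lintegral_J M hM (f := fun v => f v * ψ (((M⁻¹ : GG n) : Op n) v))
    (hf.meas.mul hm) (fun c hc v => by simp only [map_smul, hf.sinv c hc, hψ.sinv c hc])
  have e2 := unfold_weight hΛ hψ (ψ' := {v : V n | ((M⁻¹ : GG n) : Op n) v ∈ Neg n}.indicator
      fun v => ψ (((M⁻¹ : GG n) : Op n) v))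
    (χ := {v : V n | ((M⁻¹ : GG n) : Op n) v ∈ Neg n}.indicator 1) (hm.indicator hS)
    (fun c hc v => by
      by_cases hv : ((M⁻¹ : GG n) : Op n) v ∈ Neg n
      · rw [Set.indicator_of_mem (show c • v ∈ {v : V n | ((M⁻¹ : GG n) : Op n) v ∈ Neg n} by
          rw [Set.mem_ofPred_eq, map_smul]; exact smul_mem_Neg hc hv),
          Set.indicator_of_mem (show v ∈ {v : V n | ((M⁻¹ : GG n) : Op n) v ∈ Neg n} from hv),
          map_smul, hψ.sinv c hc]
      · rw [Set.indicator_of_notMem (show c • v ∉ {v : V n | ((M⁻¹ : GG n) : Op n) v ∈ Neg n} by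
          rw [Set.mem_ofPred_eq, map_smul, m2a_smul_iff hc]; exact hv),
          Set.indicator_of_notMem
            (show v ∉ {v : V n | ((M⁻¹ : GG n) : Op n) v ∈ Neg n} from hv)])
    (fun v _ => by
      have hg : ∀ g : Λ, ((g : GG n) : Op n) v ∈ {v : V n | ((M⁻¹ : GG n) : Op n) v ∈ Neg n} ↔
          ((M⁻¹ : GG n) : Op n) v ∈ Neg n := fun g => by
        rw [Set.mem_ofPred_eq, m2a_comm (hc g g.2), (hΛ.isom g g.2).mem_Neg]
      by_cases hv : ((M⁻¹ : GG n) : Op n) v ∈ Neg n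
      · rw [Set.indicator_of_mem (show v ∈ {v : V n | ((M⁻¹ : GG n) : Op n) v ∈ Neg n} from hv),
          Pi.one_apply, ← hψ.sum _ hv]
        refine tsum_congr fun g => ?_
        rw [Set.indicator_of_mem ((hg g).2 hv), m2a_comm (hc g g.2)]
      · rw [Set.indicator_of_notMem
          (show v ∉ {v : V n | ((M⁻¹ : GG n) : Op n) v ∈ Neg n} from hv)]
        refine (tsum_congr fun g => ?_).trans tsum_zero
        exact Set.indicator_of_notMem (fun h => hv ((hg g).1 h)) _) hf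
  calc ∫⁻ v, f ((M : Op n) v) * Jac (M : Op n) v * ψ v ∂(nu n)
      = ∫⁻ v, f ((M : Op n) v) * ψ (((M⁻¹ : GG n) : Op n) ((M : Op n) v)) *
          Jac (M : Op n) v ∂(nu n) := by
        refine lintegral_congr fun v => ?_
        rw [inv_apply_apply, mul_right_comm]
    _ = ∫⁻ v in {v | ((M⁻¹ : GG n) : Op n) v ∈ Neg n},
          f v * ψ (((M⁻¹ : GG n) : Op n) v) ∂(nu n) := e1
    _ = ∫⁻ v, f v * {v : V n | ((M⁻¹ : GG n) : Op n) v ∈ Neg n}.indicator
          (fun v => ψ (((M⁻¹ : GG n) : Op n) v)) v ∂(nu n) := by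
        rw [← lintegral_indicator hS]
        refine lintegral_congr fun v => ?_
        by_cases hv : v ∈ {v : V n | ((M⁻¹ : GG n) : Op n) v ∈ Neg n}
        · rw [Set.indicator_of_mem hv, Set.indicator_of_mem hv]
        · rw [Set.indicator_of_notMem hv, Set.indicator_of_notMem hv, mul_zero]
    _ = _ := e2
    _ = _ := by
        rw [← lintegral_indicator hS]
        refine lintegral_congr fun v => ?_
        by_cases hv : v ∈ {v : V n | ((M⁻¹ : GG n) : Op n) v ∈ Neg n}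
        · rw [Set.indicator_of_mem hv, Set.indicator_of_mem hv, Pi.one_apply, mul_one]
        · rw [Set.indicator_of_notMem hv, Set.indicator_of_notMem hv, mul_zero, zero_mul]

theorem lintegral_isomQ {Λ : Subgroup (GG n)} (hΛ : Proper Λ) {ψ f : V n → ℝ≥0∞}
    (hψ : IsWeight Λ ψ) {M : GG n} (hM : IsIsom (M : Op n))
    (hc : ∀ g ∈ Λ, Commute g M) (hf : InvF Λ f) :
    ∫⁻ v, f ((M : Op n) v) * ψ v ∂(nu n) = ∫⁻ v, f v * ψ v ∂(nu n) := by
  have hm : Measurable fun v => ψ (((M⁻¹ : GG n) : Op n) v) := hψ.meas.comp (m2a_meas _)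
  have e1 := lintegral_isom hM (f := fun v => f v * ψ (((M⁻¹ : GG n) : Op n) v))
    (hf.meas.mul hm) (fun c hc v => by simp only [map_smul, hf.sinv c hc, hψ.sinv c hc])
  have e2 := unfold_weight hΛ hψ (ψ' := fun v => ψ (((M⁻¹ : GG n) : Op n) v))
    (χ := fun _ => 1) hm (fun c hc v => by simp only [map_smul, hψ.sinv c hc])
    (fun v hv => by
      rw [← hψ.sum _ (hM.inv.mem_Neg.2 hv)]
      exact tsum_congr fun g => by rw [m2a_comm (hc g g.2)]) hf
  simp only [inv_apply_apply] at e1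
  simp only [mul_one] at e2
  exact e1.trans e2

end BallQ
end
end

-- merged part: Pool.Agent.Work.MP_72250f_ag.M2b
section
/-!
Weights and unfolding. unfold_weight: insert 1 = sum psi (g v), lintegral_tsum (Proper.countable), lintegral_isom, reindex by
inversion. lintegral_JQ: psi' v = indicator * psi (M^-1 v) has orbit sum the indicator; combine lintegral_J and unfold_weight.
exists_weight_sub: psi' v = sum over left cosets q of Lambda in Gamma of psi (q.out v). For unfold_le, single_le, rank_unfold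
decompose I into Gamma orbits (a MulAction of Gamma on the subtype I, or a setoid), for an orbit with representative F0 the
members are cnjS q.out F0 with q in Gamma / stab Gamma F0, and sum over q of the integral of f (cnjS q F0) psi is the integral
of f F0 psi' with psi' as above. rank_unfold: the infimum of the K F is reached by finitely many orbits (finite dimension),
codimension is subadditive. ball_le: sum over g of the indicator of the ball at g v is at most cnt (CC_tri_small).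
-/

open scoped ComplexConjugate ENNReal Topology
open MeasureTheory Filter

noncomputable section

namespace BallQ

variable {n : ℕ}

theorem m2b_sum {Λ Γ : Subgroup (GG n)} (h : Λ ≤ Γ) (φ : GG n → ℝ≥0∞) :
    ∑' g : Γ, φ g = ∑' q : Γ ⧸ Λ.subgroupOf Γ, ∑' l : Λ, φ ((q.out : Γ) * (l : GG n)) := by
  let e : (Γ ⧸ Λ.subgroupOf Γ) × Λ → Γ := fun p => p.1.out * ⟨p.2, h p.2.2⟩
  have h1 : ∀ p, (QuotientGroup.mk (e p) : Γ ⧸ Λ.subgroupOf Γ) = p.1 := by
    intro p
    exact (QuotientGroup.mk_mul_of_mem (s := Λ.subgroupOf Γ) (b := ⟨p.2, h p.2.2⟩) _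
      (Subgroup.mem_subgroupOf.mpr p.2.2)).trans (QuotientGroup.out_eq' _)
  have h2 : Function.Bijective e := by
    constructor
    · rintro ⟨q, l⟩ ⟨q', l'⟩ hh
      have h3 : q = q' := by
        have := h1 (q, l)
        rw [hh, h1] at this
        exact this.symm
      subst h3
      have h4 := mul_left_cancel hh
      exact Prod.ext rfl (Subtype.ext (congrArg (fun x : Γ => (x : GG n)) h4))
    · intro g
      have h3 : (QuotientGroup.mk g : Γ ⧸ Λ.subgroupOf Γ).out⁻¹ * g ∈ Λ.subgroupOf Γ :=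
        QuotientGroup.eq.mp (QuotientGroup.out_eq' _)
      refine ⟨(QuotientGroup.mk g, ⟨_, Subgroup.mem_subgroupOf.mp h3⟩), ?_⟩
      exact mul_inv_cancel_left _ _
  rw [← (Equiv.ofBijective e h2).tsum_eq, ENNReal.tsum_prod']
  rfl

theorem m2b_cnjS_mul (a b : GG n) (F : Set (Op n)) : cnjS (a * b) F = cnjS a (cnjS b F) := by
  simp only [cnjS, Set.image_image, cnj_mul]

theorem m2b_cnjS_one (F : Set (Op n)) : cnjS 1 F = F := by
  simp [cnjS]

theorem m2b_cone {S : Set (V n)} (hS : IsCone S) {c : ℂ} (hc : c ≠ 0) (v : V n) :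
    c • v ∈ S ↔ v ∈ S := by
  refine ⟨fun h => ?_, hS c hc v⟩
  have := hS c⁻¹ (inv_ne_zero hc) _ h
  rwa [smul_smul, inv_mul_cancel₀ hc, one_smul] at this

theorem m2b_ind {S T : Set (V n)} {f : V n → ℝ≥0∞} {v w : V n} (h : v ∈ S ↔ w ∈ T)
    (hf : f v = f w) : S.indicator f v = T.indicator f w := by
  by_cases hw : w ∈ T
  · rw [Set.indicator_of_mem hw, Set.indicator_of_mem (h.mpr hw), hf]
  · rw [Set.indicator_of_notMem hw, Set.indicator_of_notMem (fun hv => hw (h.mp hv))]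

theorem exists_weight_sub {Λ Γ : Subgroup (GG n)} (hΓ : Proper Γ) (h : Λ ≤ Γ)
    {ψ : V n → ℝ≥0∞} (hψ : IsWeight Γ ψ) : ∃ ψ', IsWeight Λ ψ' := by
  have := hΓ.countable
  have : Countable (Γ ⧸ Λ.subgroupOf Γ) := QuotientGroup.mk_surjective.countable
  refine ⟨fun v => ∑' q : Γ ⧸ Λ.subgroupOf Γ, ψ ((((q.out : Γ) : GG n) : Op n) v), ?_, ?_, ?_⟩
  · exact Measurable.tsum fun q => hψ.meas.comp (ContinuousLinearMap.continuous _).measurable
  · intro c hc v
    simp only [map_smul, hψ.sinv c hc]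
  · intro v hv
    rw [← hψ.sum v hv, m2b_sum h (fun g => ψ ((g : Op n) v)), ENNReal.tsum_comm]
    rfl

theorem lintegral_relIndex {Λ Γ : Subgroup (GG n)} (hΓ : Proper Γ) (h : Λ ≤ Γ)
    (hi : Λ.relIndex Γ ≠ 0) {ψ ψ' f : V n → ℝ≥0∞} (hψ : IsWeight Γ ψ) (hψ' : IsWeight Λ ψ')
    (hf : InvF Γ f) :
    ∫⁻ v, f v * ψ' v ∂(nu n) = (Λ.relIndex Γ : ℝ≥0∞) * ∫⁻ v, f v * ψ v ∂(nu n) := by
  have h1 : ∀ v ∈ Neg n, ∑' g : Γ, ψ' (((g : GG n) : Op n) v) = (Λ.relIndex Γ : ℝ≥0∞) := by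
    intro v hv
    rw [← (Equiv.inv Γ).tsum_eq]
    have h2 := m2b_sum h (fun g => ψ' (((g⁻¹ : GG n) : Op n) v))
    refine Eq.trans ?_ (h2.trans ?_)
    · rfl
    · have h3 : ∀ q : Γ ⧸ Λ.subgroupOf Γ, ∑' l : Λ,
          ψ' (((((q.out : Γ) * (l : GG n))⁻¹ : GG n) : Op n) v) = 1 := by
        intro q
        have h4 : ((((q.out : Γ) : GG n)⁻¹ : GG n) : Op n) v ∈ Neg n :=
          (hΓ.isom _ (q.out : Γ).2).inv.mem_Neg.mpr hv
        rw [← hψ'.sum _ h4, ← (Equiv.inv Λ).tsum_eq]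
        refine tsum_congr fun l => ?_
        simp [mul_apply_eq_comp]
      have : Finite (Γ ⧸ Λ.subgroupOf Γ) := Nat.finite_of_card_ne_zero hi
      have := Fintype.ofFinite (Γ ⧸ Λ.subgroupOf Γ)
      simp only [h3, tsum_fintype, Finset.sum_const, Finset.card_univ, nsmul_eq_mul, mul_one]
      rw [Subgroup.relIndex, Subgroup.index, Nat.card_eq_fintype_card]
  rw [unfold_weight hΓ hψ hψ'.meas hψ'.sinv (χ := fun _ => (Λ.relIndex Γ : ℝ≥0∞)) h1 hf,
    ← lintegral_const_mul _ (hf.meas.fun_mul hψ.meas)]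
  refine lintegral_congr fun v => ?_
  ring

theorem EqvF.invF {Γ : Subgroup (GG n)} {I : Set (Set (Op n))} {f : Set (Op n) → V n → ℝ≥0∞}
    (hf : EqvF Γ I f) {F : Set (Op n)} (hF : F ∈ I) : InvF (stab Γ F) (f F) := by
  refine ⟨hf.meas F hF, hf.sinv F hF, fun g hg v => ?_⟩
  have := hf.eqv g hg.1 F hF v
  rwa [hg.2] at this

theorem EqvF.invF_tsum {Γ : Subgroup (GG n)} {I : Set (Set (Op n))} (hI : InvI Γ I)
    {f : Set (Op n) → V n → ℝ≥0∞} (hf : EqvF Γ I f) : InvF Γ (fun v => ∑' F : I, f F v) := by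
  have := hI.1.to_subtype
  refine ⟨Measurable.tsum fun F => hf.meas F F.2, fun c hc v => ?_, fun g hg v => ?_⟩
  · exact tsum_congr fun F => hf.sinv F F.2 c hc v
  · let e : I ≃ I :=
      { toFun := fun F => ⟨cnjS g F, hI.2 g hg F F.2⟩
        invFun := fun F => ⟨cnjS g⁻¹ F, hI.2 _ (Γ.inv_mem hg) F F.2⟩
        left_inv := fun F => Subtype.ext (by
          simp only [← m2b_cnjS_mul, inv_mul_cancel, m2b_cnjS_one])
        right_inv := fun F => Subtype.ext (by
          simp only [← m2b_cnjS_mul, mul_inv_cancel, m2b_cnjS_one]) }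
    rw [← e.tsum_eq]
    exact tsum_congr fun F => hf.eqv g hg F F.2 v

theorem EqvS.region {Γ : Subgroup (GG n)} {I : Set (Set (Op n))} {S : Set (Op n) → Set (V n)}
    (hS : EqvS Γ I S) {F : Set (Op n)} (hF : F ∈ I) : Region (stab Γ F) (S F) := by
  refine ⟨hS.meas F hF, hS.neg F hF, hS.cone F hF, fun g hg v hv => ?_⟩
  have := (hS.eqv g hg.1 F hF v).mpr hv
  rwa [hg.2] at this

theorem EqvS.eqvF {Γ : Subgroup (GG n)} {I : Set (Set (Op n))} {S : Set (Op n) → Set (V n)}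
    (hS : EqvS Γ I S) {f : V n → ℝ≥0∞} (hf : InvF Γ f) :
    EqvF Γ I (fun F => (S F).indicator f) :=
  ⟨fun F hF => hf.meas.indicator (hS.meas F hF),
    fun F hF c hc v => m2b_ind (m2b_cone (hS.cone F hF) hc v) (hf.sinv c hc v),
    fun g hg F hF v => m2b_ind (hS.eqv g hg F hF v) (hf.inv g hg v)⟩

theorem Region.invF {Λ : Subgroup (GG n)} {S : Set (V n)} (hS : Region Λ S) {f : V n → ℝ≥0∞}
    (hf : InvF Λ f) : InvF Λ (S.indicator f) := by
  refine ⟨hf.meas.indicator hS.meas,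
    fun c hc v => m2b_ind (m2b_cone hS.cone hc v) (hf.sinv c hc v),
    fun g hg v => m2b_ind ⟨fun h => ?_, hS.inv g hg v⟩ (hf.inv g hg v)⟩
  have := hS.inv _ (Λ.inv_mem hg) _ h
  rwa [inv_apply_apply] at this

end BallQ
end
end

-- merged part: Pool.Agent.Work.MP_72250f_ag.M2c
section
/-!
Weights and unfolding. unfold_weight: insert 1 = sum psi (g v), lintegral_tsum (Proper.countable), lintegral_isom, reindex by
inversion. lintegral_JQ: psi' v = indicator * psi (M^-1 v) has orbit sum the indicator; combine lintegral_J and unfold_weight.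
exists_weight_sub: psi' v = sum over left cosets q of Lambda in Gamma of psi (q.out v). For unfold_le, single_le, rank_unfold
decompose I into Gamma orbits (a MulAction of Gamma on the subtype I, or a setoid), for an orbit with representative F0 the
members are cnjS q.out F0 with q in Gamma / stab Gamma F0, and sum over q of the integral of f (cnjS q F0) psi is the integral
of f F0 psi' with psi' as above. rank_unfold: the infimum of the K F is reached by finitely many orbits (finite dimension),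
codimension is subadditive. ball_le: sum over g of the indicator of the ball at g v is at most cnt (CC_tri_small).
-/

open scoped ComplexConjugate ENNReal Topology
open MeasureTheory Filter

noncomputable section

namespace BallQ

variable {n : ℕ}

theorem m2c_mul (a b : GG n) (F : Set (Op n)) : cnjS (a * b) F = cnjS a (cnjS b F) := by
  simp only [cnjS, Set.image_image, cnj_mul]

theorem m2c_one (F : Set (Op n)) : cnjS 1 F = F := by simp [cnjS]

open Classical in
theorem m2c_fibre {Γ : Subgroup (GG n)} (hΓ : Proper Γ) {F F₀ : Set (Op n)} {ψ' : V n → ℝ≥0∞}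
    (hψ' : IsWeight (stab Γ F₀) ψ') {v : V n} (hv : v ∈ Neg n) :
    ∑' g : Γ, (if cnjS g F = F₀ then ψ' (((g : GG n) : Op n) v) else 0) =
      if ∃ g ∈ Γ, cnjS g F = F₀ then 1 else 0 := by
  split_ifs with h
  · obtain ⟨g₀, hg₀, e⟩ := h
    rw [← (Equiv.mulRight (⟨g₀, hg₀⟩ : Γ)).tsum_eq,
      ← hψ'.sum _ ((hΓ.isom g₀ hg₀).mem_Neg.2 hv),
      ← (Subgroup.inclusion_injective (stab_le Γ F₀)).tsum_eq]
    · refine tsum_congr fun s => ?_
      have h1 : cnjS ((s : GG n) * g₀) F = F₀ := by rw [m2c_mul, e, s.2.2]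
      exact if_pos h1
    · intro g hg
      have h1 : cnjS ((g : GG n) * g₀) F = F₀ := by
        by_contra h1
        exact hg (if_neg h1)
      rw [m2c_mul, e] at h1
      exact ⟨⟨g, g.2, h1⟩, rfl⟩
  · exact ENNReal.tsum_eq_zero.2 fun g => if_neg fun e => h ⟨g, g.2, e⟩

open Classical in
theorem m2c_orbit {Γ : Subgroup (GG n)} (hΓ : Proper Γ) {ψ : V n → ℝ≥0∞} (hψ : IsWeight Γ ψ)
    {I : Set (Set (Op n))} (hI : InvI Γ I) {f : Set (Op n) → V n → ℝ≥0∞} (hf : EqvF Γ I f)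
    {F₀ : Set (Op n)} (hF : F₀ ∈ I) {ψ' : V n → ℝ≥0∞} (hψ' : IsWeight (stab Γ F₀) ψ') :
    ∫⁻ v, f F₀ v * ψ' v ∂(nu n) =
      ∫⁻ v, (∑' F : I, if ∃ g ∈ Γ, cnjS g F = F₀ then f F v else 0) * ψ v ∂(nu n) := by
  have h := unfold_weight hΓ hψ (ψ' := fun v => f F₀ v * ψ' v) (f := fun _ => 1)
    (χ := fun v => ∑' F : I, if ∃ g ∈ Γ, cnjS g F = F₀ then f F v else 0)
    ((hf.meas F₀ hF).mul hψ'.meas)
    (fun c hc v => by simp only [hf.sinv F₀ hF c hc v, hψ'.sinv c hc v]) (fun v hv => ?_)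
    ⟨measurable_const, fun _ _ _ => rfl, fun _ _ _ => rfl⟩
  · simpa only [one_mul] using h
  have h1 : ∀ g : Γ, f F₀ (((g : GG n) : Op n) v) * ψ' (((g : GG n) : Op n) v) =
      ∑' F : I, f F v * if cnjS g F = F₀ then ψ' (((g : GG n) : Op n) v) else 0 := fun g => by
    have e : cnjS g (cnjS (g : GG n)⁻¹ F₀) = F₀ := by rw [← m2c_mul, mul_inv_cancel, m2c_one]
    have hm := hI.2 _ (Γ.inv_mem g.2) _ hF
    rw [tsum_eq_single (⟨_, hm⟩ : I), if_pos e, ← hf.eqv g g.2 _ hm v, e]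
    intro F hF'
    rw [if_neg fun e' => hF' (Subtype.ext ?_), mul_zero]
    change F.1 = cnjS (g : GG n)⁻¹ F₀
    rw [← e', ← m2c_mul, inv_mul_cancel, m2c_one]
  rw [tsum_congr h1, ENNReal.tsum_comm]
  refine tsum_congr fun F => ?_
  rw [ENNReal.tsum_mul_left, m2c_fibre hΓ hψ' hv, mul_ite, mul_one, mul_zero]

/-- Decomposition of an invariant system into orbits. -/
theorem m2c_decomp {Γ : Subgroup (GG n)} (hΓ : Proper Γ) {ψ : V n → ℝ≥0∞} (hψ : IsWeight Γ ψ)
    {I : Set (Set (Op n))} (hI : InvI Γ I) : ∃ (Q : Type) (r : Q → I),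
      (∀ F ∈ I, ∃ q, ∃ g ∈ Γ, cnjS g F = r q) ∧
      ∀ f, EqvF Γ I f → ∀ ψ' : Q → V n → ℝ≥0∞, (∀ q, IsWeight (stab Γ (r q)) (ψ' q)) →
        ∫⁻ v, (∑' F : I, f F v) * ψ v ∂(nu n) = ∑' q, ∫⁻ v, f (r q) v * ψ' q v ∂(nu n) := by
  classical
  have := hI.1.to_subtype
  let s : Setoid I := ⟨fun F F' => ∃ g ∈ Γ, cnjS g F = F', fun F => ⟨1, one_mem _, m2c_one _⟩,
    fun ⟨g, hg, e⟩ => ⟨g⁻¹, inv_mem hg, by rw [← e, ← m2c_mul, inv_mul_cancel, m2c_one]⟩,
    fun ⟨g, hg, e⟩ ⟨g', hg', e'⟩ => ⟨g' * g, mul_mem hg' hg, by rw [m2c_mul, e, e']⟩⟩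
  have hs : ∀ (F : I) (q : Quotient s), (∃ g ∈ Γ, cnjS g F = q.out) ↔ q = Quotient.mk s F :=
    fun F q => by rw [eq_comm, Quotient.mk_eq_iff_out]; rfl
  refine ⟨Quotient s, Quotient.out, fun F hF => ⟨_, (hs ⟨F, hF⟩ _).2 rfl⟩, fun f hf ψ' hψ' => ?_⟩
  rw [tsum_congr fun q => m2c_orbit hΓ hψ hI hf (Quotient.out q).2 (hψ' q), ← lintegral_tsum]
  · refine lintegral_congr fun v => ?_
    rw [ENNReal.tsum_mul_right, ENNReal.tsum_comm]
    simp only [hs, tsum_ite_eq]
  · refine fun q => ((Measurable.tsum fun F => ?_).mul hψ.meas).aemeasurable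
    split_ifs
    · exact hf.meas F F.2
    · exact measurable_const

theorem unfold_le {Γ : Subgroup (GG n)} (hΓ : Proper Γ) {ψ : V n → ℝ≥0∞} (hψ : IsWeight Γ ψ)
    {I : Set (Set (Op n))} (hI : InvI Γ I) {f g : Set (Op n) → V n → ℝ≥0∞} (hf : EqvF Γ I f)
    (hg : EqvF Γ I g) (θ : ℝ≥0∞)
    (h : ∀ F ∈ I, ∀ ψ', IsWeight (stab Γ F) ψ' →
      ∫⁻ v, f F v * ψ' v ∂(nu n) ≤ θ * ∫⁻ v, g F v * ψ' v ∂(nu n)) :
    ∫⁻ v, (∑' F : I, f F v) * ψ v ∂(nu n) ≤ θ * ∫⁻ v, (∑' F : I, g F v) * ψ v ∂(nu n) := by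
  obtain ⟨Q, r, -, hr⟩ := m2c_decomp hΓ hψ hI
  choose ψ' hψ' using fun q => exists_weight_sub hΓ (stab_le Γ (r q)) hψ
  rw [hr f hf ψ' hψ', hr g hg ψ' hψ', ← ENNReal.tsum_mul_left]
  exact ENNReal.tsum_le_tsum fun q => h _ (r q).2 _ (hψ' q)

theorem single_le {Γ : Subgroup (GG n)} (hΓ : Proper Γ) {ψ : V n → ℝ≥0∞} (hψ : IsWeight Γ ψ)
    {I : Set (Set (Op n))} (hI : InvI Γ I) {f : Set (Op n) → V n → ℝ≥0∞} (hf : EqvF Γ I f)
    {F : Set (Op n)} (hF : F ∈ I) {ψ' : V n → ℝ≥0∞} (hψ' : IsWeight (stab Γ F) ψ') :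
    ∫⁻ v, f F v * ψ' v ∂(nu n) ≤ ∫⁻ v, (∑' F : I, f F v) * ψ v ∂(nu n) := by
  rw [m2c_orbit hΓ hψ hI hf hF hψ']
  refine lintegral_mono fun v => mul_le_mul_left (ENNReal.tsum_le_tsum fun F => ?_) _
  split_ifs
  · exact le_rfl
  · exact zero_le

end BallQ
end
end

-- merged part: Pool.Agent.Work.MP_72250f_ag.M2
section
/-!
Weights and unfolding. unfold_weight: insert 1 = sum psi (g v), lintegral_tsum (Proper.countable), lintegral_isom, reindex by
inversion. lintegral_JQ: psi' v = indicator * psi (M^-1 v) has orbit sum the indicator; combine lintegral_J and unfold_weight.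
exists_weight_sub: psi' v = sum over left cosets q of Lambda in Gamma of psi (q.out v). For unfold_le, single_le, rank_unfold
decompose I into Gamma orbits (a MulAction of Gamma on the subtype I, or a setoid), for an orbit with representative F0 the
members are cnjS q.out F0 with q in Gamma / stab Gamma F0, and sum over q of the integral of f (cnjS q F0) psi is the integral
of f F0 psi' with psi' as above. rank_unfold: the infimum of the K F is reached by finitely many orbits (finite dimension),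
codimension is subadditive. ball_le: sum over g of the indicator of the ball at g v is at most cnt (CC_tri_small).
-/

open scoped ComplexConjugate ENNReal Topology
open MeasureTheory Filter

noncomputable section

namespace BallQ

variable {n : ℕ}

theorem m2_cnjS_mul (a b : GG n) (F : Set (Op n)) : cnjS (a * b) F = cnjS a (cnjS b F) := by
  simp only [cnjS, Set.image_image, cnj_mul]

theorem m2_rank {a a' k i : ℕ} (h : a' + k ≤ a + i) {m X Y : ℝ≥0∞} (hm : m ≠ ⊤)
    (h1 : a * m ≤ a' * m + X) (h2 : a * m ≤ k * m + Y) : a * m ≤ i * m + (X + Y) := by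
  have h3 : (a' : ℝ≥0∞) + k ≤ a + i := by exact_mod_cast h
  refine (ENNReal.add_le_add_iff_left (ENNReal.mul_ne_top (ENNReal.natCast_ne_top a) hm)).1 ?_
  calc a * m + a * m ≤ (a' * m + X) + (k * m + Y) := add_le_add h1 h2
    _ = (a' + k) * m + (X + Y) := by ring
    _ ≤ (a + i) * m + (X + Y) := by gcongr
    _ = a * m + (i * m + (X + Y)) := by ring

theorem rank_unfold {Γ : Subgroup (GG n)} (hΓ : Proper Γ) {ψ : V n → ℝ≥0∞} (hψ : IsWeight Γ ψ)
    {I : Set (Set (Op n))} (hI : InvI Γ I) {g : Set (Op n) → V n → ℝ≥0∞} (hg : EqvF Γ I g)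
    (A : Submodule ℂ (V n → ℂ)) [FiniteDimensional ℂ A] (K : Set (Op n) → Submodule ℂ (V n → ℂ))
    (hK : ∀ F ∈ I, K F ≤ A) (hKe : ∀ γ ∈ Γ, ∀ F ∈ I, K (cnjS γ F) = K F) (m : ℝ≥0∞)
    (hm : m ≠ ⊤)
    (h : ∀ F ∈ I, ∀ ψ', IsWeight (stab Γ F) ψ' → (Module.finrank ℂ A : ℝ≥0∞) * m ≤
      (Module.finrank ℂ (K F) : ℝ≥0∞) * m + ∫⁻ v, g F v * ψ' v ∂(nu n)) :
    ∃ A' : Submodule ℂ (V n → ℂ), A' ≤ A ∧ (∀ F ∈ I, A' ≤ K F) ∧
      (Module.finrank ℂ A : ℝ≥0∞) * m ≤
        (Module.finrank ℂ A' : ℝ≥0∞) * m + ∫⁻ v, (∑' F : I, g F v) * ψ v ∂(nu n) := by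
  have key : ∀ (d : ℕ) (A' : Submodule ℂ (V n → ℂ)), Module.finrank ℂ A' = d → A' ≤ A →
      (Module.finrank ℂ A : ℝ≥0∞) * m ≤ (Module.finrank ℂ A' : ℝ≥0∞) * m +
        ∫⁻ v, (∑' F : {F | F ∈ I ∧ A' ≤ K F}, g F v) * ψ v ∂(nu n) →
      ∃ A' : Submodule ℂ (V n → ℂ), A' ≤ A ∧ (∀ F ∈ I, A' ≤ K F) ∧
        (Module.finrank ℂ A : ℝ≥0∞) * m ≤
          (Module.finrank ℂ A' : ℝ≥0∞) * m + ∫⁻ v, (∑' F : I, g F v) * ψ v ∂(nu n) := by
    intro d
    induction d using Nat.strong_induction_on with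
    | _ d ih =>
    intro A' hd hA h1
    by_cases h2 : ∀ F ∈ I, A' ≤ K F
    · refine ⟨A', hA, h2, h1.trans (add_le_add le_rfl (lintegral_mono fun v => ?_))⟩
      exact mul_le_mul_left (ENNReal.tsum_mono_subtype (fun F => g F v) fun F hF => hF.1) _
    push Not at h2
    obtain ⟨F₀, hF, h2⟩ := h2
    have := Submodule.finiteDimensional_of_le hA
    have := Submodule.finiteDimensional_of_le (hK F₀ hF)
    obtain ⟨ψ', hψ'⟩ := exists_weight_sub hΓ (stab_le Γ F₀) hψ
    let O : Set (Set (Op n)) := {F | ∃ γ ∈ Γ, F = cnjS γ F₀}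
    have hO : O ⊆ I := by
      rintro _ ⟨γ, hγ, rfl⟩
      exact hI.2 γ hγ F₀ hF
    have hOK : ∀ F ∈ O, K F = K F₀ := by
      rintro _ ⟨γ, hγ, rfl⟩
      exact hKe γ hγ F₀ hF
    have h3 := single_le hΓ hψ (I := O) ⟨hI.1.mono hO, by
        rintro a ha _ ⟨γ, hγ, rfl⟩
        exact ⟨a * γ, Γ.mul_mem ha hγ, (m2_cnjS_mul a γ F₀).symm⟩⟩
      ⟨fun F h => hg.meas F (hO h), fun F h => hg.sinv F (hO h),
        fun a ha F h => hg.eqv a ha F (hO h)⟩ ⟨1, Γ.one_mem, by simp [cnjS]⟩ hψ'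
    have h4 := Submodule.finrank_sup_add_finrank_inf_eq A' (K F₀)
    have h5 := Submodule.finrank_mono (sup_le hA (hK F₀ hF))
    refine ih _ (hd ▸ Submodule.finrank_lt_finrank_of_lt (inf_lt_left.2 h2)) (A' ⊓ K F₀) rfl
      (inf_le_left.trans hA) ((m2_rank (by omega) hm h1
        ((h F₀ hF ψ' hψ').trans (add_le_add le_rfl h3))).trans (add_le_add le_rfl
          ((le_lintegral_add _ _).trans (lintegral_mono fun v => ?_))))
    have h6 : Disjoint {F | F ∈ I ∧ A' ≤ K F} O :=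
      Set.disjoint_left.2 fun F h h' => h2 (hOK F h' ▸ h.2)
    rw [← add_mul, ← ENNReal.summable.tsum_union_disjoint (f := fun F => g F v) h6 ENNReal.summable]
    refine mul_le_mul_left (ENNReal.tsum_mono_subtype (fun F => g F v) ?_) _
    rintro F (h | h)
    · exact ⟨h.1, inf_le_left.trans h.2⟩
    · exact ⟨hO h, inf_le_right.trans (hOK F h).ge⟩
  exact key _ A rfl le_rfl le_self_add

theorem ball_le {Λ : Subgroup (GG n)} (hΛ : Proper Λ) {ψ f : V n → ℝ≥0∞} (hψ : IsWeight Λ ψ)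
    (hf : InvF Λ f) {S : Set (V n)} (hS : Region Λ S) {x : V n} (hx : x ∈ Neg n) {δ : ℝ}
    (h0 : 0 ≤ δ) (h1 : δ ≤ 1) (hb : ∀ y ∈ Neg n, CC x y ≤ 1 + δ → y ∈ S) :
    ∫⁻ v in {v | CC x v ≤ 1 + δ}, f v ∂(nu n) ≤
      cnt Λ x (1 + 8 * δ) * ∫⁻ v in S, f v * ψ v ∂(nu n) := by
  classical
  have hB : MeasurableSet {v | CC x v ≤ 1 + δ} := by
    have := (measurable_CC (n := n)).comp (measurable_prodMk_left (x := x))
    exact measurableSet_le (by simpa only [Function.comp_def] using this) measurable_const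
  have h2 := unfold_weight hΛ hψ (ψ' := {v | CC x v ≤ 1 + δ}.indicator 1)
    (measurable_one.indicator hB)
    (fun c hc v => by simp only [Set.indicator_apply, Set.mem_ofPred_eq, CC_smul_right hc]; rfl)
    (fun v _ => rfl) hf
  simp only [← Set.indicator_mul_right _ f (1 : V n → ℝ≥0∞), Pi.one_apply, mul_one] at h2
  rw [← lintegral_indicator hB, h2, ← lintegral_indicator hS.meas,
    ← lintegral_const_mul _ ((hf.meas.fun_mul hψ.meas).indicator hS.meas)]
  refine lintegral_mono_ae (ae_nu.mono fun v hv => ?_)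
  by_cases h3 : ∃ g₀ : Λ, CC x (((g₀ : GG n) : Op n) v) ≤ 1 + δ
  swap
  · push Not at h3
    rw [ENNReal.tsum_eq_zero.2 fun g => Set.indicator_of_notMem (s := {v | CC x v ≤ 1 + δ})
      (h3 g).not_ge _, mul_zero, zero_mul]
    exact zero_le
  obtain ⟨g₀, h3⟩ := h3
  have i0 := hΛ.isom _ g₀.2
  have h4 : v ∈ S := by
    have := hS.inv _ (Λ.inv_mem g₀.2) _ (hb _ (i0.mem_Neg.2 hv.1) h3)
    rwa [inv_apply_apply] at this
  rw [Set.indicator_of_mem h4, mul_right_comm, mul_comm]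
  refine mul_le_mul_left ?_ _
  refine le_trans (ENNReal.tsum_le_tsum fun g => ?_) ((Equiv.mulRight g₀⁻¹).tsum_eq _).le
  by_cases h5 : CC x (((g : GG n) : Op n) v) ≤ 1 + δ
  · have i1 := hΛ.isom _ g.2
    have e : (((Equiv.mulRight g₀⁻¹ g : Λ) : GG n) : Op n) x =
        ((g : GG n) : Op n) ((((g₀ : GG n)⁻¹ : GG n) : Op n) x) := rfl
    rw [if_pos]
    · exact Set.indicator_le_self' (fun _ _ => zero_le) _
    rw [e]
    refine CC_tri_small hx (i1.mem_Neg.2 hv.1) (i1.mem_Neg.2 (i0.inv.mem_Neg.2 hx)) h0 h1 h5 ?_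
    rwa [i1.CC_apply, ← i0.CC_apply, apply_inv_apply, CC_comm]
  · rw [Set.indicator_of_notMem (s := {v | CC x v ≤ 1 + δ}) h5]
    exact zero_le

end BallQ
end
end

-- merged part: Pool.Agent.Work.MP_72250f_ag.M3a
section
/-!
massF is the integral over the ball of (1 - |z|^2)^(w - n - 1) (lintegral_nu, CC_oo_lift). schur: for z with
CC (g y) z <= 2 one has CC x z <= 8 CC x (g y) (CC_tri); integrate CC x z ^ -(n+1) over these balls, which have a fixed
positive measure (lintegral_isom) and overlap at most cnt y 9 times. exists_weight: psi = phi / sum phi (g v) on Neg, 0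
outside, phi v = CC oo v ^ -(n+1). weight_ne_top: unfold_weight with psi' the indicator of the cone over D, whose orbit sum is at
least 1. ae_free: the eigenvectors of a nonscalar g lie in finitely many proper subspaces (nu_submodule).
thick_cocpt: for thick points x_1..x_l with CC x_i (g x_j) > 16 for all g and i, j distinct the invariant regions
Gamma.{CC x_i . <= 2} are disjoint and each has weighted volume at least nu(ball) / (m zc) (ball_le with f = 1, cnt_thick);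
so l is bounded, take a maximal family.
-/

open scoped ComplexConjugate ENNReal Topology
open MeasureTheory Filter

noncomputable section

namespace BallQ

variable {n : ℕ}

theorem m3a_meas (x : V n) : Measurable fun v : V n => CC x v := by
  have := (measurable_CC (n := n)).comp (measurable_prodMk_left (x := x))
  simpa only [Function.comp_def] using this

theorem m3a_measF (x : V n) (w : ℕ) :
    Measurable fun v : V n => ENNReal.ofReal ((CC x v)⁻¹ ^ w) :=
  (((m3a_meas x).inv).pow_const w).ennreal_ofReal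

theorem m3a_measB (x : V n) (r : ℝ) : MeasurableSet {v : V n | CC x v ≤ r} :=
  measurableSet_le (m3a_meas x) measurable_const

/-- Integrals of functions of the distance to `x` do not depend on `x`. -/
theorem m3a_radial {x : V n} (hx : x ∈ Neg n) {φ : ℝ → ℝ≥0∞} (hφ : Measurable φ) :
    ∫⁻ v, φ (CC x v) ∂(nu n) = ∫⁻ v, φ (CC (oo n) v) ∂(nu n) := by
  obtain ⟨h, hh, c, hc, rfl⟩ := exists_isom hx
  have h1 := lintegral_isom hh (f := fun v => φ (CC (c • (h : Op n) (oo n)) v))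
    (hφ.comp (m3a_meas _)) (fun a ha v => by simp only [CC_smul_right ha])
  rw [← h1]
  simp only [CC_smul_left hc, hh.CC_apply]

theorem massF_ne_top {w : ℕ} (hw : n + 1 ≤ w) : massF n w ≠ ⊤ := by
  rw [massF, lintegral_nu (m3a_measF _ w)]
  refine ne_top_of_le_ne_top (b := ∫⁻ _ in Metric.ball (0 : E n) 1, 1) ?_ ?_
  · rw [setLIntegral_one]
    exact measure_ball_lt_top.ne
  · refine setLIntegral_mono' measurableSet_ball fun z hz => ?_
    have h0 : 0 < 1 - ‖z‖ ^ 2 := by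
      rw [← NN_lift]; exact lift_mem_Neg.mpr hz
    have h1 : 1 - ‖z‖ ^ 2 ≤ 1 := by linarith [sq_nonneg ‖z‖]
    rw [CC_oo_lift, inv_inv, dens, ← ENNReal.ofReal_mul (by positivity)]
    refine ENNReal.ofReal_le_one.mpr ?_
    rw [inv_pow, inv_mul_le_iff₀ (by positivity), mul_one]
    exact pow_le_pow_of_le_one h0.le h1 hw

theorem mass0_le (w : ℕ) (δ : ℝ) : mass0 n w δ ≤ massF n w := by
  exact setLIntegral_le_lintegral _ _

theorem mass0_ne_zero (w : ℕ) {δ : ℝ} (hδ : 0 < δ) : mass0 n w δ ≠ 0 := by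
  let O : Set (V n) := Neg n ∩ (fun v => CC (oo n) v) ⁻¹' Set.Iio (1 + δ)
  have hcont : ContinuousOn (fun v => CC (oo n) v) (Neg n) :=
    (continuousOn_CC (n := n)).comp (f := fun v => (oo n, v)) (by fun_prop)
      fun v hv => ⟨oo_mem_Neg, hv⟩
  have hO : IsOpen O := hcont.isOpen_inter_preimage isOpen_Neg isOpen_Iio
  have hc : IsCone O := fun c hc v hv =>
    ⟨smul_mem_Neg hc hv.1, by simpa only [Set.mem_preimage, CC_smul_right hc] using hv.2⟩
  have hne : (O ∩ Neg n).Nonempty :=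
    ⟨oo n, ⟨oo_mem_Neg, by
      simp only [Set.mem_preimage, CC_self oo_mem_Neg, Set.mem_Iio]; linarith⟩, oo_mem_Neg⟩
  have h0 := nu_open_ne_zero hO hc hne
  have h1 : ENNReal.ofReal ((1 + δ)⁻¹ ^ w) * nu n O ≤ mass0 n w δ := by
    rw [← setLIntegral_const]
    refine le_trans (setLIntegral_mono' hO.measurableSet fun v hv => ?_)
      (lintegral_mono_set (s := O) fun v hv => (show CC (oo n) v < 1 + δ from hv.2).le)
    have h2 := one_le_CC oo_mem_Neg hv.1
    have h3 : CC (oo n) v < 1 + δ := hv.2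
    refine ENNReal.ofReal_le_ofReal (pow_le_pow_left₀ (by positivity) ?_ _)
    exact inv_anti₀ (by linarith) h3.le
  intro h
  rw [h, nonpos_iff_eq_zero, mul_eq_zero] at h1
  rcases h1 with h1 | h1
  · exact absurd (ENNReal.ofReal_eq_zero.mp h1) (not_le.mpr (by positivity))
  · exact h0 h1

theorem lintegral_CC_pow {x : V n} (hx : x ∈ Neg n) (w : ℕ) :
    ∫⁻ v, ENNReal.ofReal ((CC x v)⁻¹ ^ w) ∂(nu n) = massF n w := by
  exact m3a_radial hx (φ := fun t => ENNReal.ofReal (t⁻¹ ^ w))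
    ((measurable_inv.pow_const w).ennreal_ofReal)

theorem m3a_ball {x : V n} (hx : x ∈ Neg n) (w : ℕ) (δ : ℝ) :
    ∫⁻ v, {v | CC x v ≤ 1 + δ}.indicator (fun v => ENNReal.ofReal ((CC x v)⁻¹ ^ w)) v ∂(nu n) =
      mass0 n w δ := by
  rw [mass0, ← lintegral_indicator (m3a_measB _ _)]
  exact m3a_radial hx (φ := (Set.Iic (1 + δ)).indicator fun t => ENNReal.ofReal (t⁻¹ ^ w))
    (((measurable_inv.pow_const w).ennreal_ofReal).indicator measurableSet_Iic)

theorem m3a_overlap {Γ : Subgroup (GG n)} (hΓ : Proper Γ) {y v : V n} (hy : y ∈ Neg n)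
    (hv : v ∈ Neg n) :
    ∑' g : Γ, {v | CC (((g : GG n) : Op n) y) v ≤ 1 + 1}.indicator (1 : V n → ℝ≥0∞) v ≤
      cnt Γ y 9 := by
  classical
  by_cases h3 : ∃ g₀ : Γ, CC (((g₀ : GG n) : Op n) y) v ≤ 1 + 1
  swap
  · push Not at h3
    refine le_trans (le_of_eq (b := 0) (ENNReal.tsum_eq_zero.2 fun g : Γ => ?_)) zero_le
    exact Set.indicator_of_notMem (s := {v | CC (((g : GG n) : Op n) y) v ≤ 1 + 1})
      (h3 g).not_ge _
  obtain ⟨g₀, h3⟩ := h3
  have i0 := hΓ.isom _ g₀.2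
  refine le_trans (ENNReal.tsum_le_tsum fun g => ?_) ((Equiv.mulLeft g₀⁻¹).tsum_eq _).le
  by_cases h5 : CC (((g : GG n) : Op n) y) v ≤ 1 + 1
  · have i1 := hΓ.isom _ g.2
    have e : (((Equiv.mulLeft g₀⁻¹ g : Γ) : GG n) : Op n) y =
        ((((g₀ : GG n)⁻¹ : GG n) : Op n) (((g : GG n) : Op n) y)) := rfl
    rw [if_pos]
    · exact Set.indicator_le_self' (fun _ _ => zero_le) _
    rw [e, ← i0.CC_apply, apply_inv_apply]
    have := CC_tri_small (i0.mem_Neg.2 hy) hv (i1.mem_Neg.2 hy) zero_le_one le_rfl h3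
      (by rwa [CC_comm])
    linarith
  · rw [Set.indicator_of_notMem (s := {v | CC (((g : GG n) : Op n) y) v ≤ 1 + 1}) h5]
    exact zero_le

theorem schur (n : ℕ) : ∃ c : ℝ≥0∞, c ≠ ⊤ ∧ ∀ Γ : Subgroup (GG n), Proper Γ → ∀ x ∈ Neg n,
    ∀ y ∈ Neg n, ∑' g : Γ, ENNReal.ofReal ((CC x (((g : GG n) : Op n) y))⁻¹ ^ (n + 1)) ≤
      c * cnt Γ y 9 := by
  have hF : massF n (n + 1) ≠ ⊤ := massF_ne_top le_rfl
  have hm0 : mass0 n (n + 1) 1 ≠ 0 := mass0_ne_zero _ one_pos
  have hmt : mass0 n (n + 1) 1 ≠ ⊤ := ne_top_of_le_ne_top hF (mass0_le _ _)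
  refine ⟨ENNReal.ofReal (4 ^ (n + 1)) * massF n (n + 1) / mass0 n (n + 1) 1,
    ENNReal.div_ne_top (ENNReal.mul_ne_top ENNReal.ofReal_ne_top hF) hm0, ?_⟩
  intro Γ hΓ x hx y hy
  have := hΓ.countable
  let B : Γ → Set (V n) := fun g => {v | CC (((g : GG n) : Op n) y) v ≤ 1 + 1}
  let F : V n → ℝ≥0∞ := fun v =>
    ENNReal.ofReal (4 ^ (n + 1)) * ENNReal.ofReal ((CC x v)⁻¹ ^ (n + 1))
  have hFm : Measurable F := (m3a_measF x _).const_mul _
  have hBm : ∀ g, Measurable fun v => (B g).indicator (1 : V n → ℝ≥0∞) v * F v :=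
    fun g => (measurable_one.indicator (m3a_measB _ _)).mul hFm
  have h1 : ∀ g : Γ, ENNReal.ofReal ((CC x (((g : GG n) : Op n) y))⁻¹ ^ (n + 1)) *
      mass0 n (n + 1) 1 ≤ ∫⁻ v, (B g).indicator (1 : V n → ℝ≥0∞) v * F v ∂(nu n) := by
    intro g
    have hgy : ((g : GG n) : Op n) y ∈ Neg n := (hΓ.isom _ g.2).mem_Neg.2 hy
    rw [← m3a_ball hgy, ← lintegral_const_mul _ ((m3a_measF _ _).indicator (m3a_measB _ _))]
    refine lintegral_mono_ae (ae_nu.mono fun v hv => ?_)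
    by_cases h5 : v ∈ B g
    · have a1 := one_le_CC hx hgy
      have a2 := one_le_CC hgy hv.1
      have a3 := one_le_CC hx hv.1
      have a4 := CC_tri hx hgy hv.1
      rw [Set.indicator_of_mem h5, Set.indicator_of_mem h5, Pi.one_apply, one_mul]
      simp only [F]
      rw [← ENNReal.ofReal_mul (by positivity), ← ENNReal.ofReal_mul (by positivity), ← mul_pow,
        ← mul_pow]
      refine ENNReal.ofReal_le_ofReal (pow_le_pow_left₀ (by positivity) ?_ _)
      rw [← mul_inv, ← div_eq_mul_inv, inv_eq_one_div, div_le_div_iff₀ (by positivity)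
        (by positivity)]
      linarith
    · rw [Set.indicator_of_notMem h5, mul_zero]
      exact zero_le
  have h2 : (∑' g : Γ, ENNReal.ofReal ((CC x (((g : GG n) : Op n) y))⁻¹ ^ (n + 1))) *
      mass0 n (n + 1) 1 ≤ ENNReal.ofReal (4 ^ (n + 1)) * massF n (n + 1) * cnt Γ y 9 := by
    rw [← ENNReal.tsum_mul_right]
    refine (ENNReal.tsum_le_tsum h1).trans ?_
    rw [← lintegral_tsum fun g => (hBm g).aemeasurable, ← lintegral_CC_pow hx,
      ← lintegral_const_mul _ (m3a_measF x _), ← lintegral_mul_const _ hFm]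
    refine lintegral_mono_ae (ae_nu.mono fun v hv => ?_)
    rw [ENNReal.tsum_mul_right, mul_comm]
    exact mul_le_mul_right (m3a_overlap hΓ hy hv.1) _
  rw [div_eq_mul_inv, mul_right_comm, ← div_eq_mul_inv,
    ENNReal.le_div_iff_mul_le (Or.inl hm0) (Or.inl hmt)]
  exact h2

end BallQ
end
end

-- merged part: Pool.Agent.Work.MP_72250f_ag.M3b
section
/-!
massF is the integral over the ball of (1 - |z|^2)^(w - n - 1) (lintegral_nu, CC_oo_lift). schur: for z with
CC (g y) z <= 2 one has CC x z <= 8 CC x (g y) (CC_tri); integrate CC x z ^ -(n+1) over these balls, which have a fixed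
positive measure (lintegral_isom) and overlap at most cnt y 9 times. exists_weight: psi = phi / sum phi (g v) on Neg, 0
outside, phi v = CC oo v ^ -(n+1). weight_ne_top: unfold_weight with psi' the indicator of the cone over D, whose orbit sum is at
least 1. ae_free: the eigenvectors of a nonscalar g lie in finitely many proper subspaces (nu_submodule).
thick_cocpt: for thick points x_1..x_l with CC x_i (g x_j) > 16 for all g and i, j distinct the invariant regions
Gamma.{CC x_i . <= 2} are disjoint and each has weighted volume at least nu(ball) / (m zc) (ball_le with f = 1, cnt_thick);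
so l is bounded, take a maximal family.
-/

open scoped ComplexConjugate ENNReal Topology
open MeasureTheory Filter

noncomputable section

namespace BallQ

variable {n : ℕ}

theorem m3b_measurable_proj : Measurable (proj : V n → E n) := by
  unfold proj
  refine (PiLp.continuous_toLp 2 _).measurable.comp (measurable_pi_lambda _ fun i => ?_)
  exact (continuous_co _).measurable.div (continuous_co _).measurable

theorem m3b_invF_one (Γ : Subgroup (GG n)) : InvF Γ (fun _ : V n => (1 : ℝ≥0∞)) :=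
  ⟨measurable_const, fun _ _ _ => rfl, fun _ _ _ => rfl⟩

theorem m3b_ae_zero {Γ : Subgroup (GG n)} (hΓ : Proper Γ) {ψ f : V n → ℝ≥0∞}
    (hψ : IsWeight Γ ψ) (hf : InvF Γ f) (h : ∫⁻ v, f v * ψ v ∂(nu n) = 0) :
    ∀ᵐ v ∂(nu n), f v = 0 := by
  have h1 := unfold_weight hΓ hψ (ψ' := fun _ => 1) (χ := fun _ => ∑' _ : Γ, (1 : ℝ≥0∞))
    measurable_const (fun _ _ _ => rfl) (fun _ _ => rfl) hf
  have hm : Measurable fun v => f v * ψ v := hf.meas.mul hψ.meas
  rw [lintegral_eq_zero_iff hm] at h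
  have h2 : ∫⁻ v, f v * (∑' _ : Γ, (1 : ℝ≥0∞)) * ψ v ∂(nu n) = 0 := by
    rw [← lintegral_zero (μ := nu n)]
    refine lintegral_congr_ae ?_
    filter_upwards [h] with v hv
    have hv' : f v * ψ v = 0 := hv
    rw [mul_right_comm, hv', zero_mul]
  rw [h2] at h1
  simp only [mul_one] at h1
  exact (lintegral_eq_zero_iff hf.meas).mp h1

theorem exists_weight {Γ : Subgroup (GG n)} (hΓ : Proper Γ) : ∃ ψ, IsWeight Γ ψ := by
  have := hΓ.countable
  obtain ⟨c, hc, hs⟩ := schur n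
  let φ : V n → ℝ≥0∞ := fun v => ENNReal.ofReal ((CC (oo n) v)⁻¹ ^ (n + 1))
  let Φ : V n → ℝ≥0∞ := fun v => ∑' g : Γ, φ (((g : GG n) : Op n) v)
  have mφ : Measurable φ := by
    have h0 : Measurable fun v : V n => ((oo n, v) : V n × V n) :=
      measurable_const.prodMk measurable_id
    have h1 : Measurable fun v : V n => CC (oo n) v := by
      have := measurable_CC.comp h0
      exact this
    exact (h1.inv.pow_const _).ennreal_ofReal
  have mΦ : Measurable Φ :=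
    Measurable.tsum fun g => mφ.comp ((g : GG n) : Op n).continuous.measurable
  have sφ : SInv φ := fun a ha v => by simp only [φ, CC_smul_right ha]
  have sΦ : SInv Φ := fun a ha v => by
    simp only [Φ, map_smul]
    exact tsum_congr fun g => sφ a ha _
  have iΦ : ∀ (g : Γ) (v : V n), Φ (((g : GG n) : Op n) v) = Φ v := by
    intro g v
    simp only [Φ]
    rw [← (Equiv.mulRight g).tsum_eq (fun h : Γ => φ (((h : GG n) : Op n) v))]
    rfl
  refine ⟨fun v => φ v / Φ v, mφ.div mΦ, fun a ha v => by simp only [sφ a ha v, sΦ a ha v], ?_⟩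
  intro v hv
  have h1 : Φ v ≠ ⊤ :=
    ne_top_of_le_ne_top (ENNReal.mul_ne_top hc (cnt_ne_top hΓ hv 9)) (hs Γ hΓ _ oo_mem_Neg v hv)
  have h2 : Φ v ≠ 0 := by
    have h3 : φ v ≤ Φ v := ENNReal.le_tsum (f := fun g : Γ => φ (((g : GG n) : Op n) v)) 1
    have h4 : 0 < φ v := by
      have := one_le_CC oo_mem_Neg hv
      simp only [φ]
      rw [ENNReal.ofReal_pos]
      positivity
    exact (h4.trans_le h3).ne'
  simp only [iΦ, div_eq_mul_inv]
  rw [ENNReal.tsum_mul_right]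
  exact ENNReal.mul_inv_cancel h2 h1

theorem weight_ne_top {Γ : Subgroup (GG n)} (hΓ : Proper Γ) (hc : FinCov Γ) {ψ : V n → ℝ≥0∞}
    (hψ : IsWeight Γ ψ) : ∫⁻ v, ψ v ∂(nu n) ≠ ⊤ := by
  obtain ⟨D, hD, -, hfin, hcov⟩ := hc
  let ψ' : V n → ℝ≥0∞ := (proj ⁻¹' D).indicator 1
  have m1 : Measurable ψ' := measurable_one.indicator (m3b_measurable_proj hD)
  have s1 : SInv ψ' := by
    intro a ha v
    by_cases hv : v ∈ proj ⁻¹' D
    · have hv' : a • v ∈ proj ⁻¹' D := by rwa [Set.mem_preimage, proj_smul ha]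
      simp only [ψ', Set.indicator_of_mem hv, Set.indicator_of_mem hv', Pi.one_apply]
    · have hv' : a • v ∉ proj ⁻¹' D := by rwa [Set.mem_preimage, proj_smul ha]
      simp only [ψ', Set.indicator_of_notMem hv, Set.indicator_of_notMem hv']
  have h1 := unfold_weight hΓ hψ (χ := fun v => ∑' g : Γ, ψ' (((g : GG n) : Op n) v)) m1 s1
    (fun _ _ => rfl) (m3b_invF_one Γ)
  simp only [one_mul] at h1
  refine ne_top_of_le_ne_top hfin.ne (le_trans ?_ (h1.symm.le.trans ?_))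
  · refine lintegral_mono_ae ?_
    filter_upwards [ae_nu] with v hv
    obtain ⟨g, hg, hgD⟩ := hcov _ (proj_mem_ball hv.1)
    have e : lift (proj v) = v := by
      have := lift_proj (co_none_ne_zero hv.1)
      rwa [hv.2, one_smul] at this
    rw [act, e] at hgD
    have h2 : ψ' ((g : Op n) v) = 1 := Set.indicator_of_mem (s := proj ⁻¹' D) hgD _
    have h3 : (1 : ℝ≥0∞) ≤ ∑' g : Γ, ψ' (((g : GG n) : Op n) v) :=
      h2.symm.le.trans (ENNReal.le_tsum (f := fun g : Γ => ψ' (((g : GG n) : Op n) v)) ⟨g, hg⟩)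
    calc ψ v = 1 * ψ v := (one_mul _).symm
      _ ≤ _ := mul_le_mul_left h3 _
  · rw [lintegral_nu m1, ← lintegral_indicator hD]
    refine (setLIntegral_le_lintegral _ _).trans (lintegral_mono fun z => ?_)
    by_cases hz : z ∈ D
    · simp [ψ', hz]
    · simp [ψ', hz]

theorem weight_ne_zero {Γ : Subgroup (GG n)} (hΓ : Proper Γ) {ψ : V n → ℝ≥0∞}
    (hψ : IsWeight Γ ψ) : ∫⁻ v, ψ v ∂(nu n) ≠ 0 := by
  intro h
  have h1 := m3b_ae_zero hΓ hψ (m3b_invF_one Γ) (by simpa using h)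
  have h2 : nu n Set.univ = 0 := by simpa [ae_iff] using h1
  exact nu_open_ne_zero isOpen_univ (fun _ _ _ _ => trivial) ⟨oo n, trivial, oo_mem_Neg⟩ h2

/-- An invariant density with zero weighted integral vanishes almost everywhere. -/
theorem ae_zero_of_weight {Γ : Subgroup (GG n)} (hΓ : Proper Γ) {ψ f : V n → ℝ≥0∞}
    (hψ : IsWeight Γ ψ) (hf : InvF Γ f) (h : ∫⁻ v, f v * ψ v ∂(nu n) = 0) :
    ∀ᵐ v ∂(nu n), f v = 0 := by
  exact m3b_ae_zero hΓ hψ hf h

theorem ae_free {Γ : Subgroup (GG n)} (hΓ : Proper Γ) : ∀ᵐ x ∂(nu n), x ∈ Neg n ∧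
    ∀ g ∈ Γ, (∃ c : ℂ, (g : Op n) x = c • x) → IsScalar (g : Op n) := by
  have := hΓ.countable
  have h1 : ∀ g : Γ, ∀ᵐ x ∂(nu n), x ≠ 0 → (∃ c : ℂ, ((g : GG n) : Op n) x = c • x) →
      IsScalar ((g : GG n) : Op n) := by
    intro g
    by_cases hg : IsScalar ((g : GG n) : Op n)
    · exact Eventually.of_forall fun _ _ _ => hg
    let T : Module.End ℂ (V n) := (((g : GG n) : Op n) : V n →ₗ[ℂ] V n)
    have hfin : Set.Finite {c : ℂ | T.HasEigenvalue c} := T.finite_hasEigenvalue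
    have h0 : nu n (⋃ c ∈ {c : ℂ | T.HasEigenvalue c}, (T.eigenspace c : Set (V n))) = 0 := by
      rw [measure_biUnion_null_iff hfin.countable]
      intro c _
      refine nu_submodule _ fun htop => hg ⟨c, ?_⟩
      ext1 v
      have hv : v ∈ T.eigenspace c := by
        rw [htop]
        trivial
      exact Module.End.mem_eigenspace_iff.mp hv
    filter_upwards [measure_eq_zero_iff_ae_notMem.mp h0] with x hx hx0 ⟨c, hc⟩
    exfalso
    have hv : x ∈ T.eigenspace c := Module.End.mem_eigenspace_iff.mpr hc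
    exact hx (Set.mem_biUnion (Module.End.hasEigenvalue_of_hasEigenvector ⟨hv, hx0⟩) hv)
  filter_upwards [ae_nu, ae_all_iff.mpr h1] with x hx hx'
  exact ⟨hx.1, fun g hg => hx' ⟨g, hg⟩ (ne_zero_of_mem_Neg hx.1)⟩

end BallQ
end
end

-- merged part: Pool.Agent.Work.MP_72250f_ag.M3
section
/-!
massF is the integral over the ball of (1 - |z|^2)^(w - n - 1) (lintegral_nu, CC_oo_lift). schur: for z with
CC (g y) z <= 2 one has CC x z <= 8 CC x (g y) (CC_tri); integrate CC x z ^ -(n+1) over these balls, which have a fixed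
positive measure (lintegral_isom) and overlap at most cnt y 9 times. exists_weight: psi = phi / sum phi (g v) on Neg, 0
outside, phi v = CC oo v ^ -(n+1). weight_ne_top: unfold_weight with psi' the indicator of the cone over D, whose orbit sum is at
least 1. ae_free: the eigenvectors of a nonscalar g lie in finitely many proper subspaces (nu_submodule).
thick_cocpt: for thick points x_1..x_l with CC x_i (g x_j) > 16 for all g and i, j distinct the invariant regions
Gamma.{CC x_i . <= 2} are disjoint and each has weighted volume at least nu(ball) / (m zc) (ball_le with f = 1, cnt_thick);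
so l is bounded, take a maximal family.
-/

open scoped ComplexConjugate ENNReal Topology
open MeasureTheory Filter

noncomputable section

namespace BallQ

variable {n : ℕ}

theorem m3_meas_ball (x : V n) (r : ℝ) : MeasurableSet {v : V n | CC x v ≤ r} := by
  have h0 : Measurable fun v : V n => ((x, v) : V n × V n) := measurable_prodMk_left
  have h1 := (measurable_CC (n := n)).comp h0
  have h : Measurable fun v : V n => CC x v := by
    simpa only [Function.comp_def] using h1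
  exact measurableSet_le h measurable_const

theorem m3_ball_eq {x : V n} (hx : x ∈ Neg n) :
    ∫⁻ _v in {v | CC x v ≤ 1 + 1}, (1 : ℝ≥0∞) ∂(nu n) = mass0 n 0 1 := by
  obtain ⟨h, hh, c, hc, rfl⟩ := exists_isom hx
  have hm := m3_meas_ball (c • (h : Op n) (oo n)) (1 + 1)
  have key := lintegral_isom hh
    (f := ({v | CC (c • (h : Op n) (oo n)) v ≤ 1 + 1} : Set (V n)).indicator fun _ => (1 : ℝ≥0∞))
    (measurable_const.indicator hm) (by
      intro a ha v
      simp only [Set.indicator, Set.mem_ofPred_eq, CC_smul_right ha])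
  rw [← lintegral_indicator hm, ← key, mass0, ← lintegral_indicator (m3_meas_ball (oo n) (1 + 1))]
  refine lintegral_congr fun v => ?_
  simp only [Set.indicator, Set.mem_ofPred_eq, CC_smul_left hc, hh.CC_apply, pow_zero,
    ENNReal.ofReal_one]

/-- The saturation of the ball around `x`. -/
def m3_reg (Γ : Subgroup (GG n)) (x : V n) : Set (V n) :=
  {v | v ∈ Neg n ∧ ∃ g ∈ Γ, CC x ((g : Op n) v) ≤ 1 + 1}

theorem m3_region {Γ : Subgroup (GG n)} (hΓ : Proper Γ) (x : V n) : Region Γ (m3_reg Γ x) := by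
  refine ⟨?_, fun v hv => hv.1, ?_, ?_⟩
  · have := hΓ.countable
    have h : m3_reg Γ x = Neg n ∩ ⋃ g : Γ, ((g : GG n) : Op n) ⁻¹' {v | CC x v ≤ 1 + 1} := by
      ext v
      simp only [m3_reg, Set.mem_ofPred_eq, Set.mem_inter_iff, Set.mem_iUnion, Set.mem_preimage,
        Subtype.exists, exists_prop]
    rw [h]
    refine isOpen_Neg.measurableSet.inter (MeasurableSet.iUnion fun g => ?_)
    exact ((g : GG n) : Op n).continuous.measurable (m3_meas_ball x _)
  · rintro c hc v ⟨hv, g, hg, h⟩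
    refine ⟨smul_mem_Neg hc hv, g, hg, ?_⟩
    rwa [map_smul, CC_smul_right hc]
  · rintro a ha v ⟨hv, g, hg, h⟩
    refine ⟨(hΓ.isom a ha).mem_Neg.mpr hv, g * a⁻¹, Γ.mul_mem hg (Γ.inv_mem ha), ?_⟩
    rwa [Units.val_mul, mul_apply_eq_comp, inv_apply_apply]

theorem m3_close {Γ : Subgroup (GG n)} (hΓ : Proper Γ) {x y v : V n} (hx : x ∈ Neg n)
    (hy : y ∈ Neg n) (h1 : v ∈ m3_reg Γ x) (h2 : v ∈ m3_reg Γ y) :
    ∃ g ∈ Γ, CC x ((g : Op n) y) ≤ 16 := by
  obtain ⟨hv, a, ha, h1⟩ := h1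
  obtain ⟨-, b, hb, h2⟩ := h2
  have hab : a * b⁻¹ ∈ Γ := Γ.mul_mem ha (Γ.inv_mem hb)
  refine ⟨a * b⁻¹, hab, ?_⟩
  have hav : (a : Op n) v ∈ Neg n := (hΓ.isom a ha).mem_Neg.mpr hv
  have hgy : ((a * b⁻¹ : GG n) : Op n) y ∈ Neg n := (hΓ.isom _ hab).mem_Neg.mpr hy
  have h3 : CC ((a : Op n) v) (((a * b⁻¹ : GG n) : Op n) y) = CC y ((b : Op n) v) := by
    rw [CC_comm y, ← (hΓ.isom _ hab).CC_apply ((b : Op n) v) y]
    congr 1
    rw [Units.val_mul, mul_apply_eq_comp, inv_apply_apply]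
  have h4 := CC_tri hx hav hgy
  have h5 := one_le_CC hx hav
  have h6 := one_le_CC hav hgy
  rw [h3] at h4 h6
  nlinarith

theorem thick_cocpt {Γ : Subgroup (GG n)} (hΓ : Proper Γ) {ψ : V n → ℝ≥0∞} (hψ : IsWeight Γ ψ)
    (hv : ∫⁻ v, ψ v ∂(nu n) ≠ ⊤) (ε : ℝ) (hε : 0 < ε) : Cocpt Γ (Thick Γ ε) := by
  classical
  obtain ⟨m, hm⟩ := cnt_thick n (1 + 8 * 1) hε
  have hb := mass0_ne_zero (n := n) 0 (δ := 1) one_pos
  set K : ℝ≥0∞ := m * zc Γ with hK
  have hKt : K ≠ ⊤ := ENNReal.mul_ne_top (ENNReal.natCast_ne_top m) (zc_ne_top hΓ)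
  have hone : InvF Γ (fun _ => (1 : ℝ≥0∞)) :=
    ⟨measurable_const, fun _ _ _ => rfl, fun _ _ _ => rfl⟩
  have hlow : ∀ x ∈ Thick Γ ε, mass0 n 0 1 ≤ K * ∫⁻ v in m3_reg Γ x, ψ v ∂(nu n) := by
    intro x hx
    have h := ball_le hΓ hψ hone (m3_region hΓ x) hx.1 (δ := 1) zero_le_one le_rfl
      (fun y hy h => ⟨hy, 1, Γ.one_mem, by rwa [Units.val_one, one_apply_eq_self]⟩)
    rw [m3_ball_eq hx.1] at h
    simp only [one_mul] at h
    exact h.trans (by gcongr; exact hm Γ hΓ x hx)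
  -- separated families
  let P : Finset (V n) → Prop := fun T => (∀ x ∈ T, x ∈ Thick Γ ε) ∧
    (T : Set (V n)).PairwiseDisjoint (m3_reg Γ)
  have hcard : ∀ T, P T → (T.card : ℝ≥0∞) * mass0 n 0 1 ≤ K * ∫⁻ v, ψ v ∂(nu n) := by
    intro T hT
    calc (T.card : ℝ≥0∞) * mass0 n 0 1 = ∑ _x ∈ T, mass0 n 0 1 := by
          rw [Finset.sum_const, nsmul_eq_mul]
      _ ≤ ∑ x ∈ T, K * ∫⁻ v in m3_reg Γ x, ψ v ∂(nu n) :=
          Finset.sum_le_sum fun x hx => hlow x (hT.1 x hx)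
      _ = K * ∫⁻ v in ⋃ x ∈ T, m3_reg Γ x, ψ v ∂(nu n) := by
          rw [← Finset.mul_sum, lintegral_biUnion_finset hT.2 fun x _ => (m3_region hΓ x).meas]
      _ ≤ K * ∫⁻ v, ψ v ∂(nu n) := by
          gcongr
          exact Measure.restrict_le_self
  have hfin : K * (∫⁻ v, ψ v ∂(nu n)) / mass0 n 0 1 ≠ ⊤ :=
    ENNReal.div_ne_top (ENNReal.mul_ne_top hKt hv) hb
  obtain ⟨N, hN⟩ := ENNReal.exists_nat_gt hfin
  have hbd : ∀ T, P T → T.card ≤ N := by
    intro T hT
    have h1 : (T.card : ℝ≥0∞) ≤ K * (∫⁻ v, ψ v ∂(nu n)) / mass0 n 0 1 := by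
      rw [ENNReal.le_div_iff_mul_le (Or.inl hb) (Or.inr (ENNReal.mul_ne_top hKt hv))]
      exact hcard T hT
    exact_mod_cast (h1.trans hN.le)
  have hex : ∃ T, P T ∧ ∀ T', P T' → T'.card ≤ T.card := by
    let Q : ℕ → Prop := fun k => ∃ T, P T ∧ T.card = k
    have h0 : Q 0 := ⟨∅, ⟨by simp, by simp⟩, rfl⟩
    obtain ⟨T, hT, hk⟩ : Q (Nat.findGreatest Q N) := Nat.findGreatest_spec (Nat.zero_le N) h0
    refine ⟨T, hT, fun T' hT' => ?_⟩
    rw [hk]
    exact Nat.le_findGreatest (hbd T' hT') ⟨T', hT', rfl⟩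
  obtain ⟨T, hT, hmax⟩ := hex
  refine ⟨∑ y ∈ T, 4 * CC (oo n) y * 16, fun x hx => ?_⟩
  have hnear : ∃ y ∈ T, ∃ g ∈ Γ, CC y ((g : Op n) x) ≤ 16 := by
    by_contra hcon
    have hxT : x ∉ T := fun h => hcon ⟨x, h, 1, Γ.one_mem, by
      rw [Units.val_one, one_apply_eq_self, CC_self hx.1]
      norm_num⟩
    have hdis : ∀ y ∈ T, Disjoint (m3_reg Γ x) (m3_reg Γ y) := by
      intro y hy
      rw [Set.disjoint_left]
      intro v h1 h2
      exact hcon ⟨y, hy, m3_close hΓ (hT.1 y hy).1 hx.1 h2 h1⟩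
    have hP : P (insert x T) := by
      refine ⟨fun y hy => ?_, ?_⟩
      · rcases Finset.mem_insert.mp hy with rfl | hy
        · exact hx
        · exact hT.1 y hy
      · rw [Finset.coe_insert]
        exact hT.2.insert fun y hy _ => hdis y hy
    have := hmax _ hP
    rw [Finset.card_insert_of_notMem hxT] at this
    omega
  obtain ⟨y, hy, g, hg, h⟩ := hnear
  refine ⟨g, hg, ?_⟩
  have hyN := (hT.1 y hy).1
  have hgx : (g : Op n) x ∈ Neg n := (hΓ.isom g hg).mem_Neg.mpr hx.1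
  have h1 := CC_tri oo_mem_Neg hyN hgx
  have h2 := one_le_CC oo_mem_Neg hyN
  calc CC (oo n) ((g : Op n) x) ≤ 4 * CC (oo n) y * 16 := by nlinarith
    _ ≤ ∑ y ∈ T, 4 * CC (oo n) y * 16 := by
        refine Finset.single_le_sum (f := fun y => 4 * CC (oo n) y * 16) (fun z hz => ?_) hy
        have := one_le_CC oo_mem_Neg (hT.1 z hz).1
        positivity

end BallQ
end
end

-- merged part: Pool.Agent.Work.MP_72250f_ag.DefsE
section
/-! Definitions for the extension theorem. -/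

open scoped ComplexConjugate ENNReal Topology
open MeasureTheory Filter

noncomputable section

namespace BallQ

variable {n : ℕ}

/-- `ψ` identifies `Ω / Γ` with `S`, without ramification. -/
structure Unif (Γ : Subgroup (GG n)) (Ω : Set (E n)) (ψ : E n → E n) (S : Set (E n)) : Prop where
  isOpen : IsOpen Ω
  sub : Ω ⊆ Metric.ball 0 1
  inv : ∀ g ∈ Γ, ∀ z ∈ Ω, act (g : Op n) z ∈ Ω
  diff : DifferentiableOn ℂ ψ Ω
  det : ∀ z ∈ Ω, (fderiv ℂ ψ z).det ≠ 0
  fib : ∀ z ∈ Ω, ∀ z' ∈ Ω, ψ z = ψ z' ↔ ∃ g ∈ Γ, act (g : Op n) z = z'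
  image : ψ '' Ω = S

/-- A punctured product neighbourhood, straightened along the graph of `τ`, inside `S`. -/
structure Straight (S : Set (E n)) (b e : E n) (l : E n →L[ℂ] ℂ) (r ρ : ℝ) (τ : E n → ℂ) :
    Prop where
  le : l e = 1
  rpos : 0 < r
  ρpos : 0 < ρ
  diff : DifferentiableOn ℂ τ (Metric.ball 0 r)
  zero : τ 0 = 0
  mem : ∀ z : E n, l z = 0 → ‖z‖ < r → ∀ t : ℂ, t ≠ 0 → ‖t‖ < ρ → b + z + (t + τ z) • e ∈ S

/-- The universal covering of a straightened punctured neighbourhood. -/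
def chi (b e : E n) (l : E n →L[ℂ] ℂ) (τ : E n → ℂ) (z : E n) : E n :=
  b + (z - l z • e) + (Complex.exp (2 * Real.pi * Complex.I * l z) + τ (z - l z • e)) • e

end BallQ
end
end

-- merged part: Pool.Agent.Work.MP_72250f_ag.E2a
section
/-!
Local inverses and descent. local_inv: psi is C^1 (contDiffOn_of_differentiableOn), so strictly differentiable, with invertible derivative
(ContinuousLinearMap.toContinuousLinearEquivOfDetNeZero); HasStrictFDerivAt.toOpenPartialHomeomorph or ContDiffAt.toOpenPartialHomeomorph, restricted to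
Omega; the inverse is differentiable at every point of the target by OpenPartialHomeomorph.hasFDerivAt_symm (or HasFDerivAt.of_local_left_inverse).
differentiableOn_det_fderiv: entries z |-> (fderiv psi z (single j 1)) i are holomorphic (differentiableOn_fderiv_apply), LinearMap.det_toMatrix,
Matrix.det_apply. descent: s a = F (lift z) / det ^ k for any z over a. If z' = act g z then psi (act g x) = psi x near z, the chain rule and det_fderiv_act
(det g = 1) give det (D psi z') = det (D psi z) j^(n+1), j = co (g (lift z)) none, and F (lift z') = j^w F (lift z) by smul_lift_act, hom, Inv.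
-/

open scoped ComplexConjugate ENNReal Topology
open MeasureTheory Filter

noncomputable section

namespace BallQ

variable {n : ℕ}

theorem local_inv {Ω : Set (E n)} (hΩ : IsOpen Ω) {ψ : E n → E n} (hψ : DifferentiableOn ℂ ψ Ω)
    (hd : ∀ z ∈ Ω, (fderiv ℂ ψ z).det ≠ 0) {z : E n} (hz : z ∈ Ω) :
    ∃ c : OpenPartialHomeomorph (E n) (E n), z ∈ c.source ∧ c.source ⊆ Ω ∧
      (∀ x ∈ c.source, c x = ψ x) ∧ DifferentiableOn ℂ c.symm c.target := by
  have h1 : ContDiffAt ℂ (1 : ℕ) ψ z :=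
    (contDiffOn_of_differentiableOn hΩ hψ 1).contDiffAt (hΩ.mem_nhds hz)
  have h2 : ∀ x (hx : x ∈ Ω), HasFDerivAt ψ
      (((fderiv ℂ ψ x).toContinuousLinearEquivOfDetNeZero (hd x hx) : E n ≃L[ℂ] E n) :
        E n →L[ℂ] E n) x := fun x hx => by
    rw [ContinuousLinearMap.coe_toContinuousLinearEquivOfDetNeZero]
    exact (hψ.differentiableAt (hΩ.mem_nhds hx)).hasFDerivAt
  let c0 := h1.toOpenPartialHomeomorph ψ (h2 z hz) (by simp)
  refine ⟨c0.restrOpen Ω hΩ, ⟨h1.mem_toOpenPartialHomeomorph_source (h2 z hz) (by simp), hz⟩,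
    fun x hx => hx.2, fun x _ => rfl, fun y hy => ?_⟩
  have hy' := ((c0.restrOpen Ω hΩ).map_target hy).2
  exact ((c0.restrOpen Ω hΩ).hasFDerivAt_symm hy (h2 _ hy')).differentiableAt.differentiableWithinAt

theorem e2a_diff_prod {ι : Type*} (u : Finset ι) {f : ι → E n → ℂ} {Ω : Set (E n)}
    (hf : ∀ i, DifferentiableOn ℂ (f i) Ω) :
    DifferentiableOn ℂ (fun z => ∏ i ∈ u, f i z) Ω := by
  classical
  induction u using Finset.induction_on with
  | empty => simp
  | insert a u ha ih =>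
    simp only [Finset.prod_insert ha]
    exact (hf a).fun_mul ih

theorem differentiableOn_det_fderiv {Ω : Set (E n)} (hΩ : IsOpen Ω) {ψ : E n → E n}
    (hψ : DifferentiableOn ℂ ψ Ω) : DifferentiableOn ℂ (fun z => (fderiv ℂ ψ z).det) Ω := by
  simp only [m1a_det_E, Matrix.det_apply', Matrix.of_apply]
  refine DifferentiableOn.fun_sum fun σ _ => DifferentiableOn.const_mul ?_ _
  refine e2a_diff_prod _ fun i => ?_
  exact differentiableOn_euclidean.mp
    (differentiableOn_fderiv_apply hΩ hψ (EuclideanSpace.single i 1)) (σ i)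

theorem e2a_isOpen_image {Γ : Subgroup (GG n)} {Ω S W : Set (E n)} {ψ : E n → E n}
    (h : Unif Γ Ω ψ S) (hW : IsOpen W) (hWΩ : W ⊆ Ω) : IsOpen (ψ '' W) := by
  rw [isOpen_iff_mem_nhds]
  rintro _ ⟨z, hz, rfl⟩
  obtain ⟨c, hzc, hcW, hc, -⟩ := local_inv hW (h.diff.mono hWΩ) (fun x hx => h.det x (hWΩ hx)) hz
  have hzt : ψ z ∈ c.target := hc z hzc ▸ c.map_source hzc
  filter_upwards [c.open_target.mem_nhds hzt] with y hy
  exact ⟨c.symm y, hcW (c.map_target hy), by rw [← hc _ (c.map_target hy), c.right_inv hy]⟩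

theorem e2a_co_ne {Γ : Subgroup (GG n)} (hΓ : Proper Γ) {g : GG n} (hg : g ∈ Γ) {z : E n}
    (hz : z ∈ Metric.ball (0 : E n) 1) : co ((g : Op n) (lift z)) none ≠ 0 :=
  co_none_ne_zero ((hΓ.isom g hg).mem_Neg.mpr (lift_mem_Neg.mpr hz))

theorem e2a_psi_act {Γ : Subgroup (GG n)} {Ω S : Set (E n)} {ψ : E n → E n}
    (h : Unif Γ Ω ψ S) {g : GG n} (hg : g ∈ Γ) {z : E n} (hz : z ∈ Ω) :
    ψ (act (g : Op n) z) = ψ z :=
  ((h.fib z hz _ (h.inv g hg z hz)).mpr ⟨g, hg, rfl⟩).symm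

theorem Unif.isOpen_image {Γ : Subgroup (GG n)} {Ω S : Set (E n)} {ψ : E n → E n}
    (h : Unif Γ Ω ψ S) : IsOpen S := by
  rw [← h.image]
  exact e2a_isOpen_image h h.isOpen le_rfl

theorem descent {Γ : Subgroup (GG n)} (hΓ : Proper Γ) {Ω S : Set (E n)} {ψ : E n → E n}
    (h : Unif Γ Ω ψ S) {k : ℕ} {F : V n → ℂ} (hF : IsHol (k * (n + 1)) F) (hi : Inv Γ F) :
    ∃ s : E n → ℂ, DifferentiableOn ℂ s S ∧
      ∀ z ∈ Ω, s (ψ z) * (fderiv ℂ ψ z).det ^ k = F (lift z) := by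
  classical
  let φ : E n → ℂ := fun z => F (lift z) / (fderiv ℂ ψ z).det ^ k
  have hφ : DifferentiableOn ℂ φ Ω := by
    simp only [φ, div_eq_mul_inv]
    refine DifferentiableOn.fun_mul ?_ (((differentiableOn_det_fderiv h.isOpen h.diff).fun_pow
      k).fun_inv fun z hz => pow_ne_zero _ (h.det z hz))
    exact hF.diff.comp (fun z _ => (hasFDerivAt_lift z).differentiableAt.differentiableWithinAt)
      fun z hz => lift_mem_Neg.mpr (h.sub hz)
  have hinv : ∀ g ∈ Γ, ∀ z ∈ Ω, φ (act (g : Op n) z) = φ z := by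
    intro g hg z hz
    have hj := e2a_co_ne hΓ hg (h.sub hz)
    have hz' := h.inv g hg z hz
    have e1 : ψ =ᶠ[𝓝 z] fun x => ψ (act (g : Op n) x) := by
      filter_upwards [h.isOpen.mem_nhds hz] with x hx using (e2a_psi_act h hg hx).symm
    have e2 : fderiv ℂ ψ z =
        (fderiv ℂ ψ (act (g : Op n) z)).comp (fderiv ℂ (act (g : Op n)) z) := by
      rw [e1.fderiv_eq]
      exact fderiv_comp z (h.diff.differentiableAt (h.isOpen.mem_nhds hz')) (differentiableAt_act hj)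
    have e3 : (fderiv ℂ ψ z).det = (fderiv ℂ ψ (act (g : Op n) z)).det *
        (fderiv ℂ (act (g : Op n)) z).det := by
      rw [e2]
      exact LinearMap.det_comp _ _
    have e4 : F (lift z) = (co ((g : Op n) (lift z)) none)⁻¹ ^ (k * (n + 1)) *
        F (lift (act (g : Op n) z)) := by
      rw [← hF.hom _ hj, ← smul_lift_act hj, hi g hg]
    have hd := h.det _ hz'
    simp only [φ]
    rw [e4, e3, det_fderiv_act hj, hΓ.det g hg, mul_pow, div_pow, ← pow_mul, mul_comm (n + 1) k,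
      inv_pow, one_pow]
    field_simp
  let s : E n → ℂ := fun a => if ha : ∃ z ∈ Ω, ψ z = a then φ ha.choose else 0
  have hs : ∀ z ∈ Ω, s (ψ z) = φ z := by
    intro z hz
    have ha : ∃ z' ∈ Ω, ψ z' = ψ z := ⟨z, hz, rfl⟩
    obtain ⟨g, hg, e⟩ := (h.fib _ ha.choose_spec.1 z hz).mp ha.choose_spec.2
    simp only [s, dif_pos ha]
    rw [← hinv g hg _ ha.choose_spec.1, e]
  refine ⟨s, fun a ha => ?_, fun z hz => ?_⟩
  · rw [← h.image] at ha
    obtain ⟨z, hz, rfl⟩ := ha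
    obtain ⟨c, hzc, hcΩ, hc, hcd⟩ := local_inv h.isOpen h.diff h.det hz
    have hzt : ψ z ∈ c.target := hc z hzc ▸ c.map_source hzc
    have e1 : s =ᶠ[𝓝 (ψ z)] fun y => φ (c.symm y) := by
      filter_upwards [c.open_target.mem_nhds hzt] with y hy
      rw [← hs _ (hcΩ (c.map_target hy)), ← hc _ (c.map_target hy), c.right_inv hy]
    have e2 : DifferentiableOn ℂ (fun y => φ (c.symm y)) c.target :=
      hφ.comp hcd fun y hy => hcΩ (c.map_target hy)
    exact (e1.differentiableAt_iff.mpr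
      (e2.differentiableAt (c.open_target.mem_nhds hzt))).differentiableWithinAt
  · rw [hs z hz]
    exact div_mul_cancel₀ _ (pow_ne_zero _ (h.det z hz))

end BallQ
end
end

-- merged part: Pool.Agent.Work.MP_72250f_ag.DefsP
section
/-! The quotient map with ramification allowed. -/

open scoped ComplexConjugate ENNReal Topology
open MeasureTheory Filter

noncomputable section

namespace BallQ

variable {n : ℕ}

/-- `ψ` identifies `Ω / Γ` with `S` as complex spaces. -/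
structure QMap (Γ : Subgroup (GG n)) (Ω : Set (E n)) (ψ : E n → E n) (S : Set (E n)) : Prop where
  isOpen : IsOpen Ω
  sub : Ω ⊆ Metric.ball 0 1
  inv : ∀ g ∈ Γ, ∀ z ∈ Ω, act (g : Op n) z ∈ Ω
  diff : DifferentiableOn ℂ ψ Ω
  fib : ∀ z ∈ Ω, ∀ z' ∈ Ω, ψ z = ψ z' ↔ ∃ g ∈ Γ, act (g : Op n) z = z'
  image : ψ '' Ω = S
  isOpenMap : ∀ W ⊆ Ω, IsOpen W → IsOpen (ψ '' W)
  desc : ∀ W ⊆ S, IsOpen W → ∀ f : E n → ℂ, DifferentiableOn ℂ (f ∘ ψ) (Ω ∩ ψ ⁻¹' W) →
    DifferentiableOn ℂ f W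

/-- The stabiliser of a point of the ball. -/
def stabPt (Γ : Subgroup (GG n)) (z : E n) : Subgroup (GG n) where
  carrier := {g | g ∈ Γ ∧ ∃ c : ℂ, c ≠ 0 ∧ (g : Op n) (lift z) = c • lift z}
  one_mem' := ⟨Γ.one_mem, 1, one_ne_zero, by simp⟩
  mul_mem' := by
    rintro a b ⟨ha, c, hc, h⟩ ⟨hb, d, hd, h'⟩
    refine ⟨Γ.mul_mem ha hb, d * c, mul_ne_zero hd hc, ?_⟩
    change (a : Op n) ((b : Op n) (lift z)) = _
    rw [h', map_smul, h, smul_smul]
  inv_mem' := by
    rintro a ⟨ha, c, hc, h⟩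
    refine ⟨Γ.inv_mem ha, c⁻¹, inv_ne_zero hc, ?_⟩
    have h1 : ((a⁻¹ : GG n) : Op n) ((a : Op n) (lift z)) = lift z := by
      change (((a⁻¹ : GG n) : Op n) * (a : Op n)) (lift z) = lift z
      rw [Units.inv_mul]
      rfl
    rw [h, map_smul] at h1
    conv_rhs => rw [← h1]
    rw [smul_smul, inv_mul_cancel₀ hc, one_smul]

/-- The form `F` extends to a holomorphic `k`-canonical form on every local model. -/
def ExtP (Γ : Subgroup (GG n)) (k : ℕ) (F : V n → ℂ) : Prop :=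
  ∀ (U : Set (E n)) (h : E n → ℂ) (Ω : Set (E n)) (ψ : E n → E n), IsOpen U →
    DifferentiableOn ℂ h U → (∀ a ∈ U, ¬ ∀ᶠ x in 𝓝 a, h x = 0) →
    QMap Γ Ω ψ {a | a ∈ U ∧ h a ≠ 0} → ∃ s : E n → ℂ, DifferentiableOn ℂ s U ∧
      ∀ z ∈ Ω, s (ψ z) * (fderiv ℂ ψ z).det ^ k = F (lift z)

end BallQ
end
end

-- merged part: Pool.Agent.Work.MP_72250f_ag.P1a
section
/-!
Local structure of the quotient map. exists_nbhd: W = {x in the ball | CC (lift z) (lift x) < 1 + d}; it is invariant under stabPt (smul_lift_act, CC_smul, CC_apply),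
contained in O for small d (move z to 0 by exists_isom and use CC_oo_lift, or compactness: CC = 1 only at x = z by eq_smul_of_CC), and for x, act g x in W one has
CC (lift z) (g (lift z)) <= 1 + 8 d (CC_tri_small); the finitely many g with CC <= 9 (fin_two) outside stabPt have CC > 1 (eq_smul_of_CC).
descend_local: f a = D x for any x in W over a. Near a point act g x0 (x0 in W) one has f (psi x) = D (act g^-1 x); use desc.
det_ne_zero_of_free: with W from exists_nbhd psi is injective on W; descend_local for the coordinates gives f with f (psi x) = x on W; chain rule.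
dense_det: ae_free and nu_open_ne_zero (the cone over an open subset of the ball: {v in Neg | proj v in O}).
det_act: chain rule for psi (act g x) = psi x and det_fderiv_act.
-/

open scoped ComplexConjugate ENNReal Topology
open MeasureTheory Filter

noncomputable section

namespace BallQ

variable {n : ℕ}

theorem finite_stabPt {Γ : Subgroup (GG n)} (hΓ : Proper Γ) {z : E n}
    (hz : z ∈ Metric.ball (0 : E n) 1) : Finite (stabPt Γ z) := by
  have hz' := lift_mem_Neg.2 hz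
  refine ((hΓ.fin_two hz' hz' 1).subset ?_).to_subtype
  rintro g ⟨hg, c, hc, h⟩
  exact ⟨hg, by rw [h, CC_smul_right hc, CC_self hz']⟩

theorem p1a_gap {Γ : Subgroup (GG n)} (hΓ : Proper Γ) {z : E n}
    (hz : z ∈ Metric.ball (0 : E n) 1) : ∃ d : ℝ, 0 < d ∧ d ≤ 1 ∧
      ∀ g ∈ Γ, CC (lift z) ((g : Op n) (lift z)) ≤ 1 + 8 * d → g ∈ stabPt Γ z := by
  have hz' := lift_mem_Neg.2 hz
  have h1 : ∀ᶠ d : ℝ in 𝓝 0, ∀ g ∈ {g : GG n | g ∈ Γ ∧ CC (lift z) ((g : Op n) (lift z)) ≤ 9},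
      CC (lift z) ((g : Op n) (lift z)) ≤ 1 + 8 * d → g ∈ stabPt Γ z := by
    rw [Filter.eventually_all_finite (hΓ.fin_two hz' hz' 9)]
    rintro g ⟨hg, -⟩
    have hN := (hΓ.isom g hg).mem_Neg.2 hz'
    by_cases h : CC (lift z) ((g : Op n) (lift z)) ≤ 1
    · obtain ⟨c, hc⟩ := eq_smul_of_CC hz' hN h
      refine Eventually.of_forall fun d _ => ⟨hg, c, ?_, hc⟩
      rintro rfl
      exact ne_zero_of_mem_Neg hN (by rw [hc, zero_smul])
    · have h2 : (0 : ℝ) < (CC (lift z) ((g : Op n) (lift z)) - 1) / 8 := by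
        linarith [not_le.1 h]
      filter_upwards [gt_mem_nhds h2] with d hd h3
      linarith
  have h2 : ∀ᶠ d : ℝ in 𝓝[>] 0, 0 < d := self_mem_nhdsWithin
  obtain ⟨d, ⟨h3, h4⟩, h5⟩ := ((h2.and (nhdsWithin_le_nhds (ge_mem_nhds one_pos))).and
    (nhdsWithin_le_nhds h1)).exists
  have h4' : d ≤ 1 := h4
  exact ⟨d, h3, h4', fun g hg h => h5 g ⟨hg, by linarith⟩ h⟩

theorem exists_nbhd {Γ : Subgroup (GG n)} (hΓ : Proper Γ) {z : E n}
    (hz : z ∈ Metric.ball (0 : E n) 1) {O : Set (E n)} (hO : O ∈ 𝓝 z) :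
    ∃ W : Set (E n), IsOpen W ∧ z ∈ W ∧ W ⊆ O ∧ W ⊆ Metric.ball 0 1 ∧
      (∀ g ∈ stabPt Γ z, ∀ x ∈ W, act (g : Op n) x ∈ W) ∧
      ∀ g ∈ Γ, ∀ x ∈ W, act (g : Op n) x ∈ W → g ∈ stabPt Γ z := by
  have hz' := lift_mem_Neg.2 hz
  obtain ⟨d, hd0, hd1, hd⟩ := p1a_gap hΓ hz
  have hc : ContinuousOn (fun x : E n => CC (lift z) (lift x)) (Metric.ball 0 1) :=
    (continuousOn_CC (n := n)).comp (f := fun x : E n => (lift z, lift x))
      (continuous_const.prodMk continuous_lift).continuousOn fun x hx => ⟨hz', lift_mem_Neg.2 hx⟩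
  set W0 : Set (E n) := interior O ∩
    (Metric.ball 0 1 ∩ (fun x : E n => CC (lift z) (lift x)) ⁻¹' Set.Iio (1 + d)) with hW0
  have hW0o : IsOpen W0 :=
    isOpen_interior.inter (hc.isOpen_inter_preimage Metric.isOpen_ball isOpen_Iio)
  have hzW0 : z ∈ W0 := ⟨mem_interior_iff_mem_nhds.2 hO, hz, by
    simp only [Set.mem_preimage, Set.mem_Iio, CC_self hz']; linarith⟩
  have := finite_stabPt hΓ hz
  have hsub : ∀ x ∈ ⋂ g : stabPt Γ z,
      Metric.ball (0 : E n) 1 ∩ act ((g : GG n) : Op n) ⁻¹' W0, x ∈ W0 := by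
    intro x hx
    have := (Set.mem_iInter.1 hx 1).2
    rwa [Set.mem_preimage, OneMemClass.coe_one, Units.val_one, act_one] at this
  refine ⟨⋂ g : stabPt Γ z, Metric.ball 0 1 ∩ act ((g : GG n) : Op n) ⁻¹' W0, ?_, ?_, ?_, ?_, ?_, ?_⟩
  · refine isOpen_iInter_of_finite fun g => ?_
    refine ContinuousOn.isOpen_inter_preimage (fun x hx => ?_) Metric.isOpen_ball hW0o
    exact (differentiableAt_act (e2a_co_ne hΓ g.2.1 hx)).continuousAt.continuousWithinAt
  · refine Set.mem_iInter.2 fun g => ⟨hz, ?_⟩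
    obtain ⟨-, c, hc, h⟩ := g.2
    rw [Set.mem_preimage, act, h, proj_smul hc, proj_lift]
    exact hzW0
  · exact fun x hx => interior_subset (hsub x hx).1
  · exact fun x hx => (hsub x hx).2.1
  · intro g hg x hx
    have hxb := (hsub x hx).2.1
    refine Set.mem_iInter.2 fun g' => ⟨(hΓ.isom g hg.1).act_mem hxb, ?_⟩
    have := (Set.mem_iInter.1 hx (g' * ⟨g, hg⟩)).2
    rw [Set.mem_preimage, Subgroup.coe_mul, Units.val_mul, act_mul (e2a_co_ne hΓ hg.1 hxb)] at this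
    exact this
  · intro g hg x hx hgx
    obtain ⟨-, hxb, h1⟩ := hsub x hx
    obtain ⟨-, -, h2⟩ := hsub _ hgx
    have hi := hΓ.isom g hg
    have h0 := e2a_co_ne hΓ hg hxb
    refine hd g hg (CC_tri_small hz' (hi.mem_Neg.2 (lift_mem_Neg.2 hxb)) (hi.mem_Neg.2 hz')
      hd0.le hd1 ?_ ?_)
    · rw [smul_lift_act h0, CC_smul_right h0]
      exact le_of_lt h2
    · rw [hi.CC_apply, CC_comm]
      exact le_of_lt h1

theorem QMap.descend_local {Γ : Subgroup (GG n)} (hΓ : Proper Γ) {Ω S : Set (E n)}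
    {ψ : E n → E n} (h : QMap Γ Ω ψ S) {W : Set (E n)} (hW : IsOpen W) (hWΩ : W ⊆ Ω)
    {D : E n → ℂ} (hD : DifferentiableOn ℂ D W)
    (hinv : ∀ g ∈ Γ, ∀ x ∈ W, act (g : Op n) x ∈ W → D (act (g : Op n) x) = D x) :
    ∃ f : E n → ℂ, DifferentiableOn ℂ f (ψ '' W) ∧ ∀ x ∈ W, f (ψ x) = D x := by
  have : Nonempty (E n) := ⟨0⟩
  have key : ∀ x ∈ W, D (Function.invFunOn ψ W (ψ x)) = D x := by
    intro x hx
    have h1 : Function.invFunOn ψ W (ψ x) ∈ W := Function.invFunOn_mem ⟨x, hx, rfl⟩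
    have h2 : ψ (Function.invFunOn ψ W (ψ x)) = ψ x := Function.invFunOn_eq ⟨x, hx, rfl⟩
    obtain ⟨g, hg, h3⟩ := (h.fib x (hWΩ hx) _ (hWΩ h1)).1 h2.symm
    rw [← h3] at h1 ⊢
    exact hinv g hg x hx h1
  refine ⟨fun a => D (Function.invFunOn ψ W a), ?_, key⟩
  refine h.desc _ (h.image ▸ Set.image_mono hWΩ) (h.isOpenMap W hWΩ hW) _ ?_
  rintro y ⟨hy, x, hx, hxy⟩
  obtain ⟨g, hg, h3⟩ := (h.fib y hy x (hWΩ hx)).1 hxy.symm
  have ha := differentiableAt_act (e2a_co_ne hΓ hg (h.sub hy))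
  have hW' : W ∈ 𝓝 (act (g : Op n) y) := hW.mem_nhds (h3 ▸ hx)
  refine (((hD.differentiableAt hW').comp y ha).congr_of_eventuallyEq ?_).differentiableWithinAt
  filter_upwards [h.isOpen.mem_nhds hy, ha.continuousAt.preimage_mem_nhds hW'] with y' h4 h5
  have h6 : ψ y' = ψ (act (g : Op n) y') := (h.fib y' h4 _ (h.inv g hg y' h4)).2 ⟨g, hg, rfl⟩
  simp only [Function.comp_apply]
  rw [h6]
  exact key _ h5

end BallQ
end
end
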