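import Pool.Agent.Work.MP_72250f_ag.Z1
import Pool.Agent.Work.MP_72250f_ag.M3

-- merged part: Pool.Agent.Work.MP_72250f_ag.G3
section
-- merged part: Pool.Agent.Work.MP_72250f_ag.G3a
section
/-!
Canonical parts of a generator. For a frame F and w > 0 the eigenspace of F.op for w is spanned by the e_i with
w_i = w, and ker (M * M) is the common orthogonal of the e_i with w_i > 0. An operator commuting with M preserves these
spaces, hence commutes with F.spec S and with rk1 p p = M - M * spec univ. For two frames of the same M the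
projections agree on both kinds of vectors. gen_unique: c = 1 by nonpos_eig applied to a nonpositive vector of
ker M (p, or Frame.exists_neg when p = 0); then the eigenvectors e_j (w_j > 0) of the flow are eigenvectors of M' with the
same weight (exp (2 pi i w) is injective on [0,1)), and on their common orthogonal flow = 1 + 2 pi i M.
commute_gen_gen: M' commutes with flow M 1, so the isometries flow M' x (x real) commute with M; differentiate at x = 0.
-/

open scoped ComplexConjugate ENNReal Topology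
open MeasureTheory Filter

noncomputable section

namespace BallQ

variable {n : ℕ}

/-- Operators diagonal in a frame. -/
def g3a_T (F : Frame n) (w : Fin F.m → ℂ) (c : ℂ) : Op n :=
  ∑ i, w i • rk1 (F.e i) (F.e i) + c • rk1 F.p F.p

theorem g3a_mul (F : Frame n) (w w' : Fin F.m → ℂ) (c c' : ℂ) :
    g3a_T F w c * g3a_T F w' c' = g3a_T F (w * w') 0 := by
  have h : ∀ i, form (F.e i) F.p = 0 := fun i => form_eq_zero_comm.1 (F.pe i)
  simp [g3a_T, add_mul, mul_add, Finset.sum_mul, Finset.mul_sum, rk1_mul_rk1, F.on, F.pp, F.pe, h,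
    smul_smul, mul_comm]

theorem g3a_op (F : Frame n) : F.op = g3a_T F (fun i => F.w i) 1 := by
  rw [g3a_T, one_smul, Frame.op]

theorem g3a_nil (F : Frame n) : rk1 F.p F.p = g3a_T F 0 1 := by
  simp [g3a_T]

open Classical in
theorem g3a_spec (F : Frame n) (S : Set ℝ) :
    F.spec S = g3a_T F (fun i => if 0 < F.w i ∧ F.w i ∈ S then 1 else 0) 0 := by
  simp only [g3a_T, Frame.spec, ite_smul, one_smul, zero_smul, add_zero]

theorem g3a_zero (F : Frame n) : g3a_T F 0 0 = 0 := by
  simp [g3a_T]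

theorem g3a_form (F : Frame n) (w : Fin F.m → ℂ) (c : ℂ) (v : V n) (i : Fin F.m) :
    form (g3a_T F w c v) (F.e i) = w i * form v (F.e i) := by
  simp [g3a_T, form_add_left, form_sum_left, form_smul_left, F.on, F.pe]

theorem g3a_split (F : Frame n) : F.op = F.op * F.spec Set.univ + rk1 F.p F.p := by
  rw [g3a_spec, g3a_op, g3a_mul, g3a_T, g3a_T, zero_smul, add_zero, one_smul]
  refine congrArg (· + _) (Finset.sum_congr rfl fun i _ => ?_)
  rcases (F.w0 i).eq_or_lt with h | h
  · simp [← h]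
  · simp [h]

theorem g3a_ker (F : Frame n) (S : Set ℝ) {v : V n} (h : F.op (F.op v) = 0) :
    F.spec S v = 0 := by
  rw [Frame.spec, _root_.sum_apply]
  refine Finset.sum_eq_zero fun i _ => ?_
  have h1 := congrArg (form · (F.e i)) h
  simp only [g3a_op, g3a_form, form_zero_left, mul_eq_zero, Complex.ofReal_eq_zero] at h1
  split_ifs with h2
  · simp [(h1.resolve_left h2.1.ne').resolve_left h2.1.ne']
  · rfl

open Classical in
theorem g3a_eig (F : Frame n) (S : Set ℝ) {v : V n} {l : ℝ} (hl : 0 < l)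
    (h : F.op v = (l : ℂ) • v) : F.spec S v = if l ∈ S then v else 0 := by
  have hl' : (l : ℂ) ≠ 0 := Complex.ofReal_ne_zero.2 hl.ne'
  have h1 : ∀ i, form v (F.e i) ≠ 0 → F.w i = l := fun i hi => by
    have := congrArg (form · (F.e i)) h
    simp only [g3a_op, g3a_form, form_smul_left] at this
    exact_mod_cast mul_right_cancel₀ hi this
  have h2 : ∀ S, F.spec S v = if l ∈ S then F.spec Set.univ v else 0 := fun S => by
    simp only [Frame.spec, _root_.sum_apply]
    split_ifs with hS
    · refine Finset.sum_congr rfl fun i _ => ?_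
      by_cases hi : form v (F.e i) = 0
      · split_ifs <;> simp [hi]
      · simp [h1 i hi, hS]
    · refine Finset.sum_eq_zero fun i _ => ?_
      by_cases hi : form v (F.e i) = 0
      · split_ifs <;> simp [hi]
      · simp [h1 i hi, hS]
  have h3 : rk1 F.p F.p * F.op = 0 := by rw [g3a_nil, g3a_op, g3a_mul, zero_mul, g3a_zero]
  have h4 : F.op * F.spec Set.univ = F.spec Set.univ * F.op := by
    rw [g3a_spec, g3a_op, g3a_mul, g3a_mul, mul_comm]
  have h5 := congrArg (· v) h3
  have h6 := congrArg (· v) (g3a_split F)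
  simp only [h4, _root_.add_apply, mul_apply_eq_comp, h, map_smul,
    _root_.zero_apply, smul_eq_zero, hl', false_or] at h5 h6
  rw [h5, add_zero] at h6
  rw [h2, ← smul_right_injective _ hl' h6]

theorem g3a_inter {F F' : Frame n} {T : Op n} (h : T * F.op = F'.op * T) (S : Set ℝ) :
    T * F.spec S = F'.spec S * T := by
  have h0 : ∀ v, T (F.op v) = F'.op (T v) := fun v => congrArg (· v) h
  have h1 : F.op * (F.op * F.spec Set.univ) = F.op * F.op := by
    conv_rhs => rw [congrArg (F.op * ·) (g3a_split F)]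
    rw [mul_add, g3a_nil, g3a_op, g3a_mul _ _ 0, mul_zero, g3a_zero, add_zero]
  have h2 : T * F.spec S * F.spec Set.univ = F'.spec S * T * F.spec Set.univ := by
    change _ * ∑ i, _ = _ * ∑ i, _
    rw [Finset.mul_sum, Finset.mul_sum]
    refine Finset.sum_congr rfl fun i _ => ?_
    split_ifs with hi
    · have h3 : F.op (F.e i) = (F.w i : ℂ) • F.e i := by
        simp [F.op_apply, F.on, form_eq_zero_comm.1 (F.pe i)]
      rw [mul_rk1, mul_rk1, mul_apply_eq_comp, mul_apply_eq_comp,
        g3a_eig F S hi.1 h3, g3a_eig F' S hi.1 (by rw [← h0, h3, map_smul]), apply_ite T, map_zero]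
    · rw [mul_zero, mul_zero]
  ext v
  have h3 : F.op (F.op (v - F.spec Set.univ v)) = 0 := by
    rw [map_sub, map_sub, sub_eq_zero]
    exact congrArg (· v) h1.symm
  have h4 := g3a_ker F S h3
  have h5 := g3a_ker F' S (v := T (v - F.spec Set.univ v)) (by rw [← h0, ← h0, h3, map_zero])
  rw [map_sub, sub_eq_zero] at h4
  rw [map_sub, map_sub, sub_eq_zero] at h5
  exact (congrArg T h4).trans ((congrArg (· v) h2).trans h5.symm)

theorem Frame.specP_eq (F : Frame n) (S : Set ℝ) : specP F.op S = F.spec S := by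
  have h : IsGen F.op := ⟨F, rfl⟩
  simpa [specP, h] using g3a_inter (F := h.choose) (F' := F) (T := 1)
    (by rw [one_mul, mul_one, ← h.choose_spec]) S

theorem Frame.nilp_eq (F : Frame n) : nilp F.op = rk1 F.p F.p := by
  have h : IsGen F.op := ⟨F, rfl⟩
  have h1 := g3a_split h.choose
  rw [← h.choose.specP_eq, ← h.choose_spec, F.specP_eq] at h1
  rw [nilp, dif_pos h]
  exact add_left_cancel (h1.symm.trans (g3a_split F))

theorem IsGen.isRound_specP {M : Op n} (h : IsGen M) (S : Set ℝ) : IsRound (specP M S) := by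
  classical
  obtain ⟨F, rfl⟩ := h
  let s := Finset.univ.filter fun i => 0 < F.w i ∧ F.w i ∈ S
  refine ⟨⟨s.card, fun j => F.e (s.equivFin.symm j), fun _ => 1, 0, fun i j => ?_, by simp,
    by simp, by simp, by simp⟩, fun _ => rfl, rfl, ?_⟩
  · simp [F.on]
  · rw [F.specP_eq, Frame.spec, Frame.op, rk1_eq_zero.2 rfl, add_zero, ← Finset.sum_filter,
      ← Finset.sum_coe_sort, ← s.equivFin.symm.sum_comp]
    simp

theorem IsGen.commute_specP {M T : Op n} (h : IsGen M) (hT : Commute T M) (S : Set ℝ) :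
    Commute T (specP M S) := by
  obtain ⟨F, rfl⟩ := h
  rw [F.specP_eq]
  exact g3a_inter hT S

theorem IsGen.commute_nilp {M T : Op n} (h : IsGen M) (hT : Commute T M) :
    Commute T (nilp M) := by
  have h1 := hT.sub_right (hT.mul_right (h.commute_specP hT Set.univ))
  obtain ⟨F, rfl⟩ := h
  rwa [F.specP_eq, sub_eq_of_eq_add' (g3a_split F), ← F.nilp_eq] at h1

theorem IsGen.eq_add_nilp {M : Op n} (h : IsGen M) : M = M * specP M Set.univ + nilp M := by
  obtain ⟨F, rfl⟩ := h
  rw [F.specP_eq, F.nilp_eq]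
  exact g3a_split F

theorem IsGen.specP_mul_nilp {M : Op n} (h : IsGen M) (S : Set ℝ) :
    specP M S * nilp M = 0 ∧ nilp M * specP M S = 0 ∧ M * nilp M = 0 ∧ nilp M * M = 0 := by
  obtain ⟨F, rfl⟩ := h
  rw [F.specP_eq, F.nilp_eq]
  simp only [g3a_spec, g3a_nil, g3a_op, g3a_mul, mul_zero, zero_mul, g3a_zero, and_self]

theorem IsGen.apply_eq_zero_iff {M : Op n} (h : IsGen M) (v : V n) :
    M v = 0 ↔ specP M Set.univ v = 0 ∧ nilp M v = 0 := by
  have h1 : M v = M (specP M Set.univ v) + nilp M v := congrArg (· v) h.eq_add_nilp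
  refine ⟨fun hv => ?_, fun hv => by rw [h1, hv.1, hv.2, map_zero, add_zero]⟩
  have h2 : specP M Set.univ v = 0 := by
    obtain ⟨F, rfl⟩ := h
    rw [F.specP_eq]
    exact g3a_ker F _ (by rw [hv, map_zero])
  exact ⟨h2, by rwa [hv, h2, map_zero, zero_add, eq_comm] at h1⟩

theorem IsGen.specP_apply_of_ker {M : Op n} (h : IsGen M) (S : Set ℝ) {v : V n} (hv : M v = 0) :
    specP M S v = 0 := by
  obtain ⟨F, rfl⟩ := h
  rw [F.specP_eq]
  exact g3a_ker F _ (by rw [hv, map_zero])

theorem IsGen.nilp_cases {M : Op n} (h : IsGen M) : nilp M = 0 ∨ IsNull (nilp M) := by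
  obtain ⟨F, rfl⟩ := h
  rw [F.nilp_eq, rk1_eq_zero]
  exact (eq_or_ne F.p 0).imp_right fun h => ⟨F.p, h, F.pp, rfl⟩

theorem IsGen.mu_le_specP {M : Op n} (h : IsGen M) (h0 : nilp M = 0) {v : V n} (hv : v ∈ Neg n) :
    mu M v ≤ mu (specP M Set.univ) v := by
  obtain ⟨F, rfl⟩ := h
  rw [F.nilp_eq, rk1_eq_zero] at h0
  refine div_le_div_of_nonneg_right ?_ (le_of_lt hv)
  rw [F.specP_eq, F.form_op, h0, form_zero_right, norm_zero, zero_pow two_ne_zero, add_zero,
    Complex.ofReal_re, Frame.spec, _root_.sum_apply, form_sum_left, Complex.re_sum]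
  refine Finset.sum_le_sum fun i _ => ?_
  rcases (F.w0 i).eq_or_lt with h | h
  · simp [← h]
  · rw [if_pos ⟨h, trivial⟩, form_rk1_self, Complex.ofReal_re]
    exact mul_le_of_le_one_left (sq_nonneg _) (F.w1 i)

theorem IsRound.ext {P Q : Op n} (hP : IsRound P) (hQ : IsRound Q)
    (h : ∀ v, P v = v ↔ Q v = v) : P = Q := by
  ext v
  refine eq_of_form fun w => ?_
  rw [← (h (P v)).1 (congrArg (· v) hP.mul_self), hQ.isGen.selfadj, hP.isGen.selfadj,
    (h (Q w)).2 (congrArg (· w) hQ.mul_self), hQ.isGen.selfadj]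

end BallQ
end
end

-- merged part: Pool.Agent.Work.MP_72250f_ag.G3b
section
/-!
Canonical parts of a generator. For a frame F and w > 0 the eigenspace of F.op for w is spanned by the e_i with
w_i = w, and ker (M * M) is the common orthogonal of the e_i with w_i > 0. An operator commuting with M preserves these
spaces, hence commutes with F.spec S and with rk1 p p = M - M * spec univ. For two frames of the same M the
projections agree on both kinds of vectors. gen_unique: c = 1 by nonpos_eig applied to a nonpositive vector of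
ker M (p, or Frame.exists_neg when p = 0); then the eigenvectors e_j (w_j > 0) of the flow are eigenvectors of M' with the
same weight (exp (2 pi i w) is injective on [0,1)), and on their common orthogonal flow = 1 + 2 pi i M.
commute_gen_gen: M' commutes with flow M 1, so the isometries flow M' x (x real) commute with M; differentiate at x = 0.
-/

open scoped ComplexConjugate ENNReal Topology
open MeasureTheory Filter

noncomputable section

namespace BallQ

variable {n : ℕ}

theorem g3b_cnj_add (g : GG n) (S T : Op n) : cnj g (S + T) = cnj g S + cnj g T := by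
  simp only [cnj, mul_add, add_mul]

theorem g3b_cnj_sum (g : GG n) {ι : Type*} (s : Finset ι) (T : ι → Op n) :
    cnj g (∑ i ∈ s, T i) = ∑ i ∈ s, cnj g (T i) := by
  simp only [cnj, Finset.mul_sum, Finset.sum_mul]

theorem g3b_cnj_zero (g : GG n) : cnj g (0 : Op n) = 0 := by
  simp only [cnj, mul_zero, zero_mul]

/-- The image of a frame under an isometry. -/
def g3b_frame (F : Frame n) {g : GG n} (hg : IsIsom (g : Op n)) : Frame n where
  m := F.m
  e := fun i => (g : Op n) (F.e i)
  w := F.w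
  p := (g : Op n) F.p
  on := fun i j => by rw [hg, F.on]
  pp := by rw [hg, F.pp]
  pe := fun i => by rw [hg, F.pe]
  w0 := F.w0
  w1 := F.w1

theorem g3b_op (F : Frame n) {g : GG n} (hg : IsIsom (g : Op n)) :
    cnj g F.op = (g3b_frame F hg).op := by
  rw [Frame.op, g3b_cnj_add, g3b_cnj_sum, cnj_rk1 hg]
  simp only [cnj_smul, cnj_rk1 hg]
  rfl

theorem g3b_spec (F : Frame n) {g : GG n} (hg : IsIsom (g : Op n)) (S : Set ℝ) :
    cnj g (F.spec S) = (g3b_frame F hg).spec S := by
  rw [Frame.spec, g3b_cnj_sum]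
  refine Finset.sum_congr rfl fun i _ => ?_
  by_cases h : 0 < F.w i ∧ F.w i ∈ S
  · rw [if_pos h, if_pos (by exact h), cnj_rk1 hg]
    rfl
  · rw [if_neg h, if_neg (by exact h), g3b_cnj_zero]

theorem IsGen.cnj {g : GG n} (hg : IsIsom (g : Op n)) {M : Op n} (h : IsGen M) :
    IsGen (cnj g M) := by
  obtain ⟨F, rfl⟩ := h
  exact ⟨g3b_frame F hg, g3b_op F hg⟩

theorem IsGenLt.cnj {g : GG n} (hg : IsIsom (g : Op n)) {b : ℝ} {M : Op n} (h : IsGenLt b M) :
    IsGenLt b (cnj g M) := by
  obtain ⟨F, hw, rfl⟩ := h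
  exact ⟨g3b_frame F hg, hw, g3b_op F hg⟩

theorem IsRound.cnj {g : GG n} (hg : IsIsom (g : Op n)) {M : Op n} (h : IsRound M) :
    IsRound (cnj g M) := by
  obtain ⟨F, hw, hp, rfl⟩ := h
  refine ⟨g3b_frame F hg, hw, ?_, g3b_op F hg⟩
  show (g : Op n) F.p = 0
  rw [hp, map_zero]

theorem IsNull.cnj {g : GG n} (hg : IsIsom (g : Op n)) {M : Op n} (h : IsNull M) :
    IsNull (cnj g M) := by
  obtain ⟨p, hp0, hp, rfl⟩ := h
  refine ⟨(g : Op n) p, fun h0 => hp0 (hg.injective (by rw [h0, map_zero])), by rw [hg, hp],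
    cnj_rk1 hg p p⟩

theorem IsGen.specP_cnj {g : GG n} (hg : IsIsom (g : Op n)) {M : Op n} (h : IsGen M)
    (S : Set ℝ) : specP (BallQ.cnj g M) S = BallQ.cnj g (specP M S) := by
  obtain ⟨F, rfl⟩ := h
  rw [g3b_op F hg, Frame.specP_eq, Frame.specP_eq, g3b_spec F hg]

theorem IsGen.nilp_cnj {g : GG n} (hg : IsIsom (g : Op n)) {M : Op n} (h : IsGen M) :
    nilp (BallQ.cnj g M) = BallQ.cnj g (nilp M) := by
  obtain ⟨F, rfl⟩ := h
  rw [g3b_op F hg, Frame.nilp_eq, Frame.nilp_eq, cnj_rk1 hg]
  rfl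

theorem age_cnj (g : GG n) (M : Op n) : age (cnj g M) = age M := by
  rw [age, age, tr_cnj]

end BallQ
end
end

-- merged part: Pool.Agent.Work.MP_72250f_ag.G3c
section
/-!
Canonical parts of a generator. For a frame F and w > 0 the eigenspace of F.op for w is spanned by the e_i with
w_i = w, and ker (M * M) is the common orthogonal of the e_i with w_i > 0. An operator commuting with M preserves these
spaces, hence commutes with F.spec S and with rk1 p p = M - M * spec univ. For two frames of the same M the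
projections agree on both kinds of vectors. gen_unique: c = 1 by nonpos_eig applied to a nonpositive vector of
ker M (p, or Frame.exists_neg when p = 0); then the eigenvectors e_j (w_j > 0) of the flow are eigenvectors of M' with the
same weight (exp (2 pi i w) is injective on [0,1)), and on their common orthogonal flow = 1 + 2 pi i M.
commute_gen_gen: M' commutes with flow M 1, so the isometries flow M' x (x real) commute with M; differentiate at x = 0.
-/

open scoped ComplexConjugate ENNReal Topology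
open MeasureTheory Filter

noncomputable section

namespace BallQ

variable {n : ℕ}

theorem g3c_lin (F : Frame n) (t : ℂ) (a a' : Fin F.m → ℂ) (b b' : ℂ) :
    t • g3a_T F a b + g3a_T F a' b' = g3a_T F (t • a + a') (t * b + b') := by
  simp only [g3a_T, smul_add, Finset.smul_sum, smul_smul, add_smul, Finset.sum_add_distrib,
    Pi.add_apply, Pi.smul_apply, smul_eq_mul]
  abel

theorem g3c_aeval (F : Frame n) (u a : Fin F.m → ℂ) (b : ℂ) (r : Polynomial ℂ) :
    g3a_T F u 0 * Polynomial.aeval (g3a_T F a b) r = g3a_T F (fun i => u i * r.eval (a i)) 0 := by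
  induction r using Polynomial.induction_on with
  | C c => simp [Algebra.algebraMap_eq_smul_one, g3a_T, Finset.smul_sum, smul_smul, mul_comm]
  | add p q hp hq =>
    rw [map_add, mul_add, hp, hq]
    simp [g3a_T, mul_add, add_smul, Finset.sum_add_distrib]
  | monomial k c h =>
    rw [pow_succ, ← mul_assoc, map_mul, ← mul_assoc, h, Polynomial.aeval_X, g3a_mul]
    congr 1
    ext i
    simp [mul_assoc]

theorem g3c_semi {T A A' : Op n} (h : SemiconjBy T A A') (r : Polynomial ℂ) :
    SemiconjBy T (Polynomial.aeval A r) (Polynomial.aeval A' r) := by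
  induction r using Polynomial.induction_on' with
  | add p q hp hq => simpa only [map_add] using hp.add_right hq
  | monomial k c =>
    simp only [Polynomial.aeval_monomial]
    exact SemiconjBy.mul_right (Algebra.commutes c T).symm (h.pow_right k)

theorem g3c_inj : Set.InjOn (fun w : ℝ => Complex.exp (2 * Real.pi * Complex.I * 1 * w) - 1)
    (Set.Ico 0 1) := fun w hw w' hw' h => by
  obtain ⟨k, hk⟩ := Complex.exp_eq_exp_iff_exists_int.1 (sub_left_injective h)
  have h1 : (w : ℂ) = w' + k := mul_left_cancel₀ Complex.two_pi_I_ne_zero (by linear_combination hk)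
  have h2 : w = w' + k := by exact_mod_cast h1
  have h3 : k = 0 := by
    have h4 : (k : ℝ) < 1 := by linarith [hw.2, hw'.1]
    have h5 : (-1 : ℝ) < k := by linarith [hw.1, hw'.2]
    norm_cast at h4 h5
    omega
  simpa [h3] using h2

theorem g3c_inter {M M' T : Op n} (h : IsGenLt 1 M) (h' : IsGenLt 1 M')
    (hc : SemiconjBy T (flow M 1) (flow M' 1)) : SemiconjBy T M M' := by
  classical
  obtain ⟨F, hF, rfl⟩ := h
  obtain ⟨F', hF', rfl⟩ := h'
  set ψ := fun w : ℝ => Complex.exp (2 * Real.pi * Complex.I * 1 * w) - 1 with hψ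
  let t : ℂ := (2 * Real.pi * Complex.I)⁻¹
  let f : ℂ → ℂ := fun x => (Function.invFunOn ψ (Set.Ico 0 1) x - t * x) / (x * x)
  let s := Finset.univ.image (fun i => ψ (F.w i)) ∪ Finset.univ.image fun i => ψ (F'.w i)
  have key : ∀ G : Frame n, (∀ i, G.w i < 1) → (∀ i, ψ (G.w i) ∈ s) →
      G.op = t • (flow G.op 1 - 1) + (flow G.op 1 - 1) * (flow G.op 1 - 1) *
        Polynomial.aeval (flow G.op 1 - 1) (Lagrange.interpolate s id f) := fun G h1 h2 => by
    have h3 : flow G.op 1 - 1 = g3a_T G (fun i => ψ (G.w i)) (2 * Real.pi * Complex.I) := by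
      rw [G.flow_eq, add_assoc, add_sub_cancel_left, mul_one _, g3a_T]
      simp only [hψ, mul_one]
    rw [h3, g3a_mul, g3c_aeval, g3c_lin, inv_mul_cancel₀ Complex.two_pi_I_ne_zero, add_zero, g3a_op]
    congr 1
    ext i
    have h4 := Lagrange.eval_interpolate_at_node f (Set.injOn_id _) (h2 i)
    have h5 := g3c_inj.leftInvOn_invFunOn (x := G.w i) ⟨G.w0 i, h1 i⟩
    simp only [id] at h4
    simp only [Pi.add_apply, Pi.smul_apply, Pi.mul_apply, smul_eq_mul, h4, f]
    rcases eq_or_ne (ψ (G.w i)) 0 with h6 | h6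
    · rw [h6, g3c_inj ⟨G.w0 i, h1 i⟩ ⟨le_rfl, one_pos⟩ (h6.trans (by simp))]
      simp
    · rw [mul_div_cancel₀ _ (mul_ne_zero h6 h6), add_sub_cancel]
      exact congrArg _ h5.symm
  have h1 := hc.sub_right (SemiconjBy.one_right T)
  rw [key F hF (by simp [s]), key F' hF' (by simp [s])]
  exact (h1.smul_right t).add_right ((h1.mul_right h1).mul_right (g3c_semi h1 _))

theorem gen_unique {M M' : Op n} (h : IsGenLt 1 M) (h' : IsGenLt 1 M') {c : ℂ}
    (hc : flow M' 1 = c • flow M 1) : M = M' := by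
  obtain ⟨y, h0, h1, h2⟩ : ∃ y, y ≠ 0 ∧ 0 ≤ NN y ∧ M y = 0 := by
    obtain ⟨F, -, rfl⟩ := h
    rcases eq_or_ne F.p 0 with hp | hp
    · obtain ⟨x, hx, h3⟩ := F.exists_neg
      exact ⟨x, ne_zero_of_mem_Neg hx, le_of_lt hx, by simp [F.op_apply, h3, hp]⟩
    · exact ⟨F.p, hp, by simp [NN, F.pp], by simp [F.op_apply, F.pe, F.pp]⟩
  have h3 : flow M' 1 y = c • y := by rw [hc, smul_apply, flow_apply_of_ker h2]
  rw [flow_apply_of_ker (h'.nonpos_eig h1 h3)] at h3
  obtain rfl : 1 = c := smul_left_injective ℂ h0 ((one_smul _ _).trans h3)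
  simpa using (g3c_inter (T := 1) h h' (by simp [hc])).eq

theorem commute_gen {M : Op n} (h : IsGenLt 1 M) {a : Op n} (ha : IsIsom a)
    (hc : Commute a (flow M 1)) : Commute a M := g3c_inter h h hc

theorem commute_gen_gen {M M' : Op n} (h : IsGenLt 1 M) (h' : IsGenLt 1 M')
    (hc : Commute (flow M 1) (flow M' 1)) : Commute M M' := g3c_inter h' h' (Commute.symm (g3c_inter h h hc.symm))

end BallQ
end
end

-- merged part: Pool.Agent.Work.MP_72250f_ag.G3
section
/-!
Canonical parts of a generator. For a frame F and w > 0 the eigenspace of F.op for w is spanned by the e_i with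
w_i = w, and ker (M * M) is the common orthogonal of the e_i with w_i > 0. An operator commuting with M preserves these
spaces, hence commutes with F.spec S and with rk1 p p = M - M * spec univ. For two frames of the same M the
projections agree on both kinds of vectors. gen_unique: c = 1 by nonpos_eig applied to a nonpositive vector of
ker M (p, or Frame.exists_neg when p = 0); then the eigenvectors e_j (w_j > 0) of the flow are eigenvectors of M' with the
same weight (exp (2 pi i w) is injective on [0,1)), and on their common orthogonal flow = 1 + 2 pi i M.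
commute_gen_gen: M' commutes with flow M 1, so the isometries flow M' x (x real) commute with M; differentiate at x = 0.
-/

open scoped ComplexConjugate ENNReal Topology
open MeasureTheory Filter

noncomputable section

namespace BallQ

variable {n : ℕ}

theorem exists_gen_inj (Γ : Subgroup (GG n)) :
    ∃ φ : Op n → GG n, Set.InjOn φ {M | IsGenLt 1 M ∧ InP Γ (flow M 1)} ∧
      ∀ M, InP Γ (flow M 1) → φ M ∈ Γ ∧ ∃ c : ℂ, ‖c‖ = 1 ∧ flow M 1 = c • (φ M : Op n) := by
  have h : ∀ M : Op n, ∃ γ : GG n, InP Γ (flow M 1) →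
      γ ∈ Γ ∧ ∃ c : ℂ, ‖c‖ = 1 ∧ flow M 1 = c • (γ : Op n) := by
    intro M
    by_cases hM : InP Γ (flow M 1)
    · obtain ⟨c, hc, γ, hγ, h⟩ := hM
      exact ⟨γ, fun _ => ⟨hγ, c, hc, h⟩⟩
    · exact ⟨1, fun h => absurd h hM⟩
  choose φ hφ using h
  refine ⟨φ, fun M hM M' hM' hMM => ?_, hφ⟩
  obtain ⟨-, c, hc, h1⟩ := hφ M hM.2
  obtain ⟨-, c', -, h2⟩ := hφ M' hM'.2
  have hc0 : c ≠ 0 := by
    rintro rfl
    simp at hc
  refine gen_unique hM.1 hM'.1 (c := c' * c⁻¹) ?_
  rw [h1, h2, hMM, smul_smul, mul_assoc, inv_mul_cancel₀ hc0, mul_one]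

theorem countable_gen {Γ : Subgroup (GG n)} (hΓ : Proper Γ) :
    {M : Op n | IsGenLt 1 M ∧ InP Γ (flow M 1)}.Countable := by
  obtain ⟨φ, h1, h2⟩ := exists_gen_inj Γ
  refine Set.countable_of_injective_of_countable_image h1 ?_
  have h3 : (Γ : Set (GG n)).Countable := Set.countable_coe_iff.mp hΓ.countable
  refine h3.mono ?_
  rintro _ ⟨M, hM, rfl⟩
  exact (h2 M hM.2).1

theorem g3_CC {M : Op n} (hM : IsGen M) {g : Op n} {c : ℂ} (hc : ‖c‖ = 1)
    (h : flow M 1 = c • g) {x : V n} (hx : x ∈ Neg n) {s : ℝ} (hs : mu M x ≤ s) :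
    CC x (g x) ≤ (1 + 2 * Real.pi * s) ^ 2 := by
  have hc0 : c ≠ 0 := by
    rintro rfl
    simp at hc
  have h1 := hM.CC_flow_le hx
  rw [h, smul_apply, CC_smul_right hc0] at h1
  refine h1.trans ?_
  have h2 := hM.mu_nonneg hx
  have h3 := Real.pi_pos
  gcongr

theorem finite_gen {Γ : Subgroup (GG n)} (hΓ : Proper Γ) {x : V n} (hx : x ∈ Neg n) (s : ℝ) :
    {M : Op n | IsGenLt 1 M ∧ InP Γ (flow M 1) ∧ mu M x ≤ s}.Finite := by
  obtain ⟨φ, h1, h2⟩ := exists_gen_inj Γ
  refine Set.Finite.of_finite_image (f := φ) ?_ (h1.mono fun M hM => And.intro hM.1 hM.2.1)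
  refine (hΓ.fin_two hx hx ((1 + 2 * Real.pi * s) ^ 2)).subset ?_
  rintro _ ⟨M, hM, rfl⟩
  obtain ⟨h3, c, hc, h4⟩ := h2 M hM.2.1
  exact ⟨h3, g3_CC hM.1.isGen hc h4 hx hM.2.2⟩

/-- Systems whose members are detected by distinct generators have small multiplicity. -/
theorem mult_le_cnt {Γ : Subgroup (GG n)} (I : Set (Set (Op n))) (S : Set (Op n) → Set (V n))
    {x : V n} (hx : x ∈ Neg n) (R : Set (Op n) → Op n → Prop)
    (h1 : ∀ F ∈ I, x ∈ S F → ∃ M, R F M ∧ IsGenLt 1 M ∧ InP Γ (flow M 1) ∧ mu M x < s0)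
    (h2 : ∀ F ∈ I, ∀ F' ∈ I, ∀ M, R F M → R F' M → F = F') :
    mult I S x ≤ cnt Γ x 4 := by
  classical
  obtain ⟨φ, hφ1, hφ2⟩ := exists_gen_inj Γ
  let T : Set I := {F | x ∈ S F}
  have h3 : ∀ F : T, ∃ M, R F.1 M ∧ IsGenLt 1 M ∧ InP Γ (flow M 1) ∧ mu M x < s0 :=
    fun F => h1 F.1 F.1.2 F.2
  choose m hm using h3
  let f : T → Γ := fun F => ⟨φ (m F), (hφ2 _ (hm F).2.2.1).1⟩
  have hf : Function.Injective f := by
    intro F F' hFF
    have h4 : m F = m F' :=
      hφ1 ⟨(hm F).2.1, (hm F).2.2.1⟩ ⟨(hm F').2.1, (hm F').2.2.1⟩ (congrArg Subtype.val hFF)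
    exact Subtype.ext (Subtype.ext (h2 _ F.1.2 _ F'.1.2 (m F) (hm F).1 (h4 ▸ (hm F').1)))
  have h5 : mult I S x = ∑' _ : T, (1 : ℝ≥0∞) := by
    rw [mult, tsum_subtype T (fun _ => (1 : ℝ≥0∞))]
    refine tsum_congr fun F => ?_
    simp only [Set.indicator_apply, T, Set.mem_ofPred_eq, Pi.one_apply]
  rw [h5, cnt]
  refine le_trans (le_of_eq (tsum_congr fun F => ?_)) (ENNReal.tsum_comp_le_tsum_of_injective hf _)
  obtain ⟨-, c, hc, h6⟩ := hφ2 _ (hm F).2.2.1
  have h7 := g3_CC (hm F).2.1.isGen hc h6 hx (hm F).2.2.2.le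
  rw [if_pos]
  refine h7.trans ?_
  have h8 := Real.pi_le_four
  have h9 := Real.pi_pos
  rw [s0]
  nlinarith

theorem g3_flow_round {P : Op n} (h : IsRound P) (y : ℝ) (x : V n) :
    flow P (y * Complex.I) x = x + ((Real.exp (-(2 * Real.pi * y)) - 1 : ℝ) : ℂ) • P x := by
  have : 2 * Real.pi * Complex.I * (y * Complex.I) = ((-(2 * Real.pi * y) : ℝ) : ℂ) := by
    push_cast
    linear_combination (2 * Real.pi * y) * Complex.I_mul_I
  rw [h.flow_eq, this, ← Complex.ofReal_exp]
  simp

/-- Expansion of a hermitian form along a round flow. -/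
theorem g3_expand {P T : Op n} (h : IsRound P) (hc : Commute T P) (a : ℝ) (x : V n) :
    (form (T (x + (a : ℂ) • P x)) (x + (a : ℂ) • P x)).re =
      (form (T x) x).re + (2 * a + a ^ 2) * (form (T (P x)) (P x)).re := by
  have hPP : P (P x) = P x := congrArg (· x) h.mul_self
  have hTP : ∀ v, T (P v) = P (T v) := fun v => congrArg (· v) hc.eq
  have h1 : form (T (P x)) x = form (T (P x)) (P x) := by
    rw [← h.isGen.selfadj, ← hTP, hPP]
  have h2 : form (T x) (P x) = form (T (P x)) (P x) := by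
    rw [← h1, hTP, h.isGen.selfadj]
  rw [map_add, map_smul, form_add_left, form_add_right, form_add_right, form_smul_left,
    form_smul_left, form_smul_right, form_smul_right, h1, h2, Complex.conj_ofReal]
  simp only [Complex.add_re, Complex.re_ofReal_mul]
  ring

theorem g3_NN {P : Op n} (h : IsRound P) (a : ℝ) (x : V n) :
    NN (x + (a : ℂ) • P x) - NN x = -(2 * a + a ^ 2) * (form (P x) (P x)).re := by
  have := g3_expand h (Commute.one_left P) a x
  simp only [one_apply_eq_self] at this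
  rw [NN, NN, this]
  ring

theorem g3_coef {y : ℝ} (hy : 0 ≤ y) :
    2 * (Real.exp (-(2 * Real.pi * y)) - 1) + (Real.exp (-(2 * Real.pi * y)) - 1) ^ 2 ≤ 0 := by
  have h1 : Real.exp (-(2 * Real.pi * y)) ≤ 1 := by
    rw [Real.exp_le_one_iff, neg_nonpos]
    have := Real.pi_pos
    positivity
  have h2 := Real.exp_pos (-(2 * Real.pi * y))
  nlinarith

theorem g3_spec_le (F : Frame n) {η : ℝ} (x : V n) :
    (form (F.op (F.spec (Set.Iic η) x)) (F.spec (Set.Iic η) x)).re ≤
      η * (form (F.spec (Set.Iic η) x) (F.spec (Set.Iic η) x)).re := by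
  classical
  have hR : IsRound (F.spec (Set.Iic η)) := F.specP_eq _ ▸ IsGen.isRound_specP ⟨F, rfl⟩ _
  have hPP : F.spec (Set.Iic η) (F.spec (Set.Iic η) x) = F.spec (Set.Iic η) x :=
    congrArg (· x) hR.mul_self
  have h1 : form (F.spec (Set.Iic η) x) F.p = 0 := by
    rw [Frame.spec, _root_.sum_apply, form_sum_left]
    refine Finset.sum_eq_zero fun i _ => ?_
    split_ifs
    · rw [rk1_apply, form_smul_left, form_eq_zero_comm.mp (F.pe i), mul_zero]
    · simp
  have h2 : (form (F.spec (Set.Iic η) x) (F.spec (Set.Iic η) x)).re =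
      ∑ i, if 0 < F.w i ∧ F.w i ∈ Set.Iic η then ‖form x (F.e i)‖ ^ 2 else 0 := by
    rw [← hR.isGen.selfadj, hPP, Frame.spec, _root_.sum_apply, form_sum_left, Complex.re_sum]
    refine Finset.sum_congr rfl fun i _ => ?_
    split_ifs
    · rw [form_rk1_self, Complex.ofReal_re]
    · simp
  rw [h2, F.form_op, h1, Complex.ofReal_re, norm_zero, zero_pow two_ne_zero, add_zero,
    Finset.mul_sum]
  refine Finset.sum_le_sum fun i _ => ?_
  rw [g3a_spec, g3a_form]
  split_ifs with hi
  · rw [one_mul]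
    exact mul_le_mul_of_nonneg_right hi.2 (by positivity)
  · simp

theorem dirFor_specP {M : Op n} (h : IsGen M) {η : ℝ} (hη : 0 ≤ η) :
    DirFor (specP M (Set.Iic η)) η M := by
  intro y hy x
  have _ := hη
  have hR := h.isRound_specP (Set.Iic η)
  rw [g3_flow_round hR, g3_expand hR (h.commute_specP (Commute.refl M) _), g3_NN hR]
  have h1 := g3_coef hy
  obtain ⟨F, rfl⟩ := h
  have h2 := g3_spec_le F (η := η) x
  rw [F.specP_eq]
  nlinarith [mul_nonneg (neg_nonneg.mpr h1) (sub_nonneg.mpr h2)]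

theorem dirFor_round {P : Op n} (h : IsRound P) (η : ℝ) : DirFor P η ((η : ℂ) • P) := by
  intro y _ x
  have hPP : P (P x) = P x := congrArg (· x) h.mul_self
  rw [g3_flow_round h, g3_expand h ((Commute.refl P).smul_left _), g3_NN h, smul_apply, smul_apply,
    hPP, form_smul_left, form_smul_left, Complex.re_ofReal_mul, Complex.re_ofReal_mul]
  apply le_of_eq
  ring

theorem dirFor_null {D M : Op n} (hD : IsNull D) (h : IsGen M) (h0 : M * D = 0) {η : ℝ}
    (hη : 0 ≤ η) : DirFor D η M := by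
  intro y hy x
  have h1 : NN x ≤ NN (flow D (y * Complex.I) x) :=
    (hD.isGenLt 1).isGen.NN_le_flow (by simpa using hy) x
  have h2 : M (D x) = 0 := congrArg (· x) h0
  have h3 : form (M (flow D (y * Complex.I) x)) (flow D (y * Complex.I) x) = form (M x) x := by
    obtain ⟨p, -, hp, rfl⟩ := hD
    rw [flow_null hp, add_apply, smul_apply, one_apply_eq_self, map_add, map_smul, h2, smul_zero,
      add_zero, form_add_right, form_smul_right, h.selfadj x (rk1 p p x), h2, form_zero_right,
      mul_zero, add_zero]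
  rw [h3]
  exact le_add_of_nonneg_right (mul_nonneg hη (sub_nonneg.mpr h1))

end BallQ
end
end

-- merged part: Pool.Agent.Work.MP_72250f_ag.C3a
section
/-!
Finite sets of angles. trace_root: the trace is the sum of the roots of the characteristic polynomial (Matrix.trace_eq_sum_roots_charpoly),
all roots are m-th roots of unity and 1 has multiplicity at least n + 1 - r; or diagonalise T by the projections
(1/m) sum z^-l T^l. index_le_of_words: the number c(l) of cosets w N with w a word of length at most l is strictly increasing until it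
stabilises, and then all cosets are reached. short_power: U = span of the ranges of g - 1, g' - 1 and oo; every word h has h - 1 with range in U and
vanishing on the orthogonal complement of U (same for the form and the inner product, as oo is in U), norm at most 2
(norm_isom_le), hs (h - 1) <= 9 finrank U; pack_rank. Conjugate by exists_isom first.
angles: m = index of the centre of H = closure {g, g'}, transfer h |-> h^m is a homomorphism to the centre (MonoidHom.transferCenterPow).
Q = 1 - sum over the frame vectors with l_j^m different from 1 is the projection on ker (g^m - 1), it commutes with H; same Q', Q0 = Q Q'.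
tr (P P') = tr (P P' Q0) + tr (P' (1-Q)) + tr (P Q (1-Q')), the last two are traces of idempotents of rank <= r. P Q0 = (1 - avg g^l) Q0, so
tr (P P' Q0) = m^-2 sum over l, l' < m of T(g^l g'^l') - T(g^l) - T(g'^l') with T h = tr (h~) - (n+1), h~ = h Q0 + 1 - Q0, h~^m = 1,
rank (h~ - 1) <= 2r. The group of the h~ is finitely generated, of exponent m, with centre of finite index, so finite; fix_of_finite
and ell_in_sub give a negative y in range Q0 fixed by g, g' (nonpos_eig); in the positive definite space y-perp,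
tr (P P') = sum |P' e_i|^2 <= tr P with equality only if range P is in range P'; IsRound.ext.
-/

open scoped ComplexConjugate ENNReal Topology
open MeasureTheory Filter

noncomputable section

namespace BallQ

variable {n : ℕ}

theorem c3a_sums (D : Finset ℂ) (k : ℕ) : ∃ A : Finset ℂ, ∀ s : Multiset ℂ, s.card ≤ k →
    (∀ z ∈ s, z ∈ D) → s.sum ∈ A := by
  classical
  induction k with
  | zero =>
    refine ⟨{0}, fun s hs _ => ?_⟩
    rw [Multiset.card_eq_zero.1 (Nat.le_zero.1 hs), Multiset.sum_zero]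
    exact Finset.mem_singleton_self _
  | succ k ih =>
    obtain ⟨A, hA⟩ := ih
    refine ⟨insert 0 (Finset.image₂ (· + ·) D A), fun s hs h => ?_⟩
    induction s using Multiset.induction_on with
    | empty => exact Finset.mem_insert_self _ _
    | cons a s _ =>
      rw [Multiset.card_cons] at hs
      rw [Multiset.sum_cons]
      exact Finset.mem_insert_of_mem (Finset.mem_image₂_of_mem (h a (Multiset.mem_cons_self _ _))
        (hA s (by omega) fun z hz => h z (Multiset.mem_cons_of_mem hz)))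

theorem trace_root (m r : ℕ) (hm : 1 ≤ m) : ∃ A : Finset ℂ, ∀ (n : ℕ) (T : Op n), T ^ m = 1 →
    Module.finrank ℂ (LinearMap.range ((T - 1 : Op n) : V n →ₗ[ℂ] V n)) ≤ r →
      tr T - ((n : ℂ) + 1) ∈ A := by
  classical
  obtain ⟨A, hA⟩ := c3a_sums ((Polynomial.nthRootsFinset m (1 : ℂ)).image fun z => z - 1) r
  refine ⟨A, fun n T hT hr => ?_⟩
  rw [← tr_one, ← tr_sub, tr, ← LinearMap.trace_restrict_eq_of_forall_mem _ _
    (LinearMap.mem_range_self _), Module.End.trace_eq_sum_roots_charpoly_of_splits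
    (IsAlgClosed.splits _)]
  refine hA _ ((Polynomial.card_roots' _).trans ?_) fun z hz => ?_
  · rwa [LinearMap.charpoly_natDegree]
  · obtain ⟨v, hv⟩ := ((Module.End.hasEigenvalue_iff_isRoot_charpoly _ z).2
      (Polynomial.isRoot_of_mem_roots hz)).exists_hasEigenvector
    have h1 : T v - v = z • (v : V n) := congrArg Subtype.val hv.apply_eq_smul
    have h2 : ∀ k : ℕ, (T ^ k) v = (z + 1) ^ k • (v : V n) := fun k => by
      induction k with
      | zero => rw [pow_zero, pow_zero, one_smul]; rfl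
      | succ k ih =>
        rw [pow_succ', pow_succ, mul_smul, add_smul, one_smul, ← h1, sub_add_cancel, ← map_smul,
          ← ih]
        rfl
    have h3 : ((z + 1) ^ m - 1) • (v : V n) = 0 := by
      rw [sub_smul, ← h2, hT, one_smul]
      exact sub_self _
    have h4 := (smul_eq_zero.1 h3).resolve_right fun h => hv.2 (Subtype.ext h)
    exact Finset.mem_image.2 ⟨z + 1, (Polynomial.mem_nthRootsFinset hm _).2 (sub_eq_zero.1 h4),
      add_sub_cancel_right _ _⟩

theorem index_le_of_words {G : Type*} [Group G] (S : Set G) (hS : Subgroup.closure S = ⊤)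
    (hinv : ∀ s ∈ S, s⁻¹ ∈ S) (N : Subgroup G) (M : ℕ)
    (h : ∀ f : Fin (M + 1) → List G, (∀ i, (f i).length ≤ M ∧ ∀ s ∈ f i, s ∈ S) →
      ∃ i j, i ≠ j ∧ (f i).prod⁻¹ * (f j).prod ∈ N) :
    N.index ≠ 0 ∧ N.index ≤ M := by
  classical
  have key : ∀ l : ℕ, (∀ X : Finset (G ⧸ N), X.card ≤ l → ∃ x, x ∉ X) →
      ∃ X : Finset (G ⧸ N), X.card = l + 1 ∧ ((1 : G) : G ⧸ N) ∈ X ∧
        ∀ x ∈ X, ∃ w : List G, (w.length ≤ l ∧ ∀ s ∈ w, s ∈ S) ∧ x = (w.prod : G) := by
    intro l
    induction l with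
    | zero =>
      exact fun _ => ⟨{((1 : G) : G ⧸ N)}, Finset.card_singleton _, Finset.mem_singleton_self _,
        fun x hx => ⟨[], ⟨le_rfl, fun _ h => nomatch h⟩, Finset.mem_singleton.1 hx⟩⟩
    | succ l ih =>
      intro hl
      obtain ⟨X, h1, h2, h3⟩ := ih fun X hX => hl X (hX.trans (Nat.le_succ l))
      obtain ⟨s, hs, g, hg, hsg⟩ : ∃ s ∈ S, ∃ g : G, (g : G ⧸ N) ∈ X ∧ ((s * g : G) : G ⧸ N) ∉ X := by
        by_contra hc
        have hc' : ∀ s ∈ S, ∀ g : G, (g : G ⧸ N) ∈ X → ((s * g : G) : G ⧸ N) ∈ X :=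
          fun s hs g hg => by_contra fun h' => hc ⟨s, hs, g, hg, h'⟩
        obtain ⟨x, hx⟩ := hl X h1.le
        obtain ⟨g, rfl⟩ := QuotientGroup.mk_surjective x
        exact hx (Subgroup.closure_induction_left (p := fun (g : G) _ => (g : G ⧸ N) ∈ X) h2
          (fun s hs y _ => hc' s hs y) (fun s hs y _ => hc' _ (hinv s hs) y)
          (hS ▸ Subgroup.mem_top g))
      refine ⟨insert ((s * g : G) : G ⧸ N) X, by rw [Finset.card_insert_of_notMem hsg, h1],
        Finset.mem_insert_of_mem h2, fun x hx => ?_⟩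
      rcases Finset.mem_insert.1 hx with rfl | hx
      · obtain ⟨w, ⟨a1, a2⟩, a3⟩ := h3 _ hg
        refine ⟨s :: w, ⟨Nat.succ_le_succ a1, fun t ht => ?_⟩, ?_⟩
        · rcases List.mem_cons.1 ht with rfl | ht
          exacts [hs, a2 t ht]
        · rw [List.prod_cons, QuotientGroup.eq, mul_inv_rev, mul_assoc, inv_mul_cancel_left]
          exact QuotientGroup.eq.1 a3
      · obtain ⟨w, ⟨a1, a2⟩, a3⟩ := h3 _ hx
        exact ⟨w, ⟨a1.trans (Nat.le_succ l), a2⟩, a3⟩
  by_cases hc : ∀ X : Finset (G ⧸ N), X.card ≤ M → ∃ x, x ∉ X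
  · obtain ⟨X, h1, -, h3⟩ := key M hc
    let e := (X.equivFinOfCardEq h1).symm
    choose f hf1 hf2 using fun i => h3 _ (e i).2
    obtain ⟨i, j, hij, h4⟩ := h f hf1
    exact absurd (e.injective (Subtype.ext
      ((hf2 i).trans ((QuotientGroup.eq.2 h4).trans (hf2 j).symm)))) hij
  · push Not at hc
    obtain ⟨X, h1, h2⟩ := hc
    let _ : Fintype (G ⧸ N) := ⟨X, h2⟩
    exact ⟨Subgroup.index_ne_zero_of_finite, Nat.card_eq_fintype_card.trans_le h1⟩

end BallQ
end
end

-- merged part: Pool.Agent.Work.MP_72250f_ag.C3b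
section
/-!
Finite sets of angles. trace_root: the trace is the sum of the roots of the characteristic polynomial (Matrix.trace_eq_sum_roots_charpoly),
all roots are m-th roots of unity and 1 has multiplicity at least n + 1 - r; or diagonalise T by the projections
(1/m) sum z^-l T^l. index_le_of_words: the number c(l) of cosets w N with w a word of length at most l is strictly increasing until it
stabilises, and then all cosets are reached. short_power: U = span of the ranges of g - 1, g' - 1 and oo; every word h has h - 1 with range in U and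
vanishing on the orthogonal complement of U (same for the form and the inner product, as oo is in U), norm at most 2
(norm_isom_le), hs (h - 1) <= 9 finrank U; pack_rank. Conjugate by exists_isom first.
angles: m = index of the centre of H = closure {g, g'}, transfer h |-> h^m is a homomorphism to the centre (MonoidHom.transferCenterPow).
Q = 1 - sum over the frame vectors with l_j^m different from 1 is the projection on ker (g^m - 1), it commutes with H; same Q', Q0 = Q Q'.
tr (P P') = tr (P P' Q0) + tr (P' (1-Q)) + tr (P Q (1-Q')), the last two are traces of idempotents of rank <= r. P Q0 = (1 - avg g^l) Q0, so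
tr (P P' Q0) = m^-2 sum over l, l' < m of T(g^l g'^l') - T(g^l) - T(g'^l') with T h = tr (h~) - (n+1), h~ = h Q0 + 1 - Q0, h~^m = 1,
rank (h~ - 1) <= 2r. The group of the h~ is finitely generated, of exponent m, with centre of finite index, so finite; fix_of_finite
and ell_in_sub give a negative y in range Q0 fixed by g, g' (nonpos_eig); in the positive definite space y-perp,
tr (P P') = sum |P' e_i|^2 <= tr P with equality only if range P is in range P'; IsRound.ext.
-/

open scoped ComplexConjugate ENNReal Topology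
open MeasureTheory Filter

noncomputable section

namespace BallQ

variable {n : ℕ}

theorem c3b_hs_le (T : Op n) (U : Submodule ℂ (V n)) (h : ∀ v ∈ Uᗮ, T v = 0) :
    hs T ≤ ‖T‖ ^ 2 * Module.finrank ℂ U := by
  let b := stdOrthonormalBasis ℂ U
  have h1 : ∀ i, ‖T (bas n i)‖ ^ 2 ≤ ‖T‖ ^ 2 * ∑ j, ‖inner ℂ (b j : V n) (bas n i)‖ ^ 2 := by
    intro i
    have e1 : T (bas n i) = T (U.starProjection (bas n i)) := by
      have := h _ (U.sub_starProjection_mem_orthogonal (bas n i))
      rw [map_sub, sub_eq_zero] at this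
      exact this
    have e2 : ‖U.starProjection (bas n i)‖ ^ 2 = ∑ j, ‖inner ℂ (b j : V n) (bas n i)‖ ^ 2 := by
      have := b.sum_sq_norm_inner_right (U.orthogonalProjectionOnto (bas n i))
      simp only [Submodule.inner_orthogonalProjectionOnto_eq_of_mem_left] at this
      rw [this, Submodule.starProjection_apply]
      rfl
    rw [e1, ← e2, ← mul_pow]
    exact pow_le_pow_left₀ (norm_nonneg _) (T.le_opNorm _) 2
  unfold hs
  refine (Finset.sum_le_sum fun i _ => h1 i).trans (le_of_eq ?_)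
  rw [← Finset.mul_sum, Finset.sum_comm]
  congr 1
  have h2 : ∀ j, ∑ i, ‖inner ℂ (b j : V n) (bas n i)‖ ^ 2 = 1 := by
    intro j
    rw [(bas n).sum_sq_norm_inner_left]
    have : ‖(b j : V n)‖ = 1 := b.orthonormal.1 j
    rw [this, one_pow]
  simp [h2]

theorem c3b_fix {a : GG n} (ha : IsIsom (a : Op n)) {U : Submodule ℂ (V n)} (ho : oo n ∈ U)
    (hU : ∀ v, (a : Op n) v - v ∈ U) : ∀ v ∈ Uᗮ, (a : Op n) v = v := by
  intro v hv
  have h0 : co v none = 0 := by
    rw [co_eq_inner]
    exact (Submodule.mem_orthogonal U v).mp hv _ ho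
  have h1 : ∀ u ∈ U, form v u = 0 := by
    intro u hu
    rw [form_eq_inner, h0, zero_mul, mul_zero, sub_zero]
    exact (Submodule.mem_orthogonal U v).mp hv _ hu
  refine eq_of_form fun w => ?_
  have h2 := h1 _ (hU (((a⁻¹ : GG n) : Op n) w))
  rw [apply_inv_apply, form_sub_right, sub_eq_zero] at h2
  rw [ha.form_left, h2]

theorem c3b_word {U : Submodule ℂ (V n)} {b : ℝ} (hb : 1 ≤ b) (L : List (GG n))
    (hL : ∀ s ∈ L, IsIsom (s : Op n) ∧ (∀ v, (s : Op n) v - v ∈ U) ∧ ‖(s : Op n)‖ ≤ b ∧
      ‖((s⁻¹ : GG n) : Op n)‖ ≤ b) :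
    IsIsom ((L.prod : GG n) : Op n) ∧ (∀ v, ((L.prod : GG n) : Op n) v - v ∈ U) ∧
      ‖((L.prod : GG n) : Op n)‖ ≤ b ^ L.length ∧
      ‖((L.prod⁻¹ : GG n) : Op n)‖ ≤ b ^ L.length := by
  induction L with
  | nil =>
    have h1 : ‖(1 : Op n)‖ ≤ 1 := ContinuousLinearMap.norm_id_le
    refine ⟨isIsom_one, fun v => by simp, ?_, ?_⟩
    · simpa using h1
    · simpa using h1
  | cons s L ih =>
    obtain ⟨i1, i2, i3, i4⟩ := ih fun t ht => hL t (List.mem_cons_of_mem _ ht)
    obtain ⟨j1, j2, j3, j4⟩ := hL s List.mem_cons_self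
    have hb0 : 0 ≤ b := by linarith
    rw [List.prod_cons, List.length_cons, mul_inv_rev, Units.val_mul, Units.val_mul]
    refine ⟨j1.mul i1, fun v => ?_, ?_, ?_⟩
    · have := U.add_mem (j2 (((L.prod : GG n) : Op n) v)) (i2 v)
      rw [sub_add_sub_cancel] at this
      exact this
    · rw [pow_succ']
      exact (norm_mul_le _ _).trans (mul_le_mul j3 i3 (norm_nonneg _) hb0)
    · rw [pow_succ]
      exact (norm_mul_le _ _).trans (mul_le_mul i4 j4 (norm_nonneg _) (by positivity))

theorem c3b_gen {U : Submodule ℂ (V n)} {ρ : ℝ} {g : GG n} (hg : IsIsom (g : Op n))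
    (hU : ∀ v, (g : Op n) v - v ∈ U) (hc : CC (oo n) ((g : Op n) (oo n)) ≤ 1 + ρ) :
    (IsIsom (g : Op n) ∧ (∀ v, (g : Op n) v - v ∈ U) ∧ ‖(g : Op n)‖ ≤ √(1 + ρ) + √ρ ∧
      ‖((g⁻¹ : GG n) : Op n)‖ ≤ √(1 + ρ) + √ρ) ∧
    (IsIsom ((g⁻¹ : GG n) : Op n) ∧ (∀ v, ((g⁻¹ : GG n) : Op n) v - v ∈ U) ∧
      ‖((g⁻¹ : GG n) : Op n)‖ ≤ √(1 + ρ) + √ρ ∧
      ‖((g⁻¹⁻¹ : GG n) : Op n)‖ ≤ √(1 + ρ) + √ρ) := by
  have key : ∀ a : Op n, IsIsom a → CC (oo n) (a (oo n)) ≤ 1 + ρ → ‖a‖ ≤ √(1 + ρ) + √ρ := by
    intro a ha hca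
    refine (norm_isom_le ha).trans (add_le_add (Real.sqrt_le_sqrt hca) (Real.sqrt_le_sqrt ?_))
    linarith
  have hc' : CC (oo n) (((g⁻¹ : GG n) : Op n) (oo n)) ≤ 1 + ρ := by
    rw [← hg.CC_apply, apply_inv_apply, CC_comm]
    exact hc
  have n1 := key _ hg hc
  have n2 := key _ hg.inv hc'
  refine ⟨⟨hg, hU, n1, n2⟩, hg.inv, fun v => ?_, n2, by rwa [inv_inv]⟩
  have := U.neg_mem (hU (((g⁻¹ : GG n) : Op n) v))
  rwa [apply_inv_apply, neg_sub] at this

theorem c3b_core (r : ℕ) {ε : ℝ} (hε : 0 < ε) : ∃ (M : ℕ) (ρ : ℝ), 0 < ρ ∧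
    ∀ (n : ℕ) (g g' : GG n), IsIsom (g : Op n) → IsIsom (g' : Op n) →
      Module.finrank ℂ (LinearMap.range (((g : Op n) - 1 : Op n) : V n →ₗ[ℂ] V n)) ≤ r →
      Module.finrank ℂ (LinearMap.range (((g' : Op n) - 1 : Op n) : V n →ₗ[ℂ] V n)) ≤ r →
      CC (oo n) ((g : Op n) (oo n)) ≤ 1 + ρ → CC (oo n) ((g' : Op n) (oo n)) ≤ 1 + ρ →
      ∀ f : Fin (M + 1) → List (GG n),
        (∀ i, (f i).length ≤ 4 * M ∧ ∀ s ∈ f i, s = g ∨ s = g' ∨ s = g⁻¹ ∨ s = g'⁻¹) →
        ∃ i j, i ≠ j ∧ IsIsom (((f i).prod⁻¹ * (f j).prod : GG n) : Op n) ∧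
          hs ((((f i).prod⁻¹ * (f j).prod : GG n) : Op n) - 1) ≤ ε := by
  obtain ⟨c, hc1, hc⟩ := pack_rank (2 * r + 1) (9 * (2 * r + 1 : ℕ)) (ε := ε / 4) (by positivity)
  set M := c ^ (2 * r + 1) with hM
  have hev : ∀ᶠ t in 𝓝 (0 : ℝ), (√(1 + t) + √t) ^ (4 * M) < 2 := by
    have hcont : Continuous fun t : ℝ => (√(1 + t) + √t) ^ (4 * M) := by fun_prop
    refine hcont.continuousAt.eventually_lt continuousAt_const ?_
    simp
  obtain ⟨ρ, hρ2, hρ⟩ := ((hev.filter_mono nhdsWithin_le_nhds).and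
    (self_mem_nhdsWithin (s := Set.Ioi (0 : ℝ)))).exists
  have hρ0 : 0 < ρ := hρ
  refine ⟨M, ρ, hρ0, ?_⟩
  intro n g g' hg hg' r1 r2 c1 c2 f hf
  have hb : 1 ≤ √(1 + ρ) + √ρ := by
    have h1 : 1 ≤ √(1 + ρ) := Real.one_le_sqrt.mpr (by linarith)
    have h2 := Real.sqrt_nonneg ρ
    linarith
  set U : Submodule ℂ (V n) := LinearMap.range (((g : Op n) - 1 : Op n) : V n →ₗ[ℂ] V n) ⊔
    LinearMap.range (((g' : Op n) - 1 : Op n) : V n →ₗ[ℂ] V n) ⊔ (ℂ ∙ oo n) with hUdef
  have hUd : Module.finrank ℂ U ≤ 2 * r + 1 := by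
    refine (Submodule.finrank_add_le_finrank_add_finrank _ _).trans ?_
    have h1 := Submodule.finrank_add_le_finrank_add_finrank
      (LinearMap.range (((g : Op n) - 1 : Op n) : V n →ₗ[ℂ] V n))
      (LinearMap.range (((g' : Op n) - 1 : Op n) : V n →ₗ[ℂ] V n))
    have h2 : Module.finrank ℂ (ℂ ∙ oo n) = 1 :=
      finrank_span_singleton (ne_zero_of_mem_Neg oo_mem_Neg)
    omega
  have ho : oo n ∈ U := Submodule.mem_sup_right (Submodule.mem_span_singleton_self _)
  have u1 : ∀ v, (g : Op n) v - v ∈ U := fun v =>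
    Submodule.mem_sup_left (Submodule.mem_sup_left ⟨v, rfl⟩)
  have u2 : ∀ v, (g' : Op n) v - v ∈ U := fun v =>
    Submodule.mem_sup_left (Submodule.mem_sup_right ⟨v, rfl⟩)
  have G1 := c3b_gen hg u1 c1
  have G2 := c3b_gen hg' u2 c2
  have hw : ∀ i, IsIsom (((f i).prod : GG n) : Op n) ∧
      (∀ v, (((f i).prod : GG n) : Op n) v - v ∈ U) ∧
      ‖(((f i).prod : GG n) : Op n)‖ ≤ 2 ∧ ‖(((f i).prod⁻¹ : GG n) : Op n)‖ ≤ 2 := by
    intro i
    obtain ⟨i1, i2, i3, i4⟩ := c3b_word (U := U) hb (f i) (by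
      intro s hs
      rcases (hf i).2 s hs with rfl | rfl | rfl | rfl
      · exact G1.1
      · exact G2.1
      · exact G1.2
      · exact G2.2)
    have hp : (√(1 + ρ) + √ρ) ^ (f i).length ≤ 2 :=
      (pow_le_pow_right₀ hb (hf i).1).trans hρ2.le
    exact ⟨i1, i2, i3.trans hp, i4.trans hp⟩
  by_contra hcon
  push Not at hcon
  let T : Fin (M + 1) → Op n := fun i => (((f i).prod : GG n) : Op n) - 1
  have hsep : ∀ i j, i ≠ j → ε / 4 ≤ hs (T j - T i) := by
    intro i j hij
    have h1 := hcon i j hij (by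
      rw [Units.val_mul]
      exact (hw i).1.inv.mul (hw j).1)
    have e : (((f i).prod⁻¹ * (f j).prod : GG n) : Op n) - 1 =
        (((f i).prod⁻¹ : GG n) : Op n) * (T j - T i) := by
      simp only [T, sub_sub_sub_cancel_right, mul_sub, Units.val_mul, Units.inv_mul]
    rw [e] at h1
    have h2 := hs_mul_left (((f i).prod⁻¹ : GG n) : Op n) (T j - T i)
    have h3 : ‖(((f i).prod⁻¹ : GG n) : Op n)‖ ^ 2 ≤ 2 ^ 2 :=
      pow_le_pow_left₀ (norm_nonneg _) (hw i).2.2.2 2
    have h4 := mul_le_mul_of_nonneg_right h3 (hs_nonneg (T j - T i))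
    linarith
  have hinj : Function.Injective T := by
    intro i j hij
    by_contra hne
    have := hsep i j hne
    rw [hij, sub_self] at this
    have e : hs (0 : Op n) = 0 := by simp [hs]
    rw [e] at this
    linarith
  classical
  have hcard := hc n U (Finset.univ.image T) ?_ ?_
  · rw [Finset.card_image_of_injective _ hinj, Finset.card_univ, Fintype.card_fin] at hcard
    have : c ^ Module.finrank ℂ U ≤ M := Nat.pow_le_pow_right hc1 hUd
    omega
  · intro S hS
    obtain ⟨i, -, rfl⟩ := Finset.mem_image.mp hS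
    have a1 : ∀ v, T i v ∈ U := fun v => (hw i).2.1 v
    have a2 : ∀ v ∈ Uᗮ, T i v = 0 := fun v hv =>
      sub_eq_zero.mpr (c3b_fix (hw i).1 ho (hw i).2.1 v hv)
    refine ⟨?_, ?_, a1, a2⟩
    · refine le_trans (Submodule.finrank_mono ?_) hUd
      rintro _ ⟨v, rfl⟩
      exact a1 v
    · have a3 : ‖T i‖ ≤ 3 := by
        refine (norm_sub_le _ _).trans ?_
        have : ‖(1 : Op n)‖ ≤ 1 := ContinuousLinearMap.norm_id_le
        linarith [(hw i).2.2.1]
      have a4 : ‖T i‖ ^ 2 ≤ 3 ^ 2 := pow_le_pow_left₀ (norm_nonneg _) a3 2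
      have a5 : (Module.finrank ℂ U : ℝ) ≤ ((2 * r + 1 : ℕ) : ℝ) := by exact_mod_cast hUd
      refine (c3b_hs_le (T i) U a2).trans ?_
      refine mul_le_mul (by linarith) a5 (by positivity) (by norm_num)
  · intro S hS S' hS' hne
    obtain ⟨i, -, rfl⟩ := Finset.mem_image.mp hS
    obtain ⟨j, -, rfl⟩ := Finset.mem_image.mp hS'
    exact hsep j i fun h => hne (by rw [h])

theorem c3b_rank (h g : GG n) :
    Module.finrank ℂ
      (LinearMap.range ((((h⁻¹ * g * h : GG n) : Op n) - 1 : Op n) : V n →ₗ[ℂ] V n)) ≤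
    Module.finrank ℂ (LinearMap.range (((g : Op n) - 1 : Op n) : V n →ₗ[ℂ] V n)) := by
  refine le_trans (Submodule.finrank_mono ?_) (Submodule.finrank_map_le
    (((h⁻¹ : GG n) : Op n) : V n →ₗ[ℂ] V n)
    (LinearMap.range (((g : Op n) - 1 : Op n) : V n →ₗ[ℂ] V n)))
  rintro _ ⟨v, rfl⟩
  refine ⟨(g : Op n) ((h : Op n) v) - (h : Op n) v, ⟨(h : Op n) v, rfl⟩, ?_⟩
  change ((h⁻¹ : GG n) : Op n) ((g : Op n) ((h : Op n) v) - (h : Op n) v) =
    ((h⁻¹ : GG n) : Op n) ((g : Op n) ((h : Op n) v)) - v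
  rw [map_sub, inv_apply_apply]

/-- Among `M + 1` short words in two isometries of bounded rank that almost fix `x`, two are close. -/
theorem short_power (r : ℕ) {ε : ℝ} (hε : 0 < ε) : ∃ (M : ℕ) (ρ : ℝ), 0 < ρ ∧
    ∀ (n : ℕ) (g g' : GG n), IsIsom (g : Op n) → IsIsom (g' : Op n) →
      Module.finrank ℂ (LinearMap.range (((g : Op n) - 1 : Op n) : V n →ₗ[ℂ] V n)) ≤ r →
      Module.finrank ℂ (LinearMap.range (((g' : Op n) - 1 : Op n) : V n →ₗ[ℂ] V n)) ≤ r →
      ∀ x ∈ Neg n, CC x ((g : Op n) x) ≤ 1 + ρ → CC x ((g' : Op n) x) ≤ 1 + ρ →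
      ∀ f : Fin (M + 1) → List (GG n),
        (∀ i, (f i).length ≤ 4 * M ∧ ∀ s ∈ f i, s = g ∨ s = g' ∨ s = g⁻¹ ∨ s = g'⁻¹) →
        ∃ i j, i ≠ j ∧ uu (((f i).prod⁻¹ * (f j).prod : GG n) : Op n) x ≤ ε ∧
          ∀ v, qq x ((((f i).prod⁻¹ * (f j).prod : GG n) : Op n) v - v) ≤ ε * qq x v := by
  obtain ⟨M, ρ, hρ, H⟩ := c3b_core r hε
  refine ⟨M, ρ, hρ, ?_⟩
  intro n g g' hg hg' r1 r2 x hx c1 c2 f hf
  obtain ⟨h, hh, c, hc, rfl⟩ := exists_isom hx
  have iso : ∀ a : GG n, IsIsom (a : Op n) → IsIsom ((h⁻¹ * a * h : GG n) : Op n) := by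
    intro a ha
    rw [Units.val_mul, Units.val_mul]
    exact (hh.inv.mul ha).mul hh
  have cc : ∀ a : GG n, CC (oo n) (((h⁻¹ * a * h : GG n) : Op n) (oo n)) =
      CC (c • (h : Op n) (oo n)) ((a : Op n) (c • (h : Op n) (oo n))) := by
    intro a
    rw [map_smul, CC_smul_left hc, CC_smul_right hc, ← hh.CC_apply]
    congr 1
    exact apply_inv_apply h _
  let φ : GG n →* GG n := (MulAut.conj h⁻¹).toMonoidHom
  have hφ : ∀ a, φ a = h⁻¹ * a * h := fun a => by simp [φ]
  obtain ⟨i, j, hij, hI, hS⟩ := H n (h⁻¹ * g * h) (h⁻¹ * g' * h) (iso g hg) (iso g' hg')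
    ((c3b_rank h g).trans r1) ((c3b_rank h g').trans r2) (by rw [cc]; exact c1)
    (by rw [cc]; exact c2) (fun i => (f i).map φ) (by
      intro i
      refine ⟨by rw [List.length_map]; exact (hf i).1, ?_⟩
      intro s hs
      obtain ⟨t, ht, rfl⟩ := List.mem_map.mp hs
      rw [← hφ g, ← hφ g', ← map_inv, ← map_inv]
      rcases (hf i).2 t ht with rfl | rfl | rfl | rfl <;> simp)
  simp only [← map_list_prod, ← map_inv, ← map_mul] at hI hS
  set a : GG n := (f i).prod⁻¹ * (f j).prod with ha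
  have e : (a : Op n) = cnj h (φ a : Op n) := by
    rw [hφ, cnj, ← Units.val_mul, ← Units.val_mul]
    congr 1
    group
  refine ⟨i, j, hij, ?_, fun v => ?_⟩
  · rw [uu_smul_right hc, e, uu_cnj hh]
    exact (uu_le_hs hI).trans hS
  · obtain ⟨u, rfl⟩ : ∃ u, v = (h : Op n) u := ⟨_, (apply_inv_apply h v).symm⟩
    rw [qq_smul hc, qq_smul hc, e, cnj_apply, inv_apply_apply, ← map_sub, hh.qq_apply,
      hh.qq_apply, qq_oo, qq_oo]
    have h1 : ‖((φ a : GG n) : Op n) u - u‖ ≤ ‖((φ a : GG n) : Op n) - 1‖ * ‖u‖ :=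
      (((φ a : GG n) : Op n) - 1).le_opNorm u
    have h2 := pow_le_pow_left₀ (norm_nonneg _) h1 2
    rw [mul_pow] at h2
    exact h2.trans (mul_le_mul_of_nonneg_right ((norm_sq_le_hs _).trans hS) (by positivity))

end BallQ
end
end

-- merged part: Pool.Agent.Work.MP_72250f_ag.C3_1
section
/-! Auxiliary facts for the finite sets of angles. -/

open scoped ComplexConjugate ENNReal Topology
open MeasureTheory Filter

noncomputable section

namespace BallQ

variable {n : ℕ}

open scoped IsMulCommutative in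
/-- a finitely generated group with centre of finite index has finite images of finite exponent -/
theorem c3_finite {G K : Type*} [Group G] [Group K] [Group.FG G]
    (hZ : (Subgroup.center G).index ≠ 0) (ρ : G →* K) {m : ℕ} (hm : 1 ≤ m)
    (h : ∀ g, ρ (g ^ m) = 1) : Finite ρ.range := by
  have : (Subgroup.center G).FiniteIndex := ⟨hZ⟩
  let ρ' : Subgroup.center G →* K := ρ.comp (Subgroup.center G).subtype
  have h1 : Finite (Subgroup.center G ⧸ ρ'.ker) := by
    refine CommGroup.finite_of_fg_isMulTorsion _ fun x => ?_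
    obtain ⟨z, rfl⟩ := QuotientGroup.mk_surjective x
    refine isOfFinOrder_iff_pow_eq_one.2 ⟨m, hm, ?_⟩
    rw [← QuotientGroup.mk_pow, QuotientGroup.eq_one_iff]
    exact h z
  have h2 : ρ.ker.relIndex (Subgroup.center G) ≠ 0 :=
    Subgroup.index_ne_zero_of_finite (H := ρ'.ker)
  have h3 : (ρ.ker ⊓ Subgroup.center G).index ≠ 0 := by
    rw [← Subgroup.relIndex_mul_index (inf_le_right : ρ.ker ⊓ Subgroup.center G ≤ _),
      Subgroup.inf_relIndex_right]
    exact mul_ne_zero h2 hZ
  have h4 : ρ.ker.index ≠ 0 :=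
    ne_zero_of_dvd_ne_zero h3 (Subgroup.index_dvd_of_le inf_le_left)
  rw [Subgroup.index_ker] at h4
  exact Nat.finite_of_card_ne_zero h4

/-- the rank of an operator -/
def c3rk (T : Op n) : ℕ := Module.finrank ℂ (LinearMap.range (T : V n →ₗ[ℂ] V n))

theorem c3_tr_idem {T : Op n} (h : T * T = T) : tr T = c3rk T := by
  have h' : IsIdempotentElem (T : V n →ₗ[ℂ] V n) :=
    LinearMap.ext fun v => congrArg (fun S : Op n => S v) h
  exact (LinearMap.IsIdempotentElem.isProj_range _ h').trace

theorem c3rk_mul_le (S T : Op n) : c3rk (S * T) ≤ c3rk S :=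
  Submodule.finrank_mono (by
    rintro _ ⟨v, rfl⟩
    exact ⟨T v, rfl⟩)

theorem c3rk_add_le (S T : Op n) : c3rk (S + T) ≤ c3rk S + c3rk T :=
  le_trans (Submodule.finrank_mono (by
    rintro _ ⟨v, rfl⟩
    exact Submodule.add_mem_sup ⟨v, rfl⟩ ⟨v, rfl⟩))
    (Submodule.finrank_add_le_finrank_add_finrank _ _)

theorem c3_idem_apply {R : Op n} (hR : IsRound R) (v : V n) : R (R v) = R v :=
  congrArg (fun S : Op n => S v) hR.mul_self

theorem c3_isom_refl {R : Op n} (hR : IsRound R) : IsIsom (1 - (2 : ℂ) • R) := by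
  intro v w
  have h1 := hR.isGen.selfadj v w
  have h2 : form (R v) (R w) = form v (R w) := by rw [hR.isGen.selfadj, c3_idem_apply hR]
  simp only [sub_apply, smul_apply, one_apply_eq_self, form_sub_left, form_sub_right,
    form_smul_left, form_smul_right, h1, h2, map_ofNat]
  ring

theorem c3_neg {R : Op n} (hR : IsRound R) {y : V n} (hy : y ∈ Neg n) : (1 - R) y ∈ Neg n := by
  have h1 : form (y - R y) (R y) = 0 := by
    rw [← hR.isGen.selfadj, map_sub, c3_idem_apply hR, sub_self, form_zero_left]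
  have h2 := NN_add (y - R y) (R y)
  rw [h1, sub_add_cancel] at h2
  have h3 : NN (R y) ≤ 0 := by
    by_cases h : R y = 0
    · simp [h, NN]
    · exact (hR.pos y h).le
  have h4 : 0 < NN y := hy
  change 0 < NN (y - R y)
  simp only [Complex.zero_re] at h2
  linarith

theorem c3_comm_isom {M h : Op n} (hM : IsGenLt 1 M) (hh : IsIsom h) (hc : Commute h (flow M 1)) :
    Commute h (specP M Set.univ) := hM.isGen.commute_specP (commute_gen hM hh hc) _

theorem c3_comm_round {M R : Op n} (hM : IsGenLt 1 M) (hR : IsRound R)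
    (hc : Commute R (flow M 1)) : Commute R (specP M Set.univ) := by
  have h1 := c3_comm_isom hM (c3_isom_refl hR) ((Commute.one_left _).sub_left (hc.smul_left _))
  have h2 : R = (2⁻¹ : ℂ) • (1 - (1 - (2 : ℂ) • R)) := by
    rw [sub_sub_cancel, smul_smul]
    norm_num
  rw [h2]
  exact ((Commute.one_left _).sub_left h1).smul_left _

theorem c3_fix {M : Op n} (hM : IsGenLt 1 M) {T : Op n} (h : flow M 1 * T = T) :
    specP M Set.univ * T = 0 :=
  ContinuousLinearMap.ext fun v =>
    hM.isGen.specP_apply_of_ker _ (hM.ker_of_fix (congrArg (fun S : Op n => S v) h))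

theorem c3_flow_ker {M : Op n} (hM : IsGenLt 1 M) (h0 : nilp M = 0) :
    flow M 1 * (1 - specP M Set.univ) = 1 - specP M Set.univ := by
  refine ContinuousLinearMap.ext fun v => flow_apply_of_ker ?_ 1
  refine (hM.isGen.apply_eq_zero_iff _).2 ⟨?_, by rw [h0]; rfl⟩
  change specP M Set.univ (v - specP M Set.univ v) = 0
  rw [map_sub, c3_idem_apply (hM.isGen.isRound_specP _), sub_self]

theorem c3_pow_fix {g T : Op n} (h : g * T = T) (l : ℕ) : g ^ l * T = T := by
  induction l with
  | zero => rw [pow_zero, one_mul]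
  | succ l ih => rw [pow_succ, mul_assoc, h, ih]

theorem c3_comm_flow {M : Op n} (hM : IsGenLt 1 M) : Commute (flow M 1) (specP M Set.univ) :=
  c3_comm_isom hM hM.isGen.isIsom_flow_one (Commute.refl _)

theorem c3_pow_sub_one {M : Op n} (hM : IsGenLt 1 M) (h0 : nilp M = 0) (l : ℕ) :
    flow M 1 ^ l - 1 = specP M Set.univ * (flow M 1 ^ l - 1) := by
  have h1 := c3_pow_fix (c3_flow_ker hM h0) l
  have h2 := ((c3_comm_flow hM).pow_left l).eq
  rw [mul_sub, mul_one, h2] at h1
  rw [mul_sub, mul_one]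
  exact sub_eq_sub_iff_sub_eq_sub.1 h1

theorem c3_flow_pow (M : Op n) (m : ℕ) : flow M 1 ^ m = flow M m := by
  induction m with
  | zero => rw [pow_zero, Nat.cast_zero, flow_zero]
  | succ m ih => rw [pow_succ, ih, Nat.cast_succ, flow_add]

theorem c3_pow {M : Op n} (hM : IsGenLt 1 M) (h0 : nilp M = 0) (m : ℕ) :
    ∃ M1 : Op n, IsGenLt 1 M1 ∧ nilp M1 = 0 ∧ flow M1 1 = flow M 1 ^ m := by
  obtain ⟨F, -, rfl⟩ := hM
  rw [F.nilp_eq] at h0
  let F1 : Frame n :=
    { F with
      w := fun i => Int.fract (m * F.w i)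
      w0 := fun i => Int.fract_nonneg _
      w1 := fun i => (Int.fract_lt_one _).le }
  refine ⟨F1.op, ⟨F1, fun i => Int.fract_lt_one _, rfl⟩, F1.nilp_eq.trans h0, ?_⟩
  rw [c3_flow_pow, F1.flow_eq, F.flow_eq]
  change 1 + ∑ i, (Complex.exp (2 * Real.pi * Complex.I * 1 * (Int.fract (m * F.w i) : ℝ)) - 1) •
    rk1 (F.e i) (F.e i) + _ • rk1 F.p F.p = _
  rw [h0, smul_zero, smul_zero]
  congr 2
  refine Finset.sum_congr rfl fun i _ => ?_
  congr 2
  rw [Complex.exp_eq_exp_iff_exists_int]
  refine ⟨-⌊(m : ℝ) * F.w i⌋, ?_⟩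
  rw [Int.fract]
  push_cast
  ring

/-- averaging the powers gives the projection on the fixed vectors -/
theorem c3_avg {M : Op n} (hM : IsGenLt 1 M) (h0 : nilp M = 0) {m : ℕ} {Q : Op n}
    (hQ : flow M 1 ^ m * Q = Q) :
    (∑ l ∈ Finset.range m, (1 - flow M 1 ^ l)) * Q = (m : ℂ) • (specP M Set.univ * Q) := by
  have h1 : flow M 1 * ((∑ l ∈ Finset.range m, flow M 1 ^ l) * Q) =
      (∑ l ∈ Finset.range m, flow M 1 ^ l) * Q := by
    rw [← sub_eq_zero, ← mul_assoc, ← sub_mul, ← sub_one_mul, mul_geom_sum, sub_mul, hQ, one_mul,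
      sub_self]
  have h2 := c3_fix hM h1
  have h3 : ∑ l ∈ Finset.range m, (1 - flow M 1 ^ l) =
      specP M Set.univ * ∑ l ∈ Finset.range m, (1 - flow M 1 ^ l) := by
    rw [Finset.mul_sum]
    refine Finset.sum_congr rfl fun l _ => ?_
    rw [← neg_sub, mul_neg, ← c3_pow_sub_one hM h0]
  rw [h3, Finset.sum_sub_distrib, mul_assoc, sub_mul, mul_sub, h2, sub_zero, Finset.sum_const,
    Finset.card_range, smul_mul_assoc, one_mul, mul_smul_comm, Nat.cast_smul_eq_nsmul]

/-- equality case of the trace inequality in a positive definite space -/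
theorem c3_le {P P' : Op n} (hP : IsRound P) (hP' : IsRound P') {y : V n} (hy : y ∈ Neg n)
    (h1 : P y = 0) (h2 : P' y = 0) (h : tr (P * P') = tr P) : P' * P = P := by
  have hsa := hP.isGen.selfadj
  obtain ⟨F, hw, hp, rfl⟩ := hP
  have hop : F.op = ∑ i, rk1 (F.e i) (F.e i) := by
    simp [Frame.op, hw, hp, rk1_eq_zero.2 rfl]
  have he : ∀ i, F.op (F.e i) = F.e i := fun i => by
    rw [F.op_apply, hp, smul_zero, add_zero, Finset.sum_eq_single i]
    · simp [hw, F.on]
    · intro j _ hj
      simp [F.on, Ne.symm hj]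
    · simp
  have hd : ∀ i, form (F.e i - P' (F.e i)) y = 0 := fun i => by
    rw [form_sub_left, hP'.isGen.selfadj, h2, form_zero_right, sub_zero, ← he i, hsa, h1,
      form_zero_right]
  have hn : ∀ i, form (F.e i - P' (F.e i)) (F.e i - P' (F.e i)) =
      form (F.e i) (F.e i) - form (P' (F.e i)) (F.e i) := fun i => by
    rw [form_sub_right, ← hP'.isGen.selfadj, map_sub, c3_idem_apply hP', sub_self, form_zero_left,
      sub_zero, form_sub_left]
  have hs : ∑ i, NN (F.e i - P' (F.e i)) = 0 := by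
    rw [tr_mul_comm, hop, Finset.mul_sum, tr_sum, tr_sum] at h
    simp only [mul_rk1, tr_rk1] at h
    simp only [NN, hn]
    rw [Finset.sum_neg_distrib, ← Complex.re_sum, Finset.sum_sub_distrib, h, sub_self,
      Complex.zero_re, neg_zero]
  have hz := (Finset.sum_eq_zero_iff_of_nonpos fun i _ =>
    nonpos_of_perp (ne_zero_of_mem_Neg hy) (le_of_lt hy) (hd i)).1 hs
  have hfix : ∀ i, P' (F.e i) = F.e i := fun i => by
    by_contra hne
    exact (pos_of_perp_neg hy (hd i) (sub_ne_zero.2 (Ne.symm hne))).ne (hz i (Finset.mem_univ i))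
  rw [hop, Finset.mul_sum]
  simp only [mul_rk1, hfix]

theorem c3_eq {P P' : Op n} (hP : IsRound P) (hP' : IsRound P') {y : V n} (hy : y ∈ Neg n)
    (h1 : P y = 0) (h2 : P' y = 0) (h : tr P = tr P') (h' : tr (P * P') = tr P) : P = P' := by
  have e1 := c3_le hP hP' hy h1 h2 h'
  have e2 := c3_le hP' hP hy h2 h1 (by rw [tr_mul_comm, h', h])
  refine hP.ext hP' fun v => ⟨fun hv => ?_, fun hv => ?_⟩
  · have : P' (P v) = P v := congrArg (fun S : Op n => S v) e1
    rwa [hv] at this
  · have : P (P' v) = P' v := congrArg (fun S : Op n => S v) e2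
    rwa [hv] at this

end BallQ
end
end
end

-- merged part: Pool.Agent.Work.MP_72250f_ag.Z4
section
/-!
Lemma F prime. g = flow M 1 has the properties accretive (Im <g v, v> = 0 implies g v = v) and nonpos_eig.
Let a' = g a g^-1 commute with a. Case a elliptic: lemmaF with H = top (ell_diag). Otherwise pontryagin gives a null
eigenvector p, a p = l p. Case |l| = 1: a' fixes the line of p (fix_of_commute), a' is not elliptic with null eigenvector
g p, so g p is a multiple of p (null_unique) and g p = p (nonpos_eig, flow_apply_of_ker). Take a null q orthogonal to the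
frame with <q,p> = -1 (Frame.exists_neg, M p = 0), H = {p,q}-perp, pr v = v + <v,q> p; lemmaF on H for pr a, pr a', pr g.
Scale a so that a p = p. Write a q = q + eta + b p with eta in H, e_a = pr a, e_g = pr g (g preserves H and g q = q + c p).
Comparing a a' q = a' a q gives (e_a - 1)(e_g - 1) eta = 0 and an equality of imaginary parts; split eta = eta0 + eta1 with
eta0 fixed by e_a and eta1 in the range of e_a - 1: e_g eta1 = eta1, Im <e_g eta0, eta0> = 0, so g eta = eta and a' = a.
Case |l| not 1: q from lox_dual, lox_not_ell; a' fixes both lines (fix_of_commute), a' p = al p, a' q = be q. The null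
eigenvector g p of a' is a multiple of p or of q (otherwise eig_orth gives al = be and a' elliptic by ell_of_two_null);
same for g q. If g p = c q, g q = c' p: take a nonzero nonpositive y with M y = 0, its component s p + t q in span(p,q) is
nonzero and fixed by g, then z = s p - t q has g z = -z, and accretive gives g z = z, contradiction.
So g fixes p and q (nonpos_eig); apply lemmaF on H = {p,q}-perp (exists_eigenframe).
-/

open scoped ComplexConjugate ENNReal Topology
open MeasureTheory Filter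

noncomputable section

namespace BallQ

variable {n : ℕ}

/-- The common orthogonal of two vectors. -/
def z4_H (p q : V n) : Submodule ℂ (V n) where
  carrier := {v | form v p = 0 ∧ form v q = 0}
  add_mem' := fun {a b} ha hb =>
    ⟨by rw [form_add_left, ha.1, hb.1, add_zero], by rw [form_add_left, ha.2, hb.2, add_zero]⟩
  zero_mem' := ⟨form_zero_left _, form_zero_left _⟩
  smul_mem' := fun c a ha =>
    ⟨by rw [form_smul_left, ha.1, mul_zero], by rw [form_smul_left, ha.2, mul_zero]⟩

def z4_pr (p q : V n) : Op n := 1 + rk1 p q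

theorem z4_pr_apply (p q v : V n) : z4_pr p q v = v + form v q • p := rfl

theorem z4_NN {p : V n} (hp : form p p = 0) : 0 ≤ NN p := by simp [NN, hp]

theorem z4_perp {T : Op n} (hT : IsIsom T) {p v : V n} {l : ℂ} (hl : l ≠ 0) (h : T p = l • p)
    (hv : form v p = 0) : form (T v) p = 0 := by
  have := hT v p
  rw [h, form_smul_right, hv] at this
  exact (mul_eq_zero.1 this).resolve_left ((map_ne_zero _).2 hl)

section

variable {p q : V n}

theorem z4_pq (hqp : form q p = -1) : form p q = -1 := by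
  rw [← form_conj, hqp, map_neg, map_one]

theorem z4_ne (hqp : form q p = -1) : p ≠ 0 := by
  rintro rfl
  simp at hqp

theorem z4_pr_mem (hp : form p p = 0) (hqp : form q p = -1) {v : V n} (hv : form v p = 0) :
    z4_pr p q v ∈ z4_H p q := by
  refine ⟨?_, ?_⟩
  · rw [z4_pr_apply, form_add_left, form_smul_left, hv, hp, mul_zero, add_zero]
  · rw [z4_pr_apply, form_add_left, form_smul_left, z4_pq hqp]
    ring

theorem z4_pr_id {v : V n} (hv : v ∈ z4_H p q) : z4_pr p q v = v := by
  rw [z4_pr_apply, hv.2, zero_smul, add_zero]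

theorem z4_pr_pr (hqp : form q p = -1) {T : Op n} {l : ℂ} (h : T p = l • p) (v : V n) :
    z4_pr p q (T (z4_pr p q v)) = z4_pr p q (T v) := by
  have : z4_pr p q p = 0 := by rw [z4_pr_apply, z4_pq hqp, neg_one_smul, add_neg_cancel]
  rw [z4_pr_apply p q v, map_add, map_smul, h, map_add, map_smul, map_smul, this, smul_zero,
    smul_zero, add_zero]

theorem z4_pos (hp : form p p = 0) (hqp : form q p = -1) :
    ∀ v ∈ z4_H p q, v ≠ 0 → NN v < 0 := by
  intro v hv h0
  by_contra hc
  obtain ⟨c, rfl⟩ := eq_smul_of_perp (z4_ne hqp) (z4_NN hp) hv.1 (not_lt.1 hc)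
  have := hv.2
  rw [form_smul_left, z4_pq hqp, mul_neg_one, neg_eq_zero] at this
  exact h0 (by rw [this, zero_smul])

theorem z4_ext (hp : form p p = 0) (hq : form q q = 0) (hqp : form q p = -1) {S T : Op n}
    (h1 : S p = T p) (h2 : S q = T q) (h3 : ∀ v ∈ z4_H p q, S v = T v) : S = T := by
  ext1 v
  have hm : v + form v q • p + form v p • q ∈ z4_H p q := by
    refine ⟨?_, ?_⟩
    · simp only [form_add_left, form_smul_left, hp, hqp]
      ring
    · simp only [form_add_left, form_smul_left, hq, z4_pq hqp]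
      ring
  have := h3 _ hm
  simp only [map_add, map_smul, h1, h2] at this
  exact add_right_cancel (add_right_cancel this)

/-- The Frobenius lemma modulo `p`. -/
theorem z4_mod (hp : form p p = 0) (hqp : form q p = -1) {a a' : Op n} {g : GG n}
    (ha : IsIsom a) (ha' : IsIsom a') (hg : IsIsom (g : Op n)) {l : ℂ} (hl : l ≠ 0)
    (hap : a p = l • p) (hap' : a' p = l • p) (hgp : (g : Op n) p = p)
    (hgH : ∀ v ∈ z4_H p q, (g : Op n) v ∈ z4_H p q)
    (acc : ∀ v, (form ((g : Op n) v) v).im = 0 → (g : Op n) v = v)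
    (h1 : ∀ v, a' ((g : Op n) v) = (g : Op n) (a v)) (h2 : ∀ v, a (a' v) = a' (a v)) :
    ∀ v ∈ z4_H p q, z4_pr p q (a' v) = z4_pr p q (a v) := by
  have m1 : ∀ v ∈ z4_H p q, (z4_pr p q * a) v ∈ z4_H p q := fun v hv =>
    z4_pr_mem hp hqp (z4_perp ha hl hap hv.1)
  have m2 : ∀ v ∈ z4_H p q, (z4_pr p q * a') v ∈ z4_H p q := fun v hv =>
    z4_pr_mem hp hqp (z4_perp ha' hl hap' hv.1)
  have iso : ∀ v ∈ z4_H p q, ∀ w ∈ z4_H p q,
      form ((z4_pr p q * a) v) ((z4_pr p q * a) w) = form v w := by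
    intro v hv w hw
    have e1 := z4_perp ha hl hap hv.1
    have e2 := form_eq_zero_comm.1 (z4_perp ha hl hap hw.1)
    rw [mul_apply_eq_comp, mul_apply_eq_comp, z4_pr_apply, z4_pr_apply]
    simp only [form_add_left, form_add_right, form_smul_left, form_smul_right, e1, e2, hp, ha v w]
    ring
  have c1 : ∀ v ∈ z4_H p q, (z4_pr p q * a') ((g : Op n) v) = (g : Op n) ((z4_pr p q * a) v) := by
    intro v hv
    rw [mul_apply_eq_comp, mul_apply_eq_comp, h1, ← z4_pr_pr hqp (hgp.trans (one_smul ℂ p).symm)]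
    exact z4_pr_id (hgH _ (m1 v hv))
  have key := lemmaF (z4_H p q) (a := z4_pr p q * a) (a' := z4_pr p q * a') (c := (g : Op n))
    m1 m2 hgH (fun v _ h => hg.injective (h.trans (map_zero _).symm)) iso ?_
    (fun v _ h => acc v (by rw [h, Complex.zero_im])) c1 ?_
  · intro v hv
    have hu := inv_mem_of_maps g _ hgH v hv
    rw [← apply_inv_apply g v]
    exact (c1 _ hu).trans (key _ hu)
  · obtain ⟨m, e, c, e1, -, e3, e4, e5⟩ := exists_eigenframe (z4_H p q) (z4_pos hp hqp) m1 iso
    intro v hv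
    rw [e5 v hv]
    exact sum_mem fun i _ => Submodule.smul_mem _ _ (Submodule.subset_span ⟨e1 i, c i, e3 i, e4 i⟩)
  · intro v _
    simp only [mul_apply_eq_comp]
    rw [z4_pr_pr hqp hap, z4_pr_pr hqp hap', h2]

/-- The case of a null eigenvector with eigenvalue one. -/
theorem z4_par (hp : form p p = 0) (hq : form q q = 0) (hqp : form q p = -1) {a a' : Op n}
    {g : GG n} (ha : IsIsom a) (ha' : IsIsom a') (hg : IsIsom (g : Op n))
    (hap : a p = p) (hgp : (g : Op n) p = p) {c : ℂ} (hgq : (g : Op n) q = q + c • p)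
    (acc : ∀ v, (form ((g : Op n) v) v).im = 0 → (g : Op n) v = v)
    (h1 : ∀ v, a' ((g : Op n) v) = (g : Op n) (a v)) (h2 : ∀ v, a (a' v) = a' (a v)) :
    a' = a := by
  have hap' : a' p = p := by
    have := h1 p
    rwa [hap, hgp] at this
  have o1 := hap.trans (one_smul ℂ p).symm
  have o2 := hap'.trans (one_smul ℂ p).symm
  have o3 := hgp.trans (one_smul ℂ p).symm
  have hgH : ∀ v ∈ z4_H p q, (g : Op n) v ∈ z4_H p q := by
    intro v hv
    have e1 := z4_perp hg one_ne_zero o3 hv.1
    have e2 := hg v q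
    rw [hgq, form_add_right, form_smul_right, e1, hv.2, mul_zero, add_zero] at e2
    exact ⟨e1, e2⟩
  have hm := z4_mod hp hqp ha ha' hg one_ne_zero o1 o2 hgp hgH acc h1 h2
  obtain ⟨η, hη, b, haq⟩ : ∃ η ∈ z4_H p q, ∃ b : ℂ, a q = q + η + b • p := by
    refine ⟨z4_pr p q (a q - q), z4_pr_mem hp hqp ?_, -form (a q - q) q, ?_⟩
    · have := ha q p
      rw [hap] at this
      rw [form_sub_left, this, sub_self]
    · rw [z4_pr_apply]
      module
  obtain ⟨d, hd⟩ : ∃ d, (g : Op n) η = η + d := ⟨(g : Op n) η - η, by abel⟩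
  have hdH : d ∈ z4_H p q := by
    have := sub_mem (hgH η hη) hη
    rwa [hd, add_sub_cancel_left] at this
  have haq' : a' q = q + (η + d) + b • p := by
    have := h1 q
    rw [hgq, haq, map_add, map_add, map_add, map_smul, map_smul, hap', hgp, hgq, hd] at this
    rw [eq_sub_of_add_eq this]
    module
  have f1 : ∀ v ∈ z4_H p q, form (a v) q = -form (a v) η := by
    intro v hv
    have := ha v q
    rw [haq, form_add_right, form_add_right, form_smul_right, z4_perp ha one_ne_zero o1 hv.1,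
      hv.2] at this
    linear_combination this
  have f2 : ∀ v ∈ z4_H p q, form (a' v) q = -form (a' v) (η + d) := by
    intro v hv
    have := ha' v q
    rw [haq', form_add_right, form_add_right, form_smul_right, z4_perp ha' one_ne_zero o2 hv.1,
      hv.2] at this
    linear_combination this
  have f3 : ∀ v ∈ z4_H p q, ∀ w ∈ z4_H p q, form (a' v) w = form (a v) w := by
    intro v hv w hw
    have := congrArg (fun u => form u w) (hm v hv)
    simpa only [z4_pr_apply, form_add_left, form_smul_left, form_eq_zero_comm.1 hw.1, mul_zero,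
      add_zero] using this
  have star : a η + a d = d + a' η := by
    have := h2 q
    rw [haq', haq] at this
    simp only [map_add, map_smul, hap, hap', haq, haq'] at this
    rw [← sub_eq_zero] at this ⊢
    rw [← this]
    module
  have f4 : a d + form (a d) q • p = d := by
    have := congrArg (z4_pr p q) star
    rw [map_add, map_add, hm η hη, z4_pr_id hdH, add_comm] at this
    exact add_right_cancel this
  have f5 : form (a d) η = form d η := by
    have := congrArg (fun u => form u η) f4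
    simpa only [form_add_left, form_smul_left, form_eq_zero_comm.1 hη.1, mul_zero, add_zero]
      using this
  have f6 : form (a η) d = form η d := by
    have := congrArg (fun u => form (a η) u) f4
    simp only [form_add_right, form_smul_right, z4_perp ha one_ne_zero o1 hη.1, mul_zero,
      add_zero, ha η d] at this
    exact this.symm
  have f7 : form d η = form η d := by
    have := congrArg (fun u => form u q) star
    simp only [form_add_left, f1 η hη, f1 d hdH, f2 η hη, hdH.2, f3 η hη _ (add_mem hη hdH),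
      form_add_right, f5, f6] at this
    linear_combination -this
  have hd0 : d = 0 := by
    have := acc η (by
      rw [hd, form_add_left, Complex.add_im, form_self_im, zero_add, ← Complex.conj_eq_iff_im,
        form_conj, f7])
    rw [hd] at this
    exact add_eq_left.1 this
  subst hd0
  rw [add_zero] at haq' f2
  refine z4_ext hp hq hqp (hap'.trans hap.symm) (haq'.trans haq.symm) fun v hv => ?_
  have := hm v hv
  rw [z4_pr_apply, z4_pr_apply, f1 v hv, f2 v hv, f3 v hv η hη] at this
  exact add_right_cancel this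

end

/-- The case of an eigenvalue which is not a unit. -/
theorem z4_lox {a a' : Op n} {g : GG n} (ha : IsIsom a) (ha' : IsIsom a')
    (hg : IsIsom (g : Op n)) {p : V n} (hp0 : p ≠ 0) {l : ℂ} (hl : ‖l‖ ≠ 1) (hap : a p = l • p)
    {y : V n} (hy0 : y ≠ 0) (hy : 0 ≤ NN y) (hgy : (g : Op n) y = y)
    (acc : ∀ v, (form ((g : Op n) v) v).im = 0 → (g : Op n) v = v)
    (h1 : ∀ v, a' ((g : Op n) v) = (g : Op n) (a v)) (h2 : ∀ v, a (a' v) = a' (a v)) :
    a' = a := by
  have hp := lox_null ha hl hap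
  have hE := lox_not_ell ha hp0 hl hap
  obtain ⟨q, hq, hqp, haq⟩ := lox_dual ha hp0 hl hap
  have hpq := z4_pq hqp
  have hq0 : q ≠ 0 := z4_ne hpq
  have hl0 : l ≠ 0 := by
    rintro rfl
    exact hp0 (ha.injective (by rw [hap, zero_smul, map_zero]))
  have hl1 : conj l ≠ 0 := (map_ne_zero _).2 hl0
  have hll : l * conj l ≠ 1 := by
    intro h
    rw [Complex.mul_conj, Complex.normSq_eq_norm_sq] at h
    exact hl ((pow_eq_one_iff_of_nonneg (norm_nonneg l) two_ne_zero).1 (by exact_mod_cast h))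
  have hll' : (conj l)⁻¹ * conj (conj l)⁻¹ ≠ 1 := by
    rw [map_inv₀, Complex.conj_conj, ← mul_inv, Ne, inv_eq_one, mul_comm]
    exact hll
  have hc : Commute a' a := ContinuousLinearMap.ext fun v => (h2 v).symm
  obtain ⟨α, hα⟩ := fix_of_commute ha hE hp0 hp hap ha' hc
  obtain ⟨β, hβ⟩ := fix_of_commute ha hE hq0 hq haq ha' hc
  have e1 : a' ((g : Op n) p) = l • (g : Op n) p := by rw [h1, hap, map_smul]
  have e2 : a' ((g : Op n) q) = (conj l)⁻¹ • (g : Op n) q := by rw [h1, haq, map_smul]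
  have hab : α * conj β = 1 := by
    by_contra h
    have := eig_orth ha' hα hβ h
    rw [hpq] at this
    simp at this
  have hgp : (g : Op n) p = p := by
    by_cases c0 : form ((g : Op n) p) p = 0
    · exact acc p (by rw [c0, Complex.zero_im])
    have k1 : l * conj α = 1 := by
      by_contra h
      exact c0 (eig_orth ha' e1 hα h)
    have k2 : α = (conj l)⁻¹ := by
      have := congrArg conj k1
      rw [map_mul, Complex.conj_conj, map_one] at this
      exact eq_inv_of_mul_eq_one_right this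
    have k3 : conj β = conj l := by
      rw [k2] at hab
      field_simp at hab
      exact hab
    obtain ⟨c, hc⟩ := eq_smul_of_perp hq0 (z4_NN hq) (eig_orth ha' e1 hβ (by rwa [k3]))
      (by rw [hg.NN_apply]; exact z4_NN hp)
    obtain ⟨c', hc'⟩ := eq_smul_of_perp hp0 (z4_NN hp) (eig_orth ha' e2 hα (by rwa [k2]))
      (by rw [hg.NN_apply]; exact z4_NN hq)
    have j1 := hg y p
    have j2 := hg y q
    have j3 := hg p q
    rw [hgy, hc, form_smul_right] at j1
    rw [hgy, hc', form_smul_right] at j2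
    rw [hc, hc', form_smul_left, form_smul_right, hqp, hpq] at j3
    have j4 : form y p ≠ 0 := by
      intro h
      obtain ⟨k, rfl⟩ := eq_smul_of_perp hp0 (z4_NN hp) h hy
      rw [h, form_smul_left, hpq] at j2
      exact hy0 (by rw [show k = 0 by linear_combination j2, zero_smul])
    have j5 : conj c * conj c' = 1 :=
      mul_right_cancel₀ j4 (by linear_combination conj c * j2 + j1)
    have j6 : conj c = c := by linear_combination conj c * j3 + c * j5
    refine acc p ?_
    rw [hc, form_smul_left, hqp, mul_neg_one, Complex.neg_im, neg_eq_zero]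
    exact Complex.conj_eq_iff_im.1 j6
  have hap' : a' p = l • p := by rwa [hgp] at e1
  have hgq : (g : Op n) q = q := by
    have k1 : α = l := smul_left_injective ℂ hp0 (hα.symm.trans hap')
    have k2 : conj β = conj (conj l)⁻¹ := by
      rw [map_inv₀, Complex.conj_conj, ← k1]
      exact eq_inv_of_mul_eq_one_right hab
    exact acc q (by rw [eig_orth ha' e2 hβ (by rwa [k2]), Complex.zero_im])
  have haq' : a' q = (conj l)⁻¹ • q := by rwa [hgq] at e2
  have hgH : ∀ v ∈ z4_H p q, (g : Op n) v ∈ z4_H p q := fun v hv =>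
    ⟨z4_perp hg one_ne_zero (hgp.trans (one_smul ℂ p).symm) hv.1,
      z4_perp hg one_ne_zero (hgq.trans (one_smul ℂ q).symm) hv.2⟩
  have hm := z4_mod hp hqp ha ha' hg hl0 hap hap' hgp hgH acc h1 h2
  refine z4_ext hp hq hqp (hap'.trans hap.symm) (haq'.trans haq.symm) fun v hv => ?_
  have := hm v hv
  rwa [z4_pr_apply, z4_pr_apply, z4_perp ha (inv_ne_zero hl1) haq hv.2,
    z4_perp ha' (inv_ne_zero hl1) haq' hv.2, zero_smul, add_zero, add_zero] at this

theorem z4_main {a g : GG n} (ha : IsIsom (a : Op n)) (hg : IsIsom (g : Op n))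
    (acc : ∀ v, (form ((g : Op n) v) v).im = 0 → (g : Op n) v = v)
    {x r : V n} (hx : x ∈ Neg n) (hr : form r r = 0) (hgx : (g : Op n) x = x + r)
    (hgr : (g : Op n) r = r) (h : Commute (a : Op n) (cnj g (a : Op n))) :
    Commute (a : Op n) (g : Op n) := by
  have ha' : IsIsom (cnj g (a : Op n)) := hg.cnj ha
  have h1 : ∀ v, cnj g (a : Op n) ((g : Op n) v) = (g : Op n) ((a : Op n) v) := fun v => by
    rw [cnj_apply, inv_apply_apply]
  have h2 : ∀ v, (a : Op n) (cnj g (a : Op n) v) = cnj g (a : Op n) ((a : Op n) v) := fun v =>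
    congrArg (fun T : Op n => T v) h.eq
  by_cases hE : Ell (a : Op n)
  · exact ContinuousLinearMap.ext fun v => (lemmaF ⊤ (fun _ _ => trivial) (fun _ _ => trivial)
      (fun _ _ => trivial) (fun v _ h => hg.injective (h.trans (map_zero _).symm))
      (fun v _ w _ => ha v w) (ell_diag ha hE) (fun v _ h => acc v (by rw [h, Complex.zero_im]))
      (fun v _ => h1 v) (fun v _ => h2 v) v trivial).symm
  refine (cnj_eq_iff.1 ?_).symm
  obtain ⟨p, -, hp0, hpN, l, hap⟩ := pontryagin ⊤ ha (fun _ _ => trivial) ⟨x, trivial, hx⟩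
  by_cases hl : ‖l‖ = 1
  swap
  · by_cases hr0 : r = 0
    · exact z4_lox ha ha' hg hp0 hl hap (ne_zero_of_mem_Neg hx) (le_of_lt hx)
        (by rw [hgx, hr0, add_zero]) acc h1 h2
    · exact z4_lox ha ha' hg hp0 hl hap hr0 (z4_NN hr) hgr acc h1 h2
  have hp : form p p = 0 := by
    rcases hpN.eq_or_lt with h0 | h0
    · rw [form_self, ← h0, Complex.ofReal_zero, neg_zero]
    · exact (hE ⟨p, h0, l, hap⟩).elim
  have hE' : ¬ Ell (cnj g (a : Op n)) := by
    rintro ⟨y, hy, c, hc⟩
    refine hE ⟨((g⁻¹ : GG n) : Op n) y, hg.inv.mem_Neg.2 hy, c, hg.injective ?_⟩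
    rw [map_smul, apply_inv_apply, ← hc, cnj_apply]
  obtain ⟨α, hα⟩ := fix_of_commute ha hE hp0 hp hap ha' h.symm
  have hgp : (g : Op n) p = p := by
    have hn : form ((g : Op n) p) ((g : Op n) p) = 0 := by rw [hg, hp]
    obtain ⟨d, hd⟩ := null_unique ha' hE' (p := (g : Op n) p)
      (fun h0 => hp0 (hg.injective (h0.trans (map_zero _).symm))) hn hp hl
      (by rw [h1, hap, map_smul]) hα
    refine acc p ?_
    have : form ((g : Op n) p) (d • (g : Op n) p) = 0 := by rw [form_smul_right, hn, mul_zero]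
    rw [← hd] at this
    rw [this, Complex.zero_im]
  obtain ⟨s, t, hq, hqp⟩ := exists_null_dual hp0 hp hx
  obtain ⟨c, hc⟩ := eq_smul_of_perp hp0 hpN (v := r) (by
    have := hg x p
    rw [hgx, hgp, form_add_left] at this
    exact add_eq_left.1 this) (z4_NN hr)
  have hl' : ‖conj l‖ = 1 := by rwa [Complex.norm_conj]
  have hll : conj l * l = 1 := by
    rw [mul_comm, Complex.mul_conj, Complex.normSq_eq_norm_sq, hl]
    simp
  have key := z4_par hp hq hqp (ha.smul hl') (ha'.smul hl') hg
    (by rw [smul_apply, hap, smul_smul, hll, one_smul]) hgp (c := s * c)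
    (by rw [map_add, map_smul, map_smul, hgx, hgp, hc]; module) acc
    (fun v => by rw [smul_apply, smul_apply, map_smul, h1])
    (fun v => by simp only [smul_apply, map_smul, h2])
  exact smul_right_injective _ (left_ne_zero_of_mul_eq_one hll) key

theorem lemmaF' {M : Op n} (hM : IsGenLt (1 / 2) M) {a : GG n} (ha : IsIsom (a : Op n))
    (h : Commute (a : Op n) (cnj (flowU M 1) (a : Op n))) : Commute (a : Op n) (flow M 1) := by
  have hg := hM.isGen.isIsom_flow_one
  have acc := fun v => hM.accretive (v := v)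
  obtain ⟨F, -, rfl⟩ := hM
  obtain ⟨x, hx, hxe⟩ := F.exists_neg
  have e : ∀ v, (∀ i, form v (F.e i) = 0) →
      flow F.op 1 v = v + ((2 * Real.pi * Complex.I * 1) * form v F.p) • F.p := by
    intro v hv
    rw [F.flow_eq]
    simp [hv, smul_smul]
  refine z4_main (g := flowU F.op 1) ha hg acc hx ?_ (e x hxe) ?_ h
  · rw [form_smul_left, form_smul_right, F.pp, mul_zero, mul_zero]
  · rw [coe_flowU, map_smul, e F.p F.pe, F.pp, mul_zero, zero_smul, add_zero]

end BallQ
end
end
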