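import Pool.Agent.Work.MP_72250f_ag.Z2
import Pool.Agent.Work.MP_72250f_ag.M3
import Pool.Agent.Work.MP_72250f_ag.Z4

-- merged part: Pool.Agent.Work.MP_72250f_ag.A2
section
/-!
Algebra of the coefficient operators. Outside Neg everything vanishes (real flows are isometries), on Neg the integrands are
continuous. coef_coef: coef_flow for real s and the integral of exp(2 pi i x m) over [0,1]. coef_comm: commuting flows and
Fubini (intervalIntegral_integral_swap or integral_integral_swap). mass_split: for u in Neg the finite Bessel identity for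
Psi x = G (flow M x u) exp(2 pi i x k tr M) on [0,1] (|exp| = 1 as tr M is real), where (G - low G)(flow x u) exp(..) = Psi x - sum of
a_j exp(2 pi i j x); then mass S H = integral over x in [0,1] of the mass of H o flow x (lintegral_isomQ), Tonelli.
-/

open scoped ComplexConjugate ENNReal Topology
open MeasureTheory Filter

noncomputable section

namespace BallQ

variable {n : ℕ}

theorem a2_avg {Λ : Subgroup (GG n)} (hΛ : Proper Λ) {ψ : V n → ℝ≥0∞} (hψ : IsWeight Λ ψ)
    {w : ℕ} {G : V n → ℂ} (hG : IsHol w G) (hi : Inv Λ G) {M : Op n} (hM : IsGen M)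
    (hc : ∀ g ∈ Λ, Commute (g : Op n) M) {S : Set (V n)} (hS : Region Λ S)
    (hf : ∀ (x : ℝ), ∀ v ∈ S, flow M x v ∈ S) : mass w G S ψ =
      ∫⁻ v in S, (∫⁻ x in Set.Ioc (0 : ℝ) 1, petE w G (flow M x v)) * ψ v ∂(nu n) := by
  have hI := hG.invF hΛ hi
  have h1 : ∀ x : ℝ, ∫⁻ v in S, petE w G (flow M x v) * ψ v ∂(nu n) = mass w G S ψ := fun x => by
    have h2 := lintegral_isomQ hΛ hψ (M := flowU M x) (hM.isIsom_flow x)
      (fun g hg => Commute.units_of_val (commute_flow (hc g hg) x)) (hS.invF hI)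
    rw [mass, ← lintegral_indicator hS.meas, ← lintegral_indicator hS.meas]
    simp only [Set.indicator_mul_left]
    rw [← h2]
    refine lintegral_congr fun v => congrArg (· * ψ v) ?_
    by_cases hv : v ∈ S
    · rw [Set.indicator_of_mem hv, coe_flowU, Set.indicator_of_mem (hf x v hv)]
    · rw [Set.indicator_of_notMem hv, coe_flowU, Set.indicator_of_notMem fun h => hv ?_]
      have h3 := hf (-x) _ h
      rwa [← mul_apply_eq_comp, ← flow_add, Complex.ofReal_neg, neg_add_cancel, flow_zero,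
        one_apply_eq_self] at h3
  have h2 : Continuous fun q : ℝ × V n => flow M q.1 q.2 :=
    ((continuous_flow M).comp (Complex.continuous_ofReal.comp continuous_fst)).clm_apply
      continuous_snd
  have h3 : Measurable fun q : ℝ × V n => petE w G (flow M q.1 q.2) := by
    simpa only [Function.comp_def] using hI.meas.comp h2.measurable
  have h4 : Measurable fun q : ℝ × V n => ψ q.2 := by
    simpa only [Function.comp_def] using hψ.meas.comp (measurable_snd (α := ℝ))
  have h5 := lintegral_lintegral_swap (μ := volume.restrict (Set.Ioc (0 : ℝ) 1))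
    (ν := (nu n).restrict S) (f := fun x v => petE w G (flow M x v) * ψ v)
    (h3.fun_mul h4).aemeasurable
  simp only [h1, lintegral_const, MeasurableSet.univ, Measure.restrict_apply, Set.univ_inter,
    Real.volume_Ioc, sub_zero, ENNReal.ofReal_one, mul_one] at h5
  rw [h5]
  refine lintegral_congr fun v => lintegral_mul_const _ ?_
  simpa only [Function.comp_def] using h3.comp (measurable_prodMk_right (y := v))

theorem a2_var {Φ : ℝ → ℂ} (hΦ : Continuous Φ) {a : ℂ} (ha : a = ∫ x in (0 : ℝ)..1, Φ x) :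
    ∫ x in (0 : ℝ)..1, ‖Φ x‖ ^ 2 = (∫ x in (0 : ℝ)..1, ‖Φ x - a‖ ^ 2) + ‖a‖ ^ 2 := by
  have h1 : ∀ x, ‖Φ x‖ ^ 2 = ‖Φ x - a‖ ^ 2 + (2 * (Φ x * conj a).re - ‖a‖ ^ 2) := fun x => by
    simp only [← Complex.normSq_eq_norm_sq, Complex.normSq_sub]
    ring
  have h2 : ∫ x in (0 : ℝ)..1, (Φ x * conj a).re = ‖a‖ ^ 2 := by
    have := Complex.reCLM.intervalIntegral_comp_comm
      ((hΦ.mul continuous_const (g := fun _ => conj a)).intervalIntegrable (μ := volume) 0 1)
    simp only [Complex.reCLM_apply, Pi.mul_apply] at this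
    rw [this, intervalIntegral.integral_mul_const, ← ha, Complex.mul_conj, Complex.ofReal_re,
      Complex.normSq_eq_norm_sq]
  rw [intervalIntegral.integral_congr fun x _ => h1 x, intervalIntegral.integral_add,
    intervalIntegral.integral_sub, intervalIntegral.integral_const_mul, h2]
  · simp
    ring
  all_goals exact Continuous.intervalIntegrable (by fun_prop) _ _

theorem a2_ofReal {f : ℝ → ℝ} (hf : Continuous f) (h0 : ∀ x, 0 ≤ f x) {c : ℝ} (hc : 0 ≤ c) :
    ∫⁻ x in Set.Ioc (0 : ℝ) 1, ENNReal.ofReal (f x * c) =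
      ENNReal.ofReal ((∫ x in (0 : ℝ)..1, f x) * c) := by
  rw [← intervalIntegral.integral_mul_const, intervalIntegral.integral_of_le zero_le_one,
    ofReal_integral_eq_lintegral_ofReal
      ((hf.fun_mul continuous_const).intervalIntegrable (μ := volume) 0 1).1
      (Eventually.of_forall fun x => mul_nonneg (h0 x) hc)]

theorem a2_point {w k : ℕ} {G : V n → ℂ} (hG : IsHol w G) {M : Op n} (hM : IsGen M)
    (hP : Per k M G) (j : ℕ) {u : V n} (hu : u ∈ Neg n) :
    ∫⁻ x in Set.Ioc (0 : ℝ) 1, petE w G (flow M x u) =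
      (∫⁻ x in Set.Ioc (0 : ℝ) 1, petE w (G - coef k M j G) (flow M x u)) +
        petE w (coef k M j G) u := by
  have hN : 0 ≤ NN u ^ w := pow_nonneg (le_of_lt hu) w
  have h0 : Continuous fun x : ℝ => flow M x u :=
    ((continuous_flow M).comp Complex.continuous_ofReal).clm_apply continuous_const
  have h1 : Continuous fun x : ℝ => G (flow M x u) :=
    hG.diff.continuousOn.comp_continuous h0 fun x => (hM.isIsom_flow x).mem_Neg.2 hu
  obtain ⟨e, he⟩ : ∃ e : ℝ → ℂ,
    ∀ x, e x = Complex.exp (2 * Real.pi * Complex.I * x * (k * tr M - j)) := ⟨_, fun _ => rfl⟩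
  have h2 : Continuous fun x : ℝ => G (flow M x u) * e x := by
    simp only [he]
    exact h1.fun_mul (by fun_prop)
  have h3 : ∀ x, ‖e x‖ = 1 := fun x => by
    rw [he, hM.tr_eq, ← Complex.norm_exp_ofReal_mul_I (2 * Real.pi * x * (k * age M - j))]
    congr 2
    push_cast
    ring
  have h4 : ∀ x : ℝ, coef k M j G (flow M x u) * e x = coef k M j G u := fun x => by
    rw [he, mul_sub, Complex.exp_sub, ← mul_div_assoc, coef_flow hG hM hP j hu (by simp),
      mul_div_cancel_left₀ _ (Complex.exp_ne_zero _)]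
  have h5 : ∀ x : ℝ, petE w G (flow M x u) =
      ENNReal.ofReal (‖G (flow M x u) * e x‖ ^ 2 * NN u ^ w) := fun x => by
    rw [petE, (hM.isIsom_flow x).NN_apply, norm_mul, h3, mul_one]
  have h6 : ∀ x : ℝ, petE w (G - coef k M j G) (flow M x u) =
      ENNReal.ofReal (‖G (flow M x u) * e x - coef k M j G u‖ ^ 2 * NN u ^ w) := fun x => by
    rw [petE, (hM.isIsom_flow x).NN_apply, ← h4 x, ← sub_mul, norm_mul, h3, mul_one, Pi.sub_apply]
  simp only [h5, h6]
  rw [a2_ofReal (by fun_prop) (fun x => sq_nonneg _) hN,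
    a2_ofReal (by fun_prop) (fun x => sq_nonneg _) hN,
    a2_var h2 (a := coef k M j G u) (by simp only [he]; rfl), add_mul, petE,
    ENNReal.ofReal_add (mul_nonneg (intervalIntegral.integral_nonneg zero_le_one
      fun x _ => sq_nonneg _) hN) (mul_nonneg (sq_nonneg _) hN)]

theorem a2_inv_sub {Λ : Subgroup (GG n)} {G H : V n → ℂ} (hG : Inv Λ G) (hH : Inv Λ H) :
    Inv Λ (G - H) := fun g hg v => by rw [Pi.sub_apply, Pi.sub_apply, hG g hg, hH g hg]

theorem a2_step {Λ : Subgroup (GG n)} (hΛ : Proper Λ) {ψ : V n → ℝ≥0∞} (hψ : IsWeight Λ ψ)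
    {w k : ℕ} {G : V n → ℂ} (hG : IsHol w G) (hi : Inv Λ G) {M : Op n} (hM : IsGen M)
    (hc : ∀ g ∈ Λ, Commute (g : Op n) M) (hP : Per k M G) {S : Set (V n)} (hS : Region Λ S)
    (hf : ∀ (x : ℝ), ∀ v ∈ S, flow M x v ∈ S) (j : ℕ) :
    mass w G S ψ = mass w (G - coef k M j G) S ψ + mass w (coef k M j G) S ψ := by
  have h1 := isHol_coef (k := k) hG hM j
  have h2 := inv_coef (k := k) hi hc j
  rw [a2_avg hΛ hψ hG hi hM hc hS hf, a2_avg hΛ hψ (hG.sub h1) (a2_inv_sub hi h2) hM hc hS hf,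
    mass, ← lintegral_add_right _ ((h1.invF hΛ h2).meas.fun_mul hψ.meas)]
  exact setLIntegral_congr_fun hS.meas fun v hv => by
    rw [a2_point hG hM hP j (hS.neg hv), add_mul]

theorem mass_split {Λ : Subgroup (GG n)} (hΛ : Proper Λ) {ψ : V n → ℝ≥0∞} (hψ : IsWeight Λ ψ)
    {w k : ℕ} {G : V n → ℂ} (hG : IsHol w G) (hi : Inv Λ G) {M : Op n} (hM : IsGen M)
    (hc : ∀ g ∈ Λ, Commute (g : Op n) M) (hP : Per k M G) {S : Set (V n)} (hS : Region Λ S)
    (hf : ∀ (x : ℝ), ∀ v ∈ S, flow M x v ∈ S) (J : ℕ) :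
    mass w G S ψ = mass w (G - low k M J G) S ψ +
      ∑ j ∈ Finset.range J, mass w (coef k M j G) S ψ := by
  induction J with
  | zero => simp [low]
  | succ J ih =>
    have h1 := isHol_low (k := k) hG hM J
    have h2 : Inv Λ (low k M J G) := fun g hg v => by
      simp only [low, Finset.sum_apply, inv_coef hi hc _ g hg v]
    have h3 : coef k M J (G - low k M J G) = coef k M J G := by
      rw [coef_sub hG h1 hM, coef_low hG hM hM, Finset.sum_eq_zero, sub_zero]
      intro i hi'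
      rw [coef_coef hG hM hP, if_neg (Finset.mem_range.1 hi').ne]
    rw [ih, a2_step hΛ hψ (hG.sub h1) (a2_inv_sub hi h2) hM hc
      (hP.sub (per_low (Commute.refl M) hP J)) hS hf J, h3, Finset.sum_range_succ, sub_sub, low, low,
      Finset.sum_range_succ, add_assoc, add_comm (mass w (coef k M J G) S ψ)]

end BallQ
end
end

-- merged part: Pool.Agent.Work.MP_72250f_ag.A3a
section
/-!
markov: apply lintegral_JQ to M_y = flowU M (i y) and f = indicator of S times petE G. For v in S,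
petE G (M_y v) Jac M_y v = petE G v exp(-4 pi y (j - (k-1) age)) (1 + m_y v)^((k-1)(n+1)) with
m_y v = (NN (M_y v) - NN v) / NN v >= 0 (det_flow, age_nonneg), so by Bernoulli
(k-1)(n+1) integral of m_y petE psi <= (exp(4 pi y j) - 1) mass; divide by y, Fatou along y = 1/(i+1) (tendsto_NN_flow).
avoid: lintegral_JQ in the other direction for f = indicator S * petE G, det = 1 (tr = 0), IsNull.NN_flow,
norm_flow_le_of_cond, Tonelli and lintegral_isomQ for the real flow.
rank_le: <G,H> = integral over Om of G conj H NN^w psi is an inner product on W (definite by ae_zero_of_weight,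
nu_open_ne_zero, continuity and IsHol.eq_zero); take an orthonormal basis G_i (InnerProductSpace.Core, stdOrthonormalBasis); for
x in S the function H = sum conj (G_i x) G_i has mass b = sum |G_i x|^2 and H x = b, so submean and ball_le give
sum petE G_i x * mass0 <= cnt; integrate over S against psi.
-/

open scoped ComplexConjugate ENNReal Topology
open MeasureTheory Filter

noncomputable section

namespace BallQ

variable {n : ℕ}

/-- relative increase of `NN` along the imaginary flow -/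
def a3a_m (M : Op n) (y : ℝ) (v : V n) : ℝ := (NN (flow M (y * Complex.I) v) - NN v) / NN v

theorem a3a_meas (M : Op n) (y : ℝ) : Measurable (a3a_m M y) :=
  ((continuous_NN.comp (flow M (y * Complex.I)).continuous).sub continuous_NN).measurable.div
    continuous_NN.measurable

theorem a3a_im {y : ℝ} (hy : 0 ≤ y) : 0 ≤ ((y : ℂ) * Complex.I).im := by simpa using hy

theorem a3a_nonneg {M : Op n} (hM : IsGen M) {y : ℝ} (hy : 0 ≤ y) {v : V n} (hv : v ∈ Neg n) :
    0 ≤ a3a_m M y v :=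
  div_nonneg (sub_nonneg.2 (hM.NN_le_flow (a3a_im hy) v)) (le_of_lt hv)

theorem a3a_exp (y a : ℝ) :
    ‖Complex.exp (2 * Real.pi * Complex.I * (y * Complex.I) * a)‖ =
      Real.exp (-(2 * Real.pi * y * a)) := by
  have : 2 * Real.pi * Complex.I * (y * Complex.I) * a = ((-(2 * Real.pi * y * a) : ℝ) : ℂ) := by
    push_cast
    linear_combination (2 * Real.pi * y * a) * Complex.I_mul_I
  rw [this, Complex.norm_exp_ofReal]

theorem a3a_bern {N N' : ℝ} (h0 : 0 < N) (h : N ≤ N') (K l : ℕ) :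
    N ^ (K + l) * (1 + K * ((N' - N) / N)) ≤ N' ^ (K + l) * (N / N') ^ l := by
  have h1 : 0 < N' := h0.trans_le h
  have h2 : 0 ≤ (N' - N) / N := div_nonneg (sub_nonneg.2 h) h0.le
  have h3 := one_add_mul_le_pow (a := (N' - N) / N) (by linarith) K
  have h4 : N' ^ (K + l) * (N / N') ^ l = N ^ (K + l) * (1 + (N' - N) / N) ^ K := by
    have : 1 + (N' - N) / N = N' / N := by field_simp; ring
    rw [this, div_pow, div_pow, pow_add, pow_add]
    field_simp
  rw [h4]
  exact mul_le_mul_of_nonneg_left h3 (by positivity)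

theorem a3a_pt {k j : ℕ} {G : V n → ℂ} {M : Op n} (hM : IsGen M) {y : ℝ} (hy : 0 ≤ y) {v : V n}
    (hv : v ∈ Neg n)
    (hj : G (flow M (y * Complex.I) v) * Complex.exp (2 * Real.pi * Complex.I * (y * Complex.I) *
      ((k + 1 : ℕ) * tr M)) = Complex.exp (2 * Real.pi * Complex.I * (y * Complex.I) * j) * G v) :
    petE ((k + 1) * (n + 1)) G v +
        ENNReal.ofReal ((k * (n + 1) : ℕ) * a3a_m M y v) * petE ((k + 1) * (n + 1)) G v ≤
      ENNReal.ofReal (Real.exp (4 * Real.pi * y * j)) *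
        (petE ((k + 1) * (n + 1)) G (flow M (y * Complex.I) v) * Jac (flow M (y * Complex.I)) v) := by
  have hm := a3a_nonneg hM hy hv
  have h0 : 0 < NN v := hv
  have h1 := hM.NN_le_flow (a3a_im hy) v
  have h2 : 0 < NN (flow M (y * Complex.I) v) := h0.trans_le h1
  have hd : ‖(flow M (y * Complex.I)).det‖ = Real.exp (-(2 * Real.pi * y * age M)) := by
    rw [hM.det_flow, hM.tr_eq, a3a_exp]
  have e := congrArg norm hj
  rw [hM.tr_eq, norm_mul, norm_mul, ← Complex.ofReal_natCast, ← Complex.ofReal_natCast,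
    ← Complex.ofReal_mul, a3a_exp, a3a_exp] at e
  have hc := hM.age_nonneg
  have h3 : Real.exp (-(2 * Real.pi * y * ((k + 1 : ℕ) * age M))) ≤
      Real.exp (-(2 * Real.pi * y * age M)) := by
    rw [Real.exp_le_exp, neg_le_neg_iff]
    refine mul_le_mul_of_nonneg_left ?_ (by positivity)
    push_cast
    nlinarith [mul_nonneg (Nat.cast_nonneg (α := ℝ) k) hc]
  have h4 : ‖G v‖ ≤ Real.exp (2 * Real.pi * y * j) *
      (‖G (flow M (y * Complex.I) v)‖ * ‖(flow M (y * Complex.I)).det‖) := by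
    rw [hd, ← inv_mul_le_iff₀ (Real.exp_pos _), ← Real.exp_neg, ← e]
    exact mul_le_mul_of_nonneg_left h3 (norm_nonneg _)
  have h5 := pow_le_pow_left₀ (norm_nonneg _) h4 2
  rw [mul_pow, mul_pow, ← Real.exp_nat_mul,
    show ((2 : ℕ) : ℝ) * (2 * Real.pi * y * j) = 4 * Real.pi * y * j by push_cast; ring] at h5
  have h6 := a3a_bern h0 h1 (k * (n + 1)) (n + 1)
  rw [show k * (n + 1) + (n + 1) = (k + 1) * (n + 1) by ring] at h6
  have h7 := mul_le_mul h5 h6 (by positivity) (by positivity)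
  unfold petE Jac
  rw [← ENNReal.ofReal_mul (by positivity), ← ENNReal.ofReal_add (by positivity) (by positivity),
    ← ENNReal.ofReal_mul (by positivity), ← ENNReal.ofReal_mul (by positivity)]
  refine ENNReal.ofReal_le_ofReal ?_
  unfold a3a_m
  linarith

theorem a3a_step {Λ : Subgroup (GG n)} (hΛ : Proper Λ) {ψ : V n → ℝ≥0∞} (hψ : IsWeight Λ ψ)
    {k j : ℕ} {G : V n → ℂ} (hG : IsHol ((k + 1) * (n + 1)) G) (hi : Inv Λ G) {M : Op n}
    (hM : IsGen M) (hc : ∀ g ∈ Λ, Commute (g : Op n) M)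
    (hj : ∀ u ∈ Neg n, ∀ s : ℂ, 0 ≤ s.im →
      G (flow M s u) * Complex.exp (2 * Real.pi * Complex.I * s * ((k + 1 : ℕ) * tr M)) =
        Complex.exp (2 * Real.pi * Complex.I * s * j) * G u)
    {S : Set (V n)} (hS : Region Λ S)
    (hf : ∀ y : ℝ, 0 ≤ y → ∀ v ∈ S, flow M (y * Complex.I) v ∈ S)
    (hfin : mass ((k + 1) * (n + 1)) G S ψ ≠ ⊤) {y : ℝ} (hy : 0 ≤ y) :
    ∫⁻ v in S, ENNReal.ofReal ((k * (n + 1) : ℕ) * a3a_m M y v) *
        (petE ((k + 1) * (n + 1)) G v * ψ v) ∂(nu n) ≤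
      ENNReal.ofReal (Real.exp (4 * Real.pi * y * j) - 1) * mass ((k + 1) * (n + 1)) G S ψ := by
  have hP := hG.invF hΛ hi
  have hJ := lintegral_JQ hΛ hψ (flowU M (y * Complex.I))
    (fun v hv => hM.flow_mem_Neg (a3a_im hy) hv)
    (fun g hg => Commute.units_val_iff.1 (commute_flow (hc g hg) _)) (hS.invF hP)
  have h1 : ∫⁻ v in S, petE ((k + 1) * (n + 1)) G (flow M (y * Complex.I) v) *
      Jac (flow M (y * Complex.I)) v * ψ v ∂(nu n) ≤ mass ((k + 1) * (n + 1)) G S ψ := by
    rw [← lintegral_indicator hS.meas, mass, ← lintegral_indicator hS.meas]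
    refine le_trans (lintegral_mono fun v => ?_) (hJ.le.trans
      ((setLIntegral_le_lintegral _ _).trans (lintegral_mono fun v => ?_)))
    · by_cases hv : v ∈ S
      · rw [Set.indicator_of_mem hv, coe_flowU, Set.indicator_of_mem (hf y hy v hv)]
      · rw [Set.indicator_of_notMem hv]
        exact zero_le
    · by_cases hv : v ∈ S
      · rw [Set.indicator_of_mem hv, Set.indicator_of_mem hv]
      · rw [Set.indicator_of_notMem hv, zero_mul]
        exact zero_le
  have h2 : mass ((k + 1) * (n + 1)) G S ψ +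
      ∫⁻ v in S, ENNReal.ofReal ((k * (n + 1) : ℕ) * a3a_m M y v) *
        (petE ((k + 1) * (n + 1)) G v * ψ v) ∂(nu n) ≤
      ENNReal.ofReal (Real.exp (4 * Real.pi * y * j)) * mass ((k + 1) * (n + 1)) G S ψ := by
    refine le_trans ?_ (mul_le_mul_right h1 _)
    rw [mass, ← lintegral_add_left (hP.meas.fun_mul hψ.meas),
      ← lintegral_const_mul' _ _ ENNReal.ofReal_ne_top]
    refine setLIntegral_mono' hS.meas fun v hv => ?_
    rw [← mul_assoc, ← add_mul, ← mul_assoc]
    exact mul_le_mul_left (a3a_pt hM hy (hS.neg hv) (hj v (hS.neg hv) _ (a3a_im hy))) _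
  have h3 : 1 ≤ Real.exp (4 * Real.pi * y * j) := Real.one_le_exp (by positivity)
  have h4 : ENNReal.ofReal (Real.exp (4 * Real.pi * y * j)) =
      1 + ENNReal.ofReal (Real.exp (4 * Real.pi * y * j) - 1) := by
    rw [← ENNReal.ofReal_one, ← ENNReal.ofReal_add zero_le_one (sub_nonneg.2 h3), add_sub_cancel]
  rw [h4, add_mul (1 : ℝ≥0∞), one_mul (mass _ G S ψ)] at h2
  exact (ENNReal.add_le_add_iff_left hfin).1 h2

theorem a3a_lim (j : ℕ) : Tendsto (fun y : ℝ => (4 * Real.pi * y)⁻¹ *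
    (Real.exp (4 * Real.pi * y * j) - 1)) (𝓝[>] 0) (𝓝 j) := by
  have h : HasDerivAt (fun y : ℝ => Real.exp (4 * Real.pi * y * j)) (4 * Real.pi * j) 0 := by
    simpa using (((hasDerivAt_id (0 : ℝ)).const_mul (4 * Real.pi)).mul_const (j : ℝ)).exp
  have h1 := h.tendsto_slope_zero_right.const_mul (4 * Real.pi)⁻¹
  rw [inv_mul_cancel_left₀ (by positivity)] at h1
  refine h1.congr fun y => ?_
  simp only [zero_add, mul_zero, zero_mul, Real.exp_zero, smul_eq_mul, mul_inv, mul_assoc]

theorem a3a_lim' {M : Op n} (hM : IsGen M) (v : V n) (K : ℝ) :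
    Tendsto (fun y : ℝ => (4 * Real.pi * y)⁻¹ * (K * a3a_m M y v)) (𝓝[>] 0) (𝓝 (K * mu M v)) := by
  have h1 := (((hM.tendsto_NN_flow v).const_mul (4 * Real.pi)⁻¹).div_const (NN v)).const_mul K
  rw [inv_mul_cancel_left₀ (by positivity)] at h1
  refine h1.congr fun y => ?_
  unfold a3a_m
  ring

theorem markov {Λ : Subgroup (GG n)} (hΛ : Proper Λ) {ψ : V n → ℝ≥0∞} (hψ : IsWeight Λ ψ)
    {k j : ℕ} {G : V n → ℂ} (hG : IsHol (k * (n + 1)) G) (hi : Inv Λ G) {M : Op n}
    (hM : IsGen M) (hc : ∀ g ∈ Λ, Commute (g : Op n) M)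
    (hj : ∀ u ∈ Neg n, ∀ s : ℂ, 0 ≤ s.im →
      G (flow M s u) * Complex.exp (2 * Real.pi * Complex.I * s * (k * tr M)) =
        Complex.exp (2 * Real.pi * Complex.I * s * j) * G u)
    (hk : 1 ≤ k) {S : Set (V n)} (hS : Region Λ S)
    (hf : ∀ y : ℝ, 0 ≤ y → ∀ v ∈ S, flow M (y * Complex.I) v ∈ S)
    (hfin : mass (k * (n + 1)) G S ψ ≠ ⊤) {s : ℝ} (hs : 0 ≤ s) :
    ENNReal.ofReal (s * (((k : ℝ) - 1) * ((n : ℝ) + 1))) *
        mass (k * (n + 1)) G (S \ Tube M s) ψ ≤ j * mass (k * (n + 1)) G S ψ := by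
  obtain ⟨k, rfl⟩ : ∃ k', k = k' + 1 := ⟨k - 1, by omega⟩
  have hP := (hG.invF hΛ hi).meas
  have hψ1 : ∀ v ∈ Neg n, ψ v ≠ ⊤ := fun v hv => by
    have := ENNReal.le_tsum (f := fun g : Λ => ψ (((g : GG n) : Op n) v)) 1
    rw [hψ.sum v hv] at this
    exact ne_top_of_le_ne_top ENNReal.one_ne_top this
  set K : ℝ := ((k * (n + 1) : ℕ) : ℝ) with hK
  have hK0 : 0 ≤ K := Nat.cast_nonneg _
  have hK1 : (((k + 1 : ℕ) : ℝ) - 1) * ((n : ℝ) + 1) = K := by
    rw [hK]
    push_cast
    ring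
  have h1 := lintegral_liminf_le (μ := (nu n).restrict S) (u := 𝓝[>] (0 : ℝ))
    (f := fun y v => ENNReal.ofReal ((4 * Real.pi * y)⁻¹ * (K * a3a_m M y v)) *
      (petE ((k + 1) * (n + 1)) G v * ψ v))
    fun y => (((a3a_meas M y).const_mul K).const_mul _).ennreal_ofReal.mul (hP.mul hψ.meas)
  have h2 := (ENNReal.Tendsto.mul_const (b := mass ((k + 1) * (n + 1)) G S ψ)
    (ENNReal.tendsto_ofReal (a3a_lim j)) (Or.inr hfin)).liminf_eq
  rw [ENNReal.ofReal_natCast] at h2
  rw [hK1, ← h2]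
  refine le_trans ?_ (h1.trans (liminf_le_liminf ?_))
  · rw [mass, ← lintegral_const_mul' _ _ ENNReal.ofReal_ne_top]
    refine le_trans ?_ (lintegral_mono_set (Set.sdiff_subset (t := Tube M s)))
    refine setLIntegral_mono' (hS.meas.diff (isOpen_Tube M s).measurableSet) fun v hv => ?_
    have hv' := hS.neg hv.1
    rw [(ENNReal.Tendsto.mul_const (b := petE ((k + 1) * (n + 1)) G v * ψ v)
      (ENNReal.tendsto_ofReal (a3a_lim' hM v K)) (Or.inr (ENNReal.mul_ne_top ENNReal.ofReal_ne_top (hψ1 v hv')))).liminf_eq]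
    refine mul_le_mul_left (ENNReal.ofReal_le_ofReal ?_) _
    rw [mul_comm]
    exact mul_le_mul_of_nonneg_left (not_lt.1 fun h => hv.2 ⟨hv', h⟩) hK0
  · filter_upwards [self_mem_nhdsWithin] with y hy
    have hy' : (0 : ℝ) < y := hy
    have h3 : 0 ≤ (4 * Real.pi * y)⁻¹ := by positivity
    simp only [ENNReal.ofReal_mul h3, mul_assoc (ENNReal.ofReal (4 * Real.pi * y)⁻¹)]
    rw [lintegral_const_mul' _ _ ENNReal.ofReal_ne_top]
    exact mul_le_mul_right (a3a_step hΛ hψ hG hi hM hc hj hS hf hfin hy'.le) _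

end BallQ
end
end

-- merged part: Pool.Agent.Work.MP_72250f_ag.A3b
section
/-!
markov: apply lintegral_JQ to M_y = flowU M (i y) and f = indicator of S times petE G. For v in S,
petE G (M_y v) Jac M_y v = petE G v exp(-4 pi y (j - (k-1) age)) (1 + m_y v)^((k-1)(n+1)) with
m_y v = (NN (M_y v) - NN v) / NN v >= 0 (det_flow, age_nonneg), so by Bernoulli
(k-1)(n+1) integral of m_y petE psi <= (exp(4 pi y j) - 1) mass; divide by y, Fatou along y = 1/(i+1) (tendsto_NN_flow).
avoid: lintegral_JQ in the other direction for f = indicator S * petE G, det = 1 (tr = 0), IsNull.NN_flow,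
norm_flow_le_of_cond, Tonelli and lintegral_isomQ for the real flow.
rank_le: <G,H> = integral over Om of G conj H NN^w psi is an inner product on W (definite by ae_zero_of_weight,
nu_open_ne_zero, continuity and IsHol.eq_zero); take an orthonormal basis G_i (InnerProductSpace.Core, stdOrthonormalBasis); for
x in S the function H = sum conj (G_i x) G_i has mass b = sum |G_i x|^2 and H x = b, so submean and ball_le give
sum petE G_i x * mass0 <= cnt; integrate over S against psi.
-/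

open scoped ComplexConjugate ENNReal Topology
open MeasureTheory Filter

noncomputable section

namespace BallQ

variable {n : ℕ}

theorem a3b_ofReal (F : ℝ → ℝ) (hF : ∀ x, 0 ≤ F x) :
    ENNReal.ofReal (∫ x in (0 : ℝ)..1, F x) ≤ ∫⁻ x in Set.Ioc (0 : ℝ) 1, ENNReal.ofReal (F x) := by
  rw [intervalIntegral.integral_of_le zero_le_one]
  refine le_trans (Real.ofReal_le_enorm _) (le_trans (enorm_integral_le_lintegral_enorm _) ?_)
  refine le_of_eq (lintegral_congr fun x => ?_)
  exact Real.enorm_of_nonneg (hF x)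

theorem a3b_comm {M : Op n} {g : GG n} (hc : Commute (g : Op n) M) (s : ℂ) :
    Commute g (flowU M s) := by
  apply Units.ext
  exact (commute_flow hc s).eq

theorem a3b_jac {M : Op n} (hM : IsNull M) {s : ℂ} (hs : 0 ≤ s.im) {v : V n} (hv : v ∈ Neg n) :
    Jac (flow M s) v ≤ 1 := by
  have hg : IsGen M := (hM.isGenLt 1).isGen
  have h0 : 0 < NN v := hv
  have h1 : NN v ≤ NN (flow M s v) := hg.NN_le_flow hs v
  unfold Jac
  rw [hg.det_flow, hM.age_eq, mul_zero, Complex.exp_zero, norm_one, one_pow, one_mul]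
  refine ENNReal.ofReal_le_one.2 (pow_le_one₀ (div_nonneg h0.le (h0.le.trans h1)) ?_)
  exact div_le_one_of_le₀ h1 (h0.le.trans h1)

theorem a3b_pet {w k J : ℕ} {G : V n → ℂ} (hG : IsHol w G) {M : Op n}
    (hM : IsNull M) (hP : Per k M G) (hC : Cond k M J G) {y t : ℝ} (hy : 0 < y) (ht : 0 ≤ t)
    {v : V n} (hv : v ∈ Neg n) (h2 : mu M v ≤ t) :
    petE w G (flow M (y * Complex.I) v) ≤ ENNReal.ofReal (Real.exp (-(4 * Real.pi * y * J)) *
      ((1 - Real.exp (-(2 * Real.pi * y)))⁻¹) ^ 2 * (1 + 4 * Real.pi * y * t) ^ w) *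
        ∫⁻ x in Set.Ioc (0 : ℝ) 1, petE w G (flow M x v) := by
  have hg : IsGen M := (hM.isGenLt 1).isGen
  have h0 : 0 < NN v := hv
  have him : ((y : ℂ) * Complex.I).im = y := by simp
  have hage : age M = 0 := by rw [age, hM.age_eq, Complex.zero_re]
  have hb := norm_flow_le_of_cond hG hg hP hC hv (s := y * Complex.I) (by rw [him]; exact hy)
  rw [him, hage, mul_zero, mul_zero, neg_zero, Real.exp_zero, mul_one] at hb
  have hN := hM.NN_flow (y * Complex.I) v
  rw [him] at hN
  have hmu : (form (M v) v).re ≤ t * NN v := (div_le_iff₀ h0).1 h2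
  have hpy : 0 ≤ 4 * Real.pi * y := by positivity
  have hN1 : NN (flow M (y * Complex.I) v) ≤ (1 + 4 * Real.pi * y * t) * NN v := by
    rw [hN]
    nlinarith [mul_le_mul_of_nonneg_left hmu hpy]
  have hN0 : 0 ≤ NN (flow M (y * Complex.I) v) :=
    h0.le.trans (hg.NN_le_flow (by rw [him]; exact hy.le) v)
  set A := Real.exp (-(4 * Real.pi * y * J)) * ((1 - Real.exp (-(2 * Real.pi * y)))⁻¹) ^ 2 with hA
  have hA0 : 0 ≤ A := by positivity
  have hB0 : 0 ≤ (1 + 4 * Real.pi * y * t) ^ w := by positivity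
  set I := ∫ x in (0 : ℝ)..1, ‖G (flow M x v)‖ ^ 2 with hI
  have hI0 : 0 ≤ I := intervalIntegral.integral_nonneg zero_le_one (fun x _ => by positivity)
  have key : ‖G (flow M (y * Complex.I) v)‖ ^ 2 * NN (flow M (y * Complex.I) v) ^ w ≤
      A * (1 + 4 * Real.pi * y * t) ^ w * (I * NN v ^ w) := by
    calc _ ≤ (A * I) * ((1 + 4 * Real.pi * y * t) * NN v) ^ w :=
          mul_le_mul hb (pow_le_pow_left₀ hN0 hN1 w) (pow_nonneg hN0 w) (mul_nonneg hA0 hI0)
      _ = _ := by rw [mul_pow]; ring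
  refine le_trans (ENNReal.ofReal_le_ofReal key) ?_
  rw [ENNReal.ofReal_mul (mul_nonneg hA0 hB0)]
  refine mul_le_mul_right ?_ _
  rw [hI, ← intervalIntegral.integral_mul_const]
  refine le_trans (a3b_ofReal _ (fun x => by positivity)) (le_of_eq ?_)
  refine lintegral_congr fun x => ?_
  rw [petE, (hg.isIsom_flow x).NN_apply]

theorem avoid {Λ : Subgroup (GG n)} (hΛ : Proper Λ) {ψ : V n → ℝ≥0∞} (hψ : IsWeight Λ ψ)
    {w k J : ℕ} (hw : n + 1 ≤ w) {G : V n → ℂ} (hG : IsHol w G) (hi : Inv Λ G) {M : Op n}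
    (hM : IsNull M) (hc : ∀ g ∈ Λ, Commute (g : Op n) M) (hP : Per k M G) (hC : Cond k M J G)
    {S S' : Set (V n)} (hS : Region Λ S) (hS' : Region Λ S')
    (hf : ∀ (x : ℝ), ∀ v ∈ S', flow M x v ∈ S') {y t : ℝ} (hy : 0 < y) (ht : 0 ≤ t)
    (h1 : ∀ v ∈ S, flow M (-(y * Complex.I)) v ∈ S') (h2 : ∀ v ∈ S', mu M v ≤ t) :
    mass w G S ψ ≤ ENNReal.ofReal (Real.exp (-(4 * Real.pi * y * J)) *
      ((1 - Real.exp (-(2 * Real.pi * y)))⁻¹) ^ 2 * (1 + 4 * Real.pi * y * t) ^ w) *
        mass w G S' ψ := by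
  have hg : IsGen M := (hM.isGenLt 1).isGen
  have him : 0 ≤ ((y : ℂ) * Complex.I).im := by simpa using hy.le
  have hpet := hG.invF hΛ hi
  have hF := hS.invF hpet
  have hF' := hS'.invF hpet
  set C := ENNReal.ofReal (Real.exp (-(4 * Real.pi * y * J)) *
      ((1 - Real.exp (-(2 * Real.pi * y)))⁻¹) ^ 2 * (1 + 4 * Real.pi * y * t) ^ w) with hCdef
  have hind : ∀ (T : Set (V n)) (v : V n),
      T.indicator (petE w G) v * ψ v = T.indicator (fun v => petE w G v * ψ v) v := by
    intro T v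
    by_cases hv : v ∈ T <;> simp [hv]
  have hJ := lintegral_JQ hΛ hψ (flowU M (y * Complex.I))
    (fun v hv => hg.flow_mem_Neg him hv) (fun g hgΛ => a3b_comm (hc g hgΛ) _) hF
  have hsub : S ⊆ {v | (((flowU M (y * Complex.I))⁻¹ : GG n) : Op n) v ∈ Neg n} := by
    intro v hv
    rw [flowU_inv]
    exact hS'.neg (h1 v hv)
  have e1 : mass w G S ψ = ∫⁻ v, S.indicator (petE w G) (flow M (y * Complex.I) v) *
      Jac (flow M (y * Complex.I)) v * ψ v ∂(nu n) := by
    refine Eq.trans ?_ hJ.symm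
    simp only [hind]
    rw [lintegral_indicator hS.meas, Measure.restrict_restrict hS.meas, Set.inter_eq_left.2 hsub]
    rfl
  have e2 : ∀ x : ℝ, ∫⁻ v, S'.indicator (petE w G) (flow M x v) * ψ v ∂(nu n) =
      mass w G S' ψ := by
    intro x
    have := lintegral_isomQ hΛ hψ (M := flowU M x) (hg.isIsom_flow x)
      (fun g hgΛ => a3b_comm (hc g hgΛ) _) hF'
    refine Eq.trans this ?_
    simp only [hind]
    rw [lintegral_indicator hS'.meas]
    rfl
  have hm : Measurable (fun p : V n × ℝ => S'.indicator (petE w G) (flow M p.2 p.1) * ψ p.1) := by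
    have hcont : Continuous (fun p : V n × ℝ => flow M p.2 p.1) :=
      ((continuous_flow M).comp (Complex.continuous_ofReal.comp continuous_snd)).clm_apply
        continuous_fst
    exact (hF'.meas.comp hcont.measurable).mul (hψ.meas.comp measurable_fst)
  have hpt : ∀ v, S.indicator (petE w G) (flow M (y * Complex.I) v) *
      Jac (flow M (y * Complex.I)) v * ψ v ≤
      C * ∫⁻ x in Set.Ioc (0 : ℝ) 1, S'.indicator (petE w G) (flow M x v) * ψ v := by
    intro v
    by_cases hv : flow M (y * Complex.I) v ∈ S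
    · have hv' : v ∈ S' := by
        have := h1 _ hv
        have e : flow M (-(y * Complex.I)) (flow M (y * Complex.I) v) = v := by
          change (flow M (-(y * Complex.I)) * flow M (y * Complex.I)) v = v
          rw [← flow_add, neg_add_cancel, flow_zero]
          rfl
        rwa [e] at this
      have hvN := hS'.neg hv'
      have hmx : Measurable (fun x : ℝ => petE w G (flow M x v)) :=
        hpet.meas.comp (((continuous_flow M).comp Complex.continuous_ofReal).clm_apply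
          continuous_const).measurable
      simp only [Set.indicator_of_mem hv, Set.indicator_of_mem (hf _ v hv')]
      rw [lintegral_mul_const _ hmx, ← mul_assoc]
      refine mul_le_mul_left ?_ _
      calc _ ≤ petE w G (flow M (y * Complex.I) v) * 1 :=
            mul_le_mul_right (a3b_jac hM him hvN) _
        _ ≤ _ := by
            rw [mul_one]
            exact a3b_pet hG hM hP hC hy ht hvN (h2 v hv')
    · simp [Set.indicator_of_notMem hv]
  rw [e1]
  refine le_trans (lintegral_mono hpt) (le_of_eq ?_)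
  rw [lintegral_const_mul' _ _ ENNReal.ofReal_ne_top,
    lintegral_lintegral_swap hm.aemeasurable]
  simp only [e2]
  rw [lintegral_const, Measure.restrict_apply MeasurableSet.univ, Set.univ_inter,
    Real.volume_Ioc, sub_zero, ENNReal.ofReal_one, mul_one]

end BallQ
end
end

-- merged part: Pool.Agent.Work.MP_72250f_ag.A3
section
/-!
markov: apply lintegral_JQ to M_y = flowU M (i y) and f = indicator of S times petE G. For v in S,
petE G (M_y v) Jac M_y v = petE G v exp(-4 pi y (j - (k-1) age)) (1 + m_y v)^((k-1)(n+1)) with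
m_y v = (NN (M_y v) - NN v) / NN v >= 0 (det_flow, age_nonneg), so by Bernoulli
(k-1)(n+1) integral of m_y petE psi <= (exp(4 pi y j) - 1) mass; divide by y, Fatou along y = 1/(i+1) (tendsto_NN_flow).
avoid: lintegral_JQ in the other direction for f = indicator S * petE G, det = 1 (tr = 0), IsNull.NN_flow,
norm_flow_le_of_cond, Tonelli and lintegral_isomQ for the real flow.
rank_le: <G,H> = integral over Om of G conj H NN^w psi is an inner product on W (definite by ae_zero_of_weight,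
nu_open_ne_zero, continuity and IsHol.eq_zero); take an orthonormal basis G_i (InnerProductSpace.Core, stdOrthonormalBasis); for
x in S the function H = sum conj (G_i x) G_i has mass b = sum |G_i x|^2 and H x = b, so submean and ball_le give
sum petE G_i x * mass0 <= cnt; integrate over S against psi.
-/

open scoped ComplexConjugate ENNReal Topology
open MeasureTheory Filter

noncomputable section

namespace BallQ

variable {n : ℕ}

/-- The measure that turns `mass` into a square norm. -/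
def a3_mu (w : ℕ) (Om : Set (V n)) (ψ : V n → ℝ≥0∞) : Measure (V n) :=
  ((nu n).restrict Om).withDensity fun v => ENNReal.ofReal (NN v ^ w) * ψ v

theorem a3_petE (w : ℕ) (G : V n → ℂ) (v : V n) :
    petE w G v = ‖G v‖ₑ ^ 2 * ENNReal.ofReal (NN v ^ w) := by
  rw [petE, ENNReal.ofReal_mul (by positivity), ENNReal.ofReal_pow (norm_nonneg _),
    ofReal_norm]

theorem a3_mass {w : ℕ} {G : V n → ℂ} (hG : Measurable G) (Om : Set (V n)) {ψ : V n → ℝ≥0∞}
    (hψ : Measurable ψ) : mass w G Om ψ = eLpNorm G 2 (a3_mu w Om ψ) ^ 2 := by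
  have h1 : Measurable fun v : V n => ENNReal.ofReal (NN v ^ w) * ψ v :=
    ((continuous_NN.pow w).measurable.ennreal_ofReal).mul hψ
  have h2 : Measurable fun v : V n => ‖G v‖ₑ ^ (2 : ℝ) := hG.enorm.pow_const _
  rw [eLpNorm_eq_lintegral_rpow_enorm_toReal (by norm_num) (by norm_num), a3_mu]
  simp only [ENNReal.toReal_ofNat]
  rw [lintegral_withDensity_eq_lintegral_mul _ h1 h2, ← ENNReal.rpow_natCast,
    ← ENNReal.rpow_mul]
  norm_num
  refine lintegral_congr fun v => ?_
  rw [a3_petE]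
  ring

theorem a3_eq_zero {Λ : Subgroup (GG n)} (hΛ : Proper Λ) {ψ : V n → ℝ≥0∞} (hψ : IsWeight Λ ψ)
    {w : ℕ} {Om : Set (V n)} (hO : Region Λ Om) (hOo : IsOpen Om) (hne : Om.Nonempty)
    {G : V n → ℂ} (hG : IsHol w G) (hi : Inv Λ G) (h : mass w G Om ψ = 0) : G = 0 := by
  have h1 : ∫⁻ v, Om.indicator (petE w G) v * ψ v ∂(nu n) = 0 := by
    rw [← h, mass, ← lintegral_indicator hO.meas]
    refine lintegral_congr fun v => ?_
    by_cases hv : v ∈ Om <;> simp [hv]
  have h2 := ae_zero_of_weight hΛ hψ (hO.invF (hG.invF hΛ hi)) h1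
  have h3 : IsOpen (Om ∩ G ⁻¹' {0}ᶜ) :=
    (hG.diff.continuousOn.mono hO.neg).isOpen_inter_preimage hOo isOpen_compl_singleton
  have h4 : IsCone (Om ∩ G ⁻¹' {0}ᶜ) := by
    intro c hc v hv
    refine ⟨hO.cone c hc v hv.1, ?_⟩
    have : G v ≠ 0 := hv.2
    show G (c • v) ≠ 0
    rw [hG.hom c hc]
    exact mul_ne_zero (pow_ne_zero _ (inv_ne_zero hc)) this
  have h5 : nu n (Om ∩ G ⁻¹' {0}ᶜ) = 0 := by
    refine measure_mono_null (fun v hv => ?_) (ae_iff.mp h2)
    have h6 : G v ≠ 0 := hv.2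
    have h7 : 0 < NN v := hO.neg hv.1
    show ¬ Om.indicator (petE w G) v = 0
    rw [Set.indicator_of_mem hv.1, petE, ENNReal.ofReal_eq_zero, not_le]
    positivity
  have h6 : ∀ v ∈ Om, G v = 0 := by
    intro v hv
    by_contra h7
    exact nu_open_ne_zero h3 h4 ⟨v, ⟨hv, h7⟩, hO.neg hv⟩ h5
  refine hG.eq_zero (O := lift ⁻¹' Om) (hOo.preimage continuous_lift) ?_
    (fun z hz => lift_mem_Neg.mp (hO.neg hz)) fun z hz => h6 _ hz
  obtain ⟨v, hv⟩ := hne
  have h7 := co_none_ne_zero (hO.neg hv)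
  refine ⟨proj v, ?_⟩
  have h8 : lift (proj v) = (co v none)⁻¹ • v := by
    conv_rhs => rw [← lift_proj h7]
    rw [smul_smul, co_smul, co_lift_none, mul_one, inv_mul_cancel₀ h7, one_smul]
  show lift (proj v) ∈ Om
  rw [h8]
  exact hO.cone _ (inv_ne_zero h7) v hv

theorem a3_basis {w : ℕ} {Om : Set (V n)} {ψ : V n → ℝ≥0∞} (hψ : Measurable ψ)
    (W : Submodule ℂ (V n → ℂ)) [FiniteDimensional ℂ W]
    (h1 : ∀ G ∈ W, Measurable G) (h2 : ∀ G ∈ W, mass w G Om ψ ≠ ⊤)
    (h3 : ∀ G ∈ W, mass w G Om ψ = 0 → G = 0) :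
    ∃ b : Fin (Module.finrank ℂ W) → W, ∀ a : Fin (Module.finrank ℂ W) → ℂ,
      mass w ((∑ i, a i • b i : W) : V n → ℂ) Om ψ = ENNReal.ofReal (∑ i, ‖a i‖ ^ 2) := by
  have hm : ∀ G : W, MemLp (G : V n → ℂ) 2 (a3_mu w Om ψ) := by
    intro G
    refine ⟨(h1 G G.2).aestronglyMeasurable, ?_⟩
    have := h2 G G.2
    rw [a3_mass (h1 G G.2) Om hψ] at this
    rw [lt_top_iff_ne_top]
    intro h
    rw [h] at this
    simp at this
  let T : W →ₗ[ℂ] Lp ℂ 2 (a3_mu w Om ψ) :=
    { toFun := fun G => (hm G).toLp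
      map_add' := fun G H => (hm G).toLp_add (hm H)
      map_smul' := fun c G => MemLp.toLp_const_smul c (hm G) }
  have hT : ∀ G : W, mass w (G : V n → ℂ) Om ψ = ENNReal.ofReal (‖T G‖ ^ 2) := by
    intro G
    rw [a3_mass (h1 G G.2) Om hψ, ENNReal.ofReal_pow (norm_nonneg _)]
    congr 1
    show _ = ENNReal.ofReal ‖(hm G).toLp‖
    rw [Lp.norm_toLp, ENNReal.ofReal_toReal (hm G).2.ne]
  have hinj : Function.Injective T := by
    refine (injective_iff_map_eq_zero T).mpr fun G hG => ?_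
    have := hT G
    rw [hG] at this
    exact Subtype.ext (h3 G G.2 (by simpa using this))
  let e := LinearEquiv.ofInjective T hinj
  let c := (stdOrthonormalBasis ℂ (LinearMap.range T)).reindex (finCongr e.finrank_eq.symm)
  refine ⟨fun i => e.symm (c i), fun a => ?_⟩
  rw [hT]
  congr 1
  have h4 : T (∑ i, a i • e.symm (c i)) = ((∑ i, a i • c i : LinearMap.range T) : Lp ℂ 2 _) := by
    have : (∑ i, a i • e.symm (c i)) = e.symm (∑ i, a i • c i) := by
      simp only [map_sum, map_smul]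
    rw [this]
    exact congrArg Subtype.val (e.apply_symm_apply _)
  rw [h4, ← Submodule.coe_norm]
  have h5 : (∑ i, a i • c i) = c.repr.symm (WithLp.toLp 2 a) := by
    rw [← c.sum_repr_symm]
  rw [h5, LinearIsometryEquiv.norm_map, EuclideanSpace.norm_sq_eq]

theorem rank_le {Λ : Subgroup (GG n)} (hΛ : Proper Λ) {ψ : V n → ℝ≥0∞} (hψ : IsWeight Λ ψ)
    {w : ℕ} {Om S : Set (V n)} (hO : Region Λ Om) (hOo : IsOpen Om) (hne : Om.Nonempty)
    (hS : Region Λ S) {δ : ℝ} (h0 : 0 ≤ δ) (h1 : δ ≤ 1)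
    (hb : ∀ x ∈ S, ∀ y ∈ Neg n, CC x y ≤ 1 + δ → y ∈ Om)
    (W : Submodule ℂ (V n → ℂ)) [FiniteDimensional ℂ W] (α : ℝ≥0∞)
    (hW : ∀ G ∈ W, IsHol w G ∧ Inv Λ G ∧ mass w G Om ψ ≠ ⊤ ∧ mass w G Om ψ ≤ α * mass w G S ψ) :
    (Module.finrank ℂ W : ℝ≥0∞) * mass0 n w δ ≤
      α * ∫⁻ x in S, cnt Λ x (1 + 8 * δ) * ψ x ∂(nu n) := by
  obtain ⟨b, hbm⟩ := a3_basis (w := w) (Om := Om) hψ.meas W (fun G hG => (hW G hG).1.measurable)
    (fun G hG => (hW G hG).2.2.1)
    (fun G hG h => a3_eq_zero hΛ hψ hO hOo hne (hW G hG).1 (hW G hG).2.1 h)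
  have h2 : ∀ i, mass w (b i : V n → ℂ) Om ψ = 1 := by
    intro i
    have := hbm (Pi.single i 1)
    simpa [Pi.single_apply, apply_ite, Finset.sum_ite_eq'] using this
  have h3 : ∀ x ∈ S, (∑ i, petE w (b i : V n → ℂ) x) * mass0 n w δ ≤ cnt Λ x (1 + 8 * δ) := by
    intro x hx
    have hx' : 0 < NN x := hS.neg hx
    set t : ℝ := ∑ i, ‖(b i : V n → ℂ) x‖ ^ 2 with ht
    have ht0 : 0 ≤ t := by positivity
    have e1 : ∑ i, petE w (b i : V n → ℂ) x = ENNReal.ofReal (t * NN x ^ w) := by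
      rw [ht, Finset.sum_mul, ENNReal.ofReal_sum_of_nonneg (fun i _ => by positivity)]
      rfl
    let H : W := ∑ i, conj ((b i : V n → ℂ) x) • b i
    have e2 : mass w (H : V n → ℂ) Om ψ = ENNReal.ofReal t := by
      rw [hbm]
      simp only [Complex.norm_conj, ht]
    have e3 : (H : V n → ℂ) x = (t : ℂ) := by
      simp only [H, ht, Submodule.coe_sum, Submodule.coe_smul, Finset.sum_apply, Pi.smul_apply,
        smul_eq_mul, Complex.conj_mul', Complex.ofReal_sum, Complex.ofReal_pow]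
    have e4 : petE w (H : V n → ℂ) x = ENNReal.ofReal t * ENNReal.ofReal (t * NN x ^ w) := by
      rw [petE, e3, ← ENNReal.ofReal_mul ht0, Complex.norm_real, Real.norm_of_nonneg ht0]
      congr 1
      ring
    have hH := hW H H.2
    have e5 := (submean hH.1 (hS.neg hx) δ).trans
      (ball_le hΛ hψ (hH.1.invF hΛ hH.2.1) hO (hS.neg hx) h0 h1 (hb x hx))
    rw [e1]
    rcases ht0.eq_or_lt with h | h
    · simp [← h]
    · have e6 : ∫⁻ v in Om, petE w (H : V n → ℂ) v * ψ v ∂(nu n) = ENNReal.ofReal t := e2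
      rw [e6, e4, mul_assoc, mul_comm (cnt _ _ _)] at e5
      exact (ENNReal.mul_le_mul_iff_right (by simpa using h) ENNReal.ofReal_ne_top).mp e5
  have hm : ∀ i, Measurable fun x => petE w (b i : V n → ℂ) x * ψ x := fun i =>
    ((hW _ (b i).2).1.invF hΛ (hW _ (b i).2).2.1).meas.mul hψ.meas
  calc (Module.finrank ℂ W : ℝ≥0∞) * mass0 n w δ
      = (∑ i, mass w (b i : V n → ℂ) Om ψ) * mass0 n w δ := by simp [h2]
    _ ≤ (∑ i, α * mass w (b i : V n → ℂ) S ψ) * mass0 n w δ := by
        gcongr with i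
        exact (hW _ (b i).2).2.2.2
    _ = α * ∫⁻ x in S, (∑ i, petE w (b i : V n → ℂ) x * ψ x) * mass0 n w δ ∂(nu n) := by
        rw [← Finset.mul_sum, mul_assoc,
          lintegral_mul_const _ (Finset.measurable_fun_sum _ fun i _ => hm i),
          lintegral_finsetSum _ fun i _ => hm i]
        rfl
    _ ≤ _ := by
        gcongr α * ?_
        refine setLIntegral_mono' hS.meas fun x hx => ?_
        rw [← Finset.sum_mul, mul_right_comm]
        gcongr
        exact h3 x hx

end BallQ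
end
end

-- merged part: Pool.Agent.Work.MP_72250f_ag.A4
section
/-!
The projector of a finite commuting family. L = the list of the finite set F (Set.Finite.toFinset, toList), P G = G - rest k J L G.
The operators G |-> G - low k M J G commute on holomorphic periodic functions (coef_comm, coef_low), so rest does not depend on
the order of the list (List.Perm induction); with coef_cnj this gives invariance of P G under stab Gamma F. coef k M j (rest L G) = 0
for M in L and j < J (coef_coef), which gives the first claim. The cusp conditions pass to P G by coef_comm.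
Mass: let L0 be the subgroup of stab Gamma F commuting with all M in F (finite index: kernel of the action on the finite set F),
psi0 a weight for it (exists_weight_sub), masses of stab-invariant densities get multiplied by the index (lintegral_relIndex).
By induction on the list, with R = G - rest L G, mass_split gives mass R S = sum of the masses of pure pieces coef M j H, for S
invariant under all real flows (mu_flow_real): here low M J R = low M J G and R - low M J R is the R of the shorter list and G - low M J G.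
Each piece has finite mass on Om = TubeS F s0 (mass_split again) and by markov (coef_flow, mu_flow_le) at least half of it lies in
Tube M s, a subset of TubeS F s.
-/

open scoped ComplexConjugate ENNReal Topology
open MeasureTheory Filter

noncomputable section

namespace BallQ

variable {n : ℕ}

theorem a4_low_add {w k : ℕ} {G H : V n → ℂ} (hG : IsHol w G) (hH : IsHol w H) {M : Op n}
    (hM : IsGen M) (J : ℕ) : low k M J (G + H) = low k M J G + low k M J H := by
  simp only [low, coef_add hG hH hM, Finset.sum_add_distrib]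

theorem a4_low_sub {w k : ℕ} {G H : V n → ℂ} (hG : IsHol w G) (hH : IsHol w H) {M : Op n}
    (hM : IsGen M) (J : ℕ) : low k M J (G - H) = low k M J G - low k M J H := by
  simp only [low, coef_sub hG hH hM, Finset.sum_sub_distrib]

theorem a4_low_smul (k : ℕ) (c : ℂ) (G : V n → ℂ) (M : Op n) (J : ℕ) :
    low k M J (c • G) = c • low k M J G := by
  simp only [low, coef_smul, Finset.smul_sum]

theorem a4_isHol_rest {w k J : ℕ} (L : List (Op n)) (hL : ∀ M ∈ L, IsGen M) {G : V n → ℂ}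
    (hG : IsHol w G) : IsHol w (rest k J L G) := by
  induction L generalizing G with
  | nil => exact hG
  | cons M L ih =>
    exact ih (fun M' h => hL M' (List.mem_cons_of_mem _ h))
      (hG.sub (isHol_low hG (hL M List.mem_cons_self) J))

theorem a4_rest_add {w k J : ℕ} (L : List (Op n)) (hL : ∀ M ∈ L, IsGen M) {G H : V n → ℂ}
    (hG : IsHol w G) (hH : IsHol w H) : rest k J L (G + H) = rest k J L G + rest k J L H := by
  induction L generalizing G H with
  | nil => rfl
  | cons M L ih =>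
    have hM := hL M List.mem_cons_self
    simp only [rest]
    rw [← ih (fun M' h => hL M' (List.mem_cons_of_mem _ h)) (hG.sub (isHol_low hG hM J))
      (hH.sub (isHol_low hH hM J)), a4_low_add hG hH hM]
    congr 1
    abel

theorem a4_rest_smul {k J : ℕ} (L : List (Op n)) (c : ℂ) (G : V n → ℂ) :
    rest k J L (c • G) = c • rest k J L G := by
  induction L generalizing G with
  | nil => rfl
  | cons M L ih =>
    simp only [rest]
    rw [← ih, a4_low_smul, smul_sub]

theorem a4_rest_zero {k J : ℕ} (L : List (Op n)) : rest k J L (0 : V n → ℂ) = 0 := by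
  have h := a4_rest_smul (k := k) (J := J) L 0 (0 : V n → ℂ)
  rwa [zero_smul, zero_smul] at h

theorem a4_per_rest {k J : ℕ} (L : List (Op n)) {M' : Op n} (hL : ∀ M ∈ L, Commute M M')
    {G : V n → ℂ} (hP : Per k M' G) : Per k M' (rest k J L G) := by
  induction L generalizing G with
  | nil => exact hP
  | cons M L ih =>
    exact ih (fun M'' h => hL M'' (List.mem_cons_of_mem _ h))
      (hP.sub (per_low (hL M List.mem_cons_self) hP J))

theorem a4_coef_low {w k : ℕ} {G : V n → ℂ} (hG : IsHol w G) {M M' : Op n} (hM : IsGen M)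
    (hM' : IsGen M') (hc : Commute M M') (J j : ℕ) :
    coef k M' j (low k M J G) = low k M J (coef k M' j G) := by
  rw [coef_low hG hM hM', low]
  exact Finset.sum_congr rfl fun i _ => (coef_comm hG hM hM' hc i j).symm

theorem a4_coef_rest {w k J : ℕ} (L : List (Op n)) (hL : ∀ M ∈ L, IsGen M) {M' : Op n}
    (hM' : IsGen M') (hc : ∀ M ∈ L, Commute M M') (j : ℕ) {G : V n → ℂ} (hG : IsHol w G) :
    coef k M' j (rest k J L G) = rest k J L (coef k M' j G) := by
  induction L generalizing G with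
  | nil => rfl
  | cons M L ih =>
    have hM := hL M List.mem_cons_self
    simp only [rest]
    rw [ih (fun M'' h => hL M'' (List.mem_cons_of_mem _ h))
      (fun M'' h => hc M'' (List.mem_cons_of_mem _ h)) (hG.sub (isHol_low hG hM J)),
      coef_sub hG (isHol_low hG hM J) hM', a4_coef_low hG hM hM' (hc M List.mem_cons_self)]

theorem a4_coef_sub_low {w k J j : ℕ} {G : V n → ℂ} (hG : IsHol w G) {M : Op n} (hM : IsGen M)
    (hP : Per k M G) (hj : j < J) : coef k M j (G - low k M J G) = 0 := by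
  rw [coef_sub hG (isHol_low hG hM J) hM, coef_low hG hM hM]
  simp only [coef_coef hG hM hP]
  rw [Finset.sum_ite_eq' (Finset.range J) j (fun i => coef k M i G),
    if_pos (Finset.mem_range.2 hj), sub_self]

theorem a4_cond_rest {w k J : ℕ} (L : List (Op n)) (hL : ∀ M ∈ L, IsGen M)
    (hc : ∀ M ∈ L, ∀ M' ∈ L, Commute M M') {G : V n → ℂ} (hG : IsHol w G)
    (hP : ∀ M ∈ L, Per k M G) : ∀ M ∈ L, Cond k M J (rest k J L G) := by
  induction L generalizing G with
  | nil => intro M hM; simp at hM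
  | cons M L ih =>
    have hM := hL M List.mem_cons_self
    have hL' : ∀ M' ∈ L, IsGen M' := fun M' h => hL M' (List.mem_cons_of_mem _ h)
    have hG' := hG.sub (isHol_low (k := k) hG hM J)
    intro M1 hM1 j hj
    simp only [rest]
    rcases List.mem_cons.1 hM1 with rfl | hM1
    · rw [a4_coef_rest L hL' hM
        (fun M' h => hc M' (List.mem_cons_of_mem _ h) M1 List.mem_cons_self) j hG',
        a4_coef_sub_low hG hM (hP M1 List.mem_cons_self) hj, a4_rest_zero]
    · refine ih hL' (fun A hA B hB => hc A (List.mem_cons_of_mem _ hA) B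
        (List.mem_cons_of_mem _ hB)) hG' (fun A hA => ?_) M1 hM1 j hj
      have hA' := hP A (List.mem_cons_of_mem _ hA)
      exact hA'.sub (per_low (hc M List.mem_cons_self A (List.mem_cons_of_mem _ hA)) hA' J)

theorem a4_rest_of_cond {k J : ℕ} (L : List (Op n)) {G : V n → ℂ}
    (h : ∀ M ∈ L, Cond k M J G) : rest k J L G = G := by
  induction L with
  | nil => rfl
  | cons M L ih =>
    have h0 : low k M J G = 0 :=
      Finset.sum_eq_zero fun j hj => h M List.mem_cons_self j (Finset.mem_range.1 hj)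
    simp only [rest]
    rw [h0, sub_zero]
    exact ih fun M' h' => h M' (List.mem_cons_of_mem _ h')

theorem a4_low_low {w k : ℕ} {G : V n → ℂ} (hG : IsHol w G) {M M' : Op n} (hM : IsGen M)
    (hM' : IsGen M') (hc : Commute M M') (J : ℕ) :
    low k M' J (low k M J G) = low k M J (low k M' J G) := by
  have h1 : low k M' J (low k M J G) =
      ∑ j ∈ Finset.range J, ∑ i ∈ Finset.range J, coef k M' j (coef k M i G) :=
    Finset.sum_congr rfl fun j _ => coef_low hG hM hM' J j
  have h2 : low k M J (low k M' J G) =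
      ∑ i ∈ Finset.range J, ∑ j ∈ Finset.range J, coef k M i (coef k M' j G) :=
    Finset.sum_congr rfl fun i _ => coef_low hG hM' hM J i
  rw [h1, h2, Finset.sum_comm]
  exact Finset.sum_congr rfl fun i _ => Finset.sum_congr rfl fun j _ =>
    (coef_comm hG hM hM' hc i j).symm

theorem a4_rest_perm {w k J : ℕ} {L L' : List (Op n)} (hp : L.Perm L') (hL : ∀ M ∈ L, IsGen M)
    (hc : ∀ M ∈ L, ∀ M' ∈ L, Commute M M') {G : V n → ℂ} (hG : IsHol w G) :
    rest k J L G = rest k J L' G := by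
  induction hp generalizing G with
  | nil => rfl
  | cons M _ ih =>
    simp only [rest]
    exact ih (fun M' h => hL M' (List.mem_cons_of_mem _ h))
      (fun A hA B hB => hc A (List.mem_cons_of_mem _ hA) B (List.mem_cons_of_mem _ hB))
      (hG.sub (isHol_low hG (hL M List.mem_cons_self) J))
  | swap x y l =>
    have hy : y ∈ y :: x :: l := List.mem_cons_self
    have hx : x ∈ y :: x :: l := List.mem_cons_of_mem _ List.mem_cons_self
    simp only [rest]
    rw [a4_low_sub hG (isHol_low hG (hL y hy) J) (hL x hx),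
      a4_low_sub hG (isHol_low hG (hL x hx) J) (hL y hy),
      a4_low_low hG (hL y hy) (hL x hx) (hc y hy x hx)]
    congr 1
    abel
  | trans h1 _ ih1 ih2 =>
    rw [ih1 hL hc hG]
    exact ih2 (fun M h => hL M (h1.mem_iff.2 h))
      (fun A hA B hB => hc A (h1.mem_iff.2 hA) B (h1.mem_iff.2 hB)) hG

theorem a4_rest_cnj {k J : ℕ} (g : GG n) (L : List (Op n)) (G : V n → ℂ) (v : V n) :
    rest k J (L.map (cnj g)) G ((g : Op n) v) = rest k J L (fun u => G ((g : Op n) u)) v := by
  induction L generalizing G with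
  | nil => rfl
  | cons M L ih =>
    simp only [List.map_cons, rest]
    rw [ih]
    congr 1
    funext u
    simp only [low, Pi.sub_apply, Finset.sum_apply, coef_cnj]

theorem a4_cnj_inj (g : GG n) : Function.Injective (cnj g) := by
  intro A B h
  have h1 := congrArg (cnj g⁻¹) h
  rwa [← cnj_mul, ← cnj_mul, inv_mul_cancel, cnj_one, cnj_one] at h1

theorem a4_inv_sub {Λ : Subgroup (GG n)} {G H : V n → ℂ} (hG : Inv Λ G) (hH : Inv Λ H) :
    Inv Λ (G - H) := fun g hg v => by
  simp only [Pi.sub_apply, hG g hg v, hH g hg v]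

theorem a4_inv_low {Λ : Subgroup (GG n)} {k : ℕ} {G : V n → ℂ} (hi : Inv Λ G) {M : Op n}
    (hc : ∀ g ∈ Λ, Commute (g : Op n) M) (J : ℕ) : Inv Λ (low k M J G) := fun g hg v => by
  simp only [low, Finset.sum_apply]
  exact Finset.sum_congr rfl fun j _ => inv_coef hi hc j g hg v

theorem a4_inv_rest {Λ : Subgroup (GG n)} {k J : ℕ} (L : List (Op n))
    (hc : ∀ M ∈ L, ∀ g ∈ Λ, Commute (g : Op n) M) {G : V n → ℂ} (hi : Inv Λ G) :
    Inv Λ (rest k J L G) := by
  induction L generalizing G with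
  | nil => exact hi
  | cons M L ih =>
    exact ih (fun M' h => hc M' (List.mem_cons_of_mem _ h))
      (a4_inv_sub hi (a4_inv_low hi (hc M List.mem_cons_self) J))

theorem a4_sub (Γ : Subgroup (GG n)) {F : Set (Op n)} (hfin : F.Finite) :
    ∃ Λ : Subgroup (GG n), Λ ≤ stab Γ F ∧ Λ.relIndex (stab Γ F) ≠ 0 ∧
      ∀ g ∈ Λ, ∀ M ∈ F, Commute (g : Op n) M := by
  have hmem : ∀ g : stab Γ F, ∀ M : F, cnj g M ∈ F := fun g M => by
    have h : cnjS g F = F := g.2.2
    have h1 : cnj g M ∈ cnjS g F := ⟨M, M.2, rfl⟩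
    rwa [h] at h1
  let _ : MulAction (stab Γ F) F :=
    { smul := fun g M => ⟨cnj g M, hmem g M⟩
      one_smul := fun M => Subtype.ext (cnj_one _)
      mul_smul := fun a b M => Subtype.ext (cnj_mul _ _ _) }
  have _ : Finite F := hfin
  refine ⟨(MulAction.toPermHom (stab Γ F) F).ker.map (stab Γ F).subtype,
    Subgroup.map_subtype_le _, ?_, ?_⟩
  · rw [Subgroup.relIndex, Subgroup.subgroupOf,
      Subgroup.comap_map_eq_self_of_injective (Subgroup.subtype_injective _)]
    exact Subgroup.FiniteIndex.index_ne_zero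
  · rintro _ ⟨g, hg, rfl⟩ M hM
    have h := congrArg (fun e : Equiv.Perm F => ((e ⟨M, hM⟩ : F) : Op n))
      (MonoidHom.mem_ker.1 hg)
    exact cnj_eq_iff.1 h

theorem a4_mass_eq {w : ℕ} (G : V n → ℂ) {S : Set (V n)} (hS : MeasurableSet S)
    (ψ : V n → ℝ≥0∞) :
    mass w G S ψ = ∫⁻ v, S.indicator (petE w G) v * ψ v ∂(nu n) := by
  rw [mass, ← lintegral_indicator hS]
  refine lintegral_congr fun v => ?_
  by_cases hv : v ∈ S
  · simp only [Set.indicator_of_mem hv]
  · simp only [Set.indicator_of_notMem hv, zero_mul]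

theorem a4_mass_sub {Λ Γ : Subgroup (GG n)} (hΓ : Proper Γ) (h : Λ ≤ Γ)
    (hi : Λ.relIndex Γ ≠ 0) {ψ ψ' : V n → ℝ≥0∞} (hψ : IsWeight Γ ψ) (hψ' : IsWeight Λ ψ')
    {w : ℕ} {G : V n → ℂ} (hG : IsHol w G) (hI : Inv Γ G) {S : Set (V n)} (hS : Region Γ S) :
    mass w G S ψ' = (Λ.relIndex Γ : ℝ≥0∞) * mass w G S ψ := by
  rw [a4_mass_eq G hS.meas, a4_mass_eq G hS.meas]
  exact lintegral_relIndex hΓ h hi hψ hψ' (hS.invF (hG.invF hΓ hI))

theorem a4_flow_tube {F : Set (Op n)} (hgen : ∀ M ∈ F, IsGen M)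
    (hcomm : ∀ M ∈ F, ∀ M' ∈ F, Commute M M') {M : Op n} (hM : M ∈ F) {t : ℂ} (ht : 0 ≤ t.im)
    (s : ℝ) : ∀ v ∈ TubeS F s, flow M t v ∈ TubeS F s := by
  intro v hv
  obtain ⟨M', hM', hv1, hv2⟩ := Set.mem_iUnion₂.1 hv
  exact Set.mem_iUnion₂.2 ⟨M', hM', (hgen M hM).flow_mem_Neg ht hv1,
    (mu_flow_le (hgen M hM) (hgen M' hM') (hcomm M hM M' hM') ht hv1).trans_lt hv2⟩

theorem a4_flow_diff {F : Set (Op n)} (hgen : ∀ M ∈ F, IsGen M)
    (hcomm : ∀ M ∈ F, ∀ M' ∈ F, Commute M M') {M : Op n} (hM : M ∈ F) (s s' x : ℝ) :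
    ∀ v ∈ TubeS F s' \ TubeS F s, flow M x v ∈ TubeS F s' \ TubeS F s := by
  rintro v ⟨hv, hv'⟩
  refine ⟨a4_flow_tube hgen hcomm hM (by simp) s' v hv, fun h => hv' ?_⟩
  obtain ⟨M', hM', -, h2⟩ := Set.mem_iUnion₂.1 h
  rw [mu_flow_real (hgen M hM) (hcomm M hM M' hM')] at h2
  exact Set.mem_iUnion₂.2 ⟨M', hM', TubeS_subset_Neg F s' hv, h2⟩

theorem a4_piece {Λ : Subgroup (GG n)} (hΛ : Proper Λ) {F : Set (Op n)}
    (hgen : ∀ M ∈ F, IsGen M) (hcomm : ∀ M ∈ F, ∀ M' ∈ F, Commute M M')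
    (hst : ∀ g ∈ Λ, cnjS g F = F) (hc : ∀ g ∈ Λ, ∀ M ∈ F, Commute (g : Op n) M)
    {ψ : V n → ℝ≥0∞} (hψ : IsWeight Λ ψ) {k J : ℕ} (hk : 1 ≤ k) {s s' θ : ℝ} (hs : 0 < s)
    (hJ : (J : ℝ) ≤ θ * (s * (((k : ℝ) - 1) * ((n : ℝ) + 1))))
    {M : Op n} (hM : M ∈ F) {G : V n → ℂ} (hG : IsHol (k * (n + 1)) G) (hi : Inv Λ G)
    (hP : Per k M G) {j : ℕ} (hj : j < J)
    (hfin : mass (k * (n + 1)) (coef k M j G) (TubeS F s') ψ ≠ ⊤) :
    mass (k * (n + 1)) (coef k M j G) (TubeS F s' \ TubeS F s) ψ ≤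
      ENNReal.ofReal θ * mass (k * (n + 1)) (coef k M j G) (TubeS F s') ψ := by
  have h1 := markov hΛ hψ (j := j) (isHol_coef hG (hgen M hM) j)
    (inv_coef hi (fun g hg => hc g hg M hM) j) (hgen M hM) (fun g hg => hc g hg M hM)
    (fun u hu t ht => coef_flow hG (hgen M hM) hP j hu ht) hk (region_TubeS hΛ hst s')
    (fun y hy => a4_flow_tube hgen hcomm hM (by simpa using hy) s') hfin hs.le
  set c : ℝ := s * (((k : ℝ) - 1) * ((n : ℝ) + 1)) with hcdef
  have hk' : (1 : ℝ) ≤ k := by exact_mod_cast hk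
  have hc0 : 0 ≤ c := mul_nonneg hs.le (mul_nonneg (by linarith) (by positivity))
  have hjJ : (j : ℝ) < J := by exact_mod_cast hj
  have hj0 : (0 : ℝ) ≤ j := Nat.cast_nonneg j
  have hcp : 0 < c := by
    rcases hc0.lt_or_eq with h | h
    · exact h
    · rw [← h, mul_zero] at hJ
      linarith
  have h2 : mass (k * (n + 1)) (coef k M j G) (TubeS F s' \ TubeS F s) ψ ≤
      mass (k * (n + 1)) (coef k M j G) (TubeS F s' \ Tube M s) ψ := by
    refine lintegral_mono_set (Set.sdiff_subset_sdiff_right ?_)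
    exact Set.subset_biUnion_of_mem (u := fun M => Tube M s) hM
  have h3 : (j : ℝ≥0∞) ≤ ENNReal.ofReal c * ENNReal.ofReal θ := by
    rw [← ENNReal.ofReal_mul hc0, ← ENNReal.ofReal_natCast]
    exact ENNReal.ofReal_le_ofReal (by linarith [mul_comm c θ])
  refine h2.trans ?_
  have h4 := h1.trans (mul_le_mul_left h3 _)
  rw [mul_assoc] at h4
  exact (ENNReal.mul_le_mul_iff_right (by simpa using hcp) ENNReal.ofReal_ne_top).1 h4

theorem a4_mass {Λ : Subgroup (GG n)} (hΛ : Proper Λ) {F : Set (Op n)}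
    (hgen : ∀ M ∈ F, IsGen M) (hcomm : ∀ M ∈ F, ∀ M' ∈ F, Commute M M')
    (hst : ∀ g ∈ Λ, cnjS g F = F) (hc : ∀ g ∈ Λ, ∀ M ∈ F, Commute (g : Op n) M)
    {ψ : V n → ℝ≥0∞} (hψ : IsWeight Λ ψ) {k J : ℕ} (hk : 1 ≤ k) {s s' θ : ℝ} (hs : 0 < s)
    (hJ : (J : ℝ) ≤ θ * (s * (((k : ℝ) - 1) * ((n : ℝ) + 1))))
    (L : List (Op n)) (hL : ∀ M ∈ L, M ∈ F) {G : V n → ℂ} (hG : IsHol (k * (n + 1)) G)
    (hi : Inv Λ G) (hP : ∀ M ∈ F, Per k M G)
    (hfin : mass (k * (n + 1)) G (TubeS F s') ψ ≠ ⊤) :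
    mass (k * (n + 1)) (G - rest k J L G) (TubeS F s') ψ ≠ ⊤ ∧
      mass (k * (n + 1)) (G - rest k J L G) (TubeS F s' \ TubeS F s) ψ ≤
        ENNReal.ofReal θ * mass (k * (n + 1)) (G - rest k J L G) (TubeS F s') ψ := by
  induction L generalizing G with
  | nil => simp [rest, mass, petE]
  | cons M L ih =>
    have hM : M ∈ F := hL M List.mem_cons_self
    have hMg := hgen M hM
    have hcM : ∀ g ∈ Λ, Commute (g : Op n) M := fun g hg => hc g hg M hM
    have hLg : ∀ A ∈ M :: L, IsGen A := fun A hA => hgen A (hL A hA)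
    have hR1 := region_TubeS hΛ hst s'
    have hR2 := hR1.diff (region_TubeS hΛ hst s)
    have hf1 : ∀ (x : ℝ), ∀ v ∈ TubeS F s', flow M x v ∈ TubeS F s' :=
      fun x => a4_flow_tube hgen hcomm hM (by simp) s'
    have hsp := mass_split hΛ hψ hG hi hMg hcM (hP M hM) hR1 hf1 J
    rw [hsp] at hfin
    obtain ⟨hf2, hf3⟩ := ENNReal.add_ne_top.1 hfin
    obtain ⟨i1, i2⟩ := ih (fun A hA => hL A (List.mem_cons_of_mem _ hA))
      (hG.sub (isHol_low hG hMg J)) (a4_inv_sub hi (a4_inv_low hi hcM J))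
      (fun A hA => (hP A hA).sub (per_low (hcomm M hM A hA) (hP A hA) J)) hf2
    have hrest : IsHol (k * (n + 1)) (rest k J (M :: L) G) := a4_isHol_rest _ hLg hG
    have hRh : IsHol (k * (n + 1)) (G - rest k J (M :: L) G) := hG.sub hrest
    have hRi : Inv Λ (G - rest k J (M :: L) G) :=
      a4_inv_sub hi (a4_inv_rest _ (fun A hA g hg => hc g hg A (hL A hA)) hi)
    have hRp : Per k M (G - rest k J (M :: L) G) :=
      (hP M hM).sub (a4_per_rest _ (fun A hA => hcomm A (hL A hA) M hM) (hP M hM))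
    have hco : ∀ j ∈ Finset.range J,
        coef k M j (G - rest k J (M :: L) G) = coef k M j G := fun j hj => by
      rw [coef_sub hG hrest hMg, a4_cond_rest (M :: L) hLg
        (fun A hA B hB => hcomm A (hL A hA) B (hL B hB)) hG (fun A hA => hP A (hL A hA)) M
        List.mem_cons_self j (Finset.mem_range.1 hj), sub_zero]
    have hlow : G - rest k J (M :: L) G - low k M J (G - rest k J (M :: L) G) =
        G - low k M J G - rest k J L (G - low k M J G) := by
      have h0 : low k M J (G - rest k J (M :: L) G) = low k M J G := Finset.sum_congr rfl hco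
      rw [h0]
      simp only [rest]
      abel
    have key : ∀ S : Set (V n), Region Λ S → (∀ (x : ℝ), ∀ v ∈ S, flow M x v ∈ S) →
        mass (k * (n + 1)) (G - rest k J (M :: L) G) S ψ =
          mass (k * (n + 1)) (G - low k M J G - rest k J L (G - low k M J G)) S ψ +
            ∑ j ∈ Finset.range J, mass (k * (n + 1)) (coef k M j G) S ψ := fun S hS hf => by
      rw [mass_split hΛ hψ hRh hRi hMg hcM hRp hS hf J, hlow]
      congr 1
      exact Finset.sum_congr rfl fun j hj => by rw [hco j hj]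
    rw [key _ hR1 hf1, key _ hR2 (a4_flow_diff hgen hcomm hM s s')]
    refine ⟨ENNReal.add_ne_top.2 ⟨i1, hf3⟩, ?_⟩
    rw [mul_add (ENNReal.ofReal θ), Finset.mul_sum]
    refine add_le_add i2 (Finset.sum_le_sum fun j hj => ?_)
    exact a4_piece hΛ hgen hcomm hst hc hψ hk hs hJ hM hG hi (hP M hM)
      (Finset.mem_range.1 hj) (ENNReal.sum_ne_top.1 hf3 j hj)

theorem family_proj {Γ : Subgroup (GG n)} (hΓ : Proper Γ) {F : Set (Op n)} (hfin : F.Finite)
    (hgen : ∀ M ∈ F, IsGen M ∧ InP Γ (flow M 1)) (hcomm : ∀ M ∈ F, ∀ M' ∈ F, Commute M M')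
    {ψ : V n → ℝ≥0∞} (hψ : IsWeight (stab Γ F) ψ) {k J : ℕ} (hk : 1 ≤ k) {s s' θ : ℝ}
    (hs : 0 < s) (hss : s ≤ s') (hθ : 0 ≤ θ)
    (hJ : (J : ℝ) ≤ θ * (s * (((k : ℝ) - 1) * ((n : ℝ) + 1))))
    (A : Submodule ℂ (V n → ℂ))
    (hA : ∀ G ∈ A, IsHol (k * (n + 1)) G ∧ Inv Γ G ∧ mass (k * (n + 1)) G (TubeS F s') ψ ≠ ⊤) :
    ∃ P : A →ₗ[ℂ] (V n → ℂ), (∀ G : A, P G = 0 ↔ ∀ M ∈ F, Cond k M J G) ∧ ∀ G : A,
      IsHol (k * (n + 1)) (P G) ∧ Inv (stab Γ F) (P G) ∧
      (∀ (M' : Op n) (J' : ℕ), IsGen M' → InP Γ (flow M' 1) → (∀ M ∈ F, Commute M M') →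
        Per k M' (P G) ∧ (Cond k M' J' G → Cond k M' J' (P G))) ∧
      mass (k * (n + 1)) (P G) (TubeS F s') ψ ≠ ⊤ ∧
      mass (k * (n + 1)) (P G) (TubeS F s' \ TubeS F s) ψ ≤
        ENNReal.ofReal θ * mass (k * (n + 1)) (P G) (TubeS F s') ψ := by
  classical
  obtain ⟨L, hnd, hL⟩ : ∃ L : List (Op n), L.Nodup ∧ ∀ M, M ∈ L ↔ M ∈ F :=
    ⟨hfin.toFinset.toList, Finset.nodup_toList _, fun M => by simp⟩
  have hLg : ∀ M ∈ L, IsGen M := fun M hM => (hgen M ((hL M).1 hM)).1
  have hLc : ∀ M ∈ L, ∀ M' ∈ L, Commute M M' :=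
    fun M hM M' hM' => hcomm M ((hL M).1 hM) M' ((hL M').1 hM')
  have hle : stab Γ F ≤ Γ := fun g hg => hg.1
  have hS : Proper (stab Γ F) := hΓ.mono hle
  have hper : ∀ G : A, ∀ M ∈ F, Per k M (G : V n → ℂ) := fun G M hM =>
    per_of_inv hΓ (hA G G.2).1 (hA G G.2).2.1 (hgen M hM).1 (hgen M hM).2
  obtain ⟨Λ, hΛ1, hΛ2, hΛ3⟩ := a4_sub Γ hfin
  obtain ⟨ψ0, hψ0⟩ := exists_weight_sub hS hΛ1 hψ
  refine ⟨{ toFun := fun G => (G : V n → ℂ) - rest k J L G
            map_add' := fun G H => ?_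
            map_smul' := fun c G => ?_ }, fun G => ?_, fun G => ?_⟩
  · rw [Submodule.coe_add, a4_rest_add L hLg (hA G G.2).1 (hA H H.2).1]
    abel
  · rw [Submodule.coe_smul, a4_rest_smul, RingHom.id_apply, smul_sub]
  · change (G : V n → ℂ) - rest k J L G = 0 ↔ _
    constructor
    · intro h M hM
      rw [sub_eq_zero.1 h]
      exact a4_cond_rest L hLg hLc (hA G G.2).1 (fun B hB => hper G B ((hL B).1 hB)) M
        ((hL M).2 hM)
    · intro h
      rw [a4_rest_of_cond L fun M hM => h M ((hL M).1 hM), sub_self]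
  · obtain ⟨hG, hI, hm⟩ := hA G G.2
    have hrest : IsHol (k * (n + 1)) (rest k J L (G : V n → ℂ)) := a4_isHol_rest L hLg hG
    have hI' : Inv (stab Γ F) (G : V n → ℂ) := fun g hg => hI g (hle hg)
    have hinv : Inv (stab Γ F) ((G : V n → ℂ) - rest k J L G) := by
      refine a4_inv_sub hI' fun g hg v => ?_
      have hp : L.Perm (L.map (cnj g)) := by
        refine (List.perm_ext_iff_of_nodup hnd (hnd.map (a4_cnj_inj g))).2 fun M => ?_
        have h : cnjS g F = F := hg.2
        rw [List.mem_map, hL, ← h]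
        constructor
        · rintro ⟨B, hB, rfl⟩
          exact ⟨B, (hL B).2 hB, rfl⟩
        · rintro ⟨B, hB, rfl⟩
          exact ⟨B, (hL B).1 hB, rfl⟩
      have h1 : (fun u => (G : V n → ℂ) ((g : Op n) u)) = G := funext fun u => hI' g hg u
      rw [a4_rest_perm hp hLg hLc hG, a4_rest_cnj, h1, ← a4_rest_perm hp hLg hLc hG]
    have hR1 : Region (stab Γ F) (TubeS F s') := region_TubeS hS (fun g hg => hg.2) s'
    have hR2 := hR1.diff (region_TubeS hS (fun g hg => hg.2) s)
    have hi0 : (Λ.relIndex (stab Γ F) : ℝ≥0∞) ≠ 0 := by exact_mod_cast hΛ2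
    have hit : (Λ.relIndex (stab Γ F) : ℝ≥0∞) ≠ ⊤ := ENNReal.natCast_ne_top _
    obtain ⟨m1, m2⟩ := a4_mass (hS.mono hΛ1) (fun M hM => (hgen M hM).1) hcomm
      (fun g hg => (hΛ1 hg).2) hΛ3 hψ0 hk hs hJ L (fun M hM => (hL M).1 hM) hG
      (fun g hg => hI' g (hΛ1 hg)) (hper G) (s' := s') (by
        rw [a4_mass_sub hS hΛ1 hΛ2 hψ hψ0 hG hI' hR1]
        exact ENNReal.mul_ne_top hit hm)
    rw [a4_mass_sub hS hΛ1 hΛ2 hψ hψ0 (hG.sub hrest) hinv hR1] at m1 m2
    rw [a4_mass_sub hS hΛ1 hΛ2 hψ hψ0 (hG.sub hrest) hinv hR2, mul_left_comm] at m2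
    refine ⟨hG.sub hrest, hinv, fun M' J' hM' hP' hc' => ⟨?_, fun hC j hj => ?_⟩, ?_, ?_⟩
    · have hp := per_of_inv hΓ hG hI hM' hP'
      exact hp.sub (a4_per_rest L (fun M hM => hc' M ((hL M).1 hM)) hp)
    · change coef k M' j ((G : V n → ℂ) - rest k J L G) = 0
      rw [coef_sub hG hrest hM', a4_coef_rest L hLg hM' (fun M hM => hc' M ((hL M).1 hM)) j hG,
        hC j hj, a4_rest_zero, sub_self]
    · intro h
      apply m1
      change mass (k * (n + 1)) ((G : V n → ℂ) - rest k J L G) (TubeS F s') ψ = ⊤ at h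
      rw [h, ENNReal.mul_top hi0]
    · exact (ENNReal.mul_le_mul_iff_right hi0 hit).1 m2

end BallQ
end
end
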