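import Pool.Agent.Work.MP_72250f_ag.B2a

-- merged part: Pool.Agent.Work.MP_72250f_ag.B2
section
/-!
Rank one operators, traces, determinants, reflections, Eichler transformations.
All identities are checked by ext + the form_* lemmas of B0 (module / ring / linear_combination).
tr_rk1: LinearMap.trace_smulRight or trace in the basis (bas n).toBasis. det_one_add_rk1: pass to matrices
(LinearMap.det_toMatrix, Matrix.det_one_add_replicateCol_mul_replicateRow). norm_det: A^H J A = J for the matrix A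
of g in the basis bas, take determinants. eq_eich: eta = q - g q, pair with g q; tau from <g q, g q> = <q,q>.
-/

open scoped ComplexConjugate ENNReal Topology
open MeasureTheory Filter

noncomputable section

namespace BallQ

variable {n : ℕ}

theorem b2_conj_tau (η : V n) (τ : ℝ) :
    conj (form η η / 2 - Complex.I * τ) = form η η / 2 + Complex.I * τ := by
  rw [map_sub, map_div₀, form_conj, map_mul, Complex.conj_I, Complex.conj_ofReal, map_ofNat]
  ring

theorem b2_im (z : ℂ) : (2 * Complex.I * (z.im : ℂ)) = z - conj z := by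
  rw [Complex.sub_conj]
  push_cast
  ring

theorem cnj_smul (g : GG n) (c : ℂ) (T : Op n) : cnj g (c • T) = c • cnj g T := by
  simp only [cnj, mul_smul_comm, smul_mul_assoc]

theorem cnj_mul_cnj (g : GG n) (S T : Op n) : cnj g (S * T) = cnj g S * cnj g T := by
  simp only [cnj, mul_assoc, Units.inv_mul_cancel_left]

theorem IsIsom.cnj {g : GG n} (hg : IsIsom (g : Op n)) {T : Op n} (hT : IsIsom T) :
    IsIsom (cnj g T) := by
  exact (hg.mul hT).mul hg.inv

theorem refl_apply (e v : V n) : refl e v = v - (2 * form v e) • e := by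
  simp only [refl, sub_apply, one_apply_eq_self, smul_apply, rk1_apply, smul_smul]

theorem isIsom_refl {e : V n} (he : form e e = 1) : IsIsom (refl e) := by
  intro v w
  rw [refl_apply, refl_apply, form_sub_left, form_sub_right, form_sub_right, form_smul_left,
    form_smul_left, form_smul_right, form_smul_right, he, map_mul, form_conj, map_ofNat]
  ring

theorem refl_mul_self {e : V n} (he : form e e = 1) : refl e * refl e = 1 := by
  ext1 v
  rw [mul_apply_eq_comp, refl_apply, refl_apply, form_sub_left, form_smul_left, he,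
    one_apply_eq_self]
  module

theorem cnj_refl {g : GG n} (hg : IsIsom (g : Op n)) (e : V n) :
    cnj g (refl e) = refl ((g : Op n) e) := by
  ext1 v
  rw [cnj_apply, refl_apply, refl_apply, map_sub, map_smul, apply_inv_apply, ← hg, apply_inv_apply]

theorem eich_apply (p η v : V n) (τ : ℝ) : eich p η τ v =
    v + form v p • η - (form v η + (form η η / 2 - Complex.I * τ) * form v p) • p := by
  simp only [eich, sub_apply, add_apply, one_apply_eq_self, smul_apply, rk1_apply]
  module

theorem isIsom_eich {p η : V n} (hp : form p p = 0) (hη : form η p = 0) (τ : ℝ) :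
    IsIsom (eich p η τ) := by
  intro v w
  have hη' : form p η = 0 := form_eq_zero_comm.mp hη
  rw [eich_apply, eich_apply]
  simp only [form_sub_left, form_sub_right, form_add_left, form_add_right, form_smul_left,
    form_smul_right, hp, hη, hη', map_add, map_mul, b2_conj_tau, form_conj]
  ring

theorem eich_mul {p η η' : V n} (hp : form p p = 0) (hη : form η p = 0) (hη' : form η' p = 0)
    (τ τ' : ℝ) :
    eich p η τ * eich p η' τ' = eich p (η + η') (τ + τ' + (form η η').im) := by
  ext1 v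
  have hη1 : form p η = 0 := form_eq_zero_comm.mp hη
  rw [mul_apply_eq_comp, eich_apply, eich_apply, eich_apply]
  simp only [form_sub_left, form_add_left, form_add_right, form_smul_left, hp, hη', hη1]
  have h := b2_im (form η η')
  rw [form_conj] at h
  push_cast
  match_scalars
  all_goals first | ring1 | linear_combination (-(form v p) / 2) * h

theorem eich_zero (p : V n) (τ : ℝ) : eich p 0 τ = vert p τ := by
  ext1 v
  rw [eich_apply]
  simp [vert, smul_smul]

theorem eich_add_smul {p η : V n} (hp : form p p = 0) (hη : form η p = 0) (c : ℂ) (τ : ℝ) :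
    eich p (η + c • p) τ = eich p η (τ + 2 * c.im) := by
  ext1 v
  have hη1 : form p η = 0 := form_eq_zero_comm.mp hη
  rw [eich_apply, eich_apply]
  simp only [form_add_left, form_add_right, form_smul_left, form_smul_right, hp, hη, hη1]
  have h := b2_im c
  push_cast
  match_scalars
  · ring
  · ring
  · linear_combination (-(form v p)) * h

theorem eich_smul (c : ℂ) (p η : V n) (τ : ℝ) :
    eich (c • p) η τ = eich p (conj c • η) (‖c‖ ^ 2 * τ) := by
  ext1 v
  rw [eich_apply, eich_apply]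
  simp only [form_smul_left, form_smul_right, Complex.conj_conj]
  have h : ((‖c‖ : ℂ)) ^ 2 = c * conj c := by
    rw [Complex.mul_conj, Complex.normSq_eq_norm_sq]
    push_cast
    rfl
  push_cast
  rw [h]
  match_scalars <;> ring

theorem cnj_eich {g : GG n} (hg : IsIsom (g : Op n)) (p η : V n) (τ : ℝ) :
    cnj g (eich p η τ) = eich ((g : Op n) p) ((g : Op n) η) τ := by
  ext1 v
  have h : ∀ w, form (((g⁻¹ : GG n) : Op n) v) w = form v ((g : Op n) w) := fun w => by
    rw [← hg, apply_inv_apply]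
  rw [cnj_apply, eich_apply, eich_apply, map_sub, map_add, map_smul, map_smul, apply_inv_apply, h,
    h, hg]

theorem eq_eich (W : Submodule ℂ (V n)) {g : Op n} (hg : IsIsom g) (hW : ∀ v ∈ W, g v ∈ W)
    {p q : V n} (hpW : p ∈ W) (hqW : q ∈ W) (hp : form p p = 0) (hq : form q p = -1)
    (hgp : g p = p) (h : ∀ v ∈ W, form v p = 0 → ∃ c : ℂ, g v = v + c • p) :
    ∃ η ∈ W, form η p = 0 ∧ ∃ τ : ℝ, ∀ v ∈ W, g v = eich p η τ v := by
  have hq' : form p q = -1 := by rw [← form_conj, hq]; simp
  have hgqp : form (g q) p = -1 := by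
    conv_lhs => rw [← hgp, hg, hq]
  have hη : form (q - g q) p = 0 := by rw [form_sub_left, hq, hgqp, sub_self]
  refine ⟨q - g q, W.sub_mem hqW (hW q hqW), hη, ?_⟩
  set η := q - g q with hηdef
  have hgq : g q = q - η := by rw [hηdef]; abel
  clear_value η
  have h1 : form η η = form q η + form η q := by
    have := hg q q
    rw [hgq, form_sub_left, form_sub_right, form_sub_right] at this
    linear_combination this
  refine ⟨-(form q η).im, fun v hv => ?_⟩
  have h2 : form η η / 2 - Complex.I * ((-(form q η).im : ℝ) : ℂ) = form q η := by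
    have := b2_im (form q η)
    rw [form_conj] at this
    push_cast
    linear_combination (1 / 2 : ℂ) * h1 + (1 / 2 : ℂ) * this
  have hu : form (v + form v p • q) p = 0 := by
    rw [form_add_left, form_smul_left, hq]
    ring
  obtain ⟨c, hc⟩ := h _ (W.add_mem hv (W.smul_mem _ hqW)) hu
  have h3 := hg (v + form v p • q) q
  rw [hc, hgq, form_add_left, form_smul_left, form_sub_right, form_sub_right, hq',
    form_eq_zero_comm.mp hη, form_add_left _ _ η, form_smul_left] at h3
  have h4 : c = -(form v η + form v p * form q η) := by linear_combination -h3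
  rw [map_add, map_smul, hgq] at hc
  rw [eich_apply, h2, eq_sub_of_add_eq hc, h4]
  module

theorem vert_apply (p v : V n) (τ : ℝ) : vert p τ v = v + (Complex.I * τ * form v p) • p := by
  simp only [vert, add_apply, one_apply_eq_self, smul_apply, rk1_apply, smul_smul]

theorem vert_mul {p : V n} (hp : form p p = 0) (τ τ' : ℝ) :
    vert p τ * vert p τ' = vert p (τ + τ') := by
  ext1 v
  rw [mul_apply_eq_comp, vert_apply, vert_apply, vert_apply, form_add_left, form_smul_left, hp]
  push_cast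
  module

theorem vert_zero (p : V n) : vert p 0 = 1 := by
  simp [vert]

theorem cnj_vert {g : GG n} (hg : IsIsom (g : Op n)) (p : V n) (τ : ℝ) :
    cnj g (vert p τ) = vert ((g : Op n) p) τ := by
  rw [← eich_zero, cnj_eich hg, map_zero, eich_zero]

/-- Every nonpositive eigenvector of a nontrivial vertical translation is a multiple of `p`. -/
theorem vert_eig {p y : V n} (hp0 : p ≠ 0) (hp : form p p = 0) {τ : ℝ} (hτ : τ ≠ 0)
    (hy : 0 ≤ NN y) {c : ℂ} (h : vert p τ y = c • y) : ∃ d : ℂ, y = d • p := by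
  have hp' : 0 ≤ NN p := by simp [NN, hp]
  rw [vert_apply] at h
  by_cases hc : c = 1
  · rw [hc, one_smul, add_eq_left, smul_eq_zero] at h
    have h1 : form y p = 0 := by
      rcases h with h | h
      · simpa [hτ] using h
      · exact absurd h hp0
    exact eq_smul_of_perp hp0 hp' h1 hy
  · refine ⟨(c - 1)⁻¹ * (Complex.I * τ * form y p), ?_⟩
    have h2 : (Complex.I * τ * form y p) • p = (c - 1) • y := by
      rw [sub_smul, one_smul, ← h]
      abel
    rw [mul_smul, h2, smul_smul, inv_mul_cancel₀ (sub_ne_zero.mpr hc), one_smul]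

theorem fix_of_commute_vert {p : V n} (hp0 : p ≠ 0) {τ : ℝ} (hτ : τ ≠ 0) {T : Op n}
    (h : Commute T (vert p τ)) : ∃ d : ℂ, T p = d • p := by
  obtain ⟨w, hw⟩ : ∃ w, form p w ≠ 0 := by
    by_contra hcon
    push Not at hcon
    exact hp0 (eq_zero_of_form hcon)
  have hw' : Complex.I * τ * form w p ≠ 0 :=
    mul_ne_zero (mul_ne_zero Complex.I_ne_zero (by exact_mod_cast hτ))
      fun h => hw (form_eq_zero_comm.mp h)
  have h1 : T (vert p τ w) = vert p τ (T w) := congrArg (fun S : Op n => S w) h.eq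
  rw [vert_apply, vert_apply, map_add, map_smul, add_right_inj] at h1
  refine ⟨(Complex.I * τ * form w p)⁻¹ * (Complex.I * τ * form (T w) p), ?_⟩
  rw [mul_smul, ← h1, smul_smul, inv_mul_cancel₀ hw', one_smul]

end BallQ
end
end

-- merged part: Pool.Agent.Work.MP_72250f_ag.B4a
section
-- merged part: Pool.Agent.Work.MP_72250f_ag.B3a
section
/-!
Eigenvectors of isometries.
pontryagin: induction on finrank W; g restricted to W has an eigenvector v (Module.End.exists_eigenvalue);
if NN v < 0 pass to W meet v-perp, which is invariant (perp_maps) and still contains a negative vector.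
exists_eigenframe: same induction in a positive definite space. ell_in_sub: exists_perp_neg, both components are
eigenvectors, the perp one is positive. lox_dual: the range of g - (conj a)^-1 is orthogonal to p, so this operator
is not onto, hence not injective; its kernel vector q is null and not proportional to p. fix_of_finite: q(v) = sum over H
of the squared norms of h v is an invariant positive form; maximise NN on the compact q-sphere, value m > 0; the form
m q - NN is nonnegative, its zero set is a subspace (parallelogram law) on which NN is positive definite, hence a line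
(two independent vectors span a vector orthogonal to oo); this line is invariant.
-/

open scoped ComplexConjugate ENNReal Topology
open MeasureTheory Filter

noncomputable section

namespace BallQ

variable {n : ℕ}

theorem eig_norm_one {g : Op n} (hg : IsIsom g) {y : V n} (hy : NN y ≠ 0) {c : ℂ}
    (h : g y = c • y) : ‖c‖ = 1 := by
  have h1 := hg.NN_apply y
  rw [h, NN_smul] at h1
  have h2 : ‖c‖ ^ 2 = 1 := mul_right_cancel₀ hy (by rw [h1, one_mul])
  exact (pow_eq_one_iff_of_nonneg (norm_nonneg _) two_ne_zero).mp h2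

theorem eig_orth {g : Op n} (hg : IsIsom g) {v w : V n} {a b : ℂ} (hv : g v = a • v)
    (hw : g w = b • w) (hab : a * conj b ≠ 1) : form v w = 0 := by
  have h1 := hg v w
  rw [hv, hw, form_smul_left, form_smul_right, ← mul_assoc] at h1
  by_contra h2
  exact hab (mul_right_cancel₀ h2 (by rw [h1, one_mul]))

theorem eig_eq_of_neg {g : Op n} (hg : IsIsom g) {x y : V n} (hx : x ∈ Neg n) (hy0 : y ≠ 0)
    (hy : 0 ≤ NN y) {a b : ℂ} (hxa : g x = a • x) (hyb : g y = b • y) : a = b := by
  have h1 := eig_norm_one hg (ne_of_gt hx) hxa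
  have h2 : b * conj a = 1 := by
    by_contra h
    exact form_ne_zero_of_neg hx hy0 hy (eig_orth hg hyb hxa h)
  have h3 : a * conj a = 1 := by
    rw [Complex.mul_conj, Complex.normSq_eq_norm_sq, h1]
    simp
  have h4 : conj a ≠ 0 := right_ne_zero_of_mul_eq_one h3
  exact mul_right_cancel₀ h4 (h3.trans h2.symm)

theorem b3a_eig {W : Submodule ℂ (V n)} (h0 : W ≠ ⊥) {g : Op n} (hW : ∀ v ∈ W, g v ∈ W) :
    ∃ v ∈ W, v ≠ 0 ∧ ∃ c : ℂ, g v = c • v := by
  have : Nontrivial W := Submodule.nontrivial_iff_ne_bot.mpr h0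
  obtain ⟨c, hc⟩ := Module.End.exists_eigenvalue ((g : V n →ₗ[ℂ] V n).restrict hW)
  obtain ⟨v, hv⟩ := hc.exists_hasEigenvector
  exact ⟨v, v.2, fun h => hv.2 (Subtype.ext h), c, congrArg Subtype.val hv.apply_eq_smul⟩

/-- The orthogonal complement of `v` inside `W`. -/
def b3a_perp (W : Submodule ℂ (V n)) (v : V n) : Submodule ℂ (V n) :=
  W ⊓ LinearMap.ker (formL v : V n →ₗ[ℂ] ℂ)

theorem b3a_mem {W : Submodule ℂ (V n)} {v u : V n} :
    u ∈ b3a_perp W v ↔ u ∈ W ∧ form u v = 0 := Iff.rfl

theorem b3a_form_ne {v : V n} (h : NN v ≠ 0) : form v v ≠ 0 := by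
  rw [form_self]
  exact neg_ne_zero.mpr (by exact_mod_cast h)

theorem b3a_lt {W : Submodule ℂ (V n)} {v : V n} (hv : v ∈ W) (h : NN v ≠ 0) :
    Module.finrank ℂ (b3a_perp W v) < Module.finrank ℂ W :=
  Submodule.finrank_lt_finrank_of_lt (lt_of_le_of_ne inf_le_left fun h1 =>
    b3a_form_ne h (b3a_mem.mp (h1.symm ▸ hv)).2)

theorem b3a_inv {W : Submodule ℂ (V n)} {g : Op n} (hW : ∀ v ∈ W, g v ∈ W)
    (hg : ∀ v ∈ W, ∀ w ∈ W, form (g v) (g w) = form v w) {v : V n} (hv : v ∈ W) (h : NN v ≠ 0)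
    {c : ℂ} (hc : g v = c • v) : ‖c‖ = 1 ∧ ∀ u ∈ b3a_perp W v, g u ∈ b3a_perp W v := by
  have h1 : ‖c‖ = 1 := by
    have h2 : NN (g v) = NN v := by rw [NN, hg v hv v hv, NN]
    rw [hc, NN_smul] at h2
    have h3 : ‖c‖ ^ 2 = 1 := mul_right_cancel₀ h (by rw [h2, one_mul])
    exact (pow_eq_one_iff_of_nonneg (norm_nonneg _) two_ne_zero).mp h3
  refine ⟨h1, fun u hu => b3a_mem.mpr ⟨hW u hu.1, ?_⟩⟩
  have h2 := hg u hu.1 v hv
  rw [hc, form_smul_right, (b3a_mem.mp hu).2] at h2
  refine (mul_eq_zero.mp h2).resolve_left ?_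
  rw [map_eq_zero]
  rintro rfl
  simp at h1

theorem pontryagin (W : Submodule ℂ (V n)) {g : GG n} (hg : IsIsom (g : Op n))
    (hW : ∀ v ∈ W, (g : Op n) v ∈ W) (hx : ∃ x ∈ W, x ∈ Neg n) :
    ∃ y ∈ W, y ≠ 0 ∧ 0 ≤ NN y ∧ ∃ c : ℂ, (g : Op n) y = c • y := by
  induction hm : Module.finrank ℂ W using Nat.strong_induction_on generalizing W with
  | _ m ih =>
    obtain ⟨x, hxW, hxN⟩ := hx
    obtain ⟨v, hv, hv0, c, hc⟩ := b3a_eig (W := W)
      (fun h => ne_zero_of_mem_Neg hxN ((Submodule.mem_bot ℂ).mp (h ▸ hxW))) hW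
    by_cases h1 : 0 ≤ NN v
    · exact ⟨v, hv, hv0, h1, c, hc⟩
    have h2 : NN v ≠ 0 := fun h => h1 h.ge
    have h3 : form (x - (form x v / form v v) • v) v = 0 := by
      rw [form_sub_left, form_smul_left, div_mul_cancel₀ _ (b3a_form_ne h2), sub_self]
    have h4 := NN_add (x - (form x v / form v v) • v) ((form x v / form v v) • v)
    rw [sub_add_cancel, form_smul_right, h3, mul_zero, NN_smul] at h4
    have h5 : 0 < NN x := hxN
    obtain ⟨y, hy, hy'⟩ := ih _ (hm ▸ b3a_lt hv h2) (b3a_perp W v)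
      (b3a_inv hW (fun a _ b _ => hg a b) hv h2 hc).2
      ⟨_, b3a_mem.mpr ⟨W.sub_mem hxW (W.smul_mem _ hv), h3⟩, by
        rw [mem_Neg]
        simp only [Complex.zero_re] at h4
        nlinarith [sq_nonneg ‖form x v / form v v‖]⟩ rfl
    exact ⟨y, hy.1, hy'⟩

theorem exists_eigenframe (W : Submodule ℂ (V n)) (hpos : ∀ v ∈ W, v ≠ 0 → NN v < 0) {g : Op n}
    (hW : ∀ v ∈ W, g v ∈ W) (hg : ∀ v ∈ W, ∀ w ∈ W, form (g v) (g w) = form v w) :
    ∃ (m : ℕ) (e : Fin m → V n) (c : Fin m → ℂ), (∀ i, e i ∈ W) ∧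
      (∀ i j, form (e i) (e j) = if i = j then 1 else 0) ∧ (∀ i, ‖c i‖ = 1) ∧
      (∀ i, g (e i) = c i • e i) ∧ ∀ v ∈ W, v = ∑ i, form v (e i) • e i := by
  induction hm : Module.finrank ℂ W using Nat.strong_induction_on generalizing W with
  | _ m ih =>
    by_cases h0 : W = ⊥
    · refine ⟨0, Fin.elim0, Fin.elim0, fun i => i.elim0, fun i => i.elim0, fun i => i.elim0,
        fun i => i.elim0, fun v hv => ?_⟩
      rw [h0] at hv
      simpa using hv
    obtain ⟨u, hu, hu0, c, hc⟩ := b3a_eig h0 hW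
    have h1 := hpos u hu hu0
    obtain ⟨v, hv, h2, h3⟩ : ∃ v ∈ W, NN v = -1 ∧ g v = c • v := by
      refine ⟨(((√(-NN u))⁻¹ : ℝ) : ℂ) • u, W.smul_mem _ hu, ?_, ?_⟩
      · rw [NN_smul, Complex.norm_real, Real.norm_eq_abs, sq_abs, inv_pow,
          Real.sq_sqrt (by linarith)]
        have := h1.ne
        field_simp
      · rw [map_smul, hc, smul_comm]
    have h4 : NN v ≠ 0 := by rw [h2]; norm_num
    have h5 : form v v = 1 := by rw [form_self, h2]; simp
    obtain ⟨k1, k2⟩ := b3a_inv hW hg hv h4 h3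
    obtain ⟨m', e, d, e1, e2, e3, e4, e5⟩ := ih _ (hm ▸ b3a_lt hv h4) (b3a_perp W v)
      (fun a ha => hpos a ha.1) k2 (fun a ha b hb => hg a ha.1 b hb.1) rfl
    have e6 : ∀ i, form (e i) v = 0 := fun i => (b3a_mem.mp (e1 i)).2
    have e7 : ∀ i, form v (e i) = 0 := fun i => form_eq_zero_comm.mp (e6 i)
    refine ⟨m' + 1, Fin.cons v e, Fin.cons c d, fun i => ?_, fun i j => ?_, fun i => ?_,
      fun i => ?_, fun w hw => ?_⟩
    · exact Fin.cases hv (fun i => (e1 i).1) i
    · refine Fin.cases ?_ (fun i => ?_) i <;> refine Fin.cases ?_ (fun j => ?_) j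
      · simpa using h5
      · simpa [(Fin.succ_ne_zero j).symm] using e7 j
      · simpa using e6 i
      · simpa using e2 i j
    · exact Fin.cases k1 e3 i
    · exact Fin.cases h3 e4 i
    · have h6 := e5 (w - form w v • v) (b3a_mem.mpr ⟨W.sub_mem hw (W.smul_mem _ hv), by
        rw [form_sub_left, form_smul_left, h5, mul_one, sub_self]⟩)
      simp only [form_sub_left, form_smul_left, e7, mul_zero, sub_zero] at h6
      rw [Fin.sum_univ_succ]
      simp only [Fin.cons_zero, Fin.cons_succ]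
      rw [← h6, add_sub_cancel]

theorem ell_in_sub (W : Submodule ℂ (V n)) {g : GG n} (hg : IsIsom (g : Op n))
    (hW : ∀ v ∈ W, (g : Op n) v ∈ W) (hx : ∃ x ∈ W, x ∈ Neg n) {y : V n} (hy : y ∈ Neg n)
    {c : ℂ} (h : (g : Op n) y = c • y) : ∃ y' ∈ W, y' ∈ Neg n ∧ (g : Op n) y' = c • y' := by
  obtain ⟨a, ha, hb⟩ := exists_perp_neg W hx y
  obtain ⟨x, hxW, hxN⟩ := hx
  have h1 := hg.perp_maps W hW hb
  refine ⟨a, ha, ?_, ?_⟩
  · have h2 := NN_add (y - a) a
    rw [sub_add_cancel, hb a ha] at h2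
    have h3 := nonpos_of_perp (ne_zero_of_mem_Neg hxN) (le_of_lt hxN) (hb x hxW)
    have h4 : 0 < NN y := hy
    rw [mem_Neg]
    simp only [Complex.zero_re] at h2
    linarith
  · have h2 : (g : Op n) a - c • a = c • (y - a) - (g : Op n) (y - a) := by
      rw [map_sub, h, smul_sub]
      abel
    have h3 : ∀ u ∈ W, form ((g : Op n) a - c • a) u = 0 := by
      intro u hu
      rw [h2, form_sub_left, form_smul_left, hb u hu, h1 u hu, mul_zero, sub_zero]
    by_contra h4
    have h5 := pos_of_perp_neg hxN (h3 x hxW) (sub_ne_zero.mpr h4)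
    rw [NN, h3 _ (W.sub_mem (hW a ha) (W.smul_mem _ ha))] at h5
    simp at h5

end BallQ
end
end

-- merged part: Pool.Agent.Work.MP_72250f_ag.B3b
section
/-!
Eigenvectors of isometries.
pontryagin: induction on finrank W; g restricted to W has an eigenvector v (Module.End.exists_eigenvalue);
if NN v < 0 pass to W meet v-perp, which is invariant (perp_maps) and still contains a negative vector.
exists_eigenframe: same induction in a positive definite space. ell_in_sub: exists_perp_neg, both components are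
eigenvectors, the perp one is positive. lox_dual: the range of g - (conj a)^-1 is orthogonal to p, so this operator
is not onto, hence not injective; its kernel vector q is null and not proportional to p. fix_of_finite: q(v) = sum over H
of the squared norms of h v is an invariant positive form; maximise NN on the compact q-sphere, value m > 0; the form
m q - NN is nonnegative, its zero set is a subspace (parallelogram law) on which NN is positive definite, hence a line
(two independent vectors span a vector orthogonal to oo); this line is invariant.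
-/

open scoped ComplexConjugate ENNReal Topology
open MeasureTheory Filter

noncomputable section

namespace BallQ

variable {n : ℕ}

theorem b3b_NN {p : V n} (hp : form p p = 0) : NN p = 0 := by
  unfold NN
  rw [hp]
  simp

theorem b3b_form_ne {p q : V n} (hp0 : p ≠ 0) (hp : form p p = 0) (hq : form q q = 0)
    (hpq : ∀ d : ℂ, q ≠ d • p) : form q p ≠ 0 := by
  intro h
  obtain ⟨c, hc⟩ := eq_smul_of_perp hp0 (b3b_NN hp).ge h (b3b_NN hq).ge
  exact hpq c hc

theorem b3b_mul_conj {a : ℂ} : a * conj a = 1 ↔ ‖a‖ = 1 := by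
  rw [Complex.mul_conj, Complex.normSq_eq_norm_sq]
  constructor
  · intro h
    have h' : ‖a‖ ^ 2 = 1 := by exact_mod_cast h
    exact (pow_eq_one_iff_of_nonneg (norm_nonneg a) two_ne_zero).1 h'
  · intro h
    rw [h]
    simp

/-- Two non proportional null eigenvectors with the same eigenvalue give a negative eigenvector. -/
theorem ell_of_two_null {g : Op n} {p q : V n} (hp0 : p ≠ 0) (hp : form p p = 0)
    (hq : form q q = 0) (hpq : ∀ d : ℂ, q ≠ d • p) {a : ℂ} (hgp : g p = a • p)
    (hgq : g q = a • q) : Ell g := by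
  have ht := b3b_form_ne hp0 hp hq hpq
  refine ⟨q + (-form q p) • p, ?_, a, ?_⟩
  · rw [mem_Neg, NN_add, NN_smul, b3b_NN hp, b3b_NN hq, form_smul_right, map_neg, neg_mul,
      mul_comm (conj (form q p)), Complex.mul_conj, Complex.neg_re, Complex.ofReal_re]
    have := Complex.normSq_pos.2 ht
    linarith
  · rw [map_add, map_smul, hgp, hgq, smul_add, smul_comm]

theorem null_unique {g : Op n} (hg : IsIsom g) (hE : ¬ Ell g) {p q : V n} (hp0 : p ≠ 0)
    (hp : form p p = 0) (hq : form q q = 0) {a b : ℂ} (ha : ‖a‖ = 1) (hgp : g p = a • p)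
    (hgq : g q = b • q) : ∃ d : ℂ, q = d • p := by
  by_contra hne
  push Not at hne
  have ht := b3b_form_ne hp0 hp hq hne
  have h1 : b * conj a = 1 := by
    by_contra h
    exact ht (eig_orth hg hgq hgp h)
  have h2 : a * conj a = 1 := b3b_mul_conj.2 ha
  have h3 : b = a := by
    have h0 : conj a ≠ 0 := right_ne_zero_of_mul_eq_one h2
    exact mul_right_cancel₀ h0 (h1.trans h2.symm)
  rw [h3] at hgq
  exact hE (ell_of_two_null hp0 hp hq hne hgp hgq)

theorem lox_null {g : Op n} (hg : IsIsom g) {p : V n} {a : ℂ} (ha : ‖a‖ ≠ 1)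
    (hgp : g p = a • p) : form p p = 0 := by
  by_contra h
  refine ha (eig_norm_one hg (fun h0 => h ?_) hgp)
  rw [form_self, h0]
  simp

theorem lox_not_ell {g : Op n} (hg : IsIsom g) {p : V n} (hp0 : p ≠ 0) {a : ℂ} (ha : ‖a‖ ≠ 1)
    (hgp : g p = a • p) : ¬ Ell g := by
  rintro ⟨y, hy, c, hc⟩
  have h1 := eig_eq_of_neg hg hy hp0 (b3b_NN (lox_null hg ha hgp)).ge hc hgp
  have h2 := eig_norm_one hg (ne_of_gt (mem_Neg.1 hy)) hc
  exact ha (h1 ▸ h2)

theorem lox_dual {g : Op n} (hg : IsIsom g) {p : V n} (hp0 : p ≠ 0) {a : ℂ} (ha : ‖a‖ ≠ 1)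
    (hgp : g p = a • p) : ∃ q : V n, form q q = 0 ∧ form q p = -1 ∧ g q = (conj a)⁻¹ • q := by
  have ha0 : a ≠ 0 := by
    rintro rfl
    exact hp0 (hg.injective (by rw [hgp, zero_smul, map_zero]))
  have hc0 : conj a ≠ 0 := by simpa using ha0
  have hp := lox_null hg ha hgp
  obtain ⟨T, hT⟩ : ∃ T : V n →ₗ[ℂ] V n, ∀ v, T v = g v - (conj a)⁻¹ • v :=
    ⟨(g : V n →ₗ[ℂ] V n) - (conj a)⁻¹ • LinearMap.id, fun v => by
      rw [LinearMap.sub_apply, LinearMap.smul_apply, LinearMap.id_apply, ContinuousLinearMap.coe_coe]⟩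
  have h1 : ∀ v, form (T v) p = 0 := fun v => by
    have h := hg v p
    rw [hgp, form_smul_right] at h
    rw [hT, form_sub_left, form_smul_left, ← h, ← mul_assoc, inv_mul_cancel₀ hc0, one_mul, sub_self]
  have h2 : ¬ Function.Injective T := fun hi => by
    refine hp0 (eq_zero_of_form fun w => ?_)
    obtain ⟨v, rfl⟩ := LinearMap.injective_iff_surjective.1 hi w
    exact form_eq_zero_comm.1 (h1 v)
  rw [injective_iff_map_eq_zero] at h2
  push Not at h2
  obtain ⟨q, hq, hq0⟩ := h2
  rw [hT, sub_eq_zero] at hq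
  have hb : ‖(conj a)⁻¹‖ ≠ 1 := by
    rw [norm_inv, Complex.norm_conj]
    exact fun h => ha (inv_eq_one.1 h)
  have hqq := lox_null hg hb hq
  have hne : ∀ d : ℂ, q ≠ d • p := by
    rintro d rfl
    rw [map_smul, hgp, smul_comm] at hq
    have h3 : a = (conj a)⁻¹ := smul_left_injective ℂ hq0 hq
    refine ha (b3b_mul_conj.1 ?_)
    nth_rewrite 1 [h3]
    exact inv_mul_cancel₀ hc0
  have ht := b3b_form_ne hp0 hp hqq hne
  refine ⟨(-(form q p)⁻¹) • q, ?_, ?_, ?_⟩
  · rw [form_smul_left, form_smul_right, hqq, mul_zero, mul_zero]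
  · rw [form_smul_left, neg_mul, inv_mul_cancel₀ ht]
  · rw [map_smul, hq, smul_comm]

/-- An operator commuting with a non elliptic isometry fixes the line of a null eigenvector. -/
theorem fix_of_commute {g : Op n} (hg : IsIsom g) (hE : ¬ Ell g) {p : V n} (hp0 : p ≠ 0)
    (hp : form p p = 0) {a : ℂ} (hgp : g p = a • p) {T : Op n} (hT : IsIsom T)
    (h : Commute T g) : ∃ d : ℂ, T p = d • p := by
  by_contra hne
  push Not at hne
  refine hE (ell_of_two_null hp0 hp ((hT p p).trans hp) hne hgp ?_)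
  have h1 : T (g p) = g (T p) := congrArg (fun S : Op n => S p) h.eq
  rw [← h1, hgp, map_smul]

end BallQ
end
end

-- merged part: Pool.Agent.Work.MP_72250f_ag.B3
section
/-!
Eigenvectors of isometries.
pontryagin: induction on finrank W; g restricted to W has an eigenvector v (Module.End.exists_eigenvalue);
if NN v < 0 pass to W meet v-perp, which is invariant (perp_maps) and still contains a negative vector.
exists_eigenframe: same induction in a positive definite space. ell_in_sub: exists_perp_neg, both components are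
eigenvectors, the perp one is positive. lox_dual: the range of g - (conj a)^-1 is orthogonal to p, so this operator
is not onto, hence not injective; its kernel vector q is null and not proportional to p. fix_of_finite: q(v) = sum over H
of the squared norms of h v is an invariant positive form; maximise NN on the compact q-sphere, value m > 0; the form
m q - NN is nonnegative, its zero set is a subspace (parallelogram law) on which NN is positive definite, hence a line
(two independent vectors span a vector orthogonal to oo); this line is invariant.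
-/

open scoped ComplexConjugate ENNReal Topology
open MeasureTheory Filter

noncomputable section

namespace BallQ

variable {n : ℕ}

theorem common_fix (D : Finset (GG n)) (hD : ∀ d ∈ D, IsIsom (d : Op n))
    (hc : ∀ d ∈ D, ∀ d' ∈ D, Commute d d')
    (hf : ∀ d ∈ D, ∃ y ∈ Neg n, (d : Op n) y = y) :
    ∃ y ∈ Neg n, ∀ d ∈ D, (d : Op n) y = y := by
  classical
  induction D using Finset.induction_on with
  | empty => exact ⟨oo n, oo_mem_Neg, by simp⟩
  | insert a D _ ih =>
    simp only [Finset.forall_mem_insert] at hD hc hf ⊢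
    obtain ⟨y, hy, h⟩ := ih hD.2 (fun d hd => (hc.2 d hd).2) hf.2
    obtain ⟨z, hz, e⟩ := hf.1
    let W : Submodule ℂ (V n) :=
      ⨅ d ∈ D, LinearMap.eqLocus ((d : Op n) : V n →ₗ[ℂ] V n) LinearMap.id
    have hW : ∀ v, v ∈ W ↔ ∀ d ∈ D, (d : Op n) v = v := fun v => by simp [W]
    obtain ⟨y', h1, h2, h3⟩ := ell_in_sub W hD.1 (fun v hv => (hW _).2 fun d hd =>
      (congrArg (fun g : GG n => (g : Op n) v) (hc.1.2 d hd).eq).symm.trans
        (congrArg (a : Op n) ((hW _).1 hv d hd))) ⟨y, (hW _).2 h, hy⟩ hz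
      (e.trans (one_smul ℂ z).symm)
    exact ⟨y', h2, h3.trans (one_smul ℂ _), (hW _).1 h1⟩

theorem b3_max {q : V n → ℝ} (hq : Continuous q) (q1 : ∀ v, v ≠ 0 → 0 < q v)
    (q2 : ∀ (c : ℂ) v, q (c • v) = ‖c‖ ^ 2 * q v)
    (q3 : ∀ u v, q (u + v) + q (u - v) = 2 * (q u + q v)) :
    ∃ y ∈ Neg n, ∀ y', NN y' = NN y → q y' = q y → ∃ c : ℂ, y' = c • y := by
  have h1 : oo n ∈ Metric.sphere (0 : V n) 1 := by simp [oo]
  have h0 : ∀ v ∈ Metric.sphere (0 : V n) 1, v ≠ 0 := fun v hv => by
    rintro rfl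
    simp at hv
  obtain ⟨y, hy, hm⟩ := (isCompact_sphere (0 : V n) 1).exists_isMaxOn ⟨_, h1⟩
    (f := fun v => NN v / q v)
    (continuous_NN.continuousOn.div hq.continuousOn fun v hv => (q1 v (h0 v hv)).ne')
  have m1 : NN y = NN y / q y * q y := (div_mul_cancel₀ _ (q1 _ (h0 _ hy)).ne').symm
  rw [isMaxOn_iff] at hm
  generalize NN y / q y = m at hm m1
  have m0 : 0 < m := (div_pos oo_mem_Neg (q1 _ (h0 _ h1))).trans_le (hm _ h1)
  have m2 : ∀ v, NN v ≤ m * q v := fun v => by
    rcases eq_or_ne v 0 with rfl | hv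
    · rw [← zero_smul ℂ (0 : V n), NN_smul, q2]
      simp
    have h2 := hm (((‖v‖⁻¹ : ℝ) : ℂ) • v) (by simp [norm_smul, hv])
    rwa [NN_smul, q2, mul_div_mul_left _ _ (by simpa using hv), div_le_iff₀ (q1 v hv)] at h2
  have hN : y ∈ Neg n := mem_Neg.2 (m1 ▸ mul_pos m0 (q1 _ (h0 _ hy)))
  refine ⟨y, hN, fun y' e1 e2 => ⟨co y' none / co y none, ?_⟩⟩
  set z := (co y' none / co y none) • y with hz
  by_contra hne
  have h2 := mul_pos m0 (q1 _ (sub_ne_zero.2 hne))
  have h3 : NN (y' - z) ≤ 0 := by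
    rw [NN_eq, co_sub, hz, co_smul, div_mul_cancel₀ _ (co_none_ne_zero hN)]
    simpa using Finset.sum_nonneg fun _ _ => sq_nonneg _
  have h4 : NN z = m * q z := by rw [hz, NN_smul, q2, m1, mul_left_comm]
  have h5 := NN_add y' z
  have h6 := NN_add y' (-z)
  rw [← sub_eq_add_neg, form_neg_right, Complex.neg_re, ← neg_one_smul ℂ z, NN_smul, norm_neg,
    norm_one, one_pow, one_mul] at h6
  have h7 := congrArg (m * ·) (q3 y' z)
  simp only [e2, mul_add] at h7
  linarith [m2 (y' + z)]

theorem fix_of_finite (H : Subgroup (GG n)) [Finite H] (hH : ∀ h ∈ H, IsIsom (h : Op n)) :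
    ∃ y ∈ Neg n, ∀ h ∈ H, ∃ c : ℂ, (h : Op n) y = c • y := by
  have := Fintype.ofFinite H
  obtain ⟨y, hy, h⟩ := b3_max (q := fun v => ∑ h : H, ‖((h : GG n) : Op n) v‖ ^ 2)
    (continuous_finsetSum _ fun h _ => ((h : GG n) : Op n).continuous.norm.pow 2)
    (fun v hv => Finset.sum_pos' (fun _ _ => sq_nonneg _)
      ⟨1, Finset.mem_univ _, pow_pos (norm_pos_iff.2 hv) 2⟩)
    (fun c v => by simp only [map_smul, norm_smul, mul_pow, Finset.mul_sum]) fun u v => by
      simp only [map_add, map_sub, ← Finset.sum_add_distrib, Finset.mul_sum, sq,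
        parallelogram_law_with_norm_mul ℂ]
  refine ⟨y, hy, fun g hg => h _ ((hH g hg).NN_apply y) ?_⟩
  exact Fintype.sum_equiv (Equiv.mulRight ⟨g, hg⟩) _ _ fun _ => by simp

/-- An operator for which all vectors of a nonempty open set are eigenvectors is scalar. -/
theorem isScalar_of_open {T : Op n} {O : Set (V n)} (hO : IsOpen O) (hne : O.Nonempty)
    (h : ∀ v ∈ O, ∃ c : ℂ, T v = c • v) : IsScalar T := by
  by_contra hT
  let f : Module.End ℂ (V n) := (T : V n →ₗ[ℂ] V n)
  obtain ⟨v, hv, h1⟩ := (dense_biInter_of_isOpen (f := fun c => (f.eigenspace c : Set (V n))ᶜ)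
    (fun c _ => (f.eigenspace c).closed_of_finiteDimensional.isOpen_compl)
    (f.finite_hasEigenvalue.insert 0).countable fun c _ =>
      interior_eq_empty_iff_dense_compl.1 (Set.not_nonempty_iff_eq_empty.1 fun h2 =>
        hT ⟨c, ContinuousLinearMap.ext fun v => Module.End.mem_eigenspace_iff.1
          ((Submodule.eq_top_of_nonempty_interior' _ h2).ge (Submodule.mem_top (x := v)))⟩)
    ).inter_open_nonempty O hO hne
  obtain ⟨c, hc⟩ := h v hv
  have h2 := Set.mem_iInter₂.1 h1
  have h3 : v ∈ f.eigenspace c := Module.End.mem_eigenspace_iff.2 hc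
  refine h2 c (.inr (Module.End.hasEigenvalue_of_hasEigenvector ⟨h3, ?_⟩)) h3
  rintro rfl
  exact h2 0 (.inl rfl) (zero_mem _)

end BallQ
end
end

-- merged part: Pool.Agent.Work.MP_72250f_ag.B4a
section
/-!
Hilbert-Schmidt estimates. hs_sub_one: for an isometry g, the squared norm of g (bas i) is
+-1 + 2 |co (g (bas i)) none|^2, and the sum over i of |co (g (bas i)) none|^2 is the squared norm of g^-1 oo,
that is 2 |co (g oo) none|^2 - 1 (form_left); cross term -2 Re tr g. uu at oo is hs (c g - 1) for the unit c with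
c tr g = |tr g|. All statements at x follow by conjugating with exists_isom (uu_cnj, uu_smul_right).
hs is the squared norm of the vector (T (bas i))_i; hs T = hs (adjoint T) gives hs_mul_right.
norm_isom_le: |g v|^2 = -NN v + 2 |<v, g^-1 oo>|^2, split v = a oo + v'. uu_comm: replace g, d by the best unit
multiples; [g,d] - 1 = ((g-1)(d-1) - (d-1)(g-1)) g^-1 d^-1, operator norms at most 1.1, hs (g^-1 - 1) = hs (g - 1).
comm_scalar_on: an eigenvalue l of g on W gives eigenvalues c^j l (eigenvectors d^j v), all within 1/10 of a fixed unit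
(uu_near), so a = sup |c^j - 1| <= 1/4 satisfies a >= a (2 - a).
-/

open scoped ComplexConjugate ENNReal Topology
open MeasureTheory Filter

noncomputable section

namespace BallQ

variable {n : ℕ}

theorem b4a_norm_sq (v : V n) : ‖v‖ ^ 2 = ∑ i, ‖co v i‖ ^ 2 := by
  rw [norm_sq_eq, Fintype.sum_option, add_comm]

theorem b4a_expand (v : V n) : v = ∑ i, co v i • bas n i := by
  conv_lhs => rw [← (bas n).sum_repr v]
  rfl

theorem b4a_hs_eq (T : Op n) :
    √(hs T) = ‖(WithLp.toLp 2 (fun i => T (bas n i)) : PiLp 2 (fun _ : Option (Fin n) => V n))‖ := by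
  rw [PiLp.norm_eq_of_L2]
  rfl

theorem b4a_hs_adj (T : Op n) : hs (ContinuousLinearMap.adjoint T) = hs T := by
  simp only [hs, b4a_norm_sq, co_eq_inner]
  rw [Finset.sum_comm]
  refine Finset.sum_congr rfl fun i _ => Finset.sum_congr rfl fun j _ => ?_
  rw [ContinuousLinearMap.adjoint_inner_right, norm_inner_symm]

theorem b4a_norm_form_bas (i : Option (Fin n)) (w : V n) : ‖form (bas n i) w‖ = ‖co w i‖ := by
  cases i with
  | none => simp [form, co_bas]
  | some j => simp [form, co_bas]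

theorem b4a_CC_oo {g : Op n} (hg : IsIsom g) :
    CC (oo n) (g (oo n)) = ‖co (g (oo n)) none‖ ^ 2 := by
  rw [CC, hg.NN_apply, NN_oo, norm_form_comm, form_oo, norm_neg]
  simp

theorem b4a_CC_inv {g : GG n} (hg : IsIsom (g : Op n)) (x : V n) :
    CC x (((g⁻¹ : GG n) : Op n) x) = CC x ((g : Op n) x) := by
  rw [← hg.CC_apply, apply_inv_apply, CC_comm]

theorem b4a_norm_bas (i : Option (Fin n)) : ‖bas n i‖ = 1 := (bas n).orthonormal.1 i

theorem hs_nonneg (T : Op n) : 0 ≤ hs T :=
  Finset.sum_nonneg fun _ _ => sq_nonneg _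

theorem norm_sq_le_hs (T : Op n) : ‖T‖ ^ 2 ≤ hs T := by
  have h : ‖T‖ ≤ √(hs T) := by
    refine T.opNorm_le_bound (Real.sqrt_nonneg _) fun v => ?_
    have h1 : T v = ∑ i, co v i • T (bas n i) := by
      conv_lhs => rw [b4a_expand v]
      simp only [map_sum, map_smul]
    have h2 : ‖T v‖ ≤ ∑ i, ‖T (bas n i)‖ * ‖co v i‖ := by
      rw [h1]
      refine (norm_sum_le _ _).trans (le_of_eq ?_)
      exact Finset.sum_congr rfl fun i _ => by rw [norm_smul, mul_comm]
    refine h2.trans ((Real.sum_mul_le_sqrt_mul_sqrt _ _ _).trans (le_of_eq ?_))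
    rw [← b4a_norm_sq, Real.sqrt_sq (norm_nonneg _)]
    rfl
  calc ‖T‖ ^ 2 ≤ √(hs T) ^ 2 := by gcongr
    _ = hs T := Real.sq_sqrt (hs_nonneg T)

theorem sqrt_hs_add (S T : Op n) : √(hs (S + T)) ≤ √(hs S) + √(hs T) := by
  rw [b4a_hs_eq, b4a_hs_eq, b4a_hs_eq]
  exact norm_add_le (WithLp.toLp 2 (fun i => S (bas n i)) : PiLp 2 (fun _ : Option (Fin n) => V n))
    (WithLp.toLp 2 (fun i => T (bas n i)))

theorem hs_smul (c : ℂ) (T : Op n) : hs (c • T) = ‖c‖ ^ 2 * hs T := by
  simp only [hs, Finset.mul_sum]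
  refine Finset.sum_congr rfl fun i _ => ?_
  rw [smul_apply, norm_smul, mul_pow]

theorem hs_mul_left (A T : Op n) : hs (A * T) ≤ ‖A‖ ^ 2 * hs T := by
  simp only [hs, Finset.mul_sum]
  refine Finset.sum_le_sum fun i _ => ?_
  rw [← mul_pow, mul_apply_eq_comp]
  gcongr
  exact A.le_opNorm _

theorem hs_mul_right (T A : Op n) : hs (T * A) ≤ hs T * ‖A‖ ^ 2 := by
  have h1 : ContinuousLinearMap.adjoint (T * A) =
      ContinuousLinearMap.adjoint A * ContinuousLinearMap.adjoint T :=
    ContinuousLinearMap.adjoint_comp T A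
  rw [← b4a_hs_adj, h1, mul_comm (hs T)]
  refine (hs_mul_left _ _).trans (le_of_eq ?_)
  rw [b4a_hs_adj, LinearIsometryEquiv.norm_map]

theorem hs_sub_one {g : Op n} (hg : IsIsom g) :
    hs (g - 1) = 2 * ((n : ℝ) + 1) - 2 * (tr g).re + 4 * (CC (oo n) (g (oo n)) - 1) := by
  obtain ⟨u, rfl⟩ := hg.isUnit
  have h1 : ∀ i, ‖((u : Op n) - 1) (bas n i)‖ ^ 2 =
      2 * ‖co (((u⁻¹ : GG n) : Op n) (oo n)) i‖ ^ 2 - NN (bas n i) -
        2 * (co ((u : Op n) (bas n i)) i).re + 1 := by
    intro i
    have e1 : ((u : Op n) - 1) (bas n i) = (u : Op n) (bas n i) - bas n i := rfl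
    have e2 : ‖co ((u : Op n) (bas n i)) none‖ = ‖co (((u⁻¹ : GG n) : Op n) (oo n)) i‖ := by
      rw [← norm_neg, ← form_oo, hg.form_left, b4a_norm_form_bas]
    rw [e1, norm_sub_rev, @norm_sub_sq ℂ, b4a_norm_bas, ← co_eq_inner, norm_sq_eq_NN,
      hg.NN_apply, e2]
    simp only [RCLike.re_to_complex]
    ring
  have h2 : ∑ i : Option (Fin n), NN (bas n i) = 1 - n := by
    rw [Fintype.sum_option]
    have : ∀ j : Fin n, NN (bas n (some j)) = -1 := by
      intro j
      simp [NN, form, co_bas]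
    have h0 : NN (bas n none) = 1 := NN_oo
    simp [this, h0, sub_eq_add_neg]
  have h3 : ∑ i, ‖co (((u⁻¹ : GG n) : Op n) (oo n)) i‖ ^ 2 =
      2 * CC (oo n) ((u : Op n) (oo n)) - 1 := by
    rw [← b4a_norm_sq, norm_sq_eq_NN, ← b4a_CC_oo hg.inv, hg.inv.NN_apply, NN_oo, b4a_CC_inv hg]
  simp only [hs, h1, Finset.sum_add_distrib, Finset.sum_sub_distrib, ← Finset.mul_sum, h2, h3,
    tr_eq_sum, Complex.re_sum, Finset.sum_const, Finset.card_univ, Fintype.card_option,
    Fintype.card_fin, nsmul_eq_mul]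
  push_cast
  ring

theorem uu_le_hs {g : Op n} (hg : IsIsom g) : uu g (oo n) ≤ hs (g - 1) := by
  rw [hs_sub_one hg, uu, kappa]
  have := Complex.re_le_norm (tr g)
  linarith

theorem exists_hs_eq_uu {g : Op n} (hg : IsIsom g) :
    ∃ c : ℂ, ‖c‖ = 1 ∧ hs (c • g - 1) = uu g (oo n) := by
  obtain ⟨c, hc, h⟩ := Complex.exists_norm_eq_mul_self (tr g)
  refine ⟨c, hc, ?_⟩
  have hc0 : c ≠ 0 := by
    rintro rfl
    simp at hc
  rw [hs_sub_one (hg.smul hc), uu, kappa, tr_smul, ← h, smul_apply, CC_smul_right hc0]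
  simp

theorem norm_isom_le {g : Op n} (hg : IsIsom g) :
    ‖g‖ ≤ √(CC (oo n) (g (oo n))) + √(CC (oo n) (g (oo n)) - 1) := by
  obtain ⟨u, rfl⟩ := hg.isUnit
  set w := ((u⁻¹ : GG n) : Op n) (oo n) with hw
  set C := CC (oo n) ((u : Op n) (oo n)) with hC
  have hC1 : ‖co w none‖ ^ 2 = C := by rw [hw, ← b4a_CC_oo hg.inv, b4a_CC_inv hg]
  have hC2 : ∑ i : Fin n, ‖co w (some i)‖ ^ 2 = C - 1 := by
    have := NN_eq w
    rw [hw, hg.inv.NN_apply, NN_oo, ← hw, hC1] at this
    linarith
  have hc : √C = ‖co w none‖ := by rw [← hC1, Real.sqrt_sq (norm_nonneg _)]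
  have hs0 : 0 ≤ C - 1 := by
    rw [← hC2]
    exact Finset.sum_nonneg fun _ _ => sq_nonneg _
  refine (u : Op n).opNorm_le_bound (add_nonneg (Real.sqrt_nonneg _) (Real.sqrt_nonneg _))
    fun v => ?_
  set b := √(∑ i : Fin n, ‖co v (some i)‖ ^ 2) with hb
  have hb2 : b ^ 2 = ∑ i : Fin n, ‖co v (some i)‖ ^ 2 :=
    Real.sq_sqrt (Finset.sum_nonneg fun _ _ => sq_nonneg _)
  have hb0 : 0 ≤ b := Real.sqrt_nonneg _
  set s := √(C - 1) with hs
  have hs2 : s ^ 2 = C - 1 := Real.sq_sqrt hs0
  have hs0' : 0 ≤ s := Real.sqrt_nonneg _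
  have h1 : ‖form v w‖ ≤ b * s + ‖co v none‖ * ‖co w none‖ := by
    unfold form
    refine (norm_sub_le _ _).trans (add_le_add ?_ (by simp))
    refine (norm_sum_le _ _).trans ?_
    simp only [norm_mul, Complex.norm_conj]
    refine (Real.sum_mul_le_sqrt_mul_sqrt _ _ _).trans (le_of_eq ?_)
    rw [hC2]
  have h2 : ‖(u : Op n) v‖ ^ 2 = 2 * ‖form v w‖ ^ 2 - (‖co v none‖ ^ 2 - b ^ 2) := by
    rw [norm_sq_eq_NN, hg.NN_apply, NN_eq, hb2, ← norm_neg (co _ none), ← form_oo, hg.form_left]
  have h3 : ‖v‖ ^ 2 = b ^ 2 + ‖co v none‖ ^ 2 := by rw [norm_sq_eq, hb2]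
  rw [hc]
  set a := ‖co v none‖ with ha
  set c := ‖co w none‖ with hc'
  have ha0 : 0 ≤ a := norm_nonneg _
  have hc0 : 0 ≤ c := norm_nonneg _
  refine (sq_le_sq₀ (norm_nonneg _) (by positivity)).mp ?_
  have h4 : ‖form v w‖ ^ 2 ≤ (b * s + a * c) ^ 2 := by gcongr
  have h5 : c ^ 2 = s ^ 2 + 1 := by linarith
  have h6 : 0 ≤ c * s * (a - b) ^ 2 := by positivity
  rw [mul_pow, h3, h2]
  have h7 : (c + s) ^ 2 * (b ^ 2 + a ^ 2) =
      2 * (b * s + a * c) ^ 2 - (a ^ 2 - b ^ 2) + 2 * (c * s * (a - b) ^ 2) := by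
    linear_combination (b ^ 2 - a ^ 2) * h5
  linarith

theorem CC_oo_le_norm {g : Op n} (hg : IsIsom g) : CC (oo n) (g (oo n)) ≤ ‖g‖ ^ 2 := by
  rw [b4a_CC_oo hg]
  have h1 : ‖co (g (oo n)) none‖ ^ 2 ≤ ‖g (oo n)‖ ^ 2 := by
    rw [norm_sq_eq]
    have : 0 ≤ ∑ i : Fin n, ‖co (g (oo n)) (some i)‖ ^ 2 := by positivity
    linarith
  refine h1.trans ?_
  gcongr
  have := g.le_opNorm (oo n)
  rwa [oo, b4a_norm_bas, mul_one] at this

end BallQ
end
end
end
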