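import Pool.Agent.Work.MP_72250f_ag.C5a

-- merged part: Pool.Agent.Work.MP_72250f_ag.C5b
section
/-!
Reflections of order two: algebra and counting. Notation s = refl e, s' = refl e', f = perp e e', ph = <f,f> = 1 - |<e',e>|^2.
tr (s' s) = n + 1 - 4 ph; (s' s - 1) e = -2 ph e + 2 <e,e'> f; range (s' s - 1) = span(e, e').
near_small: kappa <= 8 |ph| and <s' s x, x> = <s x, s' x> is within 73 tR NN x of -NN x. near_unique: thmZ for a = s' s and a' = s'' s. If they
commute, a' preserves range (a - 1), so f'' is in span(e, f) and orthogonal to e. Otherwise neither is elliptic, so span(e,f) is not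
positive definite (else a fixes a negative vector), the commutator vert p tau is small with uu <= 6 (eps/64)^2, its conjugate by s is small and fixes the line of p
(small_fix_null), so s p, then s' p, s'' p are multiples of p, p is orthogonal to e, e', e'' and f, f'' are multiples of p (eq_smul_of_perp).
countR: (M, rho) from short_power 1 e with e small. For two different members e, e' at x take the words (s s')^(2i): b^(2m) with
b = s s', 1 <= m <= M, is close to 1. If b^(2m) is not 1 then b^(2m) s = cnj (b^m) s = refl e'' with e'' = b^m e is Near (estimate ph and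
<x,f''> from (a - 1) e with qq, norm_form_sq_le_qq) and x is thin. Otherwise trace_root (2 M factorial, rank 2) puts |<e,e'>|^2 = tr (P P') in a finite set, and it
is not 1 (then f is null, b f = f, b e = c e - 2 f up to units gives b^(2m) e different from e unless f = 0). card_le_of_angles for P = rk1 e e.
-/

open scoped ComplexConjugate ENNReal Topology
open MeasureTheory Filter

noncomputable section

namespace BallQ

variable {n : ℕ}

theorem c5b_perp_eq (e e' : V n) : perp e e' = e' - rk1 e e e' := rfl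

theorem c5b_form_perp {e : V n} (he : form e e = 1) (e' : V n) : form (perp e e') e = 0 := by
  rw [perp, form_sub_left, form_smul_left, he]
  ring

theorem c5b_perp_comb {e : V n} (he : form e e = 1) (e' : V n) (a b : ℂ) :
    perp e (a • e + b • e') = b • perp e e' := by
  rw [perp, perp, form_add_left, form_smul_left, form_smul_left, he]
  module

theorem c5b_form_perp_perp {e e' : V n} (he : form e e = 1) (he' : form e' e' = 1) :
    form (perp e e') (perp e e') = 1 - form e' e * form e e' := by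
  have h1 : conj (form e' e) = form e e' := form_conj _ _
  rw [perp, form_sub_left, form_sub_right, form_sub_right, form_smul_left, form_smul_right,
    form_smul_left, form_smul_right, he, he', h1]
  ring

theorem c5b_form_ne_zero {Γ : Subgroup (GG n)} {e e' : V n} (he : Refl Γ e) (h : Near Γ e e') :
    form e e' ≠ 0 := by
  intro h0
  have h1 := h.2.2
  rw [c5b_form_perp_perp he.1 h.1.1, h0] at h1
  norm_num [tR] at h1

theorem c5b_refl_null {e p : V n} (hp : form p p = 0) {c : ℂ} (h : refl e p = c • p) :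
    form p e = 0 := by
  have h1 := congrArg (fun v => form v p) h
  simp only [refl_apply, form_sub_left, form_smul_left, hp] at h1
  have h2 : form p e * form e p = 0 := by linear_combination (-1 / 2 : ℂ) * h1
  rcases mul_eq_zero.mp h2 with h3 | h3
  · exact h3
  · exact form_eq_zero_comm.mp h3

theorem c5b_refl_fix {e v : V n} (h : form v e = 0) : refl e v = v := by
  rw [refl_apply, h]
  simp

theorem c5b_proj {u : V n} (hu : NN u < 0) (x : V n) :
    ∃ c : ℂ, form (x - c • u) u = 0 ∧ NN x ≤ NN (x - c • u) := by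
  have hu0 : form u u ≠ 0 := by
    rw [form_self]
    exact neg_ne_zero.mpr (by exact_mod_cast hu.ne)
  have h0 : form (x - (form x u / form u u) • u) u = 0 := by
    rw [form_sub_left, form_smul_left]
    field_simp
    ring
  refine ⟨form x u / form u u, h0, ?_⟩
  have h1 := NN_add (x - (form x u / form u u) • u) ((form x u / form u u) • u)
  rw [sub_add_cancel, form_smul_right, h0, NN_smul] at h1
  have h2 : ‖form x u / form u u‖ ^ 2 * NN u ≤ 0 :=
    mul_nonpos_of_nonneg_of_nonpos (by positivity) hu.le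
  simp only [mul_zero, Complex.zero_re, sub_zero] at h1
  linarith only [h2, h1]

theorem c5b_ell {e e' x : V n} (he : form e e = 1) (hx : x ∈ Neg n)
    (hf : NN (perp e e') < 0) : Ell (refl e' * refl e) := by
  have hNe : NN e < 0 := by
    rw [NN, he]
    norm_num
  obtain ⟨c, hc0, hc1⟩ := c5b_proj hNe x
  obtain ⟨d, hd0, hd1⟩ := c5b_proj hf (x - c • e)
  have hx' : 0 < NN x := hx
  set y := x - c • e - d • perp e e' with hy
  have h1 : form y e = 0 := by
    rw [hy, form_sub_left, hc0, form_smul_left, c5b_form_perp he]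
    ring
  have h2 : form y e' = 0 := by
    have h3 : e' = perp e e' + form e' e • e := by
      rw [perp, sub_add_cancel]
    rw [h3, form_add_right, form_smul_right, h1, hd0]
    ring
  refine ⟨y, ?_, 1, ?_⟩
  · show 0 < NN y
    linarith only [hc1, hx', hd1]
  · rw [mul_apply_eq_comp, c5b_refl_fix h1, c5b_refl_fix h2, one_smul]

theorem c5b_range (e e' v : V n) : ∃ a b : ℂ, refl e' (refl e v) - v = a • e + b • e' := by
  refine ⟨-(2 * form v e), -(2 * form (refl e v) e'), ?_⟩
  rw [refl_apply e', refl_apply e]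
  module

theorem c5b_exists_pre {e e' : V n} (he : form e e = 1) (hf : perp e e' ≠ 0) :
    ∃ v : V n, refl e' (refl e v) - v = (-2 : ℂ) • e := by
  have h1 : ∃ u, form u (perp e e') ≠ 0 := by
    by_contra hcon
    push Not at hcon
    exact hf (eq_zero_of_form fun w => form_eq_zero_comm.mp (hcon w))
  obtain ⟨u, hu⟩ := h1
  have h2 : form (perp e u) e = 0 := c5b_form_perp he u
  have h3 : form (perp e u) e' = form u (perp e e') := by
    have h4 : conj (form e' e) = form e e' := form_conj _ _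
    rw [perp, perp, form_sub_left, form_sub_right, form_smul_left, form_smul_right, h4]
    ring
  set t : ℂ := form e e' / form u (perp e e') with ht
  have h5 : form (e + t • perp e u) e = 1 := by
    rw [form_add_left, form_smul_left, h2, he]
    ring
  have h6 : form (e + t • perp e u) e' = 2 * form e e' := by
    rw [form_add_left, form_smul_left, h3, ht]
    field_simp
    ring
  refine ⟨e + t • perp e u, ?_⟩
  have h7 : form (refl e (e + t • perp e u)) e' = 0 := by
    rw [refl_apply, form_sub_left, form_smul_left, h5, h6]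
    ring
  rw [c5b_refl_fix h7, refl_apply, h5]
  module

theorem c5b_comm_case {e e' e'' : V n} (he : form e e = 1) (hf : perp e e' ≠ 0)
    (h0 : form e e'' ≠ 0)
    (hc : (refl e' * refl e) * (refl e'' * refl e) = (refl e'' * refl e) * (refl e' * refl e)) :
    ∃ c : ℂ, perp e e'' = c • perp e e' := by
  obtain ⟨v, hv⟩ := c5b_exists_pre he hf
  obtain ⟨a, b, hab⟩ := c5b_range e e' (refl e'' (refl e v))
  have h1 : refl e' (refl e (refl e'' (refl e v))) = refl e'' (refl e (refl e' (refl e v))) := by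
    have := congrArg (fun T : Op n => T v) hc
    simpa only [mul_apply_eq_comp] using this
  have h2 : refl e e = -e := by
    rw [refl_apply, he]
    module
  rw [h1, ← map_sub, ← map_sub, hv, map_smul, map_smul, h2, map_neg, refl_apply] at hab
  have h3 : e'' = ((2 - a) / (4 * form e e'')) • e + (-b / (4 * form e e'')) • e' := by
    clear * - n e e'' a b e' hab h0
    have h4 : (4 * form e e'') • e'' = (2 - a) • e + (-b) • e' := by
      linear_combination (norm := module) (-1 : ℂ) • hab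
    have h5 : (4 * form e e'') ≠ 0 := mul_ne_zero (by norm_num) h0
    calc e'' = (4 * form e e'')⁻¹ • ((4 * form e e'') • e'') := by
          rw [smul_smul, inv_mul_cancel₀ h5, one_smul]
      _ = _ := by
          rw [h4, smul_add, smul_smul, smul_smul, div_eq_inv_mul, div_eq_inv_mul]
  refine ⟨-b / (4 * form e e''), ?_⟩
  conv_lhs => rw [h3]
  exact c5b_perp_comb he _ _ _

theorem c5b_CC_le {e x : V n} (he : form e e = 1)
    (hx : x ∈ Tube ((1 / 2 : ℂ) • rk1 e e) (2 * tR)) : CC x (refl e x) ≤ 2 := by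
  have hg : IsGen ((1 / 2 : ℂ) • rk1 e e) := (isGenLt_half_rk1 he).isGen
  have h1 := hg.CC_flow_le hx.1
  rw [flow_half_rk1 he] at h1
  have h2 := hg.mu_nonneg hx.1
  have h3 := hx.2
  have h4 := Real.pi_lt_four
  have h5 := Real.pi_pos
  simp only [tR] at h3
  have h6 : 2 * Real.pi * mu ((1 / 2 : ℂ) • rk1 e e) x ≤ 1 / 10 := by clear * - n e x h3 h2 h4; linarith only [h3, h2, h4, mul_nonneg_of_nonpos_of_nonpos (Mathlib.Tactic.Linarith.sub_nonpos_of_le h2) (le_of_lt (Mathlib.Tactic.Linarith.sub_neg_of_lt h4))]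
  have h7 : 0 ≤ 2 * Real.pi * mu ((1 / 2 : ℂ) • rk1 e e) x := by positivity
  clear * - n x e h1 h3 h2 h4 h6 h7
  linarith only [h1, h3, h2, h4, h6, h7, mul_nonneg_of_nonpos_of_nonpos (Mathlib.Tactic.Linarith.sub_nonpos_of_le h2) (le_of_lt (Mathlib.Tactic.Linarith.sub_neg_of_lt h4)), mul_nonneg_of_nonpos_of_nonpos (Mathlib.Tactic.Linarith.sub_nonpos_of_le h6) (Mathlib.Tactic.Linarith.sub_nonpos_of_le h7)]

theorem c5b_not_ell_vert {p : V n} (hp0 : p ≠ 0) (hp : form p p = 0) {τ : ℝ} (hτ : τ ≠ 0) :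
    ¬ Ell (vert p τ) := by
  rintro ⟨y, hy, c, hc⟩
  have hy' : 0 < NN y := hy
  obtain ⟨d, hd⟩ := vert_eig hp0 hp hτ hy'.le hc
  rw [hd, NN_smul, NN, hp] at hy'
  simp at hy'

theorem near_unique (hn : 3 ≤ n) {Γ : Subgroup (GG n)} (hΓ : Proper Γ) {e e' e'' : V n}
    (he : Refl Γ e) (h' : Near Γ e e') (h'' : Near Γ e e'') {x : V n}
    (hx : x ∈ Tube ((1 / 2 : ℂ) • rk1 e e) (2 * tR))
    (hf' : ‖form x (perp e e')‖ ^ 2 < 4 * tR * NN x)
    (hf'' : ‖form x (perp e e'')‖ ^ 2 < 4 * tR * NN x) :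
    ∃ c : ℂ, perp e e'' = c • perp e e' := by
  obtain ⟨s, hs, hse⟩ := he.2.exists_unit
  obtain ⟨s', hs', hse'⟩ := h'.1.2.exists_unit
  obtain ⟨s'', hs'', hse''⟩ := h''.1.2.exists_unit
  have ha : s' * s ∈ plus Γ := (plus Γ).mul_mem hs' hs
  have ha' : s'' * s ∈ plus Γ := (plus Γ).mul_mem hs'' hs
  have hea : ((s' * s : GG n) : Op n) = refl e' * refl e := by rw [Units.val_mul, hse, hse']
  have hea' : ((s'' * s : GG n) : Op n) = refl e'' * refl e := by
    rw [Units.val_mul, hse, hse'']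
  have hu : uu ((s' * s : GG n) : Op n) x ≤ eps / 64 := by
    rw [hea]
    exact near_small hn he h' hx hf'
  have hu' : uu ((s'' * s : GG n) : Op n) x ≤ eps / 64 := by
    rw [hea']
    exact near_small hn he h'' hx hf''
  have heps : eps / 64 ≤ eps := by norm_num [eps]
  have hf0 := perp_ne_zero he h'
  rcases thmZ hΓ hx.1 ha ha' (hu.trans heps) (hu'.trans heps) with hc |
    ⟨hE, hE', p, hp0, hp, ⟨α, -, hα⟩, ⟨β, -, hβ⟩, τ, hτ, hv⟩
  · refine c5b_comm_case he.1 hf0 (c5b_form_ne_zero he h'') ?_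
    rw [← hea, ← hea', ← Units.val_mul, ← Units.val_mul, hc.eq]
  · have hia : IsIsom ((s' * s : GG n) : Op n) := InP.isIsom hΓ ha
    have hia' : IsIsom ((s'' * s : GG n) : Op n) := InP.isIsom hΓ ha'
    have his : IsIsom (s : Op n) := InP.isIsom hΓ hs
    set d : GG n := s' * s * (s'' * s) * (s' * s)⁻¹ * (s'' * s)⁻¹ with hd
    have hdm : d ∈ plus Γ := le_plus Γ (comm_mem ha ha')
    have hid : IsIsom (d : Op n) := InP.isIsom hΓ hdm
    have hud : uu (d : Op n) x ≤ 6 * (eps / 64) * (eps / 64) := by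
      clear * - n s' s s'' x hia hia' e hx hu heps hu'
      have h1 := uu_comm hia hia' hx.1 (hu.trans heps) (hu'.trans heps)
      have h2 := uu_nonneg hia hx.1
      have h3 := uu_nonneg hia' hx.1
      refine h1.trans ?_
      have h4 : (0 : ℝ) ≤ eps / 64 := by norm_num [eps]
      gcongr
    have hgm : s * d * s⁻¹ ∈ plus Γ :=
      (plus Γ).mul_mem ((plus Γ).mul_mem hs hdm) ((plus Γ).inv_mem hs)
    have hgc : ((s * d * s⁻¹ : GG n) : Op n) = cnj s (d : Op n) := by
      simp only [cnj, Units.val_mul]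
    have hug : uu ((s * d * s⁻¹ : GG n) : Op n) x ≤ eps := by
      clear * - n s d x hgc his hid e hx hse Γ he hud
      rw [hgc]
      have h1 := uu_cnj_le his hid hx.1
      have h2 : CC x ((s : Op n) x) ≤ 2 := by
        rw [hse]
        exact c5b_CC_le he.1 hx
      have h3 : 1 ≤ CC x ((s : Op n) x) := one_le_CC hx.1 (his.mem_Neg.mpr hx.1)
      have h4 := uu_nonneg hid hx.1
      have h5 : CC x ((s : Op n) x) ^ 2 ≤ 4 := by linarith only [h2, h3, mul_nonneg_of_nonpos_of_nonpos (Mathlib.Tactic.Linarith.sub_nonpos_of_le h2) (Mathlib.Tactic.Linarith.sub_nonpos_of_le h3)]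
      have h6 : 16 * CC x ((s : Op n) x) ^ 2 * uu (d : Op n) x ≤
          16 * 4 * (6 * (eps / 64) * (eps / 64)) := by gcongr
      refine h1.trans (h6.trans ?_)
      norm_num [eps]
    have hud' : uu (d : Op n) x ≤ eps := hud.trans (by norm_num [eps])
    have hdE : ¬ Ell (d : Op n) := by
      rw [hv]
      exact c5b_not_ell_vert hp0 hp hτ
    have hdp : (d : Op n) p = (1 : ℂ) • p := by
      rw [hv, vert_apply, hp]
      simp
    obtain ⟨γ, hγ⟩ := small_fix_null hΓ hx.1 hgm hdm hug hud' hdE hp0 hp hdp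
    rw [hgc, hv, cnj_vert his] at hγ
    have hNp : 0 ≤ NN p := by
      rw [NN, hp]
      simp
    have hsp0 : (s : Op n) p ≠ 0 := fun h0 => hp0 (his.injective (by rw [h0, map_zero]))
    obtain ⟨δ, hδ⟩ := vert_eig hsp0 (by rw [his, hp]) hτ hNp hγ
    have hδ0 : δ ≠ 0 := by
      rintro rfl
      exact hp0 (by simpa using hδ)
    have hsp : refl e p = δ⁻¹ • p := by
      rw [← hse]
      conv_rhs => rw [hδ]
      rw [smul_smul, inv_mul_cancel₀ hδ0, one_smul]
    have hpe : form p e = 0 := c5b_refl_null hp hsp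
    rw [hea, mul_apply_eq_comp, c5b_refl_fix hpe] at hα
    rw [hea', mul_apply_eq_comp, c5b_refl_fix hpe] at hβ
    have hpe' : form p e' = 0 := c5b_refl_null hp hα
    have hpe'' : form p e'' = 0 := c5b_refl_null hp hβ
    have key : ∀ w : V n, form p w = 0 → ¬ Ell (refl w * refl e) → ∃ c : ℂ, perp e w = c • p := by
      intro w hw hEw
      refine eq_smul_of_perp hp0 hNp ?_ ?_
      · rw [form_eq_zero_comm, perp, form_sub_right, form_smul_right, hw, hpe]
        ring
      · by_contra hlt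
        exact hEw (c5b_ell he.1 hx.1 (not_le.mp hlt))
    obtain ⟨c, hc⟩ := key e' hpe' (hea ▸ hE)
    obtain ⟨c', hc'⟩ := key e'' hpe'' (hea' ▸ hE')
    have hc0 : c ≠ 0 := by
      rintro rfl
      exact hf0 (by simpa using hc)
    refine ⟨c' / c, ?_⟩
    rw [hc, hc', smul_smul, div_mul_cancel₀ _ hc0]

theorem near_cusp (hn : 3 ≤ n) {Γ : Subgroup (GG n)} (hΓ : Proper Γ) {e e' : V n}
    (he : Refl Γ e) (h : Near Γ e e') {x : V n}
    (hx : x ∈ Tube ((1 / 2 : ℂ) • rk1 e e) (2 * tR))
    (hf : ‖form x (perp e e')‖ ^ 2 < 4 * tR * NN x) {Mc : Op n} (hc : Cusp Γ Mc)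
    (hxc : x ∈ Tube Mc t1) : Mc e = 0 ∧ Mc (perp e e') = 0 := by
  obtain ⟨s, hs, hse⟩ := he.2.exists_unit
  obtain ⟨s', hs', hse'⟩ := h.1.2.exists_unit
  have ha : s' * s ∈ plus Γ := (plus Γ).mul_mem hs' hs
  have hea : ((s' * s : GG n) : Op n) = refl e' * refl e := by rw [Units.val_mul, hse, hse']
  have hu : uu ((s' * s : GG n) : Op n) x ≤ eps := by
    rw [hea]
    exact (near_small hn he h hx hf).trans (by norm_num [eps])
  have hcom := small_fix_cusp hΓ hc hxc ha hu
  have hx0 : x ∈ Tube ((1 / 2 : ℂ) • rk1 e e) s0 :=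
    ⟨hx.1, hx.2.trans (by norm_num [tR, s0])⟩
  have hk := kill hΓ hc (isGenLt_half_rk1 he.1) (by rw [flow_half_rk1 he.1]; exact he.2) hxc hx0
  obtain ⟨p, hp0, hp, rfl⟩ := hc.1.1
  have hNp : 0 ≤ NN p := by
    rw [NN, hp]
    simp
  have hxp : form x p ≠ 0 := fun h0 =>
    form_ne_zero_of_neg hx.1 hp0 hNp (form_eq_zero_comm.mp h0)
  have he0 : e ≠ 0 := by
    intro h0
    have := he.1
    rw [h0, form_zero_left] at this
    exact zero_ne_one this
  have hpe : form p e = 0 := by
    have h1 := hk x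
    simp only [smul_apply, rk1_apply, form_smul_left, smul_smul, smul_eq_zero, he0, or_false,
      mul_eq_zero, hxp, false_or] at h1
    rcases h1 with h1 | h1
    · norm_num at h1
    · exact h1
  have hap : refl e' p = (form (((s' * s : GG n) : Op n) x) p / form x p) • p := by
    have h1 := congrArg (fun T : Op n => T x) hcom.eq
    simp only [mul_apply_eq_comp, rk1_apply, map_smul] at h1
    have h2 : ((s' * s : GG n) : Op n) p = refl e' p := by
      rw [hea, mul_apply_eq_comp, c5b_refl_fix hpe]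
    rw [h2] at h1
    rw [div_eq_inv_mul, ← smul_smul, ← h1, smul_smul, inv_mul_cancel₀ hxp, one_smul]
  have hpe' : form p e' = 0 := c5b_refl_null hp hap
  constructor
  · rw [rk1_apply, form_eq_zero_comm.mp hpe, zero_smul]
  · rw [rk1_apply, perp, form_sub_left, form_smul_left, form_eq_zero_comm.mp hpe,
      form_eq_zero_comm.mp hpe']
    simp

theorem c5b_thin_congr {Γ : Subgroup (GG n)} {e e1 : V n} (h : rk1 e e = rk1 e1 e1) (t : ℝ) :
    Thin Γ e t = Thin Γ e1 t := by
  simp only [Thin, Near, c5b_perp_eq, h]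

theorem c5b_thinS_eq {Γ : Subgroup (GG n)} {e : V n} (he : Refl Γ e) :
    ThinS Γ {(1 / 2 : ℂ) • rk1 e e} = Thin Γ e tR := by
  ext x
  constructor
  · rintro ⟨e1, -, h1, hx⟩
    have h2 : rk1 e e = rk1 e1 e1 :=
      smul_right_injective _ (by norm_num : (1 / 2 : ℂ) ≠ 0) (Set.singleton_injective h1)
    rwa [c5b_thin_congr h2]
  · intro hx
    exact ⟨e, he, rfl, hx⟩

theorem c5b_isOpen_thin (Γ : Subgroup (GG n)) (e : V n) (t : ℝ) : IsOpen (Thin Γ e t) := by
  have h1 : Thin Γ e t = Neg n ∩ ⋃ e' ∈ {e' | Near Γ e e'},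
      {x | ‖form x (perp e e')‖ ^ 2 < t * NN x} := by
    ext x
    simp [Thin]
  rw [h1]
  refine isOpen_Neg.inter (isOpen_biUnion fun e' _ => isOpen_lt ?_ ?_) <;> fun_prop

theorem c5b_thin_apply {Γ : Subgroup (GG n)} (hΓ : Proper Γ) {g : GG n} (hg : g ∈ Γ) {e v : V n}
    {t : ℝ} (hv : v ∈ Thin Γ e t) : (g : Op n) v ∈ Thin Γ ((g : Op n) e) t := by
  have hi := hΓ.isom g hg
  obtain ⟨hN, e', ⟨h1, h2, h3⟩, h4⟩ := hv
  have hp : perp ((g : Op n) e) ((g : Op n) e') = (g : Op n) (perp e e') := by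
    rw [perp, perp, hi, map_sub, map_smul]
  refine ⟨hi.mem_Neg.mpr hN, (g : Op n) e', ⟨h1.cnj hΓ (le_plus Γ hg), ?_, ?_⟩, ?_⟩
  · intro h0
    apply h2
    rw [← cnj_rk1 hi, ← cnj_rk1 hi] at h0
    have := congrArg (cnj g⁻¹) h0
    rwa [← cnj_mul, ← cnj_mul, inv_mul_cancel, cnj_one, cnj_one] at this
  · rwa [hp, hi]
  · rwa [hp, hi, hi.NN_apply]

theorem eqvS_ThinS {Γ : Subgroup (GG n)} (hΓ : Proper Γ) : EqvS Γ (sysR Γ) (ThinS Γ) := by
  refine ⟨?_, ?_, ?_, ?_⟩
  · rintro F ⟨e, he, rfl⟩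
    rw [c5b_thinS_eq he]
    exact (c5b_isOpen_thin Γ e tR).measurableSet
  · rintro F - x ⟨e, -, -, hx⟩
    exact hx.1
  · rintro F - c hc x ⟨e, he, hF, hN, e', h1, h2⟩
    refine ⟨e, he, hF, smul_mem_Neg hc hN, e', h1, ?_⟩
    have h3 : 0 < ‖c‖ ^ 2 := pow_pos (norm_pos_iff.mpr hc) 2
    rw [form_smul_left, norm_mul, mul_pow, NN_smul, mul_left_comm]
    exact mul_lt_mul_of_pos_left h2 h3
  · rintro g hg F ⟨e, he, rfl⟩ v
    have hi := hΓ.isom g hg
    have h1 : cnjS g {(1 / 2 : ℂ) • rk1 e e} =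
        {(1 / 2 : ℂ) • rk1 ((g : Op n) e) ((g : Op n) e)} := by
      rw [cnjS, Set.image_singleton, cnj_smul, cnj_rk1 hi]
    rw [h1, c5b_thinS_eq he, c5b_thinS_eq (he.cnj hΓ (le_plus Γ hg))]
    constructor
    · intro h
      have := c5b_thin_apply hΓ (Γ.inv_mem hg) h
      rwa [inv_apply_apply, inv_apply_apply] at this
    · exact c5b_thin_apply hΓ hg

theorem thinS_eq {Γ : Subgroup (GG n)} {e : V n} (he : Refl Γ e) :
    ThinS Γ {(1 / 2 : ℂ) • rk1 e e} = Thin Γ e tR := by
  exact c5b_thinS_eq he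

end BallQ
end
end

-- merged part: Pool.Agent.Work.MP_72250f_ag.C5
section
/-!
Reflections of order two: algebra and counting. Notation s = refl e, s' = refl e', f = perp e e', ph = <f,f> = 1 - |<e',e>|^2.
tr (s' s) = n + 1 - 4 ph; (s' s - 1) e = -2 ph e + 2 <e,e'> f; range (s' s - 1) = span(e, e').
near_small: kappa <= 8 |ph| and <s' s x, x> = <s x, s' x> is within 73 tR NN x of -NN x. near_unique: thmZ for a = s' s and a' = s'' s. If they
commute, a' preserves range (a - 1), so f'' is in span(e, f) and orthogonal to e. Otherwise neither is elliptic, so span(e,f) is not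
positive definite (else a fixes a negative vector), the commutator vert p tau is small with uu <= 6 (eps/64)^2, its conjugate by s is small and fixes the line of p
(small_fix_null), so s p, then s' p, s'' p are multiples of p, p is orthogonal to e, e', e'' and f, f'' are multiples of p (eq_smul_of_perp).
countR: (M, rho) from short_power 1 e with e small. For two different members e, e' at x take the words (s s')^(2i): b^(2m) with
b = s s', 1 <= m <= M, is close to 1. If b^(2m) is not 1 then b^(2m) s = cnj (b^m) s = refl e'' with e'' = b^m e is Near (estimate ph and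
<x,f''> from (a - 1) e with qq, norm_form_sq_le_qq) and x is thin. Otherwise trace_root (2 M factorial, rank 2) puts |<e,e'>|^2 = tr (P P') in a finite set, and it
is not 1 (then f is null, b f = f, b e = c e - 2 f up to units gives b^(2m) e different from e unless f = 0). card_le_of_angles for P = rk1 e e.
-/

open scoped ComplexConjugate ENNReal Topology
open MeasureTheory Filter

noncomputable section

namespace BallQ

variable {n : ℕ}

theorem c5_rank1 (e : V n) :
    Module.finrank ℂ (LinearMap.range ((refl e - 1 : Op n) : V n →ₗ[ℂ] V n)) ≤ 1 := by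
  classical
  have h : LinearMap.range ((refl e - 1 : Op n) : V n →ₗ[ℂ] V n) ≤
      Submodule.span ℂ (({e} : Finset (V n)) : Set (V n)) := by
    rintro _ ⟨v, rfl⟩
    rw [Finset.coe_singleton]
    refine Submodule.mem_span_singleton.2 ⟨-(2 * form v e), ?_⟩
    change _ = refl e v - v
    rw [refl_apply, neg_smul]
    abel
  exact (Submodule.finrank_mono h).trans
    ((finrank_span_finset_le_card _).trans (Finset.card_singleton e).le)

theorem c5_rank2 (e e' : V n) :
    Module.finrank ℂ (LinearMap.range ((refl e * refl e' - 1 : Op n) : V n →ₗ[ℂ] V n)) ≤ 2 := by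
  classical
  have h : LinearMap.range ((refl e * refl e' - 1 : Op n) : V n →ₗ[ℂ] V n) ≤
      Submodule.span ℂ (({e, e'} : Finset (V n)) : Set (V n)) := by
    rintro _ ⟨v, rfl⟩
    rw [Finset.coe_pair]
    refine Submodule.mem_span_pair.2 ⟨-(2 * form (refl e' v) e), -(2 * form v e'), ?_⟩
    change _ = refl e (refl e' v) - v
    rw [refl_apply e (refl e' v), neg_smul, neg_smul]
    nth_rewrite 2 [refl_apply e' v]
    abel
  exact (Submodule.finrank_mono h).trans
    ((finrank_span_finset_le_card _).trans Finset.card_le_two)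

theorem c5_tr {e e' : V n} (he : form e e = 1) (he' : form e' e' = 1) :
    tr (rk1 e e * rk1 e' e') = (tr (refl e * refl e') - ((n : ℂ) + 1) + 4) / 4 := by
  simp only [refl, mul_sub, sub_mul, one_mul, mul_one, smul_mul_smul_comm, tr_sub, tr_smul,
    tr_one, tr_rk1, he, he']
  ring

theorem c5_tr_eq (e e' : V n) : tr (rk1 e e * rk1 e' e') = form e' e * form e e' := by
  rw [rk1_mul_rk1, tr_smul, tr_rk1]

theorem c5_ne_one {e e' : V n} (he : form e e = 1) (he' : form e' e' = 1) {N : ℕ} (hN : N ≠ 0)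
    (h : (refl e * refl e') ^ N = 1) (h1 : tr (rk1 e e * rk1 e' e') = 1) :
    rk1 e e = rk1 e' e' := by
  rw [c5_tr_eq] at h1
  have hf1 : form (perp e e') e = 0 := by
    rw [perp, form_sub_left, form_smul_left, he, mul_one, sub_self]
  have hf2 : form (perp e e') e' = 0 := by
    rw [perp, form_sub_left, form_smul_left, he', h1, sub_self]
  have hbf : (refl e * refl e') (perp e e') = perp e e' := by
    change refl e (refl e' (perp e e')) = _
    rw [refl_apply e', hf2, mul_zero, zero_smul, sub_zero, refl_apply, hf1, mul_zero, zero_smul,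
      sub_zero]
  have hbe : (refl e * refl e') e = e - (2 * form e e') • perp e e' := by
    clear * - n e e' he h1
    change refl e (refl e' e) = _
    rw [refl_apply e', map_sub, map_smul, refl_apply, refl_apply, he, perp]
    have h2 : (2 * form e e') • (form e' e • e) = (2 : ℂ) • e := by
      rw [smul_smul]
      congr 1
      linear_combination 2 * h1
    have h3 : (2 * form e e') • ((2 * form e' e) • e) = (4 : ℂ) • e := by
      rw [smul_smul]
      congr 1
      linear_combination 4 * h1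
    rw [smul_sub, smul_sub, h2, h3]
    module
  have hpow : ∀ k : ℕ, ((refl e * refl e') ^ k) e = e - ((k : ℂ) * (2 * form e e')) • perp e e' := by
    clear * - n e e' hbf hbe
    intro k
    induction k with
    | zero => simp
    | succ k ih =>
      rw [pow_succ']
      change (refl e * refl e') (((refl e * refl e') ^ k) e) = _
      rw [ih, map_sub, map_smul, hbf, hbe]
      push_cast
      module
  have h4 := hpow N
  rw [h] at h4
  have h5 : ((N : ℂ) * (2 * form e e')) • perp e e' = 0 := by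
    have h6 : e = e - ((N : ℂ) * (2 * form e e')) • perp e e' := h4
    exact sub_eq_self.1 h6.symm
  have hc : form e e' ≠ 0 := by
    intro h0
    rw [h0, mul_zero] at h1
    exact zero_ne_one h1
  have hN' : (N : ℂ) ≠ 0 := Nat.cast_ne_zero.2 hN
  have h7 : perp e e' = 0 :=
    (smul_eq_zero.1 h5).resolve_left (mul_ne_zero hN' (mul_ne_zero two_ne_zero hc))
  have h8 : e' = form e' e • e := sub_eq_zero.1 h7
  have h9 : rk1 e' e' = rk1 (form e' e • e) (form e' e • e) := by rw [← h8]
  rw [h9, rk1_smul_left, rk1_smul_right, form_conj, smul_smul, h1, one_smul]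

theorem c5_key {e e' x : V n} (he : form e e = 1) (he' : form e' e' = 1) (hx : x ∈ Neg n)
    (hA : ‖form x e‖ ^ 2 ≤ NN x / 2)
    (hq : qq x (refl e' (refl e e) - e) ≤ tR ^ 2 / 16 * qq x e) :
    ‖form (perp e e') (perp e e')‖ < tR ∧ ‖form x (perp e e')‖ ^ 2 < tR * NN x := by
  have hN : 0 < NN x := hx
  have hf1 : form (perp e e') e = 0 := by
    rw [perp, form_sub_left, form_smul_left, he, mul_one, sub_self]
  have hcc : form e' e * form e e' = ((‖form e' e‖ ^ 2 : ℝ) : ℂ) := by
    rw [← form_conj e' e, Complex.mul_conj, Complex.normSq_eq_norm_sq]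
  have hp : form (perp e e') (perp e e') = ((1 - ‖form e' e‖ ^ 2 : ℝ) : ℂ) := by
    nth_rewrite 2 [perp]
    rw [form_sub_right, form_smul_right, hf1, mul_zero, sub_zero, perp, form_sub_left,
      form_smul_left, he', hcc]
    push_cast
    ring
  have hd : refl e' (refl e e) - e =
      (-2 * form (perp e e') (perp e e')) • e + (2 * form e e') • perp e e' := by
    clear * - n e he e' hp hcc
    have h1 : refl e e = -e := by
      rw [refl_apply, he]
      module
    rw [h1, map_neg, refl_apply, hp]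
    push_cast
    rw [perp, smul_sub, smul_smul]
    have h2 : 2 * form e e' * form e' e = 2 * (‖form e' e‖ : ℂ) ^ 2 := by
      have h3 := hcc
      push_cast at h3
      linear_combination 2 * h3
    rw [h2]
    module
  have hqe : qq x e ≤ 2 := by
    have h1 : NN e = -1 := by rw [NN, he]; simp
    rw [qq, h1, norm_form_comm]
    have h2 : 2 * ‖form x e‖ ^ 2 / NN x ≤ 1 := by
      rw [div_le_one hN]
      linarith only [hA]
    linarith only [h2]
  have ht : (0 : ℝ) < tR := by norm_num [tR]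
  have ht1 : tR ≤ 1 := by norm_num [tR]
  set d := refl e' (refl e e) - e with hdd
  set f := perp e e' with hff
  have hq0 := qq_nonneg hx d
  have hq1 : qq x d ≤ tR ^ 2 / 8 := by clear * - n x d e hq hqe; linarith only [hq, hqe, sq_nonneg tR, mul_nonneg_of_nonpos_of_nonpos (Mathlib.Tactic.Linarith.sub_nonpos_of_le (sq_nonneg tR)) (Mathlib.Tactic.Linarith.sub_nonpos_of_le hqe)]
  have hde : form d e = -2 * form f f := by
    rw [hd, form_add_left, form_smul_left, form_smul_left, he, hf1]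
    ring
  have h1 := norm_form_sq_le_qq hx d e
  rw [hde, norm_mul, norm_neg, Complex.norm_two] at h1
  have h2 : ‖form f f‖ ^ 2 ≤ (tR / 4) ^ 2 := by clear * - n f x d e hq1 h1 hqe hq0; linarith only [hq1, h1, hqe, hq0, mul_nonneg_of_nonpos_of_nonpos (Mathlib.Tactic.Linarith.sub_nonpos_of_le hqe) (Mathlib.Tactic.Linarith.sub_nonpos_of_le hq0)]
  have h3 : ‖form f f‖ ≤ tR / 4 := (sq_le_sq₀ (norm_nonneg _) (by positivity)).1 h2
  refine ⟨by linarith only [ht, h3], ?_⟩
  have h4 := norm_form_sq_le_qq hx d x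
  rw [qq_self hx] at h4
  have h5 : 2 * form e e' * form f x = form d x + 2 * form f f * form e x := by
    rw [hd, form_add_left, form_smul_left, form_smul_left]
    ring
  have h6 : 2 * ‖form e' e‖ * ‖form x f‖ ≤ ‖form d x‖ + 2 * ‖form f f‖ * ‖form x e‖ := by
    have h7 := norm_add_le (form d x) (2 * form f f * form e x)
    rw [← h5] at h7
    simp only [norm_mul, Complex.norm_two] at h7
    rwa [norm_form_comm e e', norm_form_comm f x, norm_form_comm e x] at h7
  have h8 : 1 / 2 ≤ ‖form e' e‖ ^ 2 := by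
    have h9 : |1 - ‖form e' e‖ ^ 2| ≤ tR / 4 := by
      rw [← Real.norm_eq_abs, ← Complex.norm_real, ← hp]
      exact h3
    linarith only [ht1, h9, (abs_le.1 h9).2]
  have h10 : (2 * ‖form e' e‖ * ‖form x f‖) ^ 2 ≤
      (‖form d x‖ + 2 * ‖form f f‖ * ‖form x e‖) ^ 2 :=
    pow_le_pow_left₀ (by positivity) h6 2
  have h11 : (‖form d x‖ + 2 * ‖form f f‖ * ‖form x e‖) ^ 2 ≤
      2 * ‖form d x‖ ^ 2 + 8 * (‖form f f‖ ^ 2 * ‖form x e‖ ^ 2) := by
    clear * - n d x f e
    linarith only [sq_nonneg (‖form d x‖ - 2 * ‖form f f‖ * ‖form x e‖), sq_nonneg (‖form d x‖ - (2 : ℝ) * ‖form f f‖ * ‖form x e‖)]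
  have h12 : ‖form f f‖ ^ 2 * ‖form x e‖ ^ 2 ≤ (tR / 4) ^ 2 * (NN x / 2) :=
    mul_le_mul h2 hA (sq_nonneg _) (sq_nonneg _)
  have h13 : ‖form d x‖ ^ 2 ≤ tR ^ 2 / 8 * NN x := h4.trans (mul_le_mul_of_nonneg_right hq1 hN.le)
  have h14 : 1 / 2 * ‖form x f‖ ^ 2 ≤ ‖form e' e‖ ^ 2 * ‖form x f‖ ^ 2 :=
    mul_le_mul_of_nonneg_right h8 (sq_nonneg _)
  have h15 : ‖form x f‖ ^ 2 ≤ tR ^ 2 / 4 * NN x := by clear * - n x f e' e d h10 h11 h12 h13 h14; linarith only [h10, h11, h12, h13, h14]
  have h16 : tR ^ 2 / 4 < tR := by clear * - ht ht1; linarith only [ht, ht1, mul_nonneg_of_nonpos_of_nonpos (le_of_lt (Mathlib.Tactic.Linarith.sub_neg_of_lt ht)) (Mathlib.Tactic.Linarith.sub_nonpos_of_le ht1)]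
  exact h15.trans_lt (mul_lt_mul_of_pos_right h16 hN)

theorem c5_grp {G : Type*} [Group G] {u u' : G} (hu : u * u = 1) (hu' : u' * u' = 1) (z : ℤ) :
    (u * u') ^ z * u * ((u * u') ^ z)⁻¹ * u = (u * u') ^ (2 * z) := by
  have h0 : u⁻¹ = u := inv_eq_of_mul_eq_one_right hu
  have h0' : u'⁻¹ = u' := inv_eq_of_mul_eq_one_right hu'
  have h1 : u * (u * u')⁻¹ * u⁻¹ = u * u' := by
    rw [mul_inv_rev, h0, h0', mul_assoc, mul_assoc, hu, mul_one]
  have h2 : u * ((u * u') ^ z)⁻¹ * u = (u * u') ^ z := by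
    rw [← inv_zpow]
    conv_rhs => rw [← h1, conj_zpow]
    rw [h0]
  rw [two_mul, zpow_add, mul_assoc, mul_assoc, ← mul_assoc u, h2]

theorem c5_mu (e x : V n) : mu ((1 / 2 : ℂ) • rk1 e e) x = ‖form x e‖ ^ 2 / 2 / NN x := by
  have h : form (((1 / 2 : ℂ) • rk1 e e) x) x = ((‖form x e‖ ^ 2 / 2 : ℝ) : ℂ) := by
    change form ((1 / 2 : ℂ) • rk1 e e x) x = _
    rw [form_smul_left, form_rk1_self]
    push_cast
    ring
  rw [mu, h, Complex.ofReal_re]

theorem c5_CC {e x : V n} (he : form e e = 1) {s ρ : ℝ} (hs : s ≤ s0) (hρ : s ≤ ρ / 14)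
    (hx : x ∈ Tube ((1 / 2 : ℂ) • rk1 e e) s) : CC x (refl e x) ≤ 1 + ρ := by
  have hg := (isGenLt_half_rk1 he).isGen
  have h1 := hg.CC_flow_le hx.1
  rw [flow_half_rk1 he] at h1
  have h2 := hg.mu_nonneg hx.1
  have h3 := hx.2
  have h4 : Real.pi < 3.15 := Real.pi_lt_d2
  have h5 := Real.pi_pos
  have h6 : s ≤ 1 / 100 := hs
  have h7 : Real.pi * mu ((1 / 2 : ℂ) • rk1 e e) x ≤ 3.15 * s :=
    mul_le_mul h4.le h3.le h2 (by norm_num)
  have h8 : 0 ≤ Real.pi * mu ((1 / 2 : ℂ) • rk1 e e) x := mul_nonneg h5.le h2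
  have h9 : (1 + 2 * Real.pi * mu ((1 / 2 : ℂ) • rk1 e e) x) ^ 2 ≤ (1 + 2 * (3.15 * s)) ^ 2 :=
    pow_le_pow_left₀ (by linarith only [h2, h3, h6, h8]) (by linarith only [h7]) 2
  have h10 : 0 ≤ s := h2.trans h3.le
  clear * - n x e ρ s hρ h1 h2 h9 h3 h6
  linarith only [hρ, h1, h2, h9, h3, h6, mul_nonneg_of_nonpos_of_nonpos (Mathlib.Tactic.Linarith.sub_nonpos_of_le h2) (le_of_lt (Mathlib.Tactic.Linarith.sub_neg_of_lt h3)), mul_nonneg_of_nonpos_of_nonpos (Mathlib.Tactic.Linarith.sub_nonpos_of_le h2) (Mathlib.Tactic.Linarith.sub_nonpos_of_le h6), mul_pos_of_neg_of_neg (Mathlib.Tactic.Linarith.sub_neg_of_lt h3) (Mathlib.Tactic.Linarith.sub_neg_of_lt h3), mul_nonneg_of_nonpos_of_nonpos (le_of_lt (Mathlib.Tactic.Linarith.sub_neg_of_lt h3)) (Mathlib.Tactic.Linarith.sub_nonpos_of_le h6)]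

theorem c5_pair : ∃ sR : ℝ, 0 < sR ∧ sR ≤ s0 ∧ ∃ A : Finset ℂ, (1 : ℂ) ∉ A ∧
    ∀ (n : ℕ) (Γ : Subgroup (GG n)), Proper Γ → ∀ x e e' : V n, Refl Γ e → Refl Γ e' →
      x ∈ Tube ((1 / 2 : ℂ) • rk1 e e) sR → x ∈ Tube ((1 / 2 : ℂ) • rk1 e' e') sR →
      x ∉ Thin Γ e tR → rk1 e e ≠ rk1 e' e' → tr (rk1 e e * rk1 e' e') ∈ A := by
  classical
  have ht : (0 : ℝ) < tR := by norm_num [tR]
  obtain ⟨M, ρ, hρ, hM⟩ := short_power 1 (ε := tR ^ 2 / 16) (by positivity)
  obtain ⟨A, hA⟩ := trace_root (2 * M.factorial) 2 (by have := M.factorial_pos; omega)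
  refine ⟨min s0 (ρ / 14), lt_min (by norm_num [s0]) (by positivity), min_le_left _ _,
    (A.image fun t => (t + 4) / 4).erase 1, Finset.notMem_erase _ _, ?_⟩
  intro n Γ hΓ x e e' he he' hx hx' hT hne
  obtain ⟨u, hu, hue⟩ := he.2.exists_unit
  obtain ⟨u', hu', hue'⟩ := he'.2.exists_unit
  have huu : u * u = 1 := Units.ext (by rw [Units.val_mul, hue, refl_mul_self he.1, Units.val_one])
  have huu' : u' * u' = 1 :=
    Units.ext (by rw [Units.val_mul, hue', refl_mul_self he'.1, Units.val_one])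
  obtain ⟨i, j, hij, -, hq⟩ := hM n u u' (hue ▸ isIsom_refl he.1) (hue' ▸ isIsom_refl he'.1)
    (hue ▸ c5_rank1 e) (hue' ▸ c5_rank1 e') x hx.1
    (hue ▸ c5_CC he.1 (min_le_left _ _) (min_le_right _ _) hx)
    (hue' ▸ c5_CC he'.1 (min_le_left _ _) (min_le_right _ _) hx')
    (fun i => (List.replicate (2 * (i : ℕ)) [u, u']).flatten) (fun i => ⟨by
      have hi := i.2
      simp only [List.length_flatten, List.map_replicate, List.sum_replicate, List.length_cons,
        List.length_nil, smul_eq_mul]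
      omega, fun s hs => by
      obtain ⟨l, hl, hs⟩ := List.mem_flatten.1 hs
      rw [List.eq_of_mem_replicate hl] at hs
      simp only [List.mem_cons, List.not_mem_nil, or_false] at hs
      tauto⟩)
  obtain ⟨z, hz⟩ : ∃ z : ℤ, z = ((j : ℕ) : ℤ) - ((i : ℕ) : ℤ) := ⟨_, rfl⟩
  have hpr : ((List.replicate (2 * (i : ℕ)) [u, u']).flatten).prod⁻¹ *
      ((List.replicate (2 * (j : ℕ)) [u, u']).flatten).prod = (u * u') ^ (2 * z) := by
    clear * - n M i u u' j z hz
    simp only [List.prod_flatten, List.map_replicate, List.prod_replicate, List.prod_cons,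
      List.prod_nil, mul_one]
    rw [← zpow_natCast, ← zpow_natCast, ← zpow_neg, ← zpow_add, hz]
    congr 1
    push_cast
    ring
  rw [hpr] at hq
  have hb : (u * u') ^ z ∈ plus Γ := (plus Γ).zpow_mem ((plus Γ).mul_mem hu hu') z
  have hbi : IsIsom (((u * u') ^ z : GG n) : Op n) := InP.isIsom hΓ hb
  have he2 := he.cnj hΓ hb
  have hab : (((u * u') ^ (2 * z) : GG n) : Op n) =
      refl ((((u * u') ^ z : GG n) : Op n) e) * refl e := by
    rw [← cnj_refl hbi, ← c5_grp huu huu' z, cnj, ← hue]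
    rfl
  by_cases h1 : rk1 ((((u * u') ^ z : GG n) : Op n) e) ((((u * u') ^ z : GG n) : Op n) e) =
      rk1 e e
  · have h2 : (u * u') ^ (2 * z) = 1 := by
      clear * - n u u' z e hab Γ he h1
      apply Units.ext
      rw [hab, Units.val_one, ← refl_mul_self he.1]
      congr 1
      rw [refl, refl, h1]
    have hz0 : z.natAbs ≠ 0 := by
      have h3 : (i : ℕ) ≠ j := fun h => hij (Fin.ext h)
      omega
    have hzM : z.natAbs ≤ M := by
      have h3 := i.2
      have h4 := j.2
      omega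
    obtain ⟨c, hc⟩ := Nat.dvd_factorial (Nat.pos_of_ne_zero hz0) hzM
    have h3 : (u * u') ^ (2 * M.factorial) = 1 := by
      have h4 : (u * u') ^ (2 * z).natAbs = 1 := by
        rw [← orderOf_dvd_iff_pow_eq_one, ← Int.natCast_dvd]
        exact orderOf_dvd_iff_zpow_eq_one.2 h2
      rw [Int.natAbs_mul] at h4
      rw [hc, ← mul_assoc, pow_mul]
      change ((u * u') ^ ((2 : ℤ).natAbs * z.natAbs)) ^ c = 1
      rw [h4, one_pow]
    have h5 : (refl e * refl e') ^ (2 * M.factorial) = 1 := by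
      rw [← hue, ← hue', ← Units.val_mul, ← Units.val_pow_eq_pow_val, h3, Units.val_one]
    refine Finset.mem_erase.2 ⟨fun h => hne (c5_ne_one he.1 he'.1 ?_ h5 h), ?_⟩
    · have := M.factorial_pos
      omega
    · exact Finset.mem_image.2 ⟨_, hA n _ h5 (c5_rank2 e e'), (c5_tr he.1 he'.1).symm⟩
  · exfalso
    have h2 := hq e
    rw [hab] at h2
    have h3 : ‖form x e‖ ^ 2 ≤ NN x / 2 := by
      clear * - n e x ρ hx
      have h4 := hx.2
      have hN : 0 < NN x := hx.1
      rw [c5_mu, div_lt_iff₀ hN] at h4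
      have h5 : min s0 (ρ / 14) ≤ 1 / 100 := min_le_left _ _
      linarith only [h4, hN, h5, mul_nonneg_of_nonpos_of_nonpos (le_of_lt (Mathlib.Tactic.Linarith.sub_neg_of_lt hN)) (Mathlib.Tactic.Linarith.sub_nonpos_of_le h5)]
    obtain ⟨h4, h5⟩ := c5_key he.1 he2.1 hx.1 h3 h2
    exact hT ⟨hx.1, _, ⟨he2, h1, h4⟩, h5⟩

theorem countR : ∃ sR : ℝ, 0 < sR ∧ sR ≤ s0 ∧ ∃ a : ℕ, ∀ (n : ℕ) (Γ : Subgroup (GG n)),
    Proper Γ → ∀ x : V n,
      mult (sysR Γ) (fun F => TubeS F sR \ ThinS Γ F) x ≤ ((n : ℝ≥0∞) + 2) ^ a := by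
  classical
  obtain ⟨sR, h0, h1, A, hA1, hA⟩ := c5_pair
  refine ⟨sR, h0, h1, 2 * A.card, fun n Γ hΓ x => ?_⟩
  have hch : ∀ F : sysR Γ, ∃ e, Refl Γ e ∧ (F : Set (Op n)) = {(1 / 2 : ℂ) • rk1 e e} :=
    fun F => F.2
  choose e he using hch
  have hinj : Function.Injective fun F : sysR Γ => rk1 (e F) (e F) := by
    intro F F' h
    have h' : rk1 (e F) (e F) = rk1 (e F') (e F') := h
    apply Subtype.ext
    rw [(he F).2, (he F').2, h']
  have htube : ∀ F : sysR Γ, x ∈ TubeS (F : Set (Op n)) sR \ ThinS Γ F →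
      x ∈ Tube ((1 / 2 : ℂ) • rk1 (e F) (e F)) sR ∧ x ∉ Thin Γ (e F) tR := by
    rintro F ⟨h2, h3⟩
    refine ⟨?_, fun h => h3 ⟨e F, (he F).1, (he F).2, h⟩⟩
    obtain ⟨M, hM, h4⟩ := Set.mem_iUnion₂.1 h2
    rw [(he F).2, Set.mem_singleton_iff] at hM
    rwa [hM] at h4
  rw [mult, ENNReal.tsum_eq_iSup_sum]
  refine iSup_le fun s => ?_
  have h2 : ∑ F ∈ s, (TubeS (F : Set (Op n)) sR \ ThinS Γ F).indicator (1 : V n → ℝ≥0∞) x =
      ((s.filter fun F : sysR Γ => x ∈ TubeS (F : Set (Op n)) sR \ ThinS Γ F).card : ℝ≥0∞) := by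
    rw [Finset.card_filter, Nat.cast_sum]
    refine Finset.sum_congr rfl fun F _ => ?_
    by_cases h : x ∈ TubeS (F : Set (Op n)) sR \ ThinS Γ F
    · rw [Set.indicator_of_mem h, if_pos h, Nat.cast_one, Pi.one_apply]
    · rw [Set.indicator_of_notMem h, if_neg h, Nat.cast_zero]
  rw [h2, ← Finset.card_image_of_injective _ hinj]
  have h3 := card_le_of_angles A ((s.filter fun F : sysR Γ =>
    x ∈ TubeS (F : Set (Op n)) sR \ ThinS Γ F).image fun F : sysR Γ => rk1 (e F) (e F)) ?_ ?_
  · exact_mod_cast h3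
  · intro P hP
    obtain ⟨F, -, rfl⟩ := Finset.mem_image.1 hP
    rw [c5_tr_eq, (he F).1.1, mul_one]
    exact hA1
  · intro P hP Q hQ hPQ
    obtain ⟨F, hF, rfl⟩ := Finset.mem_image.1 hP
    obtain ⟨F', hF', rfl⟩ := Finset.mem_image.1 hQ
    have h4 := htube F (Finset.mem_filter.1 hF).2
    have h5 := htube F' (Finset.mem_filter.1 hF').2
    exact hA n Γ hΓ x (e F) (e F') (he F).1 (he F').1 h4.1 h5.1 h4.2 hPQ

end BallQ
end
end
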