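import Pool.Agent.Work.MP_72250f_ag.S1a

/-!
Monotonicity of displacement along three kinds of paths. (1) x_r = a + r b with b perp a: <g x_r, x_r> = A + r^2 B,
NN x_r = al - r^2 be with A = <g a,a>, |A| >= al = NN a, B = <g b,b>, |B| <= be = -NN b (cs_perp in a-perp: both b and g b
are orthogonal to a). With s = r^2 be / (al - r^2 be), A' = A / al, B' = B / be the quotient is |A' + s (A' + B')|^2.
(2) x_t = x - t p with <x,p> = -1, NN x_t = NN x - 2t; for g p = l p, l = rho e^(i th), c = (rho + 1/rho)/2, write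
g x = (conj l)^-1 x + b p + w with w perp x, p. Then -e^(-i th) <g x_t, x_t> = c (NN x - 2t) + A + i m with
A = rho (-NN w)/2 >= 0 and real m independent of t; A = m = 0 means that q = x - (NN x / 2) p is an eigenvector.
(3) x = q + h p (h > 0 real) with g q = (conj l)^-1 q, x_s = x + i s p: CC = c^2 + s^2 (rho - 1/rho)^2 / (4 h^2).
-/

open scoped ComplexConjugate ENNReal Topology
open MeasureTheory Filter

noncomputable section

namespace BallQ

variable {n : ℕ}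

theorem NN_sub_null {x p : V n} (hp : form p p = 0) (hxp : form x p = -1) (t : ℝ) :
    NN (x - (t : ℂ) • p) = NN x - 2 * t := by
  have hpx : form p x = -1 := by
    rw [← form_conj, hxp]
    simp
  simp only [NN, form_sub_left, form_sub_right, form_smul_left, form_smul_right, hp, hxp, hpx,
    Complex.conj_ofReal]
  simp
  ring

theorem s1b_core {g : Op n} (hg : IsIsom g) {p q : V n} (hp : form p p = 0) (hq : form q q = 0)
    (hqp : form q p = -1) {l : ℂ} (hl : g p = l • p) :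
    ∃ A m : ℝ, 0 ≤ A ∧ (∀ h : ℝ, ‖form (q + (h : ℂ) • p) (g (q + (h : ℂ) • p))‖ ^ 2 =
        (h * (‖l‖ + ‖l‖⁻¹) + A) ^ 2 + m ^ 2) ∧ (A = 0 → m = 0 → g q = (conj l)⁻¹ • q) := by
  have hp0 : p ≠ 0 := by
    rintro rfl
    simp at hqp
  have hl0 : l ≠ 0 := by
    rintro rfl
    apply hp0
    apply hg.injective
    rw [hl, zero_smul, map_zero]
  have hlc : conj l ≠ 0 := (map_ne_zero _).mpr hl0
  have hlp : 0 < ‖l‖ := norm_pos_iff.mpr hl0
  have hpq : form p q = -1 := by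
    rw [← form_conj, hqp]
    simp
  have hNp : NN p = 0 := by simp [NN, hp]
  have h1 : form (g q) p = -(conj l)⁻¹ := by
    have := hg q p
    rw [hl, form_smul_right, hqp] at this
    field_simp
    linear_combination this
  obtain ⟨b, hb⟩ : ∃ b : ℂ, form (g q) q = -b := ⟨-form (g q) q, by simp⟩
  obtain ⟨w, hw⟩ : ∃ w : V n, g q = (conj l)⁻¹ • q + b • p + w :=
    ⟨g q - ((conj l)⁻¹ • q + b • p), by simp⟩
  have hwp : form w p = 0 := by
    rw [hw, form_add_left, form_add_left, form_smul_left, form_smul_left, hp, hqp] at h1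
    linear_combination h1
  have hwq : form w q = 0 := by
    rw [hw, form_add_left, form_add_left, form_smul_left, form_smul_left, hq, hpq] at hb
    linear_combination hb
  have hpw : form p w = 0 := form_eq_zero_comm.mp hwp
  have hqw : form q w = 0 := form_eq_zero_comm.mp hwq
  have hw0 : NN w ≤ 0 := nonpos_of_perp hp0 hNp.ge hwp
  have h2 : 2 * (l⁻¹ * b).re = -NN w := by
    have h3 := hg q q
    rw [hw, hq] at h3
    simp only [form_add_left, form_add_right, form_smul_left, form_smul_right, hp, hq, hqp, hpq,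
      hwp, hwq, hpw, hqw, form_self w, map_inv₀, Complex.conj_conj] at h3
    have h4 : ((2 * (l⁻¹ * b).re : ℝ) : ℂ) = ((-NN w : ℝ) : ℂ) := by
      rw [← Complex.add_conj, map_mul, map_inv₀]
      push_cast
      linear_combination -h3
    exact_mod_cast h4
  have hll : l * conj l = (‖l‖ : ℂ) ^ 2 := by
    rw [Complex.mul_conj, Complex.normSq_eq_norm_sq]
    push_cast
    rfl
  have hlr : (‖l‖ : ℂ) ≠ 0 := by exact_mod_cast hlp.ne'
  refine ⟨‖l‖ * (l⁻¹ * b).re, ‖l‖ * (l⁻¹ * b).im, mul_nonneg hlp.le (by linarith only [hw0, h2]), fun h => ?_,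
    fun hA hm => ?_⟩
  · rw [norm_form_comm]
    have h5 : form (g (q + (h : ℂ) • p)) (q + (h : ℂ) • p) = -(b + h * ((conj l)⁻¹ + l)) := by
      rw [map_add, map_smul, hl]
      simp only [form_add_left, form_add_right, form_smul_left, form_smul_right, hp, hpq, h1, hb,
        Complex.conj_ofReal]
      ring
    have h6 : (‖l‖ : ℂ) * l⁻¹ * (b + h * ((conj l)⁻¹ + l)) =
        ((h * (‖l‖ + ‖l‖⁻¹) : ℝ) : ℂ) + (‖l‖ : ℂ) * (l⁻¹ * b) := by
      have h7 : (conj l)⁻¹ = l * ((‖l‖ : ℂ) ^ 2)⁻¹ := by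
        rw [← hll]
        field_simp
      rw [h7]
      push_cast
      field_simp
      ring
    have h8 : ‖(‖l‖ : ℂ) * l⁻¹‖ = 1 := by
      rw [norm_mul, norm_inv, Complex.norm_real, norm_norm, mul_inv_cancel₀ hlp.ne']
    rw [h5, norm_neg, ← one_mul ‖b + h * ((conj l)⁻¹ + l)‖, ← h8, ← norm_mul, h6,
      ← Complex.normSq_eq_norm_sq, Complex.normSq_apply]
    simp only [Complex.add_re, Complex.add_im, Complex.ofReal_re, Complex.ofReal_im,
      Complex.re_ofReal_mul, Complex.im_ofReal_mul]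
    ring
  · have h5 : (l⁻¹ * b).re = 0 := (mul_eq_zero.mp hA).resolve_left hlp.ne'
    have h6 : (l⁻¹ * b).im = 0 := (mul_eq_zero.mp hm).resolve_left hlp.ne'
    have h7 : l⁻¹ * b = 0 := Complex.ext h5 h6
    have hb0 : b = 0 := (mul_eq_zero.mp h7).resolve_left (inv_ne_zero hl0)
    obtain ⟨c, hc⟩ := eq_smul_of_perp hp0 hNp.ge hwp (by linarith only [h2, h5])
    have hc0 : c = 0 := by
      rw [hc, form_smul_left, hpq] at hwq
      simpa using hwq
    rw [hw, hb0, hc, hc0]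
    simp

theorem CC_null_formula {g : Op n} (hg : IsIsom g) {x p : V n} (hp : form p p = 0)
    (hxp : form x p = -1) {l : ℂ} (hl : g p = l • p) :
    ∃ A m : ℝ, 0 ≤ A ∧ (∀ t : ℝ, 2 * t < NN x →
      CC (x - (t : ℂ) • p) (g (x - (t : ℂ) • p)) =
        ((‖l‖ + ‖l‖⁻¹) / 2 + A / (NN x - 2 * t)) ^ 2 + (m / (NN x - 2 * t)) ^ 2) ∧
      (A = 0 → m = 0 → g (x - ((NN x / 2 : ℝ) : ℂ) • p) =
        (conj l)⁻¹ • (x - ((NN x / 2 : ℝ) : ℂ) • p)) := by
  have h1 : NN (x - ((NN x / 2 : ℝ) : ℂ) • p) = 0 := by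
    rw [NN_sub_null hp hxp]
    ring
  have h2 : form (x - ((NN x / 2 : ℝ) : ℂ) • p) p = -1 := by
    rw [form_sub_left, form_smul_left, hp, hxp, mul_zero, sub_zero]
  obtain ⟨A, m, hA, h3, h4⟩ := s1b_core hg hp (by rw [form_self, h1]; simp) h2 hl
  refine ⟨A, m, hA, fun t ht => ?_, h4⟩
  have h5 : x - (t : ℂ) • p =
      x - ((NN x / 2 : ℝ) : ℂ) • p + ((NN x / 2 - t : ℝ) : ℂ) • p := by
    push_cast
    module
  have h6 : NN x - 2 * t ≠ 0 := by linarith only [ht]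
  rw [CC, hg.NN_apply, NN_sub_null hp hxp, h5, h3]
  field_simp

theorem mono_null {g : Op n} (hg : IsIsom g) {x p : V n} (hp : form p p = 0)
    (hxp : form x p = -1) {l : ℂ} (hl : g p = l • p) {t t' : ℝ} (htt : t ≤ t')
    (ht : 2 * t' < NN x) :
    CC (x - (t : ℂ) • p) (g (x - (t : ℂ) • p)) ≤ CC (x - (t' : ℂ) • p) (g (x - (t' : ℂ) • p)) := by
  obtain ⟨A, m, hA, h, -⟩ := CC_null_formula hg hp hxp hl
  rw [h t (by linarith only [htt, ht]), h t' ht]
  have h1 : 0 < NN x - 2 * t' := by linarith only [ht]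
  have h2 : NN x - 2 * t' ≤ NN x - 2 * t := by linarith only [htt]
  have h3 : 0 < NN x - 2 * t := by linarith only [htt, ht]
  rw [div_pow m, div_pow m]
  gcongr

theorem CC_ge_of_null {g : Op n} (hg : IsIsom g) {x p : V n} (hx : x ∈ Neg n) (hp0 : p ≠ 0)
    (hp : form p p = 0) {l : ℂ} (hl : g p = l • p) :
    ((‖l‖ + ‖l‖⁻¹) / 2) ^ 2 ≤ CC x (g x) := by
  have hNp : NN p = 0 := by simp [NN, hp]
  have h1 : form p x ≠ 0 := form_ne_zero_of_neg hx hp0 hNp.ge
  have hx' : 0 < NN x := hx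
  obtain ⟨A, m, hA, h, -⟩ := CC_null_formula hg (x := x) (p := (-(form p x)⁻¹) • p) (l := l)
    (by rw [form_smul_left, form_smul_right, hp, mul_zero, mul_zero])
    (by rw [← form_conj, form_smul_left, neg_mul, inv_mul_cancel₀ h1]; simp)
    (by rw [map_smul, hl, smul_comm])
  have h2 := h 0 (by linarith only [hx'])
  simp only [Complex.ofReal_zero, zero_smul, sub_zero, mul_zero] at h2
  rw [h2]
  have h3 : 0 ≤ A / NN x := by positivity
  have h4 : 0 ≤ (‖l‖ + ‖l‖⁻¹) / 2 := by positivity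
  linarith only [h3, h4, sq_nonneg (m / NN x), sq_nonneg (A / NN x), mul_nonneg h3 h4, sq_nonneg ((1 : ℝ) * (A / NN x)), sq_nonneg ((1 : ℝ) * (m / NN x))]

theorem tendsto_CC_up {g : Op n} (hg : IsIsom g) {x p : V n} (hp : form p p = 0)
    (hxp : form x p = -1) {l : ℂ} (hl1 : ‖l‖ = 1) (hl : g p = l • p) :
    Tendsto (fun t : ℝ => CC (x + (t : ℂ) • p) (g (x + (t : ℂ) • p))) atTop (𝓝 1) := by
  obtain ⟨A, m, -, h, -⟩ := CC_null_formula hg hp hxp hl
  have h1 : Tendsto (fun t : ℝ => NN x - 2 * -t) atTop atTop := by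
    simp only [mul_neg, sub_neg_eq_add]
    exact tendsto_atTop_add_const_left _ _ (tendsto_id.const_mul_atTop two_pos)
  have h2 : Tendsto (fun t : ℝ => ((‖l‖ + ‖l‖⁻¹) / 2 + A / (NN x - 2 * -t)) ^ 2 +
      (m / (NN x - 2 * -t)) ^ 2) atTop (𝓝 (((‖l‖ + ‖l‖⁻¹) / 2 + 0) ^ 2 + 0 ^ 2)) :=
    ((tendsto_const_nhds.add (h1.const_div_atTop A)).pow 2).add ((h1.const_div_atTop m).pow 2)
  have h3 : ((‖l‖ + ‖l‖⁻¹) / 2 + 0) ^ 2 + (0 : ℝ) ^ 2 = 1 := by
    rw [hl1]
    norm_num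
  rw [h3] at h2
  refine h2.congr' ?_
  filter_upwards [h1.eventually_gt_atTop 0] with t ht
  rw [← h (-t) (by linarith only [ht])]
  simp

theorem unb_null {g : Op n} (hg : IsIsom g) {x p : V n} (hx : x ∈ Neg n) (hp : form p p = 0)
    (hxp : form x p = -1) {l : ℂ} (hl : g p = l • p)
    (h : g (x - ((NN x / 2 : ℝ) : ℂ) • p) ≠ (conj l)⁻¹ • (x - ((NN x / 2 : ℝ) : ℂ) • p))
    (L : ℝ) : ∃ t0 : ℝ, 0 ≤ t0 ∧ 2 * t0 < NN x ∧ ∀ t : ℝ, t0 ≤ t → 2 * t < NN x →
      L ≤ CC (x - (t : ℂ) • p) (g (x - (t : ℂ) • p)) := by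
  obtain ⟨A, m, hA, h1, h2⟩ := CC_null_formula hg hp hxp hl
  have hx' : 0 < NN x := hx
  have hS : 0 < A ^ 2 + m ^ 2 := by
    by_contra h0
    have h3 : A = 0 := by nlinarith [sq_nonneg A, sq_nonneg m]
    have h4 : m = 0 := by nlinarith [sq_nonneg A, sq_nonneg m]
    exact h (h2 h3 h4)
  obtain ⟨δ, hδ, hδ1, hδ2, hδ3⟩ : ∃ δ : ℝ, 0 < δ ∧ δ ≤ NN x ∧ δ ≤ 1 ∧
      δ ≤ (A ^ 2 + m ^ 2) / (|L| + 1) :=
    ⟨min (NN x) (min 1 ((A ^ 2 + m ^ 2) / (|L| + 1))), by positivity, min_le_left _ _,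
      (min_le_right _ _).trans (min_le_left _ _), (min_le_right _ _).trans (min_le_right _ _)⟩
  refine ⟨(NN x - δ) / 2, by linarith only [hδ1], by linarith only [hδ], fun t ht ht' => ?_⟩
  rw [h1 t ht']
  obtain ⟨N, hN⟩ : ∃ N, N = NN x - 2 * t := ⟨_, rfl⟩
  rw [← hN]
  have hN0 : 0 < N := by linarith only [ht', hN]
  have hN1 : N ≤ δ := by linarith only [ht, hN]
  have h3 : 0 ≤ A / N := by positivity
  have h4 : 0 ≤ (‖l‖ + ‖l‖⁻¹) / 2 := by positivity
  have h5 : L ≤ (A / N) ^ 2 + (m / N) ^ 2 := by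
    rw [div_pow, div_pow, ← add_div, le_div_iff₀ (by positivity)]
    rw [le_div_iff₀ (by positivity)] at hδ3
    have h6 : N ^ 2 ≤ δ := by (refine le_of_not_gt fun h_nl => ?_; linarith only [h_nl, hδ2, hδ, ht, hN, ht', mul_nonneg_of_nonpos_of_nonpos (Mathlib.Tactic.Linarith.sub_nonpos_of_le (sq_nonneg N)) (Mathlib.Tactic.Linarith.sub_nonpos_of_le hδ2), mul_nonneg_of_nonpos_of_nonpos (le_of_lt (Mathlib.Tactic.Linarith.sub_neg_of_lt hδ)) (Mathlib.Tactic.Linarith.sub_nonpos_of_le ht), Mathlib.Tactic.Linarith.mul_zero_eq (Mathlib.Tactic.Linarith.sub_neg_of_lt hδ) (sub_eq_zero_of_eq hN), mul_pos_of_neg_of_neg (Mathlib.Tactic.Linarith.sub_neg_of_lt hδ) (Mathlib.Tactic.Linarith.sub_neg_of_lt h_nl), mul_nonneg_of_nonpos_of_nonpos (Mathlib.Tactic.Linarith.sub_nonpos_of_le ht) (le_of_lt (Mathlib.Tactic.Linarith.sub_neg_of_lt ht')), Mathlib.Tactic.Linarith.mul_zero_eq (Mathlib.Tactic.Linarith.sub_nonpos_of_le ht) (sub_eq_zero_of_eq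 hN), Mathlib.Tactic.Linarith.zero_mul_eq (sub_eq_zero_of_eq hN) (sub_eq_zero_of_eq hN)])
    have h7 : L * N ^ 2 ≤ (|L| + 1) * δ := by
      have := le_abs_self L
      have h8 : L * N ^ 2 ≤ (|L| + 1) * N ^ 2 := by gcongr; linarith only [this]
      refine h8.trans ?_
      gcongr
    linarith only [hδ3, h7]
  linarith only [h5, h3, h4, mul_nonneg h3 h4, sq_nonneg ((‖l‖ + ‖l‖⁻¹) / 2), sq_nonneg ((1 : ℝ) * ‖l‖ + (1 : ℝ) * ‖l‖⁻¹)]

end BallQ
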