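import Pool.Agent.Work.MP_72250f_ag.B4a

-- merged part: Pool.Agent.Work.MP_72250f_ag.B4b
section
/-!
Hilbert-Schmidt estimates. hs_sub_one: for an isometry g, the squared norm of g (bas i) is
+-1 + 2 |co (g (bas i)) none|^2, and the sum over i of |co (g (bas i)) none|^2 is the squared norm of g^-1 oo,
that is 2 |co (g oo) none|^2 - 1 (form_left); cross term -2 Re tr g. uu at oo is hs (c g - 1) for the unit c with
c tr g = |tr g|. All statements at x follow by conjugating with exists_isom (uu_cnj, uu_smul_right).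
hs is the squared norm of the vector (T (bas i))_i; hs T = hs (adjoint T) gives hs_mul_right.
norm_isom_le: |g v|^2 = -NN v + 2 |<v, g^-1 oo>|^2, split v = a oo + v'. uu_comm: replace g, d by the best unit
multiples; [g,d] - 1 = ((g-1)(d-1) - (d-1)(g-1)) g^-1 d^-1, operator norms at most 1.1, hs (g^-1 - 1) = hs (g - 1).
comm_scalar_on: an eigenvalue l of g on W gives eigenvalues c^j l (eigenvectors d^j v), all within 1/10 of a fixed unit
(uu_near), so a = sup |c^j - 1| <= 1/4 satisfies a >= a (2 - a).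
-/

open scoped ComplexConjugate ENNReal Topology
open MeasureTheory Filter

noncomputable section

namespace BallQ

variable {n : ℕ}

theorem b4b_ne {c : ℂ} (hc : ‖c‖ = 1) : c ≠ 0 := by
  rintro rfl
  simp at hc

theorem b4b_cnj_cnj (h : GG n) (g : Op n) : cnj h (cnj h⁻¹ g) = g := by
  rw [← cnj_mul, mul_inv_cancel, cnj_one]

theorem b4b_cnj_apply (h : GG n) (g : Op n) (v : V n) :
    cnj h g ((h : Op n) v) = (h : Op n) (g v) := by
  rw [cnj_apply, inv_apply_apply]

theorem kappa_cnj (h : GG n) (g : Op n) : kappa (cnj h g) = kappa g := by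
  rw [kappa, kappa, tr_cnj]

theorem kappa_smul {c : ℂ} (hc : ‖c‖ = 1) (g : Op n) : kappa (c • g) = kappa g := by
  rw [kappa, kappa, tr_smul, norm_mul, hc, one_mul]

theorem uu_cnj {h : GG n} (hh : IsIsom (h : Op n)) (g : Op n) (x : V n) :
    uu (cnj h g) ((h : Op n) x) = uu g x := by
  rw [uu, uu, kappa_cnj, b4b_cnj_apply, hh.CC_apply]

theorem uu_smul_left {c : ℂ} (hc : ‖c‖ = 1) (g : Op n) (x : V n) : uu (c • g) x = uu g x := by
  rw [uu, uu, kappa_smul hc, smul_apply, CC_smul_right (b4b_ne hc)]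

theorem uu_smul_right {c : ℂ} (hc : c ≠ 0) (g : Op n) (x : V n) : uu g (c • x) = uu g x := by
  rw [uu, uu, map_smul, CC_smul_left hc, CC_smul_right hc]

theorem uu_inv {g : GG n} (hg : IsIsom (g : Op n)) (x : V n) :
    uu ((g⁻¹ : GG n) : Op n) x = uu (g : Op n) x := by
  rw [uu, uu, kappa, kappa, hg.tr_inv, Complex.norm_conj, b4a_CC_inv hg]

/-- Reduction to the base point. -/
theorem b4b_red {x : V n} (hx : x ∈ Neg n) :
    ∃ h : GG n, IsIsom (h : Op n) ∧ (∀ g : Op n, uu g x = uu (cnj h⁻¹ g) (oo n)) ∧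
      (∀ g : Op n, CC x (g x) = CC (oo n) (cnj h⁻¹ g (oo n))) ∧
      ∀ v, qq x ((h : Op n) v) = ‖v‖ ^ 2 := by
  obtain ⟨h, hh, c, hc, rfl⟩ := exists_isom hx
  refine ⟨h, hh, fun g => ?_, fun g => ?_, fun v => ?_⟩
  · rw [uu_smul_right hc, ← uu_cnj hh (cnj h⁻¹ g), b4b_cnj_cnj]
  · rw [map_smul, CC_smul_left hc, CC_smul_right hc, ← hh.CC_apply (oo n), ← b4b_cnj_apply,
      b4b_cnj_cnj]
  · rw [qq_smul hc, hh.qq_apply, qq_oo]

theorem uu_nonneg {g : Op n} (hg : IsIsom g) {x : V n} (hx : x ∈ Neg n) : 0 ≤ uu g x := by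
  obtain ⟨h, hh, h1, -, -⟩ := b4b_red hx
  obtain ⟨c, -, hc⟩ := exists_hs_eq_uu (hh.inv.cnj hg)
  rw [h1, ← hc]
  exact hs_nonneg _

theorem isScalar_iff_uu {g : Op n} (hg : IsIsom g) {x : V n} (hx : x ∈ Neg n) :
    IsScalar g ↔ uu g x = 0 := by
  constructor
  · rintro ⟨c, rfl⟩
    have hc : ‖c‖ = 1 := eig_norm_one hg (ne_of_gt hx) (c := c) rfl
    rw [uu_smul_left hc, uu, kappa, tr_one, one_apply_eq_self, CC_self hx]
    have : ‖(n : ℂ) + 1‖ = (n : ℝ) + 1 := by
      have := Complex.norm_natCast (n + 1)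
      push_cast at this
      exact this
    rw [this]
    ring
  · intro h0
    obtain ⟨h, hh, h1, -, -⟩ := b4b_red hx
    obtain ⟨c, hc, hc'⟩ := exists_hs_eq_uu (hh.inv.cnj hg)
    rw [← h1, h0] at hc'
    have h2 : ‖c • cnj h⁻¹ g - 1‖ ^ 2 ≤ 0 := hc' ▸ norm_sq_le_hs _
    have h3 : c • cnj h⁻¹ g = 1 :=
      sub_eq_zero.mp (norm_eq_zero.mp (pow_eq_zero_iff two_ne_zero |>.mp
        (le_antisymm h2 (sq_nonneg _))))
    have h4 : cnj h⁻¹ g = c⁻¹ • (1 : Op n) := by
      rw [← h3, smul_smul, inv_mul_cancel₀ (b4b_ne hc), one_smul]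
    refine ⟨c⁻¹, ?_⟩
    rw [← b4b_cnj_cnj h g, h4, cnj_smul]
    simp [cnj]

theorem kappa_le_uu {g : Op n} (hg : IsIsom g) {x : V n} (hx : x ∈ Neg n) : kappa g ≤ uu g x := by
  have := one_le_CC hx (hg.mem_Neg.mpr hx)
  rw [uu]
  linarith only [this]

theorem uu_of_eig {g : Op n} (hg : IsIsom g) {y : V n} (hy : y ∈ Neg n) {c : ℂ}
    (h : g y = c • y) : uu g y = kappa g := by
  have hc : ‖c‖ = 1 := eig_norm_one hg (ne_of_gt hy) h
  rw [uu, h, CC_smul_right (b4b_ne hc), CC_self hy]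
  ring

theorem uu_near {g : Op n} (hg : IsIsom g) {x : V n} (hx : x ∈ Neg n) :
    ∃ c : ℂ, ‖c‖ = 1 ∧ ∀ v, qq x (c • g v - v) ≤ uu g x * qq x v := by
  obtain ⟨h, hh, h1, -, h3⟩ := b4b_red hx
  obtain ⟨c, hc, hc'⟩ := exists_hs_eq_uu (hh.inv.cnj hg)
  refine ⟨c, hc, fun v => ?_⟩
  obtain ⟨w, rfl⟩ : ∃ w, v = (h : Op n) w := ⟨_, (apply_inv_apply h v).symm⟩
  have e : c • g ((h : Op n) w) - (h : Op n) w = (h : Op n) ((c • cnj h⁻¹ g - 1) w) := by
    conv_lhs => rw [← b4b_cnj_cnj h g, b4b_cnj_apply]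
    rw [← map_smul, ← map_sub]
    rfl
  rw [e, h3, h3, h1, ← hc']
  calc ‖(c • cnj h⁻¹ g - 1) w‖ ^ 2 ≤ (‖c • cnj h⁻¹ g - 1‖ * ‖w‖) ^ 2 := by
        gcongr
        exact ContinuousLinearMap.le_opNorm _ _
    _ ≤ hs (c • cnj h⁻¹ g - 1) * ‖w‖ ^ 2 := by
        rw [mul_pow]
        gcongr
        exact norm_sq_le_hs _

theorem b4b_norm_le (T : Op n) : ‖T‖ ≤ 1 + √(hs (T - 1)) := by
  have h1 : ‖T - 1‖ ≤ √(hs (T - 1)) := Real.le_sqrt_of_sq_le (norm_sq_le_hs _)
  have h2 : ‖T‖ ≤ ‖(1 : Op n)‖ + ‖T - 1‖ := by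
    have := norm_add_le (1 : Op n) (T - 1)
    rwa [add_sub_cancel] at this
  have h3 : ‖(1 : Op n)‖ ≤ 1 := ContinuousLinearMap.norm_id_le
  linarith only [h1, h2, h3]

theorem CC_le_of_uu {g : Op n} (hg : IsIsom g) {x : V n} (hx : x ∈ Neg n) :
    CC x (g x) ≤ (1 + √(uu g x)) ^ 2 := by
  obtain ⟨h, hh, h1, h2, -⟩ := b4b_red hx
  obtain ⟨c, hc, hc'⟩ := exists_hs_eq_uu (hh.inv.cnj hg)
  have h4 := CC_oo_le_norm ((hh.inv.cnj hg).smul hc)
  rw [smul_apply, CC_smul_right (b4b_ne hc)] at h4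
  rw [h2, h1, ← hc']
  refine h4.trans ?_
  gcongr
  exact b4b_norm_le _

theorem continuousOn_uu {g : Op n} (hg : IsIsom g) : ContinuousOn (uu g) (Neg n) := by
  have h1 : ContinuousOn (fun x : V n => CC x (g x)) (Neg n) :=
    continuousOn_CC.comp (f := fun x : V n => (x, g x))
      (continuous_id.prodMk g.continuous).continuousOn
      fun x hx => ⟨hx, hg.mem_Neg.mpr hx⟩
  exact continuousOn_const.add (continuousOn_const.mul (h1.sub continuousOn_const))

end BallQ
end
end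

-- merged part: Pool.Agent.Work.MP_72250f_ag.B4
section
/-!
Hilbert-Schmidt estimates. hs_sub_one: for an isometry g, the squared norm of g (bas i) is
+-1 + 2 |co (g (bas i)) none|^2, and the sum over i of |co (g (bas i)) none|^2 is the squared norm of g^-1 oo,
that is 2 |co (g oo) none|^2 - 1 (form_left); cross term -2 Re tr g. uu at oo is hs (c g - 1) for the unit c with
c tr g = |tr g|. All statements at x follow by conjugating with exists_isom (uu_cnj, uu_smul_right).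
hs is the squared norm of the vector (T (bas i))_i; hs T = hs (adjoint T) gives hs_mul_right.
norm_isom_le: |g v|^2 = -NN v + 2 |<v, g^-1 oo>|^2, split v = a oo + v'. uu_comm: replace g, d by the best unit
multiples; [g,d] - 1 = ((g-1)(d-1) - (d-1)(g-1)) g^-1 d^-1, operator norms at most 1.1, hs (g^-1 - 1) = hs (g - 1).
comm_scalar_on: an eigenvalue l of g on W gives eigenvalues c^j l (eigenvectors d^j v), all within 1/10 of a fixed unit
(uu_near), so a = sup |c^j - 1| <= 1/4 satisfies a >= a (2 - a).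
-/

open scoped ComplexConjugate ENNReal Topology
open MeasureTheory Filter

noncomputable section

namespace BallQ

variable {n : ℕ}

theorem b4_hs_inv {g : GG n} (hg : IsIsom (g : Op n)) :
    hs (((g⁻¹ : GG n) : Op n) - 1) = hs ((g : Op n) - 1) := by
  rw [hs_sub_one hg.inv, hs_sub_one hg, hg.tr_inv, Complex.conj_re, b4a_CC_inv hg]

theorem b4_hs_mul (A B : Op n) : √(hs (A * B)) ≤ √(hs A * hs B) :=
  Real.sqrt_le_sqrt ((hs_mul_left A B).trans
    (mul_le_mul_of_nonneg_right (norm_sq_le_hs A) (hs_nonneg B)))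

theorem b4_hs_comm (A B : Op n) : hs (A * B - B * A) ≤ 4 * (hs A * hs B) := by
  have h1 := sqrt_hs_add (A * B) ((-1 : ℂ) • (B * A))
  rw [hs_smul, norm_neg, norm_one, one_pow, one_mul, neg_one_smul, ← sub_eq_add_neg] at h1
  have h2 := b4_hs_mul A B
  have h3 := b4_hs_mul B A
  rw [mul_comm (hs B)] at h3
  have h4 : 0 ≤ hs A * hs B := mul_nonneg (hs_nonneg _) (hs_nonneg _)
  have h5 : √(hs (A * B - B * A)) ≤ 2 * √(hs A * hs B) := by linarith only [h1, h2, h3]
  calc hs (A * B - B * A) = √(hs (A * B - B * A)) ^ 2 := (Real.sq_sqrt (hs_nonneg _)).symm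
    _ ≤ (2 * √(hs A * hs B)) ^ 2 := by gcongr
    _ = 4 * (hs A * hs B) := by
      rw [mul_pow, Real.sq_sqrt h4]
      norm_num

theorem b4_norm_inv {g : GG n} (hg : IsIsom (g : Op n)) (h : hs ((g : Op n) - 1) ≤ eps) :
    ‖((g⁻¹ : GG n) : Op n)‖ ≤ 11 / 10 := by
  have h1 := b4b_norm_le ((g⁻¹ : GG n) : Op n)
  rw [b4_hs_inv hg] at h1
  have h2 : √(hs ((g : Op n) - 1)) ≤ 1 / 10 := by
    refine Real.sqrt_le_iff.mpr ⟨by norm_num, h.trans ?_⟩
    norm_num [eps]
  linarith only [h1, h2]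

theorem b4_core {g d : GG n} (hg : IsIsom (g : Op n)) (hd : IsIsom (d : Op n))
    (h1 : hs ((g : Op n) - 1) ≤ eps) (h2 : hs ((d : Op n) - 1) ≤ eps) :
    hs (((g * d * g⁻¹ * d⁻¹ : GG n) : Op n) - 1) ≤
      6 * hs ((g : Op n) - 1) * hs ((d : Op n) - 1) := by
  have e : ((g * d * g⁻¹ * d⁻¹ : GG n) : Op n) - 1 =
      (((g : Op n) - 1) * ((d : Op n) - 1) - ((d : Op n) - 1) * ((g : Op n) - 1)) *
        ((g⁻¹ : GG n) : Op n) * ((d⁻¹ : GG n) : Op n) := by
    have : ((g : Op n) - 1) * ((d : Op n) - 1) - ((d : Op n) - 1) * ((g : Op n) - 1) =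
        (g : Op n) * (d : Op n) - (d : Op n) * (g : Op n) := by noncomm_ring
    rw [this, sub_mul, sub_mul, Units.mul_inv_cancel_right, Units.mul_inv]
    simp only [Units.val_mul]
  have a1 := b4_norm_inv hg h1
  have a2 := b4_norm_inv hd h2
  have a3 := b4_hs_comm ((g : Op n) - 1) ((d : Op n) - 1)
  have a4 : 0 ≤ hs ((g : Op n) - 1) * hs ((d : Op n) - 1) :=
    mul_nonneg (hs_nonneg _) (hs_nonneg _)
  rw [e]
  set K := ((g : Op n) - 1) * ((d : Op n) - 1) - ((d : Op n) - 1) * ((g : Op n) - 1)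
  calc hs (K * ((g⁻¹ : GG n) : Op n) * ((d⁻¹ : GG n) : Op n))
      ≤ hs (K * ((g⁻¹ : GG n) : Op n)) * ‖((d⁻¹ : GG n) : Op n)‖ ^ 2 := hs_mul_right _ _
    _ ≤ (hs K * ‖((g⁻¹ : GG n) : Op n)‖ ^ 2) * ‖((d⁻¹ : GG n) : Op n)‖ ^ 2 := by
        gcongr
        exact hs_mul_right _ _
    _ ≤ (4 * (hs ((g : Op n) - 1) * hs ((d : Op n) - 1)) * (11 / 10) ^ 2) * (11 / 10) ^ 2 := by
        gcongr
    _ ≤ 6 * hs ((g : Op n) - 1) * hs ((d : Op n) - 1) := by linarith only [a4]

/-- A unit multiple of a unit. -/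
def b4_sm (c : ℂ) (hc : c ≠ 0) (g : GG n) : GG n :=
  ⟨c • (g : Op n), c⁻¹ • ((g⁻¹ : GG n) : Op n),
    by rw [smul_mul_smul_comm, mul_inv_cancel₀ hc, Units.mul_inv, one_smul],
    by rw [smul_mul_smul_comm, inv_mul_cancel₀ hc, Units.inv_mul, one_smul]⟩

theorem b4_sm_comm {c e : ℂ} (hc : c ≠ 0) (he : e ≠ 0) (g d : GG n) :
    ((b4_sm c hc g * b4_sm e he d * (b4_sm c hc g)⁻¹ * (b4_sm e he d)⁻¹ : GG n) : Op n) =
      ((g * d * g⁻¹ * d⁻¹ : GG n) : Op n) := by
  have : ((b4_sm c hc g * b4_sm e he d * (b4_sm c hc g)⁻¹ * (b4_sm e he d)⁻¹ : GG n) : Op n) =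
      (c • (g : Op n)) * (e • (d : Op n)) * (c⁻¹ • ((g⁻¹ : GG n) : Op n)) *
        (e⁻¹ • ((d⁻¹ : GG n) : Op n)) := rfl
  rw [this, smul_mul_smul_comm, smul_mul_smul_comm, smul_mul_smul_comm]
  have h1 : c * e * c⁻¹ * e⁻¹ = 1 := by field_simp
  rw [h1, one_smul]
  simp only [Units.val_mul]

theorem b4_cnj_unit (h g : GG n) : cnj h⁻¹ (g : Op n) = ((h⁻¹ * g * h : GG n) : Op n) := by
  simp [cnj]

theorem uu_comm {g d : GG n} (hg : IsIsom (g : Op n)) (hd : IsIsom (d : Op n)) {x : V n}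
    (hx : x ∈ Neg n) (h1 : uu (g : Op n) x ≤ eps) (h2 : uu (d : Op n) x ≤ eps) :
    uu ((g * d * g⁻¹ * d⁻¹ : GG n) : Op n) x ≤ 6 * uu (g : Op n) x * uu (d : Op n) x := by
  obtain ⟨h, hh, k1, -, -⟩ := b4b_red hx
  have hg' := hh.inv.cnj hg
  have hd' := hh.inv.cnj hd
  rw [k1, b4_cnj_unit] at h1 h2
  rw [k1, k1, k1, b4_cnj_unit, b4_cnj_unit, b4_cnj_unit]
  rw [b4_cnj_unit] at hg' hd'
  obtain ⟨c, hc, hc'⟩ := exists_hs_eq_uu hg'
  obtain ⟨e, he, he'⟩ := exists_hs_eq_uu hd'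
  have hG : IsIsom ((b4_sm c (b4b_ne hc) (h⁻¹ * g * h) : GG n) : Op n) := hg'.smul hc
  have hD : IsIsom ((b4_sm e (b4b_ne he) (h⁻¹ * d * h) : GG n) : Op n) := hd'.smul he
  have key := b4_core hG hD (hc'.trans_le h1) (he'.trans_le h2)
  rw [b4_sm_comm] at key
  have e1 : h⁻¹ * (g * d * g⁻¹ * d⁻¹) * h =
      h⁻¹ * g * h * (h⁻¹ * d * h) * (h⁻¹ * g * h)⁻¹ * (h⁻¹ * d * h)⁻¹ := by group
  rw [e1, ← hc', ← he']
  refine (uu_le_hs ?_).trans key
  simp only [Units.val_mul] at hg' hd' ⊢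
  have i1 := IsIsom.inv (g := h⁻¹ * g * h) (by simpa only [Units.val_mul] using hg')
  have i2 := IsIsom.inv (g := h⁻¹ * d * h) (by simpa only [Units.val_mul] using hd')
  exact ((hg'.mul hd').mul i1).mul i2

theorem b4_norm_sq_le {g : Op n} (hg : IsIsom g) : ‖g‖ ^ 2 ≤ 4 * CC (oo n) (g (oo n)) := by
  have h1 := norm_isom_le hg
  have h0 : 1 ≤ CC (oo n) (g (oo n)) := one_le_CC oo_mem_Neg (hg.mem_Neg.mpr oo_mem_Neg)
  have h2 : √(CC (oo n) (g (oo n)) - 1) ≤ √(CC (oo n) (g (oo n))) :=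
    Real.sqrt_le_sqrt (by linarith only [])
  calc ‖g‖ ^ 2 ≤ (2 * √(CC (oo n) (g (oo n)))) ^ 2 := by
        gcongr
        linarith only [h1, h2]
    _ = 4 * CC (oo n) (g (oo n)) := by
        rw [mul_pow, Real.sq_sqrt (by linarith)]
        norm_num

theorem uu_cnj_le {g : GG n} (hg : IsIsom (g : Op n)) {a : Op n} (ha : IsIsom a) {x : V n}
    (hx : x ∈ Neg n) : uu (cnj g a) x ≤ 16 * CC x ((g : Op n) x) ^ 2 * uu a x := by
  obtain ⟨h, hh, k1, k2, -⟩ := b4b_red hx
  have hg' := hh.inv.cnj hg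
  have ha' := hh.inv.cnj ha
  rw [b4_cnj_unit] at hg'
  obtain ⟨c, hc, hc'⟩ := exists_hs_eq_uu ha'
  have e1 : cnj h⁻¹ (cnj g a) = cnj (h⁻¹ * g * h) (cnj h⁻¹ a) := by
    rw [← cnj_mul, ← cnj_mul, mul_inv_cancel_right]
  rw [k1, k1 a, k2, b4_cnj_unit, e1, ← hc', ← uu_smul_left hc, ← cnj_smul]
  set G := h⁻¹ * g * h
  set A := c • cnj h⁻¹ a with hA
  refine (uu_le_hs (hg'.cnj (ha'.smul hc))).trans ?_
  have e2 : cnj G A - 1 = (G : Op n) * (A - 1) * ((G⁻¹ : GG n) : Op n) := by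
    rw [mul_sub, sub_mul, mul_one, Units.mul_inv]
    rfl
  have a1 := b4_norm_sq_le hg'
  have a2 := b4_norm_sq_le hg'.inv
  rw [b4a_CC_inv hg'] at a2
  have a3 := hs_nonneg (A - 1)
  have a4 : 0 ≤ 4 * CC (oo n) ((G : Op n) (oo n)) := (sq_nonneg _).trans a1
  rw [e2]
  calc hs ((G : Op n) * (A - 1) * ((G⁻¹ : GG n) : Op n))
      ≤ hs ((G : Op n) * (A - 1)) * ‖((G⁻¹ : GG n) : Op n)‖ ^ 2 := hs_mul_right _ _
    _ ≤ (‖(G : Op n)‖ ^ 2 * hs (A - 1)) * ‖((G⁻¹ : GG n) : Op n)‖ ^ 2 := by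
        gcongr
        exact hs_mul_left _ _
    _ ≤ (4 * CC (oo n) ((G : Op n) (oo n)) * hs (A - 1)) *
          (4 * CC (oo n) ((G : Op n) (oo n))) := by gcongr
    _ = 16 * CC (oo n) ((G : Op n) (oo n)) ^ 2 * hs (A - 1) := by ring

theorem b4_qq_smul (x w : V n) (m : ℂ) : qq x (m • w) = ‖m‖ ^ 2 * qq x w := by
  rw [qq, qq, NN_smul, form_smul_left, norm_mul]
  ring

theorem b4_qq_pos {x : V n} (hx : x ∈ Neg n) {w : V n} (hw : w ≠ 0) : 0 < qq x w := by
  obtain ⟨h, -, -, -, k3⟩ := b4b_red hx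
  rw [← apply_inv_apply h w, k3]
  refine pow_pos (norm_pos_iff.mpr fun h0 => hw ?_) 2
  rw [← apply_inv_apply h w, h0, map_zero]

theorem b4_eq_one {c : ℂ} (h : ∀ j : ℕ, ‖c ^ j - 1‖ ≤ 1 / 4) : c = 1 := by
  have h1 : ∀ k : ℕ, (7 / 4 : ℝ) ^ k * ‖c - 1‖ ≤ ‖c ^ (2 ^ k) - 1‖ := by
    intro k
    induction k with
    | zero => simp
    | succ k ih =>
      have e : c ^ (2 ^ (k + 1)) - 1 = (c ^ (2 ^ k) - 1) * (2 + (c ^ (2 ^ k) - 1)) := by
        rw [pow_succ, pow_mul]
        ring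
      have h2 : 7 / 4 ≤ ‖2 + (c ^ (2 ^ k) - 1)‖ := by
        have h3 := norm_sub_le (2 + (c ^ (2 ^ k) - 1)) (c ^ (2 ^ k) - 1)
        rw [add_sub_cancel_right, Complex.norm_two] at h3
        have := h (2 ^ k)
        linarith only [h3, this]
      rw [e, norm_mul, pow_succ, mul_right_comm]
      gcongr
  by_contra hc
  have h0 : 0 < ‖c - 1‖ := norm_pos_iff.mpr (sub_ne_zero.mpr hc)
  obtain ⟨k, hk⟩ := pow_unbounded_of_one_lt (1 / 4 / ‖c - 1‖) (by norm_num : (1 : ℝ) < 7 / 4)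
  rw [div_lt_iff₀ h0] at hk
  have := (h1 k).trans (h _)
  linarith only [hk, this]

theorem comm_scalar_on {g d : GG n} (hg : IsIsom (g : Op n)) {x : V n} (hx : x ∈ Neg n)
    (h1 : uu (g : Op n) x ≤ eps) (W : Submodule ℂ (V n)) (hW0 : W ≠ ⊥)
    (hgW : ∀ v ∈ W, (g : Op n) v ∈ W) (hdW : ∀ v ∈ W, (d : Op n) v ∈ W) {c : ℂ}
    (h : ∀ v ∈ W, ((g * d * g⁻¹ * d⁻¹ : GG n) : Op n) v = c • v) : c = 1 := by
  have hrel : ∀ u ∈ W, (g : Op n) ((d : Op n) u) = c • (d : Op n) ((g : Op n) u) := by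
    intro u hu
    rw [← h _ (hdW _ (hgW u hu))]
    simp only [Units.val_mul, mul_apply_eq_comp, inv_apply_apply]
  have : Nontrivial W := Submodule.nontrivial_iff_ne_bot.mpr hW0
  obtain ⟨l, hl⟩ := Module.End.exists_eigenvalue
    ((((g : Op n) : V n →ₗ[ℂ] V n)).restrict (p := W) (q := W) hgW)
  obtain ⟨v, hv⟩ := hl.exists_hasEigenvector
  have hv0 : (v : V n) ≠ 0 := fun h0 => hv.2 (Subtype.ext h0)
  have hv1 : (g : Op n) v = l • (v : V n) := congrArg Subtype.val hv.apply_eq_smul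
  have hj : ∀ j : ℕ, ∃ w ∈ W, w ≠ 0 ∧ (g : Op n) w = (c ^ j * l) • w := by
    intro j
    induction j with
    | zero => exact ⟨v, v.2, hv0, by simpa using hv1⟩
    | succ j ih =>
      obtain ⟨w, hw, hw0, hw1⟩ := ih
      refine ⟨(d : Op n) w, hdW w hw, fun h0 => hw0 ?_, ?_⟩
      · rw [← inv_apply_apply d w, h0, map_zero]
      · rw [hrel w hw, hw1, map_smul, smul_smul, pow_succ', mul_assoc]
  obtain ⟨e, -, he⟩ := uu_near hg hx
  have hb : ∀ j : ℕ, ‖e * (c ^ j * l) - 1‖ ≤ 1 / 10 := by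
    intro j
    obtain ⟨w, -, hw0, hw1⟩ := hj j
    have h2 := he w
    have h3 := b4_qq_pos hx hw0
    have e1 : e • (g : Op n) w - w = (e * (c ^ j * l) - 1) • w := by
      rw [hw1, smul_smul, sub_smul, one_smul]
    rw [e1, b4_qq_smul] at h2
    have h4 := (le_of_mul_le_mul_right h2 h3).trans h1
    refine (sq_le_sq₀ (norm_nonneg _) (by norm_num)).mp (h4.trans ?_)
    norm_num [eps]
  refine b4_eq_one fun j => ?_
  have h0 := hb 0
  rw [pow_zero, one_mul] at h0
  have h5 : 9 / 10 ≤ ‖e * l‖ := by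
    have := norm_sub_le (e * l) (e * l - 1)
    rw [sub_sub_cancel, norm_one] at this
    linarith only [h0, this]
  have h6 : ‖e * l‖ * ‖c ^ j - 1‖ ≤ 1 / 5 := by
    have e2 : e * l * (c ^ j - 1) = (e * (c ^ j * l) - 1) - (e * l - 1) := by ring
    rw [← norm_mul, e2]
    have := norm_sub_le (e * (c ^ j * l) - 1) (e * l - 1)
    have := hb j
    linarith
  (refine le_of_not_gt fun h_nl => ?_; linarith only [h_nl, h5, h6, norm_nonneg (c ^ j - 1), mul_nonneg_of_nonpos_of_nonpos (Mathlib.Tactic.Linarith.sub_nonpos_of_le h5) (le_of_lt (Mathlib.Tactic.Linarith.sub_neg_of_lt h_nl))])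

end BallQ
end
end

-- merged part: Pool.Agent.Work.MP_72250f_ag.G1a
section
/-!
Flows of generators: formulas. flow_eq: both sides agree on each frame vector (exp A v = exp(l) v when A v = l v,
from NormedSpace.exp_eq_tsum / expSeries and continuity of T |-> T v) and on vectors v orthogonal to all frame vectors
(there A^2 v = 0); every v is a sum of such. det_flow: write the flow as 1 + A B through C^(m+1) and use
Matrix.det_one_add_mul_comm, or as a product of commuting rank one updates with det_one_add_rk1.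
General facts on exp: Commute.exp_right, NormedSpace.exp_units_conj, exp_add_of_commute, hasDerivAt_exp_smul_const.
-/

open scoped ComplexConjugate ENNReal Topology
open MeasureTheory Filter

noncomputable section

namespace BallQ

variable {n : ℕ}

theorem g1a_hasSum (A : Op n) (v : V n) :
    HasSum (fun k : ℕ => ((k.factorial : ℂ)⁻¹) • (A ^ k) v) (NormedSpace.exp A v) := by
  have h := (NormedSpace.exp_series_hasSum_exp' (𝕂 := ℂ) A).mapL
    (ContinuousLinearMap.apply ℂ (V n) v)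
  simpa using h

theorem g1a_exp_eig {A : Op n} {v : V n} {l : ℂ} (h : A v = l • v) :
    NormedSpace.exp A v = Complex.exp l • v := by
  have hp : ∀ k : ℕ, (A ^ k) v = l ^ k • v := by
    intro k
    induction k with
    | zero => simp
    | succ k ih => rw [pow_succ', mul_apply_eq_comp, ih, map_smul, h, smul_smul, pow_succ]
  have h1 := g1a_hasSum A v
  have h2 : HasSum (fun k : ℕ => (l ^ k / k.factorial) • v) (Complex.exp l • v) := by
    rw [Complex.exp_eq_exp_ℂ]
    exact (NormedSpace.expSeries_div_hasSum_exp l).smul_const v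
  refine h1.unique ?_
  convert h2 using 2 with k
  rw [hp, smul_smul, div_eq_inv_mul]

theorem g1a_exp_nil {A : Op n} {v : V n} (h : A (A v) = 0) :
    NormedSpace.exp A v = v + A v := by
  have h1 := g1a_hasSum A v
  have h2 : HasSum (fun k : ℕ => ((k.factorial : ℂ)⁻¹) • (A ^ k) v)
      (∑ k ∈ Finset.range 2, ((k.factorial : ℂ)⁻¹) • (A ^ k) v) := by
    refine hasSum_sum_of_ne_finset_zero fun k hk => ?_
    obtain ⟨j, rfl⟩ : ∃ j, k = j + 2 := ⟨k - 2, by simp at hk; omega⟩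
    rw [pow_add, mul_apply_eq_comp, sq, mul_apply_eq_comp, h, map_zero, smul_zero]
  rw [h1.unique h2]
  simp [Finset.sum_range_succ]

theorem Frame.op_apply (F : Frame n) (v : V n) :
    F.op v = ∑ i, ((F.w i : ℂ) * form v (F.e i)) • F.e i + form v F.p • F.p := by
  simp only [Frame.op, add_apply, sum_apply, smul_apply, rk1_apply, smul_smul]

theorem g1a_ep (F : Frame n) (i : Fin F.m) : form (F.e i) F.p = 0 :=
  form_eq_zero_comm.mp (F.pe i)

theorem g1a_form_sum (F : Frame n) (c : Fin F.m → ℂ) (j : Fin F.m) :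
    form (∑ i, c i • F.e i) (F.e j) = c j := by
  rw [form_sum_left]
  simp [form_smul_left, F.on]

theorem g1a_form_sum_p (F : Frame n) (c : Fin F.m → ℂ) : form (∑ i, c i • F.e i) F.p = 0 := by
  rw [form_sum_left]
  simp [form_smul_left, g1a_ep]

theorem g1a_op_e (F : Frame n) (j : Fin F.m) : F.op (F.e j) = (F.w j : ℂ) • F.e j := by
  rw [F.op_apply, g1a_ep]
  simp [F.on]

theorem g1a_op_p (F : Frame n) : F.op F.p = 0 := by
  rw [F.op_apply, F.pp]
  simp [F.pe]

theorem g1a_perp (F : Frame n) (v : V n) (j : Fin F.m) :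
    form (v - ∑ i, form v (F.e i) • F.e i) (F.e j) = 0 := by
  rw [form_sub_left, g1a_form_sum, sub_self]

theorem g1a_flow_e (F : Frame n) (s : ℂ) (j : Fin F.m) :
    flow F.op s (F.e j) = Complex.exp (2 * Real.pi * Complex.I * s * F.w j) • F.e j := by
  refine g1a_exp_eig ?_
  rw [smul_apply, g1a_op_e, smul_smul]

theorem g1a_flow_perp (F : Frame n) (s : ℂ) {v : V n} (hv : ∀ j, form v (F.e j) = 0) :
    flow F.op s v = v + ((2 * Real.pi * Complex.I * s) * form v F.p) • F.p := by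
  have h1 : F.op v = form v F.p • F.p := by
    rw [F.op_apply]
    simp [hv]
  rw [flow, g1a_exp_nil]
  · rw [smul_apply, h1, smul_smul]
  · rw [smul_apply, smul_apply, h1, map_smul, map_smul, g1a_op_p]
    simp

theorem g1a_flow_apply (F : Frame n) (s : ℂ) (v : V n) :
    flow F.op s v = v + ∑ i, ((Complex.exp (2 * Real.pi * Complex.I * s * F.w i) - 1) *
      form v (F.e i)) • F.e i + ((2 * Real.pi * Complex.I * s) * form v F.p) • F.p := by
  have h0 : flow F.op s v = flow F.op s (v - ∑ i, form v (F.e i) • F.e i) +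
      ∑ i, form v (F.e i) • flow F.op s (F.e i) := by
    rw [map_sub, map_sum]
    simp
  rw [h0, g1a_flow_perp F s (g1a_perp F v), form_sub_left, g1a_form_sum_p, sub_zero]
  simp only [g1a_flow_e, smul_smul, sub_mul, one_mul, sub_smul, Finset.sum_sub_distrib,
    mul_comm (form v _)]
  abel

theorem Frame.flow_eq (F : Frame n) (s : ℂ) :
    flow F.op s = 1 + ∑ i, (Complex.exp (2 * Real.pi * Complex.I * s * F.w i) - 1) •
      rk1 (F.e i) (F.e i) + (2 * Real.pi * Complex.I * s) • rk1 F.p F.p := by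
  ext1 v
  rw [g1a_flow_apply]
  simp [smul_smul]

theorem Frame.form_op (F : Frame n) (v : V n) : form (F.op v) v =
    ((∑ i, F.w i * ‖form v (F.e i)‖ ^ 2 + ‖form v F.p‖ ^ 2 : ℝ) : ℂ) := by
  have h : ∀ a : V n, form v a * form a v = ((‖form v a‖ ^ 2 : ℝ) : ℂ) := by
    intro a
    rw [← form_conj v a, Complex.mul_conj, Complex.normSq_eq_norm_sq]
  rw [F.op_apply, form_add_left, form_sum_left, form_smul_left, h, Complex.ofReal_add,
    Complex.ofReal_sum]
  congr 1
  refine Finset.sum_congr rfl fun i _ => ?_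
  rw [form_smul_left, mul_assoc, h, Complex.ofReal_mul]

theorem Frame.age_eq (F : Frame n) : tr F.op = ((∑ i, F.w i : ℝ) : ℂ) := by
  rw [Frame.op, tr_add, tr_sum, tr_rk1, F.pp, add_zero, Complex.ofReal_sum]
  refine Finset.sum_congr rfl fun i _ => ?_
  rw [tr_smul, tr_rk1, F.on, if_pos rfl, mul_one]

/-- The span of the frame vectors is positive definite. -/
theorem Frame.pos (F : Frame n) (c : Fin F.m → ℂ) :
    NN (∑ i, c i • F.e i) = -∑ i, ‖c i‖ ^ 2 := by
  rw [NN, form_sum_right, Complex.re_sum]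
  congr 1
  refine Finset.sum_congr rfl fun i _ => ?_
  rw [form_smul_right, g1a_form_sum, mul_comm, Complex.mul_conj, Complex.normSq_eq_norm_sq,
    Complex.ofReal_re]

theorem Frame.exists_neg (F : Frame n) : ∃ x ∈ Neg n, ∀ i, form x (F.e i) = 0 := by
  refine ⟨oo n - ∑ i, form (oo n) (F.e i) • F.e i, ?_, g1a_perp F _⟩
  have h1 := NN_add (oo n - ∑ i, form (oo n) (F.e i) • F.e i) (∑ i, form (oo n) (F.e i) • F.e i)
  rw [sub_add_cancel, NN_oo, F.pos, form_sum_right] at h1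
  simp only [form_smul_right, g1a_perp, mul_zero, Finset.sum_const_zero, Complex.zero_re] at h1
  have h2 : 0 ≤ ∑ i, ‖form (oo n) (F.e i)‖ ^ 2 := by positivity
  rw [mem_Neg]
  linarith only [h1, h2]

theorem Frame.m_le (F : Frame n) : F.m ≤ n := by
  obtain ⟨x, hx, hxe⟩ := F.exists_neg
  have hli : LinearIndependent ℂ (fun o : Option (Fin F.m) => Option.elim o x F.e) := by
    rw [Fintype.linearIndependent_iff]
    intro g hg
    rw [Fintype.sum_option] at hg
    simp only [Option.elim] at hg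
    have h1 : ∀ j, g (some j) = 0 := by
      intro j
      have := congrArg (fun u => form u (F.e j)) hg
      simp only [form_add_left, form_smul_left, hxe, g1a_form_sum, form_zero_left] at this
      simpa using this
    intro o
    cases o with
    | none =>
      simp only [h1, zero_smul, Finset.sum_const_zero, add_zero] at hg
      exact (smul_eq_zero.mp hg).resolve_right (ne_zero_of_mem_Neg hx)
    | some j => exact h1 j
  have := hli.fintype_card_le_finrank
  rw [finrank_V] at this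
  simpa using this

end BallQ
end
end

-- merged part: Pool.Agent.Work.MP_72250f_ag.G1
section
/-!
Flows of generators: formulas. flow_eq: both sides agree on each frame vector (exp A v = exp(l) v when A v = l v,
from NormedSpace.exp_eq_tsum / expSeries and continuity of T |-> T v) and on vectors v orthogonal to all frame vectors
(there A^2 v = 0); every v is a sum of such. det_flow: write the flow as 1 + A B through C^(m+1) and use
Matrix.det_one_add_mul_comm, or as a product of commuting rank one updates with det_one_add_rk1.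
General facts on exp: Commute.exp_right, NormedSpace.exp_units_conj, exp_add_of_commute, hasDerivAt_exp_smul_const.
-/

open scoped ComplexConjugate ENNReal Topology
open MeasureTheory Filter

noncomputable section

namespace BallQ

variable {n : ℕ}

/-- Frame with one vector. -/
def g1_one {e : V n} (he : form e e = 1) (w : ℝ) (h0 : 0 ≤ w) (h1 : w ≤ 1) : Frame n where
  m := 1
  e := fun _ => e
  w := fun _ => w
  p := 0
  on := fun i j => by rw [he, if_pos (Subsingleton.elim i j)]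
  pp := by simp
  pe := fun _ => by simp
  w0 := fun _ => h0
  w1 := fun _ => h1

/-- Frame with only a null vector. -/
def g1_null {p : V n} (hp : form p p = 0) : Frame n where
  m := 0
  e := fun i => i.elim0
  w := fun i => i.elim0
  p := p
  on := fun i => i.elim0
  pp := hp
  pe := fun i => i.elim0
  w0 := fun i => i.elim0
  w1 := fun i => i.elim0

theorem g1_rk1_zero : rk1 (0 : V n) 0 = 0 := rk1_eq_zero.mpr rfl

theorem g1_one_op {e : V n} (he : form e e = 1) (w : ℝ) (h0 : 0 ≤ w) (h1 : w ≤ 1) :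
    (g1_one he w h0 h1).op = (w : ℂ) • rk1 e e := by
  change ∑ _i : Fin 1, (w : ℂ) • rk1 e e + rk1 (0 : V n) 0 = _
  rw [g1_rk1_zero, add_zero, Fin.sum_univ_one]

theorem g1_null_op {p : V n} (hp : form p p = 0) : (g1_null hp).op = rk1 p p := by
  change ∑ i : Fin 0, ((i.elim0 : ℝ) : ℂ) • rk1 (i.elim0 : V n) i.elim0 + rk1 p p = _
  rw [Fin.sum_univ_zero, zero_add]

theorem IsGenLt.isGen {b : ℝ} {M : Op n} (h : IsGenLt b M) : IsGen M := by
  obtain ⟨F, -, hF⟩ := h
  exact ⟨F, hF⟩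

theorem IsGenLt.mono {b b' : ℝ} {M : Op n} (h : IsGenLt b M) (hb : b ≤ b') : IsGenLt b' M := by
  obtain ⟨F, hw, hF⟩ := h
  exact ⟨F, fun i => (hw i).trans_le hb, hF⟩

theorem IsRound.isGen {M : Op n} (h : IsRound M) : IsGen M := by
  obtain ⟨F, -, -, hF⟩ := h
  exact ⟨F, hF⟩

theorem IsNull.isGenLt {M : Op n} (h : IsNull M) (b : ℝ) : IsGenLt b M := by
  obtain ⟨p, -, hp, rfl⟩ := h
  exact ⟨g1_null hp, fun i => i.elim0, (g1_null_op hp).symm⟩

theorem IsDir.isGen {M : Op n} (h : IsDir M) : IsGen M := by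
  rcases h with h | h
  · exact h.1.isGen
  · exact (h.isGenLt 1).isGen

theorem isRound_rk1 {e : V n} (he : form e e = 1) : IsRound (rk1 e e) := by
  refine ⟨g1_one he 1 zero_le_one le_rfl, fun _ => rfl, rfl, ?_⟩
  rw [g1_one_op]
  simp

theorem isGenLt_half_rk1 {e : V n} (he : form e e = 1) :
    IsGenLt 1 ((1 / 2 : ℂ) • rk1 e e) := by
  refine ⟨g1_one he (1 / 2) (by norm_num) (by norm_num), fun _ => ?_, ?_⟩
  · change (1 / 2 : ℝ) < 1
    norm_num
  · rw [g1_one_op]
    simp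

theorem flow_half_rk1 {e : V n} (he : form e e = 1) :
    flow ((1 / 2 : ℂ) • rk1 e e) 1 = refl e := by
  have h1 : (1 / 2 : ℂ) • rk1 e e = (g1_one he (1 / 2) (by norm_num) (by norm_num)).op := by
    rw [g1_one_op]
    simp
  rw [h1, Frame.flow_eq]
  change 1 + ∑ _i : Fin 1, (Complex.exp (2 * Real.pi * Complex.I * 1 * ((1 / 2 : ℝ) : ℂ)) - 1) •
    rk1 e e + (2 * Real.pi * Complex.I * 1 : ℂ) • rk1 (0 : V n) 0 = _
  have h2 : (2 * Real.pi * Complex.I * 1 * ((1 / 2 : ℝ) : ℂ) : ℂ) = Real.pi * Complex.I := by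
    push_cast
    ring
  rw [g1_rk1_zero, smul_zero, add_zero, Fin.sum_univ_one, h2, Complex.exp_pi_mul_I, refl,
    sub_eq_add_neg (1 : Op n), ← neg_smul]
  norm_num

theorem IsGen.selfadj {M : Op n} (h : IsGen M) (v w : V n) : form (M v) w = form v (M w) := by
  obtain ⟨F, rfl⟩ := h
  rw [F.op_apply, F.op_apply, form_add_left, form_add_right, form_sum_left, form_sum_right,
    form_smul_left, form_smul_right, form_conj, mul_comm]
  congr 1
  refine Finset.sum_congr rfl fun i _ => ?_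
  rw [form_smul_left, form_smul_right, map_mul, form_conj, Complex.conj_ofReal]
  ring

theorem IsGen.re_nonneg {M : Op n} (h : IsGen M) (v : V n) : 0 ≤ (form (M v) v).re := by
  obtain ⟨F, rfl⟩ := h
  rw [F.form_op, Complex.ofReal_re]
  exact add_nonneg (Finset.sum_nonneg fun i _ => mul_nonneg (F.w0 i) (sq_nonneg _)) (sq_nonneg _)

theorem IsGen.apply_eq_zero {M : Op n} (h : IsGen M) {v : V n} (hv : (form (M v) v).re = 0) :
    M v = 0 := by
  obtain ⟨F, rfl⟩ := h
  rw [F.form_op, Complex.ofReal_re] at hv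
  have h0 : ∀ i ∈ Finset.univ, 0 ≤ F.w i * ‖form v (F.e i)‖ ^ 2 :=
    fun i _ => mul_nonneg (F.w0 i) (sq_nonneg _)
  have h1 := Finset.sum_nonneg h0
  have h2 := sq_nonneg ‖form v F.p‖
  have h3 : ∑ i, F.w i * ‖form v (F.e i)‖ ^ 2 = 0 := by linarith only [h1, hv, h2]
  have h4 : form v F.p = 0 := by
    have : ‖form v F.p‖ ^ 2 = 0 := by linarith only [h2, hv, h1]
    simpa using this
  rw [Finset.sum_eq_zero_iff_of_nonneg h0] at h3
  rw [F.op_apply, h4, zero_smul, add_zero]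
  refine Finset.sum_eq_zero fun i hi => ?_
  rcases mul_eq_zero.mp (h3 i hi) with h5 | h5
  · rw [h5]; simp
  · have : form v (F.e i) = 0 := by simpa using h5
    rw [this]; simp

theorem IsGen.tr_eq {M : Op n} (h : IsGen M) : tr M = (age M : ℂ) := by
  obtain ⟨F, rfl⟩ := h
  rw [age, F.age_eq, Complex.ofReal_re]

theorem IsGen.age_nonneg {M : Op n} (h : IsGen M) : 0 ≤ age M := by
  obtain ⟨F, rfl⟩ := h
  rw [age, F.age_eq, Complex.ofReal_re]
  exact Finset.sum_nonneg fun i _ => F.w0 i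

theorem IsGen.age_le {M : Op n} (h : IsGen M) : age M ≤ n := by
  obtain ⟨F, rfl⟩ := h
  rw [age, F.age_eq, Complex.ofReal_re]
  refine (Finset.sum_le_sum fun i _ => F.w1 i).trans ?_
  simpa using F.m_le

theorem IsNull.age_eq {M : Op n} (h : IsNull M) : tr M = 0 := by
  obtain ⟨p, -, hp, rfl⟩ := h
  rw [tr_rk1, hp]

theorem g1_det_sum (F : Frame n) (c : Fin F.m → ℂ) (T : Finset (Fin F.m)) :
    (1 + ∑ i ∈ T, c i • rk1 (F.e i) (F.e i)).det = ∏ i ∈ T, (1 + c i) := by
  classical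
  induction T using Finset.induction_on with
  | empty => simpa using det_one_add_rk1 0 (0 : V n) 0
  | insert j T hj ih =>
    have h1 : 1 + ∑ i ∈ insert j T, c i • rk1 (F.e i) (F.e i) =
        (1 + c j • rk1 (F.e j) (F.e j)) * (1 + ∑ i ∈ T, c i • rk1 (F.e i) (F.e i)) := by
      have h2 : (c j • rk1 (F.e j) (F.e j)) * ∑ i ∈ T, c i • rk1 (F.e i) (F.e i) = 0 := by
        rw [Finset.mul_sum]
        refine Finset.sum_eq_zero fun i hi => ?_
        have hij : i ≠ j := fun h => hj (h ▸ hi)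
        rw [smul_mul_smul_comm, rk1_mul_rk1, F.on, if_neg hij, zero_smul, smul_zero]
      rw [Finset.sum_insert hj, add_mul, one_mul, mul_add, mul_one, h2]
      abel
    rw [h1, det_mul', det_one_add_rk1, ih, F.on, if_pos rfl, mul_one, Finset.prod_insert hj]

theorem IsGen.det_flow {M : Op n} (h : IsGen M) (s : ℂ) :
    (flow M s).det = Complex.exp (2 * Real.pi * Complex.I * s * tr M) := by
  obtain ⟨F, rfl⟩ := h
  have h1 : flow F.op s = (1 + ∑ i, (Complex.exp (2 * Real.pi * Complex.I * s * F.w i) - 1) •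
      rk1 (F.e i) (F.e i)) * (1 + (2 * Real.pi * Complex.I * s) • rk1 F.p F.p) := by
    rw [F.flow_eq, mul_add, mul_one, add_mul, one_mul, Finset.sum_mul]
    simp [rk1_mul_rk1, F.pe]
  rw [h1, det_mul', det_one_add_rk1, F.pp, mul_zero, add_zero, mul_one, g1_det_sum, F.age_eq,
    Complex.ofReal_sum, Finset.mul_sum, Complex.exp_sum]
  simp

theorem flow_null {p : V n} (hp : form p p = 0) (s : ℂ) :
    flow (rk1 p p) s = 1 + (2 * Real.pi * Complex.I * s) • rk1 p p := by
  rw [← g1_null_op hp, Frame.flow_eq, g1_null_op]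
  congr 1
  rw [add_eq_left]
  exact Finset.sum_eq_zero fun i _ => i.elim0

theorem IsRound.mul_self {P : Op n} (h : IsRound P) : P * P = P := by
  obtain ⟨F, hw, hp, rfl⟩ := h
  ext1 v
  rw [mul_apply_eq_comp]
  conv_lhs => rw [F.op_apply v]
  conv_rhs => rw [F.op_apply v]
  rw [hp, smul_zero, add_zero, map_sum]
  refine Finset.sum_congr rfl fun i _ => ?_
  rw [map_smul, g1a_op_e, hw]
  simp

theorem IsRound.flow_eq {P : Op n} (h : IsRound P) (s : ℂ) :
    flow P s = 1 + (Complex.exp (2 * Real.pi * Complex.I * s) - 1) • P := by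
  obtain ⟨F, hw, hp, rfl⟩ := h
  rw [F.flow_eq, Frame.op, hp, g1_rk1_zero, smul_zero, add_zero, add_zero, Finset.smul_sum]
  simp [hw]

theorem IsRound.pos {P : Op n} (h : IsRound P) (v : V n) (hv : P v ≠ 0) : NN (P v) < 0 := by
  obtain ⟨F, hw, hp, rfl⟩ := h
  rw [F.op_apply, hp, smul_zero, add_zero] at hv ⊢
  rw [F.pos, neg_lt_zero]
  by_contra hle
  apply hv
  have h0 : ∀ i ∈ Finset.univ, 0 ≤ ‖(F.w i : ℂ) * form v (F.e i)‖ ^ 2 := fun i _ => sq_nonneg _
  have h1 := le_antisymm (not_lt.mp hle) (Finset.sum_nonneg h0)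
  rw [Finset.sum_eq_zero_iff_of_nonneg h0] at h1
  refine Finset.sum_eq_zero fun i hi => ?_
  have : (F.w i : ℂ) * form v (F.e i) = 0 := by
    have := h1 i hi
    rwa [sq_eq_zero_iff, norm_eq_zero] at this
  rw [this, zero_smul]

/-- The orthogonal projection on a positive definite subspace is a round generator. -/
theorem exists_round (W : Submodule ℂ (V n)) (hW : ∀ v ∈ W, v ≠ 0 → NN v < 0) :
    ∃ P : Op n, IsRound P ∧ (∀ v, P v ∈ W) ∧ ∀ v ∈ W, P v = v := by
  obtain ⟨m, e, c, he, hon, -, -, hsp⟩ := exists_eigenframe W hW (g := 1) (fun v hv => hv)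
    (fun v _ w _ => rfl)
  let F : Frame n := ⟨m, e, fun _ => 1, 0, hon, by simp, fun _ => by simp, fun _ => zero_le_one,
    fun _ => le_rfl⟩
  have hF : ∀ v, F.op v = ∑ i, form v (e i) • e i := by
    intro v
    rw [F.op_apply]
    simp [F]
  refine ⟨F.op, ⟨F, fun _ => rfl, rfl, rfl⟩, fun v => ?_, fun v hv => ?_⟩
  · rw [hF]
    exact W.sum_mem fun i _ => W.smul_mem _ (he i)
  · rw [hF]
    exact (hsp v hv).symm

theorem commute_flow {T M : Op n} (h : Commute T M) (s : ℂ) : Commute T (flow M s) := by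
  exact (h.smul_right _).exp_right

theorem cnj_flow (g : GG n) (M : Op n) (s : ℂ) : cnj g (flow M s) = flow (cnj g M) s := by
  rw [flow, flow, ← cnj_smul, cnj, cnj, NormedSpace.exp_units_conj]

theorem flow_smul (a : ℂ) (M : Op n) (s : ℂ) : flow (a • M) s = flow M (a * s) := by
  rw [flow, flow, smul_smul]
  congr 2
  ring

theorem flow_add_op {M R : Op n} (h : Commute M R) (s : ℂ) :
    flow (M + R) s = flow M s * flow R s := by
  rw [flow, flow, flow, smul_add]
  exact NormedSpace.exp_add_of_commute ((h.smul_left _).smul_right _)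

theorem flow_apply_of_ker {M : Op n} {v : V n} (h : M v = 0) (s : ℂ) : flow M s v = v := by
  have h1 : ((2 * Real.pi * Complex.I * s : ℂ) • M) v = 0 := by rw [smul_apply, h, smul_zero]
  rw [flow, g1a_exp_nil (by rw [h1, map_zero]), h1, add_zero]

theorem hasDerivAt_flow (M : Op n) (s : ℂ) :
    HasDerivAt (flow M) ((2 * Real.pi * Complex.I : ℂ) • (flow M s * M)) s := by
  have h1 := hasDerivAt_exp_smul_const (𝕂 := ℂ) M (2 * Real.pi * Complex.I * s)
  have h2 : HasDerivAt (fun s : ℂ => 2 * Real.pi * Complex.I * s) (2 * Real.pi * Complex.I) s := by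
    simpa using (hasDerivAt_id s).const_mul (2 * Real.pi * Complex.I : ℂ)
  exact h1.scomp s h2

theorem continuous_flow (M : Op n) : Continuous (flow M) := by
  exact continuous_iff_continuousAt.mpr fun s => (hasDerivAt_flow M s).continuousAt

end BallQ
end
end

-- merged part: Pool.Agent.Work.MP_72250f_ag.G2a
section
/-!
Flows of generators: inequalities. Use Frame.flow_eq. With c_i = <v,e_i>, a = <v,p>, y = Im s:
NN (flow s v) = NN v + sum (1 - exp(-4 pi y w_i)) |c_i|^2 + 4 pi y |a|^2.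
re_flow_le: M' commutes with M, hence preserves each eigenspace of M, the common orthogonal of the e_i with w_i > 0,
and kills the p of M (M' p is a multiple of p; a null eigenvector of a generator is in its kernel); a shorter way:
y |-> <M' f v, f v> has derivative -4 pi <M' M f v, f v>, and M' M is positive semidefinite by the same decomposition.
mu_ball: normalise, y = a x + z with z perp x, -NN z = |a|^2 - 1 <= delta; for a vector e, |<z,e>|^2 <= (-NN z)(<e,e> + |<e,x>|^2)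
(cs_perp); the square root of the psd form v |-> <M v, v> is subadditive.
-/

open scoped ComplexConjugate ENNReal Topology
open MeasureTheory Filter

noncomputable section

namespace BallQ

variable {n : ℕ}

theorem Frame.NN_flow (F : Frame n) (s : ℂ) (v : V n) :
    NN (flow F.op s v) = NN v +
      ∑ i, (1 - Real.exp (-(4 * Real.pi * s.im * F.w i))) * ‖form v (F.e i)‖ ^ 2 +
      4 * Real.pi * s.im * ‖form v F.p‖ ^ 2 := by
  have h1 : ∀ (E c : ℂ), -‖(E - 1) * c‖ ^ 2 - 2 * (conj ((E - 1) * c) * c).re =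
      (1 - ‖E‖ ^ 2) * ‖c‖ ^ 2 := by
    intro E c
    simp only [← Complex.normSq_eq_norm_sq, Complex.normSq_apply, Complex.mul_re, Complex.mul_im,
      Complex.conj_re, Complex.conj_im, Complex.sub_re, Complex.sub_im, Complex.one_re,
      Complex.one_im]
    ring
  have h2 : ∀ i, ‖Complex.exp (2 * Real.pi * Complex.I * s * F.w i)‖ ^ 2 =
      Real.exp (-(4 * Real.pi * s.im * F.w i)) := by
    intro i
    rw [Complex.norm_exp, sq, ← Real.exp_add]
    congr 1
    simp
    ring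
  have h3 : ∀ a : ℂ, (conj (2 * Real.pi * Complex.I * s * a) * a).re =
      -(2 * Real.pi * s.im * ‖a‖ ^ 2) := by
    intro a
    rw [map_mul, mul_assoc, mul_comm (conj a), Complex.mul_conj, Complex.normSq_eq_norm_sq,
      Complex.re_mul_ofReal, Complex.conj_re]
    simp
  have hp : NN F.p = 0 := by rw [NN, F.pp]; simp
  rw [g1a_flow_apply, NN_add, NN_add, F.pos, NN_smul, hp, form_smul_right, form_add_left,
    g1a_form_sum_p, add_zero, h3, form_sum_right, Complex.re_sum]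
  simp only [form_smul_right, ← h2, ← h1, Finset.sum_sub_distrib, Finset.sum_neg_distrib,
    ← Finset.mul_sum]
  ring

theorem g2a_isIsom {g : Op n} (h : ∀ v, NN (g v) = NN v) : IsIsom g := by
  have h1 : ∀ v w, (form (g v) (g w)).re = (form v w).re := by
    intro v w
    have h2 := h (v + w)
    rw [map_add, NN_add, NN_add, h, h] at h2
    linarith only [h2]
  intro v w
  apply Complex.ext (h1 v w)
  have h2 := h1 (Complex.I • v) w
  rw [map_smul, form_smul_left, form_smul_left] at h2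
  simpa using h2

theorem IsGen.isIsom_flow {M : Op n} (h : IsGen M) (x : ℝ) : IsIsom (flow M x) := by
  obtain ⟨F, rfl⟩ := h
  refine g2a_isIsom fun v => ?_
  rw [F.NN_flow]
  simp

theorem IsGen.isIsom_flow_one {M : Op n} (h : IsGen M) : IsIsom (flow M 1) := by
  simpa using h.isIsom_flow 1

theorem IsGen.NN_le_flow {M : Op n} (h : IsGen M) {s : ℂ} (hs : 0 ≤ s.im) (v : V n) :
    NN v ≤ NN (flow M s v) := by
  obtain ⟨F, rfl⟩ := h
  rw [F.NN_flow]
  have h1 : 0 ≤ ∑ i, (1 - Real.exp (-(4 * Real.pi * s.im * F.w i))) * ‖form v (F.e i)‖ ^ 2 := by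
    refine Finset.sum_nonneg fun i _ => mul_nonneg (sub_nonneg.mpr ?_) (sq_nonneg _)
    rw [Real.exp_le_one_iff, neg_nonpos]
    have := F.w0 i
    positivity
  have h2 : 0 ≤ 4 * Real.pi * s.im * ‖form v F.p‖ ^ 2 := by positivity
  linarith only [h1, h2]

theorem IsGen.flow_mem_Neg {M : Op n} (h : IsGen M) {s : ℂ} (hs : 0 ≤ s.im) {v : V n}
    (hv : v ∈ Neg n) : flow M s v ∈ Neg n := by
  exact lt_of_lt_of_le hv (h.NN_le_flow hs v)

theorem IsGen.tendsto_NN_flow {M : Op n} (h : IsGen M) (v : V n) :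
    Tendsto (fun y : ℝ => (NN (flow M (y * Complex.I) v) - NN v) / y) (𝓝[>] 0)
      (𝓝 (4 * Real.pi * (form (M v) v).re)) := by
  obtain ⟨F, rfl⟩ := h
  have hd : HasDerivAt (fun y : ℝ =>
      ∑ i, (1 - Real.exp (-(4 * Real.pi * y * F.w i))) * ‖form v (F.e i)‖ ^ 2 +
        4 * Real.pi * y * ‖form v F.p‖ ^ 2)
      (∑ i, (4 * Real.pi * F.w i) * ‖form v (F.e i)‖ ^ 2 + 4 * Real.pi * ‖form v F.p‖ ^ 2) 0 := by
    refine HasDerivAt.add (HasDerivAt.fun_sum fun i _ => HasDerivAt.mul_const ?_ _) ?_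
    · have h1 : HasDerivAt (fun y : ℝ => -(4 * Real.pi * y * F.w i)) (-(4 * Real.pi * F.w i)) 0 := by
        simpa using (((hasDerivAt_id (0 : ℝ)).const_mul (4 * Real.pi)).mul_const (F.w i)).fun_neg
      simpa using h1.exp.const_sub 1
    · simpa using ((hasDerivAt_id (0 : ℝ)).const_mul (4 * Real.pi)).mul_const (‖form v F.p‖ ^ 2)
  have h2 := hd.tendsto_slope_zero_right
  rw [F.form_op, Complex.ofReal_re, mul_add, Finset.mul_sum]
  simp only [← mul_assoc]
  refine h2.congr fun y => ?_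
  rw [F.NN_flow]
  simp only [zero_add, mul_zero, zero_mul, neg_zero, Real.exp_zero, sub_self,
    Finset.sum_const_zero, add_zero, sub_zero, smul_eq_mul, Complex.mul_im, Complex.ofReal_re,
    Complex.I_im, mul_one, Complex.ofReal_im, Complex.I_re]
  ring

theorem IsNull.NN_flow {M : Op n} (h : IsNull M) (s : ℂ) (v : V n) :
    NN (flow M s v) = NN v + 4 * Real.pi * s.im * (form (M v) v).re := by
  obtain ⟨p, -, hp, rfl⟩ := h
  rw [form_rk1_self, Complex.ofReal_re, ← g1_null_op hp, Frame.NN_flow]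
  congr 1
  rw [add_eq_left]
  exact Finset.sum_eq_zero fun i _ => i.elim0

theorem IsGen.null_eig {M : Op n} (h : IsGen M) {p : V n} (hp : form p p = 0) {c : ℂ}
    (hc : M p = c • p) : M p = 0 := by
  refine h.apply_eq_zero ?_
  rw [hc, form_smul_left, hp]
  simp

end BallQ
end
end

-- merged part: Pool.Agent.Work.MP_72250f_ag.G2b
section
/-!
Flows of generators: inequalities. Use Frame.flow_eq. With c_i = <v,e_i>, a = <v,p>, y = Im s:
NN (flow s v) = NN v + sum (1 - exp(-4 pi y w_i)) |c_i|^2 + 4 pi y |a|^2.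
re_flow_le: M' commutes with M, hence preserves each eigenspace of M, the common orthogonal of the e_i with w_i > 0,
and kills the p of M (M' p is a multiple of p; a null eigenvector of a generator is in its kernel); a shorter way:
y |-> <M' f v, f v> has derivative -4 pi <M' M f v, f v>, and M' M is positive semidefinite by the same decomposition.
mu_ball: normalise, y = a x + z with z perp x, -NN z = |a|^2 - 1 <= delta; for a vector e, |<z,e>|^2 <= (-NN z)(<e,e> + |<e,x>|^2)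
(cs_perp); the square root of the psd form v |-> <M v, v> is subadditive.
-/

open scoped ComplexConjugate ENNReal Topology
open MeasureTheory Filter

noncomputable section

namespace BallQ

variable {n : ℕ}

theorem g2b_sa (F : Frame n) {M' : Op n} (hc : Commute F.op M') (a b : V n) :
    form (M' (F.op a)) b = form (M' a) (F.op b) := by
  rw [← mul_apply_eq_comp, ← hc.eq, mul_apply_eq_comp, IsGen.selfadj ⟨F, rfl⟩]

theorem g2b_kill (F : Frame n) {M' : Op n} (h' : IsGen M') (hc : Commute F.op M') {u : V n}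
    (hu : ∀ j, form u (F.e j) = 0) : M' (form u F.p • F.p) = 0 := by
  have h1 : F.op u = form u F.p • F.p := by
    rw [F.op_apply]
    simp [hu]
  refine h'.apply_eq_zero ?_
  conv_lhs => rw [← h1, g2b_sa F hc, h1, map_smul F.op, g1a_op_p]
  simp

theorem g2b_cross (F : Frame n) {M' : Op n} (h' : IsGen M') (hc : Commute F.op M') {u : V n}
    (hu : ∀ j, form u (F.e j) = 0) {i : Fin F.m} (hi : F.w i ≠ 0) :
    form (M' (F.e i)) u = 0 := by
  have h1 : F.op u = form u F.p • F.p := by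
    rw [F.op_apply]
    simp [hu]
  have h2 := g2b_sa F hc (F.e i) u
  rw [g1a_op_e, map_smul, form_smul_left, h'.selfadj _ (F.op u), h1, g2b_kill F h' hc hu,
    form_zero_right] at h2
  exact (mul_eq_zero.mp h2).resolve_left (by exact_mod_cast hi)

theorem g2b_orth (F : Frame n) {M' : Op n} (_h' : IsGen M') (hc : Commute F.op M')
    {i j : Fin F.m} (hij : F.w i ≠ F.w j) : form (M' (F.e i)) (F.e j) = 0 := by
  have h2 := g2b_sa F hc (F.e i) (F.e j)
  rw [g1a_op_e, g1a_op_e, map_smul, form_smul_left, form_smul_right, Complex.conj_ofReal,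
    ← sub_eq_zero, ← sub_mul] at h2
  exact (mul_eq_zero.mp h2).resolve_left (sub_ne_zero.mpr (by exact_mod_cast hij))

theorem g2b_expand (F : Frame n) (T : Op n) (d : Fin F.m → ℂ) :
    form (T (∑ i, d i • F.e i)) (∑ i, d i • F.e i) =
      ∑ i, ∑ j, d i * conj (d j) * form (T (F.e i)) (F.e j) := by
  rw [map_sum, form_sum_left]
  refine Finset.sum_congr rfl fun i _ => ?_
  rw [form_sum_right]
  refine Finset.sum_congr rfl fun j _ => ?_
  rw [map_smul, form_smul_left, form_smul_right, mul_assoc]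

theorem re_flow_le {M M' : Op n} (h : IsGen M) (h' : IsGen M') (hc : Commute M M') {s : ℂ}
    (hs : 0 ≤ s.im) (v : V n) :
    (form (M' (flow M s v)) (flow M s v)).re ≤ (form (M' v) v).re := by
  obtain ⟨F, rfl⟩ := h
  set c : Fin F.m → ℂ := fun i => form v (F.e i) with hcdef
  set E : Fin F.m → ℂ := fun i => Complex.exp (2 * Real.pi * Complex.I * s * F.w i) with hE
  set r : Fin F.m → ℝ := fun i => √(1 - ‖E i‖ ^ 2) with hr
  set u := v - ∑ i, c i • F.e i with hu
  have hue : ∀ j, form u (F.e j) = 0 := g1a_perp F v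
  have hup : form u F.p = form v F.p := by rw [hu, form_sub_left, g1a_form_sum_p, sub_zero]
  have hk := g2b_kill F h' hc hue
  rw [hup] at hk
  have hv : v = u + ∑ i, c i • F.e i := by rw [hu, sub_add_cancel]
  have hf : flow F.op s v = (u + ∑ i, (E i * c i) • F.e i) +
      (2 * Real.pi * Complex.I * s : ℂ) • form v F.p • F.p := by
    rw [g1a_flow_apply, smul_smul, hu]
    simp only [sub_mul, one_mul, sub_smul, Finset.sum_sub_distrib, hE, hcdef]
    abel
  have h1 : form (M' (flow F.op s v)) (flow F.op s v) =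
      form (M' (u + ∑ i, (E i * c i) • F.e i)) (u + ∑ i, (E i * c i) • F.e i) := by
    rw [hf, map_add M' (u + _), map_smul, hk, smul_zero, add_zero, form_add_right _ (u + _),
      form_smul_right, h'.selfadj _ (form v F.p • F.p), hk, form_zero_right, mul_zero, add_zero]
  have hE1 : ∀ i, F.w i = 0 → E i = 1 := fun i hi => by simp [hE, hi]
  have h2 : form (M' (∑ i, (E i * c i) • F.e i)) u = form (M' (∑ i, c i • F.e i)) u := by
    rw [map_sum, map_sum, form_sum_left, form_sum_left]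
    refine Finset.sum_congr rfl fun i _ => ?_
    by_cases hi : F.w i = 0
    · rw [hE1 i hi, one_mul]
    · rw [map_smul, map_smul, form_smul_left, form_smul_left, g2b_cross F h' hc hue hi]
      simp
  have h3 : form (M' u) (∑ i, (E i * c i) • F.e i) = form (M' u) (∑ i, c i • F.e i) := by
    rw [h'.selfadj, h'.selfadj, ← form_conj, h2, form_conj]
  have hEr : ∀ i, E i * conj (E i) + (r i : ℂ) * r i = 1 := by
    intro i
    have hle : ‖E i‖ ≤ 1 := by
      rw [hE, Complex.norm_exp, Real.exp_le_one_iff]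
      have := F.w0 i
      have h0 : 0 ≤ 2 * Real.pi * s.im * F.w i := by positivity
      simpa using h0
    have h0 : 0 ≤ 1 - ‖E i‖ ^ 2 := by linarith only [hle, norm_nonneg (E i), mul_nonneg_of_nonpos_of_nonpos (Mathlib.Tactic.Linarith.sub_nonpos_of_le hle) (Mathlib.Tactic.Linarith.sub_nonpos_of_le (norm_nonneg (E i)))]
    rw [Complex.mul_conj, Complex.normSq_eq_norm_sq, ← Complex.ofReal_mul, hr,
      Real.mul_self_sqrt h0]
    push_cast
    ring
  have h4 : form (M' (∑ i, c i • F.e i)) (∑ i, c i • F.e i) =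
      form (M' (∑ i, (E i * c i) • F.e i)) (∑ i, (E i * c i) • F.e i) +
      form (M' (∑ i, ((r i : ℂ) * c i) • F.e i)) (∑ i, ((r i : ℂ) * c i) • F.e i) := by
    rw [g2b_expand, g2b_expand, g2b_expand, ← Finset.sum_add_distrib]
    refine Finset.sum_congr rfl fun i _ => ?_
    rw [← Finset.sum_add_distrib]
    refine Finset.sum_congr rfl fun j _ => ?_
    by_cases hij : F.w i = F.w j
    · have e1 : E j = E i := by simp [hE, hij]
      have e2 : r j = r i := by simp [hr, e1]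
      rw [e1, e2, map_mul, map_mul, Complex.conj_ofReal]
      linear_combination (-(c i * conj (c j) * form (M' (F.e i)) (F.e j))) * hEr i
    · rw [g2b_orth F h' hc hij]
      simp
  have h5 := h'.re_nonneg (∑ i, ((r i : ℂ) * c i) • F.e i)
  rw [h1]
  conv_rhs => rw [hv]
  simp only [map_add, form_add_left, form_add_right, h2, h3, h4, Complex.add_re]
  linarith only [h5]

theorem mu_flow_le {M M' : Op n} (h : IsGen M) (h' : IsGen M') (hc : Commute M M') {s : ℂ}
    (hs : 0 ≤ s.im) {v : V n} (hv : v ∈ Neg n) : mu M' (flow M s v) ≤ mu M' v := by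
  exact div_le_div₀ (h'.re_nonneg v) (re_flow_le h h' hc hs v) hv (h.NN_le_flow hs v)

theorem mu_flow_real {M M' : Op n} (h : IsGen M) (hc : Commute M M') (x : ℝ) (v : V n) :
    mu M' (flow M x v) = mu M' v := by
  have h1 : M' (flow M x v) = flow M x (M' v) := by
    rw [← mul_apply_eq_comp, (commute_flow hc.symm x).eq, mul_apply_eq_comp]
  rw [mu, mu, h1, h.isIsom_flow x, (h.isIsom_flow x).NN_apply]

theorem mu_smul (M : Op n) {c : ℂ} (hc : c ≠ 0) (v : V n) : mu M (c • v) = mu M v := by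
  have h1 : ‖c‖ ^ 2 ≠ 0 := pow_ne_zero 2 (norm_ne_zero_iff.mpr hc)
  rw [mu, mu, map_smul, form_smul_left, form_smul_right, ← mul_assoc, Complex.mul_conj,
    Complex.normSq_eq_norm_sq, Complex.re_ofReal_mul, NN_smul, mul_div_mul_left _ _ h1]

theorem mu_cnj {g : GG n} (hg : IsIsom (g : Op n)) (M : Op n) (v : V n) :
    mu (cnj g M) ((g : Op n) v) = mu M v := by
  rw [mu, mu, cnj_apply, inv_apply_apply, hg, hg.NN_apply]

theorem mu_real_smul (a : ℝ) (M : Op n) (v : V n) : mu ((a : ℂ) • M) v = a * mu M v := by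
  rw [mu, mu, smul_apply, form_smul_left, Complex.re_ofReal_mul, mul_div_assoc]

theorem IsGen.mu_nonneg {M : Op n} (h : IsGen M) {v : V n} (hv : v ∈ Neg n) : 0 ≤ mu M v := by
  exact div_nonneg (h.re_nonneg v) (le_of_lt hv)

theorem Frame.norm_flow_le (F : Frame n) (hp : F.p = 0) :
    ∃ B : ℝ, ∀ s : ℂ, 0 ≤ s.im → ‖flow F.op s‖ ≤ B := by
  refine ⟨‖(1 : Op n)‖ + ∑ i, 2 * ‖rk1 (F.e i) (F.e i)‖, fun s hs => ?_⟩
  rw [F.flow_eq, hp, g1_rk1_zero, smul_zero, add_zero]
  refine (norm_add_le _ _).trans (add_le_add le_rfl ((norm_sum_le _ _).trans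
    (Finset.sum_le_sum fun i _ => ?_)))
  rw [norm_smul]
  refine mul_le_mul_of_nonneg_right ((norm_sub_le _ _).trans ?_) (norm_nonneg _)
  have hle : ‖Complex.exp (2 * Real.pi * Complex.I * s * F.w i)‖ ≤ 1 := by
    rw [Complex.norm_exp, Real.exp_le_one_iff]
    have := F.w0 i
    have h0 : 0 ≤ 2 * Real.pi * s.im * F.w i := by positivity
    simpa using h0
  rw [norm_one]
  linarith only [hle]

theorem g2b_arith {a b c t X y : ℝ} (ha : 0 ≤ a) (hb : 0 ≤ b) (hc : 0 ≤ c) (ht : 0 ≤ t)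
    (hX : 1 ≤ X) (hy : y ≤ b * X) : a + y + c * t ≤ (a + b + c) * (X + t) := by
  linarith only [hy, ha, ht, hb, hc, hX, mul_nonneg ha ht, mul_nonneg hb ht, mul_nonneg hc (zero_le_one.trans hX),
    mul_le_mul_of_nonneg_left hX ha]

theorem IsGenLt.norm_flow_neg {M : Op n} (h : IsGenLt 1 M) :
    ∃ B b : ℝ, 0 ≤ b ∧ b < 1 ∧ ∀ s : ℂ, 0 ≤ s.im →
      ‖flow M (-s)‖ ≤ B * (Real.exp (2 * Real.pi * b * s.im) + ‖s‖) := by
  obtain ⟨F, hw, rfl⟩ := h
  obtain ⟨b, hb0, hb1, hb⟩ : ∃ b : ℝ, 0 ≤ b ∧ b < 1 ∧ ∀ i, F.w i ≤ b := by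
    rcases isEmpty_or_nonempty (Fin F.m) with h0 | h0
    · exact ⟨0, le_rfl, one_pos, fun i => isEmptyElim i⟩
    · obtain ⟨j, hj⟩ := Finite.exists_max F.w
      exact ⟨F.w j, F.w0 j, hw j, hj⟩
  refine ⟨‖(1 : Op n)‖ + ∑ i, 2 * ‖rk1 (F.e i) (F.e i)‖ + 2 * Real.pi * ‖rk1 F.p F.p‖, b, hb0, hb1,
    fun s hs => ?_⟩
  set X := Real.exp (2 * Real.pi * b * s.im) with hX
  have hX1 : 1 ≤ X := Real.one_le_exp (by positivity)
  have h1 : ‖∑ i, (Complex.exp (2 * Real.pi * Complex.I * (-s) * F.w i) - 1) •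
      rk1 (F.e i) (F.e i)‖ ≤ (∑ i, 2 * ‖rk1 (F.e i) (F.e i)‖) * X := by
    rw [Finset.sum_mul]
    refine (norm_sum_le _ _).trans (Finset.sum_le_sum fun i _ => ?_)
    have hle : ‖Complex.exp (2 * Real.pi * Complex.I * (-s) * F.w i)‖ ≤ X := by
      rw [Complex.norm_exp, hX, Real.exp_le_exp]
      have h0 : 2 * Real.pi * s.im * F.w i ≤ 2 * Real.pi * s.im * b :=
        mul_le_mul_of_nonneg_left (hb i) (by positivity)
      have h1 : (2 * Real.pi * Complex.I * (-s) * F.w i : ℂ).re = 2 * Real.pi * s.im * F.w i := by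
        simp
      rw [h1]
      linarith only [h0]
    have h2 := norm_sub_le (Complex.exp (2 * Real.pi * Complex.I * (-s) * F.w i)) 1
    rw [norm_one] at h2
    rw [norm_smul]
    linarith only [hX1, hle, h2, norm_nonneg (rk1 (F.e i) (F.e i)), mul_nonneg_of_nonpos_of_nonpos (Mathlib.Tactic.Linarith.sub_nonpos_of_le hX1) (Mathlib.Tactic.Linarith.sub_nonpos_of_le (norm_nonneg (rk1 (F.e i) (F.e i)))), mul_nonneg_of_nonpos_of_nonpos (Mathlib.Tactic.Linarith.sub_nonpos_of_le hle) (Mathlib.Tactic.Linarith.sub_nonpos_of_le (norm_nonneg (rk1 (F.e i) (F.e i)))), mul_nonneg_of_nonpos_of_nonpos (Mathlib.Tactic.Linarith.sub_nonpos_of_le h2) (Mathlib.Tactic.Linarith.sub_nonpos_of_le (norm_nonneg (rk1 (F.e i) (F.e i))))]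
  have h2 : ‖(2 * Real.pi * Complex.I * (-s) : ℂ) • rk1 F.p F.p‖ =
      2 * Real.pi * ‖rk1 F.p F.p‖ * ‖s‖ := by
    rw [norm_smul]
    simp [abs_of_pos Real.pi_pos]
    ring
  rw [F.flow_eq]
  refine (norm_add₃_le).trans ?_
  rw [h2]
  have h3 : 0 ≤ ∑ i, 2 * ‖rk1 (F.e i) (F.e i)‖ :=
    Finset.sum_nonneg fun i _ => mul_nonneg zero_le_two (norm_nonneg _)
  have h4 : 0 ≤ 2 * Real.pi * ‖rk1 F.p F.p‖ :=
    mul_nonneg (mul_nonneg zero_le_two Real.pi_pos.le) (norm_nonneg _)
  exact g2b_arith (norm_nonneg _) h3 h4 (norm_nonneg s) hX1 h1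

end BallQ
end
end

-- merged part: Pool.Agent.Work.MP_72250f_ag.S1a
section
/-!
Monotonicity of displacement along three kinds of paths. (1) x_r = a + r b with b perp a: <g x_r, x_r> = A + r^2 B,
NN x_r = al - r^2 be with A = <g a,a>, |A| >= al = NN a, B = <g b,b>, |B| <= be = -NN b (cs_perp in a-perp: both b and g b
are orthogonal to a). With s = r^2 be / (al - r^2 be), A' = A / al, B' = B / be the quotient is |A' + s (A' + B')|^2.
(2) x_t = x - t p with <x,p> = -1, NN x_t = NN x - 2t; for g p = l p, l = rho e^(i th), c = (rho + 1/rho)/2, write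
g x = (conj l)^-1 x + b p + w with w perp x, p. Then -e^(-i th) <g x_t, x_t> = c (NN x - 2t) + A + i m with
A = rho (-NN w)/2 >= 0 and real m independent of t; A = m = 0 means that q = x - (NN x / 2) p is an eigenvector.
(3) x = q + h p (h > 0 real) with g q = (conj l)^-1 q, x_s = x + i s p: CC = c^2 + s^2 (rho - 1/rho)^2 / (4 h^2).
-/

open scoped ComplexConjugate ENNReal Topology
open MeasureTheory Filter

noncomputable section

namespace BallQ

variable {n : ℕ}

theorem s1a_NN {a b : V n} (hab : form a b = 0) (r : ℝ) :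
    NN (a + (r : ℂ) • b) = NN a - r ^ 2 * -NN b := by
  rw [NN_add, NN_smul, form_smul_right, hab, Complex.norm_real, Real.norm_eq_abs, sq_abs]
  simp

theorem s1a_form {g : Op n} {a b : V n} (h1 : form (g a) b = 0) (h2 : form (g b) a = 0) (r : ℝ) :
    form (a + (r : ℂ) • b) (g (a + (r : ℂ) • b)) =
      form a (g a) + ((r ^ 2 : ℝ) : ℂ) * form b (g b) := by
  simp only [map_add, map_smul, form_add_left, form_add_right, form_smul_left, form_smul_right,
    form_eq_zero_comm.mp h1, form_eq_zero_comm.mp h2, Complex.conj_ofReal]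
  push_cast
  ring

theorem s1a_CC {g : Op n} (hg : IsIsom g) {a b : V n} (hab : form a b = 0)
    (h1 : form (g a) b = 0) (h2 : form (g b) a = 0) (r : ℝ) :
    CC (a + (r : ℂ) • b) (g (a + (r : ℂ) • b)) =
      (‖form a (g a) + ((r ^ 2 : ℝ) : ℂ) * form b (g b)‖ / (NN a - r ^ 2 * -NN b)) ^ 2 := by
  rw [CC, hg.NN_apply, s1a_form h1 h2, s1a_NN hab, div_pow, sq (NN a - r ^ 2 * -NN b)]

theorem s1a_B {g : Op n} (hg : IsIsom g) {a b : V n} (hab : form a b = 0)
    (h2 : form (g b) a = 0) (ha : a ∈ Neg n) : 0 ≤ -NN b ∧ ‖form b (g b)‖ ≤ -NN b := by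
  have ha0 := ne_zero_of_mem_Neg ha
  have haN : 0 < NN a := ha
  have hb : NN b ≤ 0 := nonpos_of_perp ha0 haN.le (form_eq_zero_comm.mp hab)
  have h := cs_perp ha0 haN.le (form_eq_zero_comm.mp hab) h2
  rw [hg.NN_apply] at h
  refine ⟨by linarith only [hb], ?_⟩
  exact (pow_le_pow_iff_left₀ (norm_nonneg _) (by linarith) two_ne_zero).mp (by linarith only [h])

theorem s1a_lip (A B : ℂ) {t t' : ℝ} (h : t ≤ t') :
    ‖A + (t : ℂ) * B‖ - (t' - t) * ‖B‖ ≤ ‖A + (t' : ℂ) * B‖ ∧
      ‖A + (t' : ℂ) * B‖ - (t' - t) * ‖B‖ ≤ ‖A + (t : ℂ) * B‖ := by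
  have h1 : ‖(A + (t' : ℂ) * B) - (A + (t : ℂ) * B)‖ = (t' - t) * ‖B‖ := by
    have : (A + (t' : ℂ) * B) - (A + (t : ℂ) * B) = ((t' - t : ℝ) : ℂ) * B := by
      push_cast
      ring
    rw [this, norm_mul, Complex.norm_real, Real.norm_eq_abs, abs_of_nonneg (by linarith only [h])]
  have h2 := abs_norm_sub_norm_le (A + (t' : ℂ) * B) (A + (t : ℂ) * B)
  rw [h1, abs_le] at h2
  constructor <;> linarith only [h2, h2.1, h2.2]

theorem mono_perp {g : Op n} (hg : IsIsom g) {a b : V n} (hab : form a b = 0)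
    (h1 : form (g a) b = 0) (h2 : form (g b) a = 0) {r r' : ℝ} (hr : 0 ≤ r) (hrr : r ≤ r')
    (hx : a + (r' : ℂ) • b ∈ Neg n) (ha : a ∈ Neg n) :
    a + (r : ℂ) • b ∈ Neg n ∧
      CC (a + (r : ℂ) • b) (g (a + (r : ℂ) • b)) ≤ CC (a + (r' : ℂ) • b) (g (a + (r' : ℂ) • b)) := by
  obtain ⟨hβ, hB⟩ := s1a_B hg hab h2 ha
  have haN : 0 < NN a := ha
  have hx' : 0 < NN a - r' ^ 2 * -NN b := by
    rw [← s1a_NN hab]
    exact hx
  have ht : r ^ 2 ≤ r' ^ 2 := pow_le_pow_left₀ hr hrr 2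
  have hδ : 0 ≤ (r' ^ 2 - r ^ 2) * -NN b := mul_nonneg (by linarith only [ht]) hβ
  have hD : 0 < NN a - r ^ 2 * -NN b := by linarith only [hx', hδ]
  refine ⟨by rw [mem_Neg, s1a_NN hab]; exact hD, ?_⟩
  rw [s1a_CC hg hab h1 h2, s1a_CC hg hab h1 h2]
  have hA : NN a ≤ ‖form a (g a)‖ := by
    have h := one_le_CC ha (hg.mem_Neg.mpr ha)
    rw [CC, hg.NN_apply, one_le_div (mul_pos haN haN)] at h
    exact (pow_le_pow_iff_left₀ haN.le (norm_nonneg _) two_ne_zero).mp (by linarith only [h])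
  have e1 := (s1a_lip (form a (g a)) (form b (g b)) (sq_nonneg r)).1
  have e2 := (s1a_lip (form a (g a)) (form b (g b)) ht).1
  simp only [Complex.ofReal_zero, zero_mul, add_zero, sub_zero] at e1
  have e3 : r ^ 2 * ‖form b (g b)‖ ≤ r ^ 2 * -NN b := mul_le_mul_of_nonneg_left hB (sq_nonneg r)
  have e4 : (r' ^ 2 - r ^ 2) * ‖form b (g b)‖ ≤ (r' ^ 2 - r ^ 2) * -NN b :=
    mul_le_mul_of_nonneg_left hB (by linarith only [ht])
  set u := ‖form a (g a) + ((r ^ 2 : ℝ) : ℂ) * form b (g b)‖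
  set u' := ‖form a (g a) + ((r' ^ 2 : ℝ) : ℂ) * form b (g b)‖
  refine pow_le_pow_left₀ (div_nonneg (norm_nonneg _) hD.le) ?_ 2
  rw [div_le_div_iff₀ hD hx']
  have e5 : NN a - r ^ 2 * -NN b ≤ u := by linarith only [hA, e3, e1]
  have e6 : u - (r' ^ 2 - r ^ 2) * -NN b ≤ u' := by linarith only [e4, e2]
  have e7 := mul_le_mul_of_nonneg_right e6 hD.le
  have e8 := mul_le_mul_of_nonneg_right e5 hδ
  linarith only [e7, e8]

theorem unb_perp {g : Op n} (hg : IsIsom g) {a b : V n} (hab : form a b = 0) (ha : a ∈ Neg n)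
    {c : ℂ} (h1 : g a = c • a) (h2 : g b ≠ c • b) {r : ℝ} (hr : 0 ≤ r)
    (hx : a + (r : ℂ) • b ∈ Neg n) (L : ℝ) :
    ∃ r' : ℝ, r ≤ r' ∧ a + (r' : ℂ) • b ∈ Neg n ∧
      L ≤ CC (a + (r' : ℂ) • b) (g (a + (r' : ℂ) • b)) := by
  have haN : 0 < NN a := ha
  have hc : ‖c‖ = 1 := eig_norm_one hg haN.ne' h1
  have hcc : c * conj c = 1 := by
    rw [Complex.mul_conj, Complex.normSq_eq_norm_sq, hc]
    simp
  have hba := form_eq_zero_comm.mp hab
  have k1 : form (g a) b = 0 := by rw [h1, form_smul_left, hab, mul_zero]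
  have k2 : form (g b) a = 0 := by
    have := hg b a
    rw [h1, form_smul_right, hba] at this
    linear_combination c * this - form (g b) a * hcc
  obtain ⟨-, hB⟩ := s1a_B hg hab k2 ha
  have hb0 : b ≠ 0 := by
    rintro rfl
    simp at h2
  have hβ : 0 < -NN b := by linarith only [ha, hba, hb0, pos_of_perp_neg ha hba hb0]
  have hx' : 0 < NN a - r ^ 2 * -NN b := by
    rw [← s1a_NN hab]
    exact hx
  have hK : 0 < ‖form a (g a) + ((NN a / -NN b : ℝ) : ℂ) * form b (g b)‖ := by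
    rw [norm_pos_iff]
    intro h0
    have hβc : (NN b : ℂ) ≠ 0 := Complex.ofReal_ne_zero.mpr (by linarith only [hβ])
    have hαc : (NN a : ℂ) ≠ 0 := Complex.ofReal_ne_zero.mpr haN.ne'
    rw [h1, form_smul_right, form_self] at h0
    have h3 : form b (g b) = -(conj c * NN b) := by
      push_cast at h0
      field_simp at h0
      apply mul_left_cancel₀ hαc
      linear_combination -h0
    have h4 : form (g b) b = -(c * NN b) := by
      rw [← form_conj, h3]
      simp
    have h5 : form (g b - c • b) a = 0 := by rw [form_sub_left, form_smul_left, k2, hba]; simp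
    have h6 := pos_of_perp_neg ha h5 (sub_ne_zero.mpr h2)
    have h7 : form (g b - c • b) (g b - c • b) = 0 := by
      simp only [form_sub_left, form_sub_right, form_smul_left, form_smul_right, hg b b, h3, h4,
        form_self b]
      linear_combination (NN b : ℂ) * hcc
    rw [NN, h7] at h6
    simp at h6
  set K := ‖form a (g a) + ((NN a / -NN b : ℝ) : ℂ) * form b (g b)‖ with hKdef
  set D := min (NN a - r ^ 2 * -NN b) (K / (|L| + 2)) with hDdef
  have hL : 0 < |L| + 2 := by positivity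
  have hD : 0 < D := lt_min hx' (div_pos hK hL)
  have hD1 : D ≤ NN a - r ^ 2 * -NN b := min_le_left _ _
  have hD2 : D * (|L| + 2) ≤ K := (le_div_iff₀ hL).mp (min_le_right _ _)
  have ht : r ^ 2 ≤ (NN a - D) / -NN b := by
    rw [le_div_iff₀ hβ]
    linarith only [hD1]
  have ht0 : 0 ≤ (NN a - D) / -NN b := (sq_nonneg r).trans ht
  have hsq : √((NN a - D) / -NN b) ^ 2 = (NN a - D) / -NN b := Real.sq_sqrt ht0
  have hden : NN a - (NN a - D) / -NN b * -NN b = D := by
    rw [div_mul_cancel₀ _ hβ.ne']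
    ring
  refine ⟨√((NN a - D) / -NN b), Real.le_sqrt_of_sq_le ht, ?_, ?_⟩
  · rw [mem_Neg, s1a_NN hab, hsq, hden]
    exact hD
  · rw [s1a_CC hg hab k1 k2, hsq, hden]
    have hle : (NN a - D) / -NN b ≤ NN a / -NN b := by
      apply div_le_div_of_nonneg_right _ hβ.le
      linarith only [hD]
    have e1 := (s1a_lip (form a (g a)) (form b (g b)) hle).2
    have e2 : (NN a / -NN b - (NN a - D) / -NN b) * ‖form b (g b)‖ ≤
        (NN a / -NN b - (NN a - D) / -NN b) * -NN b :=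
      mul_le_mul_of_nonneg_left hB (by linarith only [hle])
    have e3 : (NN a / -NN b - (NN a - D) / -NN b) * -NN b = D := by
      rw [sub_mul, div_mul_cancel₀ _ hβ.ne', div_mul_cancel₀ _ hβ.ne']
      ring
    have e4 : |L| + 1 ≤ ‖form a (g a) + (((NN a - D) / -NN b : ℝ) : ℂ) * form b (g b)‖ / D := by
      rw [le_div_iff₀ hD]
      linarith only [hKdef, hD2, e1, e2, e3]
    have e5 := pow_le_pow_left₀ (by positivity) e4 2
    have e6 := le_abs_self L
    have e7 := abs_nonneg L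
    refine le_trans ?_ e5
    linarith only [e6, e7, sq_nonneg |L|]

end BallQ
end
end
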