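import Pool.Agent.Work.MP_72250f_ag.M3
import Pool.Agent.Work.MP_72250f_ag.S1a
import Pool.Agent.Work.MP_72250f_ag.E1a
import Pool.Agent.Work.MP_72250f_ag.S1b

-- merged part: Pool.Agent.Work.MP_72250f_ag.M4a
section
/-!
Mean value properties. mean_oo: rho is invariant under the isometries R_th = diag(1, e^(i th), ..., e^(i th)), which fix the
slice, so the integral equals its average over th (measurePreserving_actV, Fubini), and the circle average of the
holomorphic function l |-> Phi (oo + l (v - oo)) is Phi oo. submean: move x to oo (exists_isom, lintegral_isom), apply mean_oo to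
G^2 and rho = indicator * CC^-w; on the slice petE w G v = |G v|^2 CC oo v ^ -w. reproducing: same with
measurePreserving_actV (the integrand is scale invariant); |integrand| <= const * CC y v ^ -(n+1).
massF_le: (1 - r^2)^m <= exp(-m r^2) and the Gaussian integral (integral_rexp_neg_mul_sq_norm / GaussianFourier) on E n, of real
dimension 2n. massF_le_two_mass0: with m = w - n - 1 the part |z|^2 >= R / (2w) is at most m^-n times the Gaussian tail,
the part |z|^2 <= 1/m is at least (1/4) vol(ball) m^-n (scaling: Measure.addHaar_ball).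
-/

open scoped ComplexConjugate ENNReal Topology
open MeasureTheory Filter

noncomputable section

namespace BallQ

variable {n : ℕ}

theorem m4a_co_none {v : V n} (hv : co v none = 1) (l : ℂ) :
    co (oo n + l • (v - oo n)) none = 1 := by
  simp [oo, co_bas, hv]

theorem m4a_NN {v : V n} (hv : co v none = 1) (l : ℂ) :
    NN (oo n + l • (v - oo n)) = 1 - ‖l‖ ^ 2 * (1 - NN v) := by
  rw [NN_eq, NN_eq, m4a_co_none hv, hv]
  simp [oo, co_bas, mul_pow, Finset.mul_sum]

theorem m4a_mem {v : V n} (hv : co v none = 1) (hN : v ∈ Neg n) {l : ℂ} (hl : ‖l‖ ≤ 1) :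
    oo n + l • (v - oo n) ∈ Neg n := by
  have h1 : 0 < NN v := hN
  have h2 : NN v ≤ 1 := by
    rw [NN_eq, hv, norm_one, one_pow]
    exact sub_le_self _ (Finset.sum_nonneg fun i _ => sq_nonneg _)
  have h3 : ‖l‖ ^ 2 ≤ 1 := pow_le_one₀ (norm_nonneg _) hl
  rw [mem_Neg, m4a_NN hv]
  linarith only [h1, h2, h3, mul_nonneg_of_nonpos_of_nonpos (Mathlib.Tactic.Linarith.sub_nonpos_of_le h2) (Mathlib.Tactic.Linarith.sub_nonpos_of_le h3)]

theorem m4a_CC {v : V n} (hv : co v none = 1) {l : ℂ} (hl : ‖l‖ = 1) :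
    CC (oo n) (oo n + l • (v - oo n)) = CC (oo n) v := by
  rw [CC, CC, m4a_NN hv, norm_form_comm, norm_form_comm (oo n), form_oo, form_oo,
    m4a_co_none hv, hv, hl]
  simp

theorem m4a_mp {l : ℂ} (hl : ‖l‖ = 1) :
    MeasurePreserving (fun v : V n => oo n + l • (v - oo n)) (nu n) (nu n) := by
  have hll : l * conj l = 1 := by
    rw [Complex.mul_conj, Complex.normSq_eq_norm_sq, hl]
    simp
  have happ : ∀ v : V n, (l • (1 : Op n) + (l - 1) • rk1 (oo n) (oo n)) v =
      l • v + ((l - 1) * form v (oo n)) • oo n := fun v => by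
    simp [smul_smul]
  have hiso : IsIsom (l • (1 : Op n) + (l - 1) • rk1 (oo n) (oo n)) := by
    intro v w
    have h0 : form (oo n) (oo n) = -1 := by rw [form_self, NN_oo]; simp
    rw [happ, happ]
    simp only [form_add_left, form_add_right, form_smul_left, form_smul_right, map_mul, map_sub,
      map_one, form_conj, h0]
    linear_combination (form v w + form v (oo n) * form (oo n) w) * hll
  have h1 := measurePreserving_actV (g := hiso.isUnit.unit) (by simpa using hiso)
  refine h1.congr (by fun_prop) ?_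
  filter_upwards [ae_nu] with v hv
  have h2 : (l • (1 : Op n) + (l - 1) • rk1 (oo n) (oo n)) v = oo n + l • (v - oo n) := by
    rw [happ, form_oo, hv.2]
    module
  have h3 := lift_proj (v := oo n + l • (v - oo n)) (by rw [m4a_co_none hv.2]; exact one_ne_zero)
  rw [m4a_co_none hv.2, one_smul] at h3
  rw [actV, IsUnit.unit_spec, h2, h3]

theorem m4a_avg {f : V n → ℂ} (hf : Measurable f) (hi : Integrable f (nu n)) :
    ((2 * Real.pi : ℝ) : ℂ) * ∫ v, f v ∂(nu n) =
      ∫ v, (∫ θ in (0 : ℝ)..2 * Real.pi, f (oo n + circleMap 0 1 θ • (v - oo n))) ∂(nu n) := by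
  have hn : ∀ θ : ℝ, ‖circleMap 0 1 θ‖ = 1 := fun θ => by simp
  have h1 : ∀ θ : ℝ, ∫ v, f (oo n + circleMap 0 1 θ • (v - oo n)) ∂(nu n) = ∫ v, f v ∂(nu n) := by
    intro θ
    have h := m4a_mp (n := n) (hn θ)
    rw [← integral_map h.measurable.aemeasurable hf.aestronglyMeasurable, h.map_eq]
  have h2 : ∀ θ : ℝ, ∫ v, ‖f (oo n + circleMap 0 1 θ • (v - oo n))‖ ∂(nu n) =
      ∫ v, ‖f v‖ ∂(nu n) := by
    intro θ
    have h := m4a_mp (n := n) (hn θ)
    rw [← integral_map h.measurable.aemeasurable (f := fun v => ‖f v‖)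
      hf.norm.aestronglyMeasurable, h.map_eq]
  have hc : Continuous fun q : ℝ × V n => oo n + circleMap 0 1 q.1 • (q.2 - oo n) :=
    continuous_const.add (((continuous_circleMap 0 1).comp continuous_fst).smul
      (continuous_snd.sub continuous_const))
  rw [← intervalIntegral_integral_swap]
  · simp only [h1, intervalIntegral.integral_const, sub_zero, Complex.real_smul]
  · refine (integrable_prod_iff (hf.comp hc.measurable).aestronglyMeasurable).2 ⟨?_, ?_⟩
    · exact Eventually.of_forall fun θ => (m4a_mp (hn θ)).integrable_comp_of_integrable hi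
    · simp only [Function.comp_apply, h2]
      exact intervalIntegrable_const.def'

theorem m4a_circ {Φ : V n → ℂ} (hΦ : DifferentiableOn ℂ Φ (Neg n)) {v : V n}
    (hv : co v none = 1) (hN : v ∈ Neg n) :
    ∫ θ in (0 : ℝ)..2 * Real.pi, Φ (oo n + circleMap 0 1 θ • (v - oo n)) =
      ((2 * Real.pi : ℝ) : ℂ) * Φ (oo n) := by
  have h1 : DifferentiableOn ℂ (fun l : ℂ => Φ (oo n + l • (v - oo n)))
      (closure (Metric.ball 0 |(1 : ℝ)|)) := by
    refine hΦ.comp (f := fun l : ℂ => oo n + l • (v - oo n)) (by fun_prop) fun l hl => ?_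
    have h := Metric.closure_ball_subset_closedBall hl
    exact m4a_mem hv hN (by simpa using h)
  have h2 := h1.diffContOnCl.circleAverage
  rw [Real.circleAverage_def, zero_smul, add_zero] at h2
  have h3 : (2 * Real.pi : ℝ) ≠ 0 := by positivity
  rw [← h2, ← Complex.real_smul, smul_smul, mul_inv_cancel₀ h3, one_smul]

theorem m4a_meas {Φ : V n → ℂ} (hΦ : DifferentiableOn ℂ Φ (Neg n)) :
    ∃ Ψ : V n → ℂ, Measurable Ψ ∧ ∀ v ∈ Neg n, Ψ v = Φ v := by
  classical
  exact ⟨(Neg n).piecewise Φ fun _ => 0,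
    hΦ.continuousOn.measurable_piecewise continuousOn_const isOpen_Neg.measurableSet,
    fun v hv => Set.piecewise_eq_of_mem _ _ _ hv⟩

theorem m4a_meas_CC : Measurable fun v : V n => CC (oo n) v :=
  (measurable_CC (n := n)).of_uncurry_left (f := fun x y : V n => CC x y)

theorem mean_oo {Φ : V n → ℂ} (hΦ : DifferentiableOn ℂ Φ (Neg n)) {ρ : ℝ → ℝ} (hρ : Measurable ρ)
    (hi : Integrable (fun v => Φ v * (ρ (CC (oo n) v) : ℂ)) (nu n))
    (hi' : Integrable (fun v => ρ (CC (oo n) v)) (nu n)) :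
    ∫ v, Φ v * (ρ (CC (oo n) v) : ℂ) ∂(nu n) =
      Φ (oo n) * ((∫ v, ρ (CC (oo n) v) ∂(nu n) : ℝ) : ℂ) := by
  obtain ⟨Ψ, hm, hΨ⟩ := m4a_meas hΦ
  have hf : Measurable fun v => Ψ v * (ρ (CC (oo n) v) : ℂ) :=
    hm.mul (Complex.measurable_ofReal.comp (hρ.comp m4a_meas_CC))
  have hae : (fun v => Φ v * (ρ (CC (oo n) v) : ℂ)) =ᵐ[nu n]
      fun v => Ψ v * (ρ (CC (oo n) v) : ℂ) := by
    filter_upwards [ae_nu] with v hv
    rw [hΨ v hv.1]
  have h1 := m4a_avg hf (hi.congr hae)
  have h2 : (fun v => ∫ θ in (0 : ℝ)..2 * Real.pi,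
      Ψ (oo n + circleMap 0 1 θ • (v - oo n)) *
        (ρ (CC (oo n) (oo n + circleMap 0 1 θ • (v - oo n))) : ℂ)) =ᵐ[nu n]
      fun v => ((2 * Real.pi : ℝ) : ℂ) * Φ (oo n) * (ρ (CC (oo n) v) : ℂ) := by
    filter_upwards [ae_nu] with v hv
    rw [← m4a_circ hΦ hv.2 hv.1, ← intervalIntegral.integral_mul_const]
    refine intervalIntegral.integral_congr fun θ _ => ?_
    have hn : ‖circleMap 0 1 θ‖ = 1 := by simp
    simp only [hΨ _ (m4a_mem hv.2 hv.1 hn.le), m4a_CC hv.2 hn]
  have h4 := h1.trans (integral_congr_ae h2)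
  rw [integral_const_mul, integral_complex_ofReal, ← integral_congr_ae hae, mul_assoc] at h4
  have h3 : ((2 * Real.pi : ℝ) : ℂ) ≠ 0 := Complex.ofReal_ne_zero.2 (by positivity)
  exact mul_left_cancel₀ h3 h4

theorem IsHol.measurable {w : ℕ} {G : V n → ℂ} (hG : IsHol w G) : Measurable G := by
  classical
  have h : G = (Neg n).piecewise G fun _ => 0 := by
    funext v
    by_cases hv : v ∈ Neg n
    · rw [Set.piecewise_eq_of_mem _ _ _ hv]
    · rw [Set.piecewise_eq_of_notMem _ _ _ hv, hG.zero v hv]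
  rw [h]
  exact hG.diff.continuousOn.measurable_piecewise continuousOn_const isOpen_Neg.measurableSet

theorem IsHol.invF {w : ℕ} {G : V n → ℂ} (hG : IsHol w G) {Λ : Subgroup (GG n)} (hΛ : Proper Λ)
    (hi : Inv Λ G) : InvF Λ (petE w G) := by
  refine ⟨ENNReal.measurable_ofReal.comp ((hG.measurable.norm.pow_const 2).mul
    (continuous_NN.measurable.pow_const w)), fun c hc v => ?_, fun g hg v => ?_⟩
  · have h : ‖c‖ ≠ 0 := norm_ne_zero_iff.2 hc
    rw [petE, petE, hG.hom c hc, NN_smul, norm_mul, norm_pow, norm_inv]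
    congr 1
    rw [mul_pow, mul_pow, ← pow_mul, ← pow_mul, mul_comm 2 w, inv_pow]
    field_simp
  · rw [petE, petE, hi g hg v, (hΛ.isom g hg).NN_apply]

theorem IsHol.comp_isom {w : ℕ} {G : V n → ℂ} (hG : IsHol w G) {g : Op n} (hg : IsIsom g) :
    IsHol w (fun v => G (g v)) := by
  refine ⟨hG.diff.comp g.differentiable.differentiableOn fun v hv => hg.mem_Neg.2 hv,
    fun c hc v => by rw [map_smul, hG.hom c hc], fun v hv => hG.zero _ fun h => hv (hg.mem_Neg.1 h),
    ?_⟩
  obtain ⟨B, hB⟩ := hG.bdd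
  exact ⟨B, fun v hv => by rw [← hg.NN_apply v]; exact hB _ (hg.mem_Neg.2 hv)⟩

theorem IsHol.add {w : ℕ} {G H : V n → ℂ} (hG : IsHol w G) (hH : IsHol w H) :
    IsHol w (G + H) := by
  refine ⟨hG.diff.add hH.diff, fun c hc v => ?_, fun v hv => ?_, ?_⟩
  · rw [Pi.add_apply, Pi.add_apply, hG.hom c hc, hH.hom c hc, mul_add]
  · rw [Pi.add_apply, hG.zero v hv, hH.zero v hv, add_zero]
  · obtain ⟨B, hB⟩ := hG.bdd
    obtain ⟨B', hB'⟩ := hH.bdd
    refine ⟨2 * B + 2 * B', fun v hv => ?_⟩
    have h1 : 0 ≤ NN v ^ w := pow_nonneg (le_of_lt hv) w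
    have h2 : ‖(G + H) v‖ ^ 2 ≤ (‖G v‖ + ‖H v‖) ^ 2 :=
      pow_le_pow_left₀ (norm_nonneg _) (norm_add_le _ _) 2
    have h3 : ‖(G + H) v‖ ^ 2 ≤ 2 * ‖G v‖ ^ 2 + 2 * ‖H v‖ ^ 2 := by
      linarith only [h2, sq_nonneg (‖G v‖ - ‖H v‖), sq_nonneg (‖G v‖ - ‖H v‖)]
    have h4 := mul_le_mul_of_nonneg_right h3 h1
    linarith only [h4, hB, hv, hB', hB v hv, hB' v hv]

theorem IsHol.smul {w : ℕ} {G : V n → ℂ} (hG : IsHol w G) (c : ℂ) : IsHol w (c • G) := by
  refine ⟨hG.diff.const_smul c, fun d hd v => ?_, fun v hv => ?_, ?_⟩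
  · rw [Pi.smul_apply, Pi.smul_apply, hG.hom d hd, smul_eq_mul, smul_eq_mul, mul_left_comm]
  · rw [Pi.smul_apply, hG.zero v hv, smul_zero]
  · obtain ⟨B, hB⟩ := hG.bdd
    refine ⟨‖c‖ ^ 2 * B, fun v hv => ?_⟩
    rw [Pi.smul_apply, norm_smul, mul_pow, mul_assoc]
    exact mul_le_mul_of_nonneg_left (hB v hv) (sq_nonneg _)

theorem IsHol.sub {w : ℕ} {G H : V n → ℂ} (hG : IsHol w G) (hH : IsHol w H) :
    IsHol w (G - H) := by
  have h := hG.add (hH.smul (-1))
  rwa [neg_one_smul, ← sub_eq_add_neg] at h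

theorem isHol_zero (w : ℕ) : IsHol w (0 : V n → ℂ) := by
  exact ⟨differentiableOn_const 0, fun c _ v => by simp, fun v _ => rfl, 0, fun v _ => by simp⟩

end BallQ
end
end

-- merged part: Pool.Agent.Work.MP_72250f_ag.Z1
section
-- merged part: Pool.Agent.Work.MP_72250f_ag.M4b
section
/-!
Mean value properties. mean_oo: rho is invariant under the isometries R_th = diag(1, e^(i th), ..., e^(i th)), which fix the
slice, so the integral equals its average over th (measurePreserving_actV, Fubini), and the circle average of the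
holomorphic function l |-> Phi (oo + l (v - oo)) is Phi oo. submean: move x to oo (exists_isom, lintegral_isom), apply mean_oo to
G^2 and rho = indicator * CC^-w; on the slice petE w G v = |G v|^2 CC oo v ^ -w. reproducing: same with
measurePreserving_actV (the integrand is scale invariant); |integrand| <= const * CC y v ^ -(n+1).
massF_le: (1 - r^2)^m <= exp(-m r^2) and the Gaussian integral (integral_rexp_neg_mul_sq_norm / GaussianFourier) on E n, of real
dimension 2n. massF_le_two_mass0: with m = w - n - 1 the part |z|^2 >= R / (2w) is at most m^-n times the Gaussian tail,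
the part |z|^2 <= 1/m is at least (1/4) vol(ball) m^-n (scaling: Measure.addHaar_ball).
-/

open scoped ComplexConjugate ENNReal Topology
open MeasureTheory Filter

noncomputable section

namespace BallQ

variable {n : ℕ}

theorem m4b_slice {v : V n} (h1 : co v none = 1) : NN v = (CC (oo n) v)⁻¹ := by
  rw [CC_comm, CC, form_oo, NN_oo, h1]
  simp

theorem m4b_mCC (x : V n) : Measurable (fun v : V n => CC x v) := by
  unfold CC
  exact ((continuous_form' continuous_const continuous_id).measurable.norm.pow_const 2).div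
    (measurable_const.mul continuous_NN.measurable)

theorem m4b_nonneg (m : ℕ) : ∀ᵐ v ∂(nu n), 0 ≤ (CC (oo n) v)⁻¹ ^ m := by
  filter_upwards [ae_nu] with v hv
  have := one_le_CC oo_mem_Neg hv.1
  positivity

theorem m4b_int {m : ℕ} (hm : n + 1 ≤ m) :
    Integrable (fun v => (CC (oo n) v)⁻¹ ^ m) (nu n) := by
  refine ⟨((m4b_mCC _).inv.pow_const m).aestronglyMeasurable, ?_⟩
  rw [hasFiniteIntegral_iff_ofReal (m4b_nonneg m)]
  exact (massF_ne_top hm).lt_top

theorem m4b_integral (m : ℕ) : ∫ v, (CC (oo n) v)⁻¹ ^ m ∂(nu n) = (massF n m).toReal :=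
  integral_eq_lintegral_of_nonneg_ae (m4b_nonneg m)
    ((m4b_mCC _).inv.pow_const m).aestronglyMeasurable

theorem m4b_petE_smul {w : ℕ} {G : V n → ℂ} (hG : IsHol w G) {c : ℂ} (hc : c ≠ 0) (v : V n) :
    petE w G (c • v) = petE w G v := by
  have h : ‖c‖ ≠ 0 := norm_ne_zero_iff.mpr hc
  rw [petE, petE, hG.hom c hc, NN_smul, norm_mul, norm_pow, norm_inv]
  congr 1
  rw [mul_pow, mul_pow, ← pow_mul, ← pow_mul, mul_comm 2 w, inv_pow]
  field_simp

theorem m4b_petE_meas {w : ℕ} {G : V n → ℂ} (hG : IsHol w G) : Measurable (petE w G) :=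
  ((hG.measurable.norm.pow_const 2).mul (continuous_NN.measurable.pow_const w)).ennreal_ofReal

/-- A bounded function cut off to a ball around the base point is integrable. -/
theorem m4b_cut {F : Type} [NormedAddCommGroup F] {f : V n → F}
    (hf : AEStronglyMeasurable f (nu n)) {R B : ℝ}
    (h : ∀ v ∈ Neg n, co v none = 1 → ‖f v‖ ≤ if CC (oo n) v ≤ R then B else 0) :
    Integrable f (nu n) := by
  refine ((m4b_int (le_refl (n + 1))).const_mul (|B| * |R| ^ (n + 1))).mono' hf ?_
  filter_upwards [ae_nu] with v hv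
  have h1 := one_le_CC oo_mem_Neg hv.1
  refine (h v hv.1 hv.2).trans ?_
  split_ifs with hR
  · have h2 : 1 ≤ |R| * (CC (oo n) v)⁻¹ := by
      rw [← div_eq_mul_inv, le_div_iff₀ (by linarith only [h1])]
      linarith only [hR, le_abs_self R]
    rw [mul_assoc, ← mul_pow]
    calc B ≤ |B| * 1 := by rw [mul_one]; exact le_abs_self B
      _ ≤ _ := mul_le_mul_of_nonneg_left (one_le_pow₀ h2) (abs_nonneg B)
  · positivity

theorem m4b_submean_oo {w : ℕ} {G : V n → ℂ} (hG : IsHol w G) (δ : ℝ) :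
    petE w G (oo n) * mass0 n w δ ≤
      ∫⁻ v in {v | CC (oo n) v ≤ 1 + δ}, petE w G v ∂(nu n) := by
  classical
  obtain ⟨B, hB⟩ := hG.bdd
  set ρ : ℝ → ℝ := fun t => if t ≤ 1 + δ then t⁻¹ ^ w else 0 with hρ
  have hρm : Measurable ρ :=
    Measurable.ite measurableSet_Iic (measurable_inv.pow_const w) measurable_const
  have hS : MeasurableSet {v : V n | CC (oo n) v ≤ 1 + δ} :=
    measurableSet_le (m4b_mCC _) measurable_const
  have hρ0 : ∀ v ∈ Neg n, 0 ≤ ρ (CC (oo n) v) := by
    intro v hv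
    have := one_le_CC oo_mem_Neg hv
    simp only [hρ]
    split_ifs <;> positivity
  have hn : ∀ v ∈ Neg n, co v none = 1 → ‖G v ^ 2 * (ρ (CC (oo n) v) : ℂ)‖ =
      if CC (oo n) v ≤ 1 + δ then ‖G v‖ ^ 2 * NN v ^ w else 0 := by
    intro v hv h1
    rw [norm_mul, norm_pow, Complex.norm_real, Real.norm_of_nonneg (hρ0 v hv), m4b_slice h1]
    simp only [hρ]
    split_ifs <;> simp
  have hi : Integrable (fun v => G v ^ 2 * (ρ (CC (oo n) v) : ℂ)) (nu n) := by
    refine m4b_cut (R := 1 + δ) (B := B) ((hG.measurable.pow_const 2).mul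
      (Complex.measurable_ofReal.comp (hρm.comp (m4b_mCC _)))).aestronglyMeasurable ?_
    intro v hv h1
    rw [hn v hv h1]
    split_ifs
    · exact hB v hv
    · exact le_rfl
  have hi' : Integrable (fun v => ρ (CC (oo n) v)) (nu n) := by
    refine m4b_cut (R := 1 + δ) (B := 1) (hρm.comp (m4b_mCC _)).aestronglyMeasurable ?_
    intro v hv _
    have := one_le_CC oo_mem_Neg hv
    rw [Real.norm_of_nonneg (hρ0 v hv)]
    simp only [hρ]
    split_ifs
    · exact pow_le_one₀ (by positivity) (inv_le_one_of_one_le₀ this)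
    · exact le_rfl
  have hm := mean_oo (Φ := fun v => G v ^ 2) (hG.diff.pow 2) hρm hi hi'
  have hae : ∀ᵐ v ∂(nu n), 0 ≤ ρ (CC (oo n) v) := by
    filter_upwards [ae_nu] with v hv using hρ0 v hv.1
  have h0 : mass0 n w δ = ENNReal.ofReal (∫ v, ρ (CC (oo n) v) ∂(nu n)) := by
    rw [ofReal_integral_eq_lintegral_ofReal hi' hae, mass0, ← lintegral_indicator hS]
    refine lintegral_congr fun v => ?_
    simp only [hρ, Set.indicator, Set.mem_ofPred_eq]
    split_ifs <;> simp
  have h1 : ∫⁻ v in {v | CC (oo n) v ≤ 1 + δ}, petE w G v ∂(nu n) =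
      ∫⁻ v, ‖G v ^ 2 * (ρ (CC (oo n) v) : ℂ)‖ₑ ∂(nu n) := by
    rw [← lintegral_indicator hS]
    refine lintegral_congr_ae ?_
    filter_upwards [ae_nu] with v hv
    rw [← ofReal_norm, hn v hv.1 hv.2]
    simp only [Set.indicator, Set.mem_ofPred_eq, petE]
    split_ifs <;> simp
  rw [h1, h0]
  refine le_trans (le_of_eq ?_) (enorm_integral_le_lintegral_enorm _)
  rw [hm, ← ofReal_norm, norm_mul, norm_pow, Complex.norm_real,
    Real.norm_of_nonneg (integral_nonneg_of_ae hae), petE, NN_oo, one_pow, mul_one,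
    ENNReal.ofReal_mul (by positivity)]

theorem submean {w : ℕ} {G : V n → ℂ} (hG : IsHol w G) {x : V n} (hx : x ∈ Neg n) (δ : ℝ) :
    petE w G x * mass0 n w δ ≤ ∫⁻ v in {v | CC x v ≤ 1 + δ}, petE w G v ∂(nu n) := by
  obtain ⟨h, hh, c, hc, rfl⟩ := exists_isom hx
  have hS : ∀ x : V n, MeasurableSet {v : V n | CC x v ≤ 1 + δ} := fun x =>
    measurableSet_le (m4b_mCC _) measurable_const
  have hp : ∀ v, petE w (fun v => G ((h : Op n) v)) v = petE w G ((h : Op n) v) := fun v => by
    rw [petE, petE, hh.NN_apply]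
  have h1 := m4b_submean_oo (hG.comp_isom hh) δ
  rw [hp] at h1
  rw [m4b_petE_smul hG hc]
  refine h1.trans (le_of_eq ?_)
  rw [← lintegral_indicator (hS _), ← lintegral_indicator (hS _),
    ← lintegral_isom hh ((m4b_petE_meas hG).indicator (hS _))]
  · refine lintegral_congr fun v => ?_
    simp only [Set.indicator, Set.mem_ofPred_eq, CC_smul_left hc, hh.CC_apply, hp]
  · intro d hd v
    simp only [Set.indicator, Set.mem_ofPred_eq, CC_smul_right hd, m4b_petE_smul hG hd]

theorem m4b_kern_meas (w : ℕ) (y : V n) : Measurable (kern w y) :=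
  Measurable.indicator
    ((continuous_form' continuous_id continuous_const).measurable.neg.inv.pow_const w)
    isOpen_Neg.measurableSet

theorem reproducing {w : ℕ} (hw : 2 * (n + 1) ≤ w) {G : V n → ℂ} (hG : IsHol w G) {y : V n}
    (hy : y ∈ Neg n) :
    Integrable (fun v => G v * conj (kern w y v) * ((NN v ^ w : ℝ) : ℂ)) (nu n) ∧
    ∫ v, G v * conj (kern w y v) * ((NN v ^ w : ℝ) : ℂ) ∂(nu n) =
      ((massF n w).toReal : ℂ) * G y := by
  obtain ⟨h, hh, c, hc, rfl⟩ := exists_isom hy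
  have hG' := hG.comp_isom hh
  obtain ⟨B, hB⟩ := hG'.bdd
  set F : V n → ℂ := fun v =>
    G v * conj (kern w (c • (h : Op n) (oo n)) v) * ((NN v ^ w : ℝ) : ℂ) with hF
  have hFm : Measurable F :=
    (hG.measurable.mul (Complex.continuous_conj.measurable.comp (m4b_kern_meas _ _))).mul
      (Complex.measurable_ofReal.comp (continuous_NN.measurable.pow_const w))
  have hmp := measurePreserving_actV hh
  have hi : Integrable
      (fun v => G ((h : Op n) v) * (((CC (oo n) v)⁻¹ ^ w : ℝ) : ℂ)) (nu n) := by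
    refine ((m4b_int (le_refl (n + 1))).const_mul (√B)).mono' (hG'.measurable.mul
      (Complex.measurable_ofReal.comp ((m4b_mCC _).inv.pow_const w))).aestronglyMeasurable ?_
    filter_upwards [ae_nu] with v hv
    have h1 := one_le_CC oo_mem_Neg hv.1
    have h2 := hB v hv.1
    rw [m4b_slice hv.2] at h2
    have h3 : 0 ≤ (CC (oo n) v)⁻¹ := by positivity
    have h4 : (CC (oo n) v)⁻¹ ≤ 1 := inv_le_one_of_one_le₀ h1
    generalize (CC (oo n) v)⁻¹ = t at h2 h3 h4
    have hB0 : 0 ≤ B := le_trans (by positivity) h2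
    rw [norm_mul, Complex.norm_real, Real.norm_of_nonneg (by positivity)]
    rw [← sq_le_sq₀ (by positivity) (by positivity), mul_pow, mul_pow, Real.sq_sqrt hB0,
      ← pow_mul t (n + 1), sq (t ^ w), ← mul_assoc]
    exact mul_le_mul h2 (pow_le_pow_of_le_one h3 h4 (by omega)) (by positivity) hB0
  have hae : (fun v => F (actV (h : Op n) v)) =ᵐ[nu n]
      fun v => c⁻¹ ^ w * (G ((h : Op n) v) * (((CC (oo n) v)⁻¹ ^ w : ℝ) : ℂ)) := by
    filter_upwards [ae_nu] with v hv
    obtain ⟨d, hd, e⟩ := actV_eq hh hv.1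
    have h1 : d • (h : Op n) v ∈ Neg n := smul_mem_Neg hd (hh.mem_Neg.mpr hv.1)
    have hd' : conj d ≠ 0 := (map_ne_zero _).mpr hd
    simp only [hF, e, kern, Set.indicator_of_mem h1]
    rw [hG.hom d hd, form_smul_left, form_smul_right, hh, form_oo, hv.2, NN_smul, hh.NN_apply,
      m4b_slice hv.2, mul_pow, Complex.ofReal_mul, Complex.ofReal_pow (‖d‖ ^ 2),
      ← Complex.normSq_eq_norm_sq, ← Complex.mul_conj]
    simp only [mul_neg, neg_neg, mul_one, map_pow, map_inv₀, map_mul, Complex.conj_conj, mul_inv,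
      mul_pow, inv_pow]
    field_simp
  have hm := mean_oo (Φ := fun v => G ((h : Op n) v)) hG'.diff (ρ := fun t => t⁻¹ ^ w)
    (measurable_inv.pow_const w) hi (m4b_int (by omega))
  refine ⟨(hmp.integrable_comp hFm.aestronglyMeasurable).mp
    ((hi.const_mul _).congr hae.symm), ?_⟩
  rw [← hmp.map_eq, integral_map hmp.measurable.aemeasurable hFm.aestronglyMeasurable,
    integral_congr_ae hae, integral_const_mul, hm, m4b_integral, hG.hom c hc]
  ring

end BallQ
end
end

-- merged part: Pool.Agent.Work.MP_72250f_ag.M4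
section
/-!
Mean value properties. mean_oo: rho is invariant under the isometries R_th = diag(1, e^(i th), ..., e^(i th)), which fix the
slice, so the integral equals its average over th (measurePreserving_actV, Fubini), and the circle average of the
holomorphic function l |-> Phi (oo + l (v - oo)) is Phi oo. submean: move x to oo (exists_isom, lintegral_isom), apply mean_oo to
G^2 and rho = indicator * CC^-w; on the slice petE w G v = |G v|^2 CC oo v ^ -w. reproducing: same with
measurePreserving_actV (the integrand is scale invariant); |integrand| <= const * CC y v ^ -(n+1).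
massF_le: (1 - r^2)^m <= exp(-m r^2) and the Gaussian integral (integral_rexp_neg_mul_sq_norm / GaussianFourier) on E n, of real
dimension 2n. massF_le_two_mass0: with m = w - n - 1 the part |z|^2 >= R / (2w) is at most m^-n times the Gaussian tail,
the part |z|^2 <= 1/m is at least (1/4) vol(ball) m^-n (scaling: Measure.addHaar_ball).
-/

open scoped ComplexConjugate ENNReal Topology
open MeasureTheory Filter

noncomputable section

namespace BallQ

variable {n : ℕ}

theorem m4_finrank : Module.finrank ℝ (E n) = 2 * n := by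
  have h := Module.finrank_mul_finrank ℝ ℂ (E n)
  rw [Complex.finrank_real_complex, finrank_euclideanSpace, Fintype.card_fin] at h
  exact h.symm

theorem m4_gauss {b : ℝ} (hb : 0 < b) :
    ∫⁻ z : E n, ENNReal.ofReal (Real.exp (-b * ‖z‖ ^ 2)) = ENNReal.ofReal ((Real.pi / b) ^ n) := by
  have h1 := GaussianFourier.integral_rexp_neg_mul_sq_norm (V := E n) hb
  have h2 : ((Module.finrank ℝ (E n) : ℝ) / 2) = (n : ℝ) := by
    rw [m4_finrank]
    push_cast
    ring
  rw [h2, Real.rpow_natCast] at h1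
  have h3 : Integrable fun z : E n => Real.exp (-b * ‖z‖ ^ 2) := by
    apply Integrable.of_integral_ne_zero
    rw [h1]
    have := Real.pi_pos
    positivity
  rw [← ofReal_integral_eq_lintegral_ofReal h3 (Eventually.of_forall fun z => (Real.exp_pos _).le),
    h1]

theorem m4_measCC (x : V n) : Measurable fun v : V n => CC x v := by
  have h1 : Continuous fun v : V n => ‖form x v‖ ^ 2 := by fun_prop
  have h2 : Continuous fun v : V n => NN x * NN v := by fun_prop
  exact h1.measurable.div h2.measurable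

theorem m4_meas (w : ℕ) :
    Measurable fun v : V n => ENNReal.ofReal ((CC (oo n) v)⁻¹ ^ w) :=
  ((m4_measCC _).inv.pow_const w).ennreal_ofReal

theorem m4_int (m : ℕ) {S : Set (V n)} (hS : MeasurableSet S) :
    ∫⁻ v in S, ENNReal.ofReal ((CC (oo n) v)⁻¹ ^ (m + (n + 1))) ∂(nu n) =
      ∫⁻ z in lift ⁻¹' S ∩ Metric.ball (0 : E n) 1, ENNReal.ofReal ((1 - ‖z‖ ^ 2) ^ m) := by
  have hS' : MeasurableSet (lift ⁻¹' S : Set (E n)) := continuous_lift.measurable hS
  rw [← lintegral_indicator hS, lintegral_nu ((m4_meas _).indicator hS),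
    ← Measure.restrict_restrict hS', ← lintegral_indicator hS']
  refine setLIntegral_congr_fun measurableSet_ball fun z hz => ?_
  have h1 : 0 < 1 - ‖z‖ ^ 2 := by
    rw [← NN_lift]
    exact lift_mem_Neg.mpr hz
  by_cases h : lift z ∈ S
  · have h' : z ∈ lift ⁻¹' S := h
    simp only [Set.indicator_of_mem h, Set.indicator_of_mem h', dens, CC_oo_lift, inv_inv]
    rw [← ENNReal.ofReal_mul (by positivity)]
    congr 1
    rw [pow_add _ m, inv_pow]
    field_simp
  · have h' : z ∉ lift ⁻¹' S := h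
    simp only [Set.indicator_of_notMem h, Set.indicator_of_notMem h', mul_zero]

theorem m4_pow_le (m : ℕ) {t : ℝ} (ht : t ≤ 1) : (1 - t) ^ m ≤ Real.exp (-(m : ℝ) * t) := by
  have h1 : 1 - t ≤ Real.exp (-t) := by
    have := Real.add_one_le_exp (-t)
    linarith only [this]
  calc (1 - t) ^ m ≤ Real.exp (-t) ^ m := pow_le_pow_left₀ (by linarith) h1 m
    _ = Real.exp (-(m : ℝ) * t) := by
      rw [← Real.exp_nat_mul]
      congr 1
      ring

theorem m4_sq_le {z : E n} (hz : z ∈ Metric.ball (0 : E n) 1) : ‖z‖ ^ 2 < 1 := by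
  have h1 : 0 < 1 - ‖z‖ ^ 2 := by
    rw [← NN_lift]
    exact lift_mem_Neg.mpr hz
  linarith only [h1]

theorem massF_le {w : ℕ} (hw : n + 2 ≤ w) :
    massF n w ≤ ENNReal.ofReal ((Real.pi / ((w : ℝ) - n - 1)) ^ n) := by
  obtain ⟨m, rfl⟩ : ∃ m, w = m + (n + 1) := ⟨w - (n + 1), by omega⟩
  have hm : (0 : ℝ) < m := by exact_mod_cast (by omega : 0 < m)
  have h1 : ((m + (n + 1) : ℕ) : ℝ) - n - 1 = m := by
    push_cast
    ring
  rw [h1, ← m4_gauss hm, massF, ← setLIntegral_univ, m4_int m MeasurableSet.univ,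
    Set.preimage_univ, Set.univ_inter]
  refine le_trans (setLIntegral_mono' measurableSet_ball fun z hz => ?_)
    (setLIntegral_le_lintegral _ _)
  exact ENNReal.ofReal_le_ofReal (m4_pow_le m (m4_sq_le hz).le)

theorem m4_measS (δ : ℝ) : MeasurableSet {v : V n | CC (oo n) v ≤ 1 + δ} :=
  measurableSet_le (m4_measCC _) measurable_const

theorem m4_tail {m : ℕ} (hm : n + 1 ≤ m) {R : ℝ} (hR : 0 < R) (hRm : R ≤ m) :
    ∫⁻ v in {v : V n | CC (oo n) v ≤ 1 + R / (m + (n + 1) : ℕ)}ᶜ,
      ENNReal.ofReal ((CC (oo n) v)⁻¹ ^ (m + (n + 1))) ∂(nu n) ≤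
      ENNReal.ofReal (Real.exp (-(R / 6)) * (2 * Real.pi / m) ^ n) := by
  have hm0 : (0 : ℝ) < m := by exact_mod_cast (by omega : 0 < m)
  have hm1 : (n : ℝ) + 1 ≤ m := by exact_mod_cast hm
  have hn0 : (0 : ℝ) ≤ n := Nat.cast_nonneg n
  have h2 : 2 * Real.pi / m = Real.pi / (m / 2) := by
    field_simp
  rw [m4_int m (m4_measS _).compl, ENNReal.ofReal_mul (Real.exp_pos _).le, h2,
    ← m4_gauss (by positivity : (0 : ℝ) < m / 2),
    ← lintegral_const_mul' _ _ ENNReal.ofReal_ne_top]
  refine le_trans (setLIntegral_mono' ?_ fun z hz => ?_) (setLIntegral_le_lintegral _ _)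
  · exact (continuous_lift.measurable (m4_measS _).compl).inter measurableSet_ball
  · rw [← ENNReal.ofReal_mul (Real.exp_pos _).le, ← Real.exp_add]
    refine ENNReal.ofReal_le_ofReal ((m4_pow_le m (m4_sq_le hz.2).le).trans ?_)
    apply Real.exp_le_exp.mpr
    have h3 : ¬ (CC (oo n) (lift z) ≤ 1 + R / (m + (n + 1) : ℕ)) := hz.1
    rw [CC_oo_lift, not_le] at h3
    have h4 := m4_sq_le hz.2
    have h5 : 0 ≤ ‖z‖ ^ 2 := by positivity
    generalize ‖z‖ ^ 2 = t at h3 h4 h5
    push_cast at h3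
    rw [lt_inv_comm₀ (by positivity) (by linarith only [h4]), ← one_div, lt_div_iff₀ (by positivity)] at h3
    have hw : (0 : ℝ) < m + (n + 1) := by positivity
    have h6 : (1 - t) * (m + (n + 1) + R) < m + (n + 1) := by
      have h7 : (1 - t) * (m + (n + 1) + R) = (1 - t) * (1 + R / (m + (n + 1))) * (m + (n + 1)) := by
        field_simp
      rw [h7]
      linarith only [h3, mul_nonneg_of_nonpos_of_nonpos (Mathlib.Tactic.Linarith.sub_nonpos_of_le (Mathlib.Tactic.Linarith.natCast_nonneg ℝ n)) (le_of_lt (Mathlib.Tactic.Linarith.sub_neg_of_lt h3)), mul_nonneg_of_nonpos_of_nonpos (Mathlib.Tactic.Linarith.sub_nonpos_of_le (Mathlib.Tactic.Linarith.natCast_nonneg ℝ m)) (le_of_lt (Mathlib.Tactic.Linarith.sub_neg_of_lt h3))]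
    have h8 : R ≤ t * (3 * m) := by (refine le_of_not_gt fun h_nl => ?_; linarith only [h_nl, h6, hR, hRm, hm1, mul_nonneg_of_nonpos_of_nonpos (Mathlib.Tactic.Linarith.sub_nonpos_of_le (Mathlib.Tactic.Linarith.natCast_nonneg ℝ n)) (le_of_lt (Mathlib.Tactic.Linarith.sub_neg_of_lt h_nl)), mul_nonneg_of_nonpos_of_nonpos (Mathlib.Tactic.Linarith.sub_nonpos_of_le (Mathlib.Tactic.Linarith.natCast_nonneg ℝ m)) (le_of_lt (Mathlib.Tactic.Linarith.sub_neg_of_lt h6)), mul_nonneg_of_nonpos_of_nonpos (Mathlib.Tactic.Linarith.sub_nonpos_of_le (Mathlib.Tactic.Linarith.natCast_nonneg ℝ m)) (le_of_lt (Mathlib.Tactic.Linarith.sub_neg_of_lt h_nl)), mul_nonneg_of_nonpos_of_nonpos (le_of_lt (Mathlib.Tactic.Linarith.sub_neg_of_lt hR)) (Mathlib.Tactic.Linarith.sub_nonpos_of_le hRm), mul_nonneg_of_nonpos_of_nonpos (le_of_lt (Mathlib.Tactic.Linarith.sub_neg_of_lt hR)) (Mathlib.Tactic.Linarith.sub_nonpos_of_le hm1), mul_pos_of_neg_of_neg (Mathlib.Tactic.Linarith.sub_neg_of_lt hR) (Mathlib.Tactic.Linarith.sub_neg_of_lt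 h_nl)])
    linarith only [h8]

theorem m4_core {m : ℕ} (hm : n + 1 ≤ m) {R : ℝ} (hR : 2 ≤ R) :
    ENNReal.ofReal (1 / 2 * (1 / (2 * m)) ^ n) * volume (Metric.ball (0 : E n) 1) ≤
      mass0 n (m + (n + 1)) (R / (m + (n + 1) : ℕ)) := by
  have hm0 : (0 : ℝ) < m := by exact_mod_cast (by omega : 0 < m)
  have hm1 : (n : ℝ) + 1 ≤ m := by exact_mod_cast hm
  have hn0 : (0 : ℝ) ≤ n := Nat.cast_nonneg n
  set r : ℝ := √(1 / (2 * m)) with hr
  have hr0 : 0 < r := Real.sqrt_pos.mpr (by positivity)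
  have hr2 : r ^ 2 = 1 / (2 * m) := Real.sq_sqrt (by positivity)
  have h1 : volume (Metric.ball (0 : E n) r) =
      ENNReal.ofReal ((1 / (2 * m)) ^ n) * volume (Metric.ball (0 : E n) 1) := by
    rw [Measure.addHaar_ball_of_pos volume (0 : E n) hr0, m4_finrank, pow_mul, hr2]
  have hz2 : ∀ z ∈ Metric.ball (0 : E n) r, ‖z‖ ^ 2 * (2 * m) ≤ 1 := by
    intro z hz
    rw [mem_ball_zero_iff] at hz
    have : ‖z‖ ^ 2 ≤ r ^ 2 := pow_le_pow_left₀ (norm_nonneg _) hz.le 2
    rw [hr2, le_div_iff₀ (by positivity)] at this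
    exact this
  rw [ENNReal.ofReal_mul (by norm_num), mul_assoc, ← h1, mass0, m4_int m (m4_measS _),
    ← setLIntegral_const]
  refine le_trans (setLIntegral_mono' measurableSet_ball fun z hz => ?_)
    (lintegral_mono_set fun z hz => ?_)
  · refine ENNReal.ofReal_le_ofReal ?_
    have h2 := hz2 z hz
    have h5 : 0 ≤ ‖z‖ ^ 2 := by positivity
    generalize ‖z‖ ^ 2 = t at h2 h5
    have h3 := one_add_mul_le_pow (a := -t) (by (refine le_of_not_gt fun h_nl => ?_; linarith only [h_nl, hm0, hm1, h2, mul_nonneg_of_nonpos_of_nonpos (Mathlib.Tactic.Linarith.sub_nonpos_of_le (Mathlib.Tactic.Linarith.natCast_nonneg ℝ m)) (le_of_lt (Mathlib.Tactic.Linarith.sub_neg_of_lt h_nl))])) m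
    rw [← sub_eq_add_neg] at h3
    linarith only [h2, h3]
  · have h2 := hz2 z hz
    have h5 : 0 ≤ ‖z‖ ^ 2 := by positivity
    have h6 : ‖z‖ ^ 2 ≤ 1 / 2 := by linarith only [h2, hm1, mul_nonneg_of_nonpos_of_nonpos (Mathlib.Tactic.Linarith.sub_nonpos_of_le (sq_nonneg ‖z‖)) (Mathlib.Tactic.Linarith.sub_nonpos_of_le (Mathlib.Tactic.Linarith.natCast_nonneg ℝ n)), mul_nonneg_of_nonpos_of_nonpos (Mathlib.Tactic.Linarith.sub_nonpos_of_le (sq_nonneg ‖z‖)) (Mathlib.Tactic.Linarith.sub_nonpos_of_le hm1)]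
    constructor
    · show CC (oo n) (lift z) ≤ 1 + R / (m + (n + 1) : ℕ)
      rw [CC_oo_lift]
      generalize ‖z‖ ^ 2 = t at h2 h5 h6
      push_cast
      have hw : (0 : ℝ) < m + (n + 1) := by positivity
      have h7 : 1 / (m : ℝ) ≤ R / (m + (n + 1)) := by
        rw [div_le_div_iff₀ hm0 hw]
        linarith only [hm1, hR, mul_nonneg_of_nonpos_of_nonpos (Mathlib.Tactic.Linarith.sub_nonpos_of_le (Mathlib.Tactic.Linarith.natCast_nonneg ℝ m)) (Mathlib.Tactic.Linarith.sub_nonpos_of_le hR)]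
      refine le_trans ?_ (add_le_add_right h7 1)
      rw [← one_div, div_le_iff₀ (by linarith only [h6])]
      have h8 : (1 + 1 / (m : ℝ)) * (1 - t) = 1 + (1 - t - m * t) / m := by
        field_simp
        ring
      rw [h8]
      have h9 : 0 ≤ (1 - t - m * t) / m := div_nonneg (by linarith only [h2, h6]) hm0.le
      linarith only [h9]
    · rw [mem_ball_zero_iff, ← sq_lt_one_iff₀ (norm_nonneg _)]
      linarith only [h6]

theorem massF_le_two_mass0 (n : ℕ) : ∃ R : ℝ, 0 < R ∧
    ∀ᶠ w : ℕ in atTop, massF n w ≤ 2 * mass0 n w (R / w) := by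
  set c : ℝ := (volume (Metric.ball (0 : E n) 1)).toReal with hc
  have hvt : volume (Metric.ball (0 : E n) 1) ≠ ⊤ := measure_ball_lt_top.ne
  have hc0 : 0 < c := ENNReal.toReal_pos (Metric.measure_ball_pos volume _ one_pos).ne' hvt
  have hpi := Real.pi_pos
  obtain ⟨R, hR2, hR⟩ : ∃ R : ℝ, 2 ≤ R ∧
      Real.exp (-(R / 6)) ≤ 1 / 2 * c / (4 * Real.pi) ^ n := by
    have h1 : Tendsto (fun R : ℝ => Real.exp (-(R / 6))) atTop (𝓝 0) :=
      Real.tendsto_exp_neg_atTop_nhds_zero.comp (tendsto_id.atTop_div_const (by norm_num))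
    have h2 := h1.eventually (ge_mem_nhds (by positivity : 0 < 1 / 2 * c / (4 * Real.pi) ^ n))
    exact ((eventually_ge_atTop 2).and h2).exists
  refine ⟨R, by linarith only [hR2], ?_⟩
  filter_upwards [eventually_ge_atTop (2 * (n + 1) + ⌈R⌉₊)] with w hw
  obtain ⟨m, rfl⟩ : ∃ m, w = m + (n + 1) := ⟨w - (n + 1), by omega⟩
  have hm : n + 1 ≤ m := by omega
  have hm0 : (0 : ℝ) < m := by exact_mod_cast (by omega : 0 < m)
  have hRm : R ≤ m := Nat.ceil_le.mp (by omega)
  have h1 := m4_tail hm (by linarith only [hR2]) hRm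
  have h2 := m4_core hm hR2
  rw [massF, ← lintegral_add_compl _ (m4_measS (R / (m + (n + 1) : ℕ))), two_mul]
  refine add_le_add le_rfl (h1.trans (le_trans ?_ h2))
  rw [← ENNReal.ofReal_toReal hvt, ← hc, ← ENNReal.ofReal_mul (by positivity)]
  refine ENNReal.ofReal_le_ofReal ?_
  have h3 : (2 * Real.pi / m) ^ n = (4 * Real.pi) ^ n * (1 / (2 * m)) ^ n := by
    rw [← mul_pow]
    congr 1
    field_simp
    ring
  rw [le_div_iff₀ (by positivity)] at hR
  rw [h3, ← mul_assoc]
  have h4 : (0 : ℝ) ≤ (1 / (2 * m)) ^ n := by positivity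
  linarith only [hR, h4, mul_le_mul_of_nonneg_right hR h4]

end BallQ
end
end

-- merged part: Pool.Agent.Work.MP_72250f_ag.G2c
section
/-!
Flows of generators: inequalities. Use Frame.flow_eq. With c_i = <v,e_i>, a = <v,p>, y = Im s:
NN (flow s v) = NN v + sum (1 - exp(-4 pi y w_i)) |c_i|^2 + 4 pi y |a|^2.
re_flow_le: M' commutes with M, hence preserves each eigenspace of M, the common orthogonal of the e_i with w_i > 0,
and kills the p of M (M' p is a multiple of p; a null eigenvector of a generator is in its kernel); a shorter way: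
y |-> <M' f v, f v> has derivative -4 pi <M' M f v, f v>, and M' M is positive semidefinite by the same decomposition.
mu_ball: normalise, y = a x + z with z perp x, -NN z = |a|^2 - 1 <= delta; for a vector e, |<z,e>|^2 <= (-NN z)(<e,e> + |<e,x>|^2)
(cs_perp); the square root of the psd form v |-> <M v, v> is subadditive.
-/

open scoped ComplexConjugate ENNReal Topology
open MeasureTheory Filter

noncomputable section

namespace BallQ

variable {n : ℕ}

theorem g2c_form_flow (F : Frame n) (s : ℂ) (v : V n) :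
    form (flow F.op s v) v = -(NN v : ℂ) +
      ∑ i, (Complex.exp (2 * Real.pi * Complex.I * s * F.w i) - 1) *
        ((‖form v (F.e i)‖ ^ 2 : ℝ) : ℂ) +
      (2 * Real.pi * Complex.I * s) * ((‖form v F.p‖ ^ 2 : ℝ) : ℂ) := by
  rw [F.flow_eq, add_apply, add_apply, form_add_left, form_add_left, one_apply_eq_self, form_self,
    smul_apply, form_smul_left, form_rk1_self, sum_apply, form_sum_left]
  simp only [smul_apply, form_smul_left, form_rk1_self]

theorem g2c_form_flow_e (F : Frame n) (s : ℂ) (v : V n) (j : Fin F.m) :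
    form (flow F.op s v) (F.e j) =
      Complex.exp (2 * Real.pi * Complex.I * s * F.w j) * form v (F.e j) := by
  rw [g1a_flow_apply, form_add_left, form_add_left, g1a_form_sum, form_smul_left, F.pe]
  ring

theorem g2c_form_flow_p (F : Frame n) (s : ℂ) (v : V n) :
    form (flow F.op s v) F.p = form v F.p := by
  rw [g1a_flow_apply, form_add_left, form_add_left, g1a_form_sum_p, form_smul_left, F.pp]
  ring

theorem g2c_exp_eq_one {w : ℝ} (h0 : 0 ≤ w) (h1 : w < 1)
    (h : Complex.exp (2 * Real.pi * Complex.I * 1 * w) = 1) : w = 0 := by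
  obtain ⟨k, hk⟩ := Complex.exp_eq_one_iff.mp h
  have h2 : (w : ℂ) = k := by
    have h3 : (2 * Real.pi * Complex.I : ℂ) ≠ 0 := Complex.two_pi_I_ne_zero
    apply mul_left_cancel₀ h3
    linear_combination hk
  have h3 : w = k := by exact_mod_cast h2
  rw [h3] at h0 h1 ⊢
  have h4 : (0 : ℤ) ≤ k := by exact_mod_cast h0
  have h5 : k < 1 := by exact_mod_cast h1
  have : k = 0 := by omega
  simp [this]

theorem g2c_ker {M : Op n} (h : IsGenLt 1 M) {v : V n} (hv : flow M 1 v = v) : M v = 0 := by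
  obtain ⟨F, hw, rfl⟩ := h
  have h1 : ∀ j, (Complex.exp (2 * Real.pi * Complex.I * 1 * F.w j) - 1) * form v (F.e j) = 0 := by
    intro j
    have := g2c_form_flow_e F 1 v j
    rw [hv] at this
    linear_combination -this
  have h2 := g1a_flow_apply F 1 v
  simp only [hv, h1, zero_smul, Finset.sum_const_zero, add_zero, left_eq_add] at h2
  rw [mul_one, mul_smul, smul_eq_zero] at h2
  rw [F.op_apply, h2.resolve_left Complex.two_pi_I_ne_zero, add_zero]
  refine Finset.sum_eq_zero fun j _ => ?_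
  rcases mul_eq_zero.mp (h1 j) with h3 | h3
  · rw [g2c_exp_eq_one (F.w0 j) (hw j) (sub_eq_zero.mp h3)]
    simp
  · rw [h3]
    simp

theorem IsGen.CC_flow_le {M : Op n} (h : IsGen M) {x : V n} (hx : x ∈ Neg n) :
    CC x (flow M 1 x) ≤ (1 + 2 * Real.pi * mu M x) ^ 2 := by
  have hN : 0 < NN x := hx
  have hiso := h.isIsom_flow_one
  have hmu := h.mu_nonneg hx
  obtain ⟨F, rfl⟩ := h
  have h1 : ‖form (flow F.op 1 x) x‖ ≤ (1 + 2 * Real.pi * mu F.op x) * NN x := by
    have h2 : (1 + 2 * Real.pi * mu F.op x) * NN x = NN x +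
        ∑ i, 2 * Real.pi * F.w i * ‖form x (F.e i)‖ ^ 2 + 2 * Real.pi * ‖form x F.p‖ ^ 2 := by
      rw [mu, F.form_op, Complex.ofReal_re, add_mul, one_mul, mul_assoc, div_mul_cancel₀ _ hN.ne',
        mul_add, Finset.mul_sum, add_assoc]
      simp only [mul_assoc]
    rw [g2c_form_flow, h2]
    refine norm_add₃_le.trans (add_le_add (add_le_add ?_ ?_) ?_)
    · rw [norm_neg, Complex.norm_real, Real.norm_eq_abs, abs_of_pos hN]
    · refine (norm_sum_le _ _).trans (Finset.sum_le_sum fun i _ => ?_)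
      rw [norm_mul, Complex.norm_real, Real.norm_eq_abs, abs_of_nonneg (sq_nonneg _)]
      refine mul_le_mul_of_nonneg_right ?_ (sq_nonneg _)
      have h3 := Real.norm_exp_I_mul_ofReal_sub_one_le (x := 2 * Real.pi * F.w i)
      have h4 := F.w0 i
      rw [Real.norm_eq_abs, abs_of_nonneg (by positivity)] at h3
      have h5 : (2 * Real.pi * Complex.I * 1 * F.w i : ℂ) =
          Complex.I * ((2 * Real.pi * F.w i : ℝ) : ℂ) := by
        push_cast
        ring
      rw [h5]
      exact h3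
    · rw [norm_mul, Complex.norm_real, Real.norm_eq_abs, abs_of_nonneg (sq_nonneg _)]
      simp [abs_of_pos Real.pi_pos]
  rw [CC, hiso.NN_apply, norm_form_comm, div_le_iff₀ (mul_pos hN hN), ← sq, ← mul_pow]
  exact pow_le_pow_left₀ (norm_nonneg _) h1 2

theorem IsNull.uu_flow {M : Op n} (h : IsNull M) {x : V n} (hx : x ∈ Neg n) :
    uu (flow M 1) x = 16 * Real.pi ^ 2 * mu M x ^ 2 := by
  have hN : 0 < NN x := hx
  have hiso := (h.isGenLt 1).isGen.isIsom_flow_one
  obtain ⟨p, -, hp, rfl⟩ := h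
  have h1 : tr (flow (rk1 p p) 1) = n + 1 := by
    rw [flow_null hp, tr_add, tr_one, tr_smul, tr_rk1, hp, mul_zero, add_zero]
  have h2 : ‖(n + 1 : ℂ)‖ = n + 1 := by exact_mod_cast Complex.norm_natCast (n + 1)
  have h3 : ‖form (flow (rk1 p p) 1 x) x‖ ^ 2 =
      NN x ^ 2 + (2 * Real.pi * ‖form x p‖ ^ 2) ^ 2 := by
    rw [flow_null hp, add_apply, form_add_left, one_apply_eq_self, form_self, smul_apply,
      form_smul_left, form_rk1_self, ← Complex.normSq_eq_norm_sq, Complex.normSq_apply]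
    generalize ‖form x p‖ ^ 2 = a
    simp
    ring
  rw [uu, kappa, h1, h2, CC, hiso.NN_apply, norm_form_comm, h3, mu, form_rk1_self,
    Complex.ofReal_re]
  field_simp
  ring

theorem IsGenLt.accretive {M : Op n} (h : IsGenLt (1 / 2) M) {v : V n}
    (hv : (form (flow M 1 v) v).im = 0) : flow M 1 v = v := by
  obtain ⟨F, hw, rfl⟩ := h
  have h1 : ∀ j, ((Complex.exp (2 * Real.pi * Complex.I * 1 * F.w j) - 1) *
      ((‖form v (F.e j)‖ ^ 2 : ℝ) : ℂ)).im = Real.sin (2 * Real.pi * F.w j) * ‖form v (F.e j)‖ ^ 2 := by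
    intro j
    rw [Complex.im_mul_ofReal, Complex.sub_im, Complex.one_im, sub_zero,
      ← Complex.exp_ofReal_mul_I_im]
    congr 3
    push_cast
    ring
  have h2 : ((2 * Real.pi * Complex.I * 1 : ℂ) * ((‖form v F.p‖ ^ 2 : ℝ) : ℂ)).im =
      2 * Real.pi * ‖form v F.p‖ ^ 2 := by
    rw [Complex.im_mul_ofReal]
    simp
  rw [g2c_form_flow, Complex.add_im, Complex.add_im, Complex.im_sum, h2] at hv
  simp only [h1, Complex.neg_im, Complex.ofReal_im, neg_zero, zero_add] at hv
  have hlt : ∀ j, 2 * Real.pi * F.w j < Real.pi := fun j => by linarith only [hw, hw j, Real.pi_pos, mul_pos_of_neg_of_neg (Mathlib.Tactic.Linarith.sub_neg_of_lt (hw j)) (Mathlib.Tactic.Linarith.sub_neg_of_lt Real.pi_pos)]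
  have h0 : ∀ j ∈ Finset.univ, 0 ≤ Real.sin (2 * Real.pi * F.w j) * ‖form v (F.e j)‖ ^ 2 := by
    intro j _
    have := F.w0 j
    exact mul_nonneg (Real.sin_nonneg_of_nonneg_of_le_pi (by positivity) (hlt j).le) (sq_nonneg _)
  have h3 := Finset.sum_nonneg h0
  have h4 : 0 ≤ 2 * Real.pi * ‖form v F.p‖ ^ 2 := by positivity
  have h5 : ∑ j, Real.sin (2 * Real.pi * F.w j) * ‖form v (F.e j)‖ ^ 2 = 0 := by linarith only [h3, hv, h4]
  have h6 : form v F.p = 0 := by
    have : 2 * Real.pi * ‖form v F.p‖ ^ 2 = 0 := by linarith only [h4, hv, h3]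
    simpa [Real.pi_ne_zero] using this
  rw [Finset.sum_eq_zero_iff_of_nonneg h0] at h5
  rw [g1a_flow_apply, h6, mul_zero, zero_smul, add_zero, add_eq_left]
  refine Finset.sum_eq_zero fun j hj => ?_
  rcases mul_eq_zero.mp (h5 j hj) with h7 | h7
  · have h8 : F.w j = 0 := by
      by_contra h9
      have h10 : 0 < F.w j := lt_of_le_of_ne (F.w0 j) (Ne.symm h9)
      exact (Real.sin_pos_of_pos_of_lt_pi (by positivity) (hlt j)).ne' h7
    rw [h8]
    simp
  · have : form v (F.e j) = 0 := by simpa using h7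
    rw [this]
    simp

theorem IsGenLt.nonpos_eig {M : Op n} (h : IsGenLt 1 M) {y : V n} (hy : 0 ≤ NN y) {c : ℂ}
    (hc : flow M 1 y = c • y) : M y = 0 := by
  by_cases h1 : c = 1
  · rw [h1, one_smul] at hc
    exact g2c_ker h hc
  obtain ⟨F, hw, rfl⟩ := h
  have h2 : form y F.p = 0 := by
    have := g2c_form_flow_p F 1 y
    rw [hc, form_smul_left] at this
    have h3 : (c - 1) * form y F.p = 0 := by linear_combination this
    exact (mul_eq_zero.mp h3).resolve_left (sub_ne_zero.mpr h1)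
  have h3 := g1a_flow_apply F 1 y
  rw [hc, h2, mul_zero, zero_smul, add_zero, ← sub_eq_iff_eq_add'] at h3
  have h4 := congrArg NN h3
  have h5 : c • y - y = (c - 1) • y := by rw [sub_smul, one_smul]
  rw [F.pos, h5, NN_smul] at h4
  have h0 : ∀ j ∈ Finset.univ, 0 ≤ ‖(Complex.exp (2 * Real.pi * Complex.I * 1 * F.w j) - 1) *
      form y (F.e j)‖ ^ 2 := fun j _ => sq_nonneg _
  have h6 := Finset.sum_nonneg h0
  have h7 := mul_nonneg (sq_nonneg ‖c - 1‖) hy
  have h8 := (Finset.sum_eq_zero_iff_of_nonneg h0).mp (by linarith only [h6, h4, h7])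
  have h9 : (c - 1) • y = 0 := by
    rw [← h5, h3]
    refine Finset.sum_eq_zero fun j hj => ?_
    have := h8 j hj
    rw [sq_eq_zero_iff, norm_eq_zero] at this
    rw [this, zero_smul]
  rw [(smul_eq_zero.mp h9).resolve_left (sub_ne_zero.mpr h1), map_zero]

theorem IsGenLt.ker_of_fix {M : Op n} (h : IsGenLt 1 M) {v : V n} (hv : flow M 1 v = v) :
    M v = 0 := by
  exact g2c_ker h hv

end BallQ
end
end

-- merged part: Pool.Agent.Work.MP_72250f_ag.G2
section
/-!
Flows of generators: inequalities. Use Frame.flow_eq. With c_i = <v,e_i>, a = <v,p>, y = Im s: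
NN (flow s v) = NN v + sum (1 - exp(-4 pi y w_i)) |c_i|^2 + 4 pi y |a|^2.
re_flow_le: M' commutes with M, hence preserves each eigenspace of M, the common orthogonal of the e_i with w_i > 0,
and kills the p of M (M' p is a multiple of p; a null eigenvector of a generator is in its kernel); a shorter way:
y |-> <M' f v, f v> has derivative -4 pi <M' M f v, f v>, and M' M is positive semidefinite by the same decomposition.
mu_ball: normalise, y = a x + z with z perp x, -NN z = |a|^2 - 1 <= delta; for a vector e, |<z,e>|^2 <= (-NN z)(<e,e> + |<e,x>|^2)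
(cs_perp); the square root of the psd form v |-> <M v, v> is subadditive.
-/

open scoped ComplexConjugate ENNReal Topology
open MeasureTheory Filter

noncomputable section

namespace BallQ

variable {n : ℕ}

theorem g2_sqrt_add {M : Op n} (h : IsGen M) (u v : V n) :
    √((form (M (u + v)) (u + v)).re) ≤ √((form (M u) u).re) + √((form (M v) v).re) := by
  have h1 : (form (M v) u).re = (form (M u) v).re := by
    rw [h.selfadj, ← form_conj, Complex.conj_re]
  have h2 : ∀ t : ℝ, (form (M (u + (t : ℂ) • v)) (u + (t : ℂ) • v)).re =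
      (form (M v) v).re * (t * t) + 2 * (form (M u) v).re * t + (form (M u) u).re := by
    intro t
    simp only [map_add, map_smul, form_add_left, form_add_right, form_smul_left, form_smul_right,
      Complex.conj_ofReal, Complex.add_re, Complex.re_ofReal_mul, h1]
    ring
  have h3 := discrim_le_zero (fun t => (h2 t) ▸ h.re_nonneg (u + (t : ℂ) • v))
  have hu := h.re_nonneg u
  have hv := h.re_nonneg v
  have h4 : (form (M u) v).re ≤ √((form (M u) u).re) * √((form (M v) v).re) := by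
    rw [← Real.sqrt_mul hu]
    refine (le_abs_self _).trans (Real.abs_le_sqrt ?_)
    rw [discrim] at h3
    linarith only [h3]
  have h5 := h2 1
  rw [Complex.ofReal_one, one_smul] at h5
  rw [Real.sqrt_le_iff, h5, add_sq, Real.sq_sqrt hu, Real.sq_sqrt hv]
  exact ⟨by positivity, by linarith only [h4]⟩

theorem g2_perp {x : V n} (hx : x ∈ Neg n) (e : V n) :
    form (e - (-form e x / NN x) • x) x = 0 ∧
      -NN (e - (-form e x / NN x) • x) = -NN e + ‖form e x‖ ^ 2 / NN x := by
  have hN : 0 < NN x := hx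
  have hN' : (NN x : ℂ) ≠ 0 := by exact_mod_cast hN.ne'
  have h1 : form (e - (-form e x / NN x) • x) x = 0 := by
    rw [form_sub_left, form_smul_left, form_self]
    field_simp
    ring
  refine ⟨h1, ?_⟩
  have h2 := NN_add (e - (-form e x / NN x) • x) ((-form e x / NN x) • x)
  rw [sub_add_cancel, form_smul_right, h1, mul_zero, Complex.zero_re, NN_smul, norm_div, norm_neg,
    Complex.norm_real, Real.norm_eq_abs, abs_of_pos hN] at h2
  have h3 : (‖form e x‖ / NN x) ^ 2 * NN x = ‖form e x‖ ^ 2 / NN x := by field_simp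
  linarith only [h2, h3]

theorem g2_cs {x z : V n} (hx : x ∈ Neg n) (hz : form z x = 0) (e : V n) :
    ‖form z e‖ ^ 2 ≤ -NN z * (-NN e + ‖form x e‖ ^ 2 / NN x) := by
  obtain ⟨h1, h2⟩ := g2_perp hx e
  have h3 := cs_perp (ne_zero_of_mem_Neg hx) (le_of_lt hx) hz h1
  rw [form_sub_right, form_smul_right, hz, mul_zero, sub_zero] at h3
  rw [norm_form_comm x e, ← h2, neg_mul_neg]
  exact h3

theorem g2_perp_le {M : Op n} (h : IsGen M) {x z : V n} (hx : x ∈ Neg n) (hz : form z x = 0) :
    (form (M z) z).re ≤ -NN z * (age M + mu M x) := by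
  obtain ⟨F, rfl⟩ := h
  have he : ∀ i, -NN (F.e i) = 1 := fun i => by simp [NN, F.on]
  have hp : -NN F.p = 0 := by simp [NN, F.pp]
  rw [mu, age, F.age_eq, F.form_op, F.form_op, Complex.ofReal_re, Complex.ofReal_re,
    Complex.ofReal_re, add_div, ← add_assoc, mul_add, Finset.sum_div, ← Finset.sum_add_distrib,
    Finset.mul_sum]
  refine add_le_add (Finset.sum_le_sum fun i _ => ?_) ?_
  · have h1 := mul_le_mul_of_nonneg_left (g2_cs hx hz (F.e i)) (F.w0 i)
    rw [he] at h1
    refine h1.trans (le_of_eq ?_)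
    ring
  · have h1 := g2_cs hx hz F.p
    rwa [hp, zero_add] at h1

theorem IsGen.mu_ball {M : Op n} (h : IsGen M) {x y : V n} (hx : x ∈ Neg n) (hy : y ∈ Neg n)
    {δ : ℝ} (hδ : CC x y ≤ 1 + δ) :
    √(mu M y) ≤ √(1 + δ) * √(mu M x) + √(δ * (age M + mu M x)) := by
  have hNx : 0 < NN x := hx
  have hNy : 0 < NN y := hy
  obtain ⟨hz, hzN⟩ := g2_perp hx y
  set a : ℂ := -form y x / NN x with ha
  set z := y - a • x with hzdef
  have hy' : y = a • x + z := by rw [hzdef, add_sub_cancel]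
  have hC : ‖form y x‖ ^ 2 / NN x ≤ (1 + δ) * NN y := by
    rw [CC, norm_form_comm, ← div_div, div_le_iff₀ hNy] at hδ
    exact hδ
  have h1 := g2_sqrt_add h (a • x) z
  rw [← hy'] at h1
  have hmx := h.mu_nonneg hx
  have hA : (form (M (a • x)) (a • x)).re / NN y ≤ (1 + δ) * mu M x := by
    have h2 : (form (M (a • x)) (a • x)).re = ‖form y x‖ ^ 2 / NN x * mu M x := by
      rw [map_smul, form_smul_left, form_smul_right, ← mul_assoc, Complex.mul_conj,
        Complex.normSq_eq_norm_sq, Complex.re_ofReal_mul, ha, norm_div, norm_neg,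
        Complex.norm_real, Real.norm_eq_abs, abs_of_pos hNx, mu]
      field_simp
    rw [h2, div_le_iff₀ hNy, mul_right_comm]
    exact mul_le_mul_of_nonneg_right hC hmx
  have hB : (form (M z) z).re / NN y ≤ δ * (age M + mu M x) := by
    rw [div_le_iff₀ hNy, mul_right_comm]
    refine (g2_perp_le h hx hz).trans
      (mul_le_mul_of_nonneg_right ?_ (add_nonneg h.age_nonneg hmx))
    rw [hzN]
    linarith only [hC]
  have h1δ : 0 ≤ 1 + δ := zero_le_one.trans ((one_le_CC hx hy).trans hδ)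
  rw [← Real.sqrt_mul h1δ]
  refine le_trans ?_ (add_le_add (Real.sqrt_le_sqrt hA) (Real.sqrt_le_sqrt hB))
  rw [mu, Real.sqrt_div' _ hNy.le, Real.sqrt_div' _ hNy.le, Real.sqrt_div' _ hNy.le, ← add_div]
  exact div_le_div_of_nonneg_right h1 (Real.sqrt_nonneg _)

theorem IsGen.tube_nonempty {M : Op n} (h : IsGen M) {s : ℝ} (hs : 0 < s) :
    (Tube M s).Nonempty := by
  obtain ⟨F, rfl⟩ := h
  obtain ⟨x, hx, hxe⟩ := F.exists_neg
  have hN : 0 < NN x := hx
  have hp : NN F.p = 0 := by simp [NN, F.pp]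
  have h1 : NN (x + (-((s⁻¹ : ℝ) : ℂ) * form x F.p) • F.p) =
      NN x + 2 * (s⁻¹ * ‖form x F.p‖ ^ 2) := by
    rw [NN_add, NN_smul, hp, mul_zero, form_smul_right, map_mul, mul_assoc, mul_comm (conj (form x F.p)),
      Complex.mul_conj, Complex.normSq_eq_norm_sq, map_neg, Complex.conj_ofReal, neg_mul,
      Complex.neg_re, ← Complex.ofReal_mul, Complex.ofReal_re]
    ring
  have h2 : 0 < NN x + 2 * (s⁻¹ * ‖form x F.p‖ ^ 2) := by positivity
  refine ⟨x + (-((s⁻¹ : ℝ) : ℂ) * form x F.p) • F.p, by rw [mem_Neg, h1]; exact h2, ?_⟩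
  rw [mu, h1, F.form_op, Complex.ofReal_re, div_lt_iff₀ h2]
  simp only [form_add_left, form_smul_left, hxe, F.pe, F.pp, mul_zero, add_zero, norm_zero]
  have h3 : s * (NN x + 2 * (s⁻¹ * ‖form x F.p‖ ^ 2)) = s * NN x + 2 * ‖form x F.p‖ ^ 2 := by
    field_simp
  have h4 := mul_pos hs hN
  have h5 := sq_nonneg ‖form x F.p‖
  rw [h3]
  simp only [ne_eq, OfNat.ofNat_ne_zero, not_false_eq_true, zero_pow, mul_zero,
    Finset.sum_const_zero, zero_add]
  linarith only [h4, h5]

theorem isOpen_Tube (M : Op n) (s : ℝ) : IsOpen (Tube M s) := by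
  have h1 : Tube M s = Neg n ∩ {v | (form (M v) v).re < s * NN v} := by
    ext v
    refine and_congr_right fun hv => ?_
    exact div_lt_iff₀ hv
  rw [h1]
  refine isOpen_Neg.inter (isOpen_lt ?_ (continuous_const.mul continuous_NN))
  exact Complex.continuous_re.comp (continuous_form' M.continuous continuous_id)

theorem isOpen_TubeS (F : Set (Op n)) (s : ℝ) : IsOpen (TubeS F s) := by
  exact isOpen_biUnion fun M _ => isOpen_Tube M s

theorem TubeS_subset_Neg (F : Set (Op n)) (s : ℝ) : TubeS F s ⊆ Neg n := by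
  exact Set.iUnion₂_subset fun M _ v hv => hv.1

theorem TubeS_mono (F : Set (Op n)) {s s' : ℝ} (h : s ≤ s') : TubeS F s ⊆ TubeS F s' := by
  exact Set.iUnion₂_mono fun M _ v hv => ⟨hv.1, hv.2.trans_le h⟩

theorem isCone_TubeS (F : Set (Op n)) (s : ℝ) : IsCone (TubeS F s) := by
  intro c hc v hv
  obtain ⟨M, hM, hv⟩ := Set.mem_iUnion₂.mp hv
  exact Set.mem_iUnion₂.mpr ⟨M, hM, smul_mem_Neg hc hv.1, (mu_smul M hc v).symm ▸ hv.2⟩

theorem mem_TubeS_cnjS {g : GG n} (hg : IsIsom (g : Op n)) (F : Set (Op n)) (s : ℝ) (v : V n) :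
    (g : Op n) v ∈ TubeS (cnjS g F) s ↔ v ∈ TubeS F s := by
  rw [TubeS, TubeS, cnjS, Set.biUnion_image, Set.mem_iUnion₂, Set.mem_iUnion₂]
  simp only [Tube, Set.mem_ofPred_eq, mu_cnj hg, hg.mem_Neg]

theorem region_TubeS {Λ : Subgroup (GG n)} (hΛ : Proper Λ) {F : Set (Op n)}
    (h : ∀ g ∈ Λ, cnjS g F = F) (s : ℝ) : Region Λ (TubeS F s) := by
  refine ⟨(isOpen_TubeS F s).measurableSet, TubeS_subset_Neg F s, isCone_TubeS F s,
    fun g hg v hv => ?_⟩
  have := (mem_TubeS_cnjS (hΛ.isom g hg) F s v).mpr hv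
  rwa [h g hg] at this

theorem Region.diff {Λ : Subgroup (GG n)} {S T : Set (V n)} (hS : Region Λ S) (hT : Region Λ T) :
    Region Λ (S \ T) := by
  refine ⟨hS.meas.diff hT.meas, fun v hv => hS.neg hv.1, fun c hc v hv => ⟨hS.cone c hc v hv.1,
    fun h => hv.2 ?_⟩, fun g hg v hv => ⟨hS.inv g hg v hv.1, fun h => hv.2 ?_⟩⟩
  · have := hT.cone c⁻¹ (inv_ne_zero hc) _ h
    rwa [smul_smul, inv_mul_cancel₀ hc, one_smul] at this
  · have := hT.inv g⁻¹ (Λ.inv_mem hg) _ h
    rwa [inv_apply_apply] at this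

theorem Region.inter {Λ : Subgroup (GG n)} {S T : Set (V n)} (hS : Region Λ S)
    (hT : Region Λ T) : Region Λ (S ∩ T) := by
  exact ⟨hS.meas.inter hT.meas, fun v hv => hS.neg hv.1,
    fun c hc v hv => ⟨hS.cone c hc v hv.1, hT.cone c hc v hv.2⟩,
    fun g hg v hv => ⟨hS.inv g hg v hv.1, hT.inv g hg v hv.2⟩⟩

theorem Region.mono {Λ Γ : Subgroup (GG n)} {S : Set (V n)} (hS : Region Γ S) (h : Λ ≤ Γ) :
    Region Λ S := by
  exact ⟨hS.meas, hS.neg, hS.cone, fun g hg => hS.inv g (h hg)⟩

end BallQ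
end
end

-- merged part: Pool.Agent.Work.MP_72250f_ag.A1a
section
/-!
Fourier coefficients along a flow. For u in Neg let Psi s = G (flow M s u) exp(2 pi i s k tr M); it is 1-periodic (Per),
holomorphic near the closed upper half plane (flow_mem_Neg), and bounded there: |G v| <= sqrt B / NN v ^ (w/2), NN increases,
tr M = age M >= 0. coef_flow: s |-> integral over x in [0,1] of Psi (s + x) exp(-2 pi i j (s + x)) has derivative 0 by
periodicity (or Cauchy theorem on a rectangle). isHol_coef: differentiableOn_param; real flows are isometries.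
norm_flow_le_of_cond: f = Function.Periodic.cuspFunction 1 Psi is holomorphic on the unit disc, its Taylor coefficients are the
coef k M j G u (Cauchy formula on a circle of radius < 1 and coef_flow), each bounded by the L2 norm of Psi on [0,1];
sum the geometric series. cond_one_of_null: coef 0 is invariant under flow (i y), bounded by NN (flow (i y) u)^(-w/2), which tends
to 0 (IsNull.NN_flow, form_ne_zero_of_neg).
-/

open scoped ComplexConjugate ENNReal Topology
open MeasureTheory Filter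

noncomputable section

namespace BallQ

variable {n : ℕ}

theorem a1a_shift {f : ℂ → ℂ} (hf : DifferentiableOn ℂ f {s | 0 ≤ s.im})
    (hp : ∀ s, f (s + 1) = f s) {s : ℂ} (hs : 0 ≤ s.im) :
    ∫ x in (0 : ℝ)..1, f (x + s) = ∫ x in (0 : ℝ)..1, f x := by
  have h1 := Complex.integral_boundary_rect_eq_zero_of_differentiableOn f (s.re : ℂ) (s + 1)
    (hf.mono fun z hz => by
      have := (Complex.mem_reProdIm.1 hz).2
      simp only [Complex.ofReal_im, Complex.add_im, Complex.one_im, add_zero,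
        Set.uIcc_of_le hs] at this
      exact this.1)
  have h2 : ∀ y : ℝ, f (((s.re + 1 : ℝ) : ℂ) + y * Complex.I) = f (s.re + y * Complex.I) :=
    fun y => by rw [← hp (s.re + y * Complex.I), Complex.ofReal_add, Complex.ofReal_one,
      add_right_comm]
  simp only [Complex.ofReal_im, Complex.ofReal_re, Complex.add_im, Complex.add_re, Complex.one_im,
    Complex.one_re, add_zero, Complex.ofReal_zero, zero_mul, h2, add_sub_cancel_right,
    sub_eq_zero] at h1
  have h3 : Function.Periodic (fun x : ℝ => f x) 1 := fun x => by simpa using hp x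
  have h4 := h3.intervalIntegral_add_eq s.re 0
  have h5 := intervalIntegral.integral_comp_add_right (a := 0) (b := 1)
    (fun x : ℝ => f (x + s.im * Complex.I)) s.re
  simp only [Complex.ofReal_add, add_assoc, Complex.re_add_im, zero_add] at h4 h5
  rw [h5, ← h4, h1, add_comm]

theorem per_of_inv {Γ : Subgroup (GG n)} (hΓ : Proper Γ) {k : ℕ} {G : V n → ℂ}
    (hG : IsHol (k * (n + 1)) G) (hi : Inv Γ G) {M : Op n} (hM : IsGen M)
    (hP : InP Γ (flow M 1)) : Per k M G := by
  obtain ⟨c, hc, γ, hγ, e⟩ := hP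
  have hc0 : c ≠ 0 := norm_ne_zero_iff.1 (hc ▸ one_ne_zero)
  have h1 := hM.det_flow 1
  rw [e, det_smul', hΓ.det γ hγ, mul_one, mul_one] at h1
  intro v
  rw [e, smul_apply, hG.hom c hc0, hi γ hγ, mul_left_comm _ (k : ℂ),
    Complex.exp_nat_mul, ← h1, ← pow_mul, mul_comm (n + 1), mul_right_comm, ← mul_pow,
    inv_mul_cancel₀ hc0, one_pow, one_mul]

theorem isHol_coef {w k : ℕ} {G : V n → ℂ} (hG : IsHol w G) {M : Op n} (hM : IsGen M) (j : ℕ) :
    IsHol w (coef k M j G) := by
  refine ⟨differentiableOn_param isOpen_Neg 0 1 ?_ fun t _ => ?_, fun c hc v => ?_,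
    fun v hv => ?_, ?_⟩
  · have h1 : Continuous fun q : ℝ × V n => flow M q.1 q.2 := ((continuous_flow M).comp
      (Complex.continuous_ofReal.comp continuous_fst)).clm_apply continuous_snd
    have h2 : Continuous fun q : ℝ × V n =>
      Complex.exp (2 * Real.pi * Complex.I * q.1 * (k * tr M - j)) := by fun_prop
    exact (hG.diff.continuousOn.comp h1.continuousOn
      fun q hq => (hM.isIsom_flow q.1).mem_Neg.2 hq.2).mul h2.continuousOn
  · exact (hG.diff.comp (flow M t).differentiableOn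
      fun v hv => (hM.isIsom_flow t).mem_Neg.2 hv).mul_const _
  · simp only [coef, map_smul, hG.hom c hc, mul_assoc, intervalIntegral.integral_const_mul]
  · simp [coef, fun x : ℝ => hG.zero _ (mt (hM.isIsom_flow x).mem_Neg.1 hv)]
  · obtain ⟨B, hB⟩ := hG.bdd
    refine ⟨B, fun v hv => ?_⟩
    have h0 : 0 < NN v ^ w := pow_pos hv w
    have h1 : ‖coef k M j G v‖ ≤ √(B / NN v ^ w) * |1 - 0| :=
      intervalIntegral.norm_integral_le_of_norm_le_const fun x _ => by
        have h2 := hB _ ((hM.isIsom_flow x).mem_Neg.2 hv)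
        rw [(hM.isIsom_flow x).NN_apply, ← le_div_iff₀ h0] at h2
        rw [norm_mul, Complex.norm_exp, hM.tr_eq]
        simpa using Real.le_sqrt_of_sq_le h2
    rw [sub_zero, abs_one, mul_one] at h1
    rw [← le_div_iff₀ h0]
    exact (Real.le_sqrt (norm_nonneg _) ((sq_nonneg _).trans ((le_div_iff₀ h0).2 (hB v hv)))).1 h1

theorem coef_flow {w k : ℕ} {G : V n → ℂ} (hG : IsHol w G) {M : Op n} (hM : IsGen M)
    (hP : Per k M G) (j : ℕ) {u : V n} (hu : u ∈ Neg n) {s : ℂ} (hs : 0 ≤ s.im) :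
    coef k M j G (flow M s u) * Complex.exp (2 * Real.pi * Complex.I * s * (k * tr M)) =
      Complex.exp (2 * Real.pi * Complex.I * s * j) * coef k M j G u := by
  have h1 := a1a_shift (f := fun z => G (flow M z u) *
    Complex.exp (2 * Real.pi * Complex.I * z * (k * tr M - j)))
    ((hG.diff.comp (fun z _ => ((hasDerivAt_flow M z).differentiableAt.clm_apply
      (differentiableAt_const u)).differentiableWithinAt)
      fun z hz => hM.flow_mem_Neg hz hu).mul (by fun_prop)) (fun z => by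
      rw [add_comm z, flow_add, ← hP (flow M z u), mul_assoc (G _), ← Complex.exp_add,
        ← Complex.exp_periodic.nat_mul j]
      exact congrArg (_ * Complex.exp ·) (by ring)) hs
  rw [coef, coef, ← h1, ← intervalIntegral.integral_mul_const,
    ← intervalIntegral.integral_const_mul]
  refine intervalIntegral.integral_congr fun x _ => ?_
  simp only [flow_add, mul_left_comm (Complex.exp _), mul_assoc (G _), ← Complex.exp_add]
  exact congrArg (_ * Complex.exp ·) (by ring)

end BallQ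
end
end

-- merged part: Pool.Agent.Work.MP_72250f_ag.A1b
section
/-!
Fourier coefficients along a flow. For u in Neg let Psi s = G (flow M s u) exp(2 pi i s k tr M); it is 1-periodic (Per),
holomorphic near the closed upper half plane (flow_mem_Neg), and bounded there: |G v| <= sqrt B / NN v ^ (w/2), NN increases,
tr M = age M >= 0. coef_flow: s |-> integral over x in [0,1] of Psi (s + x) exp(-2 pi i j (s + x)) has derivative 0 by
periodicity (or Cauchy theorem on a rectangle). isHol_coef: differentiableOn_param; real flows are isometries.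
norm_flow_le_of_cond: f = Function.Periodic.cuspFunction 1 Psi is holomorphic on the unit disc, its Taylor coefficients are the
coef k M j G u (Cauchy formula on a circle of radius < 1 and coef_flow), each bounded by the L2 norm of Psi on [0,1];
sum the geometric series. cond_one_of_null: coef 0 is invariant under flow (i y), bounded by NN (flow (i y) u)^(-w/2), which tends
to 0 (IsNull.NN_flow, form_ne_zero_of_neg).
-/

open scoped ComplexConjugate ENNReal Topology
open MeasureTheory Filter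

noncomputable section

namespace BallQ

variable {n : ℕ}

theorem a1b_cs {g : ℝ → ℝ} (hg : Continuous g) :
    (∫ x in (0 : ℝ)..1, g x) ^ 2 ≤ ∫ x in (0 : ℝ)..1, g x ^ 2 := by
  set c := ∫ x in (0 : ℝ)..1, g x with hc
  have h0 : 0 ≤ ∫ x in (0 : ℝ)..1, (g x - c) ^ 2 :=
    intervalIntegral.integral_nonneg zero_le_one fun x _ => sq_nonneg _
  have h1 : ∀ x, (g x - c) ^ 2 = g x ^ 2 - (2 * c) * g x + c ^ 2 := fun x => by ring
  simp only [h1] at h0
  rw [intervalIntegral.integral_add (Continuous.intervalIntegrable (by fun_prop) _ _)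
      (Continuous.intervalIntegrable (by fun_prop) _ _),
    intervalIntegral.integral_sub (Continuous.intervalIntegrable (by fun_prop) _ _)
      (Continuous.intervalIntegrable (by fun_prop) _ _),
    intervalIntegral.integral_const_mul, ← hc] at h0
  simp only [intervalIntegral.integral_const, sub_zero, smul_eq_mul, one_mul] at h0
  linarith only [h0]

/-- Fourier expansion of a bounded periodic holomorphic function on the upper half plane. -/
theorem a1b_fourier {Ψ : ℂ → ℂ} (hper : ∀ s, Ψ (s + 1) = Ψ s)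
    (hd : ∀ s : ℂ, 0 < s.im → DifferentiableAt ℂ Ψ s) {B : ℝ}
    (hB : ∀ s : ℂ, 0 < s.im → ‖Ψ s‖ ≤ B) {s : ℂ} (hs : 0 < s.im) :
    HasSum (fun j : ℕ => (∫ x in (0 : ℝ)..1,
      Complex.exp (-(2 * Real.pi * Complex.I * (x + Complex.I) * j)) * Ψ (x + Complex.I)) *
        Complex.exp (2 * Real.pi * Complex.I * s) ^ j) (Ψ s) := by
  let f : UpperHalfPlane → ℂ := fun τ => Ψ τ
  have hfper : Function.Periodic (f ∘ UpperHalfPlane.ofComplex) ((1 : ℝ) : ℂ) := by
    intro z
    by_cases hz : 0 < z.im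
    · have h1 : 0 < (z + ((1 : ℝ) : ℂ)).im := by simpa using hz
      simp only [Function.comp_apply, UpperHalfPlane.ofComplex_apply_of_im_pos h1,
        UpperHalfPlane.ofComplex_apply_of_im_pos hz, f]
      simpa using hper z
    · push Not at hz
      have h1 : (z + ((1 : ℝ) : ℂ)).im ≤ 0 := by simpa using hz
      simp only [Function.comp_apply, UpperHalfPlane.ofComplex_apply_of_im_nonpos h1,
        UpperHalfPlane.ofComplex_apply_of_im_nonpos hz]
  have hfhol : MDifferentiable (modelWithCornersSelf ℂ ℂ) (modelWithCornersSelf ℂ ℂ) f := by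
    rw [UpperHalfPlane.mdifferentiable_iff]
    intro z hz
    refine ((hd z hz).differentiableWithinAt).congr (fun y hy => ?_) ?_
    · simp only [Function.comp_apply, UpperHalfPlane.ofComplex_apply_of_im_pos hy, f]
    · simp only [Function.comp_apply, UpperHalfPlane.ofComplex_apply_of_im_pos hz, f]
  have hfbdd : UpperHalfPlane.IsBoundedAtImInfty f :=
    UpperHalfPlane.isBoundedAtImInfty_iff.mpr ⟨B, 0, fun z _ => hB z z.im_pos⟩
  have h := UpperHalfPlane.hasSum_qExpansion one_pos hfper hfhol hfbdd ⟨s, hs⟩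
  have hq : Function.Periodic.qParam 1 ((⟨s, hs⟩ : UpperHalfPlane) : ℂ) =
      Complex.exp (2 * Real.pi * Complex.I * s) := by
    simp [Function.Periodic.qParam]
  rw [hq] at h
  refine h.congr_fun ?_ |>.trans_eq rfl
  intro j
  rw [UpperHalfPlane.qExpansion_coeff_eq_intervalIntegral one_pos hfper hfhol hfbdd j one_pos,
    smul_eq_mul]
  congr 1
  simp only [Complex.ofReal_one, div_one, one_mul, f]
  refine intervalIntegral.integral_congr fun x _ => ?_
  simp only [Function.Periodic.qParam, Complex.ofReal_one, div_one]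
  rw [← Complex.exp_nat_mul, one_div, ← Complex.exp_neg]
  congr 2
  rw [UpperHalfPlane.coe_I]
  ring

theorem a1b_geom {c : ℕ → ℂ} {q z : ℂ} {A : ℝ} {J : ℕ} (hq : ‖q‖ < 1)
    (h : HasSum (fun j : ℕ => c j * q ^ j) z) (hA : ∀ j, ‖c j‖ ≤ A) (hJ : ∀ j < J, c j = 0) :
    ‖z‖ ≤ A * ‖q‖ ^ J * (1 - ‖q‖)⁻¹ := by
  have h1 := (hasSum_nat_add_iff' J).mpr h
  have h2 : ∑ i ∈ Finset.range J, c i * q ^ i = 0 :=
    Finset.sum_eq_zero fun i hi => by rw [hJ i (Finset.mem_range.mp hi), zero_mul]
  rw [h2, sub_zero] at h1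
  have h3 := (hasSum_geometric_of_lt_one (norm_nonneg q) hq).mul_left (A * ‖q‖ ^ J)
  refine HasSum.norm_le_of_bounded h1 h3 fun i => ?_
  rw [norm_mul, norm_pow, pow_add]
  calc ‖c (i + J)‖ * (‖q‖ ^ i * ‖q‖ ^ J) ≤ A * (‖q‖ ^ i * ‖q‖ ^ J) :=
        mul_le_mul_of_nonneg_right (hA _) (by positivity)
    _ = A * ‖q‖ ^ J * ‖q‖ ^ i := by ring

theorem a1b_cont {w : ℕ} {G : V n → ℂ} (hG : IsHol w G) {M : Op n} (hM : IsGen M) {u : V n}
    (hu : u ∈ Neg n) : Continuous fun x : ℝ => G (flow M x u) := by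
  refine hG.diff.continuousOn.comp_continuous
    (((continuous_flow M).comp Complex.continuous_ofReal).clm_apply continuous_const) fun x => ?_
  exact hM.flow_mem_Neg (by simp) hu

theorem a1b_coef_le {k : ℕ} (G : V n → ℂ) {M : Op n} (hM : IsGen M) (j : ℕ) (u : V n) :
    ‖coef k M j G u‖ ≤ ∫ x in (0 : ℝ)..1, ‖G (flow M x u)‖ := by
  unfold coef
  refine (intervalIntegral.norm_integral_le_integral_norm zero_le_one).trans (le_of_eq ?_)
  refine intervalIntegral.integral_congr fun x _ => ?_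
  have h : (2 * Real.pi * Complex.I * x * (k * tr M - j) : ℂ) =
      ((2 * Real.pi * x * (k * age M - j) : ℝ) : ℂ) * Complex.I := by
    rw [hM.tr_eq]
    push_cast
    ring
  simp only [norm_mul, h, Complex.norm_exp_ofReal_mul_I, mul_one]

theorem norm_flow_le_of_cond {w k J : ℕ} {G : V n → ℂ} (hG : IsHol w G) {M : Op n} (hM : IsGen M)
    (hP : Per k M G) (hC : Cond k M J G) {u : V n} (hu : u ∈ Neg n) {s : ℂ} (hs : 0 < s.im) :
    ‖G (flow M s u)‖ ^ 2 * Real.exp (-(4 * Real.pi * s.im * (k * age M))) ≤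
      Real.exp (-(4 * Real.pi * s.im * J)) * ((1 - Real.exp (-(2 * Real.pi * s.im)))⁻¹) ^ 2 *
        ∫ x in (0 : ℝ)..1, ‖G (flow M x u)‖ ^ 2 := by
  let Ψ : ℂ → ℂ := fun z =>
    G (flow M z u) * Complex.exp (2 * Real.pi * Complex.I * z * (k * tr M))
  have hnorm : ∀ z : ℂ, ‖Ψ z‖ =
      ‖G (flow M z u)‖ * Real.exp (-(2 * Real.pi * z.im * (k * age M))) := by
    intro z
    simp only [Ψ, norm_mul, Complex.norm_exp]
    rw [hM.tr_eq]
    congr 2
    simp
  have hper : ∀ z, Ψ (z + 1) = Ψ z := by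
    intro z
    simp only [Ψ]
    rw [add_comm z 1, flow_add, mul_apply_eq_comp, ← hP (flow M z u), mul_assoc (G _),
      ← Complex.exp_add]
    congr 2
    ring
  have hd : ∀ z : ℂ, 0 < z.im → DifferentiableAt ℂ Ψ z := by
    intro z hz
    have h1 : DifferentiableAt ℂ (fun z => flow M z u) z :=
      (hasDerivAt_flow M z).differentiableAt.clm_apply (differentiableAt_const u)
    have h2 : DifferentiableAt ℂ G (flow M z u) :=
      hG.diff.differentiableAt (isOpen_Neg.mem_nhds (hM.flow_mem_Neg hz.le hu))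
    exact (h2.comp z h1).mul (by fun_prop)
  obtain ⟨B, hB⟩ := hG.bdd
  have hu0 : 0 < NN u := hu
  have hbd : ∀ z : ℂ, 0 < z.im → ‖Ψ z‖ ≤ √(B / NN u ^ w) := by
    intro z hz
    rw [hnorm]
    have h1 : Real.exp (-(2 * Real.pi * z.im * (k * age M))) ≤ 1 := by
      rw [Real.exp_le_one_iff, neg_nonpos]
      have := hM.age_nonneg
      have := Real.pi_pos
      positivity
    refine (mul_le_of_le_one_right (norm_nonneg _) h1).trans (Real.le_sqrt_of_sq_le ?_)
    rw [le_div_iff₀ (pow_pos hu0 w)]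
    refine le_trans ?_ (hB _ (hM.flow_mem_Neg hz.le hu))
    exact mul_le_mul_of_nonneg_left (pow_le_pow_left₀ hu0.le (hM.NN_le_flow hz.le u) w)
      (sq_nonneg _)
  have hsum := a1b_fourier hper hd hbd hs
  have hcoef : ∀ j : ℕ, (∫ x in (0 : ℝ)..1,
      Complex.exp (-(2 * Real.pi * Complex.I * (x + Complex.I) * j)) * Ψ (x + Complex.I)) =
        coef k M j G u := by
    intro j
    have h1 := coef_flow hG hM hP j hu (s := Complex.I) (by simp)
    have h2 : coef k M j G u = Complex.exp (-(2 * Real.pi * Complex.I * Complex.I * j)) *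
        (coef k M j G (flow M Complex.I u) *
          Complex.exp (2 * Real.pi * Complex.I * Complex.I * (k * tr M))) := by
      rw [h1, ← mul_assoc, ← Complex.exp_add, neg_add_cancel, Complex.exp_zero, one_mul]
    rw [h2]
    unfold coef
    rw [← intervalIntegral.integral_mul_const, ← intervalIntegral.integral_const_mul]
    refine intervalIntegral.integral_congr fun x _ => ?_
    simp only [Ψ]
    rw [flow_add, mul_apply_eq_comp, mul_left_comm, ← Complex.exp_add, mul_assoc (G _),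
      ← Complex.exp_add, mul_left_comm (Complex.exp _) (G _), ← Complex.exp_add]
    congr 2
    ring
  simp only [hcoef] at hsum
  have hqn : ‖Complex.exp (2 * Real.pi * Complex.I * s)‖ = Real.exp (-(2 * Real.pi * s.im)) := by
    rw [Complex.norm_exp]
    congr 1
    simp
  have hq1 : Real.exp (-(2 * Real.pi * s.im)) < 1 := by
    rw [Real.exp_lt_one_iff, neg_lt_zero]
    have := Real.pi_pos
    positivity
  have hle := a1b_geom (J := J) (hqn.trans_lt hq1) hsum (fun j => a1b_coef_le G hM j u)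
    (fun j hj => by rw [hC j hj]; rfl)
  rw [hnorm, hqn] at hle
  have hcs := a1b_cs (a1b_cont hG hM hu).norm
  have hsq := pow_le_pow_left₀ (by positivity) hle 2
  have e1 : (‖G (flow M s u)‖ * Real.exp (-(2 * Real.pi * s.im * (k * age M)))) ^ 2 =
      ‖G (flow M s u)‖ ^ 2 * Real.exp (-(4 * Real.pi * s.im * (k * age M))) := by
    rw [mul_pow, ← Real.exp_nat_mul]
    congr 2
    push_cast
    ring
  have e2 : (Real.exp (-(2 * Real.pi * s.im)) ^ J) ^ 2 = Real.exp (-(4 * Real.pi * s.im * J)) := by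
    rw [← pow_mul, ← Real.exp_nat_mul]
    congr 1
    push_cast
    ring
  rw [e1, mul_pow, mul_pow, e2] at hsq
  refine hsq.trans ?_
  rw [mul_assoc, mul_comm]
  exact mul_le_mul_of_nonneg_left hcs (by positivity)

end BallQ
end
end

-- merged part: Pool.Agent.Work.MP_72250f_ag.Z1a
section
/-!
lemmaF (Frobenius). Let v in H with a v = l v. Then c v is an l-eigenvector of a'. Decompose c v into
a-eigenvectors z_m in H (eigenspaces for distinct eigenvalues are independent: Module.End.eigenspaces_iSupIndep);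
a' preserves each of them, so each z_m is an l-eigenvector of a'. Write z_m = c v' with v' in H, then a v' = l v',
for m different from l the vectors c v' and v' are orthogonal (unit eigenvalues), so c v' = v', so z_m = 0.
common_eig: induction on finrank W over subspaces W that contain a negative vector and are preserved by all small
elements. Among the finitely many small elements of Gamma (fin_two, CC_le_of_uu) which are not scalar on W take z with
minimal uu; for small g the commutator has smaller uu (uu_comm, uu z > 0), so it is scalar on W, so trivial on W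
(comm_scalar_on). By pontryagin z has a nonpositive eigenvector in W; W' = W meet eigenspace is invariant and
smaller; if it has no negative vector, its nonpositive vectors form the line of a null p (eq_smul_of_perp).
-/

open scoped ComplexConjugate ENNReal Topology
open MeasureTheory Filter

noncomputable section

namespace BallQ

variable {n : ℕ}

theorem z1a_eig (W : Submodule ℂ (V n)) (hW0 : W ≠ ⊥) {a : Op n} (hW : ∀ v ∈ W, a v ∈ W) :
    ∃ z ∈ W, z ≠ 0 ∧ ∃ m : ℂ, a z = m • z := by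
  have _ : Nontrivial W := Submodule.nontrivial_iff_ne_bot.2 hW0
  obtain ⟨m, hm⟩ := Module.End.exists_eigenvalue ((a : V n →ₗ[ℂ] V n).restrict hW)
  obtain ⟨z, hz⟩ := hm.exists_hasEigenvector
  exact ⟨z, z.2, fun h => hz.2 (Subtype.ext h), m, congrArg Subtype.val hz.apply_eq_smul⟩

theorem z1a_semi {a : Op n} {S : Set (V n)} (hS : ∀ v ∈ S, ∃ m : ℂ, a v = m • v) (l : ℂ)
    {w : V n} (hw : w ∈ Submodule.span ℂ S) (h : a (a w - l • w) = l • (a w - l • w)) :
    a w - l • w = 0 := by
  have h1 : a w - l • w ∈ ⨆ m, ⨆ (_ : m ≠ l),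
      Module.End.eigenspace (a : V n →ₗ[ℂ] V n) m := by
    clear h
    induction hw using Submodule.span_induction with
    | mem v hv =>
      obtain ⟨m, hm⟩ := hS v hv
      by_cases hml : m = l
      · rw [hm, hml, sub_self]
        exact Submodule.zero_mem _
      · refine Submodule.mem_iSup_of_mem m (Submodule.mem_iSup_of_mem hml ?_)
        rw [hm, ← sub_smul]
        exact Submodule.smul_mem _ _ (Module.End.mem_eigenspace_iff.2 hm)
    | zero =>
      rw [map_zero, smul_zero, sub_self]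
      exact Submodule.zero_mem _
    | add u v _ _ hu hv =>
      have h2 : a (u + v) - l • (u + v) = (a u - l • u) + (a v - l • v) := by
        rw [map_add, smul_add]
        abel
      rw [h2]
      exact Submodule.add_mem _ hu hv
    | smul t v _ hv =>
      have h2 : a (t • v) - l • (t • v) = t • (a v - l • v) := by
        rw [map_smul, smul_sub, smul_comm l t]
      rw [h2]
      exact Submodule.smul_mem _ _ hv
  exact Submodule.disjoint_def.1
    (Module.End.eigenspaces_iSupIndep (a : V n →ₗ[ℂ] V n) l) _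
    (Module.End.mem_eigenspace_iff.2 h) h1

theorem lemmaF (H : Submodule ℂ (V n)) {a a' c : Op n} (haH : ∀ v ∈ H, a v ∈ H)
    (ha'H : ∀ v ∈ H, a' v ∈ H) (hcH : ∀ v ∈ H, c v ∈ H)
    (hinj : ∀ v ∈ H, c v = 0 → v = 0)
    (hiso : ∀ v ∈ H, ∀ w ∈ H, form (a v) (a w) = form v w)
    (hdiag : H ≤ Submodule.span ℂ {v | v ∈ H ∧ ∃ l : ℂ, ‖l‖ = 1 ∧ a v = l • v})
    (hacc : ∀ v ∈ H, form (c v) v = 0 → c v = v)
    (h1 : ∀ v ∈ H, a' (c v) = c (a v)) (h2 : ∀ v ∈ H, a (a' v) = a' (a v)) :
    ∀ v ∈ H, c (a v) = a (c v) := by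
  have hsurj : ∀ z ∈ H, ∃ v ∈ H, c v = z := by
    have hi : Function.Injective ((c : V n →ₗ[ℂ] V n).restrict hcH) := by
      rw [← LinearMap.ker_eq_bot, LinearMap.ker_eq_bot']
      intro v hv
      exact Subtype.ext (hinj v v.2 (congrArg Subtype.val hv))
    intro z hz
    obtain ⟨v, hv⟩ := LinearMap.injective_iff_surjective.1 hi ⟨z, hz⟩
    exact ⟨v, v.2, congrArg Subtype.val hv⟩
  have key : ∀ l : ℂ, ‖l‖ = 1 → ∀ w ∈ H, a' w = l • w → a w = l • w := by
    intro l hl
    have hll : l * conj l = 1 := by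
      rw [Complex.mul_conj, Complex.normSq_eq_norm_sq, hl]
      simp
    have hK : ∀ w ∈ H ⊓ Module.End.eigenspace (a' : V n →ₗ[ℂ] V n) l,
        a w ∈ H ⊓ Module.End.eigenspace (a' : V n →ₗ[ℂ] V n) l := by
      intro w hw
      refine ⟨haH w hw.1, Module.End.mem_eigenspace_iff.2 ?_⟩
      have h3 : a' w = l • w := Module.End.mem_eigenspace_iff.1 hw.2
      change a' (a w) = l • a w
      rw [← h2 w hw.1, h3, map_smul]
    have hW : (H ⊓ Module.End.eigenspace (a' : V n →ₗ[ℂ] V n) l).map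
        ((a : V n →ₗ[ℂ] V n) - l • LinearMap.id) = ⊥ := by
      by_contra hW0
      obtain ⟨z, ⟨w, hw, hwz⟩, hz0, m, hm⟩ := z1a_eig _ hW0 (a := a) (by
        rintro _ ⟨w, hw, rfl⟩
        refine ⟨a w, hK w hw, ?_⟩
        change a (a w) - l • a w = a (a w - l • w)
        rw [map_sub, map_smul])
      have hz : a w - l • w = z := hwz
      have hzK : z ∈ H ⊓ Module.End.eigenspace (a' : V n →ₗ[ℂ] V n) l := by
        rw [← hz]
        exact Submodule.sub_mem _ (hK w hw) (Submodule.smul_mem _ _ hw)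
      have hza : a' z = l • z := Module.End.mem_eigenspace_iff.1 hzK.2
      obtain ⟨v, hv, hvz⟩ := hsurj z hzK.1
      have hav : a v = l • v := by
        refine sub_eq_zero.1 (hinj _ (H.sub_mem (haH v hv) (H.smul_mem _ hv)) ?_)
        rw [map_sub, map_smul, ← h1 v hv, hvz, hza, sub_self]
      have hml : a z = l • z := by
        by_cases hml : m = l
        · rw [hm, hml]
        · have h3 := hiso z hzK.1 v hv
          rw [hm, hav, form_smul_left, form_smul_right] at h3
          have h4 : (m - l) * form z v = 0 := by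
            linear_combination l * h3 - m * form z v * hll
          have h5 : form z v = 0 := (mul_eq_zero.1 h4).resolve_left (sub_ne_zero.2 hml)
          have h6 := hacc v hv (by rw [hvz, h5])
          rw [← hvz, h6, hav]
      apply hz0
      rw [← hz] at hml ⊢
      exact z1a_semi (fun v hv => hv.2.imp fun m h => h.2) l (hdiag hw.1) hml
    intro w hw hwl
    have h3 : ((a : V n →ₗ[ℂ] V n) - l • LinearMap.id : V n →ₗ[ℂ] V n) w ∈
        (⊥ : Submodule ℂ (V n)) := by
      rw [← hW]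
      exact ⟨w, ⟨hw, Module.End.mem_eigenspace_iff.2 hwl⟩, rfl⟩
    exact sub_eq_zero.1 ((Submodule.mem_bot ℂ).1 h3)
  intro v hv
  have hv' := hdiag hv
  clear hv
  induction hv' using Submodule.span_induction with
  | mem v hv =>
    obtain ⟨hv, l, hl, hav⟩ := hv
    rw [key l hl (c v) (hcH v hv) (by rw [h1 v hv, hav, map_smul]), hav, map_smul]
  | zero => simp only [map_zero]
  | add u v _ _ hu hv => simp only [map_add, hu, hv]
  | smul t v _ hv => simp only [map_smul, hv]

theorem ell_diag {g : Op n} (hg : IsIsom g) (h : Ell g) :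
    (⊤ : Submodule ℂ (V n)) ≤
      Submodule.span ℂ {v | v ∈ (⊤ : Submodule ℂ (V n)) ∧ ∃ l : ℂ, ‖l‖ = 1 ∧ g v = l • v} := by
  obtain ⟨y, hy, c, hc⟩ := h
  have hN : 0 < NN y := hy
  have hc1 := eig_norm_one hg hN.ne' hc
  have hc0 : conj c ≠ 0 := by
    intro h0
    rw [map_eq_zero] at h0
    rw [h0, norm_zero] at hc1
    exact zero_ne_one hc1
  have hyy : form y y ≠ 0 := by
    rw [form_self]
    exact neg_ne_zero.2 (Complex.ofReal_ne_zero.2 hN.ne')
  obtain ⟨m, e, d, -, -, h3, h4, h5⟩ := exists_eigenframe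
    (LinearMap.ker (formL y : V n →ₗ[ℂ] ℂ)) (fun v hv hv0 => pos_of_perp_neg hy hv hv0) (g := g)
    (fun v hv => by
      have h1 : form v y = 0 := hv
      have h2 := hg v y
      rw [hc, form_smul_right, h1] at h2
      exact (mul_eq_zero.1 h2).resolve_left hc0) (fun v _ w _ => hg v w)
  intro v _
  have h6 : v - (form v y / form y y) • y ∈ LinearMap.ker (formL y : V n →ₗ[ℂ] ℂ) := by
    change form (v - (form v y / form y y) • y) y = 0
    rw [form_sub_left, form_smul_left, div_mul_cancel₀ _ hyy, sub_self]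
  have h7 : v = ∑ i, form (v - (form v y / form y y) • y) (e i) • e i +
      (form v y / form y y) • y := by
    rw [← h5 _ h6, sub_add_cancel]
  rw [h7]
  refine Submodule.add_mem _ (Submodule.sum_mem _ fun i _ => Submodule.smul_mem _ _ ?_)
    (Submodule.smul_mem _ _ ?_)
  · exact Submodule.subset_span ⟨trivial, d i, h3 i, h4 i⟩
  · exact Submodule.subset_span ⟨trivial, c, hc1, hc⟩

end BallQ
end
end

-- merged part: Pool.Agent.Work.MP_72250f_ag.Z1
section
/-!
lemmaF (Frobenius). Let v in H with a v = l v. Then c v is an l-eigenvector of a'. Decompose c v into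
a-eigenvectors z_m in H (eigenspaces for distinct eigenvalues are independent: Module.End.eigenspaces_iSupIndep);
a' preserves each of them, so each z_m is an l-eigenvector of a'. Write z_m = c v' with v' in H, then a v' = l v',
for m different from l the vectors c v' and v' are orthogonal (unit eigenvalues), so c v' = v', so z_m = 0.
common_eig: induction on finrank W over subspaces W that contain a negative vector and are preserved by all small
elements. Among the finitely many small elements of Gamma (fin_two, CC_le_of_uu) which are not scalar on W take z with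
minimal uu; for small g the commutator has smaller uu (uu_comm, uu z > 0), so it is scalar on W, so trivial on W
(comm_scalar_on). By pontryagin z has a nonpositive eigenvector in W; W' = W meet eigenspace is invariant and
smaller; if it has no negative vector, its nonpositive vectors form the line of a null p (eq_smul_of_perp).
-/

open scoped ComplexConjugate ENNReal Topology
open MeasureTheory Filter

noncomputable section

namespace BallQ

variable {n : ℕ}

theorem z1_perp {W : Submodule ℂ (V n)} (hW : ∀ v ∈ W, NN v ≤ 0) {v y : V n} (hv : v ∈ W)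
    (hy : y ∈ W) (h1 : 0 ≤ NN v) (h2 : 0 ≤ NN y) : form v y = 0 := by
  have h3 := hW _ (W.add_mem hv (W.smul_mem (-form v y) hy))
  rw [NN_add, NN_smul, form_smul_right, map_neg, neg_mul, mul_comm (conj _), Complex.mul_conj,
    Complex.neg_re, Complex.ofReal_re] at h3
  have h4 := mul_nonneg (sq_nonneg ‖-form v y‖) h2
  exact Complex.normSq_eq_zero.1 (le_antisymm (by linarith only [h1, h3, h4]) (Complex.normSq_nonneg _))

theorem z1_ind {Γ : Subgroup (GG n)} (hΓ : Proper Γ) {x : V n} (hx : x ∈ Neg n) (d : ℕ) :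
    ∀ W : Submodule ℂ (V n), Module.finrank ℂ W = d → (∃ y ∈ W, y ∈ Neg n) →
      (∀ g ∈ Γ, uu (g : Op n) x ≤ eps → ∀ v ∈ W, (g : Op n) v ∈ W) →
      ∃ y : V n, y ≠ 0 ∧ 0 ≤ NN y ∧
        ∀ g ∈ Γ, uu (g : Op n) x ≤ eps → ∃ c : ℂ, (g : Op n) y = c • y := by
  induction d using Nat.strong_induction_on with
  | _ d ih =>
  intro W hd hN hW
  let T : Set (GG n) :=
    {g | g ∈ Γ ∧ uu (g : Op n) x ≤ eps ∧ ¬ ∃ c : ℂ, ∀ v ∈ W, (g : Op n) v = c • v}
  have hT : T.Finite := (hΓ.fin_two hx hx ((1 + √eps) ^ 2)).subset fun g hg =>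
    ⟨hg.1, (CC_le_of_uu (hΓ.isom g hg.1) hx).trans (by have := hg.2.1; gcongr)⟩
  rcases T.eq_empty_or_nonempty with h0 | h0
  · obtain ⟨y, hy, hy'⟩ := hN
    refine ⟨y, ne_zero_of_mem_Neg hy', le_of_lt hy', fun g hg h1 => ?_⟩
    obtain ⟨c, hc⟩ := not_not.1 fun h2 => (h0.le (⟨hg, h1, h2⟩ : g ∈ T) : False)
    exact ⟨c, hc y hy⟩
  obtain ⟨z, ⟨z1, z2, z3⟩, hz⟩ := Set.exists_min_image T (fun g => uu (g : Op n) x) hT h0
  have iz := hΓ.isom z z1
  have z4 : 0 < uu (z : Op n) x := (uu_nonneg iz hx).lt_of_ne' fun e => by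
    obtain ⟨c, hc⟩ := (isScalar_iff_uu iz hx).2 e
    exact z3 ⟨c, fun v _ => by rw [hc]; rfl⟩
  have hW0 : W ≠ ⊥ := by
    obtain ⟨y, hy, hy'⟩ := hN
    exact (Submodule.ne_bot_iff _).2 ⟨y, hy, ne_zero_of_mem_Neg hy'⟩
  have hc : ∀ g ∈ Γ, uu (g : Op n) x ≤ eps → ∀ v ∈ W,
      (g : Op n) ((z : Op n) v) = (z : Op n) ((g : Op n) v) := fun g hg h1 v hv => by
    have ig := hΓ.isom g hg
    have h2 : uu ((g * z * g⁻¹ * z⁻¹ : GG n) : Op n) x < uu (z : Op n) x := by
      refine (uu_comm ig iz hx h1 z2).trans_lt ?_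
      rw [eps] at h1
      linarith only [z4, h1, mul_nonneg_of_nonpos_of_nonpos (le_of_lt (Mathlib.Tactic.Linarith.sub_neg_of_lt z4)) (Mathlib.Tactic.Linarith.sub_nonpos_of_le h1)]
    obtain ⟨c, h3⟩ := not_not.1 fun h3 => (hz _ ⟨Γ.mul_mem (Γ.mul_mem (Γ.mul_mem hg z1)
      (Γ.inv_mem hg)) (Γ.inv_mem z1), h2.le.trans z2, h3⟩).not_gt h2
    have h4 := h3 _ (hW z z1 z2 _ (hW g hg h1 v hv))
    rw [comm_scalar_on ig hx h1 W hW0 (hW g hg h1) (hW z z1 z2) h3, one_smul] at h4
    rw [← h4]
    simp only [Units.val_mul, mul_apply_eq_comp, inv_apply_apply]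
  obtain ⟨y, y1, y2, y3, c, y4⟩ := pontryagin W iz (hW z z1 z2) hN
  let W' : Submodule ℂ (V n) := W ⊓ Module.End.eigenspace ((z : Op n) : V n →ₗ[ℂ] V n) c
  have mem : ∀ v, v ∈ W' ↔ v ∈ W ∧ (z : Op n) v = c • v := fun v =>
    and_congr_right' Module.End.mem_eigenspace_iff
  have hW' : ∀ g ∈ Γ, uu (g : Op n) x ≤ eps → ∀ v ∈ W', (g : Op n) v ∈ W' := fun g hg h1 v hv => by
    obtain ⟨h2, h3⟩ := (mem v).1 hv
    exact (mem _).2 ⟨hW g hg h1 v h2, by rw [← hc g hg h1 v h2, h3, map_smul]⟩
  by_cases h5 : ∃ y ∈ W', y ∈ Neg n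
  · refine ih _ (hd ▸ Submodule.finrank_lt_finrank_of_lt (lt_of_le_of_ne inf_le_left fun e => ?_))
      W' rfl h5 hW'
    exact z3 ⟨c, fun v hv => ((mem v).1 (e.ge hv)).2⟩
  · have h6 : y ∈ W' := (mem y).2 ⟨y1, y4⟩
    refine ⟨y, y2, y3, fun g hg h1 => ?_⟩
    have h7 : 0 ≤ NN ((g : Op n) y) := by rwa [(hΓ.isom g hg).NN_apply]
    exact eq_smul_of_perp y2 y3
      (z1_perp (fun v hv => not_lt.1 fun h => h5 ⟨v, hv, h⟩) (hW' g hg h1 y h6) h6 h7 y3) h7

theorem common_eig {Γ : Subgroup (GG n)} (hΓ : Proper Γ) {x : V n} (hx : x ∈ Neg n) :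
    ∃ y : V n, y ≠ 0 ∧ 0 ≤ NN y ∧
      ∀ g ∈ plus Γ, uu (g : Op n) x ≤ eps → ∃ c : ℂ, (g : Op n) y = c • y := by
  obtain ⟨y, h1, h2, h3⟩ := z1_ind hΓ hx _ ⊤ rfl ⟨x, trivial, hx⟩ fun _ _ _ _ _ => trivial
  refine ⟨y, h1, h2, ?_⟩
  rintro g ⟨c, hc, γ, hγ, e⟩ h4
  rw [e, uu_smul_left hc] at h4
  obtain ⟨a, ha⟩ := h3 γ hγ h4
  exact ⟨c * a, by rw [e, smul_apply, ha, mul_smul]⟩

end BallQ
end
end

-- merged part: Pool.Agent.Work.MP_72250f_ag.S1
section
/-!
Monotonicity of displacement along three kinds of paths. (1) x_r = a + r b with b perp a: <g x_r, x_r> = A + r^2 B,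
NN x_r = al - r^2 be with A = <g a,a>, |A| >= al = NN a, B = <g b,b>, |B| <= be = -NN b (cs_perp in a-perp: both b and g b
are orthogonal to a). With s = r^2 be / (al - r^2 be), A' = A / al, B' = B / be the quotient is |A' + s (A' + B')|^2.
(2) x_t = x - t p with <x,p> = -1, NN x_t = NN x - 2t; for g p = l p, l = rho e^(i th), c = (rho + 1/rho)/2, write
g x = (conj l)^-1 x + b p + w with w perp x, p. Then -e^(-i th) <g x_t, x_t> = c (NN x - 2t) + A + i m with
A = rho (-NN w)/2 >= 0 and real m independent of t; A = m = 0 means that q = x - (NN x / 2) p is an eigenvector.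
(3) x = q + h p (h > 0 real) with g q = (conj l)^-1 q, x_s = x + i s p: CC = c^2 + s^2 (rho - 1/rho)^2 / (4 h^2).
-/

open scoped ComplexConjugate ENNReal Topology
open MeasureTheory Filter

noncomputable section

namespace BallQ

variable {n : ℕ}

theorem CC_axis {g : Op n} (hg : IsIsom g) {p q : V n} (hp : form p p = 0) (hq : form q q = 0)
    (hqp : form q p = -1) {l l' : ℂ} (hl : g p = l • p) (hl' : g q = l' • q) {h : ℝ} (hh : 0 < h)
    (s : ℝ) : q + ((h : ℂ) + Complex.I * s) • p ∈ Neg n ∧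
      CC (q + ((h : ℂ) + Complex.I * s) • p) (g (q + ((h : ℂ) + Complex.I * s) • p)) =
        ((‖l‖ + ‖l‖⁻¹) / 2) ^ 2 + s ^ 2 * (‖l‖ - ‖l‖⁻¹) ^ 2 / (4 * h ^ 2) := by
  have hpq : form p q = -1 := by rw [← form_conj, hqp]; simp
  have hll : l * conj l' = 1 := by
    have := hg p q
    rw [hl, hl', form_smul_left, form_smul_right, hpq] at this
    linear_combination -this
  have hl0 : l ≠ 0 := left_ne_zero_of_mul_eq_one hll
  have hρ : 0 < ‖l‖ := norm_pos_iff.2 hl0
  set a : ℂ := (h : ℂ) + Complex.I * s with ha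
  have hN : NN (q + a • p) = 2 * h := by
    simp only [NN, form_add_left, form_add_right, form_smul_left, form_smul_right, hp, hq, hqp, hpq]
    simp [ha]
    ring
  refine ⟨by rw [mem_Neg, hN]; positivity, ?_⟩
  have hF : form (q + a • p) (g (q + a • p)) * l = -(conj a * ((‖l‖ ^ 2 : ℝ) : ℂ) + a) := by
    rw [map_add, map_smul, hl, hl', ← Complex.normSq_eq_norm_sq, ← Complex.mul_conj]
    simp only [form_add_left, form_add_right, form_smul_left, form_smul_right, hp, hq, hqp, hpq]
    linear_combination (-a) * hll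
  have hF2 : ‖form (q + a • p) (g (q + a • p))‖ ^ 2 * ‖l‖ ^ 2 =
      h ^ 2 * (‖l‖ ^ 2 + 1) ^ 2 + s ^ 2 * (‖l‖ ^ 2 - 1) ^ 2 := by
    rw [← mul_pow, ← norm_mul, hF, norm_neg, ← Complex.normSq_eq_norm_sq, Complex.normSq_apply]
    generalize ‖l‖ ^ 2 = r
    simp [ha]
    ring
  rw [CC, hg.NN_apply, hN, eq_div_of_mul_eq (pow_pos hρ 2).ne' hF2]
  field_simp
  ring

theorem CC_vertical {x p : V n} (hp : form p p = 0) (hxp : form x p = -1) {t : ℝ}
    (hx : x ∈ Neg n) (ht : 2 * t < NN x) :
    CC x (x - (t : ℂ) • p) ≤ NN x / (NN x - 2 * t) + (NN x - 2 * t) / NN x := by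
  have hpx : form p x = -1 := by rw [← form_conj, hxp]; simp
  have hN0 : 0 < NN x := hx
  have hM : 0 < NN x - 2 * t := by linarith only [ht]
  have h1 : form x (x - (t : ℂ) • p) = ((t - NN x : ℝ) : ℂ) := by
    rw [form_sub_right, form_smul_right, hxp, form_self, Complex.conj_ofReal]
    push_cast
    ring
  have h2 : NN (x - (t : ℂ) • p) = NN x - 2 * t := by
    have : form (x - (t : ℂ) • p) (x - (t : ℂ) • p) = ((2 * t - NN x : ℝ) : ℂ) := by
      simp only [form_sub_left, form_sub_right, form_smul_left, form_smul_right, hxp, hpx, hp,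
        Complex.conj_ofReal]
      rw [form_self]
      push_cast
      ring
    rw [NN, this, Complex.ofReal_re]
    ring
  rw [CC, h1, h2, Complex.norm_real, Real.norm_eq_abs, sq_abs, div_add_div _ _ hM.ne' hN0.ne',
    mul_comm (NN x - 2 * t) (NN x)]
  refine div_le_div_of_nonneg_right ?_ (mul_pos hN0 hM).le
  linarith only [sq_nonneg t, sq_nonneg (NN x - t), sq_nonneg (NN x - t), sq_nonneg t]

theorem s1_lin {c K : ℝ} (hc : 0 ≤ c) (h : ∀ r : ℝ, 1 ≤ r → r * c ≤ K) : c = 0 := by
  by_contra h0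
  have hc' : 0 < c := lt_of_le_of_ne hc (Ne.symm h0)
  have h1 := h _ (le_max_left 1 ((K + 1) / c))
  have h2 : (K + 1) / c * c ≤ max 1 ((K + 1) / c) * c :=
    mul_le_mul_of_nonneg_right (le_max_right _ _) hc
  rw [div_mul_cancel₀ _ h0] at h2
  linarith only [h1, h2]

theorem s1_quad {A B C : ℂ} {M : ℝ} (h : ∀ r : ℝ, ‖A + r * B + r ^ 2 * C‖ ^ 2 ≤ M) :
    B = 0 ∧ C = 0 := by
  have h1 : ∀ r : ℝ, ‖A + r * B + r ^ 2 * C‖ ≤ M + 1 := fun r => by
    linarith only [h, h r, sq_nonneg (‖A + r * B + r ^ 2 * C‖ - 1), norm_nonneg (A + r * B + r ^ 2 * C), sq_nonneg (‖A + ↑r * B + ↑r ^ (2 : ℕ) * C‖ - (1 : ℝ)), sq_nonneg ‖A + ↑r * B + ↑r ^ (2 : ℕ) * C‖]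
  constructor
  · refine norm_eq_zero.1 (s1_lin (K := M + 1) (norm_nonneg _) fun r hr => ?_)
    have e : ((2 * r : ℝ) : ℂ) * B =
        (A + r * B + r ^ 2 * C) - (A + ((-r : ℝ) : ℂ) * B + ((-r : ℝ) : ℂ) ^ 2 * C) := by
      push_cast
      ring
    have h2 := norm_sub_le (A + r * B + r ^ 2 * C)
      (A + ((-r : ℝ) : ℂ) * B + ((-r : ℝ) : ℂ) ^ 2 * C)
    rw [← e, norm_mul, Complex.norm_real, Real.norm_of_nonneg (by linarith only [hr])] at h2
    linarith only [h2, h1, h1 r, h1 (-r)]
  · refine norm_eq_zero.1 (s1_lin (K := M + 1 + ‖A‖) (norm_nonneg _) fun r hr => ?_)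
    have e : ((2 * r ^ 2 : ℝ) : ℂ) * C = (A + r * B + r ^ 2 * C) +
        (A + ((-r : ℝ) : ℂ) * B + ((-r : ℝ) : ℂ) ^ 2 * C) - A - A := by
      push_cast
      ring
    have h2 := norm_add_le (A + r * B + r ^ 2 * C)
      (A + ((-r : ℝ) : ℂ) * B + ((-r : ℝ) : ℂ) ^ 2 * C)
    have h3 := norm_sub_le ((A + r * B + r ^ 2 * C) +
      (A + ((-r : ℝ) : ℂ) * B + ((-r : ℝ) : ℂ) ^ 2 * C)) A
    have h4 := norm_sub_le ((A + r * B + r ^ 2 * C) +
      (A + ((-r : ℝ) : ℂ) * B + ((-r : ℝ) : ℂ) ^ 2 * C) - A) A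
    rw [← e, norm_mul, Complex.norm_real, Real.norm_of_nonneg (by positivity)] at h4
    have h5 : r * ‖C‖ ≤ r ^ 2 * ‖C‖ := mul_le_mul_of_nonneg_right (by linarith only [hr, mul_nonneg_of_nonpos_of_nonpos (Mathlib.Tactic.Linarith.sub_nonpos_of_le hr) (Mathlib.Tactic.Linarith.sub_nonpos_of_le hr)]) (norm_nonneg _)
    linarith only [h2, h3, h4, h5, h1, h1 r, h1 (-r)]

/-- Bounded displacement on a horosphere forces a vertical translation. Test on
`x0 + r z + (r^2 <z,z>/2) p` for `z` orthogonal to `x0, p` and real `r`; a bounded quadratic polynomial in `r` is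
constant; use also `i z`. -/
theorem vert_of_bdd {g : Op n} (hg : IsIsom g) {p : V n} (hp0 : p ≠ 0) (hp : form p p = 0)
    (hl : g p = p) {B : ℝ} (h : ∀ x, form x p = -1 → NN x = 1 → CC x (g x) ≤ B) :
    ∃ τ : ℝ, g = vert p τ := by
  obtain ⟨q, hq, hqp⟩ : ∃ q : V n, form q q = 0 ∧ form q p = -1 := by
    obtain ⟨a, b, h1, h2⟩ := exists_null_dual hp0 hp oo_mem_Neg
    exact ⟨_, h1, h2⟩
  have hpq : form p q = -1 := by rw [← form_conj, hqp]; simp
  have hgp : ∀ v, form p (g v) = form p v := fun v => by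
    conv_lhs => rw [← hl, hg]
  have hNp : 0 ≤ NN p := by simp [NN, hp]
  have key : ∀ z, form z p = 0 → form z q = 0 →
      form q (g z) + form z (g q) = 0 ∧ form z (g z) - form z z = 0 := by
    intro z hzp hzq
    have hpz : form p z = 0 := form_eq_zero_comm.1 hzp
    have hqz : form q z = 0 := form_eq_zero_comm.1 hzq
    refine s1_quad (A := form q (g q) - 1) (M := B) fun r => ?_
    let c : ℝ := (1 - r ^ 2 * NN z) / 2
    have h1 : NN (q + (r : ℂ) • z + (c : ℂ) • p) = 1 := by
      have : form (q + (r : ℂ) • z + (c : ℂ) • p) (q + (r : ℂ) • z + (c : ℂ) • p) = -1 := by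
        simp only [form_add_left, form_add_right, form_smul_left, form_smul_right, hp, hq, hqp, hpq,
          hzp, hzq, hpz, hqz, Complex.conj_ofReal]
        rw [form_self z]
        simp only [c]
        push_cast
        ring
      rw [NN, this]
      simp
    have h2 := h (q + (r : ℂ) • z + (c : ℂ) • p) (by
      simp only [form_add_left, form_smul_left, hp, hqp, hzp]
      ring) h1
    rw [CC, hg.NN_apply, h1, mul_one, div_one] at h2
    convert h2 using 3
    simp only [map_add, map_smul, hl, form_add_left, form_add_right, form_smul_left,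
      form_smul_right, hp, hqp, hpq, hzp, hpz, hgp, Complex.conj_ofReal]
    rw [form_self z]
    simp only [c]
    push_cast
    ring
  have hz : ∀ z, form z p = 0 → form z q = 0 → g z = z := by
    intro z hzp hzq
    have hpz : form p z = 0 := form_eq_zero_comm.1 hzp
    have hqz : form q z = 0 := form_eq_zero_comm.1 hzq
    obtain ⟨h1, h2⟩ := key z hzp hzq
    obtain ⟨h3, -⟩ := key (Complex.I • z) (by rw [form_smul_left, hzp, mul_zero])
      (by rw [form_smul_left, hzq, mul_zero])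
    rw [map_smul, form_smul_right, form_smul_left, Complex.conj_I] at h3
    have h4 : form q (g z) = 0 := by
      linear_combination (1 / 2 : ℂ) * h1 + (Complex.I / 2) * h3 +
        ((form q (g z) - form z (g q)) / 2) * Complex.I_mul_I
    have h5 : form (g z) z = form z z := by
      rw [← form_conj, sub_eq_zero.1 h2, form_conj]
    obtain ⟨c, hc⟩ := eq_smul_of_perp (v := g z - z) hp0 hNp
      (by rw [form_eq_zero_comm, form_sub_right, hgp, sub_self]) (by
        rw [NN, form_sub_left, form_sub_right, form_sub_right, hg, h5, sub_eq_zero.1 h2]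
        simp)
    have h6 := congrArg (fun v => form v q) hc
    simp only [form_sub_left, form_smul_left, hpq, hzq, form_eq_zero_comm.1 h4] at h6
    have h7 : c = 0 := by linear_combination h6
    rw [h7, zero_smul, sub_eq_zero] at hc
    exact hc
  have hdec : ∀ v : V n, form (v + form v p • q + form v q • p) p = 0 ∧
      form (v + form v p • q + form v q • p) q = 0 := by
    intro v
    simp only [form_add_left, form_smul_left, hp, hq, hqp, hpq]
    constructor <;> ring
  have hwp : form (g q - q) p = 0 := by rw [form_eq_zero_comm, form_sub_right, hgp, sub_self]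
  obtain ⟨c, hc⟩ := eq_smul_of_perp (v := g q - q) hp0 hNp hwp (by
    obtain ⟨h1, h2⟩ := hdec (g q - q)
    have h3 := (hg _ q).trans h2
    rw [hz _ h1 h2] at h3
    have h4 : form (g q - q + form (g q - q) p • q + form (g q - q) q • p) (g q - q) = 0 := by
      rw [form_sub_right, h2, h3, sub_self]
    rw [form_add_left, form_add_left, form_smul_left, form_smul_left, hwp,
      form_eq_zero_comm.1 hwp, zero_mul, mul_zero, add_zero, add_zero] at h4
    rw [NN, h4]
    simp)
  have hgq : g q = q + c • p := by rw [← hc, add_sub_cancel]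
  have hre : c.re = 0 := by
    have h1 := hg q q
    rw [hgq] at h1
    simp only [form_add_left, form_add_right, form_smul_left, form_smul_right, hp, hq, hqp,
      hpq] at h1
    have h2 := congrArg Complex.re h1
    simp at h2
    linarith only [h2]
  refine ⟨-c.im, ?_⟩
  ext1 v
  have h1 := hz _ (hdec v).1 (hdec v).2
  rw [map_add, map_add, map_smul, map_smul, hl, hgq, add_left_inj, smul_add, ← add_assoc,
    add_right_comm, add_left_inj, ← eq_sub_iff_add_eq] at h1
  have h2 : Complex.I * ((-c.im : ℝ) : ℂ) = -c := by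
    apply Complex.ext <;> simp [hre]
  rw [h1, vert, h2, add_apply, smul_apply, rk1_apply,
    smul_comm, neg_smul, sub_eq_add_neg]
  rfl

end BallQ
end
end

-- merged part: Pool.Agent.Work.MP_72250f_ag.E3aa
section
/-!
unit_eig_of_lift: fix s with Y = Im s - y0 > 1, take h from exists_isom with lift (phi s) = c h oo; t |-> act h^-1 (phi t) maps the disc of radius Y around s to
the unit ball and s to 0, so by Complex.dist_le_div_mul_dist_of_mapsTo_ball its value at s + 1 has norm at most 1 / Y, and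
CC (lift (phi s)) (g (lift (phi s))) = (1 - |value|^2)^-1 (CC_oo_lift, smul_lift_act, CC_smul). pontryagin with W = top; eig_norm_one or CC_ge_of_null.
ell_normal: exists_eigenframe on the orthogonal of y, eigenvalues exp (2 pi i w), w = fract (arg / 2 pi); compare with Frame.flow_eq on y and on the e_i.
null_normal: q null with <q,p> = -1 (exists_null_dual), H = {p,q}-perp is positive definite, pr v = v + <v,q> p; exists_eigenframe for pr g on H.
For eigenvalue l different from 1, g u = l u + c p, and e = u + (c / (l - 1)) p is an eigenvector of g. Take as frame vectors these e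
(one may keep the index set and use a subtype, Fintype.equivFin). W = common orthogonal of the frame vectors is invariant, contains p and
q - sum <q,e_j> e_j, and g v = v + c p on W meet p-perp; eq_eich.
-/

open scoped ComplexConjugate ENNReal Topology
open MeasureTheory Filter

noncomputable section

namespace BallQ

variable {n : ℕ}

theorem e3aa_proj_oo : proj (oo n) = 0 := by
  ext i
  simp [proj, oo, co_bas]

theorem e3aa_CC_le {g : GG n} (hg : IsIsom (g : Op n)) {φ : ℂ → E n} {y0 : ℝ}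
    (hφ : DifferentiableOn ℂ φ {s | y0 < s.im})
    (hb : ∀ s : ℂ, y0 < s.im → φ s ∈ Metric.ball (0 : E n) 1)
    (hp : ∀ s : ℂ, y0 < s.im → φ (s + 1) = act (g : Op n) (φ s)) {Y : ℝ} (hY : 1 < Y) :
    ∃ x ∈ Neg n, CC x ((g : Op n) x) ≤ (1 - (Y⁻¹) ^ 2)⁻¹ := by
  set s : ℂ := ((y0 + Y : ℝ) : ℂ) * Complex.I with hs
  have hsim : s.im = y0 + Y := by simp [hs]
  have hball : ∀ t ∈ Metric.ball s Y, y0 < t.im := by
    intro t ht
    have h1 : |(t - s).im| ≤ ‖t - s‖ := Complex.abs_im_le_norm _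
    rw [Metric.mem_ball, dist_eq_norm] at ht
    rw [Complex.sub_im, hsim] at h1
    have := (abs_lt.mp (h1.trans_lt ht)).1
    linarith only [this]
  have hs0 : s ∈ Metric.ball s Y := Metric.mem_ball_self (by linarith)
  have hs1 : s + 1 ∈ Metric.ball s Y := by
    rw [Metric.mem_ball, dist_eq_norm]
    simpa using hY
  have hx : lift (φ s) ∈ Neg n := lift_mem_Neg.mpr (hb s (hball s hs0))
  obtain ⟨h, hh, c, hc, hxc⟩ := exists_isom hx
  have hi : IsIsom ((h⁻¹ : GG n) : Op n) := hh.inv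
  have hco : ∀ {k : Op n}, IsIsom k → ∀ t ∈ Metric.ball s Y, co (k (lift (φ t))) none ≠ 0 :=
    fun hk t ht => co_none_ne_zero (hk.mem_Neg.mpr (lift_mem_Neg.mpr (hb t (hball t ht))))
  have hinv : ((h⁻¹ : GG n) : Op n) (lift (φ s)) = c • oo n := by
    rw [hxc, map_smul, inv_apply_apply]
  have hf0 : act ((h⁻¹ : GG n) : Op n) (φ s) = 0 := by
    rw [act, hinv, proj_smul hc, e3aa_proj_oo]
  have hd : DifferentiableOn ℂ (fun t => act ((h⁻¹ : GG n) : Op n) (φ t)) (Metric.ball s Y) := by
    intro t ht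
    exact (differentiableAt_act (hco hi t ht)).comp_differentiableWithinAt t
      ((hφ t (hball t ht)).mono hball)
  have hm : Set.MapsTo (fun t => act ((h⁻¹ : GG n) : Op n) (φ t)) (Metric.ball s Y)
      (Metric.closedBall ((fun t => act ((h⁻¹ : GG n) : Op n) (φ t)) s) 1) := by
    intro t ht
    simp only [hf0]
    exact Metric.ball_subset_closedBall (hi.act_mem (hb t (hball t ht)))
  have hw := Complex.dist_le_div_mul_dist_of_mapsTo_ball hd hm hs1
  simp only [hf0, dist_eq_norm, add_sub_cancel_left, norm_one, mul_one,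
    one_div, sub_zero] at hw
  refine ⟨lift (φ s), hx, ?_⟩
  have e1 : CC (lift (φ s)) ((g : Op n) (lift (φ s))) = CC (lift (φ s)) (lift (φ (s + 1))) := by
    rw [smul_lift_act (hco hg s hs0), CC_smul_right (hco hg s hs0), hp s (hball s hs0)]
  have e2 : CC (lift (φ s)) (lift (φ (s + 1))) =
      (1 - ‖act ((h⁻¹ : GG n) : Op n) (φ (s + 1))‖ ^ 2)⁻¹ := by
    rw [← hi.CC_apply, hinv, CC_smul_left hc, smul_lift_act (hco hi _ hs1),
      CC_smul_right (hco hi _ hs1), CC_oo_lift]
  rw [e1, e2]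
  have hY1 : Y⁻¹ < 1 := inv_lt_one_of_one_lt₀ hY
  have hY0 : 0 < Y⁻¹ := inv_pos.mpr (by linarith only [hY])
  have h2 : ‖act ((h⁻¹ : GG n) : Op n) (φ (s + 1))‖ ^ 2 ≤ (Y⁻¹) ^ 2 :=
    pow_le_pow_left₀ (norm_nonneg _) hw 2
  exact inv_anti₀ (by linarith only [hY1, hY0, mul_pos_of_neg_of_neg (Mathlib.Tactic.Linarith.sub_neg_of_lt hY1) (Mathlib.Tactic.Linarith.sub_neg_of_lt hY0)]) (by linarith only [h2])

theorem unit_eig_of_lift {g : GG n} (hg : IsIsom (g : Op n)) {φ : ℂ → E n} {y0 : ℝ}
    (hφ : DifferentiableOn ℂ φ {s | y0 < s.im})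
    (hb : ∀ s : ℂ, y0 < s.im → φ s ∈ Metric.ball (0 : E n) 1)
    (hp : ∀ s : ℂ, y0 < s.im → φ (s + 1) = act (g : Op n) (φ s)) :
    ∃ y : V n, y ≠ 0 ∧ 0 ≤ NN y ∧ ∃ c : ℂ, ‖c‖ = 1 ∧ (g : Op n) y = c • y := by
  obtain ⟨y, -, hy0, hy, c, hc⟩ := pontryagin ⊤ hg (fun _ _ => Submodule.mem_top)
    ⟨oo n, Submodule.mem_top, oo_mem_Neg⟩
  refine ⟨y, hy0, hy, c, ?_, hc⟩
  by_cases hN : NN y = 0
  swap
  · exact eig_norm_one hg hN hc
  have hyy : form y y = 0 := by rw [form_self, hN]; simp
  have hc0 : c ≠ 0 := by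
    rintro rfl
    rw [zero_smul] at hc
    exact hy0 (hg.injective (by rw [hc, map_zero]))
  have ht : 0 < ‖c‖ := norm_pos_iff.mpr hc0
  have hlim : Tendsto (fun Y : ℝ => (1 - (Y⁻¹) ^ 2)⁻¹) atTop (𝓝 1) := by
    have h1 : Tendsto (fun Y : ℝ => 1 - (Y⁻¹) ^ 2) atTop (𝓝 (1 - 0 ^ 2)) :=
      tendsto_const_nhds.sub (tendsto_inv_atTop_zero.pow 2)
    simpa using h1.inv₀ (by norm_num)
  have hK : ((‖c‖ + ‖c‖⁻¹) / 2) ^ 2 ≤ 1 := by
    refine ge_of_tendsto hlim ?_
    filter_upwards [eventually_gt_atTop (1 : ℝ)] with Y hY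
    obtain ⟨x, hx, hxY⟩ := e3aa_CC_le hg hφ hb hp hY
    exact (CC_ge_of_null hg hx hy0 hyy hc).trans hxY
  have h1 : (‖c‖ + ‖c‖⁻¹) / 2 ≤ 1 := by
    rwa [sq_le_one_iff₀ (by positivity)] at hK
  have h2 : ‖c‖ * ‖c‖⁻¹ = 1 := mul_inv_cancel₀ ht.ne'
  have h3 : (‖c‖ - 1) ^ 2 ≤ 0 := by linarith only [h2, ht, h1, mul_nonneg_of_nonpos_of_nonpos (le_of_lt (Mathlib.Tactic.Linarith.sub_neg_of_lt ht)) (Mathlib.Tactic.Linarith.sub_nonpos_of_le h1)]
  have h4 : ‖c‖ - 1 = 0 := pow_eq_zero_iff (two_ne_zero) |>.mp (le_antisymm h3 (sq_nonneg _))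
  linarith only [h4]

theorem e3aa_exp_fract {c : ℂ} (hc : ‖c‖ = 1) :
    Complex.exp (2 * Real.pi * Complex.I * 1 * (Int.fract (Complex.arg c / (2 * Real.pi)) : ℝ))
      = c := by
  have hpi : (Real.pi : ℂ) ≠ 0 := by exact_mod_cast Real.pi_ne_zero
  have h1 : 2 * Real.pi * Complex.I * 1 * (Int.fract (Complex.arg c / (2 * Real.pi)) : ℝ) =
      Complex.arg c * Complex.I -
        (⌊Complex.arg c / (2 * Real.pi)⌋ : ℤ) * (2 * Real.pi * Complex.I) := by
    rw [Int.fract]
    push_cast
    field_simp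
  rw [h1, Complex.exp_sub, Complex.exp_int_mul_two_pi_mul_I, div_one]
  have := Complex.norm_mul_exp_arg_mul_I c
  rwa [hc, Complex.ofReal_one, one_mul] at this

theorem ell_normal {g : Op n} (hg : IsIsom g) {y : V n} (hy : y ∈ Neg n) (hgy : g y = y) :
    ∃ M : Op n, IsGenLt 1 M ∧ g = flow M 1 := by
  let W : Submodule ℂ (V n) := LinearMap.ker (formL y).toLinearMap
  have hW : ∀ v, v ∈ W ↔ form v y = 0 := fun v => Iff.rfl
  obtain ⟨m, e, c, heW, hon, hc, hge, hsp⟩ := exists_eigenframe W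
    (fun v hv h0 => pos_of_perp_neg hy ((hW v).mp hv) h0) (g := g)
    (fun v hv => (hW _).mpr (by rw [← hgy, hg, (hW v).mp hv])) (fun v _ w _ => hg v w)
  let F : Frame n :=
    { m := m, e := e, w := fun i => Int.fract (Complex.arg (c i) / (2 * Real.pi)), p := 0
      on := hon, pp := by simp, pe := by simp
      w0 := fun i => Int.fract_nonneg _, w1 := fun i => (Int.fract_lt_one _).le }
  refine ⟨F.op, ⟨F, fun i => Int.fract_lt_one _, rfl⟩, ?_⟩
  ext1 v
  rw [g1a_flow_apply]
  have hyy : form y y ≠ 0 := by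
    rw [form_self, neg_ne_zero]
    exact_mod_cast (ne_of_gt hy)
  set a : ℂ := form v y / form y y with ha
  have hv' : v - a • y ∈ W := by
    rw [hW, form_sub_left, form_smul_left, ha, div_mul_cancel₀ _ hyy, sub_self]
  have hye : ∀ i, form y (e i) = 0 := fun i => form_eq_zero_comm.mp ((hW _).mp (heW i))
  have hexp : v - a • y = ∑ i, form v (e i) • e i := by
    rw [hsp _ hv']
    refine Finset.sum_congr rfl fun i _ => ?_
    rw [form_sub_left, form_smul_left, hye, mul_zero, sub_zero]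
  have hgv : g v = a • y + ∑ i, (form v (e i) * c i) • e i := by
    have : v = a • y + ∑ i, form v (e i) • e i := by rw [← hexp]; abel
    conv_lhs => rw [this]
    rw [map_add, map_smul, hgy, map_sum]
    simp only [map_smul, hge, smul_smul]
  have hF : ∑ i, ((Complex.exp (2 * Real.pi * Complex.I * 1 * F.w i) - 1) * form v (F.e i)) • F.e i
      = ∑ i, (form v (e i) * c i) • e i - ∑ i, form v (e i) • e i := by
    rw [← Finset.sum_sub_distrib]
    refine Finset.sum_congr rfl fun i _ => ?_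
    have := e3aa_exp_fract (hc i)
    change ((Complex.exp (2 * Real.pi * Complex.I * 1 *
      (Int.fract (Complex.arg (c i) / (2 * Real.pi)) : ℝ)) - 1) * form v (e i)) • e i = _
    rw [this, ← sub_smul]
    congr 1
    ring
  have hp0 : F.p = 0 := rfl
  rw [hF, hp0, smul_zero, add_zero, hgv, ← hexp]
  abel

end BallQ
end
end
end
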