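import Pool.Agent.Work.MP_72250f_ag.Z5
import Pool.Agent.Work.MP_72250f_ag.A4
import Pool.Agent.Work.MP_72250f_ag.Z1
import Pool.Agent.Work.MP_72250f_ag.S1b
import Pool.Agent.Work.MP_72250f_ag.Z4

-- merged part: Pool.Agent.Work.MP_72250f_ag.M5
section
/-!
The scaling lemma. Parametrise the contractions by nu: round D: M = 1 - (1 - sqrt(1 - nu)) D = flow D (i y) with
1 - nu = exp(-4 pi y), nu in (0,1), th = 1 - nu; null D: M = 1 - (nu / 2) D = flow D (i y), nu = 4 pi y in (0, oo), th = 1.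
Then NN (M v) = NN v + nu pi(v), pi(M v) = th pi(v), |det M|^2 <= th, where pi v = Re <D v, v>. Put 1 - b1 = (1 - b)(1 + 1/n);
if b1 <= 0 the claim follows from S in S' (y = 0) and (1 + 1/n)^n <= 3. Otherwise apply lintegral_JQ for each nu to
f_nu = indicator of S and of sigma in [b1,b], times mu D / th^2, with sigma = nu mu D / th (then M^-1 x is negative with
NN (M^-1 x) = (1 - sigma) NN x), and integrate over nu (Tonelli). For fixed x the nu integral of f_nu x is b - b1 (when mu D x > 0,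
which holds a.e. by nu_submodule for ker D); for fixed x' the nu integral of f_nu (M x') Jac is at most the indicator of S' times
the integral of p (1 + nu p)^-(n+2) over nu p >= b1 / (1 - b1), that is (1 - b1)^(n+1) / (n+1), p = mu D x'.
vol_gain: unfold_le and scale_tube with 1 - b = (s + eta)/(s' + eta). vol_HB: vol_gain for sysC with eta = 0
(dirFor_null), X empty, and mult_sysC.
-/

open scoped ComplexConjugate ENNReal Topology
open MeasureTheory Filter

noncomputable section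

namespace BallQ

variable {n : ℕ}

theorem eqvS_TubeS {Γ : Subgroup (GG n)} (hΓ : Proper Γ) (I : Set (Set (Op n))) (s : ℝ) :
    EqvS Γ I (fun F => TubeS F s) := ⟨fun F _ => (isOpen_TubeS F s).measurableSet, fun F _ => TubeS_subset_Neg F s,
    fun F _ => isCone_TubeS F s, fun g hg F _ => mem_TubeS_cnjS (hΓ.isom g hg) F s⟩

theorem EqvS.diff {Γ : Subgroup (GG n)} {I : Set (Set (Op n))} {S T : Set (Op n) → Set (V n)}
    (hS : EqvS Γ I S) (hT : EqvS Γ I T) : EqvS Γ I (fun F => S F \ T F) := by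
  refine ⟨fun F hF => (hS.meas F hF).diff (hT.meas F hF),
    fun F hF => Set.sdiff_subset.trans (hS.neg F hF),
    fun F hF c hc v hv => ⟨hS.cone F hF c hc v hv.1, fun h => hv.2 ?_⟩,
    fun g hg F hF v => and_congr (hS.eqv g hg F hF v) (hT.eqv g hg F hF v).not⟩
  simpa [hc] using hT.cone F hF _ (inv_ne_zero hc) _ h

theorem Region.eqvS {Γ : Subgroup (GG n)} {S : Set (V n)} (hS : Region Γ S)
    (I : Set (Set (Op n))) : EqvS Γ I (fun _ => S) := by
  refine ⟨fun _ _ => hS.meas, fun _ _ => hS.neg, fun _ _ => hS.cone,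
    fun g hg _ _ v => ⟨fun h => ?_, hS.inv g hg v⟩⟩
  simpa only [inv_apply_apply] using hS.inv _ (Γ.inv_mem hg) _ h

theorem m5_vol {S : Set (V n)} (hS : MeasurableSet S) (ψ : V n → ℝ≥0∞) :
    ∫⁻ v, S.indicator 1 v * ψ v ∂(nu n) = volW S ψ := by
  rw [volW, ← lintegral_indicator hS]
  refine lintegral_congr fun v => ?_
  by_cases hv : v ∈ S <;> simp [hv]

theorem vol_gain (hn : 1 ≤ n) {Γ : Subgroup (GG n)} (hΓ : Proper Γ) {ψ : V n → ℝ≥0∞}
    (hψ : IsWeight Γ ψ) {I : Set (Set (Op n))} (hI : InvI Γ I) {X : Set (Op n) → Set (V n)}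
    (hX : EqvS Γ I X) {η s s' : ℝ} (hη : 0 ≤ η) (hs : 0 < s) (hss : s ≤ s')
    (h : ∀ F ∈ I, ∃ D : Op n, IsDir D ∧ (∀ g ∈ stab Γ F, Commute (g : Op n) D) ∧
      (∀ M ∈ F, DirFor D η M) ∧ ∀ y : ℝ, 0 ≤ y → ∀ x ∈ TubeS F s', x ∈ X F →
        flow D (y * Complex.I) x ∈ X F) :
    ∫⁻ v, mult I (fun F => TubeS F s \ X F) v * ψ v ∂(nu n) ≤
      ENNReal.ofReal (3 * ((s + η) / (s' + η)) ^ n) *
        ∫⁻ v, mult I (fun F => TubeS F s' \ X F) v * ψ v ∂(nu n) := by
  have h1 : InvF Γ 1 := ⟨measurable_one, fun _ _ _ => rfl, fun _ _ _ => rfl⟩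
  have hS := fun s => (eqvS_TubeS hΓ I s).diff hX
  refine unfold_le hΓ hψ hI ((hS s).eqvF h1) ((hS s').eqvF h1) _ fun F hF ψ' hψ' => ?_
  obtain ⟨D, hD, hc, hd, hx⟩ := h F hF
  have h0 : 0 < s' + η := by linarith only [hη, hs, hss]
  rw [m5_vol ((hS s).meas F hF), m5_vol ((hS s').meas F hF), ← sub_sub_cancel 1 (_ / _)]
  refine scale_tube hn (hΓ.mono (stab_le Γ F)) hψ' hD hc ((hS s).region hF) ((hS s').region hF)
    (sub_nonneg.2 ((div_le_one h0).2 (by linarith only [hss]))) (sub_lt_self _ (by positivity))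
    fun y hy x hxN hxS hle => ?_
  obtain ⟨M, hM, h2, h3⟩ : ∃ M ∈ F, flow D (y * Complex.I) x ∈ Tube M s := by
    simpa [TubeS] using hxS.1
  have h4 : x ∈ TubeS F s' := by
    refine Set.mem_biUnion hM ⟨hxN, (div_lt_iff₀ hxN).2 ?_⟩
    rw [mu, div_lt_iff₀ h2] at h3
    rw [sub_sub_cancel, div_mul_eq_mul_div, div_le_iff₀ h0] at hle
    linarith only [hle, h3, hd, hM, hy, hd M hM y hy x]
  exact ⟨h4, fun h5 => hxS.2 (hx y hy x h4 h5)⟩

theorem vol_HB (hn : 1 ≤ n) {Γ : Subgroup (GG n)} (hΓ : Proper Γ) {ψ : V n → ℝ≥0∞}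
    (hψ : IsWeight Γ ψ) {t t' : ℝ} (ht : 0 < t) (htt : t ≤ t') (ht' : t' ≤ t1) :
    volW (HB Γ t) ψ ≤ ENNReal.ofReal (3 * (t / t') ^ n) * volW (HB Γ t') ψ := by
  have h := vol_gain hn hΓ hψ (invI_sysC hΓ) (X := fun _ => ∅)
    ⟨fun _ _ => .empty, fun _ _ => Set.empty_subset _, fun _ _ _ _ _ h => h,
      fun _ _ _ _ _ => Iff.rfl⟩ le_rfl ht htt (by
      rintro _ ⟨M, hM, rfl⟩
      refine ⟨M, .inr hM.1.1, fun g hg => cnj_eq_iff.1 ?_, ?_, fun _ _ _ _ h => h⟩
      · simpa [cnjS] using hg.2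
      · rintro _ rfl
        refine dirFor_null hM.1.1 (hM.1.1.isGenLt 1).isGen ?_ le_rfl
        obtain ⟨p, -, hp, rfl⟩ := hM.1.1
        rw [rk1_mul_rk1, hp, zero_smul])
  simpa only [Set.sdiff_empty, add_zero, mult_sysC hΓ ht', mult_sysC hΓ (htt.trans ht'),
    m5_vol (region_HB hΓ _).meas] using h

end BallQ
end
end

-- merged part: Pool.Agent.Work.MP_72250f_ag.A5a
section
/-!
Cost of a system of families. mass_good_ne_top: single_le for f F = indicator (TubeS F s) (petE G), the multiplicity is at most cnt 4,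
and cnt * petE <= cnt^2 * petE <= B (1 <= zc <= cnt). avoid_HB: let I' be the system of singletons of cusp generators Mc with
Mc killing F; a point of TubeS F s in HB t3 lies in Tube Mc t3 for such an Mc (FamOK.cusp). Use unfold_le for the group stab Gamma F,
f {Mc} = indicator (TubeS F s meet Tube Mc t3) petE, g {Mc} = indicator (TubeS F (2s) meet Tube Mc (2 t3)) petE and avoid with
4 pi y t3 = 1/2, t = 2 t3: flow Mc (-i y) divides NN by at most 2 and keeps Re <M v,v> for M in F and for Mc. The factor is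
C exp(-Jc/(2 t3)) 2^w <= C (2 / e^2)^w. The tubes Tube Mc t1 are disjoint (cusp_disjoint).
family_cost: K F = kernel of P (characterised by the conditions, cond_cnj), family_proj with theta = 1/2, s' = s0, rank_le with
alpha = 4, S = TubeS F s minus HB t3, delta = R / w (mu_ball, age_le, massF_le_two_mass0), rank-nullity, rank_unfold with
g F = 8 indicator S cnt Gamma (1 + 8 delta). Finally dominated convergence: on the cocompact set Neg minus HB t3 both mult and cnt
are bounded (cnt_bdd, SysOK.few), cnt tends to zc a.e. (ae_free, cnt_eventually).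
-/

open scoped ComplexConjugate ENNReal Topology
open MeasureTheory Filter

noncomputable section

namespace BallQ

variable {n : ℕ}

theorem a5a_mass_eq (w : ℕ) (G : V n → ℂ) {S : Set (V n)} (hS : MeasurableSet S)
    (ψ : V n → ℝ≥0∞) :
    mass w G S ψ = ∫⁻ v, S.indicator (petE w G) v * ψ v ∂(nu n) := by
  unfold mass
  rw [← lintegral_indicator hS]
  refine lintegral_congr fun v => ?_
  by_cases hv : v ∈ S <;> simp [hv]

theorem a5a_inter {Γ : Subgroup (GG n)} {I : Set (Set (Op n))} {S T : Set (Op n) → Set (V n)}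
    (hS : EqvS Γ I S) (hT : EqvS Γ I T) : EqvS Γ I (fun F => S F ∩ T F) where
  meas := fun F hF => (hS.meas F hF).inter (hT.meas F hF)
  neg := fun F hF _ hv => hS.neg F hF hv.1
  cone := fun F hF c hc v hv => ⟨hS.cone F hF c hc v hv.1, hT.cone F hF c hc v hv.2⟩
  eqv := fun g hg F hF v => by
    simp only [Set.mem_inter_iff]
    rw [hS.eqv g hg F hF v, hT.eqv g hg F hF v]

theorem a5a_null_sq {Mc : Op n} (h : IsNull Mc) : Mc * Mc = 0 := by
  obtain ⟨p, -, hp, rfl⟩ := h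
  rw [rk1_mul_rk1, hp, zero_smul]

theorem a5a_form_flow {Mc M : Op n} (h : IsNull Mc) (h1 : M * Mc = 0) (h2 : Mc * M = 0) (s : ℂ)
    (v : V n) : form (M (flow Mc s v)) (flow Mc s v) = form (M v) v := by
  have hg : IsGen Mc := (h.isGenLt 1).isGen
  have e1 : M (Mc v) = 0 := by
    rw [← mul_apply_eq_comp, h1]
    rfl
  have e2 : Mc (M v) = 0 := by
    rw [← mul_apply_eq_comp, h2]
    rfl
  have e3 : form (M v) (Mc v) = 0 := by
    rw [← hg.selfadj, e2, form_zero_left]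
  obtain ⟨p, -, hp, rfl⟩ := h
  have e4 : flow (rk1 p p) s v = v + (2 * Real.pi * Complex.I * s) • rk1 p p v := by
    rw [flow_null hp]
    rfl
  rw [e4, map_add, map_smul, e1, smul_zero, add_zero, form_add_right, form_smul_right, e3,
    mul_zero, add_zero]

theorem a5a_tube_flow {Mc M : Op n} (h : IsNull Mc) (h1 : M * Mc = 0) (h2 : Mc * M = 0)
    {y t s : ℝ} (hy : 0 < y) (hyt : 4 * Real.pi * y * t = 1 / 2) (hs : 0 < s) {v : V n}
    (hv : v ∈ Tube Mc t) (hv' : v ∈ Tube M s) :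
    flow Mc (-(y * Complex.I)) v ∈ Tube M (2 * s) := by
  have hN : 0 < NN v := hv.1
  have a1 : (form (Mc v) v).re < t * NN v := by
    have := hv.2
    rwa [mu, div_lt_iff₀ hN] at this
  have a2 : (form (M v) v).re < s * NN v := by
    have := hv'.2
    rwa [mu, div_lt_iff₀ hN] at this
  have a3 : NN (flow Mc (-(y * Complex.I)) v) =
      NN v - 4 * Real.pi * y * (form (Mc v) v).re := by
    rw [h.NN_flow]
    simp
    ring
  have hpy : 0 < 4 * Real.pi * y := by positivity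
  have a4 : NN v / 2 < NN (flow Mc (-(y * Complex.I)) v) := by
    rw [a3]
    have := mul_lt_mul_of_pos_left a1 hpy
    have e : 4 * Real.pi * y * (t * NN v) = NN v / 2 := by
      rw [← mul_assoc, hyt]
      ring
    linarith only [this, e]
  have a5 : 0 < NN (flow Mc (-(y * Complex.I)) v) := by linarith only [hN, a4]
  refine ⟨a5, ?_⟩
  rw [mu, a5a_form_flow h h1 h2, div_lt_iff₀ a5]
  linarith only [a2, hs, a4, mul_pos_of_neg_of_neg (Mathlib.Tactic.Linarith.sub_neg_of_lt hs) (Mathlib.Tactic.Linarith.sub_neg_of_lt a4)]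

theorem a5a_mem_single {M : Op n} {t : ℝ} {v : V n} : v ∈ TubeS {M} t ↔ v ∈ Tube M t := by
  simp [TubeS]

theorem a5a_mem_TubeS {F : Set (Op n)} {t : ℝ} {v : V n} :
    v ∈ TubeS F t ↔ ∃ M ∈ F, v ∈ Tube M t := by
  simp [TubeS]

theorem a5a_Tube_mono (M : Op n) {t t' : ℝ} (h : t ≤ t') : Tube M t ⊆ Tube M t' :=
  fun _ hv => ⟨hv.1, lt_of_lt_of_le hv.2 h⟩

theorem a5a_const {k : ℕ} (hk : 4 ≤ k) :
    Real.exp (-(4 * Real.pi * (1 / (8 * Real.pi * t3)) * (Jc n k : ℕ))) *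
      ((1 - Real.exp (-(2 * Real.pi * (1 / (8 * Real.pi * t3)))))⁻¹) ^ 2 *
      (1 + 4 * Real.pi * (1 / (8 * Real.pi * t3)) * (2 * t3)) ^ (k * (n + 1)) ≤ 1 / 4 := by
  have hpi := Real.pi_pos
  have e1 : 4 * Real.pi * (1 / (8 * Real.pi * t3)) = 64000 := by
    unfold t3
    field_simp
    norm_num
  have e2 : 2 * Real.pi * (1 / (8 * Real.pi * t3)) = 32000 := by
    unfold t3
    field_simp
    norm_num
  have e3 : (1 : ℝ) + 64000 * (2 * t3) = 2 := by
    unfold t3
    norm_num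
  rw [e1, e2, e3]
  set w := k * (n + 1) with hw
  have hw4 : 4 ≤ w := by
    rw [hw]
    linarith only [hk, mul_nonneg_of_nonpos_of_nonpos (Mathlib.Tactic.Linarith.sub_nonpos_of_le (Mathlib.Tactic.Linarith.natCast_nonneg ℤ k)) (Mathlib.Tactic.Linarith.sub_nonpos_of_le (Mathlib.Tactic.Linarith.natCast_nonneg ℤ n))]
  have hJ : t2 * (w : ℝ) ≤ (Jc n k : ℕ) := by
    have := Nat.le_ceil (t2 * ((k : ℝ) * ((n : ℝ) + 1)))
    rw [hw]
    push_cast
    exact this
  have b1 : Real.exp (-(64000 * ((Jc n k : ℕ) : ℝ))) ≤ (1 / 4) ^ w := by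
    have h2 : (4 : ℝ) ≤ Real.exp 2 := by
      have h := Real.add_one_le_exp (1 : ℝ)
      have e : Real.exp 2 = Real.exp 1 * Real.exp 1 := by
        rw [← Real.exp_add]
        norm_num
      rw [e]
      linarith only [h, mul_nonneg_of_nonpos_of_nonpos (Mathlib.Tactic.Linarith.sub_nonpos_of_le h) (Mathlib.Tactic.Linarith.sub_nonpos_of_le h)]
    have h3 : Real.exp (-2) ≤ 1 / 4 := by
      rw [Real.exp_neg, one_div]
      exact inv_anti₀ (by norm_num) h2
    calc Real.exp (-(64000 * ((Jc n k : ℕ) : ℝ))) ≤ Real.exp ((w : ℝ) * (-2)) := by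
          apply Real.exp_le_exp.mpr
          unfold t2 at hJ
          linarith only [hJ]
      _ = Real.exp (-2) ^ w := Real.exp_nat_mul _ _
      _ ≤ (1 / 4) ^ w := pow_le_pow_left₀ (Real.exp_pos _).le h3 w
  have b2 : ((1 - Real.exp (-32000))⁻¹) ^ 2 ≤ (4 : ℝ) := by
    have h1 : Real.exp (-32000) ≤ 1 / 2 := by
      have h := Real.add_one_le_exp (32000 : ℝ)
      rw [Real.exp_neg, one_div]
      exact inv_anti₀ (by norm_num) (by linarith only [h])
    have h2 : (1 - Real.exp (-32000))⁻¹ ≤ 2 := by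
      rw [inv_le_comm₀ (by linarith only [h1]) (by norm_num)]
      linarith only [h1]
    have h3 : 0 ≤ (1 - Real.exp (-32000))⁻¹ := inv_nonneg.mpr (by linarith only [h1])
    linarith only [h2, h3, mul_nonneg_of_nonpos_of_nonpos (Mathlib.Tactic.Linarith.sub_nonpos_of_le h2) (Mathlib.Tactic.Linarith.sub_nonpos_of_le h3)]
  have b3 : ((1 : ℝ) / 2) ^ w ≤ (1 / 2) ^ 4 :=
    pow_le_pow_of_le_one (by norm_num) (by norm_num) hw4
  calc Real.exp (-(64000 * ((Jc n k : ℕ) : ℝ))) * ((1 - Real.exp (-32000))⁻¹) ^ 2 * 2 ^ w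
      ≤ (1 / 4) ^ w * 4 * 2 ^ w := by gcongr
    _ = 4 * (1 / 2) ^ w := by
        rw [mul_assoc, mul_comm (4 : ℝ), ← mul_assoc, ← mul_pow, mul_comm]
        norm_num
    _ ≤ 1 / 4 := by linarith only [b3, b3, show ((1 : ℝ) / 2) ^ 4 = 1 / 16 by norm_num]

theorem mass_good_ne_top {Γ : Subgroup (GG n)} (hΓ : Proper Γ) {ψ : V n → ℝ≥0∞}
    (hψ : IsWeight Γ ψ) (hv : ∫⁻ v, ψ v ∂(nu n) ≠ ⊤) {I : Set (Set (Op n))} (hI : InvI Γ I)
    {s : ℝ} (hfew : ∀ x ∈ Neg n, mult I (fun F => TubeS F s) x ≤ cnt Γ x 4) {F : Set (Op n)}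
    (hF : F ∈ I) {ψ' : V n → ℝ≥0∞} (hψ' : IsWeight (stab Γ F) ψ') {k : ℕ} {G : V n → ℂ}
    (hG : IsGood Γ k G) : mass (k * (n + 1)) G (TubeS F s) ψ' ≠ ⊤ := by
  have hf : EqvF Γ I (fun F => (TubeS F s).indicator (petE (k * (n + 1)) G)) :=
    (eqvS_TubeS hΓ I s).eqvF (hG.hol.invF hΓ hG.inv)
  obtain ⟨B, hB, hdec⟩ := hG.dec
  rw [a5a_mass_eq _ _ (isOpen_TubeS F s).measurableSet]
  refine ne_top_of_le_ne_top (ENNReal.mul_ne_top hB hv) ?_
  refine (single_le hΓ hψ hI hf hF hψ').trans ?_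
  rw [← lintegral_const_mul' _ _ hB]
  refine lintegral_mono_ae ?_
  filter_upwards [ae_nu] with v hv'
  refine mul_le_mul_left ?_ _
  have e : ∑' F : I, (TubeS (F : Set (Op n)) s).indicator (petE (k * (n + 1)) G) v =
      mult I (fun F => TubeS F s) v * petE (k * (n + 1)) G v := by
    unfold mult
    rw [← ENNReal.tsum_mul_right]
    refine tsum_congr fun F => ?_
    by_cases h : v ∈ TubeS (F : Set (Op n)) s <;> simp [h]
  rw [e]
  refine le_trans ?_ (hdec v hv'.1)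
  refine mul_le_mul_left ((hfew v hv'.1).trans ?_) _
  have h1 : 1 ≤ cnt Γ v 4 := (one_le_zc Γ).trans (zc_le_cnt hv'.1 (by norm_num))
  calc cnt Γ v 4 = cnt Γ v 4 * 1 := (mul_one _).symm
    _ ≤ cnt Γ v 4 * cnt Γ v 4 := mul_le_mul_right h1 _
    _ = cnt Γ v 4 ^ 2 := (sq _).symm

theorem avoid_HB (n : ℕ) : ∀ᶠ k : ℕ in atTop, ∀ Γ : Subgroup (GG n), Proper Γ →
    ∀ F : Set (Op n), FamOK Γ F → ∀ ψ : V n → ℝ≥0∞, IsWeight (stab Γ F) ψ →
    ∀ s : ℝ, 0 < s → 2 * s ≤ s0 → ∀ G : V n → ℂ, IsHol (k * (n + 1)) G → Inv (stab Γ F) G →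
    (∀ Mc, Cusp Γ Mc → (∀ M ∈ F, Commute M Mc) → Per k Mc G ∧ Cond k Mc (Jc n k) G) →
    mass (k * (n + 1)) G (TubeS F s ∩ HB Γ t3) ψ ≤
      4⁻¹ * mass (k * (n + 1)) G (TubeS F s0) ψ := by
  filter_upwards [eventually_ge_atTop 4] with k hk Γ hΓ F hF ψ hψ s hs hs0 G hG hi hC
  have ht3 : 0 < t3 := by
    unfold t3
    norm_num
  have ht31 : 2 * t3 ≤ t1 := by
    unfold t3 t1
    norm_num
  have hΛ : Proper (stab Γ F) := hΓ.mono (stab_le _ _)
  set I' : Set (Set (Op n)) :=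
    {F' | ∃ Mc, Cusp Γ Mc ∧ (∀ M ∈ F, M * Mc = 0 ∧ Mc * M = 0) ∧ F' = {Mc}} with hI'
  have hinv : InvI (stab Γ F) I' := by
    refine ⟨(invI_sysC hΓ).1.mono ?_, ?_⟩
    · rintro F' ⟨Mc, h1, -, rfl⟩
      exact ⟨Mc, h1, rfl⟩
    · rintro g hg F' ⟨Mc, h1, h2, rfl⟩
      refine ⟨cnj g Mc, h1.cnj hΓ (le_plus Γ hg.1), ?_, by simp [cnjS]⟩
      intro M hM
      rw [← hg.2] at hM
      obtain ⟨M0, hM0, rfl⟩ := hM
      rw [← cnj_mul_cnj, ← cnj_mul_cnj, (h2 M0 hM0).1, (h2 M0 hM0).2]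
      simp [cnj]
  have hR : ∀ r : ℝ, Region (stab Γ F) (TubeS F r) :=
    fun r => region_TubeS hΛ (fun g hg => hg.2) r
  have hS : ∀ r t : ℝ, EqvS (stab Γ F) I' (fun F' => TubeS F r ∩ TubeS F' t) :=
    fun r t => a5a_inter ((hR r).eqvS I') (eqvS_TubeS hΛ I' t)
  have hp : InvF (stab Γ F) (petE (k * (n + 1)) G) := hG.invF hΛ hi
  have key := unfold_le hΛ hψ hinv ((hS s t3).eqvF hp) ((hS (2 * s) (2 * t3)).eqvF hp) 4⁻¹ ?_
  · rw [a5a_mass_eq _ _ ((hR s).meas.inter (region_HB hΓ t3).meas),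
      a5a_mass_eq _ _ (hR s0).meas]
    refine le_trans ?_ (key.trans ?_)
    · refine lintegral_mono fun v => mul_le_mul_left ?_ _
      by_cases hv : v ∈ TubeS F s ∩ HB Γ t3
      · obtain ⟨Mc, hMc, hvM⟩ := a5a_mem_TubeS.mp hv.2
        have hkill := hF.cusp Mc hMc ⟨v, a5a_Tube_mono Mc (by linarith only [ht3, ht31]) hvM,
          TubeS_mono F (by linarith only [hs, hs0]) hv.1⟩
        have hmem : ({Mc} : Set (Op n)) ∈ I' := ⟨Mc, hMc, hkill, rfl⟩
        refine le_trans ?_ (ENNReal.le_tsum (⟨{Mc}, hmem⟩ : I'))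
        have h1 : v ∈ TubeS F s ∩ TubeS {Mc} t3 := ⟨hv.1, a5a_mem_single.mpr hvM⟩
        simp only [Set.indicator_of_mem hv, Set.indicator_of_mem h1, le_refl]
      · simp only [Set.indicator_of_notMem hv, zero_le]
    · refine mul_le_mul_right (lintegral_mono fun v => mul_le_mul_left ?_ _) _
      by_cases hv : ∃ F' : I', v ∈ TubeS F (2 * s) ∩ TubeS (F' : Set (Op n)) (2 * t3)
      · obtain ⟨F', hF'⟩ := hv
        rw [tsum_eq_single F']
        · rw [Set.indicator_of_mem hF', Set.indicator_of_mem (TubeS_mono F hs0 hF'.1)]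
        · intro F'' hne
          refine Set.indicator_of_notMem (fun h => hne ?_) _
          obtain ⟨M1, hM1, -, e1⟩ := F'.2
          obtain ⟨M2, hM2, -, e2⟩ := F''.2
          have h1 := hF'.2
          have h2 := h.2
          rw [e1] at h1
          rw [e2] at h2
          have := cusp_disjoint hΓ hM2 hM1
            (a5a_Tube_mono M2 ht31 (a5a_mem_single.mp h2))
            (a5a_Tube_mono M1 ht31 (a5a_mem_single.mp h1))
          apply Subtype.ext
          rw [e1, e2, this]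
      · have : ∀ F' : I', (TubeS F (2 * s) ∩ TubeS (F' : Set (Op n)) (2 * t3)).indicator
            (petE (k * (n + 1)) G) v = 0 :=
          fun F' => Set.indicator_of_notMem (fun h => hv ⟨F', h⟩) _
        simp only [this, tsum_zero, zero_le]
  · intro F' hF' ψ' hψ'
    have hA := (hS s t3).region hF'
    have hB := (hS (2 * s) (2 * t3)).region hF'
    obtain ⟨Mc, hMc, hkill, rfl⟩ := hF'
    have hnull : IsNull Mc := hMc.1.1
    have hgen : IsGen Mc := (hnull.isGenLt 1).isGen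
    have hsq := a5a_null_sq hnull
    have hcomm : ∀ M ∈ F, Commute M Mc := fun M hM => by
      rw [Commute, SemiconjBy, (hkill M hM).1, (hkill M hM).2]
    have hΛ' : Proper (stab (stab Γ F) {Mc}) := hΛ.mono (stab_le _ _)
    have hi' : Inv (stab (stab Γ F) {Mc}) G := fun g hg => hi g hg.1
    have hc' : ∀ g ∈ stab (stab Γ F) {Mc}, Commute (g : Op n) Mc := by
      intro g hg
      have := hg.2
      rw [cnjS, Set.image_singleton, Set.singleton_eq_singleton_iff] at this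
      exact cnj_eq_iff.mp this
    have hy : 0 < 1 / (8 * Real.pi * t3) := by
      have := Real.pi_pos
      positivity
    have hyt : 4 * Real.pi * (1 / (8 * Real.pi * t3)) * t3 = 1 / 2 := by
      have := Real.pi_pos
      field_simp
      norm_num
    have hw : n + 1 ≤ k * (n + 1) := Nat.le_mul_of_pos_left _ (by omega)
    have main := avoid hΛ' hψ' hw hG hi' hnull hc' (hC Mc hMc hcomm).1 (hC Mc hMc hcomm).2 hA hB
      (y := 1 / (8 * Real.pi * t3)) (t := 2 * t3) ?_ hy (by linarith only [ht3]) ?_ ?_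
    · rw [a5a_mass_eq _ _ hA.meas, a5a_mass_eq _ _ hB.meas] at main
      refine main.trans (mul_le_mul_left ?_ _)
      refine (ENNReal.ofReal_le_ofReal (a5a_const hk)).trans (le_of_eq ?_)
      rw [one_div, ENNReal.ofReal_inv_of_pos (by norm_num)]
      simp
    · intro x v hv
      obtain ⟨M, hM, hvM⟩ := a5a_mem_TubeS.mp hv.1
      have hvc := a5a_mem_single.mp hv.2
      have hneg : flow Mc x v ∈ Neg n := (hgen.isIsom_flow x).mem_Neg.mpr hvM.1
      refine ⟨a5a_mem_TubeS.mpr ⟨M, hM, hneg, ?_⟩, a5a_mem_single.mpr ⟨hneg, ?_⟩⟩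
      · rw [mu_flow_real hgen (hcomm M hM).symm]
        exact hvM.2
      · rw [mu_flow_real hgen (Commute.refl Mc)]
        exact hvc.2
    · intro v hv
      obtain ⟨M, hM, hvM⟩ := a5a_mem_TubeS.mp hv.1
      have hvc := a5a_mem_single.mp hv.2
      exact ⟨a5a_mem_TubeS.mpr ⟨M, hM,
          a5a_tube_flow hnull (hkill M hM).1 (hkill M hM).2 hy hyt hs hvc hvM⟩,
        a5a_mem_single.mpr (a5a_tube_flow hnull hsq hsq hy hyt ht3 hvc hvc)⟩
    · intro v hv
      exact (a5a_mem_single.mp hv.2).2.le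

end BallQ
end
end

-- merged part: Pool.Agent.Work.MP_72250f_ag.A5
section
/-!
Cost of a system of families. mass_good_ne_top: single_le for f F = indicator (TubeS F s) (petE G), the multiplicity is at most cnt 4,
and cnt * petE <= cnt^2 * petE <= B (1 <= zc <= cnt). avoid_HB: let I' be the system of singletons of cusp generators Mc with
Mc killing F; a point of TubeS F s in HB t3 lies in Tube Mc t3 for such an Mc (FamOK.cusp). Use unfold_le for the group stab Gamma F,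
f {Mc} = indicator (TubeS F s meet Tube Mc t3) petE, g {Mc} = indicator (TubeS F (2s) meet Tube Mc (2 t3)) petE and avoid with
4 pi y t3 = 1/2, t = 2 t3: flow Mc (-i y) divides NN by at most 2 and keeps Re <M v,v> for M in F and for Mc. The factor is
C exp(-Jc/(2 t3)) 2^w <= C (2 / e^2)^w. The tubes Tube Mc t1 are disjoint (cusp_disjoint).
family_cost: K F = kernel of P (characterised by the conditions, cond_cnj), family_proj with theta = 1/2, s' = s0, rank_le with
alpha = 4, S = TubeS F s minus HB t3, delta = R / w (mu_ball, age_le, massF_le_two_mass0), rank-nullity, rank_unfold with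
g F = 8 indicator S cnt Gamma (1 + 8 delta). Finally dominated convergence: on the cocompact set Neg minus HB t3 both mult and cnt
are bounded (cnt_bdd, SysOK.few), cnt tends to zc a.e. (ae_free, cnt_eventually).
-/

open scoped ComplexConjugate ENNReal Topology
open MeasureTheory Filter

noncomputable section

namespace BallQ

variable {n : ℕ}

theorem a5_arith {m a b c : ℝ≥0∞} (hm : m ≠ ⊤) (h : m ≤ a + b + c)
    (ha : a ≤ ENNReal.ofReal (1 / 2) * m) (hb : b ≤ 4⁻¹ * m) : m ≤ 4 * c := by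
  by_cases hc : c = ⊤
  · simp [hc]
  have e1 : ENNReal.ofReal (1 / 2) = ((1 / 2 : NNReal) : ℝ≥0∞) := by
    rw [← ENNReal.ofReal_coe_nnreal]
    norm_num
  have e2 : (4⁻¹ : ℝ≥0∞) = ((4⁻¹ : NNReal) : ℝ≥0∞) := by
    rw [ENNReal.coe_inv (by norm_num)]
    rfl
  rw [e1] at ha
  rw [e2] at hb
  have h' := h.trans (add_le_add (add_le_add ha hb) le_rfl)
  lift m to NNReal using hm
  lift c to NNReal using hc
  have h2 : m ≤ 1 / 2 * m + 4⁻¹ * m + c := by exact_mod_cast h'
  have h3 : (m : ℝ) ≤ 1 / 2 * m + 4⁻¹ * m + c := by exact_mod_cast h2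
  have h4 : (m : ℝ) ≤ 4 * c := by linarith only [h2]
  exact_mod_cast h4

theorem a5_ball {M : Op n} (hM : IsGen M) {s δ : ℝ} (hs0 : 2 * s ≤ s0) (h0 : 0 ≤ δ)
    (hδ : δ * ((n : ℝ) + 1) ≤ 1 / 1000000) {x y : V n} (hx : x ∈ Tube M s) (hy : y ∈ Neg n)
    (hxy : CC x y ≤ 1 + δ) : y ∈ Tube M s0 := by
  have h1 := hM.mu_ball hx.1 hy hxy
  have h2 : mu M x < s := hx.2
  have h3 := hM.age_le
  have hn : (0 : ℝ) ≤ n := Nat.cast_nonneg n
  unfold s0 at hs0
  have h4 : √(1 + δ) ≤ 101 / 100 := Real.sqrt_le_iff.2 ⟨by norm_num, by linarith only [hδ, h0, mul_nonneg_of_nonpos_of_nonpos (Mathlib.Tactic.Linarith.sub_nonpos_of_le (Mathlib.Tactic.Linarith.natCast_nonneg ℝ n)) (Mathlib.Tactic.Linarith.sub_nonpos_of_le h0)]⟩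
  have h5 : √(mu M x) ≤ 71 / 1000 := Real.sqrt_le_iff.2 ⟨by norm_num, by linarith only [hs0, h2]⟩
  have h6 : √(δ * (age M + mu M x)) ≤ 1 / 1000 := Real.sqrt_le_iff.2 ⟨by norm_num, by
    have := mul_le_mul_of_nonneg_left (by linarith only [hs0, h2, h3] : age M + mu M x ≤ (n : ℝ) + 1) h0
    linarith only [hδ, this]⟩
  have h7 := mul_le_mul h4 h5 (Real.sqrt_nonneg _) (by norm_num)
  have h8 : √(mu M y) < 1 / 10 := by linarith only [h1, h6, h7]
  refine ⟨hy, ?_⟩
  have := (Real.sqrt_lt' (by norm_num)).1 h8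
  unfold s0
  linarith only [this]

/-- the members of `A` that satisfy the conditions of a family -/
def a5K (k J : ℕ) (A : Submodule ℂ (V n → ℂ)) (hA : ∀ G ∈ A, IsHol (k * (n + 1)) G)
    (F : Set (Op n)) : Submodule ℂ (V n → ℂ) where
  carrier := {G | G ∈ A ∧ ∀ M ∈ F, IsGen M → Cond k M J G}
  zero_mem' := ⟨A.zero_mem, fun M _ _ j _ => coef_zero k M j⟩
  add_mem' := fun {G H} hG hH => ⟨A.add_mem hG.1 hH.1, fun M hM hg j hj => by
    rw [coef_add (hA G hG.1) (hA H hH.1) hg, hG.2 M hM hg j hj, hH.2 M hM hg j hj, add_zero]⟩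
  smul_mem' := fun c G hG => ⟨A.smul_mem c hG.1, fun M hM hg j hj => by
    rw [coef_smul, hG.2 M hM hg j hj, smul_zero]⟩

theorem a5_mem_K {Γ : Subgroup (GG n)} {k J : ℕ} {A : Submodule ℂ (V n → ℂ)}
    {hA : ∀ G ∈ A, IsHol (k * (n + 1)) G} {F : Set (Op n)} (hF : FamOK Γ F) {G : V n → ℂ} :
    G ∈ a5K k J A hA F ↔ G ∈ A ∧ ∀ M ∈ F, Cond k M J G :=
  ⟨fun h => ⟨h.1, fun M hM => h.2 M hM (hF.gen M hM).1⟩, fun h => ⟨h.1, fun M hM _ => h.2 M hM⟩⟩

theorem a5_single {Γ : Subgroup (GG n)} (hΓ : Proper Γ) {F : Set (Op n)} (hF : FamOK Γ F)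
    {ψ : V n → ℝ≥0∞} (hψ : IsWeight (stab Γ F) ψ) {k J : ℕ} (hk : 1 ≤ k) {s δ : ℝ} (hs : 0 < s)
    (hs0 : 2 * s ≤ s0) (hJ : (J : ℝ) ≤ 1 / 2 * (s * (((k : ℝ) - 1) * ((n : ℝ) + 1))))
    (h0 : 0 ≤ δ) (hδ : δ * ((n : ℝ) + 1) ≤ 1 / 1000000)
    (hm : massF n (k * (n + 1)) ≤ 2 * mass0 n (k * (n + 1)) δ)
    (hav : ∀ G : V n → ℂ, IsHol (k * (n + 1)) G → Inv (stab Γ F) G →
      (∀ Mc, Cusp Γ Mc → (∀ M ∈ F, Commute M Mc) → Per k Mc G ∧ Cond k Mc (Jc n k) G) →
      mass (k * (n + 1)) G (TubeS F s ∩ HB Γ t3) ψ ≤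
        4⁻¹ * mass (k * (n + 1)) G (TubeS F s0) ψ)
    (A : Submodule ℂ (V n → ℂ)) [FiniteDimensional ℂ A] (hA : ∀ G ∈ A, IsHol (k * (n + 1)) G)
    (hA1 : ∀ G ∈ A, Inv Γ G ∧ mass (k * (n + 1)) G (TubeS F s0) ψ ≠ ⊤)
    (hA2 : ∀ G ∈ A, ∀ Mc, Cusp Γ Mc → Cond k Mc (Jc n k) G) :
    (Module.finrank ℂ A : ℝ≥0∞) * massF n (k * (n + 1)) ≤
      (Module.finrank ℂ (a5K k J A hA F) : ℝ≥0∞) * massF n (k * (n + 1)) +
        ∫⁻ v, (TubeS F s \ HB Γ t3).indicator (fun x => 8 * cnt Γ x (1 + 8 * δ)) v * ψ v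
          ∂(nu n) := by
  have hss : s ≤ s0 := by linarith only [hs, hs0]
  have hn : (0 : ℝ) ≤ n := Nat.cast_nonneg n
  obtain ⟨P, hP0, hP⟩ := family_proj hΓ hF.fin hF.gen hF.comm hψ hk hs hss (by norm_num) hJ A
    fun G hG => ⟨hA G hG, hA1 G hG⟩
  have hΛ : Proper (stab Γ F) := hΓ.mono (stab_le Γ F)
  have hT : ∀ t, Region (stab Γ F) (TubeS F t) := region_TubeS hΛ fun g hg => hg.2
  have hS : Region (stab Γ F) (TubeS F s \ HB Γ t3) :=
    (hT s).diff ((region_HB hΓ t3).mono (stab_le Γ F))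
  have hne : (TubeS F s0).Nonempty := by
    obtain ⟨M, hM⟩ := hF.ne
    obtain ⟨x, hx⟩ := (hF.gen M hM).1.tube_nonempty (hs.trans_le hss)
    exact ⟨x, Set.mem_biUnion hM hx⟩
  have hrk := rank_le hΛ hψ (w := k * (n + 1)) (hT s0) (isOpen_TubeS F s0) hne hS h0
    (by linarith only [hδ, h0, mul_nonneg_of_nonpos_of_nonpos (Mathlib.Tactic.Linarith.sub_nonpos_of_le (Mathlib.Tactic.Linarith.natCast_nonneg ℝ n)) (Mathlib.Tactic.Linarith.sub_nonpos_of_le h0)]) (fun x hx y hy hxy => by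
      obtain ⟨M, hM, hxM⟩ := Set.mem_iUnion₂.1 hx.1
      exact Set.mem_biUnion hM (a5_ball (hF.gen M hM).1 hs0 h0 hδ hxM hy hxy))
    (LinearMap.range P) 4 (by
      rintro _ ⟨G, rfl⟩
      obtain ⟨h1, h2, h3, h4, h5⟩ := hP G
      refine ⟨h1, h2, h4, a5_arith h4 ?_ h5 (hav _ h1 h2 fun Mc hMc hc => ?_)⟩
      · refine le_trans (lintegral_mono_set (t := (TubeS F s0 \ TubeS F s) ∪
          (TubeS F s ∩ HB Γ t3) ∪ (TubeS F s \ HB Γ t3)) fun x hx => ?_)
          ((lintegral_union_le _ _ _).trans (add_le_add (lintegral_union_le _ _ _) le_rfl))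
        by_cases h6 : x ∈ TubeS F s
        · by_cases h7 : x ∈ HB Γ t3
          · exact Or.inl (Or.inr ⟨h6, h7⟩)
          · exact Or.inr ⟨h6, h7⟩
        · exact Or.inl (Or.inl ⟨hx, h6⟩)
      · obtain ⟨h6, h7⟩ := h3 Mc (Jc n k) (hMc.1.1.isGenLt 1).isGen hMc.1.2 hc
        exact ⟨h6, h7 (hA2 G G.2 Mc hMc)⟩)
  have hK : a5K k J A hA F = (LinearMap.ker P).map A.subtype := by
    ext G
    rw [a5_mem_K hF]
    constructor
    · rintro ⟨h1, h2⟩
      exact ⟨⟨G, h1⟩, (hP0 ⟨G, h1⟩).2 h2, rfl⟩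
    · rintro ⟨G, h1, rfl⟩
      exact ⟨G.2, (hP0 G).1 h1⟩
  have hint : 8 * ∫⁻ x in TubeS F s \ HB Γ t3, cnt (stab Γ F) x (1 + 8 * δ) * ψ x ∂(nu n) ≤
      ∫⁻ v, (TubeS F s \ HB Γ t3).indicator (fun x => 8 * cnt Γ x (1 + 8 * δ)) v * ψ v
        ∂(nu n) := by
    rw [← lintegral_const_mul' _ _ (by norm_num), ← lintegral_indicator hS.meas]
    refine lintegral_mono fun v => ?_
    by_cases hv : v ∈ TubeS F s \ HB Γ t3
    · simp only [Set.indicator_of_mem hv, ← mul_assoc]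
      gcongr
      exact cnt_mono (stab_le Γ F) v le_rfl
    · simp only [Set.indicator_of_notMem hv, zero_le]
  rw [hK, Submodule.finrank_map_subtype_eq, ← LinearMap.finrank_range_add_finrank_ker P,
    Nat.cast_add, add_mul, add_comm]
  refine add_le_add le_rfl (le_trans ?_ hint)
  calc (Module.finrank ℂ (LinearMap.range P) : ℝ≥0∞) * massF n (k * (n + 1))
      ≤ Module.finrank ℂ (LinearMap.range P) * (2 * mass0 n (k * (n + 1)) δ) := by gcongr
    _ = 2 * (Module.finrank ℂ (LinearMap.range P) * mass0 n (k * (n + 1)) δ) := by ring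
    _ ≤ 2 * (4 * ∫⁻ x in TubeS F s \ HB Γ t3, cnt (stab Γ F) x (1 + 8 * δ) * ψ x ∂(nu n)) := by
        gcongr
    _ = _ := by rw [← mul_assoc]; norm_num

theorem a5_limit {Γ : Subgroup (GG n)} (hΓ : Proper Γ) {ψ : V n → ℝ≥0∞}
    (hψ : IsWeight Γ ψ) (hv : ∫⁻ v, ψ v ∂(nu n) ≠ ⊤) (hS : Cocpt Γ (Neg n \ HB Γ t3))
    {I : Set (Set (Op n))} (hI : SysOK Γ I) {s : ℝ} (hss : s ≤ s0) {δ : ℕ → ℝ}
    (h0 : ∀ k, 0 ≤ δ k) (hδ : Tendsto δ atTop (𝓝 0)) {ζ : ℝ≥0∞} (hζ : ζ ≠ 0) :
    ∀ᶠ k : ℕ in atTop,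
      ∫⁻ v, 8 * cnt Γ v (1 + 8 * δ k) * mult I (fun F => TubeS F s \ HB Γ t3) v * ψ v ∂(nu n) ≤
        8 * zc Γ * ∫⁻ v, mult I (fun F => TubeS F s \ HB Γ t3) v * ψ v ∂(nu n) + ζ := by
  obtain ⟨B, hB, hB'⟩ := cnt_bdd hΓ Set.sdiff_subset hS 9
  have hE : EqvS Γ I fun F => TubeS F s \ HB Γ t3 :=
    (eqvS_TubeS hΓ I s).diff ((region_HB hΓ t3).eqvS I)
  have hmeas : Measurable (mult I fun F => TubeS F s \ HB Γ t3) :=
    (EqvF.invF_tsum hI.inv (hE.eqvF (f := 1)
      ⟨measurable_const, fun _ _ _ => rfl, fun _ _ _ => rfl⟩)).meas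
  have hbd : ∀ r ≤ (9 : ℝ), ∀ v,
      8 * cnt Γ v r * mult I (fun F => TubeS F s \ HB Γ t3) v * ψ v ≤ 8 * B * B * ψ v := by
    intro r hr v
    by_cases h : v ∈ Neg n \ HB Γ t3
    · have h1 : mult I (fun F => TubeS F s \ HB Γ t3) v ≤ mult I (fun F => TubeS F s0) v :=
        ENNReal.tsum_le_tsum fun F => Set.indicator_le_indicator_of_subset
          (Set.sdiff_subset.trans (TubeS_mono _ hss)) (fun _ => zero_le) v
      have h2 := h1.trans ((hI.few v h.1).trans
        ((cnt_mono le_rfl v (by norm_num)).trans (hB' v h)))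
      have h3 := (cnt_mono le_rfl v hr).trans (hB' v h)
      gcongr
    · have h1 : mult I (fun F => TubeS F s \ HB Γ t3) v = 0 :=
        ENNReal.tsum_eq_zero.2 fun F => Set.indicator_of_notMem
          (fun h' => h ⟨TubeS_subset_Neg _ _ h'.1, h'.2⟩) _
      rw [h1, mul_zero, zero_mul]
      exact zero_le
  have hfin : ∫⁻ v, 8 * B * B * ψ v ∂(nu n) ≠ ⊤ := by
    have h1 : 8 * B * B ≠ ⊤ := ENNReal.mul_ne_top (ENNReal.mul_ne_top (by norm_num) hB) hB
    rw [lintegral_const_mul' _ _ h1]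
    exact ENNReal.mul_ne_top h1 hv
  have hsm : ∀ e : ℝ, 0 < e → ∀ᶠ k in atTop, 1 + 8 * δ k ≤ 1 + e := fun e he =>
    ((tendsto_order.1 hδ).2 (e / 8) (by positivity)).mono fun k hk => by linarith only [hk]
  have hlim := tendsto_lintegral_filter_of_dominated_convergence (μ := nu n) (l := atTop)
    (F := fun k v => 8 * cnt Γ v (1 + 8 * δ k) * mult I (fun F => TubeS F s \ HB Γ t3) v * ψ v)
    (f := fun v => 8 * zc Γ * mult I (fun F => TubeS F s \ HB Γ t3) v * ψ v)
    (fun v => 8 * B * B * ψ v)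
    (Eventually.of_forall fun k =>
      (((measurable_cnt hΓ _).const_mul 8).mul hmeas).mul hψ.meas)
    ((hsm 8 (by norm_num)).mono fun k hk => ae_of_all _ (hbd _ (by linarith only [hk]))) hfin
    ((ae_free hΓ).mono fun x hx => by
      obtain ⟨e, he, h1⟩ := cnt_eventually hΓ hx.1 hx.2
      refine tendsto_const_nhds.congr' ((hsm e he).mono fun k hk => ?_)
      have h2 : zc Γ = cnt Γ x (1 + 8 * δ k) :=
        le_antisymm (zc_le_cnt hx.1 (by linarith only [h0, h0 k])) (h1 ▸ cnt_mono le_rfl x hk)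
      simp only [h2])
  have hne : ∫⁻ v, 8 * zc Γ * mult I (fun F => TubeS F s \ HB Γ t3) v * ψ v ∂(nu n) ≠ ⊤ := by
    refine ne_top_of_le_ne_top hfin (lintegral_mono_ae (ae_nu.mono fun v hv => ?_))
    refine le_trans ?_ (hbd 9 le_rfl v)
    gcongr
    exact zc_le_cnt hv.1 (by norm_num)
  have he : ∫⁻ v, 8 * zc Γ * mult I (fun F => TubeS F s \ HB Γ t3) v * ψ v ∂(nu n) =
      8 * zc Γ * ∫⁻ v, mult I (fun F => TubeS F s \ HB Γ t3) v * ψ v ∂(nu n) := by
    rw [← lintegral_const_mul' _ _ (ENNReal.mul_ne_top (by norm_num) (zc_ne_top hΓ))]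
    simp only [mul_assoc]
  rw [← he]
  exact ((tendsto_order.1 hlim).2 _ (ENNReal.lt_add_right hne hζ)).mono fun k hk => hk.le

theorem family_cost {Γ : Subgroup (GG n)} (hΓ : Proper Γ) {ψ : V n → ℝ≥0∞}
    (hψ : IsWeight Γ ψ) (hv : ∫⁻ v, ψ v ∂(nu n) ≠ ⊤) (hS : Cocpt Γ (Neg n \ HB Γ t3))
    {I : Set (Set (Op n))} (hI : SysOK Γ I) {s : ℝ} (hs : 0 < s) (hs0 : 2 * s ≤ s0) (J : ℕ → ℕ)
    (hJ : ∀ᶠ k : ℕ in atTop, (J k : ℝ) ≤ 1 / 2 * (s * (((k : ℝ) - 1) * ((n : ℝ) + 1))))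
    {ζ : ℝ≥0∞} (hζ : ζ ≠ 0) :
    ∀ᶠ k : ℕ in atTop, ∀ A : Submodule ℂ (V n → ℂ), FiniteDimensional ℂ A →
      (∀ G ∈ A, IsGood Γ k G ∧ ∀ Mc, Cusp Γ Mc → Cond k Mc (Jc n k) G) →
      ∃ A' : Submodule ℂ (V n → ℂ), A' ≤ A ∧ (∀ G ∈ A', ∀ F ∈ I, ∀ M ∈ F, Cond k M (J k) G) ∧
        (Module.finrank ℂ A : ℝ≥0∞) * massF n (k * (n + 1)) ≤
          (Module.finrank ℂ A' : ℝ≥0∞) * massF n (k * (n + 1)) +
            (8 * zc Γ * ∫⁻ v, mult I (fun F => TubeS F s \ HB Γ t3) v * ψ v ∂(nu n) + ζ) := by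
  obtain ⟨R, hR, hm⟩ := massF_le_two_mass0 n
  have hw : Tendsto (fun k : ℕ => k * (n + 1)) atTop atTop :=
    tendsto_id.atTop_mul_const' (Nat.succ_pos n)
  have hδ : Tendsto (fun k : ℕ => R / ((k * (n + 1) : ℕ) : ℝ)) atTop (𝓝 0) :=
    (tendsto_const_div_atTop_nhds_zero_nat R).comp hw
  have h0 : ∀ k : ℕ, 0 ≤ R / ((k * (n + 1) : ℕ) : ℝ) := fun k => by positivity
  have hδ' : ∀ᶠ k : ℕ in atTop, R / ((k * (n + 1) : ℕ) : ℝ) * ((n : ℝ) + 1) < 1 / 1000000 := by
    have := hδ.mul_const ((n : ℝ) + 1)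
    rw [zero_mul] at this
    exact (tendsto_order.1 this).2 _ (by norm_num)
  filter_upwards [hJ, hw.eventually hm, hδ', avoid_HB n, eventually_ge_atTop 1,
    a5_limit hΓ hψ hv hS hI (by linarith only [hs, hs0] : s ≤ s0) h0 hδ hζ] with k hJ hm hδ' hav hk hlim A hfin hA
  have hA0 : ∀ G ∈ A, IsHol (k * (n + 1)) G := fun G hG => (hA G hG).1.hol
  have hE : EqvS Γ I fun F => TubeS F s \ HB Γ t3 :=
    (eqvS_TubeS hΓ I s).diff ((region_HB hΓ t3).eqvS I)
  obtain ⟨A', h1, h2, h3⟩ := rank_unfold hΓ hψ hI.inv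
    (hE.eqvF (f := fun x => 8 * cnt Γ x (1 + 8 * (R / ((k * (n + 1) : ℕ) : ℝ))))
      ⟨(measurable_cnt hΓ _).const_mul 8, fun c hc v => by simp only [cnt_smul Γ hc],
        fun g hg v => by simp only [cnt_apply hΓ hg]⟩)
    A (a5K k (J k) A hA0) (fun F _ G hG => hG.1)
    (fun γ hγ F hF => by
      ext G
      rw [a5_mem_K (hI.fam _ (hI.inv.2 γ hγ F hF)), a5_mem_K (hI.fam F hF)]
      refine and_congr_right fun hG => ?_
      simp only [cnjS, Set.forall_mem_image, cond_cnj (hA G hG).1.inv hγ])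
    (massF n (k * (n + 1))) (massF_ne_top (Nat.le_mul_of_pos_left _ hk))
    fun F hF ψ' hψ' => a5_single hΓ (hI.fam F hF) hψ' hk hs hs0 hJ (h0 k) hδ'.le hm
      (hav Γ hΓ F (hI.fam F hF) ψ' hψ' s hs hs0) A hA0
      (fun G hG => ⟨(hA G hG).1.inv,
        mass_good_ne_top hΓ hψ hv hI.inv hI.few hF hψ' (hA G hG).1⟩)
      fun G hG => (hA G hG).2
  refine ⟨A', h1, fun G hG F hF => ((a5_mem_K (hI.fam F hF)).1 (h2 F hF hG)).2,
    h3.trans (add_le_add le_rfl (le_trans (le_of_eq ?_) hlim))⟩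
  refine lintegral_congr fun v => ?_
  rw [mult, ← ENNReal.tsum_mul_left]
  congr 2
  funext F
  by_cases hvF : v ∈ TubeS (F : Set (Op n)) s \ HB Γ t3
  · simp only [Set.indicator_of_mem hvF, Pi.one_apply, mul_one]
  · simp only [Set.indicator_of_notMem hvF, mul_zero]

end BallQ
end
end

-- merged part: Pool.Agent.Work.MP_72250f_ag.C1a
section
/-!
Type A families. Write P = specP M univ, g = flowU M 1. abK_comm: two generators b, b' of AbK Gamma M are small (uu < eps) at a common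
point y with P y = 0: if nilp M = 0 take y negative in ker M (Frame.exists_neg, uu_of_eig); otherwise nilp M = rk1 p p, b p = p and
y = x0 + t p with P x0 = 0 and t large (tendsto_CC_up). thmZ: in the second alternative the commutator would be a nontrivial
vertical translation, but on ker P both b and b' are vertical translations at p (eq_eich with W = ker P; they fix ker M = p-perp in W,
so eta is a multiple of p), so the commutator fixes the negative vector x0 (vert_eig). The conjugate of a generator b by g is again a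
generator (g commutes with M and fixes ker M), so lemmaF' gives Commute b g, and Subgroup.closure_induction finishes abK_comm_flow.
RelA is an equivalence relation on generators (AbK depends only on P and ker M), equivariant under plus Gamma.
Finiteness: nilp M = 0: all members have mu = 0 at a negative y in ker M; nilp M = rk1 p p: all members M' have nilp M' = a Mc with
0 < a < 1, Mc the cusp generator given by HasVC (flow M 1 is not elliptic by nonpos_eig), and mu M' x0 <= mu Mc x0; finite_gen.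
cusp: kill and equal kernels. few: mult_le_cnt with R F M = M in F. Direction: specP M (Iic eta) or Mc.
-/

open scoped ComplexConjugate ENNReal Topology
open MeasureTheory Filter

noncomputable section

namespace BallQ

variable {n : ℕ}

/-- The generators of `AbK`. -/
def c1a_Gen (Γ : Subgroup (GG n)) (M : Op n) (b : GG n) : Prop :=
  b ∈ plus Γ ∧ Commute (b : Op n) (specP M Set.univ) ∧
    (∀ v, M v = 0 → (b : Op n) v = v) ∧ kappa (b : Op n) < eps

theorem c1a_cnj_zero (g : GG n) : cnj g (0 : Op n) = 0 := by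
  simp [cnj]

theorem c1a_inv_cnj (g : GG n) (M : Op n) : cnj g⁻¹ (cnj g M) = M := by
  rw [← cnj_mul, inv_mul_cancel, cnj_one]

theorem c1a_cnj_inv (g : GG n) (M : Op n) : cnj g (cnj g⁻¹ M) = M := by
  rw [← cnj_mul, mul_inv_cancel, cnj_one]

theorem c1a_cnj_ne_zero (g : GG n) {M : Op n} (h : M ≠ 0) : cnj g M ≠ 0 := by
  intro h0
  apply h
  rw [← c1a_inv_cnj g M, h0, c1a_cnj_zero]

theorem c1a_cnj_ker (g : GG n) (M : Op n) (v : V n) :
    cnj g M v = 0 ↔ M (((g⁻¹ : GG n) : Op n) v) = 0 := by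
  rw [cnj_apply]
  constructor
  · intro h
    rw [← inv_apply_apply g (M (((g⁻¹ : GG n) : Op n) v)), h, map_zero]
  · intro h
    rw [h, map_zero]

theorem c1a_coe_cnj (g b : GG n) : ((g * b * g⁻¹ : GG n) : Op n) = cnj g (b : Op n) := rfl

theorem c1a_flowU_cnj (g : GG n) (M : Op n) (s : ℂ) :
    flowU (cnj g M) s = g * flowU M s * g⁻¹ := by
  apply Units.ext
  rw [c1a_coe_cnj, coe_flowU, coe_flowU, cnj_flow]

theorem c1a_gen_cnj {Γ : Subgroup (GG n)} (hΓ : Proper Γ) {M : Op n} (hM : IsGen M) {g b : GG n}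
    (hg : g ∈ plus Γ) (hb : c1a_Gen Γ M b) : c1a_Gen Γ (cnj g M) (g * b * g⁻¹) := by
  have hgi : IsIsom (g : Op n) := InP.isIsom hΓ hg
  obtain ⟨h1, h2, h3, h4⟩ := hb
  refine ⟨(plus Γ).mul_mem ((plus Γ).mul_mem hg h1) ((plus Γ).inv_mem hg), ?_, ?_, ?_⟩
  · rw [hM.specP_cnj hgi, c1a_coe_cnj]
    show cnj g (b : Op n) * cnj g (specP M Set.univ) = cnj g (specP M Set.univ) * cnj g (b : Op n)
    rw [← cnj_mul_cnj, ← cnj_mul_cnj, h2.eq]
  · intro v hv
    rw [c1a_coe_cnj, cnj_apply, h3 _ ((c1a_cnj_ker g M v).1 hv), apply_inv_apply]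
  · rw [c1a_coe_cnj, kappa_cnj]
    exact h4

theorem c1a_abK_cnj {Γ : Subgroup (GG n)} (hΓ : Proper Γ) {M : Op n} (hM : IsGen M) {g b : GG n}
    (hg : g ∈ plus Γ) (hb : b ∈ AbK Γ M) : g * b * g⁻¹ ∈ AbK Γ (cnj g M) := by
  unfold AbK at hb
  induction hb using Subgroup.closure_induction with
  | mem x hx => exact Subgroup.subset_closure (c1a_gen_cnj hΓ hM hg hx)
  | one => simp
  | mul x y _ _ hx hy =>
    have : g * (x * y) * g⁻¹ = (g * x * g⁻¹) * (g * y * g⁻¹) := by group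
    rw [this]
    exact (AbK Γ (cnj g M)).mul_mem hx hy
  | inv x _ hx =>
    have : g * x⁻¹ * g⁻¹ = (g * x * g⁻¹)⁻¹ := by group
    rw [this]
    exact (AbK Γ (cnj g M)).inv_mem hx

theorem c1a_spec_apply (F : Frame n) (S : Set ℝ) {v : V n} (hv : ∀ i, form v (F.e i) = 0) :
    specP F.op S v = 0 := by
  classical
  rw [F.specP_eq, Frame.spec, sum_apply]
  refine Finset.sum_eq_zero fun i _ => ?_
  split_ifs
  · rw [rk1_apply, hv i, zero_smul]
  · rfl

/-- A generator moves a vector of `ker P` by a vector of `ker M`. -/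
theorem c1a_move {Γ : Subgroup (GG n)} (hΓ : Proper Γ) (F : Frame n) {b : GG n}
    (hb : c1a_Gen Γ F.op b) {x : V n} (hx : specP F.op Set.univ x = 0) :
    F.op ((b : Op n) x - x) = 0 := by
  have hG : IsGen F.op := ⟨F, rfl⟩
  have hbi : IsIsom (b : Op n) := InP.isIsom hΓ hb.1
  have hp : F.op F.p = 0 := by
    rw [F.op_apply]
    simp [F.pe, F.pp]
  rw [hG.apply_eq_zero_iff]
  constructor
  · have h1 : specP F.op Set.univ ((b : Op n) x) = (b : Op n) (specP F.op Set.univ x) := by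
      rw [← mul_apply_eq_comp, ← hb.2.1.eq, mul_apply_eq_comp]
    rw [map_sub, h1, hx, map_zero, sub_zero]
  · rw [F.nilp_eq, rk1_apply, form_sub_left]
    have h2 : form ((b : Op n) x) F.p = form x F.p := by
      conv_lhs => rw [← hb.2.2.1 F.p hp]
      exact hbi x F.p
    rw [h2, sub_self, zero_smul]

theorem c1a_small {Γ : Subgroup (GG n)} (hΓ : Proper Γ) {b : GG n} (hb : b ∈ plus Γ)
    (hk : kappa (b : Op n) < eps) {x p : V n} (hp : form p p = 0) (hxp : form x p = -1)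
    (hbp : (b : Op n) p = p) :
    ∀ᶠ t : ℝ in atTop, uu (b : Op n) (x + (t : ℂ) • p) ≤ eps := by
  have hbi : IsIsom (b : Op n) := InP.isIsom hΓ hb
  have h1 := tendsto_CC_up hbi hp hxp (l := 1) (by simp) (by simpa using hbp)
  have h2 : (1 : ℝ) < 1 + (eps - kappa (b : Op n)) / 4 := by linarith only [hk]
  filter_upwards [h1.eventually (gt_mem_nhds h2)] with t ht
  unfold uu
  linarith only [ht]

theorem c1a_comm {Γ : Subgroup (GG n)} (hΓ : Proper Γ) {M : Op n} (hM : IsGen M) {b d : GG n}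
    (hb : c1a_Gen Γ M b) (hd : c1a_Gen Γ M d) : Commute b d := by
  obtain ⟨F, rfl⟩ := hM
  have hbi : IsIsom (b : Op n) := InP.isIsom hΓ hb.1
  have hdi : IsIsom (d : Op n) := InP.isIsom hΓ hd.1
  obtain ⟨x, hx, hxe⟩ := F.exists_neg
  by_cases hp0 : F.p = 0
  · have hx0 : F.op x = 0 := by
      rw [F.op_apply]
      simp [hxe, hp0]
    have h1 : (b : Op n) x = (1 : ℂ) • x := by rw [one_smul]; exact hb.2.2.1 x hx0
    have h2 : (d : Op n) x = (1 : ℂ) • x := by rw [one_smul]; exact hd.2.2.1 x hx0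
    rcases thmZ hΓ hx hb.1 hd.1 (by rw [uu_of_eig hbi hx h1]; exact hb.2.2.2.le)
      (by rw [uu_of_eig hdi hx h2]; exact hd.2.2.2.le) with h | ⟨h, -⟩
    · exact h
    · exact absurd ⟨x, hx, 1, h1⟩ h
  · have hNp : NN F.p = 0 := by simp [NN, F.pp]
    have hxp : form x F.p ≠ 0 := by
      intro h
      exact form_ne_zero_of_neg hx hp0 hNp.ge (form_eq_zero_comm.1 h)
    set x0 : V n := (-(form x F.p)⁻¹) • x with hx0
    have hx0N : x0 ∈ Neg n := smul_mem_Neg (neg_ne_zero.2 (inv_ne_zero hxp)) hx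
    have hx0p : form x0 F.p = -1 := by
      rw [hx0, form_smul_left, neg_mul, inv_mul_cancel₀ hxp]
    have hx0P : specP F.op Set.univ x0 = 0 :=
      c1a_spec_apply F _ fun i => by rw [hx0, form_smul_left, hxe i, mul_zero]
    have hp : F.op F.p = 0 := by
      rw [F.op_apply]
      simp [F.pe, F.pp]
    obtain ⟨t, ⟨ht1, ht2⟩, ht0⟩ :=
      (((c1a_small hΓ hb.1 hb.2.2.2 F.pp hx0p (hb.2.2.1 _ hp)).and
        (c1a_small hΓ hd.1 hd.2.2.2 F.pp hx0p (hd.2.2.1 _ hp))).and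
          (eventually_ge_atTop (0 : ℝ))).exists
    have hy : x0 + (t : ℂ) • F.p ∈ Neg n := by
      have h := NN_sub_null F.pp hx0p (-t)
      rw [Complex.ofReal_neg, neg_smul, sub_neg_eq_add] at h
      have h' : 0 < NN x0 := hx0N
      rw [mem_Neg, h]
      linarith only [ht0, h']
    rcases thmZ hΓ hy hb.1 hd.1 ht1 ht2 with h | ⟨-, -, q, hq0, hq, -, -, τ, hτ, h⟩
    · exact h
    · exfalso
      have hb1 := hd.2.2.1 _ (c1a_move hΓ F hb hx0P)
      have hd1 := hb.2.2.1 _ (c1a_move hΓ F hd hx0P)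
      rw [map_sub] at hb1 hd1
      have hbd : (b : Op n) ((d : Op n) x0) = (d : Op n) ((b : Op n) x0) := by
        rw [sub_eq_iff_eq_add] at hb1 hd1
        rw [hb1, hd1]
        abel
      have hz : (d : Op n) ((b : Op n) x0) ∈ Neg n := hdi.mem_Neg.2 (hbi.mem_Neg.2 hx0N)
      have hfix : vert q τ ((d : Op n) ((b : Op n) x0)) =
          (1 : ℂ) • (d : Op n) ((b : Op n) x0) := by
        rw [← h, one_smul]
        simp only [Units.val_mul, mul_apply_eq_comp]
        rw [inv_apply_apply, inv_apply_apply, hbd]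
      have hz' : 0 < NN ((d : Op n) ((b : Op n) x0)) := hz
      obtain ⟨c, hc⟩ := vert_eig hq0 hq hτ hz'.le hfix
      have hNq : NN q = 0 := by simp [NN, hq]
      rw [hc, NN_smul, hNq, mul_zero] at hz'
      exact lt_irrefl _ hz'

theorem c1a_abK_congr {Γ : Subgroup (GG n)} {M M' : Op n}
    (h1 : specP M Set.univ = specP M' Set.univ) (h2 : ∀ v, M v = 0 ↔ M' v = 0) :
    AbK Γ M = AbK Γ M' := by
  unfold AbK
  simp only [h1, h2]

theorem abK_comm_flow {Γ : Subgroup (GG n)} (hΓ : Proper Γ) {M : Op n} (hM : GP Γ M) {b : GG n}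
    (hb : b ∈ AbK Γ M) : Commute (b : Op n) (flow M 1) := by
  have hG : IsGen M := hM.1.isGen
  have hg : flowU M 1 ∈ plus Γ := hM.2.2.2
  have hc : cnj (flowU M 1) M = M :=
    cnj_eq_iff.2 (commute_flow (Commute.refl M) 1).symm
  unfold AbK at hb
  induction hb using Subgroup.closure_induction with
  | mem x hx =>
    have h1 := c1a_gen_cnj hΓ hG hg hx
    rw [hc] at h1
    have h2 := (c1a_comm hΓ hG hx h1).units_val
    exact lemmaF' hM.1 (InP.isIsom hΓ hx.1) h2
  | one => simp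
  | mul x y _ _ hx hy =>
    rw [Units.val_mul]
    exact hx.mul_left hy
  | inv x _ hx => exact hx.units_inv_left

theorem RelA.refl' (Γ : Subgroup (GG n)) (η : ℝ) (M : Op n) : RelA Γ η M M := by
  refine ⟨rfl, fun _ => Iff.rfl, rfl, ?_⟩
  rw [inv_mul_cancel]
  exact (AbK Γ M).one_mem

theorem RelA.symm' {Γ : Subgroup (GG n)} {η : ℝ} {M M' : Op n} (h : RelA Γ η M M') :
    RelA Γ η M' M := by
  obtain ⟨h1, h2, h3, h4⟩ := h
  refine ⟨h1.symm, fun v => (h2 v).symm, h3.symm, ?_⟩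
  rw [← c1a_abK_congr h1 h2]
  have := (AbK Γ M).inv_mem h4
  rwa [mul_inv_rev, inv_inv] at this

theorem RelA.trans' {Γ : Subgroup (GG n)} {η : ℝ} {M M' M'' : Op n} (h : RelA Γ η M M')
    (h' : RelA Γ η M' M'') : RelA Γ η M M'' := by
  obtain ⟨h1, h2, h3, h4⟩ := h
  obtain ⟨k1, k2, k3, k4⟩ := h'
  refine ⟨h1.trans k1, fun v => (h2 v).trans (k2 v), h3.trans k3, ?_⟩
  rw [← c1a_abK_congr h1 h2] at k4
  have := (AbK Γ M).mul_mem h4 k4
  rwa [mul_assoc, mul_inv_cancel_left] at this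

theorem GP.cnj {Γ : Subgroup (GG n)} (hΓ : Proper Γ) {M : Op n} (h : GP Γ M) {g : GG n}
    (hg : g ∈ Γ) : GP Γ (cnj g M) := by
  obtain ⟨h1, h2, h3, h4⟩ := h
  refine ⟨h1.cnj (hΓ.isom g hg), by rwa [age_cnj], c1a_cnj_ne_zero g h3, ?_⟩
  rw [← cnj_flow]
  exact h4.cnj (le_plus Γ hg)

theorem c1a_typeA_cnj {Γ : Subgroup (GG n)} (hΓ : Proper Γ) {η : ℝ} {M : Op n}
    (h : TypeA Γ η M) {g : GG n} (hg : g ∈ Γ) : TypeA Γ η (cnj g M) := by
  have hG : IsGen M := h.1.1.isGen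
  have hgi := hΓ.isom g hg
  refine ⟨h.1.cnj hΓ hg, ?_⟩
  rw [hG.nilp_cnj hgi, hG.specP_cnj hgi]
  rcases h.2 with ⟨h1, h2⟩ | ⟨h1, h2⟩
  · refine Or.inl ⟨c1a_cnj_ne_zero g h1, fun Mc a hc he => ?_⟩
    refine h2 (cnj g⁻¹ Mc) a (hc.cnj hΓ (le_plus Γ (Γ.inv_mem hg))) ?_
    rw [← cnj_smul, ← he, c1a_inv_cnj]
  · exact Or.inr ⟨by rw [h1, c1a_cnj_zero], c1a_cnj_ne_zero g h2⟩

theorem c1a_relA_cnj {Γ : Subgroup (GG n)} (hΓ : Proper Γ) {η : ℝ} {M M' : Op n}
    (hM : IsGen M) (hM' : IsGen M') (h : RelA Γ η M M') {g : GG n} (hg : g ∈ Γ) :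
    RelA Γ η (cnj g M) (cnj g M') := by
  have hgi := hΓ.isom g hg
  obtain ⟨h1, h2, h3, h4⟩ := h
  refine ⟨?_, fun v => ?_, ?_, ?_⟩
  · rw [hM.specP_cnj hgi, hM'.specP_cnj hgi, h1]
  · rw [c1a_cnj_ker, c1a_cnj_ker, h2]
  · rw [hM.specP_cnj hgi, hM'.specP_cnj hgi, h3]
  · have h5 := c1a_abK_cnj hΓ hM (le_plus Γ hg) h4
    have h6 : (flowU (cnj g M) 1)⁻¹ * flowU (cnj g M') 1 =
        g * ((flowU M 1)⁻¹ * flowU M' 1) * g⁻¹ := by
      rw [c1a_flowU_cnj, c1a_flowU_cnj]
      group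
    rwa [h6]

theorem c1a_famA_cnj {Γ : Subgroup (GG n)} (hΓ : Proper Γ) {η : ℝ} {M M' : Op n}
    (hM : IsGen M) (h : M' ∈ famA Γ η M) {g : GG n} (hg : g ∈ Γ) :
    cnj g M' ∈ famA Γ η (cnj g M) :=
  ⟨c1a_typeA_cnj hΓ h.1 hg, c1a_relA_cnj hΓ hM h.1.1.1.isGen h.2 hg⟩

theorem cnjS_famA {Γ : Subgroup (GG n)} (hΓ : Proper Γ) {η : ℝ} {M : Op n} (h : TypeA Γ η M)
    {g : GG n} (hg : g ∈ Γ) :
    TypeA Γ η (cnj g M) ∧ cnjS g (famA Γ η M) = famA Γ η (cnj g M) := by
  have hG : IsGen M := h.1.1.isGen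
  refine ⟨c1a_typeA_cnj hΓ h hg, Set.Subset.antisymm ?_ ?_⟩
  · rintro _ ⟨M', hM', rfl⟩
    exact c1a_famA_cnj hΓ hG hM' hg
  · intro M' hM'
    have h1 := c1a_famA_cnj hΓ (hG.cnj (hΓ.isom g hg)) hM' (Γ.inv_mem hg)
    rw [c1a_inv_cnj] at h1
    exact ⟨cnj g⁻¹ M', h1, c1a_cnj_inv g M'⟩

end BallQ
end
end

-- merged part: Pool.Agent.Work.MP_72250f_ag.C1
section
/-!
Type A families. Write P = specP M univ, g = flowU M 1. abK_comm: two generators b, b' of AbK Gamma M are small (uu < eps) at a common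
point y with P y = 0: if nilp M = 0 take y negative in ker M (Frame.exists_neg, uu_of_eig); otherwise nilp M = rk1 p p, b p = p and
y = x0 + t p with P x0 = 0 and t large (tendsto_CC_up). thmZ: in the second alternative the commutator would be a nontrivial
vertical translation, but on ker P both b and b' are vertical translations at p (eq_eich with W = ker P; they fix ker M = p-perp in W,
so eta is a multiple of p), so the commutator fixes the negative vector x0 (vert_eig). The conjugate of a generator b by g is again a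
generator (g commutes with M and fixes ker M), so lemmaF' gives Commute b g, and Subgroup.closure_induction finishes abK_comm_flow.
RelA is an equivalence relation on generators (AbK depends only on P and ker M), equivariant under plus Gamma.
Finiteness: nilp M = 0: all members have mu = 0 at a negative y in ker M; nilp M = rk1 p p: all members M' have nilp M' = a Mc with
0 < a < 1, Mc the cusp generator given by HasVC (flow M 1 is not elliptic by nonpos_eig), and mu M' x0 <= mu Mc x0; finite_gen.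
cusp: kill and equal kernels. few: mult_le_cnt with R F M = M in F. Direction: specP M (Iic eta) or Mc.
-/

open scoped ComplexConjugate ENNReal Topology
open MeasureTheory Filter

noncomputable section

namespace BallQ

variable {n : ℕ}

theorem c1_lt {Γ : Subgroup (GG n)} {M : Op n} (h : GP Γ M) : IsGenLt 1 M :=
  h.1.mono (by norm_num)

theorem c1_gen {Γ : Subgroup (GG n)} {M : Op n} (h : GP Γ M) : IsGen M := h.1.isGen

theorem c1_neg {M : Op n} (h : IsGen M) : ∃ x ∈ Neg n, specP M Set.univ x = 0 := by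
  obtain ⟨F, rfl⟩ := h
  obtain ⟨x, hx, hx'⟩ := F.exists_neg
  refine ⟨x, hx, ?_⟩
  rw [F.specP_eq]
  unfold Frame.spec
  rw [ContinuousLinearMap.sum_apply]
  refine Finset.sum_eq_zero fun i _ => ?_
  split_ifs
  · rw [rk1_apply, hx' i, zero_smul]
  · rfl

theorem c1_NN_null {p : V n} (hp : form p p = 0) : 0 ≤ NN p := by simp [NN, hp]

theorem c1_rk1_ne {p y : V n} (hp0 : p ≠ 0) (hp : form p p = 0) (hy : y ∈ Neg n) :
    rk1 p p y ≠ 0 := by
  rw [rk1_apply]
  refine smul_ne_zero ?_ hp0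
  rw [Ne, form_eq_zero_comm]
  exact form_ne_zero_of_neg hy hp0 (c1_NN_null hp)

theorem c1_ker_p {M : Op n} (h : IsGen M) {p : V n} (hp0 : p ≠ 0) (hp : form p p = 0)
    (hN : nilp M = rk1 p p) : M p = 0 := by
  have h1 := (h.specP_mul_nilp Set.univ).2.2.1
  rw [hN, mul_rk1] at h1
  have h2 : rk1 (M p) p (oo n) = 0 := by rw [h1]; rfl
  rw [rk1_apply] at h2
  refine (smul_eq_zero.1 h2).resolve_left ?_
  rw [form_eq_zero_comm]
  exact form_ne_zero_of_neg oo_mem_Neg hp0 (c1_NN_null hp)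

/-- two generators with the same kernel have proportional nilpotent parts -/
theorem c1_nilp_prop {M M' : Op n} (h : IsGen M) (h' : IsGen M') (hk : ∀ v, M v = 0 ↔ M' v = 0)
    (hP : specP M Set.univ = specP M' Set.univ) {p : V n} (hp0 : p ≠ 0) (hp : form p p = 0)
    (hN : nilp M = rk1 p p) : ∃ a : ℝ, 0 < a ∧ nilp M' = (a : ℂ) • rk1 p p := by
  rcases h'.nilp_cases with h0 | ⟨q, hq0, hq, hq'⟩
  · exfalso
    obtain ⟨x, hx, hx'⟩ := c1_neg h'
    have h1 : M' x = 0 := (h'.apply_eq_zero_iff x).2 ⟨hx', by rw [h0]; rfl⟩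
    have h2 := ((h.apply_eq_zero_iff x).1 ((hk x).2 h1)).2
    rw [hN] at h2
    exact c1_rk1_ne hp0 hp hx h2
  · have h1 : M q = 0 := (hk q).2 (c1_ker_p h' hq0 hq hq')
    have h2 := ((h.apply_eq_zero_iff q).1 h1).2
    rw [hN, rk1_apply] at h2
    have h3 : form q p = 0 := (smul_eq_zero.1 h2).resolve_right hp0
    obtain ⟨c, hc⟩ := eq_smul_of_perp hp0 (c1_NN_null hp) h3 (c1_NN_null hq)
    have hc0 : c ≠ 0 := by
      rintro rfl
      exact hq0 (by rw [hc, zero_smul])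
    refine ⟨‖c‖ ^ 2, by positivity, ?_⟩
    rw [hq', hc, rk1_smul_self]

theorem c1_comm {Γ : Subgroup (GG n)} (hΓ : Proper Γ) {η : ℝ} {M M' : Op n} (h : GP Γ M)
    (h' : GP Γ M') (hr : RelA Γ η M M') : Commute M M' := by
  have h1 := abK_comm_flow hΓ h hr.2.2.2
  refine commute_gen_gen (c1_lt h) (c1_lt h') ?_
  have h2 : flow M' 1 = flow M 1 * (((flowU M 1)⁻¹ * flowU M' 1 : GG n) : Op n) := by
    have : flow M 1 = ((flowU M 1 : GG n) : Op n) := rfl
    rw [this, ← Units.val_mul, mul_inv_cancel_left]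
    rfl
  rw [h2]
  exact (Commute.refl _).mul_right h1.symm

theorem c1_cusp {Γ : Subgroup (GG n)} (hV : HasVC Γ) {M : Op n} (h : GP Γ M) {p : V n}
    (hp0 : p ≠ 0) (hp : form p p = 0) (hN : nilp M = rk1 p p) :
    ∃ c : ℝ, 0 < c ∧ Cusp Γ ((c : ℂ) • rk1 p p) := by
  refine hV (flowU M 1) h.2.2.2 ?_ p hp0 hp ⟨1, by simp, ?_⟩
  · rintro ⟨y, hy, c, hc⟩
    have h1 : M y = 0 := (c1_lt h).nonpos_eig (le_of_lt hy) hc
    have h2 := (((c1_gen h).apply_eq_zero_iff y).1 h1).2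
    rw [hN] at h2
    exact c1_rk1_ne hp0 hp hy h2
  · rw [one_smul]
    exact flow_apply_of_ker (c1_ker_p (c1_gen h) hp0 hp hN) 1

theorem c1_self {Γ : Subgroup (GG n)} {η : ℝ} {M : Op n} (h : TypeA Γ η M) : M ∈ famA Γ η M :=
  ⟨h, RelA.refl' Γ η M⟩

theorem c1_mu {M : Op n} (h : IsGen M) {x : V n} (hx : specP M Set.univ x = 0) :
    mu M x = mu (nilp M) x := by
  have h1 : M x = nilp M x := by
    conv_lhs => rw [h.eq_add_nilp]
    rw [ContinuousLinearMap.add_apply, ContinuousLinearMap.mul_apply, hx, map_zero, zero_add]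
  unfold mu
  rw [h1]

theorem c1_fin {Γ : Subgroup (GG n)} (hΓ : Proper Γ) (hV : HasVC Γ) {η : ℝ} {M : Op n}
    (h : TypeA Γ η M) : (famA Γ η M).Finite := by
  have hg := c1_gen h.1
  obtain ⟨x, hx, hx'⟩ := c1_neg hg
  rcases hg.nilp_cases with h0 | ⟨p, hp0, hp, hN⟩
  · refine (finite_gen hΓ hx 0).subset fun M' hM' => ⟨c1_lt hM'.1.1, hM'.1.1.2.2.2, ?_⟩
    have h1 : M x = 0 := (hg.apply_eq_zero_iff x).2 ⟨hx', by rw [h0]; rfl⟩
    have h2 : M' x = 0 := (hM'.2.2.1 x).1 h1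
    simp [mu, h2]
  · obtain ⟨c, hc, hC⟩ := c1_cusp hV h.1 hp0 hp hN
    refine (finite_gen hΓ hx (mu ((c : ℂ) • rk1 p p) x)).subset fun M' hM' =>
      ⟨c1_lt hM'.1.1, hM'.1.1.2.2.2, ?_⟩
    have hg' := c1_gen hM'.1.1
    obtain ⟨a, ha, hN'⟩ := c1_nilp_prop hg hg' hM'.2.2.1 hM'.2.1 hp0 hp hN
    have hc' : (c : ℂ) ≠ 0 := by exact_mod_cast hc.ne'
    have h1 : nilp M' = ((a / c : ℝ) : ℂ) • ((c : ℂ) • rk1 p p) := by
      rw [hN', smul_smul]
      congr 1
      push_cast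
      field_simp
    have h2 : a / c < 1 := by
      rcases hM'.1.2 with h3 | h3
      · exact h3.2 _ _ hC h1
      · exfalso
        have h4 := h3.1
        rw [hN'] at h4
        have h5 : (a : ℂ) ≠ 0 := by exact_mod_cast ha.ne'
        exact hp0 (rk1_eq_zero.1 ((smul_eq_zero.1 h4).resolve_left h5))
    rw [c1_mu hg' (by rw [← hM'.2.1]; exact hx'), h1, mu_real_smul]
    have h3 := (hC.1.1.isGenLt 1).isGen.mu_nonneg hx
    linarith only [h2, h3, mul_nonneg_of_nonpos_of_nonpos (le_of_lt (Mathlib.Tactic.Linarith.sub_neg_of_lt h2)) (Mathlib.Tactic.Linarith.sub_nonpos_of_le h3)]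

theorem c1_fam_eq {Γ : Subgroup (GG n)} {η : ℝ} {M M' : Op n} (h : RelA Γ η M M') :
    famA Γ η M = famA Γ η M' := by
  ext N
  exact ⟨fun hN => ⟨hN.1, h.symm'.trans' hN.2⟩, fun hN => ⟨hN.1, h.trans' hN.2⟩⟩

theorem sysOK_A {Γ : Subgroup (GG n)} (hΓ : Proper Γ) (hV : HasVC Γ) (η : ℝ) :
    SysOK Γ (sysA Γ η) := by
  refine ⟨⟨?_, ?_⟩, ?_, ?_⟩
  · refine ((countable_gen hΓ).image (famA Γ η)).mono ?_
    rintro F ⟨M, hM, rfl⟩
    exact ⟨M, ⟨c1_lt hM.1, hM.1.2.2.2⟩, rfl⟩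
  · rintro g hg F ⟨M, hM, rfl⟩
    obtain ⟨h1, h2⟩ := cnjS_famA hΓ hM hg
    exact ⟨_, h1, h2⟩
  · rintro F ⟨M, hM, rfl⟩
    refine ⟨c1_fin hΓ hV hM, ⟨M, c1_self hM⟩, fun N hN => ⟨c1_gen hN.1.1, hN.1.1.2.2.2⟩,
      fun N hN N' hN' => c1_comm hΓ hN.1.1 hN'.1.1 (hN.2.symm'.trans' hN'.2), ?_⟩
    rintro Mc hC ⟨x, hx, hx'⟩ N hN
    obtain ⟨N', hN', hxN⟩ := Set.mem_iUnion₂.1 hx'
    have h1 := kill hΓ hC (c1_lt hN'.1.1) hN'.1.1.2.2.2 hx hxN
    have h2 : N * Mc = 0 := by
      ext1 v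
      exact ((hN'.2.symm'.trans' hN.2).2.1 _).1 (h1 v)
    exact ⟨h2, mul_eq_zero_comm_of_gen (c1_gen hN.1.1) (hC.1.1.isGenLt 1).isGen h2⟩
  · intro x hx
    refine mult_le_cnt _ _ hx (fun F M => M ∈ F) ?_ ?_
    · rintro F ⟨M, hM, rfl⟩ hxF
      obtain ⟨N, hN, hxN⟩ := Set.mem_iUnion₂.1 hxF
      exact ⟨N, hN, c1_lt hN.1.1, hN.1.1.2.2.2, hxN.2⟩
    · rintro F ⟨M, hM, rfl⟩ F' ⟨M', hM', rfl⟩ N hN hN'
      exact c1_fam_eq (hN.2.trans' hN'.2.symm')

theorem dir_A {Γ : Subgroup (GG n)} (hΓ : Proper Γ) (hV : HasVC Γ) {η : ℝ} (hη : 0 ≤ η) :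
    ∀ F ∈ sysA Γ η, ∃ D : Op n, IsDir D ∧ (∀ g ∈ stab Γ F, Commute (g : Op n) D) ∧
      (∀ M ∈ F, DirFor D η M) ∧
      ∀ Mc, Cusp Γ Mc → (∀ M ∈ F, M * Mc = 0 ∧ Mc * M = 0) → Commute D Mc := by
  rintro F ⟨M, hM, rfl⟩
  have hg := c1_gen hM.1
  have hst : ∀ g ∈ stab Γ (famA Γ η M), cnj g M ∈ famA Γ η M := fun g hg' => by
    have h1 := (mem_stab.1 hg').2
    rw [← h1]
    exact ⟨M, c1_self hM, rfl⟩
  have hiso : ∀ g ∈ stab Γ (famA Γ η M), IsIsom (g : Op n) := fun g hg' =>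
    hΓ.isom g (mem_stab.1 hg').1
  have hcm : ∀ Mc : Op n, (∀ N ∈ famA Γ η M, N * Mc = 0 ∧ Mc * N = 0) → Commute Mc M :=
    fun Mc h => by
      obtain ⟨h1, h2⟩ := h M (c1_self hM)
      exact h2.trans h1.symm
  rcases hg.nilp_cases with h0 | ⟨p, hp0, hp, hN⟩
  · have hne : specP M (Set.Iic η) ≠ 0 := by
      rcases hM.2 with h1 | h1
      · exact absurd h0 h1.1
      · exact h1.2
    refine ⟨specP M (Set.Iic η), Or.inl ⟨hg.isRound_specP _, hne⟩, fun g hg' => ?_,
      fun N hN => ?_, fun Mc _ h => (hg.commute_specP (hcm Mc h) _).symm⟩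
    · rw [← cnj_eq_iff, ← hg.specP_cnj (hiso g hg')]
      exact (hst g hg').2.2.2.1.symm
    · rw [hN.2.2.2.1]
      exact dirFor_specP (c1_gen hN.1.1) hη
  · obtain ⟨c, hc, hC⟩ := c1_cusp hV hM.1 hp0 hp hN
    refine ⟨(c : ℂ) • rk1 p p, Or.inr hC.1.1, fun g hg' => ?_, fun N hN' => ?_, fun Mc _ h => ?_⟩
    · rw [← cnj_eq_iff]
      have h1 := hst g hg'
      obtain ⟨a, ha, h2⟩ := c1_nilp_prop hg (c1_gen h1.1.1) h1.2.2.1 h1.2.1 hp0 hp hN
      rw [hg.nilp_cnj (hiso g hg'), hN] at h2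
      refine hC.eq_of_smul (hC.cnj hΓ (le_plus Γ (mem_stab.1 hg').1)) (a := (a : ℂ)) ?_
      rw [cnj_smul, h2, smul_comm]
    · refine dirFor_null hC.1.1 (c1_gen hN'.1.1) ?_ hη
      have h1 : N p = 0 := (hN'.2.2.1 p).1 (c1_ker_p hg hp0 hp hN)
      rw [mul_smul_comm, mul_rk1, h1]
      ext1 v
      simp
    · have h1 := hg.commute_nilp (hcm Mc h)
      rw [hN] at h1
      exact h1.symm.smul_left _

end BallQ
end
end

-- merged part: Pool.Agent.Work.MP_72250f_ag.C3
section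
/-!
Finite sets of angles. trace_root: the trace is the sum of the roots of the characteristic polynomial (Matrix.trace_eq_sum_roots_charpoly),
all roots are m-th roots of unity and 1 has multiplicity at least n + 1 - r; or diagonalise T by the projections
(1/m) sum z^-l T^l. index_le_of_words: the number c(l) of cosets w N with w a word of length at most l is strictly increasing until it
stabilises, and then all cosets are reached. short_power: U = span of the ranges of g - 1, g' - 1 and oo; every word h has h - 1 with range in U and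
vanishing on the orthogonal complement of U (same for the form and the inner product, as oo is in U), norm at most 2
(norm_isom_le), hs (h - 1) <= 9 finrank U; pack_rank. Conjugate by exists_isom first.
angles: m = index of the centre of H = closure {g, g'}, transfer h |-> h^m is a homomorphism to the centre (MonoidHom.transferCenterPow).
Q = 1 - sum over the frame vectors with l_j^m different from 1 is the projection on ker (g^m - 1), it commutes with H; same Q', Q0 = Q Q'.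
tr (P P') = tr (P P' Q0) + tr (P' (1-Q)) + tr (P Q (1-Q')), the last two are traces of idempotents of rank <= r. P Q0 = (1 - avg g^l) Q0, so
tr (P P' Q0) = m^-2 sum over l, l' < m of T(g^l g'^l') - T(g^l) - T(g'^l') with T h = tr (h~) - (n+1), h~ = h Q0 + 1 - Q0, h~^m = 1,
rank (h~ - 1) <= 2r. The group of the h~ is finitely generated, of exponent m, with centre of finite index, so finite; fix_of_finite
and ell_in_sub give a negative y in range Q0 fixed by g, g' (nonpos_eig); in the positive definite space y-perp,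
tr (P P') = sum |P' e_i|^2 <= tr P with equality only if range P is in range P'; IsRound.ext.
-/

open scoped ComplexConjugate ENNReal Topology
open MeasureTheory Filter

noncomputable section

namespace BallQ

variable {n : ℕ}

theorem c3_sums (D : Finset ℂ) (k : ℕ) : ∃ D' : Finset ℂ, ∀ f : ℕ → ℂ, (∀ i, f i ∈ D) →
    ∑ i ∈ Finset.range k, f i ∈ D' := by
  classical
  induction k with
  | zero => exact ⟨{0}, fun f _ => by simp⟩
  | succ k ih =>
    obtain ⟨D', hD'⟩ := ih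
    refine ⟨Finset.image₂ (· + ·) D' D, fun f hf => ?_⟩
    rw [Finset.sum_range_succ]
    exact Finset.mem_image₂_of_mem (hD' f hf) (hf k)

/-- restriction of a representation to the range of a commuting idempotent -/
def c3_rho {H : Type*} [Group H] (φ : H →* Op n) (Q : Op n) (hQ : Q * Q = Q)
    (hc : ∀ h, Commute (φ h) Q) : H →* Op n where
  toFun h := φ h * Q + (1 - Q)
  map_one' := by rw [map_one, one_mul, add_sub_cancel]
  map_mul' a b := by
    have h1 : Q * (1 - Q) = 0 := by rw [mul_sub, mul_one, hQ, sub_self]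
    have h2 : (1 - Q) * Q = 0 := by rw [sub_mul, one_mul, hQ, sub_self]
    have h3 : (1 - Q) * (1 - Q) = 1 - Q := by rw [mul_sub, mul_one, h2, sub_zero]
    have h4 : φ a * Q * (φ b * Q) = φ a * φ b * Q := by
      rw [(hc b).eq, mul_assoc, ← mul_assoc Q Q, hQ, mul_assoc, (hc b).eq]
    have h5 : (1 - Q) * (φ b * Q) = 0 := by rw [(hc b).eq, ← mul_assoc, h2, zero_mul]
    rw [map_mul, add_mul, mul_add, mul_add, h4, h5, h3, mul_assoc (φ a) Q, h1, mul_zero, add_zero,
      zero_add]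

theorem c3_isom_restr {g Q : Op n} (hg : IsIsom g) (hQ : Q * Q = Q) (hc : Commute g Q)
    (hs : ∀ v w, form (Q v) w = form v (Q w)) : IsIsom (g * Q + (1 - Q)) := by
  have hQ' : ∀ v, Q (Q v) = Q v := fun v => congrArg (fun S : Op n => S v) hQ
  have hc' : ∀ v, g (Q v) = Q (g v) := fun v => congrArg (fun S : Op n => S v) hc.eq
  have h1 : ∀ v w, form (Q v) (w - Q w) = 0 := fun v w => by
    rw [hs, map_sub, hQ', sub_self, form_zero_right]
  have h2 : ∀ v w, form (v - Q v) (Q w) = 0 := fun v w => by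
    rw [← hs, map_sub, hQ', sub_self, form_zero_left]
  intro v w
  change form (g (Q v) + (v - Q v)) (g (Q w) + (w - Q w)) = _
  have h3 : form v w = form (Q v + (v - Q v)) (Q w + (w - Q w)) := by
    rw [add_sub_cancel, add_sub_cancel]
  rw [h3, form_add_left, form_add_left, form_add_right, form_add_right, form_add_right,
    form_add_right, hg, hc', hc', h1, h1, h2, h2]

theorem c3_rk_le {P : Op n} (hP : IsRound P) {r : ℕ} (h : (tr P).re ≤ r) : c3rk P ≤ r := by
  rw [c3_tr_idem hP.mul_self, Complex.natCast_re] at h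
  exact_mod_cast h

theorem c3_core (r m : ℕ) (hm : 1 ≤ m) : ∃ A : Finset ℂ, ∀ (n : ℕ) (M M' : Op n), IsGenLt 1 M →
    IsGenLt 1 M' → nilp M = 0 → nilp M' = 0 → (tr (specP M Set.univ)).re ≤ r →
    (tr (specP M' Set.univ)).re ≤ r →
    (Subgroup.center (Subgroup.closure {flowU M 1, flowU M' 1})).index = m →
    tr (specP M Set.univ * specP M' Set.univ) ∈ A ∧
      (tr (specP M Set.univ) = tr (specP M' Set.univ) →
        tr (specP M Set.univ * specP M' Set.univ) = tr (specP M Set.univ) →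
        specP M Set.univ = specP M' Set.univ) := by
  classical
  obtain ⟨B, hB⟩ := trace_root m (r + r) hm
  obtain ⟨D1, hD1⟩ := c3_sums (Finset.image₂ (· - ·) (Finset.image₂ (· - ·) B B) B) m
  obtain ⟨D2, hD2⟩ := c3_sums D1 m
  refine ⟨(D2 ×ˢ Finset.range (r + 1) ×ˢ Finset.range (r + 1)).image
    fun x => x.1 / (m : ℂ) ^ 2 + x.2.1 + x.2.2, ?_⟩
  intro n M M' hM hM' h0 h0' hr hr' hidx
  obtain ⟨M1, hM1, h1, e1⟩ := c3_pow hM h0 m
  obtain ⟨M1', hM1', h1', e1'⟩ := c3_pow hM' h0' m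
  have hP := hM.isGen.isRound_specP Set.univ
  have hP' := hM'.isGen.isRound_specP Set.univ
  have hR := hM1.isGen.isRound_specP Set.univ
  have hR' := hM1'.isGen.isRound_specP Set.univ
  have kP := c3_rk_le hP hr
  have kP' := c3_rk_le hP' hr'
  set H : Subgroup (GG n) := Subgroup.closure {flowU M 1, flowU M' 1} with hH
  have : (Subgroup.center H).FiniteIndex := ⟨by omega⟩
  have hT : ∀ a b : H, (a * b) ^ m = a ^ m * b ^ m := fun a b => by
    have := congrArg Subtype.val (map_mul (MonoidHom.transferCenterPow H) a b)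
    rwa [Subgroup.coe_mul, MonoidHom.transferCenterPow_apply, MonoidHom.transferCenterPow_apply,
      MonoidHom.transferCenterPow_apply, hidx] at this
  have hC : ∀ a b : H, Commute b (a ^ m) := fun a b => by
    have := (MonoidHom.transferCenterPow H a).2
    rw [MonoidHom.transferCenterPow_apply, hidx] at this
    exact Subgroup.mem_center_iff.1 this b
  let φ : H →* Op n := (Units.coeHom _).comp H.subtype
  let a : H := ⟨flowU M 1, Subgroup.subset_closure (by simp)⟩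
  let a' : H := ⟨flowU M' 1, Subgroup.subset_closure (by simp)⟩
  have ha : φ a = flow M 1 := rfl
  have ha' : φ a' = flow M' 1 := rfl
  have hiso : ∀ h : H, IsIsom (φ h) := fun h => by
    refine Subgroup.closure_induction (p := fun x _ => IsIsom ((x : GG n) : Op n)) ?_ ?_ ?_ ?_ h.2
    · rintro x (rfl | rfl)
      · exact hM.isGen.isIsom_flow_one
      · exact hM'.isGen.isIsom_flow_one
    · exact fun _ _ => rfl
    · exact fun x y _ _ hx hy => hx.mul hy
    · exact fun x _ hx => hx.inv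
  have cR : ∀ h : H, Commute (φ h) (specP M1 Set.univ) := fun h =>
    c3_comm_isom hM1 (hiso h) (by rw [e1, ← ha, ← map_pow]; exact (hC a h).map φ)
  have cR' : ∀ h : H, Commute (φ h) (specP M1' Set.univ) := fun h =>
    c3_comm_isom hM1' (hiso h) (by rw [e1', ← ha', ← map_pow]; exact (hC a' h).map φ)
  have cRP := c3_comm_round hM hR (cR a).symm
  have cRP' := c3_comm_round hM' hR (cR a').symm
  have cR'P := c3_comm_round hM hR' (cR' a).symm
  have cR'P' := c3_comm_round hM' hR' (cR' a').symm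
  have cRR' := c3_comm_round hM1' hR (by rw [e1']; exact (cR a').symm.pow_right m)
  have RP : specP M1 Set.univ * specP M Set.univ = specP M1 Set.univ := by
    have := c3_fix hM1 (e1 ▸ c3_pow_fix (c3_flow_ker hM h0) m)
    rw [mul_sub, mul_one, sub_eq_zero] at this
    exact this.symm
  have RP' : specP M1' Set.univ * specP M' Set.univ = specP M1' Set.univ := by
    have := c3_fix hM1' (e1' ▸ c3_pow_fix (c3_flow_ker hM' h0') m)
    rw [mul_sub, mul_one, sub_eq_zero] at this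
    exact this.symm
  have k1 := c3_flow_ker hM1 h1
  have k1' := c3_flow_ker hM1' h1'
  rw [e1] at k1
  rw [e1'] at k1'
  have ps := c3_pow_sub_one hM h0
  have ps' := c3_pow_sub_one hM' h0'
  have av := fun Q => c3_avg hM h0 (m := m) (Q := Q)
  have av' := fun Q => c3_avg hM' h0' (m := m) (Q := Q)
  have ker : ∀ y ∈ Neg n, ∀ c : ℂ, flow M 1 y = c • y → specP M Set.univ y = 0 :=
    fun y hy c hc => hM.isGen.specP_apply_of_ker _ (hM.nonpos_eig (le_of_lt hy) hc)
  have ker' : ∀ y ∈ Neg n, ∀ c : ℂ, flow M' 1 y = c • y → specP M' Set.univ y = 0 :=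
    fun y hy c hc => hM'.isGen.specP_apply_of_ker _ (hM'.nonpos_eig (le_of_lt hy) hc)
  generalize specP M Set.univ = P at *
  generalize specP M' Set.univ = P' at *
  generalize specP M1 Set.univ = R at *
  generalize specP M1' Set.univ = R' at *
  have iP : IsIdempotentElem P := hP.mul_self
  have iP' : IsIdempotentElem P' := hP'.mul_self
  have iR : IsIdempotentElem R := hR.mul_self
  have iR' : IsIdempotentElem R' := hR'.mul_self
  have cQ : Commute (1 - R) (1 - R') :=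
    (Commute.one_left _).sub_left ((Commute.one_right _).sub_right cRR')
  have hneg : ∀ y ∈ Neg n, ((1 - R) * (1 - R')) y ∈ Neg n := fun y hy => c3_neg hR (c3_neg hR' hy)
  have hsa : ∀ v w, form (((1 - R) * (1 - R')) v) w = form v (((1 - R) * (1 - R')) w) := by
    have s1 : ∀ {S : Op n}, IsRound S → ∀ v w, form ((1 - S) v) w = form v ((1 - S) w) :=
      fun {S} hS v w => by
        change form (v - S v) w = form v (w - S w)
        rw [form_sub_left, form_sub_right, hS.isGen.selfadj]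
    intro v w
    conv_rhs => rw [cQ.eq]
    exact (s1 hR _ _).trans (s1 hR' _ _)
  have iQ : IsIdempotentElem ((1 - R) * (1 - R')) := iR.one_sub.mul_of_commute cQ iR'.one_sub
  have cφ : ∀ h : H, Commute (φ h) ((1 - R) * (1 - R')) := fun h =>
    ((Commute.one_right _).sub_right (cR h)).mul_right ((Commute.one_right _).sub_right (cR' h))
  have cP' : Commute P' ((1 - R) * (1 - R')) :=
    ((Commute.one_right _).sub_right cRP'.symm).mul_right
      ((Commute.one_right _).sub_right cR'P'.symm)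
  have k2 : flow M 1 ^ m * ((1 - R) * (1 - R')) = (1 - R) * (1 - R') := by rw [← mul_assoc, k1]
  have k2' : flow M' 1 ^ m * ((1 - R) * (1 - R')) = (1 - R) * (1 - R') := by
    rw [cQ.eq, ← mul_assoc, k1']
  have dec : tr (P * P') = tr (P * P' * ((1 - R) * (1 - R'))) + tr (P' * R) +
      tr (P * ((1 - R) * R')) := by
    have d1 : tr (P' * R) = tr (P * P' * R) := by
      rw [mul_assoc, tr_mul_comm P, mul_assoc, RP]
    have d2 : P * ((1 - R) * R') = P * P' * ((1 - R) * R') := by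
      have : Commute P' (1 - R) := (Commute.one_right _).sub_right cRP'.symm
      rw [mul_assoc, ← mul_assoc P', this.eq, mul_assoc, ← cR'P'.eq, RP']
    rw [d1, d2, ← tr_add, ← tr_add]
    congr 1
    noncomm_ring
  have t1 : tr (P' * R) = c3rk (P' * R) := c3_tr_idem (iP'.mul_of_commute cRP'.symm iR)
  have t2 : tr (P * ((1 - R) * R')) = c3rk (P * ((1 - R) * R')) :=
    c3_tr_idem (iP.mul_of_commute
      (((Commute.one_right _).sub_right cRP.symm).mul_right cR'P.symm)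
      (iR.one_sub.mul_of_commute ((Commute.one_left _).sub_left cRR') iR'))
  generalize (1 - R) * (1 - R') = Q at hneg hsa iQ cφ cP' k2 k2' dec
  have hpow : ∀ h : H, φ (h ^ m) * Q = Q := fun h => by
    refine Subgroup.closure_induction (p := fun x hx => φ ((⟨x, hx⟩ : H) ^ m) * Q = Q)
      ?_ ?_ ?_ ?_ h.2
    · rintro x (rfl | rfl)
      · rw [map_pow]; exact k2
      · rw [map_pow]; exact k2'
    · change φ ((1 : H) ^ m) * Q = Q
      rw [one_pow, map_one, one_mul]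
    · intro x y hx hy ex ey
      change φ (((⟨x, hx⟩ : H) * ⟨y, hy⟩) ^ m) * Q = Q
      rw [hT, map_mul, mul_assoc, ey, ex]
    · intro x hx ex
      change φ ((⟨x, hx⟩ : H)⁻¹ ^ m) * Q = Q
      conv_lhs => rw [← ex]
      rw [← mul_assoc, ← map_mul, inv_pow, inv_mul_cancel, map_one, one_mul]
  let ρ := c3_rho φ Q iQ cφ
  have hρ : ∀ h, ρ h = φ h * Q + (1 - Q) := fun _ => rfl
  have hρm : ∀ h, ρ (h ^ m) = 1 := fun h => by rw [hρ, hpow, add_sub_cancel]
  refine ⟨?_, fun e e' => ?_⟩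
  · have hB' : ∀ l l' : ℕ, tr ((flow M 1 ^ l * flow M' 1 ^ l' - 1) * Q) ∈ B := fun l l' => by
      have e : ρ (a ^ l * a' ^ l') - 1 = (flow M 1 ^ l * flow M' 1 ^ l' - 1) * Q := by
        rw [hρ, map_mul, map_pow, map_pow, ha, ha', sub_mul, one_mul]
        abel
      have := hB n (ρ (a ^ l * a' ^ l')) (by rw [← map_pow, hρm]) (by
        rw [e]
        refine (c3rk_mul_le _ Q).trans ?_
        have e2 : flow M 1 ^ l * flow M' 1 ^ l' - 1 =
            P * ((flow M 1 ^ l - 1) * flow M' 1 ^ l') + P' * (flow M' 1 ^ l' - 1) := by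
          rw [← mul_assoc, ← ps, ← ps', sub_mul, one_mul]
          abel
        rw [e2]
        exact (c3rk_add_le _ _).trans
          (add_le_add ((c3rk_mul_le _ _).trans kP) ((c3rk_mul_le _ _).trans kP')))
      rwa [← tr_one, ← tr_sub, e] at this
    have hsum : ∑ l ∈ Finset.range m, ∑ l' ∈ Finset.range m,
        tr ((1 - flow M 1 ^ l) * ((1 - flow M' 1 ^ l') * Q)) ∈ D2 := by
      refine hD2 _ fun l => hD1 _ fun l' => ?_
      have e : tr ((1 - flow M 1 ^ l) * ((1 - flow M' 1 ^ l') * Q)) =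
          tr ((flow M 1 ^ l * flow M' 1 ^ l' - 1) * Q) - tr ((flow M 1 ^ l * flow M' 1 ^ 0 - 1) * Q)
            - tr ((flow M 1 ^ 0 * flow M' 1 ^ l' - 1) * Q) := by
        rw [← tr_sub, ← tr_sub]
        congr 1
        noncomm_ring
      rw [e]
      exact Finset.mem_image₂_of_mem (Finset.mem_image₂_of_mem (hB' _ _) (hB' _ _)) (hB' _ _)
    have hval : ∑ l ∈ Finset.range m, ∑ l' ∈ Finset.range m,
        tr ((1 - flow M 1 ^ l) * ((1 - flow M' 1 ^ l') * Q)) = (m : ℂ) ^ 2 * tr (P * P' * Q) := by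
      simp only [← tr_sum, ← Finset.mul_sum, ← Finset.sum_mul]
      rw [av' Q k2', mul_smul_comm, av (P' * Q) (by rw [cP'.eq, ← mul_assoc, k2]), tr_smul, tr_smul,
        mul_assoc]
      ring
    have hm0 : (m : ℂ) ≠ 0 := Nat.cast_ne_zero.2 (by omega)
    rw [hval] at hsum
    refine Finset.mem_image.2 ⟨((m : ℂ) ^ 2 * tr (P * P' * Q), c3rk (P' * R),
      c3rk (P * ((1 - R) * R'))), Finset.mem_product.2 ⟨hsum, Finset.mem_product.2 ⟨?_, ?_⟩⟩, ?_⟩
    · exact Finset.mem_range.2 (Nat.lt_succ_of_le ((c3rk_mul_le _ _).trans kP'))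
    · exact Finset.mem_range.2 (Nat.lt_succ_of_le ((c3rk_mul_le _ _).trans kP))
    · rw [dec, t1, t2, mul_div_cancel_left₀ _ (pow_ne_zero 2 hm0)]
  · have : Group.FG H := Group.closure_finite_fg _
    have : Finite ρ.toHomUnits.range :=
      c3_finite (by omega) ρ.toHomUnits hm fun h => Units.ext (hρm h)
    obtain ⟨y, hy, hfix⟩ := fix_of_finite ρ.toHomUnits.range (by
      rintro _ ⟨h, rfl⟩
      exact c3_isom_restr (hiso h) iQ (cφ h) hsa)
    have heig : ∀ h : H, ∃ c : ℂ, φ h (Q y) = c • Q y := fun h => by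
      obtain ⟨c, hc⟩ := hfix _ ⟨h, rfl⟩
      refine ⟨c, ?_⟩
      have e2 : Q * ρ h = φ h * Q := by
        rw [hρ, mul_add, mul_sub, mul_one, iQ.eq, sub_self, add_zero, ← mul_assoc, ← (cφ h).eq,
          mul_assoc, iQ.eq]
      have e3 : Q (ρ h y) = φ h (Q y) := congrArg (fun S : Op n => S y) e2
      rw [← e3, ← map_smul]
      exact congrArg Q hc
    obtain ⟨c, hc⟩ := heig a
    obtain ⟨c', hc'⟩ := heig a'
    exact c3_eq hP hP' (hneg y hy) (ker _ (hneg y hy) c hc) (ker' _ (hneg y hy) c' hc') e e'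

theorem angles (r m : ℕ) : ∃ A : Finset ℂ, ∀ (n : ℕ) (M M' : Op n), IsGenLt 1 M → IsGenLt 1 M' →
    nilp M = 0 → nilp M' = 0 → (tr (specP M Set.univ)).re ≤ r → (tr (specP M' Set.univ)).re ≤ r →
    (Subgroup.center (Subgroup.closure {flowU M 1, flowU M' 1})).index ≠ 0 →
    (Subgroup.center (Subgroup.closure {flowU M 1, flowU M' 1})).index ≤ m →
    tr (specP M Set.univ * specP M' Set.univ) ∈ A ∧
      (tr (specP M Set.univ) = tr (specP M' Set.univ) →
        tr (specP M Set.univ * specP M' Set.univ) = tr (specP M Set.univ) →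
        specP M Set.univ = specP M' Set.univ) := by
  classical
  choose A hA using fun k : ℕ => c3_core r (k + 1) (Nat.le_add_left 1 k)
  refine ⟨(Finset.range m).biUnion A, fun n M M' hM hM' h0 h0' hr hr' hi hi' => ?_⟩
  obtain ⟨k, hk⟩ := Nat.exists_eq_succ_of_ne_zero hi
  obtain ⟨h1, h2⟩ := hA k n M M' hM hM' h0 h0' hr hr' hk
  exact ⟨Finset.mem_biUnion.2 ⟨k, Finset.mem_range.2 (by omega), h1⟩, h2⟩

end BallQ
end
end

-- merged part: Pool.Agent.Work.MP_72250f_ag.C4a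
section
/-!
Type B. For M of type B all positive weights exceed eta and their sum is < 1, so tr P = rank P <= 1 / eta for P = specP M univ, and
range (flow M 1 - 1) is in range P. sysOK_B: flow P 1 = 1; cusp: mu M <= mu P (mu_le_specP), kill, then P Mc = 0 (specP_apply_of_ker);
few: mult_le_cnt with R F M = (TypeB M and F = {specP M univ}). countB: r = ceil (1/eta), (M, rho) from short_power r eps1, sB with
(1 + 2 pi sB)^2 <= 1 + rho. For two members at x outside HB t3: close words give an element small at x, it commutes with both flows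
(comm_gen_out), so lies in the centre of H; index_le_of_words and angles. For each value c of the trace apply card_le_of_angles to
A minus c (P * P = P), and sum over c in 0..r.
-/

open scoped ComplexConjugate ENNReal Topology
open MeasureTheory Filter

noncomputable section

namespace BallQ

variable {n : ℕ}

theorem c4a_tube {Γ : Subgroup (GG n)} {η s : ℝ} {M : Op n} (h : TypeB Γ η M) {x : V n}
    (hx : x ∈ TubeS {specP M Set.univ} s) : x ∈ Tube M s := by
  rw [TubeS, Set.biUnion_singleton] at hx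
  exact ⟨hx.1, ((c1_gen h.1).mu_le_specP h.2.1 hx.1).trans_lt hx.2⟩

theorem c4a_cnj_zero (g : GG n) : cnj g (0 : Op n) = 0 := by
  rw [cnj, mul_zero, zero_mul]

theorem TypeB.tr_le {Γ : Subgroup (GG n)} {η : ℝ} (hη : 0 < η) {M : Op n} (h : TypeB Γ η M) :
    ∃ c : ℕ, tr (specP M Set.univ) = c ∧ (c : ℝ) ≤ 1 / η ∧
      Module.finrank ℂ (LinearMap.range ((flow M 1 - 1 : Op n) : V n →ₗ[ℂ] V n)) ≤ c := by
  classical
  obtain ⟨⟨⟨F, -, rfl⟩, h1, -⟩, h2, h3⟩ := h
  rw [F.nilp_eq, rk1_eq_zero] at h2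
  rw [F.specP_eq] at h3 ⊢
  have hee : ∀ i, form (F.e i) (F.e i) = 1 := fun i => by rw [F.on, if_pos rfl]
  have h4 : ∀ i, 0 < F.w i → η ≤ F.w i := fun i hi => by
    by_contra hc
    have h5 := g3a_eig F (Set.Iic η) hi (g1a_op_e F i)
    rw [h3, if_pos (Set.mem_Iic.2 (not_le.1 hc).le)] at h5
    have h6 := hee i
    rw [← h5, zero_apply, form_zero_left] at h6
    exact zero_ne_one h6
  refine ⟨(Finset.univ.filter fun i => 0 < F.w i).card, ?_, ?_, ?_⟩
  · rw [Frame.spec, tr_sum, Finset.card_filter, Nat.cast_sum]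
    refine Finset.sum_congr rfl fun i _ => ?_
    by_cases hi : 0 < F.w i
    · rw [if_pos ⟨hi, trivial⟩, if_pos hi, tr_rk1, hee, Nat.cast_one]
    · rw [if_neg fun h => hi h.1, if_neg hi, Nat.cast_zero, tr]
      exact map_zero _
  · rw [age, F.age_eq, Complex.ofReal_re] at h1
    have h5 := Finset.card_nsmul_le_sum (Finset.univ.filter fun i => 0 < F.w i) F.w η
      fun i hi => h4 i (Finset.mem_filter.1 hi).2
    have h6 := Finset.sum_le_sum_of_subset_of_nonneg
      (Finset.filter_subset (fun i => 0 < F.w i) Finset.univ) fun i _ _ => F.w0 i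
    rw [nsmul_eq_mul] at h5
    rw [le_div_iff₀ hη]
    linarith only [h1, h5, h6]
  · refine le_trans (Submodule.finrank_mono ?_) ((finrank_span_finset_le_card (R := ℂ)
      ((Finset.univ.filter fun i => 0 < F.w i).image F.e)).trans Finset.card_image_le)
    rintro _ ⟨v, rfl⟩
    rw [ContinuousLinearMap.coe_coe, sub_apply, g1a_flow_apply, h2, smul_zero, add_zero,
      one_apply_eq_self, add_sub_cancel_left]
    refine Submodule.sum_mem _ fun i _ => ?_
    rcases (F.w0 i).eq_or_lt with hi | hi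
    · rw [← hi, Complex.ofReal_zero, mul_zero, Complex.exp_zero, sub_self, zero_mul, zero_smul]
      exact Submodule.zero_mem _
    · exact Submodule.smul_mem _ _ (Submodule.subset_span (Finset.mem_coe.2
        (Finset.mem_image_of_mem _ (Finset.mem_filter.2 ⟨Finset.mem_univ _, hi⟩))))

theorem sysOK_B {Γ : Subgroup (GG n)} (hΓ : Proper Γ) (η : ℝ) : SysOK Γ (sysB Γ η) := by
  refine ⟨⟨?_, ?_⟩, ?_, fun x hx => ?_⟩
  · refine ((countable_gen hΓ).image fun M => ({specP M Set.univ} : Set (Op n))).mono ?_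
    rintro _ ⟨M, hM, rfl⟩
    exact ⟨M, ⟨c1_lt hM.1, hM.1.2.2.2⟩, rfl⟩
  · rintro g hg _ ⟨M, hM, rfl⟩
    have h1 := c1_gen hM.1
    have h2 := hΓ.isom g hg
    refine ⟨cnj g M, ⟨hM.1.cnj hΓ hg, ?_, ?_⟩, ?_⟩
    · rw [h1.nilp_cnj h2, hM.2.1, c4a_cnj_zero]
    · rw [h1.specP_cnj h2, hM.2.2, c4a_cnj_zero]
    · rw [h1.specP_cnj h2, cnjS, Set.image_singleton]
  · rintro _ ⟨M, hM, rfl⟩
    have h1 := c1_gen hM.1
    have h2 := h1.isRound_specP Set.univ
    refine ⟨Set.finite_singleton _, Set.singleton_nonempty _, ?_, ?_, ?_⟩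
    · rintro _ rfl
      refine ⟨h2.isGen, 1, norm_one, 1, Γ.one_mem, ?_⟩
      rw [h2.flow_eq, mul_one, Complex.exp_two_pi_mul_I, sub_self, zero_smul, add_zero, one_smul,
        Units.val_one]
    · rintro _ rfl _ rfl
      exact Commute.refl _
    · rintro Mc hc ⟨x, hx, hx'⟩ _ rfl
      have h3 : specP M Set.univ * Mc = 0 := ContinuousLinearMap.ext fun v =>
        h1.specP_apply_of_ker _ (kill hΓ hc (c1_lt hM.1) hM.1.2.2.2 hx (c4a_tube hM hx') v)
      exact ⟨h3, mul_eq_zero_comm_of_gen h2.isGen (hc.1.1.isGenLt 1).isGen h3⟩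
  · refine mult_le_cnt _ _ hx (fun F M => F = {specP M Set.univ}) ?_
      fun F _ F' _ M h h' => h.trans h'.symm
    rintro _ ⟨M, hM, rfl⟩ hx'
    exact ⟨M, rfl, c1_lt hM.1, hM.1.2.2.2, (c4a_tube hM hx').2⟩

theorem dir_B {Γ : Subgroup (GG n)} (η : ℝ) :
    ∀ F ∈ sysB Γ η, ∃ D : Op n, IsDir D ∧ (∀ g ∈ stab Γ F, Commute (g : Op n) D) ∧
      (∀ M ∈ F, DirFor D 1 M) ∧
      ∀ Mc, Cusp Γ Mc → (∀ M ∈ F, M * Mc = 0 ∧ Mc * M = 0) → Commute D Mc := by
  rintro _ ⟨M, hM, rfl⟩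
  have h1 := c1_gen hM.1
  have h2 := h1.isRound_specP Set.univ
  refine ⟨specP M Set.univ, Or.inl ⟨h2, fun h => hM.1.2.2.1 (ContinuousLinearMap.ext fun v =>
    (h1.apply_eq_zero_iff v).2 ⟨by rw [h, zero_apply], by rw [hM.2.1, zero_apply]⟩)⟩,
    fun g hg => ?_, ?_, fun Mc _ h => ?_⟩
  · have h3 := (mem_stab.1 hg).2
    rw [cnjS, Set.image_singleton, Set.singleton_eq_singleton_iff] at h3
    exact cnj_eq_iff.1 h3
  · rintro _ rfl
    have h3 := dirFor_round h2 1
    rwa [Complex.ofReal_one, one_smul] at h3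
  · exact (h _ rfl).1.trans (h _ rfl).2.symm

end BallQ
end
end

-- merged part: Pool.Agent.Work.MP_72250f_ag.C5a
section
/-!
Reflections of order two: algebra and counting. Notation s = refl e, s' = refl e', f = perp e e', ph = <f,f> = 1 - |<e',e>|^2.
tr (s' s) = n + 1 - 4 ph; (s' s - 1) e = -2 ph e + 2 <e,e'> f; range (s' s - 1) = span(e, e').
near_small: kappa <= 8 |ph| and <s' s x, x> = <s x, s' x> is within 73 tR NN x of -NN x. near_unique: thmZ for a = s' s and a' = s'' s. If they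
commute, a' preserves range (a - 1), so f'' is in span(e, f) and orthogonal to e. Otherwise neither is elliptic, so span(e,f) is not
positive definite (else a fixes a negative vector), the commutator vert p tau is small with uu <= 6 (eps/64)^2, its conjugate by s is small and fixes the line of p
(small_fix_null), so s p, then s' p, s'' p are multiples of p, p is orthogonal to e, e', e'' and f, f'' are multiples of p (eq_smul_of_perp).
countR: (M, rho) from short_power 1 e with e small. For two different members e, e' at x take the words (s s')^(2i): b^(2m) with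
b = s s', 1 <= m <= M, is close to 1. If b^(2m) is not 1 then b^(2m) s = cnj (b^m) s = refl e'' with e'' = b^m e is Near (estimate ph and
<x,f''> from (a - 1) e with qq, norm_form_sq_le_qq) and x is thin. Otherwise trace_root (2 M factorial, rank 2) puts |<e,e'>|^2 = tr (P P') in a finite set, and it
is not 1 (then f is null, b f = f, b e = c e - 2 f up to units gives b^(2m) e different from e unless f = 0). card_le_of_angles for P = rk1 e e.
-/

open scoped ComplexConjugate ENNReal Topology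
open MeasureTheory Filter

noncomputable section

namespace BallQ

variable {n : ℕ}

theorem Refl.cnj {Γ : Subgroup (GG n)} (hΓ : Proper Γ) {e : V n} (h : Refl Γ e) {g : GG n}
    (hg : g ∈ plus Γ) : Refl Γ ((g : Op n) e) := by
  have hi : IsIsom (g : Op n) := InP.isIsom hΓ hg
  refine ⟨by rw [hi, h.1], ?_⟩
  rw [← cnj_refl hi]
  exact h.2.cnj hg

theorem sysOK_R {Γ : Subgroup (GG n)} (hΓ : Proper Γ) : SysOK Γ (sysR Γ) := by
  have hP : ∀ e, Refl Γ e → InP Γ (flow ((1 / 2 : ℂ) • rk1 e e) 1) := fun e he => by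
    rw [flow_half_rk1 he.1]; exact he.2
  refine ⟨⟨?_, ?_⟩, ?_, ?_⟩
  · refine ((countable_gen hΓ).image (fun M => ({M} : Set (Op n)))).mono ?_
    rintro F ⟨e, he, rfl⟩
    exact ⟨_, ⟨isGenLt_half_rk1 he.1, hP e he⟩, rfl⟩
  · rintro g hg F ⟨e, he, rfl⟩
    refine ⟨(g : Op n) e, he.cnj hΓ (le_plus Γ hg), ?_⟩
    rw [cnjS, Set.image_singleton, cnj_smul, cnj_rk1 (hΓ.isom g hg)]
  · rintro F ⟨e, he, rfl⟩
    refine ⟨Set.finite_singleton _, Set.singleton_nonempty _, ?_, ?_, ?_⟩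
    · rintro M rfl
      exact ⟨(isGenLt_half_rk1 he.1).isGen, hP e he⟩
    · rintro M rfl M' rfl
      exact Commute.refl _
    · rintro Mc hC ⟨x, hx, hx'⟩ N rfl
      obtain ⟨N', rfl, hxN⟩ := Set.mem_iUnion₂.1 hx'
      have h1 := kill hΓ hC (isGenLt_half_rk1 he.1) (hP e he) hx hxN
      have h2 : ((1 / 2 : ℂ) • rk1 e e) * Mc = 0 := by
        ext1 v
        exact h1 v
      exact ⟨h2, mul_eq_zero_comm_of_gen (isGenLt_half_rk1 he.1).isGen
        (hC.1.1.isGenLt 1).isGen h2⟩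
  · intro x hx
    refine mult_le_cnt _ _ hx (fun F M => F = {M}) ?_ ?_
    · rintro F ⟨e, he, rfl⟩ hxF
      obtain ⟨N, rfl, hxN⟩ := Set.mem_iUnion₂.1 hxF
      exact ⟨_, rfl, isGenLt_half_rk1 he.1, hP e he, hxN.2⟩
    · rintro F _ F' _ N rfl rfl
      rfl

theorem perp_ne_zero {Γ : Subgroup (GG n)} {e e' : V n} (he : Refl Γ e) (h : Near Γ e e') :
    perp e e' ≠ 0 := by
  intro h0
  have h1 : e' = form e' e • e := sub_eq_zero.mp h0
  have h2 : ‖form e' e‖ ^ 2 = 1 := by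
    have h3 := NN_smul (form e' e) e
    rw [← h1] at h3
    simp only [NN, he.1, h.1.1, Complex.one_re] at h3
    linarith only [h3]
  apply h.2.1
  conv_lhs => rw [h1]
  rw [rk1_smul_self, h2]
  simp

theorem c5a_perp {e e' : V n} (he : form e e = 1) (he' : form e' e' = 1) :
    form (perp e e') (perp e e') = ((1 - ‖form e' e‖ ^ 2 : ℝ) : ℂ) := by
  have h1 : form e e' = conj (form e' e) := (form_conj e' e).symm
  simp only [perp, form_sub_left, form_sub_right, form_smul_left, form_smul_right, he, he', h1]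
  push_cast
  rw [← Complex.mul_conj']
  ring

theorem c5a_tr {e e' : V n} (he : form e e = 1) (he' : form e' e' = 1) :
    tr (refl e' * refl e) = ((n + 1 - 4 * (1 - ‖form e' e‖ ^ 2) : ℝ) : ℂ) := by
  have h1 : form e e' = conj (form e' e) := (form_conj e' e).symm
  have h2 : refl e' * refl e = 1 - (2 : ℂ) • rk1 e e - (2 : ℂ) • rk1 e' e' +
      (4 * form e e') • rk1 e' e := by
    rw [refl, refl, sub_mul, mul_sub, mul_sub, one_mul, one_mul, mul_one, smul_mul_smul_comm,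
      rk1_mul_rk1, smul_smul]
    have : (2 : ℂ) * 2 * form e e' = 4 * form e e' := by ring
    rw [this]
    abel
  rw [h2, tr_add, tr_sub, tr_sub, tr_smul, tr_smul, tr_smul, tr_one, tr_rk1, tr_rk1, tr_rk1, he,
    he', h1]
  push_cast
  rw [← Complex.mul_conj']
  ring

theorem c5a_form {e e' : V n} (x : V n) :
    form (refl e' (refl e x)) x = -(NN x : ℂ) - 2 * (form x e * conj (form x e)) -
      2 * ((form x (perp e e') - conj (form e' e) * form x e) *
        conj (form x (perp e e') + conj (form e' e) * form x e)) := by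
  have h1 : form e e' = conj (form e' e) := (form_conj e' e).symm
  have h2 : form e x = conj (form x e) := (form_conj x e).symm
  have h3 : form e' x = conj (form x e') := (form_conj x e').symm
  simp only [refl_apply, perp, form_sub_left, form_sub_right, form_smul_left, form_smul_right,
    form_self x, h1, h2, h3, sub_add_cancel]
  ring

theorem near_small (hn : 3 ≤ n) {Γ : Subgroup (GG n)} {e e' : V n} (he : Refl Γ e)
    (h : Near Γ e e') {x : V n} (hx : x ∈ Tube ((1 / 2 : ℂ) • rk1 e e) (2 * tR))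
    (hf : ‖form x (perp e e')‖ ^ 2 < 4 * tR * NN x) : uu (refl e' * refl e) x ≤ eps / 64 := by
  have he1 := he.1
  have he' := h.1.1
  have hN : 0 < NN x := hx.1
  have hph : |1 - ‖form e' e‖ ^ 2| < tR := by
    have := h.2.2
    rwa [c5a_perp he1 he', Complex.norm_real, Real.norm_eq_abs] at this
  have hα : ‖form x e‖ ^ 2 < 4 * tR * NN x := by
    have h1 := hx.2
    have h2 : form (((1 / 2 : ℂ) • rk1 e e) x) x = ((‖form x e‖ ^ 2 / 2 : ℝ) : ℂ) := by
      rw [smul_apply, form_smul_left, form_rk1_self]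
      push_cast
      ring
    rw [mu, h2, Complex.ofReal_re, div_lt_iff₀ hN] at h1
    linarith only [h1]
  have hn' : (3 : ℝ) ≤ n := by exact_mod_cast hn
  obtain ⟨hp1, hp2⟩ := abs_lt.mp hph
  have hk : kappa (refl e' * refl e) ≤ 8 * tR := by
    rw [kappa, c5a_tr he1 he', Complex.norm_real, Real.norm_eq_abs]
    have := le_abs_self ((n : ℝ) + 1 - 4 * (1 - ‖form e' e‖ ^ 2))
    linarith only [hp2, this]
  have hiso : IsIsom (refl e' * refl e) := (isIsom_refl he').mul (isIsom_refl he1)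
  set a := form e' e with ha
  set α := form x e with hα'
  set β := form x (perp e e') with hβ
  have ha2 : ‖a‖ ^ 2 ≤ 2 := by
    have : tR ≤ 1 := by norm_num [tR]
    linarith only [hp1, this]
  have hb : ‖form ((refl e' * refl e) x) x‖ ≤ (1 + 56 * tR) * NN x := by
    rw [mul_apply_eq_comp, c5a_form]
    have b1 : ‖β - conj a * α‖ ≤ ‖β‖ + ‖a‖ * ‖α‖ := by
      refine (norm_sub_le _ _).trans ?_
      rw [norm_mul, Complex.norm_conj]
    have b2 : ‖conj (β + conj a * α)‖ ≤ ‖β‖ + ‖a‖ * ‖α‖ := by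
      rw [Complex.norm_conj]
      refine (norm_add_le _ _).trans ?_
      rw [norm_mul, Complex.norm_conj]
    have b3 : ‖(β - conj a * α) * conj (β + conj a * α)‖ ≤ (‖β‖ + ‖a‖ * ‖α‖) ^ 2 := by
      rw [norm_mul, sq]
      exact mul_le_mul b1 b2 (norm_nonneg _) (by positivity)
    have b4 : (‖β‖ + ‖a‖ * ‖α‖) ^ 2 ≤ 2 * ‖β‖ ^ 2 + 2 * (‖a‖ ^ 2 * ‖α‖ ^ 2) := by
      linarith only [sq_nonneg (‖β‖ - ‖a‖ * ‖α‖), sq_nonneg (‖β‖ - ‖a‖ * ‖α‖)]
    have b5 : ‖a‖ ^ 2 * ‖α‖ ^ 2 ≤ 2 * ‖α‖ ^ 2 :=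
      mul_le_mul_of_nonneg_right ha2 (by positivity)
    have b6 : ‖α * conj α‖ = ‖α‖ ^ 2 := by rw [norm_mul, Complex.norm_conj, sq]
    have b7 : ‖-(NN x : ℂ)‖ = NN x := by
      rw [norm_neg, Complex.norm_real, Real.norm_eq_abs, abs_of_pos hN]
    refine (norm_sub_le _ _).trans ?_
    refine (add_le_add (norm_sub_le _ _) le_rfl).trans ?_
    rw [b7, norm_mul 2, norm_mul 2, b6, Complex.norm_ofNat]
    linarith only [hα, hf, b3, b4, b5]
  have hC : CC x ((refl e' * refl e) x) ≤ (1 + 56 * tR) ^ 2 := by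
    rw [CC, hiso.NN_apply, norm_form_comm, div_le_iff₀ (by positivity)]
    calc _ ≤ ((1 + 56 * tR) * NN x) ^ 2 := pow_le_pow_left₀ (norm_nonneg _) hb 2
      _ = _ := by ring
  rw [uu]
  have : 8 * tR + 4 * ((1 + 56 * tR) ^ 2 - 1) ≤ eps / 64 := by norm_num [tR, eps]
  linarith only [hk, hC, this]

end BallQ
end
end
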