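import Mathlib

/-!
Definitions used in the statements on ball quotients: `PU(n,1)`, lattices, open pieces of the
quotient space, pluricanonical forms.
-/

open scoped Manifold Matrix Topology
open MeasureTheory Filter

noncomputable section

namespace BallLattice

/-- `C^n` with the euclidean norm; its unit ball is complex hyperbolic space. -/
abbrev E (n : ℕ) := EuclideanSpace ℂ (Fin n)

/-- The matrix `diag(-1, 1, ..., 1)`. -/
def J (n : ℕ) : Matrix (Option (Fin n)) (Option (Fin n)) ℂ :=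
  Matrix.diagonal fun i => Option.elim i (-1) fun _ => 1

/-- The unitary group `U(n,1)`. -/
def U (n : ℕ) : Subgroup (GL (Option (Fin n)) ℂ) where
  carrier := {g | g.valᴴ * J n * g.val = J n}
  one_mem' := by simp
  mul_mem' := by
    intro a b ha hb
    simp only [Set.mem_ofPred_eq, Units.val_mul, Matrix.conjTranspose_mul] at ha hb ⊢
    calc _ = b.valᴴ * (a.valᴴ * J n * a.val) * b.val := by simp only [Matrix.mul_assoc]
      _ = J n := by rw [ha, hb]
  inv_mem' := by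
    intro a ha
    simp only [Set.mem_ofPred_eq] at ha ⊢
    calc _ = (a.val * (a⁻¹).val)ᴴ * J n * (a.val * (a⁻¹).val) := by
          conv_lhs => rw [← ha]
          simp only [Matrix.conjTranspose_mul, Matrix.mul_assoc]
      _ = J n := by rw [Units.mul_inv a]; simp

/-- `PU(n,1)`, with the quotient topology. -/
abbrev PU (n : ℕ) := U n ⧸ Subgroup.center (U n)

variable {n : ℕ}

/-- The projective action on the ball: `z ↦ [g (1, z)]`. -/
def act (g : U n) (z : E n) : E n :=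
  WithLp.toLp 2 fun i =>
    g.val.val.mulVec (fun j => Option.elim j 1 fun l => z l) (some i) /
      g.val.val.mulVec (fun j => Option.elim j 1 fun l => z l) none

/-- `w` lies in the `Γ`-orbit of `z`. -/
def Orb (Γ : Subgroup (PU n)) (z w : E n) : Prop := ∃ g : U n, (g : PU n) ∈ Γ ∧ act g z = w

/-- A discrete subgroup of finite covolume: some measurable set of finite Bergman volume meets
every orbit. -/
structure IsLattice (Γ : Subgroup (PU n)) : Prop where
  discrete : DiscreteTopology Γ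
  covol : ∃ D : Set (E n), MeasurableSet D ∧ D ⊆ Metric.ball 0 1 ∧
    ∫⁻ z in D, ENNReal.ofReal ((1 - ‖z‖ ^ 2)⁻¹ ^ (n + 1)) < ⊤ ∧
    ∀ z ∈ Metric.ball (0 : E n) 1, ∃ w ∈ D, Orb Γ z w

variable {Y : Type*} [TopologicalSpace Y] [ChartedSpace (E n) Y]

/-- `ψ` induces an isomorphism of complex spaces from the nonempty open subset `Ω / Γ` of the
quotient space onto `S ⊆ Y`. -/
structure QuotIso (Γ : Subgroup (PU n)) (Ω : Set (E n)) (ψ : E n → Y) (S : Set Y) : Prop where
  isOpen : IsOpen Ω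
  nonempty : Ω.Nonempty
  sub : Ω ⊆ Metric.ball 0 1
  inv : ∀ z ∈ Ω, ∀ w, Orb Γ z w → w ∈ Ω
  image : ψ '' Ω = S
  fib : ∀ z ∈ Ω, ∀ w ∈ Ω, ψ z = ψ w ↔ Orb Γ z w
  hol : MDifferentiableOn 𝓘(ℂ, E n) 𝓘(ℂ, E n) ψ Ω
  isOpenMap : ∀ W ⊆ Ω, IsOpen W → IsOpen (ψ '' W)
  desc : ∀ W ⊆ S, IsOpen W → ∀ f : Y → ℂ, DifferentiableOn ℂ (f ∘ ψ) (Ω ∩ ψ ⁻¹' W) →
    MDifferentiableOn 𝓘(ℂ, E n) 𝓘(ℂ, ℂ) f W

variable (n)

/-- `Z` is locally contained in the zero set of a holomorphic function that does not vanish on any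
nonempty open set. -/
def Thin (Z : Set Y) : Prop :=
  ∀ y : Y, ∃ W : Set Y, IsOpen W ∧ y ∈ W ∧ ∃ h : Y → ℂ, MDifferentiableOn 𝓘(ℂ, E n) 𝓘(ℂ, ℂ) h W ∧
    (∀ a ∈ W, ¬ ∀ᶠ x in 𝓝 a, h x = 0) ∧ ∀ x ∈ W ∩ Z, h x = 0

/-- Holomorphic sections of the `k`-th power of the canonical bundle: `s y` is the coefficient at `y`
in the preferred chart at `y`, and the coefficient in every chart `c` is holomorphic. -/
def Pluri (k : ℕ) (s : Y → ℂ) : Prop :=
  ∀ c ∈ atlas (E n) Y, DifferentiableOn ℂ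
    (fun z => s (c.symm z) * (fderiv ℂ (chartAt (E n) (c.symm z) ∘ c.symm) z).det ^ k) c.target

variable (Y)

/-- The plurigenera grow at least like `c k^n`. -/
def GeneralType : Prop :=
  ∃ c : ℝ, 0 < c ∧ ∀ᶠ k : ℕ in atTop, ∃ m : ℕ, c * (k : ℝ) ^ n ≤ m ∧
    ∃ s : Fin m → Y → ℂ, LinearIndependent ℂ s ∧ ∀ i, Pluri n k (s i)

end BallLattice
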