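import Pool.Agent.Work.MP_72250f_ag.Z1
import Pool.Agent.Work.MP_72250f_ag.M3

-- merged part: Pool.Agent.Work.MP_72250f_ag.A1
section
/-!
Fourier coefficients along a flow. For u in Neg let Psi s = G (flow M s u) exp(2 pi i s k tr M); it is 1-periodic (Per),
holomorphic near the closed upper half plane (flow_mem_Neg), and bounded there: |G v| <= sqrt B / NN v ^ (w/2), NN increases,
tr M = age M >= 0. coef_flow: s |-> integral over x in [0,1] of Psi (s + x) exp(-2 pi i j (s + x)) has derivative 0 by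
periodicity (or Cauchy theorem on a rectangle). isHol_coef: differentiableOn_param; real flows are isometries.
norm_flow_le_of_cond: f = Function.Periodic.cuspFunction 1 Psi is holomorphic on the unit disc, its Taylor coefficients are the
coef k M j G u (Cauchy formula on a circle of radius < 1 and coef_flow), each bounded by the L2 norm of Psi on [0,1];
sum the geometric series. cond_one_of_null: coef 0 is invariant under flow (i y), bounded by NN (flow (i y) u)^(-w/2), which tends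
to 0 (IsNull.NN_flow, form_ne_zero_of_neg).
-/

open scoped ComplexConjugate ENNReal Topology
open MeasureTheory Filter

noncomputable section

namespace BallQ

variable {n : ℕ}

theorem a1_bound {w : ℕ} {G : V n → ℂ} (hG : IsHol w G) {δ : ℝ} (hδ : 0 < δ) :
    ∃ C : ℝ, 0 ≤ C ∧ ∀ v, δ ≤ NN v → ‖G v‖ ≤ C := by
  obtain ⟨B, hB⟩ := hG.bdd
  refine ⟨√(B / δ ^ w), Real.sqrt_nonneg _, fun v hv => Real.le_sqrt_of_sq_le ?_⟩
  rw [le_div_iff₀ (by positivity)]
  exact (mul_le_mul_of_nonneg_left (pow_le_pow_left₀ hδ.le hv w) (by positivity)).trans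
    (hB v (hδ.trans_le hv))

theorem decay_of_nonpos {w : ℕ} {G : V n → ℂ} (hG : IsHol w G) {M : Op n} (hM : IsGen M) {β : ℝ}
    (hβ : β ≤ 0) : Decay M β G := by
  intro R δ hδ
  obtain ⟨C, hC, h⟩ := a1_bound hG hδ
  refine ⟨C, fun u _ hu s hs => (h _ (hu.trans (hM.NN_le_flow hs u))).trans ?_⟩
  refine le_mul_of_one_le_right hC (Real.one_le_exp ?_)
  have := mul_nonneg (mul_nonneg Real.two_pi_pos.le (neg_nonneg.2 hβ)) hs
  linarith only [this]

theorem decay_of_cond {w k J : ℕ} {G : V n → ℂ} (hG : IsHol w G) {M : Op n} (hM : IsGen M)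
    (hP : Per k M G) (hC : Cond k M J G) : Decay M (J - k * age M) G := by
  intro R δ hδ
  obtain ⟨C, hC0, h⟩ := a1_bound hG hδ
  have hπ := Real.pi_pos
  have hK : 0 < 1 - Real.exp (-(2 * Real.pi)) :=
    sub_pos.2 (Real.exp_lt_one_iff.2 (by linarith only [hπ]))
  have ha : 0 ≤ (k : ℝ) * age M := mul_nonneg k.cast_nonneg hM.age_nonneg
  refine ⟨C * ((1 - Real.exp (-(2 * Real.pi)))⁻¹ + Real.exp (2 * Real.pi * J)),
    fun u _ hu s hs => ?_⟩
  rw [mul_add, add_mul]
  rcases le_total s.im 1 with h1 | h1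
  · refine (h _ (hu.trans (hM.NN_le_flow hs u))).trans (le_add_of_nonneg_of_le (by positivity) ?_)
    rw [mul_assoc, ← Real.exp_add]
    refine le_mul_of_one_le_right hC0 (Real.one_le_exp ?_)
    have h2 := mul_nonneg (mul_nonneg Real.two_pi_pos.le ha) hs
    have h3 := mul_nonneg (mul_nonneg Real.two_pi_pos.le J.cast_nonneg) (sub_nonneg.2 h1)
    linarith only [h2, h3]
  · refine le_add_of_le_of_nonneg ?_ (by positivity)
    have h2 := norm_flow_le_of_cond hG hM hP hC (hδ.trans_le hu) (one_pos.trans_le h1)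
    have h3 : ∫ x in (0 : ℝ)..1, ‖G (flow M x u)‖ ^ 2 ≤ C ^ 2 := by
      refine (Real.le_norm_self _).trans ((intervalIntegral.norm_integral_le_of_norm_le_const
        (C := C ^ 2) fun x _ => ?_).trans (by simp))
      rw [norm_pow, norm_norm]
      exact pow_le_pow_left₀ (norm_nonneg _) (h _ (hu.trans (hM.NN_le_flow (by simp) u))) 2
    have h4 : Real.exp (-(2 * Real.pi * s.im)) ≤ Real.exp (-(2 * Real.pi)) :=
      Real.exp_le_exp.2 (by linarith only [hπ, h1, mul_nonneg_of_nonpos_of_nonpos (le_of_lt (Mathlib.Tactic.Linarith.sub_neg_of_lt hπ)) (Mathlib.Tactic.Linarith.sub_nonpos_of_le h1)])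
    have h5 : (1 - Real.exp (-(2 * Real.pi * s.im)))⁻¹ ≤ (1 - Real.exp (-(2 * Real.pi)))⁻¹ :=
      inv_anti₀ hK (by linarith only [h4])
    have h6 := h2.trans (mul_le_mul (mul_le_mul_of_nonneg_left
      (pow_le_pow_left₀ (inv_nonneg.2 (by linarith only [hK, h4])) h5 2) (Real.exp_pos _).le) h3
      (intervalIntegral.integral_nonneg zero_le_one fun _ _ => by positivity) (by positivity))
    refine le_of_sq_le_sq ?_ (by positivity)
    rw [← le_div_iff₀ (Real.exp_pos _)] at h6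
    refine h6.trans (le_of_eq ?_)
    rw [mul_pow, mul_pow, ← Real.exp_nat_mul, div_eq_mul_inv, ← Real.exp_neg,
      show ((2 : ℕ) : ℝ) * -(2 * Real.pi * (J - k * age M) * s.im) =
        -(4 * Real.pi * s.im * J) + - -(4 * Real.pi * s.im * (k * age M)) by push_cast; ring,
      Real.exp_add]
    ring

theorem Decay.mono {G : V n → ℂ} {M : Op n} {β β' : ℝ} (h : Decay M β G) (hβ : β' ≤ β) :
    Decay M β' G := by
  intro R δ hδ
  obtain ⟨C, hC⟩ := h R δ hδ
  refine ⟨|C|, fun u h1 h2 s hs => (hC u h1 h2 s hs).trans ?_⟩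
  refine mul_le_mul (le_abs_self C) (Real.exp_le_exp.2 ?_) (Real.exp_pos _).le (abs_nonneg C)
  have := mul_nonneg (mul_nonneg Real.two_pi_pos.le (sub_nonneg.2 hβ)) hs
  linarith only [this]

theorem decay_dom {G : V n → ℂ} {M' : Op n} (R : Frame n) (hR : R.p = 0) (hc : Commute M' R.op)
    {a β : ℝ} (ha : 0 ≤ a) (h : Decay M' β G) : Decay ((a : ℂ) • M' + R.op) (a * β) G := by
  intro ρ δ hδ
  obtain ⟨B, hB⟩ := R.norm_flow_le hR
  obtain ⟨C, hC⟩ := h (B * ρ) δ hδ
  refine ⟨C, fun u h1 h2 s hs => ?_⟩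
  rw [flow_add_op (hc.smul_left _), flow_smul, mul_apply_eq_comp]
  have e : ((a : ℂ) * s).im = a * s.im := by simp
  have := hC (flow R.op s u) (((flow R.op s).le_opNorm u).trans
    (mul_le_mul (hB s hs) h1 (norm_nonneg _) ((norm_nonneg _).trans (hB s hs))))
    (h2.trans (IsGen.NN_le_flow ⟨R, rfl⟩ hs u)) (a * s) (by rw [e]; positivity)
  rw [e] at this
  exact this.trans (le_of_eq (by congr 2; ring))

theorem cond_one_of_null {w k : ℕ} (hw : 1 ≤ w) {G : V n → ℂ} (hG : IsHol w G) {M : Op n}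
    (hM : IsNull M) (hP : Per k M G) : Cond k M 1 G := by
  intro j hj
  obtain rfl : j = 0 := by omega
  have hg : IsGen M := (hM.isGenLt 1).isGen
  have hH := isHol_coef (k := k) hG hg 0
  funext u
  by_cases hu : u ∈ Neg n
  swap
  · exact hH.zero u hu
  obtain ⟨B, hB⟩ := hH.bdd
  by_contra h0
  have hc : 0 < ‖coef k M 0 G u‖ ^ 2 := pow_pos (norm_pos_iff.2 h0) 2
  have hm : 0 < (form (M u) u).re := by
    obtain ⟨p, hp0, hp, rfl⟩ := hM
    rw [form_rk1_self, Complex.ofReal_re, norm_form_comm]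
    exact pow_pos (norm_pos_iff.2 (form_ne_zero_of_neg hu hp0 (by simp [NN, hp]))) 2
  have hπ := Real.pi_pos
  obtain ⟨T, hT⟩ : ∃ T, T = 1 + |B| / ‖coef k M 0 G u‖ ^ 2 := ⟨_, rfl⟩
  have hT1 : 1 ≤ T := by
    rw [hT]
    exact le_add_of_nonneg_right (by positivity)
  obtain ⟨s, hs⟩ : ∃ s : ℂ, s.im = T / (4 * Real.pi * (form (M u) u).re) := ⟨⟨0, _⟩, rfl⟩
  have hs0 : 0 ≤ s.im := by
    rw [hs]
    positivity
  have h1 := coef_flow hG hg hP 0 hu hs0
  simp only [hM.age_eq, mul_zero, Complex.exp_zero, mul_one, Nat.cast_zero, one_mul] at h1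
  have h2 := hB _ (hg.flow_mem_Neg hs0 hu)
  have h3 : T ≤ NN (flow M s u) := by
    rw [hM.NN_flow, hs]
    have : 4 * Real.pi * (T / (4 * Real.pi * (form (M u) u).re)) * (form (M u) u).re = T := by
      field_simp
    rw [this]
    exact le_add_of_nonneg_left (le_of_lt hu)
  have h4 : T ≤ NN (flow M s u) ^ w := h3.trans (le_self_pow₀ (hT1.trans h3) (by omega))
  rw [h1] at h2
  have h5 := (mul_le_mul_of_nonneg_left h4 hc.le).trans h2
  rw [hT, mul_add, mul_one, mul_div_cancel₀ _ hc.ne'] at h5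
  linarith only [hc, h5, le_abs_self B]

end BallQ
end
end

-- merged part: Pool.Agent.Work.MP_72250f_ag.A2a
section
/-!
Algebra of the coefficient operators. Outside Neg everything vanishes (real flows are isometries), on Neg the integrands are
continuous. coef_coef: coef_flow for real s and the integral of exp(2 pi i x m) over [0,1]. coef_comm: commuting flows and
Fubini (intervalIntegral_integral_swap or integral_integral_swap). mass_split: for u in Neg the finite Bessel identity for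
Psi x = G (flow M x u) exp(2 pi i x k tr M) on [0,1] (|exp| = 1 as tr M is real), where (G - low G)(flow x u) exp(..) = Psi x - sum of
a_j exp(2 pi i j x); then mass S H = integral over x in [0,1] of the mass of H o flow x (lintegral_isomQ), Tonelli.
-/

open scoped ComplexConjugate ENNReal Topology
open MeasureTheory Filter

noncomputable section

namespace BallQ

variable {n : ℕ}

theorem a2a_cont {X : Type*} [TopologicalSpace X] {w : ℕ} {G : V n → ℂ} (hG : IsHol w G)
    {φ : X → V n} (hφ : Continuous φ) {v : V n} (h : ∀ x, φ x ∈ Neg n ↔ v ∈ Neg n) :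
    Continuous fun x => G (φ x) := by
  by_cases hv : v ∈ Neg n
  · exact hG.diff.continuousOn.comp_continuous hφ fun x => (h x).mpr hv
  · have : (fun x => G (φ x)) = fun _ => 0 :=
      funext fun x => hG.zero _ fun hx => hv ((h x).mp hx)
    rw [this]
    exact continuous_const

theorem a2a_flow_cont (M : Op n) : Continuous fun q : ℝ × V n => flow M q.1 q.2 :=
  ((continuous_flow M).comp (Complex.continuous_ofReal.comp continuous_fst)).clm_apply
    continuous_snd

theorem a2a_cont1 {w : ℕ} {G : V n → ℂ} (hG : IsHol w G) {M : Op n} (hM : IsGen M) (v : V n) :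
    Continuous fun x : ℝ => G (flow M x v) :=
  a2a_cont hG (((continuous_flow M).comp Complex.continuous_ofReal).clm_apply continuous_const)
    (v := v)
    fun x => (hM.isIsom_flow x).mem_Neg

theorem a2a_int {w : ℕ} {G : V n → ℂ} (hG : IsHol w G) {M : Op n} (hM : IsGen M) (v : V n)
    (c : ℂ) : IntervalIntegrable
      (fun x : ℝ => G (flow M x v) * Complex.exp (2 * Real.pi * Complex.I * x * c)) volume 0 1 :=
  ((a2a_cont1 hG hM v).mul (by fun_prop)).intervalIntegrable _ _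

theorem coef_add {w k : ℕ} {G H : V n → ℂ} (hG : IsHol w G) (hH : IsHol w H) {M : Op n}
    (hM : IsGen M) (j : ℕ) : coef k M j (G + H) = coef k M j G + coef k M j H := by
  funext v
  simp only [coef, Pi.add_apply, add_mul]
  exact intervalIntegral.integral_add (a2a_int hG hM v _) (a2a_int hH hM v _)

theorem coef_sub {w k : ℕ} {G H : V n → ℂ} (hG : IsHol w G) (hH : IsHol w H) {M : Op n}
    (hM : IsGen M) (j : ℕ) : coef k M j (G - H) = coef k M j G - coef k M j H := by
  funext v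
  simp only [coef, Pi.sub_apply, sub_mul]
  exact intervalIntegral.integral_sub (a2a_int hG hM v _) (a2a_int hH hM v _)

theorem coef_smul (k : ℕ) (c : ℂ) (G : V n → ℂ) (M : Op n) (j : ℕ) :
    coef k M j (c • G) = c • coef k M j G := by
  funext v
  simp only [coef, Pi.smul_apply, smul_eq_mul]
  rw [← intervalIntegral.integral_const_mul]
  simp only [mul_assoc]

theorem coef_zero (k : ℕ) (M : Op n) (j : ℕ) : coef k M j (0 : V n → ℂ) = 0 := by
  funext v
  simp [coef]

theorem a2a_isHol_sum {w : ℕ} {ι : Type*} (s : Finset ι) {G : ι → V n → ℂ}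
    (hG : ∀ i, IsHol w (G i)) : IsHol w (∑ i ∈ s, G i) := by
  classical
  induction s using Finset.induction_on with
  | empty => simpa using isHol_zero w
  | insert a s ha ih =>
    rw [Finset.sum_insert ha]
    exact (hG a).add ih

theorem a2a_coef_sum {w k : ℕ} {ι : Type*} (s : Finset ι) {G : ι → V n → ℂ}
    (hG : ∀ i, IsHol w (G i)) {M : Op n} (hM : IsGen M) (j : ℕ) :
    coef k M j (∑ i ∈ s, G i) = ∑ i ∈ s, coef k M j (G i) := by
  classical
  induction s using Finset.induction_on with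
  | empty => simpa using coef_zero k M j
  | insert a s ha ih =>
    rw [Finset.sum_insert ha, Finset.sum_insert ha, coef_add (hG a) (a2a_isHol_sum s hG) hM, ih]

theorem isHol_low {w k : ℕ} {G : V n → ℂ} (hG : IsHol w G) {M : Op n} (hM : IsGen M) (J : ℕ) :
    IsHol w (low k M J G) :=
  a2a_isHol_sum _ fun j => isHol_coef hG hM j

theorem coef_low {w k : ℕ} {G : V n → ℂ} (hG : IsHol w G) {M M' : Op n} (hM : IsGen M)
    (hM' : IsGen M') (J j : ℕ) :
    coef k M' j (low k M J G) = ∑ i ∈ Finset.range J, coef k M' j (coef k M i G) :=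
  a2a_coef_sum _ (fun i => isHol_coef hG hM i) hM' j

theorem a2a_orth (i j : ℕ) :
    ∫ x in (0 : ℝ)..1, Complex.exp (2 * Real.pi * Complex.I * ((i : ℂ) - j) * x) =
      if i = j then 1 else 0 := by
  split_ifs with h
  · subst h
    simp
  · have hc : (2 * Real.pi * Complex.I * ((i : ℂ) - j)) ≠ 0 := by
      refine mul_ne_zero Complex.two_pi_I_ne_zero (sub_ne_zero.mpr ?_)
      exact_mod_cast h
    rw [integral_exp_mul_complex hc]
    have h1 := Complex.exp_int_mul_two_pi_mul_I ((i : ℤ) - j)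
    have h2 : 2 * Real.pi * Complex.I * ((i : ℂ) - j) * ((1 : ℝ) : ℂ) =
        (((i : ℤ) - j : ℤ) : ℂ) * (2 * Real.pi * Complex.I) := by
      push_cast
      ring
    rw [h2, h1]
    simp

theorem coef_coef {w k : ℕ} {G : V n → ℂ} (hG : IsHol w G) {M : Op n} (hM : IsGen M)
    (hP : Per k M G) (i j : ℕ) :
    coef k M j (coef k M i G) = if i = j then coef k M i G else 0 := by
  funext v
  have hH : IsHol w (coef k M i G) := isHol_coef hG hM i
  have key : coef k M j (coef k M i G) v = (if i = j then 1 else 0) * coef k M i G v := by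
    by_cases hv : v ∈ Neg n
    · rw [← a2a_orth, ← intervalIntegral.integral_mul_const]
      conv_lhs => rw [coef]
      refine intervalIntegral.integral_congr fun x _ => ?_
      have h1 := coef_flow hG hM hP i hv (s := (x : ℂ)) (by simp)
      have h2 : 2 * Real.pi * Complex.I * (x : ℂ) * (k * tr M - j) =
          2 * Real.pi * Complex.I * (x : ℂ) * (k * tr M) + -(2 * Real.pi * Complex.I * x * j) := by
        ring
      have h3 : 2 * Real.pi * Complex.I * ((i : ℂ) - j) * x =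
          2 * Real.pi * Complex.I * (x : ℂ) * i + -(2 * Real.pi * Complex.I * x * j) := by
        ring
      rw [h2, h3, Complex.exp_add, Complex.exp_add, ← mul_assoc, h1]
      ring
    · rw [hH.zero v hv, (isHol_coef hH hM j).zero v hv, mul_zero]
  rw [key]
  split_ifs <;> simp

theorem a2a_flow_comm {M M' : Op n} (hc : Commute M M') (s t : ℂ) (v : V n) :
    flow M s (flow M' t v) = flow M' t (flow M s v) := by
  have h : Commute (flow M s) (flow M' t) := commute_flow (commute_flow hc.symm s).symm t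
  rw [← mul_apply_eq_comp, h.eq, mul_apply_eq_comp]

theorem coef_comm {w k : ℕ} {G : V n → ℂ} (hG : IsHol w G) {M M' : Op n} (hM : IsGen M)
    (hM' : IsGen M') (hc : Commute M M') (i j : ℕ) :
    coef k M i (coef k M' j G) = coef k M' j (coef k M i G) := by
  funext v
  simp only [coef, ← intervalIntegral.integral_mul_const]
  have h1 : Continuous fun q : ℝ × ℝ => G (flow M' q.2 (flow M q.1 v)) :=
    a2a_cont hG (((continuous_flow M').comp (Complex.continuous_ofReal.comp continuous_snd)).clm_apply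
      (((continuous_flow M).comp (Complex.continuous_ofReal.comp continuous_fst)).clm_apply
        continuous_const)) (v := v)
      fun q => (hM'.isIsom_flow q.2).mem_Neg.trans (hM.isIsom_flow q.1).mem_Neg
  have h2 : Continuous fun q : ℝ × ℝ => G (flow M' q.2 (flow M q.1 v)) *
      Complex.exp (2 * Real.pi * Complex.I * q.2 * (k * tr M' - j)) *
      Complex.exp (2 * Real.pi * Complex.I * q.1 * (k * tr M - i)) :=
    (h1.mul (by fun_prop)).mul (by fun_prop)
  rw [intervalIntegral_intervalIntegral_swap]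
  · refine intervalIntegral.integral_congr fun y _ => ?_
    refine intervalIntegral.integral_congr fun x _ => ?_
    rw [a2a_flow_comm hc]
    ring
  · refine (h2.continuousOn.integrableOn_compact
      (isCompact_uIcc.prod isCompact_uIcc : IsCompact (Set.uIcc (0 : ℝ) 1 ×ˢ Set.uIcc (0 : ℝ) 1))).mono_set ?_
    exact Set.prod_mono Set.uIoc_subset_uIcc Set.uIoc_subset_uIcc

theorem per_coef {k : ℕ} {G : V n → ℂ} {M M' : Op n} (hc : Commute M M') (hP : Per k M' G)
    (j : ℕ) : Per k M' (coef k M j G) := by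
  intro v
  simp only [coef]
  rw [← intervalIntegral.integral_mul_const]
  refine intervalIntegral.integral_congr fun x _ => ?_
  rw [a2a_flow_comm hc, ← hP (flow M x v)]
  ring

theorem Per.sub {k : ℕ} {G H : V n → ℂ} {M : Op n} (hG : Per k M G) (hH : Per k M H) :
    Per k M (G - H) := by
  intro v
  simp only [Pi.sub_apply]
  rw [sub_mul, hG v, hH v]

theorem per_low {k : ℕ} {G : V n → ℂ} {M M' : Op n} (hc : Commute M M') (hP : Per k M' G)
    (J : ℕ) : Per k M' (low k M J G) := by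
  intro v
  simp only [low, Finset.sum_apply]
  rw [Finset.sum_mul]
  exact Finset.sum_congr rfl fun j _ => per_coef hc hP j v

theorem coef_cnj (k : ℕ) (g : GG n) (M : Op n) (j : ℕ) (G : V n → ℂ) (v : V n) :
    coef k (cnj g M) j G ((g : Op n) v) = coef k M j (fun u => G ((g : Op n) u)) v := by
  simp only [coef, tr_cnj, ← cnj_flow, cnj_apply, inv_apply_apply]

theorem inv_coef {Λ : Subgroup (GG n)} {k : ℕ} {G : V n → ℂ} (hi : Inv Λ G) {M : Op n}
    (hc : ∀ g ∈ Λ, Commute (g : Op n) M) (j : ℕ) : Inv Λ (coef k M j G) := by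
  intro g hg v
  have h := coef_cnj k g M j G v
  rw [cnj_eq_iff.mpr (hc g hg)] at h
  rw [h, funext (hi g hg)]

theorem cond_cnj {Γ : Subgroup (GG n)} {k J : ℕ} {G : V n → ℂ} (hi : Inv Γ G) {g : GG n}
    (hg : g ∈ Γ) (M : Op n) : Cond k (cnj g M) J G ↔ Cond k M J G := by
  have h : ∀ j v, coef k (cnj g M) j G ((g : Op n) v) = coef k M j G v := by
    intro j v
    rw [coef_cnj, funext (hi g hg)]
  constructor
  · intro hC j hj
    funext v
    rw [← h, hC j hj]
    rfl
  · intro hC j hj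
    funext v
    rw [← apply_inv_apply g v, h, hC j hj]
    rfl

end BallQ
end
end

-- merged part: Pool.Agent.Work.MP_72250f_ag.Z2
section
/-!
Small elements with a common fixed point. In both lemmas run the Engel chain c_0 = d, c_(i+1) = [g, c_i] backwards:
if c_(i+1) commutes with g (on H, resp. modulo p) then g commutes with c_i g c_i^-1 and lemmaF applies to c = c_i.
comm_of_neg: uu at y equals kappa <= uu at x (uu_of_eig, kappa_le_uu), so one may take x = y; use H = top, ell_diag,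
and hacc from uu_near: for v = a y + v' ... simpler: take H = y-perp where qq y v = -NN v, so <c0 c v - v, v> is
smaller than <v,v> and <c v, v> = 0 forces v = 0; on the line of y everything commutes.
comm_mod_null: H = p-perp meet x-perp, pr = 1 - (form p x)^-1 rk1 p x kills p and maps p-perp onto H;
rho g = pr * g is an isometry of H, multiplicative on H, diagonalisable by exists_eigenframe; on H qq x v = -NN v and
<rho c v, v> = <c v, v>.
-/

open scoped ComplexConjugate ENNReal Topology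
open MeasureTheory Filter

noncomputable section

namespace BallQ

variable {n : ℕ}

/-- Projection along `p` onto the orthogonal of `x`. -/
def z2_pr (p x : V n) : Op n := 1 - (form p x)⁻¹ • rk1 p x

theorem z2_pr_apply (p x v : V n) : z2_pr p x v = v - ((form p x)⁻¹ * form v x) • p := by
  simp [z2_pr, smul_smul]

theorem z2_pr_p {p x : V n} (h : form p x ≠ 0) : z2_pr p x p = 0 := by
  rw [z2_pr_apply, inv_mul_cancel₀ h, one_smul, sub_self]

theorem z2_pr_x {p x : V n} (h : form p x ≠ 0) (v : V n) : form (z2_pr p x v) x = 0 := by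
  rw [z2_pr_apply, form_sub_left, form_smul_left]
  field_simp
  ring

theorem z2_pr_self {p x v : V n} (hv : form v x = 0) : z2_pr p x v = v := by
  rw [z2_pr_apply, hv, mul_zero, zero_smul, sub_zero]

theorem z2_pr_left {p x w : V n} (hw : form w p = 0) (v : V n) :
    form (z2_pr p x v) w = form v w := by
  rw [z2_pr_apply, form_sub_left, form_smul_left, form_eq_zero_comm.mp hw, mul_zero, sub_zero]

theorem z2_pr_right {p x w : V n} (hw : form w p = 0) (v : V n) :
    form w (z2_pr p x v) = form w v := by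
  rw [← form_conj, z2_pr_left hw, form_conj]

theorem z2_pr_perp {p x : V n} (hpx : ∀ v, form v p = 0 → form v x * form p p = 0) {v : V n}
    (hv : form v p = 0) : form (z2_pr p x v) p = 0 := by
  rw [z2_pr_apply, form_sub_left, form_smul_left, hv, mul_assoc, hpx v hv]
  simp

theorem z2_of_pr_eq {p x u v : V n} (h : z2_pr p x u = z2_pr p x v) :
    ∃ c : ℂ, u = v + c • p := by
  rw [z2_pr_apply, z2_pr_apply] at h
  refine ⟨(form p x)⁻¹ * form u x - (form p x)⁻¹ * form v x, ?_⟩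
  rw [sub_smul]
  linear_combination (norm := module) h

theorem z2_pr_eq_of {p x u v : V n} (hpx : form p x ≠ 0) {c : ℂ} (h : u = v + c • p) :
    z2_pr p x u = z2_pr p x v := by
  rw [h, map_add, map_smul, z2_pr_p hpx, smul_zero, add_zero]

/-- Isometries which fix the line of `p`. -/
def z2_S (p : V n) (g : GG n) : Prop := IsIsom (g : Op n) ∧ ∃ a : ℂ, (g : Op n) p = a • p

theorem z2_S.mul {p : V n} {g h : GG n} (hg : z2_S p g) (hh : z2_S p h) : z2_S p (g * h) := by
  obtain ⟨hg1, a, ha⟩ := hg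
  obtain ⟨hh1, b, hb⟩ := hh
  refine ⟨hg1.mul hh1, b * a, ?_⟩
  rw [Units.val_mul, mul_apply_eq_comp, hb, map_smul, ha, smul_smul]

theorem z2_eig_ne {p : V n} (hp0 : p ≠ 0) {g : GG n} {a : ℂ} (ha : (g : Op n) p = a • p) :
    a ≠ 0 := by
  rintro rfl
  apply hp0
  rw [← inv_apply_apply g p, ha, zero_smul, map_zero]

theorem z2_inv_eig {p : V n} (hp0 : p ≠ 0) {g : GG n} {a : ℂ} (ha : (g : Op n) p = a • p) :
    ((g⁻¹ : GG n) : Op n) p = a⁻¹ • p := by
  have h := inv_apply_apply g p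
  rw [ha, map_smul] at h
  conv_rhs => rw [← h]
  rw [smul_smul, inv_mul_cancel₀ (z2_eig_ne hp0 ha), one_smul]

theorem z2_S.inv {p : V n} (hp0 : p ≠ 0) {g : GG n} (hg : z2_S p g) : z2_S p g⁻¹ := by
  obtain ⟨hg1, a, ha⟩ := hg
  exact ⟨hg1.inv, a⁻¹, z2_inv_eig hp0 ha⟩

theorem z2_S.perp {p : V n} (hp0 : p ≠ 0) {g : GG n} (hg : z2_S p g) {v : V n}
    (hv : form v p = 0) : form ((g : Op n) v) p = 0 := by
  obtain ⟨hg1, a, ha⟩ := hg
  rw [hg1.form_left, z2_inv_eig hp0 ha, form_smul_right, hv, mul_zero]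

theorem z2_S.pr {p x : V n} (hpx : form p x ≠ 0) {g : GG n} (hg : z2_S p g) (v : V n) :
    z2_pr p x ((g : Op n) (z2_pr p x v)) = z2_pr p x ((g : Op n) v) := by
  obtain ⟨-, a, ha⟩ := hg
  rw [z2_pr_apply p x v, map_sub, map_smul, ha, map_sub, map_smul, map_smul, z2_pr_p hpx]
  simp

/-- Congruence modulo `p` is preserved by the stabiliser of the line. -/
theorem z2_S.congr {p x : V n} (hpx : form p x ≠ 0) {g : GG n} (hg : z2_S p g) {u v : V n}
    (h : z2_pr p x u = z2_pr p x v) :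
    z2_pr p x ((g : Op n) u) = z2_pr p x ((g : Op n) v) := by
  rw [← hg.pr hpx u, h, hg.pr hpx v]

/-- Commutation modulo `p` on the orthogonal of `p`. -/
def z2_C (p x : V n) (g c : GG n) : Prop :=
  ∀ v, form v p = 0 → z2_pr p x ((g : Op n) ((c : Op n) v)) = z2_pr p x ((c : Op n) ((g : Op n) v))

theorem z2_step1 {p x : V n} (hp0 : p ≠ 0) (hpx : form p x ≠ 0) {g c : GG n} (hg : z2_S p g)
    (hc : z2_S p c) (h : z2_C p x g (g * c * g⁻¹ * c⁻¹)) : z2_C p x g (c * g * c⁻¹) := by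
  intro v hv
  have ha' : z2_S p (c * g * c⁻¹) := (hc.mul hg).mul (hc.inv hp0)
  have h1 := h _ (ha'.perp hp0 hv)
  have h2 := ha'.congr hpx ((hg.inv hp0).congr hpx h1)
  simp only [Units.val_mul, mul_apply_eq_comp, inv_apply_apply, apply_inv_apply] at h2 ⊢
  exact h2.symm

/-- The orthogonal of `p` and `x`. -/
def z2_H (p x : V n) : Submodule ℂ (V n) where
  carrier := {v | form v p = 0 ∧ form v x = 0}
  zero_mem' := ⟨form_zero_left _, form_zero_left _⟩
  add_mem' := by
    rintro a b ⟨h1, h2⟩ ⟨h3, h4⟩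
    exact ⟨by rw [form_add_left, h1, h3, add_zero], by rw [form_add_left, h2, h4, add_zero]⟩
  smul_mem' := by
    rintro c a ⟨h1, h2⟩
    exact ⟨by rw [form_smul_left, h1, mul_zero], by rw [form_smul_left, h2, mul_zero]⟩

theorem z2_acc {x : V n} (hx : x ∈ Neg n) {c : Op n} (hc : IsIsom c) (hu : uu c x ≤ eps)
    {v : V n} (hv : form v x = 0) (h : form (c v) v = 0) : v = 0 := by
  by_contra hv0
  have hN := pos_of_perp_neg hx hv hv0
  obtain ⟨c0, -, hc0⟩ := uu_near hc hx
  have hq : qq x v = -NN v := by simp [qq, hv]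
  have h1 := norm_form_sq_le_qq hx (c0 • c v - v) v
  have h2 := hc0 v
  rw [form_sub_left, form_smul_left, h, mul_zero, zero_sub, form_self, neg_neg, Complex.norm_real,
    Real.norm_eq_abs, sq_abs] at h1
  rw [hq] at h1 h2
  have h3 : uu c x * -NN v ≤ eps * -NN v := mul_le_mul_of_nonneg_right hu (by linarith only [hN])
  have h4 : qq x (c0 • c v - v) * -NN v ≤ eps * -NN v * -NN v :=
    mul_le_mul_of_nonneg_right (h2.trans h3) (by linarith)
  have h5 : 0 < NN v * NN v := mul_pos_of_neg_of_neg hN hN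
  unfold eps at h4
  linarith only [h1, h4, h5]

theorem z2_step2 {p x : V n} (hx : x ∈ Neg n) (hp0 : p ≠ 0) (hpx : form p x ≠ 0)
    (hpp : ∀ v, form v p = 0 → form v x * form p p = 0) {g c : GG n} (hg : z2_S p g)
    (hc : z2_S p c) (hu : uu (c : Op n) x ≤ eps) (h : z2_C p x g (c * g * c⁻¹)) :
    z2_C p x g c := by
  have ha' : z2_S p (c * g * c⁻¹) := (hc.mul hg).mul (hc.inv hp0)
  have hmem : ∀ k : GG n, z2_S p k → ∀ v ∈ z2_H p x, (z2_pr p x * (k : Op n)) v ∈ z2_H p x :=
    fun k hk v hv => ⟨z2_pr_perp hpp (hk.perp hp0 hv.1), z2_pr_x hpx _⟩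
  have hiso : ∀ k : GG n, z2_S p k → ∀ v ∈ z2_H p x, ∀ w ∈ z2_H p x,
      form ((z2_pr p x * (k : Op n)) v) ((z2_pr p x * (k : Op n)) w) = form v w := by
    intro k hk v hv w hw
    rw [mul_apply_eq_comp, z2_pr_left (hmem k hk w hw).1, mul_apply_eq_comp,
      z2_pr_right (hk.perp hp0 hv.1), hk.1]
  have hpos : ∀ v ∈ z2_H p x, v ≠ 0 → NN v < 0 := fun v hv hv0 => pos_of_perp_neg hx hv.2 hv0
  have key := lemmaF (z2_H p x) (a := z2_pr p x * (g : Op n))
    (a' := z2_pr p x * ((c * g * c⁻¹ : GG n) : Op n)) (c := z2_pr p x * (c : Op n))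
    (hmem g hg) (hmem _ ha') (hmem c hc) ?_ (hiso g hg) ?_ ?_ ?_ ?_
  · intro v hv
    have hv' : z2_pr p x v ∈ z2_H p x := ⟨z2_pr_perp hpp hv, z2_pr_x hpx v⟩
    have h1 := key _ hv'
    simp only [mul_apply_eq_comp] at h1
    rw [hc.pr hpx, hg.pr hpx] at h1
    have h2 := (hc.mul hg).pr hpx v
    have h3 := (hg.mul hc).pr hpx v
    simp only [Units.val_mul, mul_apply_eq_comp] at h2 h3
    rw [← h2, ← h3, h1]
  · intro v hv h0
    by_contra hv0
    have h1 := hiso c hc v hv v hv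
    rw [h0, form_zero_left, form_self] at h1
    have h2 : NN v = 0 := by simpa using h1
    exact (hpos v hv hv0).ne h2
  · obtain ⟨m, e, l, he, -, hl, hel, hv⟩ := exists_eigenframe (z2_H p x) hpos (hmem g hg) (hiso g hg)
    intro v hvH
    rw [hv v hvH]
    exact Submodule.sum_mem _ fun i _ => Submodule.smul_mem _ _
      (Submodule.subset_span ⟨he i, l i, hl i, hel i⟩)
  · intro v hv h0
    rw [mul_apply_eq_comp, z2_pr_left hv.1] at h0
    rw [z2_acc hx hc.1 hu hv.2 h0, map_zero]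
  · intro v _
    simp only [mul_apply_eq_comp]
    rw [ha'.pr hpx, hc.pr hpx]
    simp only [Units.val_mul, mul_apply_eq_comp, inv_apply_apply]
  · intro v hv
    simp only [mul_apply_eq_comp]
    rw [ha'.pr hpx, hg.pr hpx]
    exact h v hv.1

theorem z2_core {Γ : Subgroup (GG n)} (hΓ : Proper Γ) {x0 x p : V n} (hx0 : x0 ∈ Neg n)
    (hx : x ∈ Neg n)
    (hp0 : p ≠ 0) (hpN : 0 ≤ NN p) (hpp : ∀ v, form v p = 0 → form v x * form p p = 0)
    (hfix : ∀ g ∈ plus Γ, uu (g : Op n) x0 ≤ eps → ∃ c : ℂ, (g : Op n) p = c • p)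
    (hsm : ∀ g ∈ plus Γ, uu (g : Op n) x0 ≤ eps → uu (g : Op n) x ≤ eps)
    {g d : GG n} (hg : g ∈ plus Γ) (hd : d ∈ plus Γ) (h1 : uu (g : Op n) x0 ≤ eps)
    (h2 : uu (d : Op n) x0 ≤ eps) :
    ∀ v, form v p = 0 → ∃ c : ℂ, ((g * d * g⁻¹ * d⁻¹ : GG n) : Op n) v = v + c • p := by
  have hpx : form p x ≠ 0 := form_ne_zero_of_neg hx hp0 hpN
  have hS : ∀ k ∈ plus Γ, uu (k : Op n) x0 ≤ eps → z2_S p k :=
    fun k hk hu => ⟨InP.isIsom hΓ hk, hfix k hk hu⟩
  obtain ⟨hall, i, hi⟩ := engel hΓ hx0 hg hd h1 h2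
  have hgS := hS g hg h1
  have hdS := hS d hd h2
  have back : ∀ j : ℕ, z2_C p x g ((fun c : GG n => g * c * g⁻¹ * c⁻¹)^[j] d) → z2_C p x g d := by
    intro j
    induction j with
    | zero => exact fun h => h
    | succ j ih =>
      intro h
      rw [Function.iterate_succ_apply'] at h
      have hc := hS _ (hall j).1 (hall j).2
      exact ih (z2_step2 hx hp0 hpx hpp hgS hc (hsm _ (hall j).1 (hall j).2)
        (z2_step1 hp0 hpx hgS hc h))
  have hC : z2_C p x g d := back i (by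
    rw [hi]
    intro v _
    simp)
  intro v hv
  have h3 := hC _ ((hgS.inv hp0).perp hp0 ((hdS.inv hp0).perp hp0 hv))
  simp only [apply_inv_apply] at h3
  simpa only [Units.val_mul, mul_apply_eq_comp] using z2_of_pr_eq h3

theorem comm_of_neg {Γ : Subgroup (GG n)} (hΓ : Proper Γ) {x y : V n} (hx : x ∈ Neg n)
    (hy : y ∈ Neg n) (hfix : ∀ g ∈ plus Γ, uu (g : Op n) x ≤ eps → ∃ c : ℂ, (g : Op n) y = c • y)
    {g d : GG n} (hg : g ∈ plus Γ) (hd : d ∈ plus Γ) (h1 : uu (g : Op n) x ≤ eps)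
    (h2 : uu (d : Op n) x ≤ eps) : Commute g d := by
  have hy0 := ne_zero_of_mem_Neg hy
  have hyN : 0 < NN y := hy
  have hyy : form y y ≠ 0 := form_ne_zero_of_neg hy hy0 hyN.le
  have hsm : ∀ k ∈ plus Γ, uu (k : Op n) x ≤ eps → uu (k : Op n) y ≤ eps := by
    intro k hk hu
    obtain ⟨c, hc⟩ := hfix k hk hu
    rw [uu_of_eig (InP.isIsom hΓ hk) hy hc]
    exact (kappa_le_uu (InP.isIsom hΓ hk) hx).trans hu
  have key := z2_core hΓ hx hy hy0 hyN.le (fun v hv => by rw [hv, zero_mul]) hfix hsm hg hd h1 h2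
  have hgS : z2_S y g := ⟨InP.isIsom hΓ hg, hfix g hg h1⟩
  have hdS : z2_S y d := ⟨InP.isIsom hΓ hd, hfix d hd h2⟩
  have hK : z2_S y (g * d * g⁻¹ * d⁻¹) := ((hgS.mul hdS).mul (hgS.inv hy0)).mul (hdS.inv hy0)
  have hperp : ∀ v, form v y = 0 → ((g * d * g⁻¹ * d⁻¹ : GG n) : Op n) v = v := by
    intro v hv
    obtain ⟨c, hc⟩ := key v hv
    have h3 := hK.perp hy0 hv
    rw [hc, form_add_left, hv, zero_add, form_smul_left] at h3
    rw [hc, (mul_eq_zero.mp h3).resolve_right hyy, zero_smul, add_zero]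
  have hyfix : ((g * d * g⁻¹ * d⁻¹ : GG n) : Op n) y = y := by
    obtain ⟨a, ha⟩ := hgS.2
    obtain ⟨b, hb⟩ := hdS.2
    have ha0 := z2_eig_ne hy0 ha
    have hb0 := z2_eig_ne hy0 hb
    simp only [Units.val_mul, mul_apply_eq_comp, z2_inv_eig hy0 ha, z2_inv_eig hy0 hb, map_smul,
      ha, hb, smul_smul]
    have : b⁻¹ * (a⁻¹ * (b * a)) = 1 := by field_simp
    rw [this, one_smul]
  have hone : g * d * g⁻¹ * d⁻¹ = 1 := by
    apply Units.ext
    ext v
    have hv : v = z2_pr y y v + ((form y y)⁻¹ * form v y) • y := by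
      rw [z2_pr_apply, sub_add_cancel]
    rw [hv, map_add, map_smul, hyfix, hperp _ (z2_pr_x hyy v), Units.val_one, one_apply_eq_self]
  rw [mul_inv_eq_one, mul_inv_eq_iff_eq_mul] at hone
  exact hone

theorem comm_mod_null {Γ : Subgroup (GG n)} (hΓ : Proper Γ) {x p : V n} (hx : x ∈ Neg n)
    (hp0 : p ≠ 0) (hp : form p p = 0)
    (hfix : ∀ g ∈ plus Γ, uu (g : Op n) x ≤ eps → ∃ c : ℂ, (g : Op n) p = c • p)
    {g d : GG n} (hg : g ∈ plus Γ) (hd : d ∈ plus Γ) (h1 : uu (g : Op n) x ≤ eps)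
    (h2 : uu (d : Op n) x ≤ eps) :
    ∀ v, form v p = 0 → ∃ c : ℂ, ((g * d * g⁻¹ * d⁻¹ : GG n) : Op n) v = v + c • p :=
  z2_core hΓ hx hx hp0 (by simp [NN, hp]) (fun v _ => by rw [hp, mul_zero]) hfix
    (fun _ _ h => h) hg hd h1 h2

end BallQ
end
end

-- merged part: Pool.Agent.Work.MP_72250f_ag.E3a
section
/-!
unit_eig_of_lift: fix s with Y = Im s - y0 > 1, take h from exists_isom with lift (phi s) = c h oo; t |-> act h^-1 (phi t) maps the disc of radius Y around s to
the unit ball and s to 0, so by Complex.dist_le_div_mul_dist_of_mapsTo_ball its value at s + 1 has norm at most 1 / Y, and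
CC (lift (phi s)) (g (lift (phi s))) = (1 - |value|^2)^-1 (CC_oo_lift, smul_lift_act, CC_smul). pontryagin with W = top; eig_norm_one or CC_ge_of_null.
ell_normal: exists_eigenframe on the orthogonal of y, eigenvalues exp (2 pi i w), w = fract (arg / 2 pi); compare with Frame.flow_eq on y and on the e_i.
null_normal: q null with <q,p> = -1 (exists_null_dual), H = {p,q}-perp is positive definite, pr v = v + <v,q> p; exists_eigenframe for pr g on H.
For eigenvalue l different from 1, g u = l u + c p, and e = u + (c / (l - 1)) p is an eigenvector of g. Take as frame vectors these e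
(one may keep the index set and use a subtype, Fintype.equivFin). W = common orthogonal of the frame vectors is invariant, contains p and
q - sum <q,e_j> e_j, and g v = v + c p on W meet p-perp; eq_eich.
-/

open scoped ComplexConjugate ENNReal Topology
open MeasureTheory Filter

noncomputable section

namespace BallQ

variable {n : ℕ}

theorem e3a_weight {c : ℂ} (hc : ‖c‖ = 1) :
    ∃ w : ℝ, 0 ≤ w ∧ w < 1 ∧ Complex.exp (2 * Real.pi * Complex.I * w) = c := by
  refine ⟨Int.fract (c.arg / (2 * Real.pi)), Int.fract_nonneg _, Int.fract_lt_one _, ?_⟩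
  have hpi : (Real.pi : ℂ) ≠ 0 := Complex.ofReal_ne_zero.mpr Real.pi_ne_zero
  have h1 : 2 * Real.pi * Complex.I * ((Int.fract (c.arg / (2 * Real.pi)) : ℝ) : ℂ) =
      c.arg * Complex.I - (⌊c.arg / (2 * Real.pi)⌋ : ℤ) * (2 * Real.pi * Complex.I) := by
    rw [Int.fract]
    push_cast
    field_simp
  rw [h1, Complex.exp_sub, Complex.exp_int_mul_two_pi_mul_I, div_one]
  have h2 := Complex.norm_mul_exp_arg_mul_I c
  rwa [hc, Complex.ofReal_one, one_mul] at h2

theorem e3a_flow (F : Frame n) (hF : F.p = 0) (s : ℂ) (v : V n) :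
    flow F.op s v = v + ∑ i, ((Complex.exp (2 * Real.pi * Complex.I * s * F.w i) - 1) *
      form v (F.e i)) • F.e i := by
  rw [F.flow_eq, hF]
  simp [sum_apply, smul_smul]

theorem e3a_flow_perp (F : Frame n) (hF : F.p = 0) (s : ℂ) {v : V n}
    (hv : ∀ i, form v (F.e i) = 0) : flow F.op s v = v := by
  rw [e3a_flow F hF]
  simp [hv]

theorem e3a_flow_e (F : Frame n) (hF : F.p = 0) (s : ℂ) (j : Fin F.m) :
    flow F.op s (F.e j) = Complex.exp (2 * Real.pi * Complex.I * s * F.w j) • F.e j := by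
  rw [e3a_flow F hF, Finset.sum_eq_single j]
  · rw [F.on, if_pos rfl, mul_one, sub_smul, one_smul, add_sub_cancel]
  · intro i _ hi
    rw [F.on, if_neg hi.symm, mul_zero, zero_smul]
  · simp

theorem null_normal {g : Op n} (hg : IsIsom g) {p : V n} (hp0 : p ≠ 0) (hp : form p p = 0)
    (hgp : g p = p) :
    ∃ F : Frame n, F.p = 0 ∧ (∀ i, F.w i < 1) ∧ (∀ i, form p (F.e i) = 0) ∧
      ∃ (η : V n) (τ : ℝ), form η p = 0 ∧ (∀ i, form η (F.e i) = 0) ∧
        g = flow F.op 1 * eich p η τ := by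
  classical
  obtain ⟨g, rfl⟩ := hg.isUnit
  have hx := oo_mem_Neg (n := n)
  have hpN : 0 ≤ NN p := by simp [NN, hp]
  have hpx : form p (oo n) ≠ 0 := form_ne_zero_of_neg hx hp0 hpN
  have hpp : ∀ v, form v p = 0 → form v (oo n) * form p p = 0 := fun v _ => by rw [hp, mul_zero]
  have hS : z2_S p g := ⟨hg, 1, by rw [hgp, one_smul]⟩
  have hmem : ∀ v ∈ z2_H p (oo n), (z2_pr p (oo n) * (g : Op n)) v ∈ z2_H p (oo n) :=
    fun v hv => ⟨z2_pr_perp hpp (hS.perp hp0 hv.1), z2_pr_x hpx _⟩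
  have hiso : ∀ v ∈ z2_H p (oo n), ∀ w ∈ z2_H p (oo n),
      form ((z2_pr p (oo n) * (g : Op n)) v) ((z2_pr p (oo n) * (g : Op n)) w) = form v w := by
    intro v hv w hw
    rw [mul_apply_eq_comp, z2_pr_left (hmem w hw).1, mul_apply_eq_comp,
      z2_pr_right (hS.perp hp0 hv.1), hg]
  obtain ⟨m, u, c, hu, hon, hc, hel, hv⟩ := exists_eigenframe (z2_H p (oo n))
    (fun v hv hv0 => pos_of_perp_neg hx hv.2 hv0) hmem hiso
  have ha : ∀ i, ∃ a : ℂ, (g : Op n) (u i) = c i • u i + a • p := by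
    intro i
    apply z2_of_pr_eq (x := oo n)
    rw [← mul_apply_eq_comp, hel, map_smul, z2_pr_self (hu i).2]
  choose a ha using ha
  choose w hw0 hw1 hw using fun i => e3a_weight (hc i)
  have hup : ∀ i, form (u i) p = 0 := fun i => (hu i).1
  have hpu : ∀ i, form p (u i) = 0 := fun i => form_eq_zero_comm.mp (hup i)
  let σ := (Fintype.equivFin {i // c i ≠ 1}).symm
  let e : Fin m → V n := fun i => u i + (a i / (c i - 1)) • p
  have hue : ∀ i j, form (u i) (e j) = if i = j then 1 else 0 := by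
    intro i j
    simp only [e, form_add_right, form_smul_right, hup, mul_zero, add_zero, hon]
  have hpe : ∀ j, form p (e j) = 0 := by
    intro j
    simp only [e, form_add_right, form_smul_right, hpu, hp, mul_zero, add_zero]
  have hge : ∀ i, c i ≠ 1 → (g : Op n) (e i) = c i • e i := by
    intro i hi
    have h1 : c i - 1 ≠ 0 := sub_ne_zero.mpr hi
    have h2 : a i + a i / (c i - 1) = c i * (a i / (c i - 1)) := by
      field_simp
      ring
    simp only [e, map_add, map_smul, ha, hgp, smul_add, smul_smul, ← h2, add_smul, add_assoc]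
  let F : Frame n :=
    { m := Fintype.card {i // c i ≠ 1}
      e := fun j => e (σ j)
      w := fun j => w (σ j)
      p := 0
      on := by
        intro i j
        have h1 : form (e (σ i)) (e (σ j)) = form (u (σ i)) (e (σ j)) := by
          conv_lhs => rw [show e (σ i) = u (σ i) + (a (σ i) / (c (σ i) - 1)) • p from rfl]
          rw [form_add_left, form_smul_left, hpe, mul_zero, add_zero]
        rw [h1, hue]
        simp only [Subtype.val_inj, σ.injective.eq_iff]
      pp := form_zero_left _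
      pe := fun _ => form_zero_left _
      w0 := fun j => hw0 _
      w1 := fun j => (hw1 _).le }
  have hF : F.p = 0 := rfl
  have hT : IsIsom (flow F.op (-1)) := by
    have := IsGen.isIsom_flow (M := F.op) ⟨F, rfl⟩ (-1)
    simpa using this
  have hTp : flow F.op (-1) p = p := e3a_flow_perp F hF _ fun j => hpe _
  have hfix : ∀ j, (flow F.op (-1) * (g : Op n)) (F.e j) = F.e j := by
    intro j
    rw [mul_apply_eq_comp, show (g : Op n) (F.e j) = c (σ j) • F.e j from hge _ (σ j).2, map_smul,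
      e3a_flow_e F hF, smul_smul, ← hw, ← Complex.exp_add]
    have : 2 * Real.pi * Complex.I * (w (σ j) : ℂ) +
        2 * Real.pi * Complex.I * -1 * (F.w j : ℂ) = 0 := by
      simp only [F]
      ring
    rw [this, Complex.exp_zero, one_smul]
  have hg'p : (flow F.op (-1) * (g : Op n)) p = p := by rw [mul_apply_eq_comp, hgp, hTp]
  have hb : ∀ i, ∃ b : ℂ, (flow F.op (-1) * (g : Op n)) (u i) = u i + b • p := by
    intro i
    by_cases hi : c i = 1
    · refine ⟨a i, ?_⟩
      rw [mul_apply_eq_comp, ha, hi, one_smul, map_add, map_smul, hTp, e3a_flow_perp F hF]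
      intro j
      rw [show F.e j = e (σ j) from rfl, hue, if_neg]
      rintro rfl
      exact (σ j).2 hi
    · have h1 := hfix (σ.symm ⟨i, hi⟩)
      rw [show F.e (σ.symm ⟨i, hi⟩) = e (σ (σ.symm ⟨i, hi⟩)) from rfl, σ.apply_symm_apply] at h1
      simp only [e, map_add, map_smul, hg'p] at h1
      exact ⟨0, by rw [add_right_cancel h1, zero_smul, add_zero]⟩
  choose b hb using hb
  obtain ⟨q, hq⟩ : ∃ q, form q p = -1 := by
    obtain ⟨_, _, -, h⟩ := exists_null_dual hp0 hp hx
    exact ⟨_, h⟩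
  obtain ⟨η, -, hη, τ, hτ⟩ := eq_eich ⊤ (hT.mul hg) (fun _ _ => Submodule.mem_top)
    Submodule.mem_top (q := q) Submodule.mem_top hp hq hg'p (by
      intro v _ hvp
      have h1 := hv (z2_pr p (oo n) v) ⟨z2_pr_perp hpp hvp, z2_pr_x hpx v⟩
      have h2 : v = z2_pr p (oo n) v + ((form p (oo n))⁻¹ * form v (oo n)) • p := by
        rw [z2_pr_apply, sub_add_cancel]
      obtain ⟨d, s, rfl⟩ : ∃ (d : Fin m → ℂ) (s : ℂ), v = ∑ i, d i • u i + s • p :=
        ⟨_, _, h2.trans (by rw [← h1])⟩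
      refine ⟨∑ i, d i * b i, ?_⟩
      simp only [map_add, map_sum, map_smul, hb, hg'p, smul_add, Finset.sum_add_distrib,
        smul_smul, Finset.sum_smul]
      abel)
  refine ⟨F, hF, fun j => hw1 _, fun j => hpe _, η, τ, hη, fun j => ?_, ?_⟩
  · have h1 := hτ (F.e j) Submodule.mem_top
    rw [hfix, eich_apply, form_eq_zero_comm.mp (hpe (σ j) : form p (F.e j) = 0)] at h1
    simp only [zero_smul, add_zero, mul_zero] at h1
    have h2 : form (F.e j) η • p = 0 := sub_eq_self.mp h1.symm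
    exact form_eq_zero_comm.mp ((smul_eq_zero.mp h2).resolve_right hp0)
  · ext v
    rw [mul_apply_eq_comp, ← hτ v Submodule.mem_top, ← mul_apply_eq_comp, ← mul_assoc, ← flow_add,
      add_neg_cancel, flow_zero, one_mul]

end BallQ
end
end

-- merged part: Pool.Agent.Work.MP_72250f_ag.E3ba
section
/-!
Growth. lift_growth: negative y: qq y v = -NN v + 2 / NN y is bounded and |v|^2 <= c qq y v (exists_isom, qq_apply, qq_oo). Null y = p: take q null with
<q,p> = -1, beta = -<v,q>, zeta = v - q - beta p is orthogonal to p and q, NN v = 2 Re beta - <zeta,zeta> > 0, so Re beta > 0 and herglotz_growth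
bounds beta; on {p,q}-perp the norm is comparable to the form (qq (p+q) zeta = <zeta,zeta>).
exists_gen_of_lift: ell_normal, or null_normal with q orthogonal to the frame (Frame.exists_neg, exists_null_dual). a s = <v s, eta> satisfies
a (s+1) = a s - <eta,eta>, so a s + s <eta,eta> is periodic and O(Im s), hence bounded (periodic_bound; on a horizontal line it is bounded by periodicity and
compactness); |<zeta,eta>|^2 <= <zeta,zeta><eta,eta> = O(Im s) (cs_perp) forces <eta,eta> = 0, eta = c p, eich = vert p tau' (eich_add_smul, eich_zero).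
beta (s+1) = beta s - i tau', so beta s + i tau' s is periodic and bounded, and Re beta > 0 on s = i y gives tau' >= 0. The new frame has
p replaced by sqrt (tau' / 2 pi) p (Frame.flow_eq).
NN_ge_of_periodic: fix s0, z = w s0; NN (w s) <= -2 Re <w s, z> + <z,z> as w s - z is orthogonal to y (nonpos_of_perp); apply periodic_bound to
s |-> exp (2 <w s, z>) (on the half plane Im s >= y1 it is bounded).
-/

open scoped ComplexConjugate ENNReal Topology
open MeasureTheory Filter

noncomputable section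

namespace BallQ

variable {n : ℕ}

theorem e3ba_co_ne {y : V n} (hy0 : y ≠ 0) (hy : 0 ≤ NN y) : co y none ≠ 0 := by
  intro h
  have h1 := norm_sq_eq_NN y
  rw [h, norm_zero] at h1
  have h2 : 0 < ‖y‖ ^ 2 := pow_pos (norm_pos_iff.mpr hy0) 2
  linarith only [hy, h1, h2]

theorem e3ba_re_pos {y v : V n} (hy0 : y ≠ 0) (hy : 0 ≤ NN y) (hv : v ∈ Neg n)
    (hn : form v y = -1) : 0 < (co v none * conj (co y none)).re := by
  set g := co v none * conj (co y none) with hg
  have h1 : ∑ i : Fin n, co v (some i) * conj (co y (some i)) = g - 1 := by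
    rw [form] at hn
    linear_combination hn
  have h2 : ‖g - 1‖ ≤ ∑ i : Fin n, ‖co v (some i)‖ * ‖co y (some i)‖ := by
    rw [← h1]
    refine (norm_sum_le _ _).trans (le_of_eq ?_)
    refine Finset.sum_congr rfl fun i _ => ?_
    rw [norm_mul, Complex.norm_conj]
  have h3 := Finset.sum_mul_sq_le_sq_mul_sq Finset.univ (fun i : Fin n => ‖co v (some i)‖)
    (fun i : Fin n => ‖co y (some i)‖)
  have hv' : 0 < NN v := hv
  rw [NN_eq] at hv' hy
  have hy1 : 0 < ‖co y none‖ ^ 2 := by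
    refine pow_pos (norm_pos_iff.mpr (e3ba_co_ne hy0 ?_)) 2
    rw [NN_eq]
    exact hy
  have ha : 0 ≤ ∑ i : Fin n, ‖co v (some i)‖ ^ 2 := by positivity
  have h4 : ‖g - 1‖ ^ 2 < ‖g‖ ^ 2 := by
    have h5 : ‖g‖ ^ 2 = ‖co v none‖ ^ 2 * ‖co y none‖ ^ 2 := by
      rw [hg, norm_mul, Complex.norm_conj, mul_pow]
    calc ‖g - 1‖ ^ 2 ≤ (∑ i : Fin n, ‖co v (some i)‖ * ‖co y (some i)‖) ^ 2 :=
          pow_le_pow_left₀ (norm_nonneg _) h2 2
      _ ≤ (∑ i : Fin n, ‖co v (some i)‖ ^ 2) * ∑ i : Fin n, ‖co y (some i)‖ ^ 2 := h3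
      _ ≤ (∑ i : Fin n, ‖co v (some i)‖ ^ 2) * ‖co y none‖ ^ 2 :=
          mul_le_mul_of_nonneg_left (by linarith only [hy]) ha
      _ < ‖co v none‖ ^ 2 * ‖co y none‖ ^ 2 := mul_lt_mul_of_pos_right (by linarith only [hv']) hy1
      _ = ‖g‖ ^ 2 := h5.symm
  rw [Complex.sq_norm, Complex.sq_norm, Complex.normSq_apply, Complex.normSq_apply] at h4
  simp only [Complex.sub_re, Complex.one_re, Complex.sub_im, Complex.one_im, sub_zero] at h4
  linarith only [h4]

theorem lift_growth {y : V n} (hy0 : y ≠ 0) (hy : 0 ≤ NN y) {v : ℂ → V n} {y0 : ℝ}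
    (hv : DifferentiableOn ℂ v {s | y0 < s.im}) (hneg : ∀ s : ℂ, y0 < s.im → v s ∈ Neg n)
    (hn : ∀ s : ℂ, y0 < s.im → form (v s) y = -1) :
    ∃ C : ℝ, ∀ s : ℂ, y0 + 1 ≤ s.im → 0 ≤ s.re → s.re ≤ 1 → ‖v s‖ ≤ C * (s.im - y0) := by
  have hd : DifferentiableOn ℂ (fun s => co (v s) none * conj (co y none)) {s | y0 < s.im} := by
    refine DifferentiableOn.mul_const ?_ _
    have h1 : (fun s => co (v s) none) = fun s => -(formL (oo n) (v s)) := by
      funext s
      rw [formL_apply, form_oo, neg_neg]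
    rw [h1]
    exact ((formL (oo n)).differentiable.comp_differentiableOn hv).neg
  obtain ⟨C, hC⟩ := herglotz_growth hd fun s hs => e3ba_re_pos hy0 hy (hneg s hs) (hn s hs)
  have hy1 : 0 < ‖co y none‖ := norm_pos_iff.mpr (e3ba_co_ne hy0 hy)
  refine ⟨2 * (C / ‖co y none‖), fun s h1 h2 h3 => ?_⟩
  have h4 := hC s h1 h2 h3
  rw [norm_mul, Complex.norm_conj, ← le_div_iff₀ hy1] at h4
  have h5 : 0 < NN (v s) := hneg s (by linarith only [h1])
  have h6 := norm_sq_eq_NN (v s)
  have h7 : ‖v s‖ ≤ 2 * ‖co (v s) none‖ := by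
    refine (pow_le_pow_iff_left₀ (norm_nonneg _) (by positivity) two_ne_zero).mp ?_
    linarith only [h5, h6, sq_nonneg ‖co (v s) none‖, sq_nonneg ‖v s‖]
  calc ‖v s‖ ≤ 2 * ‖co (v s) none‖ := h7
    _ ≤ 2 * (C * (s.im - y0) / ‖co y none‖) := by linarith only [h4]
    _ = 2 * (C / ‖co y none‖) * (s.im - y0) := by ring

end BallQ
end
end

-- merged part: Pool.Agent.Work.MP_72250f_ag.E3b
section
/-!
Growth. lift_growth: negative y: qq y v = -NN v + 2 / NN y is bounded and |v|^2 <= c qq y v (exists_isom, qq_apply, qq_oo). Null y = p: take q null with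
<q,p> = -1, beta = -<v,q>, zeta = v - q - beta p is orthogonal to p and q, NN v = 2 Re beta - <zeta,zeta> > 0, so Re beta > 0 and herglotz_growth
bounds beta; on {p,q}-perp the norm is comparable to the form (qq (p+q) zeta = <zeta,zeta>).
exists_gen_of_lift: ell_normal, or null_normal with q orthogonal to the frame (Frame.exists_neg, exists_null_dual). a s = <v s, eta> satisfies
a (s+1) = a s - <eta,eta>, so a s + s <eta,eta> is periodic and O(Im s), hence bounded (periodic_bound; on a horizontal line it is bounded by periodicity and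
compactness); |<zeta,eta>|^2 <= <zeta,zeta><eta,eta> = O(Im s) (cs_perp) forces <eta,eta> = 0, eta = c p, eich = vert p tau' (eich_add_smul, eich_zero).
beta (s+1) = beta s - i tau', so beta s + i tau' s is periodic and bounded, and Re beta > 0 on s = i y gives tau' >= 0. The new frame has
p replaced by sqrt (tau' / 2 pi) p (Frame.flow_eq).
NN_ge_of_periodic: fix s0, z = w s0; NN (w s) <= -2 Re <w s, z> + <z,z> as w s - z is orthogonal to y (nonpos_of_perp); apply periodic_bound to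
s |-> exp (2 <w s, z>) (on the half plane Im s >= y1 it is bounded).
-/

open scoped ComplexConjugate ENNReal Topology
open MeasureTheory Filter

noncomputable section

namespace BallQ

variable {n : ℕ}

theorem e3b_lin (a b : ℝ) {ε : ℝ} (hε : 0 < ε) :
    ∃ t0 : ℝ, ∀ t, t0 ≤ t → a + b * t ≤ ε * Real.exp (2 * Real.pi * t) := by
  refine ⟨max 1 ((|a| + |b|) / ε), fun t ht => ?_⟩
  have h1 : 1 ≤ t := (le_max_left _ _).trans ht
  have h2 : |a| + |b| ≤ t * ε := (div_le_iff₀ hε).1 ((le_max_right _ _).trans ht)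
  have h3 : 2 * t ≤ 2 * Real.pi * t := by linarith only [h1, Real.pi_gt_three, mul_nonneg_of_nonpos_of_nonpos (Mathlib.Tactic.Linarith.sub_nonpos_of_le h1) (le_of_lt (Mathlib.Tactic.Linarith.sub_neg_of_lt Real.pi_gt_three))]
  have h4 := Real.quadratic_le_exp_of_nonneg (x := 2 * t) (by linarith only [h1])
  have h5 : t ^ 2 ≤ Real.exp (2 * Real.pi * t) := by
    linarith only [h1, h4, h3, Real.exp_le_exp.2 h3, sq_nonneg t]
  have h6 : a + b * t ≤ (|a| + |b|) * t := by
    linarith only [h1, le_abs_self a, le_abs_self b, abs_nonneg a, mul_nonneg_of_nonpos_of_nonpos (Mathlib.Tactic.Linarith.sub_nonpos_of_le h1) (Mathlib.Tactic.Linarith.sub_nonpos_of_le (le_abs_self b)), mul_nonneg_of_nonpos_of_nonpos (Mathlib.Tactic.Linarith.sub_nonpos_of_le h1) (Mathlib.Tactic.Linarith.sub_nonpos_of_le (abs_nonneg a))]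
  linarith only [h6, h2, h1, h5, hε, mul_le_mul_of_nonneg_right h2 (show 0 ≤ t by linarith),
    mul_le_mul_of_nonneg_left h5 hε.le]

theorem e3b_int {f : ℂ → ℂ} {y0 : ℝ} (hp : ∀ s : ℂ, y0 < s.im → f (s + 1) = f s) (k : ℤ) {s : ℂ}
    (hs : y0 < s.im) : f (s + k) = f s := by
  induction k using Int.induction_on with
  | zero => simp
  | succ k ih =>
    rw [← ih, Int.cast_add, Int.cast_one, ← add_assoc]
    exact hp _ (by simpa using hs)
  | pred k ih =>
    rw [← ih, ← hp _ (by simpa using hs)]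
    congr 1
    push_cast
    ring

theorem e3b_bdd {f : ℂ → ℂ} {y0 C : ℝ} {c : ℂ} (hf : DifferentiableOn ℂ f {s | y0 < s.im})
    (hp : ∀ s : ℂ, y0 < s.im → f (s + 1) = f s + c)
    (hC : ∀ s : ℂ, y0 + 1 ≤ s.im → 0 ≤ s.re → s.re ≤ 1 → ‖f s‖ ≤ C * (s.im - y0)) :
    ∃ B : ℝ, ∀ s : ℂ, y0 + 1 ≤ s.im → ‖f s - c * s‖ ≤ B := by
  have h1 : ∀ s : ℂ, y0 < s.im → f (s + 1) - c * (s + 1) = f s - c * s := fun s hs => by
    rw [hp s hs]; ring
  have h2 : ∀ s : ℂ, y0 + 1 ≤ s.im → 0 ≤ s.re → s.re ≤ 1 →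
      ‖f s - c * s‖ ≤ C * (s.im - y0) + ‖c‖ * (1 + |s.im|) := fun s hs h0 h1 => by
    refine (norm_sub_le _ _).trans (add_le_add (hC s hs h0 h1) ?_)
    rw [norm_mul]
    refine mul_le_mul_of_nonneg_left ((Complex.norm_le_abs_re_add_abs_im s).trans ?_)
      (norm_nonneg _)
    rw [abs_of_nonneg h0]
    linarith only [h1]
  refine ⟨C + ‖c‖ * (1 + |y0 + 1|), periodic_bound (f := fun s => f s - c * s) (lt_add_one y0)
    (hf.sub (differentiableOn_id.const_mul c)) h1 (fun ε hε => ?_) fun s hs => ?_⟩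
  · obtain ⟨t0, ht⟩ := e3b_lin (‖c‖ - C * y0) (C + ‖c‖) hε
    refine ⟨max t0 (max 0 (y0 + 1)), fun s hs h0 h1 => ?_⟩
    simp only [max_le_iff] at hs
    refine (h2 s hs.2.2 h0 h1).trans (le_trans (le_of_eq ?_) (ht _ hs.1))
    rw [abs_of_nonneg hs.2.1]
    ring
  · have h3 := e3b_int (f := fun s => f s - c * s) h1 ⌊s.re⌋ (s := s - ⌊s.re⌋) (by simp [hs])
    have h4 := h2 (s - ⌊s.re⌋) (by simp [hs]) (by simp) (by
      simpa using (Int.fract_lt_one s.re).le)
    simp only [sub_add_cancel] at h3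
    rw [h3]
    simpa [hs] using h4

theorem e3b_quad {N B K L t0 : ℝ} (hN : 0 < N)
    (h : ∀ t, t0 ≤ t → ∃ r, N * t - B ≤ r ∧ r ^ 2 ≤ K * t + L) : False := by
  obtain ⟨t, h0, h1, h2, h3⟩ := ((eventually_ge_atTop t0).and ((eventually_ge_atTop 1).and
    ((eventually_ge_atTop (2 * B / N)).and (eventually_gt_atTop (4 * (|K| + |L|) / N ^ 2))))).exists
  obtain ⟨r, h4, h5⟩ := h t h0
  rw [div_le_iff₀ hN] at h2
  rw [div_lt_iff₀ (by positivity)] at h3
  have h6 : N * t / 2 ≤ r := by linarith only [h2, h4]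
  have h7 := pow_le_pow_left₀ (by positivity) h6 2
  have h8 : K * t + L ≤ (|K| + |L|) * t := by
    linarith only [h1, le_abs_self K, le_abs_self L, abs_nonneg L, mul_nonneg_of_nonpos_of_nonpos (Mathlib.Tactic.Linarith.sub_nonpos_of_le h1) (Mathlib.Tactic.Linarith.sub_nonpos_of_le (le_abs_self K)), mul_nonneg_of_nonpos_of_nonpos (Mathlib.Tactic.Linarith.sub_nonpos_of_le h1) (Mathlib.Tactic.Linarith.sub_nonpos_of_le (abs_nonneg L))]
  linarith only [h5, h7, h8, h3, h1, mul_lt_mul_of_pos_right h3 (show 0 < t by linarith)]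

theorem e3b_NN_sub (v w : V n) : NN (v - w) = NN v + NN w + 2 * (form v w).re := by
  have h : NN (-w) = NN w := by simp only [NN, form_neg_left, form_neg_right, neg_neg]
  rw [sub_eq_add_neg, NN_add, h, form_neg_right, Complex.neg_re]
  ring

theorem e3b_fix (F : Frame n) (hF : F.p = 0) {w : V n} (hw : ∀ i, form w (F.e i) = 0) :
    flow F.op 1 w = w :=
  flow_apply_of_ker (by simp [F.op_apply, hw, hF]) 1

theorem e3b_form (F : Frame n) (hF : F.p = 0) {w : V n} (hw : ∀ i, form w (F.e i) = 0) (u : V n) :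
    form (flow F.op 1 u) w = form u w := by
  conv_lhs => rw [← e3b_fix F hF hw]
  exact IsGen.isIsom_flow_one ⟨F, rfl⟩ u w

theorem e3b_form_bdd {v : ℂ → V n} {y0 C : ℝ} (hv : DifferentiableOn ℂ v {s | y0 < s.im})
    (hC : ∀ s : ℂ, y0 + 1 ≤ s.im → 0 ≤ s.re → s.re ≤ 1 → ‖v s‖ ≤ C * (s.im - y0)) (w : V n) {c : ℂ}
    (hp : ∀ s : ℂ, y0 < s.im → form (v (s + 1)) w = form (v s) w + c) :
    ∃ B : ℝ, ∀ t : ℝ, y0 + 1 ≤ t → ‖form (v (t * Complex.I)) w - c * (t * Complex.I)‖ ≤ B := by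
  obtain ⟨B, hB⟩ := e3b_bdd (f := fun s => form (v s) w) (C := C * ‖w‖)
    ((formL w).differentiable.comp_differentiableOn hv) hp fun s hs h0 h1 =>
      (norm_form_le _ _).trans ((mul_le_mul_of_nonneg_right (hC s hs h0 h1) (norm_nonneg _)).trans
        (le_of_eq (by ring)))
  exact ⟨B, fun t ht => hB _ (by simpa using ht)⟩

theorem e3b_eta {y q η : V n} (hy0 : y ≠ 0) (hy : 0 ≤ NN y) (hq : NN q = 0) (hqy : form q y = -1)
    (hη : form η y = 0) {v : ℂ → V n} {y0 C : ℝ} (hv : DifferentiableOn ℂ v {s | y0 < s.im})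
    (hneg : ∀ s : ℂ, y0 < s.im → v s ∈ Neg n) (hn : ∀ s : ℂ, y0 < s.im → form (v s) y = -1)
    (hC : ∀ s : ℂ, y0 + 1 ≤ s.im → 0 ≤ s.re → s.re ≤ 1 → ‖v s‖ ≤ C * (s.im - y0))
    (hp : ∀ s : ℂ, y0 < s.im → form (v (s + 1)) η = form (v s) η + NN η) : 0 ≤ NN η := by
  by_contra hN
  rw [not_le] at hN
  obtain ⟨B, hB⟩ := e3b_form_bdd hv hC η hp
  refine e3b_quad (N := -NN η) (B := B + ‖form q η‖) (K := 2 * C * ‖q‖ * -NN η)
    (L := -(2 * C * ‖q‖ * -NN η * y0)) (t0 := max 0 (y0 + 1)) (by linarith only [hN]) fun t ht => ?_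
  rw [max_le_iff] at ht
  have hI : y0 < ((t : ℂ) * Complex.I).im := by
    simp only [Complex.mul_I_im, Complex.ofReal_re]
    linarith only [ht]
  have h1 := hB t ht.2
  have h2 := hC (t * Complex.I) (by simpa using ht.2) (by simp) (by simp)
  have h3 : 0 < NN (v (t * Complex.I)) := hneg _ hI
  have h4 := hn _ hI
  rw [Complex.mul_I_im, Complex.ofReal_re] at h2
  generalize v (t * Complex.I) = u at h1 h2 h3 h4
  refine ⟨‖form (u - q) η‖, ?_, (cs_perp hy0 hy
    (by rw [form_sub_left, h4, hqy, sub_self]) hη).trans ?_⟩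
  · have h5 : ‖(NN η : ℂ) * (t * Complex.I)‖ = -NN η * t := by
      simp [abs_of_neg hN, abs_of_nonneg ht.1]
    have h6 := norm_sub_le (form u η) (form u η - NN η * (t * Complex.I))
    have h7 := norm_add_le (form (u - q) η) (form q η)
    rw [← form_add_left, sub_add_cancel] at h7
    rw [sub_sub_cancel, h5] at h6
    linarith only [h1, h6, h7]
  · have h5 := (Complex.abs_re_le_norm _).trans (norm_form_le u q)
    have h6 := mul_le_mul_of_nonneg_right h2 (norm_nonneg q)
    have h7 : -NN (u - q) ≤ 2 * (C * (t - y0) * ‖q‖) := by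
      rw [e3b_NN_sub, hq]
      linarith only [h3, h5, h6, neg_abs_le (form u q).re]
    linarith only [h7, hN, mul_le_mul_of_nonneg_right h7 (neg_pos.2 hN).le]

theorem e3b_sigma {y q : V n} (hy0 : y ≠ 0) (hy : 0 ≤ NN y) (hq : NN q = 0) (hqy : form q y = -1)
    {σ : ℝ} {v : ℂ → V n} {y0 C : ℝ} (hv : DifferentiableOn ℂ v {s | y0 < s.im})
    (hneg : ∀ s : ℂ, y0 < s.im → v s ∈ Neg n) (hn : ∀ s : ℂ, y0 < s.im → form (v s) y = -1)
    (hC : ∀ s : ℂ, y0 + 1 ≤ s.im → 0 ≤ s.re → s.re ≤ 1 → ‖v s‖ ≤ C * (s.im - y0))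
    (hp : ∀ s : ℂ, y0 < s.im → form (v (s + 1)) q = form (v s) q + Complex.I * σ) : 0 ≤ σ := by
  by_contra hσ
  rw [not_le] at hσ
  obtain ⟨B, hB⟩ := e3b_form_bdd hv hC q hp
  refine e3b_quad (N := -σ) (B := B) (K := 0) (L := 0) (t0 := y0 + 1) (by linarith only [hσ])
    fun t ht => ⟨0, ?_, by simp⟩
  have hI : y0 < ((t : ℂ) * Complex.I).im := by
    simp only [Complex.mul_I_im, Complex.ofReal_re]
    linarith only [ht]
  have h1 := (Complex.abs_re_le_norm _).trans (hB t ht)
  have h2 := nonpos_of_perp hy0 hy (v := v (t * Complex.I) - q)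
    (by rw [form_sub_left, hn _ hI, hqy, sub_self])
  have h3 : 0 < NN (v (t * Complex.I)) := hneg _ hI
  have h4 : (Complex.I * σ * (t * Complex.I)).re = -(σ * t) := by simp
  rw [e3b_NN_sub, hq] at h2
  rw [Complex.sub_re, h4] at h1
  linarith only [h2, h3, h1, (abs_le.1 h1).1]

theorem e3b_gen (F : Frame n) (hF : F.p = 0) (hw : ∀ i, F.w i < 1) {y : V n} (hyy : form y y = 0)
    (hye : ∀ i, form y (F.e i) = 0) {σ : ℝ} (hσ : 0 ≤ σ) :
    ∃ M : Op n, IsGenLt 1 M ∧ flow F.op 1 * vert y σ = flow M 1 := by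
  let F' : Frame n := ⟨F.m, F.e, F.w, ((√(σ / (2 * Real.pi)) : ℝ) : ℂ) • y, F.on,
    by rw [form_smul_left, form_smul_right, hyy, mul_zero, mul_zero],
    fun i => by rw [form_smul_left, hye, mul_zero], F.w0, F.w1⟩
  refine ⟨F'.op, ⟨F', hw, rfl⟩, ?_⟩
  have h1 : rk1 F.p F.p = 0 := rk1_eq_zero.2 hF
  have h2 : ‖((√(σ / (2 * Real.pi)) : ℝ) : ℂ)‖ ^ 2 = σ / (2 * Real.pi) := by
    rw [Complex.norm_real, Real.norm_eq_abs, sq_abs, Real.sq_sqrt (by positivity)]
  have h3 : (Real.pi : ℂ) ≠ 0 := Complex.ofReal_ne_zero.2 Real.pi_ne_zero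
  have h4 : 2 * Real.pi * Complex.I * 1 * ((σ / (2 * Real.pi) : ℝ) : ℂ) = Complex.I * σ := by
    push_cast
    field_simp
  rw [vert, mul_add, mul_one, mul_smul_comm, mul_rk1, e3b_fix F hF hye, F.flow_eq, F'.flow_eq, h1,
    smul_zero, add_zero]
  simp only [F']
  rw [rk1_smul_self, smul_smul, h2, h4]

theorem exists_gen_of_lift {g : Op n} (hg : IsIsom g) {y : V n} (hy0 : y ≠ 0) (hy : 0 ≤ NN y)
    (hgy : g y = y) {v : ℂ → V n} {y0 : ℝ} (hv : DifferentiableOn ℂ v {s | y0 < s.im})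
    (hneg : ∀ s : ℂ, y0 < s.im → v s ∈ Neg n) (hn : ∀ s : ℂ, y0 < s.im → form (v s) y = -1)
    (hp : ∀ s : ℂ, y0 < s.im → v (s + 1) = g (v s)) :
    ∃ M : Op n, IsGenLt 1 M ∧ g = flow M 1 := by
  rcases hy.lt_or_eq with h | h
  · exact ell_normal hg h hgy
  have hyy : form y y = 0 := by rw [form_self, ← h]; simp
  obtain ⟨F, hF, hw, hye, η, τ, hη, hηe, rfl⟩ := null_normal hg hy0 hyy hgy
  obtain ⟨x, hx, hxe⟩ := F.exists_neg
  obtain ⟨a, b, hqq, hqy⟩ := exists_null_dual hy0 hyy hx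
  have hqe : ∀ i, form (a • x + b • y) (F.e i) = 0 := fun i => by
    rw [form_add_left, form_smul_left, form_smul_left, hxe, hye, mul_zero, mul_zero, add_zero]
  generalize a • x + b • y = q at hqq hqy hqe
  have hq : NN q = 0 := by simp [NN, hqq]
  have hyq : form y q = -1 := by rw [← form_conj, hqy]; simp
  obtain ⟨C, hC⟩ := lift_growth hy0 hy hv hneg hn
  have hη0 := e3b_eta hy0 hy hq hqy hη hv hneg hn hC fun s hs => by
    rw [hp s hs, mul_apply_eq_comp, e3b_form F hF hηe, eich_apply, form_sub_left, form_add_left,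
      form_smul_left, form_smul_left, form_eq_zero_comm.1 hη, hn s hs, form_self η]
    ring
  obtain ⟨c, rfl⟩ := eq_smul_of_perp hy0 hy hη hη0
  rw [← zero_add (c • y), eich_add_smul hyy (form_zero_left y), eich_zero] at hp ⊢
  exact e3b_gen F hF hw hyy hye (e3b_sigma hy0 hy hq hqy hv hneg hn hC fun s hs => by
    rw [hp s hs, mul_apply_eq_comp, e3b_form F hF hqe, vert_apply, form_add_left,
      form_smul_left, hn s hs, hyq]
    ring)

theorem NN_ge_of_periodic {y : V n} (hy0 : y ≠ 0) (hy : 0 ≤ NN y) {w : ℂ → V n} {y0 y1 B δ : ℝ}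
    (h01 : y0 < y1) (hw : DifferentiableOn ℂ w {s | y0 < s.im})
    (hp : ∀ s : ℂ, y0 < s.im → w (s + 1) = w s) (hn : ∀ s : ℂ, y0 < s.im → form (w s) y = -1)
    (hB : ∀ s : ℂ, y1 ≤ s.im → ‖w s‖ ≤ B) (hδ : ∀ s : ℂ, s.im = y1 → δ ≤ NN (w s)) :
    ∀ s : ℂ, y1 ≤ s.im → δ ≤ NN (w s) := by
  intro s0 hs0
  have h1 : ∀ s : ℂ, ‖Complex.exp (2 * form (w s) (w s0))‖ =
      Real.exp (2 * (form (w s) (w s0)).re) := fun s => by
    rw [Complex.norm_exp]
    simp
  have h2 := periodic_bound (f := fun s => Complex.exp (2 * form (w s) (w s0)))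
    (B := Real.exp (-δ - NN (w s0))) h01
    ((((formL (w s0)).differentiable.comp_differentiableOn hw).const_mul 2).cexp)
    (fun s hs => by simp only [hp s hs]) (fun ε hε => ?_) (fun s hs => ?_) s0 hs0
  · rw [h1, Real.exp_le_exp, form_self] at h2
    simp only [Complex.neg_re, Complex.ofReal_re] at h2
    linarith only [h2]
  · obtain ⟨t0, ht⟩ := e3b_lin (Real.exp (2 * (B * ‖w s0‖))) 0 hε
    refine ⟨max t0 y1, fun s hs _ _ => ?_⟩
    rw [max_le_iff] at hs
    refine le_trans ?_ (ht _ hs.1)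
    rw [h1, zero_mul, add_zero, Real.exp_le_exp]
    have := (Complex.re_le_norm _).trans ((norm_form_le (w s) (w s0)).trans
      (mul_le_mul_of_nonneg_right (hB s hs.2) (norm_nonneg _)))
    linarith only [this]
  · have h3 := nonpos_of_perp hy0 hy (v := w s - w s0) (by
      rw [form_sub_left, hn s (hs ▸ h01), hn s0 (h01.trans_le hs0), sub_self])
    rw [e3b_NN_sub] at h3
    rw [h1, Real.exp_le_exp]
    linarith only [h3, hδ, hs, hδ s hs]

end BallQ
end
end

-- merged part: Pool.Agent.Work.MP_72250f_ag.E4a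
section
/-!
The domain DH and the straightening map; boundedness of u z = flow M (-(l z)) (v z).
det_fderiv_chi: the derivative is 1 + phi (x) e with phi = -l + 2 pi i t l + D tau (1 - l (x) e), phi e = 2 pi i t - 1 (det_one_add_smulRight).
unflow_bdd: u (z + e) = u z. For z' in ker l with |z'| <= r/2 the slice s |-> u (z' + s e) is periodic and o(exp (2 pi Im s)) by lift_growth and
IsGenLt.norm_flow_neg; on Im s = y1, Re s in [0,1], |z'| <= r/2 it is bounded by compactness, and on the whole line by periodicity; periodic_bound.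
-/

open scoped ComplexConjugate ENNReal Topology
open MeasureTheory Filter

noncomputable section

namespace BallQ

variable {n : ℕ}

theorem isOpen_DH (e : E n) (l : E n →L[ℂ] ℂ) (y r : ℝ) : IsOpen (DH e l y r) := by
  exact (isOpen_lt (f := fun _ : E n => y) (g := fun z => (l z).im) continuous_const
    (by fun_prop)).inter
    (isOpen_lt (f := fun z : E n => ‖z - l z • e‖) (by fun_prop) continuous_const)

theorem convex_DH (e : E n) (l : E n →L[ℂ] ℂ) (y r : ℝ) : Convex ℝ (DH e l y r) := by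
  have : ContinuousSMul ℂ (E n) := IsBoundedSMul.continuousSMul
  have h := ((convex_halfSpace_im_gt y).linear_preimage
    ((l : E n →ₗ[ℂ] ℂ).restrictScalars ℝ)).inter ((convex_ball (0 : E n) r).linear_preimage
      (((ContinuousLinearMap.id ℂ (E n) - l.smulRight e : E n →L[ℂ] E n) :
        E n →ₗ[ℂ] E n).restrictScalars ℝ))
  refine (Set.ext fun z => ?_ : _ = DH e l y r) ▸ h
  simp [DH]

theorem smul_mem_DH {e : E n} {l : E n →L[ℂ] ℂ} (hl : l e = 1) {y r : ℝ} (hr : 0 < r) {s : ℂ}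
    (hs : y < s.im) : s • e ∈ DH e l y r := by
  simp [DH, hl, hr, hs]

theorem e4a_add {e : E n} {l : E n →L[ℂ] ℂ} (hl : l e = 1) (z : E n) :
    z + e - l (z + e) • e = z - l z • e := by
  rw [map_add, hl, add_smul, one_smul, add_sub_add_right_eq_sub]

theorem add_mem_DH {e : E n} {l : E n →L[ℂ] ℂ} (hl : l e = 1) {y r : ℝ} {z : E n}
    (hz : z ∈ DH e l y r) : z + e ∈ DH e l y r := by
  refine ⟨?_, ?_⟩
  · simpa [hl] using hz.1
  · rw [e4a_add hl]
    exact hz.2

theorem Straight.chi_spec {S : Set (E n)} {b e : E n} {l : E n →L[ℂ] ℂ} {r ρ : ℝ} {τ : E n → ℂ}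
    (h : Straight S b e l r ρ τ) {y : ℝ} (hy : Real.exp (-(2 * Real.pi * y)) ≤ ρ) :
    DifferentiableOn ℂ (chi b e l τ) (DH e l y r) ∧ ∀ z ∈ DH e l y r, chi b e l τ z ∈ S ∧
      chi b e l τ (z + e) = chi b e l τ z ∧ (fderiv ℂ (chi b e l τ) z).det =
        2 * Real.pi * Complex.I * Complex.exp (2 * Real.pi * Complex.I * l z) := by
  have : ContinuousSMul ℂ (E n) := IsBoundedSMul.continuousSMul
  have key : ∀ z ∈ DH e l y r, ∃ T : E n →L[ℂ] ℂ, HasFDerivAt (chi b e l τ)
      (ContinuousLinearMap.id ℂ (E n) + T.smulRight e) z ∧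
      1 + T e = 2 * Real.pi * Complex.I * Complex.exp (2 * Real.pi * Complex.I * l z) := by
    intro z hz
    have h1 : HasFDerivAt (fun z => z - l z • e)
        (ContinuousLinearMap.id ℂ (E n) - l.smulRight e) z :=
      (ContinuousLinearMap.id ℂ (E n) - l.smulRight e).hasFDerivAt
    have h2 := (h.diff.differentiableAt
      (Metric.isOpen_ball.mem_nhds (mem_ball_zero_iff.2 hz.2))).hasFDerivAt.comp z h1
    have h3 := (l.hasFDerivAt (x := z).const_mul (2 * Real.pi * Complex.I)).cexp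
    refine ⟨Complex.exp (2 * Real.pi * Complex.I * l z) • (2 * Real.pi * Complex.I : ℂ) • l +
      (fderiv ℂ τ (z - l z • e)).comp (ContinuousLinearMap.id ℂ (E n) - l.smulRight e) - l,
      ?_, ?_⟩
    · refine ((h1.const_add b).add ((h3.add h2).smul_const e)).congr_fderiv ?_
      ext1 w
      simp only [ContinuousLinearMap.add_apply, ContinuousLinearMap.sub_apply,
        ContinuousLinearMap.smulRight_apply, sub_smul]
      abel
    · simp [h.le, mul_comm]
  refine ⟨fun z hz => (key z hz).choose_spec.1.differentiableAt.differentiableWithinAt,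
    fun z hz => ⟨h.mem _ (by simp [h.le]) hz.2 _ (Complex.exp_ne_zero _) (lt_of_lt_of_le ?_ hy),
      ?_, ?_⟩⟩
  · rw [Complex.norm_exp, Real.exp_lt_exp]
    have := mul_lt_mul_of_pos_left hz.1 Real.two_pi_pos
    simp
    linarith only [this]
  · rw [chi, chi, e4a_add h.le, map_add, h.le, mul_add, mul_one, Complex.exp_periodic]
  · obtain ⟨T, h1, h2⟩ := key z hz
    rw [h1.fderiv, det_one_add_smulRight, h2]

theorem e4a_lin {a : ℝ} (ha : 0 < a) (c : ℝ) :
    (fun t : ℝ => t + c) =o[atTop] fun t => Real.exp (a * t) := by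
  simpa using (isLittleO_pow_exp_pos_mul_atTop 1 ha).add
    ((isLittleO_pow_exp_pos_mul_atTop 0 ha).const_mul_left c)

theorem e4a_small (B C y0 : ℝ) {b : ℝ} (hb : b < 1) {ε : ℝ} (hε : 0 < ε) :
    ∀ᶠ t : ℝ in atTop, B * (Real.exp (2 * Real.pi * b * t) + (1 + t)) * (C * (t - y0)) ≤
      ε * Real.exp (2 * Real.pi * t) := by
  have h1 := (Asymptotics.isBigO_refl (fun t : ℝ => Real.exp (2 * Real.pi * b * t))
    atTop).mul_isLittleO (e4a_lin (mul_pos Real.two_pi_pos (sub_pos.2 hb)) (-y0))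
  have h2 := (e4a_lin Real.pi_pos 1).mul (e4a_lin Real.pi_pos (-y0))
  have h3 := (((h1.congr_right fun t => show _ = Real.exp (2 * Real.pi * t) by
    rw [← Real.exp_add]; congr 1; ring).add (h2.congr_right fun t => by
      rw [← Real.exp_add]; congr 1; ring)).const_mul_left (B * C)).bound hε
  refine h3.mono fun t ht => ?_
  rw [Real.norm_of_nonneg (Real.exp_pos _).le] at ht
  exact (le_of_eq (by ring)).trans ((Real.le_norm_self _).trans ht)

theorem e4a_int {Y : Type*} {f : ℂ → Y} {y0 : ℝ} (hp : ∀ s : ℂ, y0 < s.im → f (s + 1) = f s)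
    {s : ℂ} (hs : y0 < s.im) (k : ℤ) : f (s + k) = f s := by
  induction k with
  | zero => simp
  | succ k ih =>
    rw [Int.cast_add, Int.cast_one, ← add_assoc, hp _ (by simpa using hs), ih]
  | pred k ih =>
    rw [← hp _ (by simpa using hs), ← ih]
    congr 1
    push_cast
    ring

theorem e4a_compact (e : E n) (l : E n →L[ℂ] ℂ) (y r : ℝ) : IsCompact
    {z : E n | (l z).im = y ∧ 0 ≤ (l z).re ∧ (l z).re ≤ 1 ∧ ‖z - l z • e‖ ≤ r} := by
  refine Metric.isCompact_of_isClosed_isBounded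
    ((isClosed_eq (f := fun z : E n => (l z).im) (by fun_prop) continuous_const).inter
      ((isClosed_le (g := fun z : E n => (l z).re) continuous_const (by fun_prop)).inter
        ((isClosed_le (f := fun z : E n => (l z).re) (by fun_prop) continuous_const).inter
          (isClosed_le (f := fun z : E n => ‖z - l z • e‖) (by fun_prop) continuous_const))))
    (isBounded_iff_forall_norm_le.2 ⟨r + (1 + |y|) * ‖e‖, fun z hz => ?_⟩)
  obtain ⟨h1, h2, h3, h4⟩ := hz
  have h5 := Complex.norm_le_abs_re_add_abs_im (l z)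
  rw [h1, abs_of_nonneg h2] at h5
  refine (norm_le_norm_sub_add z (l z • e)).trans (add_le_add h4 ?_)
  rw [norm_smul]
  exact mul_le_mul_of_nonneg_right (by linarith only [h3, h5]) (norm_nonneg _)

theorem unflow_bdd {M : Op n} (hM : IsGenLt 1 M) {e : E n} {l : E n →L[ℂ] ℂ} (hl : l e = 1)
    {y0 r : ℝ} {v : E n → V n} (hv : DifferentiableOn ℂ v (DH e l y0 r)) {y : V n} (hy0 : y ≠ 0)
    (hy : 0 ≤ NN y) (hneg : ∀ z ∈ DH e l y0 r, v z ∈ Neg n)
    (hn : ∀ z ∈ DH e l y0 r, form (v z) y = -1)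
    (hp : ∀ z ∈ DH e l y0 r, v (z + e) = flow M 1 (v z)) {y1 : ℝ} (h01 : y0 < y1) :
    ∃ B : ℝ, ∀ z ∈ DH e l y1 (r / 2), ‖flow M (-(l z)) (v z)‖ ≤ B := by
  have : ContinuousSMul ℂ (E n) := IsBoundedSMul.continuousSMul
  rcases le_or_gt r 0 with hr | hr
  · exact ⟨0, fun z hz => absurd (hz.2.trans_le (by linarith only [hr])) (norm_nonneg _).not_gt⟩
  have hF : Differentiable ℂ fun s : ℂ => flow M (-s) := fun s =>
    (hasDerivAt_flow M (-s)).differentiableAt.comp s differentiable_neg.differentiableAt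
  obtain ⟨B0, hB0⟩ := (e4a_compact e l y1 (r / 2)).exists_bound_of_continuousOn
    (((hF.continuous.comp l.continuous).continuousOn.clm_apply hv.continuousOn).mono
      fun z hz => ⟨h01.trans_eq hz.1.symm, hz.2.2.2.trans_lt (half_lt_self hr)⟩)
  obtain ⟨B, b, -, hb, hB⟩ := hM.norm_flow_neg
  have hB' : 0 ≤ B := by simpa using (norm_nonneg _).trans (hB 0 le_rfl)
  refine ⟨B0, fun z hz => ?_⟩
  have h1 : ∀ s : ℂ, l (z - l z • e + s • e) = s := fun s => by simp [hl]
  have h2 : ∀ s : ℂ, y0 < s.im → z - l z • e + s • e ∈ DH e l y0 r := fun s hs =>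
    ⟨by rwa [h1], by rw [h1, add_sub_cancel_right]; exact hz.2.trans (half_lt_self hr)⟩
  have h3 : DifferentiableOn ℂ (fun s : ℂ => v (z - l z • e + s • e)) {s | y0 < s.im} :=
    hv.comp (by fun_prop) h2
  have h4 : ∀ s : ℂ, y0 < s.im → flow M (-(s + 1)) (v (z - l z • e + (s + 1) • e)) =
      flow M (-s) (v (z - l z • e + s • e)) := fun s hs => by
    rw [add_smul, one_smul, ← add_assoc, hp _ (h2 s hs), ← ContinuousLinearMap.mul_apply,
      ← flow_add, neg_add, neg_add_cancel_right]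
  obtain ⟨C, hC⟩ := lift_growth hy0 hy h3 (fun s hs => hneg _ (h2 s hs))
    fun s hs => hn _ (h2 s hs)
  have h5 := periodic_bound (f := fun s : ℂ => flow M (-s) (v (z - l z • e + s • e))) (B := B0)
    h01 (hF.differentiableOn.clm_apply h3) h4 (fun ε hε => ?_) (fun s hs => ?_) (l z) hz.1.le
  · rwa [sub_add_cancel] at h5
  · obtain ⟨y2, hy2⟩ := eventually_atTop.1 ((e4a_small B C y0 hb hε).and
      ((eventually_ge_atTop 0).and (eventually_ge_atTop (y0 + 1))))
    refine ⟨y2, fun s hs g0 g1 => ?_⟩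
    obtain ⟨g2, g3, g4⟩ := hy2 _ hs
    have g5 := Complex.norm_le_abs_re_add_abs_im s
    rw [abs_of_nonneg g0, abs_of_nonneg g3] at g5
    refine (ContinuousLinearMap.le_opNorm _ _).trans (le_trans ?_ g2)
    exact mul_le_mul ((hB s g3).trans (mul_le_mul_of_nonneg_left (by linarith only [g1, g5]) hB'))
      (hC s g4 g0 g1) (norm_nonneg _) (by positivity)
  · have g1 := e4a_int (f := fun s : ℂ => flow M (-s) (v (z - l z • e + s • e))) h4
      (h01.trans_eq hs.symm) (-⌊s.re⌋)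
    have g2 := hB0 (z - l z • e + (s + (-⌊s.re⌋ : ℤ)) • e) (by
      rw [Set.mem_setOf_eq, h1, add_sub_cancel_right]
      refine ⟨by simpa using hs, ?_, ?_, hz.2.le⟩
      · simpa [← sub_eq_add_neg] using Int.fract_nonneg s.re
      · simpa [← sub_eq_add_neg] using (Int.fract_lt_one s.re).le)
    rw [Function.comp_apply, h1] at g2
    exact g1 ▸ g2

end BallQ
end
end

-- merged part: Pool.Agent.Work.MP_72250f_ag.E4
section
/-!
The estimate along a slice. Put y1 = max y0 0 + 1, u z = flow M (-(l z)) (v z), bounded on DH y1 (r/2) (unflow_bdd, used with a slightly smaller y1), so its derivative is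
bounded at the points s e with Im s >= y1 + 1 (norm_fderiv_le on a ball of fixed radius). v z = flow M (l z) (u z), so
fderiv v = flow M s composed with (fderiv u + (2 pi i l) (x) M u) (hasDerivAt_flow) and cdet_mul, det_flow, cdet_bdd give
|cdet v (fderiv v)| <= C exp (-2 pi age Im s). w s = flow M (i y1) (u (s e)) is periodic, bounded, <w s, y> = -1 (M y = 0, selfadj, Frame.flow_eq or
flow_apply_of_ker for the adjoint flow), NN (w s) = NN (v (s e)) >= delta on Im s = y1, so NN_ge_of_periodic applies and v (s e) = flow M (s - i y1) (w s).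
If M is nonzero use AllDecay. If M = 0 then v = u, F (v) is bounded (IsHol.bdd) and fderiv u (s e) e = O(exp (-2 pi Im s)) by periodic_deriv_bound;
apply cdet_comp with T = 1 + (lam - 1) l (x) e, lam = exp (2 pi Im s), det T = lam (det_one_add_smulRight): (fderiv u) T is bounded.
-/

open scoped ComplexConjugate ENNReal Topology
open MeasureTheory Filter

noncomputable section

namespace BallQ

variable {n : ℕ}

theorem e4_flow_flow (M : Op n) (s t : ℂ) (x : V n) :
    flow M s (flow M t x) = flow M (s + t) x := by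
  rw [flow_add]
  rfl

theorem e4_diff (M : Op n) : Differentiable ℂ (flow M) :=
  fun s => (hasDerivAt_flow M s).differentiableAt

theorem e4_form_flow {M : Op n} (hM : IsGen M) {y : V n} (hMy : M y = 0) (t : ℂ) (x : V n) :
    form (flow M t x) y = form x y := by
  have h : ∀ t : ℂ, HasDerivAt (fun t => formL y (flow M t x)) 0 t := fun t => by
    have h1 := (formL y).hasFDerivAt.comp_hasDerivAt t
      ((hasDerivAt_flow M t).clm_apply (hasDerivAt_const t x))
    have h2 : formL y (((2 * Real.pi * Complex.I : ℂ) • (flow M t * M)) x + flow M t 0) = 0 := by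
      rw [← (commute_flow (Commute.refl M) t).eq, map_zero, add_zero]
      change form ((2 * Real.pi * Complex.I : ℂ) • M (flow M t x)) y = 0
      rw [form_smul_left, hM.selfadj, hMy, form_zero_right, mul_zero]
    rw [h2] at h1
    exact h1
  have h2 := is_const_of_deriv_eq_zero (fun t => (h t).differentiableAt)
    (fun t => (h t).deriv) t 0
  rw [flow_zero] at h2
  exact h2

theorem e4_ball {e : E n} {l : E n →L[ℂ] ℂ} (hl : l e = 1) {r : ℝ} (hr : 0 < r) :
    ∃ ρ : ℝ, 0 < ρ ∧ ∀ (y : ℝ) (s : ℂ), y + 1 ≤ s.im → Metric.ball (s • e) ρ ⊆ DH e l y r := by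
  have h0 : (0 : E n) ∈ DH e l (-1) r := by
    refine ⟨by simp, ?_⟩
    simpa using hr
  obtain ⟨ρ, hρ, h⟩ := Metric.isOpen_iff.1 (isOpen_DH e l (-1) r) 0 h0
  refine ⟨ρ, hρ, fun y s hs z hz => ?_⟩
  have h1 : z - s • e ∈ Metric.ball (0 : E n) ρ := by
    rw [mem_ball_zero_iff, ← dist_eq_norm]
    exact hz
  obtain ⟨h2, h3⟩ := h h1
  rw [map_sub, map_smul, hl, smul_eq_mul, mul_one] at h2 h3
  refine ⟨?_, ?_⟩
  · rw [Complex.sub_im] at h2
    linarith only [hs, h2]
  · rw [sub_smul, sub_sub_sub_cancel_right] at h3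
    exact h3

theorem e4_fderiv (M : Op n) (l : E n →L[ℂ] ℂ) {u : E n → V n} {z : E n}
    (hu : DifferentiableAt ℂ u z) :
    fderiv ℂ (fun z => flow M (l z) (u z)) z = (flow M (l z)).comp
      (fderiv ℂ u z + l.smulRight ((2 * Real.pi * Complex.I : ℂ) • M (u z))) := by
  have : ContinuousSMul ℂ (E n) := IsBoundedSMul.continuousSMul
  have h1 := ((hasDerivAt_flow M (l z)).hasFDerivAt.comp z l.hasFDerivAt).clm_apply hu.hasFDerivAt
  refine h1.fderiv.trans ?_
  ext h
  simp

theorem e4_cdet (l : E n →L[ℂ] ℂ) (B1 B2 B3 : ℝ) : ∃ B : ℝ, ∀ (x q : V n) (A : E n →L[ℂ] V n),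
    ‖x‖ ≤ B1 → ‖A‖ ≤ B2 → ‖q‖ ≤ B3 → ‖cdet x (A + l.smulRight q)‖ ≤ B := by
  obtain ⟨B, hB⟩ := cdet_bdd n (max B1 (B2 + ‖l‖ * B3))
  refine ⟨B, fun x q A h1 h2 h3 => hB _ _ (h1.trans (le_max_left _ _))
    (le_trans ?_ (le_max_right _ _))⟩
  refine (norm_add_le _ _).trans (add_le_add h2 ?_)
  rw [ContinuousLinearMap.norm_smulRight_apply]
  exact mul_le_mul_of_nonneg_left h3 (norm_nonneg _)

theorem e4_sub (e : E n) (l : E n →L[ℂ] ℂ) {y y' r : ℝ} (h : y ≤ y') (hr : 0 < r) :
    DH e l y' (r / 2) ⊆ DH e l y r :=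
  fun _ hz => ⟨h.trans_lt hz.1, hz.2.trans (half_lt_self hr)⟩

theorem e4_line {e : E n} {l : E n →L[ℂ] ℂ} (hl : l e = 1) {y0 r : ℝ} (hr : 0 < r)
    {v : E n → V n} (hv : DifferentiableOn ℂ v (DH e l y0 r)) :
    DifferentiableOn ℂ (fun s : ℂ => v (s • e)) {s | y0 < s.im} :=
  hv.comp (f := fun s : ℂ => s • e) (by fun_prop) fun _ hs => smul_mem_DH hl hr hs

theorem e4_NN {M : Op n} (hM : IsGen M) {e : E n} {l : E n →L[ℂ] ℂ} (hl : l e = 1) {y0 r : ℝ}
    (hr : 0 < r) {v : E n → V n} (hv : DifferentiableOn ℂ v (DH e l y0 r)) {y : V n}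
    (hy0 : y ≠ 0) (hy : 0 ≤ NN y) (hMy : M y = 0) (hneg : ∀ z ∈ DH e l y0 r, v z ∈ Neg n)
    (hn : ∀ z ∈ DH e l y0 r, form (v z) y = -1)
    (hp : ∀ z ∈ DH e l y0 r, v (z + e) = flow M 1 (v z)) {y1 B : ℝ} (h01 : y0 < y1)
    (hB : ∀ s : ℂ, y1 ≤ s.im → ‖flow M (-s) (v (s • e))‖ ≤ B) :
    ∃ R δ : ℝ, 0 < δ ∧ ∀ s : ℂ, y1 ≤ s.im → ‖flow M (y1 * Complex.I - s) (v (s • e))‖ ≤ R ∧
      δ ≤ NN (flow M (y1 * Complex.I - s) (v (s • e))) := by
  have hw : DifferentiableOn ℂ (fun s : ℂ => flow M (y1 * Complex.I - s) (v (s • e)))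
      {s | y0 < s.im} :=
    ((e4_diff M).comp (f := fun s : ℂ => y1 * Complex.I - s) (by fun_prop)).differentiableOn.clm_apply
      (e4_line hl hr hv)
  have hper : ∀ s : ℂ, y0 < s.im → flow M (y1 * Complex.I - (s + 1)) (v ((s + 1) • e)) =
      flow M (y1 * Complex.I - s) (v (s • e)) := fun s hs => by
    rw [add_smul, one_smul, hp _ (smul_mem_DH hl hr hs), e4_flow_flow]
    congr 2
    ring
  have hR : ∀ s : ℂ, y1 ≤ s.im →
      ‖flow M (y1 * Complex.I - s) (v (s • e))‖ ≤ ‖flow M (y1 * Complex.I)‖ * B := fun s hs => by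
    rw [sub_eq_add_neg, ← e4_flow_flow]
    exact ((flow M _).le_opNorm _).trans (mul_le_mul_of_nonneg_left (hB s hs) (norm_nonneg _))
  have him : ∀ x : ℝ, ((x : ℂ) + y1 * Complex.I).im = y1 := fun x => by simp
  have hc : Continuous fun x : ℝ => NN (flow M (y1 * Complex.I - (x + y1 * Complex.I))
      (v (((x : ℂ) + y1 * Complex.I) • e))) :=
    continuous_NN.comp (hw.continuousOn.comp_continuous
      (f := fun x : ℝ => (x : ℂ) + y1 * Complex.I) (by fun_prop) fun x => by
        change y0 < _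
        rw [him]
        exact h01)
  have hpp : Function.Periodic (fun x : ℝ => NN (flow M (y1 * Complex.I - (x + y1 * Complex.I))
      (v (((x : ℂ) + y1 * Complex.I) • e)))) 1 := fun x => by
    have h1 : (((x + 1 : ℝ) : ℂ) + y1 * Complex.I) = (x + y1 * Complex.I) + 1 := by
      push_cast
      ring
    simp only [h1]
    rw [hper _ (by rw [him]; exact h01)]
  obtain ⟨x0, -, hx0⟩ := (isCompact_Icc (a := (0 : ℝ)) (b := 0 + 1)).exists_isMinOn
    ⟨0, by simp⟩ hc.continuousOn
  refine ⟨‖flow M (y1 * Complex.I)‖ * B, NN (flow M (y1 * Complex.I - (x0 + y1 * Complex.I))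
    (v (((x0 : ℂ) + y1 * Complex.I) • e))), ?_, fun s hs => ⟨hR s hs, ?_⟩⟩
  · exact hM.flow_mem_Neg (by simp) (hneg _ (smul_mem_DH hl hr (by rw [him]; exact h01)))
  · refine NN_ge_of_periodic hy0 hy h01 hw hper (fun s hs => ?_) hR (fun s hs => ?_) s hs
    · rw [e4_form_flow hM hMy, hn _ (smul_mem_DH hl hr hs)]
    · obtain ⟨x, hx, hx'⟩ := hpp.exists_mem_Ico one_pos s.re 0
      have h1 : s = s.re + y1 * Complex.I := by rw [← hs, Complex.re_add_im]
      have h2 := hx0 (Set.Ico_subset_Icc_self hx)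
      rw [h1]
      exact h2.trans hx'.ge

theorem e4_gen {M : Op n} (hM : IsGen M) {e : E n} {l : E n →L[ℂ] ℂ} (hl : l e = 1) {y r B : ℝ}
    (hr : 0 < r) {v : E n → V n} (hv : DifferentiableOn ℂ v (DH e l y r))
    (hB : ∀ z ∈ DH e l y r, ‖flow M (-(l z)) (v z)‖ ≤ B) :
    ∃ C : ℝ, ∀ s : ℂ, y + 1 ≤ s.im → ‖cdet (v (s • e)) (fderiv ℂ v (s • e))‖ ≤
      C * Real.exp (-(2 * Real.pi * age M * s.im)) := by
  obtain ⟨ρ, hρ, hball⟩ := e4_ball hl hr
  have hu : DifferentiableOn ℂ (fun z => flow M (-(l z)) (v z)) (DH e l y r) :=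
    ((e4_diff M).comp (f := fun z : E n => -(l z)) (by fun_prop)).differentiableOn.clm_apply hv
  obtain ⟨C, hC⟩ := e4_cdet l B (B / ρ) (‖(2 * Real.pi * Complex.I : ℂ)‖ * (‖M‖ * B))
  refine ⟨C, fun s hs => ?_⟩
  have hs' : s • e ∈ DH e l y r := smul_mem_DH hl hr (by linarith only [hs])
  have hvu : v = fun z => flow M (l z) (flow M (-(l z)) (v z)) := by
    funext z
    rw [e4_flow_flow, add_neg_cancel, flow_zero]
    rfl
  have h1 := e4_fderiv M l (hu.differentiableAt ((isOpen_DH e l y r).mem_nhds hs'))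
  rw [← hvu] at h1
  have h2 : v (s • e) = flow M (l (s • e)) (flow M (-(l (s • e))) (v (s • e))) := congrFun hvu _
  have h3 : l (s • e) = s := by rw [map_smul, hl, smul_eq_mul, mul_one]
  have h4 : ‖(flow M (l (s • e))).det‖ = Real.exp (-(2 * Real.pi * age M * s.im)) := by
    rw [h3, hM.det_flow, hM.tr_eq, Complex.norm_exp]
    congr 1
    simp
    ring
  have h5 : cdet (v (s • e)) (fderiv ℂ v (s • e)) = (flow M (l (s • e))).det *
      cdet (flow M (-(l (s • e))) (v (s • e)))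
        (fderiv ℂ (fun z => flow M (-(l z)) (v z)) (s • e) + l.smulRight
          ((2 * Real.pi * Complex.I : ℂ) • M (flow M (-(l (s • e))) (v (s • e))))) := by
    rw [← cdet_mul, ← h1, ← h2]
  rw [h5, norm_mul, h4, mul_comm]
  refine mul_le_mul_of_nonneg_right (hC _ _ _ (hB _ hs') ?_ ?_) (Real.exp_pos _).le
  · exact norm_fderiv_le hρ (hu.mono (hball y s hs)) fun z hz => hB z (hball y s hs hz)
  · rw [norm_smul]
    exact mul_le_mul_of_nonneg_left ((M.le_opNorm _).trans
      (mul_le_mul_of_nonneg_left (hB _ hs') (norm_nonneg _))) (norm_nonneg _)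

theorem e4_zero {e : E n} {l : E n →L[ℂ] ℂ} (hl : l e = 1) {y r B : ℝ} (hy : 0 ≤ y)
    (hr : 0 < r) {v : E n → V n} (hv : DifferentiableOn ℂ v (DH e l y r))
    (hp : ∀ z ∈ DH e l y r, v (z + e) = v z) (hB : ∀ z ∈ DH e l y r, ‖v z‖ ≤ B) :
    ∃ C : ℝ, ∀ s : ℂ, y + 1 ≤ s.im → ‖cdet (v (s • e)) (fderiv ℂ v (s • e))‖ ≤
      C * Real.exp (-(2 * Real.pi * 1 * s.im)) := by
  have : ContinuousSMul ℂ (E n) := IsBoundedSMul.continuousSMul
  obtain ⟨ρ, hρ, hball⟩ := e4_ball hl hr
  obtain ⟨D, hD⟩ := periodic_deriv_bound (e4_line hl hr hv)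
    (fun s hs => by rw [add_smul, one_smul, hp _ (smul_mem_DH hl hr hs)])
    (fun s hs => hB _ (smul_mem_DH hl hr hs))
  obtain ⟨C, hC⟩ := e4_cdet l B (B / ρ) D
  refine ⟨C, fun s hs => ?_⟩
  have hs' : s • e ∈ DH e l y r := smul_mem_DH hl hr (by linarith only [hs])
  have hd := (hv.differentiableAt ((isOpen_DH e l y r).mem_nhds hs')).hasFDerivAt
  have h1 : deriv (fun s : ℂ => v (s • e)) s = fderiv ℂ v (s • e) e := by
    have h := hd.comp_hasDerivAt s ((hasDerivAt_id s).smul_const e)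
    rw [one_smul] at h
    exact h.deriv
  have h2 := hD s hs
  rw [h1] at h2
  obtain ⟨a, ha⟩ : ∃ a : ℝ, a = Real.exp (2 * Real.pi * s.im) := ⟨_, rfl⟩
  have ha1 : 1 ≤ a := by
    rw [ha]
    exact Real.one_le_exp (mul_nonneg (by positivity) (by linarith only [hy, hs]))
  have ha2 : Real.exp (-(2 * Real.pi * s.im)) = a⁻¹ := by rw [Real.exp_neg, ha]
  have h3 := cdet_comp (v (s • e)) (fderiv ℂ v (s • e))
    (ContinuousLinearMap.id ℂ (E n) + l.smulRight (((a - 1 : ℝ) : ℂ) • e))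
  have h4 : (fderiv ℂ v (s • e)).comp
      (ContinuousLinearMap.id ℂ (E n) + l.smulRight (((a - 1 : ℝ) : ℂ) • e)) =
      fderiv ℂ v (s • e) + l.smulRight (((a - 1 : ℝ) : ℂ) • fderiv ℂ v (s • e) e) := by
    ext h
    simp
  have h5 : (1 : ℂ) + ((a - 1 : ℝ) : ℂ) = a := by
    push_cast
    ring
  rw [h4, det_one_add_smulRight, map_smul, hl, smul_eq_mul, mul_one, h5] at h3
  have h6 := hC (v (s • e)) (((a - 1 : ℝ) : ℂ) • fderiv ℂ v (s • e) e) (fderiv ℂ v (s • e))
    (hB _ hs') (norm_fderiv_le hρ (hv.mono (hball y s hs)) fun z hz => hB z (hball y s hs hz)) (by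
      rw [norm_smul, Complex.norm_real, Real.norm_of_nonneg (by linarith only [ha1])]
      rw [ha2, ← div_eq_mul_inv, le_div_iff₀ (by linarith only [ha1])] at h2
      linarith only [h2, norm_nonneg (fderiv ℂ v (s • e) e)])
  rw [h3, norm_mul, Complex.norm_real, Real.norm_of_nonneg (by linarith only [ha1])] at h6
  rw [mul_one, ha2, ← div_eq_mul_inv, le_div_iff₀ (by linarith only [ha1])]
  exact h6

theorem phi_bound {Γ : Subgroup (GG n)} {k : ℕ} {F : V n → ℂ} (hF : IsHol (k * (n + 1)) F)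
    (hd : AllDecay Γ k F) {M : Op n} (hM : IsGenLt 1 M) (hP : InP Γ (flow M 1)) {e : E n}
    {l : E n →L[ℂ] ℂ} (hl : l e = 1) {y0 r : ℝ} (hr : 0 < r) {v : E n → V n}
    (hv : DifferentiableOn ℂ v (DH e l y0 r)) {y : V n} (hy0 : y ≠ 0) (hy : 0 ≤ NN y)
    (hMy : M y = 0) (hneg : ∀ z ∈ DH e l y0 r, v z ∈ Neg n)
    (hn : ∀ z ∈ DH e l y0 r, form (v z) y = -1)
    (hp : ∀ z ∈ DH e l y0 r, v (z + e) = flow M 1 (v z)) :
    ∃ C y2 : ℝ, ∀ s : ℂ, y2 ≤ s.im →
      ‖F (v (s • e)) * cdet (v (s • e)) (fderiv ℂ v (s • e)) ^ k‖ ≤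
        C * Real.exp (-(2 * Real.pi * s.im)) ^ k := by
  have h1 : y0 < max y0 0 + 1 := (le_max_left _ _).trans_lt (lt_add_one _)
  have h2 : 0 ≤ max y0 0 + 1 := (le_max_right _ _).trans (lt_add_one _).le
  generalize max y0 0 + 1 = ya at h1 h2
  obtain ⟨B, hB⟩ := unflow_bdd hM hl hv hy0 hy hneg hn hp h1
  have hsub := e4_sub e l h1.le hr
  obtain ⟨R, δ, hδ, hR⟩ := e4_NN hM.isGen hl hr hv hy0 hy hMy hneg hn hp (y1 := ya + 1) (B := B)
    (by linarith only [h1]) fun s hs => by
      have h := hB _ (smul_mem_DH (s := s) hl (half_pos hr) (by linarith))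
      rwa [map_smul, hl, smul_eq_mul, mul_one] at h
  obtain ⟨a, hD, C, hC⟩ : ∃ a : ℝ, Decay M (k * (1 - a)) F ∧ ∃ C : ℝ, ∀ s : ℂ, ya + 1 ≤ s.im →
      ‖cdet (v (s • e)) (fderiv ℂ v (s • e))‖ ≤ C * Real.exp (-(2 * Real.pi * a * s.im)) := by
    by_cases h0 : M = 0
    · have hf : ∀ s : ℂ, flow M s = 1 := fun s => by simp [flow, h0]
      refine ⟨1, decay_of_nonpos hF hM.isGen (by simp), e4_zero hl h2 (half_pos hr)
        (hv.mono hsub) (fun z hz => ?_) (B := B) fun z hz => ?_⟩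
      · rw [hp z (hsub hz), hf]
        rfl
      · have h := hB z hz
        rwa [hf] at h
    · exact ⟨age M, hd M hM hP h0, e4_gen hM.isGen hl (half_pos hr) (hv.mono hsub) hB⟩
  obtain ⟨D, hD⟩ := hD R δ hδ
  refine ⟨D * Real.exp (2 * Real.pi * (k * (1 - a)) * (ya + 1)) * C ^ k, ya + 1, fun s hs => ?_⟩
  have h3 := hD _ (hR s hs).1 (hR s hs).2 (s - ((ya + 1 : ℝ) : ℂ) * Complex.I) (by simpa using hs)
  have h4 : (s - ((ya + 1 : ℝ) : ℂ) * Complex.I).im = s.im - (ya + 1) := by simp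
  rw [e4_flow_flow, sub_add_sub_cancel, sub_self, flow_zero, h4] at h3
  have h5 := pow_le_pow_left₀ (norm_nonneg _) (hC s hs) k
  rw [norm_mul, norm_pow]
  refine (mul_le_mul h3 h5 (by positivity) ((norm_nonneg _).trans h3)).trans (le_of_eq ?_)
  have h6 : Real.exp (-(2 * Real.pi * (k * (1 - a)) * (s.im - (ya + 1)))) *
      Real.exp (-(2 * Real.pi * a * s.im)) ^ k =
      Real.exp (2 * Real.pi * (k * (1 - a)) * (ya + 1)) * Real.exp (-(2 * Real.pi * s.im)) ^ k := by
    rw [← Real.exp_nat_mul, ← Real.exp_nat_mul, ← Real.exp_add, ← Real.exp_add]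
    congr 1
    ring
  rw [mul_pow]
  linear_combination (D * C ^ k) * h6

end BallQ
end
end
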