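import Pool.Agent.Work.MP_72250f_ag.Z1
import Pool.Agent.Work.MP_72250f_ag.E1a
import Pool.Agent.Work.MP_72250f_ag.M3
import Pool.Agent.Work.MP_72250f_ag.Statement
import Pool.Agent.Work.MP_72250f_ag.Z2

-- merged part: Pool.Agent.Work.MP_72250f_ag.A7a
section
/-!
Poincare series and the lower bound. For v, y in Neg: |kern w y v|^2 NN v ^ w = NN y ^ -w CC v y ^ -w. With w = k (n+1), k >= 4,
the Petersson norm of a term is at most const CC (g v) y ^ -(2(n+1)); schur (applied with g^-1) gives summability, locally uniformly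
(CC_tri), so poin is holomorphic (differentiableOn_tsum_of_bdd). dec: cnt x 4 * CC (g x) y ^ -(n+1) <= 16^(n+1) sum over h of CC (h g x) y ^ -(n+1)
<= const by schur, so cnt * |poin| is bounded. inner_poin: unfolding (integral_tsum, measurePreserving_actV) and reproducing.
lower_bound: the good forms form a submodule A0; if it is infinite dimensional take a big finite dimensional subspace (massF is
nonzero and finite). Otherwise take an orthonormal basis G_i for the weighted inner product; inner_poin gives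
poin y y = massF * sum |G_i y|^2, so finrank * massF = integral of Re (poin y y) NN y ^ w psi. For y with trivial stabiliser
poin y y NN y ^ w = sum over g of (NN y / -<g y, y>)^w tends to zc (scalars c in Gamma have c^(n+1) = 1 by det = 1;
tendsto_tsum_of_dominated_convergence). Fatou (lintegral_liminf_le).
-/

open scoped ComplexConjugate ENNReal Topology
open MeasureTheory Filter

noncomputable section

namespace BallQ

variable {n : ℕ}

/-- The basic weight. -/
def a7a_b (y u : V n) : ℝ := (CC u y)⁻¹ ^ (n + 1)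

theorem a7a_b_nonneg {y u : V n} (hy : y ∈ Neg n) (hu : u ∈ Neg n) : 0 ≤ a7a_b y u :=
  pow_nonneg (inv_nonneg.2 (zero_le_one.trans (one_le_CC hu hy))) _

theorem a7a_b_le_one {y u : V n} (hy : y ∈ Neg n) (hu : u ∈ Neg n) : a7a_b y u ≤ 1 :=
  pow_le_one₀ (inv_nonneg.2 (zero_le_one.trans (one_le_CC hu hy)))
    (inv_le_one_of_one_le₀ (one_le_CC hu hy))

theorem a7a_b_le {y u u' : V n} (hy : y ∈ Neg n) (hu : u ∈ Neg n) (hu' : u' ∈ Neg n)
    (h : CC u' u ≤ 4) : a7a_b y u ≤ 16 ^ (n + 1) * a7a_b y u' := by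
  have h1 := one_le_CC hu hy
  have h2 := one_le_CC hu' hy
  have h3 := CC_tri hu' hu hy
  unfold a7a_b
  rw [← mul_pow]
  refine pow_le_pow_left₀ (by positivity) ?_ _
  rw [← div_eq_mul_inv, inv_eq_one_div, div_le_div_iff₀ (by positivity) (by positivity)]
  nlinarith

theorem a7a_form_ne {y u : V n} (hy : y ∈ Neg n) (hu : u ∈ Neg n) : form u y ≠ 0 := by
  intro h
  have := one_le_CC hu hy
  rw [CC, h] at this
  norm_num at this

theorem a7a_kern_le {w : ℕ} (hw : 4 * (n + 1) ≤ w) {y u : V n} (hy : y ∈ Neg n)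
    (hu : u ∈ Neg n) : ‖kern w y u‖ * √(NN u) ^ w ≤ (√(NN y))⁻¹ ^ w * a7a_b y u ^ 2 := by
  have h1 := one_le_CC hu hy
  have hu0 : 0 < NN u := hu
  have hy0 : 0 < NN y := hy
  have hf : 0 < ‖form u y‖ := norm_pos_iff.2 (a7a_form_ne hy hu)
  have hs : √(CC u y) = ‖form u y‖ / (√(NN u) * √(NN y)) := by
    rw [CC, Real.sqrt_div (sq_nonneg _), Real.sqrt_sq hf.le, Real.sqrt_mul hu0.le]
  have e : ‖kern w y u‖ * √(NN u) ^ w = (√(NN y))⁻¹ ^ w * (√(CC u y))⁻¹ ^ w := by
    rw [kern, Set.indicator_of_mem hu, norm_pow, norm_inv, norm_neg, ← mul_pow, ← mul_pow, hs]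
    congr 1
    have := Real.sqrt_pos.2 hu0
    have := Real.sqrt_pos.2 hy0
    field_simp
  rw [e]
  refine mul_le_mul_of_nonneg_left ?_ (by positivity)
  have h2 : 1 ≤ √(CC u y) := Real.one_le_sqrt.2 h1
  refine (pow_le_pow_of_le_one (by positivity) (inv_le_one_of_one_le₀ h2) hw).trans_eq ?_
  unfold a7a_b
  rw [← pow_mul, show 4 * (n + 1) = 2 * ((n + 1) * 2) by ring, pow_mul, inv_pow (√(CC u y)) 2,
    Real.sq_sqrt (zero_le_one.trans h1)]

theorem a7a_sum {Γ : Subgroup (GG n)} (hΓ : Proper Γ) {y : V n} (hy : y ∈ Neg n) :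
    ∃ K : ℝ≥0∞, K ≠ ⊤ ∧ ∀ v ∈ Neg n,
      ∑' g : Γ, ENNReal.ofReal (a7a_b y (((g : GG n) : Op n) v)) ≤ K := by
  obtain ⟨c, hc, h⟩ := schur n
  refine ⟨c * cnt Γ y 9, ENNReal.mul_ne_top hc ?_, fun v hv => le_trans (le_of_eq ?_) (h Γ hΓ v hv y hy)⟩
  · have hf : {g : Γ | CC y (((g : GG n) : Op n) y) ≤ 9}.Finite :=
      ((hΓ.fin_two hy hy 9).preimage Subtype.val_injective.injOn).subset fun g hg => ⟨g.2, hg⟩
    unfold cnt
    rw [tsum_eq_sum (s := hf.toFinset)]
    · refine ENNReal.sum_ne_top.2 fun g _ => ?_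
      split_ifs <;> simp
    · exact fun g hg => if_neg fun h' => hg (hf.mem_toFinset.2 h')
  · rw [← (Equiv.inv Γ).tsum_eq]
    refine tsum_congr fun g => ?_
    unfold a7a_b
    rw [← (hΓ.isom g g.2).CC_apply]
    simp only [Equiv.inv_apply, Subgroup.coe_inv, apply_inv_apply]

theorem a7a_cnt {Γ : Subgroup (GG n)} (hΓ : Proper Γ) {y x : V n} (hy : y ∈ Neg n)
    (hx : x ∈ Neg n) (g : Γ) : cnt Γ x 4 * ENNReal.ofReal (a7a_b y (((g : GG n) : Op n) x)) ≤
      16 ^ (n + 1) * ∑' h : Γ, ENNReal.ofReal (a7a_b y (((h : GG n) : Op n) x)) := by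
  rw [← (Equiv.mulLeft g).tsum_eq, cnt, ← ENNReal.tsum_mul_right, ← ENNReal.tsum_mul_left]
  refine ENNReal.tsum_le_tsum fun h => ?_
  split_ifs with hh
  · have hg := hΓ.isom g g.2
    have hh' := hΓ.isom h h.2
    have e : (((Equiv.mulLeft g h : Γ) : GG n) : Op n) x = ((g : GG n) : Op n) (((h : GG n) : Op n) x) :=
      rfl
    rw [one_mul, e]
    refine (ENNReal.ofReal_le_ofReal (a7a_b_le hy (hg.mem_Neg.2 hx)
      (hg.mem_Neg.2 (hh'.mem_Neg.2 hx)) (by rwa [hg.CC_apply, CC_comm]))).trans_eq ?_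
    rw [ENNReal.ofReal_mul (by positivity), ENNReal.ofReal_pow (by norm_num)]
    simp
  · simp

theorem a7a_pet (w : ℕ) (G : V n → ℂ) {x : V n} (hx : x ∈ Neg n) :
    petE w G x = ENNReal.ofReal (‖G x‖ * √(NN x) ^ w) ^ 2 := by
  have hx0 : 0 < NN x := hx
  rw [petE, ← ENNReal.ofReal_pow (by positivity), mul_pow, ← pow_mul, mul_comm w 2, pow_mul,
    Real.sq_sqrt hx0.le]

theorem a7a_poin_le {Γ : Subgroup (GG n)} (hΓ : Proper Γ) {w : ℕ} (hw : 4 * (n + 1) ≤ w)
    {y x : V n} (hy : y ∈ Neg n) (hx : x ∈ Neg n) :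
    ENNReal.ofReal (‖poin Γ w y x‖ * √(NN x) ^ w) ≤ ENNReal.ofReal ((√(NN y))⁻¹ ^ w) *
      ∑' g : Γ, ENNReal.ofReal (a7a_b y (((g : GG n) : Op n) x)) ^ 2 := by
  rw [ENNReal.ofReal_mul (norm_nonneg _), ofReal_norm, ← ENNReal.tsum_mul_left]
  refine (mul_le_mul_left enorm_tsum_le_tsum_enorm _).trans ?_
  rw [← ENNReal.tsum_mul_right]
  refine ENNReal.tsum_le_tsum fun g => ?_
  have hg := hΓ.isom g g.2
  have h1 := a7a_kern_le hw hy (hg.mem_Neg.2 hx)
  rw [hg.NN_apply] at h1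
  rw [← ofReal_norm, ← ENNReal.ofReal_mul (norm_nonneg _),
    ← ENNReal.ofReal_pow (a7a_b_nonneg hy (hg.mem_Neg.2 hx)), ← ENNReal.ofReal_mul (by positivity)]
  exact ENNReal.ofReal_le_ofReal h1

theorem a7a_diff {Γ : Subgroup (GG n)} (hΓ : Proper Γ) {w : ℕ} (hw : 4 * (n + 1) ≤ w)
    {y : V n} (hy : y ∈ Neg n) : DifferentiableOn ℂ (poin Γ w y) (Neg n) := by
  obtain ⟨K, hK, hS⟩ := a7a_sum hΓ hy
  refine differentiableOn_tsum_of_bdd (f := fun (g : Γ) v => kern w y (((g : GG n) : Op n) v))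
    isOpen_Neg (fun g => ?_) fun a ha => ?_
  · have hg := hΓ.isom g g.2
    have h1 : DifferentiableOn ℂ (fun v => (-formL y (((g : GG n) : Op n) v))⁻¹ ^ w) (Neg n) := by
      refine DifferentiableOn.pow (DifferentiableOn.inv (by fun_prop) fun v hv => ?_) w
      exact neg_ne_zero.2 (a7a_form_ne hy (hg.mem_Neg.2 hv))
    exact h1.congr fun v hv => Set.indicator_of_mem (hg.mem_Neg.2 hv) _
  · have ha0 : 0 < NN a := ha
    have h1 : ∀ᶠ x in 𝓝 a, NN a / 2 < NN x :=
      continuous_NN.continuousAt.eventually (lt_mem_nhds (half_lt_self ha0))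
    have h2 : ∀ᶠ x in 𝓝 a, CC a x < 4 := by
      have : ContinuousAt (fun x => CC a x) a := by
        unfold CC
        exact ContinuousAt.div (by fun_prop) (by fun_prop) (mul_pos ha0 ha0).ne'
      exact this.eventually (gt_mem_nhds ((CC_self ha).trans_lt (by norm_num)))
    obtain ⟨r, hr, h⟩ := Metric.eventually_nhds_iff_ball.1 (h1.and h2)
    have hs : Summable fun g : Γ => a7a_b y (((g : GG n) : Op n) a) := by
      refine (ENNReal.summable_toReal (ne_top_of_le_ne_top hK (hS a ha))).congr fun g => ?_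
      exact ENNReal.toReal_ofReal (a7a_b_nonneg hy ((hΓ.isom g g.2).mem_Neg.2 ha))
    refine ⟨r, hr, _, (hs.mul_left ((√(NN y))⁻¹ ^ w * 16 ^ (n + 1))).div_const (√(NN a / 2) ^ w),
      fun g x hx => ?_⟩
    obtain ⟨h3, h4⟩ := h x hx
    have hx0 : x ∈ Neg n := (half_pos ha0).trans h3
    have hg := hΓ.isom g g.2
    have h5 := a7a_kern_le hw hy (hg.mem_Neg.2 hx0)
    rw [hg.NN_apply] at h5
    have h6 := a7a_b_le hy (hg.mem_Neg.2 hx0) (hg.mem_Neg.2 ha) (by rw [hg.CC_apply]; exact h4.le)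
    have h7 := a7a_b_nonneg hy (hg.mem_Neg.2 hx0)
    have h8 := a7a_b_le_one hy (hg.mem_Neg.2 hx0)
    rw [le_div_iff₀ (pow_pos (Real.sqrt_pos.2 (half_pos ha0)) w), mul_assoc]
    refine le_trans (mul_le_mul_of_nonneg_left
      (pow_le_pow_left₀ (Real.sqrt_nonneg _) (Real.sqrt_le_sqrt h3.le) w) (norm_nonneg _)) ?_
    refine h5.trans (mul_le_mul_of_nonneg_left (le_trans ?_ h6) (by positivity))
    nlinarith

theorem a7a_kern_smul (w : ℕ) (y : V n) {c : ℂ} (hc : c ≠ 0) (u : V n) :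
    kern w y (c • u) = c⁻¹ ^ w * kern w y u := by
  by_cases hu : u ∈ Neg n
  · rw [kern, kern, Set.indicator_of_mem hu, Set.indicator_of_mem (smul_mem_Neg hc hu),
      form_smul_left, ← mul_pow, ← mul_neg, mul_inv]
  · have : c • u ∉ Neg n := fun h => hu (by simpa [smul_smul, hc] using smul_mem_Neg (inv_ne_zero hc) h)
    rw [kern, kern, Set.indicator_of_notMem hu, Set.indicator_of_notMem this, mul_zero]

theorem isGood_poin {Γ : Subgroup (GG n)} (hΓ : Proper Γ) {k : ℕ} (hk : 4 ≤ k) {y : V n}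
    (hy : y ∈ Neg n) : IsGood Γ k (poin Γ (k * (n + 1)) y) := by
  have hw : 4 * (n + 1) ≤ k * (n + 1) := Nat.mul_le_mul_right _ hk
  obtain ⟨K, hK, hS⟩ := a7a_sum hΓ hy
  set D := ENNReal.ofReal ((√(NN y))⁻¹ ^ (k * (n + 1))) with hD
  have hD' : D ≠ ⊤ := ENNReal.ofReal_ne_top
  refine ⟨⟨a7a_diff hΓ hw hy, fun c hc v => ?_, fun v hv => ?_, ((D * K) ^ 2).toReal,
    fun v hv => ?_⟩, fun g hg v => ?_, (D * (16 ^ (n + 1) * K * K)) ^ 2, ?_, fun x hx => ?_⟩
  · simp only [poin, map_smul, a7a_kern_smul _ _ hc, tsum_mul_left]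
  · have : ∀ g : Γ, kern (k * (n + 1)) y (((g : GG n) : Op n) v) = 0 := fun g =>
      Set.indicator_of_notMem (fun h => hv ((hΓ.isom g g.2).mem_Neg.1 h)) _
    simp only [poin, this, tsum_zero]
  · rw [← ENNReal.ofReal_le_iff_le_toReal (ENNReal.pow_ne_top (ENNReal.mul_ne_top hD' hK))]
    change petE _ _ v ≤ _
    rw [a7a_pet _ _ hv]
    refine pow_le_pow_left' ((a7a_poin_le hΓ hw hy hv).trans (mul_le_mul_right ?_ _)) 2
    refine le_trans (ENNReal.tsum_le_tsum fun g => ?_) (hS v hv)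
    rw [sq]
    exact mul_le_of_le_one_left' (ENNReal.ofReal_le_one.2
      (a7a_b_le_one hy ((hΓ.isom g g.2).mem_Neg.2 hv)))
  · unfold poin
    rw [← (Equiv.mulRight (⟨g, hg⟩ : Γ)).tsum_eq fun h : Γ =>
      kern (k * (n + 1)) y (((h : GG n) : Op n) v)]
    rfl
  · refine ENNReal.pow_ne_top (ENNReal.mul_ne_top hD' (ENNReal.mul_ne_top
      (ENNReal.mul_ne_top (ENNReal.pow_ne_top (by norm_num)) hK) hK))
  · rw [a7a_pet _ _ hx, ← mul_pow]
    refine pow_le_pow_left' ((mul_le_mul_right (a7a_poin_le hΓ hw hy hx) _).trans ?_) 2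
    rw [mul_left_comm, ← ENNReal.tsum_mul_left]
    refine mul_le_mul_right (le_trans (ENNReal.tsum_le_tsum fun g => ?_)
      (ENNReal.tsum_mul_left.trans_le (mul_le_mul_right (hS x hx) _))) _
    rw [sq, ← mul_assoc]
    exact mul_le_mul_left ((a7a_cnt hΓ hy hx g).trans (mul_le_mul_right (hS x hx) _)) _

theorem IsGood.add {Γ : Subgroup (GG n)} {k : ℕ} {G H : V n → ℂ} (hG : IsGood Γ k G)
    (hH : IsGood Γ k H) : IsGood Γ k (G + H) := by
  obtain ⟨B, hB, h⟩ := hG.dec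
  obtain ⟨B', hB', h'⟩ := hH.dec
  refine ⟨hG.hol.add hH.hol, fun g hg v => by simp only [Pi.add_apply, hG.inv g hg, hH.inv g hg],
    2 * B + 2 * B', by finiteness, fun x hx => ?_⟩
  have hx0 : 0 < NN x := hx
  have e : petE (k * (n + 1)) (G + H) x ≤
      2 * petE (k * (n + 1)) G x + 2 * petE (k * (n + 1)) H x := by
    unfold petE
    rw [← ENNReal.ofReal_ofNat 2, ← ENNReal.ofReal_mul (by norm_num),
      ← ENNReal.ofReal_mul (by norm_num), ← ENNReal.ofReal_add (by positivity) (by positivity)]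
    refine ENNReal.ofReal_le_ofReal ?_
    have h1 : ‖(G + H) x‖ ^ 2 ≤ 2 * ‖G x‖ ^ 2 + 2 * ‖H x‖ ^ 2 := by
      have := pow_le_pow_left₀ (norm_nonneg _) (norm_add_le (G x) (H x)) 2
      rw [Pi.add_apply]
      nlinarith [sq_nonneg (‖G x‖ - ‖H x‖)]
    have := mul_le_mul_of_nonneg_right h1 (pow_pos hx0 (k * (n + 1))).le
    linarith
  refine (mul_le_mul_right e _).trans ?_
  rw [mul_add, mul_left_comm, mul_left_comm _ 2]
  exact add_le_add (mul_le_mul_right (h x hx) _) (mul_le_mul_right (h' x hx) _)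

theorem IsGood.smul {Γ : Subgroup (GG n)} {k : ℕ} {G : V n → ℂ} (hG : IsGood Γ k G) (c : ℂ) :
    IsGood Γ k (c • G) := by
  obtain ⟨B, hB, h⟩ := hG.dec
  refine ⟨hG.hol.smul c, fun g hg v => by simp only [Pi.smul_apply, hG.inv g hg],
    ENNReal.ofReal (‖c‖ ^ 2) * B, by finiteness, fun x hx => ?_⟩
  have e : petE (k * (n + 1)) (c • G) x = ENNReal.ofReal (‖c‖ ^ 2) * petE (k * (n + 1)) G x := by
    unfold petE
    rw [← ENNReal.ofReal_mul (by positivity), Pi.smul_apply, norm_smul, mul_pow, mul_assoc]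
  rw [e, mul_left_comm]
  exact mul_le_mul_right (h x hx) _

end BallQ
end
end

-- merged part: Pool.Agent.Work.MP_72250f_ag.A7b
section
/-!
Poincare series and the lower bound. For v, y in Neg: |kern w y v|^2 NN v ^ w = NN y ^ -w CC v y ^ -w. With w = k (n+1), k >= 4,
the Petersson norm of a term is at most const CC (g v) y ^ -(2(n+1)); schur (applied with g^-1) gives summability, locally uniformly
(CC_tri), so poin is holomorphic (differentiableOn_tsum_of_bdd). dec: cnt x 4 * CC (g x) y ^ -(n+1) <= 16^(n+1) sum over h of CC (h g x) y ^ -(n+1)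
<= const by schur, so cnt * |poin| is bounded. inner_poin: unfolding (integral_tsum, measurePreserving_actV) and reproducing.
lower_bound: the good forms form a submodule A0; if it is infinite dimensional take a big finite dimensional subspace (massF is
nonzero and finite). Otherwise take an orthonormal basis G_i for the weighted inner product; inner_poin gives
poin y y = massF * sum |G_i y|^2, so finrank * massF = integral of Re (poin y y) NN y ^ w psi. For y with trivial stabiliser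
poin y y NN y ^ w = sum over g of (NN y / -<g y, y>)^w tends to zc (scalars c in Gamma have c^(n+1) = 1 by det = 1;
tendsto_tsum_of_dominated_convergence). Fatou (lintegral_liminf_le).
-/

open scoped ComplexConjugate ENNReal Topology
open MeasureTheory Filter

noncomputable section

namespace BallQ

variable {n : ℕ}

/-- The scale invariant density of the inner product with the kernel. -/
def a7b_F (w : ℕ) (G : V n → ℂ) (y v : V n) : ℂ :=
  G v * conj (kern w y v) * ((NN v ^ w : ℝ) : ℂ)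

theorem a7b_meas_kern (w : ℕ) (y : V n) : Measurable (kern w y) := by
  unfold kern
  refine Measurable.indicator ?_ isOpen_Neg.measurableSet
  have : Continuous fun v : V n => -form v y := by fun_prop
  exact (this.measurable.inv).pow_const w

theorem a7b_meas {w : ℕ} {G : V n → ℂ} (hG : IsHol w G) (y : V n) :
    Measurable (a7b_F w G y) := by
  unfold a7b_F
  refine (hG.measurable.mul (Complex.continuous_conj.measurable.comp (a7b_meas_kern w y))).mul ?_
  exact Complex.measurable_ofReal.comp (continuous_NN.measurable.pow_const w)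

theorem a7b_smul {w : ℕ} {G : V n → ℂ} (hG : IsHol w G) (y : V n) {c : ℂ} (hc : c ≠ 0)
    (v : V n) : a7b_F w G y (c • v) = a7b_F w G y v := by
  unfold a7b_F
  rw [hG.hom c hc, a7a_kern_smul w y hc, NN_smul, mul_pow, Complex.ofReal_mul, map_mul]
  have h1 : (((‖c‖ ^ 2) ^ w : ℝ) : ℂ) = c ^ w * conj c ^ w := by
    rw [← mul_pow, Complex.mul_conj, Complex.normSq_eq_norm_sq]
    push_cast
    rfl
  have h2 : c⁻¹ ^ w * c ^ w = 1 := by rw [← mul_pow, inv_mul_cancel₀ hc, one_pow]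
  have h3 : conj (c⁻¹ ^ w) * conj c ^ w = 1 := by rw [← map_pow, ← map_mul, h2, map_one]
  rw [h1]
  linear_combination (G v * conj (kern w y v) * ((NN v ^ w : ℝ) : ℂ)) *
    ((conj (c⁻¹ ^ w) * conj c ^ w) * h2 + h3)

theorem a7b_sum_inv {Γ : Subgroup (GG n)} {ψ : V n → ℝ≥0∞} (hψ : IsWeight Γ ψ) {v : V n}
    (hv : v ∈ Neg n) : ∑' g : Γ, ψ ((((g : GG n)⁻¹ : GG n) : Op n) v) = 1 := by
  rw [← hψ.sum v hv, ← (Equiv.inv Γ).tsum_eq]
  simp only [Equiv.inv_apply, Subgroup.coe_inv, inv_inv]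

theorem a7b_integral {g : GG n} (hg : IsIsom (g : Op n)) {f : V n → ℂ} (hf : Measurable f)
    (hs : ∀ c : ℂ, c ≠ 0 → ∀ v, f (c • v) = f v) :
    ∫ v, f ((g : Op n) v) ∂(nu n) = ∫ v, f v ∂(nu n) := by
  have hm := measurePreserving_actV hg
  conv_rhs => rw [← hm.map_eq]
  rw [integral_map hm.measurable.aemeasurable hf.aestronglyMeasurable]
  refine integral_congr_ae ?_
  filter_upwards [ae_nu (n := n)] with v hv
  obtain ⟨c, hc, h⟩ := actV_eq hg hv.1
  rw [h, hs c hc]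

theorem inner_poin {Γ : Subgroup (GG n)} (hΓ : Proper Γ) {ψ : V n → ℝ≥0∞} (hψ : IsWeight Γ ψ)
    {k : ℕ} (hk : 4 ≤ k) {G : V n → ℂ} (hG : IsHol (k * (n + 1)) G) (hi : Inv Γ G) {y : V n}
    (hy : y ∈ Neg n) :
    ∫ v, G v * conj (poin Γ (k * (n + 1)) y v) * ((NN v ^ (k * (n + 1)) * (ψ v).toReal : ℝ) : ℂ)
      ∂(nu n) = ((massF n (k * (n + 1))).toReal : ℂ) * G y := by
  have := hΓ.countable
  set w := k * (n + 1) with hw
  obtain ⟨hint, hrep⟩ := reproducing (w := w) (Nat.mul_le_mul_right _ (by omega)) hG hy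
  change Integrable (a7b_F w G y) (nu n) at hint
  change ∫ v, a7b_F w G y v ∂(nu n) = _ at hrep
  have hF := a7b_meas hG y
  have hmi : ∀ g : Γ, Measurable fun v => ψ ((((g : GG n)⁻¹ : GG n) : Op n) v) :=
    fun g => hψ.meas.comp (ContinuousLinearMap.continuous _).measurable
  have hsi : ∀ g : Γ, ∀ c : ℂ, c ≠ 0 → ∀ v, ψ ((((g : GG n)⁻¹ : GG n) : Op n) (c • v)) =
      ψ ((((g : GG n)⁻¹ : GG n) : Op n) v) := fun g c hc v => by rw [map_smul, hψ.sinv c hc]
  have hm2 : ∀ g : Γ, Measurable fun v =>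
      a7b_F w G y v * ((ψ ((((g : GG n)⁻¹ : GG n) : Op n) v)).toReal : ℂ) :=
    fun g => hF.mul (Complex.measurable_ofReal.comp (hmi g).ennreal_toReal)
  have hs2 : ∀ g : Γ, ∀ c : ℂ, c ≠ 0 → ∀ v,
      a7b_F w G y (c • v) * ((ψ ((((g : GG n)⁻¹ : GG n) : Op n) (c • v))).toReal : ℂ) =
        a7b_F w G y v * ((ψ ((((g : GG n)⁻¹ : GG n) : Op n) v)).toReal : ℂ) :=
    fun g c hc v => by rw [a7b_smul hG y hc, hsi g c hc]
  have hm1 : ∀ g : Γ, Measurable fun v =>
      a7b_F w G y (((g : GG n) : Op n) v) * ((ψ v).toReal : ℂ) :=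
    fun g => (hF.comp (ContinuousLinearMap.continuous _).measurable).mul
      (Complex.measurable_ofReal.comp hψ.meas.ennreal_toReal)
  have hfin2 : ∑' g : Γ, ∫⁻ v, ‖a7b_F w G y v *
      ((ψ ((((g : GG n)⁻¹ : GG n) : Op n) v)).toReal : ℂ)‖ₑ ∂(nu n) ≠ ⊤ := by
    rw [← lintegral_tsum fun g => (hm2 g).enorm.aemeasurable]
    refine ne_top_of_le_ne_top hint.2.ne (lintegral_mono_ae ?_)
    filter_upwards [ae_nu (n := n)] with v hv
    calc ∑' g : Γ, ‖a7b_F w G y v * ((ψ ((((g : GG n)⁻¹ : GG n) : Op n) v)).toReal : ℂ)‖ₑ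
        ≤ ∑' g : Γ, ‖a7b_F w G y v‖ₑ * ψ ((((g : GG n)⁻¹ : GG n) : Op n) v) := by
          refine ENNReal.tsum_le_tsum fun g => ?_
          rw [enorm_mul]
          refine mul_le_mul_right ?_ _
          rw [← ofReal_norm, Complex.norm_real, Real.norm_eq_abs,
            abs_of_nonneg ENNReal.toReal_nonneg]
          exact ENNReal.ofReal_toReal_le
      _ = ‖a7b_F w G y v‖ₑ := by rw [ENNReal.tsum_mul_left, a7b_sum_inv hψ hv.1, mul_one]
  have hfin1 : ∑' g : Γ, ∫⁻ v, ‖a7b_F w G y (((g : GG n) : Op n) v) * ((ψ v).toReal : ℂ)‖ₑ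
      ∂(nu n) ≠ ⊤ := by
    convert hfin2 using 2 with g
    ext g
    rw [← lintegral_isom (hΓ.isom g g.2) (hm2 g).enorm (fun c hc v => by rw [hs2 g c hc])]
    simp only [inv_apply_apply]
  calc ∫ v, G v * conj (poin Γ w y v) * ((NN v ^ w * (ψ v).toReal : ℝ) : ℂ) ∂(nu n)
      = ∫ v, ∑' g : Γ, a7b_F w G y (((g : GG n) : Op n) v) * ((ψ v).toReal : ℂ) ∂(nu n) := by
        refine integral_congr_ae (Eventually.of_forall fun v => ?_)
        simp only [poin, Complex.conj_tsum, ← tsum_mul_left, ← tsum_mul_right]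
        refine tsum_congr fun g => ?_
        rw [a7b_F, hi g g.2, (hΓ.isom g g.2).NN_apply, Complex.ofReal_mul]
        ring
    _ = ∑' g : Γ, ∫ v, a7b_F w G y (((g : GG n) : Op n) v) * ((ψ v).toReal : ℂ) ∂(nu n) :=
        integral_tsum (fun g => (hm1 g).aestronglyMeasurable) hfin1
    _ = ∑' g : Γ, ∫ v, a7b_F w G y v *
          ((ψ ((((g : GG n)⁻¹ : GG n) : Op n) v)).toReal : ℂ) ∂(nu n) := by
        refine tsum_congr fun g => ?_
        rw [← a7b_integral (hΓ.isom g g.2) (hm2 g) (hs2 g)]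
        simp only [inv_apply_apply]
    _ = ∫ v, ∑' g : Γ, a7b_F w G y v *
          ((ψ ((((g : GG n)⁻¹ : GG n) : Op n) v)).toReal : ℂ) ∂(nu n) :=
        (integral_tsum (fun g => (hm2 g).aestronglyMeasurable) hfin2).symm
    _ = ∫ v, a7b_F w G y v ∂(nu n) := by
        refine integral_congr_ae ?_
        filter_upwards [ae_nu (n := n)] with v hv
        have h1 := a7b_sum_inv hψ hv.1
        rw [tsum_mul_left, ← Complex.ofReal_tsum, ← ENNReal.tsum_toReal_eq, h1]
        · simp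
        · intro g
          refine ne_top_of_le_ne_top ENNReal.one_ne_top ?_
          rw [← h1]
          exact ENNReal.le_tsum g
    _ = _ := hrep

theorem tendsto_poin {Γ : Subgroup (GG n)} (hΓ : Proper Γ) {y : V n} (hy : y ∈ Neg n)
    (hfree : ∀ g ∈ Γ, (∃ c : ℂ, (g : Op n) y = c • y) → IsScalar (g : Op n)) :
    Tendsto (fun k : ℕ => poin Γ (k * (n + 1)) y y * ((NN y ^ (k * (n + 1)) : ℝ) : ℂ)) atTop
      (𝓝 ((zc Γ).toReal : ℂ)) := by
  classical
  have hy0 : 0 < NN y := hy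
  have hyc : (NN y : ℂ) ≠ 0 := Complex.ofReal_ne_zero.mpr hy0.ne'
  have hgy : ∀ g : Γ, ((g : GG n) : Op n) y ∈ Neg n := fun g => (hΓ.isom g g.2).mem_Neg.mpr hy
  set a : Γ → ℂ := fun g => (-form (((g : GG n) : Op n) y) y)⁻¹ * NN y with ha
  have hsq : ∀ g : Γ, ‖a g‖ ^ 2 = (CC (((g : GG n) : Op n) y) y)⁻¹ := by
    intro g
    have := a7a_form_ne hy (hgy g)
    rw [ha, CC, (hΓ.isom g g.2).NN_apply, norm_mul, norm_inv, norm_neg, Complex.norm_real,
      Real.norm_eq_abs, abs_of_pos hy0, inv_div, mul_pow, inv_pow, div_eq_inv_mul, sq (NN y)]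
  have hle : ∀ g : Γ, ‖a g‖ ≤ 1 := by
    intro g
    have h1 : ‖a g‖ ^ 2 ≤ 1 := by
      rw [hsq]
      exact inv_le_one_of_one_le₀ (one_le_CC (hgy g) hy)
    exact (sq_le_one_iff₀ (norm_nonneg _)).mp h1
  have e1 : ∀ k : ℕ, poin Γ (k * (n + 1)) y y * ((NN y ^ (k * (n + 1)) : ℝ) : ℂ) =
      ∑' g : Γ, a g ^ (k * (n + 1)) := by
    intro k
    rw [poin, ← tsum_mul_right]
    refine tsum_congr fun g => ?_
    rw [kern, Set.indicator_of_mem (hgy g), ha, mul_pow, Complex.ofReal_pow]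
  have e2 : ((zc Γ).toReal : ℂ) =
      ∑' g : Γ, (if IsScalar ((g : GG n) : Op n) then 1 else 0 : ℂ) := by
    rw [zc, ENNReal.tsum_toReal_eq (fun g => by split_ifs <;> simp), Complex.ofReal_tsum]
    refine tsum_congr fun g => ?_
    split_ifs <;> simp
  simp only [e1]
  rw [e2]
  obtain ⟨K, hK, hK'⟩ := a7a_sum hΓ hy
  have hsum : Summable fun g : Γ => a7a_b y (((g : GG n) : Op n) y) := by
    have := ENNReal.summable_toReal (ne_top_of_le_ne_top hK (hK' y hy))
    simpa only [ENNReal.toReal_ofReal (a7a_b_nonneg hy (hgy _))] using this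
  refine tendsto_tsum_of_dominated_convergence hsum (fun g => ?_) ?_
  · split_ifs with hs
    · obtain ⟨c, hc⟩ := hs
      have hd := hΓ.det g g.2
      rw [hc, det_smul'] at hd
      have hd1 : (1 : Op n).det = 1 := by
        have := det_one_add_rk1 (n := n) 0 0 0
        simpa using this
      rw [hd1, mul_one] at hd
      have hag : a g = c⁻¹ := by
        simp only [ha, hc, smul_apply, one_apply_eq_self, form_smul_left, form_self, mul_neg,
          neg_neg, mul_inv]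
        rw [mul_assoc, inv_mul_cancel₀ hyc, mul_one]
      have : ∀ k : ℕ, a g ^ (k * (n + 1)) = 1 := by
        intro k
        rw [hag, mul_comm, pow_mul, inv_pow, hd, inv_one, one_pow]
      simp only [this]
      exact tendsto_const_nhds
    · have hlt : ‖a g‖ < 1 := by
        refine lt_of_le_of_ne (hle g) fun h1 => hs (hfree g g.2 ?_)
        have h2 := hsq g
        rw [h1, one_pow, eq_comm, inv_eq_one, CC_comm] at h2
        exact eq_smul_of_CC hy (hgy g) h2.le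
      refine (tendsto_pow_atTop_nhds_zero_of_norm_lt_one hlt).comp ?_
      exact tendsto_atTop_mono (fun k => Nat.le_mul_of_pos_right k (Nat.succ_pos n)) tendsto_id
  · filter_upwards [eventually_ge_atTop 2] with k hk g
    rw [norm_pow, a7a_b, ← hsq, ← pow_mul]
    exact pow_le_pow_of_le_one (norm_nonneg _) (hle g) (Nat.mul_le_mul_right _ hk)

end BallQ
end
end

-- merged part: Pool.Agent.Work.MP_72250f_ag.A7
section
/-!
Poincare series and the lower bound. For v, y in Neg: |kern w y v|^2 NN v ^ w = NN y ^ -w CC v y ^ -w. With w = k (n+1), k >= 4,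
the Petersson norm of a term is at most const CC (g v) y ^ -(2(n+1)); schur (applied with g^-1) gives summability, locally uniformly
(CC_tri), so poin is holomorphic (differentiableOn_tsum_of_bdd). dec: cnt x 4 * CC (g x) y ^ -(n+1) <= 16^(n+1) sum over h of CC (h g x) y ^ -(n+1)
<= const by schur, so cnt * |poin| is bounded. inner_poin: unfolding (integral_tsum, measurePreserving_actV) and reproducing.
lower_bound: the good forms form a submodule A0; if it is infinite dimensional take a big finite dimensional subspace (massF is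
nonzero and finite). Otherwise take an orthonormal basis G_i for the weighted inner product; inner_poin gives
poin y y = massF * sum |G_i y|^2, so finrank * massF = integral of Re (poin y y) NN y ^ w psi. For y with trivial stabiliser
poin y y NN y ^ w = sum over g of (NN y / -<g y, y>)^w tends to zc (scalars c in Gamma have c^(n+1) = 1 by det = 1;
tendsto_tsum_of_dominated_convergence). Fatou (lintegral_liminf_le).
-/

open scoped ComplexConjugate ENNReal Topology
open MeasureTheory Filter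

noncomputable section

namespace BallQ

variable {n : ℕ}

theorem a7_onb {A : Type*} [AddCommGroup A] [Module ℂ A] [FiniteDimensional ℂ A]
    (c : InnerProductSpace.Core ℂ A) :
    ∃ e : Fin (Module.finrank ℂ A) → A, (∀ i, c.inner (e i) (e i) = 1) ∧
      ∀ x, x = ∑ i, c.inner (e i) x • e i := by
  let _ : NormedAddCommGroup A := InnerProductSpace.Core.toNormedAddCommGroup (cd := c)
  let _ : InnerProductSpace ℂ A := InnerProductSpace.ofCore c.toCore
  let b := stdOrthonormalBasis ℂ A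
  refine ⟨b, fun i => ?_, fun x => ?_⟩
  · have h := (orthonormal_iff_ite.mp b.orthonormal) i i
    rw [if_pos rfl] at h
    exact h
  · exact (b.sum_repr' x).symm

theorem a7_sub {X : Type*} [AddCommGroup X] [Module ℂ X] (A : Submodule ℂ X)
    (h : ¬ FiniteDimensional ℂ A) (N : ℕ) :
    ∃ B : Submodule ℂ X, B ≤ A ∧ FiniteDimensional ℂ B ∧ Module.finrank ℂ B = N := by
  have h1 : (N : Cardinal) ≤ Module.rank ℂ A := by
    have : Cardinal.aleph0 ≤ Module.rank ℂ A := by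
      by_contra hh
      exact h (Module.rank_lt_aleph0_iff.mp (not_le.mp hh))
    exact (Cardinal.natCast_lt_aleph0).le.trans this
  obtain ⟨f, hf⟩ := exists_linearIndependent_of_le_rank h1
  have hf' : LinearIndependent ℂ (fun i => (f i : X)) := hf.map' A.subtype A.ker_subtype
  refine ⟨Submodule.span ℂ (Set.range fun i => (f i : X)), ?_, ?_, ?_⟩
  · rw [Submodule.span_le]
    rintro _ ⟨i, rfl⟩
    exact (f i).2
  · exact FiniteDimensional.span_of_finite ℂ (Set.finite_range _)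
  · rw [finrank_span_eq_card hf', Fintype.card_fin]

theorem a7_meas_rho {ψ : V n → ℝ≥0∞} (hψ : Measurable ψ) (w : ℕ) :
    Measurable fun v : V n => NN v ^ w * (ψ v).toReal :=
  (continuous_NN.measurable.pow_const w).mul hψ.ennreal_toReal

theorem a7_integrable {ψ : V n → ℝ≥0∞} (hψ : Measurable ψ) (hv : ∫⁻ v, ψ v ∂(nu n) ≠ ⊤) {w : ℕ}
    {G H : V n → ℂ} (hG : IsHol w G) (hH : IsHol w H) :
    Integrable (fun v => G v * conj (H v) * ((NN v ^ w * (ψ v).toReal : ℝ) : ℂ)) (nu n) := by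
  obtain ⟨B, hB⟩ := hG.bdd
  obtain ⟨B', hB'⟩ := hH.bdd
  have h0 : Integrable (fun v => (ψ v).toReal) (nu n) :=
    integrable_toReal_of_lintegral_ne_top hψ.aemeasurable hv
  refine Integrable.mono' (h0.const_mul ((B + B') / 2)) ?_ ?_
  · exact ((hG.measurable.mul (Complex.continuous_conj.measurable.comp hH.measurable)).mul
      (Complex.measurable_ofReal.comp (a7_meas_rho hψ w))).aestronglyMeasurable
  · filter_upwards [ae_nu (n := n)] with v hv
    have hN : 0 < NN v := hv.1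
    have hp : 0 ≤ NN v ^ w := by positivity
    have ht : 0 ≤ (ψ v).toReal := ENNReal.toReal_nonneg
    rw [norm_mul, norm_mul, Complex.norm_conj, Complex.norm_real, Real.norm_eq_abs,
      abs_of_nonneg (mul_nonneg hp ht), ← mul_assoc]
    refine mul_le_mul_of_nonneg_right ?_ ht
    have h1 := hB v hv.1
    have h2 := hB' v hv.1
    nlinarith [mul_nonneg (sq_nonneg (‖G v‖ - ‖H v‖)) hp]

theorem a7_self (w : ℕ) (ψ : V n → ℝ≥0∞) (G : V n → ℂ) :
    ∫ v, G v * conj (G v) * ((NN v ^ w * (ψ v).toReal : ℝ) : ℂ) ∂(nu n) =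
      ((∫ v, ‖G v‖ ^ 2 * (NN v ^ w * (ψ v).toReal) ∂(nu n) : ℝ) : ℂ) := by
  rw [← integral_complex_ofReal]
  refine integral_congr_ae (Eventually.of_forall fun v => ?_)
  simp only [Complex.mul_conj, Complex.normSq_eq_norm_sq]
  push_cast
  ring

theorem a7_nonneg (w : ℕ) (ψ : V n → ℝ≥0∞) (G : V n → ℂ) :
    0 ≤ᵐ[nu n] fun v => ‖G v‖ ^ 2 * (NN v ^ w * (ψ v).toReal) := by
  filter_upwards [ae_nu (n := n)] with v hv
  have hN : 0 < NN v := hv.1
  have ht : 0 ≤ (ψ v).toReal := ENNReal.toReal_nonneg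
  positivity

theorem a7_lint {ψ : V n → ℝ≥0∞} (hψ : Measurable ψ) (hv : ∫⁻ v, ψ v ∂(nu n) ≠ ⊤) {w : ℕ}
    {G : V n → ℂ} (hG : IsHol w G) :
    ∫⁻ v, petE w G v * ψ v ∂(nu n) =
      ENNReal.ofReal (∫ v, ‖G v‖ ^ 2 * (NN v ^ w * (ψ v).toReal) ∂(nu n)) := by
  have hi : Integrable (fun v => ‖G v‖ ^ 2 * (NN v ^ w * (ψ v).toReal)) (nu n) := by
    refine (a7_integrable hψ hv hG hG).re.congr (Eventually.of_forall fun v => ?_)
    simp only [Complex.mul_conj, Complex.normSq_eq_norm_sq, RCLike.re_to_complex,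
      ← Complex.ofReal_mul, Complex.ofReal_re]
  rw [ofReal_integral_eq_lintegral_ofReal hi (a7_nonneg w ψ G)]
  refine lintegral_congr_ae ?_
  filter_upwards [ae_nu (n := n), ae_lt_top hψ hv] with v hv1 hv2
  have hN : 0 < NN v := hv1.1
  rw [← mul_assoc, ENNReal.ofReal_mul (by positivity), ENNReal.ofReal_toReal hv2.ne, petE]

theorem a7_eq_zero {w : ℕ} {G : V n → ℂ} (hG : IsHol w G) (h : ∀ᵐ v ∂(nu n), petE w G v = 0) :
    G = 0 := by
  by_contra hne
  obtain ⟨x, hx⟩ := Function.ne_iff.mp hne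
  have hxN : x ∈ Neg n := by
    by_contra hh
    exact hx (hG.zero x hh)
  have hO : IsOpen (Neg n ∩ G ⁻¹' {0}ᶜ) :=
    hG.diff.continuousOn.isOpen_inter_preimage isOpen_Neg isOpen_compl_singleton
  have hc : IsCone (Neg n ∩ G ⁻¹' {0}ᶜ) := by
    intro c hc v hv
    refine ⟨smul_mem_Neg hc hv.1, ?_⟩
    have h2 : G v ≠ 0 := hv.2
    show G (c • v) ≠ 0
    rw [hG.hom c hc]
    exact mul_ne_zero (pow_ne_zero _ (inv_ne_zero hc)) h2
  refine nu_open_ne_zero hO hc ⟨x, ⟨hxN, hx⟩, hxN⟩ ?_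
  refine measure_mono_null (fun v hv => ?_) (ae_iff.mp h)
  have hN : 0 < NN v := hv.1
  have h2 : G v ≠ 0 := hv.2
  have h3 : 0 < ‖G v‖ := norm_pos_iff.mpr h2
  show ¬ petE w G v = 0
  rw [petE, ENNReal.ofReal_eq_zero, not_le]
  positivity

theorem a7_massF_ne_zero (w : ℕ) : massF n w ≠ 0 := fun h =>
  mass0_ne_zero (n := n) w one_pos (le_antisymm (h ▸ mass0_le w 1) (zero_le))

theorem a7_trace {Γ : Subgroup (GG n)} (hΓ : Proper Γ) {ψ : V n → ℝ≥0∞} (hψ : IsWeight Γ ψ)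
    (hv : ∫⁻ v, ψ v ∂(nu n) ≠ ⊤) {k : ℕ} (hk : 4 ≤ k) (A : Submodule ℂ (V n → ℂ))
    [FiniteDimensional ℂ A] (hA : ∀ G, G ∈ A ↔ IsGood Γ k G) :
    ∃ f : V n → ℝ≥0∞, Measurable f ∧ (∀ y ∈ Neg n, f y = ENNReal.ofReal
      (poin Γ (k * (n + 1)) y y * ((NN y ^ (k * (n + 1)) : ℝ) : ℂ)).re * ψ y) ∧
      ∫⁻ v, f v ∂(nu n) = (Module.finrank ℂ A : ℝ≥0∞) * massF n (k * (n + 1)) := by
  set w := k * (n + 1) with hw
  have hol : ∀ G : A, IsHol w (G : V n → ℂ) := fun G => ((hA G).mp G.2).hol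
  let c : InnerProductSpace.Core ℂ A :=
    { inner := fun G H => ∫ v, (H : V n → ℂ) v * conj ((G : V n → ℂ) v) *
        ((NN v ^ w * (ψ v).toReal : ℝ) : ℂ) ∂(nu n)
      conj_inner_symm := by
        intro G H
        rw [← integral_conj]
        refine integral_congr_ae (Eventually.of_forall fun v => ?_)
        simp only [map_mul, Complex.conj_conj, Complex.conj_ofReal]
        ring
      re_inner_nonneg := by
        intro G
        rw [a7_self, RCLike.re_to_complex, Complex.ofReal_re]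
        exact integral_nonneg_of_ae (a7_nonneg w ψ _)
      add_left := by
        intro G H K
        rw [← integral_add (a7_integrable hψ.meas hv (hol K) (hol G))
          (a7_integrable hψ.meas hv (hol K) (hol H))]
        refine integral_congr_ae (Eventually.of_forall fun v => ?_)
        simp only [Submodule.coe_add, Pi.add_apply, map_add]
        ring
      smul_left := by
        intro G H r
        rw [← integral_const_mul]
        refine integral_congr_ae (Eventually.of_forall fun v => ?_)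
        simp only [Submodule.coe_smul, Pi.smul_apply, smul_eq_mul, map_mul]
        ring
      definite := by
        intro G hG
        have h1 := a7_lint hψ.meas hv (hol G)
        rw [a7_self, Complex.ofReal_eq_zero] at hG
        rw [hG, ENNReal.ofReal_zero] at h1
        exact Subtype.ext (a7_eq_zero (hol G)
          (ae_zero_of_weight hΓ hψ ((hol G).invF hΓ ((hA G).mp G.2).inv) h1)) }
  obtain ⟨e, he1, he2⟩ := a7_onb c
  have hwn : n + 1 ≤ w := by
    rw [hw]
    nlinarith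
  have hm := massF_ne_top (n := n) hwn
  have hmeas : ∀ i, Measurable (petE w (e i : V n → ℂ)) :=
    fun i => ((hol (e i)).invF hΓ ((hA _).mp (e i).2).inv).meas
  refine ⟨fun v => ∑ i, massF n w * (petE w (e i : V n → ℂ) v * ψ v), ?_, ?_, ?_⟩
  · exact Finset.measurable_sum _ fun i _ => ((hmeas i).mul hψ.meas).const_mul _
  · intro y hy
    have hN : 0 < NN y := hy
    let P : A := ⟨poin Γ w y, (hA _).mpr (isGood_poin hΓ hk hy)⟩
    have h1 : ∀ i, c.inner (e i) P = ((massF n w).toReal : ℂ) * conj ((e i : V n → ℂ) y) := by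
      intro i
      rw [← c.conj_inner_symm]
      have := inner_poin hΓ hψ hk (hol (e i)) ((hA _).mp (e i).2).inv hy
      have h2 : c.inner P (e i) = ((massF n w).toReal : ℂ) * (e i : V n → ℂ) y := this
      rw [h2, map_mul, Complex.conj_ofReal]
    have h2 : poin Γ w y y =
        ((∑ i, (massF n w).toReal * ‖(e i : V n → ℂ) y‖ ^ 2 : ℝ) : ℂ) := by
      have h3 := congrArg (fun G : A => (G : V n → ℂ) y) (he2 P)
      simp only [h1, Submodule.coe_sum, Submodule.coe_smul, Finset.sum_apply, Pi.smul_apply,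
        smul_eq_mul] at h3
      refine Eq.trans h3 ?_
      push_cast
      refine Finset.sum_congr rfl fun i _ => ?_
      rw [mul_assoc, Complex.conj_mul']
    rw [h2, ← Complex.ofReal_mul, Complex.ofReal_re, Finset.sum_mul,
      ENNReal.ofReal_sum_of_nonneg (fun i _ => by positivity), Finset.sum_mul]
    refine Finset.sum_congr rfl fun i _ => ?_
    rw [mul_assoc (massF n w).toReal, ENNReal.ofReal_mul ENNReal.toReal_nonneg,
      ENNReal.ofReal_toReal hm, petE, mul_assoc]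
  · have hm2 : ∀ i, Measurable fun v => petE w (e i : V n → ℂ) v * ψ v :=
      fun i => (hmeas i).mul hψ.meas
    show ∫⁻ v, ∑ i, massF n w * (petE w (e i : V n → ℂ) v * ψ v) ∂(nu n) = _
    rw [lintegral_finsetSum _ fun i _ => (hm2 i).const_mul _]
    have h1 : ∀ i, ∫⁻ v, massF n w * (petE w (e i : V n → ℂ) v * ψ v) ∂(nu n) = massF n w := by
      intro i
      rw [lintegral_const_mul _ (hm2 i), a7_lint hψ.meas hv (hol (e i))]
      have h2 : ∫ v, (e i : V n → ℂ) v * conj ((e i : V n → ℂ) v) *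
        ((NN v ^ w * (ψ v).toReal : ℝ) : ℂ) ∂(nu n) = 1 := he1 i
      rw [a7_self, Complex.ofReal_eq_one] at h2
      rw [h2, ENNReal.ofReal_one, mul_one]
    simp only [h1, Finset.sum_const, Finset.card_univ, Fintype.card_fin, nsmul_eq_mul]

/-- The space of all good forms. -/
def a7_good {Γ : Subgroup (GG n)} (hΓ : Proper Γ) {k : ℕ} (hk : 4 ≤ k) :
    Submodule ℂ (V n → ℂ) where
  carrier := {G | IsGood Γ k G}
  add_mem' := fun hG hH => IsGood.add hG hH
  zero_mem' := by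
    have := (isGood_poin hΓ hk oo_mem_Neg).smul 0
    rwa [zero_smul] at this
  smul_mem' := fun c _ hG => IsGood.smul hG c

theorem lower_bound {Γ : Subgroup (GG n)} (hΓ : Proper Γ) {ψ : V n → ℝ≥0∞} (hψ : IsWeight Γ ψ)
    (hv : ∫⁻ v, ψ v ∂(nu n) ≠ ⊤) :
    ∀ᶠ k : ℕ in atTop, ∃ A : Submodule ℂ (V n → ℂ), FiniteDimensional ℂ A ∧
      (∀ G ∈ A, IsGood Γ k G) ∧
      3 * (zc Γ * ∫⁻ v, ψ v ∂(nu n)) ≤
        4 * ((Module.finrank ℂ A : ℝ≥0∞) * massF n (k * (n + 1))) := by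
  set Z : ℝ≥0∞ := zc Γ * ∫⁻ v, ψ v ∂(nu n) with hZ
  have hZt : Z ≠ ⊤ := ENNReal.mul_ne_top (zc_ne_top hΓ) hv
  have hZ0 : Z ≠ 0 :=
    mul_ne_zero (lt_of_lt_of_le zero_lt_one (one_le_zc Γ)).ne' (weight_ne_zero hΓ hψ)
  by_contra hcon
  let bad : Set ℕ := {k | 4 ≤ k ∧ ¬ ∃ A : Submodule ℂ (V n → ℂ), FiniteDimensional ℂ A ∧
      (∀ G ∈ A, IsGood Γ k G) ∧
      3 * Z ≤ 4 * ((Module.finrank ℂ A : ℝ≥0∞) * massF n (k * (n + 1)))}
  have hfr : ∃ᶠ k in atTop, k ∈ bad :=
    ((eventually_ge_atTop 4).and_frequently (not_eventually.mp hcon))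
  have hex : ∀ k : ℕ, ∃ f : V n → ℝ≥0∞, Measurable f ∧ (k ∈ bad → (∀ y ∈ Neg n, f y =
      ENNReal.ofReal (poin Γ (k * (n + 1)) y y * ((NN y ^ (k * (n + 1)) : ℝ) : ℂ)).re * ψ y) ∧
      ∫⁻ v, f v ∂(nu n) ≤ 3 * Z / 4) := by
    intro k
    by_cases hb : k ∈ bad
    · obtain ⟨hk, hb⟩ := hb
      by_cases hfd : FiniteDimensional ℂ (a7_good hΓ hk)
      · obtain ⟨f, hf1, hf2, hf3⟩ := a7_trace hΓ hψ hv hk (a7_good hΓ hk) (fun _ => Iff.rfl)
        refine ⟨f, hf1, fun _ => ⟨hf2, ?_⟩⟩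
        rw [hf3, ENNReal.le_div_iff_mul_le (Or.inl (by norm_num)) (Or.inl (by norm_num)),
          mul_comm]
        by_contra hh
        exact hb ⟨a7_good hΓ hk, hfd, fun _ hG => hG, (not_le.mp hh).le⟩
      · exfalso
        obtain ⟨N, hN⟩ := ENNReal.exists_nat_mul_gt (a7_massF_ne_zero (n := n) (k * (n + 1))) hZt
        obtain ⟨B, hB1, hB2, hB3⟩ := a7_sub _ hfd N
        refine hb ⟨B, hB2, fun G hG => hB1 hG, ?_⟩
        rw [hB3]
        exact mul_le_mul' (by norm_num) hN.le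
    · exact ⟨0, measurable_zero, fun h => absurd h hb⟩
  choose f hf1 hf2 using hex
  have : (atTop ⊓ 𝓟 bad).NeBot := frequently_mem_iff_neBot.mp hfr
  have hb : ∀ᶠ k in atTop ⊓ 𝓟 bad, k ∈ bad := mem_inf_of_right (mem_principal_self _)
  have h1 := lintegral_liminf_le (μ := nu n) (u := atTop ⊓ 𝓟 bad) hf1
  have h2 : liminf (fun k => ∫⁻ v, f k v ∂(nu n)) (atTop ⊓ 𝓟 bad) ≤ 3 * Z / 4 :=
    liminf_le_of_frequently_le' (hb.mono fun k hk => (hf2 k hk).2).frequently
  have h3 : ∫⁻ v, liminf (fun k => f k v) (atTop ⊓ 𝓟 bad) ∂(nu n) = Z := by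
    rw [hZ, ← lintegral_const_mul _ hψ.meas]
    refine lintegral_congr_ae ?_
    filter_upwards [ae_free hΓ, ae_lt_top hψ.meas hv] with y hy hy2
    have t1 := (Complex.continuous_re.tendsto _).comp (tendsto_poin hΓ hy.1 hy.2)
    have t2 := ENNReal.tendsto_ofReal t1
    rw [Complex.ofReal_re, ENNReal.ofReal_toReal (zc_ne_top hΓ)] at t2
    have t3 := ENNReal.Tendsto.mul_const (b := ψ y) t2 (Or.inr hy2.ne)
    have t4 : Tendsto (fun k => f k y) (atTop ⊓ 𝓟 bad) (𝓝 (zc Γ * ψ y)) :=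
      (t3.mono_left inf_le_left).congr' (hb.mono fun k hk => ((hf2 k hk).1 y hy.1).symm)
    exact t4.liminf_eq
  rw [h3] at h1
  have h4 := h1.trans h2
  rw [ENNReal.le_div_iff_mul_le (Or.inl (by norm_num)) (Or.inl (by norm_num)), mul_comm] at h4
  have h5 : (4 : ℝ≥0∞) ≤ 3 := (ENNReal.mul_le_mul_iff_left hZ0 hZt).mp h4
  norm_num at h5

end BallQ
end
end

-- merged part: Pool.Agent.Work.MP_72250f_ag.F2
section
/-!
Bridge from PU(n,1) to proper groups of operators. toOp A = the operator with matrix A in the basis (bas n).toBasis (Matrix.toLin, LinearMap.toContinuousLinearMap), so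
co (toOp A v) i = (A.mulVec (co v)) i; this gives a monoid homomorphism ph from U n to GG n whose values are isometries (form v w = star (co w) dot J (co v)),
with act (ph u) z = BallLattice.act u z. Lam = {g | det g = 1 and g = ph u for some u with (u : PU n) in Gamma}. For u in U n pick a unit c with
c^(n+1) det u = 1 (norm_det, IsAlgClosed.exists_pow_nat_eq); the scalar matrix c is in the centre of U n, so c u has the same class, and act_smul.
The centre consists of scalars: a central u commutes with the matrices of the reflections refl e (every isometry is ph of its matrix), so every positive vector is an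
eigenvector (n >= 1: the open set NN < 0 is nonempty), isScalar_of_open. Finiteness: the set K of u in U n with |u_00|^2 <= R is compact (norm_isom_le bounds
the entries of u and of u^-1; Units.isEmbedding_embedProduct / closed embedding into a product of two matrix spaces). Discreteness gives an open
nbhd N of 1 in U n whose elements with class in Gamma are central; cover K by finitely many sets u N' with N'^-1 N' in N; two elements of Lam in the same set differ by a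
scalar c with c^(n+1) = 1. Alternatively argue by contradiction with a convergent subsequence.
-/

open scoped ComplexConjugate ENNReal Topology
open MeasureTheory Filter

noncomputable section

namespace BallQ

variable {n : ℕ}

open scoped Matrix
open BallLattice (J U PU)

/-- Matrices as operators. -/
def f2_eq (n : ℕ) : Matrix (Option (Fin n)) (Option (Fin n)) ℂ ≃ₐ[ℂ] Op n :=
  (Matrix.toLinAlgEquiv (bas n).toBasis).trans (Module.End.toContinuousLinearMap (V n))

theorem f2_co (A : Matrix (Option (Fin n)) (Option (Fin n)) ℂ) (v : V n) :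
    co (f2_eq n A v) = A *ᵥ co v := by
  funext i
  have h : f2_eq n A v = Matrix.toLin (bas n).toBasis (bas n).toBasis A v := rfl
  have h2 := congrFun (Matrix.repr_toLin (bas n).toBasis (bas n).toBasis A v) i
  rw [h]
  exact h2

theorem f2_form (v w : V n) : form v w = star (co w) ⬝ᵥ (J n *ᵥ co v) := by
  simp only [form, dotProduct, J, Matrix.mulVec_diagonal, Fintype.sum_option, Option.elim,
    Pi.star_apply, RCLike.star_def]
  rw [add_comm, sub_eq_add_neg]
  congr 1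
  · exact Finset.sum_congr rfl fun i _ => by ring
  · ring

theorem f2_isom {A : Matrix (Option (Fin n)) (Option (Fin n)) ℂ} :
    IsIsom (f2_eq n A) ↔ Aᴴ * J n * A = J n := by
  have h : ∀ v w, form (f2_eq n A v) (f2_eq n A w) = star (co w) ⬝ᵥ ((Aᴴ * J n * A) *ᵥ co v) := by
    intro v w
    rw [f2_form, f2_co, f2_co, Matrix.star_mulVec, ← Matrix.dotProduct_mulVec,
      Matrix.mulVec_mulVec, Matrix.mulVec_mulVec]
  constructor
  · intro hA
    ext i j
    have h1 := hA (bas n j) (bas n i)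
    have h2 : ∀ k, co (bas n k) = Pi.single k 1 := fun k => by
      funext l
      rw [co_bas, Pi.single_apply]
    rw [h, f2_form, h2, h2] at h1
    simpa using h1
  · intro hA v w
    rw [h, hA, f2_form]

theorem f2_JJ : J n * J n = 1 := by
  rw [J, Matrix.diagonal_mul_diagonal, ← Matrix.diagonal_one]
  congr 1
  funext i
  cases i <;> simp

theorem f2_inv {A : Matrix (Option (Fin n)) (Option (Fin n)) ℂ} (h : Aᴴ * J n * A = J n) :
    J n * Aᴴ * J n * A = 1 := by
  rw [Matrix.mul_assoc (J n), Matrix.mul_assoc (J n), h, f2_JJ]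

theorem f2_symm (T : {T : Op n // IsIsom T}) :
    ((f2_eq n).symm T.1)ᴴ * J n * (f2_eq n).symm T.1 = J n :=
  f2_isom.mp (by rw [AlgEquiv.apply_symm_apply]; exact T.2)

/-- The matrix of an isometry. -/
def f2_Phi (T : {T : Op n // IsIsom T}) : U n :=
  ⟨⟨(f2_eq n).symm T.1, J n * ((f2_eq n).symm T.1)ᴴ * J n,
    mul_eq_one_comm.mp (f2_inv (f2_symm T)), f2_inv (f2_symm T)⟩, f2_symm T⟩

theorem f2_cont : Continuous (f2_Phi (n := n)) := by
  have h : Continuous fun T : {T : Op n // IsIsom T} => (f2_eq n).symm T.1 :=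
    (LinearMap.continuous_of_finiteDimensional (f2_eq n).symm.toLinearMap).comp
      continuous_subtype_val
  refine Continuous.subtype_mk (Units.continuous_iff.mpr ⟨h, ?_⟩) _
  exact (continuous_const.matrix_mul h.matrix_conjTranspose).matrix_mul continuous_const

/-- The operator of a unitary matrix. -/
def f2_ph (n : ℕ) : U n →* GG n :=
  (Units.map (f2_eq n : Matrix (Option (Fin n)) (Option (Fin n)) ℂ →* Op n)).comp (U n).subtype

theorem f2_ph_val (u : U n) : (f2_ph n u : Op n) = f2_eq n u.val.val := rfl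

theorem f2_ph_isom (u : U n) : IsIsom (f2_ph n u : Op n) := f2_isom.mpr u.2

theorem f2_ph_Phi (T : {T : Op n // IsIsom T}) : (f2_ph n (f2_Phi T) : Op n) = T.1 :=
  (f2_eq n).apply_symm_apply _

theorem f2_ext {u u' : U n} (h : (f2_ph n u : Op n) = f2_ph n u') : u = u' :=
  Subtype.ext (Units.ext ((f2_eq n).injective h))

theorem f2_act (u : U n) (z : E n) : act (f2_ph n u : Op n) z = BallLattice.act u z := by
  have h : co (lift z) = fun j => Option.elim j 1 fun l => z l := funext fun j => co_mkV _ j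
  unfold act proj BallLattice.act
  rw [f2_ph_val, f2_co, h]

theorem f2_scalar (hn : 1 ≤ n) {u : U n} (hu : u ∈ Subgroup.center (U n)) :
    IsScalar (f2_ph n u : Op n) := by
  refine isScalar_of_open (O := {v | NN v < 0}) (isOpen_lt continuous_NN continuous_const)
    ⟨bas n (some ⟨0, hn⟩), ?_⟩ fun v hv => ?_
  · show NN _ < 0
    rw [NN_eq]
    simp [co_bas, apply_ite]
  · have h1 : NN v < 0 := hv
    have h2 : (((√(-NN v))⁻¹ : ℝ) : ℂ) ≠ 0 := by
      exact_mod_cast inv_ne_zero (Real.sqrt_pos.mpr (by linarith)).ne'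
    have h3 : NN ((((√(-NN v))⁻¹ : ℝ) : ℂ) • v) = -1 := by
      rw [NN_smul, Complex.norm_real, Real.norm_eq_abs, sq_abs, inv_pow,
        Real.sq_sqrt (by linarith)]
      have := h1.ne
      field_simp
    generalize (((√(-NN v))⁻¹ : ℝ) : ℂ) = a at h2 h3
    have h4 : form (a • v) (a • v) = 1 := by rw [form_self, h3]; simp
    have h5 := Subgroup.mem_center_iff.mp hu (f2_Phi ⟨_, isIsom_refl h4⟩)
    have h6 := congrArg (fun x : U n => (f2_ph n x : Op n) (a • v)) h5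
    simp only [map_mul, Units.val_mul, f2_ph_Phi, mul_apply_eq_comp, refl_apply, h4, map_sub,
      sub_right_inj] at h6
    refine ⟨form ((f2_ph n u : Op n) (a • v)) (a • v), ?_⟩
    refine smul_right_injective (V n) (mul_ne_zero two_ne_zero h2) ?_
    simp only [map_smul, smul_smul] at h6 ⊢
    rw [mul_one] at h6
    rw [← h6]
    congr 1
    ring

theorem f2_det_one : (1 : Op n).det = 1 := map_one (LinearMap.det (A := ℂ) (M := V n))

theorem f2_norm (u : U n) : ∃ (u' : U n) (c : ℂ), (u' : PU n) = u ∧ c ≠ 0 ∧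
    (f2_ph n u' : Op n) = c • (f2_ph n u : Op n) ∧ (f2_ph n u' : Op n).det = 1 := by
  have h1 := (f2_ph_isom u).norm_det
  have h2 : (f2_ph n u : Op n).det ≠ 0 := by
    intro h
    simp [h] at h1
  obtain ⟨c, hc⟩ := IsAlgClosed.exists_pow_nat_eq ((f2_ph n u : Op n).det)⁻¹ (Nat.succ_pos n)
  have h3 : ‖c‖ = 1 := by
    have := congrArg norm hc
    rw [norm_pow, norm_inv, h1, inv_one] at this
    exact (pow_eq_one_iff_of_nonneg (norm_nonneg _) (Nat.succ_ne_zero n)).mp this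
  have h4 : f2_Phi ⟨_, isIsom_one.smul h3⟩ ∈ Subgroup.center (U n) :=
    Subgroup.mem_center_iff.mpr fun g => f2_ext (by
      simp only [map_mul, Units.val_mul, f2_ph_Phi, mul_smul_comm, smul_mul_assoc, mul_one,
        one_mul])
  have h5 : (f2_ph n (u * f2_Phi ⟨_, isIsom_one.smul h3⟩) : Op n) = c • (f2_ph n u : Op n) := by
    simp only [map_mul, Units.val_mul, f2_ph_Phi, mul_smul_comm, mul_one]
  refine ⟨_, c, QuotientGroup.mk_mul_of_mem _ h4, ?_, h5, ?_⟩
  · rintro rfl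
    simp at h3
  · rw [h5, det_smul', hc, inv_mul_cancel₀ h2]

/-- The lift of a subgroup of `PU(n,1)` to operators of determinant one. -/
def f2_Lam (Γ : Subgroup (PU n)) : Subgroup (GG n) where
  carrier := {g | (g : Op n).det = 1 ∧ ∃ u : U n, (u : PU n) ∈ Γ ∧ f2_ph n u = g}
  one_mem' := ⟨f2_det_one, 1, Γ.one_mem, map_one _⟩
  mul_mem' := by
    rintro a b ⟨h1, u, hu, rfl⟩ ⟨h2, v, hv, rfl⟩
    exact ⟨by rw [Units.val_mul, det_mul', h1, h2, mul_one], u * v, Γ.mul_mem hu hv, map_mul _ _ _⟩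
  inv_mem' := by
    rintro a ⟨h1, u, hu, rfl⟩
    refine ⟨?_, u⁻¹, Γ.inv_mem hu, map_inv _ _⟩
    have := det_mul' (((f2_ph n u)⁻¹ : GG n) : Op n) (f2_ph n u)
    rw [Units.inv_mul, f2_det_one, h1, mul_one] at this
    exact this.symm

theorem f2_small (hn : 1 ≤ n) {Γ : Subgroup (PU n)} (h : DiscreteTopology Γ) :
    ∃ δ : ℝ, 0 < δ ∧ {g : GG n | g ∈ f2_Lam Γ ∧ ‖(g : Op n) - 1‖ < δ}.Finite := by
  obtain ⟨O, hO, h1⟩ := isOpen_induced_iff.mp (isOpen_discrete ({1} : Set Γ))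
  have h2 : IsOpen {T : {T : Op n // IsIsom T} | (f2_Phi T : PU n) ∈ O} :=
    hO.preimage (QuotientGroup.continuous_mk.comp f2_cont)
  have h3 : f2_Phi ⟨1, isIsom_one⟩ = (1 : U n) := f2_ext (by rw [f2_ph_Phi, map_one]; rfl)
  have h4 : (1 : Γ) ∈ Subtype.val ⁻¹' O := h1 ▸ Set.mem_singleton _
  obtain ⟨δ, hδ, h5⟩ := Metric.isOpen_iff.mp h2 ⟨1, isIsom_one⟩ (by
    show ((f2_Phi ⟨1, isIsom_one⟩ : U n) : PU n) ∈ O
    rw [h3]
    exact h4)
  refine ⟨δ, hδ, ?_⟩
  have h6 := ((Polynomial.nthRoots (n + 1) (1 : ℂ)).toFinset.finite_toSet.image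
    fun c => c • (1 : Op n)).preimage (Units.val_injective.injOn)
  refine h6.subset ?_
  rintro g ⟨⟨k1, u, hu, rfl⟩, k2⟩
  have k3 : (f2_Phi ⟨_, f2_ph_isom u⟩ : PU n) ∈ O := h5 (by
    rw [Metric.mem_ball, Subtype.dist_eq, dist_eq_norm]
    exact k2)
  rw [f2_ext (f2_ph_Phi ⟨_, f2_ph_isom u⟩)] at k3
  have k4 : (⟨u, hu⟩ : Γ) ∈ ({1} : Set Γ) := h1 ▸ k3
  obtain ⟨c, hc⟩ := f2_scalar hn ((QuotientGroup.eq_one_iff u).mp (congrArg Subtype.val k4))
  refine ⟨c, ?_, hc.symm⟩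
  rw [hc, det_smul', f2_det_one, mul_one] at k1
  simpa [Polynomial.mem_nthRoots (Nat.succ_pos n)] using k1

theorem f2_fin {Λ : Subgroup (GG n)} (hi : ∀ g ∈ Λ, IsIsom (g : Op n)) {δ : ℝ} (hδ : 0 < δ)
    (hZ : {g : GG n | g ∈ Λ ∧ ‖(g : Op n) - 1‖ < δ}.Finite) (R : ℝ) :
    {g : GG n | g ∈ Λ ∧ CC (oo n) ((g : Op n) (oo n)) ≤ R}.Finite := by
  have hb : ∀ T : Op n, IsIsom T → CC (oo n) (T (oo n)) ≤ R → ‖T‖ ≤ 2 * √R := by
    intro T hT h
    have h1 := Real.sqrt_le_sqrt h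
    have h2 := Real.sqrt_le_sqrt (show CC (oo n) (T (oo n)) - 1 ≤ R by linarith)
    linarith [norm_isom_le hT]
  have : ProperSpace (Op n) := FiniteDimensional.proper ℂ _
  have hR := Real.sqrt_nonneg R
  obtain ⟨t, -, ht, hc⟩ := finite_cover_balls_of_compact (isCompact_closedBall (0 : Op n) (2 * √R))
    (show 0 < δ / (2 * (2 * √R + 1)) by positivity)
  refine (ht.biUnion (t := fun T => {g : GG n | (g ∈ Λ ∧ CC (oo n) ((g : Op n) (oo n)) ≤ R) ∧
    (g : Op n) ∈ Metric.ball T (δ / (2 * (2 * √R + 1)))}) fun T _ => ?_).subset fun g hg => ?_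
  · refine (Set.eq_empty_or_nonempty _).elim (fun h => Set.finite_empty.subset h.subset) ?_
    rintro ⟨a, ⟨a1, a2⟩, a3⟩
    refine (hZ.image fun x => a * x).subset ?_
    rintro g ⟨⟨g1, -⟩, g3⟩
    refine ⟨a⁻¹ * g, ⟨Λ.mul_mem (Λ.inv_mem a1) g1, ?_⟩, mul_inv_cancel_left _ _⟩
    have k1 : ‖((a⁻¹ : GG n) : Op n)‖ ≤ 2 * √R := hb _ (hi a a1).inv (by
      rw [← (hi a a1).CC_apply, apply_inv_apply, CC_comm]
      exact a2)
    have k2 : ‖(g : Op n) - a‖ < δ / (2 * √R + 1) := by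
      rw [← dist_eq_norm]
      refine (dist_triangle_right _ _ T).trans_lt ((add_lt_add g3 a3).trans_le (le_of_eq ?_))
      field_simp
      ring
    have k3 : ((a⁻¹ * g : GG n) : Op n) - 1 = ((a⁻¹ : GG n) : Op n) * ((g : Op n) - a) := by
      rw [mul_sub, Units.inv_mul, Units.val_mul]
    rw [lt_div_iff₀ (by positivity)] at k2
    rw [k3]
    refine (norm_mul_le _ _).trans_lt ?_
    nlinarith [norm_nonneg ((g : Op n) - a)]
  · obtain ⟨T, h1, h2⟩ := Set.mem_iUnion₂.mp (hc (mem_closedBall_zero_iff.mpr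
      (hb _ (hi g hg.1) hg.2)))
    exact Set.mem_biUnion h1 ⟨hg, h2⟩

theorem bridge (hn : 1 ≤ n) {Γ : Subgroup (BallLattice.PU n)} (h : BallLattice.IsLattice Γ) :
    ∃ Λ : Subgroup (GG n), Proper Λ ∧ FinCov Λ ∧ ∀ z ∈ Metric.ball (0 : E n) 1, ∀ w : E n,
      BallLattice.Orb Γ z w ↔ ∃ g ∈ Λ, act (g : Op n) z = w := by
  have hi : ∀ g ∈ f2_Lam Γ, IsIsom (g : Op n) := by
    rintro g ⟨-, u, -, rfl⟩
    exact f2_ph_isom u
  have ho : ∀ z w : E n, BallLattice.Orb Γ z w ↔ ∃ g ∈ f2_Lam Γ, act (g : Op n) z = w := by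
    intro z w
    constructor
    · rintro ⟨u, hu, rfl⟩
      obtain ⟨u', c, h1, h2, h3, h4⟩ := f2_norm u
      exact ⟨f2_ph n u', ⟨h4, u', h1 ▸ hu, rfl⟩, by rw [h3, act_smul h2, f2_act]⟩
    · rintro ⟨g, ⟨-, u, hu, rfl⟩, rfl⟩
      exact ⟨u, hu, (f2_act u z).symm⟩
  obtain ⟨δ, hδ, hZ⟩ := f2_small hn h.discrete
  obtain ⟨D, d1, d2, d3, d4⟩ := h.covol
  refine ⟨f2_Lam Γ, ⟨hi, fun g hg => hg.1, f2_fin hi hδ hZ⟩, ⟨D, d1, d2, d3, fun z hz => ?_⟩,
    fun z _ w => ho z w⟩
  obtain ⟨w, hw, h1⟩ := d4 z hz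
  obtain ⟨g, hg, rfl⟩ := (ho z w).mp h1
  exact ⟨g, hg, hw⟩

end BallQ
end
end

-- merged part: Pool.Agent.Work.MP_72250f_ag.P1
section
/-!
Local structure of the quotient map. exists_nbhd: W = {x in the ball | CC (lift z) (lift x) < 1 + d}; it is invariant under stabPt (smul_lift_act, CC_smul, CC_apply),
contained in O for small d (move z to 0 by exists_isom and use CC_oo_lift, or compactness: CC = 1 only at x = z by eq_smul_of_CC), and for x, act g x in W one has
CC (lift z) (g (lift z)) <= 1 + 8 d (CC_tri_small); the finitely many g with CC <= 9 (fin_two) outside stabPt have CC > 1 (eq_smul_of_CC).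
descend_local: f a = D x for any x in W over a. Near a point act g x0 (x0 in W) one has f (psi x) = D (act g^-1 x); use desc.
det_ne_zero_of_free: with W from exists_nbhd psi is injective on W; descend_local for the coordinates gives f with f (psi x) = x on W; chain rule.
dense_det: ae_free and nu_open_ne_zero (the cone over an open subset of the ball: {v in Neg | proj v in O}).
det_act: chain rule for psi (act g x) = psi x and det_fderiv_act.
-/

open scoped ComplexConjugate ENNReal Topology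
open MeasureTheory Filter

noncomputable section

namespace BallQ

variable {n : ℕ}

theorem p1_det_comp (A B : E n →L[ℂ] E n) : (A.comp B).det = A.det * B.det :=
  LinearMap.det_comp (A : E n →ₗ[ℂ] E n) (B : E n →ₗ[ℂ] E n)

theorem p1_psi_act {Γ : Subgroup (GG n)} {Ω S : Set (E n)} {ψ : E n → E n}
    (h : QMap Γ Ω ψ S) {g : GG n} (hg : g ∈ Γ) {z : E n} (hz : z ∈ Ω) :
    ψ (act (g : Op n) z) = ψ z :=
  ((h.fib z hz _ (h.inv g hg z hz)).mpr ⟨g, hg, rfl⟩).symm

theorem p1_continuousOn_proj : ContinuousOn (proj : V n → E n) (Neg n) := by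
  unfold proj
  refine (PiLp.continuous_toLp 2 _).comp_continuousOn (continuousOn_pi.2 fun i => ?_)
  exact (continuous_co _).continuousOn.div (continuous_co _).continuousOn
    fun v hv => co_none_ne_zero hv

theorem QMap.det_ne_zero_of_free {Γ : Subgroup (GG n)} (hΓ : Proper Γ) {Ω S : Set (E n)}
    {ψ : E n → E n} (h : QMap Γ Ω ψ S) {z : E n} (hz : z ∈ Ω)
    (hf : ∀ g ∈ Γ, (∃ c : ℂ, (g : Op n) (lift z) = c • lift z) → IsScalar (g : Op n)) :
    (fderiv ℂ ψ z).det ≠ 0 := by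
  have : ContinuousSMul ℂ (E n) := IsBoundedSMul.continuousSMul
  obtain ⟨W, hW, hzW, hWΩ, hWb, -, hst⟩ := exists_nbhd hΓ (h.sub hz) (h.isOpen.mem_nhds hz)
  have hfix : ∀ g ∈ Γ, ∀ x ∈ W, act (g : Op n) x ∈ W → act (g : Op n) x = x := by
    intro g hg x hx hx'
    obtain ⟨-, c, -, hc⟩ := hst g hg x hx hx'
    obtain ⟨d, hd⟩ := hf g hg ⟨c, hc⟩
    have hd0 : d ≠ 0 := by
      rintro rfl
      have := e2a_co_ne hΓ hg (hWb hx)
      rw [hd, zero_smul] at this
      exact this (by simp [co])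
    rw [hd, act_smul hd0, act_one]
  have hex : ∀ i : Fin n, ∃ f : E n → ℂ, DifferentiableOn ℂ f (ψ '' W) ∧ ∀ x ∈ W, f (ψ x) = x i :=
    fun i => h.descend_local hΓ hW hWΩ (D := fun x => x i) (by fun_prop)
      fun g hg x hx hx' => by rw [hfix g hg x hx hx']
  choose f hf1 hf2 using hex
  let F : E n → E n := fun a => WithLp.toLp 2 fun i => f i a
  have hF : DifferentiableAt ℂ F (ψ z) := by
    rw [differentiableAt_euclidean]
    exact fun i => (hf1 i).differentiableAt ((h.isOpenMap W hWΩ hW).mem_nhds ⟨z, hzW, rfl⟩)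
  have hψ : DifferentiableAt ℂ ψ z := h.diff.differentiableAt (h.isOpen.mem_nhds hz)
  have he : F ∘ ψ =ᶠ[𝓝 z] id := by
    filter_upwards [hW.mem_nhds hzW] with x hx
    ext i
    exact hf2 i x hx
  have h1 := congrArg ContinuousLinearMap.det (he.fderiv_eq (𝕜 := ℂ))
  rw [fderiv_comp z hF hψ, p1_det_comp, fderiv_id] at h1
  intro h0
  rw [h0, mul_zero] at h1
  exact zero_ne_one (h1.trans LinearMap.det_id)

theorem QMap.dense_det {Γ : Subgroup (GG n)} (hΓ : Proper Γ) {Ω S : Set (E n)}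
    {ψ : E n → E n} (h : QMap Γ Ω ψ S) :
    Ω ⊆ closure {z | z ∈ Ω ∧ (fderiv ℂ ψ z).det ≠ 0} := by
  intro z hz
  refine mem_closure_iff.2 fun o ho hzo => ?_
  have hO : IsOpen (Neg n ∩ proj ⁻¹' (o ∩ Ω)) :=
    p1_continuousOn_proj.isOpen_inter_preimage isOpen_Neg (ho.inter h.isOpen)
  have hc : IsCone (Neg n ∩ proj ⁻¹' (o ∩ Ω)) := by
    rintro c hc v ⟨h1, h2⟩
    refine ⟨?_, by rwa [Set.mem_preimage, proj_smul hc]⟩
    rw [mem_Neg, NN_smul]
    exact mul_pos (by positivity) h1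
  have hl := lift_mem_Neg.2 (h.sub hz)
  have h0 := nu_open_ne_zero hO hc
    ⟨lift z, ⟨hl, by rw [Set.mem_preimage, proj_lift]; exact ⟨hzo, hz⟩⟩, hl⟩
  obtain ⟨v, ⟨hv, hvo, hvΩ⟩, -, hfree⟩ :=
    Measure.exists_mem_of_measure_ne_zero_of_ae h0 (ae_restrict_of_ae (ae_free hΓ))
  refine ⟨proj v, hvo, hvΩ, h.det_ne_zero_of_free hΓ hvΩ fun g hg ⟨c, hc⟩ => hfree g hg ⟨c, ?_⟩⟩
  have := lift_proj (co_none_ne_zero hv)
  generalize co v none = a at this
  generalize lift (proj v) = u at this hc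
  rw [← this, map_smul, hc, smul_comm]

theorem QMap.det_act {Γ : Subgroup (GG n)} (hΓ : Proper Γ) {Ω S : Set (E n)}
    {ψ : E n → E n} (h : QMap Γ Ω ψ S) {g : GG n} (hg : g ∈ Γ) {z : E n} (hz : z ∈ Ω) :
    (fderiv ℂ ψ (act (g : Op n) z)).det =
      co ((g : Op n) (lift z)) none ^ (n + 1) * (fderiv ℂ ψ z).det := by
  have hco := e2a_co_ne hΓ hg (h.sub hz)
  have hψ : DifferentiableAt ℂ ψ (act (g : Op n) z) :=
    h.diff.differentiableAt (h.isOpen.mem_nhds (h.inv g hg z hz))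
  have he : ψ ∘ act (g : Op n) =ᶠ[𝓝 z] ψ := by
    filter_upwards [h.isOpen.mem_nhds hz] with x hx
    exact p1_psi_act h hg hx
  have h1 := congrArg ContinuousLinearMap.det (he.fderiv_eq (𝕜 := ℂ))
  rw [fderiv_comp z hψ (differentiableAt_act hco), p1_det_comp, det_fderiv_act hco,
    hΓ.det g hg] at h1
  rw [← h1]
  field_simp

theorem QMap.restrict {Γ : Subgroup (GG n)} {Ω S : Set (E n)} {ψ : E n → E n}
    (h : QMap Γ Ω ψ S) {T : Set (E n)} (hT : IsOpen T) (hTS : T ⊆ S) :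
    QMap Γ (Ω ∩ ψ ⁻¹' T) ψ T := by
  have : ContinuousSMul ℂ (E n) := IsBoundedSMul.continuousSMul
  refine ⟨h.diff.continuousOn.isOpen_inter_preimage h.isOpen hT,
    fun z hz => h.sub hz.1, fun g hg z hz => ⟨h.inv g hg z hz.1, ?_⟩,
    h.diff.mono Set.inter_subset_left, fun z hz z' hz' => h.fib z hz.1 z' hz'.1, ?_,
    fun W hW => h.isOpenMap W (hW.trans Set.inter_subset_left),
    fun W hW hWo f hf => h.desc W (hW.trans hTS) hWo f (hf.mono ?_)⟩
  · rw [Set.mem_preimage, p1_psi_act h hg hz.1]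
    exact hz.2
  · rw [Set.image_inter_preimage, h.image, Set.inter_eq_right.2 hTS]
  · exact fun z hz => ⟨⟨hz.1, hW hz.2⟩, hz.2⟩

theorem QMap.unif {Γ : Subgroup (GG n)} {Ω S : Set (E n)} {ψ : E n → E n}
    (h : QMap Γ Ω ψ S) (hd : ∀ z ∈ Ω, (fderiv ℂ ψ z).det ≠ 0) : Unif Γ Ω ψ S := by
  exact ⟨h.isOpen, h.sub, h.inv, h.diff, hd, h.fib, h.image⟩

theorem QMap.comp {Γ : Subgroup (GG n)} {Ω S : Set (E n)} {ψ : E n → E n}
    (h : QMap Γ Ω ψ S) {T : Set (E n)} (hT : IsOpen T) {φ φ' : E n → E n}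
    (hφ : DifferentiableOn ℂ φ S) (hφ' : DifferentiableOn ℂ φ' T)
    (h1 : ∀ a ∈ S, φ a ∈ T ∧ φ' (φ a) = a) (h2 : ∀ a ∈ T, φ' a ∈ S ∧ φ (φ' a) = a) :
    QMap Γ Ω (φ ∘ ψ) T := by
  have : ContinuousSMul ℂ (E n) := IsBoundedSMul.continuousSMul
  have hmem : ∀ z ∈ Ω, ψ z ∈ S := fun z hz => h.image ▸ Set.mem_image_of_mem ψ hz
  have hS : IsOpen S := h.image ▸ h.isOpenMap Ω subset_rfl h.isOpen
  refine ⟨h.isOpen, h.sub, h.inv, hφ.comp h.diff hmem, fun z hz z' hz' => ?_, ?_,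
    fun W hW hWo => ?_, fun W hW hWo f hf => ?_⟩
  · rw [← h.fib z hz z' hz']
    refine ⟨fun he => ?_, fun he => congrArg φ he⟩
    rw [← (h1 _ (hmem z hz)).2, ← (h1 _ (hmem z' hz')).2]
    exact congrArg φ' he
  · rw [Set.image_comp, h.image]
    ext a
    exact ⟨fun ⟨b, hb, hab⟩ => hab ▸ (h1 b hb).1, fun ha => ⟨φ' a, (h2 a ha).1, (h2 a ha).2⟩⟩
  · have : (φ ∘ ψ) '' W = T ∩ φ' ⁻¹' (ψ '' W) := by
      ext a
      constructor
      · rintro ⟨x, hx, rfl⟩
        exact ⟨(h1 _ (hmem x (hW hx))).1, x, hx, (h1 _ (hmem x (hW hx))).2.symm⟩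
      · rintro ⟨ha, x, hx, hxa⟩
        exact ⟨x, hx, by rw [Function.comp_apply, hxa, (h2 a ha).2]⟩
    rw [this]
    exact hφ'.continuousOn.isOpen_inter_preimage hT (h.isOpenMap W hW hWo)
  · have h3 := h.desc (S ∩ φ ⁻¹' W) Set.inter_subset_left
      (hφ.continuousOn.isOpen_inter_preimage hS hWo) (f ∘ φ)
      (hf.mono fun z hz => ⟨hz.1, hz.2.2⟩)
    refine (h3.comp (hφ'.mono hW) fun a ha => ⟨(h2 a (hW ha)).1, ?_⟩).congr fun a ha => ?_
    · rw [Set.mem_preimage, (h2 a (hW ha)).2]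
      exact ha
    · simp only [Function.comp_apply, (h2 a (hW ha)).2]

end BallQ
end
end

-- merged part: Pool.Agent.Work.MP_72250f_ag.F3a
section
/-!
From local extensions to pluricanonical forms on a manifold. For c in the atlas: mdifferentiableOn_atlas, mdifferentiableOn_atlas_symm (or
contMDiffOn_of_mem_maximalAtlas), mdifferentiableOn_iff_differentiableOn; transition maps c' (c.symm z) are holomorphic on open sets.
exists_pluri: for y take W y, h y from Thin; for a chart c and a point y0 let sig c y0 be the function given by ExtP and qmap_chart on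
U = c.target meet c.symm^-1 (W y0). Put s y = sig (chartAt y) y (chartAt y y). Key identity: for x in c.source meet c'.source meet W y0 meet W y1,
sig c y0 (c x) = sig c' y1 (c' x) det (D (c' o c.symm) (c x))^k. It holds for x = psi z with h y0 x, h y1 x nonzero and det D (c o psi) z nonzero (chain rule); such x are dense
(dense_ne_zero twice in the chart c, QMap.dense_det and continuity of psi), and both sides are continuous in c x (continuousOn_fderiv,
ContinuousLinearMap.continuous_det). The identity with c' = chartAt x, y1 = x gives Pluri. The last claim at z in Omega follows by continuity: near z the points z' with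
h (psi z') nonzero are dense (isOpenMap and Thin).
-/

open scoped ComplexConjugate ENNReal Topology
open MeasureTheory Filter

noncomputable section

namespace BallQ

variable {n : ℕ}

open scoped Manifold ContDiff

variable {Y : Type*} [TopologicalSpace Y] [ChartedSpace (E n) Y] [IsManifold 𝓘(ℂ, E n) ω Y]

theorem qmap_chart {Γ' : Subgroup (BallLattice.PU n)} {Γ : Subgroup (GG n)}
    (horb : ∀ z ∈ Metric.ball (0 : E n) 1, ∀ w : E n,
      BallLattice.Orb Γ' z w ↔ ∃ g ∈ Γ, act (g : Op n) z = w)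
    {Z : Set Y} {Ω : Set (E n)} {ψ : E n → Y} (hq : BallLattice.QuotIso Γ' Ω ψ Zᶜ)
    {c : OpenPartialHomeomorph Y (E n)} (hc : c ∈ atlas (E n) Y) {W : Set Y} (hW : IsOpen W)
    {h : Y → ℂ} (hh : MDifferentiableOn 𝓘(ℂ, E n) 𝓘(ℂ, ℂ) h W) (hZ : ∀ x ∈ W ∩ Z, h x = 0) :
    IsOpen (c.target ∩ c.symm ⁻¹' W) ∧ DifferentiableOn ℂ (h ∘ c.symm) (c.target ∩ c.symm ⁻¹' W) ∧
      QMap Γ (Ω ∩ ψ ⁻¹' {y | y ∈ W ∧ y ∈ c.source ∧ h y ≠ 0}) (c ∘ ψ)
        {a | a ∈ c.target ∩ c.symm ⁻¹' W ∧ (h ∘ c.symm) a ≠ 0} := by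
  have hc1 : MDifferentiableOn 𝓘(ℂ, E n) 𝓘(ℂ, E n) c c.source := mdifferentiableOn_atlas hc
  have hc2 : MDifferentiableOn 𝓘(ℂ, E n) 𝓘(ℂ, E n) c.symm c.target :=
    mdifferentiableOn_atlas_symm hc
  have hT : IsOpen {y | y ∈ W ∧ y ∈ c.source ∧ h y ≠ 0} := by
    have h1 : IsOpen (W ∩ h ⁻¹' {0}ᶜ) :=
      hh.continuousOn.isOpen_inter_preimage hW isOpen_compl_singleton
    convert h1.inter c.open_source using 1
    ext y
    simp only [Set.mem_ofPred_eq, Set.mem_inter_iff, Set.mem_preimage, Set.mem_compl_iff,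
      Set.mem_singleton_iff]
    tauto
  refine ⟨c.isOpen_inter_preimage_symm hW, mdifferentiableOn_iff_differentiableOn.mp
    (hh.comp (hc2.mono Set.inter_subset_left) fun x hx => hx.2), ?_⟩
  refine ⟨hq.hol.continuousOn.isOpen_inter_preimage hq.isOpen hT,
    fun z hz => hq.sub hz.1, fun g hg z hz => ?_, ?_, fun z hz z' hz' => ?_, ?_,
    fun W' hW' hW'o => ?_, fun W' hW' hW'o f hf => ?_⟩
  · have ho : BallLattice.Orb Γ' z (act (g : Op n) z) := (horb z (hq.sub hz.1) _).mpr ⟨g, hg, rfl⟩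
    have h1 := hq.inv z hz.1 _ ho
    refine ⟨h1, ?_⟩
    rw [Set.mem_preimage, ← (hq.fib z hz.1 _ h1).mpr ho]
    exact hz.2
  · exact mdifferentiableOn_iff_differentiableOn.mp
      (hc1.comp (hq.hol.mono Set.inter_subset_left) fun x hx => hx.2.2.1)
  · rw [← horb z (hq.sub hz.1), ← hq.fib z hz.1 z' hz'.1]
    exact c.injOn.eq_iff hz.2.2.1 hz'.2.2.1
  · ext a
    constructor
    · rintro ⟨z, hz, rfl⟩
      have h1 : c.symm (c (ψ z)) = ψ z := c.left_inv hz.2.2.1
      refine ⟨⟨c.map_source hz.2.2.1, ?_⟩, ?_⟩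
      · rw [Set.mem_preimage, Function.comp_apply, h1]
        exact hz.2.1
      · rw [Function.comp_apply, Function.comp_apply, h1]
        exact hz.2.2.2
    · rintro ⟨⟨ha, haW⟩, hah⟩
      have h1 : c.symm a ∈ ψ '' Ω := by
        rw [hq.image]
        exact fun hz => hah (hZ _ ⟨haW, hz⟩)
      obtain ⟨z, hz, hza⟩ := h1
      refine ⟨z, ⟨hz, ?_⟩, ?_⟩
      · rw [Set.mem_preimage, hza]
        exact ⟨haW, c.map_target ha, hah⟩
      · rw [Function.comp_apply, hza, c.right_inv ha]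
  · rw [Set.image_comp]
    refine c.isOpen_image_of_subset_source
      (hq.isOpenMap W' (fun z hz => (hW' hz).1) hW'o) ?_
    rintro _ ⟨z, hz, rfl⟩
    exact (hW' hz).2.2.1
  · have hsub : ∀ y ∈ c.source ∩ c ⁻¹' W', y ∈ W ∧ y ∈ c.source ∧ h y ≠ 0 := by
      intro y hy
      obtain ⟨⟨-, h2⟩, h3⟩ := hW' hy.2
      rw [Set.mem_preimage, c.left_inv hy.1] at h2
      rw [Function.comp_apply, c.left_inv hy.1] at h3
      exact ⟨h2, hy.1, h3⟩
    have h1 := hq.desc (c.source ∩ c ⁻¹' W')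
      (fun y hy hz => (hsub y hy).2.2 (hZ _ ⟨(hsub y hy).1, hz⟩))
      (c.isOpen_inter_preimage hW'o) (f ∘ c)
      (hf.mono fun z hz => ⟨⟨hz.1, hsub _ hz.2⟩, hz.2.2⟩)
    have h2 : MDifferentiableOn 𝓘(ℂ, E n) 𝓘(ℂ, ℂ) ((f ∘ c) ∘ c.symm) W' := by
      refine h1.comp (hc2.mono fun a ha => (hW' ha).1.1) fun a ha => ?_
      have h3 := (hW' ha).1.1
      refine ⟨c.map_target h3, ?_⟩
      rw [Set.mem_preimage, c.right_inv h3]
      exact ha
    refine (mdifferentiableOn_iff_differentiableOn.mp h2).congr fun a ha => ?_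
    rw [Function.comp_apply, Function.comp_apply, c.right_inv (hW' ha).1.1]

end BallQ
end
end

-- merged part: Pool.Agent.Work.MP_72250f_ag.F3
section
/-!
From local extensions to pluricanonical forms on a manifold. For c in the atlas: mdifferentiableOn_atlas, mdifferentiableOn_atlas_symm (or
contMDiffOn_of_mem_maximalAtlas), mdifferentiableOn_iff_differentiableOn; transition maps c' (c.symm z) are holomorphic on open sets.
exists_pluri: for y take W y, h y from Thin; for a chart c and a point y0 let sig c y0 be the function given by ExtP and qmap_chart on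
U = c.target meet c.symm^-1 (W y0). Put s y = sig (chartAt y) y (chartAt y y). Key identity: for x in c.source meet c'.source meet W y0 meet W y1,
sig c y0 (c x) = sig c' y1 (c' x) det (D (c' o c.symm) (c x))^k. It holds for x = psi z with h y0 x, h y1 x nonzero and det D (c o psi) z nonzero (chain rule); such x are dense
(dense_ne_zero twice in the chart c, QMap.dense_det and continuity of psi), and both sides are continuous in c x (continuousOn_fderiv,
ContinuousLinearMap.continuous_det). The identity with c' = chartAt x, y1 = x gives Pluri. The last claim at z in Omega follows by continuity: near z the points z' with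
h (psi z') nonzero are dense (isOpenMap and Thin).
-/

open scoped ComplexConjugate ENNReal Topology
open MeasureTheory Filter

noncomputable section

namespace BallQ

variable {n : ℕ}

open scoped Manifold ContDiff

variable {Y : Type*} [TopologicalSpace Y] [ChartedSpace (E n) Y] [IsManifold 𝓘(ℂ, E n) ω Y]

theorem f3_trans_diff {c c' : OpenPartialHomeomorph Y (E n)} (hc : c ∈ atlas (E n) Y)
    (hc' : c' ∈ atlas (E n) Y) :
    DifferentiableOn ℂ (c' ∘ c.symm) (c.target ∩ c.symm ⁻¹' c'.source) := by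
  intro a ha
  have h1 := mdifferentiableAt_atlas_symm (I := 𝓘(ℂ, E n)) hc ha.1
  have h2 := mdifferentiableAt_atlas (I := 𝓘(ℂ, E n)) hc' ha.2
  exact (h2.comp a h1).differentiableAt.differentiableWithinAt

theorem f3_comp_diff {c : OpenPartialHomeomorph Y (E n)} (hc : c ∈ atlas (E n) Y)
    {ψ : E n → Y} {z : E n} (hψ : MDifferentiableAt 𝓘(ℂ, E n) 𝓘(ℂ, E n) ψ z)
    (hz : ψ z ∈ c.source) : DifferentiableAt ℂ (c ∘ ψ) z :=
  ((mdifferentiableAt_atlas (I := 𝓘(ℂ, E n)) hc hz).comp z hψ).differentiableAt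

theorem f3_chain {c c' : OpenPartialHomeomorph Y (E n)} (hc : c ∈ atlas (E n) Y)
    (hc' : c' ∈ atlas (E n) Y) {ψ : E n → Y} {z : E n}
    (hψ : MDifferentiableAt 𝓘(ℂ, E n) 𝓘(ℂ, E n) ψ z) (hz : ψ z ∈ c.source)
    (hz' : ψ z ∈ c'.source) :
    (fderiv ℂ (c' ∘ ψ) z).det =
      (fderiv ℂ (c' ∘ c.symm) (c (ψ z))).det * (fderiv ℂ (c ∘ ψ) z).det := by
  have h1 : c' ∘ ψ =ᶠ[𝓝 z] (c' ∘ c.symm) ∘ (c ∘ ψ) := by
    filter_upwards [hψ.continuousAt.eventually (c.open_source.mem_nhds hz)] with x hx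
    simp only [Function.comp_apply, c.left_inv hx]
  have h2 : DifferentiableAt ℂ (c' ∘ c.symm) (c (ψ z)) := by
    refine (f3_trans_diff hc hc').differentiableAt
      ((c.isOpen_inter_preimage_symm c'.open_source).mem_nhds ⟨c.map_source hz, ?_⟩)
    rw [Set.mem_preimage, c.left_inv hz]
    exact hz'
  rw [h1.fderiv_eq, fderiv_comp z h2 (f3_comp_diff hc hψ hz)]
  exact LinearMap.det_comp _ _

omit [IsManifold 𝓘(ℂ, E n) ω Y] in
theorem f3_nlz {c : OpenPartialHomeomorph Y (E n)} {W : Set Y} {h : Y → ℂ}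
    (h0 : ∀ a ∈ W, ¬ ∀ᶠ x in 𝓝 a, h x = 0) :
    ∀ a ∈ c.target ∩ c.symm ⁻¹' W, ¬ ∀ᶠ x in 𝓝 a, (h ∘ c.symm) x = 0 := by
  intro a ha hev
  refine h0 _ ha.2 ?_
  have hs := c.map_target ha.1
  have h1 : Tendsto c (𝓝 (c.symm a)) (𝓝 a) := by
    have := (c.continuousAt hs).tendsto
    rwa [c.right_inv ha.1] at this
  filter_upwards [h1.eventually hev, c.open_source.mem_nhds hs] with x hx1 hx2
  rwa [Function.comp_apply, c.left_inv hx2] at hx1

theorem f3_dense {Γ : Subgroup (GG n)} (hΓ : Proper Γ) {Z : Set Y} {Ω : Set (E n)} {ψ : E n → Y}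
    (hΩ : IsOpen Ω) (hψ : ContinuousOn ψ Ω) (him : ψ '' Ω = Zᶜ)
    {c : OpenPartialHomeomorph Y (E n)} {W0 W1 : Set Y} (hW0 : IsOpen W0) (hW1 : IsOpen W1)
    {h0 h1 : Y → ℂ} (hc0 : ContinuousOn h0 W0) (hc1 : ContinuousOn h1 W1)
    (hn0 : ∀ a ∈ W0, ¬ ∀ᶠ x in 𝓝 a, h0 x = 0) (hn1 : ∀ a ∈ W1, ¬ ∀ᶠ x in 𝓝 a, h1 x = 0)
    (hZ : ∀ x ∈ W0 ∩ Z, h0 x = 0) {S : Set (E n)}
    (hq : QMap Γ (Ω ∩ ψ ⁻¹' {y | y ∈ W0 ∧ y ∈ c.source ∧ h0 y ≠ 0}) (c ∘ ψ) S)
    {x : Y} (hx : x ∈ c.source) (hx0 : x ∈ W0) (hx1 : x ∈ W1) :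
    ∃ᶠ x' in 𝓝 x, ∃ z ∈ Ω, ψ z = x' ∧ h0 x' ≠ 0 ∧ h1 x' ≠ 0 ∧ (fderiv ℂ (c ∘ ψ) z).det ≠ 0 := by
  rw [frequently_iff]
  intro O hO
  obtain ⟨O', hO'O, hO', hxO'⟩ := mem_nhds_iff.mp
    (inter_mem hO (inter_mem (c.open_source.mem_nhds hx)
      (inter_mem (hW0.mem_nhds hx0) (hW1.mem_nhds hx1))))
  obtain ⟨x1, hx1O, hx1h⟩ := frequently_iff.mp (not_eventually.mp (hn0 x hx0)) (hO'.mem_nhds hxO')
  have hO1 : IsOpen (O' ∩ h0 ⁻¹' {0}ᶜ) :=
    (hc0.mono fun y hy => (hO'O hy).2.2.1).isOpen_inter_preimage hO' isOpen_compl_singleton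
  obtain ⟨x2, hx2O, hx2h⟩ := frequently_iff.mp (not_eventually.mp (hn1 x1 (hO'O hx1O).2.2.2))
    (hO1.mem_nhds ⟨hx1O, hx1h⟩)
  have hO2 : IsOpen ((O' ∩ h0 ⁻¹' {0}ᶜ) ∩ h1 ⁻¹' {0}ᶜ) :=
    (hc1.mono fun y hy => (hO'O hy.1).2.2.2).isOpen_inter_preimage hO1 isOpen_compl_singleton
  have hx2Z : x2 ∈ ψ '' Ω := by
    rw [him]
    exact fun hz => hx2O.2 (hZ x2 ⟨(hO'O hx2O.1).2.2.1, hz⟩)
  obtain ⟨z2, hz2, rfl⟩ := hx2Z
  have hcl := hq.dense_det hΓ (a := z2) ⟨hz2, (hO'O hx2O.1).2.2.1, (hO'O hx2O.1).2.1, hx2O.2⟩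
  obtain ⟨z3, hz3, hz3', hz3d⟩ := mem_closure_iff_nhds.mp hcl _
    ((hψ.continuousAt (hΩ.mem_nhds hz2)).preimage_mem_nhds (hO2.mem_nhds ⟨hx2O, hx2h⟩))
  exact ⟨ψ z3, (hO'O hz3.1.1).1, z3, hz3'.1, rfl, hz3.1.2, hz3.2, hz3d⟩

theorem exists_pluri {Γ' : Subgroup (BallLattice.PU n)} {Γ : Subgroup (GG n)} (hΓ : Proper Γ)
    (horb : ∀ z ∈ Metric.ball (0 : E n) 1, ∀ w : E n,
      BallLattice.Orb Γ' z w ↔ ∃ g ∈ Γ, act (g : Op n) z = w)
    {Z : Set Y} (hZ : BallLattice.Thin n Z) {Ω : Set (E n)} {ψ : E n → Y}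
    (hq : BallLattice.QuotIso Γ' Ω ψ Zᶜ) {w k : ℕ} {F : V n → ℂ} (hF : IsHol w F)
    (hext : ExtP Γ k F) :
    ∃ s : Y → ℂ, BallLattice.Pluri n k s ∧ ∀ z ∈ Ω,
      s (ψ z) * (fderiv ℂ (chartAt (E n) (ψ z) ∘ ψ) z).det ^ k = F (lift z) := by
  have : ContinuousSMul ℂ (E n) := IsBoundedSMul.continuousSMul
  choose W hW hyW h hh hn hz0 using hZ
  have hqc := fun (c : OpenPartialHomeomorph Y (E n)) (hc : c ∈ atlas (E n) Y) (y : Y) =>
    qmap_chart horb hq hc (hW y) (hh y) (hz0 y)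
  have hsig : ∀ c ∈ atlas (E n) Y, ∀ y : Y, ∃ σ : E n → ℂ,
      DifferentiableOn ℂ σ (c.target ∩ c.symm ⁻¹' W y) ∧
      ∀ z ∈ Ω ∩ ψ ⁻¹' {x | x ∈ W y ∧ x ∈ c.source ∧ h y x ≠ 0},
        σ ((c ∘ ψ) z) * (fderiv ℂ (c ∘ ψ) z).det ^ k = F (lift z) := fun c hc y =>
    hext _ _ _ _ (hqc c hc y).1 (hqc c hc y).2.1 (f3_nlz (hn y)) (hqc c hc y).2.2
  choose! sig hs1 hs2 using hsig
  have hψ : ∀ z ∈ Ω, MDifferentiableAt 𝓘(ℂ, E n) 𝓘(ℂ, E n) ψ z := fun z hz =>
    hq.hol.mdifferentiableAt (hq.isOpen.mem_nhds hz)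
  have hcs : ∀ c ∈ atlas (E n) Y, ∀ y : Y, ∀ x ∈ c.source, x ∈ W y →
      ContinuousAt (fun x' => sig c y (c x')) x := by
    intro c hc y x hx hxW
    refine ContinuousAt.comp ?_ (c.continuousAt hx)
    refine (hs1 c hc y).continuousOn.continuousAt ((hqc c hc y).1.mem_nhds ⟨c.map_source hx, ?_⟩)
    rw [Set.mem_preimage, c.left_inv hx]
    exact hxW
  have key : ∀ c ∈ atlas (E n) Y, ∀ c' ∈ atlas (E n) Y, ∀ y0 y1 : Y, ∀ x ∈ c.source,
      x ∈ c'.source → x ∈ W y0 → x ∈ W y1 →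
      sig c y0 (c x) = sig c' y1 (c' x) * (fderiv ℂ (c' ∘ c.symm) (c x)).det ^ k := by
    intro c hc c' hc' y0 y1 x hx hx' hx0 hx1
    have hd := f3_dense hΓ hq.isOpen hq.hol.continuousOn hq.image (hW y0) (hW y1)
      (hh y0).continuousOn (hh y1).continuousOn (hn y0) (hn y1) (hz0 y0) (hqc c hc y0).2.2
      hx hx0 hx1
    have hO := c.isOpen_inter_preimage_symm c'.open_source
    have hxO : c x ∈ c.target ∩ c.symm ⁻¹' c'.source :=
      ⟨c.map_source hx, by rw [Set.mem_preimage, c.left_inv hx]; exact hx'⟩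
    have hc3 : ContinuousAt (fun x' => (fderiv ℂ (c' ∘ c.symm) (c x')).det) x :=
      ContinuousLinearMap.continuous_det.continuousAt.comp
        (((continuousOn_fderiv hO (f3_trans_diff hc hc')).continuousAt (hO.mem_nhds hxO)).comp
          (c.continuousAt hx))
    refine tendsto_nhds_unique_of_frequently_eq (hcs c hc y0 x hx hx0).tendsto
      ((hcs c' hc' y1 x hx' hx1).mul (hc3.pow k)).tendsto ?_
    have hev : ∀ᶠ x' in 𝓝 x, x' ∈ c.source ∧ x' ∈ c'.source ∧ x' ∈ W y0 ∧ x' ∈ W y1 :=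
      inter_mem (c.open_source.mem_nhds hx) (inter_mem (c'.open_source.mem_nhds hx')
        (inter_mem ((hW y0).mem_nhds hx0) ((hW y1).mem_nhds hx1)))
    refine (hd.and_eventually hev).mono ?_
    rintro _ ⟨⟨z, hz, rfl, e0, e1, hdet⟩, m1, m2, m3, m4⟩
    have a1 := hs2 c hc y0 z ⟨hz, m3, m1, e0⟩
    have a2 := hs2 c' hc' y1 z ⟨hz, m4, m2, e1⟩
    rw [f3_chain hc hc' (hψ z hz) m1 m2, mul_pow, ← mul_assoc, ← a1] at a2
    exact (mul_right_cancel₀ (pow_ne_zero k hdet) a2).symm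
  refine ⟨fun y => sig (chartAt (E n) y) y (chartAt (E n) y y), fun c hc a ha => ?_,
    fun z hz => ?_⟩
  · have hU := (hqc c hc (c.symm a)).1
    have haU : a ∈ c.target ∩ c.symm ⁻¹' W (c.symm a) := ⟨ha, hyW _⟩
    refine DifferentiableAt.differentiableWithinAt ?_
    refine ((hs1 c hc (c.symm a)).differentiableAt (hU.mem_nhds haU)).congr_of_eventuallyEq ?_
    filter_upwards [hU.mem_nhds haU] with b hb
    have := key c hc _ (chart_mem_atlas (E n) (c.symm b)) (c.symm a) (c.symm b) (c.symm b)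
      (c.map_target hb.1) (mem_chart_source _ _) hb.2 (hyW _)
    rw [c.right_inv hb.1] at this
    exact this.symm
  · set c := chartAt (E n) (ψ z) with hcdef
    have hc : c ∈ atlas (E n) Y := chart_mem_atlas _ _
    have hzc : ψ z ∈ c.source := mem_chart_source _ _
    have hO : IsOpen (Ω ∩ ψ ⁻¹' (c.source ∩ W (ψ z))) :=
      hq.hol.continuousOn.isOpen_inter_preimage hq.isOpen (c.open_source.inter (hW _))
    have hzO : z ∈ Ω ∩ ψ ⁻¹' (c.source ∩ W (ψ z)) := ⟨hz, hzc, hyW _⟩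
    have hdiff : DifferentiableOn ℂ (c ∘ ψ) (Ω ∩ ψ ⁻¹' (c.source ∩ W (ψ z))) := fun x hx =>
      (f3_comp_diff hc (hψ x hx.1) hx.2.1).differentiableWithinAt
    have c1 : ContinuousAt (fun x => sig c (ψ z) (c (ψ x))) z :=
      ContinuousAt.comp (g := fun x' => sig c (ψ z) (c x')) (hcs c hc _ _ hzc (hyW _))
        (hψ z hz).continuousAt
    have c2 : ContinuousAt (fun x => (fderiv ℂ (c ∘ ψ) x).det) z :=
      ContinuousLinearMap.continuous_det.continuousAt.comp
        ((continuousOn_fderiv hO hdiff).continuousAt (hO.mem_nhds hzO))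
    have c3 : ContinuousAt (fun x => F (lift x)) z :=
      (hF.diff.continuousOn.continuousAt
        (isOpen_Neg.mem_nhds (lift_mem_Neg.mpr (hq.sub hz)))).comp continuous_lift.continuousAt
    refine tendsto_nhds_unique_of_frequently_eq (c1.mul (c2.pow k)).tendsto c3.tendsto ?_
    rw [frequently_iff]
    intro O hOz
    obtain ⟨O', hO'O, hO', hzO'⟩ := mem_nhds_iff.mp (inter_mem hOz (hO.mem_nhds hzO))
    have hopen := hq.isOpenMap O' (fun x hx => (hO'O hx).2.1) hO'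
    obtain ⟨_, ⟨x, hx, rfl⟩, hxh⟩ := frequently_iff.mp (not_eventually.mp (hn (ψ z) _ (hyW _)))
      (hopen.mem_nhds ⟨z, hzO', rfl⟩)
    exact ⟨x, (hO'O hx).1, hs2 c hc (ψ z) x ⟨(hO'O hx).2.1, (hO'O hx).2.2.2, (hO'O hx).2.2.1, hxh⟩⟩

end BallQ
end
end

-- merged part: Pool.Agent.Work.MP_72250f_ag.F4
section
/-!
Affine space carries no such form. Let i0 : Fin n be an index, x0 = x i0, phi x = the point with i0-coordinate 1 / x0 and other coordinates x i / x0 (an involution of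
{x0 nonzero}; it is act g for the operator g swapping the coordinates none and some i0, so det_fderiv_act gives det (D phi x) = det g / x0^(n+1)).
A nonzero polynomial is nowhere locally zero (eqOn_zero_of_open and MvPolynomial.funext). ExtP with U = univ, h = eval P gives an entire s. Let d = totalDegree P and
h' a = a0 * sum over m in the support of coeff m * a0^(d - |m|) * prod over i different from i0 of (a i)^(m i), so h' a = a0^(d+1) P (phi a) if a0 is nonzero; h' is entire and nowhere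
locally zero. QMap.restrict to T = {x0 P x nonzero}, QMap.comp with phi, ExtP give an entire s' with s' (phi x) det (D phi x)^k = s x on the image of the unramified
points, which is dense (dense_det, dense_ne_zero), hence on {x0 nonzero}. On a line t |-> x + t e_i0 the function s tends to 0 at infinity (phi tends to 0), so it vanishes
(Differentiable.apply_eq_of_tendsto_cocompact). Then F (lift z) = 0 on Omega and IsHol.eq_zero.
-/

open scoped ComplexConjugate ENNReal Topology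
open MeasureTheory Filter

noncomputable section

namespace BallQ

variable {n : ℕ}

/-- The operator swapping the coordinates `none` and `some i0`. -/
def f4_sw (i0 : Fin n) : Op n :=
  LinearMap.toContinuousLinearMap
    { toFun := fun v => mkV fun i => co v (Equiv.swap none (some i0) i)
      map_add' := fun v w => V_ext fun i => by simp
      map_smul' := fun c v => V_ext fun i => by simp }

theorem f4_co (i0 : Fin n) (v : V n) (i : Option (Fin n)) :
    co (f4_sw i0 v) i = co v (Equiv.swap none (some i0) i) := co_mkV _ _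

theorem f4_det (i0 : Fin n) : (f4_sw i0).det ≠ 0 := by
  have h : f4_sw i0 * f4_sw i0 = 1 := by
    ext1 v
    refine V_ext fun i => ?_
    rw [mul_apply_eq_comp, f4_co, f4_co, Equiv.swap_apply_self, one_apply_eq_self]
  have h1 := det_mul' (f4_sw i0) (f4_sw i0)
  have h2 : (1 : Op n).det = 1 := LinearMap.det_id
  rw [h, h2] at h1
  exact left_ne_zero_of_mul_eq_one h1.symm

theorem f4_co_none (i0 : Fin n) (x : E n) : co (f4_sw i0 (lift x)) none = x i0 := by
  rw [f4_co, Equiv.swap_apply_left, co_lift_some]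

theorem f4_act (i0 : Fin n) (x : E n) (i : Fin n) :
    act (f4_sw i0) x i = (if i = i0 then 1 else x i) / x i0 := by
  have h : act (f4_sw i0) x i =
      co (f4_sw i0 (lift x)) (some i) / co (f4_sw i0 (lift x)) none := rfl
  rw [h, f4_co_none, f4_co]
  by_cases hi : i = i0
  · rw [if_pos hi, hi, Equiv.swap_apply_right, co_lift_none]
  · rw [if_neg hi, Equiv.swap_apply_of_ne_of_ne (by simp) (by simpa using hi), co_lift_some]

theorem f4_act_ne (i0 : Fin n) {x : E n} (hx : x i0 ≠ 0) : act (f4_sw i0) x i0 ≠ 0 := by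
  rw [f4_act, if_pos rfl]
  exact div_ne_zero one_ne_zero hx

theorem f4_act_act (i0 : Fin n) {x : E n} (hx : x i0 ≠ 0) :
    act (f4_sw i0) (act (f4_sw i0) x) = x := by
  ext i
  rw [f4_act, f4_act i0 x i0, if_pos rfl]
  by_cases hi : i = i0
  · rw [if_pos hi, hi]
    field_simp
  · rw [if_neg hi, f4_act, if_neg hi]
    field_simp

theorem f4_diff (i0 : Fin n) {x : E n} (hx : x i0 ≠ 0) :
    DifferentiableAt ℂ (act (f4_sw i0)) x :=
  differentiableAt_act (by rwa [f4_co_none])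

theorem f4_diff_co (i : Fin n) : Differentiable ℂ fun x : E n => x i := by
  fun_prop

theorem f4_diff_ev (P : MvPolynomial (Fin n) ℂ) :
    Differentiable ℂ fun x : E n => MvPolynomial.eval (fun i => x i) P := by
  induction P using MvPolynomial.induction_on with
  | C c => simp only [MvPolynomial.eval_C]; exact differentiable_const c
  | add p q hp hq => simp only [map_add]; exact hp.add hq
  | mul_X p i hp => simp only [map_mul, MvPolynomial.eval_X]; exact hp.mul (f4_diff_co i)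

theorem f4_ev_ne {P : MvPolynomial (Fin n) ℂ} (hP : P ≠ 0) :
    ¬ ∀ x : E n, MvPolynomial.eval (fun i => x i) P = 0 := by
  intro h
  refine hP (MvPolynomial.funext fun y => ?_)
  rw [map_zero]
  exact h (WithLp.toLp 2 y)

theorem f4_nowhere {h : E n → ℂ} (hd : Differentiable ℂ h) (h0 : ¬ ∀ x, h x = 0) (a : E n) :
    ¬ ∀ᶠ x in 𝓝 a, h x = 0 := fun ha =>
  h0 fun x => eqOn_zero_of_open isOpen_univ isPreconnected_univ hd.differentiableOn
    (Set.mem_univ a) ha x (Set.mem_univ x)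

theorem f4_hom (i0 : Fin n) (P : MvPolynomial (Fin n) ℂ) :
    ∃ (d : ℕ) (Q : E n → ℂ), Differentiable ℂ Q ∧ ∀ a : E n, a i0 ≠ 0 →
      Q a = a i0 ^ d * MvPolynomial.eval (fun i => act (f4_sw i0) a i) P := by
  induction P using MvPolynomial.induction_on with
  | C c => exact ⟨0, fun _ => c, differentiable_const c, fun a _ => by simp⟩
  | add p q hp hq =>
    obtain ⟨d1, Q1, h1, h1'⟩ := hp
    obtain ⟨d2, Q2, h2, h2'⟩ := hq
    refine ⟨d1 + d2, fun a => a i0 ^ d2 * Q1 a + a i0 ^ d1 * Q2 a,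
      (((f4_diff_co i0).pow d2).mul h1).add (((f4_diff_co i0).pow d1).mul h2), fun a ha => ?_⟩
    simp only [h1' a ha, h2' a ha, map_add]
    ring
  | mul_X p i hp =>
    obtain ⟨d, Q, h, h'⟩ := hp
    refine ⟨d + 1, fun a => Q a * (if i = i0 then 1 else a i), h.mul ?_, fun a ha => ?_⟩
    · by_cases hi : i = i0
      · simp only [if_pos hi]
        exact differentiable_const _
      · simp only [if_neg hi]
        exact f4_diff_co i
    · simp only [map_mul, MvPolynomial.eval_X]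
      rw [h' a ha, f4_act i0 a i]
      field_simp
      ring

theorem f4_closure {X : Type*} [TopologicalSpace X] {f : X → ℂ} {A : Set X} {x : X}
    (hx : x ∈ closure A) (hf : ContinuousAt f x) (h0 : ∀ y ∈ A, f y = 0) : f x = 0 := by
  have := mem_closure_iff_nhdsWithin_neBot.mp hx
  refine tendsto_nhds_unique (hf.tendsto.mono_left (nhdsWithin_le_nhds (s := A))) ?_
  exact tendsto_const_nhds.congr' (eventually_nhdsWithin_of_forall fun y hy => (h0 y hy).symm)

theorem f4_liouville (i0 : Fin n) {k : ℕ} (hk : 1 ≤ k) {s s' : E n → ℂ} (hs : Differentiable ℂ s)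
    (hs' : Continuous s') (c : ℂ)
    (h : ∀ x : E n, x i0 ≠ 0 → s x = s' (act (f4_sw i0) x) * (c / x i0 ^ (n + 1)) ^ k) (x : E n) :
    s x = 0 := by
  let e : E n := EuclideanSpace.single i0 1
  let y : E n := WithLp.toLp 2 fun i => if i = i0 then 1 else x i
  have hf : Differentiable ℂ fun t : ℂ => s (x + t • e) :=
    hs.comp ((differentiable_const x).add (differentiable_id.smul_const e))
  have h1 : Tendsto (fun t : ℂ => x i0 + t) (cocompact ℂ) (Bornology.cobounded ℂ) := by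
    rw [← Metric.cobounded_eq_cocompact]
    exact tendsto_const_add_cobounded _
  have h2 : Tendsto (fun t : ℂ => (x i0 + t)⁻¹) (cocompact ℂ) (𝓝 0) :=
    tendsto_inv₀_cobounded.comp h1
  have h3 : ∀ᶠ t : ℂ in cocompact ℂ, x i0 + t ≠ 0 :=
    h1.eventually (Bornology.eventually_ne_cobounded 0)
  have h4 : Continuous fun r : ℂ => s' (r • y) * (c * r ^ (n + 1)) ^ k := by fun_prop
  have h5 := (h4.tendsto 0).comp h2
  have h6 : s' ((0 : ℂ) • y) * (c * 0 ^ (n + 1)) ^ k = 0 := by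
    rw [zero_pow (Nat.succ_ne_zero n), mul_zero, zero_pow (by omega), mul_zero]
  rw [h6] at h5
  have h7 : Tendsto (fun t : ℂ => s (x + t • e)) (cocompact ℂ) (𝓝 0) := by
    refine h5.congr' ?_
    filter_upwards [h3] with t ht
    have e1 : (x + t • e) i0 = x i0 + t := by simp [e]
    have e2 : act (f4_sw i0) (x + t • e) = (x i0 + t)⁻¹ • y := by
      ext i
      rw [f4_act, e1]
      by_cases hi : i = i0
      · simp [y, hi]
      · simp [y, e, hi, div_eq_inv_mul]
    rw [h _ (by rwa [e1]), e1, e2, Function.comp_apply, div_eq_mul_inv, inv_pow]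
  have h8 := hf.apply_eq_of_tendsto_cocompact 0 h7
  simpa using h8

theorem eq_zero_of_poly (hn : 1 ≤ n) {Γ : Subgroup (GG n)} (hΓ : Proper Γ) {w k : ℕ} (hk : 1 ≤ k)
    {F : V n → ℂ} (hF : IsHol w F) (hext : ExtP Γ k F) {P : MvPolynomial (Fin n) ℂ} (hP : P ≠ 0)
    {Ω : Set (E n)} (hne : Ω.Nonempty) {ψ : E n → E n}
    (hq : QMap Γ Ω ψ {x | MvPolynomial.eval (fun i => x i) P ≠ 0}) : F = 0 := by
  have : ContinuousSMul ℂ (E n) := IsBoundedSMul.continuousSMul
  let i0 : Fin n := ⟨0, hn⟩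
  let ev : E n → ℂ := fun x => MvPolynomial.eval (fun i => x i) P
  have hev : Differentiable ℂ ev := f4_diff_ev P
  have hev0 : ∀ a, ¬ ∀ᶠ x in 𝓝 a, ev x = 0 := f4_nowhere hev (f4_ev_ne hP)
  obtain ⟨s, hs, hsF⟩ := hext Set.univ ev Ω ψ isOpen_univ hev.differentiableOn
    (fun a _ => hev0 a) (by simpa only [Set.mem_univ, true_and] using hq)
  rw [differentiableOn_univ] at hs
  obtain ⟨d, Q, hQ, hQ'⟩ := f4_hom i0 P
  let h' : E n → ℂ := fun a => a i0 * Q a
  have hh' : Differentiable ℂ h' := (f4_diff_co i0).mul hQ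
  have hiff : ∀ a, h' a ≠ 0 ↔ a i0 ≠ 0 ∧ ev (act (f4_sw i0) a) ≠ 0 := by
    intro a
    simp only [h', mul_ne_zero_iff]
    refine and_congr_right fun ha => ?_
    rw [hQ' a ha, mul_ne_zero_iff, and_iff_right (pow_ne_zero d ha)]
  have hh0 : ¬ ∀ a, h' a = 0 := by
    intro h
    refine f4_ev_ne (mul_ne_zero (MvPolynomial.X_ne_zero i0) hP) fun x => ?_
    rw [map_mul, MvPolynomial.eval_X]
    by_contra hx
    obtain ⟨h1, h2⟩ := mul_ne_zero_iff.mp hx
    refine (hiff (act (f4_sw i0) x)).mpr ⟨f4_act_ne i0 h1, ?_⟩ (h _)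
    rwa [f4_act_act i0 h1]
  let U : Set (E n) := {x | x i0 ≠ 0}
  have hU : IsOpen U := isOpen_ne_fun (f4_diff_co i0).continuous continuous_const
  let T : Set (E n) := {x | x ∈ U ∧ ev x ≠ 0}
  have hT : IsOpen T := hU.inter (isOpen_ne_fun hev.continuous continuous_const)
  let T' : Set (E n) := {a | a ∈ Set.univ ∧ h' a ≠ 0}
  have hT' : IsOpen T' := isOpen_univ.inter (isOpen_ne_fun hh'.continuous continuous_const)
  have hq1 := hq.restrict hT fun x hx => hx.2
  have hq2 := hq1.comp hT' (φ := act (f4_sw i0)) (φ' := act (f4_sw i0))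
    (fun x hx => (f4_diff i0 hx.1).differentiableWithinAt)
    (fun x hx => (f4_diff i0 ((hiff x).mp hx.2).1).differentiableWithinAt)
    (fun a ha => ⟨⟨Set.mem_univ _, (hiff _).mpr ⟨f4_act_ne i0 ha.1, by
      rw [f4_act_act i0 ha.1]; exact ha.2⟩⟩, f4_act_act i0 ha.1⟩)
    (fun a ha => ⟨⟨f4_act_ne i0 ((hiff a).mp ha.2).1, ((hiff a).mp ha.2).2⟩,
      f4_act_act i0 ((hiff a).mp ha.2).1⟩)
  obtain ⟨s', hs', hsF'⟩ := hext Set.univ h' _ _ isOpen_univ hh'.differentiableOn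
    (fun a _ => f4_nowhere hh' hh0 a) hq2
  rw [differentiableOn_univ] at hs'
  let u : E n → ℂ := fun x =>
    s x - s' (act (f4_sw i0) x) * ((f4_sw i0).det / x i0 ^ (n + 1)) ^ k
  have hu : ∀ x ∈ U, ContinuousAt u x := by
    intro x hx
    refine hs.continuous.continuousAt.sub
      ((hs'.continuous.continuousAt.comp (f4_diff i0 hx).continuousAt).mul ?_)
    exact (continuousAt_const.div ((f4_diff_co i0).continuous.continuousAt.pow _)
      (pow_ne_zero _ hx)).pow k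
  have hdψ : ∀ z ∈ Ω, DifferentiableAt ℂ ψ z := fun z hz =>
    hq.diff.differentiableAt (hq.isOpen.mem_nhds hz)
  have h1 : ∀ x ∈ T, u x = 0 := by
    intro x hx
    rw [← hq1.image] at hx
    obtain ⟨z, hz, rfl⟩ := hx
    refine f4_closure (f := u ∘ ψ) (hq1.dense_det hΓ hz)
      ((hu _ hz.2.1).comp (hdψ z hz.1).continuousAt) fun y hy => ?_
    have e1 := hsF y hy.1.1
    have e2 := hsF' y hy.1
    have e3 : (fderiv ℂ (act (f4_sw i0) ∘ ψ) y).det =
        (f4_sw i0).det / ψ y i0 ^ (n + 1) * (fderiv ℂ ψ y).det := by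
      rw [fderiv_comp y (f4_diff i0 hy.1.2.1) (hdψ y hy.1.1), ← f4_co_none,
        ← det_fderiv_act (by rw [f4_co_none]; exact hy.1.2.1)]
      exact LinearMap.det_comp
        (fderiv ℂ (act (f4_sw i0)) (ψ y) : E n →ₗ[ℂ] E n) (fderiv ℂ ψ y : E n →ₗ[ℂ] E n)
    rw [e3, ← e1, mul_pow, ← mul_assoc] at e2
    exact sub_eq_zero.mpr (mul_right_cancel₀ (pow_ne_zero k hy.2) e2).symm
  have h2 : ∀ x ∈ U, u x = 0 := fun x hx =>
    f4_closure (dense_ne_zero hU (fun a _ => hev0 a) hx) (hu x hx) h1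
  have h3 := f4_liouville i0 hk hs hs'.continuous (f4_sw i0).det
    fun x hx => sub_eq_zero.mp (h2 x hx)
  refine hF.eq_zero hq.isOpen hne hq.sub fun z hz => ?_
  rw [← hsF z hz, h3, zero_mul]

end BallQ
end
end

-- merged part: Pool.Agent.Work.MP_72250f_ag.E1b
section
/-!
Good slices are dense. Write f_z t = h (a0 + z + t e). On the compact set |z| <= r1 (r1 between |z0| and r), |f_z| <= B on the disc of radius 5 R and
|f_z| >= m > 0 on |t| = R, so by root_count the root sets N z = {t | |t| <= R, f_z t = 0} are finite with at most q0 elements.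
Among the z in ker l with |z - z0| < min delta (r1 - |z0|) take z1 with the largest number q of roots t_1 .. t_q. Choose eps with pairwise disjoint
closed discs D_i of radius eps around t_i inside |t| < R; f_z1 is nonzero on their boundaries. For z near z1 (tube lemma / uniform
continuity, z in ker l) root_persist gives a root in each D_i, so by maximality exactly one root in each closed D_i. By root_formula this root is
T_i z = (circle integral of t f_z' / f_z) / (circle integral of f_z' / f_z), f_z' t = fderiv h (a0 + z + t e) e; numerator and denominator are holomorphic in z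
(differentiableOn_param after unfolding circleIntegral, differentiableOn_fderiv_apply). Put tau w = T_i (z1 + (w - l w e)) - t_i; it is
continuous with tau 0 = 0, so for small w and t the point t_i + tau w + t lies in D_i and differs from the root.
-/

open scoped ComplexConjugate ENNReal Topology
open MeasureTheory Filter

noncomputable section

namespace BallQ

variable {n : ℕ}

theorem e1b_div {W : Set (E n)} {f g : E n → ℂ} (hf : DifferentiableOn ℂ f W)
    (hg : DifferentiableOn ℂ g W) (h0 : ∀ x ∈ W, g x ≠ 0) :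
    DifferentiableOn ℂ (fun x => f x / g x) W := by
  simp only [div_eq_mul_inv]
  exact hf.mul (hg.inv h0)

theorem e1b_circ_diff {W : Set (E n)} (hW : IsOpen W) {G : E n → ℂ → ℂ} {c : ℂ} {ε : ℝ}
    (hε : 0 ≤ ε) (hc : ContinuousOn (fun q : E n × ℂ => G q.1 q.2) (W ×ˢ Metric.sphere c ε))
    (hd : ∀ t ∈ Metric.sphere c ε, DifferentiableOn ℂ (fun z => G z t) W) :
    DifferentiableOn ℂ (fun z => ∮ t in C(c, ε), G z t) W := by
  have h := differentiableOn_param
    (f := fun θ z => deriv (circleMap c ε) θ • G z (circleMap c ε θ)) hW 0 (2 * Real.pi) ?_ ?_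
  · exact h
  · simp only [deriv_circleMap]
    refine ContinuousOn.smul (f := fun q : ℝ × E n => circleMap 0 ε q.1 * Complex.I)
      (Continuous.continuousOn (by fun_prop)) ?_
    refine hc.comp (f := fun q : ℝ × E n => (q.2, circleMap c ε q.1))
      (Continuous.continuousOn (by fun_prop)) ?_
    intro q hq
    exact ⟨hq.2, circleMap_mem_sphere c hε q.1⟩
  · intro θ _
    exact (hd _ (circleMap_mem_sphere c hε θ)).const_mul _

theorem e1b_slice_diff {U : Set (E n)} {h : E n → ℂ} (hh : DifferentiableOn ℂ h U)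
    {a e : E n} {R : ℝ} (hin : ∀ t : ℂ, ‖t‖ ≤ R → a + t • e ∈ U) :
    DifferentiableOn ℂ (fun t : ℂ => h (a + t • e)) (Metric.ball 0 R) :=
  hh.comp (f := fun t : ℂ => a + t • e) (Differentiable.differentiableOn (by fun_prop))
    fun t ht => hin t (mem_ball_zero_iff.mp ht).le

theorem e1b_slice_deriv {U : Set (E n)} (hU : IsOpen U) {h : E n → ℂ}
    (hh : DifferentiableOn ℂ h U) {a e : E n} {t : ℂ} (hin : a + t • e ∈ U) :
    deriv (fun t : ℂ => h (a + t • e)) t = fderiv ℂ h (a + t • e) e := by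
  have : ContinuousSMul ℂ (E n) := IsBoundedSMul.continuousSMul
  have h1 : HasFDerivAt h (fderiv ℂ h (a + t • e)) (a + t • e) :=
    (hh.differentiableAt (hU.mem_nhds hin)).hasFDerivAt
  have h2 : HasDerivAt (fun t : ℂ => a + t • e) e t := by
    simpa using ((hasDerivAt_id t).smul_const e).const_add a
  exact (h1.comp_hasDerivAt t h2).deriv

theorem e1b_bound {U : Set (E n)} {h : E n → ℂ} (hh : DifferentiableOn ℂ h U)
    {a0 e : E n} {r R : ℝ} (hR : 0 < R)
    (hin : ∀ z : E n, ‖z‖ < r → ∀ t : ℂ, ‖t‖ ≤ 5 * R → a0 + z + t • e ∈ U)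
    (hne : ∀ z : E n, ‖z‖ < r → ∀ t : ℂ, ‖t‖ = R → h (a0 + z + t • e) ≠ 0) {r1 : ℝ}
    (hr1 : r1 < r) : ∃ q : ℕ, ∀ z : E n, ‖z‖ ≤ r1 →
      {t : ℂ | ‖t‖ < R ∧ h (a0 + z + t • e) = 0}.Finite ∧
      {t : ℂ | ‖t‖ < R ∧ h (a0 + z + t • e) = 0}.ncard ≤ q := by
  have : ContinuousSMul ℂ (E n) := IsBoundedSMul.continuousSMul
  have hc : ContinuousOn (fun q : E n × ℂ => h (a0 + q.1 + q.2 • e))
      (Metric.closedBall 0 r1 ×ˢ Metric.closedBall 0 (5 * R)) := by
    refine hh.continuousOn.comp (f := fun q : E n × ℂ => a0 + q.1 + q.2 • e)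
      (Continuous.continuousOn (by fun_prop)) ?_
    intro q hq
    exact hin _ (lt_of_le_of_lt (mem_closedBall_zero_iff.mp hq.1) hr1) _
      (mem_closedBall_zero_iff.mp hq.2)
  obtain ⟨B, hB⟩ := ((isCompact_closedBall (0 : E n) r1).prod
    (isCompact_closedBall (0 : ℂ) (5 * R))).exists_bound_of_continuousOn hc
  have hRn : ‖(R : ℂ)‖ = R := by rw [Complex.norm_real, Real.norm_eq_abs, abs_of_pos hR]
  have hc2 : ContinuousOn (fun z : E n => ‖h (a0 + z + (R : ℂ) • e)‖) (Metric.closedBall 0 r1) := by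
    refine ContinuousOn.norm (hh.continuousOn.comp (f := fun z : E n => a0 + z + (R : ℂ) • e)
      (Continuous.continuousOn (by fun_prop)) ?_)
    intro z hz
    exact hin _ (lt_of_le_of_lt (mem_closedBall_zero_iff.mp hz) hr1) _ (by rw [hRn]; linarith)
  obtain ⟨m, hm0, hm⟩ := (isCompact_closedBall (0 : E n) r1).exists_forall_le' hc2 (a := 0)
    fun z hz => norm_pos_iff.mpr
      (hne _ (lt_of_le_of_lt (mem_closedBall_zero_iff.mp hz) hr1) _ hRn)
  obtain ⟨q, hq⟩ := pow_unbounded_of_one_lt (B / m) (by norm_num : (1 : ℝ) < 2)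
  refine ⟨q, fun z hz => ?_⟩
  have hzr : ‖z‖ < r := lt_of_le_of_lt hz hr1
  have key : ∀ S : Finset ℂ, (S : Set ℂ) ⊆ {t : ℂ | ‖t‖ < R ∧ h (a0 + z + t • e) = 0} →
      S.card ≤ q := by
    intro S hS
    have h1 := root_count hR S (fun t ht => (hS ht).1.le) (B := B)
      (e1b_slice_diff hh (hin z hzr))
      (fun t ht => hB (z, t) ⟨mem_closedBall_zero_iff.mpr hz,
        Metric.ball_subset_closedBall ht⟩) (fun t ht => (hS ht).2) hRn.le
    have h2 := (hm z (mem_closedBall_zero_iff.mpr hz)).trans h1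
    rw [le_div_iff₀ (by positivity)] at h2
    rw [div_lt_iff₀ hm0] at hq
    have h3 : (2 : ℝ) ^ S.card < 2 ^ q := by nlinarith
    exact ((pow_lt_pow_iff_right₀ (by norm_num : (1 : ℝ) < 2)).mp h3).le
  have hfin : {t : ℂ | ‖t‖ < R ∧ h (a0 + z + t • e) = 0}.Finite := by
    by_contra hinf
    obtain ⟨S, hS, hcard⟩ := Set.Infinite.exists_subset_card_eq hinf (q + 1)
    have := key S hS
    omega
  refine ⟨hfin, ?_⟩
  rw [Set.ncard_eq_toFinset_card _ hfin]
  exact key _ (by simp)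

theorem e1b_persist {U : Set (E n)} (hU : IsOpen U) {h : E n → ℂ} (hh : DifferentiableOn ℂ h U)
    {a0 e : E n} {r R : ℝ}
    (hin : ∀ z : E n, ‖z‖ < r → ∀ t : ℂ, ‖t‖ ≤ 5 * R → a0 + z + t • e ∈ U) {z1 : E n}
    (hz1 : ‖z1‖ < r) {c : ℂ} {ε : ℝ} (hε : 0 < ε) (hc : ‖c‖ + ε < 5 * R)
    (h0 : h (a0 + z1 + c • e) = 0) (h1 : ∀ t ∈ Metric.sphere c ε, h (a0 + z1 + t • e) ≠ 0) :
    ∀ᶠ z in 𝓝 z1, (∃ a ∈ Metric.ball c ε, h (a0 + z + a • e) = 0) ∧
      ∀ t ∈ Metric.sphere c ε, h (a0 + z + t • e) ≠ 0 := by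
  have : ContinuousSMul ℂ (E n) := IsBoundedSMul.continuousSMul
  have hsub : Metric.closedBall c ε ⊆ Metric.ball (0 : ℂ) (5 * R) := by
    intro t ht
    rw [mem_ball_zero_iff]
    have := norm_le_norm_add_norm_sub' t c
    rw [mem_closedBall_iff_norm] at ht
    linarith
  have hat : ∀ t ∈ Metric.closedBall c ε,
      ContinuousAt (fun q : E n × ℂ => ‖h (a0 + q.1 + q.2 • e)‖) (z1, t) := by
    intro t ht
    refine ContinuousAt.norm (ContinuousAt.comp (f := fun q : E n × ℂ => a0 + q.1 + q.2 • e)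
      ?_ (Continuous.continuousAt (by fun_prop)))
    exact hh.continuousOn.continuousAt
      (hU.mem_nhds (hin z1 hz1 t (mem_ball_zero_iff.mp (hsub ht)).le))
  have hc2 : ContinuousOn (fun t : ℂ => ‖h (a0 + z1 + t • e)‖) (Metric.sphere c ε) := by
    intro t ht
    refine ContinuousAt.continuousWithinAt ?_
    exact (hat t (Metric.sphere_subset_closedBall ht)).comp (f := fun t : ℂ => (z1, t))
      (by fun_prop)
  obtain ⟨m, hm0, hm⟩ := (isCompact_sphere c ε).exists_forall_le' hc2 (a := 0)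
    fun t ht => norm_pos_iff.mpr (h1 t ht)
  have e1 : ∀ᶠ z in 𝓝 z1, ∀ t ∈ Metric.sphere c ε, m / 2 < ‖h (a0 + z + t • e)‖ := by
    refine (isCompact_sphere c ε).eventually_forall_of_forall_eventually fun t ht => ?_
    exact (hat t (Metric.sphere_subset_closedBall ht)).eventually
      (lt_mem_nhds (lt_of_lt_of_le (half_lt_self hm0) (hm t ht)))
  have e2 : ∀ᶠ z in 𝓝 z1, ‖h (a0 + z + c • e)‖ < m / 2 := by
    have h3 : ContinuousAt (fun z : E n => ‖h (a0 + z + c • e)‖) z1 :=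
      (hat c (Metric.mem_closedBall_self hε.le)).comp (f := fun z : E n => (z, c)) (by fun_prop)
    refine h3.eventually (gt_mem_nhds ?_)
    simp only [h0, norm_zero]
    linarith
  have e3 : ∀ᶠ z in 𝓝 z1, ‖z‖ < r := (continuous_norm.continuousAt).eventually (gt_mem_nhds hz1)
  filter_upwards [e1, e2, e3] with z h4 h5 h6
  refine ⟨root_persist hε Metric.isOpen_ball hsub (e1b_slice_diff hh (hin z h6))
    (fun t ht => (h4 t ht).le) h5, fun t ht h7 => ?_⟩
  have := h4 t ht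
  rw [h7, norm_zero] at this
  linarith

theorem e1b_straight {U : Set (E n)} (hU : IsOpen U) {h : E n → ℂ} (hh : DifferentiableOn ℂ h U)
    {a0 e : E n} {l : E n →L[ℂ] ℂ} (hl : l e = 1) {r R : ℝ}
    (hin : ∀ z : E n, ‖z‖ < r → ∀ t : ℂ, ‖t‖ ≤ 5 * R → a0 + z + t • e ∈ U) {z1 : E n}
    (hz1 : ‖z1‖ < r) (hlz : l z1 = 0) {c : ℂ} {ε : ℝ} (hε : 0 < ε) (hc : ‖c‖ + ε < 5 * R)
    (h0 : h (a0 + z1 + c • e) = 0)
    (hev : ∀ᶠ z in 𝓝 z1, (∀ t ∈ Metric.sphere c ε, h (a0 + z + t • e) ≠ 0) ∧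
      (l z = 0 → ∃ a ∈ Metric.ball c ε, h (a0 + z + a • e) = 0 ∧
        ∀ t ∈ Metric.closedBall c ε, h (a0 + z + t • e) = 0 → t = a)) :
    ∃ (r' ρ : ℝ) (τ : E n → ℂ), Straight {a | a ∈ U ∧ h a ≠ 0} (a0 + z1 + c • e) e l r' ρ τ := by
  have : ContinuousSMul ℂ (E n) := IsBoundedSMul.continuousSMul
  have hsub : Metric.closedBall c ε ⊆ Metric.ball (0 : ℂ) (5 * R) := by
    intro t ht
    rw [mem_ball_zero_iff]
    have := norm_le_norm_add_norm_sub' t c
    rw [mem_closedBall_iff_norm] at ht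
    linarith
  have e3 : ∀ᶠ z in 𝓝 z1, ‖z‖ < r := (continuous_norm.continuousAt).eventually (gt_mem_nhds hz1)
  obtain ⟨η, hη, hW⟩ := Metric.eventually_nhds_iff_ball.mp (hev.and e3)
  have hinS : ∀ z ∈ Metric.ball z1 η, ∀ t ∈ Metric.closedBall c ε, a0 + z + t • e ∈ U :=
    fun z hz t ht => hin z (hW z hz).2 t (mem_ball_zero_iff.mp (hsub ht)).le
  let G : E n → ℂ → ℂ := fun z t => fderiv ℂ h (a0 + z + t • e) e / h (a0 + z + t • e)
  have hD := differentiableOn_fderiv_apply hU hh e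
  have hGc : ContinuousOn (fun q : E n × ℂ => G q.1 q.2)
      (Metric.ball z1 η ×ˢ Metric.sphere c ε) := by
    have hm : Set.MapsTo (fun q : E n × ℂ => a0 + q.1 + q.2 • e)
        (Metric.ball z1 η ×ˢ Metric.sphere c ε) U :=
      fun q hq => hinS _ hq.1 _ (Metric.sphere_subset_closedBall hq.2)
    have hp : ContinuousOn (fun q : E n × ℂ => a0 + q.1 + q.2 • e)
        (Metric.ball z1 η ×ˢ Metric.sphere c ε) := Continuous.continuousOn (by fun_prop)
    exact (hD.continuousOn.comp hp hm).div (hh.continuousOn.comp hp hm)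
      fun q hq => (hW _ hq.1).1.1 _ hq.2
  have hGd : ∀ t ∈ Metric.sphere c ε, DifferentiableOn ℂ (fun z => G z t) (Metric.ball z1 η) := by
    intro t ht
    have hm : Set.MapsTo (fun z : E n => a0 + z + t • e) (Metric.ball z1 η) U :=
      fun z hz => hinS _ hz _ (Metric.sphere_subset_closedBall ht)
    have hp : DifferentiableOn ℂ (fun z : E n => a0 + z + t • e) (Metric.ball z1 η) :=
      Differentiable.differentiableOn (by fun_prop)
    exact e1b_div (hD.comp hp hm) (hh.comp hp hm) fun z hz => (hW _ hz).1.1 _ ht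
  have hden := e1b_circ_diff Metric.isOpen_ball hε.le hGc hGd
  have hnum := e1b_circ_diff (G := fun z t => t * G z t) Metric.isOpen_ball hε.le
    (continuousOn_snd.mul hGc) fun t ht => (hGd t ht).const_mul t
  have hroot : ∀ z ∈ Metric.ball z1 η, l z = 0 → (∮ t in C(c, ε), G z t) ≠ 0 ∧
      ∃ a ∈ Metric.ball c ε, h (a0 + z + a • e) = 0 ∧
        (∀ t ∈ Metric.closedBall c ε, h (a0 + z + t • e) = 0 → t = a) ∧
        (∮ t in C(c, ε), t * G z t) / (∮ t in C(c, ε), G z t) = a := by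
    intro z hz hlz'
    obtain ⟨a, ha, ha0, hau⟩ := (hW z hz).1.2 hlz'
    obtain ⟨h1, h2⟩ := root_formula Metric.isOpen_ball hsub
      (e1b_slice_diff hh (hin z (hW z hz).2)) ha ha0 hau
    have hG : ∀ t ∈ Metric.sphere c ε,
        deriv (fun t : ℂ => h (a0 + z + t • e)) t / h (a0 + z + t • e) = G z t := by
      intro t ht
      rw [e1b_slice_deriv hU hh (hinS z hz t (Metric.sphere_subset_closedBall ht))]
    have h3 := circleIntegral.integral_congr hε.le (f := fun t =>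
      deriv (fun t : ℂ => h (a0 + z + t • e)) t / h (a0 + z + t • e)) (g := fun t => G z t) hG
    have h4 := circleIntegral.integral_congr (c := c) hε.le (f := fun t =>
      t * (deriv (fun t : ℂ => h (a0 + z + t • e)) t / h (a0 + z + t • e)))
      (g := fun t => t * G z t) fun t ht => by simp only [hG t ht]
    rw [h3] at h1
    rw [h3, h4] at h2
    exact ⟨h1, a, ha, ha0, hau, by rw [h2, mul_div_cancel_right₀ _ h1]⟩
  let π : E n → E n := fun w => z1 + (w - l w • e)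
  have hπl : ∀ w, l (π w) = 0 := by
    intro w
    simp [π, hlz, hl]
  have hπd : Differentiable ℂ π := by fun_prop
  have hπ0 : π 0 = z1 := by simp [π]
  have e4 : ∀ᶠ w in 𝓝 (0 : E n), π w ∈ Metric.ball z1 η :=
    hπd.continuous.continuousAt.eventually (by rw [hπ0]; exact Metric.ball_mem_nhds z1 hη)
  obtain ⟨r2, hr2, hW2⟩ := Metric.eventually_nhds_iff_ball.mp e4
  let τ : E n → ℂ := fun w => (∮ t in C(c, ε), t * G (π w) t) / (∮ t in C(c, ε), G (π w) t) - c
  have hτd : DifferentiableOn ℂ τ (Metric.ball 0 r2) := by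
    have hm : Set.MapsTo π (Metric.ball 0 r2) (Metric.ball z1 η) := hW2
    refine DifferentiableOn.sub_const (e1b_div
      (hnum.comp hπd.differentiableOn hm) (hden.comp hπd.differentiableOn hm) ?_) c
    exact fun w hw => (hroot _ (hW2 w hw) (hπl w)).1
  have hτ0 : τ 0 = 0 := by
    obtain ⟨-, a, -, -, hau, ha⟩ := hroot z1 (Metric.mem_ball_self hη) hlz
    have := hau c (Metric.mem_closedBall_self hε.le) h0
    simp only [τ, hπ0]
    rw [ha, this, sub_self]
  have e5 : ∀ᶠ w in 𝓝 (0 : E n), ‖τ w‖ < ε / 2 := by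
    have h1 : ContinuousAt (fun w => ‖τ w‖) 0 :=
      (hτd.continuousOn.continuousAt (Metric.ball_mem_nhds 0 hr2)).norm
    refine h1.eventually (gt_mem_nhds ?_)
    simp only [hτ0, norm_zero]
    linarith
  obtain ⟨r3, hr3, hW3⟩ := Metric.eventually_nhds_iff_ball.mp e5
  refine ⟨min r2 r3, ε / 2, τ, hl, lt_min hr2 hr3, half_pos hε,
    hτd.mono (Metric.ball_subset_ball (min_le_left _ _)), hτ0, ?_⟩
  intro z hlz' hz t ht0 ht
  have hz2 : z ∈ Metric.ball (0 : E n) r2 := mem_ball_zero_iff.mpr (lt_of_lt_of_le hz (min_le_left _ _))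
  have hz3 : z ∈ Metric.ball (0 : E n) r3 :=
    mem_ball_zero_iff.mpr (lt_of_lt_of_le hz (min_le_right _ _))
  have hπz : π z = z1 + z := by simp [π, hlz']
  obtain ⟨-, a, -, -, hau, ha⟩ := hroot _ (hW2 z hz2) (hπl z)
  have hτz : τ z = a - c := by simp only [τ, ha]
  have hpt : a0 + z1 + c • e + z + (t + τ z) • e = a0 + π z + (c + (t + τ z)) • e := by
    rw [hπz, add_smul c]
    abel
  have hmem : c + (t + τ z) ∈ Metric.closedBall c ε := by
    rw [mem_closedBall_iff_norm, add_sub_cancel_left]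
    have := norm_add_le t (τ z)
    have := hW3 z hz3
    linarith
  rw [hpt]
  refine ⟨hinS _ (hW2 z hz2) _ hmem, fun h1 => ht0 ?_⟩
  have := hau _ hmem h1
  rw [hτz] at this
  linear_combination this

theorem good_slices {U : Set (E n)} (hU : IsOpen U) {h : E n → ℂ} (hh : DifferentiableOn ℂ h U)
    {a0 e : E n} {l : E n →L[ℂ] ℂ} (hl : l e = 1) {r R : ℝ} (hR : 0 < R)
    (hin : ∀ z : E n, ‖z‖ < r → ∀ t : ℂ, ‖t‖ ≤ 5 * R → a0 + z + t • e ∈ U)
    (hne : ∀ z : E n, ‖z‖ < r → ∀ t : ℂ, ‖t‖ = R → h (a0 + z + t • e) ≠ 0)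
    {z0 : E n} (hz0 : l z0 = 0) (hz0' : ‖z0‖ < r) {δ : ℝ} (hδ : 0 < δ) :
    ∃ z1 : E n, l z1 = 0 ∧ ‖z1‖ < r ∧ ‖z1 - z0‖ < δ ∧
      {t : ℂ | ‖t‖ < R ∧ h (a0 + z1 + t • e) = 0}.Finite ∧
      ∀ t0 : ℂ, ‖t0‖ < R → h (a0 + z1 + t0 • e) = 0 → ∃ (r' ρ : ℝ) (τ : E n → ℂ),
        Straight {a | a ∈ U ∧ h a ≠ 0} (a0 + z1 + t0 • e) e l r' ρ τ := by
  obtain ⟨r1, hr0, hr1⟩ := exists_between hz0'
  obtain ⟨q, hq⟩ := e1b_bound hh hR hin hne hr1
  let N : E n → Set ℂ := fun z => {t : ℂ | ‖t‖ < R ∧ h (a0 + z + t • e) = 0}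
  let A : Set (E n) := {z | l z = 0 ∧ ‖z - z0‖ < min δ (r1 - ‖z0‖)}
  have hA : ∀ z ∈ A, ‖z‖ ≤ r1 := by
    intro z hz
    have h1 := norm_le_norm_add_norm_sub' z z0
    have h2 := lt_of_lt_of_le hz.2 (min_le_right _ _)
    linarith
  have hA0 : z0 ∈ A := ⟨hz0, by rw [sub_self, norm_zero]; exact lt_min hδ (by linarith)⟩
  have hbd : BddAbove ((fun z => (N z).ncard) '' A) :=
    ⟨q, by rintro _ ⟨z, hz, rfl⟩; exact (hq z (hA z hz)).2⟩
  obtain ⟨z1, hz1, hmax⟩ := Nat.sSup_mem (s := (fun z => (N z).ncard) '' A) ⟨_, z0, hA0, rfl⟩ hbd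
  have hmax' : ∀ z ∈ A, (N z).ncard ≤ (N z1).ncard := by
    intro z hz
    have h1 : (N z1).ncard = sSup ((fun z => (N z).ncard) '' A) := hmax
    rw [h1]
    exact le_csSup hbd ⟨z, hz, rfl⟩
  have hz1r : ‖z1‖ < r := lt_of_le_of_lt (hA z1 hz1) hr1
  have hfin : (N z1).Finite := (hq z1 (hA z1 hz1)).1
  refine ⟨z1, hz1.1, hz1r, lt_of_lt_of_le hz1.2 (min_le_left _ _), hfin, fun t0 ht0 h0 => ?_⟩
  have hε : ∀ᶠ ε in 𝓝[>] (0 : ℝ), ∀ t ∈ N z1, ‖t‖ + ε < R ∧
      ∀ t' ∈ N z1, t ≠ t' → 2 * ε < ‖t - t'‖ := by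
    refine (hfin.eventually_all).mpr fun t ht => Eventually.and ?_ ?_
    · refine nhdsWithin_le_nhds ?_
      have h1 : ContinuousAt (fun ε : ℝ => ‖t‖ + ε) 0 := by fun_prop
      exact h1.eventually (gt_mem_nhds (by simpa using ht.1))
    · refine (hfin.eventually_all).mpr fun t' _ => ?_
      by_cases htt : t = t'
      · exact Eventually.of_forall fun _ h1 => absurd htt h1
      · refine nhdsWithin_le_nhds ?_
        have h1 : ContinuousAt (fun ε : ℝ => 2 * ε) 0 := by fun_prop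
        have h2 : ∀ᶠ ε in 𝓝 (0 : ℝ), 2 * ε < ‖t - t'‖ :=
          h1.eventually (gt_mem_nhds (by simpa using sub_ne_zero.mpr htt))
        exact h2.mono fun _ h3 _ => h3
  obtain ⟨ε, hε1, hε0⟩ := (hε.and self_mem_nhdsWithin).exists
  have hε0' : 0 < ε := hε0
  have hball : ∀ t ∈ N z1, ∀ s ∈ Metric.closedBall t ε, ‖s‖ < R := by
    intro t ht s hs
    have h1 := norm_le_norm_add_norm_sub' s t
    rw [mem_closedBall_iff_norm] at hs
    have := (hε1 t ht).1
    linarith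
  have hsph : ∀ t ∈ N z1, ∀ s ∈ Metric.sphere t ε, h (a0 + z1 + s • e) ≠ 0 := by
    intro t ht s hs h1
    have hsN : s ∈ N z1 := ⟨hball t ht s (Metric.sphere_subset_closedBall hs), h1⟩
    rw [mem_sphere_iff_norm] at hs
    by_cases hst : s = t
    · rw [hst, sub_self, norm_zero] at hs
      linarith
    · have := (hε1 s hsN).2 t ht hst
      linarith
  have e1 : ∀ᶠ z in 𝓝 z1, ∀ t ∈ N z1, (∃ a ∈ Metric.ball t ε, h (a0 + z + a • e) = 0) ∧
      ∀ s ∈ Metric.sphere t ε, h (a0 + z + s • e) ≠ 0 :=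
    (hfin.eventually_all).mpr fun t ht => e1b_persist hU hh hin hz1r hε0'
      (by have := (hε1 t ht).1; linarith) ht.2 (hsph t ht)
  have e2 : ∀ᶠ z in 𝓝 z1, ‖z - z0‖ < min δ (r1 - ‖z0‖) := by
    have h1 : ContinuousAt (fun z : E n => ‖z - z0‖) z1 := by fun_prop
    exact h1.eventually (gt_mem_nhds hz1.2)
  have ht0N : t0 ∈ N z1 := ⟨ht0, h0⟩
  refine e1b_straight hU hh hl hin hz1r hz1.1 hε0'
    (by have := (hε1 t0 ht0N).1; linarith) h0 ?_
  filter_upwards [e1, e2] with z h1 h2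
  refine ⟨(h1 t0 ht0N).2, fun hlz => ?_⟩
  have hzA : z ∈ A := ⟨hlz, h2⟩
  choose! g hg1 hg2 using fun t ht => (h1 t ht).1
  have hclose : ∀ t ∈ N z1, ∀ t' ∈ N z1, g t ∈ Metric.closedBall t' ε → t = t' := by
    intro t ht t' ht' h3
    by_contra hne'
    have h4 := (hε1 t ht).2 t' ht' hne'
    have h5 := mem_ball_iff_norm.mp (hg1 t ht)
    rw [mem_closedBall_iff_norm] at h3
    have h6 : ‖t - t'‖ ≤ ‖g t - t'‖ + ‖g t - t‖ := by
      have : t - t' = (g t - t') - (g t - t) := by ring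
      rw [this]
      exact norm_sub_le _ _
    linarith
  have hinj : Set.InjOn g (N z1) := fun t ht t' ht' h3 =>
    hclose t ht t' ht' (by rw [h3]; exact Metric.ball_subset_closedBall (hg1 t' ht'))
  have himg : g '' N z1 = N z := by
    refine Set.eq_of_subset_of_ncard_le ?_ ?_ (hq z (hA z hzA)).1
    · rintro _ ⟨t, ht, rfl⟩
      exact ⟨hball t ht _ (Metric.ball_subset_closedBall (hg1 t ht)), hg2 t ht⟩
    · rw [hinj.ncard_image]
      exact hmax' z hzA
  refine ⟨g t0, hg1 t0 ht0N, hg2 t0 ht0N, fun s hs h3 => ?_⟩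
  have hsN : s ∈ N z := ⟨hball t0 ht0N s hs, h3⟩
  rw [← himg] at hsN
  obtain ⟨t, ht, rfl⟩ := hsN
  rw [hclose t ht t0 ht0N hs]

end BallQ
end
end

-- merged part: Pool.Agent.Work.MP_72250f_ag.E1
section
/-!
Riemann extension with boundedness known only on straightened slices. exists_box: if t |-> h (a0 + t e) vanished near 0 for every e then by the
identity theorem on complex lines h would vanish on a ball around a0. So take e (nonzero since h a0 = 0 or not, any case) with isolated zero at 0,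
l = (inner e e)^-1 innerSL e, R small, r by compactness of the disc and the circle (IsCompact.eventually_forall_of_forall_eventually
or IsCompact.exists_thickening_subset_open).
ext_local: if h a0 is nonzero take s itself. Otherwise S a = (2 pi i)^-1 circle integral over |zeta| = R of (zeta - l (a - a0))^-1 s (a0 + pi (a - a0) + zeta e),
pi w = w - l w e, is holomorphic on a ball around a0 (differentiableOn_param). For a in the ball with h a nonzero, z0 = pi (a - a0), t = l (a - a0):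
good_slices and removable_cauchy give S a' = s a' for a' = a0 + z1 + t e arbitrarily close to a; continuity.
ext_slices: s' a = (local extension chosen at a) a; two local extensions agree on the overlap by dense_ne_zero and continuity.
-/

open scoped ComplexConjugate ENNReal Topology
open MeasureTheory Filter

noncomputable section

namespace BallQ

variable {n : ℕ}

theorem e1_open {U : Set (E n)} (hU : IsOpen U) {h : E n → ℂ} (hh : DifferentiableOn ℂ h U) :
    IsOpen {a | a ∈ U ∧ h a ≠ 0} :=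
  hh.continuousOn.isOpen_inter_preimage hU isOpen_compl_singleton

theorem e1_tube {W : Set (E n)} (hW : IsOpen W) (a0 e : E n) {K : Set ℂ} (hK : IsCompact K)
    (h : ∀ t ∈ K, a0 + t • e ∈ W) : ∀ᶠ z in 𝓝 (0 : E n), ∀ t ∈ K, a0 + z + t • e ∈ W := by
  refine hK.eventually_forall_of_forall_eventually fun t ht => ?_
  have hc : Continuous fun q : E n × ℂ => a0 + q.1 + q.2 • e := by fun_prop
  exact (hW.preimage hc).mem_nhds (by simpa using h t ht)

theorem e1_line {U : Set (E n)} (hU : IsOpen U) {h : E n → ℂ} (hh : DifferentiableOn ℂ h U)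
    {a0 : E n} (ha : a0 ∈ U) (h0 : ¬ ∀ᶠ x in 𝓝 a0, h x = 0) (hz : h a0 = 0) :
    ∃ e : E n, ¬ ∀ᶠ t in 𝓝 (0 : ℂ), h (a0 + t • e) = 0 := by
  by_contra hc
  push Not at hc
  obtain ⟨ρ, hρ, hb⟩ := Metric.isOpen_iff.1 hU a0 ha
  refine h0 (eventually_of_mem (Metric.ball_mem_nhds a0 hρ) fun x hx => ?_)
  rcases eq_or_ne x a0 with rfl | hne
  · exact hz
  have h1 : 0 < ‖x - a0‖ := norm_pos_iff.2 (sub_ne_zero.2 hne)
  have h2 : 1 < ρ / ‖x - a0‖ := (one_lt_div h1).2 (mem_ball_iff_norm.1 hx)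
  have h3 : DifferentiableOn ℂ (fun t : ℂ => h (a0 + t • (x - a0)))
      (Metric.ball 0 (ρ / ‖x - a0‖)) := by
    refine hh.comp (Differentiable.differentiableOn (by fun_prop)) fun t ht => hb ?_
    rw [mem_ball_iff_norm, add_sub_cancel_left, norm_smul]
    exact (lt_div_iff₀ h1).1 (mem_ball_zero_iff.1 ht)
  have h4 := eqOn_zero_of_open Metric.isOpen_ball (convex_ball _ _).isPreconnected h3
    (Metric.mem_ball_self (by linarith)) (hc _) 1 (by simpa using h2)
  simpa using h4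

theorem exists_box {U : Set (E n)} (hU : IsOpen U) {h : E n → ℂ} (hh : DifferentiableOn ℂ h U)
    {a0 : E n} (ha : a0 ∈ U) (h0 : ¬ ∀ᶠ x in 𝓝 a0, h x = 0) (hz : h a0 = 0) :
    ∃ (e : E n) (l : E n →L[ℂ] ℂ) (r R : ℝ), l e = 1 ∧ 0 < r ∧ 0 < R ∧
      (∀ z : E n, ‖z‖ < r → ∀ t : ℂ, ‖t‖ ≤ 5 * R → a0 + z + t • e ∈ U) ∧
      ∀ z : E n, ‖z‖ < r → ∀ t : ℂ, ‖t‖ = R → h (a0 + z + t • e) ≠ 0 := by
  obtain ⟨e, he⟩ := e1_line hU hh ha h0 hz
  have he0 : e ≠ 0 := by
    rintro rfl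
    exact he (Eventually.of_forall fun t => by simpa using hz)
  have hc : Continuous fun t : ℂ => a0 + t • e := by fun_prop
  have hV : IsOpen {t : ℂ | a0 + t • e ∈ U} := hU.preimage hc
  have hV0 : {t : ℂ | a0 + t • e ∈ U} ∈ 𝓝 (0 : ℂ) := hV.mem_nhds (by simpa using ha)
  have hd : DifferentiableOn ℂ (fun t : ℂ => h (a0 + t • e)) {t : ℂ | a0 + t • e ∈ U} :=
    hh.comp (Differentiable.differentiableOn (by fun_prop)) fun t ht => ht
  have h1 := (hd.analyticAt hV0).eventually_eq_zero_or_eventually_ne_zero.resolve_left he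
  rw [eventually_nhdsWithin_iff] at h1
  obtain ⟨ε, hε, h2⟩ := Metric.eventually_nhds_iff_ball.1 (h1.and hV0)
  have h3 := e1_tube hU a0 e (isCompact_closedBall 0 (5 * (ε / 10))) fun t ht =>
    (h2 t (Metric.closedBall_subset_ball (by linarith) ht)).2
  have h4 := e1_tube (e1_open hU hh) a0 e (isCompact_sphere 0 (ε / 10)) fun t ht => by
    have h5 : ‖t‖ = ε / 10 := mem_sphere_zero_iff_norm.1 ht
    have h6 := h2 t (mem_ball_zero_iff.2 (by linarith))
    refine ⟨h6.2, h6.1 fun h7 => ?_⟩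
    rw [Set.mem_singleton_iff.1 h7, norm_zero] at h5
    linarith
  obtain ⟨r, hr, h5⟩ := Metric.eventually_nhds_iff_ball.1 (h3.and h4)
  refine ⟨e, (inner ℂ e e)⁻¹ • innerSL ℂ e, r, ε / 10, ?_, hr, by linarith,
    fun z hz t ht => (h5 z (mem_ball_zero_iff.2 hz)).1 t (mem_closedBall_zero_iff.2 ht),
    fun z hz t ht => ((h5 z (mem_ball_zero_iff.2 hz)).2 t (mem_sphere_zero_iff_norm.2 ht)).2⟩
  rw [smul_apply, innerSL_apply_apply, smul_eq_mul]
  exact inv_mul_cancel₀ (inner_self_ne_zero.2 he0)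

/-- The Cauchy integral along the slices is holomorphic. -/
theorem e1_diff {W O : Set (E n)} (hO : IsOpen O) {s : E n → ℂ} (hs : DifferentiableOn ℂ s W)
    (a0 e : E n) (l : E n →L[ℂ] ℂ) {R : ℝ} (hR : 0 < R) (h1 : ∀ a ∈ O, ‖l (a - a0)‖ < R)
    (h2 : ∀ a ∈ O, ∀ t : ℂ, ‖t‖ = R → a0 + (a - a0 - l (a - a0) • e) + t • e ∈ W) :
    DifferentiableOn ℂ (fun a => ∮ ζ in C(0, R),
      (ζ - l (a - a0))⁻¹ * s (a0 + (a - a0 - l (a - a0) • e) + ζ • e)) O := by
  have : ContinuousSMul ℂ (E n) := IsBoundedSMul.continuousSMul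
  have h3 : ∀ θ : ℝ, ‖circleMap 0 R θ‖ = R := fun θ => by
    rw [norm_circleMap_zero, abs_of_pos hR]
  have h4 : ∀ θ : ℝ, ∀ a ∈ O, circleMap 0 R θ - l (a - a0) ≠ 0 := fun θ a ha h => by
    have := h1 a ha
    rw [← sub_eq_zero.1 h, h3] at this
    exact this.false
  simp only [circleIntegral, deriv_circleMap]
  refine differentiableOn_param (f := fun θ a => (circleMap 0 R θ * Complex.I) •
    ((circleMap 0 R θ - l (a - a0))⁻¹ *
      s (a0 + (a - a0 - l (a - a0) • e) + circleMap 0 R θ • e))) hO 0 (2 * Real.pi) ?_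
    fun θ _ => ?_
  · have hc : Continuous fun q : ℝ × E n => circleMap 0 R q.1 :=
      (continuous_circleMap 0 R).comp continuous_fst
    refine ContinuousOn.smul (hc.mul continuous_const).continuousOn (ContinuousOn.mul
      (ContinuousOn.inv₀ (Continuous.continuousOn (hc.sub (by fun_prop)))
        fun q hq => h4 q.1 q.2 hq.2) ?_)
    refine hs.continuousOn.comp (Continuous.continuousOn ?_) fun q hq => h2 q.2 hq.2 _ (h3 q.1)
    exact Continuous.add (by fun_prop) (hc.smul continuous_const)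
  · have d1 : DifferentiableOn ℂ (fun a : E n => circleMap 0 R θ - l (a - a0)) O :=
      Differentiable.differentiableOn (by fun_prop)
    have d2 : DifferentiableOn ℂ
        (fun a : E n => s (a0 + (a - a0 - l (a - a0) • e) + circleMap 0 R θ • e)) O :=
      hs.comp (Differentiable.differentiableOn (by fun_prop)) fun a ha => h2 a ha _ (h3 θ)
    exact ((d1.inv (h4 θ)).mul d2).const_mul (circleMap 0 R θ * Complex.I)

theorem ext_local {U : Set (E n)} (hU : IsOpen U) {h : E n → ℂ} (hh : DifferentiableOn ℂ h U)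
    {s : E n → ℂ} (hs : DifferentiableOn ℂ s {a | a ∈ U ∧ h a ≠ 0})
    (hb : ∀ (b e : E n) (l : E n →L[ℂ] ℂ) (r ρ : ℝ) (τ : E n → ℂ),
      Straight {a | a ∈ U ∧ h a ≠ 0} b e l r ρ τ →
      ∃ B ρ' : ℝ, 0 < ρ' ∧ ∀ t : ℂ, t ≠ 0 → ‖t‖ < ρ' → ‖s (b + t • e)‖ ≤ B)
    {a0 : E n} (ha : a0 ∈ U) (h0 : ¬ ∀ᶠ x in 𝓝 a0, h x = 0) :
    ∃ (r : ℝ) (S : E n → ℂ), 0 < r ∧ Metric.ball a0 r ⊆ U ∧
      DifferentiableOn ℂ S (Metric.ball a0 r) ∧ ∀ a ∈ Metric.ball a0 r, h a ≠ 0 → S a = s a := by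
  have : ContinuousSMul ℂ (E n) := IsBoundedSMul.continuousSMul
  have hW := e1_open hU hh
  rcases ne_or_eq (h a0) 0 with hz | hz
  · obtain ⟨r, hr, h1⟩ := Metric.isOpen_iff.1 hW a0 ⟨ha, hz⟩
    exact ⟨r, s, hr, fun a h2 => (h1 h2).1, hs.mono h1, fun _ _ _ => rfl⟩
  obtain ⟨e, l, r, R, hl, hr, hR, hin, hne⟩ := exists_box hU hh ha h0 hz
  have c1 : Continuous fun a : E n => ‖a - a0 - l (a - a0) • e‖ := by fun_prop
  have c2 : Continuous fun a : E n => ‖l (a - a0)‖ := by fun_prop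
  obtain ⟨ρ, hρ, h1⟩ := Metric.isOpen_iff.1
    ((isOpen_lt c1 (continuous_const (y := r))).inter (isOpen_lt c2 (continuous_const (y := R)))) a0
    ⟨by simpa using hr, by simpa using hR⟩
  have h2 : ∀ a : E n, a0 + (a - a0 - l (a - a0) • e) + l (a - a0) • e = a := fun a => by abel
  have h3 := (e1_diff Metric.isOpen_ball hs a0 e l hR (fun a h3 => (h1 h3).2) fun a h3 t ht =>
    ⟨hin _ (h1 h3).1 t (by linarith), hne _ (h1 h3).1 t ht⟩).const_mul
      (2 * Real.pi * Complex.I)⁻¹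
  refine ⟨ρ, _, hρ, fun a h4 => ?_, h3, fun a h4 h5 => ?_⟩
  · rw [← h2 a]
    have h6 : ‖l (a - a0)‖ < R := (h1 h4).2
    exact hin _ (h1 h4).1 _ (by linarith)
  have h6 : ‖l (a - a0)‖ < R := (h1 h4).2
  have haW : a ∈ {a | a ∈ U ∧ h a ≠ 0} := ⟨h2 a ▸ hin _ (h1 h4).1 _ (by linarith), h5⟩
  refine tendsto_nhds_unique_of_frequently_eq
    (h3.continuousOn.continuousAt (Metric.isOpen_ball.mem_nhds h4)).tendsto
    (hs.continuousOn.continuousAt (hW.mem_nhds haW)).tendsto (frequently_iff.2 fun {V} hV => ?_)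
  obtain ⟨δ, hδ, h7⟩ := Metric.mem_nhds_iff.1 (inter_mem hV (hW.mem_nhds haW))
  obtain ⟨z1, k1, k2, k3, k4, k5⟩ := good_slices hU hh hl hR hin hne
    (z0 := a - a0 - l (a - a0) • e) (by simp [hl]) (h1 h4).1 hδ
  generalize l (a - a0) = t at h6 k3
  have k6 := h7 (show a0 + z1 + t • e ∈ Metric.ball a δ by
    rw [mem_ball_iff_norm, show a0 + z1 + t • e - a = z1 - (a - a0 - t • e) by abel]
    exact k3)
  refine ⟨a0 + z1 + t • e, k6.1, ?_⟩
  have e1 : l (a0 + z1 + t • e - a0) = t := by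
    rw [show a0 + z1 + t • e - a0 = z1 + t • e by abel]
    simp [k1, hl]
  have e2 : a0 + z1 + t • e - a0 - t • e = z1 := by abel
  have hc : Continuous fun ζ : ℂ => a0 + z1 + ζ • e := by fun_prop
  have k7 := removable_cauchy (f := fun ζ : ℂ => s (a0 + z1 + ζ • e)) (R := R) k4.toFinset
    (fun ζ hζ => (k4.mem_toFinset.1 hζ).1)
    (U := {ζ : ℂ | a0 + z1 + ζ • e ∈ {a | a ∈ U ∧ h a ≠ 0}} ∪ Metric.ball 0 R)
    ((hW.preimage hc).union Metric.isOpen_ball) (fun ζ hζ => ?_) ?_ (fun t0 ht0 => ?_) h6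
    fun ht => k6.2.2 (k4.mem_toFinset.1 ht).2
  · simp only [e1, e2]
    rw [k7, inv_mul_cancel_left₀ Complex.two_pi_I_ne_zero]
  · rcases (mem_closedBall_zero_iff.1 hζ).eq_or_lt with h8 | h8
    · exact Or.inl ⟨hin _ k2 _ (by linarith), hne _ k2 _ h8⟩
    · exact Or.inr (mem_ball_zero_iff.2 h8)
  · refine hs.comp (Differentiable.differentiableOn (by fun_prop)) ?_
    rintro ζ ⟨h8 | h8, h9⟩
    · exact h8
    · have h10 := mem_ball_zero_iff.1 h8
      exact ⟨hin _ k2 _ (by linarith), fun h11 => h9 (k4.mem_toFinset.2 ⟨h10, h11⟩)⟩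
  · obtain ⟨h8, h9⟩ := k4.mem_toFinset.1 ht0
    obtain ⟨r', ρ', τ, h10⟩ := k5 t0 h8 h9
    obtain ⟨B, ρ'', h11, h12⟩ := hb _ _ _ _ _ _ h10
    refine ⟨B, ρ'', h11, fun u hu hu' => ?_⟩
    have := h12 u hu hu'
    rwa [add_assoc (a0 + z1), ← add_smul] at this

theorem ext_slices {U : Set (E n)} (hU : IsOpen U) {h : E n → ℂ} (hh : DifferentiableOn ℂ h U)
    (h0 : ∀ a ∈ U, ¬ ∀ᶠ x in 𝓝 a, h x = 0)
    {s : E n → ℂ} (hs : DifferentiableOn ℂ s {a | a ∈ U ∧ h a ≠ 0})
    (hb : ∀ (b e : E n) (l : E n →L[ℂ] ℂ) (r ρ : ℝ) (τ : E n → ℂ),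
      Straight {a | a ∈ U ∧ h a ≠ 0} b e l r ρ τ →
      ∃ B ρ' : ℝ, 0 < ρ' ∧ ∀ t : ℂ, t ≠ 0 → ‖t‖ < ρ' → ‖s (b + t • e)‖ ≤ B) :
    ∃ s' : E n → ℂ, DifferentiableOn ℂ s' U ∧ ∀ a ∈ U, h a ≠ 0 → s' a = s a := by
  have : ContinuousSMul ℂ (E n) := IsBoundedSMul.continuousSMul
  classical
  choose! r S h1 h2 h3 h4 using fun a (ha : a ∈ U) => ext_local hU hh hs hb ha (h0 a ha)
  refine ⟨fun a => S a a, fun a ha => ?_, fun a ha => h4 a ha a (Metric.mem_ball_self (h1 a ha))⟩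
  have h5 := Metric.ball_mem_nhds a (h1 a ha)
  refine (((h3 a ha).differentiableAt h5).congr_of_eventuallyEq
    (eventually_of_mem h5 fun b hb' => ?_)).differentiableWithinAt
  have hbU := h2 a ha hb'
  have h6 := Metric.ball_mem_nhds b (h1 b hbU)
  have h7 := Metric.isOpen_ball.mem_nhds hb'
  refine tendsto_nhds_unique_of_frequently_eq ((h3 b hbU).continuousOn.continuousAt h6).tendsto
    ((h3 a ha).continuousOn.continuousAt h7).tendsto ?_
  refine ((mem_closure_iff_frequently.1 (dense_ne_zero hU h0 hbU)).and_eventually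
    (inter_mem h6 h7)).mono fun x hx => ?_
  rw [h4 b hbU x hx.2.1 hx.1.2, h4 a ha x hx.2.2 hx.1.2]

end BallQ
end
end

-- merged part: Pool.Agent.Work.MP_72250f_ag.E2
section
/-!
The covering and the lift. act_trivial: psi (act g x) = psi x on Omega and act g is continuous at z with act g z = z, so local injectivity (local_inv) gives
act g x = x near z; then every vector in an open cone is an eigenvector of g (lift_proj, smul_lift_act), isScalar_of_open.
isCoveringMap: let G be the range of the homomorphism from Gamma to Equiv.Perm Omega given by act (act_mul, act_one); the map is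
IsQuotientCoveringMap for G (open quotient map by local_inv; disjointness from local injectivity and act_trivial), use
IsQuotientCoveringMap.isCoveringMap. exists_lift: D is convex and open, hence simply connected (Convex.contractibleSpace) and locally path
connected; IsCoveringMap.existsUnique_continuousMap_lifts; the lift is locally c.symm composed with chi (local_inv), so holomorphic;
z |-> f (z + e) and z |-> act g (f z) are two lifts of chi that agree at one point (IsCoveringMap.eq_of_comp_eq).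
-/

open scoped ComplexConjugate ENNReal Topology
open MeasureTheory Filter

noncomputable section

namespace BallQ

variable {n : ℕ}

theorem e2_diffOn_act {Γ : Subgroup (GG n)} (hΓ : Proper Γ) {g : GG n} (hg : g ∈ Γ) :
    DifferentiableOn ℂ (act (g : Op n)) (Metric.ball (0 : E n) 1) :=
  fun _ hz => (differentiableAt_act (e2a_co_ne hΓ hg hz)).differentiableWithinAt

theorem Unif.act_trivial {Γ : Subgroup (GG n)} (hΓ : Proper Γ) {Ω S : Set (E n)} {ψ : E n → E n}
    (h : Unif Γ Ω ψ S) {g : GG n} (hg : g ∈ Γ) {z : E n} (hz : z ∈ Ω)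
    (hf : act (g : Op n) z = z) : ∀ x ∈ Metric.ball (0 : E n) 1, act (g : Op n) x = x := by
  have : ContinuousSMul ℂ (E n) := IsBoundedSMul.continuousSMul
  obtain ⟨c, hzc, hcΩ, hc, -⟩ := local_inv h.isOpen h.diff h.det hz
  have h1 : ContinuousAt (act (g : Op n)) z :=
    (differentiableAt_act (e2a_co_ne hΓ hg (h.sub hz))).continuousAt
  have h2 : ∀ᶠ x in 𝓝 z, act (g : Op n) x ∈ c.source :=
    h1.eventually_mem (by rw [hf]; exact c.open_source.mem_nhds hzc)
  have h3 : ∀ᶠ x in 𝓝 z, act (g : Op n) x - x = 0 := by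
    filter_upwards [h2, c.open_source.mem_nhds hzc] with x hx hx'
    rw [sub_eq_zero]
    refine c.injOn hx hx' ?_
    rw [hc _ hx, hc _ hx', e2a_psi_act h hg (hcΩ hx')]
  intro x hx
  exact sub_eq_zero.mp (eqOn_zero_of_open (f := fun x => act (g : Op n) x - x) Metric.isOpen_ball
    (convex_ball (0 : E n) 1).isPreconnected ((e2_diffOn_act hΓ hg).fun_sub differentiableOn_id)
    (h.sub hz) h3 x hx)

/-- The permutation of `Ω` given by an element of the group. -/
def e2_perm {Γ : Subgroup (GG n)} (hΓ : Proper Γ) {Ω S : Set (E n)} {ψ : E n → E n}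
    (h : Unif Γ Ω ψ S) {g : GG n} (hg : g ∈ Γ) : Equiv.Perm Ω where
  toFun z := ⟨act (g : Op n) z, h.inv g hg z z.2⟩
  invFun z := ⟨act ((g⁻¹ : GG n) : Op n) z, h.inv _ (Γ.inv_mem hg) z z.2⟩
  left_inv z := Subtype.ext (by
    show act ((g⁻¹ : GG n) : Op n) (act (g : Op n) z) = z
    rw [← act_mul (e2a_co_ne hΓ hg (h.sub z.2)), Units.inv_mul, act_one])
  right_inv z := Subtype.ext (by
    show act (g : Op n) (act ((g⁻¹ : GG n) : Op n) z) = z
    rw [← act_mul (e2a_co_ne hΓ (Γ.inv_mem hg) (h.sub z.2)), Units.mul_inv, act_one])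

/-- The group of permutations of `Ω` induced by `Γ`. -/
def e2_G {Γ : Subgroup (GG n)} (hΓ : Proper Γ) {Ω S : Set (E n)} {ψ : E n → E n}
    (h : Unif Γ Ω ψ S) : Subgroup (Equiv.Perm Ω) where
  carrier := {σ | ∃ g ∈ Γ, ∀ z : Ω, (σ z : E n) = act (g : Op n) z}
  one_mem' := ⟨1, Γ.one_mem, fun z => (act_one _).symm⟩
  mul_mem' := by
    rintro σ τ ⟨g, hg, hσ⟩ ⟨g', hg', hτ⟩
    refine ⟨g * g', Γ.mul_mem hg hg', fun z => ?_⟩
    rw [Equiv.Perm.mul_apply, hσ, hτ, Units.val_mul, act_mul (e2a_co_ne hΓ hg' (h.sub z.2))]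
  inv_mem' := by
    rintro σ ⟨g, hg, hσ⟩
    have : σ = e2_perm hΓ h hg := Equiv.ext fun z => Subtype.ext (hσ z)
    exact ⟨g⁻¹, Γ.inv_mem hg, fun z => by rw [this]; rfl⟩

theorem Unif.isCoveringMap {Γ : Subgroup (GG n)} (hΓ : Proper Γ) {Ω S : Set (E n)}
    {ψ : E n → E n} (h : Unif Γ Ω ψ S) :
    IsCoveringMap (fun z : Ω => (⟨ψ z, h.image ▸ Set.mem_image_of_mem ψ z.2⟩ : S)) := by
  have : ContinuousSMul ℂ (E n) := IsBoundedSMul.continuousSMul
  have hcont : Continuous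
      (fun z : Ω => (⟨ψ z, h.image ▸ Set.mem_image_of_mem ψ z.2⟩ : S)) :=
    (h.diff.continuousOn.comp_continuous continuous_subtype_val fun z => z.2).subtype_mk _
  have hopen : IsOpenMap (fun z : Ω => (⟨ψ z, h.image ▸ Set.mem_image_of_mem ψ z.2⟩ : S)) := by
    intro U hU
    have h1 : IsOpen (ψ '' (Subtype.val '' U)) :=
      e2a_isOpen_image h (h.isOpen.isOpenMap_subtype_val U hU) (Subtype.coe_image_subset _ _)
    convert h1.preimage (continuous_subtype_val (p := fun a => a ∈ S)) using 1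
    ext a
    constructor
    · rintro ⟨z, hz, rfl⟩
      exact ⟨z, ⟨z, hz, rfl⟩, rfl⟩
    · rintro ⟨_, ⟨z, hz, rfl⟩, e⟩
      exact ⟨z, hz, Subtype.ext e⟩
  have hsurj : Function.Surjective
      (fun z : Ω => (⟨ψ z, h.image ▸ Set.mem_image_of_mem ψ z.2⟩ : S)) := by
    rintro ⟨a, ha⟩
    rw [← h.image] at ha
    obtain ⟨z, hz, rfl⟩ := ha
    exact ⟨⟨z, hz⟩, rfl⟩
  refine IsQuotientCoveringMap.isCoveringMap _ (e2_G hΓ h) ?_
  refine { toIsQuotientMap := hopen.isQuotientMap hcont hsurj, continuous_const_smul := ?_,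
           apply_eq_iff_mem_orbit := ?_, disjoint := ?_ }
  · rintro ⟨σ, g, hg, hσ⟩
    refine continuous_induced_rng.mpr ?_
    have : Continuous fun z : Ω => act (g : Op n) z :=
      (e2_diffOn_act hΓ hg).continuousOn.comp_continuous continuous_subtype_val fun z => h.sub z.2
    exact this.congr fun z => (hσ z).symm
  · intro z z'
    rw [Subtype.mk.injEq, eq_comm, h.fib _ z'.2 _ z.2]
    constructor
    · rintro ⟨g, hg, e⟩
      exact ⟨⟨e2_perm hΓ h hg, g, hg, fun _ => rfl⟩, Subtype.ext e⟩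
    · rintro ⟨⟨σ, g, hg, hσ⟩, e⟩
      refine ⟨g, hg, ?_⟩
      rw [← hσ, ← e]
      rfl
  · intro z
    obtain ⟨c, hzc, hcΩ, hc, -⟩ := local_inv h.isOpen h.diff h.det z.2
    refine ⟨Subtype.val ⁻¹' c.source,
      (c.open_source.preimage continuous_subtype_val).mem_nhds hzc, ?_⟩
    rintro ⟨σ, g, hg, hσ⟩ ⟨_, ⟨x, hx, rfl⟩, hx'⟩
    have hx1 : act (g : Op n) x ∈ c.source := by
      rw [← hσ]
      exact hx'
    have hx2 : act (g : Op n) x = x := by
      refine c.injOn hx1 hx ?_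
      rw [hc _ hx1, hc _ hx, e2a_psi_act h hg x.2]
    refine Subtype.ext (Equiv.ext fun y => Subtype.ext ?_)
    exact (hσ y).trans (h.act_trivial hΓ hg x.2 hx2 y (h.sub y.2))

theorem Unif.exists_lift {Γ : Subgroup (GG n)} (hΓ : Proper Γ) {Ω S : Set (E n)} {ψ : E n → E n}
    (h : Unif Γ Ω ψ S) {D : Set (E n)} (hD : IsOpen D) (hc : Convex ℝ D) (hne : D.Nonempty)
    {e : E n} (he : ∀ z ∈ D, z + e ∈ D) {χ : E n → E n} (hχ : DifferentiableOn ℂ χ D)
    (hS : ∀ z ∈ D, χ z ∈ S) (hp : ∀ z ∈ D, χ (z + e) = χ z) :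
    ∃ f : E n → E n, DifferentiableOn ℂ f D ∧ (∀ z ∈ D, f z ∈ Ω ∧ ψ (f z) = χ z) ∧
      ∃ g ∈ Γ, ∀ z ∈ D, f (z + e) = act (g : Op n) (f z) := by
  have : ContinuousSMul ℂ (E n) := IsBoundedSMul.continuousSMul
  classical
  have cov := h.isCoveringMap hΓ
  have : ContractibleSpace D := hc.contractibleSpace hne
  have : LocallyPathConnectedSpace D := hc.locallyPathConnectedSpace
  obtain ⟨a0, ha0⟩ := hne
  let χ' : C(D, S) := ⟨fun z => ⟨χ z, hS z z.2⟩,
    (hχ.continuousOn.comp_continuous continuous_subtype_val fun z => z.2).subtype_mk _⟩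
  obtain ⟨z0, hz0, e0⟩ : χ a0 ∈ ψ '' Ω := h.image ▸ hS a0 ha0
  obtain ⟨F, ⟨-, hF⟩, -⟩ := cov.existsUnique_continuousMap_lifts χ' ⟨a0, ha0⟩ ⟨z0, hz0⟩
    (Subtype.ext e0)
  have hF' : ∀ z : D, ψ (F z) = χ z := fun z => congrArg Subtype.val (congrFun hF z)
  let f : E n → E n := fun z => if hz : z ∈ D then (F ⟨z, hz⟩ : E n) else 0
  have hf : ∀ z (hz : z ∈ D), f z = F ⟨z, hz⟩ := fun z hz => dif_pos hz
  have hfΩ : ∀ z ∈ D, f z ∈ Ω := fun z hz => hf z hz ▸ (F ⟨z, hz⟩).2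
  have hfψ : ∀ z ∈ D, ψ (f z) = χ z := fun z hz => hf z hz ▸ hF' ⟨z, hz⟩
  have hfc : ContinuousOn f D := by
    rw [continuousOn_iff_continuous_domRestrict]
    exact (continuous_subtype_val.comp F.continuous).congr fun z => (hf z z.2).symm
  refine ⟨f, fun z hz => ?_, fun z hz => ⟨hfΩ z hz, hfψ z hz⟩, ?_⟩
  · obtain ⟨c, hzc, hcΩ, hc, hcd⟩ := local_inv h.isOpen h.diff h.det (hfΩ z hz)
    have h1 : ∀ᶠ x in 𝓝 z, f x ∈ c.source :=
      (hfc.continuousAt (hD.mem_nhds hz)).eventually_mem (c.open_source.mem_nhds hzc)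
    have h2 : f =ᶠ[𝓝 z] fun x => c.symm (χ x) := by
      filter_upwards [h1, hD.mem_nhds hz] with x hx hx'
      rw [← hfψ x hx', ← hc _ hx, c.left_inv hx]
    have h3 : χ z ∈ c.target := by
      rw [← hfψ z hz, ← hc _ hzc]
      exact c.map_source hzc
    exact (h2.differentiableAt_iff.mpr ((hcd.differentiableAt (c.open_target.mem_nhds h3)).comp z
      (hχ.differentiableAt (hD.mem_nhds hz)))).differentiableWithinAt
  · obtain ⟨g, hg, eg⟩ := (h.fib _ (hfΩ a0 ha0) _ (hfΩ _ (he a0 ha0))).mp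
      (by rw [hfψ _ ha0, hfψ _ (he a0 ha0), hp a0 ha0])
    refine ⟨g, hg, fun z hz => ?_⟩
    let g1 : D → Ω := fun x => F ⟨x + e, he x x.2⟩
    let g2 : D → Ω := fun x => ⟨act (g : Op n) (F x), h.inv g hg _ (F x).2⟩
    have c1 : Continuous g1 :=
      F.continuous.comp ((continuous_subtype_val.add continuous_const).subtype_mk _)
    have c2 : Continuous g2 :=
      ((e2_diffOn_act hΓ hg).continuousOn.comp_continuous
        (continuous_subtype_val.comp F.continuous) fun x => h.sub (F x).2).subtype_mk _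
    have key := cov.eq_of_comp_eq c1 c2 (by
      funext x
      refine Subtype.ext ?_
      show ψ (F ⟨x + e, he x x.2⟩) = ψ (act (g : Op n) (F x))
      rw [hF', e2a_psi_act h hg (F x).2, hF', hp x x.2]) ⟨a0, ha0⟩ (by
      refine Subtype.ext ?_
      show (F ⟨a0 + e, he a0 ha0⟩ : E n) = act (g : Op n) (F ⟨a0, ha0⟩)
      rw [← hf, ← hf, eg])
    have := congrArg Subtype.val (congrFun key ⟨z, hz⟩)
    rw [hf _ (he z hz), hf z hz]
    exact this

end BallQ
end
end

-- merged part: Pool.Agent.Work.MP_72250f_ag.E5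
section
/-!
The extension theorem. slice_bound: y0 with exp (-2 pi y0) = rho, f and gamma from exists_lift for chi on DH e l y0 r (chi_spec). unit_eig_of_lift for
s |-> f (s e) gives y, c; g = c^-1 gamma fixes y; v z = a z lift (f z) with a z = (-form (lift (f z)) y)^-1 has <v z, y> = -1 and v (z + e) = g (v z)
(smul_lift_act). exists_gen_of_lift gives M with g = flow M 1, M y = 0 (nonpos_eig). By the chain rule det (D psi (f z)) det (D f z) = 2 pi i t, and
F (v z) cdet (v z) (D v z)^k = F (lift (f z)) det (D f z)^k (hom, cdet_scale, cdet_comp, cdet_lift, hasFDerivAt_lift), so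
s (chi z) (2 pi i t)^k = F (v z) cdet^k; phi_bound at z = s e with s = log t / (2 pi i), chi (s e) = b + t e.
ext_main: descent, ext_slices, slice_bound.
-/

open scoped ComplexConjugate ENNReal Topology
open MeasureTheory Filter

noncomputable section

namespace BallQ

variable {n : ℕ}

theorem e5_det_comp (A B : E n →L[ℂ] E n) : (A.comp B).det = A.det * B.det := by
  unfold ContinuousLinearMap.det
  rw [← LinearMap.det_comp]
  rfl

theorem e5_form {k : ℕ} {F : V n → ℂ} (hF : IsHol (k * (n + 1)) F) {f : E n → E n} {a : E n → ℂ}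
    {z : E n} (hf : DifferentiableAt ℂ f z) (ha : DifferentiableAt ℂ a z) (ha0 : a z ≠ 0) :
    F (a z • lift (f z)) * cdet (a z • lift (f z)) (fderiv ℂ (fun x => a x • lift (f x)) z) ^ k =
      F (lift (f z)) * (fderiv ℂ f z).det ^ k := by
  have : ContinuousSMul ℂ (E n) := IsBoundedSMul.continuousSMul
  have h1 : HasFDerivAt (fun x => lift (f x)) ((incl n).comp (fderiv ℂ f z)) z :=
    (hasFDerivAt_lift (f z)).comp z hf.hasFDerivAt
  have h2 := ha.hasFDerivAt.fun_smul h1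
  rw [h2.fderiv, cdet_scale, cdet_comp, cdet_lift, hF.hom _ ha0, one_mul, mul_pow, ← pow_mul,
    mul_comm (n + 1) k, inv_pow]
  have : a z ^ (k * (n + 1)) ≠ 0 := pow_ne_zero _ ha0
  field_simp

theorem slice_bound {Γ : Subgroup (GG n)} (hΓ : Proper Γ) {k : ℕ} {F : V n → ℂ}
    (hF : IsHol (k * (n + 1)) F) (hd : AllDecay Γ k F) {Ω S : Set (E n)} {ψ : E n → E n}
    (h : Unif Γ Ω ψ S) {s : E n → ℂ}
    (hs : ∀ z ∈ Ω, s (ψ z) * (fderiv ℂ ψ z).det ^ k = F (lift z)) {b e : E n}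
    {l : E n →L[ℂ] ℂ} {r ρ : ℝ} {τ : E n → ℂ} (hS : Straight S b e l r ρ τ) :
    ∃ B ρ' : ℝ, 0 < ρ' ∧ ∀ t : ℂ, t ≠ 0 → ‖t‖ < ρ' → ‖s (b + t • e)‖ ≤ B := by
  have : ContinuousSMul ℂ (E n) := IsBoundedSMul.continuousSMul
  have hpi : 0 < 2 * Real.pi := by positivity
  obtain ⟨y0, hy0⟩ : ∃ y0 : ℝ, Real.exp (-(2 * Real.pi * y0)) ≤ ρ := by
    refine ⟨-Real.log ρ / (2 * Real.pi), le_of_eq ?_⟩
    rw [mul_div_cancel₀ _ hpi.ne', neg_neg, Real.exp_log hS.ρpos]
  obtain ⟨hχd, hχ⟩ := hS.chi_spec hy0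
  have hmem : ∀ σ : ℂ, y0 < σ.im → σ • e ∈ DH e l y0 r :=
    fun σ hσ => smul_mem_DH hS.le hS.rpos hσ
  have hDo := isOpen_DH e l y0 r
  obtain ⟨f, hfd, hf, γ, hγ, hfp⟩ := h.exists_lift hΓ hDo (convex_DH e l y0 r)
    ⟨_, hmem (((y0 + 1 : ℝ) : ℂ) * Complex.I) (by simp)⟩ (fun z hz => add_mem_DH hS.le hz) hχd
    (fun z hz => (hχ z hz).1) (fun z hz => (hχ z hz).2.1)
  have hsm : DifferentiableOn ℂ (fun σ : ℂ => σ • e) {σ | y0 < σ.im} :=
    (differentiable_id.smul_const e).differentiableOn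
  have hsucc : ∀ σ : ℂ, (σ + 1) • e = σ • e + e := fun σ => by rw [add_smul, one_smul]
  have hγi := hΓ.isom γ hγ
  obtain ⟨y, hy1, hy2, c, hc, hγy⟩ := unit_eig_of_lift hγi (φ := fun σ => f (σ • e)) (y0 := y0)
    (hfd.comp hsm fun σ hσ => hmem σ hσ) (fun σ hσ => h.sub (hf _ (hmem σ hσ)).1)
    (fun σ hσ => by rw [hsucc, hfp _ (hmem σ hσ)])
  have hc0 : c ≠ 0 := by
    rintro rfl
    simp at hc
  have hci : ‖c⁻¹‖ = 1 := by rw [norm_inv, hc, inv_one]
  set g : Op n := c⁻¹ • (γ : Op n) with hg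
  have hgi : IsIsom g := hγi.smul hci
  have hgy : g y = y := by
    rw [hg, smul_apply, hγy, smul_smul, inv_mul_cancel₀ hc0, one_smul]
  have hL : ∀ z ∈ DH e l y0 r, lift (f z) ∈ Neg n :=
    fun z hz => lift_mem_Neg.mpr (h.sub (hf z hz).1)
  have hne : ∀ z ∈ DH e l y0 r, form (lift (f z)) y ≠ 0 :=
    fun z hz hh => form_ne_zero_of_neg (hL z hz) hy1 hy2 (form_eq_zero_comm.mp hh)
  let a : E n → ℂ := fun z => (-form (lift (f z)) y)⁻¹
  have ha0 : ∀ z ∈ DH e l y0 r, a z ≠ 0 := fun z hz => inv_ne_zero (neg_ne_zero.mpr (hne z hz))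
  have hLd : DifferentiableOn ℂ (fun z => lift (f z)) (DH e l y0 r) := fun z hz =>
    (hasFDerivAt_lift (f z)).differentiableAt.comp_differentiableWithinAt z (hfd z hz)
  have had : DifferentiableOn ℂ a (DH e l y0 r) := by
    have h1 : DifferentiableOn ℂ (fun z => -form (lift (f z)) y) (DH e l y0 r) :=
      ((formL y).differentiable.comp_differentiableOn hLd).neg
    exact h1.inv fun z hz => neg_ne_zero.mpr (hne z hz)
  let v : E n → V n := fun z => a z • lift (f z)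
  have hvd : DifferentiableOn ℂ v (DH e l y0 r) := had.smul hLd
  have hvneg : ∀ z ∈ DH e l y0 r, v z ∈ Neg n := fun z hz => smul_mem_Neg (ha0 z hz) (hL z hz)
  have hvn : ∀ z ∈ DH e l y0 r, form (v z) y = -1 := by
    intro z hz
    have := hne z hz
    simp only [v, a, form_smul_left]
    field_simp
  have hvp : ∀ z ∈ DH e l y0 r, v (z + e) = g (v z) := by
    intro z hz
    have h1 : co ((γ : Op n) (lift (f z))) none ≠ 0 := co_none_ne_zero (hγi.mem_Neg.mpr (hL z hz))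
    have h2 := smul_lift_act h1
    rw [← hfp z hz] at h2
    have h3 : g (v z) = (c⁻¹ * a z * co ((γ : Op n) (lift (f z))) none) • lift (f (z + e)) := by
      rw [hg, smul_apply]
      simp only [v, map_smul]
      conv_lhs => rw [h2]
      rw [smul_smul, smul_smul]
    have h4 : form (g (v z)) y = -1 := by
      conv_lhs => rw [← hgy]
      rw [hgi, hvn z hz]
    rw [h3, form_smul_left] at h4
    rw [h3]
    have h5 := hne _ (add_mem_DH hS.le hz)
    simp only [v]
    congr 1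
    simp only [a] at h4 ⊢
    rw [eq_comm]
    refine eq_inv_of_mul_eq_one_left ?_
    rw [mul_neg, h4, neg_neg]
  obtain ⟨M, hM, hgM⟩ := exists_gen_of_lift hgi hy1 hy2 hgy (v := fun σ => v (σ • e)) (y0 := y0)
    (hvd.comp hsm fun σ hσ => hmem σ hσ) (fun σ hσ => hvneg _ (hmem σ hσ))
    (fun σ hσ => hvn _ (hmem σ hσ)) (fun σ hσ => by rw [hsucc, hvp _ (hmem σ hσ)])
  have hMy : M y = 0 := hM.nonpos_eig hy2 (c := 1) (by rw [← hgM, hgy, one_smul])
  have hP : InP Γ (flow M 1) := ⟨c⁻¹, hci, γ, hγ, hgM ▸ hg⟩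
  obtain ⟨C, y2, hC⟩ := phi_bound hF hd hM hP hS.le hS.rpos hvd hy1 hy2 hMy hvneg hvn
    (fun z hz => hgM ▸ hvp z hz)
  have key : ∀ z ∈ DH e l y0 r, F (v z) * cdet (v z) (fderiv ℂ v z) ^ k = s (chi b e l τ z) *
      (2 * Real.pi * Complex.I * Complex.exp (2 * Real.pi * Complex.I * l z)) ^ k := by
    intro z hz
    have hn := hDo.mem_nhds hz
    have h1 : DifferentiableAt ℂ f z := hfd.differentiableAt hn
    have h2 : DifferentiableAt ℂ ψ (f z) := h.diff.differentiableAt (h.isOpen.mem_nhds (hf z hz).1)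
    have h3 : chi b e l τ =ᶠ[𝓝 z] fun x => ψ (f x) :=
      Filter.mem_of_superset hn fun x hx => (hf x hx).2.symm
    have h4 : fderiv ℂ (chi b e l τ) z = (fderiv ℂ ψ (f z)).comp (fderiv ℂ f z) := by
      rw [h3.fderiv_eq]
      exact (h2.hasFDerivAt.comp z h1.hasFDerivAt).fderiv
    rw [← (hχ z hz).2.2, h4, e5_det_comp, mul_pow, ← mul_assoc, ← (hf z hz).2, hs _ (hf z hz).1]
    exact e5_form hF h1 (had.differentiableAt hn) (ha0 z hz)
  refine ⟨C / (2 * Real.pi) ^ k, Real.exp (-(2 * Real.pi * max y0 y2)), Real.exp_pos _, ?_⟩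
  intro t ht0 ht
  obtain ⟨σ, hσ⟩ : ∃ σ : ℂ, Complex.exp (2 * Real.pi * Complex.I * σ) = t := by
    refine ⟨Complex.log t / (2 * Real.pi * Complex.I), ?_⟩
    rw [mul_div_cancel₀ _ Complex.two_pi_I_ne_zero, Complex.exp_log ht0]
  have hnt : ‖t‖ = Real.exp (-(2 * Real.pi * σ.im)) := by
    rw [← hσ, Complex.norm_exp]
    congr 1
    simp
  have hσi : max y0 y2 < σ.im := by
    rw [hnt, Real.exp_lt_exp, neg_lt_neg_iff] at ht
    exact lt_of_mul_lt_mul_left ht hpi.le
  have hσ0 : y0 < σ.im := (le_max_left _ _).trans_lt hσi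
  have hlσ : l (σ • e) = σ := by rw [map_smul, hS.le, smul_eq_mul, mul_one]
  have hchi : chi b e l τ (σ • e) = b + t • e := by
    simp only [chi, hlσ, sub_self, hS.zero, add_zero, hσ]
  have h1 := hC σ ((le_max_right _ _).trans hσi.le)
  rw [key _ (hmem σ hσ0), hchi, hlσ, hσ, ← hnt, norm_mul, norm_pow, norm_mul] at h1
  have h2 : ‖(2 * Real.pi * Complex.I : ℂ)‖ = 2 * Real.pi := by
    simp [abs_of_pos Real.pi_pos]
  rw [h2, mul_pow, ← mul_assoc] at h1
  have h3 : 0 < ‖t‖ ^ k := pow_pos (norm_pos_iff.mpr ht0) k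
  rw [le_div_iff₀ (pow_pos hpi k)]
  exact le_of_mul_le_mul_right h1 h3

theorem ext_main {Γ : Subgroup (GG n)} (hΓ : Proper Γ) {k : ℕ} {F : V n → ℂ}
    (hF : IsHol (k * (n + 1)) F) (hi : Inv Γ F) (hd : AllDecay Γ k F) {U : Set (E n)}
    (hU : IsOpen U) {h : E n → ℂ} (hh : DifferentiableOn ℂ h U)
    (h0 : ∀ a ∈ U, ¬ ∀ᶠ x in 𝓝 a, h x = 0) {Ω : Set (E n)} {ψ : E n → E n}
    (hu : Unif Γ Ω ψ {a | a ∈ U ∧ h a ≠ 0}) :
    ∃ s : E n → ℂ, DifferentiableOn ℂ s U ∧
      ∀ z ∈ Ω, s (ψ z) * (fderiv ℂ ψ z).det ^ k = F (lift z) := by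
  obtain ⟨s, hs, hs'⟩ := descent hΓ hu hF hi
  obtain ⟨s', h1, h2⟩ := ext_slices hU hh h0 hs
    (fun b e l r ρ τ hS => slice_bound hΓ hF hd hu hs' hS)
  refine ⟨s', h1, fun z hz => ?_⟩
  have : ψ z ∈ {a | a ∈ U ∧ h a ≠ 0} := hu.image ▸ Set.mem_image_of_mem ψ hz
  rw [h2 _ this.1 this.2, hs' z hz]

end BallQ
end
end

-- merged part: Pool.Agent.Work.MP_72250f_ag.P2a
section
/-!
Extension across the branch locus. local_model: W from exists_nbhd, N = Nat.card (stabPt Gamma z) >= 1, D0 x = (det (D psi x) * form (lift x) (lift z) ^ (n+1)) ^ N is invariant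
under the stabiliser (det_act; if g (lift z) = c lift z then |c| = 1, c^N = 1 by pow_card_eq_one', form (lift (act g x)) (lift z) = c j^-1 form (lift x) (lift z)), D from
descend_local; dense_det shows that D is nowhere locally zero. glue: s' a = (sigma chosen at a) a; two local extensions agree by density and continuity.
ext_inner: s0 from descent for the restriction to T = psi '' {det nonzero} (QMap.restrict, det_act, QMap.unif), local_model and ext_main for the group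
stabPt Gamma z (Proper.mono; AllDecay passes to subgroups), glue, and continuity with dense_det for the identity at ramified points.
vanish: F' = F0^N * kern ((n+1) N) (lift z) is IsHol of weight (k+1) N (n+1), invariant under the stabiliser, and AllDecay for (k+1) N since
|kern| is bounded on NN >= delta (one_le_CC, NN_le_flow). ext_main gives s' with s' (psi x) det^((k+1) N) = s0 (psi x)^N det^(k N) kern; cancel det^(k N) on the
dense set and let x tend to z.
-/

open scoped ComplexConjugate ENNReal Topology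
open MeasureTheory Filter

noncomputable section

namespace BallQ

variable {n : ℕ}

theorem p2a_pow_apply {g : GG n} {v : V n} {c : ℂ} (h : (g : Op n) v = c • v) (m : ℕ) :
    ((g ^ m : GG n) : Op n) v = c ^ m • v := by
  induction m with
  | zero => simp
  | succ m ih =>
    rw [pow_succ, Units.val_mul, mul_apply_eq_comp, h, map_smul, ih, smul_smul, pow_succ, mul_comm]

theorem p2a_root {Γ : Subgroup (GG n)} {z : E n} (hz : z ∈ Metric.ball (0 : E n) 1) {g : GG n}
    (hg : g ∈ stabPt Γ z) {c : ℂ} (h : (g : Op n) (lift z) = c • lift z) :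
    c ^ Nat.card (stabPt Γ z) = 1 := by
  have h1 : (⟨g, hg⟩ : stabPt Γ z) ^ Nat.card (stabPt Γ z) = 1 := pow_card_eq_one'
  have h2 : g ^ Nat.card (stabPt Γ z) = 1 := by
    exact congrArg Subtype.val h1
  have h3 := p2a_pow_apply h (Nat.card (stabPt Γ z))
  rw [h2, Units.val_one, one_apply_eq_self] at h3
  have h4 := congrArg (fun v => co v none) h3
  simpa using h4.symm

theorem QMap.local_model {Γ : Subgroup (GG n)} (hΓ : Proper Γ) {Ω S : Set (E n)}
    {ψ : E n → E n} (h : QMap Γ Ω ψ S) {z : E n} (hz : z ∈ Ω) :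
    ∃ (W : Set (E n)) (D : E n → ℂ), IsOpen W ∧ z ∈ W ∧ W ⊆ Ω ∧ IsOpen (ψ '' W) ∧
      DifferentiableOn ℂ D (ψ '' W) ∧ (∀ a ∈ ψ '' W, ¬ ∀ᶠ x in 𝓝 a, D x = 0) ∧
      (∀ x ∈ W, D (ψ x) ≠ 0 ↔ (fderiv ℂ ψ x).det ≠ 0) ∧
      Unif (stabPt Γ z) {x | x ∈ W ∧ (fderiv ℂ ψ x).det ≠ 0} ψ {a | a ∈ ψ '' W ∧ D a ≠ 0} := by
  have : ContinuousSMul ℂ (E n) := IsBoundedSMul.continuousSMul
  have hzb := h.sub hz
  obtain ⟨W, hWo, hzW, hWΩ, hWb, hW1, hW2⟩ := exists_nbhd hΓ hzb (h.isOpen.mem_nhds hz)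
  have hfin := finite_stabPt hΓ hzb
  set N := Nat.card (stabPt Γ z) with hN
  have hN0 : N ≠ 0 := Nat.card_pos.ne'
  have hzN : lift z ∈ Neg n := lift_mem_Neg.mpr hzb
  have hj : ∀ g ∈ Γ, ∀ x ∈ W, co ((g : Op n) (lift x)) none ≠ 0 := fun g hg x hx =>
    co_none_ne_zero ((hΓ.isom g hg).mem_Neg.mpr (lift_mem_Neg.mpr (hWb hx)))
  have hdet := differentiableOn_det_fderiv h.isOpen h.diff
  let D0 : E n → ℂ := fun x => ((fderiv ℂ ψ x).det * form (lift x) (lift z) ^ (n + 1)) ^ N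
  have hD0 : DifferentiableOn ℂ D0 W := by
    have h1 : Differentiable ℂ fun x : E n => form (lift x) (lift z) := fun x =>
      (formL (lift z)).differentiableAt.comp x (hasFDerivAt_lift x).differentiableAt
    exact ((hdet.mono hWΩ).mul (h1.differentiableOn.pow _)).pow _
  have hinv : ∀ g ∈ Γ, ∀ x ∈ W, act (g : Op n) x ∈ W → D0 (act (g : Op n) x) = D0 x := by
    intro g hg x hx hgx
    have hs := hW2 g hg x hx hgx
    obtain ⟨-, c, -, hc⟩ := id hs
    have h1 : conj c ^ N = 1 := by rw [← map_pow, p2a_root hzb hs hc, map_one]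
    have h2 := hΓ.isom g hg (lift x) (lift z)
    rw [smul_lift_act (hj g hg x hx), hc, form_smul_left, form_smul_right] at h2
    simp only [D0]
    rw [h.det_act hΓ hg (hWΩ hx), ← h2]
    have h3 : (conj c ^ (n + 1)) ^ N = 1 := by rw [← pow_mul, mul_comm, pow_mul, h1, one_pow]
    rw [← mul_one ((_ * _ * _ : ℂ) ^ N), ← h3, ← mul_pow]
    congr 1
    ring
  obtain ⟨D, hD, hDψ⟩ := h.descend_local hΓ hWo hWΩ hD0 hinv
  have hiff : ∀ x ∈ W, D (ψ x) ≠ 0 ↔ (fderiv ℂ ψ x).det ≠ 0 := by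
    intro x hx
    have h1 : form (lift x) (lift z) ≠ 0 :=
      form_ne_zero_of_neg hzN (ne_zero_of_mem_Neg (lift_mem_Neg.mpr (hWb hx)))
        (le_of_lt (lift_mem_Neg.mpr (hWb hx)))
    rw [hDψ x hx]
    simp only [D0]
    rw [pow_ne_zero_iff hN0, mul_ne_zero_iff]
    exact ⟨fun hh => hh.1, fun hh => ⟨hh, pow_ne_zero _ h1⟩⟩
  refine ⟨W, D, hWo, hzW, hWΩ, h.isOpenMap W hWΩ hWo, hD, ?_, hiff, ?_⟩
  · rintro _ ⟨x, hx, rfl⟩ hev
    have h1 : ContinuousAt ψ x := h.diff.continuousOn.continuousAt (h.isOpen.mem_nhds (hWΩ hx))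
    have h2 : ∀ᶠ y in 𝓝 x, D (ψ y) = 0 := h1.eventually hev
    have h3 := mem_closure_iff_frequently.mp (h.dense_det hΓ (hWΩ hx))
    obtain ⟨y, hy1, hy2, hy3⟩ := (h3.and_eventually (h2.and (hWo.mem_nhds hx))).exists
    exact (hiff y hy3).mpr hy1.2 hy2
  · refine ⟨?_, fun x hx => hWb hx.1, ?_, h.diff.mono fun x hx => hWΩ hx.1, fun x hx => hx.2, ?_, ?_⟩
    · exact (hdet.mono hWΩ).continuousOn.isOpen_inter_preimage hWo isOpen_compl_singleton
    · intro g hg x hx
      refine ⟨hW1 g hg x hx.1, ?_⟩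
      rw [h.det_act hΓ hg.1 (hWΩ hx.1)]
      exact mul_ne_zero (pow_ne_zero _ (hj g hg.1 x hx.1)) hx.2
    · intro x hx x' hx'
      rw [h.fib x (hWΩ hx.1) x' (hWΩ hx'.1)]
      constructor
      · rintro ⟨g, hg, hgx⟩
        exact ⟨g, hW2 g hg x hx.1 (hgx ▸ hx'.1), hgx⟩
      · rintro ⟨g, hg, hgx⟩
        exact ⟨g, hg.1, hgx⟩
    · ext a
      constructor
      · rintro ⟨x, hx, rfl⟩
        exact ⟨⟨x, hx.1, rfl⟩, (hiff x hx.1).mpr hx.2⟩
      · rintro ⟨⟨x, hx, rfl⟩, ha⟩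
        exact ⟨x, ⟨hx, (hiff x hx).mp ha⟩, rfl⟩

theorem glue {S T : Set (E n)} (hd : S ⊆ closure T) {s : E n → ℂ}
    (hloc : ∀ a ∈ S, ∃ (O : Set (E n)) (σ : E n → ℂ), IsOpen O ∧ a ∈ O ∧ O ⊆ S ∧
      DifferentiableOn ℂ σ O ∧ ∀ x ∈ O ∩ T, σ x = s x) :
    ∃ s' : E n → ℂ, DifferentiableOn ℂ s' S ∧ ∀ x ∈ S ∩ T, s' x = s x := by
  have : ContinuousSMul ℂ (E n) := IsBoundedSMul.continuousSMul
  choose! O σ hO haO hOS hσ hs using hloc
  refine ⟨fun a => σ a a, fun a ha => ?_, fun x hx => hs x hx.1 x ⟨haO x hx.1, hx.2⟩⟩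
  have key : ∀ x ∈ O a, σ x x = σ a x := by
    intro x hx
    have hxS := hOS a ha hx
    have h1 := (hO x hxS).mem_nhds (haO x hxS)
    have h2 := (hO a ha).mem_nhds hx
    refine tendsto_nhds_unique_of_frequently_eq ((hσ x hxS).continuousOn.continuousAt h1).tendsto
      ((hσ a ha).continuousOn.continuousAt h2).tendsto ?_
    refine ((mem_closure_iff_frequently.mp (hd hxS)).and_eventually
      (Filter.inter_mem h1 h2)).mono fun y hy => ?_
    rw [hs x hxS y ⟨hy.2.1, hy.1⟩, hs a ha y ⟨hy.2.2, hy.1⟩]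
  have h3 := (hO a ha).mem_nhds (haO a ha)
  exact (((hσ a ha).differentiableAt h3).congr_of_eventuallyEq
    (Filter.mem_of_superset h3 key)).differentiableWithinAt

theorem AllDecay.mono_group {Γ Λ : Subgroup (GG n)} (h : Λ ≤ Γ) {k : ℕ} {F : V n → ℂ}
    (hd : AllDecay Γ k F) : AllDecay Λ k F := by
  rintro M hM ⟨c, hc, γ, hγ, h1⟩ h0
  exact hd M hM ⟨c, hc, γ, h hγ, h1⟩ h0

end BallQ
end
end

-- merged part: Pool.Agent.Work.MP_72250f_ag.P2
section
/-!
Extension across the branch locus. local_model: W from exists_nbhd, N = Nat.card (stabPt Gamma z) >= 1, D0 x = (det (D psi x) * form (lift x) (lift z) ^ (n+1)) ^ N is invariant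
under the stabiliser (det_act; if g (lift z) = c lift z then |c| = 1, c^N = 1 by pow_card_eq_one', form (lift (act g x)) (lift z) = c j^-1 form (lift x) (lift z)), D from
descend_local; dense_det shows that D is nowhere locally zero. glue: s' a = (sigma chosen at a) a; two local extensions agree by density and continuity.
ext_inner: s0 from descent for the restriction to T = psi '' {det nonzero} (QMap.restrict, det_act, QMap.unif), local_model and ext_main for the group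
stabPt Gamma z (Proper.mono; AllDecay passes to subgroups), glue, and continuity with dense_det for the identity at ramified points.
vanish: F' = F0^N * kern ((n+1) N) (lift z) is IsHol of weight (k+1) N (n+1), invariant under the stabiliser, and AllDecay for (k+1) N since
|kern| is bounded on NN >= delta (one_le_CC, NN_le_flow). ext_main gives s' with s' (psi x) det^((k+1) N) = s0 (psi x)^N det^(k N) kern; cancel det^(k N) on the
dense set and let x tend to z.
-/

open scoped ComplexConjugate ENNReal Topology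
open MeasureTheory Filter

noncomputable section

namespace BallQ

variable {n : ℕ}

theorem p2_kern_eq {w : ℕ} {y v : V n} (hv : v ∈ Neg n) : kern w y v = (-form v y)⁻¹ ^ w := by
  rw [kern, Set.indicator_of_mem hv]

theorem p2_form_ne {y v : V n} (hy : y ∈ Neg n) (hv : v ∈ Neg n) : form v y ≠ 0 :=
  form_ne_zero_of_neg hy (ne_zero_of_mem_Neg hv) (le_of_lt hv)

theorem p2_kern_ne {w : ℕ} {y v : V n} (hy : y ∈ Neg n) (hv : v ∈ Neg n) : kern w y v ≠ 0 := by
  rw [p2_kern_eq hv]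
  exact pow_ne_zero _ (inv_ne_zero (neg_ne_zero.2 (p2_form_ne hy hv)))

theorem p2_kern_diff (w : ℕ) {y : V n} (hy : y ∈ Neg n) :
    DifferentiableOn ℂ (kern w y) (Neg n) := by
  have h1 : DifferentiableOn ℂ (fun v : V n => -form v y) (Neg n) :=
    (formL y).differentiable.neg.differentiableOn
  exact ((h1.inv fun v hv => neg_ne_zero.2 (p2_form_ne hy hv)).pow w).congr
    fun v hv => p2_kern_eq hv

theorem p2_kern_bd (w : ℕ) {y v : V n} (hy : y ∈ Neg n) (hv : v ∈ Neg n) :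
    ‖kern w y v‖ ^ 2 * NN v ^ w ≤ (NN y)⁻¹ ^ w := by
  have h1 := one_le_CC hv hy
  have hv0 : 0 < NN v := hv
  have hy0 : 0 < NN y := hy
  have hf : 0 < ‖form v y‖ := norm_pos_iff.2 (p2_form_ne hy hv)
  rw [CC, le_div_iff₀ (by positivity), one_mul] at h1
  rw [p2_kern_eq hv, norm_pow, norm_inv, norm_neg, ← pow_mul, mul_comm w 2, pow_mul, ← mul_pow]
  refine pow_le_pow_left₀ (by positivity) ?_ w
  rw [inv_pow, inv_mul_le_iff₀ (by positivity), ← div_eq_mul_inv, le_div_iff₀ hy0]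
  exact h1

theorem p2_kern_hol (w : ℕ) {y : V n} (hy : y ∈ Neg n) : IsHol w (kern w y) :=
  ⟨p2_kern_diff w hy, fun _ hc v => a7a_kern_smul w y hc v,
    fun v hv => by rw [kern, Set.indicator_of_notMem hv],
    (NN y)⁻¹ ^ w, fun _ hv => p2_kern_bd w hy hv⟩

theorem p2_hol_mul {w w' : ℕ} {G H : V n → ℂ} (hG : IsHol w G) (hH : IsHol w' H) :
    IsHol (w + w') (fun v => G v * H v) := by
  refine ⟨hG.diff.mul hH.diff, fun c hc v => ?_, fun v hv => ?_, ?_⟩
  · rw [hG.hom c hc, hH.hom c hc]; ring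
  · rw [hG.zero v hv, zero_mul]
  · obtain ⟨B, hB⟩ := hG.bdd
    obtain ⟨B', hB'⟩ := hH.bdd
    refine ⟨B * B', fun v hv => ?_⟩
    have hv0 : 0 < NN v := hv
    have := mul_le_mul (hB v hv) (hB' v hv) (by positivity)
      (le_trans (by positivity) (hB v hv))
    rw [norm_mul]
    calc (‖G v‖ * ‖H v‖) ^ 2 * NN v ^ (w + w') =
        ‖G v‖ ^ 2 * NN v ^ w * (‖H v‖ ^ 2 * NN v ^ w') := by ring
      _ ≤ B * B' := this

theorem p2_hol_pow {w w' : ℕ} {G H : V n → ℂ} (hG : IsHol w G) (hH : IsHol w' H) (N : ℕ) :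
    IsHol (w * N + w') (fun v => G v ^ N * H v) := by
  induction N with
  | zero => simpa using hH
  | succ N ih =>
    have h := p2_hol_mul hG ih
    have e1 : w * (N + 1) + w' = w + (w * N + w') := by ring
    have e2 : (fun v => G v ^ (N + 1) * H v) = fun v => G v * (G v ^ N * H v) := by
      funext v; ring
    rw [e1, e2]
    exact h

theorem p2_stab_le (Γ : Subgroup (GG n)) (z : E n) : stabPt Γ z ≤ Γ := fun _ hg => hg.1

theorem p2_pow_apply {g : GG n} {y : V n} {c : ℂ} (h : (g : Op n) y = c • y) (m : ℕ) :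
    ((g ^ m : GG n) : Op n) y = c ^ m • y := by
  induction m with
  | zero => simp
  | succ m ih =>
    rw [pow_succ', Units.val_mul]
    change (g : Op n) (((g ^ m : GG n) : Op n) y) = _
    rw [ih, map_smul, h, smul_smul, pow_succ]

theorem p2_kern_inv {Γ : Subgroup (GG n)} (hΓ : Proper Γ) {z : E n}
    (hz : z ∈ Metric.ball (0 : E n) 1) (m : ℕ) :
    Inv (stabPt Γ z) (kern (m * Nat.card (stabPt Γ z)) (lift z)) := by
  intro g hg v
  have hy : lift z ∈ Neg n := lift_mem_Neg.2 hz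
  have hi := hΓ.isom g hg.1
  obtain ⟨c, hc, hgc⟩ := ((stabPt Γ z).inv_mem hg).2
  have h1 : (g⁻¹ : GG n) ^ Nat.card (stabPt Γ z) = 1 := by
    have := pow_card_eq_one' (G := stabPt Γ z) (x := ⟨g⁻¹, (stabPt Γ z).inv_mem hg⟩)
    exact congrArg Subtype.val this
  have h2 := p2_pow_apply hgc (Nat.card (stabPt Γ z))
  rw [h1] at h2
  have h3 : c ^ Nat.card (stabPt Γ z) = 1 := by
    have h4 : (c ^ Nat.card (stabPt Γ z) - 1) • lift z = 0 := by
      rw [sub_smul, ← h2, one_smul]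
      simp
    exact sub_eq_zero.1 ((smul_eq_zero.1 h4).resolve_right (ne_zero_of_mem_Neg hy))
  have h5 : conj c ^ Nat.card (stabPt Γ z) = 1 := by
    rw [← map_pow, h3, map_one]
  by_cases hv : v ∈ Neg n
  · rw [p2_kern_eq hv, p2_kern_eq (hi.mem_Neg.2 hv), hi.form_left, hgc, form_smul_right,
      ← mul_neg, mul_inv, mul_pow, mul_comm m, pow_mul, inv_pow, h5]
    simp
  · rw [kern, kern, Set.indicator_of_notMem hv,
      Set.indicator_of_notMem fun h => hv (hi.mem_Neg.1 h)]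

theorem p2_decay {Γ : Subgroup (GG n)} {k w : ℕ} {G H : V n → ℂ} (hd : AllDecay Γ k G)
    (hH : IsHol w H) (N : ℕ) : AllDecay Γ (k * N) (fun v => G v ^ N * H v) := by
  intro M hM hP h0 R δ hδ
  obtain ⟨C, hC⟩ := hd M hM hP h0 R δ hδ
  obtain ⟨B, hB⟩ := hH.bdd
  refine ⟨C ^ N * √(B / δ ^ w), fun u hu hu' s hs => ?_⟩
  have h1 := hC u hu hu' s hs
  have h2 : δ ≤ NN (flow M s u) := hu'.trans (hM.isGen.NN_le_flow hs u)
  have h3 := hB _ (lt_of_lt_of_le hδ h2)
  have h4 : ‖H (flow M s u)‖ ≤ √(B / δ ^ w) := by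
    refine Real.le_sqrt_of_sq_le ?_
    rw [le_div_iff₀ (by positivity)]
    exact le_trans (mul_le_mul_of_nonneg_left (pow_le_pow_left₀ hδ.le h2 w) (by positivity)) h3
  have h5 := pow_le_pow_left₀ (norm_nonneg _) h1 N
  have h6 := mul_le_mul h5 h4 (norm_nonneg _) (le_trans (by positivity) h5)
  rw [norm_mul, norm_pow]
  refine h6.trans (le_of_eq ?_)
  rw [mul_pow, ← Real.exp_nat_mul]
  have e : (N : ℝ) * -(2 * Real.pi * ((k : ℝ) * (1 - age M)) * s.im) =
      -(2 * Real.pi * (((k * N : ℕ) : ℝ) * (1 - age M)) * s.im) := by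
    push_cast; ring
  rw [e]; ring

theorem p2_cont {w : ℕ} {G : V n → ℂ} (hG : IsHol w G) {W : Set (E n)}
    (hW : W ⊆ Metric.ball 0 1) : ContinuousOn (fun x => G (lift x)) W :=
  hG.diff.continuousOn.comp continuous_lift.continuousOn fun _ hx => lift_mem_Neg.2 (hW hx)

theorem QMap.ext_inner {Γ : Subgroup (GG n)} (hΓ : Proper Γ) {Ω S : Set (E n)}
    {ψ : E n → E n} (h : QMap Γ Ω ψ S) {k : ℕ} {F : V n → ℂ} (hF : IsHol (k * (n + 1)) F)
    (hi : Inv Γ F) (hd : AllDecay Γ k F) :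
    ∃ s : E n → ℂ, DifferentiableOn ℂ s S ∧
      ∀ z ∈ Ω, s (ψ z) * (fderiv ℂ ψ z).det ^ k = F (lift z) := by
  have : ContinuousSMul ℂ (E n) := IsBoundedSMul.continuousSMul
  have hdet := (differentiableOn_det_fderiv h.isOpen h.diff).continuousOn
  have hΩ' : IsOpen {z | z ∈ Ω ∧ (fderiv ℂ ψ z).det ≠ 0} :=
    hdet.isOpen_inter_preimage h.isOpen isOpen_ne
  have hT : IsOpen (ψ '' {z | z ∈ Ω ∧ (fderiv ℂ ψ z).det ≠ 0}) :=
    h.isOpenMap _ (fun _ hx => hx.1) hΩ'
  have hTS : ψ '' {z | z ∈ Ω ∧ (fderiv ℂ ψ z).det ≠ 0} ⊆ S := by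
    rw [← h.image]
    exact Set.image_mono fun _ hx => hx.1
  have hne : ∀ z ∈ Ω, ψ z ∈ ψ '' {z | z ∈ Ω ∧ (fderiv ℂ ψ z).det ≠ 0} →
      (fderiv ℂ ψ z).det ≠ 0 := by
    rintro z hz ⟨z', hz', e⟩
    obtain ⟨g, hg, rfl⟩ := (h.fib z' hz'.1 z hz).1 e
    rw [h.det_act hΓ hg hz'.1]
    exact mul_ne_zero (pow_ne_zero _ (e2a_co_ne hΓ hg (h.sub hz'.1))) hz'.2
  obtain ⟨s0, -, hs0⟩ := descent hΓ ((h.restrict hT hTS).unif fun z hz => hne z hz.1 hz.2) hF hi
  have hcl : S ⊆ closure (ψ '' {z | z ∈ Ω ∧ (fderiv ℂ ψ z).det ≠ 0}) := by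
    rw [← h.image]
    rintro _ ⟨z, hz, rfl⟩
    exact ((h.diff.continuousOn z hz).mono fun _ hx => hx.1).mem_closure_image
      (h.dense_det hΓ hz)
  obtain ⟨s, hs1, hs2⟩ := glue (s := s0) hcl (by
    intro a ha
    rw [← h.image] at ha
    obtain ⟨z, hz, rfl⟩ := ha
    obtain ⟨W, D, -, hzW, hWΩ, hO, hD, hD0, -, hU⟩ := h.local_model hΓ hz
    obtain ⟨σ, hσ1, hσ2⟩ := ext_main (hΓ.mono (p2_stab_le Γ z)) hF
      (fun g hg => hi g hg.1) (hd.mono_group (p2_stab_le Γ z)) hO hD hD0 hU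
    refine ⟨ψ '' W, σ, hO, Set.mem_image_of_mem ψ hzW, ?_, hσ1, ?_⟩
    · rw [← h.image]
      exact Set.image_mono hWΩ
    · rintro _ ⟨⟨x, hx, rfl⟩, hxT⟩
      have hx0 := hne x (hWΩ hx) hxT
      exact mul_right_cancel₀ (pow_ne_zero k hx0)
        ((hσ2 x ⟨hx, hx0⟩).trans (hs0 x ⟨hWΩ hx, hxT⟩).symm))
  refine ⟨s, hs1, ?_⟩
  have hmaps : Set.MapsTo ψ Ω S := fun x hx => h.image ▸ Set.mem_image_of_mem ψ hx
  refine Set.EqOn.of_subset_closure (s := {z | z ∈ Ω ∧ (fderiv ℂ ψ z).det ≠ 0})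
    (f := fun z => s (ψ z) * (fderiv ℂ ψ z).det ^ k) (g := fun z => F (lift z)) ?_
    ((hs1.continuousOn.comp h.diff.continuousOn hmaps).mul (hdet.pow k)) (p2_cont hF h.sub)
    (fun _ hx => hx.1) (h.dense_det hΓ)
  intro x hx
  have hxT : ψ x ∈ ψ '' {z | z ∈ Ω ∧ (fderiv ℂ ψ z).det ≠ 0} := Set.mem_image_of_mem ψ hx
  change s (ψ x) * _ = _
  rw [hs2 _ ⟨hmaps hx.1, hxT⟩]
  exact hs0 x ⟨hx.1, hxT⟩

theorem QMap.vanish {Γ : Subgroup (GG n)} (hΓ : Proper Γ) {Ω S : Set (E n)}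
    {ψ : E n → E n} (h : QMap Γ Ω ψ S) {k : ℕ} {F : V n → ℂ} (hF : IsHol (k * (n + 1)) F)
    (hi : Inv Γ F) (hd : AllDecay Γ (k + 1) F) {s : E n → ℂ} (hs : ContinuousOn s S)
    (hs' : ∀ z ∈ Ω, s (ψ z) * (fderiv ℂ ψ z).det ^ k = F (lift z)) {z : E n} (hz : z ∈ Ω)
    (h0 : (fderiv ℂ ψ z).det = 0) : s (ψ z) = 0 := by
  have : ContinuousSMul ℂ (E n) := IsBoundedSMul.continuousSMul
  have hzb := h.sub hz
  have hy : lift z ∈ Neg n := lift_mem_Neg.2 hzb
  haveI := finite_stabPt hΓ hzb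
  have hN : Nat.card (stabPt Γ z) ≠ 0 := Nat.card_pos.ne'
  have hK := p2_kern_hol ((n + 1) * Nat.card (stabPt Γ z)) hy
  have hKi := p2_kern_inv hΓ hzb (n + 1)
  have hK0 := p2_kern_ne (w := (n + 1) * Nat.card (stabPt Γ z)) hy hy
  generalize kern ((n + 1) * Nat.card (stabPt Γ z)) (lift z) = K at hK hKi hK0
  generalize Nat.card (stabPt Γ z) = N at hK hN
  have hF' := p2_hol_pow hF hK N
  have e : k * (n + 1) * N + (n + 1) * N = (k + 1) * N * (n + 1) := by ring
  rw [e] at hF'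
  have hi' : Inv (stabPt Γ z) (fun v => F v ^ N * K v) := fun g hg v => by
    simp only [hi g hg.1 v, hKi g hg v]
  have hd' := p2_decay (hd.mono_group (p2_stab_le Γ z)) hK N
  obtain ⟨W, D, hW, hzW, hWΩ, hO, hD, hD0, -, hU⟩ := h.local_model hΓ hz
  obtain ⟨σ, hσ1, hσ2⟩ := ext_main (hΓ.mono (p2_stab_le Γ z)) hF' hi' hd' hO hD hD0 hU
  have hdet := (differentiableOn_det_fderiv h.isOpen h.diff).continuousOn.mono hWΩ
  have hψ := h.diff.continuousOn.mono hWΩ
  have hmaps : Set.MapsTo ψ W S := fun x hx => h.image ▸ Set.mem_image_of_mem ψ (hWΩ hx)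
  have hcl : W ⊆ closure {x | x ∈ W ∧ (fderiv ℂ ψ x).det ≠ 0} := by
    intro x hx
    refine closure_mono ?_ (hW.inter_closure ⟨hx, h.dense_det hΓ (hWΩ hx)⟩)
    exact fun y hy => ⟨hy.1, hy.2.2⟩
  have key := Set.EqOn.of_subset_closure (s := {x | x ∈ W ∧ (fderiv ℂ ψ x).det ≠ 0})
    (f := fun x => σ (ψ x) * (fderiv ℂ ψ x).det ^ N) (g := fun x => s (ψ x) ^ N * K (lift x))
    (by
      intro x hx
      have h1 := hσ2 x hx
      simp only [← hs' x (hWΩ hx.1)] at h1
      refine mul_right_cancel₀ (pow_ne_zero (k * N) hx.2) ?_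
      calc σ (ψ x) * (fderiv ℂ ψ x).det ^ N * (fderiv ℂ ψ x).det ^ (k * N)
          = σ (ψ x) * (fderiv ℂ ψ x).det ^ ((k + 1) * N) := by ring
        _ = _ := h1
        _ = s (ψ x) ^ N * K (lift x) * (fderiv ℂ ψ x).det ^ (k * N) := by ring)
    ((hσ1.continuousOn.comp hψ (Set.mapsTo_image ψ W)).mul (hdet.pow N))
    (((hs.comp hψ hmaps).pow N).mul (p2_cont hK (hWΩ.trans h.sub))) (fun _ hx => hx.1) hcl hzW
  simp only [h0, zero_pow hN, mul_zero] at key
  exact pow_eq_zero_iff hN |>.1 ((mul_eq_zero.1 key.symm).resolve_right hK0)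

end BallQ
end
end
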