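import Pool.Agent.Work.MP_72250f_ag.C5a
import Pool.Agent.Work.MP_72250f_ag.Z1
import Pool.Agent.Work.MP_72250f_ag.P2

-- merged part: Pool.Agent.Work.MP_72250f_ag.A6a
section
/-!
Cost of the cusp conditions. cnt_cusp: Mc = rk1 p p, scale x to <x,p> = -1 so mu x = 1 / NN x; let x0 = x - t p have mu x0 = t1 / 2, it is
outside HB t3 (cusp_disjoint), so cnt Gamma x0 R' <= B (cnt_bdd). For g in the stabiliser (g p = l p, |l| = 1) use CC_null_formula at x0
with constants A, m: CC x (g x) <= 1 + 8 delta gives A / NN x <= 4 delta, |m| / NN x <= 3; as delta / mu x <= K, A / NN x0 is bounded.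
Let a in Gamma be the unit multiple of flow Mc 1; replacing g by a^j g keeps A and shifts m by 2 pi j (or compute directly
<a^j g x0, x0>), so g = a^-j g' with CC x0 (g' x0) <= R' and |j| <= C (1 + 1 / mu x).
lintegral_inv_mu: dyadic decomposition of HB (t1/2) and vol_HB (n >= 2).
cusp_cost: family_proj for F = {Mc} with s = t1/2, s' = t1, theta = 1/4 (8 t2 = t1/2 / 2 ... Jc <= (1/4)(t1/2)(k-1)(n+1) for large k since t1/8 = 2 t2);
the deep part Tube Mc (c / w) has at most a quarter of the mass by avoid with J = 1 (cond_one_of_null), y = 1,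
c = 1/8, t = 1/(4 w) (then exp(-4 pi) (1 - exp(-2 pi))^-2 exp(pi) <= 1/4); rank_le with alpha = 2, S = Tube (t1/2) minus Tube (c/w);
rank_unfold over sysC; dominated convergence with cnt_cusp and lintegral_inv_mu.
-/

open scoped ComplexConjugate ENNReal Topology
open MeasureTheory Filter

noncomputable section

namespace BallQ

variable {n : ℕ}

theorem a6a_flow_int {Γ : Subgroup (GG n)} {M : Op n} (h : InP Γ (flow M 1)) (j : ℤ) :
    flowU M (j : ℂ) ∈ plus Γ := by
  have h1 : flowU M 1 ∈ plus Γ := h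
  induction j using Int.induction_on with
  | zero =>
    have : flowU M ((0 : ℤ) : ℂ) = 1 := by
      ext1
      simp [flow_zero]
    rw [this]
    exact (plus Γ).one_mem
  | succ i ih =>
    have : flowU M (((i : ℤ) + 1 : ℤ) : ℂ) = flowU M ((i : ℤ) : ℂ) * flowU M 1 := by
      rw [← flowU_add]
      push_cast
      rfl
    rw [this]
    exact (plus Γ).mul_mem ih h1
  | pred i ih =>
    have : flowU M ((-(i : ℤ) - 1 : ℤ) : ℂ) = flowU M ((-(i : ℤ) : ℤ) : ℂ) * (flowU M 1)⁻¹ := by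
      rw [flowU_inv, ← flowU_add]
      push_cast
      rfl
    rw [this]
    exact (plus Γ).mul_mem ih ((plus Γ).inv_mem h1)

theorem a6a_NN_add {x p : V n} (hp : form p p = 0) (hxp : form x p = -1) (t : ℝ) :
    NN (x + (t : ℂ) • p) = NN x + 2 * t := by
  have := NN_sub_null hp hxp (-t)
  rw [Complex.ofReal_neg, neg_smul, sub_neg_eq_add] at this
  rw [this]
  ring

theorem a6a_form_gp {g : Op n} (hg : IsIsom g) {x p : V n} (hxp : form x p = -1) {l : ℂ}
    (hl1 : ‖l‖ = 1) (hl : g p = l • p) : form (g x) p = -l := by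
  have h1 := hg x p
  rw [hl, form_smul_right, hxp] at h1
  have h2 : l * conj l = 1 := by
    rw [Complex.mul_conj, Complex.normSq_eq_norm_sq, hl1]
    simp
  calc form (g x) p = (l * conj l) * form (g x) p := by rw [h2, one_mul]
    _ = l * (conj l * form (g x) p) := by ring
    _ = -l := by rw [h1]; ring

/-- Displacement along the geodesic to the cusp. -/
theorem a6a_CC {g : Op n} (hg : IsIsom g) {x p : V n} (hp : form p p = 0) (hxp : form x p = -1)
    {l : ℂ} (hl1 : ‖l‖ = 1) (hl : g p = l • p) (t : ℝ) :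
    CC (x + (t : ℂ) • p) (g (x + (t : ℂ) • p)) =
      (((-conj l * form (g x) x).re + 2 * t) ^ 2 + (-conj l * form (g x) x).im ^ 2) /
        (NN x + 2 * t) ^ 2 := by
  have hpx : form p x = -1 := by rw [← form_conj, hxp]; simp
  have h2 : l * conj l = 1 := by
    rw [Complex.mul_conj, Complex.normSq_eq_norm_sq, hl1]
    simp
  have h3 : form (g (x + (t : ℂ) • p)) (x + (t : ℂ) • p) = form (g x) x - 2 * t * l := by
    rw [map_add, map_smul, hl, form_add_left, form_add_right, form_add_right, form_smul_right,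
      form_smul_left, form_smul_left, form_smul_left, form_smul_left, form_smul_right, hp, hpx,
      a6a_form_gp hg hxp hl1 hl, Complex.conj_ofReal]
    ring
  have h4 : ‖form (g x) x - 2 * t * l‖ = ‖-conj l * form (g x) x + ((2 * t : ℝ) : ℂ)‖ := by
    have : -conj l * form (g x) x + ((2 * t : ℝ) : ℂ) = -conj l * (form (g x) x - 2 * t * l) := by
      push_cast
      linear_combination (-2 * (t : ℂ)) * h2
    rw [this, norm_mul, norm_neg, Complex.norm_conj, hl1, one_mul]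
  rw [CC, hg.NN_apply, norm_form_comm, h3, h4, a6a_NN_add hp hxp, ← Complex.normSq_eq_norm_sq,
    Complex.normSq_apply]
  simp only [Complex.add_re, Complex.add_im, Complex.ofReal_re, Complex.ofReal_im, add_zero]
  ring

theorem a6a_re_ge {g : Op n} (hg : IsIsom g) {x p : V n} (hx : x ∈ Neg n) (hp : form p p = 0)
    (hxp : form x p = -1) {l : ℂ} (hl1 : ‖l‖ = 1) (hl : g p = l • p) :
    NN x ≤ (-conj l * form (g x) x).re := by
  have hN : 0 < NN x := hx
  have key : ∀ t : ℝ, 0 ≤ t → (NN x + 2 * t) ^ 2 ≤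
      ((-conj l * form (g x) x).re + 2 * t) ^ 2 + (-conj l * form (g x) x).im ^ 2 := by
    intro t ht
    have hxt : x + (t : ℂ) • p ∈ Neg n := by
      rw [mem_Neg, a6a_NN_add hp hxp]
      linarith only [hN, ht]
    have h1 := one_le_CC hxt (hg.mem_Neg.2 hxt)
    rw [a6a_CC hg hp hxp hl1 hl, le_div_iff₀ (by positivity), one_mul] at h1
    exact h1
  generalize (-conj l * form (g x) x).re = a at key ⊢
  generalize (-conj l * form (g x) x).im = b at key
  generalize NN x = N at key hN ⊢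
  by_contra hlt
  rw [not_le] at hlt
  have hd : 0 < N - a := by linarith only [hlt]
  have h1 := key ((a ^ 2 + b ^ 2) / (N - a)) (by positivity)
  have h2 : (a ^ 2 + b ^ 2) / (N - a) * (N - a) = a ^ 2 + b ^ 2 := by field_simp
  generalize (a ^ 2 + b ^ 2) / (N - a) = t at h1 h2
  clear * - b a N t h1 h2 hN
  linarith only [h1, h2, hN, sq_nonneg a, sq_nonneg b, sq_nonneg b, sq_nonneg a, mul_pos_of_neg_of_neg (Mathlib.Tactic.Linarith.sub_neg_of_lt hN) (Mathlib.Tactic.Linarith.sub_neg_of_lt hN)]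

/-- Displacement after composing with a vertical translation. -/
theorem a6a_CC_flow {g a : Op n} (hg : IsIsom g) (ha : IsIsom a) {x p : V n}
    (hp : form p p = 0) (hxp : form x p = -1) {l : ℂ} (hl1 : ‖l‖ = 1) (hl : g p = l • p)
    (j : ℤ) {c : ℂ} (hc : ‖c‖ = 1) (hca : flow (rk1 p p) (j : ℂ) = c • a) :
    CC x (a (g x)) =
      ((-conj l * form (g x) x).re ^ 2 + ((-conj l * form (g x) x).im - 2 * Real.pi * j) ^ 2) /
        NN x ^ 2 := by
  have hpx : form p x = -1 := by rw [← form_conj, hxp]; simp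
  have h2 : l * conj l = 1 := by
    rw [Complex.mul_conj, Complex.normSq_eq_norm_sq, hl1]
    simp
  have h3 : c * form (a (g x)) x = form (g x) x + 2 * Real.pi * Complex.I * j * l := by
    rw [← form_smul_left, ← smul_apply, ← hca, flow_null hp,
      add_apply, smul_apply, rk1_apply,
      one_apply_eq_self, form_add_left, form_smul_left, form_smul_left,
      a6a_form_gp hg hxp hl1 hl, hpx]
    ring
  have h4 : ‖form (a (g x)) x‖ =
      ‖-conj l * form (g x) x - ((2 * Real.pi * j : ℝ) : ℂ) * Complex.I‖ := by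
    have : -conj l * form (g x) x - ((2 * Real.pi * j : ℝ) : ℂ) * Complex.I =
        -conj l * (c * form (a (g x)) x) := by
      rw [h3]
      push_cast
      linear_combination (2 * (Real.pi : ℂ) * Complex.I * j) * h2
    rw [this, norm_mul, norm_mul, norm_neg, Complex.norm_conj, hl1, hc, one_mul, one_mul]
  rw [CC, ha.NN_apply, hg.NN_apply, norm_form_comm, h4, ← Complex.normSq_eq_norm_sq,
    Complex.normSq_apply]
  simp only [Complex.sub_re, Complex.sub_im, Complex.mul_I_re, Complex.mul_I_im,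
    Complex.ofReal_re, Complex.ofReal_im, neg_zero, sub_zero]
  ring

theorem a6a_real {a b N δ K : ℝ} (hN : 4000 < N) (hδ1 : δ ≤ 1) (hK : δ * N ≤ K)
    (ha : 4000 ≤ a) (h : ((a + (N - 4000)) ^ 2 + b ^ 2) / N ^ 2 ≤ 1 + 8 * δ) :
    ∃ j : ℤ, j ∈ Finset.Icc (-(⌈N⌉ + 1)) (⌈N⌉ + 1) ∧
      (a ^ 2 + (b - 2 * Real.pi * j) ^ 2) / 4000 ^ 2 ≤ (4000 + 4 * |K|) ^ 2 + 16 := by
  have hN0 : 0 < N := by linarith only [hN]
  rw [div_le_iff₀ (by positivity)] at h
  have hpi := Real.pi_gt_three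
  have hpi4 := Real.pi_lt_four
  have h1 : a - 4000 ≤ 4 * |K| := by
    clear * - a N δ b h hN0 K hK
    have h2 : 2 * (a - 4000) * N ≤ 8 * (δ * N) * N := by linarith only [h, sq_nonneg (a - 4000), sq_nonneg b, sq_nonneg b, sq_nonneg (a - (4000 : ℝ))]
    have h3 : 2 * (a - 4000) ≤ 8 * (δ * N) := le_of_mul_le_mul_right h2 hN0
    linarith only [hK, h3, le_abs_self K]
  have h2 : |b| ≤ 3 * N := by
    clear * - b N a δ h hδ1 hN hN0 ha
    refine abs_le_of_sq_le_sq ?_ (by positivity)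
    linarith only [h, hδ1, sq_nonneg (a - 4000), mul_nonneg (sub_nonneg.2 ha) hN0.le, sq_nonneg N, sq_nonneg (a + (N - (4000 : ℝ))), mul_nonneg_of_nonpos_of_nonpos (Mathlib.Tactic.Linarith.sub_nonpos_of_le (sq_nonneg N)) (Mathlib.Tactic.Linarith.sub_nonpos_of_le hδ1)]
  have h3 := abs_sub_round (b / (2 * Real.pi))
  have hb : b = 2 * Real.pi * (b / (2 * Real.pi)) := by field_simp
  generalize b / (2 * Real.pi) = u at h3 hb
  have hc := Int.le_ceil N
  rw [abs_le] at h2 h3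
  have hu1 : u ≤ N := by clear * - u N b hpi4 h2 hb hN hpi; (refine le_of_not_gt fun h_nl => ?_; linarith only [h_nl, hpi4, h2, hb, hN, hpi, mul_pos_of_neg_of_neg (Mathlib.Tactic.Linarith.sub_neg_of_lt hN) (Mathlib.Tactic.Linarith.sub_neg_of_lt hpi), mul_pos_of_neg_of_neg (Mathlib.Tactic.Linarith.sub_neg_of_lt hN) (Mathlib.Tactic.Linarith.sub_neg_of_lt hpi4), mul_pos_of_neg_of_neg (Mathlib.Tactic.Linarith.sub_neg_of_lt hpi) (Mathlib.Tactic.Linarith.sub_neg_of_lt hpi), mul_pos_of_neg_of_neg (Mathlib.Tactic.Linarith.sub_neg_of_lt hpi) (Mathlib.Tactic.Linarith.sub_neg_of_lt hpi4), mul_pos_of_neg_of_neg (Mathlib.Tactic.Linarith.sub_neg_of_lt hpi) (Mathlib.Tactic.Linarith.sub_neg_of_lt h_nl)])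
  have hu2 : -N ≤ u := by clear * - N u b hpi4 h2 hb hN hpi hu1; linarith only [hpi4, h2, hb, hN, hpi, hu1, mul_pos_of_neg_of_neg (Mathlib.Tactic.Linarith.sub_neg_of_lt hN) (Mathlib.Tactic.Linarith.sub_neg_of_lt hpi), mul_pos_of_neg_of_neg (Mathlib.Tactic.Linarith.sub_neg_of_lt hN) (Mathlib.Tactic.Linarith.sub_neg_of_lt hpi4), mul_pos_of_neg_of_neg (Mathlib.Tactic.Linarith.sub_neg_of_lt hpi) (Mathlib.Tactic.Linarith.sub_neg_of_lt hpi), mul_pos_of_neg_of_neg (Mathlib.Tactic.Linarith.sub_neg_of_lt hpi) (Mathlib.Tactic.Linarith.sub_neg_of_lt hpi4), mul_nonneg_of_nonpos_of_nonpos (le_of_lt (Mathlib.Tactic.Linarith.sub_neg_of_lt hpi)) (Mathlib.Tactic.Linarith.sub_nonpos_of_le hu1)]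
  refine ⟨round u, ?_, ?_⟩
  · rw [Finset.mem_Icc]
    constructor
    · have : ((-(⌈N⌉ + 1) : ℤ) : ℝ) ≤ (round u : ℤ) := by push_cast; linarith only [hpi, hpi4, h3, hc, hu2]
      exact_mod_cast this
    · have : ((round u : ℤ) : ℝ) ≤ ((⌈N⌉ + 1 : ℤ) : ℝ) := by push_cast; linarith only [hpi, hpi4, h3, hc, hu1]
      exact_mod_cast this
  · have h5 : (b - 2 * Real.pi * (round u : ℤ)) ^ 2 ≤ 16 := by
      clear * - b u hb hpi hpi4 h3
      rw [hb, ← mul_sub, mul_pow]
      have h6 : (u - (round u : ℤ)) ^ 2 ≤ 1 / 4 := by (refine le_of_not_gt fun h_nl => ?_; linarith only [h_nl, hpi, hpi4, h3, mul_pos_of_neg_of_neg (Mathlib.Tactic.Linarith.sub_neg_of_lt hpi) (Mathlib.Tactic.Linarith.sub_neg_of_lt h_nl), mul_pos_of_neg_of_neg (Mathlib.Tactic.Linarith.sub_neg_of_lt hpi4) (Mathlib.Tactic.Linarith.sub_neg_of_lt h_nl), mul_nonneg_of_nonpos_of_nonpos (Mathlib.Tactic.Linarith.sub_nonpos_of_le h3.left) (Mathlib.Tactic.Linarith.sub_nonpos_of_le h3.right)])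
      have h7 : (2 * Real.pi) ^ 2 ≤ 64 := by linarith only [hpi4, hpi, mul_pos_of_neg_of_neg (Mathlib.Tactic.Linarith.sub_neg_of_lt hpi) (Mathlib.Tactic.Linarith.sub_neg_of_lt hpi4)]
      linarith only [h6, h7, sq_nonneg (u - (round u : ℤ)), mul_nonneg_of_nonpos_of_nonpos (Mathlib.Tactic.Linarith.sub_nonpos_of_le (sq_nonneg (u - ↑(round u)))) (Mathlib.Tactic.Linarith.sub_nonpos_of_le h7)]
    have h6 : a ^ 2 ≤ (4000 + 4 * |K|) ^ 2 := by
      clear * - K a h1 ha hpi hpi4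
      have := abs_nonneg K
      (refine le_of_not_gt fun h_nl => ?_; linarith only [h_nl, h1, ha, hpi, hpi4, mul_nonneg_of_nonpos_of_nonpos (Mathlib.Tactic.Linarith.sub_nonpos_of_le ha) (Mathlib.Tactic.Linarith.sub_nonpos_of_le h1), mul_pos_of_neg_of_neg (Mathlib.Tactic.Linarith.sub_neg_of_lt hpi) (Mathlib.Tactic.Linarith.sub_neg_of_lt h_nl), mul_pos_of_neg_of_neg (Mathlib.Tactic.Linarith.sub_neg_of_lt hpi4) (Mathlib.Tactic.Linarith.sub_neg_of_lt h_nl), mul_nonneg_of_nonpos_of_nonpos (Mathlib.Tactic.Linarith.sub_nonpos_of_le h1) (Mathlib.Tactic.Linarith.sub_nonpos_of_le h1)])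
    rw [div_le_iff₀ (by positivity)]
    clear * - a b u K hpi hpi4 h5 h6
    linarith only [hpi, hpi4, h5, h6, sq_nonneg (4000 + 4 * |K|), sq_nonneg ((4000 : ℝ) + (4 : ℝ) * |K|)]

theorem a6a_norm {Γ : Subgroup (GG n)} (hΓ : Proper Γ) {K : ℝ} {B : ℝ≥0∞}
    (hB : ∀ x ∈ Neg n \ HB Γ t3, cnt Γ x ((4000 + 4 * |K|) ^ 2 + 16) ≤ B) {p : V n}
    (hp0 : p ≠ 0) (hp : form p p = 0) (hc : Cusp Γ (rk1 p p)) {x : V n} (hxp : form x p = -1)
    (hN : 4000 < NN x) {δ : ℝ} (hδ1 : δ ≤ 1) (hK : δ * NN x ≤ K) :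
    cnt (stab Γ {rk1 p p}) x (1 + 8 * δ) ≤ ENNReal.ofReal (5 * (1 + NN x)) * B := by
  set t : ℝ := (NN x - 4000) / 2 with ht
  set y : V n := x - (t : ℂ) • p with hy
  have hyN : NN y = 4000 := by
    rw [hy, NN_sub_null hp hxp, ht]
    ring
  have hyp : form y p = -1 := by
    rw [hy, form_sub_left, form_smul_left, hp, hxp]
    simp
  have hxy : x = y + (t : ℂ) • p := by rw [hy, sub_add_cancel]
  have hyn : y ∈ Neg n := by
    rw [mem_Neg, hyN]
    norm_num
  have hmu : mu (rk1 p p) y = 1 / 4000 := by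
    rw [mu, form_rk1_self, hyp, hyN]
    simp
  have hyS : y ∈ Neg n \ HB Γ t3 := by
    refine ⟨hyn, fun h => ?_⟩
    simp only [HB, TubeS, Set.mem_iUnion, Set.mem_ofPred_eq] at h
    obtain ⟨M, hM, hyM⟩ := h
    have h1 : y ∈ Tube M t1 := ⟨hyn, lt_trans hyM.2 (by norm_num [t3, t1])⟩
    have h2 : y ∈ Tube (rk1 p p) t1 := ⟨hyn, by rw [hmu]; norm_num [t1]⟩
    have h3 := cusp_disjoint hΓ hM hc h1 h2
    have h4 := hyM.2
    rw [h3, hmu] at h4
    norm_num [t3] at h4
  choose c hc1 a ha hca using fun j : ℤ => (a6a_flow_int hc.1.2 j : InP Γ _)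
  set T : Set (GG n) := {g : GG n | g ∈ Γ ∧ CC y ((g : Op n) y) ≤ (4000 + 4 * |K|) ^ 2 + 16}
    with hT
  set I : Finset ℤ := Finset.Icc (-(⌈NN x⌉ + 1)) (⌈NN x⌉ + 1) with hI
  have hsub : {g : GG n | g ∈ stab Γ {rk1 p p} ∧ CC x ((g : Op n) x) ≤ 1 + 8 * δ} ⊆
      (fun q : ℤ × GG n => (a q.1)⁻¹ * q.2) '' ((I : Set ℤ) ×ˢ T) := by
    rintro g ⟨⟨hg, hgs⟩, hgx⟩
    have hgi := hΓ.isom g hg
    have h1 : rk1 ((g : Op n) p) ((g : Op n) p) = (1 : ℂ) • rk1 p p := by
      rw [one_smul, ← cnj_rk1 hgi]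
      simpa [cnjS] using hgs
    obtain ⟨l, hl, hl1⟩ := eq_smul_of_rk1 hp0 h1
    have hl2 : ‖l‖ = 1 := by
      clear * - l hl1
      have h2 : ‖l‖ ^ 2 = 1 := by exact_mod_cast hl1.symm
      have := norm_nonneg l
      nlinarith
    have h2 := a6a_re_ge hgi hyn hp hyp hl2 hl
    have h3 := a6a_CC hgi hp hyp hl2 hl t
    rw [← hxy, hyN] at h3
    rw [hyN] at h2
    have h4 : 2 * t = NN x - 4000 := by rw [ht]; ring
    have h5 : 4000 + (NN x - 4000) = NN x := by ring
    rw [h3, h4, h5] at hgx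
    obtain ⟨j, hj, hj2⟩ := a6a_real hN hδ1 hK h2 hgx
    refine ⟨(j, a j * g), ⟨hj, Γ.mul_mem (ha j) hg, ?_⟩, by simp⟩
    have h6 := a6a_CC_flow hgi (hΓ.isom _ (ha j)) hp hyp hl2 hl j (hc1 j) (hca j)
    rw [hyN] at h6
    rw [← h6] at hj2
    exact hj2
  have hcard : ((I : Set ℤ).encard : ℝ≥0∞) ≤ ENNReal.ofReal (5 * (1 + NN x)) := by
    clear * - I n x hN hI
    rw [Set.encard_coe_eq_coe_finsetCard, ENat.toENNReal_coe, ← ENNReal.ofReal_natCast]
    refine ENNReal.ofReal_le_ofReal ?_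
    have h1 : (0 : ℤ) ≤ ⌈NN x⌉ := Int.ceil_nonneg (by linarith only [hN])
    have h2 : ((I.card : ℤ) : ℝ) = 2 * (⌈NN x⌉ : ℝ) + 3 := by
      rw [hI, Int.card_Icc_of_le _ _ (by omega)]
      push_cast
      ring
    have h3 := Int.ceil_lt_add_one (NN x)
    rw [Int.cast_natCast] at h2
    linarith only [hN, h2, h3]
  rw [cnt_eq_encard]
  have h1 := (Set.encard_le_encard hsub).trans (Set.encard_image_le _ _)
  rw [Set.encard_prod] at h1
  refine (ENat.toENNReal_le.2 h1).trans ?_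
  rw [ENat.toENNReal_mul]
  refine mul_le_mul' hcard ?_
  rw [hT, ← cnt_eq_encard]
  exact hB y hyS

theorem cnt_cusp {Γ : Subgroup (GG n)} (hΓ : Proper Γ) (hS : Cocpt Γ (Neg n \ HB Γ t3)) (K : ℝ) :
    ∃ B : ℝ, ∀ Mc, Cusp Γ Mc → ∀ x ∈ Tube Mc (t1 / 2), ∀ δ : ℝ, 0 ≤ δ → δ ≤ 1 →
      δ ≤ K * mu Mc x → cnt (stab Γ {Mc}) x (1 + 8 * δ) ≤ ENNReal.ofReal (B * (1 + (mu Mc x)⁻¹)) := by
  obtain ⟨B, hB0, hB⟩ := cnt_bdd hΓ Set.sdiff_subset hS ((4000 + 4 * |K|) ^ 2 + 16)
  refine ⟨5 * B.toReal, ?_⟩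
  intro Mc hc x hx δ _ hδ1 hK
  obtain ⟨p, hp0, hp, rfl⟩ := hc.1.1
  have hpN : 0 ≤ NN p := by simp [NN, hp]
  have h1 : form x p ≠ 0 := fun h => form_ne_zero_of_neg hx.1 hp0 hpN (form_eq_zero_comm.1 h)
  have hc0 : -(form x p)⁻¹ ≠ 0 := neg_ne_zero.2 (inv_ne_zero h1)
  set y : V n := (-(form x p)⁻¹) • x with hy
  have hyp : form y p = -1 := by
    rw [hy, form_smul_left, neg_mul, inv_mul_cancel₀ h1]
  have hyn : 0 < NN y := smul_mem_Neg hc0 hx.1
  have hmu : mu (rk1 p p) x = (NN y)⁻¹ := by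
    rw [← mu_smul (rk1 p p) hc0 x, ← hy, mu, form_rk1_self, hyp]
    simp
  have hN : 4000 < NN y := by
    have h2 := hx.2
    rw [hmu, inv_lt_comm₀ hyn (by norm_num [t1])] at h2
    norm_num [t1] at h2
    exact h2
  have hK' : δ * NN y ≤ K := by
    rw [hmu, ← div_eq_mul_inv, le_div_iff₀ hyn] at hK
    exact hK
  rw [← cnt_smul _ hc0 x, ← hy, hmu, inv_inv]
  refine (a6a_norm hΓ hB hp0 hp hc hyp hN hδ1 hK').trans (le_of_eq ?_)
  rw [show 5 * B.toReal * (1 + NN y) = 5 * (1 + NN y) * B.toReal by ring,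
    ENNReal.ofReal_mul (p := 5 * (1 + NN y)) (by positivity), ENNReal.ofReal_toReal hB0]

end BallQ
end
end

-- merged part: Pool.Agent.Work.MP_72250f_ag.A6b
section
/-!
Cost of the cusp conditions. cnt_cusp: Mc = rk1 p p, scale x to <x,p> = -1 so mu x = 1 / NN x; let x0 = x - t p have mu x0 = t1 / 2, it is
outside HB t3 (cusp_disjoint), so cnt Gamma x0 R' <= B (cnt_bdd). For g in the stabiliser (g p = l p, |l| = 1) use CC_null_formula at x0
with constants A, m: CC x (g x) <= 1 + 8 delta gives A / NN x <= 4 delta, |m| / NN x <= 3; as delta / mu x <= K, A / NN x0 is bounded.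
Let a in Gamma be the unit multiple of flow Mc 1; replacing g by a^j g keeps A and shifts m by 2 pi j (or compute directly
<a^j g x0, x0>), so g = a^-j g' with CC x0 (g' x0) <= R' and |j| <= C (1 + 1 / mu x).
lintegral_inv_mu: dyadic decomposition of HB (t1/2) and vol_HB (n >= 2).
cusp_cost: family_proj for F = {Mc} with s = t1/2, s' = t1, theta = 1/4 (8 t2 = t1/2 / 2 ... Jc <= (1/4)(t1/2)(k-1)(n+1) for large k since t1/8 = 2 t2);
the deep part Tube Mc (c / w) has at most a quarter of the mass by avoid with J = 1 (cond_one_of_null), y = 1,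
c = 1/8, t = 1/(4 w) (then exp(-4 pi) (1 - exp(-2 pi))^-2 exp(pi) <= 1/4); rank_le with alpha = 2, S = Tube (t1/2) minus Tube (c/w);
rank_unfold over sysC; dominated convergence with cnt_cusp and lintegral_inv_mu.
-/

open scoped ComplexConjugate ENNReal Topology
open MeasureTheory Filter

noncomputable section

namespace BallQ

variable {n : ℕ}

theorem a6b_mem_HB {Γ : Subgroup (GG n)} {t : ℝ} {v : V n} :
    v ∈ HB Γ t ↔ ∃ M, Cusp Γ M ∧ v ∈ Tube M t := by
  simp [HB, TubeS]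

theorem a6b_mu_pos {M : Op n} (h : IsNull M) {v : V n} (hv : v ∈ Neg n) : 0 < mu M v := by
  obtain ⟨p, hp0, hp, rfl⟩ := h
  have hN : 0 ≤ NN p := by simp [NN, hp]
  have h1 := form_ne_zero_of_neg hv hp0 hN
  unfold mu
  rw [form_rk1_self, Complex.ofReal_re]
  have h2 : 0 < ‖form v p‖ := by
    rw [norm_form_comm]
    exact norm_pos_iff.mpr h1
  have h3 : 0 < NN v := hv
  positivity

theorem a6b_point {Γ : Subgroup (GG n)} (hΓ : Proper Γ) (v : V n) :
    (∑' M : {M : Op n | Cusp Γ M}, (Tube (M : Op n) (t1 / 2)).indicator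
      (fun x => ENNReal.ofReal (1 + (mu (M : Op n) x)⁻¹)) v) ≤
      ∑' j : ℕ, (HB Γ (t1 / 2 ^ j)).indicator
        (fun _ => ENNReal.ofReal ((1 + 4 / t1) * 2 ^ j)) v := by
  have ht1 : (0 : ℝ) < t1 := by norm_num [t1]
  by_cases hv : v ∈ HB Γ (t1 / 2)
  · obtain ⟨M, hM, hvM⟩ := a6b_mem_HB.mp hv
    have hsub : ∀ M' : Op n, v ∈ Tube M' (t1 / 2) → v ∈ Tube M' t1 :=
      fun M' h => ⟨h.1, lt_of_lt_of_le h.2 (by linarith only [ht1])⟩
    rw [tsum_eq_single (⟨M, hM⟩ : {M : Op n | Cusp Γ M}) (fun M' hne =>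
      Set.indicator_of_notMem (fun h => hne (Subtype.ext
        (cusp_disjoint hΓ M'.2 hM (hsub _ h) (hsub _ hvM)))) _), Set.indicator_of_mem hvM]
    have hmu := a6b_mu_pos hM.1.1 hvM.1
    obtain ⟨j, h1, h2⟩ := exists_nat_pow_near (x := t1 / 2 / mu M v) (y := 2)
      ((one_le_div hmu).mpr hvM.2.le) one_lt_two
    have hj : (1 : ℝ) ≤ 2 ^ j := one_le_pow₀ one_le_two
    have hj0 : (0 : ℝ) < 2 ^ j := by positivity
    rw [le_div_iff₀ hmu] at h1
    rw [div_lt_iff₀ hmu, pow_succ] at h2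
    have hmem : v ∈ HB Γ (t1 / 2 ^ j) := by
      refine a6b_mem_HB.mpr ⟨M, hM, hvM.1, ?_⟩
      rw [lt_div_iff₀ hj0]
      linarith only [ht1, h1]
    refine le_trans ?_ (ENNReal.le_tsum j)
    rw [Set.indicator_of_mem hmem]
    apply ENNReal.ofReal_le_ofReal
    have h3 : (mu M v)⁻¹ ≤ 4 / t1 * 2 ^ j := by
      rw [inv_le_iff_one_le_mul₀ hmu, div_mul_eq_mul_div, div_mul_eq_mul_div, one_le_div ht1]
      linarith only [h2]
    rw [add_mul]
    linarith only [hM, hj, h3]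
  · refine le_trans (le_of_eq (ENNReal.tsum_eq_zero.mpr ?_)) zero_le
    rintro ⟨M, hM⟩
    exact Set.indicator_of_notMem (fun h => hv (a6b_mem_HB.mpr ⟨M, hM, h⟩)) _

theorem lintegral_inv_mu (hn : 2 ≤ n) {Γ : Subgroup (GG n)} (hΓ : Proper Γ) {ψ : V n → ℝ≥0∞}
    (hψ : IsWeight Γ ψ) (hv : ∫⁻ v, ψ v ∂(nu n) ≠ ⊤) :
    ∫⁻ v, (∑' M : {M : Op n | Cusp Γ M}, (Tube (M : Op n) (t1 / 2)).indicator
      (fun x => ENNReal.ofReal (1 + (mu (M : Op n) x)⁻¹)) v) * ψ v ∂(nu n) ≠ ⊤ := by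
  have ht1 : (0 : ℝ) < t1 := by norm_num [t1]
  have hC : (0 : ℝ) ≤ 1 + 4 / t1 := by positivity
  have hV : volW (HB Γ t1) ψ ≠ ⊤ := ne_top_of_le_ne_top hv (setLIntegral_le_lintegral _ _)
  have hsum : Summable fun j : ℕ => 3 * (1 + 4 / t1) * (1 / 2 : ℝ) ^ j :=
    summable_geometric_two.mul_left _
  refine ne_top_of_le_ne_top (ENNReal.mul_ne_top hsum.tsum_ofReal_ne_top hV) ?_
  have hm : ∀ j : ℕ, Measurable fun v => (HB Γ (t1 / 2 ^ j)).indicator
      (fun _ => ENNReal.ofReal ((1 + 4 / t1) * 2 ^ j)) v * ψ v :=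
    fun j => (measurable_const.indicator (region_HB hΓ _).meas).mul hψ.meas
  calc _ ≤ ∫⁻ v, ∑' j : ℕ, (HB Γ (t1 / 2 ^ j)).indicator
        (fun _ => ENNReal.ofReal ((1 + 4 / t1) * 2 ^ j)) v * ψ v ∂(nu n) := by
        refine lintegral_mono fun v => ?_
        rw [ENNReal.tsum_mul_right]
        exact mul_le_mul' (a6b_point hΓ v) le_rfl
    _ = ∑' j : ℕ, ∫⁻ v, (HB Γ (t1 / 2 ^ j)).indicator
        (fun _ => ENNReal.ofReal ((1 + 4 / t1) * 2 ^ j)) v * ψ v ∂(nu n) :=
        lintegral_tsum fun j => (hm j).aemeasurable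
    _ ≤ ∑' j : ℕ, ENNReal.ofReal (3 * (1 + 4 / t1) * (1 / 2 : ℝ) ^ j) * volW (HB Γ t1) ψ := by
        clear * - n Γ ψ hψ hΓ hn ht1
        refine ENNReal.tsum_le_tsum fun j => ?_
        have hj : (1 : ℝ) ≤ 2 ^ j := one_le_pow₀ one_le_two
        have hj0 : (0 : ℝ) < 2 ^ j := by positivity
        have e : ∫⁻ v, (HB Γ (t1 / 2 ^ j)).indicator
            (fun _ => ENNReal.ofReal ((1 + 4 / t1) * 2 ^ j)) v * ψ v ∂(nu n) =
            ENNReal.ofReal ((1 + 4 / t1) * 2 ^ j) * volW (HB Γ (t1 / 2 ^ j)) ψ := by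
          unfold volW
          rw [← lintegral_const_mul _ hψ.meas, ← lintegral_indicator (region_HB hΓ _).meas]
          refine lintegral_congr fun x => ?_
          by_cases hx : x ∈ HB Γ (t1 / 2 ^ j)
          · rw [Set.indicator_of_mem hx, Set.indicator_of_mem hx]
          · rw [Set.indicator_of_notMem hx, Set.indicator_of_notMem hx, zero_mul]
        rw [e]
        have h1 := vol_HB (by omega) hΓ hψ (t := t1 / 2 ^ j) (t' := t1) (by positivity)
          (div_le_self ht1.le hj) le_rfl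
        refine (mul_le_mul' le_rfl h1).trans ?_
        rw [← mul_assoc, ← ENNReal.ofReal_mul (by positivity)]
        refine mul_le_mul' (ENNReal.ofReal_le_ofReal ?_) le_rfl
        have e2 : t1 / 2 ^ j / t1 = (1 / 2 : ℝ) ^ j := by
          rw [one_div, inv_pow]
          field_simp
        rw [e2]
        have h2 : ((1 / 2 : ℝ) ^ j) ^ n ≤ ((1 / 2 : ℝ) ^ j) ^ 2 :=
          pow_le_pow_of_le_one (by positivity) (pow_le_one₀ (by norm_num) (by norm_num)) hn
        have h3 : (2 : ℝ) ^ j * (1 / 2 : ℝ) ^ j = 1 := by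
          rw [← mul_pow]
          norm_num
        calc (1 + 4 / t1) * 2 ^ j * (3 * ((1 / 2 : ℝ) ^ j) ^ n)
            ≤ (1 + 4 / t1) * 2 ^ j * (3 * ((1 / 2 : ℝ) ^ j) ^ 2) := by gcongr
          _ = 3 * (1 + 4 / t1) * (1 / 2 : ℝ) ^ j * ((2 : ℝ) ^ j * (1 / 2 : ℝ) ^ j) := by ring
          _ = _ := by rw [h3, mul_one]
    _ = _ := ENNReal.tsum_mul_right

end BallQ
end
end

-- merged part: Pool.Agent.Work.MP_72250f_ag.A6
section
/-!
Cost of the cusp conditions. cnt_cusp: Mc = rk1 p p, scale x to <x,p> = -1 so mu x = 1 / NN x; let x0 = x - t p have mu x0 = t1 / 2, it is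
outside HB t3 (cusp_disjoint), so cnt Gamma x0 R' <= B (cnt_bdd). For g in the stabiliser (g p = l p, |l| = 1) use CC_null_formula at x0
with constants A, m: CC x (g x) <= 1 + 8 delta gives A / NN x <= 4 delta, |m| / NN x <= 3; as delta / mu x <= K, A / NN x0 is bounded.
Let a in Gamma be the unit multiple of flow Mc 1; replacing g by a^j g keeps A and shifts m by 2 pi j (or compute directly
<a^j g x0, x0>), so g = a^-j g' with CC x0 (g' x0) <= R' and |j| <= C (1 + 1 / mu x).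
lintegral_inv_mu: dyadic decomposition of HB (t1/2) and vol_HB (n >= 2).
cusp_cost: family_proj for F = {Mc} with s = t1/2, s' = t1, theta = 1/4 (8 t2 = t1/2 / 2 ... Jc <= (1/4)(t1/2)(k-1)(n+1) for large k since t1/8 = 2 t2);
the deep part Tube Mc (c / w) has at most a quarter of the mass by avoid with J = 1 (cond_one_of_null), y = 1,
c = 1/8, t = 1/(4 w) (then exp(-4 pi) (1 - exp(-2 pi))^-2 exp(pi) <= 1/4); rank_le with alpha = 2, S = Tube (t1/2) minus Tube (c/w);
rank_unfold over sysC; dominated convergence with cnt_cusp and lintegral_inv_mu.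
-/

open scoped ComplexConjugate ENNReal Topology
open MeasureTheory Filter

noncomputable section

namespace BallQ

variable {n : ℕ}

theorem a6_TubeS_single (M : Op n) (s : ℝ) : TubeS {M} s = Tube M s := by
  simp [TubeS]

theorem a6_cnjS_single (g : GG n) (M : Op n) : cnjS g {M} = {cnj g M} := by
  simp [cnjS]

theorem a6_mem_stab {Γ : Subgroup (GG n)} {M : Op n} {g : GG n} :
    g ∈ stab Γ {M} ↔ g ∈ Γ ∧ Commute (g : Op n) M := by
  rw [mem_stab, a6_cnjS_single, Set.singleton_eq_singleton_iff, cnj_eq_iff]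

theorem a6_mem_HB {Γ : Subgroup (GG n)} {t : ℝ} {v : V n} :
    v ∈ HB Γ t ↔ ∃ M, Cusp Γ M ∧ v ∈ Tube M t := by
  simp [HB, TubeS]

theorem a6_isGen {Γ : Subgroup (GG n)} {M : Op n} (h : Cusp Γ M) : IsGen M :=
  (h.1.1.isGenLt 1).isGen

theorem a6_Tube_mono (M : Op n) {s s' : ℝ} (h : s ≤ s') : Tube M s ⊆ Tube M s' :=
  fun _ hv => ⟨hv.1, lt_of_lt_of_le hv.2 h⟩

theorem a6_mu_pos {M : Op n} (h : IsNull M) {v : V n} (hv : v ∈ Neg n) : 0 < mu M v := by
  obtain ⟨p, hp0, hp, rfl⟩ := h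
  have hN : 0 ≤ NN p := by simp [NN, hp]
  have h1 := form_ne_zero_of_neg hv hp0 hN
  unfold mu
  rw [form_rk1_self, Complex.ofReal_re]
  have h2 : 0 < ‖form v p‖ := by
    rw [norm_form_comm]
    exact norm_pos_iff.mpr h1
  have h3 : 0 < NN v := hv
  positivity

/-- The submodule cut out by the cusp conditions. -/
def a6_K (Γ : Subgroup (GG n)) (k J : ℕ) (A : Submodule ℂ (V n → ℂ))
    (hA : ∀ G ∈ A, IsGood Γ k G) (F : Set (Op n)) : Submodule ℂ (V n → ℂ) where
  carrier := {G | G ∈ A ∧ ∀ M ∈ F, Cusp Γ M → Cond k M J G}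
  add_mem' := by
    rintro G H ⟨hG, hG'⟩ ⟨hH, hH'⟩
    refine ⟨A.add_mem hG hH, fun M hM hc j hj => ?_⟩
    rw [coef_add (hA G hG).hol (hA H hH).hol (a6_isGen hc), hG' M hM hc j hj, hH' M hM hc j hj,
      add_zero]
  zero_mem' := ⟨A.zero_mem, fun M _ _ j _ => coef_zero k M j⟩
  smul_mem' := by
    rintro c G ⟨hG, hG'⟩
    refine ⟨A.smul_mem c hG, fun M hM hc j hj => ?_⟩
    rw [coef_smul, hG' M hM hc j hj, smul_zero]

theorem a6_mem_K {Γ : Subgroup (GG n)} {k J : ℕ} {A : Submodule ℂ (V n → ℂ)}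
    {hA : ∀ G ∈ A, IsGood Γ k G} {F : Set (Op n)} {G : V n → ℂ} :
    G ∈ a6_K Γ k J A hA F ↔ G ∈ A ∧ ∀ M ∈ F, Cusp Γ M → Cond k M J G := Iff.rfl

theorem a6_const {w : ℕ} (hw : 1 ≤ w) :
    Real.exp (-(4 * Real.pi * 1 * ((1 : ℕ) : ℝ))) *
      ((1 - Real.exp (-(2 * Real.pi * 1)))⁻¹) ^ 2 * (1 + 4 * Real.pi * 1 * (1 / (4 * (w : ℝ)))) ^ w
      ≤ 1 / 4 := by
  have hw0 : (0 : ℝ) < w := by exact_mod_cast hw
  have hpi := Real.pi_gt_three
  have h1 : (1 + 4 * Real.pi * 1 * (1 / (4 * (w : ℝ)))) ^ w ≤ Real.exp Real.pi := by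
    have e1 : 4 * Real.pi * 1 * (1 / (4 * (w : ℝ))) = Real.pi / w := by field_simp
    rw [e1]
    have h2 : 1 + Real.pi / w ≤ Real.exp (Real.pi / w) := by
      have := Real.add_one_le_exp (Real.pi / w)
      linarith only [this]
    calc (1 + Real.pi / w) ^ w ≤ Real.exp (Real.pi / w) ^ w :=
          pow_le_pow_left₀ (by positivity) h2 w
      _ = Real.exp Real.pi := by
          rw [← Real.exp_nat_mul]
          congr 1
          field_simp
  have h4 : 4 ≤ Real.exp Real.pi := by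
    have := Real.add_one_le_exp Real.pi
    linarith only [hpi, this]
  set a := Real.exp Real.pi with ha
  have ha0 : 0 < a := Real.exp_pos _
  have e2 : Real.exp (-(2 * Real.pi * 1)) = (a ^ 2)⁻¹ := by
    rw [Real.exp_neg, ha, ← Real.exp_nat_mul]
    congr 2
    push_cast
    ring
  have e4 : Real.exp (-(4 * Real.pi * 1 * ((1 : ℕ) : ℝ))) = (a ^ 4)⁻¹ := by
    rw [Real.exp_neg, ha, ← Real.exp_nat_mul]
    congr 2
    push_cast
    ring
  rw [e2, e4]
  have h5 : (a ^ 2)⁻¹ ≤ 1 / 2 := by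
    clear * - a h4
    rw [one_div]
    apply inv_anti₀ (by norm_num)
    linarith only [h4, mul_nonneg_of_nonpos_of_nonpos (Mathlib.Tactic.Linarith.sub_nonpos_of_le h4) (Mathlib.Tactic.Linarith.sub_nonpos_of_le h4)]
  have h6 : (1 - (a ^ 2)⁻¹)⁻¹ ≤ 2 := by
    have : (1 - (a ^ 2)⁻¹)⁻¹ ≤ (1 / 2 : ℝ)⁻¹ := inv_anti₀ (by norm_num) (by linarith only [h5])
    simpa using this
  have h7 : 0 ≤ (1 - (a ^ 2)⁻¹)⁻¹ := inv_nonneg.mpr (by linarith only [h5])
  have h8 : ((1 - (a ^ 2)⁻¹)⁻¹) ^ 2 ≤ 4 := by clear * - a h6 h7; linarith only [h6, h7, mul_nonneg_of_nonpos_of_nonpos (Mathlib.Tactic.Linarith.sub_nonpos_of_le h6) (Mathlib.Tactic.Linarith.sub_nonpos_of_le h7)]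
  have h9 : (a ^ 4)⁻¹ * 4 * a ≤ 1 / 4 := by
    clear * - a h4
    have e : (a ^ 4)⁻¹ * 4 * a = 4 / a ^ 3 := by field_simp
    rw [e, div_le_div_iff₀ (by positivity) (by norm_num)]
    have : (4 : ℝ) ^ 3 ≤ a ^ 3 := pow_le_pow_left₀ (by norm_num) h4 3
    linarith only [this]
  calc _ ≤ (a ^ 4)⁻¹ * 4 * a := by
        apply mul_le_mul _ h1 (by positivity) (by positivity)
        exact mul_le_mul_of_nonneg_left h8 (by positivity)
    _ ≤ 1 / 4 := h9

theorem a6_flow_neg {M : Op n} (hM : IsNull M) {t : ℝ} (ht : 8 * Real.pi * t ≤ 1) {v : V n}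
    (hv : v ∈ Tube M t) : flow M (-(((1 : ℝ) : ℂ) * Complex.I)) v ∈ Tube M (2 * t) := by
  have hNN := hM.NN_flow (-(((1 : ℝ) : ℂ) * Complex.I)) v
  have hv0 : 0 < NN v := hv.1
  have hre : (form (M (flow M (-(((1 : ℝ) : ℂ) * Complex.I)) v))
      (flow M (-(((1 : ℝ) : ℂ) * Complex.I)) v)).re = (form (M v) v).re := by
    obtain ⟨p, _, hp, rfl⟩ := hM
    rw [form_rk1_self, form_rk1_self, flow_null hp]
    simp [form_add_left, form_smul_left, form_neg_left, hp]
  have hnn : 0 ≤ (form (M v) v).re := (hM.isGenLt 1).isGen.re_nonneg v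
  have hlt : (form (M v) v).re < t * NN v := by
    have := hv.2
    unfold mu at this
    rwa [div_lt_iff₀ hv0] at this
  have him : (-(((1 : ℝ) : ℂ) * Complex.I)).im = -1 := by simp
  rw [him] at hNN
  have hpi := Real.pi_pos
  have ht0 : 0 < t := by
    by_contra hh
    have : t * NN v ≤ 0 := mul_nonpos_of_nonpos_of_nonneg (not_lt.mp hh) hv0.le
    linarith only [hnn, hlt, this]
  have h1 : 4 * Real.pi * (form (M v) v).re ≤ NN v / 2 := by
    have a1 : 4 * Real.pi * (form (M v) v).re ≤ 4 * Real.pi * (t * NN v) :=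
      mul_le_mul_of_nonneg_left hlt.le (by positivity)
    have a2 : 8 * Real.pi * t * NN v ≤ 1 * NN v := mul_le_mul_of_nonneg_right ht hv0.le
    linarith only [a1, a2]
  have h2 : NN v / 2 ≤ NN (flow M (-(((1 : ℝ) : ℂ) * Complex.I)) v) := by
    rw [hNN]
    linarith only [h1]
  have h3 : 0 < NN (flow M (-(((1 : ℝ) : ℂ) * Complex.I)) v) := by linarith only [hNN, hv0, h1]
  refine ⟨h3, ?_⟩
  unfold mu
  rw [hre, div_lt_iff₀ h3]
  clear * - n M v t hlt ht hnn hNN ht0
  linarith only [hlt, ht, hnn, hNN, ht0, mul_nonneg_of_nonpos_of_nonpos (Mathlib.Tactic.Linarith.sub_nonpos_of_le ht) (Mathlib.Tactic.Linarith.sub_nonpos_of_le hnn), Mathlib.Tactic.Linarith.zero_mul_eq (sub_eq_zero_of_eq hNN) (Mathlib.Tactic.Linarith.sub_neg_of_lt ht0)]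

theorem a6_ball {M : Op n} (hM : IsNull M) {x y : V n} {s δ : ℝ} (hx : x ∈ Tube M (s / 2))
    (hy : y ∈ Neg n) (h0 : 0 ≤ δ) (h1 : δ ≤ 1 / 16) (hc : CC x y ≤ 1 + δ) : y ∈ Tube M s := by
  have hG := (hM.isGenLt 1).isGen
  have h := hG.mu_ball hx.1 hy hc
  have hage : age M = 0 := by simp [age, hM.age_eq]
  rw [hage, zero_add, Real.sqrt_mul h0] at h
  have a1 : √(1 + δ) ≤ 9 / 8 := Real.sqrt_le_iff.mpr ⟨by norm_num, by linarith only [h1]⟩
  have a2 : √δ ≤ 1 / 4 := Real.sqrt_le_iff.mpr ⟨by norm_num, by linarith only [h1]⟩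
  have a3 := Real.sqrt_nonneg (mu M x)
  have a4 := Real.sqrt_nonneg (mu M y)
  have b1 := Real.sq_sqrt (hG.mu_nonneg hx.1)
  have b2 := Real.sq_sqrt (hG.mu_nonneg hy)
  have a5 : √(mu M y) ≤ 11 / 8 * √(mu M x) := by clear * - n M y x δ h a1 a3 a2; linarith only [h, a1, a3, a2, mul_nonneg_of_nonpos_of_nonpos (Mathlib.Tactic.Linarith.sub_nonpos_of_le a1) (Mathlib.Tactic.Linarith.sub_nonpos_of_le a3), mul_nonneg_of_nonpos_of_nonpos (Mathlib.Tactic.Linarith.sub_nonpos_of_le a2) (Mathlib.Tactic.Linarith.sub_nonpos_of_le a3)]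
  have a6 : √(mu M y) ^ 2 ≤ (11 / 8 * √(mu M x)) ^ 2 := pow_le_pow_left₀ a4 a5 2
  have a7 := hx.2
  have a8 := hG.mu_nonneg hx.1
  refine ⟨hy, ?_⟩
  clear * - n M y s x b1 b2 a6 a7
  linarith only [b1, b2, a6, a7, sq_nonneg √(mu M x)]

theorem a6_mass_mono (w : ℕ) (G : V n → ℂ) (ψ : V n → ℝ≥0∞) {S T : Set (V n)} (h : S ⊆ T) :
    mass w G S ψ ≤ mass w G T ψ :=
  lintegral_mono_set h

theorem a6_mass_union (w : ℕ) (G : V n → ℂ) (ψ : V n → ℝ≥0∞) (S T : Set (V n)) :
    mass w G (S ∪ T) ψ ≤ mass w G S ψ + mass w G T ψ :=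
  lintegral_union_le _ _ _

theorem a6_half {a b : ℝ≥0∞} (ha : a ≠ ⊤)
    (h : a ≤ ENNReal.ofReal (1 / 4) * a + b + ENNReal.ofReal (1 / 4) * a) : a ≤ 2 * b := by
  rcases eq_or_ne b ⊤ with rfl | hb
  · simp
  lift a to NNReal using ha
  lift b to NNReal using hb
  have e : ENNReal.ofReal (1 / 4) = ((1 / 4 : NNReal) : ℝ≥0∞) := by
    rw [← ENNReal.ofReal_coe_nnreal]
    norm_num
  rw [e] at h
  have h' : (a : ℝ) ≤ 1 / 4 * a + b + 1 / 4 * a := by exact_mod_cast h
  have : (a : ℝ) ≤ 2 * b := by linarith only [h']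
  exact_mod_cast this

theorem a6_invF {Γ : Subgroup (GG n)} (hΓ : Proper Γ) (r : ℝ) :
    InvF Γ (fun x => 4 * cnt Γ x r) :=
  ⟨(measurable_cnt hΓ r).const_mul _, fun c hc v => by simp only [cnt_smul Γ hc],
    fun g hg v => by simp only [cnt_apply hΓ hg]⟩

theorem a6_local {Γ : Subgroup (GG n)} (hΓ : Proper Γ) {ψ : V n → ℝ≥0∞}
    (hψ : IsWeight Γ ψ) (hv : ∫⁻ v, ψ v ∂(nu n) ≠ ⊤) {k : ℕ} (hk : 32002 ≤ k) {δ : ℝ}
    (h0 : 0 ≤ δ) (h1 : δ ≤ 1 / 16)
    (hm : massF n (k * (n + 1)) ≤ 2 * mass0 n (k * (n + 1)) δ)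
    (A : Submodule ℂ (V n → ℂ)) [FiniteDimensional ℂ A] (hA : ∀ G ∈ A, IsGood Γ k G)
    {Mc : Op n} (hc : Cusp Γ Mc) {ψ' : V n → ℝ≥0∞} (hψ' : IsWeight (stab Γ {Mc}) ψ') :
    (Module.finrank ℂ A : ℝ≥0∞) * massF n (k * (n + 1)) ≤
      (Module.finrank ℂ (a6_K Γ k (Jc n k) A hA {Mc}) : ℝ≥0∞) * massF n (k * (n + 1)) +
      ∫⁻ v, (TubeS {Mc} (t1 / 2) \ TubeS {Mc} (1 / (8 * ((k * (n + 1) : ℕ) : ℝ)))).indicator
        (fun x => 4 * cnt Γ x (1 + 8 * δ)) v * ψ' v ∂(nu n) := by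
  set w := k * (n + 1) with hw
  have hkw : k ≤ w := Nat.le_mul_of_pos_right k (Nat.succ_pos n)
  have hw1 : n + 1 ≤ w := Nat.le_mul_of_pos_left (n + 1) (by omega)
  have hwR : (32002 : ℝ) ≤ w := by exact_mod_cast hk.trans hkw
  have hw0 : (0 : ℝ) < w := by linarith only [hwR]
  have hG := a6_isGen hc
  have hΛ : Proper (stab Γ {Mc}) := hΓ.mono (stab_le Γ _)
  have hF : ({Mc} : Set (Op n)) ∈ sysC Γ := ⟨Mc, hc, rfl⟩
  have hfew : ∀ x ∈ Neg n, mult (sysC Γ) (fun F => TubeS F t1) x ≤ cnt Γ x 4 := by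
    intro x hx
    rw [mult_sysC hΓ le_rfl]
    refine le_trans ?_ ((one_le_zc Γ).trans (zc_le_cnt hx (by norm_num)))
    exact Set.indicator_le_self' (fun _ _ => zero_le_one) x
  have ht1 : (0 : ℝ) < t1 := by norm_num [t1]
  have hJ : ((Jc n k : ℕ) : ℝ) ≤ 1 / 4 * (t1 / 2 * (((k : ℝ) - 1) * ((n : ℝ) + 1))) := by
    clear * - k hk n
    have hkR : (32002 : ℝ) ≤ k := by exact_mod_cast hk
    have hn0 : (0 : ℝ) ≤ n := Nat.cast_nonneg n
    have a1 : ((Jc n k : ℕ) : ℝ) < t2 * ((k : ℝ) * ((n : ℝ) + 1)) + 1 :=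
      Nat.ceil_lt_add_one (by unfold t2; positivity)
    unfold t1
    unfold t2 at a1
    have a2 : 0 ≤ ((k : ℝ) - 2) * n := mul_nonneg (by linarith only [hkR]) hn0
    linarith only [hkR, a1, a2]
  obtain ⟨P, hP0, hP⟩ := family_proj hΓ (Set.finite_singleton Mc)
    (fun M hM => by rw [Set.mem_singleton_iff.mp hM]; exact ⟨hG, hc.1.2⟩)
    (fun M hM M' hM' => by
      rw [Set.mem_singleton_iff.mp hM, Set.mem_singleton_iff.mp hM'])
    hψ' (k := k) (J := Jc n k) (by omega) (s := t1 / 2) (s' := t1) (θ := 1 / 4) (by linarith only [ht1])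
    (by linarith only [ht1]) (by norm_num) hJ A
    (fun G hGA => ⟨(hA G hGA).hol, (hA G hGA).inv,
      mass_good_ne_top hΓ hψ hv (invI_sysC hΓ) hfew hF hψ' (hA G hGA)⟩)
  have hreg : ∀ s, Region (stab Γ {Mc}) (TubeS {Mc} s) :=
    fun s => region_TubeS hΛ (fun g hg => hg.2) s
  have hS : Region (stab Γ {Mc}) (TubeS {Mc} (t1 / 2) \ TubeS {Mc} (1 / (8 * (w : ℝ)))) :=
    (hreg _).diff (hreg _)
  have hrk := rank_le hΛ hψ' (w := w) (hreg t1) (isOpen_TubeS _ _)
    (by rw [a6_TubeS_single]; exact hG.tube_nonempty ht1) hS h0 (by linarith only [h1])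
    (fun x hx y hy hxy => by
      rw [a6_TubeS_single]
      have hx1 := hx.1
      rw [a6_TubeS_single] at hx1
      exact a6_ball hc.1.1 hx1 hy h0 h1 hxy)
    (LinearMap.range P) 2 (by
      clear * - n A P w Γ Mc ψ' k hP hG hc hw1 hΛ hψ' hreg hk hwR hw0 hv
      rintro _ ⟨G, rfl⟩
      obtain ⟨p1, p2, p3, p4, p5⟩ := hP G
      refine ⟨p1, p2, p4, a6_half p4 ?_⟩
      have hper : Per k Mc (P G) :=
        (p3 Mc 0 hG hc.1.2 (fun M hM => by rw [Set.mem_singleton_iff.mp hM])).1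
      have hcond : Cond k Mc 1 (P G) := cond_one_of_null (by omega) p1 hc.1.1 hper
      have hav := avoid hΛ hψ' hw1 p1 p2 hc.1.1 (fun g hg => (a6_mem_stab.mp hg).2) hper hcond
        (hreg (1 / (8 * (w : ℝ)))) (hreg (1 / (4 * (w : ℝ))))
        (fun x v hv => by
          rw [a6_TubeS_single] at hv ⊢
          exact ⟨(hG.isIsom_flow x).mem_Neg.mpr hv.1, by
            rw [mu_flow_real hG (Commute.refl Mc)]; exact hv.2⟩)
        (y := 1) (t := 1 / (4 * (w : ℝ))) one_pos (by positivity)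
        (fun v hv => by
          rw [a6_TubeS_single] at hv ⊢
          have e : 1 / (4 * (w : ℝ)) = 2 * (1 / (8 * (w : ℝ))) := by field_simp; norm_num
          rw [e]
          refine a6_flow_neg hc.1.1 ?_ hv
          have e2 : 8 * Real.pi * (1 / (8 * (w : ℝ))) = Real.pi / w := by field_simp
          rw [e2, div_le_one hw0]
          have := Real.pi_lt_four
          linarith only [hwR, this])
        (fun v hv => by
          rw [a6_TubeS_single] at hv
          exact hv.2.le)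
      have hsub : TubeS {Mc} (1 / (4 * (w : ℝ))) ⊆ TubeS {Mc} t1 := by
        apply TubeS_mono
        unfold t1
        apply one_div_le_one_div_of_le (by norm_num)
        linarith only [hwR]
      have hD : mass w (P G) (TubeS {Mc} (1 / (8 * (w : ℝ)))) ψ' ≤
          ENNReal.ofReal (1 / 4) * mass w (P G) (TubeS {Mc} t1) ψ' :=
        hav.trans (mul_le_mul' (ENNReal.ofReal_le_ofReal (a6_const (by omega)))
          (a6_mass_mono _ _ _ hsub))
      have hcov : TubeS {Mc} t1 ⊆ ((TubeS {Mc} t1 \ TubeS {Mc} (t1 / 2)) ∪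
          (TubeS {Mc} (t1 / 2) \ TubeS {Mc} (1 / (8 * (w : ℝ))))) ∪
          TubeS {Mc} (1 / (8 * (w : ℝ))) := by
        intro v hv
        by_cases a1 : v ∈ TubeS {Mc} (t1 / 2)
        · by_cases a2 : v ∈ TubeS {Mc} (1 / (8 * (w : ℝ)))
          · exact Or.inr a2
          · exact Or.inl (Or.inr ⟨a1, a2⟩)
        · exact Or.inl (Or.inl ⟨hv, a1⟩)
      refine (a6_mass_mono _ _ _ hcov).trans ((a6_mass_union _ _ _ _ _).trans ?_)
      exact add_le_add ((a6_mass_union _ _ _ _ _).trans (add_le_add p5 le_rfl)) hD)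
  have hle : a6_K Γ k (Jc n k) A hA {Mc} ≤ A := fun G hG => hG.1
  have hker : LinearMap.ker P = (a6_K Γ k (Jc n k) A hA {Mc}).comap A.subtype := by
    ext G
    rw [LinearMap.mem_ker, hP0, Submodule.mem_comap, a6_mem_K]
    constructor
    · intro h
      exact ⟨G.2, fun M hM _ => h M hM⟩
    · intro h M hM
      exact h.2 M hM (by rw [Set.mem_singleton_iff.mp hM]; exact hc)
  have hdim : Module.finrank ℂ A = Module.finrank ℂ (a6_K Γ k (Jc n k) A hA {Mc}) +
      Module.finrank ℂ (LinearMap.range P) := by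
    rw [← LinearMap.finrank_range_add_finrank_ker P, hker,
      (Submodule.comapSubtypeEquivOfLe hle).finrank_eq, add_comm]
  rw [hdim, Nat.cast_add, add_mul]
  refine add_le_add le_rfl ?_
  have hmeas : Measurable fun x => cnt Γ x (1 + 8 * δ) * ψ' x :=
    (measurable_cnt hΓ _).mul hψ'.meas
  calc (Module.finrank ℂ (LinearMap.range P) : ℝ≥0∞) * massF n w
      ≤ (Module.finrank ℂ (LinearMap.range P) : ℝ≥0∞) * (2 * mass0 n w δ) :=
        mul_le_mul' le_rfl hm
    _ = 2 * ((Module.finrank ℂ (LinearMap.range P) : ℝ≥0∞) * mass0 n w δ) := by ring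
    _ ≤ 2 * (2 * ∫⁻ x in TubeS {Mc} (t1 / 2) \ TubeS {Mc} (1 / (8 * (w : ℝ))),
          cnt Γ x (1 + 8 * δ) * ψ' x ∂(nu n)) := by
        refine mul_le_mul' le_rfl (hrk.trans (mul_le_mul' le_rfl (lintegral_mono fun x => ?_)))
        exact mul_le_mul' (cnt_mono (stab_le Γ _) x le_rfl) le_rfl
    _ = _ := by
        rw [← mul_assoc, ← lintegral_const_mul _ hmeas, ← lintegral_indicator hS.meas]
        refine lintegral_congr fun x => ?_
        by_cases hx : x ∈ TubeS {Mc} (t1 / 2) \ TubeS {Mc} (1 / (8 * (w : ℝ)))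
        · rw [Set.indicator_of_mem hx, Set.indicator_of_mem hx, ← mul_assoc]
          norm_num
        · rw [Set.indicator_of_notMem hx, Set.indicator_of_notMem hx, zero_mul]

theorem a6_sum {Γ : Subgroup (GG n)} (hΓ : Proper Γ) {s s' : ℝ} (hs : s ≤ t1) (hs' : s' ≤ t1)
    (f : V n → ℝ≥0∞) (v : V n) :
    ∑' F : sysC Γ, (TubeS (F : Set (Op n)) s \ TubeS (F : Set (Op n)) s').indicator f v ≤
      (HB Γ s \ HB Γ s').indicator f v := by
  by_cases hv : v ∈ HB Γ s \ HB Γ s'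
  · rw [Set.indicator_of_mem hv]
    have h := mult_sysC hΓ hs v
    rw [Set.indicator_of_mem hv.1] at h
    calc _ ≤ ∑' F : sysC Γ, (TubeS (F : Set (Op n)) s).indicator 1 v * f v := by
          refine ENNReal.tsum_le_tsum fun F => ?_
          by_cases h1 : v ∈ TubeS (F : Set (Op n)) s \ TubeS (F : Set (Op n)) s'
          · rw [Set.indicator_of_mem h1, Set.indicator_of_mem h1.1]
            simp
          · rw [Set.indicator_of_notMem h1]
            exact zero_le
      _ = mult (sysC Γ) (fun F => TubeS F s) v * f v := ENNReal.tsum_mul_right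
      _ = f v := by rw [h]; simp
  · rw [Set.indicator_of_notMem hv]
    refine le_of_eq (ENNReal.tsum_eq_zero.mpr fun F => Set.indicator_of_notMem ?_ _)
    obtain ⟨F, M, hM, rfl⟩ := F
    intro h1
    simp only [a6_TubeS_single] at h1
    apply hv
    refine ⟨a6_mem_HB.mpr ⟨M, hM, h1.1⟩, fun h2 => ?_⟩
    obtain ⟨M', hM', h3⟩ := a6_mem_HB.mp h2
    have := cusp_disjoint hΓ hM hM' (a6_Tube_mono M hs h1.1) (a6_Tube_mono M' hs' h3)
    subst this
    exact h1.2 h3

theorem a6_cnt_le {Γ : Subgroup (GG n)} (hΓ : Proper Γ) {M : Op n} (hM : Cusp Γ M) {x : V n}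
    (hx : x ∈ Tube M t1) {r : ℝ} (hr : r ≤ 2) : cnt Γ x r ≤ cnt (stab Γ {M}) x r := by
  rw [cnt_eq_encard, cnt_eq_encard]
  refine ENat.toENNReal_le.mpr (Set.encard_le_encard fun g hg => ⟨?_, hg.2⟩)
  exact a6_mem_stab.mpr ⟨hg.1, near_fix_cusp hΓ hM hx (le_plus Γ hg.1) (hg.2.trans hr)⟩

theorem a6_tendsto_w (n : ℕ) : Tendsto (fun k : ℕ => k * (n + 1)) atTop atTop :=
  tendsto_atTop_mono (fun k => Nat.le_mul_of_pos_right k (Nat.succ_pos n)) tendsto_id

theorem a6_small (n : ℕ) (R : ℝ) {ε : ℝ} (hε : 0 < ε) :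
    ∀ᶠ k : ℕ in atTop, R / ((k * (n + 1) : ℕ) : ℝ) ≤ ε := by
  have h := (tendsto_const_div_atTop_nhds_zero_nat R).comp (a6_tendsto_w n)
  exact h.eventually (ge_mem_nhds hε)

theorem a6_limit (hn : 2 ≤ n) {Γ : Subgroup (GG n)} (hΓ : Proper Γ) {ψ : V n → ℝ≥0∞}
    (hψ : IsWeight Γ ψ) (hv : ∫⁻ v, ψ v ∂(nu n) ≠ ⊤) (hS : Cocpt Γ (Neg n \ HB Γ t3))
    {R : ℝ} (hR : 0 < R) :
    Tendsto (fun k : ℕ => ∫⁻ v, (HB Γ (t1 / 2) \ HB Γ (1 / (8 * ((k * (n + 1) : ℕ) : ℝ)))).indicator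
        (fun x => 4 * cnt Γ x (1 + 8 * (R / ((k * (n + 1) : ℕ) : ℝ)))) v * ψ v ∂(nu n)) atTop
      (𝓝 (4 * zc Γ * volW (HB Γ (t1 / 2)) ψ)) := by
  have ht1 : (0 : ℝ) < t1 := by norm_num [t1]
  obtain ⟨B, hB⟩ := cnt_cusp hΓ hS (8 * R)
  have e : 4 * zc Γ * volW (HB Γ (t1 / 2)) ψ =
      ∫⁻ v, (HB Γ (t1 / 2)).indicator (fun _ => 4 * zc Γ) v * ψ v ∂(nu n) := by
    unfold volW
    rw [← lintegral_const_mul _ hψ.meas, ← lintegral_indicator (region_HB hΓ _).meas]
    refine lintegral_congr fun x => ?_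
    by_cases hx : x ∈ HB Γ (t1 / 2)
    · rw [Set.indicator_of_mem hx, Set.indicator_of_mem hx]
    · rw [Set.indicator_of_notMem hx, Set.indicator_of_notMem hx, zero_mul]
  rw [e]
  have h8 : ∀ k : ℕ, 1 / (8 * ((k * (n + 1) : ℕ) : ℝ)) = (1 / 8) / ((k * (n + 1) : ℕ) : ℝ) :=
    fun k => by rw [div_div]
  refine tendsto_lintegral_filter_of_dominated_convergence
    (fun v => (4 * ENNReal.ofReal B) * ((∑' M : {M : Op n | Cusp Γ M},
      (Tube (M : Op n) (t1 / 2)).indicator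
      (fun x => ENNReal.ofReal (1 + (mu (M : Op n) x)⁻¹)) v) * ψ v)) ?_ ?_ ?_ ?_
  · refine Eventually.of_forall fun k => Measurable.mul ?_ hψ.meas
    exact (a6_invF hΓ _).meas.indicator ((region_HB hΓ _).diff (region_HB hΓ _)).meas
  · filter_upwards [a6_small n R (ε := 1 / 8) (by norm_num)] with k hk
    refine Eventually.of_forall fun v => ?_
    rw [← mul_assoc]
    refine mul_le_mul' ?_ le_rfl
    by_cases hx : v ∈ HB Γ (t1 / 2) \ HB Γ (1 / (8 * ((k * (n + 1) : ℕ) : ℝ)))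
    · rw [Set.indicator_of_mem hx]
      obtain ⟨M, hM, hvM⟩ := a6_mem_HB.mp hx.1
      have hmu : 1 / (8 * ((k * (n + 1) : ℕ) : ℝ)) ≤ mu M v := by
        by_contra hh
        exact hx.2 (a6_mem_HB.mpr ⟨M, hM, hvM.1, not_le.mp hh⟩)
      have hδ : R / ((k * (n + 1) : ℕ) : ℝ) ≤ 8 * R * mu M v := by
        have a1 : R / ((k * (n + 1) : ℕ) : ℝ) = 8 * R * (1 / (8 * ((k * (n + 1) : ℕ) : ℝ))) := by
          rw [h8, div_eq_mul_inv, div_eq_mul_inv _ ((k * (n + 1) : ℕ) : ℝ)]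
          ring
        rw [a1]
        exact mul_le_mul_of_nonneg_left hmu (by positivity)
      have b1 := hB M hM v hvM _ (by positivity) (by linarith only [hk]) hδ
      have b2 := a6_cnt_le hΓ hM (a6_Tube_mono M (by linarith only [ht1]) hvM)
        (r := 1 + 8 * (R / ((k * (n + 1) : ℕ) : ℝ))) (by linarith only [hk])
      have b3 : 0 ≤ 1 + (mu M v)⁻¹ := by
        have := a6_mu_pos hM.1.1 hvM.1
        positivity
      rw [ENNReal.ofReal_mul' b3] at b1
      rw [mul_assoc]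
      refine mul_le_mul' le_rfl (b2.trans (b1.trans (mul_le_mul' le_rfl ?_)))
      refine le_trans ?_ (ENNReal.le_tsum (⟨M, hM⟩ : {M : Op n | Cusp Γ M}))
      rw [Set.indicator_of_mem hvM]
    · rw [Set.indicator_of_notMem hx]
      exact zero_le
  · have hB' : (4 * ENNReal.ofReal B) ≠ ⊤ := ENNReal.mul_ne_top (by norm_num) ENNReal.ofReal_ne_top
    rw [lintegral_const_mul' _ _ hB']
    exact ENNReal.mul_ne_top hB' (lintegral_inv_mu hn hΓ hψ hv)
  · filter_upwards [ae_free hΓ] with v hfree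
    refine tendsto_const_nhds.congr' ?_
    by_cases hx : v ∈ HB Γ (t1 / 2)
    · obtain ⟨M, hM, hvM⟩ := a6_mem_HB.mp hx
      obtain ⟨δ0, hδ0, hcnt⟩ := cnt_eventually hΓ hfree.1 hfree.2
      filter_upwards [a6_small n R (ε := δ0 / 8) (by linarith only [hδ0]),
        a6_small n (1 / 8) (a6_mu_pos hM.1.1 hvM.1), a6_small n (1 / 8) ht1] with k k1 k2 k3
      have hx' : v ∈ HB Γ (t1 / 2) \ HB Γ (1 / (8 * ((k * (n + 1) : ℕ) : ℝ))) := by
        refine ⟨hx, fun h2 => ?_⟩
        obtain ⟨M', hM', h3⟩ := a6_mem_HB.mp h2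
        rw [h8] at h3
        have := cusp_disjoint hΓ hM hM' (a6_Tube_mono M (by linarith only [ht1]) hvM)
          (a6_Tube_mono M' k3 h3)
        subst this
        exact absurd h3.2 (not_lt.mpr k2)
      rw [Set.indicator_of_mem hx, Set.indicator_of_mem hx']
      have a0 : 0 ≤ R / ((k * (n + 1) : ℕ) : ℝ) := by positivity
      have : cnt Γ v (1 + 8 * (R / ((k * (n + 1) : ℕ) : ℝ))) = zc Γ :=
        le_antisymm (hcnt ▸ cnt_mono le_rfl v (by linarith only [k1])) (zc_le_cnt hfree.1 (by linarith only [a0]))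
      rw [this]
    · refine Eventually.of_forall fun k => ?_
      simp only
      rw [Set.indicator_of_notMem hx, Set.indicator_of_notMem (fun h => hx h.1)]

theorem cusp_cost (hn : 2 ≤ n) {Γ : Subgroup (GG n)} (hΓ : Proper Γ) {ψ : V n → ℝ≥0∞}
    (hψ : IsWeight Γ ψ) (hv : ∫⁻ v, ψ v ∂(nu n) ≠ ⊤) (hS : Cocpt Γ (Neg n \ HB Γ t3))
    {ζ : ℝ≥0∞} (hζ : ζ ≠ 0) :
    ∀ᶠ k : ℕ in atTop, ∀ A : Submodule ℂ (V n → ℂ), FiniteDimensional ℂ A →
      (∀ G ∈ A, IsGood Γ k G) →
      ∃ A' : Submodule ℂ (V n → ℂ), A' ≤ A ∧ (∀ G ∈ A', ∀ Mc, Cusp Γ Mc → Cond k Mc (Jc n k) G) ∧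
        (Module.finrank ℂ A : ℝ≥0∞) * massF n (k * (n + 1)) ≤
          (Module.finrank ℂ A' : ℝ≥0∞) * massF n (k * (n + 1)) +
            (4 * zc Γ * volW (HB Γ (t1 / 2)) ψ + ζ) := by
  obtain ⟨R, hR, hm⟩ := massF_le_two_mass0 n
  have ht1 : (0 : ℝ) < t1 := by norm_num [t1]
  have hfin : 4 * zc Γ * volW (HB Γ (t1 / 2)) ψ ≠ ⊤ :=
    ENNReal.mul_ne_top (ENNReal.mul_ne_top (by norm_num) (zc_ne_top hΓ))
      (ne_top_of_le_ne_top hv (setLIntegral_le_lintegral _ _))
  have hlim := (a6_limit hn hΓ hψ hv hS hR).eventually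
    (ge_mem_nhds (ENNReal.lt_add_right hfin hζ))
  filter_upwards [hlim, (a6_tendsto_w n).eventually hm, eventually_ge_atTop 32002,
    a6_small n R (ε := 1 / 16) (by norm_num), a6_small n (1 / 8) ht1] with k k1 k2 k3 k4 k5
  intro A hfd hA
  have hw1 : n + 1 ≤ k * (n + 1) := Nat.le_mul_of_pos_left (n + 1) (by omega)
  have hE := ((eqvS_TubeS hΓ (sysC Γ) (t1 / 2)).diff
    (eqvS_TubeS hΓ (sysC Γ) (1 / (8 * ((k * (n + 1) : ℕ) : ℝ))))).eqvF
    (a6_invF hΓ (1 + 8 * (R / ((k * (n + 1) : ℕ) : ℝ))))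
  obtain ⟨A', h1, h2, h3⟩ := rank_unfold hΓ hψ (invI_sysC hΓ) hE A (a6_K Γ k (Jc n k) A hA)
    (fun F _ G hG => hG.1)
    (by
      rintro γ hγ _ ⟨M, hM, rfl⟩
      ext G
      rw [a6_cnjS_single, a6_mem_K, a6_mem_K]
      refine and_congr_right fun hG => ?_
      simp only [Set.mem_singleton_iff, forall_eq]
      rw [cond_cnj (hA G hG).inv hγ]
      exact ⟨fun h _ => h (hM.cnj hΓ (le_plus Γ hγ)), fun h _ => h hM⟩)
    (massF n (k * (n + 1))) (massF_ne_top hw1)
    (by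
      rintro _ ⟨M, hM, rfl⟩ ψ' hψ'
      exact a6_local hΓ hψ hv k3 (by positivity) k4 k2 A hA hM hψ')
  refine ⟨A', h1, fun G hG Mc hc => (h2 {Mc} ⟨Mc, hc, rfl⟩ hG).2 Mc rfl hc, h3.trans ?_⟩
  refine add_le_add le_rfl (le_trans (lintegral_mono fun v => ?_) k1)
  refine mul_le_mul' (a6_sum hΓ (by linarith only [ht1]) ?_ _ v) le_rfl
  rw [← div_div]
  exact k5

end BallQ
end
end

-- merged part: Pool.Agent.Work.MP_72250f_ag.P3
section
/-!
Finite L^(2/k) norm. lintegral_image_le: the image of the critical set is null (MeasureTheory.addHaar_image_eq_zero_of_det_fderivWithin_eq_zero for the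
real derivative, whose determinant is |det|^2 as in M1); the rest of A is covered by countably many open sets on which psi is injective (local_inv,
TopologicalSpace.countable_cover_nhdsWithin or isOpen_iUnion_countable), make them disjoint (disjointed), use lintegral_iUnion_le and
lintegral_image_eq_lintegral_abs_det_fderiv_mul on each piece. lintegral_lt_top: A = D meet Omega has image S; on Omega
|s (psi z)|^(2/k) |det|^2 = |F (lift z)|^(2/k) <= B^(1/k) (1 - |z|^2)^-(n+1) (NN_lift).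
-/

open scoped ComplexConjugate ENNReal Topology
open MeasureTheory Filter

noncomputable section

namespace BallQ

variable {n : ℕ}

theorem lintegral_image_le {Ω : Set (E n)} (hΩ : IsOpen Ω) {ψ : E n → E n}
    (hψ : DifferentiableOn ℂ ψ Ω) {A : Set (E n)} (hA : MeasurableSet A) (hAΩ : A ⊆ Ω)
    (φ : E n → ℝ≥0∞) :
    ∫⁻ a in ψ '' A, φ a ≤ ∫⁻ z in A, ENNReal.ofReal (‖(fderiv ℂ ψ z).det‖ ^ 2) * φ (ψ z) := by
  have : ContinuousSMul ℂ (E n) := IsBoundedSMul.continuousSMul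
  classical
  obtain ⟨g, hg, hgφ, hge⟩ := exists_measurable_le_lintegral_eq (volume.restrict (ψ '' A)) φ
  have hψ' : Measurable (Ω.piecewise ψ fun _ => 0) :=
    hψ.continuousOn.measurable_piecewise continuousOn_const hΩ.measurableSet
  have hJ : Measurable fun z => ENNReal.ofReal (‖(fderiv ℂ ψ z).det‖ ^ 2) :=
    (((ContinuousLinearMap.continuous_det.measurable.comp (measurable_fderiv ℂ ψ)).norm).pow_const
      2).ennreal_ofReal
  have hle : volume.restrict (ψ '' A) ≤ Measure.map (Ω.piecewise ψ fun _ => 0)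
      ((volume.restrict A).withDensity fun z => ENNReal.ofReal (‖(fderiv ℂ ψ z).det‖ ^ 2)) := by
    clear * - n ψ A Ω hψ' hAΩ hA hψ hΩ
    refine Measure.le_iff.2 fun t ht => ?_
    rw [Measure.restrict_apply ht, Measure.map_apply hψ' ht, withDensity_apply _ (hψ' ht),
      Measure.restrict_restrict (hψ' ht)]
    have h1 : t ∩ ψ '' A = ψ '' ((Ω.piecewise ψ fun _ => 0) ⁻¹' t ∩ A) := by
      ext a
      constructor
      · rintro ⟨ha, z, hz, rfl⟩
        exact ⟨z, ⟨by rwa [Set.mem_preimage, Set.piecewise_eq_of_mem _ _ _ (hAΩ hz)], hz⟩, rfl⟩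
      · rintro ⟨z, ⟨h1, hz⟩, rfl⟩
        rw [Set.mem_preimage, Set.piecewise_eq_of_mem _ _ _ (hAΩ hz)] at h1
        exact ⟨h1, z, hz, rfl⟩
    rw [h1]
    have h2 := addHaar_image_le_lintegral_abs_det_fderiv (volume : Measure (E n))
      ((hψ' ht).inter hA) (f := ψ) (f' := fun z => (fderiv ℂ ψ z).restrictScalars ℝ)
      (fun z hz => (((hψ.differentiableAt (hΩ.mem_nhds (hAΩ hz.2))).hasFDerivAt).restrictScalars
        ℝ).hasFDerivWithinAt)
    simpa only [m1_abs_det] using h2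
  rw [hge]
  refine (lintegral_mono' hle le_rfl).trans ?_
  rw [lintegral_map hg hψ']
  refine (lintegral_withDensity_eq_lintegral_mul _ hJ (hg.comp hψ')).trans_le ?_
  refine setLIntegral_mono' hA fun z hz => ?_
  simp only [Pi.mul_apply, Function.comp_apply, Set.piecewise_eq_of_mem _ _ _ (hAΩ hz)]
  exact mul_le_mul_right (hgφ _) _

theorem QMap.lintegral_lt_top {Γ : Subgroup (GG n)} (hΓ : Proper Γ) (hc : FinCov Γ)
    {Ω S : Set (E n)} {ψ : E n → E n} (h : QMap Γ Ω ψ S) {k : ℕ} (hk : 1 ≤ k) {F : V n → ℂ}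
    (hF : IsHol (k * (n + 1)) F) {s : E n → ℂ}
    (hs : ∀ z ∈ Ω, s (ψ z) * (fderiv ℂ ψ z).det ^ k = F (lift z)) :
    ∫⁻ a in S, ENNReal.ofReal (‖s a‖ ^ (2 / (k : ℝ))) < ⊤ := by
  obtain ⟨D, hD, -, hfin, hcov⟩ := hc
  obtain ⟨B, hB⟩ := hF.bdd
  have hk0 : (k : ℝ) ≠ 0 := Nat.cast_ne_zero.2 (by omega)
  have hS : S = ψ '' (D ∩ Ω) := by
    rw [← h.image]
    refine Set.Subset.antisymm ?_ (Set.image_mono Set.inter_subset_right)
    rintro _ ⟨z, hz, rfl⟩
    obtain ⟨g, hg, hgz⟩ := hcov z (h.sub hz)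
    exact ⟨_, ⟨hgz, h.inv g hg z hz⟩, ((h.fib z hz _ (h.inv g hg z hz)).2 ⟨g, hg, rfl⟩).symm⟩
  have hm := hD.inter h.isOpen.measurableSet
  rw [hS]
  refine (lintegral_image_le h.isOpen h.diff hm Set.inter_subset_right _).trans_lt ?_
  have key : ∀ z ∈ D ∩ Ω, ENNReal.ofReal (‖(fderiv ℂ ψ z).det‖ ^ 2) *
      ENNReal.ofReal (‖s (ψ z)‖ ^ (2 / (k : ℝ))) ≤
      ENNReal.ofReal (B ^ (k : ℝ)⁻¹) * dens z := by
    clear * - n D Ω Γ ψ S h F k B hB s hk hk0 hs
    intro z hz
    have hN := lift_mem_Neg.2 (h.sub hz.2)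
    have hN0 : 0 < NN (lift z) := hN
    have h1 := hB _ hN
    have hB0 : 0 ≤ B := le_trans (by positivity) h1
    rw [dens, ← NN_lift, ← ENNReal.ofReal_mul (by positivity), ← ENNReal.ofReal_mul (by positivity)]
    refine ENNReal.ofReal_le_ofReal ((pow_le_pow_iff_left₀ (by positivity) (by positivity)
      (by omega : k ≠ 0)).1 ?_)
    have e1 : (‖s (ψ z)‖ ^ (2 / (k : ℝ))) ^ k = ‖s (ψ z)‖ ^ 2 := by
      rw [← Real.rpow_natCast, ← Real.rpow_mul (norm_nonneg _), div_mul_cancel₀ _ hk0,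
        Real.rpow_two]
    rw [mul_pow, mul_pow, e1, Real.rpow_inv_natCast_pow hB0 (by omega), ← pow_mul, ← pow_mul,
      mul_comm (n + 1) k, inv_pow, ← div_eq_mul_inv, le_div_iff₀ (by positivity)]
    rw [← hs z hz.2, norm_mul, norm_pow, mul_pow, ← pow_mul, mul_comm k 2] at h1
    linarith only [h1]
  refine (setLIntegral_mono' hm key).trans_lt ?_
  rw [lintegral_const_mul _ measurable_dens]
  exact ENNReal.mul_lt_top ENNReal.ofReal_lt_top
    ((lintegral_mono_set Set.inter_subset_left).trans_lt hfin)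

end BallQ
end
end

-- merged part: Pool.Agent.Work.MP_72250f_ag.P4a
section
/-!
Sub-mean value property of |s|^p and poles of finite order. submean_circle: if f 0 is nonzero, Jensen (AnalyticOnNhd.circleAverage_log_norm /
MeromorphicOn.circleAverage_log_norm, or the inequality log |f 0| <= circleAverage log |f|) and, with lam = |f 0|^p,
p log |f| <= log lam + |f|^p / lam - 1 wherever f is nonzero (off a finite set of the circle).
submean_ball: translate a to 0; volume is invariant under the isometries w |-> exp (i th) w (LinearIsometryEquiv.measurePreserving), so the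
integral over the ball equals its average over th (Tonelli: lintegral_lintegral_swap), and for each w the average is at least |s a|^p.
pole_local: take r with closedBall a0 (2 r) in U, L a Lipschitz constant of h there (norm_fderiv_le / continuousOn_fderiv, Convex.norm_image_sub_le_of_norm_fderiv_le).
For a in ball a0 r with h a nonzero the ball of radius d = min r (|h a| / L) around a avoids the zeros of h, so |s a|^p d^(2n) vol (ball 0 1) <= I
(Measure.addHaar_ball, real dimension 2 n); with m >= 2 n / p the function h^m s is bounded on ball a0 r minus zeros, apply ext_slices on U' = ball a0 r.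
-/

open scoped ComplexConjugate ENNReal Topology
open MeasureTheory Filter

noncomputable section

namespace BallQ

variable {n : ℕ}

theorem p4a_log_le {f : ℂ → ℂ} (hf : AnalyticOnNhd ℂ f (Metric.closedBall 0 |1|)) (h0 : f 0 ≠ 0) :
    Real.log ‖f 0‖ ≤ Real.circleAverage (fun z => Real.log ‖f z‖) 0 1 := by
  rw [hf.circleAverage_log_norm one_ne_zero h0, le_add_iff_nonneg_left]
  refine finsum_nonneg fun u => ?_
  by_cases hu : u ∈ Metric.closedBall (0 : ℂ) |1|
  · refine mul_nonneg (mod_cast MeromorphicOn.AnalyticOnNhd.divisor_nonneg hf u) ?_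
    rw [one_mul, Real.log_inv, neg_nonneg]
    refine Real.log_nonpos (norm_nonneg _) ?_
    simpa using hu
  · rw [Function.locallyFinsuppWithin.apply_eq_zero_of_notMem _ hu]
    simp

/-- Multiplication by a unit complex number as a real linear isometry. -/
def p4a_rot (n : ℕ) (u : ℂ) (hu : ‖u‖ = 1) : E n ≃ₗᵢ[ℝ] E n where
  toFun := fun w => u • w
  invFun := fun w => u⁻¹ • w
  map_add' := fun v w => smul_add u v w
  map_smul' := fun c v => smul_comm u c v
  left_inv := fun w => by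
    have : u ≠ 0 := by rintro rfl; simp at hu
    simp only [smul_smul, inv_mul_cancel₀ this, one_smul]
  right_inv := fun w => by
    have : u ≠ 0 := by rintro rfl; simp at hu
    simp only [smul_smul, mul_inv_cancel₀ this, one_smul]
  norm_map' := fun w => by
    show ‖u • w‖ = ‖w‖
    rw [norm_smul, hu, one_mul]

theorem submean_circle {f : ℂ → ℂ} {U : Set ℂ} (hU : IsOpen U) (hsub : Metric.closedBall 0 1 ⊆ U)
    (hf : DifferentiableOn ℂ f U) {p : ℝ} (hp : 0 < p) :
    2 * Real.pi * ‖f 0‖ ^ p ≤ ∫ θ in (0 : ℝ)..(2 * Real.pi), ‖f (circleMap 0 1 θ)‖ ^ p := by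
  by_cases h0 : f 0 = 0
  · rw [h0, norm_zero, Real.zero_rpow hp.ne', mul_zero]
    exact intervalIntegral.integral_nonneg Real.two_pi_pos.le fun θ _ => by positivity
  have han : AnalyticOnNhd ℂ f (Metric.closedBall 0 |1|) := by
    rw [abs_one]
    exact (hf.analyticOnNhd hU).mono hsub
  have hne : ∀ᶠ z in codiscreteWithin (Metric.sphere (0 : ℂ) |1|), f z ≠ 0 := by
    refine codiscreteWithin_mono Metric.sphere_subset_closedBall ?_
    refine (han.eqOn_zero_or_eventually_ne_zero_of_preconnected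
      (convex_closedBall _ _).isPreconnected).resolve_left fun h => h0 (h (by simp))
  set lam : ℝ := ‖f 0‖ ^ p with hlam
  have hl0 : 0 < lam := Real.rpow_pos_of_pos (norm_pos_iff.mpr h0) p
  have hlog : Real.log lam = p * Real.log ‖f 0‖ := Real.log_rpow (norm_pos_iff.mpr h0) p
  let g : ℂ → ℝ := fun z => if f z = 0 then (Real.log lam - 1) / p else Real.log ‖f z‖
  have hg : (fun z => Real.log ‖f z‖) =ᶠ[codiscreteWithin (Metric.sphere (0 : ℂ) |1|)] g := by
    filter_upwards [hne] with z hz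
    simp only [g, if_neg hz]
  have i1 : CircleIntegrable (fun z => Real.log ‖f z‖) 0 1 :=
    (han.mono Metric.sphere_subset_closedBall).meromorphicOn.circleIntegrable_log_norm
  have c2 : ContinuousOn (fun z => ‖f z‖ ^ p) (Metric.sphere (0 : ℂ) 1) :=
    ((hf.continuousOn.mono (Metric.sphere_subset_closedBall.trans hsub)).norm).rpow_const
      fun _ _ => Or.inr hp.le
  have i2 : CircleIntegrable (fun z => ‖f z‖ ^ p) 0 1 := c2.circleIntegrable zero_le_one
  have i3 : CircleIntegrable (fun z => (p * lam)⁻¹ • ‖f z‖ ^ p) 0 1 :=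
    (c2.fun_const_smul _).circleIntegrable zero_le_one
  have i4 : CircleIntegrable (fun _ : ℂ => (Real.log lam - 1) / p) 0 1 :=
    continuousOn_const.circleIntegrable zero_le_one
  have key := Real.circleAverage_mono (i1.congr_codiscreteWithin hg) (i4.add i3) (by
    clear * - g lam p f hp h0 hl0
    intro z _
    simp only [g, Pi.add_apply, smul_eq_mul]
    split_ifs with hz
    · have : 0 ≤ (p * lam)⁻¹ * ‖f z‖ ^ p := by positivity
      linarith only [this]
    · have hz' : 0 < ‖f z‖ := norm_pos_iff.mpr hz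
      have h1 := Real.log_le_sub_one_of_pos (div_pos (Real.rpow_pos_of_pos hz' p) hl0)
      rw [Real.log_div (Real.rpow_pos_of_pos hz' p).ne' hl0.ne', Real.log_rpow hz'] at h1
      have h2 : (Real.log lam - 1) / p + (p * lam)⁻¹ * ‖f z‖ ^ p =
          (Real.log lam - 1 + ‖f z‖ ^ p / lam) / p := by
        field_simp
      rw [h2, le_div_iff₀ hp]
      linarith only [h1])
  rw [← Real.circleAverage_congr_codiscreteWithin hg one_ne_zero, Real.circleAverage_add i4 i3,
    Real.circleAverage_const, Real.circleAverage_fun_smul] at key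
  have key2 := (p4a_log_le han h0).trans key
  rw [Real.circleAverage_def, smul_eq_mul, smul_eq_mul, hlog] at key2
  set J := ∫ θ in (0 : ℝ)..(2 * Real.pi), ‖f (circleMap 0 1 θ)‖ ^ p
  have h3 : (p * Real.log ‖f 0‖ - 1) / p + (p * lam)⁻¹ * ((2 * Real.pi)⁻¹ * J) =
      Real.log ‖f 0‖ + (J / (2 * Real.pi * lam) - 1) / p := by
    field_simp
    ring
  rw [h3, le_add_iff_nonneg_right, le_div_iff₀ hp, zero_mul, sub_nonneg,
    le_div_iff₀ (by positivity), one_mul] at key2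
  exact key2

theorem submean_ball {s : E n → ℂ} {a : E n} {d : ℝ} (hs : DifferentiableOn ℂ s (Metric.ball a d))
    {p : ℝ} (hp : 0 < p) :
    ENNReal.ofReal (‖s a‖ ^ p) * volume (Metric.ball a d) ≤
      ∫⁻ x in Metric.ball a d, ENNReal.ofReal (‖s x‖ ^ p) := by
  have : ContinuousSMul ℂ (E n) := IsBoundedSMul.continuousSMul
  classical
  set G : E n → ℝ≥0∞ := (Metric.ball a d).indicator fun x => ENNReal.ofReal (‖s x‖ ^ p) with hG
  have hGm : Measurable G := by
    rw [hG, ← Set.piecewise_eq_indicator]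
    refine ContinuousOn.measurable_piecewise ?_ continuousOn_const measurableSet_ball
    exact ENNReal.continuous_ofReal.comp_continuousOn
      (hs.continuousOn.norm.rpow_const fun _ _ => Or.inr hp.le)
  have hrot : ∀ θ : ℝ, ∫⁻ w, G (a + circleMap 0 1 θ • w) = ∫⁻ x, G x := by
    intro θ
    rw [← lintegral_add_left_eq_self G a]
    exact (p4a_rot n (circleMap 0 1 θ) (by simp)).measurePreserving.lintegral_comp
      (f := fun w => G (a + w)) (hGm.comp (by fun_prop))
  have hm : Measurable fun q : ℝ × E n => G (a + circleMap 0 1 q.1 • q.2) := by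
    refine hGm.comp (Continuous.measurable ?_)
    have := continuous_circleMap 0 1
    fun_prop
  have h2π : ENNReal.ofReal (2 * Real.pi) ≠ 0 := (ENNReal.ofReal_pos.mpr Real.two_pi_pos).ne'
  rw [← ENNReal.mul_le_mul_iff_right h2π ENNReal.ofReal_ne_top,
    ← lintegral_indicator measurableSet_ball, ← hG]
  calc ENNReal.ofReal (2 * Real.pi) * (ENNReal.ofReal (‖s a‖ ^ p) * volume (Metric.ball a d))
      = ∫⁻ w, (Metric.ball (0 : E n) d).indicator
          (fun _ => ENNReal.ofReal (2 * Real.pi * ‖s a‖ ^ p)) w := by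
        rw [lintegral_indicator measurableSet_ball, setLIntegral_const,
          ENNReal.ofReal_mul Real.two_pi_pos.le, Measure.addHaar_ball_center volume a, mul_assoc]
    _ ≤ ∫⁻ w, ∫⁻ θ in Set.Ioc 0 (2 * Real.pi), G (a + circleMap 0 1 θ • w) := by
        clear * - n d s a p G hs hp hG
        refine lintegral_mono fun w => ?_
        by_cases hw : w ∈ Metric.ball (0 : E n) d
        swap
        · rw [Set.indicator_of_notMem hw]
          exact zero_le
        rw [Set.indicator_of_mem hw]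
        have hc : Continuous fun l : ℂ => a + l • w := by fun_prop
        have hsub : Metric.closedBall (0 : ℂ) 1 ⊆ (fun l : ℂ => a + l • w) ⁻¹' Metric.ball a d := by
          intro l hl
          rw [mem_closedBall_zero_iff] at hl
          rw [mem_ball_zero_iff] at hw
          rw [Set.mem_preimage, mem_ball_iff_norm, add_sub_cancel_left, norm_smul]
          exact (mul_le_of_le_one_left (norm_nonneg _) hl).trans_lt hw
        have hd : DifferentiableOn ℂ (fun l : ℂ => s (a + l • w))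
            ((fun l : ℂ => a + l • w) ⁻¹' Metric.ball a d) :=
          hs.comp (by fun_prop) fun l hl => hl
        have key := submean_circle (Metric.isOpen_ball.preimage hc) hsub hd hp
        have hcont : Continuous fun θ : ℝ => ‖s (a + circleMap 0 1 θ • w)‖ ^ p :=
          (hd.continuousOn.comp_continuous (continuous_circleMap 0 1) fun θ =>
            hsub (circleMap_mem_closedBall 0 zero_le_one θ)).norm.rpow_const
            fun _ => Or.inr hp.le
        simp only [zero_smul, add_zero] at key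
        rw [intervalIntegral.integral_of_le Real.two_pi_pos.le] at key
        refine (ENNReal.ofReal_le_ofReal key).trans (le_of_eq ?_)
        rw [ofReal_integral_eq_lintegral_ofReal (hcont.integrableOn_Icc.mono_set Set.Ioc_subset_Icc_self)
          (Eventually.of_forall fun θ => by positivity)]
        refine lintegral_congr fun θ => ?_
        have hθ : a + circleMap 0 1 θ • w ∈ Metric.ball a d :=
          hsub (circleMap_mem_closedBall 0 zero_le_one θ)
        rw [hG, Set.indicator_of_mem hθ]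
    _ = ∫⁻ θ in Set.Ioc 0 (2 * Real.pi), ∫⁻ w, G (a + circleMap 0 1 θ • w) :=
        (lintegral_lintegral_swap hm.aemeasurable).symm
    _ = _ := by
        simp only [hrot]
        rw [setLIntegral_const, Real.volume_Ioc, sub_zero, mul_comm]

end BallQ
end
end

-- merged part: Pool.Agent.Work.MP_72250f_ag.P4
section
/-!
Sub-mean value property of |s|^p and poles of finite order. submean_circle: if f 0 is nonzero, Jensen (AnalyticOnNhd.circleAverage_log_norm /
MeromorphicOn.circleAverage_log_norm, or the inequality log |f 0| <= circleAverage log |f|) and, with lam = |f 0|^p,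
p log |f| <= log lam + |f|^p / lam - 1 wherever f is nonzero (off a finite set of the circle).
submean_ball: translate a to 0; volume is invariant under the isometries w |-> exp (i th) w (LinearIsometryEquiv.measurePreserving), so the
integral over the ball equals its average over th (Tonelli: lintegral_lintegral_swap), and for each w the average is at least |s a|^p.
pole_local: take r with closedBall a0 (2 r) in U, L a Lipschitz constant of h there (norm_fderiv_le / continuousOn_fderiv, Convex.norm_image_sub_le_of_norm_fderiv_le).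
For a in ball a0 r with h a nonzero the ball of radius d = min r (|h a| / L) around a avoids the zeros of h, so |s a|^p d^(2n) vol (ball 0 1) <= I
(Measure.addHaar_ball, real dimension 2 n); with m >= 2 n / p the function h^m s is bounded on ball a0 r minus zeros, apply ext_slices on U' = ball a0 r.
-/

open scoped ComplexConjugate ENNReal Topology
open MeasureTheory Filter

noncomputable section

namespace BallQ

variable {n : ℕ}

theorem pole_local {U : Set (E n)} (hU : IsOpen U) {h : E n → ℂ} (hh : DifferentiableOn ℂ h U)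
    (h0 : ∀ a ∈ U, ¬ ∀ᶠ x in 𝓝 a, h x = 0) {s : E n → ℂ}
    (hs : DifferentiableOn ℂ s {a | a ∈ U ∧ h a ≠ 0}) {p : ℝ} (hp : 0 < p)
    (hI : ∫⁻ a in {a | a ∈ U ∧ h a ≠ 0}, ENNReal.ofReal (‖s a‖ ^ p) < ⊤) {a0 : E n}
    (ha : a0 ∈ U) : ∃ (r : ℝ) (m : ℕ) (H : E n → ℂ), 0 < r ∧ Metric.ball a0 r ⊆ U ∧
      DifferentiableOn ℂ H (Metric.ball a0 r) ∧
      ∀ a ∈ Metric.ball a0 r, h a ≠ 0 → H a = h a ^ m * s a := by
  have : ContinuousSMul ℂ (E n) := IsBoundedSMul.continuousSMul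
  obtain ⟨r2, hr2, hsub⟩ := Metric.nhds_basis_closedBall.mem_iff.mp (hU.mem_nhds ha)
  set r : ℝ := r2 / 2 with hr
  have hr0 : 0 < r := by positivity
  obtain ⟨L, hL⟩ := (isCompact_closedBall a0 r2).exists_bound_of_continuousOn
    ((continuousOn_fderiv hU hh).mono hsub)
  obtain ⟨B0, hB0⟩ := (isCompact_closedBall a0 r2).exists_bound_of_continuousOn
    (hh.continuousOn.mono hsub)
  obtain ⟨K, hK0, hKL, hKB, hKr⟩ : ∃ K : ℝ, 0 < K ∧ L ≤ K ∧ B0 ≤ K ∧ B0 / r ≤ K :=
    ⟨max 1 (max L (max B0 (B0 / r))), by positivity, by simp, by simp, by simp⟩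
  have hball : Metric.ball a0 r ⊆ Metric.closedBall a0 r2 :=
    Metric.ball_subset_closedBall.trans (Metric.closedBall_subset_closedBall (by linarith only [hr2, hr]))
  set N := Module.finrank ℝ (E n) with hN
  set m : ℕ := ⌈(N : ℝ) / p⌉₊ with hm
  have hmp : (N : ℝ) ≤ m * p := (div_le_iff₀ hp).mp (Nat.le_ceil _)
  set I := ∫⁻ a in {a | a ∈ U ∧ h a ≠ 0}, ENNReal.ofReal (‖s a‖ ^ p) with hIdef
  set c : ℝ := (volume (Metric.ball (0 : E n) 1)).toReal with hc
  have hc0 : 0 < c := ENNReal.toReal_pos (Metric.measure_ball_pos _ _ one_pos).ne'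
    measure_ball_lt_top.ne
  have hbd : ∀ a ∈ Metric.ball a0 r, h a ≠ 0 →
      ‖h a ^ m * s a‖ ≤ (K ^ (m * p) * (I.toReal / c)) ^ p⁻¹ := by
    intro a har hz
    set d : ℝ := ‖h a‖ / K with hd
    have hd0 : 0 < d := div_pos (norm_pos_iff.mpr hz) hK0
    have hB := hB0 a (hball har)
    have hd1 : d ≤ 1 := (div_le_one hK0).mpr (hB.trans hKB)
    have hdr : d ≤ r := by
      rw [hd, div_le_iff₀ hK0]
      rw [div_le_iff₀ hr0] at hKr
      linarith only [hKr, hB]
    have hW : Metric.ball a d ⊆ {a | a ∈ U ∧ h a ≠ 0} := by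
      clear * - n a d a0 r2 r h K hr har hdr U hsub hh hU L hL hKL hball hK0 hd
      intro x hx
      have hx2 : x ∈ Metric.closedBall a0 r2 := by
        rw [Metric.mem_ball] at hx har
        rw [Metric.mem_closedBall]
        linarith only [hr, har, hdr, hx, dist_triangle x a a0]
      refine ⟨hsub hx2, fun hx0 => ?_⟩
      have h1 := (convex_closedBall a0 r2).norm_image_sub_le_of_norm_fderiv_le (𝕜 := ℂ) (f := h)
        (C := K) (fun y hy => hh.differentiableAt (hU.mem_nhds (hsub hy)))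
        (fun y hy => (hL y hy).trans hKL) (hball har) hx2
      rw [hx0, zero_sub, norm_neg] at h1
      rw [mem_ball_iff_norm, hd, lt_div_iff₀ hK0] at hx
      linarith only [hx, h1]
    have h1 := (submean_ball (hs.mono hW) hp).trans (lintegral_mono_set hW)
    rw [Measure.addHaar_ball_of_pos _ _ hd0, ← hIdef, ← hN] at h1
    have h2 := ENNReal.toReal_mono hI.ne h1
    rw [ENNReal.toReal_mul, ENNReal.toReal_mul, ENNReal.toReal_ofReal (by positivity),
      ENNReal.toReal_ofReal (by positivity), ← hc] at h2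
    rw [Real.le_rpow_inv_iff_of_pos (norm_nonneg _) (by positivity) hp, norm_mul, norm_pow,
      Real.mul_rpow (by positivity) (norm_nonneg _), ← Real.rpow_natCast_mul (norm_nonneg _)]
    have h3 : ‖h a‖ = K * d := by
      rw [hd]
      field_simp
    have h4 : d ^ (m * p) ≤ d ^ N := by
      rw [← Real.rpow_natCast d N]
      exact Real.rpow_le_rpow_of_exponent_ge hd0 hd1 hmp
    rw [h3, Real.mul_rpow hK0.le hd0.le, mul_assoc]
    gcongr
    rw [le_div_iff₀ hc0]
    calc d ^ (m * p) * ‖s a‖ ^ p * c ≤ d ^ N * ‖s a‖ ^ p * c := by clear * - c d m p s a N h4 hc0 h2; gcongr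
      _ = ‖s a‖ ^ p * (d ^ N * c) := by ring
      _ ≤ _ := h2
  have hU' : Metric.ball a0 r ⊆ U := hball.trans hsub
  obtain ⟨H, hH, hH'⟩ := ext_slices (U := Metric.ball a0 r) Metric.isOpen_ball (hh.mono hU')
    (fun a ha => h0 a (hU' ha)) (s := fun a => h a ^ m * s a)
    (((hh.mono fun a ha => hU' ha.1).fun_pow m).fun_mul (hs.mono fun a ha => ⟨hU' ha.1, ha.2⟩))
    (fun b e l r' ρ τ hS => ⟨_, ρ, hS.ρpos, fun t ht htρ => by
      have := hS.mem 0 (map_zero l) (by simpa using hS.rpos) t ht htρ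
      rw [hS.zero, add_zero, add_zero] at this
      exact hbd _ this.1 this.2⟩)
  exact ⟨r, m, H, hr0, hU', hH, hH'⟩

end BallQ
end
end

-- merged part: Pool.Agent.Work.MP_72250f_ag.P5
section
/-!
The extension theorem with ramification. AllDecay.mono_k: Decay.mono if age <= 1, decay_of_nonpos otherwise.
ext_full: s1, s0 on S from ext_inner for F and F0. For a0 in U take H = h^m s0 on B = ball a0 r (lintegral_lt_top, pole_local) and h' = h H on B. It is nowhere locally zero: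
otherwise s0 vanishes on a nonempty open subset of S (dense_ne_zero), so F0 (lift x) = 0 on its open preimage and F0 = 0 (IsHol.eq_zero). On T = {a in B | h' a nonzero}
psi is unramified (vanish), so QMap.restrict, QMap.unif and ext_main give sigma on B with sigma = s1 on T, hence on B meet S (dense_ne_zero, continuity). glue.
-/

open scoped ComplexConjugate ENNReal Topology
open MeasureTheory Filter

noncomputable section

namespace BallQ

variable {n : ℕ}

theorem p5_open {U : Set (E n)} (hU : IsOpen U) {h : E n → ℂ} (hh : DifferentiableOn ℂ h U) :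
    IsOpen {a | a ∈ U ∧ h a ≠ 0} :=
  hh.continuousOn.isOpen_inter_preimage hU (isOpen_compl_singleton (x := (0 : ℂ)))

theorem AllDecay.mono_k {Γ : Subgroup (GG n)} {w k k' : ℕ} (h : k ≤ k') {F : V n → ℂ}
    (hF : IsHol w F) (hd : AllDecay Γ k' F) : AllDecay Γ k F := by
  intro M hM hP hM0
  rcases le_total (age M) 1 with h1 | h1
  · refine (hd M hM hP hM0).mono (mul_le_mul_of_nonneg_right ?_ (by linarith only [h1]))
    exact_mod_cast h
  · exact decay_of_nonpos hF hM.isGen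
      (mul_nonpos_of_nonneg_of_nonpos (Nat.cast_nonneg k) (by linarith))

theorem ext_full {Γ : Subgroup (GG n)} (hΓ : Proper Γ) (hc : FinCov Γ) {k0 : ℕ} (hk0 : 1 ≤ k0)
    {F0 : V n → ℂ} (hF0 : IsHol (k0 * (n + 1)) F0) (hi0 : Inv Γ F0)
    (hd0 : AllDecay Γ (k0 + 1) F0) (hne : F0 ≠ 0) {k : ℕ} {F : V n → ℂ}
    (hF : IsHol (k * (n + 1)) F) (hi : Inv Γ F) (hd : AllDecay Γ k F) {U : Set (E n)}
    (hU : IsOpen U) {h : E n → ℂ} (hh : DifferentiableOn ℂ h U)
    (h0 : ∀ a ∈ U, ¬ ∀ᶠ x in 𝓝 a, h x = 0) {Ω : Set (E n)} {ψ : E n → E n}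
    (hu : QMap Γ Ω ψ {a | a ∈ U ∧ h a ≠ 0}) :
    ∃ s : E n → ℂ, DifferentiableOn ℂ s U ∧
      ∀ z ∈ Ω, s (ψ z) * (fderiv ℂ ψ z).det ^ k = F (lift z) := by
  have : ContinuousSMul ℂ (E n) := IsBoundedSMul.continuousSMul
  have hSo := p5_open hU hh
  obtain ⟨s1, hs1, hs1'⟩ := hu.ext_inner hΓ hF hi hd
  obtain ⟨s0, hs0, hs0'⟩ := hu.ext_inner hΓ hF0 hi0 (hd0.mono_k (Nat.le_succ k0) hF0)
  have hI := hu.lintegral_lt_top hΓ hc hk0 hF0 hs0'
  have hp : (0 : ℝ) < 2 / (k0 : ℝ) := div_pos two_pos (by exact_mod_cast hk0)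
  have hmem : ∀ z ∈ Ω, ψ z ∈ {a | a ∈ U ∧ h a ≠ 0} :=
    fun z hz => hu.image ▸ Set.mem_image_of_mem ψ hz
  obtain ⟨s, h1, h2⟩ := glue (S := U) (T := {a | a ∈ U ∧ h a ≠ 0}) (dense_ne_zero hU h0) (s := s1)
    (by
      intro a0 ha0
      obtain ⟨r, m, H, hr, hBU, hH, hHe⟩ := pole_local hU hh h0 hs0 hp hI ha0
      have hd' : DifferentiableOn ℂ (fun a => h a * H a) (Metric.ball a0 r) :=
        (hh.mono hBU).mul hH
      have h0' : ∀ a ∈ Metric.ball a0 r, ¬ ∀ᶠ x in 𝓝 a, h x * H x = 0 := by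
        clear * - n a0 r h H h0 hBU ψ Ω U Γ hu hne k0 F0 hF0 hmem s0 hs0' m hHe
        intro a ha hev
        obtain ⟨O, hO1, hO2, hO3⟩ :=
          eventually_nhds_iff.mp (hev.and (Metric.isOpen_ball.mem_nhds ha))
        obtain ⟨x, hxO, hx⟩ : ∃ x ∈ O, h x ≠ 0 := by
          by_contra hcon
          push Not at hcon
          exact h0 a (hBU ha) (eventually_nhds_iff.mpr ⟨O, hcon, hO2, hO3⟩)
        have hxS : x ∈ ψ '' Ω := by
          rw [hu.image]
          exact ⟨hBU (hO1 x hxO).2, hx⟩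
        obtain ⟨z, hz, rfl⟩ := hxS
        refine hne (hF0.eq_zero (O := Ω ∩ ψ ⁻¹' O)
          (hu.diff.continuousOn.isOpen_inter_preimage hu.isOpen hO2) ⟨z, hz, hxO⟩
          (fun y hy => hu.sub hy.1) fun y hy => ?_)
        have a1 := (hmem y hy.1).2
        have a2 := hO1 _ hy.2
        have a3 : H (ψ y) = 0 := (mul_eq_zero.mp a2.1).resolve_left a1
        rw [hHe _ a2.2 a1] at a3
        rw [← hs0' y hy.1, (mul_eq_zero.mp a3).resolve_left (pow_ne_zero _ a1), zero_mul]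
      have hTS : {a | a ∈ Metric.ball a0 r ∧ h a * H a ≠ 0} ⊆ {a | a ∈ U ∧ h a ≠ 0} :=
        fun a ha => ⟨hBU ha.1, left_ne_zero_of_mul ha.2⟩
      have hdet : ∀ z ∈ Ω ∩ ψ ⁻¹' {a | a ∈ Metric.ball a0 r ∧ h a * H a ≠ 0},
          (fderiv ℂ ψ z).det ≠ 0 := by
        intro z hz hz0
        have a1 := hu.vanish hΓ hF0 hi0 hd0 hs0.continuousOn hs0' hz.1 hz0
        apply hz.2.2
        rw [hHe _ hz.2.1 (hmem z hz.1).2, a1, mul_zero, mul_zero]
      obtain ⟨σ, hσ, hσ'⟩ := ext_main hΓ hF hi hd Metric.isOpen_ball hd' h0'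
        ((hu.restrict (p5_open Metric.isOpen_ball hd') hTS).unif hdet)
      refine ⟨Metric.ball a0 r, σ, Metric.isOpen_ball, Metric.mem_ball_self hr, hBU, hσ, ?_⟩
      have heq : Set.EqOn σ s1 {a | a ∈ Metric.ball a0 r ∧ h a * H a ≠ 0} := by
        intro a ha
        have haS : a ∈ ψ '' Ω := by
          rw [hu.image]
          exact hTS ha
        obtain ⟨z, hz, rfl⟩ := haS
        refine mul_right_cancel₀ (pow_ne_zero k (hdet z ⟨hz, ha⟩)) ?_
        rw [hσ' z ⟨hz, ha⟩, hs1' z hz]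
      exact heq.of_subset_closure (hσ.continuousOn.mono Set.inter_subset_left)
        (hs1.continuousOn.mono Set.inter_subset_right) (fun a ha => ⟨ha.1, hTS ha⟩)
        (Set.inter_subset_left.trans (dense_ne_zero Metric.isOpen_ball h0')))
  refine ⟨s, h1, fun z hz => ?_⟩
  rw [h2 _ ⟨(hmem z hz).1, hmem z hz⟩, hs1' z hz]

end BallQ
end
end
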