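import Pool.Agent.Work.MP_72250f_ag.Z2
import Pool.Agent.Work.MP_72250f_ag.Z4
import Pool.Agent.Work.MP_72250f_ag.M3

-- merged part: Pool.Agent.Work.MP_72250f_ag.Z3
section
/-!
Theorem Z. Take y from common_eig. Negative y: comm_of_neg. Null y = p, g p = a p, d p = b p: c1 = [g,d] fixes p and by
comm_mod_null and eq_eich (W = top) c1 = eich p eta tau. [g, eich p eta tau] = eich p (conj a g eta - eta) _ by cnj_eich,
eich_smul, eich_mul. The Engel chain (engel, applied to g and c1) ends at 1, so T = conj a * g satisfies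
(T - 1)^i eta in C p. On p-perp the seminorm -NN is multiplied by |a|^2 under T. If |a| is not 1 then NN eta = 0, eta is a
multiple of p, c1 = vert p tau, and the chain multiplies tau by |a|^2 - 1, so tau = 0. Same for |b| with the chain of d
and c1. If |a| = |b| = 1: (T-1)^2 eta in C p implies (T-1) eta in C p (pair (T-1) eta with itself), so T eta = eta and
T' eta = eta modulo p; pairing c1 d g q = g d q with eta (q with <q,p> = -1, after scaling g, d to fix p) gives NN eta = 0.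
Finally if g y = l y with y negative and c1 = vert p tau: d g^-1 d^-1 = g^-1 c1, apply to y' = d y and pair with y to get
tau = 0. If d has a negative eigenvector use the symmetric statement for [d,g] = c1^-1.
-/

open scoped ComplexConjugate ENNReal Topology
open MeasureTheory Filter

noncomputable section

namespace BallQ

variable {n : ℕ}

theorem z3_NN {v : V n} (h : form v v = 0) : NN v = 0 := by rw [NN, h]; simp

theorem z3_form_eich {p η : V n} (hη : form η p = 0) (τ : ℝ) (v : V n) :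
    form (eich p η τ v) η = form v η + form v p * form η η := by
  rw [eich_apply, form_sub_left, form_add_left, form_smul_left, form_smul_left,
    form_eq_zero_comm.1 hη, mul_zero, sub_zero]

theorem z3_eich_one {p q η : V n} (hq : form q p = -1) (hη : form η p = 0) {τ : ℝ}
    (h : eich p η τ = 1) : form η η = 0 := by
  have := z3_form_eich hη τ q
  rw [h, hq, one_apply_eq_self] at this
  linear_combination this

theorem z3_vert_one {p q : V n} (hp0 : p ≠ 0) (hq : form q p = -1) {τ : ℝ} (h : vert p τ = 1) :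
    τ = 0 := by
  have := vert_apply p q τ
  rw [h, hq, one_apply_eq_self, left_eq_add, smul_eq_zero] at this
  simpa using this.resolve_right hp0

theorem z3_vert_of {p η : V n} (hp0 : p ≠ 0) (hp : form p p = 0) (hη : form η p = 0)
    (h : form η η = 0) (τ : ℝ) : ∃ τ' : ℝ, eich p η τ = vert p τ' := by
  obtain ⟨c, rfl⟩ := eq_smul_of_perp hp0 (z3_NN hp).ge hη (z3_NN h).ge
  exact ⟨_, by rw [← zero_add (c • p), eich_add_smul hp (form_zero_left p), eich_zero]⟩

theorem z3_perp {h : Op n} (hh : IsIsom h) {p η : V n} (hη : form η p = 0) {a : ℂ}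
    (hhp : h p = a • p) : form (conj a • h η) p = 0 := by
  rw [form_smul_left, ← form_smul_right, ← hhp, hh, hη]

theorem z3_comm {h c : GG n} (hh : IsIsom (h : Op n)) {p η : V n} (hp : form p p = 0)
    (hη : form η p = 0) {a : ℂ} (hhp : (h : Op n) p = a • p) {τ : ℝ}
    (hc : (c : Op n) = eich p η τ) :
    ((h * c * h⁻¹ * c⁻¹ : GG n) : Op n) = eich p (conj a • (h : Op n) η - η)
      (‖a‖ ^ 2 * τ - τ - (form (conj a • (h : Op n) η) η).im) := by
  have hη' : form (-η) p = 0 := by rw [form_neg_left, hη, neg_zero]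
  have hi : ((c⁻¹ : GG n) : Op n) = eich p (-η) (-τ) := by
    refine Units.inv_eq_of_mul_eq_one_right ?_
    rw [hc, eich_mul hp hη hη', add_neg_cancel, add_neg_cancel, form_neg_right, Complex.neg_im,
      form_self_im, neg_zero, add_zero, eich_zero, vert_zero]
  have h1 : ((h * c * h⁻¹ : GG n) : Op n) = cnj h (eich p η τ) := by rw [← hc]; rfl
  rw [Units.val_mul, h1, hi, cnj_eich hh, hhp, eich_smul, eich_mul hp (z3_perp hh hη hhp) hη',
    form_neg_right, Complex.neg_im, ← sub_eq_add_neg, ← sub_eq_add_neg, ← sub_eq_add_neg]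

theorem z3_form_add {p u v : V n} (hp : form p p = 0) (hu : form u p = 0) (hv : form v p = 0)
    (s t : ℂ) : form (u + s • p) (v + t • p) = form u v := by
  simp only [form_add_left, form_add_right, form_smul_left, form_smul_right, hp, hu,
    form_eq_zero_comm.1 hv, mul_zero, add_zero]

theorem z3_form_T {h : Op n} (hh : IsIsom h) (a : ℂ) (u v : V n) :
    form (conj a • h u) (conj a • h v) = ((‖a‖ ^ 2 : ℝ) : ℂ) * form u v := by
  rw [form_smul_left, form_smul_right, hh, Complex.conj_conj, ← mul_assoc, mul_comm _ a,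
    Complex.mul_conj, Complex.normSq_eq_norm_sq]

theorem z3_mod {p u v : V n} (hp0 : p ≠ 0) (hp : form p p = 0) (h1 : form (u - v) p = 0)
    (h2 : form (u - v) (u - v) = 0) : ∃ c : ℂ, u = v + c • p := by
  obtain ⟨c, hc⟩ := eq_smul_of_perp hp0 (z3_NN hp).ge h1 (z3_NN h2).ge
  exact ⟨c, by rw [← hc, add_sub_cancel]⟩

/-- The chain of a loxodromic element. -/
theorem z3_lox {h : GG n} (hh : IsIsom (h : Op n)) {p q : V n} (hp0 : p ≠ 0) (hp : form p p = 0)
    (hq : form q p = -1) {a : ℂ} (ha : ‖a‖ ≠ 1) (hhp : (h : Op n) p = a • p) (i : ℕ) :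
    ∀ (c : GG n) (η : V n) (τ : ℝ), form η p = 0 → (c : Op n) = eich p η τ →
      (fun c : GG n => h * c * h⁻¹ * c⁻¹)^[i] c = 1 → c = 1 := by
  have ha2 : ‖a‖ ^ 2 - 1 ≠ 0 := fun h0 =>
    ha ((pow_eq_one_iff_of_nonneg (norm_nonneg a) two_ne_zero).1 (sub_eq_zero.1 h0))
  induction i with
  | zero => exact fun c _ _ _ _ h1 => h1
  | succ i ih =>
    intro c η τ hη hc h1
    have hT := z3_perp hh hη hhp
    have hη' : form (conj a • (h : Op n) η - η) p = 0 := by rw [form_sub_left, hT, hη, sub_zero]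
    have h2 := z3_comm hh hp hη hhp hc
    have h3 : h * c * h⁻¹ * c⁻¹ = 1 := ih _ _ _ hη' h2 h1
    rw [h3] at h2
    obtain ⟨s, hs⟩ := z3_mod hp0 hp hη' (z3_eich_one hq hη' h2.symm)
    have h4 := z3_form_T hh a η η
    rw [hs, z3_form_add hp hη hη] at h4
    have h5 : form η η = 0 := by
      refine (mul_eq_zero.1 (?_ : ((‖a‖ ^ 2 - 1 : ℝ) : ℂ) * form η η = 0)).resolve_left
        (Complex.ofReal_ne_zero.2 ha2)
      rw [Complex.ofReal_sub, sub_mul, ← h4, Complex.ofReal_one, one_mul, sub_self]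
    obtain ⟨τ', h6⟩ := z3_vert_of hp0 hp hη h5 τ
    rw [h6, ← eich_zero] at hc
    have h7 := z3_comm hh hp (form_zero_left p) hhp hc
    rw [h3, map_zero, smul_zero, sub_zero, form_zero_left, Complex.zero_im, sub_zero,
      eich_zero] at h7
    have h8 : τ' = 0 := (mul_eq_zero.1 (by linear_combination z3_vert_one hp0 hq h7.symm :
      (‖a‖ ^ 2 - 1) * τ' = 0)).resolve_left ha2
    rw [h8, eich_zero, vert_zero] at hc
    exact Units.ext hc

/-- The chain of an element with unit eigenvalue. -/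
theorem z3_unit {h : GG n} (hh : IsIsom (h : Op n)) {p q : V n} (hp0 : p ≠ 0) (hp : form p p = 0)
    (hq : form q p = -1) {a : ℂ} (ha : ‖a‖ = 1) (hhp : (h : Op n) p = a • p) (i : ℕ) :
    ∀ (c : GG n) (η : V n) (τ : ℝ), form η p = 0 → (c : Op n) = eich p η τ →
      (fun c : GG n => h * c * h⁻¹ * c⁻¹)^[i] c = 1 →
      ∃ s : ℂ, conj a • (h : Op n) η = η + s • p := by
  induction i with
  | zero =>
    intro c η τ hη hc h1
    rw [show c = 1 from h1] at hc
    obtain ⟨s, rfl⟩ := eq_smul_of_perp hp0 (z3_NN hp).ge hη (z3_NN (z3_eich_one hq hη hc.symm)).ge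
    exact ⟨conj a * s * a - s, by rw [map_smul, hhp]; module⟩
  | succ i ih =>
    intro c η τ hη hc h1
    have hT := z3_perp hh hη hhp
    have hη' : form (conj a • (h : Op n) η - η) p = 0 := by rw [form_sub_left, hT, hη, sub_zero]
    obtain ⟨s, hs⟩ := ih _ _ _ hη' (z3_comm hh hp hη hhp hc) h1
    refine z3_mod hp0 hp hη' ?_
    have h4 := z3_form_T hh a η (conj a • (h : Op n) η - η)
    rw [hs, form_add_right, form_smul_right s, hT, ha] at h4
    rw [form_sub_left]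
    simpa [sub_eq_zero] using h4

theorem z3_not_ell {g d : GG n} (hg : IsIsom (g : Op n)) (hd : IsIsom (d : Op n)) {p : V n}
    (hp0 : p ≠ 0) (hp : form p p = 0) {τ : ℝ} (hτ : τ ≠ 0)
    (h : ((g * d * g⁻¹ * d⁻¹ : GG n) : Op n) = vert p τ) : ¬ Ell (g : Op n) := by
  rintro ⟨y, hy, l, hl⟩
  have hl1 : l * conj l = 1 := by
    rw [Complex.mul_conj, Complex.normSq_eq_norm_sq, eig_norm_one hg (ne_of_gt hy) hl]
    simp
  have h1 : vert p τ ((d : Op n) ((g : Op n) y)) = (g : Op n) ((d : Op n) y) := by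
    rw [← h]
    simp only [Units.val_mul, mul_apply_eq_comp, inv_apply_apply]
  have h2 := congrArg (fun v => form v ((g : Op n) y)) h1
  simp only [hg _ _] at h2
  simp only [hl, map_smul, vert_apply, form_smul_left, form_smul_right, form_add_left] at h2
  have h3 : form p y ≠ 0 := form_ne_zero_of_neg hy hp0 (z3_NN hp).ge
  have h4 : form ((d : Op n) y) p ≠ 0 := fun h0 =>
    form_ne_zero_of_neg (hd.mem_Neg.2 hy) hp0 (z3_NN hp).ge (form_eq_zero_comm.1 h0)
  refine mul_ne_zero (mul_ne_zero (mul_ne_zero Complex.I_ne_zero (Complex.ofReal_ne_zero.2 hτ)) h4)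
    h3 ?_
  linear_combination h2 -
    (form ((d : Op n) y) y + Complex.I * τ * form ((d : Op n) y) p * form p y) * hl1

theorem z3_pair {G D : Op n} (hG : IsIsom G) (hD : IsIsom D) {p η : V n} (hGp : G p = p)
    (hDp : D p = p) {s t : ℂ} (hs : G η = η + s • p) (ht : D η = η + t • p) (q : V n) :
    form (G (D q)) η = form q (η - (s + t) • p) := by
  have : η = G (D (η - (s + t) • p)) := by
    simp only [map_sub, map_add, map_smul, hGp, hDp, hs, ht]
    module
  rw [← hD q, ← hG (D q), ← this]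

theorem z3_fix {g : Op n} {p : V n} {a : ℂ} (ha : ‖a‖ = 1) (h : g p = a • p) :
    (conj a • g) p = p := by
  rw [smul_apply, h, smul_smul, mul_comm, Complex.mul_conj, Complex.normSq_eq_norm_sq, ha]
  simp

theorem thmZ {Γ : Subgroup (GG n)} (hΓ : Proper Γ) {x : V n} (hx : x ∈ Neg n) {g d : GG n}
    (hg : g ∈ plus Γ) (hd : d ∈ plus Γ) (h1 : uu (g : Op n) x ≤ eps)
    (h2 : uu (d : Op n) x ≤ eps) :
    Commute g d ∨ (¬ Ell (g : Op n) ∧ ¬ Ell (d : Op n) ∧ ∃ p : V n, p ≠ 0 ∧ form p p = 0 ∧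
      (∃ a : ℂ, ‖a‖ = 1 ∧ (g : Op n) p = a • p) ∧ (∃ b : ℂ, ‖b‖ = 1 ∧ (d : Op n) p = b • p) ∧
      ∃ τ : ℝ, τ ≠ 0 ∧ ((g * d * g⁻¹ * d⁻¹ : GG n) : Op n) = vert p τ) := by
  obtain ⟨p, hp0, hp, hfix⟩ := common_eig hΓ hx
  rcases hp.lt_or_eq with hp | hp
  · exact Or.inl (comm_of_neg hΓ hx hp hfix hg hd h1 h2)
  replace hp : form p p = 0 := by rw [form_self, ← hp]; simp
  have ig := InP.isIsom hΓ hg
  have id := InP.isIsom hΓ hd
  obtain ⟨a, ha⟩ := hfix g hg h1
  obtain ⟨b, hb⟩ := hfix d hd h2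
  obtain ⟨q, hq⟩ : ∃ q, form q p = -1 := by
    obtain ⟨_, _, -, h⟩ := exists_null_dual hp0 hp hx
    exact ⟨_, h⟩
  obtain ⟨hc, hc'⟩ : g * d * g⁻¹ * d⁻¹ ∈ plus Γ ∧
    uu ((g * d * g⁻¹ * d⁻¹ : GG n) : Op n) x ≤ eps := (engel hΓ hx hg hd h1 h2).1 1
  have hrel : ∀ v, ((g * d * g⁻¹ * d⁻¹ : GG n) : Op n) ((d : Op n) ((g : Op n) v))
      = (g : Op n) ((d : Op n) v) := fun v => by
    simp only [Units.val_mul, mul_apply_eq_comp, inv_apply_apply]
  have hcp : ((g * d * g⁻¹ * d⁻¹ : GG n) : Op n) p = p := by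
    have h := hrel p
    have h0 : ∀ {T : Op n} {c : ℂ}, IsIsom T → T p = c • p → c ≠ 0 := fun hT e h0 =>
      hp0 (hT.injective (by rw [e, h0, zero_smul, map_zero]))
    simp only [ha, hb, map_smul, smul_smul] at h
    rw [mul_comm] at h
    exact smul_right_injective _ (mul_ne_zero (h0 id hb) (h0 ig ha)) h
  obtain ⟨η, -, hη, τ, hτ⟩ := eq_eich ⊤ (InP.isIsom hΓ hc) (fun _ _ => Submodule.mem_top)
    Submodule.mem_top Submodule.mem_top hp hq hcp
    fun v _ => comm_mod_null hΓ hx hp0 hp hfix hg hd h1 h2 v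
  replace hτ : ((g * d * g⁻¹ * d⁻¹ : GG n) : Op n) = eich p η τ :=
    ContinuousLinearMap.ext fun v => hτ v Submodule.mem_top
  obtain ⟨i, hi⟩ := (engel hΓ hx hg hc h1 hc').2
  obtain ⟨j, hj⟩ := (engel hΓ hx hd hc h2 hc').2
  have fin : g * d * g⁻¹ * d⁻¹ = 1 → Commute g d := fun h =>
    mul_inv_eq_iff_eq_mul.1 (mul_inv_eq_one.1 h)
  by_cases ha1 : ‖a‖ = 1
  swap
  · exact Or.inl (fin (z3_lox ig hp0 hp hq ha1 ha i _ η τ hη hτ hi))
  by_cases hb1 : ‖b‖ = 1
  swap
  · exact Or.inl (fin (z3_lox id hp0 hp hq hb1 hb j _ η τ hη hτ hj))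
  obtain ⟨s, hs⟩ := z3_unit ig hp0 hp hq ha1 ha i _ η τ hη hτ hi
  obtain ⟨t, ht⟩ := z3_unit id hp0 hp hq hb1 hb j _ η τ hη hτ hj
  have iG : IsIsom (conj a • (g : Op n)) := ig.smul (by rw [Complex.norm_conj, ha1])
  have iD : IsIsom (conj b • (d : Op n)) := id.smul (by rw [Complex.norm_conj, hb1])
  have hηη : form η η = 0 := by
    have e1 := z3_pair iG iD (z3_fix ha1 ha) (z3_fix hb1 hb) hs ht q
    have e2 := z3_pair iD iG (z3_fix hb1 hb) (z3_fix ha1 ha) ht hs q
    have e3 := z3_form_eich hη τ ((conj b • (d : Op n)) ((conj a • (g : Op n)) q))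
    have e4 : form ((conj b • (d : Op n)) ((conj a • (g : Op n)) q)) p = -1 := by
      rw [← hq, ← iG q, ← iD _ ((conj a • (g : Op n)) p), z3_fix ha1 ha, z3_fix hb1 hb]
    have e5 : eich p η τ ((conj b • (d : Op n)) ((conj a • (g : Op n)) q))
        = (conj a • (g : Op n)) ((conj b • (d : Op n)) q) := by
      rw [← hτ]
      simp only [smul_apply, map_smul, hrel]
      exact smul_comm _ _ _
    rw [e5, e4, e1, e2, add_comm t] at e3
    linear_combination e3
  obtain ⟨τ', h6⟩ := z3_vert_of hp0 hp hη hηη τ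
  rw [h6] at hτ
  rcases eq_or_ne τ' 0 with rfl | h0
  · exact Or.inl (fin (Units.ext (hτ.trans (vert_zero p))))
  refine Or.inr ⟨z3_not_ell ig id hp0 hp h0 hτ, z3_not_ell id ig hp0 hp (neg_ne_zero.2 h0) ?_,
    p, hp0, hp, ⟨a, ha1, ha⟩, ⟨b, hb1, hb⟩, τ', h0, hτ⟩
  rw [show d * g * d⁻¹ * g⁻¹ = (g * d * g⁻¹ * d⁻¹)⁻¹ by group]
  refine Units.inv_eq_of_mul_eq_one_right ?_
  rw [hτ, vert_mul hp, add_neg_cancel, vert_zero]

/-- A small element fixes the null eigenline of a small non elliptic element. -/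
theorem small_fix_null {Γ : Subgroup (GG n)} (hΓ : Proper Γ) {x : V n} (hx : x ∈ Neg n)
    {g d : GG n} (hg : g ∈ plus Γ) (hd : d ∈ plus Γ) (h1 : uu (g : Op n) x ≤ eps)
    (h2 : uu (d : Op n) x ≤ eps) (hE : ¬ Ell (d : Op n)) {p : V n} (hp0 : p ≠ 0)
    (hp : form p p = 0) {b : ℂ} (hb : (d : Op n) p = b • p) :
    ∃ a : ℂ, (g : Op n) p = a • p := by
  rcases thmZ hΓ hx hg hd h1 h2 with h | ⟨-, -, p', hp0', hp', ⟨a, -, ha⟩, ⟨b', hb1, hb'⟩, -⟩
  · exact fix_of_commute (InP.isIsom hΓ hd) hE hp0 hp hb (InP.isIsom hΓ hg) h.units_val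
  · obtain ⟨e, rfl⟩ := null_unique (InP.isIsom hΓ hd) hE hp0' hp' hp hb1 hb' hb
    exact ⟨a, by rw [map_smul, ha, smul_comm]⟩

end BallQ
end
end

-- merged part: Pool.Agent.Work.MP_72250f_ag.Z5
section
-- merged part: Pool.Agent.Work.MP_72250f_ag.Z5a
section
/-!
Cusp generators and horoballs. exists_cusp: among the finitely many a in (0,1] with Vert (a M) (finite_gen at oo)
take the least; note Vert (a M) forces a > 0 (eq_smul_of_rk1). On Tube Mc t1 the element flow Mc 1 has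
uu = 16 pi^2 mu^2 <= eps / 64 (IsNull.uu_flow). small_fix_cusp: small_fix_null and cusp_stab. kill: g = flow M 1 has
CC <= 2 on Tube M s0, the conjugate of flow Mc 1 by g is small (uu_cnj_le) and fixes the line of p, it is vert (g p) _
so g p is a multiple of p (vert_eig), nonpos_eig gives M p = 0. comm_out: thmZ; a vertical commutator has
uu <= 6 (64 eps1)^2 < 16 pi^2 t3^2, so x would lie in HB t3 (vert_of, exists_cusp). comm_gen_out: comm_out and lemmaF'.
-/

open scoped ComplexConjugate ENNReal Topology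
open MeasureTheory Filter

noncomputable section

namespace BallQ

variable {n : ℕ}

theorem z5a_flow {p : V n} (hp : form p p = 0) (a : ℝ) :
    flow ((a : ℂ) • rk1 p p) 1 = vert p (2 * Real.pi * a) := by
  rw [flow_smul, flow_null hp, vert]
  congr 2
  push_cast
  ring

theorem z5a_flow_one {p : V n} (hp : form p p = 0) : flow (rk1 p p) 1 = vert p (2 * Real.pi) := by
  have := z5a_flow hp 1
  simpa using this

theorem z5a_NN {p : V n} (hp : form p p = 0) : NN p = 0 := by simp [NN, hp]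

theorem z5a_null_smul {M : Op n} (h : IsNull M) {a : ℝ} (ha : 0 < a) : IsNull ((a : ℂ) • M) := by
  obtain ⟨p, hp0, hp, rfl⟩ := h
  have h0 : ((√a : ℝ) : ℂ) ≠ 0 := by
    exact_mod_cast (Real.sqrt_pos.mpr ha).ne'
  refine ⟨((√a : ℝ) : ℂ) • p, smul_ne_zero h0 hp0, ?_, ?_⟩
  · rw [form_smul_left, form_smul_right, hp, mul_zero, mul_zero]
  · rw [rk1_smul_self, Complex.norm_real, Real.norm_eq_abs, sq_abs, Real.sq_sqrt ha.le]

theorem z5a_pos {M : Op n} (h : IsNull M) {a : ℂ} (ha : IsNull (a • M)) :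
    ∃ r : ℝ, 0 < r ∧ a = r := by
  obtain ⟨p, hp0, _, rfl⟩ := h
  obtain ⟨q, hq0, _, hq⟩ := ha
  obtain ⟨d, hd, hc⟩ := eq_smul_of_rk1 hp0 hq.symm
  have hd0 : d ≠ 0 := by
    rintro rfl
    exact hq0 (by rw [hd, zero_smul])
  exact ⟨‖d‖ ^ 2, by positivity, hc⟩

theorem z5a_ne_zero {M : Op n} (h : IsNull M) : M ≠ 0 := by
  obtain ⟨p, hp0, _, rfl⟩ := h
  exact fun h0 => hp0 (rk1_eq_zero.mp h0)

theorem z5a_vert_cnj {Γ : Subgroup (GG n)} (hΓ : Proper Γ) {M : Op n} (h : Vert Γ M) {g : GG n}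
    (hg : g ∈ plus Γ) : Vert Γ (cnj g M) :=
  ⟨h.1.cnj (InP.isIsom hΓ hg), by rw [← cnj_flow]; exact h.2.cnj hg⟩

theorem z5a_not_ell {p : V n} (hp0 : p ≠ 0) (hp : form p p = 0) : ¬ Ell (flow (rk1 p p) 1) := by
  rintro ⟨y, hy, c, hc⟩
  rw [z5a_flow_one hp] at hc
  have hy' : 0 < NN y := hy
  obtain ⟨d, rfl⟩ := vert_eig hp0 hp (by positivity) hy'.le hc
  rw [NN_smul, z5a_NN hp, mul_zero] at hy'
  exact lt_irrefl _ hy'

theorem vert_of {Γ : Subgroup (GG n)} {p : V n} (hp0 : p ≠ 0) (hp : form p p = 0) {τ : ℝ}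
    (hτ : τ ≠ 0) {g : GG n} (hg : g ∈ plus Γ) (h : (g : Op n) = vert p τ) :
    Vert Γ (((|τ| / (2 * Real.pi) : ℝ) : ℂ) • rk1 p p) := by
  have hpi := Real.pi_pos
  have ha : 0 < |τ| / (2 * Real.pi) := div_pos (abs_pos.mpr hτ) (by positivity)
  refine ⟨z5a_null_smul ⟨p, hp0, hp, rfl⟩ ha, ?_⟩
  rw [z5a_flow hp]
  have e : 2 * Real.pi * (|τ| / (2 * Real.pi)) = |τ| := by field_simp
  rw [e]
  rcases abs_choice τ with h1 | h1
  · rw [h1, ← h]
    exact hg
  · rw [h1]
    have h2 : vert p (-τ) * (g : Op n) = 1 := by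
      rw [h, vert_mul hp, neg_add_cancel, vert_zero]
    rw [Units.eq_inv_of_mul_eq_one_right h2]
    exact (plus Γ).inv_mem hg

theorem exists_cusp {Γ : Subgroup (GG n)} (hΓ : Proper Γ) {M : Op n} (h : Vert Γ M) :
    ∃ a : ℝ, 0 < a ∧ a ≤ 1 ∧ Cusp Γ ((a : ℂ) • M) := by
  have hG : IsGen M := (h.1.isGenLt 1).isGen
  have hfin : {a : ℝ | 0 < a ∧ a ≤ 1 ∧ Vert Γ ((a : ℂ) • M)}.Finite := by
    refine Set.Finite.of_finite_image (f := fun a : ℝ => (a : ℂ) • M)
      ((finite_gen hΓ oo_mem_Neg (mu M (oo n))).subset ?_) ?_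
    · rintro _ ⟨a, ⟨_, h1, h2⟩, rfl⟩
      refine ⟨h2.1.isGenLt 1, h2.2, ?_⟩
      rw [mu_real_smul]
      exact mul_le_of_le_one_left (hG.mu_nonneg oo_mem_Neg) h1
    · intro a _ b _ hab
      have := smul_left_injective ℂ (z5a_ne_zero h.1) hab
      exact_mod_cast this
  obtain ⟨a, ⟨a0, a1, a2⟩, hmin⟩ := Set.exists_min_image _ id hfin
    ⟨1, one_pos, le_rfl, by simpa using h⟩
  refine ⟨a, a0, a1, a2, fun b hb => ?_⟩
  obtain ⟨r, hr, hbr⟩ := z5a_pos a2.1 hb.1
  have hb0 : 0 < b := by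
    have : b = r := by exact_mod_cast hbr
    rwa [this]
  by_contra hlt
  have hlt := not_le.mp hlt
  have h3 : b * a < a := mul_lt_of_lt_one_left a0 hlt
  have := hmin (b * a) ⟨by positivity, by linarith only [a1, h3], by
    rw [smul_smul] at hb
    push_cast
    exact hb⟩
  simp only [id] at this
  linarith only [h3, this]

theorem Cusp.cnj {Γ : Subgroup (GG n)} (hΓ : Proper Γ) {M : Op n} (h : Cusp Γ M) {g : GG n}
    (hg : g ∈ plus Γ) : Cusp Γ (cnj g M) := by
  refine ⟨z5a_vert_cnj hΓ h.1 hg, fun a ha => h.2 a ?_⟩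
  have := z5a_vert_cnj hΓ ha ((plus Γ).inv_mem hg)
  rwa [cnj_smul, ← cnj_mul, inv_mul_cancel, cnj_one] at this

theorem Cusp.eq_of_smul {Γ : Subgroup (GG n)} {M M' : Op n} (h : Cusp Γ M) (h' : Cusp Γ M')
    {a : ℂ} (ha : M' = a • M) : M' = M := by
  obtain ⟨r, hr, rfl⟩ := z5a_pos h.1.1 (ha ▸ h'.1.1)
  have h1 : 1 ≤ r := h.2 r (ha ▸ h'.1)
  have h2 : 1 ≤ r⁻¹ := h'.2 r⁻¹ (by
    have hr0 : (r : ℂ) ≠ 0 := by exact_mod_cast hr.ne'
    rw [ha, smul_smul, Complex.ofReal_inv, inv_mul_cancel₀ hr0, one_smul]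
    exact h.1)
  have h3 : r ≤ 1 := (one_le_inv₀ hr).mp h2
  rw [ha, le_antisymm h3 h1, Complex.ofReal_one, one_smul]

theorem cusp_stab {Γ : Subgroup (GG n)} (hΓ : Proper Γ) {p : V n} (h : Cusp Γ (rk1 p p))
    {g : GG n} (hg : g ∈ plus Γ) {c : ℂ} (hc : (g : Op n) p = c • p) :
    ‖c‖ = 1 ∧ Commute (g : Op n) (rk1 p p) := by
  have e : cnj g (rk1 p p) = ((‖c‖ ^ 2 : ℝ) : ℂ) • rk1 p p := by
    rw [cnj_rk1 (InP.isIsom hΓ hg), hc, rk1_smul_self]
  have h1 : cnj g (rk1 p p) = rk1 p p := h.eq_of_smul (h.cnj hΓ hg) e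
  refine ⟨?_, cnj_eq_iff.mp h1⟩
  rw [h1] at e
  have h2 : (1 : ℂ) = ((‖c‖ ^ 2 : ℝ) : ℂ) :=
    smul_left_injective ℂ (z5a_ne_zero h.1.1) (by simpa using e)
  have h3 : ‖c‖ ^ 2 = 1 := by exact_mod_cast h2.symm
  exact (pow_eq_one_iff_of_nonneg (norm_nonneg c) two_ne_zero).mp h3

theorem Cusp.uu_le {Γ : Subgroup (GG n)} {M : Op n} (h : Cusp Γ M) {x : V n}
    (hx : x ∈ Tube M t1) : uu (flow M 1) x ≤ eps / 64 := by
  rw [h.1.1.uu_flow hx.1]
  have h0 := (h.1.1.isGenLt 1).isGen.mu_nonneg hx.1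
  have h1 : mu M x ^ 2 ≤ t1 ^ 2 := pow_le_pow_left₀ h0 hx.2.le 2
  have h2 : Real.pi ^ 2 ≤ 4 ^ 2 := pow_le_pow_left₀ Real.pi_pos.le Real.pi_le_four 2
  have h3 : Real.pi ^ 2 * mu M x ^ 2 ≤ 4 ^ 2 * t1 ^ 2 :=
    mul_le_mul h2 h1 (by positivity) (by positivity)
  unfold t1 at h3
  unfold eps
  linarith only [h3]

theorem z5a_fix {Γ : Subgroup (GG n)} (hΓ : Proper Γ) {p : V n} (hp0 : p ≠ 0)
    (hp : form p p = 0) (h : Cusp Γ (rk1 p p)) {x : V n} (hx : x ∈ Tube (rk1 p p) t1) {a : GG n}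
    (ha : a ∈ plus Γ) (hu : uu (a : Op n) x ≤ eps) : ∃ c : ℂ, (a : Op n) p = c • p := by
  have h2 := h.uu_le hx
  have he : eps / 64 ≤ eps := by norm_num [eps]
  refine small_fix_null hΓ hx.1 ha (d := flowU (rk1 p p) 1) h.1.2 hu (h2.trans he)
    (z5a_not_ell hp0 hp) hp0 hp (b := 1) ?_
  rw [coe_flowU, flow_apply_of_ker, one_smul]
  rw [rk1_apply, hp, zero_smul]

theorem small_fix_cusp {Γ : Subgroup (GG n)} (hΓ : Proper Γ) {M : Op n} (h : Cusp Γ M) {x : V n}
    (hx : x ∈ Tube M t1) {a : GG n} (ha : a ∈ plus Γ) (hu : uu (a : Op n) x ≤ eps) :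
    Commute (a : Op n) M := by
  obtain ⟨p, hp0, hp, rfl⟩ := h.1.1
  obtain ⟨c, hc⟩ := z5a_fix hΓ hp0 hp h hx ha hu
  exact (cusp_stab hΓ h ha hc).2

theorem near_fix_cusp {Γ : Subgroup (GG n)} (hΓ : Proper Γ) {M : Op n} (h : Cusp Γ M) {x : V n}
    (hx : x ∈ Tube M t1) {g : GG n} (hg : g ∈ plus Γ) (hu : CC x ((g : Op n) x) ≤ 2) :
    Commute (g : Op n) M := by
  obtain ⟨p, hp0, hp, rfl⟩ := h.1.1
  have hgi : IsIsom (g : Op n) := InP.isIsom hΓ hg
  have hd : flowU (rk1 p p) 1 ∈ plus Γ := h.1.2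
  have hmem : g * flowU (rk1 p p) 1 * g⁻¹ ∈ plus Γ :=
    (plus Γ).mul_mem ((plus Γ).mul_mem hg hd) ((plus Γ).inv_mem hg)
  have e : ((g * flowU (rk1 p p) 1 * g⁻¹ : GG n) : Op n) = cnj g (flow (rk1 p p) 1) := rfl
  have hiso : IsIsom (flow (rk1 p p) 1) := InP.isIsom hΓ h.1.2
  have h1 := uu_cnj_le hgi hiso hx.1
  have h2 := h.uu_le hx
  have h3 := uu_nonneg hiso hx.1
  have h4 := one_le_CC hx.1 (hgi.mem_Neg.mpr hx.1)
  have h5 : CC x ((g : Op n) x) ^ 2 ≤ 2 ^ 2 := pow_le_pow_left₀ (by linarith only [h4]) hu 2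
  have h6 : CC x ((g : Op n) x) ^ 2 * uu (flow (rk1 p p) 1) x ≤ 2 ^ 2 * (eps / 64) :=
    mul_le_mul h5 h2 h3 (by positivity)
  obtain ⟨c, hc⟩ := z5a_fix hΓ hp0 hp h hx hmem (by rw [e]; linarith only [h1, h6])
  rw [e, z5a_flow_one hp, cnj_vert hgi] at hc
  have hgp0 : (g : Op n) p ≠ 0 := fun h0 => hp0 (hgi.injective (by rw [h0, map_zero]))
  have hpi := Real.pi_pos
  obtain ⟨d, hd'⟩ := vert_eig hgp0 (by rw [hgi, hp]) (by positivity) (z5a_NN hp).ge hc
  have hd0 : d ≠ 0 := by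
    rintro rfl
    exact hp0 (by rw [hd', zero_smul])
  refine (cusp_stab hΓ h hg (c := d⁻¹) ?_).2
  conv_rhs => rw [hd']
  rw [smul_smul, inv_mul_cancel₀ hd0, one_smul]

theorem cusp_disjoint {Γ : Subgroup (GG n)} (hΓ : Proper Γ) {M M' : Op n} (h : Cusp Γ M)
    (h' : Cusp Γ M') {x : V n} (hx : x ∈ Tube M t1) (hx' : x ∈ Tube M' t1) : M = M' := by
  obtain ⟨p, hp0, hp, rfl⟩ := h.1.1
  obtain ⟨q, hq0, hq, rfl⟩ := h'.1.1
  have he : eps / 64 ≤ eps := by norm_num [eps]
  obtain ⟨c, hc⟩ := z5a_fix hΓ hp0 hp h hx (a := flowU (rk1 q q) 1) h'.1.2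
    ((h'.uu_le hx').trans he)
  rw [coe_flowU, z5a_flow_one hq] at hc
  have hpi := Real.pi_pos
  obtain ⟨d, hd⟩ := vert_eig hq0 hq (by positivity) (z5a_NN hp).ge hc
  refine h'.eq_of_smul h (a := ((‖d‖ ^ 2 : ℝ) : ℂ)) ?_
  rw [hd, rk1_smul_self]

end BallQ
end
end

-- merged part: Pool.Agent.Work.MP_72250f_ag.Z5
section
/-!
Cusp generators and horoballs. exists_cusp: among the finitely many a in (0,1] with Vert (a M) (finite_gen at oo)
take the least; note Vert (a M) forces a > 0 (eq_smul_of_rk1). On Tube Mc t1 the element flow Mc 1 has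
uu = 16 pi^2 mu^2 <= eps / 64 (IsNull.uu_flow). small_fix_cusp: small_fix_null and cusp_stab. kill: g = flow M 1 has
CC <= 2 on Tube M s0, the conjugate of flow Mc 1 by g is small (uu_cnj_le) and fixes the line of p, it is vert (g p) _
so g p is a multiple of p (vert_eig), nonpos_eig gives M p = 0. comm_out: thmZ; a vertical commutator has
uu <= 6 (64 eps1)^2 < 16 pi^2 t3^2, so x would lie in HB t3 (vert_of, exists_cusp). comm_gen_out: comm_out and lemmaF'.
-/

open scoped ComplexConjugate ENNReal Topology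
open MeasureTheory Filter

noncomputable section

namespace BallQ

variable {n : ℕ}

theorem z5_CC {M : Op n} (hM : IsGen M) {x : V n} (hx : x ∈ Tube M s0) :
    CC x (flow M 1 x) ≤ 2 := by
  have h1 := hM.CC_flow_le hx.1
  have h2 := hM.mu_nonneg hx.1
  have h3 : mu M x < 1 / 100 := hx.2
  have h4 := Real.pi_lt_four
  have h5 := Real.pi_pos
  have h6 : 2 * Real.pi * mu M x ≤ 8 / 100 := by linarith only [h3, h2, h4, mul_nonneg_of_nonpos_of_nonpos (Mathlib.Tactic.Linarith.sub_nonpos_of_le h2) (le_of_lt (Mathlib.Tactic.Linarith.sub_neg_of_lt h4))]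
  have h7 : 0 ≤ 2 * Real.pi * mu M x := by positivity
  linarith only [h1, h3, h2, h4, h6, h7, mul_nonneg_of_nonpos_of_nonpos (Mathlib.Tactic.Linarith.sub_nonpos_of_le h2) (le_of_lt (Mathlib.Tactic.Linarith.sub_neg_of_lt h4)), mul_nonneg_of_nonpos_of_nonpos (Mathlib.Tactic.Linarith.sub_nonpos_of_le h6) (Mathlib.Tactic.Linarith.sub_nonpos_of_le h7)]

theorem z5_tube {M : Op n} {t t' : ℝ} (h : t ≤ t') {x : V n} (hx : x ∈ Tube M t) :
    x ∈ Tube M t' := ⟨hx.1, hx.2.trans_le h⟩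

theorem z5_flow {p : V n} (hp : form p p = 0) (τ : ℝ) :
    flow (((τ / (2 * Real.pi) : ℝ) : ℂ) • rk1 p p) 1 = vert p τ := by
  have h : (Real.pi : ℂ) ≠ 0 := by exact_mod_cast Real.pi_ne_zero
  rw [flow_smul, flow_null hp, vert]
  congr 2
  push_cast
  field_simp

theorem kill {Γ : Subgroup (GG n)} (hΓ : Proper Γ) {Mc M : Op n} (hc : Cusp Γ Mc)
    (hM : IsGenLt 1 M) (hP : InP Γ (flow M 1)) {x : V n} (hx : x ∈ Tube Mc t1)
    (hx' : x ∈ Tube M s0) : ∀ v, M (Mc v) = 0 := by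
  have hg : flowU M 1 ∈ plus Γ := hP
  have h1 := near_fix_cusp hΓ hc hx hg (z5_CC hM.isGen hx')
  obtain ⟨p, hp0, hp, rfl⟩ := hc.1.1
  have hN : 0 ≤ NN p := by simp [NN, hp]
  have h2 : form x p ≠ 0 := fun h =>
    form_ne_zero_of_neg hx.1 hp0 hN (form_eq_zero_comm.mp h)
  have h3 : form x p • flow M 1 p = form (flow M 1 x) p • p := by
    have := congrArg (fun T : Op n => T x) h1.eq
    simpa [mul_apply_eq_comp] using this
  have h4 : flow M 1 p = ((form x p)⁻¹ * form (flow M 1 x) p) • p := by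
    rw [mul_smul, ← h3, smul_smul, inv_mul_cancel₀ h2, one_smul]
  have h5 := hM.nonpos_eig hN h4
  intro v
  rw [rk1_apply, map_smul, h5, smul_zero]

theorem mul_eq_zero_comm_of_gen {M M' : Op n} (h : IsGen M) (h' : IsGen M') (h0 : M * M' = 0) :
    M' * M = 0 := by
  ext1 v
  refine eq_zero_of_form fun w => ?_
  rw [mul_apply_eq_comp, h'.selfadj, h.selfadj, ← mul_apply_eq_comp, h0]
  simp

theorem comm_out {Γ : Subgroup (GG n)} (hΓ : Proper Γ) {x : V n} (hx : x ∈ Neg n)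
    (hout : x ∉ HB Γ t3) {a b : GG n} (ha : a ∈ plus Γ) (hb : b ∈ plus Γ)
    (h1 : uu (a : Op n) x ≤ 64 * eps1) (h2 : uu (b : Op n) x ≤ 64 * eps1) : Commute a b := by
  have he : 64 * eps1 ≤ eps := by norm_num [eps1, eps]
  rcases thmZ hΓ hx ha hb (h1.trans he) (h2.trans he) with h | ⟨-, -, p, hp0, hp, -, -, τ, hτ, h⟩
  · exact h
  exfalso
  have ia : IsIsom (a : Op n) := InP.isIsom hΓ ha
  have ib : IsIsom (b : Op n) := InP.isIsom hΓ hb
  have hc := le_plus Γ (comm_mem ha hb)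
  have hV := vert_of hp0 hp hτ hc h
  obtain ⟨s, hs0, hs1, hC⟩ := exists_cusp hΓ hV
  have h3 := uu_comm ia ib hx (h1.trans he) (h2.trans he)
  have h4 : uu (vert p |τ|) x = uu ((a * b * a⁻¹ * b⁻¹ : GG n) : Op n) x := by
    rcases abs_cases τ with ⟨h5, -⟩ | ⟨h5, -⟩
    · rw [h5, h]
    · rw [h5, ← uu_inv (InP.isIsom hΓ hc)]
      congr 1
      symm
      refine Units.inv_eq_of_mul_eq_one_right ?_
      rw [h, vert_mul hp, add_neg_cancel, vert_zero]
  have h5 := hV.1.uu_flow hx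
  rw [z5_flow hp, h4] at h5
  have h6 := (hV.1.isGenLt 1).isGen.mu_nonneg hx
  apply hout
  refine Set.mem_biUnion (x := (s : ℂ) • _) hC ⟨hx, ?_⟩
  rw [mu_real_smul]
  generalize mu (((|τ| / (2 * Real.pi) : ℝ) : ℂ) • rk1 p p) x = m at h5 h6 ⊢
  have h7 : 6 * uu (a : Op n) x * uu (b : Op n) x ≤ 6 * (64 * eps1) * (64 * eps1) := by
    clear * - n a x ia hx b ib h1 h2
    have := uu_nonneg ia hx
    have := uu_nonneg ib hx
    gcongr
    norm_num [eps1]
  have h8 : 9 ≤ Real.pi ^ 2 := by linarith only [Real.pi_gt_three, mul_pos_of_neg_of_neg (Mathlib.Tactic.Linarith.sub_neg_of_lt Real.pi_gt_three) (Mathlib.Tactic.Linarith.sub_neg_of_lt Real.pi_gt_three)]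
  have h9 : 144 * m ^ 2 ≤ 6 * (64 * eps1) * (64 * eps1) := by linarith only [h3, h5, h7, h8, sq_nonneg m, mul_nonneg_of_nonpos_of_nonpos (Mathlib.Tactic.Linarith.sub_nonpos_of_le (sq_nonneg m)) (Mathlib.Tactic.Linarith.sub_nonpos_of_le h8)]
  have h10 : m < t3 := by
    clear * - m h9
    by_contra h11
    have h12 : t3 ^ 2 ≤ m ^ 2 := pow_le_pow_left₀ (by norm_num [t3]) (not_lt.mp h11) 2
    norm_num [t3, eps1] at h9 h12
    linarith only [h9, h12]
  linarith only [h10, hs1, h6, mul_nonneg_of_nonpos_of_nonpos (Mathlib.Tactic.Linarith.sub_nonpos_of_le hs1) (Mathlib.Tactic.Linarith.sub_nonpos_of_le h6)]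

theorem comm_gen_out {Γ : Subgroup (GG n)} (hΓ : Proper Γ) {x : V n} (hout : x ∉ HB Γ t3)
    {M : Op n} (hM : GP Γ M) (hx : x ∈ Tube M s0) {a : GG n} (ha : a ∈ plus Γ)
    (h1 : uu (a : Op n) x ≤ eps1) : Commute (a : Op n) (flow M 1) := by
  have hg : flowU M 1 ∈ plus Γ := hM.2.2.2
  have ia : IsIsom (a : Op n) := InP.isIsom hΓ ha
  have ig : IsIsom (flowU M 1 : Op n) := InP.isIsom hΓ hg
  have hb : flowU M 1 * a * (flowU M 1)⁻¹ ∈ plus Γ :=
    (plus Γ).mul_mem ((plus Γ).mul_mem hg ha) ((plus Γ).inv_mem hg)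
  have e0 : 0 ≤ eps1 := by norm_num [eps1]
  have h2 := uu_cnj_le ig ia hx.1
  have h3 : CC x ((flowU M 1 : Op n) x) ≤ 2 := z5_CC hM.1.isGen hx
  have h4 : 1 ≤ CC x ((flowU M 1 : Op n) x) := one_le_CC hx.1 (ig.mem_Neg.mpr hx.1)
  have h5 := uu_nonneg ia hx.1
  have h6 : uu ((flowU M 1 * a * (flowU M 1)⁻¹ : GG n) : Op n) x ≤ 64 * eps1 := by
    refine h2.trans ?_
    calc _ ≤ 16 * 2 ^ 2 * eps1 := by gcongr
      _ = _ := by ring
  have h7 := comm_out hΓ hx.1 hout ha hb (by linarith only [h1, e0]) h6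
  exact lemmaF' hM.1 ia (Commute.units_val h7)

theorem cnjS_cusps {Γ : Subgroup (GG n)} (hΓ : Proper Γ) {g : GG n} (hg : g ∈ Γ) :
    cnjS g {M | Cusp Γ M} = {M | Cusp Γ M} := by
  ext M
  constructor
  · rintro ⟨M', hM', rfl⟩
    exact Cusp.cnj hΓ hM' (le_plus Γ hg)
  · intro hM
    refine ⟨cnj g⁻¹ M, Cusp.cnj hΓ hM (le_plus Γ (Γ.inv_mem hg)), ?_⟩
    rw [← cnj_mul, mul_inv_cancel, cnj_one]

theorem region_HB {Γ : Subgroup (GG n)} (hΓ : Proper Γ) (t : ℝ) : Region Γ (HB Γ t) :=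
  region_TubeS hΓ (fun _ hg => cnjS_cusps hΓ hg) t

theorem invI_sysC {Γ : Subgroup (GG n)} (hΓ : Proper Γ) : InvI Γ (sysC Γ) := by
  constructor
  · refine ((countable_gen hΓ).image fun M => ({M} : Set (Op n))).mono ?_
    rintro F ⟨M, hM, rfl⟩
    exact ⟨M, ⟨hM.1.1.isGenLt 1, hM.1.2⟩, rfl⟩
  · rintro g hg F ⟨M, hM, rfl⟩
    exact ⟨cnj g M, Cusp.cnj hΓ hM (le_plus Γ hg), Set.image_singleton⟩

theorem mult_sysC {Γ : Subgroup (GG n)} (hΓ : Proper Γ) {t : ℝ} (ht : t ≤ t1) (x : V n) :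
    mult (sysC Γ) (fun F => TubeS F t) x = (HB Γ t).indicator 1 x := by
  have hs : ∀ M : Op n, x ∈ TubeS {M} t ↔ x ∈ Tube M t := fun M => by simp [TubeS]
  unfold mult
  by_cases hx : x ∈ HB Γ t
  · obtain ⟨M, hM, hxM⟩ := Set.mem_iUnion₂.mp hx
    rw [Set.indicator_of_mem hx, tsum_eq_single (⟨{M}, M, hM, rfl⟩ : sysC Γ)]
    · exact Set.indicator_of_mem ((hs M).mpr hxM) _
    · rintro ⟨F, M', hM', rfl⟩ hne
      refine Set.indicator_of_notMem (fun h => hne ?_) _
      have := cusp_disjoint hΓ hM' hM (z5_tube ht ((hs M').mp h)) (z5_tube ht hxM)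
      subst this
      rfl
  · rw [Set.indicator_of_notMem hx, ENNReal.tsum_eq_zero]
    rintro ⟨F, M, hM, rfl⟩
    refine Set.indicator_of_notMem (fun h => hx ?_) _
    exact Set.mem_biUnion hM ((hs M).mp h)

end BallQ
end
end

-- merged part: Pool.Agent.Work.MP_72250f_ag.M5a
section
/-!
The scaling lemma. Parametrise the contractions by nu: round D: M = 1 - (1 - sqrt(1 - nu)) D = flow D (i y) with
1 - nu = exp(-4 pi y), nu in (0,1), th = 1 - nu; null D: M = 1 - (nu / 2) D = flow D (i y), nu = 4 pi y in (0, oo), th = 1.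
Then NN (M v) = NN v + nu pi(v), pi(M v) = th pi(v), |det M|^2 <= th, where pi v = Re <D v, v>. Put 1 - b1 = (1 - b)(1 + 1/n);
if b1 <= 0 the claim follows from S in S' (y = 0) and (1 + 1/n)^n <= 3. Otherwise apply lintegral_JQ for each nu to
f_nu = indicator of S and of sigma in [b1,b], times mu D / th^2, with sigma = nu mu D / th (then M^-1 x is negative with
NN (M^-1 x) = (1 - sigma) NN x), and integrate over nu (Tonelli). For fixed x the nu integral of f_nu x is b - b1 (when mu D x > 0,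
which holds a.e. by nu_submodule for ker D); for fixed x' the nu integral of f_nu (M x') Jac is at most the indicator of S' times
the integral of p (1 + nu p)^-(n+2) over nu p >= b1 / (1 - b1), that is (1 - b1)^(n+1) / (n+1), p = mu D x'.
vol_gain: unfold_le and scale_tube with 1 - b = (s + eta)/(s' + eta). vol_HB: vol_gain for sysC with eta = 0
(dirFor_null), X empty, and mult_sysC.
-/

open scoped ComplexConjugate ENNReal Topology
open MeasureTheory Filter

noncomputable section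

namespace BallQ

variable {n : ℕ}

/-- The first real integral. -/
theorem m5a_lin {m b1 b : ℝ} (hm : 0 < m) (h0 : 0 ≤ b1) :
    ENNReal.ofReal (b - b1) ≤
      ∫⁻ t in Set.Ioi (0 : ℝ), if b1 ≤ t * m ∧ t * m ≤ b then ENNReal.ofReal m else 0 := by
  have hsub : Set.Ioc (b1 / m) (b / m) ⊆ Set.Ioi (0 : ℝ) := fun t ht =>
    lt_of_le_of_lt (div_nonneg h0 hm.le) ht.1
  calc ENNReal.ofReal (b - b1) = ∫⁻ _ in Set.Ioc (b1 / m) (b / m), ENNReal.ofReal m := by
        rw [setLIntegral_const, Real.volume_Ioc, ← ENNReal.ofReal_mul hm.le]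
        congr 1
        field_simp
    _ = ∫⁻ t in Set.Ioc (b1 / m) (b / m),
          if b1 ≤ t * m ∧ t * m ≤ b then ENNReal.ofReal m else 0 := by
        refine setLIntegral_congr_fun measurableSet_Ioc fun t ht => ?_
        have h1 : b1 ≤ t * m := ((div_lt_iff₀ hm).mp ht.1).le
        have h2 : t * m ≤ b := (le_div_iff₀ hm).mp ht.2
        simp [h1, h2]
    _ ≤ _ := lintegral_mono_set hsub

/-- The density on the expanded side. -/
def m5a_g (n : ℕ) (κ c t p : ℝ) : ℝ≥0∞ :=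
  if c ≤ t / (1 + κ * t) * p then
    ENNReal.ofReal (p / (1 + κ * t) ^ 2 * ((1 + t / (1 + κ * t) * p)⁻¹) ^ (n + 2)) else 0

theorem m5a_measurable_g (n : ℕ) (κ c : ℝ) :
    Measurable fun q : ℝ × ℝ => m5a_g n κ c q.1 q.2 := by
  unfold m5a_g
  refine Measurable.ite (measurableSet_le measurable_const (by fun_prop)) ?_ measurable_const
  exact ENNReal.measurable_ofReal.comp (by fun_prop)

/-- The second real integral. -/
theorem m5a_tail (n : ℕ) {κ c p : ℝ} (hκ : 0 ≤ κ) (hc : 0 ≤ c) (hp : 0 ≤ p) :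
    ∫⁻ t in Set.Ioi (0 : ℝ), m5a_g n κ c t p ≤
      ENNReal.ofReal ((1 + c)⁻¹ ^ (n + 1) / (n + 1)) := by
  set A : Set ℝ := {t | c ≤ t / (1 + κ * t) * p} with hA
  have hAm : MeasurableSet A := measurableSet_le measurable_const (by fun_prop)
  set f : ℝ → ℝ := fun t => (1 + t / (1 + κ * t) * p)⁻¹ ^ (n + 1) / (n + 1) with hf
  set f' : ℝ → ℝ := fun t =>
    -(p / (1 + κ * t) ^ 2 * ((1 + t / (1 + κ * t) * p)⁻¹) ^ (n + 2)) with hf'
  have hpos : ∀ t : ℝ, 0 < t → 0 < 1 + κ * t := fun t ht => by positivity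
  have hpos' : ∀ t : ℝ, 0 < t → 0 < 1 + t / (1 + κ * t) * p := fun t ht => by
    have := hpos t ht
    positivity
  have hd : ∀ t ∈ A ∩ Set.Ioi 0, HasDerivWithinAt f (f' t) (A ∩ Set.Ioi 0) t := by
    intro t ht
    have h1 := hpos t ht.2
    have h2 := hpos' t ht.2
    have e1 : HasDerivAt (fun t : ℝ => 1 + κ * t) κ t := by
      simpa using ((hasDerivAt_id t).const_mul κ).const_add 1
    have e2 : HasDerivAt (fun t : ℝ => t / (1 + κ * t)) (1 / (1 + κ * t) ^ 2) t := by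
      refine ((hasDerivAt_id' t).fun_div e1 h1.ne').congr_deriv ?_
      congr 1
      ring
    have e3 : HasDerivAt (fun t : ℝ => 1 + t / (1 + κ * t) * p) (1 / (1 + κ * t) ^ 2 * p) t :=
      (e2.mul_const p).const_add 1
    have e4 := ((e3.fun_inv h2.ne').fun_pow (n + 1)).div_const ((n : ℝ) + 1)
    refine HasDerivAt.hasDerivWithinAt (e4.congr_deriv ?_)
    simp only [hf', Nat.add_sub_cancel]
    generalize 1 + t / (1 + κ * t) * p = w at h2
    rw [pow_add w⁻¹ n 2]
    push_cast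
    clear * - n w κ t p h1 h2; field_simp
  have hanti : AntitoneOn f (A ∩ Set.Ioi 0) := by
    intro s hs t ht hst
    have h1 := hpos s hs.2
    have h2 := hpos t ht.2
    have h3 := hpos' s hs.2
    have h4 := hpos' t ht.2
    have h5 : s / (1 + κ * s) ≤ t / (1 + κ * t) := by
      rw [div_le_div_iff₀ h1 h2]
      linarith only [hst]
    simp only [hf]
    clear * - t κ p n s h4 h3 h5 hp; gcongr
  have key := lintegral_deriv_eq_volume_image_of_antitoneOn (hAm.inter measurableSet_Ioi) hd hanti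
  have himg : f '' (A ∩ Set.Ioi 0) ⊆ Set.Icc 0 ((1 + c)⁻¹ ^ (n + 1) / (n + 1)) := by
    rintro _ ⟨t, ht, rfl⟩
    have h4 := hpos' t ht.2
    have h5 : c ≤ t / (1 + κ * t) * p := ht.1
    refine ⟨by simp only [hf]; positivity, ?_⟩
    simp only [hf]
    gcongr
  calc ∫⁻ t in Set.Ioi (0 : ℝ), m5a_g n κ c t p
      = ∫⁻ t in Set.Ioi (0 : ℝ), A.indicator (fun t => ENNReal.ofReal (-f' t)) t := by
        refine lintegral_congr fun t => ?_
        simp only [m5a_g, Set.indicator, hA, hf', Set.mem_ofPred_eq, neg_neg]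
    _ = ∫⁻ t in A ∩ Set.Ioi 0, ENNReal.ofReal (-f' t) := by
        rw [lintegral_indicator hAm, Measure.restrict_restrict hAm]
    _ = volume (f '' (A ∩ Set.Ioi 0)) := key
    _ ≤ volume (Set.Icc 0 ((1 + c)⁻¹ ^ (n + 1) / (n + 1)) : Set ℝ) := measure_mono himg
    _ = _ := by rw [Real.volume_Icc, sub_zero]

theorem m5a_measurable_mu (D : Op n) : Measurable (mu D) := by
  unfold mu
  refine Measurable.div ?_ continuous_NN.measurable
  exact (Complex.continuous_re.comp (continuous_form' D.continuous continuous_id)).measurable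

theorem m5a_invF {Λ : Subgroup (GG n)} (hΛ : Proper Λ) {D : Op n}
    (hc : ∀ g ∈ Λ, Commute (g : Op n) D) {φ : ℝ → ℝ≥0∞} (hφ : Measurable φ) :
    InvF Λ (fun v => φ (mu D v)) := by
  refine ⟨hφ.comp (m5a_measurable_mu D), fun c hc0 v => ?_, fun g hg v => ?_⟩
  · simp only [mu_smul D hc0]
  · have := mu_cnj (hΛ.isom g hg) D v
    rw [cnj_eq_iff.mpr (hc g hg)] at this
    simp only [this]

/-- The one parameter family of contractions attached to a direction. -/
theorem m5a_family {D : Op n} (hD : IsDir D) : ∃ κ : ℝ, 0 ≤ κ ∧ ∀ t : ℝ, 0 < t →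
    ∃ y : ℝ, 0 ≤ y ∧
      (∀ v, NN (flow D (y * Complex.I) v) = NN v + t / (1 + κ * t) * (form (D v) v).re) ∧
      (∀ v, (form (D (flow D (y * Complex.I) v)) (flow D (y * Complex.I) v)).re =
        (form (D v) v).re / (1 + κ * t)) ∧
      ‖(flow D (y * Complex.I)).det‖ ^ 2 ≤ 1 / (1 + κ * t) := by
  have hG := hD.isGen
  rcases hD with ⟨hR, h0⟩ | hN
  · refine ⟨1, zero_le_one, fun t ht => ?_⟩
    have h1t : 0 < 1 + t := by positivity
    set y : ℝ := Real.log (1 + t) / (4 * Real.pi) with hy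
    have hy0 : 0 ≤ y := div_nonneg (Real.log_nonneg (by linarith only [ht])) (by positivity)
    set r : ℝ := Real.exp (-(2 * Real.pi * y)) with hr
    have hr2 : r ^ 2 = 1 / (1 + t) := by
      rw [hr, ← Real.exp_nat_mul]
      have : ((2 : ℕ) : ℝ) * -(2 * Real.pi * y) = -Real.log (1 + t) := by
        rw [hy]
        push_cast
        field_simp
        ring
      rw [this, Real.exp_neg, Real.exp_log h1t, one_div]
    have he : Complex.exp (2 * Real.pi * Complex.I * (y * Complex.I)) = (r : ℂ) := by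
      rw [hr, Complex.ofReal_exp]
      congr 1
      push_cast
      linear_combination (2 * Real.pi * y : ℂ) * Complex.I_mul_I
    have hfl : ∀ v, flow D (y * Complex.I) v = v + ((r - 1 : ℝ) : ℂ) • D v := by
      intro v
      rw [hR.flow_eq, he]
      simp
    have hDD : ∀ v, D (D v) = D v := fun v => by
      rw [← mul_apply_eq_comp, hR.mul_self]
    have hfd : ∀ v, form (D v) (D v) = form (D v) v := fun v => by
      rw [← hG.selfadj, hDD]
    have hfd' : ∀ v, form v (D v) = form (D v) v := fun v => (hG.selfadj v v).symm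
    refine ⟨y, hy0, fun v => ?_, fun v => ?_, ?_⟩
    · rw [hfl, NN_add, NN_smul, form_smul_right, hfd', Complex.conj_ofReal, Complex.re_ofReal_mul,
        NN, NN, hfd, Complex.norm_real, Real.norm_eq_abs, sq_abs]
      have : t / (1 + 1 * t) = 1 - r ^ 2 := by
        rw [hr2]
        field_simp
        ring
      rw [this]
      ring
    · rw [hfl, map_add, map_smul, hDD, form_add_left, form_add_right, form_add_right,
        form_smul_left, form_smul_left, form_smul_right, hfd, Complex.conj_ofReal]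
      have : form (D v) v + ((r - 1 : ℝ) : ℂ) * form (D v) v + (((r - 1 : ℝ) : ℂ) * form (D v) v +
          ((r - 1 : ℝ) : ℂ) * (((r - 1 : ℝ) : ℂ) * form (D v) v)) =
          ((r ^ 2 : ℝ) : ℂ) * form (D v) v := by
        push_cast
        ring
      rw [this, Complex.re_ofReal_mul, hr2]
      field_simp
    · obtain ⟨F, hw, hp, hF⟩ := hR
      have hm : (1 : ℝ) ≤ F.m := by
        have : F.m ≠ 0 := by
          intro hm
          apply h0
          rw [hF, Frame.op, hp, rk1_eq_zero.mpr rfl, add_zero]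
          have : IsEmpty (Fin F.m) := by rw [hm]; infer_instance
          simp
        exact_mod_cast Nat.one_le_iff_ne_zero.mpr this
      have htr : tr D = ((F.m : ℝ) : ℂ) := by
        rw [hF, F.age_eq]
        simp [hw]
      rw [hG.det_flow, htr, Complex.norm_exp, ← Real.exp_nat_mul, one_mul, ← hr2, hr,
        ← Real.exp_nat_mul]
      apply Real.exp_le_exp.mpr
      have : (2 * (Real.pi : ℂ) * Complex.I * (y * Complex.I) * ((F.m : ℝ) : ℂ)) =
          ((-(2 * Real.pi * y * F.m) : ℝ) : ℂ) := by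
        push_cast
        linear_combination (2 * Real.pi * y * F.m : ℂ) * Complex.I_mul_I
      rw [this, Complex.ofReal_re]
      have h2 : 0 ≤ 2 * Real.pi * y := by positivity
      push_cast
      linarith only [hm, h2, mul_nonneg_of_nonpos_of_nonpos (Mathlib.Tactic.Linarith.sub_nonpos_of_le hm) (Mathlib.Tactic.Linarith.sub_nonpos_of_le h2)]
  · refine ⟨0, le_rfl, fun t ht => ?_⟩
    set y : ℝ := t / (4 * Real.pi) with hy
    have hy0 : 0 ≤ y := by positivity
    refine ⟨y, hy0, fun v => ?_, fun v => ?_, ?_⟩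
    · rw [hN.NN_flow]
      simp only [Complex.mul_im, Complex.ofReal_re, Complex.I_im, Complex.ofReal_im, Complex.I_re,
        mul_one, mul_zero, add_zero, zero_mul, div_one]
      congr 2
      rw [hy]
      field_simp
    · obtain ⟨p, hp0, hp, rfl⟩ := hN
      rw [form_rk1_self, form_rk1_self, flow_null hp]
      simp [form_add_left, form_smul_left, hp]
    · rw [hG.det_flow, hN.age_eq]
      simp

theorem m5a_ae_pos {D : Op n} (hD : IsDir D) : ∀ᵐ v ∂(nu n), v ∈ Neg n ∧ 0 < mu D v := by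
  have hG := hD.isGen
  have h0 : D ≠ 0 := by
    rcases hD with ⟨_, h0⟩ | ⟨p, hp0, _, rfl⟩
    · exact h0
    · exact fun h => hp0 (rk1_eq_zero.mp h)
  have hW : LinearMap.ker (D : V n →ₗ[ℂ] V n) ≠ ⊤ := by
    intro h
    apply h0
    ext1 v
    have : v ∈ LinearMap.ker (D : V n →ₗ[ℂ] V n) := h ▸ Submodule.mem_top
    simpa using this
  have h1 : ∀ᵐ v ∂(nu n), v ∉ (LinearMap.ker (D : V n →ₗ[ℂ] V n) : Set (V n)) :=
    measure_eq_zero_iff_ae_notMem.mp (nu_submodule _ hW)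
  filter_upwards [h1, ae_nu] with v hv hv'
  refine ⟨hv'.1, div_pos (lt_of_le_of_ne (hG.re_nonneg v) fun h => hv ?_) hv'.1⟩
  simpa using hG.apply_eq_zero h.symm

/-- The change of variables for one value of the parameter. -/
theorem m5a_step {Λ : Subgroup (GG n)} (hΛ : Proper Λ) {ψ : V n → ℝ≥0∞}
    (hψ : IsWeight Λ ψ) {D : Op n} (hG : IsGen D) (hc : ∀ g ∈ Λ, Commute (g : Op n) D)
    {S S' : Set (V n)} (hS : Region Λ S) {b b1 κ t y : ℝ} (hb1 : b < 1) (hbb : b1 < 1)
    (hκ : 0 ≤ κ) (ht : 0 < t) (hy : 0 ≤ y)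
    (h : ∀ x ∈ Neg n, flow D (y * Complex.I) x ∈ S →
      (1 - b) * NN (flow D (y * Complex.I) x) ≤ NN x → x ∈ S')
    (e1 : ∀ v, NN (flow D (y * Complex.I) v) = NN v + t / (1 + κ * t) * (form (D v) v).re)
    (e2 : ∀ v, (form (D (flow D (y * Complex.I) v)) (flow D (y * Complex.I) v)).re =
      (form (D v) v).re / (1 + κ * t))
    (e3 : ‖(flow D (y * Complex.I)).det‖ ^ 2 ≤ 1 / (1 + κ * t)) :
    ∫⁻ v, S.indicator (fun v => if b1 ≤ t * mu D v ∧ t * mu D v ≤ b then
        ENNReal.ofReal (mu D v) else 0) v * ψ v ∂(nu n) ≤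
      ∫⁻ v, S'.indicator (fun v => m5a_g n κ (b1 / (1 - b1)) t (mu D v)) v * ψ v ∂(nu n) := by
  have hκt : 0 < 1 + κ * t := by positivity
  set M : GG n := flowU D (y * Complex.I) with hM
  have hMc : (M : Op n) = flow D (y * Complex.I) := rfl
  have him : 0 ≤ ((y : ℂ) * Complex.I).im := by simpa using hy
  have hφ : Measurable fun m : ℝ =>
      if b1 ≤ t * m ∧ t * m ≤ b then ENNReal.ofReal m else 0 := by
    refine Measurable.ite ?_ ENNReal.measurable_ofReal measurable_const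
    have hq : Measurable fun m : ℝ => t * m := by fun_prop
    exact (measurableSet_le measurable_const hq).inter (measurableSet_le hq measurable_const)
  have hf := hS.invF (m5a_invF hΛ hc hφ)
  set f : V n → ℝ≥0∞ := S.indicator (fun v => if b1 ≤ t * mu D v ∧ t * mu D v ≤ b then
    ENNReal.ofReal (mu D v) else 0) with hfdef
  have hJ := lintegral_JQ hΛ hψ M (fun v hv => hG.flow_mem_Neg him hv)
    (fun g hg => Units.ext (commute_flow (hc g hg) (y * Complex.I))) hf
  have hsupp : Function.support (fun v => f v * ψ v) ⊆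
      {v | ((M⁻¹ : GG n) : Op n) v ∈ Neg n} := by
    clear * - n f ψ S b1 t D b hfdef Λ hS M y κ e1 e2 hb1
    intro v hv
    have hv0 : f v ≠ 0 := left_ne_zero_of_mul hv
    have hvS : v ∈ S := Set.mem_of_indicator_ne_zero hv0
    rw [hfdef, Set.indicator_of_mem hvS] at hv0
    have hv1 : t * mu D v ≤ b := by
      by_contra hcon
      exact hv0 (if_neg fun hh => hcon hh.2)
    have hvN : 0 < NN v := hS.neg hvS
    set x := ((M⁻¹ : GG n) : Op n) v with hx
    have hxv : flow D (y * Complex.I) x = v := apply_inv_apply M v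
    have a1 := e1 x
    have a2 := e2 x
    rw [hxv] at a1 a2
    have a3 : t * (form (D v) v).re ≤ b * NN v := by
      rw [mu, ← mul_div_assoc, div_le_iff₀ hvN] at hv1
      exact hv1
    have a4 : t / (1 + κ * t) * (form (D x) x).re = t * (form (D v) v).re := by
      rw [a2]
      ring
    show 0 < NN x
    linarith only [a1, a3, a4, mul_pos (sub_pos.2 hb1) hvN]
  rw [setLIntegral_eq_of_support_subset hsupp] at hJ
  rw [← hJ]
  refine lintegral_mono_ae ?_
  filter_upwards [ae_nu] with x hx'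
  have hx := hx'.1
  have hxN : 0 < NN x := hx
  refine mul_le_mul_left ?_ _
  by_cases hv0 : f ((M : Op n) x) = 0
  · rw [hv0, zero_mul]
    exact zero_le
  have hvS : (M : Op n) x ∈ S := Set.mem_of_indicator_ne_zero hv0
  have hcond : b1 ≤ t * mu D ((M : Op n) x) ∧ t * mu D ((M : Op n) x) ≤ b := by
    by_contra hcon
    rw [hfdef, Set.indicator_of_mem hvS] at hv0
    exact hv0 (if_neg hcon)
  set p := mu D x with hp
  have hp0 : 0 ≤ p := hG.mu_nonneg hx
  have hπ : (form (D x) x).re = p * NN x := by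
    rw [hp, mu]
    field_simp
  set u := t / (1 + κ * t) * p with hu
  have hu0 : 0 ≤ u := by clear * - t κ p ht hκ hp0; positivity
  have hN : NN ((M : Op n) x) = (1 + u) * NN x := by
    rw [hMc, e1, hπ, hu]
    ring
  have hmu : mu D ((M : Op n) x) = p / (1 + κ * t) / (1 + u) := by
    clear * - n D M x p κ t u hN y hMc e2 hπ hxN hu0 hκ ht
    rw [mu, hN, hMc, e2, hπ]
    field_simp
  have htmu : t * mu D ((M : Op n) x) = u / (1 + u) := by
    rw [hmu, hu]
    ring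
  rw [htmu] at hcond
  have h1u : 0 < 1 + u := by clear * - u t κ p ht hκ hp0; positivity
  have c1 := (le_div_iff₀ h1u).mp hcond.1
  have c2 := (div_le_iff₀ h1u).mp hcond.2
  have hxS : x ∈ S' := by
    refine h x hx hvS ?_
    rw [← hMc, hN]
    have : (1 - b) * (1 + u) ≤ 1 := by linarith only [c2]
    linarith only [mul_le_mul_of_nonneg_right this hxN.le]
  have hcu : b1 / (1 - b1) ≤ u := by
    rw [div_le_iff₀ (by linarith only [hbb])]
    linarith only [c1]
  rw [Set.indicator_of_mem hxS, m5a_g, if_pos hcu, hfdef, Set.indicator_of_mem hvS]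
  simp only [htmu]
  rw [if_pos hcond, Jac, ← ENNReal.ofReal_mul (by clear * - n D M x p κ t u hmu hp0 hκ ht; rw [hmu]; positivity)]
  apply ENNReal.ofReal_le_ofReal
  have hq : NN x / NN ((M : Op n) x) = (1 + u)⁻¹ := by
    rw [hN]
    field_simp
  rw [hq, hmu, ← hp, ← hu]
  calc p / (1 + κ * t) / (1 + u) * (‖(M : Op n).det‖ ^ 2 * (1 + u)⁻¹ ^ (n + 1))
      ≤ p / (1 + κ * t) / (1 + u) * (1 / (1 + κ * t) * (1 + u)⁻¹ ^ (n + 1)) := by
        clear * - p κ t u n M e3 ht hκ hp0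
        gcongr
        exact e3
    _ = _ := by
        clear * - p κ t u n hu0 hκ ht
        rw [pow_succ (1 + u)⁻¹ (n + 1)]
        field_simp

theorem m5a_main {Λ : Subgroup (GG n)} (hΛ : Proper Λ) {ψ : V n → ℝ≥0∞}
    (hψ : IsWeight Λ ψ) {D : Op n} (hD : IsDir D) (hc : ∀ g ∈ Λ, Commute (g : Op n) D)
    {S S' : Set (V n)} (hS : Region Λ S) (hS' : Region Λ S') {b b1 : ℝ} (hb1 : b < 1)
    (hb0 : 0 ≤ b1) (hbb : b1 < 1)
    (h : ∀ y : ℝ, 0 ≤ y → ∀ x ∈ Neg n, flow D (y * Complex.I) x ∈ S →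
      (1 - b) * NN (flow D (y * Complex.I) x) ≤ NN x → x ∈ S') :
    ENNReal.ofReal (b - b1) * volW S ψ ≤
      ENNReal.ofReal ((1 - b1) ^ (n + 1) / (n + 1)) * volW S' ψ := by
  obtain ⟨κ, hκ, hfam⟩ := m5a_family hD
  have hG := hD.isGen
  have hmu := m5a_measurable_mu D
  set c := b1 / (1 - b1) with hcdef
  have hc0 : 0 ≤ c := div_nonneg hb0 (by linarith only [hbb])
  have hcc : (1 + c)⁻¹ = 1 - b1 := by
    have : 1 - b1 ≠ 0 := by linarith only [hbb]
    rw [hcdef]
    field_simp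
    ring
  have m1 : Measurable fun q : V n × ℝ => S.indicator (fun v => if b1 ≤ q.2 * mu D v ∧
      q.2 * mu D v ≤ b then ENNReal.ofReal (mu D v) else 0) q.1 * ψ q.1 := by
    refine Measurable.mul ?_ (hψ.meas.comp measurable_fst)
    have hq : Measurable fun q : V n × ℝ => q.2 * mu D q.1 :=
      measurable_snd.mul (hmu.comp measurable_fst)
    have : Measurable fun q : V n × ℝ => if b1 ≤ q.2 * mu D q.1 ∧
        q.2 * mu D q.1 ≤ b then ENNReal.ofReal (mu D q.1) else 0 := by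
      refine Measurable.ite ?_ (ENNReal.measurable_ofReal.comp (hmu.comp measurable_fst))
        measurable_const
      exact (measurableSet_le measurable_const hq).inter (measurableSet_le hq measurable_const)
    exact this.indicator (measurable_fst hS.meas)
  have m2 : Measurable fun q : ℝ × V n =>
      S'.indicator (fun v => m5a_g n κ c q.1 (mu D v)) q.2 * ψ q.2 := by
    refine Measurable.mul ?_ (hψ.meas.comp measurable_snd)
    have : Measurable fun q : ℝ × V n => m5a_g n κ c q.1 (mu D q.2) :=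
      (m5a_measurable_g n κ c).comp (measurable_fst.prodMk (hmu.comp measurable_snd))
    exact this.indicator (measurable_snd hS'.meas)
  calc ENNReal.ofReal (b - b1) * volW S ψ
      = ∫⁻ v, S.indicator (fun v => ENNReal.ofReal (b - b1) * ψ v) v ∂(nu n) := by
        rw [lintegral_indicator hS.meas, lintegral_const_mul _ hψ.meas, volW]
    _ ≤ ∫⁻ v, (∫⁻ t in Set.Ioi (0 : ℝ), S.indicator (fun v => if b1 ≤ t * mu D v ∧
          t * mu D v ≤ b then ENNReal.ofReal (mu D v) else 0) v * ψ v) ∂(nu n) := by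
        refine lintegral_mono_ae ?_
        filter_upwards [m5a_ae_pos hD] with v hv
        by_cases hvS : v ∈ S
        · simp only [Set.indicator_of_mem hvS]
          rw [lintegral_mul_const]
          · exact mul_le_mul_left (m5a_lin hv.2 hb0) _
          · refine Measurable.ite ?_ measurable_const measurable_const
            have hq : Measurable fun t : ℝ => t * mu D v := by fun_prop
            exact (measurableSet_le measurable_const hq).inter
              (measurableSet_le hq measurable_const)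
        · simp [Set.indicator_of_notMem hvS]
    _ = ∫⁻ t in Set.Ioi (0 : ℝ), ∫⁻ v, S.indicator (fun v => if b1 ≤ t * mu D v ∧
          t * mu D v ≤ b then ENNReal.ofReal (mu D v) else 0) v * ψ v ∂(nu n) :=
        lintegral_lintegral_swap m1.aemeasurable
    _ ≤ ∫⁻ t in Set.Ioi (0 : ℝ), ∫⁻ v,
          S'.indicator (fun v => m5a_g n κ c t (mu D v)) v * ψ v ∂(nu n) := by
        refine setLIntegral_mono' measurableSet_Ioi fun t ht => ?_
        obtain ⟨y, hy, e1, e2, e3⟩ := hfam t ht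
        exact m5a_step hΛ hψ hG hc hS hb1 hbb hκ ht hy (h y hy) e1 e2 e3
    _ = ∫⁻ v, (∫⁻ t in Set.Ioi (0 : ℝ),
          S'.indicator (fun v => m5a_g n κ c t (mu D v)) v * ψ v) ∂(nu n) :=
        lintegral_lintegral_swap m2.aemeasurable
    _ ≤ ∫⁻ v, S'.indicator
          (fun v => ENNReal.ofReal ((1 - b1) ^ (n + 1) / (n + 1)) * ψ v) v ∂(nu n) := by
        refine lintegral_mono fun v => ?_
        by_cases hvS : v ∈ S'
        · simp only [Set.indicator_of_mem hvS]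
          rw [lintegral_mul_const]
          · rw [← hcc]
            exact mul_le_mul_left (m5a_tail n hκ hc0 (hG.mu_nonneg (hS'.neg hvS))) _
          · exact (m5a_measurable_g n κ c).comp (measurable_id.prodMk measurable_const)
        · simp [Set.indicator_of_notMem hvS]
    _ = _ := by
        rw [lintegral_indicator hS'.meas, lintegral_const_mul _ hψ.meas, volW]

theorem scale_tube (hn : 1 ≤ n) {Λ : Subgroup (GG n)} (hΛ : Proper Λ) {ψ : V n → ℝ≥0∞}
    (hψ : IsWeight Λ ψ) {D : Op n} (hD : IsDir D) (hc : ∀ g ∈ Λ, Commute (g : Op n) D)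
    {S S' : Set (V n)} (hS : Region Λ S) (hS' : Region Λ S') {b : ℝ} (hb0 : 0 ≤ b) (hb1 : b < 1)
    (h : ∀ y : ℝ, 0 ≤ y → ∀ x ∈ Neg n, flow D (y * Complex.I) x ∈ S →
      (1 - b) * NN (flow D (y * Complex.I) x) ≤ NN x → x ∈ S') :
    volW S ψ ≤ ENNReal.ofReal (3 * (1 - b) ^ n) * volW S' ψ := by
  have hn' : (0 : ℝ) < n := by exact_mod_cast hn
  have h1b : 0 < 1 - b := by linarith only [hb1]
  have h3 : (1 + (n : ℝ)⁻¹) ^ n ≤ 3 :=
    Real.one_add_inv_pow_le_exp.trans Real.exp_one_lt_three.le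
  have hpw : ((1 - b) * (1 + (n : ℝ)⁻¹)) ^ n ≤ 3 * (1 - b) ^ n := by
    rw [mul_pow, mul_comm]
    gcongr
  by_cases hcase : 1 ≤ (1 - b) * (1 + (n : ℝ)⁻¹)
  · have hsub : S ⊆ S' := by
      intro x hx
      have hxN : 0 < NN x := hS.neg hx
      have e : flow D (((0 : ℝ) : ℂ) * Complex.I) x = x := by
        simp [flow_zero]
      refine h 0 le_rfl x (hS.neg hx) (by rw [e]; exact hx) ?_
      rw [e]
      linarith only [hb0, hxN, mul_nonneg_of_nonpos_of_nonpos (Mathlib.Tactic.Linarith.sub_nonpos_of_le hb0) (le_of_lt (Mathlib.Tactic.Linarith.sub_neg_of_lt hxN))]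
    have h1 : (1 : ℝ≥0∞) ≤ ENNReal.ofReal (3 * (1 - b) ^ n) :=
      ENNReal.one_le_ofReal.mpr ((one_le_pow₀ hcase).trans hpw)
    calc volW S ψ ≤ volW S' ψ := lintegral_mono_set hsub
      _ = 1 * volW S' ψ := (one_mul _).symm
      _ ≤ _ := mul_le_mul_left h1 _
  · have hpos : 0 < (1 - b) * (1 + (n : ℝ)⁻¹) := by positivity
    have key := m5a_main hΛ hψ hD hc hS hS' (b1 := 1 - (1 - b) * (1 + (n : ℝ)⁻¹)) hb1
      (by linarith only [hcase, not_le.mp hcase]) (by linarith only [hpos]) h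
    have e1 : b - (1 - (1 - b) * (1 + (n : ℝ)⁻¹)) = (1 - b) / n := by
      field_simp
      ring
    have hd : 0 < (1 - b) / n := by positivity
    rw [e1, sub_sub_cancel] at key
    have e2 : ((1 - b) * (1 + (n : ℝ)⁻¹)) ^ (n + 1) / (n + 1) =
        (1 - b) / n * ((1 - b) * (1 + (n : ℝ)⁻¹)) ^ n := by
      rw [pow_succ]
      field_simp
    rw [e2, ENNReal.ofReal_mul hd.le, mul_assoc,
      ENNReal.mul_le_mul_iff_right (ENNReal.ofReal_pos.mpr hd).ne' ENNReal.ofReal_ne_top] at key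
    exact key.trans (mul_le_mul_left (ENNReal.ofReal_le_ofReal hpw) _)

end BallQ
end
end
end
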