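import Pool.Agent.Work.MP_72250f_ag.Z1
import Pool.Agent.Work.MP_72250f_ag.Z5

-- merged part: Pool.Agent.Work.MP_72250f_ag.S2
section
-- merged part: Pool.Agent.Work.MP_72250f_ag.S2
section
/-!
Visibility. Strong induction on the cardinality of the finite set SW Gamma W eps x. Take d in it. Find a path x_s in
W meet Neg starting at x along which uu d is continuous and exceeds eps, such that uu g is monotone for every g that is
small at a point of the path together with d. At a point y of the path with uu d y = eps (intermediate value theorem)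
SW at y is contained in SW at x minus d; if it is empty take (d,y), otherwise use induction at y.
Paths. d elliptic: d y0 = c y0, K = W meet ker (d - c) contains a negative vector (ell_in_sub), x = a + b with a in K, b in W
orthogonal to K (exists_perp_neg); if b = 0 choose any b in W orthogonal to K with d b different from c b (d is not scalar
on W) and start at r = 0; g commutes with d by thmZ, preserves W by hW, hence K and its orthogonal (perp_maps);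
mono_perp, unb_perp. d not elliptic: pontryagin in W gives a null eigenvector p in W, scale x so that <x,p> = -1;
small_fix_null, mono_null, unb_null. Exceptional case q = x - (NN x / 2) p an eigenvector of d: then |l| is not 1
(ell_of_two_null), small g fix both lines (small_fix_null), use CC_axis.
-/

open scoped ComplexConjugate ENNReal Topology
open MeasureTheory Filter

noncomputable section

namespace BallQ

variable {n : ℕ}

theorem SW_finite {Γ : Subgroup (GG n)} (hΓ : Proper Γ) (W : Submodule ℂ (V n)) (ε : ℝ) {x : V n}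
    (hx : x ∈ Neg n) : (SW Γ W ε x).Finite := by
  refine (hΓ.fin_two hx hx ((1 + √ε) ^ 2)).subset fun g hg => ⟨hg.1, ?_⟩
  refine (CC_le_of_uu (hΓ.isom g hg.1) hx).trans ?_
  have h1 : √(uu (g : Op n) x) ≤ √ε := Real.sqrt_le_sqrt hg.2.1.le
  have h2 : 0 ≤ √(uu (g : Op n) x) := Real.sqrt_nonneg _
  gcongr

theorem s2_path {d : Op n} (hd : IsIsom d) (γ : ℝ → V n) (hγ : Continuous γ) {t0 t1 ε : ℝ}
    (h01 : t0 ≤ t1) (hneg : ∀ t ∈ Set.Icc t0 t1, γ t ∈ Neg n) (h0 : uu d (γ t0) ≤ ε)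
    (h1 : (ε - kappa d) / 4 + 1 ≤ CC (γ t1) (d (γ t1))) :
    ∃ t ∈ Set.Icc t0 t1, uu d (γ t) = ε := by
  have hc : ContinuousOn (fun t => uu d (γ t)) (Set.Icc t0 t1) :=
    (continuousOn_uu hd).comp hγ.continuousOn hneg
  have h2 : ε ≤ uu d (γ t1) := by
    unfold uu
    linarith
  exact intermediate_value_Icc h01 hc ⟨h0, h2⟩

theorem s2_null {v : V n} (h : NN v = 0) : form v v = 0 := by
  rw [form_self, h]
  simp

theorem s2_ell {Γ : Subgroup (GG n)} (hΓ : Proper Γ) (W : Submodule ℂ (V n)) {ε : ℝ}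
    (hε : ε ≤ eps)
    (hW : ∀ g ∈ Γ, ∀ x ∈ W, x ∈ Neg n → uu (g : Op n) x ≤ ε → ∀ v ∈ W, (g : Op n) v ∈ W)
    {x : V n} (hxW : x ∈ W) (hx : x ∈ Neg n) {d : GG n} (hd : d ∈ SW Γ W ε x)
    (hE : Ell (d : Op n)) :
    ∃ y ∈ W, y ∈ Neg n ∧ uu (d : Op n) y = ε ∧
      ∀ g ∈ Γ, uu (g : Op n) y ≤ ε → CC x ((g : Op n) x) ≤ CC y ((g : Op n) y) := by
  obtain ⟨hdΓ, hdx, hdn⟩ := hd
  have hdi := hΓ.isom d hdΓ
  have hdW := hW d hdΓ x hxW hx hdx.le
  obtain ⟨y0, hy0, c, hc⟩ := hE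
  obtain ⟨y1, hy1W, hy1, hc1⟩ := ell_in_sub W hdi hdW ⟨x, hxW, hx⟩ hy0 hc
  let K : Submodule ℂ (V n) :=
    W ⊓ LinearMap.ker (((d : Op n) - c • (1 : Op n) : Op n) : V n →ₗ[ℂ] V n)
  have hK : ∀ v, v ∈ K ↔ v ∈ W ∧ (d : Op n) v = c • v := by
    intro v
    simp only [K, Submodule.mem_inf, LinearMap.mem_ker, ContinuousLinearMap.coe_coe,
      sub_apply, smul_apply, one_apply_eq_self, sub_eq_zero]
  have hy1K : y1 ∈ K := (hK _).mpr ⟨hy1W, hc1⟩
  have hKn : ∃ z ∈ K, z ∈ Neg n := ⟨y1, hy1K, hy1⟩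
  have main : ∃ a ∈ K, a ∈ Neg n ∧ ∃ b ∈ W, (∀ u ∈ K, form b u = 0) ∧
      (d : Op n) b ≠ c • b ∧ ∃ r : ℝ, 0 ≤ r ∧ x = a + (r : ℂ) • b := by
    obtain ⟨a, haK, ha⟩ := exists_perp_neg K hKn x
    by_cases hb : (d : Op n) (x - a) = c • (x - a)
    · have hbK : x - a ∈ K := (hK _).mpr ⟨W.sub_mem hxW ((hK _).mp haK).1, hb⟩
      have hb0 : x - a = 0 := by
        by_contra h0
        have h1 := pos_of_perp_neg hy1 (ha _ hy1K) h0
        have h2 := ha _ hbK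
        rw [NN, h2] at h1
        simp at h1
      have hxa : x = a := sub_eq_zero.mp hb0
      have hv : ∃ v ∈ W, (d : Op n) v ≠ c • v := by
        by_contra h
        push Not at h
        exact hdn ⟨c, h⟩
      obtain ⟨v, hvW, hv⟩ := hv
      obtain ⟨a', ha'K, ha'⟩ := exists_perp_neg K hKn v
      refine ⟨a, haK, hxa ▸ hx, v - a', W.sub_mem hvW ((hK _).mp ha'K).1, ha', ?_, 0, le_rfl, ?_⟩
      · intro h
        apply hv
        rw [map_sub, ((hK _).mp ha'K).2, smul_sub, sub_left_inj] at h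
        exact h
      · simp [hxa]
    · refine ⟨a, haK, ?_, x - a, W.sub_mem hxW ((hK _).mp haK).1, ha, hb, 1, zero_le_one, ?_⟩
      · have h1 : NN (x - a) ≤ 0 :=
          nonpos_of_perp (ne_zero_of_mem_Neg hy1) (le_of_lt hy1) (ha _ hy1K)
        have h2 := NN_add (x - a) a
        rw [sub_add_cancel, ha _ haK] at h2
        have h3 : 0 < NN x := hx
        simp only [Complex.zero_re, mul_zero, sub_zero] at h2
        rw [mem_Neg]
        linarith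
      · simp
  obtain ⟨a, haK, ha, b, hbW, hb, hdb, r, hr, rfl⟩ := main
  have hba : form b a = 0 := hb a haK
  have hab : form a b = 0 := form_eq_zero_comm.mp hba
  obtain ⟨r', hrr, hr'n, hL⟩ := unb_perp hdi hab ha ((hK _).mp haK).2 hdb hr hx
    ((ε - kappa (d : Op n)) / 4 + 1)
  have hneg : ∀ t ∈ Set.Icc r r', a + (t : ℂ) • b ∈ Neg n := fun t ht =>
    (mono_perp isIsom_one hab hab hba (hr.trans ht.1) ht.2 hr'n ha).1
  obtain ⟨t, ht, hu⟩ := s2_path hdi (fun t : ℝ => a + (t : ℂ) • b) (by fun_prop) hrr hneg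
    hdx.le hL
  have hyW : a + (t : ℂ) • b ∈ W := W.add_mem ((hK _).mp haK).1 (W.smul_mem _ hbW)
  refine ⟨a + (t : ℂ) • b, hyW, hneg t ht, hu, fun g hg hgu => ?_⟩
  have hgi := hΓ.isom g hg
  have hcomm : Commute g d := by
    rcases thmZ hΓ (hneg t ht) (le_plus Γ hg) (le_plus Γ hdΓ) (hgu.trans hε)
      (hu.le.trans hε) with h | h
    · exact h
    · exact absurd ⟨y0, hy0, c, hc⟩ h.2.1
  have hgW := hW g hg _ hyW (hneg t ht) hgu
  have hgK : ∀ v ∈ K, (g : Op n) v ∈ K := by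
    intro v hv
    rw [hK] at hv ⊢
    refine ⟨hgW v hv.1, ?_⟩
    have h1 : (d : Op n) * (g : Op n) = (g : Op n) * (d : Op n) := by
      rw [← Units.val_mul, ← Units.val_mul, hcomm.eq]
    rw [← mul_apply_eq_comp, h1, mul_apply_eq_comp, hv.2, map_smul]
  exact (mono_perp hgi hab (form_eq_zero_comm.mp (hb _ (hgK a haK)))
    (hgi.perp_maps K hgK hb a haK) hr ht.1 (hneg t ht) ha).2

theorem s2_axis {Γ : Subgroup (GG n)} (hΓ : Proper Γ) (W : Submodule ℂ (V n)) {ε : ℝ}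
    (hε : ε ≤ eps) {d : GG n} (hdΓ : d ∈ Γ) (hE : ¬ Ell (d : Op n)) {p q : V n} (hpW : p ∈ W)
    (hqW : q ∈ W) (hp : form p p = 0) (hq : form q q = 0) (hqp : form q p = -1) {l : ℂ}
    (hl : (d : Op n) p = l • p) (hl' : (d : Op n) q = (conj l)⁻¹ • q) {h : ℝ} (hh : 0 < h)
    (hdx : uu (d : Op n) (q + (h : ℂ) • p) < ε) :
    ∃ y ∈ W, y ∈ Neg n ∧ uu (d : Op n) y = ε ∧
      ∀ g ∈ Γ, uu (g : Op n) y ≤ ε →
        CC (q + (h : ℂ) • p) ((g : Op n) (q + (h : ℂ) • p)) ≤ CC y ((g : Op n) y) := by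
  have hdi := hΓ.isom d hdΓ
  have hp0 : p ≠ 0 := by
    rintro rfl
    simp at hqp
  have hq0 : q ≠ 0 := by
    rintro rfl
    simp at hqp
  have hl0 : l ≠ 0 := by
    rintro rfl
    apply hp0
    apply hdi.injective
    rw [hl, zero_smul, map_zero]
  have hl1 : ‖l‖ ≠ 1 := by
    intro h1
    apply hE
    have h2 : (conj l)⁻¹ = l := by
      refine (eq_inv_of_mul_eq_one_left ?_).symm
      rw [Complex.mul_conj, Complex.normSq_eq_norm_sq, h1]
      simp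
    rw [h2] at hl'
    refine ell_of_two_null hp0 hp hq ?_ hl hl'
    intro e he
    rw [he, form_smul_left, hp] at hqp
    simp at hqp
  have hlp : 0 < ‖l‖ := norm_pos_iff.mpr hl0
  have hne : ‖l‖ - ‖l‖⁻¹ ≠ 0 := by
    intro h0
    apply hl1
    have h1 : ‖l‖ * ‖l‖ = 1 := by
      have := sub_eq_zero.mp h0
      nth_rewrite 2 [this]
      exact mul_inv_cancel₀ hlp.ne'
    nlinarith
  have hD : 0 < (‖l‖ - ‖l‖⁻¹) ^ 2 / (4 * h ^ 2) := by positivity
  obtain ⟨s1, hs1, hL⟩ : ∃ s1 : ℝ, 0 ≤ s1 ∧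
      (ε - kappa (d : Op n)) / 4 + 1 ≤ s1 ^ 2 * (‖l‖ - ‖l‖⁻¹) ^ 2 / (4 * h ^ 2) := by
    refine ⟨√(|(ε - kappa (d : Op n)) / 4 + 1| / ((‖l‖ - ‖l‖⁻¹) ^ 2 / (4 * h ^ 2))),
      Real.sqrt_nonneg _, ?_⟩
    rw [Real.sq_sqrt (by positivity), mul_div_assoc, div_mul_cancel₀ _ hD.ne']
    exact le_abs_self _
  have h0 : q + ((h : ℂ) + Complex.I * (0 : ℝ)) • p = q + (h : ℂ) • p := by simp
  have hneg : ∀ s : ℝ, q + ((h : ℂ) + Complex.I * s) • p ∈ Neg n := fun s =>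
    (CC_axis hdi hp hq hqp hl hl' hh s).1
  obtain ⟨s, hs, hu⟩ := s2_path (ε := ε) hdi (fun s : ℝ => q + ((h : ℂ) + Complex.I * s) • p)
    (by fun_prop) hs1 (fun s _ => hneg s) (by rw [h0]; exact hdx.le) (by
      rw [(CC_axis hdi hp hq hqp hl hl' hh s1).2]
      have := sq_nonneg ((‖l‖ + ‖l‖⁻¹) / 2)
      linarith)
  refine ⟨_, W.add_mem hqW (W.smul_mem _ hpW), hneg s, hu, fun g hg hgu => ?_⟩
  have hgi := hΓ.isom g hg
  obtain ⟨a, ha⟩ := small_fix_null hΓ (hneg s) (le_plus Γ hg) (le_plus Γ hdΓ) (hgu.trans hε)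
    (hu.le.trans hε) hE hp0 hp hl
  obtain ⟨a', ha'⟩ := small_fix_null hΓ (hneg s) (le_plus Γ hg) (le_plus Γ hdΓ) (hgu.trans hε)
    (hu.le.trans hε) hE hq0 hq hl'
  rw [← h0, (CC_axis hgi hp hq hqp ha ha' hh 0).2, (CC_axis hgi hp hq hqp ha ha' hh s).2]
  have : 0 ≤ s ^ 2 * (‖a‖ - ‖a‖⁻¹) ^ 2 / (4 * h ^ 2) := by positivity
  simp only [ne_eq, OfNat.ofNat_ne_zero, not_false_eq_true, zero_pow, zero_mul, zero_div,
    add_zero]
  linarith

theorem s2_nonell {Γ : Subgroup (GG n)} (hΓ : Proper Γ) (W : Submodule ℂ (V n)) {ε : ℝ}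
    (hε : ε ≤ eps)
    (hW : ∀ g ∈ Γ, ∀ x ∈ W, x ∈ Neg n → uu (g : Op n) x ≤ ε → ∀ v ∈ W, (g : Op n) v ∈ W)
    {x : V n} (hxW : x ∈ W) (hx : x ∈ Neg n) {d : GG n} (hd : d ∈ SW Γ W ε x)
    (hE : ¬ Ell (d : Op n)) :
    ∃ y ∈ W, y ∈ Neg n ∧ uu (d : Op n) y = ε ∧
      ∀ g ∈ Γ, uu (g : Op n) y ≤ ε → CC x ((g : Op n) x) ≤ CC y ((g : Op n) y) := by
  obtain ⟨hdΓ, hdx, -⟩ := hd
  have hdi := hΓ.isom d hdΓ
  have hdW := hW d hdΓ x hxW hx hdx.le
  have hx' : 0 < NN x := hx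
  obtain ⟨p, hpW, hp0, hp, hxp, l, hl⟩ : ∃ p ∈ W, p ≠ 0 ∧ form p p = 0 ∧ form x p = -1 ∧
      ∃ l : ℂ, (d : Op n) p = l • p := by
    obtain ⟨p, hpW, hp0, hp1, l, hl⟩ := pontryagin W hdi hdW ⟨x, hxW, hx⟩
    have hp2 : NN p = 0 := by
      by_contra h
      exact hE ⟨p, lt_of_le_of_ne hp1 (Ne.symm h), l, hl⟩
    have h1 : form p x ≠ 0 := form_ne_zero_of_neg hx hp0 hp1
    refine ⟨(-(form p x)⁻¹) • p, W.smul_mem _ hpW,
      smul_ne_zero (neg_ne_zero.mpr (inv_ne_zero h1)) hp0, ?_, ?_, l, ?_⟩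
    · rw [form_smul_left, form_smul_right, s2_null hp2, mul_zero, mul_zero]
    · rw [← form_conj, form_smul_left, neg_mul, inv_mul_cancel₀ h1]
      simp
    · rw [map_smul, hl, smul_comm]
  by_cases hq : (d : Op n) (x - ((NN x / 2 : ℝ) : ℂ) • p) =
      (conj l)⁻¹ • (x - ((NN x / 2 : ℝ) : ℂ) • p)
  · have h1 : NN (x - ((NN x / 2 : ℝ) : ℂ) • p) = 0 := by
      rw [NN_sub_null hp hxp]
      ring
    have h2 : form (x - ((NN x / 2 : ℝ) : ℂ) • p) p = -1 := by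
      rw [form_sub_left, form_smul_left, hp, hxp, mul_zero, sub_zero]
    have := s2_axis hΓ W hε hdΓ hE hpW (W.sub_mem hxW (W.smul_mem _ hpW)) hp (s2_null h1) h2 hl hq
      (h := NN x / 2) (by positivity) (by rw [sub_add_cancel]; exact hdx)
    rwa [sub_add_cancel] at this
  · obtain ⟨t0, ht0, ht1, hL⟩ := unb_null hdi hx hp hxp hl hq ((ε - kappa (d : Op n)) / 4 + 1)
    have hneg : ∀ t ∈ Set.Icc 0 t0, x - (t : ℂ) • p ∈ Neg n := by
      intro t ht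
      rw [mem_Neg, NN_sub_null hp hxp]
      linarith [ht.2]
    have h0 : x - ((0 : ℝ) : ℂ) • p = x := by simp
    obtain ⟨t, ht, hu⟩ := s2_path (ε := ε) hdi (fun t : ℝ => x - (t : ℂ) • p) (by fun_prop) ht0 hneg
      (by rw [h0]; exact hdx.le) (hL t0 le_rfl ht1)
    refine ⟨_, W.sub_mem hxW (W.smul_mem _ hpW), hneg t ht, hu, fun g hg hgu => ?_⟩
    obtain ⟨a, ha⟩ := small_fix_null hΓ (hneg t ht) (le_plus Γ hg) (le_plus Γ hdΓ)
      (hgu.trans hε) (hu.le.trans hε) hE hp0 hp hl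
    have := mono_null (hΓ.isom g hg) hp hxp ha ht.1 (by linarith [ht.2])
    rwa [h0] at this

theorem s2_step {Γ : Subgroup (GG n)} (hΓ : Proper Γ) (W : Submodule ℂ (V n)) {ε : ℝ}
    (hε : ε ≤ eps)
    (hW : ∀ g ∈ Γ, ∀ x ∈ W, x ∈ Neg n → uu (g : Op n) x ≤ ε → ∀ v ∈ W, (g : Op n) v ∈ W)
    {x : V n} (hxW : x ∈ W) (hx : x ∈ Neg n) {d : GG n} (hd : d ∈ SW Γ W ε x) :
    ∃ y ∈ W, y ∈ Neg n ∧ uu (d : Op n) y = ε ∧ SW Γ W ε y ⊂ SW Γ W ε x := by
  obtain ⟨y, hyW, hy, hu, h⟩ : ∃ y ∈ W, y ∈ Neg n ∧ uu (d : Op n) y = ε ∧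
      ∀ g ∈ Γ, uu (g : Op n) y ≤ ε → CC x ((g : Op n) x) ≤ CC y ((g : Op n) y) := by
    by_cases hE : Ell (d : Op n)
    · exact s2_ell hΓ W hε hW hxW hx hd hE
    · exact s2_nonell hΓ W hε hW hxW hx hd hE
  refine ⟨y, hyW, hy, hu, fun g hg => ⟨hg.1, lt_of_le_of_lt ?_ hg.2.1, hg.2.2⟩, fun h' => ?_⟩
  · have := h g hg.1 hg.2.1.le
    unfold uu
    linarith
  · exact absurd (h' hd).2.1 (by rw [hu]; exact lt_irrefl _)

theorem visible {Γ : Subgroup (GG n)} (hΓ : Proper Γ) (W : Submodule ℂ (V n)) {ε : ℝ}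
    (hε : ε ≤ eps)
    (hW : ∀ g ∈ Γ, ∀ x ∈ W, x ∈ Neg n → uu (g : Op n) x ≤ ε → ∀ v ∈ W, (g : Op n) v ∈ W)
    {x : V n} (hxW : x ∈ W) (hx : x ∈ Neg n) (hne : (SW Γ W ε x).Nonempty) :
    ∃ d ∈ SW Γ W ε x, ∃ y ∈ W, y ∈ Neg n ∧ uu (d : Op n) y ≤ ε ∧ SW Γ W ε y = ∅ := by
  induction hk : (SW Γ W ε x).ncard using Nat.strong_induction_on generalizing x with
  | _ k ih =>
    obtain ⟨d, hd⟩ := hne
    obtain ⟨y, hyW, hy, hu, hs⟩ := s2_step hΓ W hε hW hxW hx hd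
    rcases (SW Γ W ε y).eq_empty_or_nonempty with h | h
    · exact ⟨d, hd, y, hyW, hy, hu.le, h⟩
    · obtain ⟨d', hd', h'⟩ := ih _ (hk ▸ Set.ncard_lt_ncard hs (SW_finite hΓ W ε hx)) hyW hy h rfl
      exact ⟨d', hs.1 hd', h'⟩

end BallQ
end
end

-- merged part: Pool.Agent.Work.MP_72250f_ag.S4a
section
/-!
Elliptic elements are not arbitrarily close to scalars. hT says that thick parts are cocompact.
kappa_par: the elements g of plus Gamma with g p = p, a negative fixed vector (eig_eq_of_neg) and kappa < eps pairwise commute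
(both are small at x + t p for large t by tendsto_CC_up; thmZ). Choose a finite set D of them whose common fixed space
has minimal dimension; by common_fix it contains a negative y, fixed by all of them; fin_plus_fix.
kappa_sub: strong induction on the dimension of W = common fixed space of D. Elements small at a point x of W commute
with D (uu d x = kappa d < eps, thmZ) and preserve W. Elements scalar on W fix a given negative vector of W, so they are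
finitely many (fin_two) and give a bound k1 > 0 (kappa = uu > 0 at the fixed vector). Let g have an eigenvector x in W
meet Neg, kappa g < eps, not scalar on W. visible gives d small at x, y in W with SW empty, so y is in Thick (min eps k1),
where for elements scalar on W uu at y is kappa. Move y into the compact set by gamma in Gamma: gamma d gamma^-1 lies in a finite
set (fin_uu), and so do the conjugates of the elements of D (fin_plus_fix). g commutes with d (thmZ at x).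
d elliptic: normalise d to fix a negative vector of W, g has a negative eigenvector in the smaller space (ell_in_sub), apply
the induction hypothesis to the finitely many conjugated sets D + d. d with null eigenvector of unit eigenvalue: g fixes
the line (fix_of_commute), kappa_par for the finitely many conjugates. d loxodromic: g fixes p and q with the eigenvalue of x
(eig_eq_of_neg), hence fixes q + p; finitely many conjugates, fin_two.
-/

open scoped ComplexConjugate ENNReal Topology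
open MeasureTheory Filter

noncomputable section

namespace BallQ

variable {n : ℕ}

theorem s4a_comm {Γ : Subgroup (GG n)} (hΓ : Proper Γ) {p : V n} (hp0 : p ≠ 0)
    (hp : form p p = 0) {g d : GG n} (hg : g ∈ plus Γ) (hd : d ∈ plus Γ) (hE : Ell (g : Op n))
    (hgp : (g : Op n) p = p) (hdp : (d : Op n) p = p) (h1 : kappa (g : Op n) < eps)
    (h2 : kappa (d : Op n) < eps) : Commute g d := by
  have hN : NN p = 0 := z3_NN hp
  have h0 : form (oo n) p ≠ 0 := fun h =>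
    form_ne_zero_of_neg oo_mem_Neg hp0 hN.ge (form_eq_zero_comm.1 h)
  have hx : form ((-(form (oo n) p)⁻¹) • oo n) p = -1 := by
    rw [form_smul_left, neg_mul, inv_mul_cancel₀ h0]
  have hxN : (-(form (oo n) p)⁻¹) • oo n ∈ Neg n :=
    smul_mem_Neg (neg_ne_zero.2 (inv_ne_zero h0)) oo_mem_Neg
  generalize (-(form (oo n) p)⁻¹) • oo n = x at hx hxN
  have key : ∀ h ∈ plus Γ, (h : Op n) p = p → kappa (h : Op n) < eps →
      ∀ᶠ t : ℝ in atTop, uu (h : Op n) (x + (t : ℂ) • p) ≤ eps := fun h hh hhp hk => by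
    have h3 := tendsto_CC_up (InP.isIsom hΓ hh) hp hx norm_one (hhp.trans (one_smul _ _).symm)
    filter_upwards [h3.eventually_le_const (show 1 < 1 + (eps - kappa (h : Op n)) / 4 by linarith)]
      with t ht
    rw [uu]
    linarith
  obtain ⟨t, ⟨h3, h4⟩, ht⟩ :=
    (((key g hg hgp h1).and (key d hd hdp h2)).and (eventually_ge_atTop 0)).exists
  have h5 : x + (t : ℂ) • p ∈ Neg n := by
    have := NN_sub_null hp hx (-t)
    rw [Complex.ofReal_neg, neg_smul, sub_neg_eq_add] at this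
    rw [mem_Neg] at hxN ⊢
    linarith
  exact (thmZ hΓ h5 hg hd h3 h4).resolve_right fun h => h.1 hE

theorem s4a_fix {S : Set (GG n)} (hS : ∀ d ∈ S, IsIsom (d : Op n))
    (hc : ∀ d ∈ S, ∀ d' ∈ S, Commute d d') (hf : ∀ d ∈ S, ∃ y ∈ Neg n, (d : Op n) y = y) :
    ∃ y ∈ Neg n, ∀ d ∈ S, (d : Op n) y = y := by
  classical
  let F : Finset (GG n) → Submodule ℂ (V n) := fun D =>
    ⨅ d ∈ D, LinearMap.eqLocus ((d : Op n) : V n →ₗ[ℂ] V n) LinearMap.id
  have hF : ∀ D v, v ∈ F D ↔ ∀ d ∈ D, (d : Op n) v = v := fun D v => by simp [F]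
  obtain ⟨_, ⟨D, hD, rfl⟩, hmin⟩ := wellFounded_lt.has_min (F '' {D | ↑D ⊆ S})
    ⟨_, ∅, by simp, rfl⟩
  obtain ⟨y, hy, h⟩ := common_fix D (fun d hd => hS d (hD hd))
    (fun d hd d' hd' => hc d (hD hd) d' (hD hd')) fun d hd => hf d (hD hd)
  refine ⟨y, hy, fun d hd => ?_⟩
  have h1 : F (insert d D) ≤ F D := fun v hv =>
    (hF _ _).2 fun e he => (hF _ _).1 hv e (Finset.mem_insert_of_mem he)
  have h2 := h1.eq_of_not_lt (hmin _ ⟨insert d D, by
    simpa [Set.insert_subset_iff, hd] using hD, rfl⟩)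
  exact (hF _ _).1 (h2.ge ((hF _ _).2 h)) d (Finset.mem_insert_self _ _)

theorem kappa_par {Γ : Subgroup (GG n)} (hΓ : Proper Γ) {p : V n} (hp0 : p ≠ 0)
    (hp : form p p = 0) : ∃ κ : ℝ, 0 < κ ∧ ∀ g ∈ Γ, Ell (g : Op n) → ¬ IsScalar (g : Op n) →
      (∃ c : ℂ, (g : Op n) p = c • p) → κ ≤ kappa (g : Op n) := by
  let S : Set (GG n) := {g | g ∈ plus Γ ∧ (g : Op n) p = p ∧ (∃ y ∈ Neg n, (g : Op n) y = y) ∧
    kappa (g : Op n) < eps}
  obtain ⟨y, hy, h⟩ := s4a_fix (S := S) (fun d hd => InP.isIsom hΓ hd.1)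
    (fun g hg d hd => s4a_comm hΓ hp0 hp hg.1 hd.1
      (hg.2.2.1.imp fun y hy => ⟨hy.1, 1, hy.2.trans (one_smul _ _).symm⟩) hg.2.1 hd.2.1 hg.2.2.2
        hd.2.2.2) fun d hd => hd.2.2.1
  have hfin : {g ∈ S | ¬ IsScalar (g : Op n)}.Finite :=
    (hΓ.fin_plus_fix (CC (oo n) y)).subset fun g hg => ⟨hg.1.1, y, hy, le_rfl, h g hg.1⟩
  have h1 : ∀ᶠ κ in 𝓝[>] (0 : ℝ), ∀ g ∈ {g ∈ S | ¬ IsScalar (g : Op n)},
      κ ≤ kappa (g : Op n) := (eventually_all_finite hfin).2 fun g hg => by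
    have hi := InP.isIsom hΓ hg.1.1
    refine nhdsWithin_le_nhds (Iic_mem_nhds ?_)
    rw [← uu_of_eig hi hy ((h g hg.1).trans (one_smul ℂ _).symm)]
    exact (uu_nonneg hi hy).lt_of_ne' (mt (isScalar_iff_uu hi hy).2 hg.2)
  have h2 : ∀ᶠ κ in 𝓝[>] (0 : ℝ), κ ≤ eps :=
    nhdsWithin_le_nhds (Iic_mem_nhds (by norm_num [eps]))
  obtain ⟨κ, ⟨h3, h4⟩, h5⟩ := ((h1.and h2).and self_mem_nhdsWithin).exists
  refine ⟨κ, h5, ?_⟩
  rintro g hg ⟨z, hz, c, hc⟩ hs ⟨c', hc'⟩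
  have hi := hΓ.isom g hg
  obtain rfl := eig_eq_of_neg hi hz hp0 (z3_NN hp).ge hc hc'
  have hc1 := eig_norm_one hi (mem_Neg.1 hz).ne' hc
  have hc2 : ‖conj c‖ = 1 := by rwa [RCLike.norm_conj]
  obtain ⟨u, hu, e⟩ := (InP.smul (le_plus Γ hg) hc2).exists_unit
  by_contra! hk
  refine not_le.2 hk ((h3 u ⟨⟨hu, ?_, ⟨z, hz, ?_⟩, ?_⟩, ?_⟩).trans_eq ?_)
  · exact e ▸ z3_fix hc1 hc'
  · exact e ▸ z3_fix hc1 hc
  · rw [e, kappa_smul hc2]
    exact hk.trans_le h4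
  · rw [e, isScalar_iff_uu (hi.smul hc2) hz, uu_smul_left hc2, ← isScalar_iff_uu hi hz]
    exact hs
  · rw [e, kappa_smul hc2]

end BallQ
end
end
end

-- merged part: Pool.Agent.Work.MP_72250f_ag.S5
section
/-!
Parabolic fixed points. no_lox: if g p = l p with |l| not 1 take q from lox_dual, x0 = q + p; replacing g by its inverse
|l| > 1; g^j x0 is a multiple of q + |l|^(2j) p, so CC x0 (g^-j d g^j x0) tends to 1 (tendsto_CC_up); these elements lie in a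
finite set (fin_two), one of them has CC = 1, so d is elliptic.
exit_point: scale x to <x,p> = -1. Going up, uu d tends to kappa d < e1, so start at a point x1 = x + s p (s = 0 if uu d x < e1) where
d is small. Finitely many nonscalar g in Gamma fixing the line of p have uu < e1 at x1; they are not elliptic (hE,
kappa_le_uu), have unit eigenvalue (no_lox), so uu g goes to infinity going down (unb_null; the exceptional case gives an
elliptic g by ell_of_two_null) monotonically. Let t be the last exit time, with exit element d'. The point x' is in Thick e1: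
an element g with uu g x' < e1 fixes the line of p (small_fix_null with d'), so it was small at x1 (mono_null) and has
exited. Move x' into the compact set by gamma; gamma d' gamma^-1 lies in a finite set (fin_uu) and determines the line
gamma p (null_unique); for each element of the finite set fix one gamma_i and replace gamma by gamma_i^-1 gamma.
-/

open scoped ComplexConjugate ENNReal Topology
open MeasureTheory Filter

noncomputable section

namespace BallQ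

variable {n : ℕ}

theorem s5_pow_apply {g : GG n} {v : V n} {l : ℂ} (h : (g : Op n) v = l • v) (j : ℕ) :
    ((g ^ j : GG n) : Op n) v = l ^ j • v := by
  induction j with
  | zero => simp
  | succ j ih =>
    rw [pow_succ, Units.val_mul, mul_apply_eq_comp, h, map_smul, ih, smul_smul, pow_succ']

theorem s5_mem_up {x p : V n} (hp : form p p = 0) (hxp : form x p = -1) (hx : x ∈ Neg n) {t : ℝ}
    (ht : 0 ≤ t) : x + (t : ℂ) • p ∈ Neg n := by
  have h := NN_sub_null hp hxp (-t)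
  have h0 : 0 < NN x := hx
  rw [Complex.ofReal_neg, neg_smul, sub_neg_eq_add] at h
  rw [mem_Neg, h]
  linarith

theorem s5_lox {Γ : Subgroup (GG n)} (hΓ : Proper Γ) {d : GG n} (hd : d ∈ Γ)
    (hE : ¬ Ell (d : Op n)) {p : V n} (hp0 : p ≠ 0) (hp : form p p = 0) {b : ℂ} (hb : ‖b‖ = 1)
    (hdp : (d : Op n) p = b • p) {g : GG n} (hg : g ∈ Γ) {l : ℂ}
    (hl : (g : Op n) p = l • p) (h1 : 1 < ‖l‖) : False := by
  obtain ⟨q, hq, hqp, hgq⟩ := lox_dual (hΓ.isom g hg) hp0 h1.ne' hl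
  have hl0 : conj l ≠ 0 := by
    rw [← norm_pos_iff, Complex.norm_conj]
    linarith
  have hxp : form (q + p) p = -1 := by rw [form_add_left, hqp, hp, add_zero]
  have hx : q + p ∈ Neg n := by
    rw [mem_Neg, NN_add, hqp]
    simp [NN, hq, hp]
  have h2 : 1 < ‖l‖ ^ 2 := one_lt_pow₀ h1 two_ne_zero
  have ht : Tendsto (fun j : ℕ => (‖l‖ ^ 2) ^ j - 1) atTop atTop :=
    tendsto_atTop_add_const_right _ (-1) (tendsto_pow_atTop_atTop_of_one_lt h2)
  have hlim := (tendsto_CC_up (hΓ.isom d hd) hp hxp hb hdp).comp ht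
  have hpow : ∀ j : ℕ, ((g ^ j : GG n) : Op n) (q + p) =
      (conj l)⁻¹ ^ j • (q + p + (((‖l‖ ^ 2) ^ j - 1 : ℝ) : ℂ) • p) := fun j => by
    have e : l ^ j = (conj l)⁻¹ ^ j * ((‖l‖ : ℂ) ^ 2) ^ j := by
      rw [← mul_pow, ← Complex.conj_mul', inv_mul_cancel_left₀ hl0]
    rw [map_add, s5_pow_apply hgq, s5_pow_apply hl, e]
    push_cast
    module
  have hCC : ∀ j : ℕ, CC (q + p) ((((g ^ j)⁻¹ * d * g ^ j : GG n) : Op n) (q + p)) =
      CC (q + p + (((‖l‖ ^ 2) ^ j - 1 : ℝ) : ℂ) • p)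
        ((d : Op n) (q + p + (((‖l‖ ^ 2) ^ j - 1 : ℝ) : ℂ) • p)) := fun j => by
    have h0 : (conj l)⁻¹ ^ j ≠ 0 := pow_ne_zero _ (inv_ne_zero hl0)
    rw [← (hΓ.isom _ (Γ.pow_mem hg j)).CC_apply, Units.val_mul, Units.val_mul, mul_apply_eq_comp,
      mul_apply_eq_comp, apply_inv_apply, hpow, map_smul, CC_smul_left h0, CC_smul_right h0]
  have hfin := ((hΓ.fin_two hx hx 2).image fun e : GG n => CC (q + p) ((e : Op n) (q + p))).subset
    (Set.sdiff_subset (t := {1}))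
  have h3 := hlim.eventually (hfin.isClosed.isOpen_compl.mem_nhds fun h => h.2 rfl)
  have h4 := hlim.eventually (Iic_mem_nhds (show (1 : ℝ) < 2 by norm_num))
  obtain ⟨j, h5, h6⟩ := (h3.and h4).exists
  have hy := s5_mem_up hp hxp hx (t := (‖l‖ ^ 2) ^ j - 1) (sub_nonneg.2 (one_le_pow₀ h2.le))
  refine hE ⟨_, hy, eq_smul_of_CC hy ((hΓ.isom d hd).mem_Neg.2 hy) (le_of_eq ?_)⟩
  by_contra h7
  refine h5 ⟨⟨(g ^ j)⁻¹ * d * g ^ j, ⟨?_, ?_⟩, hCC j⟩, h7⟩
  · exact Γ.mul_mem (Γ.mul_mem (Γ.inv_mem (Γ.pow_mem hg j)) hd) (Γ.pow_mem hg j)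
  · rw [hCC j]
    exact h6

theorem no_lox {Γ : Subgroup (GG n)} (hΓ : Proper Γ) {d : GG n} (hd : d ∈ plus Γ)
    (hE : ¬ Ell (d : Op n)) {p : V n} (hp0 : p ≠ 0) (hp : form p p = 0) {b : ℂ} (hb : ‖b‖ = 1)
    (hdp : (d : Op n) p = b • p) {g : GG n} (hg : g ∈ plus Γ) {l : ℂ}
    (hl : (g : Op n) p = l • p) : ‖l‖ = 1 := by
  obtain ⟨c, hc, δ, hδ, e⟩ := hd
  obtain ⟨c', hc', γ, hγ, e'⟩ := hg
  have hc0 : c ≠ 0 := by
    rintro rfl
    simp at hc
  have hc0' : c' ≠ 0 := by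
    rintro rfl
    simp at hc'
  have hE' : ¬ Ell (δ : Op n) := fun ⟨y, hy, a, ha⟩ =>
    hE ⟨y, hy, c * a, by rw [e, smul_apply, ha, smul_smul]⟩
  have h1 : (δ : Op n) p = (c⁻¹ * b) • p := by
    rw [← smul_smul, ← hdp, e, smul_apply, inv_smul_smul₀ hc0]
  have h2 : (γ : Op n) p = (c'⁻¹ * l) • p := by
    rw [← smul_smul, ← hl, e', smul_apply, inv_smul_smul₀ hc0']
  have h3 : ‖c⁻¹ * b‖ = 1 := by simp [hc, hb]
  have h4 : ‖c'⁻¹ * l‖ = ‖l‖ := by simp [hc']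
  rw [← h4]
  generalize c'⁻¹ * l = m at h2
  have hm : m ≠ 0 := by
    rintro rfl
    rw [zero_smul] at h2
    exact hp0 ((hΓ.isom γ hγ).injective (h2.trans (map_zero _).symm))
  rcases lt_trichotomy ‖m‖ 1 with h | h | h
  · refine (s5_lox hΓ hδ hE' hp0 hp h3 h1 (Γ.inv_mem hγ) (l := m⁻¹) ?_ ?_).elim
    · rw [eq_inv_smul_iff₀ hm, ← map_smul, ← h2, inv_apply_apply]
    · rw [norm_inv]
      exact (one_lt_inv₀ (norm_pos_iff.2 hm)).2 h
  · exact h
  · exact (s5_lox hΓ hδ hE' hp0 hp h3 h1 hγ h2 h).elim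

theorem s5_mem_down {x p : V n} (hp : form p p = 0) (hxp : form x p = -1) {t : ℝ}
    (ht : 2 * t < NN x) : x - (t : ℂ) • p ∈ Neg n := by
  rw [mem_Neg, NN_sub_null hp hxp]
  linarith

theorem s5_mono {g : Op n} (hg : IsIsom g) {x p : V n} (hp : form p p = 0)
    (hxp : form x p = -1) {l : ℂ} (hl : g p = l • p) {t t' : ℝ} (htt : t ≤ t')
    (ht : 2 * t' < NN x) : uu g (x - (t : ℂ) • p) ≤ uu g (x - (t' : ℂ) • p) := by
  have := mono_null hg hp hxp hl htt ht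
  unfold uu
  linarith

/-- The exit time of one parabolic element. -/
theorem s5_time {g : Op n} (hg : IsIsom g) (hE : ¬ Ell g) {x p : V n} (hx : x ∈ Neg n)
    (hp0 : p ≠ 0) (hp : form p p = 0) (hxp : form x p = -1) {l : ℂ} (hl1 : ‖l‖ = 1)
    (hl : g p = l • p) {ε t : ℝ} (ht : 2 * t < NN x) (hu : uu g (x - (t : ℂ) • p) < ε) :
    ∃ s : ℝ, t ≤ s ∧ 2 * s < NN x ∧ uu g (x - (s : ℂ) • p) = ε := by
  have hne : g (x - ((NN x / 2 : ℝ) : ℂ) • p) ≠
      (conj l)⁻¹ • (x - ((NN x / 2 : ℝ) : ℂ) • p) := fun h => by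
    have e : (conj l)⁻¹ = l := by
      refine inv_eq_of_mul_eq_one_right ?_
      rw [Complex.conj_mul', hl1]
      simp
    rw [e] at h
    refine hE (ell_of_two_null hp0 hp ?_ (fun a ha => ?_) hl h)
    · rw [form_self, NN_sub_null hp hxp]
      push_cast
      ring
    · have h1 := congrArg (fun v => form v p) ha
      simp only [form_sub_left, form_smul_left, hp, hxp, mul_zero, sub_zero] at h1
      simp at h1
  obtain ⟨t0, -, h1, h2⟩ := unb_null hg hx hp hxp hl hne (1 + (ε - kappa g) / 4)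
  have h3 : 2 * max t0 t < NN x := by
    rcases max_choice t0 t with e | e <;> rwa [e]
  have h4 : ε ≤ uu g (x - ((max t0 t : ℝ) : ℂ) • p) := by
    have := h2 _ (le_max_left t0 t) h3
    unfold uu
    linarith
  have hc : ContinuousOn (fun s : ℝ => uu g (x - (s : ℂ) • p)) (Set.Icc t (max t0 t)) := by
    refine (continuousOn_uu hg).comp (Continuous.continuousOn ?_) fun s hs =>
      s5_mem_down hp hxp (by linarith [hs.2])
    fun_prop
  obtain ⟨s, hs, e⟩ := intermediate_value_Icc (le_max_right t0 t) hc ⟨hu.le, h4⟩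
  exact ⟨s, hs.1, by linarith [hs.2], e⟩

/-- The last exit point lies in the thick part. -/
theorem s5_exit {Γ : Subgroup (GG n)} (hΓ : Proper Γ) {ε : ℝ} (hε : ε ≤ eps)
    (hE : ∀ g ∈ Γ, Ell (g : Op n) → ¬ IsScalar (g : Op n) → ε ≤ kappa (g : Op n))
    {d : GG n} (hd : d ∈ Γ) (hdE : ¬ Ell (d : Op n)) (hdk : kappa (d : Op n) < ε) {p : V n}
    (hp0 : p ≠ 0) (hp : form p p = 0) {b : ℂ} (hb : ‖b‖ = 1) (hdp : (d : Op n) p = b • p)
    {x : V n} (hx : x ∈ Neg n) (hxp : form x p = -1) :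
    ∃ t : ℝ, 2 * t < NN x ∧ (uu (d : Op n) x < ε → 0 ≤ t) ∧ x - (t : ℂ) • p ∈ Thick Γ ε ∧
      ∃ d' ∈ Γ, ¬ Ell (d' : Op n) ∧ (∃ b' : ℂ, ‖b'‖ = 1 ∧ (d' : Op n) p = b' • p) ∧
        uu (d' : Op n) (x - (t : ℂ) • p) ≤ ε := by
  have hx0 : 0 < NN x := hx
  obtain ⟨t1, h1, h2, h3⟩ : ∃ t1 : ℝ, 2 * t1 < NN x ∧ (uu (d : Op n) x < ε → 0 ≤ t1) ∧
      uu (d : Op n) (x - (t1 : ℂ) • p) < ε := by
    by_cases h : uu (d : Op n) x < ε
    · exact ⟨0, by linarith, fun _ => le_rfl, by simpa using h⟩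
    · have h4 := (tendsto_CC_up (hΓ.isom d hd) hp hxp hb hdp).eventually
        (Iio_mem_nhds (show (1 : ℝ) < 1 + (ε - kappa (d : Op n)) / 4 by linarith))
      obtain ⟨s, h5, h6⟩ := (h4.and (eventually_ge_atTop 0)).exists
      refine ⟨-s, by linarith, fun h' => (h h').elim, ?_⟩
      rw [Complex.ofReal_neg, neg_smul, sub_neg_eq_add]
      have h7 : CC (x + (s : ℂ) • p) ((d : Op n) (x + (s : ℂ) • p)) <
        1 + (ε - kappa (d : Op n)) / 4 := h5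
      unfold uu
      linarith
  have hx1 := s5_mem_down hp hxp h1
  let S : Set (GG n) := {g | g ∈ Γ ∧ ¬ IsScalar (g : Op n) ∧ (∃ a : ℂ, (g : Op n) p = a • p) ∧
    uu (g : Op n) (x - (t1 : ℂ) • p) < ε}
  have hS : S.Finite := (hΓ.fin_uu (CC (oo n) (x - (t1 : ℂ) • p)) ε).subset
    fun g hg => ⟨hg.1, _, hx1, le_rfl, hg.2.2.2.le⟩
  have hdS : d ∈ S := ⟨hd, fun ⟨c, hc⟩ => hdE ⟨oo n, oo_mem_Neg, c, by rw [hc]; rfl⟩, ⟨b, hdp⟩, h3⟩
  have hSE : ∀ g ∈ S, ¬ Ell (g : Op n) := fun g hg h =>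
    (((hE g hg.1 h hg.2.1).trans (kappa_le_uu (hΓ.isom g hg.1) hx1)).trans_lt hg.2.2.2).false
  have hS1 : ∀ g ∈ S, ∃ a : ℂ, ‖a‖ = 1 ∧ (g : Op n) p = a • p := fun g hg => by
    obtain ⟨a, ha⟩ := hg.2.2.1
    exact ⟨a, no_lox hΓ (le_plus Γ hd) hdE hp0 hp hb hdp (le_plus Γ hg.1) ha, ha⟩
  have hτ : ∀ g : GG n, ∃ s : ℝ, g ∈ S →
      t1 ≤ s ∧ 2 * s < NN x ∧ uu (g : Op n) (x - (s : ℂ) • p) = ε := fun g => by
    by_cases hg : g ∈ S
    · obtain ⟨a, ha, ha'⟩ := hS1 g hg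
      obtain ⟨s, hs⟩ := s5_time (hΓ.isom g hg.1) (hSE g hg) hx hp0 hp hxp ha ha' h1 hg.2.2.2
      exact ⟨s, fun _ => hs⟩
    · exact ⟨0, fun h => (hg h).elim⟩
  choose τ hτ using hτ
  obtain ⟨d', hd', hmax⟩ := Set.exists_max_image S τ hS ⟨d, hdS⟩
  obtain ⟨h4, h5, h6⟩ := hτ d' hd'
  have hx2 := s5_mem_down hp hxp h5
  refine ⟨τ d', h5, fun h => (h2 h).trans h4, ⟨hx2, fun g hg hs => ?_⟩, d', hd'.1, hSE d' hd',
    hS1 d' hd', h6.le⟩
  by_contra h7
  rw [not_le] at h7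
  obtain ⟨b', hb'⟩ := hd'.2.2.1
  obtain ⟨a, ha⟩ := small_fix_null hΓ hx2 (le_plus Γ hg) (le_plus Γ hd'.1) (h7.le.trans hε)
    (h6.le.trans hε) (hSE d' hd') hp0 hp hb'
  have hgS : g ∈ S := ⟨hg, hs, ⟨a, ha⟩, (s5_mono (hΓ.isom g hg) hp hxp ha h4 h5).trans_lt h7⟩
  have h8 := s5_mono (hΓ.isom g hg) hp hxp ha (hmax g hgS) h5
  rw [(hτ g hgS).2.2] at h8
  exact (h8.trans_lt h7).false

theorem exit_point {Γ : Subgroup (GG n)} (hΓ : Proper Γ) {ε : ℝ} (hε0 : 0 < ε) (hε : ε ≤ eps)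
    (hT : Cocpt Γ (Thick Γ ε))
    (hE : ∀ g ∈ Γ, Ell (g : Op n) → ¬ IsScalar (g : Op n) → ε ≤ kappa (g : Op n))
    {d : GG n} (hd : d ∈ Γ) (hdE : ¬ Ell (d : Op n)) (hdk : kappa (d : Op n) < ε) {p : V n}
    (hp0 : p ≠ 0) (hp : form p p = 0) {b : ℂ} (hb : ‖b‖ = 1) (hdp : (d : Op n) p = b • p) :
    ∃ R : ℝ, ∀ x ∈ Neg n, form x p = -1 → ∃ t : ℝ, 2 * t < NN x ∧
      (uu (d : Op n) x < ε → 0 ≤ t) ∧ ∃ g ∈ Γ, (∃ c : ℂ, ‖c‖ = 1 ∧ (g : Op n) p = c • p) ∧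
        CC (oo n) ((g : Op n) (x - (t : ℂ) • p)) ≤ R := by
  obtain ⟨R0, hR0⟩ := hT
  have hch : ∀ e : GG n, ∃ γ ∈ Γ, (∃ γ' ∈ Γ, ∃ a : ℂ, ‖a‖ = 1 ∧
      (e : Op n) ((γ' : Op n) p) = a • (γ' : Op n) p) →
      ∃ a : ℂ, ‖a‖ = 1 ∧ (e : Op n) ((γ : Op n) p) = a • (γ : Op n) p := fun e => by
    by_cases h : ∃ γ' ∈ Γ, ∃ a : ℂ, ‖a‖ = 1 ∧ (e : Op n) ((γ' : Op n) p) = a • (γ' : Op n) p
    · obtain ⟨γ', h1, h2⟩ := h
      exact ⟨γ', h1, fun _ => h2⟩
    · exact ⟨1, Γ.one_mem, fun h' => (h h').elim⟩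
  choose γ hγ hγ' using hch
  obtain ⟨M, hM⟩ := ((hΓ.fin_uu R0 ε).image
    fun e : GG n => CC ((γ e : Op n) (oo n)) (oo n)).bddAbove
  refine ⟨4 * M * R0, fun x hx hxp => ?_⟩
  obtain ⟨t, h1, h2, h3, d', hd', hE', ⟨b', hb', hdp'⟩, h4⟩ :=
    s5_exit hΓ hε hE hd hdE hdk hp0 hp hb hdp hx hxp
  obtain ⟨δ, hδ, h5⟩ := hR0 _ h3
  have hδi := hΓ.isom δ hδ
  have hy : (δ : Op n) (x - (t : ℂ) • p) ∈ Neg n := hδi.mem_Neg.2 h3.1
  obtain ⟨e, he⟩ : ∃ e : GG n, e = δ * d' * δ⁻¹ := ⟨_, rfl⟩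
  have he1 : e ∈ Γ := he ▸ Γ.mul_mem (Γ.mul_mem hδ hd') (Γ.inv_mem hδ)
  have he2 : (e : Op n) = cnj δ (d' : Op n) := by rw [he]; rfl
  have he3 : ¬ Ell (e : Op n) := fun ⟨y, hy, a, ha⟩ => by
    refine hE' ⟨((δ⁻¹ : GG n) : Op n) y, hδi.inv.mem_Neg.2 hy, a, ?_⟩
    rw [← map_smul, ← ha, he2, cnj_apply, inv_apply_apply]
  have he4 : (e : Op n) ((δ : Op n) p) = b' • (δ : Op n) p := by
    rw [he2, cnj_apply, inv_apply_apply, hdp', map_smul]
  have h6 : CC ((γ e : Op n) (oo n)) (oo n) ≤ M :=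
    hM ⟨e, ⟨he1, _, hy, h5, by rwa [he2, uu_cnj hδi]⟩, rfl⟩
  obtain ⟨a, ha, ha'⟩ := hγ' e ⟨δ, hδ, b', hb', he4⟩
  have hγi := hΓ.isom _ (hγ e)
  obtain ⟨c, hc⟩ := null_unique (hΓ.isom e he1) he3
    (fun h => hp0 (hγi.injective (h.trans (map_zero _).symm))) ((hγi p p).trans hp)
    ((hδi p p).trans hp) ha ha' he4
  have hmem : (γ e)⁻¹ * δ ∈ Γ := Γ.mul_mem (Γ.inv_mem (hγ e)) hδ
  have h7 : (((γ e)⁻¹ * δ : GG n) : Op n) p = c • p := by
    rw [Units.val_mul, mul_apply_eq_comp, hc, map_smul, inv_apply_apply]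
  refine ⟨t, h1, h2, (γ e)⁻¹ * δ, hmem,
    ⟨c, no_lox hΓ (le_plus Γ hd) hdE hp0 hp hb hdp (le_plus Γ hmem) h7, h7⟩, ?_⟩
  have hz : (γ e : Op n) (oo n) ∈ Neg n := hγi.mem_Neg.2 oo_mem_Neg
  rw [← hγi.CC_apply, Units.val_mul, mul_apply_eq_comp, apply_inv_apply]
  refine (CC_tri hz oo_mem_Neg hy).trans ?_
  have h8 := one_le_CC hz oo_mem_Neg
  have h9 := one_le_CC oo_mem_Neg hy
  exact mul_le_mul (by linarith) h5 (by linarith) (by linarith)

end BallQ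
end
end
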