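import Pool.Agent.Work.MP_72250f_ag.C5a
import Pool.Agent.Work.MP_72250f_ag.S5
import Pool.Agent.Work.MP_72250f_ag.Z2

-- merged part: Pool.Agent.Work.MP_72250f_ag.C2_1
section
/-!
Helper file for C2: a generator with small `mu` at a point has a flow which is the sum of the
identity, an operator of bounded rank and an operator of small Hilbert-Schmidt norm.
-/

open scoped ComplexConjugate ENNReal Topology
open MeasureTheory Filter

noncomputable section

namespace BallQ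

variable {n : ℕ}

theorem c2_hs_flow (F : Frame n) : hs (flow F.op 1 - 1) ≤
    4 * Real.pi ^ 2 * ∑ i, F.w i ^ 2 + 4 * ((1 + 2 * Real.pi * mu F.op (oo n)) ^ 2 - 1) := by
  have hG : IsGen F.op := ⟨F, rfl⟩
  rw [hs_sub_one hG.isIsom_flow_one]
  have h1 := hG.CC_flow_le (oo_mem_Neg (n := n))
  have h2 : (tr (flow F.op 1)).re = (n : ℝ) + 1 + ∑ i, (Real.cos (2 * Real.pi * F.w i) - 1) := by
    rw [F.flow_eq, tr_add, tr_add, tr_sum, tr_smul, tr_rk1, F.pp, tr_one]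
    simp only [tr_smul, tr_rk1, F.on, if_true, mul_one, mul_zero, add_zero, Complex.add_re,
      Complex.natCast_re, Complex.one_re, Complex.re_sum, Complex.sub_re]
    congr 1
    refine Finset.sum_congr rfl fun i _ => ?_
    have : (2 * Real.pi * Complex.I * F.w i : ℂ) = ((2 * Real.pi * F.w i : ℝ) : ℂ) * Complex.I := by
      push_cast
      ring
    rw [this, Complex.exp_ofReal_mul_I_re]
  have h3 : ∑ i, (1 - Real.cos (2 * Real.pi * F.w i)) ≤ ∑ i, 2 * Real.pi ^ 2 * F.w i ^ 2 := by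
    refine Finset.sum_le_sum fun i _ => ?_
    have := Real.one_sub_sq_div_two_le_cos (x := 2 * Real.pi * F.w i)
    linarith only [this]
  have h4 : ∑ i, (Real.cos (2 * Real.pi * F.w i) - 1) =
      -∑ i, (1 - Real.cos (2 * Real.pi * F.w i)) := by
    rw [← Finset.sum_neg_distrib]
    exact Finset.sum_congr rfl fun i _ => by ring
  rw [← Finset.mul_sum] at h3
  rw [h2, h4]
  linarith only [h1, h3]

open Classical in
/-- The part of a frame with small weights. -/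
def c2_small (F : Frame n) (a : ℝ) : Frame n :=
  { F with
    w := fun i => if F.w i < a then F.w i else 0
    w0 := fun i => by
      split_ifs
      exacts [F.w0 i, le_rfl]
    w1 := fun i => by
      split_ifs
      exacts [F.w1 i, zero_le_one] }

open Classical in
/-- The part of a frame with large weights. -/
def c2_big (F : Frame n) (a : ℝ) : Frame n :=
  { F with
    w := fun i => if F.w i < a then 0 else F.w i
    p := 0
    pp := by simp
    pe := fun i => by simp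
    w0 := fun i => by
      split_ifs
      exacts [le_rfl, F.w0 i]
    w1 := fun i => by
      split_ifs
      exacts [zero_le_one, F.w1 i] }

theorem c2_rk1_zero : rk1 (0 : V n) 0 = 0 := rk1_eq_zero.2 rfl

theorem c2_flow_split (F : Frame n) (a : ℝ) :
    flow F.op 1 - 1 - (flow (c2_big F a).op 1 - 1) = flow (c2_small F a).op 1 - 1 := by
  rw [F.flow_eq, (c2_big F a).flow_eq, (c2_small F a).flow_eq]
  have h : ∑ i, (Complex.exp (2 * Real.pi * Complex.I * 1 * F.w i) - 1) • rk1 (F.e i) (F.e i) =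
      ∑ i, (Complex.exp (2 * Real.pi * Complex.I * 1 * (c2_big F a).w i) - 1) •
        rk1 ((c2_big F a).e i) ((c2_big F a).e i) +
      ∑ i, (Complex.exp (2 * Real.pi * Complex.I * 1 * (c2_small F a).w i) - 1) •
        rk1 ((c2_small F a).e i) ((c2_small F a).e i) := by
    refine Eq.trans ?_ Finset.sum_add_distrib
    refine Finset.sum_congr rfl fun i _ => ?_
    by_cases hi : F.w i < a <;> simp [c2_big, c2_small, hi]
  have h1 : (c2_big F a).p = 0 := rfl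
  have h2 : (c2_small F a).p = F.p := rfl
  rw [h, h1, h2, c2_rk1_zero, smul_zero]
  abel

theorem c2_mu (F : Frame n) :
    mu F.op (oo n) = ∑ i, F.w i * ‖form (oo n) (F.e i)‖ ^ 2 + ‖form (oo n) F.p‖ ^ 2 := by
  rw [mu, F.form_op, NN_oo, div_one, Complex.ofReal_re]

theorem c2_mu_small (F : Frame n) (a : ℝ) : mu (c2_small F a).op (oo n) ≤ mu F.op (oo n) := by
  rw [c2_mu, c2_mu]
  refine add_le_add (Finset.sum_le_sum fun i _ => ?_) le_rfl
  refine mul_le_mul_of_nonneg_right ?_ (by positivity)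
  have := F.w0 i
  by_cases hi : F.w i < a <;> simp [c2_small, hi, this]

theorem c2_mu_big (F : Frame n) (a : ℝ) : mu (c2_big F a).op (oo n) ≤ mu F.op (oo n) := by
  rw [c2_mu, c2_mu]
  refine add_le_add (Finset.sum_le_sum fun i _ => ?_) ?_
  · refine mul_le_mul_of_nonneg_right ?_ (by positivity)
    have := F.w0 i
    by_cases hi : F.w i < a <;> simp [c2_big, hi, this]
  · have h1 : (c2_big F a).p = 0 := rfl
    rw [h1]
    simp

theorem c2_age (F : Frame n) : age F.op = ∑ i, F.w i := by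
  rw [age, F.age_eq, Complex.ofReal_re]

theorem c2_rank (F : Frame n) (r : ℕ) (hr : 0 < r) (ha : age F.op < 1) :
    Module.finrank ℂ (LinearMap.range
      ((flow (c2_big F (1 / r)).op 1 - 1 : Op n) : V n →ₗ[ℂ] V n)) ≤ r := by
  classical
  set A : Finset (Fin F.m) := Finset.univ.filter fun i => ¬ F.w i < 1 / r with hA
  have h1 : LinearMap.range ((flow (c2_big F (1 / r)).op 1 - 1 : Op n) : V n →ₗ[ℂ] V n) ≤
      Submodule.span ℂ ((A.image F.e : Finset (V n)) : Set (V n)) := by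
    rintro _ ⟨v, rfl⟩
    have h1 : (c2_big F (1 / r)).p = 0 := rfl
    rw [(c2_big F (1 / r)).flow_eq, h1, c2_rk1_zero, smul_zero, add_zero, add_sub_cancel_left]
    simp only [ContinuousLinearMap.coe_coe, sum_apply,
      smul_apply, rk1_apply]
    refine Submodule.sum_mem _ fun i _ => ?_
    by_cases hi : F.w i < 1 / r
    · have : (c2_big F (1 / r)).w i = 0 := if_pos hi
      rw [this]
      simp
    · refine Submodule.smul_mem _ _ (Submodule.smul_mem _ _ (Submodule.subset_span ?_))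
      rw [Finset.coe_image]
      exact ⟨i, by simp only [hA, Finset.coe_filter, Finset.mem_univ, true_and]; exact hi, rfl⟩
  have h2 := (Submodule.finrank_mono h1).trans
    ((finrank_span_finset_le_card (R := ℂ) (A.image F.e)).trans Finset.card_image_le)
  refine h2.trans ?_
  have hr' : (0 : ℝ) < r := by exact_mod_cast hr
  have h3 : (A.card : ℝ) * (1 / r) ≤ ∑ i, F.w i := by
    calc (A.card : ℝ) * (1 / r) = ∑ _i ∈ A, (1 / r : ℝ) := by simp
      _ ≤ ∑ i ∈ A, F.w i := Finset.sum_le_sum fun i hi => not_lt.1 (Finset.mem_filter.1 hi).2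
      _ ≤ ∑ i, F.w i :=
        Finset.sum_le_sum_of_subset_of_nonneg (Finset.subset_univ _) fun i _ _ => F.w0 i
  rw [c2_age] at ha
  have h4 : (A.card : ℝ) * (1 / r) < 1 := h3.trans_lt ha
  rw [mul_one_div, div_lt_one hr'] at h4
  exact_mod_cast h4.le

theorem c2_num {t : ℝ} (h0 : 0 ≤ t) (h1 : t ≤ 1 / 10 ^ 12) :
    (1 + 2 * Real.pi * t) ^ 2 - 1 ≤ 1 / 10 ^ 10 := by
  have hp := Real.pi_pos
  have hp' := Real.pi_lt_four
  have h2 : 0 ≤ 2 * Real.pi * t := by positivity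
  have h3 : 2 * Real.pi * t ≤ 8 / 10 ^ 12 := by linarith only [h1, h0, hp', mul_nonneg_of_nonpos_of_nonpos (Mathlib.Tactic.Linarith.sub_nonpos_of_le h0) (le_of_lt (Mathlib.Tactic.Linarith.sub_neg_of_lt hp'))]
  linarith only [h3, h2, mul_nonneg_of_nonpos_of_nonpos (Mathlib.Tactic.Linarith.sub_nonpos_of_le h2) (Mathlib.Tactic.Linarith.sub_nonpos_of_le h3)]

theorem c2_split {M : Op n} (hM : IsGen M) (ha : age M < 1) (hmu : mu M (oo n) ≤ 1 / 10 ^ 12) :
    ∃ B : Op n, Module.finrank ℂ (LinearMap.range (B : V n →ₗ[ℂ] V n)) ≤ 10 ^ 12 ∧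
      hs B ≤ 100 ∧ hs (flow M 1 - 1 - B) ≤ 1 / 10 ^ 9 := by
  obtain ⟨F, rfl⟩ := hM
  have hp := Real.pi_pos
  have hp' := Real.pi_lt_four
  have hp2 : Real.pi ^ 2 ≤ 16 := by linarith only [hp', hp, mul_pos_of_neg_of_neg (Mathlib.Tactic.Linarith.sub_neg_of_lt hp) (Mathlib.Tactic.Linarith.sub_neg_of_lt hp')]
  refine ⟨flow (c2_big F (1 / (10 ^ 12 : ℕ))).op 1 - 1, c2_rank F _ (by norm_num) ha, ?_, ?_⟩
  · refine (c2_hs_flow _).trans ?_
    have h1 := c2_num (IsGen.mu_nonneg ⟨c2_big F (1 / (10 ^ 12 : ℕ)), rfl⟩ oo_mem_Neg)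
      ((c2_mu_big F _).trans hmu)
    have h2 : ∑ i, (c2_big F (1 / (10 ^ 12 : ℕ))).w i ^ 2 ≤ ∑ i, F.w i := by
      refine Finset.sum_le_sum fun i _ => ?_
      have h0 := F.w0 i
      have h1 := F.w1 i
      by_cases hi : F.w i < 1 / (10 ^ 12 : ℕ)
      · have : (c2_big F (1 / (10 ^ 12 : ℕ))).w i = 0 := if_pos hi
        rw [this]
        simpa using h0
      · have : (c2_big F (1 / (10 ^ 12 : ℕ))).w i = F.w i := if_neg hi
        rw [this]
        clear * - n F i h0 h1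
        linarith only [h0, h1, mul_nonneg_of_nonpos_of_nonpos (Mathlib.Tactic.Linarith.sub_nonpos_of_le h0) (Mathlib.Tactic.Linarith.sub_nonpos_of_le h1)]
    rw [c2_age] at ha
    have h3 : 0 ≤ ∑ i, (c2_big F (1 / (10 ^ 12 : ℕ))).w i ^ 2 := by positivity
    clear * - n F hp2 h1 ha h2
    linarith only [hp2, h1, ha, h2, mul_nonneg_of_nonpos_of_nonpos (Mathlib.Tactic.Linarith.sub_nonpos_of_le (sq_nonneg Real.pi)) (le_of_lt (Mathlib.Tactic.Linarith.sub_neg_of_lt ha)), mul_nonneg_of_nonpos_of_nonpos (Mathlib.Tactic.Linarith.sub_nonpos_of_le (sq_nonneg Real.pi)) (Mathlib.Tactic.Linarith.sub_nonpos_of_le h2)]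
  · rw [c2_flow_split]
    refine (c2_hs_flow _).trans ?_
    have h1 := c2_num (IsGen.mu_nonneg ⟨c2_small F (1 / (10 ^ 12 : ℕ)), rfl⟩ oo_mem_Neg)
      ((c2_mu_small F _).trans hmu)
    have h2 : ∑ i, (c2_small F (1 / (10 ^ 12 : ℕ))).w i ^ 2 ≤ ∑ i, 1 / 10 ^ 12 * F.w i := by
      refine Finset.sum_le_sum fun i _ => ?_
      have h0 := F.w0 i
      by_cases hi : F.w i < 1 / (10 ^ 12 : ℕ)
      · have : (c2_small F (1 / (10 ^ 12 : ℕ))).w i = F.w i := if_pos hi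
        rw [this]
        push_cast at hi
        clear * - n F i h0 hi
        linarith only [h0, hi, mul_nonneg_of_nonpos_of_nonpos (Mathlib.Tactic.Linarith.sub_nonpos_of_le h0) (le_of_lt (Mathlib.Tactic.Linarith.sub_neg_of_lt hi))]
      · have : (c2_small F (1 / (10 ^ 12 : ℕ))).w i = 0 := if_neg hi
        rw [this]
        have : 0 ≤ 1 / 10 ^ 12 * F.w i := by positivity
        simpa using this
    rw [← Finset.mul_sum] at h2
    rw [c2_age] at ha
    have h3 : 0 ≤ ∑ i, (c2_small F (1 / (10 ^ 12 : ℕ))).w i ^ 2 := by positivity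
    clear * - n F hp2 h1 ha h2
    linarith only [hp2, h1, ha, h2, mul_nonneg_of_nonpos_of_nonpos (Mathlib.Tactic.Linarith.sub_nonpos_of_le (sq_nonneg Real.pi)) (le_of_lt (Mathlib.Tactic.Linarith.sub_neg_of_lt ha)), mul_nonneg_of_nonpos_of_nonpos (Mathlib.Tactic.Linarith.sub_nonpos_of_le (sq_nonneg Real.pi)) (Mathlib.Tactic.Linarith.sub_nonpos_of_le h2)]

theorem c2_norm {M : Op n} (hM : IsGen M) (hmu : mu M (oo n) ≤ 1 / 10 ^ 12) :
    ‖flow M (-1)‖ ^ 2 ≤ 9 := by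
  have hi : IsIsom ((flowU M 1 : GG n) : Op n) := hM.isIsom_flow_one
  have hi' : IsIsom (flow M (-1)) := hi.inv
  have h1 : CC (oo n) (flow M (-1) (oo n)) = CC (oo n) (flow M 1 (oo n)) := by
    rw [← hi.CC_apply, CC_comm]
    congr 1
    exact apply_inv_apply (flowU M 1) (oo n)
  have h2 := hM.CC_flow_le (oo_mem_Neg (n := n))
  have h3 := c2_num (hM.mu_nonneg oo_mem_Neg) hmu
  have h4 := norm_isom_le hi'
  rw [h1] at h4
  have h5 : √(CC (oo n) (flow M 1 (oo n))) ≤ 2 := Real.sqrt_le_iff.2 ⟨by norm_num, by linarith only [h2, h3]⟩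
  have h6 : √(CC (oo n) (flow M 1 (oo n)) - 1) ≤ 1 :=
    Real.sqrt_le_iff.2 ⟨by norm_num, by linarith only [h2, h3]⟩
  have h7 := norm_nonneg (flow M (-1))
  clear * - n M h4 h5 h6 h7
  linarith only [h4, h5, h6, h7, mul_nonneg_of_nonpos_of_nonpos (Mathlib.Tactic.Linarith.sub_nonpos_of_le h4) (Mathlib.Tactic.Linarith.sub_nonpos_of_le h7), mul_nonneg_of_nonpos_of_nonpos (Mathlib.Tactic.Linarith.sub_nonpos_of_le h5) (Mathlib.Tactic.Linarith.sub_nonpos_of_le h7), mul_nonneg_of_nonpos_of_nonpos (Mathlib.Tactic.Linarith.sub_nonpos_of_le h6) (Mathlib.Tactic.Linarith.sub_nonpos_of_le h7)]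

theorem c2_hs_add (S T : Op n) : hs (S + T) ≤ 2 * hs S + 2 * hs T := by
  have h := sqrt_hs_add S T
  have h1 := Real.sq_sqrt (hs_nonneg (S + T))
  have h2 := Real.sq_sqrt (hs_nonneg S)
  have h3 := Real.sq_sqrt (hs_nonneg T)
  have h4 := Real.sqrt_nonneg (hs (S + T))
  linarith only [h1, h2, h3, h, h4, sq_nonneg (√(hs S) - √(hs T)), sq_nonneg (√(hs S) - √(hs T)), mul_nonneg_of_nonpos_of_nonpos (Mathlib.Tactic.Linarith.sub_nonpos_of_le h) (Mathlib.Tactic.Linarith.sub_nonpos_of_le h), mul_nonneg_of_nonpos_of_nonpos (Mathlib.Tactic.Linarith.sub_nonpos_of_le h) (Mathlib.Tactic.Linarith.sub_nonpos_of_le h4)]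

theorem c2_hs_neg (T : Op n) : hs (-T) = hs T := by
  simp [hs]

theorem c2_close {M M' B B' t : Op n} (hM : IsGen M) (hM' : IsGen M')
    (hmu : mu M (oo n) ≤ 1 / 10 ^ 12) (h1 : hs (flow M 1 - 1 - B) ≤ 1 / 10 ^ 9)
    (h2 : hs (flow M' 1 - 1 - B') ≤ 1 / 10 ^ 9) (h3 : hs (B - t) ≤ 1 / 10 ^ 9)
    (h4 : hs (B' - t) ≤ 1 / 10 ^ 9) : uu (flow M (-1) * flow M' 1) (oo n) ≤ eps1 := by
  have hi : IsIsom ((flowU M 1 : GG n) : Op n) := hM.isIsom_flow_one
  have hi' : IsIsom (flow M (-1)) := hi.inv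
  refine (uu_le_hs (hi'.mul hM'.isIsom_flow_one)).trans ?_
  have e1 : flow M (-1) * flow M 1 = 1 := by rw [← flow_add, neg_add_cancel, flow_zero]
  have e2 : flow M (-1) * flow M' 1 - 1 = flow M (-1) *
      ((flow M' 1 - 1 - B') + (B' - t) + -((flow M 1 - 1 - B) + (B - t))) := by
    rw [← e1, ← mul_sub]
    congr 1
    rw [e1]
    abel
  rw [e2]
  refine (hs_mul_left _ _).trans ?_
  have h5 := c2_hs_add ((flow M' 1 - 1 - B') + (B' - t)) (-((flow M 1 - 1 - B) + (B - t)))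
  rw [c2_hs_neg] at h5
  have h6 := c2_hs_add (flow M' 1 - 1 - B') (B' - t)
  have h7 := c2_hs_add (flow M 1 - 1 - B) (B - t)
  have h8 := c2_norm hM hmu
  have h9 := hs_nonneg ((flow M' 1 - 1 - B') + (B' - t) + -((flow M 1 - 1 - B) + (B - t)))
  have h10 : hs ((flow M' 1 - 1 - B') + (B' - t) + -((flow M 1 - 1 - B) + (B - t))) ≤
      16 / 10 ^ 9 := by linarith only [h1, h2, h3, h4, h5, h6, h7]
  calc _ ≤ 9 * (16 / 10 ^ 9) := mul_le_mul h8 h10 h9 (by norm_num)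
    _ ≤ eps1 := by norm_num [eps1]

/-- A maximal separated finite subset is a net. -/
theorem c2_net {α : Type*} (S : Set α) (R : α → α → Prop) (hr : ∀ a, R a a)
    (hsy : ∀ a b, R a b → R b a) (N : ℕ)
    (h : ∀ T : Finset α, (∀ a ∈ T, a ∈ S) → (∀ a ∈ T, ∀ b ∈ T, a ≠ b → ¬ R a b) → T.card ≤ N) :
    ∃ T : Finset α, T.card ≤ N ∧ ∀ a ∈ S, ∃ t ∈ T, R a t := by
  classical
  by_contra hc
  push Not at hc
  have key : ∀ k : ℕ, ∃ T : Finset α, (∀ a ∈ T, a ∈ S) ∧ (∀ a ∈ T, ∀ b ∈ T, a ≠ b → ¬ R a b) ∧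
      T.card = k := by
    intro k
    induction k with
    | zero => exact ⟨∅, by simp, by simp, rfl⟩
    | succ k ih =>
      obtain ⟨T, h1, h2, h3⟩ := ih
      obtain ⟨a, ha, ha'⟩ := hc T (h T h1 h2)
      have hn : a ∉ T := fun hh => ha' a hh (hr a)
      refine ⟨insert a T, ?_, ?_, by rw [Finset.card_insert_of_notMem hn, h3]⟩
      · intro b hb
        rcases Finset.mem_insert.1 hb with rfl | hb
        exacts [ha, h1 b hb]
      · intro b hb c hc' hbc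
        rcases Finset.mem_insert.1 hb with rfl | hb1
        · rcases Finset.mem_insert.1 hc' with rfl | hc1
          exacts [absurd rfl hbc, ha' c hc1]
        · rcases Finset.mem_insert.1 hc' with rfl | hc1
          exacts [fun hh => ha' b hb1 (hsy _ _ hh), h2 b hb1 c hc1 hbc]
  obtain ⟨T, h1, h2, h3⟩ := key (N + 1)
  have := h T h1 h2
  omega

/-- Clusters at the base point. -/
theorem c2_cluster_oo : ∃ c : ℕ, ∀ n : ℕ, ∃ (T : Finset (Op n)) (k : Op n → Op n),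
    T.card ≤ c ^ (n + 1) ∧
    (∀ M, IsGen M → age M < 1 → mu M (oo n) ≤ 1 / 10 ^ 12 → k M ∈ T) ∧
    ∀ M M', IsGen M → age M < 1 → mu M (oo n) ≤ 1 / 10 ^ 12 → IsGen M' → age M' < 1 →
      mu M' (oo n) ≤ 1 / 10 ^ 12 → k M = k M' → uu (flow M (-1) * flow M' 1) (oo n) ≤ eps1 := by
  obtain ⟨c, -, hc⟩ := pack_rank (10 ^ 12) 100 (ε := 1 / 10 ^ 9) (by norm_num)
  refine ⟨c, fun n => ?_⟩
  obtain ⟨T, hT, hnet⟩ := c2_net
    {B : Op n | Module.finrank ℂ (LinearMap.range (B : V n →ₗ[ℂ] V n)) ≤ 10 ^ 12 ∧ hs B ≤ 100}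
    (fun B B' => hs (B - B') < 1 / 10 ^ 9) (fun B => by simp [hs])
    (fun B B' h => by rwa [← c2_hs_neg, neg_sub]) (c ^ (n + 1)) (fun T h1 h2 => by
      have := hc n ⊤ T (fun B hB => ⟨(h1 B hB).1, (h1 B hB).2, fun _ => trivial, fun v hv => by
        rw [Submodule.top_orthogonal_eq_bot, Submodule.mem_bot] at hv
        rw [hv, map_zero]⟩) (fun B hB B' hB' hne => not_lt.1 (h2 B hB B' hB' hne))
      rwa [finrank_top, finrank_V] at this)
  have key : ∀ M : Op n, ∃ t : Op n, IsGen M → age M < 1 → mu M (oo n) ≤ 1 / 10 ^ 12 →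
      t ∈ T ∧ ∃ B, hs (flow M 1 - 1 - B) ≤ 1 / 10 ^ 9 ∧ hs (B - t) ≤ 1 / 10 ^ 9 := by
    intro M
    by_cases h : IsGen M ∧ age M < 1 ∧ mu M (oo n) ≤ 1 / 10 ^ 12
    · obtain ⟨B, h1, h2, h3⟩ := c2_split h.1 h.2.1 h.2.2
      obtain ⟨t, ht, ht'⟩ := hnet B ⟨h1, h2⟩
      exact ⟨t, fun _ _ _ => ⟨ht, B, h3, ht'.le⟩⟩
    · exact ⟨0, fun h1 h2 h3 => absurd ⟨h1, h2, h3⟩ h⟩
  choose k hk using key
  refine ⟨T, k, hT, fun M h1 h2 h3 => (hk M h1 h2 h3).1, ?_⟩
  intro M M' h1 h2 h3 h1' h2' h3' he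
  obtain ⟨-, B, hB, hB'⟩ := hk M h1 h2 h3
  obtain ⟨-, B', hC, hC'⟩ := hk M' h1' h2' h3'
  rw [← he] at hC'
  exact c2_close h1 h1' h3 hB hC hB' hC'

/-- Clusters at an arbitrary point. -/
theorem c2_cluster : ∃ c : ℕ, ∀ n : ℕ, ∀ x ∈ Neg n, ∃ (T : Finset (Op n)) (k : Op n → Op n),
    T.card ≤ c ^ (n + 1) ∧
    (∀ M, IsGen M → age M < 1 → mu M x ≤ 1 / 10 ^ 12 → k M ∈ T) ∧
    ∀ M M', IsGen M → age M < 1 → mu M x ≤ 1 / 10 ^ 12 → IsGen M' → age M' < 1 →
      mu M' x ≤ 1 / 10 ^ 12 → k M = k M' → uu (flow M (-1) * flow M' 1) x ≤ eps1 := by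
  obtain ⟨c, hc⟩ := c2_cluster_oo
  refine ⟨c, fun n x hx => ?_⟩
  obtain ⟨T, k, hT, h1, h2⟩ := hc n
  obtain ⟨h, hh, a, ha, rfl⟩ := exists_isom hx
  have hmu : ∀ M : Op n, mu (cnj h⁻¹ M) (oo n) = mu M (a • (h : Op n) (oo n)) := by
    intro M
    rw [mu_smul M ha, ← mu_cnj hh.inv M ((h : Op n) (oo n)), inv_apply_apply]
  refine ⟨T, fun M => k (cnj h⁻¹ M), hT, fun M g1 g2 g3 =>
    h1 _ (g1.cnj hh.inv) (by rwa [age_cnj]) (by rwa [hmu]), ?_⟩
  intro M M' g1 g2 g3 g1' g2' g3' he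
  have := h2 _ _ (g1.cnj hh.inv) (by rwa [age_cnj]) (by rwa [hmu]) (g1'.cnj hh.inv)
    (by rwa [age_cnj]) (by rwa [hmu]) he
  rw [← cnj_flow, ← cnj_flow, ← cnj_mul_cnj] at this
  rwa [uu_smul_right ha, ← uu_cnj hh.inv, inv_apply_apply]

end BallQ
end
end

-- merged part: Pool.Agent.Work.MP_72250f_ag.C2
section
/-!
Counting Type A families at a point x outside HB t3. The generators M in GP with mu M x < sA form a finite set (finite_gen).
Choose h with x = c h oo (exists_isom) and put g = cnj h^-1 (flow M 1). Split a frame of M into weights >= e1 (at most 1/e1 of them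
since age < 1) and the rest: g = g_big g_small, hs (g_small - 1) = sum |l_j - 1|^2 + 4 (CC - 1) <= 4 pi^2 e1 + 4 ((1 + 2 pi sA)^2 - 1)
(hs_sub_one, CC_flow_le), g_big - 1 has rank at most 1/e1 and bounded hs, operator norms are at most 2 (norm_isom_le).
A maximal subfamily whose g_big - 1 are pairwise far apart has at most c^(n+1) members (pack_rank with U = top, finrank_V). Two generators
M, M' in the cluster of the same member have hs (g^-1 g' - 1) <= eps1 for suitable absolute constants, so b = (flowU M 1)^-1 flowU M' 1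
has uu b x <= eps1, commutes with flow M 1 (comm_gen_out), so M, M' commute (commute_gen_gen). Within a cluster the idempotents
specP M univ and specP M (Iic eta) pairwise commute (commute_specP twice): at most 2^(n+1) values each (card_idem_le). The nonzero nilp M
are multiples of one rk1 p p (commute_nilp, fix of the line), so ker M is determined by specP M univ and whether nilp M = 0
(apply_eq_zero_iff). With equal data b is a generator of AbK (kappa_le_uu), hence RelA and equal families.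
-/

open scoped ComplexConjugate ENNReal Topology
open MeasureTheory Filter

noncomputable section

namespace BallQ

variable {n : ℕ}

theorem c2_mult (I : Set (Set (Op n))) (S : Set (Op n) → Set (V n)) (x : V n) :
    mult I S x = ({F | F ∈ I ∧ x ∈ S F}.encard : ℝ≥0∞) := by
  rw [← ENNReal.tsum_set_one, mult, tsum_subtype I (fun F => (S F).indicator 1 x),
    tsum_subtype {F | F ∈ I ∧ x ∈ S F} (fun _ => (1 : ℝ≥0∞))]
  refine tsum_congr fun F => ?_
  by_cases h1 : F ∈ I <;> by_cases h2 : x ∈ S F <;> simp [Set.indicator, h1, h2]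

theorem c2_idem {P : Set (Op n)} (hfin : P.Finite) (h1 : ∀ Q ∈ P, Q * Q = Q)
    (h2 : ∀ Q ∈ P, ∀ Q' ∈ P, Commute Q Q') : P.encard ≤ ((2 ^ (n + 1) : ℕ) : ℕ∞) := by
  classical
  have hinj : Function.Injective (fun Q : Op n => (Q : V n →ₗ[ℂ] V n)) :=
    ContinuousLinearMap.coe_injective
  have h := card_idem_le (X := V n) (hfin.toFinset.image fun Q : Op n => (Q : V n →ₗ[ℂ] V n))
    (fun Q hQ => by
      obtain ⟨R, hR, rfl⟩ := Finset.mem_image.1 hQ
      exact congrArg (fun Q : Op n => (Q : V n →ₗ[ℂ] V n)) (h1 R (hfin.mem_toFinset.1 hR)))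
    (fun Q hQ Q' hQ' => by
      obtain ⟨R, hR, rfl⟩ := Finset.mem_image.1 hQ
      obtain ⟨R', hR', rfl⟩ := Finset.mem_image.1 hQ'
      exact congrArg (fun Q : Op n => (Q : V n →ₗ[ℂ] V n))
        (h2 R (hfin.mem_toFinset.1 hR) R' (hfin.mem_toFinset.1 hR')).eq)
  rw [Finset.card_image_of_injective _ hinj, finrank_V] at h
  rw [hfin.encard_eq_coe_toFinset_card]
  exact_mod_cast h

theorem c2_factor {α β γ : Type*} (C : Set α) (f : α → β) (g : α → γ)
    (h : ∀ a ∈ C, ∀ b ∈ C, f a = f b → g a = g b) : (g '' C).encard ≤ (f '' C).encard := by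
  rcases C.eq_empty_or_nonempty with rfl | ⟨a0, -⟩
  · simp
  have : Nonempty α := ⟨a0⟩
  refine le_trans (Set.encard_le_encard ?_)
    (Set.encard_image_le (fun y => g (Function.invFunOn f C y)) (f '' C))
  rintro _ ⟨a, ha, rfl⟩
  refine ⟨f a, ⟨a, ha, rfl⟩, ?_⟩
  exact h _ (Function.invFunOn_mem ⟨a, ha, rfl⟩) a ha (Function.invFunOn_eq ⟨a, ha, rfl⟩)

theorem c2_null {N N' : Op n} (h : IsNull N) (h' : IsNull N') (hc : Commute N N') (v : V n) :
    N v = 0 ↔ N' v = 0 := by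
  obtain ⟨p, hp0, hp, rfl⟩ := h
  obtain ⟨q, hq0, hq, rfl⟩ := h'
  have h1 := congrArg (fun T : Op n => T q) hc.eq
  simp only [mul_apply_eq_comp, rk1_apply, hq, zero_smul, map_zero, form_smul_left]
    at h1
  have h2 : form q p * form p q = 0 := (smul_eq_zero.1 h1.symm).resolve_right hq0
  have h3 : form q p = 0 := by
    rcases mul_eq_zero.1 h2 with h | h
    exacts [h, form_eq_zero_comm.1 h]
  obtain ⟨c, rfl⟩ := eq_smul_of_perp hp0 (by simp [NN, hp]) h3 (by simp [NN, hq])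
  have hc0 : c ≠ 0 := by
    rintro rfl
    simp at hq0
  simp [form_smul_right, hp0, hc0]

theorem c2_unit (M M' : Op n) :
    (((flowU M 1)⁻¹ * flowU M' 1 : GG n) : Op n) = flow M (-1) * flow M' 1 := rfl

theorem c2_plus {Γ : Subgroup (GG n)} {M M' : Op n} (hM : GP Γ M) (hM' : GP Γ M') :
    (flowU M 1)⁻¹ * flowU M' 1 ∈ plus Γ :=
  (plus Γ).mul_mem ((plus Γ).inv_mem (mem_plus.2 hM.2.2.2)) (mem_plus.2 hM'.2.2.2)

theorem c2_comm {Γ : Subgroup (GG n)} (hΓ : Proper Γ) {x : V n} (hout : x ∉ HB Γ t3)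
    {M M' : Op n} (hM : GP Γ M) (hM' : GP Γ M') (hx : x ∈ Tube M s0)
    (hu : uu (flow M (-1) * flow M' 1) x ≤ eps1) : Commute M M' := by
  have h := comm_gen_out hΓ hout hM hx (c2_plus hM hM') hu
  refine commute_gen_gen (hM.1.mono (by norm_num)) (hM'.1.mono (by norm_num)) ?_
  have e : flow M' 1 = flow M 1 * (flow M (-1) * flow M' 1) := by
    rw [← mul_assoc, ← flow_add, add_neg_cancel, flow_zero, one_mul]
  rw [e]
  exact (Commute.refl _).mul_right h.symm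

theorem c2_comm_spec {M M' : Op n} (hM : IsGen M) (hM' : IsGen M') (hc : Commute M M')
    (S S' : Set ℝ) : Commute (specP M S) (specP M' S') :=
  hM'.commute_specP (hM.commute_specP hc.symm S).symm S'

theorem c2_rel {Γ : Subgroup (GG n)} (hΓ : Proper Γ) {x : V n} (hx : x ∈ Neg n) {η : ℝ}
    {M M' : Op n} (hM : GP Γ M) (hM' : GP Γ M') (hc : Commute M M')
    (hu : uu (flow M (-1) * flow M' 1) x ≤ eps1)
    (h1 : specP M Set.univ = specP M' Set.univ) (h2 : specP M (Set.Iic η) = specP M' (Set.Iic η))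
    (h3 : nilp M = 0 ↔ nilp M' = 0) : RelA Γ η M M' := by
  have hG := hM.1.isGen
  have hG' := hM'.1.isGen
  have hker : ∀ v, M v = 0 ↔ M' v = 0 := by
    intro v
    rw [hG.apply_eq_zero_iff, hG'.apply_eq_zero_iff, h1]
    refine and_congr Iff.rfl ?_
    by_cases h0 : nilp M = 0
    · rw [h0, h3.1 h0]
    · exact c2_null (hG.nilp_cases.resolve_left h0)
        (hG'.nilp_cases.resolve_left fun h => h0 (h3.2 h))
        (hG'.commute_nilp (hG.commute_nilp hc.symm).symm) v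
  refine ⟨h1, hker, h2, Subgroup.subset_closure ⟨c2_plus hM hM', ?_, ?_, ?_⟩⟩
  · rw [c2_unit]
    exact ((commute_flow (hG.commute_specP (Commute.refl M) _).symm _).mul_right
      (commute_flow (hG.commute_specP hc.symm _).symm _)).symm
  · intro v hv
    rw [c2_unit, mul_apply_eq_comp, flow_apply_of_ker ((hker v).1 hv),
      flow_apply_of_ker hv]
  · refine ((kappa_le_uu ((mem_plus.1 (c2_plus hM hM')).isIsom hΓ) hx).trans hu).trans_lt ?_
    norm_num [eps, eps1]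

theorem c2_fam {Γ : Subgroup (GG n)} {η : ℝ} {M M' : Op n} (h : RelA Γ η M M') :
    famA Γ η M = famA Γ η M' := by
  ext N
  exact and_congr Iff.rfl ⟨fun hN => h.symm'.trans' hN, fun hN => h.trans' hN⟩

/-- The number of families inside one cluster. -/
theorem c2_one {Γ : Subgroup (GG n)} (hΓ : Proper Γ) {x : V n} (hx : x ∈ Neg n)
    (hout : x ∉ HB Γ t3) (η : ℝ) {C : Set (Op n)} (hfin : C.Finite)
    (h1 : ∀ M ∈ C, GP Γ M ∧ x ∈ Tube M s0)
    (h2 : ∀ M ∈ C, ∀ M' ∈ C, uu (flow M (-1) * flow M' 1) x ≤ eps1) :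
    (famA Γ η '' C).encard ≤ ((8 ^ (n + 1) : ℕ) : ℕ∞) := by
  have hc : ∀ M ∈ C, ∀ M' ∈ C, Commute M M' := fun M hM M' hM' =>
    c2_comm hΓ hout (h1 M hM).1 (h1 M' hM').1 (h1 M hM).2 (h2 M hM M' hM')
  have hP : ∀ S : Set ℝ, ((fun M => specP M S) '' C).encard ≤ ((2 ^ (n + 1) : ℕ) : ℕ∞) := by
    intro S
    refine c2_idem (hfin.image _) ?_ ?_
    · rintro _ ⟨M, hM, rfl⟩
      exact ((h1 M hM).1.1.isGen.isRound_specP S).mul_self
    · rintro _ ⟨M, hM, rfl⟩ _ ⟨M', hM', rfl⟩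
      exact c2_comm_spec (h1 M hM).1.1.isGen (h1 M' hM').1.1.isGen (hc M hM M' hM') S S
  have h3 := c2_factor C (fun M => (specP M Set.univ, specP M (Set.Iic η), (nilp M = 0 : Prop)))
    (famA Γ η) (fun M hM M' hM' he => by
      simp only [Prod.mk.injEq, eq_iff_iff] at he
      exact c2_fam (c2_rel hΓ hx (h1 M hM).1 (h1 M' hM').1 (hc M hM M' hM') (h2 M hM M' hM')
        he.1 he.2.1 he.2.2))
  have h4 : (fun M => (specP M Set.univ, specP M (Set.Iic η), (nilp M = 0 : Prop))) '' C ⊆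
      ((fun M => specP M Set.univ) '' C) ×ˢ ((fun M => specP M (Set.Iic η)) '' C) ×ˢ
        ({True, False} : Set Prop) := by
    rintro _ ⟨M, hM, rfl⟩
    refine ⟨⟨M, hM, rfl⟩, ⟨M, hM, rfl⟩, ?_⟩
    by_cases h : nilp M = 0 <;> simp [h]
  refine (h3.trans (Set.encard_le_encard h4)).trans ?_
  rw [Set.encard_prod, Set.encard_prod, Set.encard_pair (by simp)]
  calc _ ≤ ((2 ^ (n + 1) : ℕ) : ℕ∞) * (((2 ^ (n + 1) : ℕ) : ℕ∞) * 2) :=
        mul_le_mul' (hP _) (mul_le_mul' (hP _) le_rfl)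
    _ = ((2 ^ (n + 1) * (2 ^ (n + 1) * 2) : ℕ) : ℕ∞) := by push_cast; rfl
    _ ≤ _ := by
      have e : 8 ^ (n + 1) = 2 ^ (n + 1) * (2 ^ (n + 1) * 2 ^ (n + 1)) := by
        rw [← mul_pow, ← mul_pow]
        rfl
      have h5 : 2 ≤ 2 ^ (n + 1) := Nat.le_self_pow (by omega) 2
      rw [e]
      exact_mod_cast Nat.mul_le_mul_left _ (Nat.mul_le_mul_left _ h5)

theorem countA : ∃ sA : ℝ, 0 < sA ∧ sA ≤ s0 ∧ ∃ C : ℕ, ∀ (n : ℕ) (Γ : Subgroup (GG n)),
    Proper Γ → ∀ (η : ℝ), ∀ x ∈ Neg n, x ∉ HB Γ t3 →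
      mult (sysA Γ η) (fun F => TubeS F sA) x ≤ (C : ℝ≥0∞) ^ (n + 1) := by
  obtain ⟨c, hc⟩ := c2_cluster
  have hs0 : (1 / 10 ^ 12 : ℝ) ≤ s0 := by norm_num [s0]
  refine ⟨1 / 10 ^ 12, by norm_num, hs0, c * 8, fun n Γ hΓ η x hx hout => ?_⟩
  obtain ⟨T, k, hT, h1, h2⟩ := hc n x hx
  have hfin : ∀ t, {M : Op n | GP Γ M ∧ mu M x < 1 / 10 ^ 12 ∧ k M = t}.Finite := fun t =>
    (finite_gen hΓ hx (1 / 10 ^ 12)).subset fun M hM =>
      ⟨hM.1.1.mono (by norm_num), hM.1.2.2.2, hM.2.1.le⟩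
  have hsub : {F | F ∈ sysA Γ η ∧ x ∈ TubeS F (1 / 10 ^ 12)} ⊆
      ⋃ t ∈ T, famA Γ η '' {M : Op n | GP Γ M ∧ mu M x < 1 / 10 ^ 12 ∧ k M = t} := by
    rintro _ ⟨⟨M0, -, rfl⟩, hF⟩
    obtain ⟨M, hM, hxM⟩ := Set.mem_iUnion₂.1 hF
    exact Set.mem_iUnion₂.2 ⟨k M, h1 M hM.1.1.1.isGen hM.1.1.2.1 hxM.2.le, M,
      ⟨hM.1.1, hxM.2, rfl⟩, (c2_fam hM.2).symm⟩
  have key : {F | F ∈ sysA Γ η ∧ x ∈ TubeS F (1 / 10 ^ 12)}.encard ≤
      (((c * 8) ^ (n + 1) : ℕ) : ℕ∞) := by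
    refine (Set.encard_le_encard hsub).trans ((T.set_encard_biUnion_le _).trans ?_)
    refine (Finset.sum_le_card_nsmul _ _ ((8 ^ (n + 1) : ℕ) : ℕ∞) fun t _ => ?_).trans ?_
    · refine c2_one hΓ hx hout η (hfin t) (fun M hM => ⟨hM.1, hx, hM.2.1.trans_le hs0⟩) ?_
      intro M hM M' hM'
      exact h2 M M' hM.1.1.isGen hM.1.2.1 hM.2.1.le hM'.1.1.isGen hM'.1.2.1 hM'.2.1.le
        (hM.2.2.trans hM'.2.2.symm)
    · rw [nsmul_eq_mul, mul_pow]
      exact_mod_cast Nat.mul_le_mul_right _ hT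
  rw [c2_mult]
  refine (ENat.toENNReal_le.2 key).trans_eq ?_
  simp

end BallQ
end
end

-- merged part: Pool.Agent.Work.MP_72250f_ag.S4
section
/-!
Elliptic elements are not arbitrarily close to scalars. hT says that thick parts are cocompact.
kappa_par: the elements g of plus Gamma with g p = p, a negative fixed vector (eig_eq_of_neg) and kappa < eps pairwise commute
(both are small at x + t p for large t by tendsto_CC_up; thmZ). Choose a finite set D of them whose common fixed space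
has minimal dimension; by common_fix it contains a negative y, fixed by all of them; fin_plus_fix.
kappa_sub: strong induction on the dimension of W = common fixed space of D. Elements small at a point x of W commute
with D (uu d x = kappa d < eps, thmZ) and preserve W. Elements scalar on W fix a given negative vector of W, so they are
finitely many (fin_two) and give a bound k1 > 0 (kappa = uu > 0 at the fixed vector). Let g have an eigenvector x in W
meet Neg, kappa g < eps, not scalar on W. visible gives d small at x, y in W with SW empty, so y is in Thick (min eps k1),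
where for elements scalar on W uu at y is kappa. Move y into the compact set by gamma in Gamma: gamma d gamma^-1 lies in a finite
set (fin_uu), and so do the conjugates of the elements of D (fin_plus_fix). g commutes with d (thmZ at x).
d elliptic: normalise d to fix a negative vector of W, g has a negative eigenvector in the smaller space (ell_in_sub), apply
the induction hypothesis to the finitely many conjugated sets D + d. d with null eigenvector of unit eigenvalue: g fixes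
the line (fix_of_commute), kappa_par for the finitely many conjugates. d loxodromic: g fixes p and q with the eigenvalue of x
(eig_eq_of_neg), hence fixes q + p; finitely many conjugates, fin_two.
-/

open scoped ComplexConjugate ENNReal Topology
open MeasureTheory Filter

noncomputable section

namespace BallQ

variable {n : ℕ}

/-- The common fixed space. -/
def s4_fix (D : Finset (GG n)) : Submodule ℂ (V n) where
  carrier := {v | ∀ d ∈ D, (d : Op n) v = v}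
  add_mem' ha hb d hd := by rw [map_add, ha d hd, hb d hd]
  zero_mem' d _ := map_zero _
  smul_mem' c v hv d hd := by rw [map_smul, hv d hd]

def s4_good (Γ : Subgroup (GG n)) (D : Finset (GG n)) : Prop :=
  (∀ d ∈ D, d ∈ plus Γ ∧ kappa (d : Op n) < eps) ∧ ∃ y ∈ Neg n, y ∈ s4_fix D

def s4_lb (Γ : Subgroup (GG n)) (D : Finset (GG n)) (κ : ℝ) : Prop :=
  ∀ g ∈ Γ, ¬ IsScalar (g : Op n) →
    (∃ x ∈ Neg n, x ∈ s4_fix D ∧ ∃ c : ℂ, (g : Op n) x = c • x) → κ ≤ kappa (g : Op n)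

theorem s4_fin {α : Type*} {S : Set α} (hS : S.Finite) {Q : α → ℝ → Prop}
    (mono : ∀ a κ κ', κ' ≤ κ → Q a κ → Q a κ') (h : ∀ a ∈ S, ∃ κ, 0 < κ ∧ Q a κ) :
    ∃ κ, 0 < κ ∧ ∀ a ∈ S, Q a κ := by
  induction S, hS using Set.Finite.induction_on with
  | empty => exact ⟨1, one_pos, by simp⟩
  | insert _ _ ih =>
    obtain ⟨k1, h1, h2⟩ := h _ (Set.mem_insert _ _)
    obtain ⟨k2, h3, h4⟩ := ih fun a ha => h a (Set.mem_insert_of_mem _ ha)
    refine ⟨min k1 k2, lt_min h1 h3, ?_⟩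
    rintro a (rfl | ha)
    · exact mono _ _ _ (min_le_left _ _) h2
    · exact mono _ _ _ (min_le_right _ _) (h4 a ha)

theorem s4_point {Γ : Subgroup (GG n)} (hΓ : Proper Γ) {y : V n} (hy : y ∈ Neg n) :
    ∃ κ, 0 < κ ∧ ∀ g ∈ Γ, ¬ IsScalar (g : Op n) → (∃ c : ℂ, (g : Op n) y = c • y) →
      κ ≤ kappa (g : Op n) := by
  obtain ⟨κ, h0, h⟩ := s4_fin (hΓ.fin_two hy hy 1)
    (Q := fun g κ => ¬ IsScalar (g : Op n) → κ ≤ uu (g : Op n) y)
    (fun a κ κ' h1 h2 h3 => h1.trans (h2 h3)) fun g hg => by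
      by_cases hs : IsScalar (g : Op n)
      · exact ⟨1, one_pos, fun h => absurd hs h⟩
      · exact ⟨_, lt_of_le_of_ne (uu_nonneg (hΓ.isom g hg.1) hy)
          fun e => hs ((isScalar_iff_uu (hΓ.isom g hg.1) hy).2 e.symm), fun _ => le_rfl⟩
  refine ⟨κ, h0, fun g hg hs ⟨c, hc⟩ => ?_⟩
  have h1 := eig_norm_one (hΓ.isom g hg) (ne_of_gt hy) hc
  rw [← uu_of_eig (hΓ.isom g hg) hy hc]
  refine h g ⟨hg, ?_⟩ hs
  rw [hc, CC_smul_right (by rintro rfl; simp at h1), CC_self hy]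

theorem s4_maps {D : Finset (GG n)} {g : GG n} (h : ∀ d ∈ D, Commute g d) :
    ∀ v ∈ s4_fix D, (g : Op n) v ∈ s4_fix D := fun v hv d hd => by
  rw [← mul_apply_eq_comp, ← (h d hd).units_val.eq, mul_apply_eq_comp, hv d hd]

theorem s4_comm {Γ : Subgroup (GG n)} (hΓ : Proper Γ) {D : Finset (GG n)} (hD : s4_good Γ D)
    {g : GG n} (hg : g ∈ Γ) {x : V n} (hx : x ∈ Neg n) (hxD : x ∈ s4_fix D)
    (hu : uu (g : Op n) x ≤ eps) : ∀ d ∈ D, Commute g d := fun d hd => by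
  have e : (d : Op n) x = (1 : ℂ) • x := by rw [one_smul]; exact hxD d hd
  have h1 : uu (d : Op n) x ≤ eps := by
    rw [uu_of_eig (InP.isIsom hΓ (hD.1 d hd).1) hx e]
    exact (hD.1 d hd).2.le
  exact (thmZ hΓ hx (le_plus Γ hg) (hD.1 d hd).1 hu h1).resolve_right
    fun h => h.2.1 ⟨x, hx, 1, e⟩

theorem s4_nonell {Γ : Subgroup (GG n)} (hΓ : Proper Γ) {d : GG n} (hd : d ∈ Γ) :
    ∃ κ, 0 < κ ∧ (¬ Ell (d : Op n) → ∀ g ∈ Γ, Ell (g : Op n) → ¬ IsScalar (g : Op n) →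
      Commute g d → κ ≤ kappa (g : Op n)) := by
  by_cases hE : Ell (d : Op n)
  · exact ⟨1, one_pos, fun h => absurd hE h⟩
  obtain ⟨p, -, hp0, hp, a, ha⟩ := pontryagin ⊤ (hΓ.isom d hd) (fun _ _ => trivial)
    ⟨oo n, trivial, oo_mem_Neg⟩
  have hp1 : form p p = 0 := by
    have : NN p = 0 := le_antisymm (not_lt.1 fun h => hE ⟨p, h, a, ha⟩) hp
    rw [form_self, this]
    simp
  obtain ⟨κ, h0, h⟩ := kappa_par hΓ hp0 hp1
  exact ⟨κ, h0, fun _ g hg h1 h2 h3 => h g hg h1 h2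
    (fix_of_commute (hΓ.isom d hd) hE hp0 hp1 ha (hΓ.isom g hg) h3.units_val)⟩

theorem s4_normal {d : GG n} (hd : IsIsom (d : Op n)) : {u : GG n | ∃ c : ℂ, ∃ z ∈ Neg n,
    (u : Op n) z = z ∧ (d : Op n) = c • (u : Op n)}.Subsingleton := by
  rintro u ⟨c, z, hz, h1, h2⟩ u' ⟨c', z', hz', h1', h2'⟩
  have e1 : (d : Op n) z = c • z := by rw [h2, smul_apply, h1]
  have e2 : (d : Op n) z' = c' • z' := by rw [h2', smul_apply, h1']
  obtain rfl := eig_eq_of_neg hd hz (ne_zero_of_mem_Neg hz') (le_of_lt hz') e1 e2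
  have h3 := eig_norm_one hd (ne_of_gt hz) e1
  exact Units.ext (smul_right_injective _ (by rintro rfl; simp at h3) (h2.symm.trans h2'))

theorem s4_cpt {Γ : Subgroup (GG n)} (hΓ : Proper Γ) {m : ℕ}
    (ih : ∀ D, s4_good Γ D → Module.finrank ℂ (s4_fix D) < m → ∃ κ, 0 < κ ∧ s4_lb Γ D κ) (R : ℝ) :
    ∃ κ, 0 < κ ∧ ∀ D, s4_good Γ D → Module.finrank ℂ (s4_fix D) ≤ m → ∀ g ∈ Γ, ∀ d ∈ Γ,
      ∀ x ∈ Neg n, x ∈ s4_fix D → ∀ y ∈ Neg n, y ∈ s4_fix D → CC (oo n) y ≤ R →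
      uu (d : Op n) y ≤ eps → uu (d : Op n) x < eps → uu (g : Op n) x ≤ eps →
      (∃ c : ℂ, (g : Op n) x = c • x) → ¬ IsScalar (g : Op n) →
      (¬ ∃ c : ℂ, ∀ v ∈ s4_fix D, (d : Op n) v = c • v) → κ ≤ kappa (g : Op n) := by
  classical
  have F1 := hΓ.fin_uu R eps
  have F3 := (hΓ.fin_plus_fix R).union
    (F1.biUnion fun d hd => (s4_normal (hΓ.isom d hd.1)).finite)
  obtain ⟨k1, h1, H1⟩ := s4_fin F1 (Q := fun d κ => ¬ Ell (d : Op n) → ∀ g ∈ Γ, Ell (g : Op n) →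
      ¬ IsScalar (g : Op n) → Commute g d → κ ≤ kappa (g : Op n))
    (fun a κ κ' h1 h2 h3 g h4 h5 h6 h7 => h1.trans (h2 h3 g h4 h5 h6 h7))
    fun d hd => s4_nonell hΓ hd.1
  obtain ⟨k2, h2, H2⟩ := s4_fin F3.toFinset.powerset.finite_toSet
    (Q := fun D κ => s4_good Γ D → Module.finrank ℂ (s4_fix D) < m → s4_lb Γ D κ)
    (fun a κ κ' h1 h2 h3 h4 g h5 h6 h7 => h1.trans (h2 h3 h4 g h5 h6 h7)) fun D _ => by
      by_cases h : s4_good Γ D ∧ Module.finrank ℂ (s4_fix D) < m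
      · obtain ⟨κ, h0, h1⟩ := ih D h.1 h.2
        exact ⟨κ, h0, fun _ _ => h1⟩
      · exact ⟨1, one_pos, fun h1 h2 => absurd ⟨h1, h2⟩ h⟩
  refine ⟨min k1 k2, lt_min h1 h2, ?_⟩
  intro D hD hm g hg d hd x hx hxD y hy hyD hR udy udx ugx ⟨c, hc⟩ hs hns
  have hgE : Ell (g : Op n) := ⟨x, hx, c, hc⟩
  have hgd : Commute g d := (thmZ hΓ hx (le_plus Γ hg) (le_plus Γ hd) ugx udx.le).resolve_right
    fun h => h.1 hgE
  have hdF : d ∈ {g : GG n | g ∈ Γ ∧ ∃ x ∈ Neg n, CC (oo n) x ≤ R ∧ uu (g : Op n) x ≤ eps} :=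
    ⟨hd, y, hy, hR, udy⟩
  by_cases hE : Ell (d : Op n)
  swap
  · exact (min_le_left _ _).trans (H1 d hdF hE g hg hgE hs hgd)
  obtain ⟨z0, hz0, a, ha⟩ := hE
  obtain ⟨z, hzD, hz, hdz⟩ := ell_in_sub (s4_fix D) (hΓ.isom d hd)
    (s4_maps (s4_comm hΓ hD hd hx hxD udx.le)) ⟨x, hxD, hx⟩ hz0 ha
  have a1 := eig_norm_one (hΓ.isom d hd) (ne_of_gt hz) hdz
  have a0 : a ≠ 0 := by rintro rfl; simp at a1
  have a2 : ‖a⁻¹‖ = 1 := by rw [norm_inv, a1, inv_one]
  obtain ⟨u, hu, hu'⟩ := (InP.smul (le_plus Γ hd) a2).exists_unit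
  have huz : (u : Op n) z = z := by rw [hu', smul_apply, hdz, inv_smul_smul₀ a0]
  have hdu : (d : Op n) = a • (u : Op n) := by rw [hu', smul_inv_smul₀ a0]
  have hzu : z ∈ s4_fix (insert u D) := Finset.forall_mem_insert .. |>.2 ⟨huz, hzD⟩
  have hlt : s4_fix (insert u D) < s4_fix D := by
    refine lt_of_le_of_ne (fun v hv e he => hv e (Finset.mem_insert_of_mem he)) fun e => ?_
    refine hns ⟨a, fun v hv => ?_⟩
    rw [← e] at hv
    rw [hdu, smul_apply, hv u (Finset.mem_insert_self _ _)]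
  have hgu : Commute g u := by
    rw [← Commute.units_val_iff, hu']
    exact hgd.units_val.smul_right _
  obtain ⟨x1, hx1D, hx1, hgx1⟩ := ell_in_sub (s4_fix (insert u D)) (hΓ.isom g hg)
    (s4_maps (Finset.forall_mem_insert .. |>.2 ⟨hgu, s4_comm hΓ hD hg hx hxD ugx⟩))
    ⟨z, hzu, hz⟩ hx hc
  refine (min_le_right _ _).trans (H2 (insert u D) ?_ ⟨Finset.forall_mem_insert .. |>.2
    ⟨⟨hu, ?_⟩, hD.1⟩, z, hz, hzu⟩ ((Submodule.finrank_lt_finrank_of_lt hlt).trans_le hm) g hg hs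
    ⟨x1, hx1, hx1D, c, hgx1⟩)
  · refine Finset.mem_coe.2 (Finset.mem_powerset.2 fun e he => F3.mem_toFinset.2 ?_)
    rcases Finset.mem_insert.1 he with rfl | he
    · exact Or.inr (Set.mem_biUnion hdF ⟨a, z, hz, huz, hdu⟩)
    · exact Or.inl ⟨(hD.1 e he).1, y, hy, hR, hyD e he⟩
  · rw [hu', kappa_smul a2]
    exact (kappa_le_uu (hΓ.isom d hd) hx).trans_lt udx

theorem s4_cnj (γ g : GG n) : ((γ * g * γ⁻¹ : GG n) : Op n) = cnj γ g := rfl

theorem s4_ind {Γ : Subgroup (GG n)} (hΓ : Proper Γ)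
    (hT : ∀ ε : ℝ, 0 < ε → Cocpt Γ (Thick Γ ε)) (m : ℕ) :
    ∀ D, s4_good Γ D → Module.finrank ℂ (s4_fix D) < m → ∃ κ, 0 < κ ∧ s4_lb Γ D κ := by
  classical
  induction m with
  | zero => exact fun D _ h => absurd h (Nat.not_lt_zero _)
  | succ m ih =>
  intro D hD hm
  obtain ⟨y0, hy0, hy0D⟩ := hD.2
  obtain ⟨k1, h1, H1⟩ := s4_point hΓ hy0
  have he : 0 < min eps k1 := lt_min (by norm_num [eps]) h1
  obtain ⟨R, hR⟩ := hT _ he
  obtain ⟨k2, h2, H2⟩ := s4_cpt hΓ ih R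
  refine ⟨min (min eps k1) k2, lt_min he h2, ?_⟩
  rintro g hg hs ⟨x, hx, hxD, c, hc⟩
  by_cases hk : min eps k1 ≤ kappa (g : Op n)
  · exact (min_le_left _ _).trans hk
  have hk' := not_le.1 hk
  have ugx := uu_of_eig (hΓ.isom g hg) hx hc
  obtain ⟨d, ⟨hd, udx, hns⟩, y, hyD, hy, udy, hS⟩ := visible hΓ (s4_fix D) (min_le_left eps k1)
    (fun g hg x hxD hx hu => s4_maps (s4_comm hΓ hD hg hx hxD (hu.trans (min_le_left _ _))))
    hxD hx ⟨g, hg, ugx ▸ hk', fun ⟨a, ha⟩ =>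
      hk ((min_le_right _ _).trans (H1 g hg hs ⟨a, ha y0 hy0D⟩))⟩
  obtain ⟨γ, hγ, hγR⟩ := hR y ⟨hy, fun h hh hs => not_lt.1 fun hu => by
    by_cases h3 : ∃ c : ℂ, ∀ v ∈ s4_fix D, (h : Op n) v = c • v
    · obtain ⟨a, ha⟩ := h3
      rw [uu_of_eig (hΓ.isom h hh) hy (ha y hyD)] at hu
      exact hu.not_ge ((min_le_right _ _).trans (H1 h hh hs ⟨a, ha y0 hy0D⟩))
    · exact Set.eq_empty_iff_forall_notMem.1 hS h ⟨hh, hu, h3⟩⟩
  have hi := hΓ.isom γ hγ
  have hfix : ∀ v, (γ : Op n) v ∈ s4_fix (D.image fun e => γ * e * γ⁻¹) ↔ v ∈ s4_fix D := fun v => by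
    refine Finset.forall_mem_image.trans ⟨fun h e he => hi.injective ?_, fun h e he => ?_⟩
    · simpa only [s4_cnj, cnj_apply, inv_apply_apply] using h he
    · rw [s4_cnj, cnj_apply, inv_apply_apply, h e he]
  refine (min_le_right _ _).trans ((H2 (D.image fun e => γ * e * γ⁻¹) ⟨?_, _, hi.mem_Neg.2 hy,
    (hfix y).2 hyD⟩ ?_ (γ * g * γ⁻¹) (Γ.mul_mem (Γ.mul_mem hγ hg) (Γ.inv_mem hγ)) (γ * d * γ⁻¹)
    (Γ.mul_mem (Γ.mul_mem hγ hd) (Γ.inv_mem hγ)) _ (hi.mem_Neg.2 hx) ((hfix x).2 hxD) _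
    (hi.mem_Neg.2 hy) ((hfix y).2 hyD) hγR ?_ ?_ ?_ ⟨c, ?_⟩ ?_ ?_).trans_eq (kappa_cnj γ _))
  · refine Finset.forall_mem_image.2 fun e he => ⟨?_, ?_⟩
    · exact InP.cnj (hD.1 e he).1 (le_plus Γ hγ)
    · rw [s4_cnj, kappa_cnj]
      exact (hD.1 e he).2
  · refine le_trans (Submodule.finrank_mono (t := (s4_fix D).map (γ : Op n).toLinearMap)
      fun v hv => ⟨((γ⁻¹ : GG n) : Op n) v, (hfix _).1 ?_, apply_inv_apply γ v⟩)
      ((Submodule.finrank_map_le _ _).trans (Nat.lt_succ_iff.1 hm))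
    rwa [apply_inv_apply]
  · rw [s4_cnj, uu_cnj hi]
    exact udy.trans (min_le_left _ _)
  · rw [s4_cnj, uu_cnj hi]
    exact udx.trans_le (min_le_left _ _)
  · rw [s4_cnj, uu_cnj hi, ugx]
    exact hk'.le.trans (min_le_left _ _)
  · rw [s4_cnj, cnj_apply, inv_apply_apply, hc, map_smul]
  · rintro ⟨a, ha⟩
    refine hs ⟨a, ContinuousLinearMap.ext fun v => hi.injective ?_⟩
    have := congrArg (fun T : Op n => T ((γ : Op n) v)) ha
    simpa only [s4_cnj, cnj_apply, inv_apply_apply, smul_apply, one_apply_eq_self, map_smul]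
      using this
  · rintro ⟨a, ha⟩
    refine hns ⟨a, fun v hv => hi.injective ?_⟩
    simpa only [s4_cnj, cnj_apply, inv_apply_apply, map_smul] using ha _ ((hfix v).2 hv)

theorem kappa_sub {Γ : Subgroup (GG n)} (hΓ : Proper Γ)
    (hT : ∀ ε : ℝ, 0 < ε → Cocpt Γ (Thick Γ ε)) (D : Finset (GG n))
    (hD : ∀ d ∈ D, d ∈ plus Γ ∧ kappa (d : Op n) < eps)
    (hy : ∃ y ∈ Neg n, ∀ d ∈ D, (d : Op n) y = y) :
    ∃ κ : ℝ, 0 < κ ∧ ∀ g ∈ Γ, ¬ IsScalar (g : Op n) →
      (∃ x ∈ Neg n, (∀ d ∈ D, (d : Op n) x = x) ∧ ∃ c : ℂ, (g : Op n) x = c • x) →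
      κ ≤ kappa (g : Op n) :=
  s4_ind hΓ hT _ D ⟨hD, hy⟩ (Nat.lt_succ_self _)

theorem kappa_zero {Γ : Subgroup (GG n)} (hΓ : Proper Γ)
    (hT : ∀ ε : ℝ, 0 < ε → Cocpt Γ (Thick Γ ε)) :
    ∃ κ : ℝ, 0 < κ ∧ ∀ g ∈ Γ, Ell (g : Op n) → ¬ IsScalar (g : Op n) →
      κ ≤ kappa (g : Op n) := by
  obtain ⟨κ, hκ, h⟩ := kappa_sub hΓ hT ∅ (by simp) ⟨oo n, oo_mem_Neg, by simp⟩
  refine ⟨κ, hκ, fun g hg ⟨y, hy, c, hc⟩ hs => h g hg hs ⟨y, hy, by simp, c, hc⟩⟩

end BallQ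
end
end

-- merged part: Pool.Agent.Work.MP_72250f_ag.S6a
section
/-!
cusp_of_par. On the compact set of exit points |<x,p>|^2 / NN x lies between two positive constants b0, B0
(isCompact_slice, form_ne_zero_of_neg), and it is invariant under the stabiliser of p. Existence of the cusp generator: if some g in
plus Gamma is small together with d at a point and does not commute with d, thmZ, null_unique, vert_of, exists_cusp give it.
Otherwise the conjugates of d under the stabiliser of the line of p in Gamma form a finite set: for m+1 elements gamma_i of the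
stabiliser take x high so that all displacements are at most 2 and uu d x < eps (tendsto_CC_up, no_lox), pack_dim gives
gamma_i^-1 gamma_j small, it commutes with d. Hence CC x' (d x') is bounded on exit points x', and on the horosphere NN = 1 by
CC_vertical and CC_tri; vert_of_bdd shows that d / b is a vertical translation, nontrivial since d is not elliptic.
Cocompactness: x with uu d x < eps has its exit point below, mu Mc x >= t, so NN x / NN x' is bounded (CC_vertical).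
lox_cocpt: q from lox_dual, x = a p + b q + z with NN x = 1; z is orthogonal to p, q and d z too; with zeta = a conj b:
sqrt CC >= |rho zeta + conj zeta / rho| - (2 Re zeta - 1), so zeta is bounded; a power of d makes |a| lie in [1, rho]
or [1, 1/rho]; then x is bounded and CC oo x is bounded (norm_sq_CC).
-/

open scoped ComplexConjugate ENNReal Topology
open MeasureTheory Filter

noncomputable section

namespace BallQ

variable {n : ℕ}

theorem s6a_tri {x y z : V n} (hx : x ∈ Neg n) (hy : y ∈ Neg n) (hz : z ∈ Neg n) {A B : ℝ}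
    (h1 : CC x y ≤ A) (h2 : CC y z ≤ B) : CC x z ≤ 4 * A * B := by
  have k1 := one_le_CC hx hy
  have k2 := one_le_CC hy hz
  exact (CC_tri hx hy hz).trans (mul_le_mul (by linarith only [h1]) h2 (by linarith) (by linarith only [h1, k1]))

theorem s6a_scale {x p : V n} (hx : x ∈ Neg n) (hp0 : p ≠ 0) (hp : form p p = 0) :
    ∃ c : ℂ, c ≠ 0 ∧ form (c • x) p = -1 := by
  have h : form x p ≠ 0 := fun h =>
    form_ne_zero_of_neg hx hp0 (by simp [NN, hp]) (form_eq_zero_comm.1 h)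
  exact ⟨-(form x p)⁻¹, neg_ne_zero.2 (inv_ne_zero h), by
    rw [form_smul_left, neg_mul, inv_mul_cancel₀ h]⟩

/-- heights of points of a compact set -/
theorem s6a_height {p : V n} (hp0 : p ≠ 0) (hp : form p p = 0) (R : ℝ) :
    ∃ h0 H0 : ℝ, 0 < h0 ∧ ∀ y ∈ Neg n, CC (oo n) y ≤ R → ‖form y p‖ = 1 →
      h0 ≤ NN y ∧ NN y ≤ H0 := by
  have hN : NN p = 0 := by simp [NN, hp]
  have h1 : 0 < ‖form p (oo n)‖ ^ 2 :=
    pow_pos (norm_pos_iff.2 (form_ne_zero_of_neg oo_mem_Neg hp0 hN.ge)) 2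
  have h2 : 0 < ‖p‖ ^ 2 := pow_pos (norm_pos_iff.2 hp0) 2
  refine ⟨(2 * max R 1 * ‖p‖ ^ 2)⁻¹, 4 * R / ‖form p (oo n)‖ ^ 2, by positivity,
    fun y hy hR h => ⟨?_, ?_⟩⟩
  · have k1 := pow_le_pow_left₀ (norm_nonneg _) (norm_form_le y p) 2
    have k2 : 0 < NN y := hy
    rw [h, mul_pow, norm_sq_CC hy, one_pow] at k1
    rw [inv_le_iff_one_le_mul₀ (by positivity)]
    refine k1.trans ?_
    have k3 := mul_le_mul_of_nonneg_right
      (show 2 * CC (oo n) y - 1 ≤ 2 * max R 1 by linarith only [hR, le_max_left R 1]) (mul_pos k2 h2).le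
    linarith only [k3]
  · have k1 := norm_form_sq_le_qq hy p (oo n)
    have k2 : 0 < NN y := hy
    have k3 : ‖form (oo n) y‖ ^ 2 / NN y = CC (oo n) y := by rw [CC, NN_oo, one_mul]
    rw [qq, qq, hN, NN_oo, norm_form_comm p y, h, mul_div_assoc 2 (‖form (oo n) y‖ ^ 2), k3,
      neg_zero, zero_add, one_pow, mul_one, div_mul_eq_mul_div, le_div_iff₀ k2] at k1
    rw [le_div_iff₀ h1]
    linarith only [hR, k1]

/-- exit points with bounded height -/
theorem s6a_exit {Γ : Subgroup (GG n)} (hΓ : Proper Γ) {ε : ℝ} (hε0 : 0 < ε) (hε : ε ≤ eps)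
    (hT : Cocpt Γ (Thick Γ ε))
    (hE : ∀ g ∈ Γ, Ell (g : Op n) → ¬ IsScalar (g : Op n) → ε ≤ kappa (g : Op n))
    {d : GG n} (hd : d ∈ Γ) (hdE : ¬ Ell (d : Op n)) (hdk : kappa (d : Op n) < ε) {p : V n}
    (hp0 : p ≠ 0) (hp : form p p = 0) {b : ℂ} (hb : ‖b‖ = 1) (hdp : (d : Op n) p = b • p) :
    ∃ R h0 H0 : ℝ, 0 < h0 ∧ ∀ x ∈ Neg n, form x p = -1 → ∃ x' ∈ Neg n,
      h0 ≤ NN x' ∧ NN x' ≤ H0 ∧ CC x x' ≤ NN x / NN x' + NN x' / NN x ∧
      (uu (d : Op n) x < ε → NN x' ≤ NN x) ∧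
      ∃ g ∈ Γ, (∃ c : ℂ, ‖c‖ = 1 ∧ (g : Op n) p = c • p) ∧ CC (oo n) ((g : Op n) x') ≤ R := by
  obtain ⟨R, hR⟩ := exit_point hΓ hε0 hε hT hE hd hdE hdk hp0 hp hb hdp
  obtain ⟨h0, H0, hh0, hH⟩ := s6a_height hp0 hp R
  refine ⟨R, h0, H0, hh0, fun x hx hxp => ?_⟩
  obtain ⟨t, ht, ht0, g, hg, ⟨c, hc, hgp⟩, hC⟩ := hR x hx hxp
  have hN := NN_sub_null hp hxp t
  have hx' : x - (t : ℂ) • p ∈ Neg n := by
    rw [mem_Neg, hN]
    linarith only [ht]
  have hi := hΓ.isom g hg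
  have h1 : ‖form ((g : Op n) (x - (t : ℂ) • p)) p‖ = 1 := by
    have h2 := congrArg norm (hi (x - (t : ℂ) • p) p)
    rwa [hgp, form_smul_right, norm_mul, Complex.norm_conj, hc, one_mul, form_sub_left,
      form_smul_left, hp, mul_zero, sub_zero, hxp, norm_neg, norm_one] at h2
  have h2 := hH _ (hi.mem_Neg.2 hx') hC h1
  rw [hi.NN_apply] at h2
  refine ⟨_, hx', h2.1, h2.2, ?_, fun h => ?_, g, hg, ⟨c, hc, hgp⟩, hC⟩
  · rw [hN]
    exact CC_vertical hp hxp hx ht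
  · rw [hN]
    linarith only [ht0, h, ht0 h]

theorem s6a_cusp {Γ : Subgroup (GG n)} (hΓ : Proper Γ) {p : V n} (hp0 : p ≠ 0)
    (hp : form p p = 0) {e : ℂ} (he : e ≠ 0) {τ : ℝ} (hτ : τ ≠ 0) {g : GG n} (hg : g ∈ plus Γ)
    (h : (g : Op n) = vert (e • p) τ) : ∃ c : ℝ, 0 < c ∧ Cusp Γ ((c : ℂ) • rk1 p p) := by
  obtain ⟨a, ha, -, hc⟩ := exists_cusp hΓ (vert_of (smul_ne_zero he hp0)
    (by rw [form_smul_left, form_smul_right, hp, mul_zero, mul_zero]) hτ hg h)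
  rw [rk1_smul_self, smul_smul, smul_smul, ← Complex.ofReal_mul, ← Complex.ofReal_mul] at hc
  exact ⟨_, by have := abs_pos.2 hτ; have := norm_pos_iff.2 he; positivity, hc⟩

/-- finitely many conjugates under the stabiliser of the line -/
theorem s6a_fin {Γ : Subgroup (GG n)} (hΓ : Proper Γ) {d : GG n} (hd : d ∈ Γ)
    (hdk : kappa (d : Op n) < eps) {p : V n} (hp0 : p ≠ 0) (hp : form p p = 0) {b : ℂ}
    (hb : ‖b‖ = 1) (hdp : (d : Op n) p = b • p)
    (hc : ∀ g ∈ Γ, ∀ x ∈ Neg n, uu (g : Op n) x ≤ eps → uu (d : Op n) x ≤ eps → Commute g d) :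
    {δ : GG n | ∃ g ∈ Γ, (∃ c : ℂ, ‖c‖ = 1 ∧ (g : Op n) p = c • p) ∧ δ = g * d * g⁻¹}.Finite := by
  by_contra hinf
  obtain ⟨m, hm⟩ := pack_dim n 2 (ε := eps) (by norm_num [eps])
  have f := Set.Infinite.natEmbedding _ hinf
  choose g hg hgp hgd using fun i : Fin (m + 1) => (f i).2
  choose c hc1 hgp using hgp
  obtain ⟨a, ha, hx0⟩ := s6a_scale oo_mem_Neg hp0 hp
  have h1 : ∀ᶠ t : ℝ in atTop, ∀ i, CC (a • oo n + (t : ℂ) • p)
      ((g i : Op n) (a • oo n + (t : ℂ) • p)) ≤ 2 := eventually_all.2 fun i =>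
    (tendsto_CC_up (hΓ.isom _ (hg i)) hp hx0 (hc1 i) (hgp i)).eventually_le_const one_lt_two
  have h2 := (tendsto_CC_up (hΓ.isom _ hd) hp hx0 hb hdp).eventually_le_const
    (show (1 : ℝ) < 1 + (eps - kappa (d : Op n)) / 4 by linarith only [hdk])
  obtain ⟨t, ⟨ht1, ht2⟩, ht0⟩ := ((h1.and h2).and (eventually_ge_atTop 0)).exists
  have hx : a • oo n + (t : ℂ) • p ∈ Neg n := by
    have k1 := NN_sub_null hp hx0 (-t)
    have k2 : 0 < NN (a • oo n) := smul_mem_Neg ha oo_mem_Neg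
    rw [Complex.ofReal_neg, neg_smul, sub_neg_eq_add] at k1
    rw [mem_Neg, k1]
    linarith only [ht0, k2]
  obtain ⟨i, j, hij, hu⟩ := hm _ hx g (fun i => hΓ.isom _ (hg i)) ht1
  have h3 := hc _ (Γ.mul_mem (Γ.inv_mem (hg i)) (hg j)) _ hx hu.le (by rw [uu]; linarith only [ht2])
  refine hij (Fin.ext (f.injective (Subtype.ext ?_)))
  rw [hgd i, hgd j]
  calc g i * d * (g i)⁻¹ = g i * (d * ((g i)⁻¹ * g j)) * (g j)⁻¹ := by group
    _ = g j * d * (g j)⁻¹ := by rw [← h3.eq]; group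

theorem cusp_of_par {Γ : Subgroup (GG n)} (hΓ : Proper Γ) {ε : ℝ} (hε0 : 0 < ε) (hε : ε ≤ eps)
    (hT : Cocpt Γ (Thick Γ ε))
    (hE : ∀ g ∈ Γ, Ell (g : Op n) → ¬ IsScalar (g : Op n) → ε ≤ kappa (g : Op n))
    {d : GG n} (hd : d ∈ Γ) (hdE : ¬ Ell (d : Op n)) (hdk : kappa (d : Op n) < ε) {p : V n}
    (hp0 : p ≠ 0) (hp : form p p = 0) {b : ℂ} (hb : ‖b‖ = 1) (hdp : (d : Op n) p = b • p) :
    ∃ c : ℝ, 0 < c ∧ Cusp Γ ((c : ℂ) • rk1 p p) ∧ ∀ t : ℝ, 0 < t →
      Cocpt Γ ({x | x ∈ Neg n ∧ uu (d : Op n) x < ε} \ Tube ((c : ℂ) • rk1 p p) t) := by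
  obtain ⟨R, h0, H0, hh0, hR⟩ := s6a_exit hΓ hε0 hε hT hE hd hdE hdk hp0 hp hb hdp
  have hdi := hΓ.isom d hd
  have hb0 : b ≠ 0 := norm_ne_zero_iff.1 (by rw [hb]; exact one_ne_zero)
  have hcusp : ∃ c : ℝ, 0 < c ∧ Cusp Γ ((c : ℂ) • rk1 p p) := by
    by_cases hc : ∀ g ∈ Γ, ∀ x ∈ Neg n, uu (g : Op n) x ≤ eps → uu (d : Op n) x ≤ eps →
      Commute g d
    · obtain ⟨K, hK⟩ := ((s6a_fin hΓ hd (hdk.trans_le hε) hp0 hp hb hdp hc).image
        fun δ : GG n => CC (oo n) ((δ : Op n) (oo n))).bddAbove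
      have hb' : ‖b⁻¹‖ = 1 := by rw [norm_inv, hb, inv_one]
      obtain ⟨τ, hτ⟩ := vert_of_bdd (hdi.smul hb') hp0 hp
        (by rw [smul_apply, hdp, smul_smul, inv_mul_cancel₀ hb0, one_smul])
        (B := 4 * (1 / h0 + H0) * (4 * (4 * R * (4 * K * R)) * (1 / h0 + H0))) fun x hxp hN => by
          clear * - n x hN h0 H0 d ε Γ p R b K hR hxp hΓ hd hh0 hK hb0 hdi
          have hx : x ∈ Neg n := by rw [mem_Neg, hN]; exact one_pos
          obtain ⟨x', hx', k1, k2, k3, -, g, hg, hgp, hC⟩ := hR x hx hxp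
          have hgi := hΓ.isom g hg
          have hδ := hΓ.isom _ (Γ.mul_mem (Γ.mul_mem hg hd) (Γ.inv_mem hg))
          have hy := hgi.mem_Neg.2 hx'
          have k4 : CC x x' ≤ 1 / h0 + H0 := by
            rw [hN, div_one] at k3
            exact k3.trans (add_le_add (one_div_le_one_div_of_le hh0 k1) k2)
          have k5 : CC ((g : Op n) x') (((g * d * g⁻¹ : GG n) : Op n) ((g : Op n) x')) ≤
              4 * R * (4 * K * R) :=
            s6a_tri hy oo_mem_Neg (hδ.mem_Neg.2 hy) (by rwa [CC_comm])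
              (s6a_tri oo_mem_Neg (hδ.mem_Neg.2 oo_mem_Neg) (hδ.mem_Neg.2 hy)
                (hK ⟨_, ⟨g, hg, hgp, rfl⟩, rfl⟩) (by rwa [hδ.CC_apply]))
          rw [Units.val_mul, Units.val_mul, mul_apply_eq_comp, inv_apply_apply, mul_apply_eq_comp,
            hgi.CC_apply] at k5
          rw [smul_apply, CC_smul_right (inv_ne_zero hb0)]
          exact s6a_tri hx hx' (hdi.mem_Neg.2 hx) k4 (s6a_tri hx' (hdi.mem_Neg.2 hx')
            (hdi.mem_Neg.2 hx) k5 (by rwa [hdi.CC_apply, CC_comm]))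
      obtain ⟨u, hu, hu'⟩ := InP.exists_unit (Γ := Γ) ⟨b⁻¹, hb', d, hd, rfl⟩
      refine s6a_cusp hΓ hp0 hp one_ne_zero (τ := τ) ?_ hu (by rw [hu', hτ, one_smul])
      rintro rfl
      refine hdE ⟨oo n, oo_mem_Neg, b, ?_⟩
      have k1 := congrArg (fun T : Op n => b • T (oo n)) hτ
      simpa only [vert_zero, smul_apply, smul_smul, mul_inv_cancel₀ hb0, one_smul,
        one_apply_eq_self] using k1
    · push Not at hc
      obtain ⟨g, hg, x, hx, h1, h2, h3⟩ := hc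
      obtain ⟨-, -, q, hq0, hq, -, ⟨b', -, hdq⟩, τ, hτ, h4⟩ :=
        (thmZ hΓ hx (le_plus Γ hg) (le_plus Γ hd) h1 h2).resolve_left h3
      obtain ⟨e, rfl⟩ := null_unique hdi hdE hp0 hp hq hb hdp hdq
      exact s6a_cusp hΓ hp0 hp (left_ne_zero_of_smul hq0) hτ
        (le_plus Γ (comm_mem (le_plus Γ hg) (le_plus Γ hd))) h4
  obtain ⟨c, hc0, hc⟩ := hcusp
  refine ⟨c, hc0, hc, fun t ht => ⟨4 * R * (c / t / h0 + 1), ?_⟩⟩
  rintro x ⟨⟨hx, hu⟩, hout⟩
  obtain ⟨a, ha, hxp⟩ := s6a_scale hx hp0 hp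
  have hx1 := smul_mem_Neg ha hx
  have hN : 0 < NN (a • x) := hx1
  obtain ⟨x', hx', k1, -, k3, k4, g, hg, -, hC⟩ := hR _ hx1 hxp
  have hgi := hΓ.isom g hg
  have k5 : t ≤ mu ((c : ℂ) • rk1 p p) x := not_lt.1 fun h => hout ⟨hx, h⟩
  rw [← mu_smul _ ha, mu_real_smul, mu, form_rk1_self, hxp, Complex.ofReal_re, norm_neg, norm_one,
    one_pow, mul_one_div, le_div_iff₀ hN, ← le_div_iff₀' ht] at k5
  have k6 : CC (a • x) x' ≤ c / t / h0 + 1 :=
    k3.trans (add_le_add (div_le_div₀ (by positivity) k5 hh0 k1)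
      ((div_le_one hN).2 (k4 (by rwa [uu_smul_right ha]))))
  refine ⟨g, hg, s6a_tri oo_mem_Neg (hgi.mem_Neg.2 hx') (hgi.mem_Neg.2 hx) hC ?_⟩
  rwa [hgi.CC_apply, CC_comm, ← CC_smul_left ha]

end BallQ
end
end

-- merged part: Pool.Agent.Work.MP_72250f_ag.S6
section
/-!
cusp_of_par. On the compact set of exit points |<x,p>|^2 / NN x lies between two positive constants b0, B0
(isCompact_slice, form_ne_zero_of_neg), and it is invariant under the stabiliser of p. Existence of the cusp generator: if some g in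
plus Gamma is small together with d at a point and does not commute with d, thmZ, null_unique, vert_of, exists_cusp give it.
Otherwise the conjugates of d under the stabiliser of the line of p in Gamma form a finite set: for m+1 elements gamma_i of the
stabiliser take x high so that all displacements are at most 2 and uu d x < eps (tendsto_CC_up, no_lox), pack_dim gives
gamma_i^-1 gamma_j small, it commutes with d. Hence CC x' (d x') is bounded on exit points x', and on the horosphere NN = 1 by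
CC_vertical and CC_tri; vert_of_bdd shows that d / b is a vertical translation, nontrivial since d is not elliptic.
Cocompactness: x with uu d x < eps has its exit point below, mu Mc x >= t, so NN x / NN x' is bounded (CC_vertical).
lox_cocpt: q from lox_dual, x = a p + b q + z with NN x = 1; z is orthogonal to p, q and d z too; with zeta = a conj b:
sqrt CC >= |rho zeta + conj zeta / rho| - (2 Re zeta - 1), so zeta is bounded; a power of d makes |a| lie in [1, rho]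
or [1, 1/rho]; then x is bounded and CC oo x is bounded (norm_sq_CC).
-/

open scoped ComplexConjugate ENNReal Topology
open MeasureTheory Filter

noncomputable section

namespace BallQ

variable {n : ℕ}

theorem s6_scale {σ : ℝ} (h0 : 0 < σ) (h1 : σ ≠ 1) :
    ∃ r : ℝ, ∀ t : ℝ, 0 < t → ∃ k : ℤ, 1 ≤ t * σ ^ k ∧ t * σ ^ k ≤ r := by
  have key : ∀ y : ℝ, 1 < y → ∀ t : ℝ, 0 < t → ∃ k : ℤ, 1 ≤ t * y ^ k ∧ t * y ^ k ≤ y := by
    intro y hy t ht
    obtain ⟨m, hm1, hm2⟩ := exists_mem_Ico_zpow ht hy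
    have hy0 : 0 < y := by linarith only [hy]
    have hp : 0 < y ^ m := zpow_pos hy0 m
    refine ⟨-m, ?_, ?_⟩
    · rw [zpow_neg, ← div_eq_mul_inv, le_div_iff₀ hp, one_mul]
      exact hm1
    · rw [zpow_neg, ← div_eq_mul_inv, div_le_iff₀ hp, mul_comm, ← zpow_add_one₀ hy0.ne']
      exact hm2.le
  rcases lt_or_gt_of_ne h1 with h | h
  · refine ⟨σ⁻¹, fun t ht => ?_⟩
    obtain ⟨k, hk⟩ := key σ⁻¹ ((one_lt_inv₀ h0).2 h) t ht
    refine ⟨-k, ?_⟩
    rwa [zpow_neg, ← inv_zpow]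
  · exact ⟨σ, key σ h⟩

theorem s6_zpow {d : GG n} {p : V n} {l : ℂ} (hl : l ≠ 0) (hdp : (d : Op n) p = l • p) (k : ℤ) :
    ((d ^ k : GG n) : Op n) p = l ^ k • p := by
  have hinv : ((d⁻¹ : GG n) : Op n) p = l⁻¹ • p := by
    have h1 := inv_apply_apply d p
    rw [hdp, map_smul] at h1
    rw [← h1, smul_smul, inv_mul_cancel₀ hl, one_smul, h1]
  induction k using Int.induction_on with
  | zero => simp
  | succ k ih =>
    rw [zpow_add_one, Units.val_mul, zpow_add_one₀ hl]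
    change ((d ^ (k : ℤ) : GG n) : Op n) ((d : Op n) p) = _
    rw [hdp, map_smul, ih, smul_smul, mul_comm]
  | pred k ih =>
    rw [zpow_sub_one, Units.val_mul, zpow_sub_one₀ hl]
    change ((d ^ (-(k : ℤ)) : GG n) : Op n) (((d⁻¹ : GG n) : Op n) p) = _
    rw [hinv, map_smul, ih, smul_smul, mul_comm]

theorem s6_real {ρ R' : ℝ} (h0 : 0 < ρ) (h1 : ρ ≠ 1) (hR : 0 ≤ R') :
    ∃ K : ℝ, ∀ u v N s W T : ℝ, 0 < N → 0 ≤ s → 0 ≤ W → 2 * u = N + s → W ≤ T + s → T ≤ R' * N →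
      W ^ 2 * ρ ^ 2 = (1 + ρ ^ 2) ^ 2 * u ^ 2 + (1 - ρ ^ 2) ^ 2 * v ^ 2 → |u| + |v| ≤ K * N := by
  have hc : 0 < (1 - ρ) ^ 2 := by
    have : 1 - ρ ≠ 0 := sub_ne_zero.2 h1.symm
    positivity
  have hc2 : 0 < |1 - ρ ^ 2| := by
    rw [abs_pos]
    have : 1 - ρ ^ 2 = (1 - ρ) * (1 + ρ) := by ring
    rw [this]
    exact mul_ne_zero (sub_ne_zero.2 h1.symm) (by positivity)
  refine ⟨ρ * R' / (1 - ρ) ^ 2 + ρ * (R' + 2 * (ρ * R' / (1 - ρ) ^ 2)) / |1 - ρ ^ 2|, ?_⟩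
  intro u v N s W T hN hs hW hu hWT hT he
  have hu0 : 0 ≤ u := by linarith only [hN, hs, hu]
  have hWρ : 0 ≤ W * ρ := by positivity
  have a1 : (1 + ρ ^ 2) * u ≤ W * ρ := by
    clear * - W ρ u v he hWρ
    refine abs_le_of_sq_le_sq' ?_ hWρ |>.2
    linarith only [he, sq_nonneg ((1 - ρ ^ 2) * v), sq_nonneg (((1 : ℝ) - ρ ^ (2 : ℕ)) * v)]
  have a2 : |1 - ρ ^ 2| * |v| ≤ W * ρ := by
    clear * - ρ v W u he hWρ
    rw [← abs_mul]
    refine abs_le.2 (abs_le_of_sq_le_sq' ?_ hWρ)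
    linarith only [he, sq_nonneg ((1 + ρ ^ 2) * u), sq_nonneg (((1 : ℝ) + ρ ^ (2 : ℕ)) * u)]
  have a3 : W * ρ ≤ (R' * N + 2 * u) * ρ := mul_le_mul_of_nonneg_right (by linarith only [hN, hu, hWT, hT]) h0.le
  have b1 : u ≤ ρ * R' / (1 - ρ) ^ 2 * N := by
    clear * - u ρ R' N hc W a1 a3
    rw [div_mul_eq_mul_div, le_div_iff₀ hc]
    linarith only [a1, a3]
  have b2 : |v| ≤ ρ * (R' + 2 * (ρ * R' / (1 - ρ) ^ 2)) / |1 - ρ ^ 2| * N := by
    clear * - v ρ R' N hc2 u b1 h0 W a2 a3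
    rw [div_mul_eq_mul_div, le_div_iff₀ hc2]
    have : (R' * N + 2 * u) * ρ ≤ (R' * N + 2 * (ρ * R' / (1 - ρ) ^ 2 * N)) * ρ :=
      mul_le_mul_of_nonneg_right (by linarith only [b1]) h0.le
    linarith only [a2, a3, this]
  rw [abs_of_nonneg hu0, add_mul]
  linarith only [b1, b2]

theorem s6_bound {d : Op n} (hd : IsIsom d) {p q : V n} (hp0 : p ≠ 0) (hp : form p p = 0)
    (hq : form q q = 0) (hqp : form q p = -1) {l : ℂ} (hl0 : l ≠ 0) (hl : ‖l‖ ≠ 1)
    (hdp : d p = l • p) (hdq : d q = (conj l)⁻¹ • q) (R : ℝ) :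
    ∃ K : ℝ, ∀ x ∈ Neg n, CC x (d x) ≤ R → ‖form x p‖ * ‖form x q‖ ≤ K * NN x := by
  have hρ : 0 < ‖l‖ := norm_pos_iff.2 hl0
  obtain ⟨K, hK⟩ := s6_real hρ hl (R' := |R| + 1) (by positivity)
  refine ⟨K, fun x hx hR => ?_⟩
  have hN : 0 < NN x := hx
  have hpq : form p q = -1 := by rw [← form_conj, hqp]; simp
  have hl0' : conj l ≠ 0 := by simpa using hl0
  obtain ⟨α, hα⟩ : ∃ α, α = form x p := ⟨_, rfl⟩
  obtain ⟨β, hβ⟩ : ∃ β, β = form x q := ⟨_, rfl⟩
  obtain ⟨z, hz⟩ : ∃ z, z = x + β • p + α • q := ⟨_, rfl⟩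
  have hzp : form z p = 0 := by
    rw [hz, form_add_left, form_add_left, form_smul_left, form_smul_left, hp, hqp, ← hα]
    ring
  have hzq : form z q = 0 := by
    rw [hz, form_add_left, form_add_left, form_smul_left, form_smul_left, hq, hpq, ← hβ]
    ring
  have hpz : form p z = 0 := form_eq_zero_comm.1 hzp
  have hqz : form q z = 0 := form_eq_zero_comm.1 hzq
  have hdzp : form (d z) p = 0 := by
    have h1 := hd z p
    rw [hdp, form_smul_right, hzp] at h1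
    exact (mul_eq_zero.1 h1).resolve_left hl0'
  have hdzq : form (d z) q = 0 := by
    have h1 := hd z q
    rw [hdq, form_smul_right, hzq] at h1
    refine (mul_eq_zero.1 h1).resolve_left ?_
    simpa using hl0
  have hpdz : form p (d z) = 0 := form_eq_zero_comm.1 hdzp
  have hqdz : form q (d z) = 0 := form_eq_zero_comm.1 hdzq
  have hx' : x = z - β • p - α • q := by rw [hz]; abel
  have hNp : 0 ≤ NN p := by simp [NN, hp]
  have hs : NN z ≤ 0 := nonpos_of_perp hp0 hNp hzp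
  obtain ⟨ζ, hζ⟩ : ∃ ζ, ζ = β * conj α := ⟨_, rfl⟩
  have e1 : form x x = form z z - (ζ + conj ζ) := by
    conv_lhs => rw [hx']
    simp only [form_sub_left, form_sub_right, form_smul_left, form_smul_right, hzp, hzq, hpz, hqz,
      hp, hq, hpq, hqp, hζ, map_mul, Complex.conj_conj]
    ring
  have e2 : 2 * ζ.re = NN x + -NN z := by
    have h1 := congrArg Complex.re e1
    simp only [Complex.sub_re, Complex.add_re, Complex.conj_re] at h1
    unfold NN
    linarith only [h1]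
  have e3 : form x (d x) = form z (d z) - (ζ * l⁻¹ + conj ζ * conj l) := by
    clear * - n d x z β l p α q hx' hdp hdq ζ hpdz hqdz hzp hp hqp hzq hpq hq hζ
    have h1 : d x = d z - (β * l) • p - (α * (conj l)⁻¹) • q := by
      conv_lhs => rw [hx']
      rw [map_sub, map_sub, map_smul, map_smul, hdp, hdq, smul_smul, smul_smul]
    rw [h1]
    conv_lhs => rw [hx']
    simp only [form_sub_left, form_sub_right, form_smul_left, form_smul_right, hzp, hzq, hpdz,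
      hqdz, hp, hq, hpq, hqp, hζ, map_mul, map_inv₀, Complex.conj_conj]
    ring
  have e4 : ‖form z (d z)‖ ≤ -NN z := by
    clear * - n z d p hp0 hNp hzp hdzp hd hs
    have h1 := cs_perp hp0 hNp hzp hdzp
    rw [hd.NN_apply] at h1
    refine (abs_le_of_sq_le_sq' ?_ (by linarith)).2
    linarith only [h1]
  have e5 : ‖form x (d x)‖ ≤ (|R| + 1) * NN x := by
    clear * - R n x d hN hd hR
    unfold CC at hR
    rw [hd.NN_apply, div_le_iff₀ (by positivity)] at hR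
    refine (abs_le_of_sq_le_sq' ?_ (by positivity)).2
    have h1 : R ≤ (|R| + 1) ^ 2 := by (refine le_of_not_gt fun h_nl => ?_; linarith only [h_nl, le_abs_self R, abs_nonneg R, sq_nonneg (|R| + (1 : ℝ)), mul_nonneg_of_nonpos_of_nonpos (Mathlib.Tactic.Linarith.sub_nonpos_of_le (sq_nonneg (|R| + (1 : ℝ)))) (Mathlib.Tactic.Linarith.sub_nonpos_of_le (sq_nonneg (|R| + (1 : ℝ)))), mul_nonneg_of_nonpos_of_nonpos (Mathlib.Tactic.Linarith.sub_nonpos_of_le (sq_nonneg (|R| + (1 : ℝ)))) (le_of_lt (Mathlib.Tactic.Linarith.sub_neg_of_lt h_nl)), mul_nonneg_of_nonpos_of_nonpos (Mathlib.Tactic.Linarith.sub_nonpos_of_le (sq_nonneg (|R| + (1 : ℝ)))) (Mathlib.Tactic.Linarith.sub_nonpos_of_le (le_abs_self R)), mul_pos_of_neg_of_neg (Mathlib.Tactic.Linarith.sub_neg_of_lt h_nl) (Mathlib.Tactic.Linarith.sub_neg_of_lt h_nl), mul_nonneg_of_nonpos_of_nonpos (le_of_lt (Mathlib.Tactic.Linarith.sub_neg_of_lt h_nl)) (Mathlib.Tactic.Linarith.sub_nonpos_of_le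 (le_abs_self R)), mul_nonneg_of_nonpos_of_nonpos (Mathlib.Tactic.Linarith.sub_nonpos_of_le (le_abs_self R)) (Mathlib.Tactic.Linarith.sub_nonpos_of_le (le_abs_self R))])
    have h2 := mul_le_mul_of_nonneg_right h1 (by positivity : 0 ≤ NN x * NN x)
    linarith only [hR, h2]
  have e6 : ‖ζ * l⁻¹ + conj ζ * conj l‖ ≤ ‖form x (d x)‖ + -NN z := by
    have h1 : ζ * l⁻¹ + conj ζ * conj l = form z (d z) - form x (d x) := by rw [e3]; ring
    rw [h1]
    linarith only [e4, norm_sub_le (form z (d z)) (form x (d x))]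
  have e7 : ‖ζ * l⁻¹ + conj ζ * conj l‖ ^ 2 * ‖l‖ ^ 2 =
      (1 + ‖l‖ ^ 2) ^ 2 * ζ.re ^ 2 + (1 - ‖l‖ ^ 2) ^ 2 * ζ.im ^ 2 := by
    rw [← mul_pow, ← norm_mul]
    have h1 : (ζ * l⁻¹ + conj ζ * conj l) * l = ζ + conj ζ * ((‖l‖ ^ 2 : ℝ) : ℂ) := by
      rw [add_mul, mul_assoc, inv_mul_cancel₀ hl0, mul_one, mul_assoc, mul_comm (conj l) l,
        Complex.mul_conj, Complex.normSq_eq_norm_sq]
    rw [h1, Complex.sq_norm, Complex.normSq_apply]
    simp only [Complex.add_re, Complex.add_im, Complex.mul_re, Complex.mul_im, Complex.conj_re,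
      Complex.conj_im, Complex.ofReal_re, Complex.ofReal_im]
    ring
  have h := hK ζ.re ζ.im (NN x) (-NN z) _ _ hN (by linarith only [hs]) (norm_nonneg _) e2 e6 e5 e7
  have h2 : ‖ζ‖ = ‖form x p‖ * ‖form x q‖ := by
    rw [hζ, norm_mul, Complex.norm_conj, hα, hβ, mul_comm]
  rw [← h2]
  exact (Complex.norm_le_abs_re_add_abs_im ζ).trans h

theorem lox_cocpt {Γ : Subgroup (GG n)} (hΓ : Proper Γ) {d : GG n} (hd : d ∈ Γ) {p : V n}
    (hp0 : p ≠ 0) {l : ℂ} (hl : ‖l‖ ≠ 1) (hdp : (d : Op n) p = l • p) (R : ℝ) :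
    Cocpt Γ {x | x ∈ Neg n ∧ CC x ((d : Op n) x) ≤ R} := by
  have hiso := hΓ.isom d hd
  have hp := lox_null hiso hl hdp
  obtain ⟨q, hq, hqp, hdq⟩ := lox_dual hiso hp0 hl hdp
  have hl0 : l ≠ 0 := by
    rintro rfl
    rw [zero_smul] at hdp
    exact hp0 (hiso.injective (by rw [hdp, map_zero]))
  have hρ : 0 < ‖l‖ := norm_pos_iff.2 hl0
  obtain ⟨K, hK⟩ := s6_bound hiso hp0 hp hq hqp hl0 hl hdp hdq R
  obtain ⟨r, hr⟩ := s6_scale (σ := ‖l‖ ^ 2) (by positivity)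
    (fun h => hl ((pow_eq_one_iff_of_nonneg hρ.le two_ne_zero).1 h))
  have hpq : form p q = -1 := by rw [← form_conj, hqp]; simp
  have hN0 : NN (p + q) = 2 := by
    rw [NN_add, hpq]
    simp [NN, hp, hq]
  have hx0 : p + q ∈ Neg n := by
    rw [mem_Neg, hN0]
    norm_num
  have hNp : 0 ≤ NN p := by simp [NN, hp]
  refine ⟨4 * CC (oo n) (p + q) * (r + K ^ 2), ?_⟩
  rintro x ⟨hx, hR⟩
  have hN : 0 < NN x := hx
  have hα : 0 < ‖form x p‖ := by
    rw [norm_form_comm]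
    exact norm_pos_iff.2 (form_ne_zero_of_neg hx hp0 hNp)
  obtain ⟨k, hk1, hk2⟩ := hr (‖form x p‖ ^ 2 / NN x) (by positivity)
  have hg : d ^ (-k) ∈ Γ := Γ.zpow_mem hd _
  have hgi := hΓ.isom _ hg
  refine ⟨d ^ (-k), hg, ?_⟩
  obtain ⟨y, hy⟩ : ∃ y, y = ((d ^ (-k) : GG n) : Op n) x := ⟨_, rfl⟩
  rw [← hy]
  have hyN : y ∈ Neg n := by rw [hy]; exact hgi.mem_Neg.2 hx
  have hNy : NN y = NN x := by rw [hy, hgi.NN_apply]
  have hRy : CC y ((d : Op n) y) ≤ R := by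
    have h1 : (d : Op n) y = ((d ^ (-k) : GG n) : Op n) ((d : Op n) x) := by
      rw [hy]
      change ((d : Op n) * ((d ^ (-k) : GG n) : Op n)) x = (((d ^ (-k) : GG n) : Op n) * d) x
      rw [← Units.val_mul, ← Units.val_mul, (Commute.self_zpow d (-k)).eq]
    rw [h1]
    conv_lhs => rw [hy]
    rw [hgi.CC_apply]
    exact hR
  have hαy : ‖form y p‖ ^ 2 = ‖form x p‖ ^ 2 * (‖l‖ ^ 2) ^ k := by
    clear * - n y p x l k d hy hgi hl0 hdp
    rw [hy, hgi.form_left, ← zpow_neg, neg_neg, s6_zpow hl0 hdp, form_smul_right, norm_mul,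
      Complex.norm_conj, norm_zpow, mul_pow, mul_comm, ← zpow_natCast (‖l‖ ^ k),
      ← zpow_natCast ‖l‖, ← zpow_mul, ← zpow_mul, mul_comm k]
  have h1 : NN x ≤ ‖form y p‖ ^ 2 := by
    rw [div_mul_eq_mul_div, le_div_iff₀ hN, one_mul] at hk1
    rwa [hαy]
  have h2 : ‖form y p‖ ^ 2 ≤ r * NN x := by
    rw [div_mul_eq_mul_div, div_le_iff₀ hN] at hk2
    rwa [hαy]
  have h3 := hK y hyN hRy
  rw [hNy] at h3
  have h4 : ‖form y q‖ ^ 2 ≤ K ^ 2 * NN x := by
    clear * - n y p q K x h3 h1 hN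
    have h5 : (‖form y p‖ * ‖form y q‖) ^ 2 ≤ (K * NN x) ^ 2 :=
      pow_le_pow_left₀ (by positivity) h3 2
    have h6 : NN x * ‖form y q‖ ^ 2 ≤ ‖form y p‖ ^ 2 * ‖form y q‖ ^ 2 :=
      mul_le_mul_of_nonneg_right h1 (by positivity)
    refine le_of_mul_le_mul_left ?_ hN
    linarith only [h5, h6]
  have h5 : CC (p + q) y ≤ r + K ^ 2 := by
    clear * - n p q y r K hN0 x hNy hN h2 h4
    rw [CC_comm]
    unfold CC
    rw [hN0, hNy, div_le_iff₀ (by positivity), form_add_right]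
    have h6 := norm_add_le (form y p) (form y q)
    have h7 : ‖form y p + form y q‖ ^ 2 ≤ (‖form y p‖ + ‖form y q‖) ^ 2 :=
      pow_le_pow_left₀ (norm_nonneg _) h6 2
    linarith only [h2, h4, h7, sq_nonneg (‖form y p‖ - ‖form y q‖), sq_nonneg (‖form y p‖ - ‖form y q‖)]
  refine (CC_tri oo_mem_Neg hx0 hyN).trans ?_
  have h6 := one_le_CC (oo_mem_Neg (n := n)) hx0
  exact mul_le_mul_of_nonneg_left h5 (by linarith only [h6])

end BallQ
end
end

-- merged part: Pool.Agent.Work.MP_72250f_ag.S7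
section
/-!
Structure theorem. Take e = min eps kappa0 (kappa_zero). A point x outside Thick e has SW top e x nonempty; visible
(W = top) gives d small at x and a thick y with uu d y <= e; conjugate by gamma so that y is in the compact set, then
d' = gamma d gamma^-1 lies in a finite set (fin_uu) and uu d' (gamma x) < e. d' is not elliptic (kappa <= uu < e); pontryagin gives
a null eigenvector; lox_cocpt (CC_le_of_uu) or cusp_of_par; region_HB for invariance; Cocpt.biUnion.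
hasVC: x_t = x + t p goes up, CC x_t (g x_t) tends to 1. If gamma x_t were in the compact set for arbitrarily large t, a conjugate
of (the Gamma part of) g from a finite set (fin_cpt) would have displacement arbitrarily close to 1 on a compact set
(isCompact_slice, continuousOn_CC), hence a negative eigenvector. So some x_t with CC <= 2 lies in a Tube Mc t1,
near_fix_cusp and fix_of_commute_vert show that g fixes the line p' of Mc, null_unique gives p' multiple of p.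
-/

open scoped ComplexConjugate ENNReal Topology
open MeasureTheory Filter

noncomputable section

namespace BallQ

variable {n : ℕ}

theorem s7_scalar_iff {g : Op n} :
    (∃ c : ℂ, ∀ v ∈ (⊤ : Submodule ℂ (V n)), g v = c • v) ↔ IsScalar g := by
  constructor
  · rintro ⟨c, hc⟩
    refine ⟨c, ?_⟩
    ext1 v
    rw [hc v Submodule.mem_top, smul_apply, one_apply_eq_self]
  · rintro ⟨c, rfl⟩
    exact ⟨c, fun v _ => by rw [smul_apply, one_apply_eq_self]⟩

theorem s7_coe_cnj (γ d : GG n) : ((γ * d * γ⁻¹ : GG n) : Op n) = cnj γ (d : Op n) := by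
  simp only [cnj, Units.val_mul]

theorem s7_cnj_apply (γ d : GG n) (v : V n) :
    ((γ * d * γ⁻¹ : GG n) : Op n) ((γ : Op n) v) = (γ : Op n) ((d : Op n) v) := by
  rw [s7_coe_cnj, cnj_apply, inv_apply_apply]

theorem s7_scalar_cnj {γ d : GG n} (h : IsScalar ((γ * d * γ⁻¹ : GG n) : Op n)) :
    IsScalar (d : Op n) := by
  obtain ⟨c, hc⟩ := h
  refine ⟨c, ?_⟩
  ext1 v
  have h1 := s7_cnj_apply γ d v
  rw [hc, smul_apply, one_apply_eq_self, ← map_smul] at h1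
  have h2 := congrArg ((γ⁻¹ : GG n) : Op n) h1
  rw [inv_apply_apply, inv_apply_apply] at h2
  rw [← h2, smul_apply, one_apply_eq_self]

theorem s7_ell_cnj {γ d : GG n} (hγ : IsIsom (γ : Op n))
    (h : Ell ((γ * d * γ⁻¹ : GG n) : Op n)) : Ell (d : Op n) := by
  obtain ⟨y, hy, c, hc⟩ := h
  refine ⟨((γ⁻¹ : GG n) : Op n) y, hγ.inv.mem_Neg.2 hy, c, ?_⟩
  have h1 := s7_cnj_apply γ d (((γ⁻¹ : GG n) : Op n) y)
  rw [apply_inv_apply, hc] at h1
  have h2 := congrArg ((γ⁻¹ : GG n) : Op n) h1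
  rw [inv_apply_apply, map_smul] at h2
  exact h2.symm

theorem s7_piece {Γ : Subgroup (GG n)} (hΓ : Proper Γ) {e : ℝ} (he0 : 0 < e) (he : e ≤ eps)
    (hT : Cocpt Γ (Thick Γ e))
    (hE : ∀ g ∈ Γ, Ell (g : Op n) → ¬ IsScalar (g : Op n) → e ≤ kappa (g : Op n))
    {t : ℝ} (ht : 0 < t) {d : GG n} (hd : d ∈ Γ) (hds : ¬ IsScalar (d : Op n)) :
    Cocpt Γ {x | x ∈ Neg n \ HB Γ t ∧ uu (d : Op n) x < e} := by
  have hdi := hΓ.isom d hd
  by_cases hne : ∃ x ∈ Neg n, uu (d : Op n) x < e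
  swap
  · exact ⟨0, fun x hx => absurd ⟨x, hx.1.1, hx.2⟩ hne⟩
  obtain ⟨x0, hx0, hu0⟩ := hne
  have hk : kappa (d : Op n) < e := (kappa_le_uu hdi hx0).trans_lt hu0
  have hdE : ¬ Ell (d : Op n) := fun h => absurd (hE d hd h hds) (not_le.2 hk)
  obtain ⟨p, -, hp0, hpN, c, hc⟩ := pontryagin ⊤ hdi (fun _ _ => Submodule.mem_top)
    ⟨x0, Submodule.mem_top, hx0⟩
  have hpN' : NN p = 0 := by
    rcases hpN.eq_or_lt with h | h
    · exact h.symm
    · exact absurd ⟨p, h, c, hc⟩ hdE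
  have hp : form p p = 0 := by rw [form_self, hpN']; simp
  by_cases hc1 : ‖c‖ = 1
  · obtain ⟨a, -, hcu, hco⟩ := cusp_of_par hΓ he0 he hT hE hd hdE hk hp0 hp hc1 hc
    refine (hco t ht).mono ?_
    rintro x ⟨⟨hx, hxH⟩, hu⟩
    refine ⟨⟨hx, hu⟩, fun h => hxH ?_⟩
    simp only [HB, TubeS, Set.mem_iUnion, Set.mem_ofPred_eq]
    exact ⟨_, hcu, h⟩
  · refine (lox_cocpt hΓ hd hp0 hc1 hc ((1 + √e) ^ 2)).mono ?_
    rintro x ⟨⟨hx, -⟩, hu⟩
    refine ⟨hx, (CC_le_of_uu hdi hx).trans ?_⟩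
    have h1 : √(uu (d : Op n) x) ≤ √e := Real.sqrt_le_sqrt hu.le
    have h2 := Real.sqrt_nonneg (uu (d : Op n) x)
    gcongr

theorem s7_gap {h : Op n} (hh : IsIsom h) (hE : ¬ Ell h) (R : ℝ) :
    ∃ δ : ℝ, 0 < δ ∧ ∀ x ∈ Neg n, CC (oo n) x ≤ R → 1 + δ ≤ CC x (h x) := by
  have hsub : ∀ x ∈ {x : V n | NN x = 1 ∧ CC (oo n) x ≤ R}, x ∈ Neg n := by
    intro x hx
    rw [mem_Neg, hx.1]
    exact one_pos
  have red : ∀ δ : ℝ, (∀ x ∈ {x : V n | NN x = 1 ∧ CC (oo n) x ≤ R}, 1 + δ ≤ CC x (h x)) →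
      ∀ x ∈ Neg n, CC (oo n) x ≤ R → 1 + δ ≤ CC x (h x) := by
    intro δ hδ x hx hR
    obtain ⟨c, hc, hc1⟩ := exists_NN_one hx
    have hc0 : (c : ℂ) ≠ 0 := by exact_mod_cast hc.ne'
    have := hδ ((c : ℂ) • x) ⟨hc1, by rw [CC_smul_right hc0]; exact hR⟩
    rwa [map_smul, CC_smul_left hc0, CC_smul_right hc0] at this
  rcases Set.eq_empty_or_nonempty {x : V n | NN x = 1 ∧ CC (oo n) x ≤ R} with he | hne
  · refine ⟨1, one_pos, red 1 fun x hx => ?_⟩
    rw [he] at hx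
    exact hx.elim
  · have hcont : ContinuousOn (fun x : V n => CC x (h x)) {x : V n | NN x = 1 ∧ CC (oo n) x ≤ R} :=
      continuousOn_CC.comp (f := fun x : V n => (x, h x))
        (continuous_id.prodMk h.continuous).continuousOn
        (fun x hx => ⟨hsub x hx, hh.mem_Neg.2 (hsub x hx)⟩)
    obtain ⟨x0, hx0, hmin⟩ := (isCompact_slice R).exists_isMinOn hne hcont
    have h1 : 1 < CC x0 (h x0) := by
      by_contra hle
      obtain ⟨c, hc⟩ := eq_smul_of_CC (hsub x0 hx0) (hh.mem_Neg.2 (hsub x0 hx0)) (not_lt.1 hle)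
      exact hE ⟨x0, hsub x0 hx0, c, hc⟩
    refine ⟨CC x0 (h x0) - 1, by linarith, red _ fun x hx => ?_⟩
    have := hmin hx
    simp only [Set.mem_ofPred_eq] at this
    linarith

theorem structure_thm {Γ : Subgroup (GG n)} (hΓ : Proper Γ)
    (hT : ∀ ε : ℝ, 0 < ε → Cocpt Γ (Thick Γ ε)) {t : ℝ} (ht : 0 < t) :
    Cocpt Γ (Neg n \ HB Γ t) := by
  obtain ⟨κ, hκ, hκE⟩ := kappa_zero hΓ hT
  set e : ℝ := min eps κ with hedef
  have he0 : 0 < e := lt_min (by norm_num [eps]) hκ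
  have he : e ≤ eps := min_le_left _ _
  have hE : ∀ g ∈ Γ, Ell (g : Op n) → ¬ IsScalar (g : Op n) → e ≤ kappa (g : Op n) :=
    fun g hg h1 h2 => (min_le_right _ _).trans (hκE g hg h1 h2)
  obtain ⟨R0, hR0⟩ := hT e he0
  have hfin : {g : GG n | (g ∈ Γ ∧ ∃ x ∈ Neg n, CC (oo n) x ≤ R0 ∧ uu (g : Op n) x ≤ e) ∧
      ¬ IsScalar (g : Op n)}.Finite := (hΓ.fin_uu R0 e).subset fun g hg => hg.1
  obtain ⟨R1, hR1⟩ := Cocpt.biUnion (Γ := Γ) hfin
    (S := fun d : GG n => {x | x ∈ Neg n \ HB Γ t ∧ uu (d : Op n) x < e})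
    (fun d hd => s7_piece hΓ he0 he (hT e he0) hE ht hd.1.1 hd.2)
  refine ⟨max R0 R1, fun x hx => ?_⟩
  by_cases hxT : x ∈ Thick Γ e
  · obtain ⟨g, hg, h⟩ := hR0 x hxT
    exact ⟨g, hg, h.trans (le_max_left _ _)⟩
  have hne : (SW Γ ⊤ e x).Nonempty := by
    by_contra hemp
    refine hxT ⟨hx.1, fun g hg hs => ?_⟩
    by_contra hlt
    exact hemp ⟨g, hg, not_le.1 hlt, fun h => hs (s7_scalar_iff.1 h)⟩
  obtain ⟨d, hd, y, -, hy, hdy, hyS⟩ := visible hΓ ⊤ he (fun _ _ _ _ _ _ _ _ => Submodule.mem_top)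
    Submodule.mem_top hx.1 hne
  have hyT : y ∈ Thick Γ e := by
    refine ⟨hy, fun g hg hs => ?_⟩
    by_contra hlt
    have : g ∈ SW Γ ⊤ e y := ⟨hg, not_le.1 hlt, fun h => hs (s7_scalar_iff.1 h)⟩
    rw [hyS] at this
    exact this
  obtain ⟨γ, hγ, hγy⟩ := hR0 y hyT
  have hγi := hΓ.isom γ hγ
  have hds : ¬ IsScalar (d : Op n) := fun h => hd.2.2 (s7_scalar_iff.2 h)
  obtain ⟨g, hg, h⟩ := hR1 ((γ : Op n) x) (by
    simp only [Set.mem_iUnion]
    refine ⟨γ * d * γ⁻¹, ⟨⟨Γ.mul_mem (Γ.mul_mem hγ hd.1) (Γ.inv_mem hγ), (γ : Op n) y,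
      hγi.mem_Neg.2 hy, hγy, ?_⟩, fun h => hds (s7_scalar_cnj h)⟩,
      ⟨hγi.mem_Neg.2 hx.1, fun h => hx.2 ?_⟩, ?_⟩
    · rw [s7_coe_cnj, uu_cnj hγi]
      exact hdy
    · have := (region_HB hΓ t).inv γ⁻¹ (Γ.inv_mem hγ) _ h
      rwa [inv_apply_apply] at this
    · rw [s7_coe_cnj, uu_cnj hγi]
      exact hd.2.1)
  exact ⟨g * γ, Γ.mul_mem hg hγ, h.trans (le_max_right _ _)⟩

theorem hasVC {Γ : Subgroup (GG n)} (hΓ : Proper Γ) (hS : Cocpt Γ (Neg n \ HB Γ t3)) :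
    HasVC Γ := by
  rintro g hg hE p hp0 hp ⟨a, ha, hgp⟩
  have hgi : IsIsom (g : Op n) := InP.isIsom hΓ hg
  obtain ⟨c0, hc0, γ0, hγ0, hg0⟩ := (hg : InP Γ (g : Op n))
  have hc00 : c0 ≠ 0 := by
    rintro rfl
    simp at hc0
  have hE0 : ¬ Ell (γ0 : Op n) := by
    rintro ⟨y, hy, c, hc⟩
    exact hE ⟨y, hy, c0 * c, by rw [hg0, smul_apply, hc, smul_smul]⟩
  obtain ⟨R, hR⟩ := hS
  have hfin : {h : GG n | (h ∈ Γ ∧ ∃ x ∈ Neg n, CC (oo n) x ≤ R ∧ CC x ((h : Op n) x) ≤ 2) ∧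
      ¬ Ell (h : Op n)}.Finite := (hΓ.fin_cpt R 2).subset fun g hg => hg.1
  have hev : ∀ᶠ δ in 𝓝[>] (0 : ℝ), ∀ h ∈ {h : GG n | (h ∈ Γ ∧ ∃ x ∈ Neg n, CC (oo n) x ≤ R ∧
      CC x ((h : Op n) x) ≤ 2) ∧ ¬ Ell (h : Op n)},
      ∀ x ∈ Neg n, CC (oo n) x ≤ R → 1 + δ ≤ CC x ((h : Op n) x) := by
    rw [Filter.eventually_all_finite hfin]
    intro h hh
    obtain ⟨δ, hδ, hgap⟩ := s7_gap (hΓ.isom h hh.1.1) hh.2 R
    filter_upwards [Ioo_mem_nhdsGT hδ] with δ' hδ' x hx hxR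
    exact le_trans (by linarith only [hδ', hδ'.2]) (hgap x hx hxR)
  obtain ⟨δ, hδ, hδ0⟩ := (hev.and (Ioo_mem_nhdsGT (one_pos : (0 : ℝ) < 1))).exists
  have hpN : 0 ≤ NN p := by simp [NN, hp]
  have h1 : form (oo n) p ≠ 0 := fun h =>
    form_ne_zero_of_neg oo_mem_Neg hp0 hpN (form_eq_zero_comm.1 h)
  have hs0 : -(form (oo n) p)⁻¹ ≠ 0 := neg_ne_zero.2 (inv_ne_zero h1)
  set x : V n := (-(form (oo n) p)⁻¹) • oo n with hx
  have hxp : form x p = -1 := by
    rw [hx, form_smul_left, neg_mul, inv_mul_cancel₀ h1]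
  have hxn : 0 < NN x := smul_mem_Neg hs0 oo_mem_Neg
  have hten := tendsto_CC_up hgi hp hxp ha hgp
  obtain ⟨t, ht, ht0⟩ := ((hten.eventually (gt_mem_nhds (show (1 : ℝ) < 1 + δ by
    linarith only [hδ0, hδ0.1]))).and (eventually_ge_atTop (0 : ℝ))).exists
  set y : V n := x + (t : ℂ) • p with hy
  have hyn : y ∈ Neg n := by
    have := NN_sub_null hp hxp (-t)
    rw [Complex.ofReal_neg, neg_smul, sub_neg_eq_add] at this
    rw [mem_Neg, hy, this]
    linarith only [hxn, ht0]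
  have hy0 : CC y ((γ0 : Op n) y) = CC y ((g : Op n) y) := by
    rw [hg0, smul_apply, CC_smul_right hc00]
  have hyH : y ∈ HB Γ t3 := by
    by_contra hout
    obtain ⟨γ, hγ, hγy⟩ := hR y ⟨hyn, hout⟩
    have hγi := hΓ.isom γ hγ
    have h2 : CC ((γ : Op n) y) (((γ * γ0 * γ⁻¹ : GG n) : Op n) ((γ : Op n) y)) < 1 + δ := by
      rw [s7_cnj_apply, hγi.CC_apply, hy0]
      exact ht
    have h3 := hδ (γ * γ0 * γ⁻¹) ⟨⟨Γ.mul_mem (Γ.mul_mem hγ hγ0) (Γ.inv_mem hγ), (γ : Op n) y,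
      hγi.mem_Neg.2 hyn, hγy, by linarith only [hδ0, h2, hδ0.2]⟩, fun h => hE0 (s7_ell_cnj hγi h)⟩
      ((γ : Op n) y) (hγi.mem_Neg.2 hyn) hγy
    linarith only [h2, h3]
  simp only [HB, TubeS, Set.mem_iUnion, Set.mem_ofPred_eq] at hyH
  obtain ⟨M, hM, hyM⟩ := hyH
  have hyM' : y ∈ Tube M t1 := ⟨hyn, lt_trans hyM.2 (by norm_num [t3, t1])⟩
  have hcom := near_fix_cusp hΓ hM hyM' (g := g) ⟨c0, hc0, γ0, hγ0, hg0⟩ (by linarith only [hδ0, ht, hδ0.2])
  obtain ⟨q, hq0, hq, rfl⟩ := hM.1.1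
  have hcom' : Commute (g : Op n) (vert q 1) :=
    (Commute.one_right _).add_right (hcom.smul_right _)
  obtain ⟨d, hd⟩ := fix_of_commute_vert hq0 one_ne_zero hcom'
  obtain ⟨b, hb⟩ := null_unique hgi hE hp0 hp hq ha hgp hd
  have hb0 : b ≠ 0 := by
    rintro rfl
    exact hq0 (by rw [hb, zero_smul])
  refine ⟨‖b‖ ^ 2, pow_pos (norm_pos_iff.2 hb0) 2, ?_⟩
  rw [← rk1_smul_self, ← hb]
  exact hM

end BallQ
end
end

-- merged part: Pool.Agent.Work.MP_72250f_ag.R1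
section
/-!
Reduction of the decay conditions. If age M >= 1 use decay_of_nonpos. Otherwise induct on i with 2^-i <= 1 - age M. Let F be a frame of M
with weights < 1. If some weight w_j0 >= 1/2 (only one, as age < 1) let F2 have weights 2 w_j, 2 w_j0 - 1 and p replaced by sqrt 2 p;
M = (1/2) F2.op + (1/2) rk1 e e, flow F2.op 1 = (flow M 1)^2 is in plus Gamma, 1 - age doubles. If F2.op = 0 then M is in a family of sysR
(flow_half_rk1); otherwise decay_dom and induction. If all weights are < 1/2 then GP M. nilp M = a Mc with a >= 1: decay_dom with M' = Mc and R the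
frame with p = 0. Type A: M is in famA M. Type B: M = eta P + R with weights w_j - eta (0 where w_j = 0), J - k age P >= k / eta.
-/

open scoped ComplexConjugate ENNReal Topology
open MeasureTheory Filter

noncomputable section

namespace BallQ

variable {n : ℕ}

/-- Operators diagonal in a frame. -/
def r1_T (F : Frame n) (w : Fin F.m → ℝ) (c : ℝ) : Op n :=
  ∑ i, (w i : ℂ) • rk1 (F.e i) (F.e i) + (c : ℂ) • rk1 F.p F.p

/-- A frame with changed weights. -/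
def r1_fr (F : Frame n) (w : Fin F.m → ℝ) (h : ∀ i, 0 ≤ w i ∧ w i ≤ 1) (c : ℝ) : Frame n :=
  { F with
    w := w
    p := (√c : ℂ) • F.p
    pp := by rw [form_smul_left, form_smul_right, F.pp, mul_zero, mul_zero]
    pe := fun i => by rw [form_smul_left, F.pe, mul_zero]
    w0 := fun i => (h i).1
    w1 := fun i => (h i).2 }

theorem r1_op (F : Frame n) {w : Fin F.m → ℝ} (h : ∀ i, 0 ≤ w i ∧ w i ≤ 1) {c : ℝ} (hc : 0 ≤ c) :
    r1_T F w c = (r1_fr F w h c).op := by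
  change _ = _ + rk1 (_ • _) (_ • _)
  rw [rk1_smul_self, Complex.norm_real, Real.norm_eq_abs, sq_abs, Real.sq_sqrt hc]
  rfl

theorem r1_age (F : Frame n) (w : Fin F.m → ℝ) (c : ℝ) : age (r1_T F w c) = ∑ i, w i := by
  simp [age, r1_T, tr_add, tr_sum, tr_smul, tr_rk1, F.on, F.pp, -Complex.coe_smul]

theorem r1_one (F : Frame n) : F.op = r1_T F F.w 1 := by
  simp [r1_T, Frame.op]

theorem r1_lin (F : Frame n) (a : ℝ) (w w' : Fin F.m → ℝ) (c c' : ℝ) :
    (a : ℂ) • r1_T F w c + r1_T F w' c' = r1_T F (fun i => a * w i + w' i) (a * c + c') := by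
  simp only [r1_T, smul_add, Finset.smul_sum, smul_smul, Complex.ofReal_add, Complex.ofReal_mul,
    add_smul, Finset.sum_add_distrib]
  abel

theorem r1_single (F : Frame n) (j : Fin F.m) (a : ℝ) :
    r1_T F (Pi.single j a) 0 = (a : ℂ) • rk1 (F.e j) (F.e j) := by
  rw [r1_T, Finset.sum_eq_single j (fun i _ hi => by simp [hi]) (by simp)]
  simp

theorem r1_mul (F : Frame n) (w w' : Fin F.m → ℝ) (c c' : ℝ) :
    r1_T F w c * r1_T F w' c' = r1_T F (w * w') 0 := by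
  have h : ∀ i, form (F.e i) F.p = 0 := fun i => form_eq_zero_comm.1 (F.pe i)
  simp [r1_T, add_mul, mul_add, Finset.sum_mul, Finset.mul_sum, rk1_mul_rk1, F.on, F.pp, F.pe, h,
    smul_smul, mul_comm, -Complex.coe_smul]

theorem r1_comm (F : Frame n) (w w' : Fin F.m → ℝ) (c c' : ℝ) :
    Commute (r1_T F w c) (r1_T F w' c') := by
  rw [Commute, SemiconjBy, r1_mul, r1_mul, mul_comm]

theorem r1_dom {G : V n → ℂ} (F : Frame n) {M' : Op n} {w : Fin F.m → ℝ}
    (h : ∀ i, 0 ≤ w i ∧ w i ≤ 1) (hc : Commute M' (r1_T F w 0)) {a β : ℝ} (ha : 0 ≤ a)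
    (hd : Decay M' β G) : Decay ((a : ℂ) • M' + r1_T F w 0) (a * β) G := by
  rw [r1_op F h le_rfl] at hc ⊢
  exact decay_dom _ (by simp [r1_fr]) hc ha hd

theorem r1_round {P : Op n} (h : IsRound P) : flow P 1 = 1 := by
  rw [h.flow_eq, mul_one, Complex.exp_two_pi_mul_I, sub_self, zero_smul, add_zero]

theorem r1_spec (F : Frame n) (S : Set ℝ) :
    specP F.op S = r1_T F (fun i => Set.indicator {t | 0 < t ∧ t ∈ S} 1 (F.w i)) 0 := by
  rw [F.specP_eq, Frame.spec, r1_T, Complex.ofReal_zero, zero_smul, add_zero]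
  refine Finset.sum_congr rfl fun i _ => ?_
  split_ifs with h
  · rw [Set.indicator_of_mem (by exact h), Pi.one_apply, Complex.ofReal_one, one_smul]
  · rw [Set.indicator_of_notMem (by exact h), Complex.ofReal_zero, zero_smul]

theorem r1_small {Γ : Subgroup (GG n)} {η : ℝ} (hη : 0 < η) {k K J1 J2 : ℕ} (hkK : k ≤ K)
    (h1 : K ≤ J1) (h2 : 2 * (K : ℝ) / η ≤ J2) {G : V n → ℂ}
    (hd : ∀ M J, IsGen M → InP Γ (flow M 1) → Cond k M J G → Decay M (J - k * age M) G)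
    (hC : ∀ Mc, Cusp Γ Mc → Cond k Mc J1 G)
    (hA : ∀ F ∈ sysA Γ η, ∀ M ∈ F, Cond k M K G) (hB : ∀ F ∈ sysB Γ η, ∀ M ∈ F, Cond k M J2 G)
    {M : Op n} (hM : GP Γ M) : Decay M (K * (1 - age M)) G := by
  have hG := c1_gen hM
  have h0 := hG.age_nonneg
  have hk : (0 : ℝ) ≤ k := k.cast_nonneg
  have hkK' : (k : ℝ) ≤ K := by exact_mod_cast hkK
  by_cases hT : TypeA Γ η M
  · refine (hd M K hG hM.2.2.2 (hA _ ⟨M, hT, rfl⟩ M (c1_self hT))).mono ?_
    linarith only [hkK', h0, mul_le_mul_of_nonneg_right hkK' h0]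
  obtain ⟨F, rfl⟩ := hG
  have hG : IsGen F.op := ⟨F, rfl⟩
  by_cases hN : nilp F.op = 0
  · have h3 : specP F.op (Set.Iic η) = 0 := by_contra fun h => hT ⟨hM, .inr ⟨hN, h⟩⟩
    have h4 := hd _ _ (hG.isRound_specP _).isGen (by
      rw [r1_round (hG.isRound_specP _)]
      exact (plus Γ).one_mem) (hB _ ⟨_, ⟨hM, hN, h3⟩, rfl⟩ _ rfl)
    rw [r1_spec] at h4
    set u : Fin F.m → ℝ := fun i => Set.indicator {t | 0 < t ∧ t ∈ Set.univ} 1 (F.w i) with hu
    have h5 : ∀ i, 0 ≤ η * u i ∧ η * u i ≤ F.w i := fun i => by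
      clear * - n F i η u hu h3 hη
      rcases (F.w0 i).eq_or_lt with h | h
      · simp [hu, ← h]
      have h6 := congrArg age h3
      rw [r1_spec, r1_age, show age (0 : Op n) = 0 by simp [age, tr],
        Finset.sum_eq_zero_iff_of_nonneg fun _ _ => Set.indicator_nonneg (by simp) _] at h6
      have h7 := h6 i (Finset.mem_univ _)
      simp only [Set.indicator_apply_eq_zero, Set.mem_ofPred_eq, Set.mem_Iic, Pi.one_apply,
        one_ne_zero, imp_false, not_and, not_le] at h7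
      simp [hu, h, hη.le, (h7 h).le]
    have h6 := r1_dom F (w := fun i => F.w i - η * u i) (fun i =>
      ⟨sub_nonneg.2 (h5 i).2, by linarith only [h5, F.w1 i, (h5 i).1]⟩) (r1_comm _ _ _ _ _) hη.le h4
    have h7 : r1_T F F.w 0 = F.op := by
      rw [r1_T, Frame.op, ← F.nilp_eq, hN, smul_zero]
    simp only [r1_lin, add_sub_cancel, mul_zero, add_zero, h7] at h6
    refine h6.mono ?_
    have h8 := Finset.sum_le_sum fun i (_ : i ∈ Finset.univ) => (h5 i).2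
    have h9 := hM.2.1
    rw [r1_one, r1_age] at h9
    rw [← Finset.mul_sum] at h8
    rw [div_le_iff₀ hη] at h2
    rw [r1_age]
    clear * - K n F η J2 k u h2 hkK' hk h0 h8 h9
    linarith only [h2, hkK', hk, h0, h8, h9, mul_nonneg (hk.trans hkK') h0, mul_le_mul_of_nonneg_left (h8.trans h9.le) hk]
  · obtain ⟨Mc, a, h3, h4, h5⟩ : ∃ (Mc : Op n) (a : ℝ), Cusp Γ Mc ∧ nilp F.op = (a : ℂ) • Mc ∧
        1 ≤ a := by
      by_contra! h
      exact hT ⟨hM, .inl ⟨hN, h⟩⟩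
    have h6 := hd _ _ (h3.1.1.isGenLt 1).isGen h3.1.2 (hC _ h3)
    have ha : (a : ℂ) ≠ 0 := by exact_mod_cast (zero_lt_one.trans_le h5).ne'
    have h7 : r1_T F 0 1 = (a : ℂ) • Mc := by simp [r1_T, ← h4, F.nilp_eq]
    have h8 := r1_dom F (fun i => ⟨F.w0 i, F.w1 i⟩) (M' := Mc) (by
      have := (r1_comm F 0 F.w 1 0).smul_left (a : ℂ)⁻¹
      rwa [h7, inv_smul_smul₀ ha] at this) (by linarith only [h5] : 0 ≤ a) h6
    have h9 := r1_lin F 1 0 F.w 1 0
    simp only [Complex.ofReal_one, one_smul, Pi.zero_apply, mul_zero, zero_add, mul_one,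
      add_zero, ← r1_one, h7] at h9
    rw [h9, age, h3.1.1.age_eq] at h8
    refine h8.mono ?_
    have : (K : ℝ) ≤ J1 := by exact_mod_cast h1
    simp only [Complex.zero_re, mul_zero, sub_zero]
    clear * - K n F a J1 this k hk hkK' h0 h5
    linarith only [this, hk, hkK', h0, h5, mul_nonneg (hk.trans hkK') h0, mul_nonneg_of_nonpos_of_nonpos (Mathlib.Tactic.Linarith.sub_nonpos_of_le (Mathlib.Tactic.Linarith.natCast_nonneg ℝ J1)) (Mathlib.Tactic.Linarith.sub_nonpos_of_le h5)]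

theorem reduction {Γ : Subgroup (GG n)} (hΓ : Proper Γ) {η : ℝ} (hη : 0 < η) {k K J1 J2 : ℕ}
    (hkK : k ≤ K) (h1 : K ≤ J1) (h2 : 2 * (K : ℝ) / η ≤ J2) {G : V n → ℂ}
    (hG : IsHol (k * (n + 1)) G)
    (hi : Inv Γ G) (hC : ∀ Mc, Cusp Γ Mc → Cond k Mc J1 G)
    (hA : ∀ F ∈ sysA Γ η, ∀ M ∈ F, Cond k M K G) (hB : ∀ F ∈ sysB Γ η, ∀ M ∈ F, Cond k M J2 G)
    (hR : ∀ F ∈ sysR Γ, ∀ M ∈ F, Cond k M K G) : AllDecay Γ K G := by
  have hkK' : (k : ℝ) ≤ K := by exact_mod_cast hkK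
  have hd : ∀ M J, IsGen M → InP Γ (flow M 1) → Cond k M J G → Decay M (J - k * age M) G :=
    fun M J hM hP hc => decay_of_cond hG hM (per_of_inv hΓ hG hi hM hP) hc
  have key : ∀ (i : ℕ) (M : Op n), IsGenLt 1 M → InP Γ (flow M 1) → M ≠ 0 →
      1 < 2 ^ i * (1 - age M) → Decay M (K * (1 - age M)) G := fun i => by
    induction i with
    | zero => exact fun M hM _ _ h => absurd hM.isGen.age_nonneg (by linarith only [h])
    | succ i ih =>
      rintro _ ⟨F, hF, rfl⟩ hP h0 hlt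
      have ha : age F.op < 1 :=
        sub_pos.1 (pos_of_mul_pos_right (one_pos.trans hlt) (by positivity))
      by_cases! hw : ∀ j, F.w j < 1 / 2
      · exact r1_small hη hkK h1 h2 hd hC hA hB ⟨⟨F, hw, rfl⟩, ha, h0, hP⟩
      obtain ⟨j, hj⟩ := hw
      have hs : age F.op = ∑ i, F.w i := by rw [r1_one, r1_age]
      set w : Fin F.m → ℝ := fun l => 2 * F.w l - (Pi.single j 1 : _ → ℝ) l with hw
      have h3 : ∀ l, 0 ≤ w l ∧ w l < 1 := fun l => by
        clear * - n F l j w hF hj hw ha hs i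
        rcases eq_or_ne l j with rfl | hl
        · simp only [hw, Pi.single_eq_same]
          exact ⟨by linarith only [hj], by linarith only [hF, hF l]⟩
        · have := Finset.add_le_sum (fun i _ => F.w0 i) (Finset.mem_univ l) (Finset.mem_univ j) hl
          simp only [hw, Pi.single_eq_of_ne hl]
          exact ⟨by linarith only [F.w0 l], by linarith only [ha, hj, hs, this]⟩
      have he : form (F.e j) (F.e j) = 1 := by simp [F.on]
      have h4 : ((1 / 2 : ℝ) : ℂ) • r1_T F w 2 + r1_T F (Pi.single j (1 / 2)) 0 = F.op := by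
        rw [r1_lin, r1_one]
        congr 1
        · ext l
          rcases eq_or_ne l j with rfl | hl
          · simp only [hw, Pi.single_eq_same]
            ring
          · simp only [hw, Pi.single_eq_of_ne hl]
            ring
        · norm_num
      by_cases h5 : r1_T F w 2 = 0
      · rw [h5, smul_zero, zero_add, r1_single, Complex.ofReal_div, Complex.ofReal_one,
          Complex.ofReal_ofNat] at h4
        refine (hd _ K ⟨F, rfl⟩ hP
          (hR _ ⟨_, ⟨he, by rwa [← flow_half_rk1 he, h4]⟩, rfl⟩ _ h4.symm)).mono ?_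
        clear * - K n F k hkK'
        linarith only [hkK', mul_le_mul_of_nonneg_right hkK' (IsGen.age_nonneg ⟨F, rfl⟩)]
      have h6 : age (r1_T F w 2) = 2 * age F.op - 1 := by
        simp [r1_age, hs, hw, Finset.mul_sum]
      have h7 : r1_T F w 2 + rk1 (F.e j) (F.e j) = (2 : ℂ) • F.op := by
        clear * - n F w j h4
        rw [← h4, r1_single, smul_add, smul_smul, smul_smul]
        norm_num
      have h8 : flow (r1_T F w 2) 1 = flow F.op 1 * flow F.op 1 := by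
        rw [← flow_add, one_add_one_eq_two, ← mul_one (2 : ℂ), ← flow_smul, ← h7, flow_add_op (by
          simpa [r1_single] using r1_comm F w (Pi.single j 1) 2 0), r1_round (isRound_rk1 he),
          mul_one]
      have h9 := ih _ ⟨r1_fr F w (fun l => ⟨(h3 l).1, (h3 l).2.le⟩) 2, fun l => (h3 l).2,
        r1_op F _ zero_le_two⟩ (h8 ▸ (plus Γ).mul_mem (x := flowU F.op 1) (y := flowU F.op 1) hP hP)
        h5 (by rw [h6]; linarith only [hlt, pow_succ (2 : ℝ) i ▸ hlt])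
      have h10 := r1_dom F (w := Pi.single j (1 / 2)) (fun l => by
        rcases eq_or_ne l j with rfl | hl
        · norm_num
        · simp [hl]) (r1_comm _ _ _ _ _) (a := 1 / 2) (by norm_num) h9
      rw [h4, h6] at h10
      exact h10.mono (le_of_eq (by ring))
  intro M hM hP h0
  rcases le_or_gt 1 (age M) with h | h
  · exact decay_of_nonpos hG hM.isGen (mul_nonpos_of_nonneg_of_nonpos K.cast_nonneg (by linarith only [h]))
  · obtain ⟨i, hi⟩ := pow_unbounded_of_one_lt (1 / (1 - age M)) (one_lt_two (α := ℝ))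
    exact key i M hM hP h0 ((div_lt_iff₀ (sub_pos.2 h)).1 hi)

end BallQ
end
end
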