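import Pool.Agent.Work.MP_72250f_ag.C5a
import Pool.Agent.Work.MP_72250f_ag.C5
import Pool.Agent.Work.MP_72250f_ag.M3
import Pool.Agent.Work.MP_72250f_ag.P5
import Pool.Agent.Work.MP_72250f_ag.P2
import Pool.Agent.Work.MP_72250f_ag.R1

-- merged part: Pool.Agent.Work.MP_72250f_ag.C4b
section
/-!
Type B. For M of type B all positive weights exceed eta and their sum is < 1, so tr P = rank P <= 1 / eta for P = specP M univ, and
range (flow M 1 - 1) is in range P. sysOK_B: flow P 1 = 1; cusp: mu M <= mu P (mu_le_specP), kill, then P Mc = 0 (specP_apply_of_ker);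
few: mult_le_cnt with R F M = (TypeB M and F = {specP M univ}). countB: r = ceil (1/eta), (M, rho) from short_power r eps1, sB with
(1 + 2 pi sB)^2 <= 1 + rho. For two members at x outside HB t3: close words give an element small at x, it commutes with both flows
(comm_gen_out), so lies in the centre of H; index_le_of_words and angles. For each value c of the trace apply card_le_of_angles to
A minus c (P * P = P), and sum over c in 0..r.
-/

open scoped ComplexConjugate ENNReal Topology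
open MeasureTheory Filter

noncomputable section

namespace BallQ

variable {n : ℕ}

theorem c4b_CC {M : Op n} (hg : IsGen M) {x : V n} {s ρ : ℝ} (hs : s ≤ s0) (hρ : s ≤ ρ / 14)
    (hx : x ∈ Tube M s) : CC x (flow M 1 x) ≤ 1 + ρ := by
  have h1 := hg.CC_flow_le hx.1
  have h2 := hg.mu_nonneg hx.1
  have h3 := hx.2
  have h4 : Real.pi < 3.15 := Real.pi_lt_d2
  have h5 := Real.pi_pos
  have h6 : s ≤ 1 / 100 := hs
  have h7 : Real.pi * mu M x ≤ 3.15 * s := mul_le_mul h4.le h3.le h2 (by norm_num)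
  have h8 : 0 ≤ Real.pi * mu M x := mul_nonneg h5.le h2
  have h9 : (1 + 2 * Real.pi * mu M x) ^ 2 ≤ (1 + 2 * (3.15 * s)) ^ 2 :=
    pow_le_pow_left₀ (by linarith only [h2, h3, h6, h8]) (by linarith only [h7]) 2
  have h10 : 0 ≤ s := h2.trans h3.le
  linarith only [hρ, h1, h2, h9, h3, h6, mul_nonneg_of_nonpos_of_nonpos (Mathlib.Tactic.Linarith.sub_nonpos_of_le h2) (le_of_lt (Mathlib.Tactic.Linarith.sub_neg_of_lt h3)), mul_nonneg_of_nonpos_of_nonpos (Mathlib.Tactic.Linarith.sub_nonpos_of_le h2) (Mathlib.Tactic.Linarith.sub_nonpos_of_le h6), mul_pos_of_neg_of_neg (Mathlib.Tactic.Linarith.sub_neg_of_lt h3) (Mathlib.Tactic.Linarith.sub_neg_of_lt h3), mul_nonneg_of_nonpos_of_nonpos (le_of_lt (Mathlib.Tactic.Linarith.sub_neg_of_lt h3)) (Mathlib.Tactic.Linarith.sub_nonpos_of_le h6)]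

theorem c4b_tube {Γ : Subgroup (GG n)} {η : ℝ} {M : Op n} (h : TypeB Γ η M) {x : V n} {s s' : ℝ}
    (hs : s ≤ s') (hx : x ∈ Tube (specP M Set.univ) s) : x ∈ Tube M s' :=
  ⟨hx.1, ((h.1.1.isGen.mu_le_specP h.2.1 hx.1).trans_lt hx.2).trans_le hs⟩

theorem c4b_tr {Γ : Subgroup (GG n)} {η : ℝ} (hη : 0 < η) {M : Op n} (h : TypeB Γ η M) :
    ∃ c : ℕ, tr (specP M Set.univ) = c ∧ c ≤ ⌈1 / η⌉₊ ∧
      Module.finrank ℂ (LinearMap.range ((flow M 1 - 1 : Op n) : V n →ₗ[ℂ] V n)) ≤ ⌈1 / η⌉₊ := by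
  obtain ⟨c, h1, h2, h3⟩ := h.tr_le hη
  have h4 : c ≤ ⌈1 / η⌉₊ := by exact_mod_cast h2.trans (Nat.le_ceil _)
  exact ⟨c, h1, h4, h3.trans h4⟩

theorem c4b_center {G : Type*} [Group G] {g g' : G} (a : Subgroup.closure ({g, g'} : Set G))
    (h : Commute (a : G) g) (h' : Commute (a : G) g') :
    a ∈ Subgroup.center (Subgroup.closure ({g, g'} : Set G)) := by
  have h1 : Subgroup.closure ({g, g'} : Set G) ≤ Subgroup.centralizer {(a : G)} := by
    rw [Subgroup.closure_le]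
    rintro b (rfl | rfl)
    · exact Subgroup.mem_centralizer_singleton_iff.2 h.symm.eq
    · exact Subgroup.mem_centralizer_singleton_iff.2 h'.symm.eq
  rw [Subgroup.mem_center_iff]
  intro b
  exact Subtype.ext (Subgroup.mem_centralizer_singleton_iff.1 (h1 b.2))

theorem c4b_pair {η : ℝ} (hη : 0 < η) : ∃ sB : ℝ, 0 < sB ∧ sB ≤ s0 ∧ ∃ A : Finset ℂ,
    ∀ (n : ℕ) (Γ : Subgroup (GG n)), Proper Γ → ∀ x : V n, x ∉ HB Γ t3 → ∀ M M' : Op n,
      TypeB Γ η M → TypeB Γ η M' → x ∈ Tube (specP M Set.univ) sB →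
      x ∈ Tube (specP M' Set.univ) sB →
      tr (specP M Set.univ * specP M' Set.univ) ∈ A ∧
        (tr (specP M Set.univ) = tr (specP M' Set.univ) →
          tr (specP M Set.univ * specP M' Set.univ) = tr (specP M Set.univ) →
          specP M Set.univ = specP M' Set.univ) := by
  obtain ⟨m, ρ, hρ, hm⟩ := short_power ⌈1 / η⌉₊ (ε := eps1) (by norm_num [eps1])
  obtain ⟨A, hA⟩ := angles ⌈1 / η⌉₊ m
  refine ⟨min s0 (ρ / 14), lt_min (by norm_num [s0]) (by positivity), min_le_left _ _, A, ?_⟩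
  intro n Γ hΓ x hout M M' hM hM' hx hx'
  obtain ⟨c, hc1, hc2, hc3⟩ := c4b_tr hη hM
  obtain ⟨c', hc1', hc2', hc3'⟩ := c4b_tr hη hM'
  have hH : Subgroup.closure {flowU M 1, flowU M' 1} ≤ plus Γ := by
    rw [Subgroup.closure_le]
    rintro b (rfl | rfl)
    · exact hM.1.2.2.2
    · exact hM'.1.2.2.2
  have hi := index_le_of_words (G := Subgroup.closure {flowU M 1, flowU M' 1})
    {s | (s : GG n) = flowU M 1 ∨ (s : GG n) = flowU M' 1 ∨ (s : GG n) = (flowU M 1)⁻¹ ∨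
      (s : GG n) = (flowU M' 1)⁻¹} ?_ ?_ (Subgroup.center _) m ?_
  · refine hA n M M' (hM.1.1.mono (by norm_num)) (hM'.1.1.mono (by norm_num)) hM.2.1 hM'.2.1
      ?_ ?_ hi.1 hi.2
    · rw [hc1]
      exact_mod_cast hc2
    · rw [hc1']
      exact_mod_cast hc2'
  · refine top_le_iff.1 (Subgroup.closure_closure_coe_preimage.symm.le.trans
      (Subgroup.closure_mono ?_))
    rintro s (h | h)
    · exact Or.inl h
    · exact Or.inr (Or.inl h)
  · rintro s (h | h | h | h) <;> simp [h]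
  · intro f hf
    obtain ⟨i, j, hij, hu, -⟩ := hm n (flowU M 1) (flowU M' 1) hM.1.1.isGen.isIsom_flow_one
      hM'.1.1.isGen.isIsom_flow_one hc3 hc3' x hx.1
      (c4b_CC hM.1.1.isGen (min_le_left _ _) (min_le_right _ _) (c4b_tube hM le_rfl hx))
      (c4b_CC hM'.1.1.isGen (min_le_left _ _) (min_le_right _ _) (c4b_tube hM' le_rfl hx'))
      (fun i => (f i).map Subtype.val) (fun i => ⟨by
        have := (hf i).1
        rw [List.length_map]
        omega, fun s hs => by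
        obtain ⟨t, ht, rfl⟩ := List.mem_map.1 hs
        exact (hf i).2 t ht⟩)
    have he : (((f i).prod⁻¹ * (f j).prod : Subgroup.closure {flowU M 1, flowU M' 1}) : GG n) =
        ((f i).map Subtype.val).prod⁻¹ * ((f j).map Subtype.val).prod := by
      rw [Subgroup.coe_mul, Subgroup.coe_inv, SubmonoidClass.coe_list_prod,
        SubmonoidClass.coe_list_prod]
    rw [← he] at hu
    have hp := hH ((f i).prod⁻¹ * (f j).prod).2
    refine ⟨i, j, hij, c4b_center _ (Commute.units_val_iff.1 ?_) (Commute.units_val_iff.1 ?_)⟩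
    · exact comm_gen_out hΓ hout hM.1 (c4b_tube hM (min_le_left _ _) hx) hp hu
    · exact comm_gen_out hΓ hout hM'.1 (c4b_tube hM' (min_le_left _ _) hx') hp hu

theorem c4b_card (A : Finset ℂ) (r : ℕ) (S : Finset (Op n)) (h0 : ∀ P ∈ S, P * P = P)
    (h1 : ∀ P ∈ S, ∃ c : ℕ, tr P = c ∧ c ≤ r)
    (h2 : ∀ P ∈ S, ∀ Q ∈ S, tr (P * Q) ∈ A ∧ (tr P = tr Q → tr (P * Q) = tr P → P = Q)) :
    S.card ≤ (n + 2) ^ (2 * A.card + r) := by
  classical
  have h3 : S.card ≤ (n + 2) ^ (2 * A.card) *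
      ((Finset.range (r + 1)).image (fun c : ℕ => (c : ℂ))).card := by
    refine Finset.card_le_mul_card_image_of_maps_to (f := tr) (fun P hP => ?_) _ (fun c _ => ?_)
    · obtain ⟨c, hc, hr⟩ := h1 P hP
      exact Finset.mem_image.2 ⟨c, Finset.mem_range.2 (by omega), hc.symm⟩
    · refine (card_le_of_angles (A.erase c) _ (fun P hP => ?_) (fun P hP Q hQ hPQ => ?_)).trans
        (Nat.pow_le_pow_right (by omega) (Nat.mul_le_mul_left _ Finset.card_erase_le))
      · obtain ⟨hP1, hP2⟩ := Finset.mem_filter.1 hP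
        rw [h0 P hP1, hP2]
        exact Finset.notMem_erase _ _
      · obtain ⟨hP1, hP2⟩ := Finset.mem_filter.1 hP
        obtain ⟨hQ1, hQ2⟩ := Finset.mem_filter.1 hQ
        obtain ⟨h4, h5⟩ := h2 P hP1 Q hQ1
        exact Finset.mem_erase.2 ⟨fun h => hPQ (h5 (hP2.trans hQ2.symm) (h.trans hP2.symm)), h4⟩
  have h4 : ((Finset.range (r + 1)).image (fun c : ℕ => (c : ℂ))).card ≤ (n + 2) ^ r :=
    Finset.card_image_le.trans ((Finset.card_range _).le.trans
      ((Nat.succ_le_of_lt Nat.lt_two_pow_self).trans (Nat.pow_le_pow_left (by omega) r)))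
  rw [pow_add]
  exact h3.trans (Nat.mul_le_mul_left _ h4)

theorem countB {η : ℝ} (hη : 0 < η) : ∃ sB : ℝ, 0 < sB ∧ sB ≤ s0 ∧ ∃ a : ℕ,
    ∀ (n : ℕ) (Γ : Subgroup (GG n)), Proper Γ → ∀ x ∈ Neg n, x ∉ HB Γ t3 →
      mult (sysB Γ η) (fun F => TubeS F sB) x ≤ ((n : ℝ≥0∞) + 2) ^ a := by
  classical
  obtain ⟨sB, h0, h1, A, hA⟩ := c4b_pair hη
  refine ⟨sB, h0, h1, 2 * A.card + ⌈1 / η⌉₊, fun n Γ hΓ x _ hout => ?_⟩
  have hch : ∀ F : sysB Γ η, ∃ M, TypeB Γ η M ∧ (F : Set (Op n)) = {specP M Set.univ} :=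
    fun F => F.2
  choose M hM using hch
  have hinj : Function.Injective fun F : sysB Γ η => specP (M F) Set.univ := by
    intro F F' h
    have h' : specP (M F) Set.univ = specP (M F') Set.univ := h
    apply Subtype.ext
    rw [(hM F).2, (hM F').2, h']
  have htube : ∀ F : sysB Γ η, x ∈ TubeS (F : Set (Op n)) sB →
      x ∈ Tube (specP (M F) Set.univ) sB := by
    intro F h2
    obtain ⟨P, hP, h4⟩ := Set.mem_iUnion₂.1 h2
    rw [(hM F).2, Set.mem_singleton_iff] at hP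
    rwa [hP] at h4
  rw [mult, ENNReal.tsum_eq_iSup_sum]
  refine iSup_le fun s => ?_
  have h2 : ∑ F ∈ s, (TubeS (F : Set (Op n)) sB).indicator (1 : V n → ℝ≥0∞) x =
      ((s.filter fun F : sysB Γ η => x ∈ TubeS (F : Set (Op n)) sB).card : ℝ≥0∞) := by
    rw [Finset.card_filter, Nat.cast_sum]
    refine Finset.sum_congr rfl fun F _ => ?_
    by_cases h : x ∈ TubeS (F : Set (Op n)) sB
    · rw [Set.indicator_of_mem h, if_pos h, Nat.cast_one, Pi.one_apply]
    · rw [Set.indicator_of_notMem h, if_neg h, Nat.cast_zero]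
  rw [h2, ← Finset.card_image_of_injective _ hinj]
  have h3 := c4b_card A ⌈1 / η⌉₊ ((s.filter fun F : sysB Γ η =>
    x ∈ TubeS (F : Set (Op n)) sB).image fun F : sysB Γ η => specP (M F) Set.univ) ?_ ?_ ?_
  · exact_mod_cast h3
  · intro P hP
    obtain ⟨F, -, rfl⟩ := Finset.mem_image.1 hP
    exact ((hM F).1.1.1.isGen.isRound_specP _).mul_self
  · intro P hP
    obtain ⟨F, -, rfl⟩ := Finset.mem_image.1 hP
    obtain ⟨c, hc1, hc2, -⟩ := c4b_tr hη (hM F).1
    exact ⟨c, hc1, hc2⟩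
  · intro P hP Q hQ
    obtain ⟨F, hF, rfl⟩ := Finset.mem_image.1 hP
    obtain ⟨F', hF', rfl⟩ := Finset.mem_image.1 hQ
    exact hA n Γ hΓ x hout _ _ (hM F).1 (hM F').1 (htube F (Finset.mem_filter.1 hF).2)
      (htube F' (Finset.mem_filter.1 hF').2)

end BallQ
end
end

-- merged part: Pool.Agent.Work.MP_72250f_ag.C4
section
/-!
Type B. For M of type B all positive weights exceed eta and their sum is < 1, so tr P = rank P <= 1 / eta for P = specP M univ, and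
range (flow M 1 - 1) is in range P. sysOK_B: flow P 1 = 1; cusp: mu M <= mu P (mu_le_specP), kill, then P Mc = 0 (specP_apply_of_ker);
few: mult_le_cnt with R F M = (TypeB M and F = {specP M univ}). countB: r = ceil (1/eta), (M, rho) from short_power r eps1, sB with
(1 + 2 pi sB)^2 <= 1 + rho. For two members at x outside HB t3: close words give an element small at x, it commutes with both flows
(comm_gen_out), so lies in the centre of H; index_le_of_words and angles. For each value c of the trace apply card_le_of_angles to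
A minus c (P * P = P), and sum over c in 0..r.
-/

open scoped ComplexConjugate ENNReal Topology
open MeasureTheory Filter

noncomputable section

namespace BallQ

variable {n : ℕ}

/-- Volume of a system whose tubes can be expanded, outside the horoballs. -/
theorem vol_sys (hn : 1 ≤ n) {Γ : Subgroup (GG n)} (hΓ : Proper Γ) {ψ : V n → ℝ≥0∞}
    (hψ : IsWeight Γ ψ) {I : Set (Set (Op n))} (hI : SysOK Γ I) {η s s' : ℝ} (hη : 0 ≤ η)
    (hs : 0 < s) (hss : s ≤ s') (hs' : s' ≤ s0)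
    (hd : ∀ F ∈ I, ∃ D : Op n, IsDir D ∧ (∀ g ∈ stab Γ F, Commute (g : Op n) D) ∧
      (∀ M ∈ F, DirFor D η M) ∧
      ∀ Mc, Cusp Γ Mc → (∀ M ∈ F, M * Mc = 0 ∧ Mc * M = 0) → Commute D Mc)
    {c : ℝ≥0∞} (hc : ∀ x ∈ Neg n, x ∉ HB Γ t3 → mult I (fun F => TubeS F s') x ≤ c) :
    ∫⁻ v, mult I (fun F => TubeS F s \ HB Γ t3) v * ψ v ∂(nu n) ≤
      ENNReal.ofReal (3 * ((s + η) / (s' + η)) ^ n) * c * ∫⁻ v, ψ v ∂(nu n) := by
  have h1 := vol_gain hn hΓ hψ hI.inv ((region_HB hΓ t3).eqvS I) hη hs hss (fun F hF => by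
    obtain ⟨D, hD, d1, d2, d3⟩ := hd F hF
    refine ⟨D, hD, d1, d2, fun y hy x hx hH => ?_⟩
    obtain ⟨Mc, hMc, hx'⟩ := Set.mem_iUnion₂.1 hH
    have ht : t3 ≤ t1 := by norm_num [t3, t1]
    have hcm := d3 Mc hMc ((hI.fam F hF).cusp Mc hMc
      ⟨x, ⟨hx'.1, hx'.2.trans_le ht⟩, TubeS_mono F hs' hx⟩)
    have him : 0 ≤ ((y : ℂ) * Complex.I).im := by simpa using hy
    exact Set.mem_iUnion₂.2 ⟨Mc, hMc, hD.isGen.flow_mem_Neg him hx'.1,
      (mu_flow_le hD.isGen (IsNull.isGenLt hMc.1.1 1).isGen hcm him hx'.1).trans_lt hx'.2⟩)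
  refine h1.trans ?_
  rw [mul_assoc, ← lintegral_const_mul c hψ.meas]
  refine mul_le_mul' le_rfl (lintegral_mono fun v => mul_le_mul' ?_ le_rfl)
  by_cases hv : v ∈ Neg n ∧ v ∉ HB Γ t3
  · refine le_trans (ENNReal.tsum_le_tsum fun F => ?_) (hc v hv.1 hv.2)
    exact Set.indicator_le_indicator_of_subset Set.sdiff_subset (fun _ => zero_le) v
  · refine le_trans (le_of_eq (ENNReal.tsum_eq_zero.2 fun F => ?_)) zero_le
    exact Set.indicator_of_notMem (fun h => hv ⟨TubeS_subset_Neg _ _ h.1, h.2⟩) _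

end BallQ
end
end

-- merged part: Pool.Agent.Work.MP_72250f_ag.C6a
section
/-!
Reflections: the thin part of a tube is small. L = stab Gamma {(1/2) rk1 e e} fixes rk1 e e, i.e. g e = c e with |c| = 1.
flat_ne_top: Flat is outside HB (t3/2) (for Mc e = 0 by definition, otherwise kill), single_le, SysOK.few, cnt_bdd.
flat_two: lintegral_JQ for M = flowU (rk1 e e) (i y) with exp(-4 pi y) = 1/2; it maps Flat (2s) into Flat s (NN x + |<x,e>|^2 and
Re <Mc x,x> are unchanged), Jac >= (1/2) (1 + 2 s)^-(n+1) >= (1/2) exp(-8) on Flat (2s) as 2 s (n+1) <= 8.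
thin_small: attach to e' with Near e e' and f = perp e e' the direction D(e'): the round projection on C f if NN f < 0; the cusp generator c rk1 f f
if f is null (HasVC for refl e' * refl e, which fixes f and has no negative eigenvector); the round projection on the orthogonal of
span(e,f) if NN f > 0 (exists_round; nonzero as n >= 3). D depends only on the line of f and determines it, D e = 0, cnj g D(e') = D(g e').
I' = set of {D(e')}, S {D} = Flat s meet {x | some Near e' with D(e') = D has |<x,f>|^2 < tR NN x}, S' {D} the same with 2s and 4 tR.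
unfold_le for L with scale_tube, b = 1/2. If y = flow D (i t) x is in S and NN y <= 2 NN x: <x,e> = <y,e>; |<x,f>|^2 <= |<y,f>|^2 + |<f,f>| (NN y - NN x)
(equality of <.,f> in the last two cases); the Flat condition at x for Mc with Mc e = 0: if it failed x would be in Tube Mc t1, near_cusp gives
Mc f = 0, so Mc commutes with D (impossible if NN f > 0), Re <Mc y,y> <= Re <Mc x,x> (re_flow_le) and it would fail at y.
The sets S' {D} are disjoint by near_unique. volR: Tube s minus HB t3 is in Flat s; vol Flat s <= vol (Flat s minus Thin) + (1/2) vol Flat s;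
then vol_gain with D = rk1 e e, eta = 1/2 (dirFor_round), X = ThinS, and countR.
-/

open scoped ComplexConjugate ENNReal Topology
open MeasureTheory Filter

noncomputable section

namespace BallQ

variable {n : ℕ}

theorem c6a_comm {Γ : Subgroup (GG n)} {e : V n} {g : GG n}
    (hg : g ∈ stab Γ {(1 / 2 : ℂ) • rk1 e e}) : Commute (g : Op n) (rk1 e e) := by
  have h1 : cnj g ((1 / 2 : ℂ) • rk1 e e) = (1 / 2 : ℂ) • rk1 e e := by
    have := hg.2
    simpa [cnjS] using this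
  have h2 : Commute (g : Op n) ((1 / 2 : ℂ) • rk1 e e) := cnj_eq_iff.1 h1
  have h3 := h2.smul_right (2 : ℂ)
  rwa [smul_smul, show (2 : ℂ) * (1 / 2) = 1 by norm_num, one_smul] at h3

theorem c6a_sq (e x : V n) : ‖form x e‖ ^ 2 = (form (rk1 e e x) x).re := by
  rw [form_rk1_self, Complex.ofReal_re]

theorem c6a_mu (e x : V n) : mu ((1 / 2 : ℂ) • rk1 e e) x = ‖form x e‖ ^ 2 / 2 / NN x :=
  c5_mu e x

theorem c6a_rk1_self {e : V n} (he : form e e = 1) : rk1 e e e = e := by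
  show form e e • e = e
  rw [he, one_smul]

theorem region_Flat {Γ : Subgroup (GG n)} (hΓ : Proper Γ) {e : V n} (he : Refl Γ e) (s : ℝ) :
    Region (stab Γ {(1 / 2 : ℂ) • rk1 e e}) (Flat Γ e s) := by
  refine ⟨?_, fun x hx => hx.1.1, ?_, ?_⟩
  · have hc : {Mc : Op n | Cusp Γ Mc ∧ Mc e = 0}.Countable :=
      (countable_gen hΓ).mono fun M hM => And.intro (hM.1.1.1.isGenLt 1) hM.1.1.2
    have e1 : Flat Γ e s = Tube ((1 / 2 : ℂ) • rk1 e e) s ∩
        ⋂ Mc ∈ {Mc : Op n | Cusp Γ Mc ∧ Mc e = 0},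
          {x | t3 / 2 * (NN x + ‖form x e‖ ^ 2) ≤ (form (Mc x) x).re} := by
      ext x
      simp [Flat]
    rw [e1]
    refine (isOpen_Tube _ _).measurableSet.inter (MeasurableSet.biInter hc fun Mc _ => ?_)
    refine (isClosed_le ?_ ?_).measurableSet
    · exact continuous_const.mul (continuous_NN.add
        ((continuous_form' continuous_id continuous_const).norm.pow 2))
    · exact Complex.continuous_re.comp (continuous_form' Mc.continuous continuous_id)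
  · intro c hc v hv
    refine ⟨⟨smul_mem_Neg hc hv.1.1, by rw [mu_smul _ hc]; exact hv.1.2⟩, fun Mc h1 h2 => ?_⟩
    have h3 := hv.2 Mc h1 h2
    have e1 : (form (Mc (c • v)) (c • v)).re = ‖c‖ ^ 2 * (form (Mc v) v).re := by
      rw [map_smul, form_smul_left, form_smul_right, ← mul_assoc, Complex.mul_conj,
        Complex.normSq_eq_norm_sq, Complex.re_ofReal_mul]
    rw [e1, NN_smul, form_smul_left, norm_mul, mul_pow]
    have h4 : 0 ≤ ‖c‖ ^ 2 := by positivity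
    linarith only [h3, h4, mul_le_mul_of_nonneg_left h3 h4]
  · intro g hg v hv
    have hi : IsIsom (g : Op n) := hΓ.isom g hg.1
    have hc := c6a_comm hg
    have hc' : ∀ w, (g : Op n) (rk1 e e w) = rk1 e e ((g : Op n) w) := fun w =>
      congrArg (fun T : Op n => T w) hc
    have e1 : ‖form ((g : Op n) v) e‖ ^ 2 = ‖form v e‖ ^ 2 := by
      rw [c6a_sq, c6a_sq, ← hc', hi]
    refine ⟨⟨hi.mem_Neg.2 hv.1.1, ?_⟩, fun Mc h1 h2 => ?_⟩
    · have := hv.1.2
      rw [c6a_mu] at this ⊢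
      rwa [e1, hi.NN_apply]
    · have h3 : Cusp Γ (cnj g⁻¹ Mc) := h1.cnj hΓ (le_plus Γ (Γ.inv_mem hg.1))
      have h4 : cnj g⁻¹ Mc e = 0 := by
        rw [cnj_apply, inv_inv, ← c6a_rk1_self he.1, hc']
        show ((g⁻¹ : GG n) : Op n) (Mc (form _ e • e)) = 0
        rw [map_smul, h2, smul_zero, map_zero]
      have h5 := hv.2 _ h3 h4
      rw [cnj_apply, inv_inv, ← hi _ v, apply_inv_apply] at h5
      rwa [e1, hi.NN_apply]

theorem c6a_out {Γ : Subgroup (GG n)} (hΓ : Proper Γ) {e : V n} (he : Refl Γ e) {s : ℝ}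
    (hs : s ≤ s0) : Flat Γ e s ⊆ TubeS {(1 / 2 : ℂ) • rk1 e e} s0 \ HB Γ (t3 / 2) := by
  intro x hx
  have hx0 : x ∈ Tube ((1 / 2 : ℂ) • rk1 e e) s0 := ⟨hx.1.1, hx.1.2.trans_le hs⟩
  refine ⟨by simpa [TubeS] using hx0, fun h => ?_⟩
  obtain ⟨Mc, h1, h2⟩ : ∃ M, Cusp Γ M ∧ x ∈ Tube M (t3 / 2) := by simpa [HB, TubeS] using h
  have h3 : x ∈ Tube Mc t1 := ⟨h2.1, h2.2.trans_le (by norm_num [t3, t1])⟩
  have h4 := kill hΓ h1 (isGenLt_half_rk1 he.1) (by rw [flow_half_rk1 he.1]; exact he.2) h3 hx0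
  have hG : IsGen Mc := (h1.1.1.isGenLt 1).isGen
  have h5 : Mc e = 0 := by
    refine eq_zero_of_form fun w => ?_
    have h6 := congrArg (fun u => form u e) (h4 w)
    have h7 : ((1 / 2 : ℂ) • rk1 e e) (Mc w) = (1 / 2 * form (Mc w) e) • e := by
      rw [← smul_smul]; rfl
    simp only [h7, form_smul_left, he.1, form_zero_left, mul_one] at h6
    rw [form_eq_zero_comm, ← hG.selfadj]
    simpa using h6
  have h8 := hx.2 Mc h1 h5
  have h9 := h2.2
  have hN : 0 < NN x := hx.1.1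
  rw [mu, div_lt_iff₀ hN] at h9
  have : 0 ≤ t3 / 2 * ‖form x e‖ ^ 2 := by unfold t3; positivity
  linarith only [h8, h9, this]

theorem flat_ne_top {Γ : Subgroup (GG n)} (hΓ : Proper Γ) {ψ : V n → ℝ≥0∞} (hψ : IsWeight Γ ψ)
    (hv : ∫⁻ v, ψ v ∂(nu n) ≠ ⊤) (hS : Cocpt Γ (Neg n \ HB Γ (t3 / 2))) {e : V n}
    (he : Refl Γ e) {ψ' : V n → ℝ≥0∞} (hψ' : IsWeight (stab Γ {(1 / 2 : ℂ) • rk1 e e}) ψ')
    {s : ℝ} (hs : s ≤ s0) : volW (Flat Γ e s) ψ' ≠ ⊤ := by
  have hR := sysOK_R hΓ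
  have hE : EqvS Γ (sysR Γ) (fun F => TubeS F s0 \ HB Γ (t3 / 2)) :=
    (eqvS_TubeS hΓ _ s0).diff ((region_HB hΓ _).eqvS _)
  have hF : ({(1 / 2 : ℂ) • rk1 e e} : Set (Op n)) ∈ sysR Γ := ⟨e, he, rfl⟩
  have h1 := single_le hΓ hψ hR.inv (hE.eqvF (m3b_invF_one Γ)) hF hψ'
  obtain ⟨B, hB0, hB⟩ := cnt_bdd hΓ Set.sdiff_subset hS 4
  have h2 : volW (Flat Γ e s) ψ' ≤ volW (TubeS {(1 / 2 : ℂ) • rk1 e e} s0 \ HB Γ (t3 / 2)) ψ' :=
    lintegral_mono_set (c6a_out hΓ he hs)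
  rw [← m5_vol (hE.meas _ hF)] at h2
  have h3 : ∀ v, (∑' F : sysR Γ, (TubeS F s0 \ HB Γ (t3 / 2)).indicator
      (fun _ => (1 : ℝ≥0∞)) v) ≤ B := by
    intro v
    by_cases h : v ∈ Neg n \ HB Γ (t3 / 2)
    · refine le_trans ?_ ((hR.few v h.1).trans (hB v h))
      exact ENNReal.tsum_le_tsum fun F =>
        Set.indicator_le_indicator_of_subset Set.sdiff_subset (fun _ => zero_le) v
    · have : ∀ F : sysR Γ, (TubeS F s0 \ HB Γ (t3 / 2)).indicator (fun _ => (1 : ℝ≥0∞)) v = 0 :=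
        fun F => Set.indicator_of_notMem (fun h' => h ⟨TubeS_subset_Neg _ _ h'.1, h'.2⟩) _
      simp [this]
  have h4 : ∫⁻ v, (∑' F : sysR Γ, (TubeS F s0 \ HB Γ (t3 / 2)).indicator
      (fun _ => (1 : ℝ≥0∞)) v) * ψ v ∂(nu n) ≤ B * ∫⁻ v, ψ v ∂(nu n) := by
    rw [← lintegral_const_mul _ hψ.meas]
    exact lintegral_mono fun v => mul_le_mul_left (h3 v) _
  exact ne_top_of_le_ne_top (ENNReal.mul_ne_top hB0 hv) (h2.trans (h1.trans h4))

/-- The contraction of the normal direction by the factor `l`. -/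
theorem c6a_map {e : V n} (he : form e e = 1) : ∃ (y : ℝ) (l : ℝ), 0 ≤ y ∧ l ^ 2 = 1 / 2 ∧
    flow (rk1 e e) (y * Complex.I) = 1 + ((l : ℂ) - 1) • rk1 e e := by
  refine ⟨Real.log 2 / (4 * Real.pi), Real.exp (-(Real.log 2 / 2)), ?_, ?_, ?_⟩
  · have := Real.log_nonneg (show (1 : ℝ) ≤ 2 by norm_num)
    have := Real.pi_pos
    positivity
  · rw [← Real.exp_nat_mul, show ((2 : ℕ) : ℝ) * -(Real.log 2 / 2) = -Real.log 2 by push_cast; ring,
      Real.exp_neg, Real.exp_log (by norm_num)]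
    norm_num
  · rw [(isRound_rk1 he).flow_eq, Complex.ofReal_exp]
    congr 4
    have : (Real.pi : ℂ) ≠ 0 := by exact_mod_cast Real.pi_ne_zero
    push_cast
    field_simp
    rw [Complex.I_sq]
    ring

theorem flat_two {Γ : Subgroup (GG n)} (hΓ : Proper Γ) {e : V n} (he : Refl Γ e)
    {ψ' : V n → ℝ≥0∞} (hψ' : IsWeight (stab Γ {(1 / 2 : ℂ) • rk1 e e}) ψ') {s : ℝ} (hs : 0 < s)
    (hs' : s * ((n : ℝ) + 1) ≤ 4) :
    volW (Flat Γ e (2 * s)) ψ' ≤ ENNReal.ofReal (2 * Real.exp 8) * volW (Flat Γ e s) ψ' := by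
  obtain ⟨y, l, hy, hl, hM⟩ := c6a_map he.1
  have hP := (isRound_rk1 he.1).isGen
  have hΛ : Proper (stab Γ {(1 / 2 : ℂ) • rk1 e e}) := hΓ.mono (stab_le _ _)
  have hr := region_Flat hΓ he s
  have hr2 := region_Flat hΓ he (2 * s)
  have key := lintegral_JQ hΛ hψ' (flowU (rk1 e e) (y * Complex.I))
    (fun v hv => hP.flow_mem_Neg (by simpa using hy) hv)
    (fun g hg => Commute.units_val_iff.1 (commute_flow (c6a_comm hg) _))
    (hr.invF (m3b_invF_one _))
  rw [coe_flowU, hM] at key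
  set M : Op n := 1 + ((l : ℂ) - 1) • rk1 e e with hMd
  have hMx : ∀ x, M x = x + (((l : ℂ) - 1) * form x e) • e := fun x => by
    rw [← smul_smul]; rfl
  have f1 : ∀ x, ‖form (M x) e‖ ^ 2 = ‖form x e‖ ^ 2 / 2 := fun x => by
    have : form (M x) e = (l : ℂ) * form x e := by
      rw [hMx, form_add_left, form_smul_left, he.1]; ring
    rw [this, norm_mul, mul_pow, Complex.norm_real, Real.norm_eq_abs, sq_abs, hl]; ring
  have f2 : ∀ x, NN (M x) = NN x + ‖form x e‖ ^ 2 / 2 := fun x => by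
    have hNe : NN e = -1 := by simp [NN, he.1]
    have a1 : (form x ((((l : ℂ) - 1) * form x e) • e)).re = (l - 1) * ‖form x e‖ ^ 2 := by
      rw [form_smul_right, map_mul, mul_assoc, Complex.conj_mul', map_sub, Complex.conj_ofReal,
        map_one]
      norm_cast
    have a2 : ‖((l : ℂ) - 1)‖ ^ 2 = (l - 1) ^ 2 := by
      rw [show ((l : ℂ) - 1) = ((l - 1 : ℝ) : ℂ) by push_cast; ring, Complex.norm_real,
        Real.norm_eq_abs, sq_abs]
    rw [hMx, NN_add, NN_smul, a1, hNe, norm_mul, mul_pow, a2]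
    linear_combination (-‖form x e‖ ^ 2) * hl
  have f3 : ‖M.det‖ ^ 2 = 1 / 2 := by
    rw [hMd, det_one_add_rk1, he.1, mul_one, add_sub_cancel, Complex.norm_real, Real.norm_eq_abs,
      sq_abs, hl]
  have f4 : ∀ x ∈ Flat Γ e (2 * s), M x ∈ Flat Γ e s := by
    intro x hx
    have hN : 0 < NN x := hx.1.1
    have ha : 0 ≤ ‖form x e‖ ^ 2 := by positivity
    have h1 := hx.1.2
    rw [c6a_mu, div_lt_iff₀ hN] at h1
    have hN' : 0 < NN (M x) := by rw [f2]; linarith only [hN, ha]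
    refine ⟨⟨hN', ?_⟩, fun Mc h2 h3 => ?_⟩
    · rw [c6a_mu, div_lt_iff₀ hN', f1, f2]
      linarith only [h1, hs, mul_nonneg_of_nonpos_of_nonpos (Mathlib.Tactic.Linarith.sub_nonpos_of_le (sq_nonneg ‖form x e‖)) (le_of_lt (Mathlib.Tactic.Linarith.sub_neg_of_lt hs))]
    · have hG : IsGen Mc := (h2.1.1.isGenLt 1).isGen
      have h4 : form (Mc (M x)) (M x) = form (Mc x) x := by
        rw [hMx, map_add, map_smul, h3, smul_zero, add_zero, form_add_right, form_smul_right,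
          hG.selfadj x e, h3, form_zero_right, mul_zero, add_zero]
      have h5 := hx.2 Mc h2 h3
      rw [h4, f1, f2]
      linarith only [h5]
  have f5 : ∀ x ∈ Flat Γ e (2 * s), 1 ≤ ENNReal.ofReal (2 * Real.exp 8) * Jac M x := by
    intro x hx
    have hN : 0 < NN x := hx.1.1
    have ha : 0 ≤ ‖form x e‖ ^ 2 := by positivity
    have h1 := hx.1.2
    rw [c6a_mu, div_lt_iff₀ hN] at h1
    have hN' : 0 < NN (M x) := by rw [f2]; linarith only [hN, ha]
    rw [Jac, ← ENNReal.ofReal_mul (by positivity), f3, ENNReal.one_le_ofReal]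
    have h2 : Real.exp (-(2 * s)) ≤ NN x / NN (M x) := by
      rw [Real.exp_neg, le_div_iff₀ hN', inv_mul_le_iff₀ (Real.exp_pos _), f2]
      linarith only [h1, hN, Real.add_one_le_exp (2 * s), mul_nonneg_of_nonpos_of_nonpos (le_of_lt (Mathlib.Tactic.Linarith.sub_neg_of_lt hN)) (Mathlib.Tactic.Linarith.sub_nonpos_of_le (Real.add_one_le_exp ((2 : ℝ) * s)))]
    have h3 : Real.exp (-8) ≤ (NN x / NN (M x)) ^ (n + 1) := by
      refine le_trans ?_ (pow_le_pow_left₀ (Real.exp_pos _).le h2 _)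
      rw [← Real.exp_nat_mul]
      refine Real.exp_le_exp.2 ?_
      push_cast
      linarith only [hs']
    have h4 : Real.exp 8 * Real.exp (-8) = 1 := by rw [← Real.exp_add]; norm_num
    linarith only [h4, h3, mul_le_mul_of_nonneg_left h3 (Real.exp_pos 8).le]
  have g1 : volW (Flat Γ e (2 * s)) ψ' ≤ ENNReal.ofReal (2 * Real.exp 8) *
      ∫⁻ v, (Flat Γ e s).indicator (fun _ => (1 : ℝ≥0∞)) (M v) * Jac M v * ψ' v ∂(nu n) := by
    rw [← m5_vol hr2.meas, ← lintegral_const_mul' _ _ ENNReal.ofReal_ne_top]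
    refine lintegral_mono fun v => ?_
    by_cases h : v ∈ Flat Γ e (2 * s)
    · rw [Set.indicator_of_mem h, Set.indicator_of_mem (f4 v h), one_mul, ← mul_assoc]
      exact mul_le_mul_left (f5 v h) _
    · rw [Set.indicator_of_notMem h, zero_mul]
      exact zero_le
  refine g1.trans (mul_le_mul_right ?_ _)
  rw [key, ← m5_vol hr.meas]
  exact setLIntegral_le_lintegral _ _

end BallQ
end
end

-- merged part: Pool.Agent.Work.MP_72250f_ag.C6b
section
/-!
Reflections: the thin part of a tube is small. L = stab Gamma {(1/2) rk1 e e} fixes rk1 e e, i.e. g e = c e with |c| = 1.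
flat_ne_top: Flat is outside HB (t3/2) (for Mc e = 0 by definition, otherwise kill), single_le, SysOK.few, cnt_bdd.
flat_two: lintegral_JQ for M = flowU (rk1 e e) (i y) with exp(-4 pi y) = 1/2; it maps Flat (2s) into Flat s (NN x + |<x,e>|^2 and
Re <Mc x,x> are unchanged), Jac >= (1/2) (1 + 2 s)^-(n+1) >= (1/2) exp(-8) on Flat (2s) as 2 s (n+1) <= 8.
thin_small: attach to e' with Near e e' and f = perp e e' the direction D(e'): the round projection on C f if NN f < 0; the cusp generator c rk1 f f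
if f is null (HasVC for refl e' * refl e, which fixes f and has no negative eigenvector); the round projection on the orthogonal of
span(e,f) if NN f > 0 (exists_round; nonzero as n >= 3). D depends only on the line of f and determines it, D e = 0, cnj g D(e') = D(g e').
I' = set of {D(e')}, S {D} = Flat s meet {x | some Near e' with D(e') = D has |<x,f>|^2 < tR NN x}, S' {D} the same with 2s and 4 tR.
unfold_le for L with scale_tube, b = 1/2. If y = flow D (i t) x is in S and NN y <= 2 NN x: <x,e> = <y,e>; |<x,f>|^2 <= |<y,f>|^2 + |<f,f>| (NN y - NN x)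
(equality of <.,f> in the last two cases); the Flat condition at x for Mc with Mc e = 0: if it failed x would be in Tube Mc t1, near_cusp gives
Mc f = 0, so Mc commutes with D (impossible if NN f > 0), Re <Mc y,y> <= Re <Mc x,x> (re_flow_le) and it would fail at y.
The sets S' {D} are disjoint by near_unique. volR: Tube s minus HB t3 is in Flat s; vol Flat s <= vol (Flat s minus Thin) + (1/2) vol Flat s;
then vol_gain with D = rk1 e e, eta = 1/2 (dirFor_round), X = ThinS, and countR.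
-/

open scoped ComplexConjugate ENNReal Topology
open MeasureTheory Filter

noncomputable section

namespace BallQ

variable {n : ℕ}

/-- The direction attached to the vector `f` orthogonal to `e`. -/
def c6b_Dir (Γ : Subgroup (GG n)) (e f : V n) (D : Op n) : Prop :=
  (NN f < 0 ∧ D = (((-NN f)⁻¹ : ℝ) : ℂ) • rk1 f f) ∨
  (NN f = 0 ∧ Cusp Γ D ∧ ∃ c : ℝ, D = (c : ℂ) • rk1 f f) ∨
  (0 < NN f ∧ D = 1 - rk1 e e + (((NN f)⁻¹ : ℝ) : ℂ) • rk1 f f)

def c6b_I (Γ : Subgroup (GG n)) (e : V n) : Set (Set (Op n)) :=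
  {F | ∃ e' D, Near Γ e e' ∧ c6b_Dir Γ e (perp e e') D ∧ F = {D}}

def c6b_S (Γ : Subgroup (GG n)) (e : V n) (s t : ℝ) (F : Set (Op n)) : Set (V n) :=
  Flat Γ e s ∩ {x | ∃ e' D, Near Γ e e' ∧ c6b_Dir Γ e (perp e e') D ∧ F = {D} ∧
    ‖form x (perp e e')‖ ^ 2 < t * NN x}

theorem c6b_perp_e {e : V n} (he : form e e = 1) (e' : V n) : form (perp e e') e = 0 := by
  rw [perp, form_sub_left, form_smul_left, he]
  ring

theorem c6b_isNull_ne {M : Op n} (h : IsNull M) : M ≠ 0 := by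
  obtain ⟨p, hp0, -, rfl⟩ := h
  exact fun h => hp0 (rk1_eq_zero.mp h)

theorem c6b_dir_unique {Γ : Subgroup (GG n)} {e f : V n} {c : ℂ} (hc : c ≠ 0) {D D' : Op n}
    (h : c6b_Dir Γ e f D) (h' : c6b_Dir Γ e (c • f) D') : D' = D := by
  have hc2 : 0 < ‖c‖ ^ 2 := pow_pos (norm_pos_iff.mpr hc) 2
  have hN : NN (c • f) = ‖c‖ ^ 2 * NN f := NN_smul c f
  rcases h with ⟨h1, rfl⟩ | ⟨h1, hD, a, ha⟩ | ⟨h1, rfl⟩
  · rcases h' with ⟨-, rfl⟩ | ⟨h2, -⟩ | ⟨h2, -⟩
    · rw [rk1_smul_self, smul_smul, hN, ← Complex.ofReal_mul]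
      congr 2
      have : NN f ≠ 0 := h1.ne
      field_simp
    · rw [hN] at h2
      nlinarith
    · rw [hN] at h2
      nlinarith
  · rcases h' with ⟨h2, -⟩ | ⟨-, hD', a', ha'⟩ | ⟨h2, -⟩
    · rw [hN, h1, mul_zero] at h2
      exact absurd h2 (lt_irrefl _)
    · have ha0 : (a : ℂ) ≠ 0 := by
        intro h0
        rw [h0, zero_smul] at ha
        exact c6b_isNull_ne hD.1.1 ha
      refine Cusp.eq_of_smul hD hD' (a := (a' : ℂ) * ((‖c‖ ^ 2 : ℝ) : ℂ) * (a : ℂ)⁻¹) ?_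
      rw [ha', ha, rk1_smul_self, smul_smul, smul_smul, mul_assoc _ _ (a : ℂ),
        inv_mul_cancel₀ ha0, mul_one]
    · rw [hN, h1, mul_zero] at h2
      exact absurd h2 (lt_irrefl _)
  · rcases h' with ⟨h2, -⟩ | ⟨h2, -⟩ | ⟨-, rfl⟩
    · rw [hN] at h2
      nlinarith
    · rw [hN] at h2
      nlinarith
    · rw [rk1_smul_self, smul_smul, hN, ← Complex.ofReal_mul]
      congr 3
      have : NN f ≠ 0 := h1.ne'
      field_simp

theorem c6b_cnj_add (g : GG n) (A B : Op n) : cnj g (A + B) = cnj g A + cnj g B := by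
  simp only [cnj, mul_add, add_mul]

theorem c6b_cnj_sub (g : GG n) (A B : Op n) : cnj g (A - B) = cnj g A - cnj g B := by
  simp only [cnj, mul_sub, sub_mul]

theorem c6b_cnj_one' (g : GG n) : cnj g (1 : Op n) = 1 := by
  simp only [cnj, mul_one, Units.mul_inv]

theorem c6b_cnj_inj (g : GG n) {A B : Op n} (h : cnj g A = cnj g B) : A = B := by
  have := congrArg (cnj g⁻¹) h
  rwa [← cnj_mul, ← cnj_mul, inv_mul_cancel, cnj_one, cnj_one] at this

theorem c6b_stab_fix {Γ : Subgroup (GG n)} {e : V n} {g : GG n}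
    (hg : g ∈ stab Γ {(1 / 2 : ℂ) • rk1 e e}) : cnj g (rk1 e e) = rk1 e e := by
  have h := hg.2
  rw [cnjS, Set.image_singleton, Set.singleton_eq_singleton_iff, cnj_smul] at h
  exact smul_right_injective (Op n) (by norm_num : (1 / 2 : ℂ) ≠ 0) h

theorem c6b_perp_map {e : V n} {g : GG n} (hg : cnj g (rk1 e e) = rk1 e e) (e' : V n) :
    perp e ((g : Op n) e') = (g : Op n) (perp e e') := by
  have h := (cnj_eq_iff.mp hg).eq
  have h2 := congrArg (fun T : Op n => T e') h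
  simp only [mul_apply_eq_comp, rk1_apply] at h2
  rw [perp, perp, map_sub, h2]

theorem c6b_near_map {Γ : Subgroup (GG n)} (hΓ : Proper Γ) {e e' : V n} {g : GG n}
    (hg : g ∈ stab Γ {(1 / 2 : ℂ) • rk1 e e}) (h : Near Γ e e') : Near Γ e ((g : Op n) e') := by
  have hi := hΓ.isom g hg.1
  have hf := c6b_stab_fix hg
  refine ⟨Refl.cnj hΓ h.1 (le_plus Γ hg.1), ?_, ?_⟩
  · intro h0
    rw [← cnj_rk1 hi, ← hf] at h0
    exact h.2.1 (c6b_cnj_inj g h0)
  · rw [c6b_perp_map hf, hi]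
    exact h.2.2

theorem c6b_dir_map {Γ : Subgroup (GG n)} (hΓ : Proper Γ) {e f : V n} {g : GG n}
    (hg : g ∈ stab Γ {(1 / 2 : ℂ) • rk1 e e}) {D : Op n} (h : c6b_Dir Γ e f D) :
    c6b_Dir Γ e ((g : Op n) f) (cnj g D) := by
  have hi := hΓ.isom g hg.1
  have hf := c6b_stab_fix hg
  have hN : NN ((g : Op n) f) = NN f := hi.NN_apply f
  rcases h with ⟨h1, rfl⟩ | ⟨h1, hD, a, ha⟩ | ⟨h1, rfl⟩
  · left
    rw [hN, cnj_smul, cnj_rk1 hi]
    exact ⟨h1, rfl⟩
  · right; left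
    refine ⟨hN.trans h1, hD.cnj hΓ (le_plus Γ hg.1), a, ?_⟩
    rw [ha, cnj_smul, cnj_rk1 hi]
  · right; right
    rw [hN, c6b_cnj_add, c6b_cnj_sub, c6b_cnj_one', hf, cnj_smul, cnj_rk1 hi]
    exact ⟨h1, rfl⟩

theorem c6b_invI {Γ : Subgroup (GG n)} (hΓ : Proper Γ) (e : V n) :
    InvI (stab Γ {(1 / 2 : ℂ) • rk1 e e}) (c6b_I Γ e) := by
  constructor
  · have hc := (sysOK_R hΓ).inv.1
    let T : Set (Op n) → Set (Set (Op n)) := fun F0 =>
      {F | ∃ e' D, F0 = {(1 / 2 : ℂ) • rk1 e' e'} ∧ Near Γ e e' ∧ c6b_Dir Γ e (perp e e') D ∧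
        F = {D}}
    have hT : ∀ F0, (T F0).Subsingleton := by
      rintro F0 F ⟨e', D, h0, h1, h2, rfl⟩ F' ⟨e'', D', h0', h1', h2', rfl⟩
      rw [h0, Set.singleton_eq_singleton_iff] at h0'
      have h3 : rk1 e' e' = rk1 e'' e'' :=
        smul_right_injective (Op n) (by norm_num : (1 / 2 : ℂ) ≠ 0) h0'
      have he'0 : e' ≠ 0 := by
        intro h
        have := h1.1.1
        rw [h, form_zero_left] at this
        exact zero_ne_one this
      obtain ⟨d, hd, hd1⟩ := eq_smul_of_rk1 (a := e'') (c := 1) he'0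
        (h3.symm.trans (one_smul ℂ _).symm)
      have hd0 : d ≠ 0 := by
        rintro rfl
        simp at hd1
      have h4 : perp e e'' = d • perp e e' := by
        rw [hd, perp, perp, form_smul_left, smul_sub, smul_smul]
      rw [h4] at h2'
      rw [c6b_dir_unique hd0 h2 h2']
    refine (hc.biUnion fun F0 _ => (hT F0).countable).mono ?_
    rintro F ⟨e', D, h1, h2, rfl⟩
    simp only [Set.mem_iUnion]
    exact ⟨{(1 / 2 : ℂ) • rk1 e' e'}, ⟨e', h1.1, rfl⟩, e', D, rfl, h1, h2, rfl⟩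
  · rintro g hg F ⟨e', D, h1, h2, rfl⟩
    refine ⟨(g : Op n) e', cnj g D, c6b_near_map hΓ hg h1, ?_, ?_⟩
    · rw [c6b_perp_map (c6b_stab_fix hg)]
      exact c6b_dir_map hΓ hg h2
    · rw [cnjS, Set.image_singleton]

theorem c6b_S_map {Γ : Subgroup (GG n)} (hΓ : Proper Γ) {e : V n} (he : Refl Γ e) (s t : ℝ)
    {g : GG n} (hg : g ∈ stab Γ {(1 / 2 : ℂ) • rk1 e e}) {F : Set (Op n)} {v : V n}
    (hv : v ∈ c6b_S Γ e s t F) : (g : Op n) v ∈ c6b_S Γ e s t (cnjS g F) := by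
  obtain ⟨h0, e', D, h1, h2, rfl, h3⟩ := hv
  have hi := hΓ.isom g hg.1
  refine ⟨(region_Flat hΓ he s).inv g hg v h0, (g : Op n) e', cnj g D, c6b_near_map hΓ hg h1,
    ?_, ?_, ?_⟩
  · rw [c6b_perp_map (c6b_stab_fix hg)]
    exact c6b_dir_map hΓ hg h2
  · rw [cnjS, Set.image_singleton]
  · rw [c6b_perp_map (c6b_stab_fix hg), hi, hi.NN_apply]
    exact h3

theorem c6b_eqvS {Γ : Subgroup (GG n)} (hΓ : Proper Γ) {e : V n} (he : Refl Γ e) (s t : ℝ) :
    EqvS (stab Γ {(1 / 2 : ℂ) • rk1 e e}) (c6b_I Γ e) (c6b_S Γ e s t) := by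
  have hR := region_Flat hΓ he s
  refine ⟨fun F _ => hR.meas.inter (IsOpen.measurableSet ?_), fun F _ v hv => hR.neg hv.1,
    fun F _ => ?_, fun g hg F _ v => ⟨fun h => ?_, fun h => c6b_S_map hΓ he s t hg h⟩⟩
  · have : {x : V n | ∃ e' D, Near Γ e e' ∧ c6b_Dir Γ e (perp e e') D ∧ F = {D} ∧
        ‖form x (perp e e')‖ ^ 2 < t * NN x} =
        ⋃ e', ⋃ D, ⋃ (_ : Near Γ e e' ∧ c6b_Dir Γ e (perp e e') D ∧ F = {D}),
          {x : V n | ‖form x (perp e e')‖ ^ 2 < t * NN x} := by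
      ext x
      simp only [Set.mem_ofPred_eq, Set.mem_iUnion, exists_prop, and_assoc]
    rw [this]
    refine isOpen_iUnion fun e' => isOpen_iUnion fun D => isOpen_iUnion fun _ => ?_
    exact isOpen_lt (by fun_prop) (by fun_prop)
  · rintro c hc v ⟨h0, e', D, h1, h2, h3, h4⟩
    refine ⟨hR.cone c hc v h0, e', D, h1, h2, h3, ?_⟩
    have hc2 : 0 < ‖c‖ ^ 2 := pow_pos (norm_pos_iff.mpr hc) 2
    rw [form_smul_left, NN_smul, norm_mul, mul_pow, mul_left_comm]
    exact mul_lt_mul_of_pos_left h4 hc2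
  · have h2 := c6b_S_map hΓ he s t (inv_mem hg) h
    have h3 : cnjS g⁻¹ (cnjS g F) = F := by
      simp only [cnjS, Set.image_image, ← cnj_mul, inv_mul_cancel, cnj_one, Set.image_id']
    rwa [inv_apply_apply, h3] at h2

theorem c6b_exists_dir {Γ : Subgroup (GG n)} (hΓ : Proper Γ) (hV : HasVC Γ) {e e' : V n}
    (he : Refl Γ e) (h : Near Γ e e') : ∃ D, c6b_Dir Γ e (perp e e') D := by
  rcases lt_trichotomy (NN (perp e e')) 0 with h1 | h1 | h1
  · exact ⟨_, Or.inl ⟨h1, rfl⟩⟩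
  · have hf0 := perp_ne_zero he h
    set f := perp e e' with hf
    have hfe : form f e = 0 := c6b_perp_e he.1 e'
    have hff : form f f = 0 := by rw [form_self, h1]; simp
    have he' : e' = f + form e' e • e := by rw [hf, perp, sub_add_cancel]
    have hfe' : form f e' = 0 := by
      rw [he', form_add_right, form_smul_right, hff, hfe]
      simp
    obtain ⟨u, hu, hue⟩ := he.2.exists_unit
    obtain ⟨u', hu', hue'⟩ := h.1.2.exists_unit
    have hg : u' * u ∈ plus Γ := mul_mem hu' hu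
    have hgv : ∀ v, ((u' * u : GG n) : Op n) v = refl e' (refl e v) := by
      intro v
      rw [Units.val_mul, hue, hue', mul_apply_eq_comp]
    have hgf : ((u' * u : GG n) : Op n) f = (1 : ℂ) • f := by
      rw [hgv, refl_apply e, hfe, mul_zero, zero_smul, sub_zero, refl_apply, hfe', mul_zero,
        zero_smul, sub_zero, one_smul]
    have hE : ¬ Ell ((u' * u : GG n) : Op n) := by
      rintro ⟨y, hy, c, hc⟩
      have hc1 : c = 1 :=
        eig_eq_of_neg (InP.isIsom hΓ hg) hy hf0 h1.ge hc hgf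
      rw [hc1, one_smul, hgv] at hc
      have h2 : refl e y = refl e' y := by
        have := congrArg (refl e') hc
        rwa [← mul_apply_eq_comp, refl_mul_self h.1.1, one_apply_eq_self] at this
      rw [refl_apply, refl_apply, sub_right_inj] at h2
      have h3 : (2 * form y e') • f = (2 * form y e - 2 * form y e' * form e' e) • e := by
        rw [sub_smul, h2, mul_smul (2 * form y e'), hf, perp, smul_sub]
      have h4 : 2 * form y e - 2 * form y e' * form e' e = 0 := by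
        have := congrArg (fun v => form v e) h3
        simp only [form_smul_left, hfe, he.1, mul_zero, mul_one] at this
        exact this.symm
      rw [h4, zero_smul, smul_eq_zero] at h3
      have h5 : form y e' = 0 := by
        rcases h3 with h3 | h3
        · simpa using h3
        · exact absurd h3 hf0
      have h6 : form y e = 0 := by
        rw [h5] at h4
        simpa using h4
      have h7 : form y f = 0 := by
        rw [hf, perp, form_sub_right, form_smul_right, h5, h6]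
        simp
      exact form_ne_zero_of_neg hy hf0 h1.ge (form_eq_zero_comm.mp h7)
    obtain ⟨c, -, hc⟩ := hV (u' * u) hg hE f hf0 hff ⟨1, by simp, hgf⟩
    exact ⟨_, Or.inr (Or.inl ⟨h1, hc, c, rfl⟩)⟩
  · exact ⟨_, Or.inr (Or.inr ⟨h1, rfl⟩)⟩

theorem c6b_round_compl {e f : V n} (he : form e e = 1) (hfe : form f e = 0) (hf : 0 < NN f) :
    IsRound (1 - rk1 e e + (((NN f)⁻¹ : ℝ) : ℂ) • rk1 f f) := by
  let W : Submodule ℂ (V n) :=
    LinearMap.ker (formL e : V n →ₗ[ℂ] ℂ) ⊓ LinearMap.ker (formL f : V n →ₗ[ℂ] ℂ)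
  have hW : ∀ v, v ∈ W ↔ form v e = 0 ∧ form v f = 0 := fun v => Iff.rfl
  obtain ⟨P, hP, h1, h2⟩ := exists_round W fun v hv hv0 =>
    pos_of_perp_neg (x := f) hf ((hW v).mp hv).2 hv0
  have hPe : P e = 0 := eq_zero_of_form fun w => by
    rw [hP.isGen.selfadj, form_eq_zero_comm]
    exact ((hW _).mp (h1 w)).1
  have hPf : P f = 0 := eq_zero_of_form fun w => by
    rw [hP.isGen.selfadj, form_eq_zero_comm]
    exact ((hW _).mp (h1 w)).2
  have hef : form e f = 0 := form_eq_zero_comm.mp hfe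
  have hN : (NN f : ℂ) ≠ 0 := by exact_mod_cast hf.ne'
  have : (1 - rk1 e e + (((NN f)⁻¹ : ℝ) : ℂ) • rk1 f f : Op n) = P := by
    ext1 v
    have hv : (1 - rk1 e e + (((NN f)⁻¹ : ℝ) : ℂ) • rk1 f f : Op n) v =
        v - form v e • e + (((NN f)⁻¹ : ℝ) : ℂ) • form v f • f := rfl
    have hm : v - form v e • e + (((NN f)⁻¹ : ℝ) : ℂ) • form v f • f ∈ W := by
      rw [hW]
      constructor
      · rw [form_add_left, form_sub_left, form_smul_left, form_smul_left, form_smul_left, he, hfe]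
        ring
      · rw [form_add_left, form_sub_left, form_smul_left, form_smul_left, form_smul_left, hef,
          form_self f]
        push_cast
        field_simp
        ring
    rw [hv, ← h2 _ hm, map_add, map_sub, map_smul, map_smul, map_smul, hPe, hPf]
    simp
  rw [this]
  exact hP

theorem c6b_dir_props (hn : 3 ≤ n) {Γ : Subgroup (GG n)} {e f : V n} (he : form e e = 1)
    (hfe : form f e = 0) {D : Op n} (h : c6b_Dir Γ e f D) :
    IsDir D ∧ D e = 0 ∧ ((NN f ≤ 0 ∧ ∃ a : ℂ, D = a • rk1 f f) ∨ (0 < NN f ∧ D f = 0)) := by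
  have hef : form e f = 0 := form_eq_zero_comm.mp hfe
  rcases h with ⟨h1, rfl⟩ | ⟨h1, hD, a, ha⟩ | ⟨h1, rfl⟩
  · refine ⟨Or.inl ⟨?_, ?_⟩, ?_, Or.inl ⟨h1.le, _, rfl⟩⟩
    · have hp : 0 < -NN f := by linarith only [h1]
      have hq : ‖(((√(-NN f))⁻¹ : ℝ) : ℂ)‖ ^ 2 = (-NN f)⁻¹ := by
        rw [Complex.norm_real, Real.norm_eq_abs, sq_abs, inv_pow, Real.sq_sqrt hp.le]
      have h2 : form ((((√(-NN f))⁻¹ : ℝ) : ℂ) • f) ((((√(-NN f))⁻¹ : ℝ) : ℂ) • f) = 1 := by
        rw [form_self, NN_smul, hq, ← Complex.ofReal_neg, ← mul_neg, inv_mul_cancel₀ hp.ne']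
        simp
      have h3 := isRound_rk1 h2
      rwa [rk1_smul_self, hq] at h3
    · intro h0
      rw [smul_eq_zero, rk1_eq_zero] at h0
      rcases h0 with h0 | h0
      · have : (-NN f)⁻¹ = 0 := by exact_mod_cast h0
        rw [inv_eq_zero] at this
        linarith only [h1, this]
      · rw [h0] at h1
        simp [NN] at h1
    · rw [smul_apply, rk1_apply, hef, zero_smul, smul_zero]
  · refine ⟨Or.inr hD.1.1, ?_, Or.inl ⟨h1.le, _, ha⟩⟩
    rw [ha, smul_apply, rk1_apply, hef, zero_smul, smul_zero]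
  · have hN : (NN f : ℂ) ≠ 0 := by exact_mod_cast h1.ne'
    have hv : ∀ v, (1 - rk1 e e + (((NN f)⁻¹ : ℝ) : ℂ) • rk1 f f : Op n) v =
        v - form v e • e + (((NN f)⁻¹ : ℝ) : ℂ) • form v f • f := fun v => rfl
    refine ⟨Or.inl ⟨c6b_round_compl he hfe h1, ?_⟩, ?_, Or.inr ⟨h1, ?_⟩⟩
    · intro h0
      have h2 := congrArg tr h0
      have h3 : tr (0 : Op n) = 0 := by simp [tr]
      rw [tr_add, tr_sub, tr_smul, tr_one, tr_rk1, tr_rk1, he, form_self f, h3] at h2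
      push_cast at h2
      rw [mul_neg, inv_mul_cancel₀ hN] at h2
      have h4 : (n : ℂ) = 1 := by linear_combination h2
      have h5 : n = 1 := by exact_mod_cast h4
      omega
    · rw [hv, he, hef]
      simp
    · rw [hv, hfe, form_self f, smul_smul]
      push_cast
      rw [mul_neg, inv_mul_cancel₀ hN]
      simp

theorem c6b_flow_dir {D : Op n} (h : IsDir D) (s : ℂ) : ∃ k : ℂ, flow D s = 1 + k • D := by
  rcases h with ⟨h, -⟩ | ⟨p, -, hp, rfl⟩
  · exact ⟨_, h.flow_eq s⟩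
  · exact ⟨_, flow_null hp s⟩

theorem c6b_shift (x f : V n) (b : ℂ) :
    ‖form x f‖ ^ 2 = ‖form (x + b • f) f‖ ^ 2 + (-NN f) * (NN (x + b • f) - NN x) := by
  rw [NN_add, NN_smul, form_add_left, form_smul_left, form_smul_right, form_self f]
  simp only [← Complex.normSq_eq_norm_sq, Complex.normSq_apply, Complex.add_re, Complex.add_im,
    Complex.mul_re, Complex.mul_im, Complex.neg_re, Complex.neg_im, Complex.ofReal_re,
    Complex.ofReal_im, Complex.conj_re, Complex.conj_im]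
  ring

theorem c6b_mu_half (e x : V n) :
    mu ((1 / 2 : ℂ) • rk1 e e) x = 1 / 2 * ‖form x e‖ ^ 2 / NN x := by
  have : (1 / 2 : ℂ) = ((1 / 2 : ℝ) : ℂ) := by push_cast; rfl
  rw [this, mu_real_smul, mu, form_rk1_self, Complex.ofReal_re, mul_div_assoc]

theorem c6b_step (hn : 3 ≤ n) {Γ : Subgroup (GG n)} (hΓ : Proper Γ) {e : V n} (he : Refl Γ e)
    {s : ℝ} (hs : s ≤ tR) {D : Op n} {y : ℝ} (hy : 0 ≤ y) {x : V n} (hx : x ∈ Neg n)
    (hS : flow D (y * Complex.I) x ∈ c6b_S Γ e s tR {D})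
    (hN : (1 - 1 / 2) * NN (flow D (y * Complex.I) x) ≤ NN x) :
    x ∈ c6b_S Γ e (2 * s) (4 * tR) {D} := by
  obtain ⟨⟨⟨hyN, hmu⟩, hfl⟩, e', D', h1, h2, h3, h4⟩ := hS
  obtain rfl : D = D' := Set.singleton_eq_singleton_iff.mp h3
  set f := perp e e' with hf
  have hfe : form f e = 0 := c6b_perp_e he.1 e'
  obtain ⟨hD, hDe, hcase⟩ := c6b_dir_props hn he.1 hfe h2
  obtain ⟨k, hk⟩ := c6b_flow_dir hD (y * Complex.I)
  have hle : NN x ≤ NN (flow D (y * Complex.I) x) :=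
    hD.isGen.NN_le_flow (by simpa using hy) x
  set z := flow D (y * Complex.I) x with hz
  have hzx : z = x + k • D x := by rw [hz, hk]; rfl
  have hform : ∀ w, D w = 0 → form z w = form x w := by
    intro w hw
    rw [hzx, form_add_left, form_smul_left, hD.isGen.selfadj, hw]
    simp
  have hx0 : 0 < NN x := hx
  have hz0 : 0 < NN z := hyN
  have htR : (0 : ℝ) < tR := by norm_num [tR]
  rw [c6b_mu_half, hform e hDe, div_lt_iff₀ hz0] at hmu
  have hs0 : 0 < s := by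
    by_contra hneg
    have : s * NN z ≤ 0 := mul_nonpos_of_nonpos_of_nonneg (not_lt.mp hneg) hz0.le
    have := sq_nonneg ‖form x e‖
    linarith
  have hxe : 1 / 2 * ‖form x e‖ ^ 2 < 2 * s * NN x := by
    linarith only [hmu, mul_le_mul_of_nonneg_left hN hs0.le]
  have hxT : x ∈ Tube ((1 / 2 : ℂ) • rk1 e e) (2 * s) :=
    ⟨hx, by rw [c6b_mu_half, div_lt_iff₀ hx0]; exact hxe⟩
  have hxT' : x ∈ Tube ((1 / 2 : ℂ) • rk1 e e) (2 * tR) :=
    ⟨hx, lt_of_lt_of_le hxT.2 (by linarith only [hs])⟩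
  have hxf : ‖form x f‖ ^ 2 < 4 * tR * NN x := by
    rcases hcase with ⟨hf0, a, ha⟩ | ⟨-, hDf⟩
    · have hz2 : z = x + (k * a * form x f) • f := by
        rw [hzx, ha, smul_apply, rk1_apply, smul_smul, smul_smul]
      have h5 := c6b_shift x f (k * a * form x f)
      rw [← hz2] at h5
      have h6 : -NN f < tR := by
        have := h1.2.2
        rw [← hf, form_self, norm_neg, Complex.norm_real, Real.norm_eq_abs] at this
        exact lt_of_le_of_lt (neg_le_abs _) this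
      have h7 : -NN f * (NN z - NN x) ≤ tR * NN x :=
        mul_le_mul h6.le (by linarith only [hN]) (by linarith only [hle]) htR.le
      linarith only [h4, h5, h7, mul_le_mul_of_nonneg_left hN htR.le, mul_pos htR hx0]
    · rw [hform f hDf] at h4
      linarith only [h4, mul_le_mul_of_nonneg_left hN htR.le, mul_pos htR hx0]
  refine ⟨⟨hxT, fun Mc hc hMe => ?_⟩, e', D, h1, h2, rfl, hxf⟩
  by_contra hlt
  rw [not_le] at hlt
  have hxc : x ∈ Tube Mc t1 := by
    refine ⟨hx, ?_⟩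
    rw [mu, div_lt_iff₀ hx0]
    have h5 : ‖form x e‖ ^ 2 ≤ NN x := by
      have : s * NN x ≤ tR * NN x := mul_le_mul_of_nonneg_right hs hx0.le
      have h6 : tR * NN x ≤ 1 / 4 * NN x :=
        mul_le_mul_of_nonneg_right (by norm_num [tR]) hx0.le
      linarith only [hxe, this, h6]
    have h6 : t3 / 2 * (NN x + ‖form x e‖ ^ 2) ≤ t1 * NN x := by
      simp only [t3, t1]
      linarith only [hx0, h5]
    linarith only [hlt, h6]
  obtain ⟨-, hMf⟩ := near_cusp hn hΓ he h1 hxT' hxf hc hxc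
  have hfl2 := hfl Mc hc hMe
  obtain ⟨p, hp0, hp, rfl⟩ := hc.1.1
  have hfp : form f p = 0 := by
    rw [rk1_apply, smul_eq_zero] at hMf
    exact hMf.resolve_right hp0
  have hNp : NN p = 0 := by simp [NN, hp]
  rcases hcase with ⟨-, a, ha⟩ | ⟨hf0, -⟩
  · have hDp : D p = 0 := by
      rw [ha, smul_apply, rk1_apply, form_eq_zero_comm.mp hfp, zero_smul, smul_zero]
    rw [form_rk1_self, Complex.ofReal_re, hform p hDp, hform e hDe] at hfl2
    rw [form_rk1_self, Complex.ofReal_re] at hlt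
    have h8 : t3 / 2 * (NN x + ‖form x e‖ ^ 2) ≤ t3 / 2 * (NN z + ‖form x e‖ ^ 2) :=
      mul_le_mul_of_nonneg_left (by linarith only [hle]) (by norm_num [t3])
    linarith only [hlt, hfl2, h8]
  · exact form_ne_zero_of_neg (x := f) hf0 hp0 hNp.ge (form_eq_zero_comm.mp hfp)

theorem c6b_vol_eq {S : Set (V n)} (hS : MeasurableSet S) (ψ : V n → ℝ≥0∞) :
    ∫⁻ v, S.indicator (fun _ => (1 : ℝ≥0∞)) v * ψ v ∂(nu n) = volW S ψ := by
  rw [volW, ← lintegral_indicator hS]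
  refine lintegral_congr fun v => ?_
  by_cases hv : v ∈ S <;> simp [hv]

theorem thin_small (hn : 3 ≤ n) {Γ : Subgroup (GG n)} (hΓ : Proper Γ) (hV : HasVC Γ) {e : V n}
    (he : Refl Γ e) {ψ' : V n → ℝ≥0∞} (hψ' : IsWeight (stab Γ {(1 / 2 : ℂ) • rk1 e e}) ψ')
    {s : ℝ} (hs : s ≤ tR) :
    volW (Flat Γ e s ∩ Thin Γ e tR) ψ' ≤
      ENNReal.ofReal (3 * (1 / 2) ^ n) * volW (Flat Γ e (2 * s)) ψ' := by
  have hL : Proper (stab Γ {(1 / 2 : ℂ) • rk1 e e}) := hΓ.mono (stab_le _ _)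
  have h1 : InvF (stab Γ {(1 / 2 : ℂ) • rk1 e e}) (fun _ => (1 : ℝ≥0∞)) :=
    ⟨measurable_const, fun _ _ _ => rfl, fun _ _ _ => rfl⟩
  have hS := c6b_eqvS hΓ he s tR
  have hS' := c6b_eqvS hΓ he (2 * s) (4 * tR)
  have key := unfold_le hL hψ' (c6b_invI hΓ e) (hS.eqvF h1) (hS'.eqvF h1)
    (ENNReal.ofReal (3 * (1 / 2) ^ n)) (by
      intro F hF ψ'' hψ''
      rw [c6b_vol_eq (hS.meas F hF), c6b_vol_eq (hS'.meas F hF)]
      have hR := hS.region hF
      have hR' := hS'.region hF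
      obtain ⟨e', D, h2, h3, rfl⟩ := hF
      have hD := (c6b_dir_props hn he.1 (c6b_perp_e he.1 e') h3).1
      have := scale_tube (by omega) (hL.mono (stab_le _ _)) hψ'' hD (fun g hg => by
          have h4 := hg.2
          rw [cnjS, Set.image_singleton, Set.singleton_eq_singleton_iff] at h4
          exact cnj_eq_iff.mp h4) hR hR' (b := 1 / 2) (by norm_num) (by norm_num)
        (fun y hy x hx h4 h5 => c6b_step hn hΓ he hs hy hx h4 h5)
      rwa [show (1 - 1 / 2 : ℝ) = 1 / 2 by norm_num] at this)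
  refine le_trans ?_ (key.trans (mul_le_mul_right ?_ _))
  · have hm : MeasurableSet (Flat Γ e s ∩ Thin Γ e tR) := by
      refine (region_Flat hΓ he s).meas.inter ?_
      rw [← thinS_eq he]
      exact (eqvS_ThinS hΓ).meas _ ⟨e, he, rfl⟩
    rw [← c6b_vol_eq hm]
    refine lintegral_mono fun v => mul_le_mul_left ?_ _
    by_cases hv : v ∈ Flat Γ e s ∩ Thin Γ e tR
    · obtain ⟨hv1, -, e', h2, h3⟩ := hv
      obtain ⟨D, hD⟩ := c6b_exists_dir hΓ hV he h2
      refine le_trans ?_ (ENNReal.le_tsum (⟨{D}, e', D, h2, hD, rfl⟩ : c6b_I Γ e))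
      have hv2 : v ∈ c6b_S Γ e s tR {D} := ⟨hv1, e', D, h2, hD, rfl, h3⟩
      simp only [Set.indicator_of_mem hv2]
      exact Set.indicator_le_self' (fun _ _ => zero_le) v
    · rw [Set.indicator_of_notMem hv]
      exact zero_le
  · rw [← c6b_vol_eq (region_Flat hΓ he (2 * s)).meas]
    refine lintegral_mono fun v => mul_le_mul_left ?_ _
    by_cases hv : ∃ F : c6b_I Γ e, v ∈ c6b_S Γ e (2 * s) (4 * tR) F
    · obtain ⟨F, hF⟩ := hv
      rw [tsum_eq_single F]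
      · rw [Set.indicator_of_mem hF, Set.indicator_of_mem hF.1]
      · intro F' hne
        refine Set.indicator_of_notMem (fun hF' => hne (Subtype.ext ?_)) _
        obtain ⟨hv1, e', D, h2, h3, h4, h5⟩ := hF
        obtain ⟨-, e'', D', h2', h3', h4', h5'⟩ := hF'
        have hxT : v ∈ Tube ((1 / 2 : ℂ) • rk1 e e) (2 * tR) :=
          ⟨hv1.1.1, lt_of_lt_of_le hv1.1.2 (by linarith only [hs])⟩
        obtain ⟨c, hc⟩ := near_unique hn hΓ he h2 h2' hxT h5 h5'
        have hc0 : c ≠ 0 := by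
          rintro rfl
          rw [zero_smul] at hc
          exact perp_ne_zero he h2' hc
        rw [hc] at h3'
        rw [h4, h4', c6b_dir_unique hc0 h3 h3']
    · rw [not_exists] at hv
      simp only [fun F => Set.indicator_of_notMem (hv F) (fun _ => (1 : ℝ≥0∞)), tsum_zero]
      exact zero_le

end BallQ
end
end

-- merged part: Pool.Agent.Work.MP_72250f_ag.C6
section
/-!
Reflections: the thin part of a tube is small. L = stab Gamma {(1/2) rk1 e e} fixes rk1 e e, i.e. g e = c e with |c| = 1.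
flat_ne_top: Flat is outside HB (t3/2) (for Mc e = 0 by definition, otherwise kill), single_le, SysOK.few, cnt_bdd.
flat_two: lintegral_JQ for M = flowU (rk1 e e) (i y) with exp(-4 pi y) = 1/2; it maps Flat (2s) into Flat s (NN x + |<x,e>|^2 and
Re <Mc x,x> are unchanged), Jac >= (1/2) (1 + 2 s)^-(n+1) >= (1/2) exp(-8) on Flat (2s) as 2 s (n+1) <= 8.
thin_small: attach to e' with Near e e' and f = perp e e' the direction D(e'): the round projection on C f if NN f < 0; the cusp generator c rk1 f f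
if f is null (HasVC for refl e' * refl e, which fixes f and has no negative eigenvector); the round projection on the orthogonal of
span(e,f) if NN f > 0 (exists_round; nonzero as n >= 3). D depends only on the line of f and determines it, D e = 0, cnj g D(e') = D(g e').
I' = set of {D(e')}, S {D} = Flat s meet {x | some Near e' with D(e') = D has |<x,f>|^2 < tR NN x}, S' {D} the same with 2s and 4 tR.
unfold_le for L with scale_tube, b = 1/2. If y = flow D (i t) x is in S and NN y <= 2 NN x: <x,e> = <y,e>; |<x,f>|^2 <= |<y,f>|^2 + |<f,f>| (NN y - NN x)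
(equality of <.,f> in the last two cases); the Flat condition at x for Mc with Mc e = 0: if it failed x would be in Tube Mc t1, near_cusp gives
Mc f = 0, so Mc commutes with D (impossible if NN f > 0), Re <Mc y,y> <= Re <Mc x,x> (re_flow_le) and it would fail at y.
The sets S' {D} are disjoint by near_unique. volR: Tube s minus HB t3 is in Flat s; vol Flat s <= vol (Flat s minus Thin) + (1/2) vol Flat s;
then vol_gain with D = rk1 e e, eta = 1/2 (dirFor_round), X = ThinS, and countR.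
-/

open scoped ComplexConjugate ENNReal Topology
open MeasureTheory Filter

noncomputable section

namespace BallQ

variable {n : ℕ}

theorem c6_const (hn : 16 ≤ n) :
    ENNReal.ofReal (3 * (1 / 2) ^ n) * ENNReal.ofReal (2 * Real.exp 8) ≤ 2⁻¹ := by
  have h1 : Real.exp 8 ≤ 2.72 ^ 8 := by
    rw [show (8 : ℝ) = (8 : ℕ) * 1 by norm_num, Real.exp_nat_mul]
    exact pow_le_pow_left₀ (Real.exp_pos _).le (by linarith only [Real.exp_one_lt_d9]) _
  have h2 : ((1 : ℝ) / 2) ^ n ≤ (1 / 2) ^ 16 :=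
    pow_le_pow_of_le_one (by norm_num) (by norm_num) hn
  rw [← ENNReal.ofReal_mul (by positivity), ← ENNReal.ofReal_ofNat 2,
    ← ENNReal.ofReal_inv_of_pos (by norm_num)]
  refine ENNReal.ofReal_le_ofReal (le_trans (mul_le_mul (mul_le_mul_of_nonneg_left h2 (by norm_num))
    (mul_le_mul_of_nonneg_left h1 (by norm_num)) (by positivity) (by positivity)) (by norm_num))

theorem c6_tube (M : Op n) (s : ℝ) : TubeS {M} s = Tube M s := by simp [TubeS]

theorem c6_sub {Γ : Subgroup (GG n)} {e : V n} {s : ℝ} (hs : s ≤ tR) :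
    Tube ((1 / 2 : ℂ) • rk1 e e) s \ HB Γ t3 ⊆ Flat Γ e s := by
  rintro x ⟨hx, hx'⟩
  refine ⟨hx, fun Mc hc _ => ?_⟩
  have h0 : 0 < NN x := hx.1
  have h1 : t3 ≤ mu Mc x := not_lt.1 fun h => hx' (Set.mem_biUnion (x := Mc) hc ⟨hx.1, h⟩)
  have h2 := hx.2
  rw [c6b_mu_half, div_lt_iff₀ h0] at h2
  rw [mu, le_div_iff₀ h0] at h1
  have h3 : s * NN x ≤ tR * NN x := mul_le_mul_of_nonneg_right hs h0.le
  unfold t3 tR at *
  linarith only [h0, h1, h2, h3]

theorem c6_local (hn : 16 ≤ n) {Γ : Subgroup (GG n)} (hΓ : Proper Γ) (hV : HasVC Γ)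
    {ψ : V n → ℝ≥0∞} (hψ : IsWeight Γ ψ) (hv : ∫⁻ v, ψ v ∂(nu n) ≠ ⊤)
    (hS : Cocpt Γ (Neg n \ HB Γ (t3 / 2))) {s : ℝ} (hs : 0 < s) (hs1 : s ≤ tR)
    (hs2 : s * ((n : ℝ) + 1) ≤ 4) {e : V n} (he : Refl Γ e) {ψ' : V n → ℝ≥0∞}
    (hψ' : IsWeight (stab Γ {(1 / 2 : ℂ) • rk1 e e}) ψ') :
    volW (Tube ((1 / 2 : ℂ) • rk1 e e) s \ HB Γ t3) ψ' ≤
      2 * volW (Tube ((1 / 2 : ℂ) • rk1 e e) s \ Thin Γ e tR) ψ' := by
  have h1 := flat_ne_top hΓ hψ hv hS he hψ' (s := s) (hs1.trans (by norm_num [tR, s0]))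
  have h2 : volW (Flat Γ e s ∩ Thin Γ e tR) ψ' ≤ volW (Flat Γ e s) ψ' / 2 := by
    refine (thin_small (by omega) hΓ hV he hψ' hs1).trans
      ((mul_le_mul_right (flat_two hΓ he hψ' hs hs2) _).trans ?_)
    rw [← mul_assoc, ENNReal.div_eq_inv_mul]
    exact mul_le_mul_left (c6_const hn) _
  have h3 : volW (Flat Γ e s) ψ' ≤ volW (Tube ((1 / 2 : ℂ) • rk1 e e) s \ Thin Γ e tR) ψ' +
      volW (Flat Γ e s ∩ Thin Γ e tR) ψ' := by
    refine le_trans (lintegral_mono_set fun x hx => ?_) (lintegral_union_le _ _ _)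
    by_cases h : x ∈ Thin Γ e tR
    · exact Or.inr ⟨hx, h⟩
    · exact Or.inl ⟨hx.1, h⟩
  have h4 : volW (Flat Γ e s) ψ' / 2 ≤ volW (Tube ((1 / 2 : ℂ) • rk1 e e) s \ Thin Γ e tR) ψ' := by
    refine ENNReal.le_of_add_le_add_right (a := volW (Flat Γ e s) ψ' / 2)
      (ENNReal.div_ne_top h1 (by norm_num)) ?_
    rw [ENNReal.add_halves]
    exact h3.trans (add_le_add_right h2 _)
  refine (lintegral_mono_set (c6_sub hs1)).trans ?_
  rw [two_mul]
  exact (ENNReal.add_halves _).ge.trans (add_le_add h4 h4)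

theorem c6_thin_flow {Γ : Subgroup (GG n)} {e : V n} (he : form e e = 1) {y : ℝ} (hy : 0 ≤ y)
    {x : V n} (hx : x ∈ Thin Γ e tR) : flow (rk1 e e) (y * Complex.I) x ∈ Thin Γ e tR := by
  obtain ⟨h1, e', h2, h3⟩ := hx
  have hG := (isRound_rk1 he).isGen
  have hi : 0 ≤ ((y : ℂ) * Complex.I).im := by simpa using hy
  refine ⟨hG.flow_mem_Neg hi h1, e', h2, ?_⟩
  have h4 : form (flow (rk1 e e) (y * Complex.I) x) (perp e e') = form x (perp e e') := by
    rw [(isRound_rk1 he).flow_eq]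
    simp [form_add_left, form_smul_left, form_eq_zero_comm.1 (c6b_perp_e he e')]
  rw [h4]
  exact h3.trans_le (mul_le_mul_of_nonneg_left (hG.NN_le_flow hi x) (by norm_num [tR]))

theorem volR (hn : 16 ≤ n) {Γ : Subgroup (GG n)} (hΓ : Proper Γ) (hV : HasVC Γ)
    {ψ : V n → ℝ≥0∞} (hψ : IsWeight Γ ψ) (hv : ∫⁻ v, ψ v ∂(nu n) ≠ ⊤)
    (hS : Cocpt Γ (Neg n \ HB Γ (t3 / 2))) {s s' : ℝ} (hs : 0 < s) (hs1 : s ≤ tR)
    (hs2 : s * ((n : ℝ) + 1) ≤ 4) (hss : s ≤ s') {c : ℝ≥0∞}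
    (hc : ∀ x, mult (sysR Γ) (fun F => TubeS F s' \ ThinS Γ F) x ≤ c) :
    ∫⁻ v, mult (sysR Γ) (fun F => TubeS F s \ HB Γ t3) v * ψ v ∂(nu n) ≤
      2 * ENNReal.ofReal (3 * ((s + 1 / 2) / (s' + 1 / 2)) ^ n) * c * ∫⁻ v, ψ v ∂(nu n) := by
  have h1 : InvF Γ 1 := ⟨measurable_one, fun _ _ _ => rfl, fun _ _ _ => rfl⟩
  have hI := (sysOK_R hΓ).inv
  have hA := (eqvS_TubeS hΓ (sysR Γ) s).diff ((region_HB hΓ t3).eqvS _)
  have hB := (eqvS_TubeS hΓ (sysR Γ) s).diff (eqvS_ThinS hΓ)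
  have e1 : ∫⁻ v, mult (sysR Γ) (fun F => TubeS F s \ HB Γ t3) v * ψ v ∂(nu n) ≤
      2 * ∫⁻ v, mult (sysR Γ) (fun F => TubeS F s \ ThinS Γ F) v * ψ v ∂(nu n) := by
    refine unfold_le hΓ hψ hI (hA.eqvF h1) (hB.eqvF h1) _ fun F hF ψ' hψ' => ?_
    rw [m5_vol (hA.meas F hF), m5_vol (hB.meas F hF)]
    obtain ⟨e, he, rfl⟩ := hF
    rw [c6_tube, thinS_eq he]
    exact c6_local hn hΓ hV hψ hv hS hs hs1 hs2 he hψ'
  have e2 := vol_gain (by omega) hΓ hψ hI (eqvS_ThinS hΓ) (η := 1 / 2) (by norm_num) hs hss (by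
    rintro _ ⟨e, he, rfl⟩
    refine ⟨rk1 e e, Or.inl ⟨isRound_rk1 he.1, fun h => ?_⟩,
      fun g hg => cnj_eq_iff.1 (c6b_stab_fix hg), ?_, fun y hy x _ hx => ?_⟩
    · have h2 : form (rk1 e e e) e = 1 := by rw [rk1_apply, form_smul_left, he.1, one_mul]
      rw [h] at h2
      simp at h2
    · rintro _ rfl
      simpa using dirFor_round (isRound_rk1 he.1) (1 / 2)
    · rw [thinS_eq he] at hx ⊢
      exact c6_thin_flow he.1 hy hx)
  have e3 : ∫⁻ v, mult (sysR Γ) (fun F => TubeS F s' \ ThinS Γ F) v * ψ v ∂(nu n) ≤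
      c * ∫⁻ v, ψ v ∂(nu n) := by
    rw [← lintegral_const_mul _ hψ.meas]
    exact lintegral_mono fun v => mul_le_mul_left (hc v) _
  rw [mul_assoc, mul_assoc]
  exact e1.trans (mul_le_mul_right (e2.trans (mul_le_mul_right e3 _)) _)

end BallQ
end
end

-- merged part: Pool.Agent.Work.MP_72250f_ag.F1
section
/-! Many forms with all decay conditions. -/

open scoped ComplexConjugate ENNReal Topology
open MeasureTheory Filter

noncomputable section

namespace BallQ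

variable {n : ℕ}

theorem f1_geom {q : ℝ} (hq0 : 0 ≤ q) (hq : q < 1) (a : ℕ) (c : ℝ) :
    ∀ᶠ n : ℕ in atTop, c * (q ^ n * ((n : ℝ) + 2) ^ a) ≤ 1 / 16 := by
  have h := tendsto_pow_const_mul_const_pow_of_abs_lt_one a (r := q) (by rwa [abs_of_nonneg hq0])
  have h2 := (h.const_mul (|c| * 2 ^ a))
  rw [mul_zero] at h2
  filter_upwards [h2.eventually (gt_mem_nhds (by norm_num : (0 : ℝ) < 1 / 16)),
    eventually_ge_atTop 2] with n h3 hn
  have hn' : (2 : ℝ) ≤ n := by exact_mod_cast hn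
  have h4 : ((n : ℝ) + 2) ^ a ≤ 2 ^ a * (n : ℝ) ^ a := by
    rw [← mul_pow]
    exact pow_le_pow_left₀ (by positivity) (by linarith only [hn']) a
  calc c * (q ^ n * ((n : ℝ) + 2) ^ a) ≤ |c| * (q ^ n * ((n : ℝ) + 2) ^ a) :=
        mul_le_mul_of_nonneg_right (le_abs_self c) (by positivity)
    _ ≤ |c| * (q ^ n * (2 ^ a * (n : ℝ) ^ a)) := by gcongr
    _ = |c| * 2 ^ a * ((n : ℝ) ^ a * q ^ n) := by ring
    _ ≤ 1 / 16 := h3.le

theorem f1_small (c : ℝ) {ε : ℝ} (hε : 0 < ε) : ∀ᶠ n : ℕ in atTop, c / ((n : ℝ) + 1) ≤ ε := by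
  have h := (tendsto_one_div_add_atTop_nhds_zero_nat (𝕜 := ℝ)).const_mul c
  rw [mul_zero] at h
  filter_upwards [h.eventually (gt_mem_nhds hε)] with n hn
  rw [mul_one_div] at hn
  exact hn.le

theorem f1_cost {Z I vol : ℝ≥0∞} {c θ : ℝ} (hc : 0 ≤ c) (h : I ≤ ENNReal.ofReal θ * vol)
    (hθ : c * θ ≤ 1 / 16) : ENNReal.ofReal c * Z * I ≤ 16⁻¹ * (Z * vol) := by
  have h1 : ENNReal.ofReal c * ENNReal.ofReal θ ≤ 16⁻¹ := by
    rw [← ENNReal.ofReal_mul hc]
    refine (ENNReal.ofReal_le_ofReal hθ).trans_eq ?_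
    rw [one_div, ENNReal.ofReal_inv_of_pos (by norm_num)]
    simp
  calc ENNReal.ofReal c * Z * I ≤ ENNReal.ofReal c * Z * (ENNReal.ofReal θ * vol) := by gcongr
    _ = (ENNReal.ofReal c * ENNReal.ofReal θ) * (Z * vol) := by ring
    _ ≤ 16⁻¹ * (Z * vol) := by gcongr

theorem f1_final {X m : ℝ≥0∞} (hX : X ≠ ⊤) {d0 d1 d2 d3 d4 c1 c2 c3 c4 : ℝ≥0∞}
    (h0 : 3 * X ≤ 4 * (d0 * m)) (h1 : d0 * m ≤ d1 * m + (c1 + 16⁻¹ * X))
    (h2 : d1 * m ≤ d2 * m + (c2 + 16⁻¹ * X)) (h3 : d2 * m ≤ d3 * m + (c3 + 16⁻¹ * X))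
    (h4 : d3 * m ≤ d4 * m + (c4 + 16⁻¹ * X)) (e1 : c1 ≤ 16⁻¹ * X) (e2 : c2 ≤ 16⁻¹ * X)
    (e3 : c3 ≤ 16⁻¹ * X) (e4 : c4 ≤ 16⁻¹ * X) : X ≤ 4 * (d4 * m) := by
  set ζ := 16⁻¹ * X with hζ
  have hXζ : X = 16 * ζ := by
    rw [hζ, ← mul_assoc, ENNReal.mul_inv_cancel (by norm_num) (by norm_num), one_mul]
  have h5 : d0 * m ≤ d4 * m + 8 * ζ := by
    calc d0 * m ≤ d1 * m + (ζ + ζ) := h1.trans (by gcongr)
      _ ≤ d2 * m + (ζ + ζ) + (ζ + ζ) := by gcongr; exact h2.trans (by gcongr)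
      _ ≤ d3 * m + (ζ + ζ) + (ζ + ζ) + (ζ + ζ) := by gcongr; exact h3.trans (by gcongr)
      _ ≤ d4 * m + (ζ + ζ) + (ζ + ζ) + (ζ + ζ) + (ζ + ζ) := by gcongr; exact h4.trans (by gcongr)
      _ = d4 * m + 8 * ζ := by ring
  have h6 : X + 2 * X ≤ 4 * (d4 * m) + 2 * X := by
    calc X + 2 * X = 3 * X := by ring
      _ ≤ 4 * (d4 * m + 8 * ζ) := h0.trans (by gcongr)
      _ = 4 * (d4 * m) + 2 * (16 * ζ) := by ring
      _ = 4 * (d4 * m) + 2 * X := by rw [← hXζ]
  exact (ENNReal.add_le_add_iff_right (ENNReal.mul_ne_top (by norm_num) hX)).1 h6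

theorem main_forms : ∃ N : ℕ, 1 ≤ N ∧ ∀ n : ℕ, N ≤ n → ∀ Γ : Subgroup (GG n), Proper Γ →
    FinCov Γ → ∃ c : ℝ, 0 < c ∧ ∀ᶠ k : ℕ in atTop, ∃ A : Submodule ℂ (V n → ℂ),
      FiniteDimensional ℂ A ∧ c * (k : ℝ) ^ n ≤ Module.finrank ℂ A ∧
      ∀ F ∈ A, IsHol (k * (n + 1)) F ∧ Inv Γ F ∧ AllDecay Γ (k + 1) F := by
  obtain ⟨sA, hsA, hsA0, C, hCA⟩ := countA
  set η : ℝ := sA / (32 * ((C : ℝ) + 1)) with hηd
  have hC0 : (0 : ℝ) ≤ C := C.cast_nonneg
  have hη : 0 < η := by positivity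
  have hs0 : s0 = 1 / 100 := rfl
  have hη1 : η ≤ 1 := by
    rw [hηd, div_le_one (by positivity)]
    linarith only [hsA, hsA0, hs0]
  obtain ⟨sB, hsB, hsB0, a, hCB⟩ := countB hη
  obtain ⟨sR, hsR, hsR0, b, hCR⟩ := countR
  have htR : (0 : ℝ) < tR := by unfold tR; norm_num
  have htR' : tR ≤ 1 / 200 := by unfold tR; norm_num
  have ev := (((((((((eventually_ge_atTop 64000).and (f1_small 4 hη)).and (f1_small 4 htR)).and
    (f1_small 4 (half_pos hsR))).and (f1_small (12 / η) (half_pos hsB))).and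
    (f1_geom (q := 1 / 16) (by norm_num) (by norm_num) 0 (24 * ((C : ℝ) + 1)))).and
    (f1_geom (q := (sB / 2 + 1) / (sB + 1)) (by positivity)
      ((div_lt_one (by positivity)).2 (by linarith only [hsB])) a 24)).and
    (f1_geom (q := (sR / 2 + 1 / 2) / (sR + 1 / 2)) (by positivity)
      ((div_lt_one (by positivity)).2 (by linarith only [hsR])) b 48)).and
    (f1_geom (q := 1 / 2) (by norm_num) (by norm_num) 0 12)).and (f1_small 4 hsA)
  obtain ⟨N, hN⟩ := eventually_atTop.1 ev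
  refine ⟨max N 1, le_max_right _ _, fun n hn Γ hΓ hcov => ?_⟩
  obtain ⟨⟨⟨⟨⟨⟨⟨⟨⟨n1, n2⟩, n3⟩, n4⟩, n5⟩, n6⟩, n7⟩, n8⟩, n9⟩, n10⟩ :=
    hN n ((le_max_left _ _).trans hn)
  have hn1 : (64000 : ℝ) ≤ n := by exact_mod_cast n1
  obtain ⟨ψ, hψ⟩ := exists_weight hΓ
  have hv := weight_ne_top hΓ hcov hψ
  have hv0 := weight_ne_zero hΓ hψ
  have hT : ∀ ε : ℝ, 0 < ε → Cocpt Γ (Thick Γ ε) := thick_cocpt hΓ hψ hv
  have ht3 : (0 : ℝ) < t3 := by unfold t3; norm_num
  have ht1 : (0 : ℝ) < t1 := by unfold t1; norm_num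
  have hS := structure_thm hΓ hT ht3
  have hS2 := structure_thm hΓ hT (half_pos ht3)
  have hV := hasVC hΓ hS
  set vol := ∫⁻ v, ψ v ∂(nu n) with hvol
  set X := zc Γ * vol with hX
  have hXt : X ≠ ⊤ := ENNReal.mul_ne_top (zc_ne_top hΓ) hv
  have hX0 : X ≠ 0 := mul_ne_zero (one_pos.trans_le (one_le_zc Γ)).ne' hv0
  have hζ : 16⁻¹ * X ≠ 0 := mul_ne_zero (by norm_num) hX0
  set s : ℝ := 4 / ((n : ℝ) + 1) with hs
  set s' : ℝ := 12 / η / ((n : ℝ) + 1) with hs'
  have hs1 : 0 < s := by positivity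
  have hs'1 : 0 < s' := by clear * - η n sA C hsA n1; positivity
  have hsn : s * ((n : ℝ) + 1) = 4 := by rw [hs]; field_simp
  have hsn' : s' * ((n : ℝ) + 1) = 12 / η := by rw [hs']; field_simp
  have hJ1 : ∀ᶠ k : ℕ in atTop, (((fun k : ℕ => k + 1) k : ℕ) : ℝ) ≤
      1 / 2 * (s * (((k : ℝ) - 1) * ((n : ℝ) + 1))) := by
    clear * - s n hsn
    filter_upwards [eventually_ge_atTop 3] with k hk
    have hk' : (3 : ℝ) ≤ k := by exact_mod_cast hk
    rw [mul_comm ((k : ℝ) - 1), ← mul_assoc s, hsn]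
    push_cast
    linarith only [hk']
  have hJ2 : ∀ᶠ k : ℕ in atTop, (((fun k : ℕ => ⌈2 * ((k + 1 : ℕ) : ℝ) / η⌉₊) k : ℕ) : ℝ) ≤
      1 / 2 * (s' * (((k : ℝ) - 1) * ((n : ℝ) + 1))) := by
    clear * - η s' n sA C hsA hsn' hη hη1 a
    filter_upwards [eventually_ge_atTop 3] with k hk
    have hk' : (3 : ℝ) ≤ k := by exact_mod_cast hk
    have h1 := (Nat.ceil_lt_add_one (a := 2 * ((k + 1 : ℕ) : ℝ) / η) (by positivity)).le
    have h2 : 1 / 2 * (s' * (((k : ℝ) - 1) * ((n : ℝ) + 1))) = 6 * ((k : ℝ) - 1) / η := by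
      rw [mul_comm ((k : ℝ) - 1), ← mul_assoc s', hsn']
      ring
    rw [h2]
    refine h1.trans ?_
    rw [div_add_one hη.ne', div_le_div_iff_of_pos_right hη]
    push_cast
    linarith only [hk', hη1]
  have c1 : 4 * zc Γ * volW (HB Γ (t1 / 2)) ψ ≤ 16⁻¹ * X := by
    clear * - n Γ ψ N n1 hΓ hψ ht1 vol n9 X
    have h1 := vol_HB (by omega) hΓ hψ (half_pos ht1) (half_le_self ht1.le) le_rfl
    have h2 : volW (HB Γ t1) ψ ≤ vol := setLIntegral_le_lintegral _ _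
    have h3 := f1_cost (Z := zc Γ) (c := 4) (by norm_num) (h1.trans (mul_le_mul_right h2 _)) (by
      have : t1 / 2 / t1 = 1 / 2 := by field_simp
      rw [this]
      simp only [pow_zero, mul_one] at n9
      linarith only [n9])
    simpa using h3
  have c2 : 8 * zc Γ * ∫⁻ v, mult (sysA Γ η) (fun F => TubeS F s \ HB Γ t3) v * ψ v ∂(nu n) ≤
      16⁻¹ * X := by
    clear * - n Γ η s ψ sA C N n1 hΓ hψ hV hη hs1 n10 hsA0 hCA hsA hC0 hηd n2 n6 X
    have h1 := vol_sys (by omega) hΓ hψ (sysOK_A hΓ hV η) hη.le hs1 n10 hsA0 (dir_A hΓ hV hη.le)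
      (hCA n Γ hΓ η)
    rw [show ((C : ℝ≥0∞) ^ (n + 1)) = ENNReal.ofReal ((C : ℝ) ^ (n + 1)) by
      rw [ENNReal.ofReal_pow hC0, ENNReal.ofReal_natCast],
      ← ENNReal.ofReal_mul (by clear * - s η sA n n1 C hsA h1; positivity)] at h1
    have h3 := f1_cost (Z := zc Γ) (c := 8) (by norm_num) h1 (by
      clear * - s η sA C hsA hηd n2 hC0 n hη n1 n6
      have h4 : (s + η) / (sA + η) * ((C : ℝ) + 1) ≤ 1 / 16 := by
        rw [div_mul_eq_mul_div, div_le_iff₀ (by positivity)]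
        have : η * (32 * ((C : ℝ) + 1)) = sA := by rw [hηd]; field_simp
        have h7 := mul_le_mul_of_nonneg_right n2 (add_nonneg hC0 zero_le_one)
        linarith only [this, h7, hη]
      have h5 := pow_le_pow_left₀ (by positivity) h4 n
      have h6 : (C : ℝ) ^ (n + 1) ≤ ((C : ℝ) + 1) ^ (n + 1) :=
        pow_le_pow_left₀ hC0 (le_add_of_nonneg_right zero_le_one) _
      simp only [pow_zero, mul_one] at n6
      calc 8 * (3 * ((s + η) / (sA + η)) ^ n * (C : ℝ) ^ (n + 1))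
          ≤ 8 * (3 * ((s + η) / (sA + η)) ^ n * ((C : ℝ) + 1) ^ (n + 1)) := by gcongr
        _ = 24 * ((C : ℝ) + 1) * ((s + η) / (sA + η) * ((C : ℝ) + 1)) ^ n := by
          rw [mul_pow, pow_succ]
          ring
        _ ≤ 24 * ((C : ℝ) + 1) * (1 / 16) ^ n := by gcongr
        _ ≤ 1 / 16 := n6)
    simpa using h3
  have hcast : ∀ a : ℕ, ((n : ℝ≥0∞) + 2) ^ a = ENNReal.ofReal (((n : ℝ) + 2) ^ a) := fun a => by
    rw [ENNReal.ofReal_pow (by positivity), ENNReal.ofReal_add (by positivity) (by norm_num),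
      ENNReal.ofReal_natCast, ENNReal.ofReal_ofNat]
  have c3 : 8 * zc Γ * ∫⁻ v, mult (sysB Γ η) (fun F => TubeS F s' \ HB Γ t3) v * ψ v ∂(nu n) ≤
      16⁻¹ * X := by
    clear * - n Γ η s' ψ sB a N n1 hΓ hψ hs'1 sA C n5 hsB hsB0 hCB hsA hcast n7 X
    have h1 := vol_sys (by omega) hΓ hψ (sysOK_B hΓ η) zero_le_one hs'1
      (by linarith only [n5, hsB]) hsB0
      (dir_B η) (hCB n Γ hΓ)
    rw [hcast, ← ENNReal.ofReal_mul (by clear * - s' sB n η sA C hsA n1 hsB h1; positivity)] at h1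
    have h3 := f1_cost (Z := zc Γ) (c := 8) (by norm_num) h1 (by
      clear * - s' sB n a η sA C hsA n1 hsB n5 n7
      calc 8 * (3 * ((s' + 1) / (sB + 1)) ^ n * ((n : ℝ) + 2) ^ a)
          ≤ 8 * (3 * ((sB / 2 + 1) / (sB + 1)) ^ n * ((n : ℝ) + 2) ^ a) := by gcongr
        _ = 24 * (((sB / 2 + 1) / (sB + 1)) ^ n * ((n : ℝ) + 2) ^ a) := by ring
        _ ≤ 1 / 16 := n7)
    simpa using h3
  have c4 : 8 * zc Γ * ∫⁻ v, mult (sysR Γ) (fun F => TubeS F s \ HB Γ t3) v * ψ v ∂(nu n) ≤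
      16⁻¹ * X := by
    clear * - n Γ s ψ sR b N n1 hΓ hV hψ hv hS2 hs1 n3 hsn n4 hsR hCR hcast n8 X
    have h1 := volR (by omega) hΓ hV hψ hv hS2 hs1 n3 hsn.le
      (by linarith only [n4, hsR] : s ≤ sR) (hCR n Γ hΓ)
    rw [hcast, ← ENNReal.ofReal_ofNat 2, ← ENNReal.ofReal_mul (by positivity),
      ← ENNReal.ofReal_mul (by positivity)] at h1
    have h3 := f1_cost (Z := zc Γ) (c := 8) (by norm_num) h1 (by
      clear * - s sR n b n1 hsR n4 n8
      calc 8 * (2 * (3 * ((s + 1 / 2) / (sR + 1 / 2)) ^ n) * ((n : ℝ) + 2) ^ b)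
          ≤ 8 * (2 * (3 * ((sR / 2 + 1 / 2) / (sR + 1 / 2)) ^ n) * ((n : ℝ) + 2) ^ b) := by gcongr
        _ = 48 * (((sR / 2 + 1 / 2) / (sR + 1 / 2)) ^ n * ((n : ℝ) + 2) ^ b) := by ring
        _ ≤ 1 / 16 := n8)
    simpa using h3
  have hXr : 0 < X.toReal := ENNReal.toReal_pos hX0 hXt
  refine ⟨X.toReal / (4 * Real.pi ^ n), by positivity, ?_⟩
  filter_upwards [lower_bound hΓ hψ hv, cusp_cost (by omega) hΓ hψ hv hS hζ,
    family_cost hΓ hψ hv hS (sysOK_A hΓ hV η) hs1 (by linarith only [n3, htR', hs0]) _ hJ1 hζ,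
    family_cost hΓ hψ hv hS (sysOK_B hΓ η) hs'1 (by linarith only [n5, hsB0, hs0]) _ hJ2 hζ,
    family_cost hΓ hψ hv hS (sysOK_R hΓ) hs1 (by linarith only [n3, htR', hs0]) _ hJ1 hζ,
    eventually_ge_atTop 2]
    with k ⟨A0, f0, g0, b0⟩ k1 k2 k3 k4 hk
  obtain ⟨A1, l1, g1, b1⟩ := k1 A0 f0 g0
  have f1 : FiniteDimensional ℂ A1 := Submodule.finiteDimensional_of_le l1
  obtain ⟨A2, l2, g2, b2⟩ := k2 A1 f1 fun G hG => ⟨g0 G (l1 hG), g1 G hG⟩
  have f2 : FiniteDimensional ℂ A2 := Submodule.finiteDimensional_of_le l2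
  obtain ⟨A3, l3, g3, b3⟩ := k3 A2 f2 fun G hG => ⟨g0 G (l1 (l2 hG)), g1 G (l2 hG)⟩
  have f3 : FiniteDimensional ℂ A3 := Submodule.finiteDimensional_of_le l3
  obtain ⟨A4, l4, g4, b4⟩ := k4 A3 f3 fun G hG => ⟨g0 G (l1 (l2 (l3 hG))), g1 G (l2 (l3 hG))⟩
  have f4 : FiniteDimensional ℂ A4 := Submodule.finiteDimensional_of_le l4
  have hk' : (2 : ℝ) ≤ k := by exact_mod_cast hk
  refine ⟨A4, f4, ?_, fun F hF => ?_⟩
  · have h1 := f1_final hXt b0 b1 b2 b3 b4 c1 c2 c3 c4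
    have h2 : massF n (k * (n + 1)) ≤ ENNReal.ofReal ((Real.pi / k) ^ n) := by
      clear * - n k hk N n1 hn1 hk'
      have h5 : 2 * (n + 1) ≤ k * (n + 1) := Nat.mul_le_mul_right _ hk
      refine (massF_le (by omega)).trans (ENNReal.ofReal_le_ofReal ?_)
      have : (k : ℝ) ≤ ((k * (n + 1) : ℕ) : ℝ) - n - 1 := by
        have h6 := mul_le_mul_of_nonneg_left (show (1 : ℝ) ≤ n by linarith only [hn1])
          (show (0 : ℝ) ≤ k - 1 by linarith only [hk'])
        have h7 := mul_le_mul_of_nonneg_left (show (1 : ℝ) ≤ k - 1 by linarith only [hk'])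
          (show (0 : ℝ) ≤ n - 1 by linarith only [hn1])
        push_cast
        linarith only [h6, h7, hk']
      exact pow_le_pow_left₀ (div_nonneg Real.pi_pos.le (by linarith only [this, hk']))
        (div_le_div_of_nonneg_left Real.pi_pos.le (by linarith only [hk']) this) n
    have h3 : X ≤ ENNReal.ofReal (4 * ((Module.finrank ℂ A4 : ℝ) * (Real.pi / k) ^ n)) := by
      clear * - X n A4 k h1 h2
      rw [ENNReal.ofReal_mul (by norm_num), ENNReal.ofReal_mul (by positivity),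
        ENNReal.ofReal_ofNat, ENNReal.ofReal_natCast]
      exact h1.trans (by gcongr)
    have h4 := ENNReal.toReal_le_of_le_ofReal (by clear * - n A4 k hk h3; positivity) h3
    rw [div_mul_eq_mul_div, div_le_iff₀ (by positivity)]
    calc X.toReal * (k : ℝ) ^ n
        ≤ 4 * ((Module.finrank ℂ A4 : ℝ) * (Real.pi / k) ^ n) * (k : ℝ) ^ n := by clear * - k n X A4 h4 hk; gcongr
      _ = (Module.finrank ℂ A4 : ℝ) * (4 * Real.pi ^ n) := by
        clear * - n A4 k hk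
        rw [div_pow]
        field_simp
  · have hG := g0 F (l1 (l2 (l3 (l4 hF))))
    refine ⟨hG.hol, hG.inv, reduction hΓ hη (Nat.le_succ k) (J1 := Jc n k) ?_ (Nat.le_ceil _)
      hG.hol hG.inv (g1 F (l2 (l3 (l4 hF)))) (g2 F (l3 (l4 hF))) (g3 F (l4 hF)) (g4 F hF)⟩
    have h1 : ((k + 1 : ℕ) : ℝ) ≤ t2 * ((k : ℝ) * ((n : ℝ) + 1)) := by
      clear * - k n hn1 hk'
      have h6 := mul_le_mul_of_nonneg_left hn1 (show (0 : ℝ) ≤ k by linarith only [hk'])
      unfold t2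
      push_cast
      linarith only [h6, hk']
    exact Nat.cast_le.1 (h1.trans (Nat.le_ceil _))

end BallQ
end
end

-- merged part: Pool.Agent.Work.MP_72250f_ag.F5
section
/-! Final assembly. -/

open scoped ComplexConjugate ENNReal Topology Manifold ContDiff
open MeasureTheory Filter

noncomputable section

namespace BallQ

theorem f5_ne_zero {n : ℕ} {A : Submodule ℂ (V n → ℂ)} {x : ℝ} (hx : 0 < x)
    (h : x ≤ Module.finrank ℂ A) : ∃ F ∈ A, F ≠ 0 := by
  by_contra! h0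
  have : A = ⊥ := (Submodule.eq_bot_iff A).2 h0
  rw [this, finrank_bot] at h
  simp only [Nat.cast_zero] at h
  linarith only [hx, h]

theorem main_ext : ∃ N : ℕ, 1 ≤ N ∧ ∀ n : ℕ, N ≤ n → ∀ Γ : Subgroup (GG n), Proper Γ →
    FinCov Γ → ∃ c : ℝ, 0 < c ∧ ∀ᶠ k : ℕ in atTop, ∃ A : Submodule ℂ (V n → ℂ),
      FiniteDimensional ℂ A ∧ c * (k : ℝ) ^ n ≤ Module.finrank ℂ A ∧
      ∀ F ∈ A, IsHol (k * (n + 1)) F ∧ ExtP Γ k F := by
  obtain ⟨N, hN1, hN⟩ := main_forms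
  refine ⟨N, hN1, fun n hn Γ hΓ hc => ?_⟩
  obtain ⟨c, hc0, hk⟩ := hN n hn Γ hΓ hc
  obtain ⟨k0, ⟨A0, -, d0, g0⟩, hk0⟩ := (hk.and (eventually_ge_atTop 1)).exists
  have hk0' : (0 : ℝ) < k0 := by exact_mod_cast hk0
  obtain ⟨F0, hF0, hne⟩ := f5_ne_zero (by positivity) d0
  obtain ⟨a1, a2, a3⟩ := g0 F0 hF0
  refine ⟨c, hc0, hk.mono fun k ⟨A, f, d, g⟩ => ⟨A, f, d, fun F hF => ?_⟩⟩
  obtain ⟨b1, b2, b3⟩ := g F hF
  exact ⟨b1, fun U h Ω ψ hU hh h0 hq =>
    ext_full hΓ hc hk0 a1 a2 a3 hne b1 b2 (b3.mono_k (Nat.le_succ k) b1) hU hh h0 hq⟩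

theorem generalType_main.{u} : ∃ N : ℕ, ∀ n : ℕ, N ≤ n → ∀ Γ : Subgroup (BallLattice.PU n),
    BallLattice.IsLattice Γ → ∀ (Y : Type u) [TopologicalSpace Y]
      [ChartedSpace (BallLattice.E n) Y] [IsManifold 𝓘(ℂ, BallLattice.E n) ω Y] (Z : Set Y)
      (Ω : Set (BallLattice.E n)) (ψ : BallLattice.E n → Y), BallLattice.Thin n Z →
      BallLattice.QuotIso Γ Ω ψ Zᶜ → BallLattice.GeneralType n Y := by
  obtain ⟨N, hN1, hN⟩ := main_ext
  refine ⟨N, fun n hn Γ hΓ Y _ _ _ Z Ω ψ hZ hq => ?_⟩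
  obtain ⟨Λ, hΛ, hc, horb⟩ := bridge (hN1.trans hn) hΓ
  obtain ⟨c, hc0, hk⟩ := hN n hn Λ hΛ hc
  refine ⟨c, hc0, hk.mono fun k ⟨A, f, d, g⟩ => ⟨Module.finrank ℂ A, d, ?_⟩⟩
  let b := Module.finBasis ℂ A
  choose s hs hs' using fun i => exists_pluri hΛ horb hZ hq (g _ (b i).2).1 (g _ (b i).2).2
  refine ⟨s, Fintype.linearIndependent_iff.2 fun a ha => ?_, hs⟩
  have h1 : ((∑ i, a i • b i : A) : V n → ℂ) = 0 := by
    refine (g _ (∑ i, a i • b i : A).2).1.eq_zero hq.isOpen hq.nonempty hq.sub fun z hz => ?_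
    have h2 := congrFun ha (ψ z)
    simp only [Finset.sum_apply, Pi.smul_apply, smul_eq_mul, Pi.zero_apply] at h2
    simp only [Submodule.coe_sum, Submodule.coe_smul, Finset.sum_apply, Pi.smul_apply,
      smul_eq_mul, ← hs' _ z hz, ← mul_assoc, ← Finset.sum_mul, h2, zero_mul]
  exact Fintype.linearIndependent_iff.1 b.linearIndependent a (Subtype.ext h1)

theorem notRational_main : ∃ N : ℕ, ∀ n : ℕ, N ≤ n → ∀ Γ : Subgroup (BallLattice.PU n),
    BallLattice.IsLattice Γ → ¬ ∃ (P : MvPolynomial (Fin n) ℂ) (Ω : Set (BallLattice.E n))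
      (ψ : BallLattice.E n → BallLattice.E n), P ≠ 0 ∧
      BallLattice.QuotIso Γ Ω ψ {x | MvPolynomial.eval (fun i => x i) P ≠ 0} := by
  obtain ⟨N, hN1, hN⟩ := main_ext
  refine ⟨N, fun n hn Γ hΓ ⟨P, Ω, ψ, hP, hq⟩ => ?_⟩
  obtain ⟨Λ, hΛ, hc, horb⟩ := bridge (hN1.trans hn) hΓ
  obtain ⟨c, hc0, hk⟩ := hN n hn Λ hΛ hc
  obtain ⟨k, ⟨A, -, d, g⟩, hk1⟩ := (hk.and (eventually_ge_atTop 1)).exists
  have hk' : (0 : ℝ) < k := by exact_mod_cast hk1
  obtain ⟨F, hF, hne⟩ := f5_ne_zero (by positivity) d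
  refine hne (eq_zero_of_poly (hN1.trans hn) hΛ hk1 (g F hF).1 (g F hF).2 hP hq.nonempty
    (ψ := ψ) ⟨hq.isOpen, hq.sub, fun γ hγ z hz => ?_, ?_, fun z hz w hw => ?_, hq.image,
      hq.isOpenMap, fun W hW hWo f hf => ?_⟩)
  · exact hq.inv z hz _ ((horb z (hq.sub hz) _).2 ⟨γ, hγ, rfl⟩)
  · exact mdifferentiableOn_iff_differentiableOn.1 hq.hol
  · rw [hq.fib z hz w hw, horb z (hq.sub hz)]
  · exact mdifferentiableOn_iff_differentiableOn.1 (hq.desc W hW hWo f hf)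

end BallQ
end
end
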